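import Pool.Agent.Lib.CF.Blue2
import Pool.Agent.Lib.CF.Wind

/-! The initial curves: two polynomial graphs over discs. -/

open Set Metric Filter Topology

namespace Pool.Agent.Lib.SH.Init

open Pool.Agent.CF

/-- graph over a closed disc -/
def gd (f : ℂ → ℂ) (c : ℂ) (r : ℝ) : Set E := {y | ‖y.1 - c‖ ≤ r ∧ y.2 = f y.1}

/-- its equation -/
def gP (f : ℂ → ℂ) (y : E) : ℂ := y.2 - f y.1

/-- its end -/
def gE (f : ℂ → ℂ) (c : ℂ) (r : ℝ) : End := ⟨c, r, Kind.out, f⟩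

variable {f g : ℂ → ℂ} {c c' : ℂ} {r r' : ℝ}

theorem an (hf : CF.IsPoly fun y => f y.1) (z : ℂ) : AnalyticAt ℂ f z :=
  (hf.analyticAt (z, 0)).comp (f := fun z : ℂ => ((z, 0) : E))
    (analyticAt_id.prod analyticAt_const)

theorem cont (hf : CF.IsPoly fun y => f y.1) : Continuous f :=
  continuous_iff_continuousAt.2 fun z => (an hf z).continuousAt

theorem gP_poly (hf : CF.IsPoly fun y => f y.1) : CF.IsPoly (gP f) := CF.IsPoly.snd.sub hf

theorem dw_gP (f : ℂ → ℂ) (y : E) : dw (gP f) y = 1 := by simp [dw, gP]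

theorem dz_gP (f : ℂ → ℂ) (y : E) : dz (gP f) y = -deriv f y.1 := by
  simp [dz, gP, deriv_const_sub]

theorem gd_eq (f : ℂ → ℂ) (c : ℂ) (r : ℝ) :
    gd f c r = (fun z => ((z, f z) : E)) '' closedBall c r := by
  ext y
  exact ⟨fun h => ⟨y.1, mem_closedBall_iff_norm.2 h.1, Prod.ext rfl h.2.symm⟩, by
    rintro ⟨z, hz, rfl⟩; exact ⟨mem_closedBall_iff_norm.1 hz, rfl⟩⟩

theorem gd_cpt (hf : CF.IsPoly fun y => f y.1) (c : ℂ) (r : ℝ) : IsCompact (gd f c r) :=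
  gd_eq f c r ▸ (isCompact_closedBall c r).image (continuous_id.prodMk (cont hf))

theorem mem_loops {ι : Type} [Nonempty ι] {y : E} :
    y ∈ loops (fun _ : ι => gE f c r) ↔ ‖y.1 - c‖ = r ∧ y.2 = f y.1 :=
  ⟨fun ⟨_, _, h⟩ => ⟨mem_sphere_iff_norm.1 h.1, h.2⟩, fun h =>
    ⟨Classical.arbitrary ι, by simp [gE], mem_sphere_iff_norm.2 h.1, h.2⟩⟩

theorem isCurve {ι : Type} [Nonempty ι] [Subsingleton ι] (hf : CF.IsPoly fun y => f y.1)
    (hr : 0 < r) : IsCurve (gP f) (gd f c r) fun _ : ι => gE f c r where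
  poly := gP_poly hf
  cpt := gd_cpt hf c r
  zero y hy := sub_eq_zero.2 hy.2
  grad y _ := Or.inr (by simp [dw_gP])
  ww y _ h := by simp [dw_gP] at h
  ok _ := by simpa [End.ok, gE] using hr
  wan _ z _ := an hf z
  wz _ := Eventually.of_forall fun z => by simp [gP, gE]
  wreg _ z _ := by simp [dw_gP]
  loc _ z _ := Eventually.of_forall fun y => by simp [gd, gE, End.side, and_comm]
  int y hy h := by
    have h1 : ‖y.1 - c‖ < r := lt_of_le_of_ne hy.1 fun e => h (mem_loops.2 ⟨e, hy.2⟩)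
    have h2 : ContinuousAt (fun x : E => ‖x.1 - c‖) y := by fun_prop
    filter_upwards [h2.eventually (gt_mem_nhds h1)] with x a b using ⟨a.le, sub_eq_zero.1 b⟩
  conn := by
    have : gd f c r \ loops (fun _ : ι => gE f c r) = (fun z => ((z, f z) : E)) '' ball c r := by
      ext y
      refine ⟨fun h => ⟨y.1, mem_ball_iff_norm.2 (lt_of_le_of_ne h.1.1 fun e =>
        h.2 (mem_loops.2 ⟨e, h.1.2⟩)), Prod.ext rfl h.1.2.symm⟩, ?_⟩
      rintro ⟨z, hz, rfl⟩
      exact ⟨⟨(mem_ball_iff_norm.1 hz).le, rfl⟩, fun e =>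
        (mem_ball_iff_norm.1 hz).ne (mem_loops.1 e).1⟩
    rw [this]
    exact (convex_ball c r).isPreconnected.image _ (continuous_id.prodMk (cont hf)).continuousOn
  disj i j h := (h (Subsingleton.elim i j)).elim

theorem brv_gd (f : ℂ → ℂ) (Γ : Set E) : brv (gP f) Γ = ∅ := by
  ext b; simp [brv, dw_gP]

theorem half (hf : CF.IsPoly fun y => f y.1) (hg : CF.IsPoly fun y => g y.1) (hr : 0 < r) {x : E}
    (hx : x ∈ HULL.hull (gd f c r ∪ gd g c' r')) (h : gP g x ≠ 0) : ‖x.1 - c‖ ≤ r := by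
  by_contra hc
  obtain ⟨M, hM⟩ := (gd_cpt hf c r).exists_bound_of_continuousOn
    (gP_poly hg).continuous.continuousOn
  have h1 : 1 < ‖x.1 - c‖ / r := (one_lt_div hr).2 (not_le.1 hc)
  obtain ⟨n, hn⟩ := pow_unbounded_of_one_lt (max M 0 / ‖gP g x‖) h1
  have := mem_hull_iff.1 hx (fun y => ((y.1 - c) * (r : ℂ)⁻¹) ^ n * gP g y)
    ((((CF.IsPoly.fst.sub (CF.IsPoly.const c)).mul (CF.IsPoly.const _)).pow n).mul (gP_poly hg))
    (max M 0) (by
      rintro y (hy | hy)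
      · rw [norm_mul, norm_pow, norm_mul, norm_inv, Complex.norm_real, Real.norm_of_nonneg hr.le]
        exact (mul_le_of_le_one_left (norm_nonneg _) (pow_le_one₀ (by positivity)
          ((mul_inv_le_iff₀ hr).2 (by simpa using hy.1)))).trans ((hM y hy).trans (le_max_left _ _))
      · rw [show gP g y = 0 from sub_eq_zero.2 hy.2]; simp)
  rw [norm_mul, norm_pow, norm_mul, norm_inv, Complex.norm_real, Real.norm_of_nonneg hr.le,
    ← div_eq_mul_inv] at this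
  exact absurd ((div_lt_iff₀ (norm_pos_iff.2 h)).1 hn) (not_lt.2 this)

/-- the union of the two graphs is polynomially convex -/
theorem pc (hf : CF.IsPoly fun y => f y.1) (hg : CF.IsPoly fun y => g y.1) (hr : 0 < r) (hr' : 0 < r')
    (h : ∀ z, f z = g z → ‖z - c‖ ≤ r) :
    HULL.hull (gd f c r ∪ gd g c' r') ⊆ gd f c r ∪ gd g c' r' := by
  intro x hx
  have h0 := mem_hull_iff.1 hx (fun y => gP f y * gP g y) ((gP_poly hf).mul (gP_poly hg)) 0 (by
    rintro y (hy | hy)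
    · rw [show gP f y = 0 from sub_eq_zero.2 hy.2]; simp
    · rw [show gP g y = 0 from sub_eq_zero.2 hy.2]; simp)
  by_cases a : gP f x = 0
  · by_cases b : gP g x = 0
    · exact Or.inl ⟨h _ ((sub_eq_zero.1 a).symm.trans (sub_eq_zero.1 b)), sub_eq_zero.1 a⟩
    · exact Or.inl ⟨half hf hg hr hx b, sub_eq_zero.1 a⟩
  · exact Or.inr ⟨half hg hf hr' (union_comm _ _ ▸ hx) a,
      sub_eq_zero.1 ((mul_eq_zero.1 (norm_le_zero_iff.1 h0)).resolve_left a)⟩

/-- the monic polynomial with zero set `B` -/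
noncomputable def pB (B : Finset ℂ) (z : ℂ) : ℂ := ∏ b ∈ B, (z - b)

theorem pB_poly (B : Finset ℂ) : CF.IsPoly fun y => pB B y.1 :=
  CF.IsPoly.prod B fun b _ => CF.IsPoly.fst.sub (CF.IsPoly.const b)

theorem pB_eq {B : Finset ℂ} {z : ℂ} : pB B z = 0 ↔ z ∈ B := by
  simp [pB, Finset.prod_eq_zero_iff, sub_eq_zero]

theorem pB_deriv {B : Finset ℂ} {z : ℂ} (hz : z ∈ B) : deriv (pB B) z ≠ 0 := by
  classical
  have e : pB B = fun x => (x - z) * pB (B.erase z) x :=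
    funext fun x => (Finset.mul_prod_erase B (fun b => x - b) hz).symm
  have h := (((hasDerivAt_id z).sub_const z).fun_mul
    (an (pB_poly (B.erase z)) z).differentiableAt.hasDerivAt).deriv
  simp only [id, sub_self, zero_mul, one_mul, add_zero] at h
  rw [e, h]
  simp [pB_eq]

theorem pB_wind {B : Finset ℂ} {e : End} (hk : e.k = Kind.out) (h : ∀ b ∈ B, ‖b - e.c‖ < e.r) :
    HasWind e (pB B) B.card :=
  (HasWind.prod B fun b hb => HasWind.lin_in (h b hb)).cast (by simp [End.sgn, hk])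

/-- the nodes -/
noncomputable def nodes (B : Finset ℂ) : Finset E :=
  B.map ⟨fun b => (b, 0), fun _ _ h => (Prod.ext_iff.1 h).1⟩

theorem mem_nodes {B : Finset ℂ} {y : E} : y ∈ nodes B ↔ y.1 ∈ B ∧ y.2 = 0 := by
  simp only [nodes, Finset.mem_map, Function.Embedding.coeFn_mk]
  exact ⟨by rintro ⟨b, hb, rfl⟩; exact ⟨hb, rfl⟩, fun h => ⟨y.1, h.1, Prod.ext rfl h.2.symm⟩⟩

theorem nodal {ι κ : Type} {B : Finset ℂ} (h : ∀ b ∈ B, ‖b - c‖ < r ∧ ‖b - c'‖ < r') :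
    Nodal (gP fun _ => 0) (gP (pB B)) (gd (fun _ => 0) c r) (gd (pB B) c' r')
      (fun _ : ι => gE (fun _ => 0) c r) (fun _ : κ => gE (pB B) c' r') (nodes B) where
  node y hy := by
    obtain ⟨a, b⟩ := mem_nodes.1 hy
    refine ⟨⟨(h _ a).1.le, b⟩, ⟨(h _ a).2.le, b.trans (pB_eq.2 a).symm⟩, by simp [dw_gP],
      by simp [dw_gP], by simpa [jac, dw_gP, dz_gP] using pB_deriv a, ?_, ?_⟩
    · exact fun ⟨_, k⟩ => (h _ a).1.ne (mem_sphere_iff_norm.1 k.1)
    · exact fun ⟨_, k⟩ => (h _ a).2.ne (mem_sphere_iff_norm.1 k.1)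
  left y hy k := mem_nodes.2 ⟨pB_eq.1 ((sub_eq_zero.1 k).symm.trans hy.2), hy.2⟩
  right y hy k := mem_nodes.2 ⟨pB_eq.1 (hy.2.symm.trans (sub_eq_zero.1 k)), sub_eq_zero.1 k⟩

theorem wind_left {B : Finset ℂ} (h : ∀ b ∈ B, ‖b - c‖ < r) :
    HasWind (gE (fun _ => 0) c r) ((gE (fun _ => 0) c r).res (gP (pB B))) B.card :=
  (((HasWind.const (neg_ne_zero.2 one_ne_zero)).mul (pB_wind rfl h)).congr' fun z => by
    simp [End.res, gP, gE]).cast (zero_add _)

theorem wind_right {B : Finset ℂ} (h : ∀ b ∈ B, ‖b - c‖ < r) :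
    HasWind (gE (pB B) c r) ((gE (pB B) c r).res (gP fun _ => 0)) B.card :=
  (pB_wind rfl h).congr' fun z => by simp [End.res, gP, gE]

end Pool.Agent.Lib.SH.Init
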