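import Pool.Agent.Lib.SH.Blue1b
import Pool.Agent.Lib.HULL.LM

open Set Filter Topology Metric

noncomputable section

namespace Pool.Agent.Lib.SH

namespace BRIDGE

theorem hull_eq (K : Set E) : hull K = HULL.hull K := by
  ext x
  refine ⟨fun h p M hM => h _ ⟨p, fun _ => rfl⟩ M hM, ?_⟩
  rintro h p ⟨q, hq⟩ M hM
  rw [hq]; exact h q M fun y hy => hq y ▸ hM y hy

theorem noPeak_iff {X : Set E} {y : E} : HULL.NoPeak X y ↔ ¬ Peak X y :=
  ⟨fun h ⟨G, a, b⟩ => h G a b, fun h G a b => h ⟨G, a, b⟩⟩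

theorem np_of {X K Z : Set E} (h : NPZ X K Z) : ∀ y ∈ Z, y ∉ Bd X K Z → HULL.NoPeak Z y := by
  intro y hy hb
  have h1 : y ∉ K := fun a => hb ⟨hy, Or.inl a⟩
  have h2 : ∀ᶠ x in 𝓝 y, x ∈ X → x ∈ Z := by
    by_contra a; exact hb ⟨hy, Or.inr a⟩
  exact (noPeak_iff.2 (h.np y hy h1)).mono h2

theorem lre_contAt {u : E → ℝ} {Z : Set E} (h : LRe u Z) : ∀ y ∈ Z, ContinuousAt u y := by
  intro y hy
  obtain ⟨G, a, b⟩ := h y hy
  exact (Complex.continuous_re.continuousAt.comp a.continuousAt).congr (EventuallyEq.symm b)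

theorem lre_cont {u : E → ℝ} {Z : Set E} (h : LRe u Z) : ContinuousOn u Z :=
  fun y hy => (lre_contAt h y hy).continuousWithinAt

theorem lre_loc {u : E → ℝ} {Z : Set E} (h : LRe u Z) (y : E) (hy : y ∈ Z) :
    ∃ G : E → ℂ, AnalyticAt ℂ G y ∧ ∀ᶠ x in 𝓝 y, x ∈ Z → u x = (G x).re := by
  obtain ⟨G, a, b⟩ := h y hy
  exact ⟨G, a, b.mono fun _ c _ => c⟩

theorem norm_rot (w : ℂ) (θ : ℝ) : ‖w * Complex.exp (-(Complex.I * θ))‖ = ‖w‖ := by
  rw [norm_mul, Complex.norm_exp]; simp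

end BRIDGE

open BRIDGE

theorem st_usc : St_USC := by
  intro Y N hY h1 hN h2
  obtain ⟨η, a, b⟩ := HULL.usc2 hY hN (by rw [← hull_eq]; exact h1.trans h2)
  exact ⟨η / 2, half_pos a, by
    rw [hull_eq]; exact b _ (cthickening_subset_thickening' a (half_lt_self a) Y)⟩

theorem st_wermer : St_WERMER := by
  rintro K u x r hK ⟨q, hq⟩ hx hr
  rw [hull_eq] at hx ⊢
  rw [hull_eq]
  refine HULL.hull_mono ?_ (HULL.wermer (c := HULL.c2) HULL.c2.continuous HULL.c2.surjective hK q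
    hx (half_pos hr) (half_lt_self hr))
  rintro y (⟨a, b⟩ | ⟨a, b⟩)
  · have b' : ‖u y - u x‖ = r / 2 := by rw [hq, hq]; exact b
    exact Or.inl ⟨a, b'.ge, by rw [b']; linarith⟩
  · exact Or.inr ⟨a, by rw [mem_ofPred_eq, hq, hq]; exact b⟩

theorem st_rossi : St_ROSSI := by
  intro Y hY y hy hyY
  rw [hull_eq] at hy ⊢
  exact noPeak_iff.1 ((HULL.lm_hull hY).noPeak y hy (mem_univ _) hyY)

theorem st_mp : St_MP := by
  intro X K Z ψ c h hψ H
  refine HULL.maxp HULL.c2 (X := X) h.cpt hψ fun y hy hc => ?_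
  obtain ⟨a1, a2, G, a3, a4, a5⟩ := H y hy hc
  exact ⟨noPeak_iff.2 (h.np y hy a1), G, a3, a4,
    by filter_upwards [a2, a5] with x b1 b2 hx using ⟨b1 hx, b2 hx⟩⟩

theorem st_mpre : St_MPRe := by
  intro X K Z ψ c h hψ H
  exact HULL.maxre HULL.c2 h.cpt (lre_cont hψ) fun y hy hc =>
    ⟨np_of h y hy fun a => absurd (H y a) (not_le.2 hc), lre_loc hψ y hy⟩

theorem st_mpabs : St_MPabs := by
  intro X K Z F hh c h hF hL _ H
  refine HULL.maxabs HULL.c2 h.cpt (ψ := fun y => ‖F y‖ * Real.exp (-hh y))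
    (hF.continuousOn.norm.mul (lre_cont hL).neg.rexp)
    fun y hy hc => ⟨np_of h y hy fun a => absurd (H y a) (not_le.2 hc), ?_⟩
  obtain ⟨G, a, b⟩ := hL y hy
  refine ⟨fun x => F x * Complex.exp (-G x), (hF y hy).mul a.neg.cexp, ?_⟩
  filter_upwards [b] with x e _
  rw [norm_mul, Complex.norm_exp, e, Complex.neg_re]

theorem st_pull : St_PULL := by
  intro X K Ω Ω' a h hΩ H
  have hc : ContinuousOn (bc a) (Ω' ×ˢ univ) := fun y hy =>
    (((H y.1 hy.1).1.continuousAt.comp continuousAt_fst).prodMk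
      continuousAt_snd).continuousWithinAt
  refine ⟨?_, fun y hy => hy.1, fun y hy hK => ?_⟩
  · have e : ov (bc a ⁻¹' X) Ω' = Ω' ×ˢ univ ∩ bc a ⁻¹' ov X Ω := by
      ext y
      exact ⟨fun k => ⟨⟨k.2, trivial⟩, k.1, (H _ k.2).2.2⟩, fun k => ⟨k.2.1, k.1.1⟩⟩
    refine (hΩ.prod (h.cpt.image continuous_snd)).of_isClosed_subset ?_ fun y hy =>
      ⟨hy.2, bc a y, ⟨hy.1, (H _ hy.2).2.2⟩, rfl⟩
    rw [e]
    exact hc.preimage_isClosed_of_isClosed (hΩ.isClosed.prod isClosed_univ) h.cpt.isClosed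
  · obtain ⟨a1, a2, a3⟩ := H _ hy.2
    have h0 := noPeak_iff.2 (h.np (bc a y) ⟨hy.1, a3⟩ hK)
    refine noPeak_iff.1 (h0.pull (ψ := bc (a1.hasStrictDerivAt.localInverse _ _ _ a2)) ?_ ?_ ?_)
    · have k : AnalyticAt ℂ (fun x : E => a1.hasStrictDerivAt.localInverse _ _ _ a2 x.1) (bc a y) :=
        AnalyticAt.fun_comp (f := Prod.fst) (a1.analyticAt_localInverse a2) analyticAt_fst
      exact k.prod analyticAt_snd
    · have k : a1.hasStrictDerivAt.localInverse _ _ _ a2 (a y.1) = y.1 :=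
        HasStrictFDerivAt.localInverse_apply_image ..
      exact Prod.ext k rfl
    · have := (continuous_fst.tendsto (bc a y)).eventually
        (a1.hasStrictDerivAt.eventually_right_inverse a2)
      filter_upwards [this] with x e using Prod.ext e rfl

theorem st_lbt : St_LBT := by
  intro f z1 ρ hf hb hρ
  have hb0 : 0 < ‖dbar f z1‖ := norm_pos_iff.2 hb
  have h1 : ∀ᶠ z in 𝓝 z1, DifferentiableAt ℝ f z :=
    (hf.eventually (by simp)).mono fun z h => h.differentiableAt one_ne_zero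
  have h2 : ∀ᶠ z in 𝓝 z1, ‖fderiv ℝ f z - fderiv ℝ f z1‖ < ‖dbar f z1‖ / 8 :=
    ((hf.continuousAt_fderiv one_ne_zero).sub continuousAt_const).norm.eventually
      (gt_mem_nhds (by simpa using hb0))
  obtain ⟨r0, hr0, h3⟩ := nhds_basis_closedBall.eventually_iff.1 (h1.and h2)
  obtain ⟨r, hr, r1, r2⟩ : ∃ r > 0, r ≤ ρ ∧ 2 * r ≤ r0 :=
    ⟨min ρ (r0 / 2), by positivity, min_le_left _ _, by linarith [min_le_right ρ (r0 / 2)]⟩
  obtain ⟨κ, hκ, k1, k2, k3⟩ : ∃ κ > 0, κ ≤ r / 2 ∧ κ ≤ ‖dbar f z1‖ / 8 ∧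
      κ ≤ ‖dbar f z1‖ * r / 16 :=
    ⟨min (r / 2) (min (‖dbar f z1‖ / 8) (‖dbar f z1‖ * r / 16)), by positivity, min_le_left _ _,
      (min_le_right _ _).trans (min_le_left _ _), (min_le_right _ _).trans (min_le_right _ _)⟩
  refine ⟨r, hr, r1, κ, hκ, fun X K g hX H hg y0 hy0 a1 a2 => ?_⟩
  have h4 : ∀ z, ‖z - z1‖ ≤ 2 * r → DifferentiableAt ℝ f z ∧
      ‖fderiv ℝ f z - fderiv ℝ f z1‖ < ‖dbar f z1‖ / 8 := fun z hz =>
    h3 (mem_closedBall_iff_norm.2 (hz.trans r2))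
  have hca : ∀ y : E, ‖y.1 - z1‖ ≤ 2 * r → ContinuousAt (fun y : E => y.2 - f y.1) y :=
    fun y hy => continuousAt_snd.sub ((h4 _ hy).1.continuousAt.comp continuousAt_fst)
  set Z : Set E := X ∩ (closedBall z1 (2 * r) ×ˢ univ ∩
    (fun y : E => y.2 - f y.1) ⁻¹' closedBall 0 r) with hZ
  have mZ : ∀ y, y ∈ Z ↔ y ∈ X ∧ ‖y.1 - z1‖ ≤ 2 * r ∧ ‖y.2 - f y.1‖ ≤ r := fun y => by
    simp [hZ, dist_eq_norm]
  have hZc : IsCompact Z := by
    have c1 : IsCompact ((fun p : ℂ × ℂ => ((p.1, p.2 + f p.1) : E)) ''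
        (closedBall z1 (2 * r) ×ˢ closedBall 0 r)) :=
      ((isCompact_closedBall _ _).prod (isCompact_closedBall _ _)).image_of_continuousOn
        fun p hp => (continuousAt_fst.prodMk (continuousAt_snd.add
          ((h4 _ (mem_closedBall_iff_norm.1 hp.1)).1.continuousAt.comp
            continuousAt_fst))).continuousWithinAt
    refine c1.of_isClosed_subset (hX.inter (ContinuousOn.preimage_isClosed_of_isClosed
      (fun y hy => (hca y (mem_closedBall_iff_norm.1 hy.1)).continuousWithinAt)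
      (isClosed_closedBall.prod isClosed_univ) isClosed_closedBall)) fun y hy => ?_
    exact ⟨(y.1, y.2 - f y.1), ⟨hy.2.1.1, hy.2.2⟩, by simp⟩
  have tri : ∀ t : ℂ, ‖t - z1‖ ≤ ‖t - y0.1‖ + r := fun t => by
    have := norm_add_le (t - y0.1) (y0.1 - z1)
    rw [sub_add_sub_cancel] at this; linarith
  refine HULL.lbt HULL.c2 (K := K) hZc (z := Prod.fst) (w := Prod.snd)
    (fun _ _ => analyticAt_fst) (fun _ _ => analyticAt_snd) (fun _ _ _ _ a b => Prod.ext a b)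
    (f := g) (fderiv ℝ f z1) (b := dbar f z1) (z1 := y0.1) rfl hb (half_pos hr)
    (fun t ht => ?_) (fun y hy _ => ?_) (fun y hy hK _ => ?_) (fun y hy hK b => ?_) y0
    ((mZ _).2 ⟨hy0, by linarith, a2⟩) (by simpa using hr)
  · have b1 : ‖t - z1‖ ≤ 2 * r := by linarith [tri t]
    obtain ⟨b2, -, b3⟩ := hg t (mem_closedBall_iff_norm.2 b1)
    have := norm_add_le (fderiv ℝ g t - fderiv ℝ f t) (fderiv ℝ f t - fderiv ℝ f z1)
    rw [sub_add_sub_cancel] at this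
    exact ⟨b2, by linarith [(h4 t b1).2]⟩
  · obtain ⟨b1, b2, b3⟩ := (mZ _).1 hy
    have := norm_sub_le (y.2 - f y.1) (g y.1 - f y.1)
    rw [sub_sub_sub_cancel_right] at this
    linarith [(H y b1 b2 b3).2.2, (hg _ (mem_closedBall_iff_norm.2 b2)).2.1]
  · obtain ⟨b1, b2, b3⟩ := (mZ _).1 hy
    exact (H y b1 b2 b3).2.1 hK
  · obtain ⟨b1, b2, b3⟩ := (mZ _).1 hy
    refine (noPeak_iff.2 ((H y b1 b2 b3).1 hK)).mono ?_
    have c1 : ∀ᶠ x in 𝓝 y, ‖x.2 - f x.1‖ < r :=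
      (hca y b2).norm.eventually (gt_mem_nhds (show ‖y.2 - f y.1‖ < r by
        linarith [(H y b1 b2 b3).2.2]))
    have c2 : ∀ᶠ x : E in 𝓝 y, ‖x.1 - z1‖ < 2 * r :=
      (continuousAt_fst.sub continuousAt_const).norm.eventually
        (gt_mem_nhds (show ‖y.1 - z1‖ < 2 * r by linarith [tri y.1]))
    filter_upwards [c1, c2] with x d1 d2 hx using (mZ _).2 ⟨hx, d2.le, d1.le⟩

theorem st_sec : St_SEC := by
  intro X K Z Q g θ h hQ h0 h1 H
  have := HULL.sec HULL.c2 h.cpt (np_of h) (Q := fun y => Q y * Complex.exp (-(Complex.I * θ)))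
    (hQ.continuousOn.mul continuousOn_const) (fun y hy _ => (hQ y hy).mul analyticAt_const)
    (g := g / 2) (by linarith) (by linarith) (fun y _ hb => by rw [norm_rot]; exact H y hb)
  intro y hy
  have a := this y hy
  rwa [norm_rot] at a

theorem st_tr : St_TR := by
  intro X K Z Q om ε m h hQ hL hε hI H
  exact HULL.tr_log HULL.c2 h.cpt (np_of h) hQ.continuousOn (fun y hy _ => hQ y hy) hε hI
    (lre_cont hL) (fun y hy _ => lre_loc hL y hy) fun y _ hb => H y hb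

theorem st_conf : St_CONF := by
  intro X K Z Q u ε θ t h a hZ hQ hε hπ ht hgap hL hh hB y hy ha h1 h2
  set R : E → ℂ := fun y => Q y * Complex.exp (-(Complex.I * θ)) with hR
  have hRn : ∀ y, ‖R y‖ = ‖Q y‖ := fun y => norm_rot _ _
  have hRc : ContinuousOn R Z := hQ.continuousOn.mul continuousOn_const
  have hπ' : ε < Real.pi := by linarith
  have e : {y | y ∈ Z ∧ 1 ≤ ‖Q y‖ ∧ |(R y).arg| ≤ ε} = {y | y ∈ Z ∧ 1 ≤ ‖R y‖ ∧ |(R y).arg| ≤ ε} := by
    simp only [hRn]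
  have hc : IsCompact {y | y ∈ Z ∧ 1 ≤ ‖Q y‖ ∧ |(R y).arg| ≤ ε} := by
    rw [e]
    exact hZ.cpt.of_isClosed_subset (HULL.isClosed_sector hZ.cpt.isClosed hRc hπ') fun y h => h.1
  refine HULL.conf HULL.c2 (B := Bd X K Z ∪ {y | ‖Q y‖ = 1}) hc (fun y hy hb => ?_) (Q := R)
    (hRc.mono fun y h => h.1) (fun y hy _ => (hQ y hy.1).mul analyticAt_const) hε hπ' hπ'
    (fun y hy _ => Or.inl hy.2.2) (lre_cont hL) (fun y hy _ => lre_loc hL y hy) ht
    (fun y hy _ _ => hh y hy.1 hy.2.1 hy.2.2) (fun y _ hb b1 b2 => ?_) ha y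
    ⟨hy, (Real.one_le_exp ha).trans h1, h2⟩ (by rwa [hRn]) h2
  · have b1 : 1 < ‖R y‖ := by
      rw [hRn]; exact lt_of_le_of_ne hy.2.1 fun a => hb (Or.inr a.symm)
    refine (np_of hZ y hy.1 fun a => hb (Or.inl a)).mono ?_
    filter_upwards [HULL.ev_sector (hRc y hy.1) hπ' b1 hy.2.2
      (show |(R y).arg| < 2 * ε by linarith [hy.2.2])] with x a hx
    have a1 := (a hx).1
    rw [hRn] at a1
    exact ⟨hx, a1.le, (hgap x hx a1).resolve_right (not_le.2 (a hx).2)⟩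
  · rw [hRn] at b1
    exact hB y (hb.resolve_right fun a => b1.ne' a) b1 b2

end Pool.Agent.Lib.SH
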