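import Pool.Agent.Lib.SH.Blue1b

/-! The annulus lemma. -/

open Set Filter Topology Metric

noncomputable section

namespace Pool.Agent.Lib.SH

namespace AR

/-- the chart of a box -/
def ch (t rb : ℝ) (ξ : ℂ) : ℂ := Complex.exp (Complex.I * (t + rb * ξ))

theorem norm_ch (t rb : ℝ) (ξ : ℂ) : ‖ch t rb ξ‖ = Real.exp (-(rb * ξ.im)) := by
  rw [ch, Complex.norm_exp]
  simp

theorem ch_eq (t rb : ℝ) (ξ : ℂ) :
    ch t rb ξ = Complex.exp (Complex.I * ((t + rb * ξ.re : ℝ) + (rb * ξ.im : ℝ) * Complex.I)) := by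
  rw [ch]
  congr 2
  conv_lhs => rw [← Complex.re_add_im ξ]
  push_cast
  ring

theorem ch_close {t rb : ℝ} (h0 : 0 < rb) (h1 : rb ≤ 1 / 8) {ξ : ℂ} (hξ : ξ ∈ box 0 1 1) :
    ‖ch t rb ξ - Complex.exp (Complex.I * t)‖ ≤ 4 * rb := by
  have h2 : ‖ξ‖ ≤ 2 := by
    have := Complex.norm_le_abs_re_add_abs_im ξ
    have h3 := hξ.1
    have h4 := hξ.2
    rw [sub_zero] at h3
    linarith
  have h3 : ‖Complex.I * (rb * ξ)‖ ≤ 2 * rb := by
    rw [norm_mul, norm_mul, Complex.norm_I, one_mul, Complex.norm_real, Real.norm_of_nonneg h0.le]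
    nlinarith
  have h4 : ch t rb ξ - Complex.exp (Complex.I * t) =
      Complex.exp (Complex.I * t) * (Complex.exp (Complex.I * (rb * ξ)) - 1) := by
    rw [ch, mul_add, Complex.exp_add]; ring
  have h5 := Complex.norm_exp_sub_one_le (h3.trans (by linarith))
  rw [h4, norm_mul, Complex.norm_exp_I_mul_ofReal, one_mul]
  linarith

variable {W : Type} {x : W → ℂ} {ρ0 : W → ℝ}

theorem ch_mem {t rb h : ℝ} (h0 : 0 < rb) (h1 : rb ≤ 1 / 8) (hh : 2 * rb ≤ h) (hρ : ∀ j, 4 * rb ≤ ρ0 j)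
    (ht : ∀ j, 2 * ρ0 j ≤ ‖Complex.exp (Complex.I * t) - x j‖) {ξ : ℂ} (hξ : ξ ∈ box 0 1 1) :
    ch t rb ξ ∈ annW h x ρ0 := by
  have h2 := abs_le.1 hξ.2
  refine ⟨?_, ?_, fun j => ?_⟩
  · rw [norm_ch, Real.exp_le_exp]; nlinarith
  · rw [norm_ch, Real.exp_le_exp]; nlinarith
  · have h3 := ch_close (t := t) h0 h1 hξ
    have h4 := norm_sub_le_norm_sub_add_norm_sub (Complex.exp (Complex.I * t)) (ch t rb ξ) (x j)
    rw [norm_sub_rev (Complex.exp _) (ch t rb ξ)] at h4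
    linarith [ht j, hρ j]

theorem arc_mem {t rb : ℝ} (h0 : 0 < rb) (h1 : rb ≤ 1 / 8) (hρ : ∀ j, 4 * rb ≤ ρ0 j)
    (ht : ∀ j, 2 * ρ0 j ≤ ‖Complex.exp (Complex.I * t) - x j‖) {u : ℝ} (hu : u ∈ Icc (-1 : ℝ) 1) :
    t + rb * u ∈ arcW x ρ0 := by
  have h2 : (u : ℂ) ∈ box 0 1 1 := ⟨by simpa [abs_le] using hu, by simp⟩
  intro j
  have h3 := (ch_mem h0 h1 le_rfl hρ ht h2).2.2 j
  rw [ch] at h3
  push_cast
  exact h3

theorem ss_nonneg (e : ℝ) (v : ℂ) : 0 ≤ ss e v := le_min (norm_nonneg _) (norm_nonneg _)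

theorem pw_scale {J : Set ℝ} {e ι ι' C0 ιN t rb : ℝ} {Ψ Ψy : ℝ → ℝ → ℂ} (h : PW J e ι ι' C0 0 Ψ Ψy)
    (h0 : 0 < rb) (h1 : rb ≤ 1) (hι : ι ≤ rb * ιN) (hJ : ∀ u ∈ Icc (-1 : ℝ) 1, t + rb * u ∈ J) :
    PW (Icc (-1) 1) e ιN (ι' / rb) (C0 * rb) 0 (fun u s => Ψ (t + rb * u) (rb * s))
      (fun u s => rb * Ψy (t + rb * u) (rb * s)) := by
  have hp := h.pos
  have hle := h.le
  have hN : 0 < ιN := by
    by_contra hc
    have := mul_nonpos_of_nonneg_of_nonpos h0.le (not_lt.1 hc)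
    linarith
  have hιN : ι ≤ ιN := hι.trans (by nlinarith)
  have hs : ∀ s ∈ Icc (-(2 * (ι' / rb))) (2 * (ι' / rb)), rb * s ∈ Icc (-(2 * ι')) (2 * ι') := by
    intro s hs
    have e1 : rb * (2 * (ι' / rb)) = 2 * ι' := by field_simp
    constructor
    · have := mul_le_mul_of_nonneg_left hs.1 h0.le
      rw [mul_neg, e1] at this
      exact this
    · have := mul_le_mul_of_nonneg_left hs.2 h0.le
      rw [e1] at this
      exact this
  refine ⟨by positivity, ?_, fun u hu s hs' => ?_, fun u hu s hs' => ?_, fun u hu s hs' hl => ?_,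
    fun u hu s hs' hl u' hu' hd => ?_, fun u hu s hs' hl => ?_⟩
  · rw [div_le_iff₀ h0]; linarith
  · have h2 := (h.der _ (hJ u hu) _ (hs s hs')).scomp s ((hasDerivAt_id s).const_mul rb)
    simpa [Function.comp_def] using h2
  · have h2 := h.hc _ (hJ u hu) _ (hs s hs')
    have h3 : 0 ≤ (Ψy (t + rb * u) (rb * s)).re := by
      by_contra hc
      have := mul_neg_of_pos_of_neg (hp.trans_le hle) (not_le.1 hc)
      linarith [abs_nonneg (Ψy (t + rb * u) (rb * s)).im]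
    rw [Complex.im_ofReal_mul, Complex.re_ofReal_mul, abs_mul, abs_of_pos h0, mul_left_comm]
    exact mul_le_mul_of_nonneg_left (h2.trans (mul_le_mul_of_nonneg_right hιN h3)) h0.le
  · have h2 := h.hb _ (hJ u hu) _ (hs s hs') hl
    rw [Complex.re_ofReal_mul, ← mul_assoc, div_mul_cancel₀ _ h0.ne']
    exact h2
  · have h3 : |t + rb * u' - (t + rb * u)| = rb * |u' - u| := by
      rw [show t + rb * u' - (t + rb * u) = rb * (u' - u) by ring, abs_mul, abs_of_pos h0]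
    have h4 : uIcc (t + rb * u) (t + rb * u') ⊆ J := by
      intro v hv
      have hu2 := hu' right_mem_uIcc
      have h5 : (v - t) / rb ∈ Icc (-1 : ℝ) 1 := by
        rw [mem_Icc, le_div_iff₀ h0, div_le_iff₀ h0]
        rcases mem_uIcc.1 hv with h6 | h6 <;> constructor <;> nlinarith [hu.1, hu.2, hu2.1, hu2.2, h6.1, h6.2]
      have := hJ _ h5
      rwa [show t + rb * ((v - t) / rb) = v by field_simp; ring] at this
    have h2 := h.hd _ (hJ u hu) _ (hs s hs') hl (t + rb * u') h4 (by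
      rw [h3]; nlinarith [abs_nonneg (u' - u)])
    rw [h3] at h2
    refine ⟨h2.1.trans (le_of_eq (by ring)), h2.2.trans ?_⟩
    refine mul_le_mul_of_nonneg_right ?_ (ss_nonneg _ _)
    rw [← mul_assoc]
    refine mul_le_mul_of_nonneg_right ?_ (abs_nonneg _)
    nlinarith
  · exact (h.he _ (hJ u hu) _ (hs s hs') hl).trans (mul_le_mul_of_nonneg_right hιN (ss_nonneg _ _))

theorem cpt_box (σ : ℝ) : IsCompact (box 0 1 σ) := by
  refine (isCompact_closedBall (0 : ℂ) (1 + σ)).of_isClosed_subset ?_ fun ξ hξ => ?_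
  · have h1 : IsClosed {z : ℂ | |z.re - 0| ≤ 1} := isClosed_le (by fun_prop) continuous_const
    have h2 : IsClosed {z : ℂ | |z.im| ≤ σ} := isClosed_le (by fun_prop) continuous_const
    exact h1.inter h2
  · have := Complex.norm_le_abs_re_add_abs_im ξ
    have h3 := hξ.1
    have h4 := hξ.2
    rw [sub_zero] at h3
    rw [mem_closedBall_zero_iff]
    linarith

theorem an_ch (t rb : ℝ) (ξ : ℂ) : AnalyticAt ℂ (ch t rb) ξ := by
  unfold ch; fun_prop

theorem der_ch (t : ℝ) {rb : ℝ} (h0 : 0 < rb) (ξ : ℂ) : deriv (ch t rb) ξ ≠ 0 := by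
  have h1 : HasDerivAt (ch t rb) (ch t rb ξ * (Complex.I * (rb * 1))) ξ :=
    ((((hasDerivAt_id ξ).const_mul (rb : ℂ)).const_add (t : ℂ)).const_mul Complex.I).cexp
  rw [h1.deriv]
  have : (rb : ℂ) ≠ 0 := by exact_mod_cast h0.ne'
  simp [ch, this]

theorem an_bc {a : ℂ → ℂ} {y : E} (h : AnalyticAt ℂ a y.1) : AnalyticAt ℂ (bc a) y :=
  (h.comp analyticAt_fst).prod analyticAt_snd

/-- the weighted quantity -/
def Ph (V : E → ℂ) (e : ℝ) (w : ℂ → ℝ) (γ : ℝ) (y : E) : ℝ :=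
  ‖pp e (V y)‖ * Real.exp (-(w y.1 + γ * Real.log ‖y.1‖))

theorem Ph_eq (V : E → ℂ) (e : ℝ) (w : ℂ → ℝ) (γ : ℝ) {y : E} (hy : 0 < ‖y.1‖) :
    ‖pp e (V y)‖ * Real.exp (-w y.1) * ‖y.1‖ ^ (-γ) = Ph V e w γ y := by
  rw [Ph, Real.rpow_def_of_pos hy, mul_assoc, ← Real.exp_add]
  congr 2
  ring

theorem lre {w : ℂ → ℝ} {Ω : Set ℂ} (hw : LRe1 w Ω) (γ : ℝ) {Z : Set E} (hZ : ∀ y ∈ Z, y.1 ∈ Ω ∧ y.1 ≠ 0) :
    LRe (fun y => w y.1 + γ * Real.log ‖y.1‖) Z := by
  intro y hy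
  obtain ⟨G, hG, he⟩ := hw _ (hZ y hy).1
  have h0 := (hZ y hy).2
  refine ⟨fun v => G v.1 + γ * (Complex.log (v.1 / y.1) + Real.log ‖y.1‖), ?_, ?_⟩
  · refine (hG.comp analyticAt_fst).add (analyticAt_const.mul (AnalyticAt.add ?_ analyticAt_const))
    refine AnalyticAt.clog (analyticAt_fst.div_const) ?_
    rw [div_self h0]
    exact Complex.one_mem_slitPlane
  · have h1 : ∀ᶠ v : E in 𝓝 y, w v.1 = (G v.1).re := continuous_fst.continuousAt.eventually he
    have h2 : ∀ᶠ v : E in 𝓝 y, v.1 ≠ 0 := continuous_fst.continuousAt.eventually_ne h0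
    filter_upwards [h1, h2] with v hv1 hv2
    rw [hv1, Complex.add_re, Complex.re_ofReal_mul, Complex.add_re, Complex.log_re, Complex.ofReal_re, norm_div,
      Real.log_div (norm_ne_zero_iff.2 hv2) (norm_ne_zero_iff.2 h0)]
    ring

theorem lre_cont {u : E → ℝ} {Z : Set E} (h : LRe u Z) : ContinuousOn u Z := fun y hy => by
  obtain ⟨G, hG, he⟩ := h y hy
  exact ((Complex.continuous_re.continuousAt.comp hG.continuousAt).congr
    (he.mono fun _ hv => hv.symm)).continuousWithinAt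

theorem an_pp {V : E → ℂ} {Z : Set E} (h : AnalyticOnNhd ℂ V Z) (e : ℝ) :
    AnalyticOnNhd ℂ (fun y => pp e (V y)) Z := fun y hy =>
  (h y hy).mul ((h y hy).sub analyticAt_const)

theorem ann_pos {h : ℝ} {z : ℂ} (hz : z ∈ annW h x ρ0) : 0 < ‖z‖ := (Real.exp_pos _).trans_le hz.1

end AR

open AR in
theorem st_ar (hNW : St_NW) (hP : St_PULL) (hM : St_MPabs) : St_AR := by
  intro Λ C0 γ rb hγ h0 h1
  obtain ⟨σ, hσ, hσ1, hN⟩ := hNW (1 / 8) (by norm_num)
  obtain ⟨ιN, hιN, hN⟩ := hN σ (2 * (γ * (rb * σ))) (γ * (rb * σ) / 4) Λ (C0 * rb) hσ le_rfl (by positivity)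
    (by positivity)
  refine ⟨min (rb * ιN) (rb * σ / 8), by positivity, ?_⟩
  set ι := min (rb * ιN) (rb * σ / 8) with hι
  have hι1 : ι ≤ rb * ιN := min_le_left _ _
  have hι2 : ι ≤ rb * σ / 8 := min_le_right _ _
  have hι3 : ι ≤ ιN := hι1.trans (by nlinarith)
  have hrs : 0 < rb * σ := by positivity
  have hrs1 : rb * σ ≤ rb := by nlinarith
  intro W _ x ρ0 h X K V e w he hh _ hx hnp hV hw hg hAW htop hwin
  obtain ⟨ι', Ψ, Ψy, hPW, hK1, hK2, hbot⟩ := hAW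
  have hρ : ∀ j, 4 * rb ≤ ρ0 j := fun j => (hx j).2
  have heq : ∀ y ∈ ov X (annW h x ρ0),
      ‖pp e (V y)‖ * Real.exp (-w y.1) * ‖y.1‖ ^ (-γ) = Ph V e w γ y := fun y hy => Ph_eq V e w γ (ann_pos hy.2)
  have hlre : LRe (fun y => w y.1 + γ * Real.log ‖y.1‖) (ov X (annW h x ρ0)) :=
    lre hw γ fun y hy => ⟨hy.2, norm_pos_iff.1 (ann_pos hy.2)⟩
  have hcont : ContinuousOn (Ph V e w γ) (ov X (annW h x ρ0)) :=
    (an_pp hV e).continuousOn.norm.mul (lre_cont hlre).neg.rexp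
  have hbdd : BddAbove (Ph V e w γ '' (ov X (annW h x ρ0) \ K)) :=
    (hnp.cpt.bddAbove_image hcont).mono (image_mono sdiff_subset)
  intro y0 hy0 hy0K
  rw [heq y0 hy0]
  by_contra hc
  push Not at hc
  set M := sSup (Ph V e w γ '' (ov X (annW h x ρ0) \ K)) with hMdef
  have hle : ∀ y ∈ ov X (annW h x ρ0), y ∉ K → Ph V e w γ y ≤ M := fun y hy hK =>
    le_csSup hbdd ⟨y, ⟨hy, hK⟩, rfl⟩
  have hM1 : 1 < M := hc.trans_le (hle y0 hy0 hy0K)
  have hM0 : 0 < M := by linarith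
  have hw2 : ∀ y ∈ ov X (annW h x ρ0), y ∉ K → ∀ j, ‖y.1 - x j‖ ≤ 3 * ρ0 j → Ph V e w γ y ≤ M / 2 :=
    fun y hy hK j hj => by
      rw [← heq y hy]
      exact hwin M hM1 (fun y hy hK => by rw [heq y hy]; exact hle y hy hK) y hy hK j hj
  set c := max (max 1 (M / 2)) (M * Real.exp (-(γ * (rb * σ) / 4))) with hcdef
  have hc1 : 1 ≤ c := (le_max_left _ _).trans (le_max_left _ _)
  have hc2 : M / 2 ≤ c := (le_max_right _ _).trans (le_max_left _ _)
  have hc3 : M * Real.exp (-(γ * (rb * σ) / 4)) ≤ c := le_max_right _ _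
  have hcM : c < M := by
    refine max_lt (max_lt hM1 (by linarith)) ?_
    have : Real.exp (-(γ * (rb * σ) / 4)) < 1 := Real.exp_lt_one_iff.2 (by have := mul_pos hγ hrs; linarith)
    nlinarith
  have hbox : ∀ (t : ℝ), (∀ j, 2 * ρ0 j ≤ ‖Complex.exp (Complex.I * t) - x j‖) → ∀ v : E,
      v.1 ∈ box 0 (1 / 2) σ → v.1.im ≤ σ / 4 → bc (ch t rb) v ∈ X → bc (ch t rb) v ∉ K →
      Ph V e w γ (bc (ch t rb) v) ≤ c := by
    intro t ht v hv hv4 hvX hvK
    obtain ⟨g, θ0, hga, hgb, hgi⟩ := hg t ht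
    have hsub : box 0 1 σ ⊆ box 0 1 1 := fun ξ hξ => ⟨hξ.1, hξ.2.trans hσ1⟩
    have hmem : ∀ ξ ∈ box 0 1 σ, ch t rb ξ ∈ annW h x ρ0 := fun ξ hξ => ch_mem h0 h1 hh hρ ht (hsub hξ)
    have hov : ∀ u ∈ ov (bc (ch t rb) ⁻¹' X) (box 0 1 σ), bc (ch t rb) u ∈ ov X (annW h x ρ0) :=
      fun u hu => ⟨hu.1, hmem _ hu.2⟩
    have harc : ∀ ξ ∈ box 0 1 σ, t + rb * ξ.re ∈ arcW x ρ0 := fun ξ hξ =>
      arc_mem h0 h1 hρ ht (by simpa [abs_le] using hξ.1)
    have hQ : ∀ u : E, u.1 ∈ box 0 1 σ →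
        ‖pp e (V (bc (ch t rb) u)) * Complex.exp (-g u.1 + (γ * (rb * σ) - Real.log M : ℝ))‖ =
          Ph V e w γ (bc (ch t rb) u) / M * Real.exp (γ * (rb * σ) - γ * (rb * u.1.im)) := by
      intro u hu
      have h2 : (g u.1).re = w (ch t rb u.1) := (hgb _ (hsub hu)).2
      have h3 : (bc (ch t rb) u).1 = ch t rb u.1 := rfl
      rw [norm_mul, Complex.norm_exp, Complex.add_re, Complex.neg_re, Complex.ofReal_re, h2, Ph, h3, norm_ch,
        Real.log_exp, div_eq_mul_inv, ← Real.exp_log (inv_pos.2 hM0), Real.log_inv, mul_assoc, mul_assoc,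
        ← Real.exp_add, ← Real.exp_add]
      congr 2
      ring
    have key := hN (bc (ch t rb) ⁻¹' X) (bc (ch t rb) ⁻¹' K) (fun u => V (bc (ch t rb) u))
      (fun ξ => -g ξ + (γ * (rb * σ) - Real.log M : ℝ)) e (ι' / rb) 0 (-θ0)
      (fun u s => Ψ (t + rb * u) (rb * s)) (fun u s => rb * Ψy (t + rb * u) (rb * s)) he
      (hP X K _ _ _ hnp (cpt_box σ) fun z hz => ⟨an_ch t rb z, der_ch t h0 z, hmem z hz⟩)
      (fun u hu => (hV _ (hov u hu)).comp (an_bc (an_ch t rb _)))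
      (fun ξ hξ => (hga ξ (hsub hξ)).neg.add analyticAt_const)
      (fun ξ hξ => by
        rw [deriv_add_const, deriv.fun_neg, norm_neg]
        exact (hgb ξ (hsub hξ)).1)
      (fun s hs => by
        rw [Complex.add_im, Complex.neg_im, Complex.ofReal_im, add_zero, ← abs_neg]
        refine le_trans (le_of_eq ?_) ((hgi s hs).trans hι3)
        congr 1
        ring)
      (pw_scale hPW h0 (by linarith) hι1 fun u hu => arc_mem h0 h1 hρ ht hu)
      (fun _ _ => by rw [zero_mul]; exact zero_le_one)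
      (fun u hu huK hu1 => by
        have h2 : pp e (V (bc (ch t rb) u)) ≠ 0 := fun e0 => by
          rw [e0, zero_mul, norm_zero] at hu1; linarith
        obtain ⟨h3, h4⟩ := hK1 _ (hov u hu) huK h2
        refine ⟨?_, h4 _ (harc _ hu.2) _ (ch_eq t rb u.1)⟩
        have h5 : (bc (ch t rb) u).1 = ch t rb u.1 := rfl
        rw [h5, norm_ch, Real.log_exp, abs_neg, abs_mul, abs_of_pos h0] at h3
        rw [le_div_iff₀ h0]
        linarith)
      (fun u hu hu1 hu2 hu3 => by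
        have h2 : pp e (V (bc (ch t rb) u)) ≠ 0 := fun e0 => by
          rw [e0, zero_mul, norm_zero] at hu1; linarith
        refine hK2 _ (hov u hu) h2 _ (harc _ hu.2) (rb * u.1.im) ?_ (ch_eq t rb u.1) hu3
        rw [abs_mul, abs_of_pos h0]
        have := mul_le_mul_of_nonneg_left hu2 h0.le
        rwa [show rb * (2 * (ι' / rb)) = 2 * ι' by field_simp] at this)
      (fun u hu huK => by
        have h2 : Ph V e w γ (bc (ch t rb) u) / M ≤ 1 := (div_le_one hM0).2 (hle _ (hov u hu) huK)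
        have h3 := abs_le.1 hu.2.2
        rw [hQ u hu.2]
        constructor
        · refine (mul_le_of_le_one_left (Real.exp_pos _).le h2).trans (Real.exp_le_exp.2 ?_)
          have := mul_le_mul_of_nonneg_left (mul_le_mul_of_nonneg_left h3.1 h0.le) hγ.le
          linarith
        · intro h4
          rcases (abs_eq hσ.le).1 h4 with h5 | h5
          · rw [h5, sub_self, Real.exp_zero, mul_one]; exact h2
          · exfalso
            have h6 := hbot _ (hov u hu) huK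
            have h7 : (bc (ch t rb) u).1 = ch t rb u.1 := rfl
            rw [h7, norm_ch, h5, Real.exp_le_exp] at h6
            linarith)
      v ⟨hvX, hv⟩ hvK
    have hv1 : v.1 ∈ box 0 1 σ := ⟨hv.1.trans (by norm_num), hv.2⟩
    rw [hQ v hv1, ← le_div_iff₀ (Real.exp_pos _), ← Real.exp_sub, div_le_iff₀ hM0, mul_comm] at key
    refine key.trans (le_trans (mul_le_mul_of_nonneg_left (Real.exp_le_exp.2 ?_) hM0.le) hc3)
    have := mul_le_mul_of_nonneg_left (mul_le_mul_of_nonneg_left hv4 h0.le) hγ.le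
    linarith
  have hnear : ∀ y ∈ ov X (annW h x ρ0), y ∉ K → Real.exp (-(rb * σ / 4)) ≤ ‖y.1‖ → Ph V e w γ y ≤ c := by
    intro y hy hK hy1
    have hpos := ann_pos hy.2
    have hl1 : -(rb * σ / 4) ≤ Real.log ‖y.1‖ := (Real.le_log_iff_exp_le hpos).2 hy1
    have hl2 : Real.log ‖y.1‖ ≤ ι := (Real.log_le_iff_le_exp hpos).2 (hbot y hy hK)
    set ξ : ℂ := ⟨0, -Real.log ‖y.1‖ / rb⟩ with hξ
    have hξ1 : ξ.im ≤ σ / 4 := by
      show -Real.log ‖y.1‖ / rb ≤ σ / 4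
      rw [div_le_iff₀ h0]; linarith
    have hξ2 : |ξ.im| ≤ σ := by
      refine abs_le.2 ⟨?_, by linarith⟩
      show -σ ≤ -Real.log ‖y.1‖ / rb
      rw [le_div_iff₀ h0]; linarith
    have hξ3 : |ξ.re - 0| ≤ 1 / 2 := by simp [hξ]
    have hch : ch (Complex.arg y.1) rb ξ = y.1 := by
      rw [ch_eq]
      have e1 : rb * ξ.im = -Real.log ‖y.1‖ := by
        show rb * (-Real.log ‖y.1‖ / rb) = _
        field_simp
      have e2 : ξ.re = 0 := rfl
      rw [e1, e2, mul_zero, add_zero]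
      conv_rhs => rw [← Complex.exp_log (norm_pos_iff.1 hpos)]
      congr 1
      rw [Complex.log]
      push_cast
      linear_combination (-Real.log ‖y.1‖ : ℂ) * Complex.I_mul_I
    by_cases ht : ∀ j, 2 * ρ0 j ≤ ‖Complex.exp (Complex.I * (Complex.arg y.1 : ℝ)) - x j‖
    · have e3 : bc (ch (Complex.arg y.1) rb) (ξ, y.2) = y := Prod.ext hch rfl
      have := hbox _ ht (ξ, y.2) ⟨hξ3, hξ2⟩ hξ1 (by rw [e3]; exact hy.1) (by rw [e3]; exact hK)
      rwa [e3] at this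
    · push Not at ht
      obtain ⟨j, hj⟩ := ht
      refine (hw2 y hy hK j ?_).trans hc2
      have h3 := ch_close (t := Complex.arg y.1) h0 h1 (ξ := ξ) ⟨hξ3.trans (by norm_num), hξ2.trans hσ1⟩
      rw [hch] at h3
      have h4 := norm_sub_le_norm_sub_add_norm_sub y.1 (Complex.exp (Complex.I * (Complex.arg y.1 : ℝ))) (x j)
      linarith [hρ j]
  have hfar : ∀ y ∈ ov X (annW h x ρ0) ∩ {y | ‖y.1‖ ≤ Real.exp (-(rb * σ / 4))}, Ph V e w γ y ≤ c := by
    refine hM X K _ (fun y => pp e (V y)) (fun y => w y.1 + γ * Real.log ‖y.1‖) c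
      ⟨hnp.cpt.inter_right (isClosed_le (by fun_prop) continuous_const), fun y hy => hy.1.1,
        fun y hy => hnp.np y hy.1⟩
      ((an_pp hV e).mono inter_subset_left) (fun y hy => hlre y hy.1) (by linarith) ?_
    rintro y ⟨⟨hy, hy1⟩, hy2⟩
    have hpos := ann_pos hy.2
    change Ph V e w γ y ≤ c
    by_cases hK : y ∈ K
    · by_cases hp : pp e (V y) = 0
      · rw [Ph, hp, norm_zero, zero_mul]; linarith
      · exfalso
        have h3 := (abs_le.1 (hK1 y hy hK hp).1).1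
        have h4 : Real.log ‖y.1‖ ≤ -(rb * σ / 4) := (Real.log_le_iff_le_exp hpos).2 hy1
        linarith [hPW.le]
    have hne := hy2.resolve_left hK
    by_cases ha : ‖y.1‖ = Real.exp (-h)
    · rw [← heq y hy]
      exact (htop y hy hK ha).trans hc1
    by_cases hb : Real.exp (-(rb * σ / 4)) ≤ ‖y.1‖
    · exact hnear y hy hK hb
    by_cases hd : ∃ j, ‖y.1 - x j‖ ≤ 3 * ρ0 j
    · obtain ⟨j, hj⟩ := hd
      exact (hw2 y hy hK j hj).trans hc2
    exfalso
    push Not at hb hd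
    apply hne
    have e1 : ∀ᶠ v : E in 𝓝 y, Real.exp (-h) < ‖v.1‖ :=
      (isOpen_lt continuous_const (by fun_prop)).mem_nhds (lt_of_le_of_ne hy.2.1 (Ne.symm ha))
    have e2 : ∀ᶠ v : E in 𝓝 y, ‖v.1‖ < Real.exp (-(rb * σ / 4)) :=
      (isOpen_lt (by fun_prop) continuous_const).mem_nhds hb
    have e3 : ∀ᶠ v : E in 𝓝 y, ∀ j, 3 * ρ0 j < ‖v.1 - x j‖ :=
      eventually_all.2 fun j => (isOpen_lt continuous_const (by fun_prop)).mem_nhds (hd j)
    filter_upwards [e1, e2, e3] with v h2 h3 h4 hv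
    refine ⟨⟨hv, h2.le, h3.le.trans (Real.exp_le_exp.2 (by linarith)), fun j => ?_⟩, h3.le⟩
    linarith [h4 j, hρ j]
  have hfin : M ≤ c := by
    refine csSup_le ⟨_, y0, ⟨hy0, hy0K⟩, rfl⟩ ?_
    rintro _ ⟨y, ⟨hy, hK⟩, rfl⟩
    rcases le_total ‖y.1‖ (Real.exp (-(rb * σ / 4))) with h2 | h2
    · exact hfar y ⟨hy, h2⟩
    · exact hnear y hy hK h2
  linarith

end Pool.Agent.Lib.SH
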