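import Pool.Agent.Lib.SH.Blue3

open Set Filter Topology Metric

noncomputable section

namespace Pool.Agent.Lib.SH

namespace AWS

theorem dir_exp {u : ℂ → ℂ} {ω C : ℝ} {z : ℂ} (h : DirZ u ω C (Complex.exp (Complex.I * z))) :
    Dir (fun z => u (Complex.exp (Complex.I * z))) ω C z := by
  obtain ⟨h1, h2, h3, h4⟩ := h
  have h5 : HasDerivAt (fun z : ℂ => Complex.exp (Complex.I * z))
      (Complex.exp (Complex.I * z) * Complex.I) z := by
    simpa using ((hasDerivAt_id z).const_mul Complex.I).cexp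
  have h6 : deriv (fun z => u (Complex.exp (Complex.I * z))) z =
      Complex.exp (Complex.I * z) * deriv u (Complex.exp (Complex.I * z)) * Complex.I := by
    have := (h1.differentiableAt.hasDerivAt.comp z h5).deriv
    rw [mul_comm (Complex.exp _) (deriv _ _), mul_assoc]
    exact this
  refine ⟨h1.fun_comp (f := fun z : ℂ => Complex.exp (Complex.I * z)) (by fun_prop), h2, ?_, ?_⟩
  · rw [h6, norm_mul, Complex.norm_I, mul_one]
    exact h3
  · rw [h6, Complex.mul_I_im]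
    exact h4

theorem log_exp (t s : ℝ) :
    -Real.log ‖Complex.exp (Complex.I * (t + s * Complex.I))‖ = s := by
  rw [Complex.norm_exp, Real.log_exp]
  simp

theorem pw_lev {J : Set ℝ} {e ι ι' C0 : ℝ} {Ψ Ψy : ℝ → ℝ → ℂ} (h : PW J e ι ι' C0 0 Ψ Ψy)
    (lev : ℝ) : PW J e ι ι' C0 lev Ψ Ψy where
  pos := h.pos
  le := h.le
  der := h.der
  hc := h.hc
  hb := fun x hx y hy _ => h.hb x hx y hy (norm_nonneg _)
  hd := fun x hx y hy _ => h.hd x hx y hy (norm_nonneg _)
  he := fun x hx y hy _ => h.he x hx y hy (norm_nonneg _)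

theorem deriv_aff {u : ℂ → ℂ} {x0 r : ℝ} {z : ℂ} (h : AnalyticAt ℂ u (x0 + r * z)) :
    AnalyticAt ℂ (fun z => u (x0 + r * z)) z ∧
      deriv (fun z => u (x0 + r * z)) z = r * deriv u (x0 + r * z) := by
  have h5 : HasDerivAt (fun z : ℂ => (x0 : ℂ) + r * z) r z := by
    simpa using ((hasDerivAt_id z).const_mul (r : ℂ)).const_add (x0 : ℂ)
  refine ⟨h.fun_comp (f := fun z : ℂ => (x0 : ℂ) + r * z) (by fun_prop), ?_⟩
  have := (h.differentiableAt.hasDerivAt.comp z h5).deriv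
  rw [mul_comm]
  exact this

theorem dir_aff {u : ℂ → ℂ} {ω C x0 r : ℝ} {z : ℂ} (hr : 0 < r) (hω : 0 < ω)
    (h : Dir u (ω * min 1 r⁻¹) (C / r) (x0 + r * z)) : Dir (fun z => u (x0 + r * z)) ω C z := by
  obtain ⟨h1, h2, h3, h4⟩ := h
  obtain ⟨h5, h6⟩ := deriv_aff h1
  have hm : 0 < min 1 r⁻¹ := lt_min one_pos (inv_pos.2 hr)
  refine ⟨h5, ?_, ?_, ?_⟩
  · have h7 : 0 ≤ (u (x0 + r * z)).re :=
      nonneg_of_mul_nonneg_right ((abs_nonneg _).trans h2) (mul_pos hω hm)
    refine h2.trans (mul_le_mul_of_nonneg_right ?_ h7)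
    exact mul_le_of_le_one_right hω.le (min_le_left _ _)
  · rw [h6, norm_mul, Complex.norm_real, Real.norm_of_nonneg hr.le]
    refine (mul_le_mul_of_nonneg_left h3 hr.le).trans_eq ?_
    field_simp
  · rw [h6, Complex.im_ofReal_mul, abs_mul, abs_of_pos hr]
    refine (mul_le_mul_of_nonneg_left h4 hr.le).trans ?_
    rw [← mul_assoc]
    refine mul_le_mul_of_nonneg_right ?_ (norm_nonneg _)
    calc r * (ω * min 1 r⁻¹) ≤ r * (ω * r⁻¹) := by gcongr; exact min_le_right _ _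
      _ = ω := by field_simp

theorem pt_aff (x0 r x y : ℝ) : (x0 : ℂ) + r * (x + y * Complex.I) =
    ((x0 + r * x : ℝ) : ℂ) + ((r * y : ℝ) : ℂ) * Complex.I := by
  push_cast
  ring

theorem wsum_aff {I : Type} [Fintype I] (Ef : I → ℝ → ℝ) (u : I → ℂ → ℂ) (x0 r x y : ℝ) :
    wsum (fun i y => Ef i (r * y)) (fun i z => u i (x0 + r * z)) x y =
      wsum Ef u (x0 + r * x) (r * y) := by
  simp only [wsum, pt_aff]

theorem steep_aff {I : Type} [Fintype I] {Ef Ef' : I → ℝ → ℝ} {u : I → ℂ → ℂ} {a : I → ℝ}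
    {x0 r t x y : ℝ} (hr : 0 < r) (h : Steep Ef Ef' u a t (x0 + r * x) (r * y)) :
    Steep (fun i y => Ef i (r * y)) (fun i y => r * Ef' i (r * y))
      (fun i z => u i (x0 + r * z)) a (t / r) x y := by
  simp only [Steep, pt_aff] at h ⊢
  refine h.trans_eq ?_
  rw [Finset.mul_sum, Finset.mul_sum]
  refine Finset.sum_congr rfl fun i _ => ?_
  field_simp

theorem mem_x {x0 r x : ℝ} (hr : 0 < r) (h : x ∈ Icc (-1 : ℝ) 1) :
    x0 + r * x ∈ Icc (x0 - r) (x0 + r) :=
  ⟨by nlinarith [h.1], by nlinarith [h.2]⟩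

theorem mem_y {r t y : ℝ} (hr : 0 < r) (h : y ∈ Icc (-(2 * (t / r))) (2 * (t / r))) :
    r * y ∈ Icc (-(2 * t)) (2 * t) := by
  have h1 : r * (2 * (t / r)) = 2 * t := by field_simp
  exact ⟨by nlinarith [h.1], by nlinarith [h.2]⟩

theorem mem_box {x0 r : ℝ} (hr : 0 < r) {ξ : ℂ} (h : ξ ∈ box 0 1 1) :
    (x0 : ℂ) + r * ξ ∈ box x0 r r := by
  obtain ⟨h1, h2⟩ := h
  rw [sub_zero] at h1
  constructor
  · rw [Complex.add_re, Complex.ofReal_re, add_sub_cancel_left, Complex.re_ofReal_mul, abs_mul,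
      abs_of_pos hr]
    exact mul_le_of_le_one_right hr.le h1
  · rw [Complex.add_im, Complex.ofReal_im, zero_add, Complex.im_ofReal_mul, abs_mul,
      abs_of_pos hr]
    exact mul_le_of_le_one_right hr.le h2

end AWS

open AWS in
theorem st_aws (hP : St_PWS) : St_AWS := by
  intro ι C hι hC
  obtain ⟨ω, hω, h⟩ := hP ι C hι hC
  refine ⟨ω, hω, ?_⟩
  intro I W _ x ρ0 X K V Ef Ef' u a e hh ι' h0 h1 hder hdir hcoh hK1 hK2 hK3
  have hW : WS (arcW x ρ0) Ef Ef' (fun i z => u i (Complex.exp (Complex.I * z))) a e ω C ι' :=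
    { der := hder
      dir := fun i t ht s hs => dir_exp ((hdir t ht s hs).1 i)
      ref := fun t ht s hs =>
        (show ContinuousAt (fun z : ℂ => Complex.exp (Complex.I * z)) _ by fun_prop).eventually
          (hdir t ht s hs).2.1
      steep := fun t ht s hs => (hdir t ht s hs).2.2
      coh := fun y hy => (hcoh y hy).1 }
  refine ⟨ι', _, _, (h I _ Ef Ef' _ a e ι' h0 h1 hW).2 fun y hy => (hcoh y hy).2, ?_, ?_, hK3⟩
  · intro y hy hyK hp
    refine ⟨(hK1 y hy hyK hp).1, fun t _ s hs => ?_⟩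
    rw [(hK1 y hy hyK hp).2, hs, log_exp]
    rfl
  · intro y hy hp t _ s hs h2 h3
    refine hK2 y hy hp ?_ ?_
    · rw [← abs_neg, h2, log_exp]
      exact hs
    · rw [h3, h2, log_exp]
      rfl

open AWS in
theorem st_wbs (hP : St_PWS) : St_WBS := by
  intro ι C hι hC
  obtain ⟨ω, hω, h⟩ := hP ι C hι hC
  refine ⟨ω, hω, ?_⟩
  intro I _ X K Q V g Ef Ef' u a e e0 x0 r t Λ lv lev pw hr ht htω ht2 hpw he hV hg hQ hW hc hK1 hK2
  have hW' : WS (Icc (-1) 1) (fun i y => Ef i (r * y)) (fun i y => r * Ef' i (r * y))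
      (fun i z => u i (x0 + r * z)) a e0 ω C (t / r) :=
    { der := fun i y hy => by
        obtain ⟨a1, a2⟩ := hW.der i _ (mem_y hr hy)
        refine ⟨?_, mul_nonneg hr.le a2⟩
        have := a1.comp y ((hasDerivAt_id y).const_mul r)
        rw [mul_one, mul_comm] at this
        exact this
      dir := fun i x hx y hy => dir_aff hr hω (by
        rw [pt_aff]
        exact hW.dir i _ (mem_x hr hx) _ (mem_y hr hy))
      ref := fun x hx y hy => by
        have a1 := hW.ref _ (mem_x hr hx) _ (mem_y hr hy)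
        rw [← pt_aff] at a1
        exact (show ContinuousAt (fun z : ℂ => (x0 : ℂ) + r * z) _ by fun_prop).eventually a1
      steep := fun x hx y hy =>
        (hW.steep _ (mem_x hr hx) _ (mem_y hr hy)).imp (steep_aff hr) (steep_aff hr)
      coh := fun y hy => hW.coh _ (mem_y hr hy) }
  have h2 := h I _ _ _ _ a e0 (t / r) (div_pos ht hr) ((div_le_iff₀ hr).2 htω) hW'
  have hr' : (r : ℂ) ≠ 0 := by exact_mod_cast hr.ne'
  have e1 : ∀ z : ℂ, x0 + r * ((z.re - x0) / r) = z.re := fun z => by field_simp; ring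
  have e2 : ∀ z : ℂ, r * (z.im / r) = z.im := fun z => by field_simp
  refine ⟨V, fun ξ => g (x0 + r * ξ), e, t / r, lev, pw,
    wsum (fun i y => Ef i (r * y)) (fun i z => u i (x0 + r * z)),
    wsumy (fun i y => Ef i (r * y)) (fun i y => r * Ef' i (r * y)) (fun i z => u i (x0 + r * z)),
    hpw, he, hV, fun ξ hξ => (deriv_aff (hg _ (mem_box hr hξ)).1).1, fun ξ hξ => ?_,
    fun x hx => ?_, fun y hy => ?_, ?_, fun ξ hξ => (hg _ (mem_box hr hξ)).2.2.2, ?_, ?_⟩
  · rw [(deriv_aff (hg _ (mem_box hr hξ)).1).2, norm_mul, Complex.norm_real,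
      Real.norm_of_nonneg hr.le]
    exact (hg _ (mem_box hr hξ)).2.1
  · refine (hg _ (mem_box hr ⟨?_, by simp⟩)).2.2.1 (by simp)
    simpa [abs_le] using hx
  · have a1 : (x0 : ℂ) + r * ((y.1 - x0) / r) = y.1 := by field_simp; ring
    simp only [a1]
    exact hQ y hy
  · rcases hc with ⟨rfl, hc⟩ | ⟨rfl, hc⟩
    · refine h2.1 lev fun x hx y hy hl => steep_aff hr (hc _ (mem_x hr hx) _ (mem_y hr hy) ?_)
      rwa [wsum_aff] at hl
    · exact pw_lev (h2.2 fun y hy => hc _ (mem_y hr hy)) lev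
  · intro y hy hyK hl
    obtain ⟨a1, a2⟩ := hK1 y hy hyK hl
    refine ⟨?_, by rw [wsum_aff, e1, e2, a2]⟩
    rw [abs_div, abs_of_pos hr]
    gcongr
  · intro y hy hl a1 a2
    rw [wsum_aff, e1, e2] at a2
    refine hK2 y hy hl ?_ a2
    rwa [abs_div, abs_of_pos hr, ← mul_div_assoc, div_le_div_iff_of_pos_right hr] at a1

end Pool.Agent.Lib.SH
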