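import Pool.Agent.Lib.SH.Blue6
import Pool.Agent.Lib.SH.B_AWS

/-! Annulus, box and port forms of the general walls; admissible fibre maps. -/

open Set Filter Topology Metric

noncomputable section

namespace Pool.Agent.Lib.SH

namespace AWG

theorem ss_nonneg (e : ℝ) (v : ℂ) : 0 ≤ ss e v := le_min (norm_nonneg _) (norm_nonneg _)

theorem th_mono {Θ : E → ℂ} {e om om' r r' : ℝ} {z : ℂ} (h1 : om ≤ om') (h2 : r' ≤ r)
    (h : Th Θ e om r z) : Th Θ e om' r' z := by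
  refine ⟨h.1, fun v hv => ?_⟩
  obtain ⟨a1, a2, a3⟩ := h.2 v (hv.trans h2)
  exact ⟨a1, a2.trans h1, a3.trans (mul_le_mul_of_nonneg_right h1 (ss_nonneg e v))⟩

theorem th_bc {Θ : E → ℂ} {b : ℂ → ℂ} {e om r B : ℝ} {z : ℂ} (hb : AnalyticAt ℂ b z)
    (h1 : ‖deriv b z‖ ≤ B) (h2 : 1 ≤ B) (h3 : 0 ≤ om) (h : Th Θ e om r (b z)) :
    Th (fun y => Θ (b y.1, y.2)) e (om * B) r z := by
  refine ⟨hb.continuousAt.eventually h.1, fun v hv => ?_⟩
  obtain ⟨a1, a2, a3⟩ := h.2 v hv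
  have a4 : AnalyticAt ℂ (fun y : E => (b y.1, y.2)) (z, v) :=
    (hb.comp_of_eq analyticAt_fst rfl).prod analyticAt_snd
  refine ⟨a1.comp_of_eq a4 rfl, a2.trans (le_mul_of_one_le_right h3 h2), ?_⟩
  have a5 : AnalyticAt ℂ (fun x : ℂ => Θ (x, v)) (b z) :=
    a1.comp_of_eq (analyticAt_id.prod analyticAt_const) rfl
  have a6 : CF.dz (fun y : E => Θ (b y.1, y.2)) (z, v) = CF.dz Θ (b z, v) * deriv b z :=
    (a5.differentiableAt.hasDerivAt.comp z hb.differentiableAt.hasDerivAt).deriv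
  rw [a6, norm_mul, mul_right_comm]
  exact mul_le_mul a3 h1 (norm_nonneg _) (mul_nonneg h3 (ss_nonneg e v))

theorem th_sc {Θ : E → ℂ} {e om r c : ℝ} {z : ℂ} (hc : 0 < c) (h : Th Θ e om r z) :
    Th (fun y => Θ (y.1, c * y.2) / c) (e / c) om (r / c) z := by
  have hc' : (c : ℂ) ≠ 0 := Complex.ofReal_ne_zero.2 hc.ne'
  have e1 : (c : ℂ) * ((e / c : ℝ) : ℂ) = e := by
    push_cast
    field_simp
  have hn : ∀ v : ℂ, ‖(c : ℂ) * v‖ = c * ‖v‖ := fun v => by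
    rw [norm_mul, Complex.norm_real, Real.norm_of_nonneg hc.le]
  refine ⟨h.1.mono fun x hx => ⟨?_, ?_⟩, fun v hv => ?_⟩
  · simp only [mul_zero, hx.1, zero_div]
  · simp only [e1, hx.2]
    push_cast
    rfl
  · obtain ⟨a1, a2, a3⟩ := h.2 (c * v) (by rw [hn, mul_comm, ← le_div_iff₀ hc]; exact hv)
    have a4 : AnalyticAt ℂ (fun y : E => (y.1, (c : ℂ) * y.2)) (z, v) :=
      analyticAt_fst.prod (analyticAt_const.mul analyticAt_snd)
    have a5 : AnalyticAt ℂ (fun w : ℂ => Θ (z, w)) (c * v) :=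
      a1.comp_of_eq (analyticAt_const.prod analyticAt_id) rfl
    have a6 : CF.dw (fun y : E => Θ (y.1, c * y.2) / c) (z, v) = CF.dw Θ (z, c * v) := by
      have b1 := ((a5.differentiableAt.hasDerivAt.comp v
        ((hasDerivAt_id v).const_mul (c : ℂ))).div_const (c : ℂ)).deriv
      rw [mul_one, mul_div_cancel_right₀ _ hc'] at b1
      exact b1
    have a7 : CF.dz (fun y : E => Θ (y.1, c * y.2) / c) (z, v) = CF.dz Θ (z, c * v) / c :=
      deriv_div_const _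
    have a8 : ss e (c * v) = c * ss (e / c) v := by
      rw [ss, ss, mul_min_of_nonneg _ _ hc.le, ← hn, ← hn, mul_sub, e1]
    refine ⟨(a1.comp_of_eq a4 rfl).div_const, by rwa [a6], ?_⟩
    rw [a7, norm_div, Complex.norm_real, Real.norm_of_nonneg hc.le, div_le_iff₀ hc]
    rw [a8] at a3
    linarith

theorem ev_aff {f : ℝ → ℝ} {r y : ℝ} (h : ∀ᶠ s in 𝓝 (r * y), f s = 0) :
    ∀ᶠ s in 𝓝 y, f (r * s) = 0 :=
  (show ContinuousAt (fun s : ℝ => r * s) y by fun_prop).eventually h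

theorem wth_aff {I : Type} [Fintype I] (Ef : I → ℝ → ℝ) (u : I → ℂ → ℂ) (Θ : E → ℂ)
    (x0 r x y : ℝ) :
    wth (fun i y => Ef i (r * y)) (fun i z => u i (x0 + r * z))
      (fun y => Θ (x0 + r * y.1, y.2)) x y = wth Ef u Θ (x0 + r * x) (r * y) := by
  simp only [wth, AWS.wsum_aff, AWS.pt_aff]

theorem min_max {r : ℝ} (hr : 0 < r) : min 1 r⁻¹ * max 1 r = 1 := by
  rcases le_total 1 r with h | h
  · rw [max_eq_right h, min_eq_right (inv_le_one_of_one_le₀ h), inv_mul_cancel₀ hr.ne']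
  · rw [max_eq_left h, min_eq_left ((one_le_inv₀ hr).2 h), one_mul]

end AWG

open AWG in
theorem st_thid : St_THID := by
  refine ⟨fun e om r z h => ⟨Eventually.of_forall fun _ => ⟨rfl, rfl⟩, fun v _ =>
    ⟨analyticAt_snd, ?_, ?_⟩⟩, fun _ _ _ _ _ _ _ => th_mono, fun _ _ _ _ _ _ _ => th_bc,
    fun _ _ _ _ _ _ => th_sc⟩
  · simpa [CF.dw] using h
  · simpa [CF.dz] using mul_nonneg h (ss_nonneg e v)

open AWS in
theorem st_awg (hP : St_PWG) : St_AWG := by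
  intro ι C hι hC
  obtain ⟨ω, hω, h⟩ := hP ι C hι hC
  refine ⟨ω, hω, ?_⟩
  intro I W _ x ρ0 X K V Ef Ef' u a Θ e hh ι' r h0 h1 hW hK1 hK2 hK3
  obtain ⟨Ψy, h2⟩ := h I _ Ef Ef' _ a _ e ι' r h0 h1 hW
  refine ⟨ι', _, Ψy, h2 e 0 (Or.inl ⟨rfl, le_rfl⟩), ?_, ?_, hK3⟩
  · intro y hy hyK hp
    refine ⟨(hK1 y hy hyK hp).1, fun t _ s hs => ?_⟩
    rw [(hK1 y hy hyK hp).2, hs, log_exp]
    rfl
  · intro y hy hp t _ s hs h2 h3
    refine hK2 y hy hp ?_ ?_
    · rw [← abs_neg, h2, log_exp]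
      exact hs
    · rw [h3, h2, log_exp]
      rfl

open AWS AWG in
theorem st_wbg (hP : St_PWG) : St_WBG := by
  intro ι C hι hC
  obtain ⟨ω, hω, h⟩ := hP ι C hι hC
  refine ⟨ω, hω, ?_⟩
  intro I _ X K Q V g Ef Ef' u a Θ e e0 x0 r t Λ lv lev rr pw hr ht htω ht2 hpw hV hg hQ hW hc
    hK1 hK2
  have hW' : WS2 (Icc (-1) 1) (fun i y => Ef i (r * y)) (fun i y => r * Ef' i (r * y))
      (fun i z => u i (x0 + r * z)) a (fun y => Θ (x0 + r * y.1, y.2)) e0 ω C (t / r) rr :=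
    { der := fun i y hy => by
        obtain ⟨a1, a2⟩ := hW.der i _ (mem_y hr hy)
        refine ⟨?_, mul_nonneg hr.le a2⟩
        have := a1.comp y ((hasDerivAt_id y).const_mul r)
        rw [mul_one, mul_comm] at this
        exact this
      dir := fun y hy => by
        rcases hW.dir _ (mem_y hr hy) with a0 | ⟨a1, a2⟩
        · exact Or.inl fun i => ev_aff (a0 i)
        refine Or.inr ⟨fun x hx => ?_, fun i => (a2 i).imp (fun b => ⟨ev_aff b.1, b.2⟩)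
          fun b x hx => dir_aff hr hω ?_⟩
        · have a3 := a1 _ (mem_x hr hx)
          rw [← pt_aff] at a3
          exact (show ContinuousAt (fun z : ℂ => (x0 : ℂ) + r * z) _ by fun_prop).eventually a3
        · rw [pt_aff]
          exact b _ (mem_x hr hx)
      steep := fun x hx y hy =>
        (hW.steep _ (mem_x hr hx) _ (mem_y hr hy)).imp (steep_aff hr) (steep_aff hr)
      coh := fun y hy => hW.coh _ (mem_y hr hy)
      er := hW.er
      th := fun x hx y hy => by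
        obtain ⟨a1, a2⟩ := hW.th _ (mem_x hr hx) _ (mem_y hr hy)
        refine ⟨by rwa [wsum_aff], ?_⟩
        rw [← pt_aff] at a2
        have h5 : HasDerivAt (fun z : ℂ => (x0 : ℂ) + r * z) r (x + y * Complex.I) := by
          simpa using ((hasDerivAt_id _).const_mul (r : ℂ)).const_add (x0 : ℂ)
        have a3 := th_bc (b := fun z : ℂ => (x0 : ℂ) + r * z) (B := max 1 r) (by fun_prop)
          (by rw [h5.deriv, Complex.norm_real, Real.norm_of_nonneg hr.le]; exact le_max_right _ _)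
          (le_max_left _ _) (mul_nonneg hω.le (le_min zero_le_one (inv_nonneg.2 hr.le))) a2
        rwa [mul_assoc, min_max hr, mul_one] at a3 }
  obtain ⟨Ψy, h2⟩ := h I _ _ _ _ a _ e0 (t / r) rr (div_pos ht hr) ((div_le_iff₀ hr).2 htω) hW'
  have hr' : (r : ℂ) ≠ 0 := by exact_mod_cast hr.ne'
  have e1 : ∀ z : ℂ, x0 + r * ((z.re - x0) / r) = z.re := fun z => by field_simp; ring
  have e2 : ∀ z : ℂ, r * (z.im / r) = z.im := fun z => by field_simp
  have he : 0 ≤ e := by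
    rcases hc with ⟨a1, -⟩ | ⟨a1, -⟩
    · exact a1 ▸ hW.er.1
    · exact a1.ge
  refine ⟨V, fun ξ => g (x0 + r * ξ), e, t / r, lev, pw, _, Ψy,
    hpw, he, hV, fun ξ hξ => (deriv_aff (hg _ (mem_box hr hξ)).1).1, fun ξ hξ => ?_,
    fun x hx => ?_, fun y hy => ?_, h2 e lev hc, fun ξ hξ => (hg _ (mem_box hr hξ)).2.2.2, ?_, ?_⟩
  · rw [(deriv_aff (hg _ (mem_box hr hξ)).1).2, norm_mul, Complex.norm_real,
      Real.norm_of_nonneg hr.le]
    exact (hg _ (mem_box hr hξ)).2.1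
  · refine (hg _ (mem_box hr ⟨?_, by simp⟩)).2.2.1 (by simp)
    simpa [abs_le] using hx
  · have a1 : (x0 : ℂ) + r * ((y.1 - x0) / r) = y.1 := by field_simp; ring
    simp only [a1]
    exact hQ y hy
  · intro y hy hyK hl
    obtain ⟨a1, a2⟩ := hK1 y hy hyK hl
    refine ⟨?_, by rw [wth_aff, e1, e2, a2]⟩
    rw [abs_div, abs_of_pos hr]
    gcongr
  · intro y hy hl a1 a2
    rw [wth_aff, e1, e2] at a2
    refine hK2 y hy hl ?_ a2
    rwa [abs_div, abs_of_pos hr, ← mul_div_assoc, div_le_div_iff_of_pos_right hr] at a1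

theorem st_ppg (hP : St_PWG) (hF : St_PPF) : St_PPG := by
  intro ι C hι hC
  obtain ⟨ω, hω, H⟩ := hP ι C hι hC
  refine ⟨ω, hω, ?_⟩
  intro I _ X K N Ef Ef' u a Θ e e0 γ ι' η lev Mst Mup r g0 g1 i0 i1 hη hM0 hlev hW hc k1 k2 k3
  obtain ⟨Ψy, h2⟩ := H I univ Ef Ef' _ a _ e0 ι' r i0 i1 hW
  have lg : ∀ (z : ℂ) (t s : ℝ), z = Complex.exp (η - Complex.I * (t + s * Complex.I)) →
      Real.log ‖z‖ - η = s := by
    intro z t s hz
    rw [hz, Complex.norm_exp, Real.log_exp]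
    simp
  refine hF X K N _ Ψy e γ ι ι' _ η lev Mst Mup g0 g1 hη hM0 hlev (h2 e lev hc)
    (fun y hy hK h1 => ?_) (fun y hy h1 t s hs hz hV => ?_) k3
  · obtain ⟨b1, b2⟩ := k1 y hy hK h1
    refine ⟨b1, fun t s hz => ?_⟩
    rw [b2, lg _ t s hz]
    simp only [wth, wsum, ← hz]
  · refine k2 y hy h1 (by rwa [lg _ t s hz]) ?_
    rw [hV, lg _ t s hz]
    simp only [wth, wsum, ← hz]

end Pool.Agent.Lib.SH
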