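import Pool.Agent.Lib.SH.Blue6
import Pool.Agent.Lib.CF.Basic

/-!
Block CSM: extension by zero, products of a cut-off with small analytic functions, the depth
function; the Cauchy-Riemann operator on walls.
-/

open Set Filter Topology Metric
open scoped ContDiff

noncomputable section

namespace Pool.Agent.Lib.SH

namespace CSM

theorem ev_zero {U Z : Set ℂ} {N : ℂ → ℂ} (hZ : IsClosed Z) (h0 : ∀ z ∈ U, z ∉ Z → N z = 0)
    {z : ℂ} (hz : z ∉ Z) : U.indicator N =ᶠ[𝓝 z] fun _ => 0 := by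
  filter_upwards [hZ.isOpen_compl.mem_nhds hz] with x hx
  by_cases hu : x ∈ U
  · rw [indicator_of_mem hu, h0 x hu hx]
  · rw [indicator_of_notMem hu]

theorem ev_eq {U : Set ℂ} (N : ℂ → ℂ) (hU : IsOpen U) {z : ℂ} (hz : z ∈ U) :
    U.indicator N =ᶠ[𝓝 z] N := by
  filter_upwards [hU.mem_nhds hz] with x hx using indicator_of_mem hx _

theorem one (U Z : Set ℂ) (N : ℂ → ℂ) (hU : IsOpen U) (hZ : IsClosed Z) (hs : Z ⊆ U)
    (hN : ContDiffOn ℝ ∞ N U) (h0 : ∀ z ∈ U, z ∉ Z → N z = 0) : ContDiff ℝ ∞ (U.indicator N) := by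
  refine contDiff_iff_contDiffAt.2 fun z => ?_
  by_cases hz : z ∈ Z
  · exact (hN.contDiffAt (hU.mem_nhds (hs hz))).congr_of_eventuallyEq (ev_eq N hU (hs hz))
  · exact contDiffAt_const.congr_of_eventuallyEq (ev_zero hZ h0 hz)

/-- Cauchy estimate for the real derivatives -/
theorem cauchy {f : ℂ → ℂ} {W : Set ℂ} {z : ℂ} {r η : ℝ} (hr : 0 < r) (hW : closedBall z r ⊆ W)
    (hf : AnalyticOnNhd ℂ f W) (hb : ∀ x ∈ W, ‖f x‖ ≤ η) (n : ℕ) :
    ‖iteratedFDeriv ℝ n f z‖ ≤ n.factorial / r ^ n * η := by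
  have h : ContDiffAt ℂ n f z := (hf z (hW (mem_closedBall_self hr.le))).contDiffAt
  rw [← h.restrictScalars_iteratedFDeriv (𝕜 := ℝ)]
  simp only [Function.comp_apply, ContinuousMultilinearMap.norm_restrictScalars]
  rw [norm_iteratedFDeriv_eq_norm_iteratedDeriv]
  have hd : DiffContOnCl ℂ f (ball z r) :=
    DifferentiableOn.diffContOnCl (by
      rw [closure_ball z hr.ne']; exact (hf.mono hW).differentiableOn)
  refine (Complex.norm_iteratedDeriv_le_of_forall_mem_sphere_norm_le n hr hd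
    fun x hx => hb x (hW (sphere_subset_closedBall hx))).trans (le_of_eq ?_)
  ring

theorem two (U Z W : Set ℂ) (χ : ℂ → ℂ) (k : ℕ) (hU : IsOpen U) (hZ : IsCompact Z) (hs : Z ⊆ U)
    (hW : IsOpen W) (hw : Z ⊆ W) (hχ : ContDiffOn ℝ ∞ χ U) (h0 : ∀ z ∈ U, z ∉ Z → χ z = 0) :
    ∃ C > (0 : ℝ), ∀ (f : ℂ → ℂ) (η : ℝ), 0 ≤ η → AnalyticOnNhd ℂ f W → (∀ z ∈ W, ‖f z‖ ≤ η) →
      Small k (C * η) (U.indicator fun z => χ z * f z) := by
  obtain ⟨r, hr, hrW⟩ := hZ.exists_cthickening_subset_open hW hw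
  have hc : ContinuousOn (fun z => ∑ j ∈ Finset.range (k + 1), ∑ i ∈ Finset.range (j + 1),
      (j.choose i : ℝ) * ‖iteratedFDeriv ℝ i χ z‖ * ((j - i).factorial / r ^ (j - i))) Z :=
    continuousOn_finsetSum _ fun j _ => continuousOn_finsetSum _ fun i _ z hz =>
      ((continuousAt_const.mul ((hχ.contDiffAt (hU.mem_nhds (hs hz))).continuousAt_iteratedFDeriv
        (by exact_mod_cast le_top)).norm).mul continuousAt_const).continuousWithinAt
  obtain ⟨B, hB⟩ := hZ.exists_bound_of_continuousOn hc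
  refine ⟨max B 1, lt_max_of_lt_right one_pos, fun f η hη hf hb => ?_⟩
  have h0' : ∀ z ∈ U, z ∉ Z → χ z * f z = 0 := fun z a b => by rw [h0 z a b, zero_mul]
  have hO : IsOpen (U ∩ W) := hU.inter hW
  have c1 : ContDiffOn ℝ ∞ χ (U ∩ W) := hχ.mono inter_subset_left
  have c2 : ContDiffOn ℝ ∞ f (U ∩ W) := fun z hz =>
    (((hf z hz.2).contDiffAt (n := ∞)).restrict_scalars ℝ).contDiffWithinAt
  refine ⟨contDiff_iff_contDiffAt.2 fun z => ?_, fun j hj z => ?_⟩
  · by_cases hz : z ∈ Z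
    · exact ((c1.mul c2).contDiffAt (hO.mem_nhds ⟨hs hz, hw hz⟩)).congr_of_eventuallyEq
        (ev_eq _ hU (hs hz))
    · exact contDiffAt_const.congr_of_eventuallyEq (ev_zero hZ.isClosed h0' hz)
  · by_cases hz : z ∈ Z
    · have hz' : z ∈ U ∩ W := ⟨hs hz, hw hz⟩
      rw [((ev_eq (fun z => χ z * f z) hU (hs hz)).iteratedFDeriv ℝ j).self_of_nhds]
      have L := norm_iteratedFDerivWithin_mul_le c1 c2 hO.uniqueDiffOn hz' (n := j)
        (by exact_mod_cast le_top)
      simp only [iteratedFDerivWithin_of_isOpen _ hO hz'] at L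
      have hball : closedBall z r ⊆ W := (closedBall_subset_cthickening hz r).trans hrW
      have s1 : ∑ i ∈ Finset.range (j + 1), (j.choose i : ℝ) * ‖iteratedFDeriv ℝ i χ z‖ *
          ‖iteratedFDeriv ℝ (j - i) f z‖ ≤ (∑ i ∈ Finset.range (j + 1), (j.choose i : ℝ) *
            ‖iteratedFDeriv ℝ i χ z‖ * ((j - i).factorial / r ^ (j - i))) * η := by
        rw [Finset.sum_mul]
        refine Finset.sum_le_sum fun i _ => ?_
        rw [mul_assoc _ _ η]
        exact mul_le_mul_of_nonneg_left (cauchy hr hball hf hb _) (by positivity)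
      refine L.trans (s1.trans (mul_le_mul_of_nonneg_right ?_ hη))
      refine le_trans ?_ (((le_abs_self _).trans (hB z hz)).trans (le_max_left _ _))
      exact Finset.single_le_sum (f := fun j => ∑ i ∈ Finset.range (j + 1), (j.choose i : ℝ) *
        ‖iteratedFDeriv ℝ i χ z‖ * ((j - i).factorial / r ^ (j - i)))
        (fun _ _ => Finset.sum_nonneg fun _ _ => by positivity) (Finset.mem_range.2 (by omega))
    · rw [((ev_zero hZ.isClosed h0' hz).iteratedFDeriv ℝ j).self_of_nhds, iteratedFDeriv_fun_zero]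
      simp only [Pi.zero_apply, norm_zero]
      exact mul_nonneg (le_max_of_le_right zero_le_one) hη

theorem dep_smooth (l : CF.End) (hr : 0 < l.r) {z : ℂ} (hz : z ≠ l.c) : ContDiffAt ℝ ∞ l.dep z := by
  have h1 : z - l.c ≠ 0 := sub_ne_zero.2 hz
  have h2 : ‖z - l.c‖ / l.r ≠ 0 := (div_pos (norm_pos_iff.2 h1) hr).ne'
  have h3 : ContDiffAt ℝ ∞ (fun x : ℂ => ‖x - l.c‖) z :=
    ContDiffAt.norm ℝ (contDiffAt_id.sub contDiffAt_const) h1
  exact contDiffAt_const.mul ((h3.div_const _).log h2)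

theorem dep_grad (l : CF.End) (hr : 0 < l.r) {z : ℂ} (hz : z ≠ l.c) : fderiv ℝ l.dep z ≠ 0 := by
  intro h
  have h1 : 0 < ‖z - l.c‖ := norm_pos_iff.2 (sub_ne_zero.2 hz)
  have hd : HasFDerivAt l.dep (0 : ℂ →L[ℝ] ℝ) z :=
    h ▸ ((dep_smooth l hr hz).differentiableAt (by simp)).hasFDerivAt
  have hg : HasDerivAt (fun t : ℝ => l.c + Real.exp t • (z - l.c)) (Real.exp 0 • (z - l.c)) 0 :=
    ((Real.hasDerivAt_exp 0).smul_const _).const_add _
  have e0 : l.c + Real.exp 0 • (z - l.c) = z := by simp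
  have hc := HasFDerivAt.comp_hasDerivAt (x := (0 : ℝ)) (l := l.dep) (l' := (0 : ℂ →L[ℝ] ℝ))
    (f := fun t : ℝ => l.c + Real.exp t • (z - l.c)) (by rw [e0]; exact hd) hg
  have e1 : l.dep ∘ (fun t : ℝ => l.c + Real.exp t • (z - l.c)) =
      fun t => (l.sgn : ℝ) * (t + Real.log (‖z - l.c‖ / l.r)) := by
    funext t
    simp only [Function.comp_apply, CF.End.dep, add_sub_cancel_left]
    rw [norm_smul, Real.norm_eq_abs, abs_of_pos (Real.exp_pos t), mul_div_assoc,
      Real.log_mul (Real.exp_pos t).ne' (div_pos h1 hr).ne', Real.log_exp]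
  rw [e1] at hc
  have hc2 : HasDerivAt (fun t : ℝ => (l.sgn : ℝ) * (t + Real.log (‖z - l.c‖ / l.r)))
      ((l.sgn : ℝ) * 1) 0 := ((hasDerivAt_id (0 : ℝ)).add_const _).const_mul _
  have := hc2.unique hc
  have h2 := CF.End.sgn_mul_self l
  simp only [mul_one, zero_apply] at this
  rw [this] at h2
  simp at h2

theorem clm_apply (A : ℂ →L[ℝ] ℂ) (v : ℂ) : A v = v.re * A 1 + v.im * A Complex.I := by
  have : v = v.re • (1 : ℂ) + v.im • Complex.I := by
    simp only [Complex.real_smul, mul_one, Complex.re_add_im]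
  conv_lhs => rw [this]
  rw [map_add, map_smul, map_smul, Complex.real_smul, Complex.real_smul]

theorem an_fderiv {g : ℂ → ℂ} {z : ℂ} (h : AnalyticAt ℂ g z) :
    HasFDerivAt g ((ContinuousLinearMap.toSpanSingleton ℂ (deriv g z)).restrictScalars ℝ) z :=
  h.differentiableAt.hasDerivAt.hasFDerivAt.restrictScalars ℝ

theorem d1 (I : Type) [Fintype I] (H : ℂ → ℝ) (Ef : I → ℝ → ℂ) (Ef' : I → ℂ) (u : I → ℂ → ℂ)
    (f w : ℂ → ℂ) (z : ℂ) (hH : DifferentiableAt ℝ H z) (hH0 : fderiv ℝ H z ≠ 0)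
    (hw : AnalyticAt ℂ w z) (hE : ∀ i, HasDerivAt (Ef i) (Ef' i) (H z) ∧ AnalyticAt ℂ (u i) z)
    (hf : ∀ᶠ x in 𝓝 z, f x = w x + ∑ i, Ef i (H x) * u i x) (hs : ∑ i, Ef' i * u i z ≠ 0) :
    DifferentiableAt ℝ f z ∧ dbar f z ≠ 0 := by
  have h1 := fun i => ((hE i).1.hasFDerivAt.comp z hH.hasFDerivAt).mul (an_fderiv (hE i).2)
  have h2 := ((an_fderiv hw).add (HasFDerivAt.sum (u := Finset.univ) fun i _ => h1 i))
  have h3 := h2.congr_of_eventuallyEq (f₁ := f) (hf.mono fun x hx => by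
    rw [hx]; simp [Finset.sum_apply])
  refine ⟨h3.differentiableAt, ?_⟩
  have e : dbar f z = (∑ i, Ef' i * u i z) *
      (((fderiv ℝ H z 1 : ℝ) : ℂ) + Complex.I * ((fderiv ℝ H z Complex.I : ℝ) : ℂ)) / 2 := by
    rw [dbar, h3.fderiv]
    simp only [add_apply, sum_apply,
      smul_apply, ContinuousLinearMap.comp_apply,
      ContinuousLinearMap.coe_restrictScalars', ContinuousLinearMap.toSpanSingleton_apply,
      smul_eq_mul, Complex.real_smul, Function.comp_apply]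
    congr 1
    rw [Finset.sum_mul, mul_add, Finset.mul_sum, add_add_add_comm, ← Finset.sum_add_distrib]
    have e0 : 1 * deriv w z + Complex.I * (Complex.I * deriv w z) = 0 := by
      rw [← mul_assoc, Complex.I_mul_I]; ring
    rw [e0, zero_add]
    refine Finset.sum_congr rfl fun i _ => ?_
    linear_combination (Ef i (H z) * deriv (u i) z) * Complex.I_mul_I
  rw [e]
  refine div_ne_zero (mul_ne_zero hs fun h => hH0 ?_) two_ne_zero
  have a1 := congrArg Complex.re h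
  have a2 := congrArg Complex.im h
  simp only [Complex.add_re, Complex.ofReal_re, Complex.mul_re, Complex.I_re, Complex.I_im,
    Complex.ofReal_im, zero_mul, mul_zero, sub_zero, add_zero, Complex.zero_re, Complex.add_im,
    Complex.mul_im, one_mul, zero_add, Complex.zero_im] at a1 a2
  refine ContinuousLinearMap.ext fun v => ?_
  have : v = v.re • (1 : ℂ) + v.im • Complex.I := by
    simp only [Complex.real_smul, mul_one, Complex.re_add_im]
  rw [this, map_add, map_smul, map_smul, a1, a2]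
  simp

theorem d2 (I : Type) [Fintype I] (c : I → ℝ) (v : I → ℂ) (d : ℂ) (h0 : ∀ i, 0 ≤ c i)
    (h1 : ∀ i, c i ≠ 0 → 0 < (v i / d).re) (h2 : ∃ i, c i ≠ 0) : ∑ i, (c i : ℂ) * v i ≠ 0 := by
  intro h
  obtain ⟨j, hj⟩ := h2
  have e : ∑ i, c i * (v i / d).re = 0 := by
    have : ((∑ i, (c i : ℂ) * v i) / d).re = 0 := by rw [h]; simp
    rw [Finset.sum_div, Complex.re_sum] at this
    simpa only [mul_div_assoc, Complex.re_ofReal_mul] using this
  refine absurd e (Finset.sum_pos' (fun i _ => ?_) ⟨j, Finset.mem_univ _, ?_⟩).ne'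
  · by_cases hi : c i = 0
    · rw [hi, zero_mul]
    · exact mul_nonneg (h0 i) (h1 i hi).le
  · exact mul_pos (lt_of_le_of_ne (h0 j) (Ne.symm hj)) (h1 j hj)

theorem d3 (f g : ℂ → ℂ) (z : ℂ) : ‖dbar f z - dbar g z‖ ≤ ‖fderiv ℝ f z - fderiv ℝ g z‖ := by
  have e : dbar f z - dbar g z = ((fderiv ℝ f z - fderiv ℝ g z) 1 +
      Complex.I * (fderiv ℝ f z - fderiv ℝ g z) Complex.I) / 2 := by
    simp only [dbar, sub_apply]; ring
  rw [e]
  generalize fderiv ℝ f z - fderiv ℝ g z = A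
  have a1 := A.le_opNorm 1
  have a2 := A.le_opNorm Complex.I
  have a3 := norm_add_le (A 1) (Complex.I * A Complex.I)
  rw [norm_mul, Complex.norm_I, one_mul] at a3
  rw [norm_one, mul_one] at a1
  rw [Complex.norm_I, mul_one] at a2
  rw [norm_div, Complex.norm_two]
  linarith

theorem d4 (f b : ℂ → ℂ) (z : ℂ) (hb : AnalyticAt ℂ b z) (h0 : deriv b z ≠ 0)
    (hf : DifferentiableAt ℝ f (b z)) : dbar (fun x => f (b x)) z ≠ 0 ↔ dbar f (b z) ≠ 0 := by
  have h1 : HasFDerivAt (fun x => f (b x)) _ z := hf.hasFDerivAt.comp z (an_fderiv hb)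
  have e : dbar (fun x => f (b x)) z = (starRingEnd ℂ) (deriv b z) * dbar f (b z) := by
    rw [dbar, dbar, h1.fderiv]
    simp only [ContinuousLinearMap.comp_apply, ContinuousLinearMap.coe_restrictScalars',
      ContinuousLinearMap.toSpanSingleton_apply, smul_eq_mul, one_mul]
    generalize fderiv ℝ f (b z) = A
    generalize deriv b z = p
    have ec : (starRingEnd ℂ) p = p.re - p.im * Complex.I := by
      apply Complex.ext <;> simp
    rw [clm_apply A p, clm_apply A (Complex.I * p), ec]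
    simp only [Complex.mul_re, Complex.mul_im, Complex.I_re, Complex.I_im, zero_mul, one_mul,
      zero_sub, zero_add, Complex.ofReal_neg]
    linear_combination (p.im * A Complex.I / 2) * Complex.I_mul_I
  rw [e, mul_ne_zero_iff, and_iff_right ((map_ne_zero _).2 h0)]

theorem d5 (f g : ℂ → ℂ) (U : Set ℂ) (z : ℂ) (hU : IsOpen U) (hz : z ∈ U)
    (hg : AnalyticOnNhd ℂ g U) (h : ∀ x ∈ U, f x = g x) : dbar f z = 0 := by
  have h1 := (an_fderiv (hg z hz)).congr_of_eventuallyEq (f₁ := f)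
    (by filter_upwards [hU.mem_nhds hz] with x hx using h x hx)
  rw [dbar, h1.fderiv]
  simp only [ContinuousLinearMap.coe_restrictScalars', ContinuousLinearMap.toSpanSingleton_apply,
    smul_eq_mul]
  linear_combination (deriv g z / 2) * Complex.I_mul_I

end CSM

theorem st_csm : St_CSM :=
  ⟨CSM.one, CSM.two, fun l _ hr => ⟨fun _ hz => (CSM.dep_smooth l hr hz).contDiffWithinAt,
    fun _ hz => CSM.dep_grad l hr hz,
    fun _ _ => ⟨CF.End.isCompact_ann hr isCompact_Icc, CF.End.isOpen_ann hr isOpen_Ioo⟩⟩⟩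

theorem st_dbs : St_DBS :=
  ⟨CSM.d1, CSM.d2, fun f g z _ _ => CSM.d3 f g z, CSM.d4, CSM.d5⟩

end Pool.Agent.Lib.SH
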