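import Pool.Agent.Lib.SH.Blue2
import Pool.Agent.Lib.CF.Basic

open Set Filter Topology Metric

noncomputable section

namespace Pool.Agent.Lib.SH

namespace ENDL

def inv (l : CF.End) (z : ℂ) : ℂ :=
  if l.k = CF.Kind.out then (z - l.c) / l.r else l.r / (z - l.c)

variable {l : CF.End}

theorem ech_inv (hr : 0 < l.r) {z : ℂ} (hz : z ≠ l.c) : ech l (inv l z) = z := by
  have h1 : (l.r : ℂ) ≠ 0 := Complex.ofReal_ne_zero.2 hr.ne'
  have h2 := sub_ne_zero.2 hz
  unfold ech inv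
  split_ifs <;> field_simp <;> ring

theorem inv_ech (hr : 0 < l.r) {z : ℂ} (hz : z ≠ 0) : inv l (ech l z) = z := by
  have h1 : (l.r : ℂ) ≠ 0 := Complex.ofReal_ne_zero.2 hr.ne'
  unfold ech inv
  split_ifs <;> rw [add_sub_cancel_left] <;> field_simp

theorem norm_ech (hr : 0 < l.r) {z : ℂ} {s : ℝ} (hz : ‖z‖ = Real.exp (-s)) :
    ‖ech l z - l.c‖ = l.rad s := by
  unfold ech CF.End.rad CF.End.sgn
  split_ifs <;> rw [add_sub_cancel_left]
  · rw [norm_mul, Complex.norm_real, Real.norm_of_nonneg hr.le, hz]; simp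
  · rw [norm_div, Complex.norm_real, Real.norm_of_nonneg hr.le, hz, Real.exp_neg]; simp

theorem norm_inv' (hr : 0 < l.r) {z : ℂ} {s : ℝ} (hz : ‖z - l.c‖ = l.rad s) :
    ‖inv l z‖ = Real.exp (-s) := by
  unfold CF.End.rad CF.End.sgn at hz
  unfold inv
  split_ifs at hz ⊢ <;> rw [norm_div, Complex.norm_real, Real.norm_of_nonneg hr.le, hz]
  · simp [hr.ne']
  · rw [Real.exp_neg]; simp only [Int.cast_one, one_mul]; field_simp

theorem cont_ech {z : ℂ} (hz : z ≠ 0) : ContinuousAt (ech l) z := by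
  unfold ech
  split_ifs
  · fun_prop
  · exact continuousAt_const.add (continuousAt_const.div continuousAt_id hz)

theorem cont_inv {z : ℂ} (hz : z ≠ l.c) : ContinuousAt (inv l) z := by
  unfold inv
  split_ifs
  · fun_prop
  · exact continuousAt_const.div (by fun_prop) (sub_ne_zero.2 hz)

theorem avg_ech (F : ℂ → ℝ) (s : ℝ) :
    Real.circleAverage (fun z => F (ech l z)) 0 (Real.exp (-s)) =
      Real.circleAverage F l.c (l.rad s) := by
  rw [Real.circleAverage_eq_circleAverage_zero_one,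
    Real.circleAverage_eq_circleAverage_zero_one (c := l.c)]
  unfold ech CF.End.rad CF.End.sgn
  split_ifs
  · congr 1; ext z; congr 1; push_cast; ring_nf
  · rw [← Real.circleAverage_zero_one_congr_inv]
    congr 1; ext z; congr 1
    rw [Real.exp_neg]; push_cast
    simp only [add_zero, ← mul_inv, div_inv_eq_mul, one_mul]; ring

theorem annW_mono {W : Type} {h h' : ℝ} (k : h' ≤ h) (x : W → ℂ) (ρ0 : W → ℝ) :
    annW h' x ρ0 ⊆ annW h x ρ0 := fun _ hz =>
  ⟨(Real.exp_le_exp.2 (by linarith)).trans hz.1, hz.2.1.trans (Real.exp_le_exp.2 k), hz.2.2⟩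

theorem isClosed_annW {W : Type} (h : ℝ) (x : W → ℂ) (ρ0 : W → ℝ) : IsClosed (annW h x ρ0) := by
  have : annW h x ρ0 = {z | Real.exp (-h) ≤ ‖z‖} ∩ ({z | ‖z‖ ≤ Real.exp h} ∩
      ⋂ j, {z | ρ0 j ≤ ‖z - x j‖}) := by
    ext z; simp [annW]
  rw [this]
  exact (isClosed_le continuous_const continuous_norm).inter
    ((isClosed_le continuous_norm continuous_const).inter
      (isClosed_iInter fun j => isClosed_le continuous_const (by fun_prop)))

theorem np_mono {X K : Set E} {Ω Ω' : Set ℂ} (h : NP X K Ω) (hc : IsClosed Ω') (k : Ω' ⊆ Ω) :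
    NP X K Ω' := by
  refine ⟨?_, fun y hy => hy.1, fun y hy => h.np y ⟨hy.1, k hy.2⟩⟩
  have : ov X Ω' = ov X Ω ∩ Prod.fst ⁻¹' Ω' := by
    ext y; exact ⟨fun a => ⟨⟨a.1, k a.2⟩, a.2⟩, fun a => ⟨a.1.1, a.2⟩⟩
  rw [this]; exact h.cpt.inter_right (hc.preimage continuous_fst)

theorem mem_annW {W : Type} {h h' s : ℝ} {x : W → ℂ} {ρ0 : W → ℝ} (h0 : 0 < h) (h1 : h ≤ 1)
    (hx : ∀ j, ‖x j‖ = 1 ∧ ρ0 j ≤ h / 24) {z : ℂ} (hz : ‖z‖ = Real.exp (-s)) (a : h / 16 ≤ s)
    (b : s ≤ h') : z ∈ annW h' x ρ0 := by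
  refine ⟨hz ▸ Real.exp_le_exp.2 (by linarith), hz ▸ Real.exp_le_exp.2 (by linarith), fun j => ?_⟩
  have c := norm_sub_norm_le (x j) z
  rw [norm_sub_rev, (hx j).1, hz] at c
  have d : Real.exp (-s) ≤ 1 - h / 24 := by
    refine (Real.exp_le_exp.2 (show -s ≤ -(h / 16) by linarith)).trans ?_
    rw [Real.exp_neg, inv_le_iff_one_le_mul₀ (Real.exp_pos _)]
    nlinarith [Real.add_one_le_exp (h / 16)]
  linarith [(hx j).2]

theorem div_le {x M a : ℝ} (h : x ≤ M) (hM : 0 ≤ M) (a1 : 1 / 2 ≤ a) : x / a ≤ 2 * M := by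
  rw [div_le_iff₀ (by linarith)]; nlinarith

theorem rpow_le {q a u : ℝ} (hq : 0 ≤ q) (ha : 0 < a) (h : q ^ a ≤ Real.exp u) :
    q ≤ Real.exp (u / a) := by
  rw [← Real.rpow_le_rpow_iff hq (Real.exp_pos _).le ha, ← Real.exp_mul,
    div_mul_cancel₀ _ ha.ne']
  exact h

theorem avg_lin {f1 f2 : ℂ → ℝ} {R : ℝ} (hR : 0 < R) (h1 : ContinuousOn f1 (sphere 0 R))
    (h2 : ContinuousOn f2 (sphere 0 R)) (a b c : ℝ) :
    Real.circleAverage (fun z => a * f1 z + b * f2 z + c) 0 R =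
      a * Real.circleAverage f1 0 R + b * Real.circleAverage f2 0 R + c := by
  have i1 : ContinuousOn (fun z => a * f1 z) (sphere 0 R) := continuousOn_const.mul h1
  have i2 : ContinuousOn (fun z => b * f2 z) (sphere 0 R) := continuousOn_const.mul h2
  have i3 : ContinuousOn (fun z => a * f1 z + b * f2 z) (sphere 0 R) := i1.add i2
  rw [Real.circleAverage_fun_add (ContinuousOn.circleIntegrable hR.le i3)
    (ContinuousOn.circleIntegrable hR.le continuousOn_const),
    Real.circleAverage_fun_add (ContinuousOn.circleIntegrable hR.le i1)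
      (ContinuousOn.circleIntegrable hR.le i2), Real.circleAverage_const]
  have e1 := Real.circleAverage_fun_smul (a := a) (f := f1) (c := 0) (R := R)
  have e2 := Real.circleAverage_fun_smul (a := b) (f := f2) (c := 0) (R := R)
  simp only [smul_eq_mul] at e1 e2
  rw [e1, e2]

end ENDL

open ENDL

theorem st_endl (hWd : St_WIND) : St_ENDL := by
  intro h n Λw Λ0 η Λ1 κ h0 h1 hΛw hΛ0 hη hΛ1 hSL W _ x ρ ex Cw hn hx hsep C0 Cm
  obtain ⟨ι, hι, hS⟩ := hSL W x ρ ex Cw hn
    (fun j => ⟨(hx j).1, (hx j).2.1, (hx j).2.2.1, (hx j).2.2.2.1, (hx j).2.2.2.2.1⟩) hsep C0 Cm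
  refine ⟨ι, hι, fun X K φ l V m g e R a k0 τ thr hk hr a1 a2 t0 t1 hthr H lv hlv hthl => ?_⟩
  obtain ⟨he, hN, hV, hm, hm2, ⟨ι', Ψ, Ψy, w1, w2, w3, w4⟩, hGP, hk0, hg, hφ⟩ := H
  choose rmin Omin hGP using hGP
  set X' := bc (ech l) ⁻¹' near X l.w R with hX'
  set K' := bc (ech l) ⁻¹' K with hK'
  set ρ0 : W → ℝ := fun j => κ (Cw j) * ρ j with hρ0
  set G0 := (g (Real.exp (-h))).re with hG0
  set N0 := (Real.log lv - G0) / a with hN0
  have ha : 0 < a := by linarith
  have hx' : ∀ j, ‖x j‖ = 1 ∧ ρ0 j ≤ h / 24 := fun j => by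
    obtain ⟨b1, b2, b3, -, -, b4, b5⟩ := hx j
    exact ⟨b1, (mul_le_mul b5 b3 b2.le (by norm_num)).trans (by linarith)⟩
  have eN0 : (lv * Real.exp (-G0)) ^ (1 / a) = Real.exp N0 := by
    rw [hN0, div_eq_mul_one_div (Real.log lv - G0) a, Real.exp_mul, sub_eq_add_neg, Real.exp_add, Real.exp_log hlv]
  have rng : ∀ {s : ℝ} {z : ℂ}, ‖z‖ = Real.exp (-s) → h / 16 ≤ s → s ≤ h →
      Real.exp (-h) ≤ ‖z‖ ∧ ‖z‖ ≤ Real.exp (-(h / 16)) := fun hz b c =>
    ⟨hz ▸ Real.exp_le_exp.2 (by linarith), hz ▸ Real.exp_le_exp.2 (by linarith)⟩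
  have gc : ∀ s, h / 16 ≤ s → s ≤ h →
      ContinuousOn (fun z => (g z).re) (sphere 0 (Real.exp (-s))) := fun s b c z hz =>
    (Complex.continuous_re.continuousAt.comp (hg z (rng (mem_sphere_zero_iff_norm.1 hz) b c).1
      (rng (mem_sphere_zero_iff_norm.1 hz) b c).2).1.continuousAt).continuousWithinAt
  have ks : ∀ s, 0 ≤ s → s ≤ 1 → |k0 * s| ≤ Λw := fun s b c => by
    rw [abs_mul, abs_of_nonneg b]; nlinarith [abs_nonneg k0]
  have pk : ∀ {s : ℝ} {z : ℂ}, ‖z‖ = Real.exp (-s) → ‖z‖ ^ k0 = Real.exp (-(k0 * s)) :=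
    fun hz => by rw [hz, ← Real.exp_mul]; congr 1; ring
  have core : ∀ s, h / 2 ≤ s → s ≤ h → ∀ F : ℂ → ℝ, ContinuousOn F (sphere 0 (Real.exp (-s))) →
      (∀ z ∈ sphere (0 : ℂ) (Real.exp (-s)), F z ≤ Λ0) →
      -Λ0 ≤ Real.circleAverage F 0 (Real.exp (-s)) →
      (∀ y ∈ X', y ∉ K' → ‖y.1‖ = Real.exp (-s) → φ (bc (ech l) y) ≤ lv * Real.exp (F y.1)) →
      ∃ B : ℂ → ℝ, ContinuousOn B (annW s x ρ0) ∧
        (∀ y ∈ ov X' (annW s x ρ0), y ∉ K' → ‖pp e (V y) * m y.1‖ ≤ Real.exp (B y.1)) ∧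
        (∀ z ∈ annW s x ρ0, ∀ d : ℝ, 0 < d → d ≤ 1 →
          (∀ j, d ≤ ‖z - x j‖) → B z ≤ N0 + Λ1 - 5 * n * Real.log d) ∧
        (∀ z : ℂ, Real.exp (-s) ≤ ‖z‖ → ‖z‖ ≤ Real.exp (-(h / 16)) → B z ≤ N0 + Λ1) ∧
        (∀ z : ℂ, Real.exp (-(h / 4)) ≤ ‖z‖ → ‖z‖ ≤ Real.exp (-(h / 8)) → N0 - Λ1 ≤ B z) ∧
        (∀ s' ∈ Icc (h / 8) (h / 4), a * Real.circleAverage B 0 (Real.exp (-s')) ≤
          Real.circleAverage F 0 (Real.exp (-s)) -
            Real.circleAverage (fun z => (g z).re) 0 (Real.exp (-s)) + (τ + Real.log lv + k0 * s) -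
            a * (∑ j, ex j) / 2 * (s - s') + η) := by
    intro s s1 s2 F hF hF1 hF2 hF3
    have sub := annW_mono s2 x ρ0
    have gs := gc s (by linarith) s2
    have hgb : ∀ z ∈ sphere (0 : ℂ) (Real.exp (-s)), |(g z).re - G0| ≤ Λw := fun z hz =>
      (hg z (rng (mem_sphere_zero_iff_norm.1 hz) (by linarith) s2).1
        (rng (mem_sphere_zero_iff_norm.1 hz) (by linarith) s2).2).2
    have k1 := abs_le.1 (ks s (by linarith) (by linarith))
    set fq : ℂ → ℝ := fun z => 1 / a * F z + -(1 / a) * (g z).re +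
      (τ + Real.log lv + k0 * s) / a with hfq
    have fqc : ContinuousOn fq (sphere 0 (Real.exp (-s))) :=
      ((continuousOn_const.mul hF).add (continuousOn_const.mul gs)).add continuousOn_const
    have fqa := avg_lin (Real.exp_pos (-s)) hF gs (1 / a) (-(1 / a))
      ((τ + Real.log lv + k0 * s) / a)
    have gm : Real.circleAverage (fun z => (g z).re) 0 (Real.exp (-s)) ≤ G0 + Λw :=
      Real.circleAverage_mono_on_of_le_circle
        (ContinuousOn.circleIntegrable (Real.exp_pos _).le gs) fun z hz => by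
          rw [abs_of_pos (Real.exp_pos _)] at hz; linarith [abs_le.1 (hgb z hz)]
    obtain ⟨B, B1, B2, B3, B4, B5, B6⟩ := hS X' K' V m e N0 s fq rmin Omin he s1 s2
      (np_mono hN (isClosed_annW _ _ _) sub) (hV.mono fun y hy => ⟨hy.1, sub hy.2⟩) (hm.mono sub)
      (fun z hz => hm2 z (sub hz))
      ⟨ι', Ψ, Ψy, w1, fun y hy => w2 y ⟨hy.1, sub hy.2⟩, fun y hy => w3 y ⟨hy.1, sub hy.2⟩,
        fun y hy => w4 y ⟨hy.1, sub hy.2⟩⟩
      (fun j => ⟨(hGP j).1, (hGP j).2.1, (hGP j).2.2.trans (by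
        rw [← eN0]
        have := (hx j).2.1
        have := (hx j).2.2.2.2.1
        gcongr)⟩)
      fqc.upperSemicontinuousOn
      (by
        obtain ⟨b, hb⟩ := (isCompact_sphere (0 : ℂ) (Real.exp (-s))).exists_bound_of_continuousOn
          fqc
        exact ⟨-b, fun z hz => (abs_le.1 (hb z hz)).1⟩)
      (fun z hz => by
        have e1 : fq z = N0 + (F z - ((g z).re - G0) + τ + k0 * s) / a := by
          rw [hfq, hN0]; ring
        rw [e1]
        exact add_le_add le_rfl (div_le (by linarith [hF1 z hz, abs_le.1 (hgb z hz)])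
          (by positivity) a1))
      (by
        rw [hfq, fqa]
        have := div_le (x := -(Real.circleAverage F 0 (Real.exp (-s)) -
          (Real.circleAverage (fun z => (g z).re) 0 (Real.exp (-s)) - G0) + τ + k0 * s))
          (M := Λ0 + 2 * Λw + 1) (by linarith) (by positivity) a1
        rw [hN0]
        refine le_trans (sub_le_sub_left this _) (le_of_eq (by ring)))
      (fun y hy hK hy1 => by
        obtain ⟨c1, c2⟩ := rng hy1 (by linarith) s2
        have c3 := ((hφ y hy c1 c2).2 hK).2.trans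
          (mul_le_mul_of_nonneg_left (hF3 y hy hK hy1) (Real.exp_pos _).le)
        have e1 : fq y.1 = (τ + Real.log lv + F y.1 - (g y.1).re + k0 * s) / a := by
          rw [hfq]; ring
        rw [e1]
        refine rpow_le (norm_nonneg _) ha ?_
        rw [pk hy1, mul_assoc, ← Real.exp_add, ← le_div_iff₀ (Real.exp_pos _)] at c3
        refine c3.trans (le_of_eq ?_)
        rw [div_eq_iff (Real.exp_pos _).ne', ← Real.exp_add]
        conv_lhs => rw [← Real.exp_log hlv, ← Real.exp_add, ← Real.exp_add]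
        congr 1; ring)
    refine ⟨B, B1, B2, B3, B4, B5, fun s' hs' => ?_⟩
    have c1 := mul_le_mul_of_nonneg_left (B6 s' hs') ha.le
    rw [hfq, fqa] at c1
    refine c1.trans ?_
    have c2 : a * η ≤ η := mul_le_of_le_one_left hη.le a2
    refine le_trans (le_of_eq ?_) (add_le_add le_rfl c2)
    field_simp; ring
  have up : ∀ (B : ℝ) (y : E) (s : ℝ), y ∈ near X l.w R → ‖y.1 - l.c‖ = l.rad s → h / 16 ≤ s →
      s ≤ h → (y ∉ K → ((inv l y.1, y.2) : E) ∈ X' → ((inv l y.1, y.2) : E) ∉ K' →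
        ‖pp e (V (inv l y.1, y.2)) * m (inv l y.1)‖ ≤ Real.exp B) →
      φ y ≤ Real.exp (τ + a * B + (g (inv l y.1)).re - k0 * s) := by
    intro B y s hy hs b1 b2 hB
    have c0 := norm_inv' hr hs
    have c1 : bc (ech l) (inv l y.1, y.2) = y :=
      Prod.ext (ech_inv hr (CF.End.dep_of_norm hr hs).1) rfl
    have c2 : ((inv l y.1, y.2) : E) ∈ X' := by rw [hX', mem_preimage, c1]; exact hy
    obtain ⟨c3, c4⟩ := hφ _ c2 (rng c0 b1 b2).1 (rng c0 b1 b2).2
    rw [c1] at c3 c4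
    by_cases hK : y ∈ K
    · rw [c3 (by rw [hK', mem_preimage, c1]; exact hK)]; exact (Real.exp_pos _).le
    · have c5 : ((inv l y.1, y.2) : E) ∉ K' := by rw [hK', mem_preimage, c1]; exact hK
      refine (c4 c5).1.trans ?_
      have c6 := Real.rpow_le_rpow (norm_nonneg _) (hB hK c2 c5) ha.le
      rw [← Real.exp_mul] at c6
      rw [pk c0, sub_eq_add_neg, Real.exp_add, Real.exp_add, Real.exp_add, mul_comm a B,
        mul_assoc (Real.exp τ), mul_assoc (Real.exp τ)]
      gcongr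
  refine ⟨fun B Λ κ' b1 b2 b3 => ⟨Λ1 + 2 * Λw, fun s hs f hf f1 f2 f3 => ?_⟩, fun H => ?_⟩
  · obtain ⟨s1, s2⟩ := hs
    have ec : ContinuousOn (fun z => f (ech l z)) (sphere 0 (Real.exp (-s))) := fun z hz =>
      (hf.continuousAt.comp (cont_ech (norm_pos_iff.1
        ((mem_sphere_zero_iff_norm.1 hz) ▸ Real.exp_pos _)))).continuousWithinAt
    obtain ⟨B', B1, B2, -, -, B5, B6⟩ := core s (by linarith) (by linarith) _ ec
      (fun z hz => (f1 _ (mem_sphere_iff_norm.2
        (norm_ech hr (mem_sphere_zero_iff_norm.1 hz)))).trans b1)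
      (by rw [avg_ech]; linarith)
      (fun y hy _ c => by
        have := f3 _ hy.1 (mem_sphere_iff_norm.2 (norm_ech hr c)) hy.2
        rwa [div_le_iff₀' hlv] at this)
    set s' := s - h / 2 with hs'
    have p1 : h / 8 ≤ s' := by linarith
    have p2 : s' ≤ h / 4 := by linarith
    have mA : ∀ z : ℂ, ‖z‖ = Real.exp (-s') → z ∈ annW s x ρ0 := fun z hz =>
      mem_annW h0 h1 hx' hz (by linarith) (by linarith)
    have Bc : ContinuousOn B' (sphere 0 (Real.exp (-s'))) :=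
      B1.mono fun z hz => mA z (mem_sphere_zero_iff_norm.1 hz)
    have gs := gc s' (by linarith) (by linarith)
    have k1 := abs_le.1 (ks s' (by linarith) (by linarith))
    set D : ℂ → ℝ := fun z => a * B' z + 1 * (g z).re + (τ - k0 * s' - Real.log lv) with hD
    refine ⟨fun z => D (inv l z), ?_, fun z hz => ?_, fun y hy c1 c2 => ?_, ?_⟩
    · refine ContinuousOn.comp (g := D) (((continuousOn_const.mul Bc).add
        (continuousOn_const.mul gs)).add continuousOn_const) (fun z hz => (cont_inv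
          ((CF.End.mem_sphere_rad hr).1 hz).1).continuousWithinAt) fun z hz =>
        mem_sphere_zero_iff_norm.2 (norm_inv' hr (mem_sphere_iff_norm.1 hz))
    · have c0 := norm_inv' hr (mem_sphere_iff_norm.1 hz)
      have c1 := B5 _ (by rw [c0]; exact Real.exp_le_exp.2 (by linarith))
        (by rw [c0]; exact Real.exp_le_exp.2 (by linarith))
      have c2 := abs_le.1 (hg _ (rng c0 (by linarith) (by linarith)).1
        (rng c0 (by linarith) (by linarith)).2).2
      have c3 := mul_le_mul_of_nonneg_left c1 ha.le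
      have c4 : a * N0 = Real.log lv - G0 := by rw [hN0]; field_simp
      have c5 : a * Λ1 ≤ Λ1 := mul_le_of_le_one_left hΛ1 a2
      simp only [hD]
      linarith
    · have c0 := mem_sphere_iff_norm.1 c1
      have := up (B' (inv l y.1)) y s' ⟨hy, c2⟩ c0 (by linarith) (by linarith)
        fun _ d1 d2 => B2 _ ⟨d1, mA _ (norm_inv' hr c0)⟩ d2
      show φ y / lv ≤ _
      rw [div_le_iff₀ hlv]
      refine this.trans (le_of_eq ?_)
      conv_rhs => rw [← Real.exp_log hlv, ← Real.exp_add]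
      congr 1; simp only [hD]; ring
    · rw [← avg_ech, Real.circleAverage_congr_sphere (f₂ := D) (fun z hz => by
        rw [abs_of_pos (Real.exp_pos _), mem_sphere_zero_iff_norm] at hz
        show D (inv l (ech l z)) = D z
        rw [inv_ech hr (norm_pos_iff.1 (hz ▸ Real.exp_pos _))]), hD,
        avg_lin (Real.exp_pos _) Bc gs]
      have c1 := B6 s' ⟨p1, p2⟩
      rw [avg_ech] at c1
      have c2 := hWd.2.2.2.2.2.2 g (Real.exp (-s)) (Real.exp (-s')) (Real.exp_pos _)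
        (Real.exp_le_exp.2 (by linarith)) fun z d1 d2 => (hg z
          ((Real.exp_le_exp.2 (by linarith)).trans d1)
          (d2.trans (Real.exp_le_exp.2 (by linarith)))).1
      have c3 := mul_le_mul_of_nonneg_right b3 (show 0 ≤ h / 2 by linarith)
      have c4 : (η + 2 * τ) * 2 / h * (h / 2) = η + 2 * τ := by field_simp
      have c5 : s - s' = h / 2 := by rw [hs']; ring
      have c6 : k0 * s = k0 * s' + k0 * (h / 2) := by rw [hs']; ring
      rw [c5] at c1
      rw [add_mul, c4] at c3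
      linarith
  · obtain ⟨B', -, B2, B3, B4, -, -⟩ := core h (by linarith) le_rfl (fun _ => 0) continuousOn_const
      (fun _ _ => hΛ0) (by rw [Real.circleAverage_const]; linarith)
      (fun y hy hK c => by
        rw [Real.exp_zero, mul_one]
        exact H _ hy hK (CF.End.sphere_subset_ann hr (mem_singleton h)
          (mem_sphere_iff_norm.2 (norm_ech hr c))))
    refine ⟨fun y hy c => ?_, fun y hy hK d d1 d2 d3 => (B2 y hy hK).trans ?_⟩
    · have c0 := CF.End.norm_eq_rad hr c.1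
      have c1 := norm_inv' hr c0
      obtain ⟨c2, c3⟩ := rng c1 c.2.1 c.2.2
      have k1 := abs_le.1 (ks _ (by linarith [c.2.1]) (c.2.2.trans h1))
      refine (up (N0 + Λ1) y _ hy c0 c.2.1 c.2.2 fun _ d1 d2 =>
        (B2 _ ⟨d1, mem_annW h0 h1 hx' c1 c.2.1 c.2.2⟩ d2).trans
          (Real.exp_le_exp.2 (B4 _ c2 c3))).trans ?_
      conv_rhs => rw [← Real.exp_log hlv, ← Real.exp_add]
      have c4 : a * N0 = Real.log lv - G0 := by rw [hN0]; field_simp
      have c5 : a * Λ1 ≤ Λ1 := mul_le_of_le_one_left hΛ1 a2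
      have c6 := abs_le.1 (hg _ c2 c3).2
      exact Real.exp_le_exp.2 (by linarith)
    · refine (Real.exp_le_exp.2 (B3 _ hy.2 d d1 d2 d3)).trans (le_of_eq ?_)
      rw [eN0, sub_eq_add_neg, Real.exp_add, Real.exp_add]
      congr 1
      rw [← Real.exp_log (inv_pos.2 d1), ← Real.exp_nat_mul, Real.log_inv]
      congr 1; push_cast; ring

end Pool.Agent.Lib.SH
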