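import Pool.Agent.Lib.SH.Blue2

/-! Macro port and the one-sided loop. -/

open Set Filter Topology Metric

namespace Pool.Agent.Lib.SH

theorem st_endp (hP : St_PP2) : St_ENDP := by
  intro γ C0 hγ hγ'
  obtain ⟨ι, ι0, H⟩ := hP γ C0 hγ hγ'
  refine ⟨ι, ι0, fun X K φ N w p r1 R e Mst Mup a Λw G0 r lv r10 e0 a1 _ G00 r0 r1' M0 Λ0 lv0 hM hNP hN hPP
    hφ hlv => ?_⟩
  have a0 : 0 < a := by linarith
  have E0 := Real.exp_pos Λw
  have B0 : 0 ≤ lv * Real.exp Λw / G0 := by positivity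
  have key := H _ _ N e Mst Mup ((lv * Real.exp Λw / G0) ^ (1 / a)) e0 hNP hN hPP
    (by
      rw [one_div, Real.le_rpow_inv_iff_of_pos M0 B0 a0, le_div_iff₀ G00]
      exact hM.trans (le_mul_of_one_le_right lv0.le (Real.one_le_exp Λ0)))
    (by positivity) (fun y hy hK => (hφ y hy hK).1) fun y hy hK h1 => by
      have h2 := ((hφ y ⟨hy, by simp [h1]⟩ hK).2 (h1 ▸ r1')).2
      have h3 := hlv _ hy hK (by simp [bc, h1, abs_of_pos r10])
      rw [h1, inv_one, Real.one_rpow, mul_one] at h2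
      rw [one_div, Real.le_rpow_inv_iff_of_pos (norm_nonneg _) B0 a0, le_div_iff₀ G00]
      nlinarith
  refine ⟨fun x hx hK h1 h2 => ?_, key⟩
  have rc : (r1 : ℂ) ≠ 0 := Complex.ofReal_ne_zero.2 r10.ne'
  have e1 : bc (fun z => p + r1 * z) ((x.1 - p) / r1, x.2) = x := by
    simp only [bc, mul_div_cancel₀ _ rc, add_sub_cancel]
  have e2 : ‖(x.1 - p) / r1‖ = ‖x.1 - p‖ / r1 := by simp [abs_of_pos r10]
  have m1 : ((x.1 - p) / r1, x.2) ∈ ov (bc (fun z => p + r1 * z) ⁻¹' near X w R) (closedBall 0 1) :=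
    ⟨by rwa [mem_preimage, e1], by rw [mem_closedBall_zero_iff, e2, div_le_one r10]; exact h2⟩
  have m2 : ((x.1 - p) / r1, x.2) ∉ bc (fun z => p + r1 * z) ⁻¹' K := by rwa [mem_preimage, e1]
  have h3 := ((hφ _ m1 m2).2 (by rw [e2, le_div_iff₀ r10]; exact h1)).1
  have h4 := key _ m1 m2
  have t0 : 0 < ‖x.1 - p‖ / r1 := div_pos (lt_of_lt_of_le (mul_pos r0 r10) h1) r10
  rw [e1] at h3
  simp only [e2] at h3 h4
  rw [← inv_div ‖x.1 - p‖ r1]
  generalize ‖x.1 - p‖ / r1 = t at *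
  have n0 := norm_nonneg (pp e ((x.1 - p) / r1 * N ((x.1 - p) / r1, x.2)))
  generalize ‖pp e ((x.1 - p) / r1 * N ((x.1 - p) / r1, x.2))‖ = q at *
  have h5 : q ^ a ≤ lv * Real.exp Λw / G0 * t⁻¹ ^ (γ * a) := by
    rw [← le_div_iff₀ (Real.rpow_pos_of_pos t0 γ), div_eq_mul_inv _ (t ^ γ), ← Real.inv_rpow t0.le] at h4
    refine (Real.rpow_le_rpow n0 h4 a0.le).trans_eq ?_
    rw [Real.mul_rpow (by positivity) (by positivity), one_div, Real.rpow_inv_rpow B0 a0.ne',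
      ← Real.rpow_mul (by positivity)]
  refine h3.trans ((mul_le_mul_of_nonneg_right (mul_le_mul_of_nonneg_left h5 (by positivity))
    (by positivity)).trans_eq ?_)
  rw [show a * (2 + γ) = γ * a + 2 * a by ring, Real.rpow_add (inv_pos.2 t0), two_mul Λw, Real.exp_add]
  field_simp

theorem st_up (hM : St_MPRe) : St_UP := by
  intro X K l h d _ hr _ hNP _ hd hy y0 hy0
  have hc : ∀ z : ℂ, z ≠ l.c → ContinuousAt l.dep z := fun z hz => continuousAt_const.mul
    (ContinuousAt.log (by fun_prop) (div_ne_zero (norm_ne_zero_iff.2 (sub_ne_zero.2 hz)) hr.ne'))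
  refine neg_le_neg_iff.1 (hM X K _ (fun y => -l.dep y.1) (-d) hNP (fun y hy' => ?_) (fun y hy' => ?_) y0 hy0)
  · have n0 : y.1 - l.c ≠ 0 := sub_ne_zero.2 hy'.2.1
    refine ⟨fun x => -(l.sgn * (Complex.log ((x.1 - l.c) / (y.1 - l.c)) +
      (Real.log (‖y.1 - l.c‖ / l.r) : ℝ))), ?_, ?_⟩
    · refine (analyticAt_const.mul (AnalyticAt.add (AnalyticAt.clog ?_ ?_) analyticAt_const)).neg
      · exact (analyticAt_fst.sub analyticAt_const).div analyticAt_const n0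
      · simp [n0]
    · filter_upwards [continuousAt_fst (isOpen_ne.mem_nhds hy'.2.1)] with x hx
      have n1 : ‖x.1 - l.c‖ ≠ 0 := norm_ne_zero_iff.2 (sub_ne_zero.2 hx)
      have n2 : ‖y.1 - l.c‖ ≠ 0 := norm_ne_zero_iff.2 n0
      simp only [Complex.neg_re, Complex.mul_re, Complex.intCast_re, Complex.intCast_im, zero_mul,
        sub_zero, Complex.add_re, Complex.ofReal_re, Complex.log_re, norm_div, CF.End.dep]
      rw [Real.log_div n1 hr.ne', Real.log_div n1 n2, Real.log_div n2 hr.ne']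
      ring
  · refine neg_le_neg (hy'.2.elim (hy y hy'.1).1 fun hn => not_lt.1 fun hlt => hn ?_)
    filter_upwards [continuousAt_fst (isOpen_ne.mem_nhds hy'.1.2.1), ((hc _ hy'.1.2.1).comp
      continuousAt_fst) (Icc_mem_nhds (hy y hy'.1).2 (hlt.trans_le hd))] with x h1 h2 h3
    exact ⟨h3, h1, h2⟩

end Pool.Agent.Lib.SH
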