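import Pool.Agent.Lib.SH.Blue2
import Pool.Agent.Lib.CF.Basic

open Set Filter Topology Metric

noncomputable section

namespace Pool.Agent.Lib.SH

namespace FIN

lemma re_lt_one {u : ℂ} (h1 : ‖u‖ ≤ 1) (h2 : u ≠ 1) : u.re < 1 := by
  by_contra h
  have h3 : u.re = 1 := le_antisymm ((Complex.re_le_norm u).trans h1) (not_lt.1 h)
  have h4 : ‖u‖ ^ 2 ≤ 1 := by nlinarith [norm_nonneg u]
  rw [Complex.sq_norm, Complex.normSq_apply, h3] at h4
  have h5 : u.im = 0 := by nlinarith [mul_self_nonneg u.im]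
  exact h2 (Complex.ext h3 h5)

/-- a function with a strict maximum of the real part at the least depth -/
lemma peak_fun (l : CF.End) (hr : 0 < l.r) {z0 : ℂ} (h0 : z0 ≠ l.c) :
    ∃ g : ℂ → ℂ, AnalyticAt ℂ g z0 ∧
      ∀ z, z ≠ l.c → l.dep z0 ≤ l.dep z → z ≠ z0 → (g z).re < (g z0).re := by
  have h0' : z0 - l.c ≠ 0 := sub_ne_zero.2 h0
  have hn0 : 0 < ‖z0 - l.c‖ := norm_pos_iff.2 h0'
  rcases l.sgn_cases with hs | hs
  · refine ⟨fun z => (z - l.c) / (z0 - l.c), by fun_prop, fun z hz hd hne => ?_⟩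
    have hz' : z - l.c ≠ 0 := sub_ne_zero.2 hz
    have hn : 0 < ‖z - l.c‖ := norm_pos_iff.2 hz'
    simp only [CF.End.dep, hs.2] at hd
    have h1 : Real.log (‖z - l.c‖ / l.r) ≤ Real.log (‖z0 - l.c‖ / l.r) := by
      push_cast at hd
      linarith
    rw [Real.log_le_log_iff (div_pos hn hr) (div_pos hn0 hr),
      div_le_div_iff_of_pos_right hr] at h1
    simp only [div_self h0', Complex.one_re]
    refine re_lt_one ?_ fun h => hne ?_
    · rw [norm_div, div_le_one hn0]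
      exact h1
    · rw [div_eq_one_iff_eq h0'] at h
      exact sub_left_injective h
  · refine ⟨fun z => (z0 - l.c) / (z - l.c), by fun_prop (disch := exact h0'),
      fun z hz hd hne => ?_⟩
    have hz' : z - l.c ≠ 0 := sub_ne_zero.2 hz
    have hn : 0 < ‖z - l.c‖ := norm_pos_iff.2 hz'
    simp only [CF.End.dep, hs.2] at hd
    have h1 : Real.log (‖z0 - l.c‖ / l.r) ≤ Real.log (‖z - l.c‖ / l.r) := by
      push_cast at hd
      linarith
    rw [Real.log_le_log_iff (div_pos hn0 hr) (div_pos hn hr),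
      div_le_div_iff_of_pos_right hr] at h1
    simp only [div_self h0', Complex.one_re]
    refine re_lt_one ?_ fun h => hne ?_
    · rw [norm_div, div_le_one hn]
      exact h1
    · rw [div_eq_one_iff_eq hz'] at h
      exact (sub_left_injective h).symm

end FIN

theorem st_fin : St_FIN := by
  intro J l a X K A hX hK hnp hl hcov hend hloc x0 hx0
  by_contra hn
  have hK0 : x0 ∉ K := fun h => hn (Or.inl h)
  obtain ⟨j, hj⟩ := (hcov x0 hx0 hK0).resolve_left fun h => hn (Or.inr h)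
  obtain ⟨-, hr, hw⟩ := hl j
  have hd0 : (l j).dep x0.1 < 0 := hj.1.2.2
  have hsub : Icc (-a j) ((l j).dep x0.1) ⊆ Icc (-a j) 0 := Icc_subset_Icc le_rfl hd0.le
  have hG : IsCompact ((l j).gr ((l j).ann (Icc (-a j) ((l j).dep x0.1)))) :=
    CF.End.isCompact_gr (CF.End.isCompact_ann hr isCompact_Icc) (hw.mono (CF.End.ann_mono hsub))
  have hZ : IsCompact (X ∩ (l j).gr ((l j).ann (Icc (-a j) ((l j).dep x0.1)))) :=
    hX.inter_right hG.isClosed
  have hc : ContinuousOn (fun x : E => (l j).dep x.1)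
      (X ∩ (l j).gr ((l j).ann (Icc (-a j) ((l j).dep x0.1)))) := fun x hx =>
    ((CF.End.continuousAt_dep hr hx.2.1.1).comp continuousAt_fst).continuousWithinAt
  obtain ⟨y, hy, hmin⟩ := hZ.exists_isMinOn ⟨x0, hx0, ⟨hj.1.1, hj.1.2.1.le, le_rfl⟩, hj.2⟩ hc
  have hya : -a j < (l j).dep y.1 := by
    refine lt_of_le_of_ne hy.2.1.2.1 fun h => hend j y hy.1 ⟨⟨hy.2.1.1, ?_⟩, hy.2.2⟩
    exact h.symm
  have hyo : y.1 ∈ (l j).ann (Ioo (-a j) 0) := ⟨hy.2.1.1, hya, hy.2.1.2.2.trans_lt hd0⟩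
  obtain ⟨hyK, hev⟩ := hloc j y ⟨hyo, hy.2.2⟩
  obtain ⟨g, hg, hpk⟩ := FIN.peak_fun (l j) hr hy.2.1.1
  refine hnp y hy.1 hyK ⟨fun x => g x.1, hg.comp analyticAt_fst, ?_⟩
  have h1 : ∀ᶠ x : E in 𝓝 y, x.1 ∈ (l j).ann (Ioo (-a j) 0) :=
    continuousAt_fst.eventually ((CF.End.isOpen_ann hr isOpen_Ioo).mem_nhds hyo)
  filter_upwards [hev, h1, hK.isOpen_compl.mem_nhds hyK] with x h2 h3 h4 hxX hne
  have h5 := h2 hxX h4
  refine hpk x.1 h3.1 ?_ fun h => hne (Prod.ext h ?_)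
  · by_cases h6 : (l j).dep x.1 ≤ (l j).dep x0.1
    · exact hmin ⟨hxX, ⟨h3.1, h3.2.1.le, h6⟩, h5⟩
    · exact hy.2.1.2.2.trans (not_le.1 h6).le
  · rw [h5, h, hy.2.2]

end Pool.Agent.Lib.SH
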