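import Pool.Agent.Lib.SH.Blue4

/-! Cutting a flat wall near its foot. -/

open Set Filter Topology Metric
open scoped ContDiff

noncomputable section

namespace Pool.Agent.Lib.SH

namespace FLAT

theorem flat_deriv {Ef : ℝ → ℝ} (h : Flat Ef) : Flat (deriv Ef) :=
  ⟨(contDiff_infty_iff_deriv.1 h.1).2, fun n => by rw [← iteratedDeriv_succ']; exact h.2 _⟩

theorem flat_littleO {Ef : ℝ → ℝ} (h : Flat Ef) (n : ℕ) : Ef =o[𝓝 0] fun s => s ^ n := by
  have h1 := taylor_isLittleO_univ (x₀ := 0) (contDiff_infty.1 h.1 n)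
  simpa [taylor_within_apply, iteratedDerivWithin_univ, h.2] using h1

section cut

variable (p : ℝ → Prop) [DecidablePred p]

theorem cut_deriv (hp : ∀ s ≠ 0, ∀ᶠ t in 𝓝 s, (p t ↔ p s)) {Ef : ℝ → ℝ} (h : Flat Ef) (s : ℝ) :
    HasDerivAt (fun s => if p s then Ef s else 0) (if p s then deriv Ef s else 0) s := by
  by_cases hs : s = 0
  · have h0 : Ef 0 = 0 := by simpa using h.2 0
    have h1 : deriv Ef 0 = 0 := by simpa using h.2 1
    rw [hs, h1, ite_self, hasDerivAt_iff_isLittleO]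
    have h2 : (fun s => if p s then Ef s else 0) =O[𝓝 0] Ef :=
      Asymptotics.isBigO_of_le _ fun s => by split_ifs <;> simp
    simpa [h0] using h2.trans_isLittleO (flat_littleO h 1)
  · by_cases h1 : p s
    · rw [if_pos h1]
      refine ((h.1.differentiable (by simp)) s).hasDerivAt.congr_of_eventuallyEq ?_
      filter_upwards [hp s hs] with t ht using if_pos (ht.2 h1)
    · rw [if_neg h1]
      refine (hasDerivAt_const s (0 : ℝ)).congr_of_eventuallyEq ?_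
      filter_upwards [hp s hs] with t ht using if_neg fun a => h1 (ht.1 a)

theorem cut_flat (hp : ∀ s ≠ 0, ∀ᶠ t in 𝓝 s, (p t ↔ p s)) {Ef : ℝ → ℝ} (h : Flat Ef) :
    Flat fun s => if p s then Ef s else 0 := by
  have e : ∀ {Ef : ℝ → ℝ}, Flat Ef → deriv (fun s => if p s then Ef s else 0) =
      fun s => if p s then deriv Ef s else 0 := fun h => funext fun s => (cut_deriv p hp h s).deriv
  refine ⟨contDiff_infty.2 fun n => ?_, fun n => ?_⟩
  · induction n generalizing Ef with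
    | zero =>
      exact contDiff_zero.2 (continuous_iff_continuousAt.2 fun s => (cut_deriv p hp h s).continuousAt)
    | succ n ih =>
      rw [Nat.cast_succ, contDiff_succ_iff_deriv, e h]
      exact ⟨fun s => (cut_deriv p hp h s).differentiableAt, by simp, ih (flat_deriv h)⟩
  · induction n generalizing Ef with
    | zero =>
      have h0 : Ef 0 = 0 := by simpa using h.2 0
      simp [h0]
    | succ n ih => rw [iteratedDeriv_succ', e h]; exact ih (flat_deriv h)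

end cut

/-- the terms which occur in the derivatives -/
def T {F : Type} [NormedAddCommGroup F] [NormedSpace ℝ F] (U : Set ℂ) (y : ℂ → ℝ) (a : ℕ)
    (χ Ef : ℝ → ℝ) (μ : ℂ → F) (t : ℝ) : ℂ → F :=
  U.indicator fun z => (t⁻¹ ^ a * χ (y z / t) * Ef (y z)) • μ z

section main

variable {U : Set ℂ} {y : ℂ → ℝ} {y0 : ℝ}

theorem T_out {F : Type} [NormedAddCommGroup F] [NormedSpace ℝ F]
    (hZ : IsCompact {z | z ∈ U ∧ |y z| ≤ y0}) (a : ℕ) {χ : ℝ → ℝ} (Ef : ℝ → ℝ) (μ : ℂ → F)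
    (hχ : ∀ s, 1 < |s| → χ s = 0) {t : ℝ} (ht : 0 < t) (ht0 : t ≤ y0) {z : ℂ} (hz : z ∉ U) :
    T U y a χ Ef μ t =ᶠ[𝓝 z] fun _ => 0 := by
  filter_upwards [hZ.isClosed.isOpen_compl.mem_nhds fun h => hz h.1] with w hw
  by_cases h : w ∈ U
  · have h1 : y0 < |y w| := not_le.1 fun a => hw ⟨h, a⟩
    have h2 : 1 < |y w / t| := by
      rw [abs_div, abs_of_pos ht, one_lt_div ht]
      linarith
    rw [T, indicator_of_mem h, hχ _ h2]
    simp
  · rw [T, indicator_of_notMem h]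

theorem T_in {F : Type} [NormedAddCommGroup F] [NormedSpace ℝ F] (hU : IsOpen U) (a : ℕ)
    (χ Ef : ℝ → ℝ) (μ : ℂ → F) (t : ℝ) {z : ℂ} (hz : z ∈ U) :
    T U y a χ Ef μ t =ᶠ[𝓝 z] fun z => (t⁻¹ ^ a * χ (y z / t) * Ef (y z)) • μ z := by
  filter_upwards [hU.mem_nhds hz] with w hw using indicator_of_mem hw _

theorem T_smooth {F : Type} [NormedAddCommGroup F] [NormedSpace ℝ F] (hU : IsOpen U)
    (hy : ContDiffOn ℝ ∞ y U) (hZ : IsCompact {z | z ∈ U ∧ |y z| ≤ y0}) (a : ℕ) {χ Ef : ℝ → ℝ}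
    {μ : ℂ → F} (hμ : ContDiffOn ℝ ∞ μ U) (hE : ContDiff ℝ ∞ Ef) (hc : ContDiff ℝ ∞ χ)
    (hχ : ∀ s, 1 < |s| → χ s = 0) {t : ℝ} (ht : 0 < t) (ht0 : t ≤ y0) :
    ContDiff ℝ ∞ (T U y a χ Ef μ t) := by
  refine contDiff_iff_contDiffAt.2 fun z => ?_
  by_cases hz : z ∈ U
  · have h1 := hy.contDiffAt (hU.mem_nhds hz)
    exact (((contDiffAt_const.mul (hc.contDiffAt.comp z (h1.div_const t))).mul
      (hE.contDiffAt.comp z h1)).smul (hμ.contDiffAt (hU.mem_nhds hz))).congr_of_eventuallyEq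
      (T_in hU a χ Ef μ t hz)
  · exact contDiffAt_const.congr_of_eventuallyEq (T_out hZ a Ef μ hχ ht ht0 hz)

theorem T_fderiv {F : Type} [NormedAddCommGroup F] [NormedSpace ℝ F] (hU : IsOpen U)
    (hy : ContDiffOn ℝ ∞ y U) (hZ : IsCompact {z | z ∈ U ∧ |y z| ≤ y0}) (a : ℕ) {χ Ef : ℝ → ℝ}
    {μ : ℂ → F} (hμ : ContDiffOn ℝ ∞ μ U) (hE : ContDiff ℝ ∞ Ef) (hc : ContDiff ℝ ∞ χ)
    (hχ : ∀ s, 1 < |s| → χ s = 0) {t : ℝ} (ht : 0 < t) (ht0 : t ≤ y0) :
    fderiv ℝ (T U y a χ Ef μ t) =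
      T U y (a + 1) (deriv χ) Ef (fun z => (fderiv ℝ y z).smulRight (μ z)) t +
        T U y a χ (deriv Ef) (fun z => (fderiv ℝ y z).smulRight (μ z)) t +
        T U y a χ Ef (fderiv ℝ μ) t := by
  funext z
  by_cases hz : z ∈ U
  · have h1 := ((hy.contDiffAt (hU.mem_nhds hz)).differentiableAt (by simp)).hasFDerivAt
    have h2 := ((hμ.contDiffAt (hU.mem_nhds hz)).differentiableAt (by simp)).hasFDerivAt
    have h3 : HasDerivAt (fun s => χ (s / t)) (deriv χ (y z / t) * (1 / t)) (y z) :=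
      HasDerivAt.comp (h₂ := χ) (h := fun s => s / t) (y z)
        (hc.differentiable (by simp) _).hasDerivAt ((hasDerivAt_id (y z)).div_const t)
    have h4 := (h3.const_mul (t⁻¹ ^ a)).fun_mul (hE.differentiable (by simp) (y z)).hasDerivAt
    have h5 := (h4.comp_hasFDerivAt z h1).fun_smul h2
    rw [(h5.congr_of_eventuallyEq (T_in hU a χ Ef μ t hz)).fderiv]
    simp only [Pi.add_apply, T, indicator_of_mem hz]
    ext v
    simp only [add_apply, smul_apply,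
      ContinuousLinearMap.smulRight_apply, Function.comp_apply, smul_eq_mul]
    module
  · rw [(T_out hZ a Ef μ hχ ht ht0 hz).fderiv_eq]
    simp [T, indicator_of_notMem hz]

theorem T_small (hU : IsOpen U) (h0 : 0 < y0) (hy : ContDiffOn ℝ ∞ y U)
    (hZ : IsCompact {z | z ∈ U ∧ |y z| ≤ y0}) (k : ℕ) :
    ∀ (F : Type) [NormedAddCommGroup F] [NormedSpace ℝ F] (a : ℕ) (χ Ef : ℝ → ℝ) (μ : ℂ → F),
      ContDiffOn ℝ ∞ μ U → Flat Ef → ContDiff ℝ ∞ χ → (∀ s, 1 < |s| → χ s = 0) → ∀ ε > 0,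
      ∀ᶠ t in 𝓝[>] (0 : ℝ), ∀ z, ‖iteratedFDeriv ℝ k (T U y a χ Ef μ t) z‖ ≤ ε := by
  have ev : ∀ δ > 0, ∀ᶠ t in 𝓝[>] (0 : ℝ), 0 < t ∧ t < δ := fun δ hδ => Ioo_mem_nhdsGT hδ
  induction k with
  | zero =>
    intro F _ _ a χ Ef μ hμ hE hc hχ ε hε
    obtain ⟨C1, hC1⟩ := (isCompact_Icc (a := (-1 : ℝ)) (b := 1)).exists_bound_of_continuousOn
      hc.continuous.continuousOn
    obtain ⟨C2, hC2⟩ := hZ.exists_bound_of_continuousOn (hμ.continuousOn.mono fun z hz => hz.1)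
    have hC : 0 < |C1| * |C2| + 1 := by positivity
    obtain ⟨δ, hδ, h1⟩ := Metric.eventually_nhds_iff.1
      ((flat_littleO hE a).def (div_pos hε hC))
    filter_upwards [ev δ hδ, ev y0 h0] with t ht ht0 z
    rw [norm_iteratedFDeriv_zero, T]
    by_cases hz : z ∈ U
    swap
    · rw [indicator_of_notMem hz, norm_zero]; exact hε.le
    rw [indicator_of_mem hz]
    by_cases h2 : 1 < |y z / t|
    · rw [hχ _ h2]; simpa using hε.le
    have h3 := not_lt.1 h2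
    have h4 : |y z| ≤ t := by rwa [abs_div, abs_of_pos ht.1, div_le_one ht.1] at h3
    have h5 := (hC1 _ (abs_le.1 h3)).trans (le_abs_self _)
    have h6 := (hC2 z ⟨hz, h4.trans ht0.2.le⟩).trans (le_abs_self _)
    have h7 := h1 (y := y z) (by rw [Real.dist_eq, sub_zero]; exact h4.trans_lt ht.2)
    have h8 : ‖y z ^ a‖ ≤ t ^ a := by
      rw [norm_pow]; exact pow_le_pow_left₀ (norm_nonneg _) h4 a
    have h9 : ‖Ef (y z)‖ ≤ ε / (|C1| * |C2| + 1) * t ^ a := h7.trans (by gcongr)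
    have h10 : t⁻¹ ^ a * t ^ a = 1 := by rw [← mul_pow, inv_mul_cancel₀ ht.1.ne', one_pow]
    have h11 : 0 < t⁻¹ ^ a := pow_pos (inv_pos.2 ht.1) a
    have h12 := ht.1
    rw [norm_smul, norm_mul, norm_mul, Real.norm_of_nonneg h11.le]
    calc t⁻¹ ^ a * ‖χ (y z / t)‖ * ‖Ef (y z)‖ * ‖μ z‖
        ≤ t⁻¹ ^ a * |C1| * (ε / (|C1| * |C2| + 1) * t ^ a) * |C2| := by gcongr
      _ = (t⁻¹ ^ a * t ^ a) * (ε / (|C1| * |C2| + 1) * (|C1| * |C2|)) := by ring
      _ ≤ 1 * (ε / (|C1| * |C2| + 1) * (|C1| * |C2| + 1)) := by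
          rw [h10]; gcongr; linarith
      _ = ε := by field_simp
  | succ k ih =>
    intro F _ _ a χ Ef μ hμ hE hc hχ ε hε
    have hμ1 : ContDiffOn ℝ ∞ (fun z => (fderiv ℝ y z).smulRight (μ z)) U :=
      (hy.fderiv_of_isOpen hU (by simp)).smulRight hμ
    have hμ2 : ContDiffOn ℝ ∞ (fderiv ℝ μ) U := hμ.fderiv_of_isOpen hU (by simp)
    have hc1 : ContDiff ℝ ∞ (deriv χ) := (contDiff_infty_iff_deriv.1 hc).2
    have hχ1 : ∀ s, 1 < |s| → deriv χ s = 0 := by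
      intro s hs
      have : χ =ᶠ[𝓝 s] fun _ => 0 :=
        (continuous_abs.continuousAt.eventually (lt_mem_nhds hs)).mono fun r hr => hχ r hr
      rw [this.deriv_eq, deriv_const]
    have hε3 : ε / 3 > 0 := by positivity
    filter_upwards [ev y0 h0, ih _ (a + 1) _ Ef _ hμ1 hE hc1 hχ1 _ hε3,
      ih _ a χ _ _ hμ1 (flat_deriv hE) hc hχ _ hε3, ih _ a χ Ef _ hμ2 hE hc hχ _ hε3]
      with t ht i1 i2 i3 z
    have s1 := (T_smooth hU hy hZ (a + 1) hμ1 hE.1 hc1 hχ1 ht.1 ht.2.le).of_le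
      (m := k) (by exact_mod_cast le_top)
    have s2 := (T_smooth hU hy hZ a hμ1 (flat_deriv hE).1 hc hχ ht.1 ht.2.le).of_le
      (m := k) (by exact_mod_cast le_top)
    have s3 := (T_smooth hU hy hZ a hμ2 hE.1 hc hχ ht.1 ht.2.le).of_le
      (m := k) (by exact_mod_cast le_top)
    rw [← norm_iteratedFDeriv_fderiv, T_fderiv hU hy hZ a hμ hE.1 hc hχ ht.1 ht.2.le,
      iteratedFDeriv_add_apply (f := _ + _) (s1.add s2).contDiffAt s3.contDiffAt,
      iteratedFDeriv_add_apply s1.contDiffAt s2.contDiffAt]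
    refine norm_add₃_le.trans ?_
    linarith [i1 z, i2 z, i3 z]

end main

end FLAT

theorem st_flat : St_FLAT := by
  refine ⟨fun U y μ Ef χ y0 hU h0 hy hμ hZ hE hc hχ k ε hε => ?_, fun Ef h => ⟨?_, ?_⟩⟩
  · have hχ' : ∀ s, 1 < |s| → χ s = 0 := fun s hs => hχ s hs.le
    have e : ∀ t : ℝ, (U.indicator fun z => ((χ (y z / t) * Ef (y z) : ℝ) : ℂ) * μ z) =
        FLAT.T U y 0 χ Ef μ t := by
      intro t
      simp only [FLAT.T, pow_zero, one_mul, Complex.real_smul]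
    filter_upwards [Ioo_mem_nhdsGT h0, (Finset.range (k + 1)).eventually_all.2
      fun j _ => FLAT.T_small hU h0 hy hZ j ℂ 0 χ Ef μ hμ hE hc hχ' ε hε] with t ht h1
    rw [e]
    exact ⟨FLAT.T_smooth hU hy hZ 0 hμ hE.1 hc hχ' ht.1 ht.2.le,
      fun j hj => h1 j (Finset.mem_range.2 (Nat.lt_succ_of_le hj))⟩
  · refine FLAT.cut_flat (fun s => 0 ≤ s) (fun s hs => ?_) h
    rcases lt_or_gt_of_ne hs with h1 | h1
    · filter_upwards [gt_mem_nhds h1] with t ht using iff_of_false (not_le.2 ht) (not_le.2 h1)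
    · filter_upwards [lt_mem_nhds h1] with t ht using iff_of_true ht.le h1.le
  · refine FLAT.cut_flat (fun s => s ≤ 0) (fun s hs => ?_) h
    rcases lt_or_gt_of_ne hs with h1 | h1
    · filter_upwards [gt_mem_nhds h1] with t ht using iff_of_true ht.le h1.le
    · filter_upwards [lt_mem_nhds h1] with t ht using iff_of_false (not_le.2 ht) (not_le.2 h1)

end Pool.Agent.Lib.SH
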