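import Pool.Agent.Lib.SH.Blue2

open Set Filter Topology Metric

noncomputable section

namespace Pool.Agent.Lib.SH

namespace HTUBE

theorem hull_mono {K Y : Set E} (h : K ⊆ Y) : hull K ⊆ hull Y :=
  fun _ hx p hp c hc => hx p hp c fun y hy => hc y (h hy)

theorem isClosed_hull (K : Set E) : IsClosed (hull K) := by
  have : hull K = ⋂ (p : E → ℂ) (_ : IsPoly p) (c : ℝ) (_ : ∀ y ∈ K, ‖p y‖ ≤ c),
      {x | ‖p x‖ ≤ c} := by
    ext x; simp [hull]
  rw [this]
  refine isClosed_iInter fun p => isClosed_iInter fun ⟨q, hq⟩ => isClosed_iInter fun c =>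
    isClosed_iInter fun _ => isClosed_le ?_ continuous_const
  rw [show p = fun x : E => MvPolynomial.eval ![x.1, x.2] q from funext hq]
  exact ((MvPolynomial.continuous_eval q).comp (by fun_prop)).norm

theorem isCompact_grs {I : Type} [Fintype I] {f : I → ℂ → ℂ} {Dm : I → Set ℂ}
    (hf : ∀ i, Continuous (f i)) (hD : ∀ i, IsCompact (Dm i)) : IsCompact (grs f Dm) := by
  have : grs f Dm = ⋃ i, (fun z => ((z, f i z) : E)) '' Dm i := by
    ext y
    simp only [grs, mem_ofPred_eq, mem_iUnion, mem_image]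
    exact exists_congr fun i => ⟨fun h => ⟨y.1, h.1, Prod.ext rfl h.2.symm⟩,
      fun ⟨z, a, b⟩ => b ▸ ⟨a, rfl⟩⟩
  rw [this]
  exact isCompact_iUnion fun i => (hD i).image (continuous_id.prodMk (hf i))

def Adm {I : Type} (f : I → ℂ → ℂ) (Dm Dx : I → Set ℂ) (Zs : Set E) (ρz η : ℝ) (f' : I → ℂ → ℂ)
    (Dm' : I → Set ℂ) : Prop :=
  (∀ i, IsCompact (Dm' i)) ∧ (∀ i, Dm' i ⊆ Dx i) ∧ (∀ i, ContDiff ℝ 1 (f' i)) ∧
    (∀ i z, ‖f' i z - f i z‖ ≤ η ∧ ‖fderiv ℝ (f' i) z - fderiv ℝ (f i) z‖ ≤ η) ∧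
    ∀ s ∈ Zs, grs f' Dm' ∩ ball s ρz ⊆ grs f Dm

theorem Adm.mono {I : Type} {f : I → ℂ → ℂ} {Dm Dx : I → Set ℂ} {Zs : Set E} {ρz η η' : ℝ}
    {f' : I → ℂ → ℂ} {Dm' : I → Set ℂ} (h : Adm f Dm Dx Zs ρz η f' Dm') (k : η ≤ η') :
    Adm f Dm Dx Zs ρz η' f' Dm' :=
  ⟨h.1, h.2.1, h.2.2.1, fun i z => ⟨(h.2.2.2.1 i z).1.trans k, (h.2.2.2.1 i z).2.trans k⟩,
    h.2.2.2.2⟩

end HTUBE

open HTUBE

theorem st_htube (hU : St_USC) (hR : St_ROSSI) (hL : St_LBT) : St_HTUBE := by
  intro I _ f Dm Dx A Zs ρz R0 hf hDm hDx hsub hsep hA hPC hreg hLB hρz hR0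
  have hfc : ∀ i, Continuous (f i) := fun i => (hf i).continuous
  have hS := isCompact_grs hfc hDm
  have key : ∃ U, IsOpen U ∧ grs f Dm \ thickening R0 A ⊆ U ∧ ∃ N, IsOpen N ∧ grs f Dm ∪ A ⊆ N ∧
      ∃ η > 0, ∀ f' Dm', Adm f Dm Dx Zs ρz η f' Dm' → hull (grs f' Dm') ⊆ N →
        hull (grs f' Dm') ∩ U ⊆ grs f' Dm' := by
    refine (hS.diff isOpen_thickening).induction_on (p := fun B => ∃ U, IsOpen U ∧ B ⊆ U ∧
      ∃ N, IsOpen N ∧ grs f Dm ∪ A ⊆ N ∧ ∃ η > 0, ∀ f' Dm', Adm f Dm Dx Zs ρz η f' Dm' →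
        hull (grs f' Dm') ⊆ N → hull (grs f' Dm') ∩ U ⊆ grs f' Dm') ?_ ?_ ?_ ?_
    · exact ⟨∅, isOpen_empty, subset_rfl, univ, isOpen_univ, subset_univ _, 1, one_pos,
        fun _ _ _ _ _ h => h.2.elim⟩
    · rintro B B' h ⟨U, a, b, c⟩
      exact ⟨U, a, h.trans b, c⟩
    · rintro B B' ⟨U, a, b, N, c, d, η, e, g⟩ ⟨U', a', b', N', c', d', η', e', g'⟩
      refine ⟨U ∪ U', a.union a', union_subset_union b b', N ∩ N', c.inter c', subset_inter d d',
        min η η', lt_min e e', fun f' Dm' h k y hy => ?_⟩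
      rcases hy.2 with u | u
      · exact g f' Dm' (h.mono (min_le_left _ _)) (k.trans inter_subset_left) ⟨hy.1, u⟩
      · exact g' f' Dm' (h.mono (min_le_right _ _)) (k.trans inter_subset_right) ⟨hy.1, u⟩
    rintro ⟨z1, w1⟩ ⟨⟨i, hi, rfl : w1 = f i z1⟩, hsA⟩
    have hsA' : (z1, f i z1) ∉ A := fun a => hsA (self_subset_thickening hR0 A a)
    have hAe : ∀ᶠ y in 𝓝 ((z1, f i z1) : E), y ∉ A := hA.isClosed.isOpen_compl.mem_nhds hsA'
    suffices h : ∃ U, IsOpen U ∧ (z1, f i z1) ∈ U ∧ ∃ N, IsOpen N ∧ grs f Dm ∪ A ⊆ N ∧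
        ∃ η > 0, ∀ f' Dm', Adm f Dm Dx Zs ρz η f' Dm' → hull (grs f' Dm') ⊆ N →
          hull (grs f' Dm') ∩ U ⊆ grs f' Dm' by
      obtain ⟨U, a, b, c⟩ := h
      exact ⟨U, mem_nhdsWithin_of_mem_nhds (a.mem_nhds b), U, a, subset_rfl, c⟩
    rcases hreg i z1 hi hsA' with hb | hZ
    · have h1 : ∀ᶠ p in 𝓝 (((z1, f i z1), 0) : E × ℝ), ∀ j, j ≠ i → p.1.1 ∈ Dx j →
          p.2 < ‖p.1.2 - f j p.1.1‖ := by
        refine eventually_all.2 fun j => ?_
        by_cases hj : j = i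
        · exact Eventually.of_forall fun _ a => (a hj).elim
        by_cases hz : z1 ∈ Dx j
        · have := hfc j
          refine (ContinuousAt.eventually_lt (f := fun p : E × ℝ => p.2)
            (g := fun p : E × ℝ => ‖p.1.2 - f j p.1.1‖) (by fun_prop) (by fun_prop) ?_).mono
            fun _ a _ _ => a
          exact norm_pos_iff.2 (sub_ne_zero.2 (hsep i j (Ne.symm hj) z1 (hsub i hi) hz))
        · have : ∀ᶠ p in 𝓝 (((z1, f i z1), 0) : E × ℝ), p.1.1 ∉ Dx j :=
            ((hDx j).isClosed.isOpen_compl.preimage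
              (show Continuous fun p : E × ℝ => p.1.1 by fun_prop)).mem_nhds hz
          exact this.mono fun _ a _ b => (a b).elim
      obtain ⟨ε, hε, h2⟩ := Metric.eventually_nhds_iff.1
        (h1.and ((continuous_fst.tendsto _).eventually hAe))
      have h3 : ∀ y : E, dist y (z1, f i z1) < ε →
          (∀ j, j ≠ i → y.1 ∈ Dx j → ε / 2 < ‖y.2 - f j y.1‖) ∧ y ∉ A := fun y hy =>
        h2 (y := (y, ε / 2)) (by
          rw [Prod.dist_eq, Real.dist_eq, sub_zero, abs_of_pos (half_pos hε)]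
          exact max_lt hy (half_lt_self hε))
      obtain ⟨δ, hδ, h4⟩ := Metric.continuousAt_iff.1 (hfc i).continuousAt (ε / 2) (half_pos hε)
      obtain ⟨r, hr, hr1, κ, hκ, h5⟩ := hL (f i) z1 (min (δ / 4) (ε / 4)) (hf i).contDiffAt hb
        (by positivity)
      have r1 := hr1.trans (min_le_left _ _)
      have r2 := hr1.trans (min_le_right _ _)
      have h6 : ∀ y : E, ‖y.1 - z1‖ ≤ 2 * r → ‖y.2 - f i y.1‖ ≤ r → dist y (z1, f i z1) < ε := by
        intro y a b
        have c := h4 (x := y.1) (by rw [dist_eq_norm]; linarith)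
        rw [Prod.dist_eq, dist_eq_norm, dist_eq_norm]
        rw [dist_eq_norm] at c
        have d := norm_add_le (y.2 - f i y.1) (f i y.1 - f i z1)
        rw [sub_add_sub_cancel] at d
        exact max_lt (by linarith) (by linarith)
      have c1 : Continuous fun y : E => ‖y.1 - z1‖ := by fun_prop
      have c2 : Continuous fun y : E => ‖y.2 - f i y.1‖ := by have := hfc i; fun_prop
      refine ⟨{y | ‖y.1 - z1‖ < r} ∩ {y | ‖y.2 - f i y.1‖ < r},
        (isOpen_lt c1 continuous_const).inter (isOpen_lt c2 continuous_const),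
        ⟨by simpa using hr, by simpa using hr⟩,
        {y | 2 * r < ‖y.1 - z1‖} ∪ {y | r < ‖y.2 - f i y.1‖} ∪ {y | ‖y.2 - f i y.1‖ < κ},
        ((isOpen_lt continuous_const c1).union (isOpen_lt continuous_const c2)).union
          (isOpen_lt c2 continuous_const), fun y hy => ?_, min κ (ε / 2), by positivity,
        fun f' Dm' ⟨a1, a2, a3, a4, _⟩ hN y hy => ?_⟩
      · by_contra k
        simp only [mem_union, mem_ofPred_eq, not_or, not_lt] at k
        obtain ⟨b1, b2⟩ := h3 y (h6 y k.1.1 k.1.2)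
        obtain ⟨j, b3, b4⟩ := hy.resolve_right b2
        by_cases hj : j = i
        · rw [b4, hj, sub_self, norm_zero] at k; linarith [k.2]
        · have := b1 j hj (hsub j b3)
          rw [b4, sub_self, norm_zero] at this; linarith
      · refine h5 _ _ (f' i) (isClosed_hull _) (fun x hx b1 b2 => ⟨hR _ (isCompact_grs
          (fun j => (a3 j).continuous) a1) x hx, ?_, ?_⟩) (fun z _ =>
          ⟨((a3 i).differentiable one_ne_zero) z, (a4 i z).1.trans (min_le_left _ _),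
            (a4 i z).2.trans (min_le_left _ _)⟩) y hy.1 (le_of_lt hy.2.1) (le_of_lt hy.2.2)
        · rintro ⟨j, b3, b4⟩
          by_cases hj : j = i
          · rw [b4, hj]
          · have := (h3 x (h6 x b1 b2)).1 j hj (a2 j b3)
            rw [b4] at this
            linarith [(a4 j x.1).1.trans (min_le_right _ _)]
        · rcases hN hx with (k | k) | k
          · exact absurd b1 (not_le.2 k)
          · exact absurd b2 (not_le.2 k)
          · exact le_of_lt k
    · obtain ⟨ε, hε, h1⟩ := nhds_basis_closedBall.eventually_iff.1 hAe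
      obtain ⟨η, hη, h2⟩ := hLB _ hZ (min ε ρz) (lt_min hε hρz)
      refine ⟨ball (z1, f i z1) η, isOpen_ball, mem_ball_self hη,
        (closedBall (z1, f i z1) ε)ᶜ ∪ thickening η (grs f Dm),
        isClosed_closedBall.isOpen_compl.union isOpen_thickening, ?_, 1, one_pos,
        fun f' Dm' ⟨a1, _, a3, _, a5⟩ hN => h2 _ _ (isClosed_hull _) (fun x hx _ => hR _
          (isCompact_grs (fun j => (a3 j).continuous) a1) x hx) (fun x hx => a5 _ hZ
          ⟨hx.1, ball_subset_ball (min_le_right _ _) hx.2⟩) fun x hx => ?_⟩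
      · rintro y (k | k)
        · exact Or.inr (self_subset_thickening hη _ k)
        · exact Or.inl fun a => h1 a k
      · exact thickening_subset_cthickening _ _ ((hN hx.1).resolve_left fun a =>
          a (ball_subset_closedBall (ball_subset_ball (min_le_left _ _) hx.2)))
  obtain ⟨U, a, b, N, c, d, η, e, g⟩ := key
  obtain ⟨η1, e1, g1⟩ := hU _ (N ∩ (U ∪ thickening R0 A)) (hS.union hA) hPC
    (c.inter (a.union isOpen_thickening)) (subset_inter d fun y hy => by
      by_cases k : y ∈ thickening R0 A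
      · exact Or.inr k
      · exact Or.inl (b ⟨hy.resolve_right fun u => k (self_subset_thickening hR0 A u), k⟩))
  refine ⟨min η η1, lt_min e e1, fun f' Dm' a1 a2 a3 a4 a5 a6 y hy => ?_⟩
  have h1 := (hull_mono (a5.trans (cthickening_mono (min_le_right _ _) _))).trans g1
  refine thickening_subset_cthickening _ _ ((h1 hy.1).2.resolve_left fun u => hy.2 ?_)
  exact g f' Dm' (Adm.mono ⟨a1, a2, a3, a4, a6⟩ (min_le_left _ _)) (h1.trans inter_subset_left)
    ⟨hy.1, u⟩

end Pool.Agent.Lib.SH
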