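import Pool.Agent.Lib.SH.Blue2
import Pool.Agent.Lib.SH.B_BRIDGE

open Set Filter Topology Metric

noncomputable section

namespace Pool.Agent.Lib.SH

namespace LBZ

/-- the quadratic barrier -/
def psi (l1 l2 : ℝ) (p q z w : ℂ) : ℝ :=
  (l1 * (z.im - p.im)) ^ 2 + (l2 * (w.im - q.im)) ^ 2 - (l1 * (z.re - p.re)) ^ 2 -
    (l2 * (w.re - q.re)) ^ 2

theorem psi_eq (l1 l2 : ℝ) (p q z w : ℂ) :
    psi l1 l2 p q z w = (-((l1 * (z - p)) ^ 2 + (l2 * (w - q)) ^ 2)).re := by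
  simp [psi, sq]; ring

theorem cont_psi (l1 l2 : ℝ) :
    Continuous fun v : ℂ × ℂ × ℂ × ℂ => psi l1 l2 v.1 v.2.1 v.2.2.1 v.2.2.2 := by
  unfold psi; fun_prop

theorem wall_real {u u0 r1 r2 v : ℝ} (h1 : 4 * |u| ≤ |r2| + (|r1| + |u| + |u0|))
    (h2 : 2 * |v| ≤ |r2|) :
    u ^ 2 + v ^ 2 - r1 ^ 2 - r2 ^ 2 ≤ u0 ^ 2 / 3 - 5 / 12 * (r1 ^ 2 + r2 ^ 2) := by
  rw [← sq_abs u, ← sq_abs v, ← sq_abs r1, ← sq_abs r2, ← sq_abs u0]
  have a1 := abs_nonneg u
  have a2 := abs_nonneg v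
  have a3 := abs_nonneg r1
  have a4 := abs_nonneg r2
  have a5 := abs_nonneg u0
  generalize |u| = a at *
  generalize |v| = b at *
  generalize |r1| = c at *
  generalize |r2| = d at *
  generalize |u0| = e at *
  have b1 : (3 * a) ^ 2 ≤ (c + d + e) ^ 2 := pow_le_pow_left₀ (by linarith) (by linarith) 2
  have b2 : (2 * b) ^ 2 ≤ d ^ 2 := pow_le_pow_left₀ (by linarith) h2 2
  nlinarith [sq_nonneg (c - d), sq_nonneg (c - e), sq_nonneg (d - e), sq_nonneg c]

/-- the barrier on wall points -/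
theorem wall {l1 l2 k dh dd : ℝ} {p q z w z0 : ℂ} (hl1 : 0 ≤ l1) (hl2 : 0 ≤ l2)
    (hk : 4 * (l1 * k) ≤ l2) (hp : p.re = z0.re) (h0 : z.im - p.im = dh + dd)
    (h1 : |dh| ≤ k * |w.re - q.re|) (h2 : |dd| ≤ ‖z - z0‖ / 4)
    (h3 : |w.im - q.im| ≤ |w.re - q.re| / 2) :
    psi l1 l2 p q z w ≤ (l1 * (z0.im - p.im)) ^ 2 / 3 -
      5 / 12 * ((l1 * (z.re - p.re)) ^ 2 + (l2 * (w.re - q.re)) ^ 2) := by
  refine wall_real ?_ ?_
  · simp only [abs_mul, abs_of_nonneg hl1, abs_of_nonneg hl2]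
    have a1 := Complex.norm_le_abs_re_add_abs_im (z - z0)
    rw [Complex.sub_re, Complex.sub_im, ← hp] at a1
    have a2 : |z.im - z0.im| ≤ |z.im - p.im| + |z0.im - p.im| := by
      have := abs_sub (z.im - p.im) (z0.im - p.im)
      rwa [sub_sub_sub_cancel_right] at this
    have a3 : |z.im - p.im| ≤ |dh| + |dd| := by rw [h0]; exact abs_add_le _ _
    have a4 : 4 * |z.im - p.im| ≤ 4 * (k * |w.re - q.re|) +
        (|z.re - p.re| + |z.im - p.im| + |z0.im - p.im|) := by linarith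
    have a5 := mul_le_mul_of_nonneg_left a4 hl1
    have a6 := mul_le_mul_of_nonneg_right hk (abs_nonneg (w.re - q.re))
    nlinarith
  · simp only [abs_mul, abs_of_nonneg hl2]
    nlinarith

theorem an_psi {Z Lg : E → ℂ} {y : E} (hZ : AnalyticAt ℂ Z y) (hL : AnalyticAt ℂ Lg y)
    (l1 l2 : ℝ) (p q : ℂ) :
    AnalyticAt ℂ (fun x => -((l1 * (Z x - p)) ^ 2 + (l2 * (Lg x - q)) ^ 2)) y :=
  (((analyticAt_const.mul (hZ.sub analyticAt_const)).pow 2).add
    ((analyticAt_const.mul (hL.sub analyticAt_const)).pow 2)).neg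

theorem neg_of {l1 l2 : ℝ} {p q z w : ℂ} (hl1 : 0 < l1) (hl2 : 0 < l2)
    (h : psi l1 l2 p q z w ≤ -(5 / 12 * ((l1 * (z.re - p.re)) ^ 2 + (l2 * (w.re - q.re)) ^ 2)))
    (hne : z ≠ p ∨ w ≠ q) : psi l1 l2 p q z w < 0 := by
  by_contra hc
  rw [not_lt] at hc
  have a1 := sq_nonneg (l1 * (z.re - p.re))
  have a2 := sq_nonneg (l2 * (w.re - q.re))
  have a3 := sq_nonneg (l1 * (z.im - p.im))
  have a4 := sq_nonneg (l2 * (w.im - q.im))
  have b1 : (l1 * (z.re - p.re)) ^ 2 = 0 := by linarith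
  have b2 : (l2 * (w.re - q.re)) ^ 2 = 0 := by linarith
  unfold psi at h
  have b3 : (l1 * (z.im - p.im)) ^ 2 = 0 := by linarith
  have b4 : (l2 * (w.im - q.im)) ^ 2 = 0 := by linarith
  have c1 := sub_eq_zero.1 ((mul_eq_zero.1 (pow_eq_zero_iff two_ne_zero |>.1 b1)).resolve_left hl1.ne')
  have c2 := sub_eq_zero.1 ((mul_eq_zero.1 (pow_eq_zero_iff two_ne_zero |>.1 b2)).resolve_left hl2.ne')
  have c3 := sub_eq_zero.1 ((mul_eq_zero.1 (pow_eq_zero_iff two_ne_zero |>.1 b3)).resolve_left hl1.ne')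
  have c4 := sub_eq_zero.1 ((mul_eq_zero.1 (pow_eq_zero_iff two_ne_zero |>.1 b4)).resolve_left hl2.ne')
  rcases hne with h' | h'
  · exact h' (Complex.ext c1 c3)
  · exact h' (Complex.ext c2 c4)

theorem two_sided {a th : ℝ → ℝ} {J : Set ℝ} {c : ℝ} (hc : 0 < c)
    (h : ∀ u ∈ J, ∀ t ∈ J, u ≤ t → c * (t - u) ≤ a t - a u ∧ |th t - th u| ≤ (a t - a u) / 2)
    {u t : ℝ} (hu : u ∈ J) (ht : t ∈ J) :
    |t - u| ≤ c⁻¹ * |a t - a u| ∧ |th t - th u| ≤ |a t - a u| / 2 := by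
  have key : ∀ u ∈ J, ∀ t ∈ J, u ≤ t →
      |t - u| ≤ c⁻¹ * |a t - a u| ∧ |th t - th u| ≤ |a t - a u| / 2 := by
    intro u hu t ht hut
    obtain ⟨h1, h2⟩ := h u hu t ht hut
    have h3 := le_abs_self (a t - a u)
    refine ⟨?_, by linarith⟩
    rw [abs_of_nonneg (sub_nonneg.2 hut), ← div_eq_inv_mul, le_div_iff₀ hc]
    linarith
  rcases le_total u t with h' | h'
  · exact key u hu t ht h'
  · rw [abs_sub_comm t, abs_sub_comm (a t), abs_sub_comm (th t)]
    exact key t ht u hu h'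

end LBZ

open LBZ in
theorem st_lbz2 : St_LBZ2 := by
  intro S s Z Lg D a th c ε hs hZ hL hc hε ha hmon hS hD hfin r hr
  set H0 := (Z s).im - D s with hH0
  set J := Icc (H0 - ε) (H0 + ε) with hJ
  have hsε : s ∈ ball s ε := mem_ball_self hε
  have hZc : Tendsto (fun x => ‖Z x - Z s‖) (𝓝 s) (𝓝 0) :=
    tendsto_iff_norm_sub_tendsto_zero.1 hZ.continuousAt
  have hLc : Tendsto (fun x => ‖Lg x - Lg s‖) (𝓝 s) (𝓝 0) :=
    tendsto_iff_norm_sub_tendsto_zero.1 hL.continuousAt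
  have hev : ∀ᶠ x in 𝓝 s, AnalyticAt ℂ Z x ∧ AnalyticAt ℂ Lg x ∧
      (x ∈ S ↔ Lg x = a ((Z x).im - D x) + Complex.I * th ((Z x).im - D x)) ∧
      (x ≠ s → Z x ≠ Z s ∨ Lg x ≠ Lg s) ∧ (Z x).im - D x ∈ J ∧ x ∈ ball s ε := by
    filter_upwards [hZ.eventually_analyticAt, hL.eventually_analyticAt, hS,
      eventually_nhdsWithin_iff.1 (hfin s hsε), hZc.eventually (gt_mem_nhds (half_pos hε)),
      ball_mem_nhds s hε] with x h1 h2 h3 h4 h5 h6
    refine ⟨h1, h2, h3, h4, ?_, h6⟩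
    have b1 := abs_le.1 (hD x h6 s hsε)
    have b2 := abs_le.1 (Complex.abs_im_le_norm (Z x - Z s))
    rw [Complex.sub_im] at b2
    constructor <;> linarith [b1.1, b1.2, b2.1, b2.2]
  obtain ⟨ρ, hρ, hball⟩ := Metric.eventually_nhds_iff_ball.1 hev
  set r1 := min r ρ / 4 with hr1
  have m1 := min_le_left r ρ
  have m2 := min_le_right r ρ
  have hr10 : 0 < r1 := by positivity
  have hsub : ∀ x, dist x s ≤ 2 * r1 → x ∈ ball s ρ := fun x hx => mem_ball.2 (by linarith)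
  have hl1 : 0 < c / 4 := by positivity
  have hk : 4 * (c / 4 * c⁻¹) ≤ 1 := by field_simp; exact le_rfl
  -- the wall estimate
  have hw : ∀ x ∈ ball s ρ, x ∈ S → ∀ y ∈ ball s ρ, ∀ t ∈ J, a t = (Lg y).re →
      psi (c / 4) 1 ⟨(Z y).re, t + D y⟩ ⟨a t, th t⟩ (Z x) (Lg x) ≤
        (c / 4 * ((Z y).im - (t + D y))) ^ 2 / 3 -
        5 / 12 * ((c / 4 * ((Z x).re - (Z y).re)) ^ 2 + (1 * ((Lg x).re - a t)) ^ 2) := by
    intro x hx hxS y hy t ht _
    obtain ⟨-, -, h3, -, h5, h6⟩ := hball x hx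
    have e1 := h3.1 hxS
    have e2 : (Lg x).re = a ((Z x).im - D x) := by rw [e1]; simp
    have e3 : (Lg x).im = th ((Z x).im - D x) := by rw [e1]; simp
    obtain ⟨k1, k2⟩ := two_sided hc hmon ht h5
    exact wall (k := c⁻¹) (dh := (Z x).im - D x - t) (dd := D x - D y) (z0 := Z y) hl1.le
      zero_le_one hk rfl (by simp only; ring) (by simp only; rw [e2]; exact k1)
      (hD x h6 y (hball y hy).2.2.2.2.2) (by simp only; rw [e2, e3]; exact k2)
  have hsρ : s ∈ ball s ρ := mem_ball_self hρ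
  have hsS := (hball s hsρ).2.2.1.1 hs
  have hs1 : (Lg s).re = a H0 := by rw [hsS]; simp [hH0]
  have hs2 : (Lg s).im = th H0 := by rw [hsS]; simp [hH0]
  have hH0J : H0 ∈ J := ⟨by linarith, by linarith⟩
  have hps : (⟨(Z s).re, H0 + D s⟩ : ℂ) = Z s := Complex.ext rfl (by simp [hH0])
  have hqs : (⟨a H0, th H0⟩ : ℂ) = Lg s := Complex.ext hs1.symm hs2.symm
  -- the compact annulus part
  set A : Set E := {x | x ∈ closedBall s (2 * r1) ∩ (ball s (r1 / 2))ᶜ ∧
    psi (c / 4) 1 (Z s) (Lg s) (Z x) (Lg x) ≤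
      -(5 / 12 * ((c / 4 * ((Z x).re - (Z s).re)) ^ 2 + (1 * ((Lg x).re - (Lg s).re)) ^ 2))} with hA
  have hcZ : ContinuousOn Z (closedBall s (2 * r1)) := fun x hx =>
    (hball x (hsub x hx)).1.continuousAt.continuousWithinAt
  have hcL : ContinuousOn Lg (closedBall s (2 * r1)) := fun x hx =>
    (hball x (hsub x hx)).2.1.continuousAt.continuousWithinAt
  have hAc : IsCompact A := by
    refine (isCompact_closedBall s (2 * r1)).of_isClosed_subset ?_ fun x hx => hx.1.1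
    have c1 := hcZ.mono (inter_subset_left (t := (ball s (r1 / 2))ᶜ))
    have c2 := hcL.mono (inter_subset_left (t := (ball s (r1 / 2))ᶜ))
    refine (isClosed_closedBall.inter isOpen_ball.isClosed_compl).isClosed_le ?_ ?_
    · unfold psi; fun_prop
    · fun_prop
  have hAev : ∀ᶠ v : ℂ × ℂ × E in 𝓝 (Z s, Lg s, 0), ∀ x ∈ A,
      psi (c / 4) 1 v.1 v.2.1 (Z (x + v.2.2)) (Lg (x + v.2.2)) < 0 := by
    refine hAc.eventually_forall_of_forall_eventually fun x hx => ?_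
    have hx' := hball x (hsub x hx.1.1)
    have hxs : x ≠ s := fun h => hx.1.2 (by rw [h]; exact mem_ball_self (by positivity))
    have h0 := neg_of hl1 one_pos hx.2 (hx'.2.2.2.1 hxs)
    have t0 : ContinuousAt (fun z : (ℂ × ℂ × E) × E => z.2 + z.1.2.2) ((Z s, Lg s, 0), x) := by
      fun_prop
    have t1 : ContinuousAt (fun z : (ℂ × ℂ × E) × E => Z (z.2 + z.1.2.2)) ((Z s, Lg s, 0), x) :=
      ContinuousAt.comp (g := Z) (by simpa using hx'.1.continuousAt) t0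
    have t2 : ContinuousAt (fun z : (ℂ × ℂ × E) × E => Lg (z.2 + z.1.2.2)) ((Z s, Lg s, 0), x) :=
      ContinuousAt.comp (g := Lg) (by simpa using hx'.2.1.continuousAt) t0
    have t3 : ContinuousAt (fun z : (ℂ × ℂ × E) × E =>
        psi (c / 4) 1 z.1.1 z.1.2.1 (Z (z.2 + z.1.2.2)) (Lg (z.2 + z.1.2.2))) ((Z s, Lg s, 0), x) := by
      exact (cont_psi (c / 4) 1).continuousAt.comp (f := fun z : (ℂ × ℂ × E) × E =>
        (z.1.1, z.1.2.1, Z (z.2 + z.1.2.2), Lg (z.2 + z.1.2.2)))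
        (ContinuousAt.prodMk (by fun_prop) (ContinuousAt.prodMk (by fun_prop) (t1.prodMk t2)))
    exact t3.eventually (gt_mem_nhds (by simpa using h0))
  obtain ⟨δ, hδ, hδA⟩ := Metric.eventually_nhds_iff.1 hAev
  have hev2 : ∀ᶠ y in 𝓝 s, ‖Lg y - Lg s‖ < c * ε ∧
      5 / 4 * ‖Z y - Z s‖ + c⁻¹ * ‖Lg y - Lg s‖ < δ ∧ 3 / 2 * ‖Lg y - Lg s‖ < δ := by
    have t1 : Tendsto (fun y => 5 / 4 * ‖Z y - Z s‖ + c⁻¹ * ‖Lg y - Lg s‖) (𝓝 s) (𝓝 0) := by
      simpa using (hZc.const_mul (5 / 4)).add (hLc.const_mul c⁻¹)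
    have t2 : Tendsto (fun y => 3 / 2 * ‖Lg y - Lg s‖) (𝓝 s) (𝓝 0) := by
      simpa using hLc.const_mul (3 / 2)
    filter_upwards [hLc.eventually (gt_mem_nhds (mul_pos hc hε)), t1.eventually (gt_mem_nhds hδ),
      t2.eventually (gt_mem_nhds hδ)] with y h1 h2 h3 using ⟨h1, h2, h3⟩
  obtain ⟨η1, hη1, hη1'⟩ := Metric.eventually_nhds_iff_ball.1 hev2
  set η := min η1 (min (r1 / 4) (δ / 2)) with hη
  have n1 : η ≤ η1 := min_le_left _ _
  have n2 : η ≤ r1 / 4 := (min_le_right _ _).trans (min_le_left _ _)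
  have n3 : η ≤ δ / 2 := (min_le_right _ _).trans (min_le_right _ _)
  have hη0 : 0 < η := by positivity
  refine ⟨η, hη0, fun X K hX hNP hK hXS => ?_⟩
  have hin : ∀ y ∈ ball s η, y ∈ ball s ρ := fun y hy => hsub y (by linarith [mem_ball.1 hy])
  have step1 : ∀ y ∈ X ∩ ball s η, y ∈ S := by
    intro y hy
    obtain ⟨g1, g2, g3⟩ := hη1' y (ball_subset_ball n1 hy.2)
    have g4 := abs_le.1 (Complex.abs_re_le_norm (Lg y - Lg s))
    rw [Complex.sub_re, hs1] at g4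
    have j1 : H0 - ε ∈ J := ⟨le_rfl, by linarith⟩
    have j2 : H0 + ε ∈ J := ⟨by linarith, le_rfl⟩
    obtain ⟨t, ht, hat⟩ : ∃ t ∈ J, a t = (Lg y).re := by
      refine intermediate_value_Icc (by linarith) ha ⟨?_, ?_⟩
      · have := (hmon _ j1 _ hH0J (by linarith)).1
        nlinarith [g4.1]
      · have := (hmon _ hH0J _ j2 (by linarith)).1
        nlinarith [g4.2]
    obtain ⟨k1, k2⟩ := two_sided hc hmon hH0J ht
    have k3 : |a t - a H0| ≤ ‖Lg y - Lg s‖ := by rw [hat]; exact abs_le.2 g4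
    have k4 := mul_le_mul_of_nonneg_left k3 (inv_nonneg.2 hc.le)
    have hyρ := hin y hy.2
    have k5 := hD y (hball y hyρ).2.2.2.2.2 s hsε
    have d1 : dist (⟨(Z y).re, t + D y⟩ : ℂ) (Z s) < δ := by
      rw [dist_eq_norm]
      refine (Complex.norm_le_abs_re_add_abs_im _).trans_lt ?_
      have b1 := Complex.abs_re_le_norm (Z y - Z s)
      have b2 : ((⟨(Z y).re, t + D y⟩ : ℂ) - Z s).im = (t - H0) + (D y - D s) := by
        simp [hH0]; ring
      have b3 : ((⟨(Z y).re, t + D y⟩ : ℂ) - Z s).re = (Z y - Z s).re := by simp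
      rw [b2, b3]
      linarith [abs_add_le (t - H0) (D y - D s)]
    have d2 : dist (⟨a t, th t⟩ : ℂ) (Lg s) < δ := by
      rw [dist_eq_norm]
      refine (Complex.norm_le_abs_re_add_abs_im _).trans_lt ?_
      rw [Complex.sub_re, Complex.sub_im, hs1, hs2]
      simp only
      linarith
    have hcpt : IsCompact (X ∩ closedBall s r1) := (isCompact_closedBall s r1).inter_left hX
    have hin1 : ∀ x ∈ X ∩ closedBall s r1, x ∈ ball s ρ := fun x hx =>
      hsub x (by linarith [mem_closedBall.1 hx.2])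
    have hin2 : ∀ x ∈ X ∩ closedBall s r1, x ∈ ball s r := fun x hx =>
      mem_ball.2 (by linarith [mem_closedBall.1 hx.2])
    have key := HULL.maxre HULL.c2 hcpt
      (ψ := fun x => psi (c / 4) 1 ⟨(Z y).re, t + D y⟩ ⟨a t, th t⟩ (Z x) (Lg x))
      (b := (c / 4 * ((Z y).im - (t + D y))) ^ 2 / 3) (by
        have c1 : ContinuousOn Z (X ∩ closedBall s r1) := fun x hx =>
          (hball x (hin1 x hx)).1.continuousAt.continuousWithinAt
        have c2 : ContinuousOn Lg (X ∩ closedBall s r1) := fun x hx =>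
          (hball x (hin1 x hx)).2.1.continuousAt.continuousWithinAt
        unfold psi; fun_prop) (by
        intro x hx hlt
        have hxK : x ∉ K := fun h => by
          have := hw x (hin1 x hx) (hK ⟨h, hin2 x hx⟩) y hyρ t ht hat
          nlinarith [sq_nonneg (c / 4 * ((Z x).re - (Z y).re)), sq_nonneg (1 * ((Lg x).re - a t))]
        have hxr : dist x s < r1 := by
          refine lt_of_le_of_ne (mem_closedBall.1 hx.2) fun h => ?_
          obtain ⟨x', hx'S, hx'⟩ := mem_thickening_iff.1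
            (cthickening_subset_thickening' (δ₁ := η) (δ₂ := 2 * η) (by positivity) (by linarith) S
              (hXS ⟨hx.1, hin2 x hx⟩))
          have f1 := dist_triangle x' x s
          have f2 := dist_triangle x x' s
          rw [dist_comm x' x] at f1
          have f3 : dist x' s ≤ 2 * r1 := by linarith
          have hx'A : x' ∈ A := by
            refine ⟨⟨f3, fun h' => by linarith [mem_ball.1 h']⟩, ?_⟩
            have := hw x' (hsub x' f3) hx'S s hsρ H0 hH0J hs1.symm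
            rw [hps, hqs, ← hs1] at this
            simpa [hH0] using this
          have := hδA (y := ((⟨(Z y).re, t + D y⟩ : ℂ), (⟨a t, th t⟩ : ℂ), x - x')) (by
            rw [Prod.dist_eq, Prod.dist_eq]
            refine max_lt d1 (max_lt d2 ?_)
            rw [dist_zero_right, ← dist_eq_norm]; linarith) x' hx'A
          simp only [add_sub_cancel] at this
          nlinarith [sq_nonneg (c / 4 * ((Z y).im - (t + D y)))]
        refine ⟨(BRIDGE.noPeak_iff.2 (hNP x hx.1 (hin2 x hx) hxK)).mono ?_, _,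
          an_psi (hball x (hin1 x hx)).1 (hball x (hin1 x hx)).2.1 (c / 4) 1 _ _,
          Eventually.of_forall fun x' _ => by rw [psi_eq]⟩
        filter_upwards [isOpen_ball.mem_nhds (mem_ball.2 hxr)] with x' h1 h2
        exact ⟨h2, ball_subset_closedBall h1⟩) y
      ⟨hy.1, mem_closedBall.2 (by linarith [mem_ball.1 hy.2])⟩
    simp only [psi, ← hat, sub_self, mul_zero] at key
    have a1 := sq_nonneg (c / 4 * ((Z y).im - (t + D y)))
    have a2 := sq_nonneg (1 * ((Lg y).im - th t))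
    have b1 : (c / 4 * ((Z y).im - (t + D y))) ^ 2 = 0 := by nlinarith
    have b2 : (1 * ((Lg y).im - th t)) ^ 2 = 0 := by nlinarith
    have c1 := sub_eq_zero.1 ((mul_eq_zero.1 (pow_eq_zero_iff two_ne_zero |>.1 b1)).resolve_left hl1.ne')
    have c2 := sub_eq_zero.1 ((mul_eq_zero.1 (pow_eq_zero_iff two_ne_zero |>.1 b2)).resolve_left one_ne_zero)
    have c3 : (Z y).im - D y = t := by linarith
    refine (hball y hyρ).2.2.1.2 (Complex.ext ?_ ?_)
    · rw [c3, ← hat]; simp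
    · rw [c3, c2]; simp
  intro y hy
  by_contra hyK
  have hyρ := hin y hy.2
  obtain ⟨h1, h2, h3, -, h5, h6⟩ := hball y hyρ
  have e1 := h3.1 (step1 y hy)
  have e2 : (Lg y).re = a ((Z y).im - D y) := by rw [e1]; simp
  have e3 : (Lg y).im = th ((Z y).im - D y) := by rw [e1]; simp
  have hpy : (⟨(Z y).re, (Z y).im - D y + D y⟩ : ℂ) = Z y := Complex.ext rfl (by simp)
  have hqy : (⟨a ((Z y).im - D y), th ((Z y).im - D y)⟩ : ℂ) = Lg y := Complex.ext e2.symm e3.symm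
  refine hNP y hy.1 (mem_ball.2 (by linarith [mem_ball.1 hy.2])) hyK
    ⟨_, an_psi h1 h2 (c / 4) 1 (Z y) (Lg y), ?_⟩
  filter_upwards [isOpen_ball.mem_nhds hy.2, eventually_nhdsWithin_iff.1 (hfin y h6)] with x f1 f2 f3 f4
  have := hw x (hin x f1) (step1 x ⟨f3, f1⟩) y hyρ _ h5 e2.symm
  rw [hpy, hqy, ← e2] at this
  have f5 := neg_of hl1 one_pos (p := Z y) (q := Lg y) (z := Z x) (w := Lg x)
    (by simpa using this) (f2 f4)
  rw [← psi_eq, ← psi_eq]
  simpa [psi] using f5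

theorem st_lbz (_ : St_MPRe) : St_LBZ2 := st_lbz2

end Pool.Agent.Lib.SH
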