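import Pool.Agent.Lib.SH.Blue1b

/-! The local fact of the birth shape. -/

open Set Filter Topology Metric

noncomputable section

namespace Pool.Agent.Lib.SH

namespace LOCF

open Complex in
/-- local branch of `z + i k log bl z` near `z0` -/
def G (k : ℝ) (z0 z : ℂ) : ℂ :=
  z + I * k * ((Real.log ‖bl z0‖ : ℝ) + log (1 + (z - z0) / (z0 - I)) - log (1 + (z - z0) / (z0 + I)))

theorem v_ge {z0 : ℂ} (h : -1 / 4 ≤ z0.im) : 3 / 4 ≤ ‖z0 + Complex.I‖ := by
  have h1 := Complex.abs_im_le_norm (z0 + Complex.I)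
  have h2 : (z0 + Complex.I).im = z0.im + 1 := by simp
  rw [h2] at h1
  have := le_abs_self (z0.im + 1)
  linarith

theorem q_le {a w : ℂ} {r c : ℝ} (hw : 0 < ‖w‖) (ha : ‖a‖ ≤ r) (hr : r ≤ c * ‖w‖) :
    ‖a / w‖ ≤ c := by
  rw [norm_div, div_le_iff₀ hw]; linarith

theorem slit {u : ℂ} (h : ‖u‖ ≤ 1 / 4) : 1 + u ∈ Complex.slitPlane :=
  Complex.mem_slitPlane_of_norm_lt_one (by linarith)

section
variable {z0 : ℂ} {r k : ℝ}

theorem q1 (hw : 0 < ‖z0 - Complex.I‖) (hr : r ≤ ‖z0 - Complex.I‖ / 4) {z : ℂ}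
    (hz : z ∈ closedBall z0 r) : ‖(z - z0) / (z0 - Complex.I)‖ ≤ 1 / 4 :=
  q_le hw (mem_closedBall_iff_norm.1 hz) (by linarith)

theorem q2 (him : -1 / 4 ≤ z0.im) (hr : r ≤ 1 / 8) {z : ℂ}
    (hz : z ∈ closedBall z0 r) : ‖(z - z0) / (z0 + Complex.I)‖ ≤ 1 / 4 := by
  have := v_ge him
  exact q_le (by linarith) (mem_closedBall_iff_norm.1 hz) (by linarith)

theorem lo1 (hr : r ≤ ‖z0 - Complex.I‖ / 4) {z : ℂ} (hz : z ∈ closedBall z0 r) :
    3 / 4 * ‖z0 - Complex.I‖ ≤ ‖z - Complex.I‖ := by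
  have h1 := mem_closedBall_iff_norm.1 hz
  have h2 : ‖z0 - Complex.I‖ ≤ ‖z - Complex.I‖ + ‖z - z0‖ := by
    have := norm_sub_le (z - Complex.I) (z - z0)
    rwa [show z - Complex.I - (z - z0) = z0 - Complex.I by ring] at this
  linarith

theorem up1 (hr : r ≤ ‖z0 - Complex.I‖ / 4) {z : ℂ} (hz : z ∈ closedBall z0 r) :
    ‖z - Complex.I‖ ≤ 5 / 4 * ‖z0 - Complex.I‖ := by
  have h1 := mem_closedBall_iff_norm.1 hz
  have h2 : ‖z - Complex.I‖ ≤ ‖z - z0‖ + ‖z0 - Complex.I‖ := by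
    have := norm_add_le (z - z0) (z0 - Complex.I)
    rwa [show z - z0 + (z0 - Complex.I) = z - Complex.I by ring] at this
  linarith

theorem lo2 (him : -1 / 4 ≤ z0.im) (hr : r ≤ 1 / 8) {z : ℂ} (hz : z ∈ closedBall z0 r) :
    5 / 8 ≤ ‖z + Complex.I‖ := by
  have h0 := v_ge him
  have h1 := mem_closedBall_iff_norm.1 hz
  have h2 : ‖z0 + Complex.I‖ ≤ ‖z + Complex.I‖ + ‖z - z0‖ := by
    have := norm_sub_le (z + Complex.I) (z - z0)
    rwa [show z + Complex.I - (z - z0) = z0 + Complex.I by ring] at this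
  linarith

theorem im_ge (him : -1 / 4 ≤ z0.im) (hr : r ≤ 1 / 8) {z : ℂ} (hz : z ∈ closedBall z0 r) :
    -1 / 2 ≤ z.im := by
  have h1 := mem_closedBall_iff_norm.1 hz
  have h2 := Complex.abs_im_le_norm (z - z0)
  rw [Complex.sub_im] at h2
  have := neg_abs_le (z.im - z0.im)
  linarith

theorem an (him : -1 / 4 ≤ z0.im) (hw : 0 < ‖z0 - Complex.I‖) (hr : r ≤ ‖z0 - Complex.I‖ / 4)
    (hr8 : r ≤ 1 / 8) : AnalyticOnNhd ℂ (G k z0) (closedBall z0 r) := by
  intro z hz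
  have a1 : AnalyticAt ℂ (fun z : ℂ => Complex.log (1 + (z - z0) / (z0 - Complex.I))) z :=
    AnalyticAt.clog (by fun_prop) (slit (q1 hw hr hz))
  have a2 : AnalyticAt ℂ (fun z : ℂ => Complex.log (1 + (z - z0) / (z0 + Complex.I))) z :=
    AnalyticAt.clog (by fun_prop) (slit (q2 him hr8 hz))
  exact analyticAt_id.add (analyticAt_const.mul ((analyticAt_const.add a1).sub a2))

theorem der (him : -1 / 4 ≤ z0.im) (hw : 0 < ‖z0 - Complex.I‖) (hr : r ≤ ‖z0 - Complex.I‖ / 4)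
    (hr8 : r ≤ 1 / 8) {z : ℂ} (hz : z ∈ closedBall z0 r) :
    HasDerivAt (G k z0) (1 + Complex.I * k * ((z - Complex.I)⁻¹ - (z + Complex.I)⁻¹)) z := by
  have hw0 : z0 - Complex.I ≠ 0 := norm_pos_iff.1 hw
  have hv0 : z0 + Complex.I ≠ 0 := norm_pos_iff.1 (by linarith [v_ge him])
  have hz1 : z - Complex.I ≠ 0 := norm_pos_iff.1 (by linarith [lo1 hr hz])
  have hz2 : z + Complex.I ≠ 0 := norm_pos_iff.1 (by linarith [lo2 him hr8 hz])
  have d : ∀ w : ℂ, HasDerivAt (fun z : ℂ => 1 + (z - z0) / w) (1 / w) z := fun w =>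
    (((hasDerivAt_id z).sub_const z0).div_const w).const_add 1
  have d1 := (d (z0 - Complex.I)).clog (slit (q1 hw hr hz))
  have d2 := (d (z0 + Complex.I)).clog (slit (q2 him hr8 hz))
  have e1 : 1 / (z0 - Complex.I) / (1 + (z - z0) / (z0 - Complex.I)) = (z - Complex.I)⁻¹ := by
    have : 1 + (z - z0) / (z0 - Complex.I) = (z - Complex.I) / (z0 - Complex.I) := by
      field_simp; ring
    rw [this]; field_simp
  have e2 : 1 / (z0 + Complex.I) / (1 + (z - z0) / (z0 + Complex.I)) = (z + Complex.I)⁻¹ := by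
    have : 1 + (z - z0) / (z0 + Complex.I) = (z + Complex.I) / (z0 + Complex.I) := by
      field_simp; ring
    rw [this]; field_simp
  rw [e1] at d1
  rw [e2] at d2
  exact (hasDerivAt_id z).add
    (((d1.const_add ((Real.log ‖bl z0‖ : ℝ) : ℂ)).sub d2).const_mul (Complex.I * k))

theorem im_eq (him : -1 / 4 ≤ z0.im) (hw : 0 < ‖z0 - Complex.I‖) (hr : r ≤ ‖z0 - Complex.I‖ / 4)
    (hr8 : r ≤ 1 / 8) {z : ℂ} (hz : z ∈ closedBall z0 r) :
    (G k z0 z).im = z.im + k * Real.log ‖bl z‖ := by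
  have hv : 0 < ‖z0 + Complex.I‖ := by linarith [v_ge him]
  have hw0 : z0 - Complex.I ≠ 0 := norm_pos_iff.1 hw
  have hv0 : z0 + Complex.I ≠ 0 := norm_pos_iff.1 hv
  have hz1 : 0 < ‖z - Complex.I‖ := by linarith [lo1 hr hz]
  have hz2 : 0 < ‖z + Complex.I‖ := by linarith [lo2 him hr8 hz]
  have e1 : 1 + (z - z0) / (z0 - Complex.I) = (z - Complex.I) / (z0 - Complex.I) := by
    field_simp; ring
  have e2 : 1 + (z - z0) / (z0 + Complex.I) = (z + Complex.I) / (z0 + Complex.I) := by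
    field_simp; ring
  have key : ∀ a : ℂ, (Complex.I * k * a).im = k * a.re := fun a => by simp
  unfold G bl
  rw [Complex.add_im, key, e1, e2, Complex.sub_re, Complex.add_re, Complex.ofReal_re,
    Complex.log_re, Complex.log_re, norm_div, norm_div, norm_div, norm_div,
    Real.log_div hw.ne' hv.ne', Real.log_div hz1.ne' hw.ne', Real.log_div hz2.ne' hv.ne',
    Real.log_div hz1.ne' hz2.ne']
  ring

/-- lower Lipschitz bound from a derivative close to a constant -/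
theorem lower {f f' : ℂ → ℂ} {a : ℂ} {b : ℝ} {s : Set ℂ} (hs : Convex ℝ s)
    (hd : ∀ z ∈ s, HasDerivAt f (f' z) z) (hb : ∀ z ∈ s, ‖f' z - a‖ ≤ b) {z z' : ℂ} (hz : z ∈ s)
    (hz' : z' ∈ s) : (‖a‖ - b) * ‖z - z'‖ ≤ ‖f z - f z'‖ := by
  have h := hs.norm_image_sub_le_of_norm_hasDerivWithin_le (f := fun z => f z - a * z)
    (f' := fun z => f' z - a) (C := b)
    (fun x hx => by
      have h1 := (hd x hx).sub ((hasDerivAt_id x).const_mul a)
      rw [mul_one] at h1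
      exact h1.hasDerivWithinAt) hb hz' hz
  have e : a * (z - z') = (f z - f z') - (f z - a * z - (f z' - a * z')) := by ring
  have h2 : ‖a‖ * ‖z - z'‖ ≤ ‖f z - f z'‖ + ‖f z - a * z - (f z' - a * z')‖ := by
    rw [← norm_mul, e]; exact norm_sub_le _ _
  nlinarith

theorem inv_le {u : ℂ} {c : ℝ} (hc : 0 < c) (h : c ≤ ‖u‖) : ‖u⁻¹‖ ≤ c⁻¹ := by
  rw [norm_inv]; exact inv_anti₀ hc h

theorem nk (hk : 0 ≤ k) (a : ℂ) : ‖Complex.I * k * a‖ = k * ‖a‖ := by
  rw [norm_mul, norm_mul, Complex.norm_I, Complex.norm_real, Real.norm_of_nonneg hk, one_mul]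

/-- outer regime -/
theorem outer (him : -1 / 4 ≤ z0.im) (hk : 0 < k) (hk1 : k ≤ 1 / 10)
    (hρ : 16 * k ≤ ‖z0 - Complex.I‖) (hr : r ≤ ‖z0 - Complex.I‖ / 4) (hr8 : r ≤ 1 / 8)
    {z z' : ℂ} (hz : z ∈ closedBall z0 r) (hz' : z' ∈ closedBall z0 r) :
    1 / 2 * ‖z - z'‖ ≤ ‖G k z0 z - G k z0 z'‖ := by
  have hw : 0 < ‖z0 - Complex.I‖ := by linarith
  have h := lower (a := 1) (b := 1 / 2) (convex_closedBall z0 r)
    (fun x hx => der (k := k) him hw hr hr8 hx) (fun x hx => by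
      rw [add_sub_cancel_left, nk hk.le]
      have h1 : ‖(x - Complex.I)⁻¹‖ ≤ (12 * k)⁻¹ := inv_le (by linarith) (by linarith [lo1 hr hx])
      have h2 : ‖(x + Complex.I)⁻¹‖ ≤ (5 / 8 : ℝ)⁻¹ := inv_le (by norm_num) (lo2 him hr8 hx)
      have h3 := norm_sub_le (x - Complex.I)⁻¹ (x + Complex.I)⁻¹
      have h4 : k * (12 * k)⁻¹ = 1 / 12 := by field_simp
      have h5 : k * ‖(x - Complex.I)⁻¹ - (x + Complex.I)⁻¹‖ ≤ k * ((12 * k)⁻¹ + (5 / 8 : ℝ)⁻¹) :=
        mul_le_mul_of_nonneg_left (by linarith) hk.le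
      rw [mul_add, h4] at h5
      norm_num at h5 ⊢
      linarith) hz hz'
  rw [norm_one] at h
  linarith

/-- inner regime -/
theorem inner (him : -1 / 4 ≤ z0.im) (hk : 0 < k) (hk1 : k ≤ 1 / 10)
    (hw : 0 < ‖z0 - Complex.I‖) (hρ : 12 * ‖z0 - Complex.I‖ ≤ k)
    (hr : r ≤ ‖z0 - Complex.I‖ / 4) (hr8 : r ≤ 1 / 8)
    {z z' : ℂ} (hz : z ∈ closedBall z0 r) (hz' : z' ∈ closedBall z0 r) :
    k / (2 * ‖z0 - Complex.I‖) * ‖z - z'‖ ≤ ‖G k z0 z - G k z0 z'‖ := by
  have hw0 : z0 - Complex.I ≠ 0 := norm_pos_iff.1 hw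
  have h := lower (a := Complex.I * k * (z0 - Complex.I)⁻¹) (b := k / (2 * ‖z0 - Complex.I‖))
    (convex_closedBall z0 r) (fun x hx => der (k := k) him hw hr hr8 hx) (fun x hx => by
      have hx1 := lo1 hr hx
      have hx0 : x - Complex.I ≠ 0 := norm_pos_iff.1 (by linarith)
      have e : 1 + Complex.I * k * ((x - Complex.I)⁻¹ - (x + Complex.I)⁻¹) -
          Complex.I * k * (z0 - Complex.I)⁻¹ = 1 - Complex.I * k * ((x - z0) / (z0 - Complex.I) *
            (x - Complex.I)⁻¹) - Complex.I * k * (x + Complex.I)⁻¹ := by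
        field_simp; ring
      rw [e]
      have h1 : ‖(x - Complex.I)⁻¹‖ ≤ (3 / 4 * ‖z0 - Complex.I‖)⁻¹ := inv_le (by linarith) hx1
      have h2 : ‖(x + Complex.I)⁻¹‖ ≤ (5 / 8 : ℝ)⁻¹ := inv_le (by norm_num) (lo2 him hr8 hx)
      have h3 : ‖(x - z0) / (z0 - Complex.I) * (x - Complex.I)⁻¹‖ ≤
          1 / 4 * (3 / 4 * ‖z0 - Complex.I‖)⁻¹ := by
        rw [norm_mul]
        exact mul_le_mul (q1 hw hr hx) h1 (norm_nonneg _) (by norm_num)
      have h4 := norm_sub_le (1 - Complex.I * k * ((x - z0) / (z0 - Complex.I) *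
        (x - Complex.I)⁻¹)) (Complex.I * k * (x + Complex.I)⁻¹)
      have h5 := norm_sub_le (1 : ℂ) (Complex.I * k * ((x - z0) / (z0 - Complex.I) *
        (x - Complex.I)⁻¹))
      rw [nk hk.le] at h4 h5
      rw [norm_one] at h5
      have h6 := mul_le_mul_of_nonneg_left h3 hk.le
      have h7 := mul_le_mul_of_nonneg_left h2 hk.le
      have h8 : 12 ≤ k / ‖z0 - Complex.I‖ := by rw [le_div_iff₀ hw]; exact hρ
      have e1 : k * (1 / 4 * (3 / 4 * ‖z0 - Complex.I‖)⁻¹) = k / ‖z0 - Complex.I‖ / 3 := by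
        field_simp
      have e2 : k / (2 * ‖z0 - Complex.I‖) = k / ‖z0 - Complex.I‖ / 2 := by field_simp
      rw [e1] at h6
      rw [e2]
      rw [show (5 / 8 : ℝ)⁻¹ = 8 / 5 by norm_num] at h7
      linarith) hz hz'
  rw [nk hk.le, norm_inv] at h
  have e : k * ‖z0 - Complex.I‖⁻¹ - k / (2 * ‖z0 - Complex.I‖) = k / (2 * ‖z0 - Complex.I‖) := by
    field_simp; norm_num
  rwa [e] at h

end

/-- the model function on one of two circles -/
theorem model (c : ℂ) : ∃ t : ℝ, 0 < t ∧ t ≤ 1 / 4 ∧ ∀ τ : ℂ, ‖τ‖ = t →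
    3 / 10000 ≤ ‖c * τ + Complex.I * Complex.log (1 + τ)‖ := by
  by_cases hc : 1 / 32 ≤ ‖c + Complex.I‖
  · refine ⟨1 / 64, by norm_num, by norm_num, fun τ hτ => ?_⟩
    have h1 := Complex.norm_log_one_add_sub_self_le (z := τ) (by rw [hτ]; norm_num)
    have e : (c + Complex.I) * τ = (c * τ + Complex.I * Complex.log (1 + τ)) -
        Complex.I * (Complex.log (1 + τ) - τ) := by ring
    have h2 := norm_sub_le (c * τ + Complex.I * Complex.log (1 + τ))
      (Complex.I * (Complex.log (1 + τ) - τ))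
    rw [← e, norm_mul, norm_mul, Complex.norm_I, one_mul, hτ] at h2
    rw [hτ] at h1
    norm_num at h1
    linarith
  · refine ⟨1 / 4, by norm_num, le_rfl, fun τ hτ => ?_⟩
    have h1 := Complex.norm_log_sub_logTaylor_le 2 (z := τ) (by rw [hτ]; norm_num)
    have e0 : Complex.logTaylor (2 + 1) τ = τ - τ ^ 2 / 2 := by
      simp [Complex.logTaylor, Finset.sum_range_succ]; ring
    rw [e0, hτ] at h1
    have e : Complex.I * (τ ^ 2 / 2) = (c + Complex.I) * τ +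
        Complex.I * (Complex.log (1 + τ) - (τ - τ ^ 2 / 2)) -
        (c * τ + Complex.I * Complex.log (1 + τ)) := by ring
    have h2 := norm_sub_le ((c + Complex.I) * τ +
      Complex.I * (Complex.log (1 + τ) - (τ - τ ^ 2 / 2))) (c * τ + Complex.I * Complex.log (1 + τ))
    have h3 := norm_add_le ((c + Complex.I) * τ)
      (Complex.I * (Complex.log (1 + τ) - (τ - τ ^ 2 / 2)))
    rw [← e, norm_mul, Complex.norm_I, one_mul, norm_div, norm_pow, hτ] at h2
    rw [norm_mul, norm_mul, Complex.norm_I, one_mul, hτ] at h3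
    have h4 : ‖(2 : ℂ)‖ = 2 := by simp
    rw [h4] at h2
    norm_num at h1
    linarith [not_le.1 hc]

/-- middle regime -/
theorem middle {z0 : ℂ} {k : ℝ} (him : -1 / 4 ≤ z0.im) (hk : 0 < k) (hk1 : k ≤ 1 / 100000)
    (hw : 0 < ‖z0 - Complex.I‖) (hρ : ‖z0 - Complex.I‖ ≤ 16 * k) :
    ∃ r > 0, r ≤ ‖z0 - Complex.I‖ / 4 ∧ ∀ z ∈ sphere z0 r,
      1 / 10000 * k ≤ ‖G k z0 z - G k z0 z0‖ := by
  obtain ⟨t, ht0, ht, h⟩ := model ((z0 - Complex.I) / k)
  have hw0 : z0 - Complex.I ≠ 0 := norm_pos_iff.1 hw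
  have hk0 : (k : ℂ) ≠ 0 := by exact_mod_cast hk.ne'
  refine ⟨t * ‖z0 - Complex.I‖, by positivity, by nlinarith, fun z hz => ?_⟩
  have hz1 := mem_sphere_iff_norm.1 hz
  have h1 := h ((z - z0) / (z0 - Complex.I)) (by rw [norm_div, hz1]; field_simp)
  have hv := v_ge him
  have hu : ‖(z - z0) / (z0 + Complex.I)‖ ≤ 16 / 3 * k :=
    q_le (by linarith) hz1.le (by nlinarith)
  have h2 := Complex.norm_log_one_add_half_le_self (z := (z - z0) / (z0 + Complex.I)) (by linarith)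
  have e : (k : ℂ) * ((z0 - Complex.I) / k * ((z - z0) / (z0 - Complex.I)) +
      Complex.I * Complex.log (1 + (z - z0) / (z0 - Complex.I))) =
      (G k z0 z - G k z0 z0) + Complex.I * k * Complex.log (1 + (z - z0) / (z0 + Complex.I)) := by
    unfold G
    simp only [sub_self, zero_div, add_zero, Complex.log_one]
    field_simp
    ring
  have h3 := norm_add_le (G k z0 z - G k z0 z0)
    (Complex.I * k * Complex.log (1 + (z - z0) / (z0 + Complex.I)))
  rw [← e, nk hk.le, norm_mul, Complex.norm_real, Real.norm_of_nonneg hk.le] at h3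
  have h4 := mul_le_mul_of_nonneg_left h1 hk.le
  have h5 : k * ‖Complex.log (1 + (z - z0) / (z0 + Complex.I))‖ ≤ k * (1 / 10000) :=
    mul_le_mul_of_nonneg_left (by linarith) hk.le
  linarith

theorem exp_le {L : ℝ} (hL : 0 < L) : Real.exp (-L / 2) ≤ 16 / L * L⁻¹ := by
  have h1 : L / 4 ≤ Real.exp (L / 4) := by linarith [Real.add_one_le_exp (L / 4)]
  have h2 : L / 4 * (L / 4) ≤ Real.exp (L / 2) := by
    rw [show L / 2 = L / 4 + L / 4 by ring, Real.exp_add]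
    exact mul_le_mul h1 h1 (by positivity) (Real.exp_pos _).le
  rw [show -L / 2 = -(L / 2) by ring, Real.exp_neg]
  have e : 16 / L * L⁻¹ = (L / 4 * (L / 4))⁻¹ := by field_simp; norm_num
  rw [e]
  exact inv_anti₀ (by positivity) h2

end LOCF

open LOCF in
theorem st_locf : St_LOCF := by
  refine ⟨1 / 10000, by norm_num, by norm_num, fun CD => ⟨100000 + 2048 * |CD|, fun L hL => ?_⟩⟩
  intro D0 hD z0 him hb
  have hC := abs_nonneg CD
  have hC1 := le_abs_self CD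
  have hL0 : 0 < L := by linarith
  obtain ⟨k, hk⟩ : ∃ k : ℝ, k = L⁻¹ := ⟨_, rfl⟩
  have hk0 : 0 < k := by rw [hk]; positivity
  have hkL : k * L = 1 := by rw [hk]; field_simp
  have hk1 : k ≤ 1 / 100000 := by nlinarith
  have hw : 0 < ‖z0 - Complex.I‖ := by
    rw [norm_pos_iff]
    intro h
    rw [bl, h, zero_div, norm_zero] at hb
    linarith [Real.exp_pos (-L - 4)]
  have hE : Real.exp (-L / 2) ≤ 16 * k * k := by
    have := exp_le hL0
    rwa [div_eq_mul_inv 16 L, ← hk] at this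
  have hE0 := Real.exp_pos (-L / 2)
  have fin : ∀ r : ℝ, 0 < r → r ≤ 1 / 8 → r ≤ ‖z0 - Complex.I‖ / 4 →
      (∀ z ∈ sphere z0 r, 1 / 10000 * k ≤ ‖G k z0 z - G k z0 z0‖) →
      (∀ z ∈ closedBall z0 r, ∀ z' ∈ closedBall z0 r,
        |D0 z - D0 z'| ≤ ‖G k z0 z - G k z0 z'‖ / 4) →
      ∃ r > 0, r ≤ 1 / 8 ∧ r ≤ ‖z0 - Complex.I‖ / 4 ∧
      ∃ G : ℂ → ℂ, AnalyticOnNhd ℂ G (closedBall z0 r) ∧
      (∀ z ∈ closedBall z0 r, (G z).im = z.im + Real.log ‖bl z‖ / L) ∧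
      (∀ z ∈ sphere z0 r, 1 / 10000 / L ≤ ‖G z - G z0‖) ∧
      (∀ z ∈ closedBall z0 r, |D0 z - D0 z0| ≤ ‖G z - G z0‖ / 4) ∧
      ∃ r' > 0, ∀ z ∈ ball z0 r', ∀ z' ∈ ball z0 r', |D0 z - D0 z'| ≤ ‖G z - G z'‖ / 4 := by
    intro r h0 h8 h4 hs hl
    refine ⟨r, h0, h8, h4, G k z0, an him hw h4 h8, fun z hz => ?_, fun z hz => ?_,
      fun z hz => hl z hz z0 (mem_closedBall_self h0.le), r, h0,
      fun z hz z' hz' => hl z (ball_subset_closedBall hz) z' (ball_subset_closedBall hz')⟩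
    · rw [im_eq him hw h4 h8 hz, hk]; ring
    · rw [div_eq_mul_inv _ L, ← hk]; exact hs z hz
  by_cases h1 : 16 * k ≤ ‖z0 - Complex.I‖
  · have h8 : min (1 / 8) (‖z0 - Complex.I‖ / 4) ≤ 1 / 8 := min_le_left _ _
    have h4 : min (1 / 8) (‖z0 - Complex.I‖ / 4) ≤ ‖z0 - Complex.I‖ / 4 := min_le_right _ _
    have hk4 : k ≤ min (1 / 8) (‖z0 - Complex.I‖ / 4) := le_min (by linarith) (by linarith)
    have h0 : 0 < min (1 / 8) (‖z0 - Complex.I‖ / 4) := by linarith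
    refine fin _ h0 h8 h4 (fun z hz => ?_) (fun z hz z' hz' => ?_)
    · have h := outer him hk0 (by linarith) h1 h4 h8 (sphere_subset_closedBall hz)
        (mem_closedBall_self h0.le)
      rw [mem_sphere_iff_norm.1 hz] at h
      linarith
    · have h := outer him hk0 (by linarith) h1 h4 h8 hz hz'
      have g : ∀ x ∈ closedBall z0 (min (1 / 8) (‖z0 - Complex.I‖ / 4)),
          8 * Real.exp (-L / 2) ≤ ‖x - Complex.I‖ := fun x hx => by
        have := lo1 h4 hx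
        nlinarith
      have h' := hD.lipo z z' (im_ge him h8 hz) (im_ge him h8 hz') (g z hz) (g z' hz')
      have hc : CD / L ≤ 1 / 8 := by rw [div_le_iff₀ hL0]; linarith
      have := mul_le_mul_of_nonneg_right hc (norm_nonneg (z - z'))
      linarith
  · have h1' := (not_le.1 h1).le
    by_cases h2 : 16 * Real.exp (-L / 2) ≤ ‖z0 - Complex.I‖
    · obtain ⟨r, h0, h4, hs⟩ := middle him hk0 hk1 hw h1'
      refine fin r h0 (by linarith) h4 hs (fun z hz z' hz' => ?_)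
      have g : ∀ x ∈ closedBall z0 r, D0 x = 0 := fun x hx =>
        hD.zero x (by linarith [lo1 h4 hx]) (by linarith [up1 h4 hx])
      rw [g z hz, g z' hz', sub_self, abs_zero]
      positivity
    · have h2' : ‖z0 - Complex.I‖ ≤ 256 * k * k := by linarith [not_le.1 h2]
      have h12 : 12 * ‖z0 - Complex.I‖ ≤ k := by nlinarith
      have h0 : 0 < ‖z0 - Complex.I‖ / 4 := by linarith
      have h8 : ‖z0 - Complex.I‖ / 4 ≤ 1 / 8 := by linarith
      refine fin _ h0 h8 le_rfl (fun z hz => ?_) (fun z hz z' hz' => ?_)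
      · have h := inner him hk0 (by linarith) hw h12 le_rfl h8 (sphere_subset_closedBall hz)
          (mem_closedBall_self h0.le)
        rw [mem_sphere_iff_norm.1 hz] at h
        have e : k / (2 * ‖z0 - Complex.I‖) * (‖z0 - Complex.I‖ / 4) = k / 8 := by
          field_simp; norm_num
        rw [e] at h
        linarith
      · have h := inner him hk0 (by linarith) hw h12 le_rfl h8 hz hz'
        have h' := hD.lipi z z' (by linarith [up1 le_rfl hz]) (by linarith [up1 le_rfl hz'])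
        have hc : 4 * CD ≤ k / (2 * ‖z0 - Complex.I‖) := by
          rw [le_div_iff₀ (by linarith)]
          have a1 : 2048 * |CD| * k ≤ 1 := by nlinarith
          have a2 : CD * ‖z0 - Complex.I‖ ≤ |CD| * (256 * k * k) :=
            mul_le_mul hC1 h2' hw.le hC
          nlinarith
        have := mul_le_mul_of_nonneg_right hc (norm_nonneg (z - z'))
        linarith

end Pool.Agent.Lib.SH
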