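import Pool.Agent.Lib.SH.B_NL0

open Set Filter Topology Metric

namespace Pool.Agent.Lib.SH

namespace MIC2

theorem add_I_ne {z : ℂ} (h : 0 ≤ z.im) : z + Complex.I ≠ 0 := fun h0 => by
  have := congrArg Complex.im h0
  simp at this; linarith

theorem norm_bl_le {z : ℂ} (h : 0 ≤ z.im) : ‖bl z‖ ≤ 1 := by
  rw [bl, norm_div, div_le_one (norm_pos_iff.2 (add_I_ne h)), ← sq_le_sq₀ (norm_nonneg _)
    (norm_nonneg _), Complex.sq_norm, Complex.sq_norm, Complex.normSq_apply, Complex.normSq_apply]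
  simp only [Complex.sub_re, Complex.sub_im, Complex.add_re, Complex.add_im, Complex.I_re,
    Complex.I_im]
  nlinarith

theorem le_norm_bl {z : ℂ} (h : 0 ≤ z.im) (h' : z.im ≤ 1 / 2) : 1 / 5 ≤ ‖bl z‖ := by
  rw [bl, norm_div, le_div_iff₀ (norm_pos_iff.2 (add_I_ne h))]
  have h1 : 1 / 2 ≤ ‖z - Complex.I‖ := by
    have := Complex.abs_im_le_norm (z - Complex.I)
    rw [Complex.sub_im, Complex.I_im] at this
    linarith [neg_abs_le (z.im - 1)]
  have h2 : ‖z + Complex.I‖ ≤ ‖z - Complex.I‖ + 2 := by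
    have := norm_add_le (z - Complex.I) (2 * Complex.I)
    rw [show z - Complex.I + 2 * Complex.I = z + Complex.I by ring] at this
    simpa using this
  linarith

end MIC2

open NL0 MIC2 in
theorem st_mic2 (hZ : St_ZPB) : St_MIC2 := by
  refine ⟨5000, fun L M' C0 Λ hL hM => ?_⟩
  obtain ⟨t, t0, ht⟩ := hZ 1 C0 Λ one_pos
  obtain ⟨ι, i0, i1, hι⟩ := HULL.thin2 (t := min t 1 / 16) (H := 2 * M') hL (by positivity)
    (by linarith)
  have m1 := min_le_left t 1
  have m2 := min_le_right t 1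
  refine ⟨ι, i0, fun X K Q j hj hN hup hQ hI hK hW O hO hb y hy hyK hy1 hy2 => ?_⟩
  have main : ∀ O' : ℝ, O < O' → ‖Q y‖ ≤ Real.exp 1 * O' := by
    intro O' hO'
    have hO0 : 0 < O' := hO.trans_lt hO'
    have hba : ∀ x ∈ ov X (closedBall 0 (2 * M')), AnalyticAt ℂ (fun x : E => bl x.1) x :=
      fun x hx => (analyticAt_fst.sub analyticAt_const).div (analyticAt_fst.add analyticAt_const)
        (add_I_ne (hup x hx))
    have key := hι E (Fin 2) HULL.c2 _ _ Prod.fst (fun x => bl x.1) Q O' j hj hO0 hN.cpt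
      (noPeak_ball hN) continuous_fst.continuousOn
      (fun x hx => (hba x hx).continuousAt.continuousWithinAt) hQ.continuousOn
      (fun x hx _ => ⟨analyticAt_fst, hba x hx, hQ x hx⟩)
      (fun x hx => ⟨(Complex.abs_im_le_norm _).trans (mem_closedBall_zero_iff.1 hx.2),
        (norm_bl_le (hup x hx)).trans (Real.one_le_exp zero_le_one), fun h0 => by
          have h1 : x.1 = Complex.I :=
            sub_eq_zero.1 ((div_eq_zero_iff.1 h0).resolve_right (add_I_ne (hup x hx)))
          rw [hI x hx.1 h1, norm_zero]; exact hO0⟩)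
      (fun x hx hB h => by
        by_cases hxK : x ∈ K
        · refine (hK x hx hxK fun h0 => ?_).imp (fun a => ⟨?_, a.2⟩) id
          · rw [h0, norm_zero] at h; linarith
          · rw [abs_of_nonneg (hup x hx)]; exact a.1
        · have h1 : ‖x.1‖ = 2 * M' := hB.resolve_left hxK
          exact absurd (hb x hx.1 hxK (by linarith) h1.le) (by linarith))
    by_contra hc
    rw [not_le] at hc
    have hre : |y.1.re| ≤ M' := (Complex.abs_re_le_norm _).trans hy1
    have hsub : box y.1.re (1 / 16) (1 / 16) ⊆ closedBall 0 (2 * M') := box_sub (by linarith)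
    have e1 : Real.exp (1 / 4) ≤ Real.exp 1 := Real.exp_le_exp.2 (by norm_num)
    have h1 := (key y ⟨hy, mem_closedBall_zero_iff.2 (by linarith)⟩
      (by nlinarith)).resolve_right (not_lt.2 hy2)
    refine hyK (ht X K Q y.1.re (1 / 16) O' 0 (by norm_num) le_rfl hO0.le hO0
      (np_mono hN (isClosed_box _ _ _) hsub) (wb_mono (hW _ hre) (by linarith))
      (fun x hx h => ?_) y ⟨hy, by norm_num, by linarith [h1.1]⟩ (by linarith))
    rcases key x ⟨hx.1, hsub hx.2⟩ h with ⟨a1, a2⟩ | a
    · exact ⟨by linarith, a2.trans (mul_le_mul_of_nonneg_right (by linarith) (norm_nonneg _))⟩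
    · have b1 := le_norm_bl (hup x ⟨hx.1, hsub hx.2⟩) (by linarith [le_abs_self x.1.im, hx.2.2])
      have b2 : Real.exp (-L + 2) ≤ 1 / 5 := by
        rw [show -L + 2 = -(L - 2) by ring, Real.exp_neg, inv_le_comm₀ (Real.exp_pos _) (by norm_num)]
        linarith [Real.add_one_le_exp (L - 2)]
      linarith
  refine le_of_forall_pos_le_add fun δ hδ => ?_
  have := main (O + δ / Real.exp 1) (by linarith [div_pos hδ (Real.exp_pos 1)])
  rwa [mul_add, mul_div_cancel₀ _ (Real.exp_pos 1).ne'] at this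

end Pool.Agent.Lib.SH
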