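import Pool.Agent.Lib.SH.B_ZP
import Pool.Agent.Lib.HULL.Thin59

open Set Filter Topology Metric

noncomputable section

namespace Pool.Agent.Lib.SH

namespace NW

theorem im_pp {e ι : ℝ} {v : ℂ} (h : |v.im| ≤ ι * ss e v) :
    |(pp e v).im| ≤ 2 * ι * ‖pp e v‖ := by
  have e1 : (v * (v - e)).im = v.im * (v.re + (v - e).re) := by simp; ring
  have e2 : |v.re + (v - e).re| ≤ 2 * max ‖v‖ ‖v - e‖ := by
    linarith [abs_add_le v.re (v - e).re, Complex.abs_re_le_norm v, Complex.abs_re_le_norm (v - e),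
      le_max_left ‖v‖ ‖v - e‖, le_max_right ‖v‖ ‖v - e‖]
  rw [pp, e1, abs_mul, norm_mul, ← min_mul_max ‖v‖]
  have := mul_le_mul h e2 (abs_nonneg _) ((abs_nonneg _).trans h)
  unfold ss at this
  linarith

theorem re_cosh (w : ℂ) : (Complex.cosh w).re = Real.cosh w.re * Real.cos w.im := by
  conv_lhs => rw [← Complex.re_add_im w]
  rw [Complex.cosh_add, Complex.cosh_mul_I, Complex.sinh_mul_I, ← Complex.ofReal_sinh,
    ← Complex.ofReal_cosh, ← Complex.ofReal_cos, ← Complex.ofReal_sin]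
  simp only [Complex.add_re, Complex.mul_re, Complex.ofReal_re, Complex.ofReal_im,
    Complex.I_re, Complex.I_im, Complex.mul_im]
  ring

theorem norm_sinh_le (w : ℂ) : ‖Complex.sinh w‖ ≤ Real.cosh w.re := by
  rw [Complex.sinh, norm_div, Real.cosh_eq, Complex.norm_two]
  refine div_le_div_of_nonneg_right ((norm_sub_le _ _).trans ?_) zero_le_two
  rw [Complex.norm_exp, Complex.norm_exp, Complex.neg_re]

theorem bump {η s T : ℝ} (hs : 0 < s) (h2 : s ≤ η / 8) (hT : 0 < T) :
    ∃ b : ℂ → ℂ, (∀ z, AnalyticAt ℂ b z) ∧ (∀ x : ℝ, (b x).im = 0) ∧ ∀ z ∈ box 0 1 s,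
      ‖deriv b z‖ ≤ 2 * T / s ∧ 0 ≤ (b z).re ∧ (|z.re| = 1 → T ≤ (b z).re) ∧
        (|z.re| ≤ 1 / 2 → (b z).re ≤ η * T) := by
  set k : ℝ := s⁻¹ with hk
  have hk0 : 0 < k := inv_pos.2 hs
  have hc := Real.cosh_pos k
  refine ⟨fun z => ((2 * T / Real.cosh k : ℝ) : ℂ) * Complex.cosh (k * z),
    fun z => analyticAt_const.mul (Complex.analyticAt_cosh.fun_comp
      (analyticAt_const.mul analyticAt_id)), fun x => ?_, fun z hz => ?_⟩
  · beta_reduce
    rw [← Complex.ofReal_mul k, ← Complex.ofReal_cosh, ← Complex.ofReal_mul, Complex.ofReal_im]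
  have hx : |z.re| ≤ 1 := by simpa using hz.1
  have a1 : Real.cosh (k * z.re) ≤ Real.cosh k := by
    rw [Real.cosh_le_cosh, abs_mul, abs_of_pos hk0]; nlinarith
  have a2 : 1 / 2 ≤ Real.cos (k * z.im) := by
    have b1 : |k * z.im| ≤ 1 := by
      rw [abs_mul, abs_of_pos hk0, hk, inv_mul_le_iff₀ hs, mul_one]; exact hz.2
    have b2 := Real.one_sub_sq_div_two_le_cos (x := k * z.im)
    have b3 : (k * z.im) ^ 2 ≤ 1 := by rw [← sq_abs]; nlinarith [abs_nonneg (k * z.im)]
    linarith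
  have a3 : (((2 * T / Real.cosh k : ℝ) : ℂ) * Complex.cosh (k * z)).re =
      2 * T / Real.cosh k * (Real.cosh (k * z.re) * Real.cos (k * z.im)) := by
    rw [Complex.re_ofReal_mul, re_cosh, Complex.re_ofReal_mul, Complex.im_ofReal_mul]
  have a4 := Real.cosh_pos (k * z.re)
  simp only [a3]
  refine ⟨?_, by positivity, fun h => ?_, fun h => ?_⟩
  · have d := (((hasDerivAt_id z).const_mul (k : ℂ)).ccosh).const_mul
      ((2 * T / Real.cosh k : ℝ) : ℂ)
    simp only [id] at d
    rw [d.deriv, norm_mul, norm_mul, mul_one, Complex.norm_real, Complex.norm_real,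
      Real.norm_of_nonneg hk0.le, Real.norm_of_nonneg (by positivity)]
    have b1 := norm_sinh_le (k * z)
    rw [Complex.re_ofReal_mul] at b1
    calc _ ≤ 2 * T / Real.cosh k * (Real.cosh k * k) := by gcongr; exact b1.trans a1
      _ = 2 * T / s := by rw [hk]; field_simp
  · have b1 : Real.cosh (k * z.re) = Real.cosh k := by
      rw [← Real.cosh_abs, abs_mul, h, mul_one, abs_of_pos hk0]
    rw [b1]
    calc T = 2 * T / Real.cosh k * (Real.cosh k * (1 / 2)) := by field_simp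
      _ ≤ _ := by gcongr
  · have b1 : Real.cosh (k * z.re) ≤ Real.exp (k / 2) := by
      have : Real.cosh (k * z.re) ≤ Real.cosh (k / 2) := by
        rw [Real.cosh_le_cosh, abs_mul, abs_of_pos hk0, abs_of_pos (half_pos hk0)]; nlinarith
      refine this.trans ?_
      rw [Real.cosh_eq]
      linarith [Real.exp_le_exp.2 (show -(k / 2) ≤ k / 2 by linarith)]
    have b2 : Real.exp (k / 2) * Real.exp (k / 2) ≤ 2 * Real.cosh k := by
      rw [← Real.exp_add, add_halves, Real.cosh_eq]; linarith [Real.exp_pos (-k)]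
    have b3 : 4 ≤ η * Real.exp (k / 2) := by
      have c1 : k / 2 ≤ Real.exp (k / 2) := by linarith [Real.add_one_le_exp (k / 2)]
      have c2 : s * k = 1 := mul_inv_cancel₀ hs.ne'
      nlinarith
    have b4 : Real.cosh (k * z.re) * Real.cos (k * z.im) ≤ Real.exp (k / 2) :=
      (mul_le_of_le_one_right a4.le (Real.cos_le_one _)).trans b1
    have e := Real.exp_pos (k / 2)
    have hη : 0 < η := by linarith
    rw [div_mul_eq_mul_div, div_le_iff₀ hc]
    have b5 : 2 * Real.exp (k / 2) ≤ η * Real.cosh k := by nlinarith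
    nlinarith

end NW

open NW ZP

theorem st_nw : St_NW := by
  intro η hη
  refine ⟨min 1 (η / 8), by positivity, min_le_left _ _, fun s T a Λ C0 hs hs1 hT ha => ?_⟩
  obtain ⟨b, ba, bi, hb⟩ := bump hs (hs1.trans (min_le_right _ _)) hT
  set L : ℝ := |Λ| + 2 * T / s with hL
  have hL0 : 0 ≤ L := by positivity
  obtain ⟨t, ht, hZP⟩ := st_zp a L C0 s ha hs (hs1.trans (min_le_left _ _))
  set W : ℝ := 1 + 16 * s * (3 + L) / a with hW
  obtain ⟨ι, hι, ⟨⟨i1, i2⟩, i3⟩, i5⟩ := ex_pos ((((small (2 * (3 + L) + 1 + L * W) ht).and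
    (small W ht)).and (small 1 hs)).and (small (3 + L) one_pos))
  refine ⟨ι, hι, fun X K V g e ι' lev θ0 Ψ Ψy he hN hV hg hd hθ hPW hlev hK hf hbd y0 hy hK0 => ?_⟩
  have p1 := hPW.pos
  have p2 := hPW.le
  have hW1 : 1 ≤ W := by rw [hW]; exact le_add_of_nonneg_right (by positivity)
  have hιW : ι ≤ ι * W := le_mul_of_one_le_right hι.le hW1
  set h : ℂ → ℂ := fun z => g z - b z - Complex.I * θ0 with hh
  have ha1 : AnalyticOnNhd ℂ h (box 0 1 s) := fun z hz =>
    ((hg z hz).sub (ba z)).sub analyticAt_const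
  have hd1 : ∀ z ∈ box 0 1 s, ‖deriv h z‖ ≤ L := by
    intro z hz
    have := (((hg z hz).differentiableAt.hasDerivAt.sub
      (ba z).differentiableAt.hasDerivAt).sub_const (Complex.I * θ0)).deriv
    rw [show deriv h z = deriv g z - deriv b z from this]
    linarith [norm_sub_le (deriv g z) (deriv b z), hd z hz, le_abs_self Λ, (hb z hz).1]
  have hre : ∀ z, (h z).re = (g z).re - (b z).re := fun z => by simp [hh]
  have lip : ∀ z ∈ box 0 1 s, ∀ z' ∈ box 0 1 s, ‖h z' - h z‖ ≤ L * ‖z' - z‖ := fun z hz z' hz' =>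
    (convex_box 0 1 s).norm_image_sub_le_of_norm_deriv_le
      (fun z hz => (ha1 z hz).differentiableAt) hd1 hz hz'
  have him : ∀ z ∈ box 0 1 s, |(h z).im| ≤ ι + L * |z.im| := by
    intro z hz
    have a1 := lip (z.re : ℂ) ⟨by simpa using hz.1, by simpa using hs.le⟩ z hz
    have a2 := Complex.abs_im_le_norm (h z - h z.re)
    have a3 : ‖z - z.re‖ = |z.im| := by
      rw [← Complex.abs_im_eq_norm.2 (by simp)]; simp
    have a4 : (h z.re).im = (g z.re).im - θ0 := by simp [hh, bi]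
    have a5 := hθ z.re (abs_le.1 (by simpa using hz.1))
    rw [Complex.sub_im] at a2
    rw [a3] at a1
    linarith [abs_sub_abs_le_abs_sub (h z).im (h z.re).im, a4 ▸ a5]
  set Q : E → ℂ := fun y => pp e (V y) * Complex.exp (h y.1) with hQ
  have hQa : ∀ y ∈ ov X (box 0 1 s), AnalyticAt ℂ Q y := fun y hy =>
    ((hV y hy).mul ((hV y hy).sub analyticAt_const)).mul
      (AnalyticAt.fun_comp (f := Prod.fst) (ha1 _ hy.2) analyticAt_fst).cexp
  have hQn : ∀ y, ‖Q y‖ = ‖pp e (V y)‖ * Real.exp (h y.1).re := fun y => by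
    rw [hQ, norm_mul, Complex.norm_exp]
  have hQ0 : ∀ y : E, ‖pp e (V y) * Complex.exp (g y.1)‖ = ‖Q y‖ * Real.exp (b y.1).re := by
    intro y
    rw [hQn, norm_mul, Complex.norm_exp, mul_assoc, ← Real.exp_add, hre, sub_add_cancel]
  have hQle : ∀ y ∈ ov X (box 0 1 s), ‖Q y‖ ≤ ‖pp e (V y) * Complex.exp (g y.1)‖ := by
    intro y hy
    rw [hQ0]; exact le_mul_of_one_le_right (norm_nonneg _) (Real.one_le_exp (hb _ hy.2).2.1)
  have hlev1 : ∀ z ∈ box 0 1 s, lev * Real.exp (h z).re ≤ 1 := by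
    intro z hz
    rcases le_total lev 0 with k | k
    · exact (mul_nonpos_of_nonpos_of_nonneg k (Real.exp_pos _).le).trans zero_le_one
    · refine le_trans (mul_le_mul_of_nonneg_left (Real.exp_le_exp.2 ?_) k) (hlev z hz)
      rw [hre]; linarith [(hb z hz).2.1]
  have hδ : 0 < ι * (3 + L) := by positivity
  have thin := HULL.Z59.thin_im HULL.c2 (B := K ∪ {y | |y.1.re| = 1 ∨ |y.1.im| = s}) hN.cpt
    (fun y hy hb => np_box hN hy (fun a => hb (Or.inl a))
      (lt_of_le_of_ne hy.2.1 fun a => hb (Or.inr (Or.inl (by simpa using a))))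
      (lt_of_le_of_ne hy.2.2 fun a => hb (Or.inr (Or.inr a))))
    (Q := Q) (ζ := Prod.fst) (fun y hy => (hQa y hy).continuousAt.continuousWithinAt)
    (fun y hy _ => hQa y hy) continuous_fst.continuousOn
    (fun y _ _ => analyticAt_fst) hδ i5 (h := s) (t := ι') (by linarith) (fun y hy => hy.2.2)
    (fun y hy hB h1 => by
      have hyK : y ∈ K := by
        by_contra k
        obtain ⟨c1, c2⟩ := hbd y hy k
        rcases hB.resolve_left k with c | c
        · rw [hQ0] at c1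
          have c3 := Real.exp_le_exp.2 ((hb _ hy.2).2.2.1 c)
          nlinarith [Real.exp_pos T]
        · linarith [c2 c, hQle y hy]
      obtain ⟨b1, b2⟩ := hK y hy hyK (h1.trans_le (hQle y hy))
      refine ⟨?_, b1⟩
      have b3 : lev ≤ ‖pp e (V y)‖ := by
        rw [hQn] at h1
        exact le_of_mul_le_mul_right ((hlev1 _ hy.2).trans h1.le) (Real.exp_pos _)
      have b4 := hPW.he _ (abs_le.1 (show |y.1.re| ≤ 1 by simpa using hy.2.1)) y.1.im
        (abs_le.1 (by linarith)) (by rwa [← b2])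
      rw [← b2] at b4
      refine (HULL.Z59.im_mul_exp (im_pp b4)).trans
        (mul_le_mul_of_nonneg_right ?_ (norm_nonneg _))
      linarith [him _ hy.2, mul_le_mul_of_nonneg_left (b1.trans p2) hL0])
    (a := a / 4) (by positivity)
  have ht' : ι' + 2 * (s - ι') * Real.exp (-(a / 4) / (2 * (ι * (3 + L)))) ≤ ι * W := by
    have b1 : Real.exp (-(a / 4) / (2 * (ι * (3 + L)))) ≤ 8 * (ι * (3 + L)) / a := by
      rw [neg_div, Real.exp_neg, inv_le_comm₀ (Real.exp_pos _) (by positivity), inv_div]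
      refine le_trans (le_of_eq ?_) ((le_add_of_nonneg_right zero_le_one).trans
        (Real.add_one_le_exp _))
      field_simp; ring
    have b2 : 2 * (s - ι') * Real.exp (-(a / 4) / (2 * (ι * (3 + L)))) ≤
        2 * s * (8 * (ι * (3 + L)) / a) :=
      mul_le_mul (by linarith) b1 (Real.exp_pos _).le (by positivity)
    have b3 : ι * W = ι + 2 * s * (8 * (ι * (3 + L)) / a) := by rw [hW]; field_simp; ring
    linarith
  have hx0 : |y0.1.re| ≤ 1 / 2 := by simpa using hy.2.1
  have hy0 : y0 ∈ ov X (box 0 1 s) := ⟨hy.1, by simp only [sub_zero]; linarith, hy.2.2⟩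
  have key : ‖Q y0‖ ≤ Real.exp a := by
    by_contra k
    refine hK0 (hZP X K V h e ι' lev Ψ Ψy he hN hV ha1 hd1 (pw_mono hPW (by linarith) le_rfl) hlev1
      (fun y hy a b => hK y hy a (b.trans_le (hQle y hy)))
      (fun y hy a => hf y hy (a.trans_le (hQle y hy))) (fun y hy b3 => ?_) y0 hy (not_le.1 k).le)
    obtain ⟨b4, b5⟩ := thin y hy b3
    have b6 := b5.trans ht'
    refine ⟨by linarith, ?_⟩
    have c1 := HULL.Z59.im_mul_exp (w := -h y.1) b4
    have c2 : Q y * Complex.exp (-h y.1) = pp e (V y) := by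
      rw [hQ, mul_assoc, ← Complex.exp_add]; simp
    rw [c2, Complex.neg_im, abs_neg] at c1
    refine c1.trans (mul_le_mul_of_nonneg_right ?_ (norm_nonneg _))
    linarith [him _ hy.2, mul_le_mul_of_nonneg_left b6 hL0]
  rw [hQ0, Real.exp_add]
  exact mul_le_mul key (Real.exp_le_exp.2 ((hb _ hy0.2).2.2.2 hx0)) (Real.exp_pos _).le
    (Real.exp_pos _).le

end Pool.Agent.Lib.SH
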