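import Pool.Agent.Lib.SH.Blue1
import Pool.Agent.Lib.HULL.Thin
import Pool.Agent.Lib.HULL.LM

open Set Filter Topology Metric

namespace Pool.Agent.Lib.SH

namespace NL0

theorem ss_nonneg (e : ℝ) (v : ℂ) : 0 ≤ ss e v := le_min (norm_nonneg _) (norm_nonneg _)

theorem pw_mono {J : Set ℝ} {e ι t ι' C0 lev : ℝ} {Ψ Ψy : ℝ → ℝ → ℂ} (h : PW J e ι ι' C0 lev Ψ Ψy)
    (ht : ι ≤ t) : PW J e t ι' C0 lev Ψ Ψy := by
  have h0 : 0 < ι := h.pos.trans_le h.le
  refine ⟨h.pos, h.le.trans ht, h.der, fun x hx y hy => ?_, h.hb,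
    fun x hx y hy hl x' h1 h2 => ⟨(h.hd x hx y hy hl x' h1 h2).1, ?_⟩, fun x hx y hy hl => ?_⟩
  · have h1 := h.hc x hx y hy
    have h2 : 0 ≤ (Ψy x y).re := nonneg_of_mul_nonneg_right ((abs_nonneg _).trans h1) h0
    exact h1.trans (mul_le_mul_of_nonneg_right ht h2)
  · refine (h.hd x hx y hy hl x' h1 h2).2.trans ?_
    exact mul_le_mul_of_nonneg_right (mul_le_mul_of_nonneg_right ht (abs_nonneg _)) (ss_nonneg _ _)
  · exact (h.he x hx y hy hl).trans (mul_le_mul_of_nonneg_right ht (ss_nonneg _ _))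

theorem wb_mono {X K : Set E} {Q : E → ℂ} {x0 r ι t C0 Λ lv : ℝ} (h : WB X K Q x0 r ι C0 Λ lv)
    (ht : ι ≤ t) : WB X K Q x0 r t C0 Λ lv := by
  obtain ⟨V, g, e, ι', lev, pw, Ψ, Ψy, h1, h2, h3, h4, h5, h6, h7, h8, h9⟩ := h
  exact ⟨V, g, e, ι', lev, pw, Ψ, Ψy, h1, h2, h3, h4, h5, fun x hx => (h6 x hx).trans ht, h7,
    pw_mono h8 ht, h9⟩

theorem np_mono {X K : Set E} {Ω Ω' : Set ℂ} (h : NP X K Ω) (hc : IsClosed Ω') (hs : Ω' ⊆ Ω) :
    NP X K Ω' := by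
  refine ⟨?_, fun y hy => hy.1, fun y hy => h.np y ⟨hy.1, hs hy.2⟩⟩
  have e : ov X Ω' = ov X Ω ∩ Prod.fst ⁻¹' Ω' :=
    Set.ext fun y => ⟨fun hy => ⟨⟨hy.1, hs hy.2⟩, hy.2⟩, fun hy => ⟨hy.1.1, hy.2⟩⟩
  rw [e]
  exact h.cpt.inter_right (hc.preimage continuous_fst)

theorem isClosed_box (x0 r s : ℝ) : IsClosed (box x0 r s) :=
  (isClosed_le (f := fun z : ℂ => |z.re - x0|) (g := fun _ => r) (by fun_prop)
    continuous_const).inter
    (isClosed_le (f := fun z : ℂ => |z.im|) (g := fun _ => s) (by fun_prop) continuous_const)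

theorem box_sub {x0 r s R : ℝ} (h : |x0| + r + s ≤ R) : box x0 r s ⊆ closedBall 0 R := by
  intro z hz
  rw [mem_closedBall_zero_iff]
  have h1 := Complex.norm_le_abs_re_add_abs_im z
  have h2 := abs_sub_abs_le_abs_sub z.re x0
  linarith [hz.1, hz.2]

theorem noPeak_ball {X K : Set E} {R : ℝ} (h : NP X K (closedBall 0 R)) :
    ∀ y ∈ ov X (closedBall 0 R), y ∉ K ∪ {x | ‖x.1‖ = R} →
      HULL.NoPeak (ov X (closedBall 0 R)) y := by
  intro y hy hn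
  have h1 : HULL.NoPeak X y := fun G hG hp => h.np y hy (fun a => hn (Or.inl a)) ⟨G, hG, hp⟩
  have h2 : ‖y.1‖ < R :=
    lt_of_le_of_ne (mem_closedBall_zero_iff.1 hy.2) fun a => hn (Or.inr a)
  refine h1.mono ?_
  filter_upwards [continuous_fst.norm.continuousAt.eventually_lt continuousAt_const h2] with x a hx
  exact ⟨hx, mem_closedBall_zero_iff.2 a.le⟩

end NL0

open NL0 in
theorem st_nl0 (hZ : St_ZPB) : St_NL0 := by
  intro C0 Λ
  obtain ⟨t, t0, ht⟩ := hZ 1 C0 Λ one_pos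
  obtain ⟨ι, i0, i1, hι⟩ := HULL.thin1 (t := min t 1 / 8) (H := 1) (a := 1 / 4) (by positivity)
    one_pos (by norm_num)
  have m1 := min_le_left t 1
  have m2 := min_le_right t 1
  refine ⟨ι, i0, fun X K Q O hO hN hQ hK hW hb y hy hyK => ?_⟩
  have key := hι E (Fin 2) HULL.c2 _ _ Prod.fst Q O hO hN.cpt (noPeak_ball hN)
    continuous_fst.continuousOn hQ.continuousOn (fun x hx _ => ⟨analyticAt_fst, hQ x hx⟩)
    (fun x hx => (Complex.abs_im_le_norm _).trans (mem_closedBall_zero_iff.1 hx.2))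
    (fun x hx hB h => by
      by_cases hxK : x ∈ K
      · exact hK x hx hxK h
      · have h1 : ‖x.1‖ = 1 := hB.resolve_left hxK
        exact absurd (hb x hx.1 hxK (by linarith) h1.le) (not_le.2 h))
  by_contra hc
  rw [not_le] at hc
  have hy1 : ‖y.1‖ ≤ 1 / 2 := mem_closedBall_zero_iff.1 hy.2
  have hre : |y.1.re| ≤ 1 / 2 := (Complex.abs_re_le_norm _).trans hy1
  have hsub : box y.1.re (1 / 8) (1 / 8) ⊆ closedBall 0 1 := box_sub (by linarith)
  have e1 : Real.exp (1 / 4) ≤ Real.exp 1 := Real.exp_le_exp.2 (by norm_num)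
  have h1 := key y ⟨hy.1, mem_closedBall_zero_iff.2 (by linarith)⟩ (by nlinarith)
  refine hyK (ht X K Q y.1.re (1 / 8) O O (by norm_num) hO.le le_rfl hO
    (np_mono hN (isClosed_box _ _ _) hsub) (wb_mono (hW _ (by linarith)) (by linarith))
    (fun x hx h => ?_) y ⟨hy.1, by norm_num, by linarith [h1.1]⟩ (by linarith))
  obtain ⟨a1, a2⟩ := key x ⟨hx.1, hsub hx.2⟩ h
  exact ⟨by linarith, a2.trans (mul_le_mul_of_nonneg_right (by linarith) (norm_nonneg _))⟩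

end Pool.Agent.Lib.SH
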