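import Pool.Agent.Lib.SH.Blue1b
import Pool.Agent.Lib.SH.B_NL0

open Set Filter Topology Metric

namespace Pool.Agent.Lib.SH

namespace NWB

open NL0

theorem isCompact_box (x0 r s : ℝ) : IsCompact (box x0 r s) :=
  (isCompact_closedBall (0 : ℂ) (|x0| + r + s)).of_isClosed_subset (isClosed_box _ _ _)
    (box_sub le_rfl)

theorem box_mono {x0 r s r' s' : ℝ} (h1 : r ≤ r') (h2 : s ≤ s') : box x0 r s ⊆ box x0 r' s' :=
  fun _ hz => ⟨hz.1.trans h1, hz.2.trans h2⟩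

/-- the affine chart of a box -/
def aff (x0 r : ℝ) (z : ℂ) : ℂ := x0 + r * z

theorem aff_re (x0 r : ℝ) (z : ℂ) : (aff x0 r z).re = x0 + r * z.re := by simp [aff]

theorem aff_im (x0 r : ℝ) (z : ℂ) : (aff x0 r z).im = r * z.im := by simp [aff]

theorem aff_mem {x0 r : ℝ} (hr : 0 < r) {s s' : ℝ} {z : ℂ} :
    aff x0 r z ∈ box x0 (s * r) (s' * r) ↔ z ∈ box 0 s s' := by
  simp only [box, mem_ofPred_eq, aff_re, aff_im, add_sub_cancel_left, sub_zero, abs_mul,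
    abs_of_pos hr]
  rw [mul_comm s r, mul_comm s' r, mul_le_mul_iff_right₀ hr, mul_le_mul_iff_right₀ hr]

theorem aff_inv {x0 r : ℝ} (hr : 0 < r) (z : ℂ) : (aff x0 r z - x0) / r = z := by
  have : (r : ℂ) ≠ 0 := by exact_mod_cast hr.ne'
  rw [aff]; field_simp; ring

theorem aff_surj {x0 r : ℝ} (hr : 0 < r) (y : E) : ∃ x : E, bc (aff x0 r) x = y := by
  have : (r : ℂ) ≠ 0 := by exact_mod_cast hr.ne'
  refine ⟨((y.1 - x0) / r, y.2), Prod.ext ?_ rfl⟩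
  show (x0 : ℂ) + r * ((y.1 - x0) / r) = y.1
  field_simp; ring

theorem an_aff (x0 r : ℝ) (z : ℂ) : AnalyticAt ℂ (aff x0 r) z :=
  analyticAt_const.add (analyticAt_const.mul analyticAt_id)

theorem an_bc (x0 r : ℝ) (y : E) : AnalyticAt ℂ (bc (aff x0 r)) y :=
  (analyticAt_const.add (analyticAt_const.mul analyticAt_fst)).prod analyticAt_snd

theorem np_pull (hP : St_PULL) {X K : Set E} {x0 r σ : ℝ} (hr : 0 < r) (hσ : σ ≤ 1)
    (h : NP X K (box x0 r r)) :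
    NP (bc (aff x0 r) ⁻¹' X) (bc (aff x0 r) ⁻¹' K) (box 0 1 σ) := by
  refine hP X K _ _ _ h (isCompact_box _ _ _) fun z hz => ⟨an_aff _ _ _, ?_, ?_⟩
  · have : HasDerivAt (aff x0 r) (r * 1) z := ((hasDerivAt_id z).const_mul (r : ℂ)).const_add _
    rw [this.deriv, mul_one]; exact_mod_cast hr.ne'
  · have := (aff_mem (x0 := x0) hr).2 (box_mono le_rfl hσ hz)
    rwa [one_mul] at this

/-- normalised data of a wall box -/
theorem data {X K : Set E} {Q : E → ℂ} {x0 r ι C0 Λ lv l σ : ℝ} (hr : 0 < r) (hσ : σ ≤ 1)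
    (h : WB X K Q x0 r ι C0 Λ lv) (h0 : 0 ≤ lv) (h1 : lv ≤ l) (hl : 0 < l) :
    ∃ (V : E → ℂ) (g : ℂ → ℂ) (e ι' lev : ℝ) (pw : ℕ) (Ψ Ψy : ℝ → ℝ → ℂ), (pw = 1 ∨ pw = 2) ∧
      0 ≤ e ∧ AnalyticOnNhd ℂ V (ov (bc (aff x0 r) ⁻¹' X) (box 0 1 σ)) ∧
      AnalyticOnNhd ℂ g (box 0 1 σ) ∧ (∀ ξ ∈ box 0 1 σ, ‖deriv g ξ‖ ≤ Λ) ∧
      (∀ x ∈ Icc (-1 : ℝ) 1, |(g x).im - 0| ≤ ι) ∧ PW (Icc (-1) 1) e ι ι' C0 lev Ψ Ψy ∧
      (∀ ξ ∈ box 0 1 σ, lev * Real.exp (g ξ).re ≤ 1) ∧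
      (∀ y ∈ ov (bc (aff x0 r) ⁻¹' X) (box 0 1 σ), y ∈ bc (aff x0 r) ⁻¹' K →
        1 < ‖pp e (V y) * Complex.exp (g y.1)‖ → |y.1.im| ≤ ι' ∧ V y = Ψ y.1.re y.1.im) ∧
      (∀ y ∈ ov (bc (aff x0 r) ⁻¹' X) (box 0 1 σ), 1 < ‖pp e (V y) * Complex.exp (g y.1)‖ →
        |y.1.im| ≤ 2 * ι' → V y = Ψ y.1.re y.1.im → y ∈ bc (aff x0 r) ⁻¹' K) ∧
      ∀ y : E, y.1 ∈ box 0 1 σ →
        pp e (V y) * Complex.exp (g y.1) = (Q (bc (aff x0 r) y) / l) ^ pw := by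
  obtain ⟨V, g, e, ι', lev, pw, Ψ, Ψy, a1, a2, a3, a4, a5, a6, a7, a8, a9, a10, a11⟩ := h
  have hb : ∀ z ∈ box 0 1 σ, z ∈ box 0 1 1 := box_mono le_rfl hσ
  have hm : ∀ y : E, y.1 ∈ box 0 1 σ → (bc (aff x0 r) y).1 ∈ box x0 r r := fun y hy => by
    have := (aff_mem (x0 := x0) hr).2 (hb _ hy)
    rwa [one_mul] at this
  have hlp : 0 < l ^ pw := pow_pos hl _
  have hex : Complex.exp (-(Real.log (l ^ pw) : ℝ)) = ((l : ℂ) ^ pw)⁻¹ := by
    rw [Complex.exp_neg, ← Complex.ofReal_exp, Real.exp_log hlp]; push_cast; rfl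
  have hQ : ∀ y : E, y.1 ∈ box 0 1 σ → pp e (V (bc (aff x0 r) y)) *
      Complex.exp (g y.1 - (Real.log (l ^ pw) : ℝ)) = (Q (bc (aff x0 r) y) / l) ^ pw := by
    intro y hy
    have := a7 _ (hm y hy)
    rw [show (bc (aff x0 r) y).1 = aff x0 r y.1 from rfl, aff_inv hr] at this
    rw [div_pow, this, sub_eq_add_neg, Complex.exp_add, hex]; ring
  have hlt : ∀ y : E, y.1 ∈ box 0 1 σ → 1 < ‖pp e (V (bc (aff x0 r) y)) *
      Complex.exp (g y.1 - (Real.log (l ^ pw) : ℝ))‖ → lv < ‖Q (bc (aff x0 r) y)‖ := by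
    intro y hy h
    rw [hQ y hy, norm_pow, norm_div, Complex.norm_real, Real.norm_eq_abs, abs_of_pos hl] at h
    by_contra hc
    have : ‖Q (bc (aff x0 r) y)‖ / l ≤ 1 := (div_le_one hl).2 (by linarith [not_lt.1 hc])
    exact absurd (pow_le_one₀ (by positivity) this) (not_le.2 h)
  have c1 : ∀ y : E, (bc (aff x0 r) y).1.im / r = y.1.im := fun y => by
    rw [show (bc (aff x0 r) y).1 = aff x0 r y.1 from rfl, aff_im]; field_simp
  have c2 : ∀ y : E, ((bc (aff x0 r) y).1.re - x0) / r = y.1.re := fun y => by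
    rw [show (bc (aff x0 r) y).1 = aff x0 r y.1 from rfl, aff_re]; field_simp; ring
  refine ⟨fun y => V (bc (aff x0 r) y), fun z => g z - (Real.log (l ^ pw) : ℝ), e, ι', lev, pw, Ψ,
    Ψy, a1, a2, fun y hy => (a3 _ ⟨hy.1, hm y hy.2⟩).comp (an_bc _ _ _),
    fun z hz => (a4 z (hb z hz)).sub analyticAt_const, fun z hz => ?_, fun x hx => ?_, a8,
    fun z hz => ?_, fun y hy hK h => ?_, fun y hy h h2 h3 => ?_, hQ⟩
  · rw [deriv_sub_const]; exact a5 z (hb z hz)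
  · simpa using a6 x hx
  · rw [Complex.sub_re, Complex.ofReal_re, Real.exp_sub, Real.exp_log hlp, ← mul_div_assoc,
      div_le_one hlp]
    exact (a9 z (hb z hz)).trans (pow_le_pow_left₀ h0 h1 _)
  · have := a10 _ ⟨hy.1, hm y hy.2⟩ hK (hlt y hy.2 h)
    rwa [c1, c2] at this
  · refine a11 _ ⟨hy.1, hm y hy.2⟩ (hlt y hy.2 h) ?_ ?_
    · rwa [c1]
    · rwa [c1, c2]

theorem im_g {g : ℂ → ℂ} {Λ ι : ℝ} (h1 : AnalyticOnNhd ℂ g (box 0 1 1))
    (h2 : ∀ ξ ∈ box 0 1 1, ‖deriv g ξ‖ ≤ Λ) (h3 : ∀ x ∈ Icc (-1 : ℝ) 1, |(g x).im - 0| ≤ ι)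
    {z : ℂ} (hz : z ∈ box 0 1 1) : |(g z).im| ≤ ι + Λ * |z.im| := by
  have hc : Convex ℝ (box 0 1 1) := by
    have e : box 0 1 1 = {z : ℂ | -1 ≤ z.re} ∩ {z : ℂ | z.re ≤ 1} ∩
        ({z : ℂ | -1 ≤ z.im} ∩ {z : ℂ | z.im ≤ 1}) := by
      ext z; simp [box, abs_le]
    rw [e]
    exact ((convex_halfSpace_re_ge _).inter (convex_halfSpace_re_le _)).inter
      ((convex_halfSpace_im_ge _).inter (convex_halfSpace_im_le _))
  have hx : (z.re : ℂ) ∈ box 0 1 1 := ⟨by simpa using hz.1, by simp⟩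
  have key := hc.norm_image_sub_le_of_norm_deriv_le (𝕜 := ℂ)
    (fun x hx => (h1 x hx).differentiableAt) h2 hx hz
  have e1 : ‖z - (z.re : ℂ)‖ = |z.im| := by
    rw [show z - (z.re : ℂ) = (z.im : ℂ) * Complex.I by
      apply Complex.ext <;> simp]
    simp
  have e2 := Complex.abs_im_le_norm (g z - g z.re)
  have e3 := h3 z.re (abs_le.1 (by simpa using hz.1))
  rw [Complex.sub_im] at e2
  rw [sub_zero] at e3
  rw [e1] at key
  linarith [abs_sub_abs_le_abs_sub (g z).im (g z.re).im]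

theorem im_mul_le {u v : ℂ} {a b : ℝ} (h1 : |u.im| ≤ a * ‖u‖) (h2 : |v.im| ≤ b * ‖v‖) :
    |(u * v).im| ≤ (a + b) * ‖u * v‖ := by
  rw [Complex.mul_im, norm_mul]
  have e1 := abs_add_le (u.re * v.im) (u.im * v.re)
  rw [abs_mul, abs_mul] at e1
  have e2 := mul_le_mul (Complex.abs_re_le_norm u) h2 (abs_nonneg _) (norm_nonneg _)
  have e3 := mul_le_mul h1 (Complex.abs_re_le_norm v) (abs_nonneg _) ((abs_nonneg _).trans h1)
  nlinarith

theorem im_exp_le (w : ℂ) : |(Complex.exp w).im| ≤ |w.im| * ‖Complex.exp w‖ := by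
  rw [Complex.exp_im, Complex.norm_exp, abs_mul, abs_of_pos (Real.exp_pos _), mul_comm]
  exact mul_le_mul_of_nonneg_right Real.abs_sin_le_abs (Real.exp_pos _).le

theorem norm_div_pow {l : ℝ} (hl : 0 < l) (w : ℂ) (n : ℕ) : ‖(w / l) ^ n‖ = (‖w‖ / l) ^ n := by
  rw [norm_pow, norm_div, Complex.norm_real, Real.norm_eq_abs, abs_of_pos hl]

end NWB

open NL0 NWB in
theorem st_zpb (hZ : St_ZP) (hP : St_PULL) : St_ZPB := by
  intro a C0 Λ ha
  obtain ⟨t1, p1, q1⟩ := hZ (1 * a) Λ C0 1 (by linarith) one_pos le_rfl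
  obtain ⟨t2, p2, q2⟩ := hZ (2 * a) Λ C0 1 (by linarith) one_pos le_rfl
  have hΛ := abs_nonneg Λ
  set t := min t1 t2 / (3 + |Λ|) with ht
  have t0 : 0 < t := by positivity
  have tm : t * (3 + |Λ|) = min t1 t2 := by rw [ht]; field_simp
  refine ⟨t, t0, fun X K Q x0 r lv lv' hr h0 h1 hl hN hW hth y hy hQ => ?_⟩
  obtain ⟨V, g, e, ι', lev, pw, Ψ, Ψy, a1, a2, a3, a4, a5, a6, a7, a8, a9, a10, a11⟩ :=
    data hr le_rfl hW h0 h1 hl
  obtain ⟨x, rfl⟩ := aff_surj (x0 := x0) hr y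
  have hx : x.1 ∈ box 0 (1 / 2) 1 := by
    rw [← aff_mem (x0 := x0) hr, one_mul, show 1 / 2 * r = r / 2 by ring]; exact hy.2
  have hpw : pw ≠ 0 := by rcases a1 with h | h <;> omega
  have hiff : ∀ (w : ℂ) (s : ℝ), Real.exp (pw * s) ≤ ‖(w / lv) ^ pw‖ ↔ lv * Real.exp s ≤ ‖w‖ := by
    intro w s
    rw [norm_div_pow hl, Real.exp_nat_mul, pow_le_pow_iff_left₀ (Real.exp_pos _).le
      (by positivity) hpw, le_div_iff₀ hl, mul_comm]
  have hthin : ∀ t' : ℝ, min t1 t2 ≤ t' → ∀ y ∈ ov (bc (aff x0 r) ⁻¹' X) (box 0 1 1),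
      Real.exp (pw * a / 4) ≤ ‖pp e (V y) * Complex.exp (g y.1)‖ →
      |y.1.im| ≤ t' ∧ |(pp e (V y)).im| ≤ t' * ‖pp e (V y)‖ := by
    intro t' ht' z hz h
    rw [a11 z hz.2, mul_div_assoc, hiff] at h
    have hm := (aff_mem (x0 := x0) hr).2 hz.2
    rw [one_mul] at hm
    obtain ⟨b1, b2⟩ := hth _ ⟨hz.1, hm⟩ h
    rw [show (bc (aff x0 r) z).1 = aff x0 r z.1 from rfl, aff_im, abs_mul, abs_of_pos hr,
      mul_comm t r, mul_le_mul_iff_right₀ hr] at b1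
    refine ⟨by nlinarith, ?_⟩
    set w := Q (bc (aff x0 r) z)
    have b3 : |(w / lv).im| ≤ t * ‖w / lv‖ := by
      rw [Complex.div_ofReal_im, norm_div, Complex.norm_real, Real.norm_eq_abs, abs_div,
        abs_of_pos hl, ← mul_div_assoc]
      exact div_le_div_of_nonneg_right b2 hl.le
    have b4 : |((w / lv) ^ pw).im| ≤ (t + t) * ‖(w / lv) ^ pw‖ := by
      rcases a1 with rfl | rfl
      · rw [pow_one]; nlinarith [norm_nonneg (w / lv)]
      · rw [sq]; exact im_mul_le b3 b3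
    have b5 := im_g a4 a5 a6 hz.2
    have b6 := im_mul_le b4 (im_exp_le (-g z.1))
    have b7 : (w / lv) ^ pw * Complex.exp (-g z.1) = pp e (V z) := by
      rw [← a11 z hz.2, mul_assoc, ← Complex.exp_add, add_neg_cancel, Complex.exp_zero, mul_one]
    rw [b7, Complex.neg_im, abs_neg] at b6
    refine b6.trans (mul_le_mul_of_nonneg_right ?_ (norm_nonneg _))
    have b8 : Λ * |z.1.im| ≤ |Λ| * t :=
      mul_le_mul (le_abs_self Λ) b1 (abs_nonneg _) hΛ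
    nlinarith
  have hle : t ≤ min t1 t2 := by nlinarith
  have hfin : Real.exp (pw * a) ≤ ‖pp e (V x) * Complex.exp (g x.1)‖ := by
    rw [a11 x (box_mono (by norm_num) le_rfl hx), hiff]; exact hQ
  rcases a1 with rfl | rfl
  · exact q1 _ _ V g e ι' lev Ψ Ψy a2 (np_pull hP hr le_rfl hN) a3 a4 a5
      (pw_mono a7 (hle.trans (min_le_left _ _))) a8 a9 a10
      (by simpa using hthin t1 (min_le_left _ _)) x ⟨hy.1, hx⟩ (by simpa using hfin)
  · exact q2 _ _ V g e ι' lev Ψ Ψy a2 (np_pull hP hr le_rfl hN) a3 a4 a5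
      (pw_mono a7 (hle.trans (min_le_right _ _))) a8 a9 a10
      (by simpa using hthin t2 (min_le_right _ _)) x ⟨hy.1, hx⟩ (by simpa using hfin)

open NL0 NWB in
theorem st_nwb (hW : St_NW) (hP : St_PULL) : St_NWB := by
  intro K0 hK0
  have l0 : 0 < Real.log K0 := Real.log_pos hK0
  have l2 : 0 < Real.log 2 := Real.log_pos one_lt_two
  obtain ⟨σ0, s0, s1, hσ⟩ := hW (Real.log 2 / (4 * Real.log K0)) (by positivity)
  refine ⟨σ0, s0, s1, fun σ C0 Λ h0 h1 => ?_⟩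
  obtain ⟨ι, i0, hι⟩ := hσ σ (2 * Real.log K0) (Real.log 2 / 2) Λ C0 h0 h1 (by positivity)
    (by positivity)
  refine ⟨ι, i0, fun X K Q x0 r lv hr hN hWB hlv hbot hlev B b hB hb y hy => ?_⟩
  have hσ1 : σ ≤ 1 := h1.trans s1
  have hB0 : 0 ≤ B := (norm_nonneg _).trans (hB y ⟨hy.1, box_mono (by linarith) le_rfl hy.2⟩)
  have m1 := le_max_left b (B / K0)
  have m2 := le_max_right b (B / K0)
  have m0 : 0 ≤ B / K0 := by positivity
  set m := max b (B / K0)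
  have main : ∀ l : ℝ, 16 * m < l → ‖Q y‖ ≤ 2 * l := by
    intro l hl
    have hl0 : 0 < l := by linarith
    have hlv' : lv ≤ l := by
      rcases hlev with h | ⟨z, hz, hzK, h2, h3⟩
      · linarith
      · linarith [hb z ⟨⟨hz.1, hzK⟩, hz.2⟩ h2]
    obtain ⟨V, g, e, ι', lev, pw, Ψ, Ψy, a1, a2, a3, a4, a5, a6, a7, a8, a9, a10, a11⟩ :=
      data hr hσ1 hWB hlv hlv' hl0
    obtain ⟨x, rfl⟩ := aff_surj (x0 := x0) hr y
    have hx : x.1 ∈ box 0 (1 / 2) σ := by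
      rw [← aff_mem (x0 := x0) hr, show 1 / 2 * r = r / 2 by ring]; exact hy.2
    have key := hι _ _ V g e ι' lev 0 Ψ Ψy a2 (np_pull hP hr hσ1 hN) a3 a4 a5 a6 a7 a8 a9 a10
      (fun z hz hzK => by
        have hm := (aff_mem (x0 := x0) hr).2 hz.2
        rw [one_mul] at hm
        rw [a11 z hz.2, norm_div_pow hl0]
        have b0 : 0 ≤ ‖Q (bc (aff x0 r) z)‖ / l := by positivity
        constructor
        · have b1 : ‖Q (bc (aff x0 r) z)‖ / l ≤ K0 := by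
            rw [div_le_iff₀ hl0]
            rw [div_le_iff₀ (by linarith)] at m2
            nlinarith [hB _ ⟨⟨hz.1, hzK⟩, hm⟩]
          rw [show 2 * Real.log K0 = (2 : ℕ) * Real.log K0 by norm_num, Real.exp_nat_mul,
            Real.exp_log (by linarith)]
          rcases a1 with rfl | rfl <;> nlinarith
        · intro h2
          have b1 := hbot _ ⟨hz.1, box_mono le_rfl (by nlinarith) hm⟩ hzK
          rw [show (bc (aff x0 r) z).1 = aff x0 r z.1 from rfl, aff_im] at b1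
          have b2 : z.1.im = σ := by
            rcases abs_eq h0.le |>.1 h2 with h3 | h3
            · exact h3
            · rw [h3] at b1; linarith
          have b3 := hb _ ⟨⟨hz.1, hzK⟩, hm⟩ (by
            rw [show (bc (aff x0 r) z).1 = aff x0 r z.1 from rfl, aff_im, b2, mul_comm])
          exact pow_le_one₀ b0 ((div_le_one hl0).2 (by linarith)))
      x ⟨hy.1.1, hx⟩ hy.1.2
    rw [a11 x (box_mono (by norm_num) le_rfl hx), norm_div_pow hl0,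
      show Real.log 2 / 2 + Real.log 2 / (4 * Real.log K0) * (2 * Real.log K0) = Real.log 2 by
        field_simp; ring, Real.exp_log two_pos] at key
    have b0 : 0 ≤ ‖Q (bc (aff x0 r) x)‖ / l := by positivity
    rw [← div_le_iff₀ hl0]
    rcases a1 with rfl | rfl <;> nlinarith
  refine le_of_forall_pos_le_add fun δ hδ => ?_
  linarith [main (16 * m + δ / 2) (by linarith)]

end Pool.Agent.Lib.SH
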