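import Pool.Agent.Lib.SH.B_AR

/-! Basic API for polynomial functions, local real parts, submean functions, boxes and walls. -/

open Set Filter Topology Metric

noncomputable section

namespace Pool.Agent.Lib.SH

/-! ### polynomial functions -/

namespace IsPoly

variable {p q : E → ℂ}

theorem const (c : ℂ) : IsPoly fun _ => c := ⟨MvPolynomial.C c, fun _ => by simp⟩

theorem fst : IsPoly fun x => x.1 := ⟨MvPolynomial.X 0, fun _ => by simp⟩

theorem snd : IsPoly fun x => x.2 := ⟨MvPolynomial.X 1, fun _ => by simp⟩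

theorem congr (hp : IsPoly p) (h : ∀ x, q x = p x) : IsPoly q := by
  rwa [show q = p from funext h]

theorem add (hp : IsPoly p) (hq : IsPoly q) : IsPoly fun x => p x + q x := by
  obtain ⟨a, ha⟩ := hp
  obtain ⟨b, hb⟩ := hq
  exact ⟨a + b, fun x => by rw [map_add, ← ha, ← hb]⟩

theorem mul (hp : IsPoly p) (hq : IsPoly q) : IsPoly fun x => p x * q x := by
  obtain ⟨a, ha⟩ := hp
  obtain ⟨b, hb⟩ := hq
  exact ⟨a * b, fun x => by rw [map_mul, ← ha, ← hb]⟩

theorem neg (hp : IsPoly p) : IsPoly fun x => -p x := by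
  obtain ⟨a, ha⟩ := hp
  exact ⟨-a, fun x => by rw [map_neg, ← ha]⟩

theorem sub (hp : IsPoly p) (hq : IsPoly q) : IsPoly fun x => p x - q x :=
  (hp.add hq.neg).congr fun _ => sub_eq_add_neg _ _

theorem const_mul (hp : IsPoly p) (c : ℂ) : IsPoly fun x => c * p x := (const c).mul hp

theorem div_const (hp : IsPoly p) (c : ℂ) : IsPoly fun x => p x / c :=
  (hp.mul (const c⁻¹)).congr fun _ => div_eq_mul_inv _ _

theorem pow (hp : IsPoly p) (n : ℕ) : IsPoly fun x => p x ^ n := by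
  obtain ⟨a, ha⟩ := hp
  exact ⟨a ^ n, fun x => by rw [map_pow, ← ha]⟩

theorem sum {ι : Type*} (s : Finset ι) {f : ι → E → ℂ} (h : ∀ i ∈ s, IsPoly (f i)) :
    IsPoly fun x => ∑ i ∈ s, f i x := by
  classical
  induction s using Finset.induction_on with
  | empty => exact (const 0).congr fun _ => Finset.sum_empty
  | insert i s hi ih =>
    exact ((h i (Finset.mem_insert_self _ _)).add
      (ih fun j hj => h j (Finset.mem_insert_of_mem hj))).congr fun _ => Finset.sum_insert hi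

theorem prod {ι : Type*} (s : Finset ι) {f : ι → E → ℂ} (h : ∀ i ∈ s, IsPoly (f i)) :
    IsPoly fun x => ∏ i ∈ s, f i x := by
  classical
  induction s using Finset.induction_on with
  | empty => exact (const 1).congr fun _ => Finset.prod_empty
  | insert i s hi ih =>
    exact ((h i (Finset.mem_insert_self _ _)).mul
      (ih fun j hj => h j (Finset.mem_insert_of_mem hj))).congr fun _ => Finset.prod_insert hi

/-- induction principle -/
theorem induction {M : (E → ℂ) → Prop} (hc : ∀ c : ℂ, M fun _ => c)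
    (ha : ∀ p q, IsPoly p → IsPoly q → M p → M q → M fun x => p x + q x)
    (h1 : ∀ p, IsPoly p → M p → M fun x => p x * x.1) (h2 : ∀ p, IsPoly p → M p → M fun x => p x * x.2)
    (hp : IsPoly p) : M p := by
  obtain ⟨a, ha'⟩ := hp
  rw [show p = fun x : E => MvPolynomial.eval ![x.1, x.2] a from funext ha']
  clear ha'
  induction a using MvPolynomial.induction_on with
  | C c => simpa using hc c
  | add a b iha ihb => simpa using ha _ _ ⟨a, fun _ => rfl⟩ ⟨b, fun _ => rfl⟩ iha ihb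
  | mul_X a i ih =>
    fin_cases i
    · simpa using h1 _ ⟨a, fun _ => rfl⟩ ih
    · simpa using h2 _ ⟨a, fun _ => rfl⟩ ih

theorem analyticAt (hp : IsPoly p) (x : E) : AnalyticAt ℂ p x :=
  hp.induction (M := fun p => AnalyticAt ℂ p x) (fun _ => analyticAt_const) (fun _ _ _ _ a b => a.add b)
    (fun _ _ a => a.mul analyticAt_fst) (fun _ _ a => a.mul analyticAt_snd)

theorem analyticOnNhd (hp : IsPoly p) (s : Set E) : AnalyticOnNhd ℂ p s := fun x _ => hp.analyticAt x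

theorem differentiable (hp : IsPoly p) : Differentiable ℂ p := fun x => (hp.analyticAt x).differentiableAt

theorem continuous (hp : IsPoly p) : Continuous p := hp.differentiable.continuous

theorem comp (hp : IsPoly p) {a b : E → ℂ} (ha : IsPoly a) (hb : IsPoly b) : IsPoly fun x => p (a x, b x) :=
  hp.induction (M := fun p => IsPoly fun x => p (a x, b x)) (fun c => const c) (fun _ _ _ _ u v => u.add v)
    (fun _ _ u => u.mul ha) (fun _ _ u => u.mul hb)

theorem eval (hp : IsPoly p) (r : Polynomial ℂ) : IsPoly fun x => r.eval (p x) :=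
  (sum (Finset.range (r.natDegree + 1)) fun i _ => (hp.pow i).const_mul (r.coeff i)).congr fun _ =>
    Polynomial.eval_eq_sum_range _

theorem of_fst (r : Polynomial ℂ) : IsPoly fun x => r.eval x.1 := fst.eval r

theorem of_snd (r : Polynomial ℂ) : IsPoly fun x => r.eval x.2 := snd.eval r

/-- restriction to a vertical line is a polynomial -/
theorem slice_snd (hp : IsPoly p) (b : ℂ) : ∃ r : Polynomial ℂ, ∀ w, p (b, w) = r.eval w :=
  hp.induction (M := fun p => ∃ r : Polynomial ℂ, ∀ w, p (b, w) = r.eval w)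
    (fun c => ⟨Polynomial.C c, fun _ => by simp⟩)
    (fun _ _ _ _ ⟨r, hr⟩ ⟨s, hs⟩ => ⟨r + s, fun w => by simp [hr, hs]⟩)
    (fun _ _ ⟨r, hr⟩ => ⟨r * Polynomial.C b, fun w => by simp [hr]⟩)
    (fun _ _ ⟨r, hr⟩ => ⟨r * Polynomial.X, fun w => by simp [hr]⟩)

/-- restriction to a horizontal line is a polynomial -/
theorem slice_fst (hp : IsPoly p) (b : ℂ) : ∃ r : Polynomial ℂ, ∀ z, p (z, b) = r.eval z :=
  (hp.comp snd fst).slice_snd b

theorem exists_div_fst (hp : IsPoly p) (b : ℂ) :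
    ∃ q, IsPoly q ∧ ∀ x : E, p x = p (b, x.2) + (x.1 - b) * q x :=
  hp.induction (M := fun p => ∃ q, IsPoly q ∧ ∀ x : E, p x = p (b, x.2) + (x.1 - b) * q x)
    (fun _ => ⟨fun _ => 0, const 0, fun _ => by simp⟩)
    (fun _ _ _ _ ⟨r, h1, hr⟩ ⟨s, h2, hs⟩ => ⟨_, h1.add h2, fun x => by
      simp only
      linear_combination hr x + hs x⟩)
    (fun p h0 ⟨r, h1, hr⟩ => ⟨_, h0.add (h1.const_mul b), fun x => by
      simp only
      linear_combination b * hr x⟩)
    (fun _ _ ⟨r, h1, hr⟩ => ⟨_, h1.mul snd, fun x => by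
      simp only
      linear_combination x.2 * hr x⟩)

theorem exists_div_snd (hp : IsPoly p) (b : ℂ) :
    ∃ q, IsPoly q ∧ ∀ x : E, p x = p (x.1, b) + (x.2 - b) * q x := by
  obtain ⟨q, h1, h2⟩ := (hp.comp snd fst).exists_div_fst b
  exact ⟨_, h1.comp snd fst, fun x => h2 (x.2, x.1)⟩

theorem div_fst (hp : IsPoly p) {b : ℂ} (h : ∀ w, p (b, w) = 0) :
    ∃ q, IsPoly q ∧ ∀ x : E, p x = (x.1 - b) * q x := by
  obtain ⟨q, h1, h2⟩ := hp.exists_div_fst b
  exact ⟨q, h1, fun x => by rw [h2, h, zero_add]⟩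

theorem div_snd (hp : IsPoly p) {b : ℂ} (h : ∀ z, p (z, b) = 0) :
    ∃ q, IsPoly q ∧ ∀ x : E, p x = (x.2 - b) * q x := by
  obtain ⟨q, h1, h2⟩ := hp.exists_div_snd b
  exact ⟨q, h1, fun x => by rw [h2, h, zero_add]⟩

theorem hasDerivAt_dw (hp : IsPoly p) (x : E) : HasDerivAt (fun w => p (x.1, w)) (SH.dw p x) x.2 :=
  ((hp.differentiable _).comp x.2 (by fun_prop : DifferentiableAt ℂ (fun w : ℂ => (x.1, w)) x.2)).hasDerivAt

theorem dw (hp : IsPoly p) : IsPoly (SH.dw p) := by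
  obtain ⟨q, h1, h2⟩ := hp.induction
    (M := fun p => ∃ q, IsPoly q ∧ ∀ x : E, HasDerivAt (fun w => p (x.1, w)) (q x) x.2)
    (fun c => ⟨fun _ => 0, const 0, fun x => hasDerivAt_const _ _⟩)
    (fun _ _ _ _ ⟨r, h1, hr⟩ ⟨s, h2, hs⟩ => ⟨_, h1.add h2, fun x => (hr x).add (hs x)⟩)
    (fun p _ ⟨r, h1, hr⟩ => ⟨_, h1.mul fst, fun x => (hr x).mul_const x.1⟩)
    (fun p h0 ⟨r, h1, hr⟩ => ⟨_, (h1.mul snd).add h0, fun x => by
      simpa using (hr x).fun_mul (hasDerivAt_id' x.2)⟩)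
  exact h1.congr fun x => (h2 x).deriv

end IsPoly

/-! ### local real parts -/

theorem an_bc {a : ℂ → ℂ} {y : E} (h : AnalyticAt ℂ a y.1) : AnalyticAt ℂ (bc a) y := AR.an_bc h

theorem an_pp {V : E → ℂ} {Z : Set E} (h : AnalyticOnNhd ℂ V Z) (e : ℝ) :
    AnalyticOnNhd ℂ (fun y => pp e (V y)) Z := AR.an_pp h e

/-- a local logarithm -/
theorem exists_log {α : Type*} [NormedAddCommGroup α] [NormedSpace ℂ α] {F : α → ℂ} {y : α}
    (hF : AnalyticAt ℂ F y) (h0 : F y ≠ 0) :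
    ∃ G : α → ℂ, AnalyticAt ℂ G y ∧ ∀ᶠ x in 𝓝 y, F x = Complex.exp (G x) ∧ Real.log ‖F x‖ = (G x).re := by
  refine ⟨fun v => Complex.log (F v / F y) + Complex.log (F y), ?_, ?_⟩
  · refine (AnalyticAt.clog hF.div_const ?_).add analyticAt_const
    rw [div_self h0]
    exact Complex.one_mem_slitPlane
  · filter_upwards [hF.continuousAt.eventually_ne h0] with v hv
    have h1 : F v = Complex.exp (Complex.log (F v / F y) + Complex.log (F y)) := by
      rw [Complex.exp_add, Complex.exp_log (div_ne_zero hv h0), Complex.exp_log h0, div_mul_cancel₀ _ h0]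
    refine ⟨h1, ?_⟩
    conv_lhs => rw [h1, Complex.norm_exp, Real.log_exp]

namespace LRe

variable {u v : E → ℝ} {Z Z' : Set E}

theorem mono (h : LRe u Z) (hZ : Z' ⊆ Z) : LRe u Z' := fun y hy => h y (hZ hy)

theorem congr (h : LRe u Z) (hv : ∀ y ∈ Z, ∀ᶠ x in 𝓝 y, v x = u x) : LRe v Z := fun y hy => by
  obtain ⟨G, hG, he⟩ := h y hy
  exact ⟨G, hG, by filter_upwards [he, hv y hy] with x h1 h2 using h2.trans h1⟩

theorem re {G : E → ℂ} (h : AnalyticOnNhd ℂ G Z) : LRe (fun x => (G x).re) Z :=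
  fun y hy => ⟨G, h y hy, Eventually.of_forall fun _ => rfl⟩

theorem im {G : E → ℂ} (h : AnalyticOnNhd ℂ G Z) : LRe (fun x => (G x).im) Z :=
  fun y hy => ⟨fun x => -Complex.I * G x, analyticAt_const.mul (h y hy), Eventually.of_forall fun _ => by simp⟩

theorem const (c : ℝ) (Z : Set E) : LRe (fun _ => c) Z :=
  fun _ _ => ⟨fun _ => c, analyticAt_const, Eventually.of_forall fun _ => rfl⟩

theorem add (hu : LRe u Z) (hv : LRe v Z) : LRe (fun x => u x + v x) Z := fun y hy => by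
  obtain ⟨G, hG, he⟩ := hu y hy
  obtain ⟨H, hH, hf⟩ := hv y hy
  exact ⟨fun x => G x + H x, hG.add hH, by
    filter_upwards [he, hf] with x h1 h2 using by rw [h1, h2, Complex.add_re]⟩

theorem const_mul (hu : LRe u Z) (c : ℝ) : LRe (fun x => c * u x) Z := fun y hy => by
  obtain ⟨G, hG, he⟩ := hu y hy
  exact ⟨fun x => c * G x, analyticAt_const.mul hG, by
    filter_upwards [he] with x h1 using by rw [h1, Complex.re_ofReal_mul]⟩

theorem mul_const (hu : LRe u Z) (c : ℝ) : LRe (fun x => u x * c) Z :=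
  (hu.const_mul c).congr fun _ _ => Eventually.of_forall fun _ => mul_comm _ _

theorem div_const (hu : LRe u Z) (c : ℝ) : LRe (fun x => u x / c) Z :=
  (hu.mul_const c⁻¹).congr fun _ _ => Eventually.of_forall fun _ => div_eq_mul_inv _ _

theorem neg (hu : LRe u Z) : LRe (fun x => -u x) Z :=
  (hu.const_mul (-1)).congr fun _ _ => Eventually.of_forall fun _ => by ring

theorem sub (hu : LRe u Z) (hv : LRe v Z) : LRe (fun x => u x - v x) Z :=
  (hu.add hv.neg).congr fun _ _ => Eventually.of_forall fun _ => sub_eq_add_neg _ _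

theorem sum {ι : Type*} (s : Finset ι) {f : ι → E → ℝ} (h : ∀ i ∈ s, LRe (f i) Z) :
    LRe (fun x => ∑ i ∈ s, f i x) Z := by
  classical
  induction s using Finset.induction_on with
  | empty => simpa using const 0 Z
  | insert i s hi ih =>
    simpa only [Finset.sum_insert hi] using (h i (Finset.mem_insert_self _ _)).add
      (ih fun j hj => h j (Finset.mem_insert_of_mem hj))

theorem log_norm {F : E → ℂ} (h : AnalyticOnNhd ℂ F Z) (h0 : ∀ y ∈ Z, F y ≠ 0) :
    LRe (fun x => Real.log ‖F x‖) Z := fun y hy => by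
  obtain ⟨G, hG, he⟩ := exists_log (h y hy) (h0 y hy)
  exact ⟨G, hG, he.mono fun _ hx => hx.2⟩

theorem continuousAt (h : LRe u Z) {y : E} (hy : y ∈ Z) : ContinuousAt u y := by
  obtain ⟨G, hG, he⟩ := h y hy
  exact (Complex.continuous_re.continuousAt.comp hG.continuousAt).congr (he.mono fun _ hv => hv.symm)

theorem continuousOn (h : LRe u Z) : ContinuousOn u Z := fun _ hy => (h.continuousAt hy).continuousWithinAt

theorem comp (h : LRe u Z) {a : E → E} (ha : ∀ y ∈ Z', AnalyticAt ℂ a y ∧ a y ∈ Z) :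
    LRe (fun y => u (a y)) Z' := fun y hy => by
  obtain ⟨G, hG, he⟩ := h _ (ha y hy).2
  exact ⟨fun x => G (a x), hG.comp (ha y hy).1, (ha y hy).1.continuousAt.eventually he⟩

theorem comp1 (h : LRe u Z) {a : ℂ → E} {Ω : Set ℂ} (ha : ∀ z ∈ Ω, AnalyticAt ℂ a z ∧ a z ∈ Z) :
    LRe1 (fun z => u (a z)) Ω := fun y hy => by
  obtain ⟨G, hG, he⟩ := h _ (ha y hy).2
  exact ⟨fun x => G (a x), hG.comp (ha y hy).1, (ha y hy).1.continuousAt.eventually he⟩

end LRe

namespace LRe1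

variable {u v : ℂ → ℝ} {Z Z' : Set ℂ}

theorem mono (h : LRe1 u Z) (hZ : Z' ⊆ Z) : LRe1 u Z' := fun y hy => h y (hZ hy)

theorem congr (h : LRe1 u Z) (hv : ∀ y ∈ Z, ∀ᶠ x in 𝓝 y, v x = u x) : LRe1 v Z := fun y hy => by
  obtain ⟨G, hG, he⟩ := h y hy
  exact ⟨G, hG, by filter_upwards [he, hv y hy] with x h1 h2 using h2.trans h1⟩

theorem re {G : ℂ → ℂ} (h : AnalyticOnNhd ℂ G Z) : LRe1 (fun x => (G x).re) Z :=
  fun y hy => ⟨G, h y hy, Eventually.of_forall fun _ => rfl⟩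

theorem im {G : ℂ → ℂ} (h : AnalyticOnNhd ℂ G Z) : LRe1 (fun x => (G x).im) Z :=
  fun y hy => ⟨fun x => -Complex.I * G x, analyticAt_const.mul (h y hy), Eventually.of_forall fun _ => by simp⟩

theorem const (c : ℝ) (Z : Set ℂ) : LRe1 (fun _ => c) Z :=
  fun _ _ => ⟨fun _ => c, analyticAt_const, Eventually.of_forall fun _ => rfl⟩

theorem add (hu : LRe1 u Z) (hv : LRe1 v Z) : LRe1 (fun x => u x + v x) Z := fun y hy => by
  obtain ⟨G, hG, he⟩ := hu y hy
  obtain ⟨H, hH, hf⟩ := hv y hy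
  exact ⟨fun x => G x + H x, hG.add hH, by
    filter_upwards [he, hf] with x h1 h2 using by rw [h1, h2, Complex.add_re]⟩

theorem const_mul (hu : LRe1 u Z) (c : ℝ) : LRe1 (fun x => c * u x) Z := fun y hy => by
  obtain ⟨G, hG, he⟩ := hu y hy
  exact ⟨fun x => c * G x, analyticAt_const.mul hG, by
    filter_upwards [he] with x h1 using by rw [h1, Complex.re_ofReal_mul]⟩

theorem mul_const (hu : LRe1 u Z) (c : ℝ) : LRe1 (fun x => u x * c) Z :=
  (hu.const_mul c).congr fun _ _ => Eventually.of_forall fun _ => mul_comm _ _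

theorem div_const (hu : LRe1 u Z) (c : ℝ) : LRe1 (fun x => u x / c) Z :=
  (hu.mul_const c⁻¹).congr fun _ _ => Eventually.of_forall fun _ => div_eq_mul_inv _ _

theorem neg (hu : LRe1 u Z) : LRe1 (fun x => -u x) Z :=
  (hu.const_mul (-1)).congr fun _ _ => Eventually.of_forall fun _ => by ring

theorem sub (hu : LRe1 u Z) (hv : LRe1 v Z) : LRe1 (fun x => u x - v x) Z :=
  (hu.add hv.neg).congr fun _ _ => Eventually.of_forall fun _ => sub_eq_add_neg _ _

theorem sum {ι : Type*} (s : Finset ι) {f : ι → ℂ → ℝ} (h : ∀ i ∈ s, LRe1 (f i) Z) :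
    LRe1 (fun x => ∑ i ∈ s, f i x) Z := by
  classical
  induction s using Finset.induction_on with
  | empty => simpa using const 0 Z
  | insert i s hi ih =>
    simpa only [Finset.sum_insert hi] using (h i (Finset.mem_insert_self _ _)).add
      (ih fun j hj => h j (Finset.mem_insert_of_mem hj))

theorem log_norm {F : ℂ → ℂ} (h : AnalyticOnNhd ℂ F Z) (h0 : ∀ y ∈ Z, F y ≠ 0) :
    LRe1 (fun x => Real.log ‖F x‖) Z := fun y hy => by
  obtain ⟨G, hG, he⟩ := exists_log (h y hy) (h0 y hy)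
  exact ⟨G, hG, he.mono fun _ hx => hx.2⟩

theorem log_norm_sub (c : ℂ) (h0 : ∀ y ∈ Z, y ≠ c) : LRe1 (fun x => Real.log ‖x - c‖) Z :=
  log_norm (F := fun x => x - c) (fun _ _ => analyticAt_id.sub analyticAt_const)
    fun y hy => sub_ne_zero.2 (h0 y hy)

theorem continuousAt (h : LRe1 u Z) {y : ℂ} (hy : y ∈ Z) : ContinuousAt u y := by
  obtain ⟨G, hG, he⟩ := h y hy
  exact (Complex.continuous_re.continuousAt.comp hG.continuousAt).congr (he.mono fun _ hv => hv.symm)

theorem continuousOn (h : LRe1 u Z) : ContinuousOn u Z := fun _ hy => (h.continuousAt hy).continuousWithinAt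

theorem comp (h : LRe1 u Z) {a : ℂ → ℂ} (ha : ∀ y ∈ Z', AnalyticAt ℂ a y ∧ a y ∈ Z) :
    LRe1 (fun y => u (a y)) Z' := fun y hy => by
  obtain ⟨G, hG, he⟩ := h _ (ha y hy).2
  exact ⟨fun x => G (a x), hG.comp (ha y hy).1, (ha y hy).1.continuousAt.eventually he⟩

theorem comp2 (h : LRe1 u Z) {a : E → ℂ} {S : Set E} (ha : ∀ y ∈ S, AnalyticAt ℂ a y ∧ a y ∈ Z) :
    LRe (fun y => u (a y)) S := fun y hy => by
  obtain ⟨G, hG, he⟩ := h _ (ha y hy).2
  exact ⟨fun x => G (a x), hG.comp (ha y hy).1, (ha y hy).1.continuousAt.eventually he⟩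

theorem comp_fst (h : LRe1 u Z) {S : Set E} (ha : ∀ y ∈ S, y.1 ∈ Z) : LRe (fun y => u y.1) S :=
  h.comp2 fun y hy => ⟨analyticAt_fst, ha y hy⟩

/-- the mean value property on small circles -/
theorem mean (h : LRe1 u Z) {z : ℂ} (hz : z ∈ Z) :
    ∀ᶠ r in 𝓝[>] (0 : ℝ), CircleIntegrable u z r ∧ Real.circleAverage u z r = u z := by
  obtain ⟨G, hG, he⟩ := h z hz
  obtain ⟨ε, hε, hb⟩ := Metric.eventually_nhds_iff_ball.1 (he.and hG.eventually_analyticAt)
  filter_upwards [Ioo_mem_nhdsGT hε] with r hr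
  have h1 : closedBall z |r| ⊆ ball z ε := closedBall_subset_ball (by rw [abs_of_pos hr.1]; exact hr.2)
  have h2 : DifferentiableOn ℂ G (closedBall z |r|) := fun x hx =>
    (hb x (h1 hx)).2.differentiableAt.differentiableWithinAt
  have h3 : CircleIntegrable G z r :=
    ContinuousOn.circleIntegrable' (h2.continuousOn.mono sphere_subset_closedBall)
  have h4 : EqOn u (Complex.reCLM ∘ G) (sphere z |r|) := fun x hx => (hb x (h1 (sphere_subset_closedBall hx))).1
  constructor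
  · exact ContinuousOn.circleIntegrable' ((Complex.reCLM.continuous.comp_continuousOn
      (h2.continuousOn.mono sphere_subset_closedBall)).congr h4)
  · rw [Real.circleAverage_congr_sphere h4, Complex.reCLM.circleAverage_comp_comm h3,
      (DifferentiableOn.diffContOnCl (h2.mono closure_ball_subset_closedBall)).circleAverage,
      (hb z (mem_ball_self hε)).1]
    rfl

end LRe1

/-! ### submean functions -/

theorem circleIntegrable_of_usc {u : ℂ → ℝ} {c : ℂ} {r B : ℝ} (hu : UpperSemicontinuousOn u (sphere c |r|))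
    (hB : ∀ z ∈ sphere c |r|, |u z| ≤ B) : CircleIntegrable u c r := by
  have h1 : UpperSemicontinuous (u ∘ circleMap c r) := upperSemicontinuousOn_univ_iff.1
    (hu.comp (continuous_circleMap c r).continuousOn fun θ _ => circleMap_mem_sphere' c r θ)
  refine (intervalIntegrable_const (c := B)).mono_fun' h1.measurable.aestronglyMeasurable
    (Eventually.of_forall fun θ => hB _ (circleMap_mem_sphere' c r θ))

theorem small_sphere {Ω : Set ℂ} {z : ℂ} (h : Ω ∈ 𝓝 z) : ∀ᶠ r in 𝓝[>] (0 : ℝ), closedBall z |r| ⊆ Ω := by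
  obtain ⟨ε, hε, hb⟩ := Metric.mem_nhds_iff.1 h
  filter_upwards [Ioo_mem_nhdsGT hε] with r hr
  exact (closedBall_subset_ball (by rw [abs_of_pos hr.1]; exact hr.2)).trans hb

namespace SMon

variable {u v : ℂ → ℝ} {Ω Ω' : Set ℂ}

theorem mono (h : SMon u Ω) (hΩ : Ω' ⊆ Ω) : SMon u Ω' :=
  ⟨h.usc.mono hΩ, h.bdd.imp fun _ hB z hz => hB z (hΩ hz), fun z hz => h.sub z (hΩ hz)⟩

theorem circleIntegrable (h : SMon u Ω) {c : ℂ} {r : ℝ} (hs : sphere c |r| ⊆ Ω) : CircleIntegrable u c r := by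
  obtain ⟨B, hB⟩ := h.bdd
  exact circleIntegrable_of_usc (h.usc.mono hs) fun z hz => hB z (hs hz)

theorem eventually_int (h : SMon u Ω) (hΩ : IsOpen Ω) {z : ℂ} (hz : z ∈ Ω) :
    ∀ᶠ r in 𝓝[>] (0 : ℝ), CircleIntegrable u z r :=
  (small_sphere (hΩ.mem_nhds hz)).mono fun _ hr => h.circleIntegrable (sphere_subset_closedBall.trans hr)

theorem const (c : ℝ) (Ω : Set ℂ) : SMon (fun _ => c) Ω :=
  ⟨upperSemicontinuousOn_const, ⟨|c|, fun _ _ => le_rfl⟩,
    fun z _ => Eventually.of_forall fun r => (Real.circleAverage_const c z r).ge⟩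

theorem congr (h : SMon u Ω) (hΩ : IsOpen Ω) (hv : EqOn v u Ω) : SMon v Ω := by
  refine ⟨fun z hz => (h.usc z hz).congr_of_eventuallyEq hz
    (eventually_nhdsWithin_of_forall fun x hx y => by rw [hv hx]), h.bdd.imp fun B hB z hz => ?_, fun z hz => ?_⟩
  · rw [hv hz]; exact hB z hz
  · filter_upwards [h.sub z hz, small_sphere (hΩ.mem_nhds hz)] with r h1 h2
    rw [hv hz, Real.circleAverage_congr_sphere (hv.mono (sphere_subset_closedBall.trans h2))]
    exact h1

theorem add (hu : SMon u Ω) (hv : SMon v Ω) (hΩ : IsOpen Ω) : SMon (fun z => u z + v z) Ω := by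
  obtain ⟨B, hB⟩ := hu.bdd
  obtain ⟨C, hC⟩ := hv.bdd
  refine ⟨hu.usc.add hv.usc, ⟨B + C, fun z hz => (abs_add_le _ _).trans (add_le_add (hB z hz) (hC z hz))⟩,
    fun z hz => ?_⟩
  filter_upwards [hu.sub z hz, hv.sub z hz, hu.eventually_int hΩ hz, hv.eventually_int hΩ hz] with r h1 h2 h3 h4
  rw [Real.circleAverage_fun_add h3 h4]
  exact add_le_add h1 h2

theorem max (hu : SMon u Ω) (hv : SMon v Ω) (hΩ : IsOpen Ω) : SMon (fun z => max (u z) (v z)) Ω := by
  obtain ⟨B, hB⟩ := hu.bdd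
  obtain ⟨C, hC⟩ := hv.bdd
  have h0 : ∀ z ∈ Ω, |Max.max (u z) (v z)| ≤ Max.max B C := fun z hz =>
    abs_max_le_max_abs_abs.trans (max_le_max (hB z hz) (hC z hz))
  refine ⟨hu.usc.sup hv.usc, ⟨_, h0⟩, fun z hz => ?_⟩
  filter_upwards [hu.sub z hz, hv.sub z hz, hu.eventually_int hΩ hz, hv.eventually_int hΩ hz,
    small_sphere (hΩ.mem_nhds hz)] with r h1 h2 h3 h4 h5
  have h6 := sphere_subset_closedBall.trans h5
  have h7 : CircleIntegrable (fun z => Max.max (u z) (v z)) z r :=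
    circleIntegrable_of_usc ((hu.usc.sup hv.usc).mono h6) fun x hx => h0 x (h6 hx)
  exact max_le (h1.trans (Real.circleAverage_mono h3 h7 fun _ _ => le_max_left _ _))
    (h2.trans (Real.circleAverage_mono h4 h7 fun _ _ => le_max_right _ _))

theorem max_const (hu : SMon u Ω) (hΩ : IsOpen Ω) (c : ℝ) : SMon (fun z => Max.max (u z) c) Ω :=
  hu.max (const c Ω) hΩ

theorem of_lre1 (h : LRe1 u Ω) (hB : ∃ B, ∀ z ∈ Ω, |u z| ≤ B) : SMon u Ω :=
  ⟨h.continuousOn.upperSemicontinuousOn, hB, fun _ hz => (h.mean hz).mono fun _ hr => hr.2.ge⟩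

theorem add_lre1 (hu : SMon u Ω) (hΩ : IsOpen Ω) (h : LRe1 v Ω) (hB : ∃ B, ∀ z ∈ Ω, |v z| ≤ B) :
    SMon (fun z => u z + v z) Ω := hu.add (of_lre1 h hB) hΩ

theorem sub_lre1 (hu : SMon u Ω) (hΩ : IsOpen Ω) (h : LRe1 v Ω) (hB : ∃ B, ∀ z ∈ Ω, |v z| ≤ B) :
    SMon (fun z => u z - v z) Ω := by
  simpa only [sub_eq_add_neg] using hu.add_lre1 hΩ h.neg (by simpa only [abs_neg] using hB)

theorem add_const (hu : SMon u Ω) (hΩ : IsOpen Ω) (c : ℝ) : SMon (fun z => u z + c) Ω :=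
  hu.add (const c Ω) hΩ

theorem const_mul (hu : SMon u Ω) {c : ℝ} (hc : 0 ≤ c) : SMon (fun z => c * u z) Ω := by
  obtain ⟨B, hB⟩ := hu.bdd
  refine ⟨fun z hz => ?_, ⟨c * B, fun z hz => ?_⟩, fun z hz => (hu.sub z hz).mono fun r hr => ?_⟩
  · exact ContinuousAt.comp_upperSemicontinuousWithinAt (g := fun t : ℝ => c * t) (by fun_prop) (hu.usc z hz)
      fun _ _ h => mul_le_mul_of_nonneg_left h hc
  · rw [abs_mul, abs_of_nonneg hc]
    exact mul_le_mul_of_nonneg_left (hB z hz) hc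
  · have := Real.circleAverage_fun_smul (a := c) (f := u) (c := z) (R := r)
    simp only [smul_eq_mul] at this
    rw [this]
    exact mul_le_mul_of_nonneg_left hr hc

theorem sum {ι : Type*} (s : Finset ι) {f : ι → ℂ → ℝ} (h : ∀ i ∈ s, SMon (f i) Ω) (hΩ : IsOpen Ω) :
    SMon (fun z => ∑ i ∈ s, f i z) Ω := by
  classical
  induction s using Finset.induction_on with
  | empty => simpa using const 0 Ω
  | insert i s hi ih =>
    simpa only [Finset.sum_insert hi] using (h i (Finset.mem_insert_self _ _)).add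
      (ih fun j hj => h j (Finset.mem_insert_of_mem hj)) hΩ

/-- the property is local, up to the bound -/
theorem of_local (h : ∀ z ∈ Ω, ∃ U ∈ 𝓝 z, SMon u U) (hB : ∃ B, ∀ z ∈ Ω, |u z| ≤ B) : SMon u Ω := by
  refine ⟨fun z hz => ?_, hB, fun z hz => ?_⟩
  · obtain ⟨U, hU, h1⟩ := h z hz
    intro y hy
    have := h1.usc z (mem_of_mem_nhds hU) y hy
    rw [nhdsWithin_eq_nhds.2 hU] at this
    exact this.filter_mono nhdsWithin_le_nhds
  · obtain ⟨U, hU, h1⟩ := h z hz
    exact h1.sub z (mem_of_mem_nhds hU)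

end SMon

/-! ### boxes, annuli, pieces and walls -/

theorem isClosed_box (x0 r s : ℝ) : IsClosed (box x0 r s) := by
  have h1 : IsClosed {z : ℂ | |z.re - x0| ≤ r} := isClosed_le (by fun_prop) continuous_const
  have h2 : IsClosed {z : ℂ | |z.im| ≤ s} := isClosed_le (by fun_prop) continuous_const
  exact h1.inter h2

theorem norm_sub_le_of_box {x0 r s : ℝ} {z : ℂ} (h : z ∈ box x0 r s) : ‖z - x0‖ ≤ r + s := by
  have := Complex.norm_le_abs_re_add_abs_im (z - x0)
  simp only [Complex.sub_re, Complex.ofReal_re, Complex.sub_im, Complex.ofReal_im, sub_zero] at this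
  linarith [h.1, h.2]

theorem isCompact_box (x0 r s : ℝ) : IsCompact (box x0 r s) :=
  (isCompact_closedBall (x0 : ℂ) (r + s)).of_isClosed_subset (isClosed_box x0 r s) fun _ hz =>
    mem_closedBall_iff_norm.2 (norm_sub_le_of_box hz)

theorem box_mono {x0 r s r' s' : ℝ} (hr : r ≤ r') (hs : s ≤ s') : box x0 r s ⊆ box x0 r' s' :=
  fun _ hz => ⟨hz.1.trans hr, hz.2.trans hs⟩

theorem convex_box (x0 r s : ℝ) : Convex ℝ (box x0 r s) := by
  have h : box x0 r s = Complex.reLm ⁻¹' Icc (x0 - r) (x0 + r) ∩ Complex.imLm ⁻¹' Icc (-s) s := by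
    ext z
    simp only [box, mem_ofPred_eq, mem_inter_iff, mem_preimage, mem_Icc, abs_le, Complex.reLm_coe,
      Complex.imLm_coe]
    constructor <;> rintro ⟨⟨h1, h2⟩, h3⟩ <;> exact ⟨⟨by linarith, by linarith⟩, h3⟩
  rw [h]
  exact ((convex_Icc _ _).linear_preimage _).inter ((convex_Icc _ _).linear_preimage _)

theorem isClosed_annW {W : Type} (h : ℝ) (x : W → ℂ) (ρ0 : W → ℝ) : IsClosed (annW h x ρ0) := by
  have h1 : IsClosed {z : ℂ | Real.exp (-h) ≤ ‖z‖} := isClosed_le continuous_const continuous_norm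
  have h2 : IsClosed {z : ℂ | ‖z‖ ≤ Real.exp h} := isClosed_le continuous_norm continuous_const
  have h3 : IsClosed {z : ℂ | ∀ j, ρ0 j ≤ ‖z - x j‖} := by
    rw [ofPred_forall]
    exact isClosed_iInter fun j => isClosed_le continuous_const (by fun_prop)
  exact h1.inter (h2.inter h3)

theorem isCompact_annW {W : Type} (h : ℝ) (x : W → ℂ) (ρ0 : W → ℝ) : IsCompact (annW h x ρ0) :=
  (isCompact_closedBall (0 : ℂ) (Real.exp h)).of_isClosed_subset (isClosed_annW h x ρ0) fun _ hz =>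
    mem_closedBall_zero_iff.2 hz.2.1

theorem annW_pos {W : Type} {h : ℝ} {x : W → ℂ} {ρ0 : W → ℝ} {z : ℂ} (hz : z ∈ annW h x ρ0) : 0 < ‖z‖ :=
  AR.ann_pos hz

theorem ov_mono {X : Set E} {Ω Ω' : Set ℂ} (h : Ω' ⊆ Ω) : ov X Ω' ⊆ ov X Ω := fun _ hy => ⟨hy.1, h hy.2⟩

theorem NPZ.inter {X K Z C : Set E} (h : NPZ X K Z) (hC : IsClosed C) : NPZ X K (Z ∩ C) :=
  ⟨h.cpt.inter_right hC, fun _ hy => h.sub hy.1, fun y hy => h.np y hy.1⟩

theorem NPZ.subset {X K Z Z' : Set E} (h : NPZ X K Z) (hC : IsClosed Z') (hs : Z' ⊆ Z) : NPZ X K Z' :=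
  ⟨h.cpt.of_isClosed_subset hC hs, hs.trans h.sub, fun y hy => h.np y (hs hy)⟩

theorem NP.mono {X K : Set E} {Ω Ω' : Set ℂ} (h : NP X K Ω) (hC : IsClosed Ω') (hs : Ω' ⊆ Ω) : NP X K Ω' := by
  have h1 : ov X Ω' = ov X Ω ∩ Prod.fst ⁻¹' Ω' :=
    Set.ext fun y => ⟨fun hy => ⟨⟨hy.1, hs hy.2⟩, hy.2⟩, fun hy => ⟨hy.1.1, hy.2⟩⟩
  unfold NP
  rw [h1]
  exact NPZ.inter h (hC.preimage continuous_fst)

theorem ss_nonneg (e : ℝ) (v : ℂ) : 0 ≤ ss e v := AR.ss_nonneg e v

theorem PW.scale {J : Set ℝ} {e ι ι' C0 lev ιN t rb : ℝ} {Ψ Ψy : ℝ → ℝ → ℂ} (h : PW J e ι ι' C0 lev Ψ Ψy)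
    (h0 : 0 < rb) (h1 : rb ≤ 1) (hι : ι ≤ rb * ιN) (hJ : ∀ u ∈ Icc (-1 : ℝ) 1, t + rb * u ∈ J) :
    PW (Icc (-1) 1) e ιN (ι' / rb) (C0 * rb) lev (fun u s => Ψ (t + rb * u) (rb * s))
      (fun u s => rb * Ψy (t + rb * u) (rb * s)) := by
  have hp := h.pos
  have hle := h.le
  have hN : 0 < ιN := by
    by_contra hc
    have := mul_nonpos_of_nonneg_of_nonpos h0.le (not_lt.1 hc)
    linarith
  have hιN : ι ≤ ιN := hι.trans (by nlinarith)
  have hs : ∀ s ∈ Icc (-(2 * (ι' / rb))) (2 * (ι' / rb)), rb * s ∈ Icc (-(2 * ι')) (2 * ι') := by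
    intro s hs
    have e1 : rb * (2 * (ι' / rb)) = 2 * ι' := by field_simp
    constructor
    · have := mul_le_mul_of_nonneg_left hs.1 h0.le
      rw [mul_neg, e1] at this
      exact this
    · have := mul_le_mul_of_nonneg_left hs.2 h0.le
      rw [e1] at this
      exact this
  refine ⟨by positivity, ?_, fun u hu s hs' => ?_, fun u hu s hs' => ?_, fun u hu s hs' hl => ?_,
    fun u hu s hs' hl u' hu' hd => ?_, fun u hu s hs' hl => ?_⟩
  · rw [div_le_iff₀ h0]; linarith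
  · have h2 := (h.der _ (hJ u hu) _ (hs s hs')).scomp s ((hasDerivAt_id s).const_mul rb)
    simpa [Function.comp_def] using h2
  · have h2 := h.hc _ (hJ u hu) _ (hs s hs')
    have h3 : 0 ≤ (Ψy (t + rb * u) (rb * s)).re := by
      by_contra hc
      have := mul_neg_of_pos_of_neg (hp.trans_le hle) (not_le.1 hc)
      linarith [abs_nonneg (Ψy (t + rb * u) (rb * s)).im]
    rw [Complex.im_ofReal_mul, Complex.re_ofReal_mul, abs_mul, abs_of_pos h0, mul_left_comm]
    exact mul_le_mul_of_nonneg_left (h2.trans (mul_le_mul_of_nonneg_right hιN h3)) h0.le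
  · have h2 := h.hb _ (hJ u hu) _ (hs s hs') hl
    rw [Complex.re_ofReal_mul, ← mul_assoc, div_mul_cancel₀ _ h0.ne']
    exact h2
  · have h3 : |t + rb * u' - (t + rb * u)| = rb * |u' - u| := by
      rw [show t + rb * u' - (t + rb * u) = rb * (u' - u) by ring, abs_mul, abs_of_pos h0]
    have h4 : uIcc (t + rb * u) (t + rb * u') ⊆ J := by
      intro v hv
      have hu2 := hu' right_mem_uIcc
      have h5 : (v - t) / rb ∈ Icc (-1 : ℝ) 1 := by
        rw [mem_Icc, le_div_iff₀ h0, div_le_iff₀ h0]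
        rcases mem_uIcc.1 hv with h6 | h6 <;> constructor <;> nlinarith [hu.1, hu.2, hu2.1, hu2.2, h6.1, h6.2]
      have := hJ _ h5
      rwa [show t + rb * ((v - t) / rb) = v by field_simp; ring] at this
    have h2 := h.hd _ (hJ u hu) _ (hs s hs') hl (t + rb * u') h4 (by
      rw [h3]; nlinarith [abs_nonneg (u' - u)])
    rw [h3] at h2
    refine ⟨h2.1.trans (le_of_eq (by ring)), h2.2.trans ?_⟩
    refine mul_le_mul_of_nonneg_right ?_ (ss_nonneg _ _)
    rw [← mul_assoc]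
    refine mul_le_mul_of_nonneg_right ?_ (abs_nonneg _)
    nlinarith
  · exact (h.he _ (hJ u hu) _ (hs s hs') hl).trans (mul_le_mul_of_nonneg_right hιN (ss_nonneg _ _))

theorem PW.mono {J J' : Set ℝ} {e ι ι2 ι' C0 C1 lev lev' : ℝ} {Ψ Ψy : ℝ → ℝ → ℂ} (h : PW J e ι ι' C0 lev Ψ Ψy)
    (hJ : J' ⊆ J) (hι : ι ≤ ι2) (hC : C0 ≤ C1) (hl : lev ≤ lev') : PW J' e ι2 ι' C1 lev' Ψ Ψy := by
  refine ⟨h.pos, h.le.trans hι, fun x hx => h.der x (hJ hx), fun x hx y hy => ?_,
    fun x hx y hy hv => h.hb x (hJ hx) y hy (hl.trans hv), fun x hx y hy hv x' h1 h2 => ?_,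
    fun x hx y hy hv => ?_⟩
  · have h2 := h.hc x (hJ hx) y hy
    have h3 : 0 ≤ (Ψy x y).re := by
      by_contra hc
      have := mul_neg_of_pos_of_neg (h.pos.trans_le h.le) (not_le.1 hc)
      linarith [abs_nonneg (Ψy x y).im]
    exact h2.trans (mul_le_mul_of_nonneg_right hι h3)
  · have h3 := h.hd x (hJ hx) y hy (hl.trans hv) x' (h1.trans hJ) h2
    have h4 := ss_nonneg e (Ψ x y)
    have h5 := abs_nonneg (x' - x)
    exact ⟨h3.1.trans (by gcongr), h3.2.trans (by gcongr)⟩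
  · exact (h.he x (hJ hx) y hy (hl.trans hv)).trans (mul_le_mul_of_nonneg_right hι (ss_nonneg _ _))

theorem basic_done : True := trivial

end Pool.Agent.Lib.SH
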