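import Pool.Agent.Lib.SH.Blue2

/-! From a bound in the window chart to the gain property in the annulus chart. -/

open Set Filter Topology Metric

noncomputable section

namespace Pool.Agent.Lib.SH

namespace WCONV

lemma exp_bounds (u : ℂ) (hu : ‖u‖ ≤ 1 / 8) :
    7 / 8 * ‖u‖ ≤ ‖Complex.exp (Complex.I * u) - 1‖ ∧
      ‖Complex.exp (Complex.I * u) - 1‖ ≤ 9 / 8 * ‖u‖ := by
  have h0 : ‖Complex.I * u‖ = ‖u‖ := by rw [norm_mul, Complex.norm_I, one_mul]
  have h1 := Complex.norm_exp_sub_one_sub_id_le (x := Complex.I * u) (by rw [h0]; linarith)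
  rw [h0] at h1
  have h2 := norm_sub_norm_le (Complex.exp (Complex.I * u) - 1) (Complex.I * u)
  have h3 := norm_sub_norm_le (Complex.I * u) (Complex.exp (Complex.I * u) - 1)
  rw [norm_sub_rev (Complex.I * u)] at h3
  rw [h0] at h2 h3
  have h4 : ‖u‖ ^ 2 ≤ 1 / 8 * ‖u‖ := by nlinarith [norm_nonneg u]
  constructor <;> linarith

lemma wch_sub (x : ℂ) (hx : ‖x‖ = 1) (δ yr : ℝ) (z : ℂ) :
    ‖wch x δ yr z - x‖ = ‖Complex.exp (Complex.I * (δ * z + yr * Complex.I)) - 1‖ := by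
  have : wch x δ yr z - x = x * (Complex.exp (Complex.I * (δ * z + yr * Complex.I)) - 1) := by
    unfold wch; ring
  rw [this, norm_mul, hx, one_mul]

lemma u_bounds (δ yr : ℝ) (hδ : 0 < δ) (z : ℂ) :
    δ * ‖z‖ - |yr| ≤ ‖(δ * z + yr * Complex.I : ℂ)‖ ∧
      ‖(δ * z + yr * Complex.I : ℂ)‖ ≤ δ * ‖z‖ + |yr| := by
  have h1 : ‖(δ * z : ℂ)‖ = δ * ‖z‖ := by
    rw [norm_mul, Complex.norm_real, Real.norm_eq_abs, abs_of_pos hδ]
  have h2 : ‖(yr * Complex.I : ℂ)‖ = |yr| := by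
    rw [norm_mul, Complex.norm_real, Real.norm_eq_abs, Complex.norm_I, mul_one]
  have h3 := norm_add_le (δ * z : ℂ) (yr * Complex.I)
  have h4 := norm_sub_le (δ * z + yr * Complex.I : ℂ) (yr * Complex.I)
  rw [add_sub_cancel_right] at h4
  rw [h1, h2] at h3 h4
  constructor <;> linarith

lemma preimage (x : ℂ) (hx : ‖x‖ = 1) (δ yr : ℝ) (hδ : 0 < δ) (z : ℂ) (hz : ‖z - x‖ ≤ 1 / 12) :
    ∃ ζ : ℂ, wch x δ yr ζ = z ∧ ‖(δ * ζ + yr * Complex.I : ℂ)‖ ≤ 1 / 8 := by
  have hx0 : x ≠ 0 := by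
    intro h; rw [h, norm_zero] at hx; norm_num at hx
  have hδ0 : (δ : ℂ) ≠ 0 := Complex.ofReal_ne_zero.mpr hδ.ne'
  have h1 : ‖z / x - 1‖ = ‖z - x‖ := by
    have : z / x - 1 = (z - x) / x := by field_simp
    rw [this, norm_div, hx, div_one]
  have h2 := Complex.norm_log_one_add_half_le_self (z := z / x - 1) (by rw [h1]; linarith)
  rw [h1, add_sub_cancel] at h2
  have h3 : z / x ≠ 0 := by
    intro h
    rw [h, zero_sub, norm_neg, norm_one] at h1
    linarith
  have h4 : (δ * ((-Complex.I * Complex.log (z / x) - yr * Complex.I) / δ) + yr * Complex.I : ℂ) =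
      -Complex.I * Complex.log (z / x) := by
    field_simp
    ring
  refine ⟨(-Complex.I * Complex.log (z / x) - yr * Complex.I) / δ, ?_, ?_⟩
  · unfold wch
    rw [h4, ← mul_assoc Complex.I, mul_neg, Complex.I_mul_I, neg_neg, one_mul, Complex.exp_log h3]
    field_simp
  · rw [h4, norm_mul, norm_neg, Complex.norm_I, one_mul]
    linarith

end WCONV

open WCONV in
theorem st_wconv : St_WCONV := by
  intro D q x δ yr ρ ex C M Omin hx hδ hρ hρ8 hex0 hex4 hC hM hO0 hsm H O hO HO r hr1 hr2 y hy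
    hy1 hy2
  have hyr := abs_nonneg yr
  have hCM : 1 ≤ C * M := by nlinarith
  have hρM : 1000 * (δ + |yr|) ≤ ρ / M := by
    rw [le_div_iff₀ (by linarith)]; linarith
  have hρM' : ρ / M ≤ ρ := div_le_self hρ.le hM
  have hρM0 : 0 < ρ / M := by positivity
  have hr3 : ρ / (10000 * C * M) ≤ ρ / M / 10000 := by
    rw [div_div]
    exact div_le_div_of_nonneg_left hρ.le (by positivity) (by nlinarith)
  have hr0 : 0 < r := by linarith
  obtain ⟨ζ, hζ, hu⟩ := preimage x hx δ yr hδ y.1 (by linarith)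
  have hb : bc (wch x δ yr) (ζ, y.2) = y := by
    unfold bc
    simp only [hζ]
  have e1 := wch_sub x hx δ yr ζ
  rw [hζ] at e1
  obtain ⟨b1, b2⟩ := exp_bounds _ hu
  obtain ⟨c1, c2⟩ := u_bounds δ yr hδ ζ
  have key := H O hO (fun y' hy' h1 h2 => by
      have e2 := wch_sub x hx δ yr y'.1
      obtain ⟨d1, d2⟩ := u_bounds δ yr hδ y'.1
      have g1 : ρ / M / 2 ≤ δ * ‖y'.1‖ := by
        have : ρ / (2 * δ) / M = ρ / M / 2 / δ := by field_simp
        rw [this, div_le_iff₀ hδ] at h1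
        linarith
      have g2 : δ * ‖y'.1‖ ≤ ρ / 2 := by
        rw [le_div_iff₀ (by linarith)] at h2
        linarith
      obtain ⟨f1, f2⟩ := exp_bounds (δ * y'.1 + yr * Complex.I) (by linarith)
      refine HO _ hy' ?_ ?_
      · show _ ≤ ‖wch x δ yr y'.1 - x‖
        linarith
      · show ‖wch x δ yr y'.1 - x‖ ≤ _
        linarith)
    (2 * r / δ) (by rw [le_div_iff₀ hδ]; linarith) (by
      have : ρ / (2 * δ) / 2 = ρ / 4 / δ := by field_simp; ring
      rw [this]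
      exact div_le_div_of_nonneg_right (by linarith) hδ.le) (ζ, y.2) (by
      show bc (wch x δ yr) (ζ, y.2) ∈ D
      rw [hb]; exact hy) (by
      show 2 ≤ ‖ζ‖
      refine le_of_mul_le_mul_left ?_ hδ
      linarith) (by
      show ‖ζ‖ ≤ _
      rw [le_div_iff₀ hδ]
      linarith)
  rw [hb] at key
  have e3 : 2 * r / δ / (ρ / (2 * δ)) = 4 * (r / ρ) := by field_simp; ring
  rw [e3, Real.mul_rpow (by norm_num) (by positivity)] at key
  have h4 : (4 : ℝ) ^ ex ≤ 256 := by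
    calc (4 : ℝ) ^ ex ≤ 4 ^ ((4 : ℕ) : ℝ) :=
          Real.rpow_le_rpow_of_exponent_le (by norm_num) (by exact_mod_cast hex4)
      _ = 256 := by rw [Real.rpow_natCast]; norm_num
  have h5 : 0 ≤ (r / ρ) ^ ex * O := mul_nonneg (by positivity) (by linarith)
  have h6 : C * 4 ^ ex ≤ 10000 * C * M := by nlinarith
  calc q y ≤ C * 4 ^ ex * ((r / ρ) ^ ex * O) := by linarith
    _ ≤ 10000 * C * M * ((r / ρ) ^ ex * O) := mul_le_mul_of_nonneg_right h6 h5
    _ = _ := by ring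

end Pool.Agent.Lib.SH
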