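import Pool.Agent.Lib.SH.Blue5
import Pool.Agent.Lib.SH.B_BASIC
import Pool.Agent.Lib.SH.B_BRIDGE
import Pool.Agent.Lib.SH.B_WCONV

/-! Micro ports: bound inside the port disc, and its transfer to the window chart. -/

open Set Filter Topology Metric

noncomputable section

namespace Pool.Agent.Lib.SH

/-- `St_PB` with the pole `-i` of the Blaschke factor excluded in the last conclusion -/
def St_PB2 : Prop :=
  (∀ C0 : ℝ, ∃ ι > 0, ∀ (X K : Set E) (N : E → ℂ) (e Mst Mup bin : ℝ), 0 ≤ e → 0 ≤ Mst → 0 ≤ bin →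
    NP X K (closedBall 0 1) → AnalyticOnNhd ℂ N (ov X (closedBall 0 1)) →
    PPH2 X K N e (1 / 2) ι C0 Mst Mup →
    (∀ y ∈ ov X (closedBall 0 1), (y ∉ K → ‖pp e (y.1 * N y)‖ ≤ Mup) ∧
      (y ∈ K → ‖y.1‖ ≤ Real.exp (-6) → ‖pp e (y.1 * N y)‖ ≤ bin)) →
    PortB (X \ K) (fun y => ‖pp e (y.1 * N y)‖) 0 1 (max Mst bin) (Real.exp 3)) ∧
  ∀ (D : Set E) (q : E → ℝ) (x : ℂ) (δ yr L ρ b0 C : ℝ), x ≠ 0 → 0 < δ → 10 ≤ L → 2 ≤ ρ →
    δ * ρ ≤ 1 / 8 →
    PortB D q (wch x δ yr Complex.I)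
      (2 * δ * ‖wch x δ yr Complex.I‖ * Real.exp (-L + 7 / 2)) b0 C →
    ∀ b : ℝ, b0 ≤ b → (∀ y ∈ bc (wch x δ yr) ⁻¹' D, Real.exp (-L + 3) ≤ ‖bl y.1‖ →
      ‖bl y.1‖ ≤ Real.exp (-L + 4) → q (bc (wch x δ yr) y) ≤ b) →
    ∀ y ∈ bc (wch x δ yr) ⁻¹' D, y.1 ≠ -Complex.I → ‖y.1‖ ≤ ρ → ‖bl y.1‖ ≤ Real.exp (-L + 3) →
      q (bc (wch x δ yr) y) ≤ C * b

namespace PB

lemma wch_eq (x : ℂ) (δ yr : ℝ) (z : ℂ) :
    wch x δ yr z = wch x δ yr Complex.I * Complex.exp (Complex.I * (δ * (z - Complex.I))) := by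
  unfold wch
  rw [mul_assoc x, ← Complex.exp_add]
  congr 2
  ring

lemma wch_sub (x : ℂ) (δ yr : ℝ) (z : ℂ) : ‖wch x δ yr z - wch x δ yr Complex.I‖ =
    ‖wch x δ yr Complex.I‖ * ‖Complex.exp (Complex.I * (δ * (z - Complex.I))) - 1‖ := by
  rw [← norm_mul, mul_sub, mul_one, ← wch_eq]

lemma norm_u {δ : ℝ} (hδ : 0 < δ) (z : ℂ) : ‖(δ * (z - Complex.I) : ℂ)‖ = δ * ‖z - Complex.I‖ := by
  rw [norm_mul, Complex.norm_real, Real.norm_eq_abs, abs_of_pos hδ]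

lemma add_I (z : ℂ) : 2 - ‖z - Complex.I‖ ≤ ‖z + Complex.I‖ ∧
    ‖z + Complex.I‖ ≤ 2 + ‖z - Complex.I‖ := by
  have h0 : ‖(2 * Complex.I : ℂ)‖ = 2 := by simp
  have h1 := norm_add_le (2 * Complex.I) (z - Complex.I)
  have h2 := norm_sub_le (z + Complex.I) (z - Complex.I)
  rw [show 2 * Complex.I + (z - Complex.I) = z + Complex.I by ring, h0] at h1
  rw [show z + Complex.I - (z - Complex.I) = 2 * Complex.I by ring, h0] at h2
  constructor <;> linarith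

lemma preimage {x : ℂ} (hx : x ≠ 0) {δ : ℝ} (yr : ℝ) (hδ : 0 < δ) (w : ℂ)
    (hw : ‖w - wch x δ yr Complex.I‖ ≤ 1 / 12 * ‖wch x δ yr Complex.I‖) :
    ∃ z : ℂ, wch x δ yr z = w ∧ δ * ‖z - Complex.I‖ ≤ 1 / 8 := by
  have hp : wch x δ yr Complex.I ≠ 0 := mul_ne_zero hx (Complex.exp_ne_zero _)
  have hδ0 : (δ : ℂ) ≠ 0 := Complex.ofReal_ne_zero.mpr hδ.ne'
  have e := wch_eq x δ yr
  generalize wch x δ yr Complex.I = p at *
  have h1 : ‖w / p - 1‖ ≤ 1 / 12 := by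
    have : w / p - 1 = (w - p) / p := by field_simp
    rw [this, norm_div, div_le_iff₀ (norm_pos_iff.2 hp)]
    exact hw
  have h2 := Complex.norm_log_one_add_half_le_self (z := w / p - 1) (by linarith)
  rw [add_sub_cancel] at h2
  have h3 : w / p ≠ 0 := by
    intro h
    rw [h, zero_sub, norm_neg, norm_one] at h1
    linarith
  have h4 : (δ * (Complex.I + -Complex.I * Complex.log (w / p) / δ - Complex.I) : ℂ) =
      -Complex.I * Complex.log (w / p) := by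
    field_simp
    ring
  refine ⟨Complex.I + -Complex.I * Complex.log (w / p) / δ, ?_, ?_⟩
  · rw [e, h4, ← mul_assoc Complex.I, mul_neg, Complex.I_mul_I, neg_neg, one_mul,
      Complex.exp_log h3]
    field_simp
  · rw [← norm_u hδ, h4, norm_mul, norm_neg, Complex.norm_I, one_mul]
    linarith

lemma part1 (hPP : St_PP2) (C0 : ℝ) : ∃ ι > 0, ∀ (X K : Set E) (N : E → ℂ) (e Mst Mup bin : ℝ),
    0 ≤ e → 0 ≤ Mst → 0 ≤ bin →
    NP X K (closedBall 0 1) → AnalyticOnNhd ℂ N (ov X (closedBall 0 1)) →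
    PPH2 X K N e (1 / 2) ι C0 Mst Mup →
    (∀ y ∈ ov X (closedBall 0 1), (y ∉ K → ‖pp e (y.1 * N y)‖ ≤ Mup) ∧
      (y ∈ K → ‖y.1‖ ≤ Real.exp (-6) → ‖pp e (y.1 * N y)‖ ≤ bin)) →
    PortB (X \ K) (fun y => ‖pp e (y.1 * N y)‖) 0 1 (max Mst bin) (Real.exp 3) := by
  obtain ⟨ι, ι0, H⟩ := hPP (1 / 2) C0 (by norm_num) le_rfl
  refine ⟨ι, ι0, fun X K N e Mst Mup bin e0 M0 b0 hNP hN hP hB b hb hc => ?_⟩
  have hb1 : Mst ≤ b := (le_max_left _ _).trans hb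
  have hb2 : bin ≤ b := (le_max_right _ _).trans hb
  have hb0 : 0 ≤ b := M0.trans hb1
  have key := H X K N e Mst Mup b e0 hNP hN hP hb1 hb0
    (fun y hy hK => (mul_le_of_le_one_right (norm_nonneg _) (Real.rpow_le_one (norm_nonneg _)
      (mem_closedBall_zero_iff.1 hy.2) (by norm_num))).trans ((hB y hy).1 hK))
    fun y hy hK h1 => hc y ⟨hy, hK⟩ (by rw [sub_zero, h1])
  have out : ∀ y ∈ ov X (closedBall 0 1), y ∉ K → Real.exp (-6) ≤ ‖y.1‖ →
      ‖pp e (y.1 * N y)‖ ≤ Real.exp 3 * b := by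
    intro y hy hK h1
    have h2 : Real.exp (-3) ≤ ‖y.1‖ ^ (1 / 2 : ℝ) := by
      refine le_trans (le_of_eq ?_) (Real.rpow_le_rpow (Real.exp_pos _).le h1 (by norm_num))
      rw [← Real.exp_mul]
      norm_num
    have h3 := (mul_le_mul_of_nonneg_left h2 (norm_nonneg _)).trans (key y hy hK)
    rwa [Real.exp_neg, ← div_eq_mul_inv, div_le_iff₀' (Real.exp_pos _)] at h3
  have e6 : Real.exp (-6) ≤ 1 := Real.exp_le_one_iff.2 (by norm_num)
  have sub : closedBall (0 : ℂ) (Real.exp (-6)) ⊆ closedBall 0 1 := closedBall_subset_closedBall e6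
  have e3 : b ≤ Real.exp 3 * b := le_mul_of_one_le_left hb0 (Real.one_le_exp (by norm_num))
  have inn := st_mpabs X K (ov X (closedBall 0 (Real.exp (-6)))) (fun y => pp e (y.1 * N y))
    (fun _ => 0) (Real.exp 3 * b) (hNP.mono isClosed_closedBall sub)
    (an_pp (fun y hy => analyticAt_fst.mul (hN y (ov_mono sub hy))) e)
    (fun y _ => ⟨fun _ => 0, analyticAt_const, Eventually.of_forall fun _ => rfl⟩)
    (hb0.trans e3) fun y hy => by
      have h1 := mem_closedBall_zero_iff.1 hy.1.2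
      rw [neg_zero, Real.exp_zero, mul_one]
      by_cases hK : y ∈ K
      · exact (((hB y (ov_mono sub hy.1)).2 hK h1).trans hb2).trans e3
      · refine out y (ov_mono sub hy.1) hK (not_lt.1 fun hlt => hy.2.resolve_left hK ?_)
        filter_upwards [continuousAt_fst (closedBall_mem_nhds_of_mem (mem_ball_zero_iff.2 hlt))]
          with x h2 h3
        exact ⟨h3, h2⟩
  intro y hy h1
  rw [sub_zero] at h1
  rcases le_total (Real.exp (-6)) ‖y.1‖ with h2 | h2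
  · exact out y ⟨hy.1, mem_closedBall_zero_iff.2 h1⟩ hy.2 h2
  · have := inn y ⟨hy.1, mem_closedBall_zero_iff.2 h2⟩
    rwa [neg_zero, Real.exp_zero, mul_one] at this

lemma part2 (D : Set E) (q : E → ℝ) (x : ℂ) (δ yr L b0 C : ℝ) (hx : x ≠ 0) (hδ : 0 < δ)
    (hL : 10 ≤ L) (hδ' : δ ≤ 1 / 16)
    (H : PortB D q (wch x δ yr Complex.I)
      (2 * δ * ‖wch x δ yr Complex.I‖ * Real.exp (-L + 7 / 2)) b0 C)
    (b : ℝ) (hb : b0 ≤ b) (hc : ∀ y ∈ bc (wch x δ yr) ⁻¹' D, Real.exp (-L + 3) ≤ ‖bl y.1‖ →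
      ‖bl y.1‖ ≤ Real.exp (-L + 4) → q (bc (wch x δ yr) y) ≤ b) :
    ∀ y ∈ bc (wch x δ yr) ⁻¹' D, y.1 ≠ -Complex.I → ‖bl y.1‖ ≤ Real.exp (-L + 3) →
      q (bc (wch x δ yr) y) ≤ C * b := by
  have hp : 0 < ‖wch x δ yr Complex.I‖ :=
    norm_pos_iff.2 (mul_ne_zero hx (Complex.exp_ne_zero _))
  have s1 : 3 / 2 ≤ Real.exp (1 / 2) := by linarith [Real.add_one_le_exp (1 / 2)]
  have e1 : Real.exp (-L + 7 / 2) = Real.exp (-L + 3) * Real.exp (1 / 2) := by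
    rw [← Real.exp_add]; congr 1; ring
  have e2 : Real.exp (-L + 4) = Real.exp (-L + 7 / 2) * Real.exp (1 / 2) := by
    rw [← Real.exp_add]; congr 1; ring
  have e3 : Real.exp (-L + 7 / 2) ≤ 1 / 7 := by
    have h1 := Real.add_one_le_exp (L - 7 / 2)
    have h2 : Real.exp (-L + 7 / 2) * Real.exp (L - 7 / 2) = 1 := by
      rw [← Real.exp_add, ← Real.exp_zero]; congr 1; ring
    nlinarith [Real.exp_pos (-L + 7 / 2)]
  have η0 := Real.exp_pos (-L + 3)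
  have e4 : 3 / 2 * Real.exp (-L + 3) ≤ Real.exp (-L + 7 / 2) := by rw [e1]; nlinarith
  have e5 : 3 / 2 * Real.exp (-L + 7 / 2) ≤ Real.exp (-L + 4) := by rw [e2]; nlinarith
  clear e1 e2 s1
  generalize Real.exp (-L + 7 / 2) = ε at *
  generalize Real.exp (-L + 3) = η at *
  generalize Real.exp (-L + 4) = θ at *
  have ε0 : 0 < ε := by linarith
  intro y hy hI hbl
  refine H b hb (fun w hw h1 => ?_) _ hy ?_
  · have hδε : δ * ε ≤ 1 / 16 * (1 / 7) := mul_le_mul hδ' e3 ε0.le (by norm_num)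
    obtain ⟨z, hz, h2⟩ := preimage hx yr hδ w.1 (by rw [h1]; nlinarith)
    have h3 := WCONV.exp_bounds (δ * (z - Complex.I)) (by rwa [norm_u hδ])
    have h4 : ‖Complex.exp (Complex.I * (δ * (z - Complex.I))) - 1‖ = 2 * δ * ε := by
      rw [← hz, wch_sub] at h1
      exact mul_left_cancel₀ hp.ne' (h1.trans (by ring))
    rw [h4, norm_u hδ] at h3
    have h5 : 7 / 8 * ‖z - Complex.I‖ ≤ 2 * ε := le_of_mul_le_mul_left (by linarith [h3.1]) hδ
    have h6 : 2 * ε ≤ 9 / 8 * ‖z - Complex.I‖ := le_of_mul_le_mul_left (by linarith [h3.2]) hδ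
    obtain ⟨h7, h8⟩ := add_I z
    have h9 : 0 < ‖z + Complex.I‖ := by linarith
    have e : bc (wch x δ yr) (z, w.2) = w := by simp only [bc, hz]
    have := hc (z, w.2) (by rwa [mem_preimage, e]) ?_ ?_
    · rwa [e] at this
    · rw [bl, norm_div, le_div_iff₀ h9]
      have : η * ‖z + Complex.I‖ ≤ η * (5 / 2) := mul_le_mul_of_nonneg_left (by linarith) η0.le
      simp only
      linarith
    · rw [bl, norm_div, div_le_iff₀ h9]
      have : θ * (5 / 3) ≤ θ * ‖z + Complex.I‖ := mul_le_mul_of_nonneg_left (by linarith) (by linarith)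
      simp only
      linarith
  · have h9 : 0 < ‖y.1 + Complex.I‖ := norm_pos_iff.2 fun h => hI (eq_neg_of_add_eq_zero_left h)
    rw [bl, norm_div, div_le_iff₀ h9] at hbl
    have h1 := mul_le_mul_of_nonneg_left (add_I y.1).2 η0.le
    have h2 : η * ‖y.1 - Complex.I‖ ≤ 1 / 7 * ‖y.1 - Complex.I‖ :=
      mul_le_mul_of_nonneg_right (by linarith) (norm_nonneg _)
    have h3 : ‖y.1 - Complex.I‖ ≤ 7 / 3 * η := by nlinarith
    have h4 : δ * ‖y.1 - Complex.I‖ ≤ δ * (7 / 3 * η) := mul_le_mul_of_nonneg_left h3 hδ.le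
    have h5 : δ * η ≤ 1 / 16 * (1 / 7) := mul_le_mul hδ' (by linarith) η0.le (by norm_num)
    have h6 := (WCONV.exp_bounds (δ * (y.1 - Complex.I)) (by rw [norm_u hδ]; linarith)).2
    rw [norm_u hδ] at h6
    have h7 : δ * (3 / 2 * η) ≤ δ * ε := mul_le_mul_of_nonneg_left e4 hδ.le
    have h8 : 0 < δ * η := mul_pos hδ η0
    show ‖wch x δ yr y.1 - wch x δ yr Complex.I‖ ≤ _
    rw [wch_sub, mul_assoc (2 * δ), mul_left_comm (2 * δ)]
    exact mul_le_mul_of_nonneg_left (by linarith) hp.le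

end PB

theorem st_pb2 (hPP : St_PP2) : St_PB2 :=
  ⟨PB.part1 hPP, fun D q x δ yr L ρ b0 C hx hδ hL hρ h H b hb hc y hy hI _ =>
    PB.part2 D q x δ yr L b0 C hx hδ hL (by nlinarith) H b hb hc y hy hI⟩

end Pool.Agent.Lib.SH
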