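import Pool.Agent.Lib.SH.Blue1b

/-! The port lemma. -/

open Set Filter Topology Metric

noncomputable section

namespace Pool.Agent.Lib.SH

namespace PP2

theorem np_mono {X K : Set E} {Ω Ω' : Set ℂ} (h : NP X K Ω) (hc : IsClosed Ω') (hs : Ω' ⊆ Ω) :
    NP X K Ω' := by
  refine ⟨?_, fun y hy => hy.1, fun y hy => h.np y ⟨hy.1, hs hy.2⟩⟩
  have e : ov X Ω' = ov X Ω ∩ Prod.fst ⁻¹' Ω' :=
    Set.ext fun y => ⟨fun hy => ⟨⟨hy.1, hs hy.2⟩, hy.2⟩, fun hy => ⟨hy.1.1, hy.2⟩⟩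
  rw [e]
  exact h.cpt.inter_right (hc.preimage continuous_fst)

theorem np_trunc {X K : Set E} {Ω : Set ℂ} {φ : E → ℝ} {c : ℝ} (h : NP X K Ω)
    (hφ : ContinuousOn φ (ov X Ω)) (hc : ∀ y ∈ ov X Ω, y ∉ K → φ y < c) :
    NP {x | x ∈ X ∧ (x.1 ∈ Ω → φ x ≤ c)} K Ω := by
  refine ⟨?_, fun y hy => hy.1, fun y hy hK => ?_⟩
  · have e : ov {x | x ∈ X ∧ (x.1 ∈ Ω → φ x ≤ c)} Ω = ov X Ω ∩ φ ⁻¹' Iic c :=
      Set.ext fun y => ⟨fun hy => ⟨⟨hy.1.1, hy.2⟩, hy.1.2 hy.2⟩,
        fun hy => ⟨⟨hy.1.1, fun _ => hy.2⟩, hy.1.2⟩⟩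
    rw [e]
    exact h.cpt.of_isClosed_subset
      (hφ.preimage_isClosed_of_isClosed h.cpt.isClosed isClosed_Iic) inter_subset_left
  · rintro ⟨G, hG, hp⟩
    have hy' : y ∈ ov X Ω := ⟨hy.1.1, hy.2⟩
    refine h.np y hy' hK ⟨G, hG, ?_⟩
    have h1 := eventually_nhdsWithin_iff.1 ((hφ y hy').eventually (gt_mem_nhds (hc y hy' hK)))
    filter_upwards [hp, h1] with x a b hx using a ⟨hx, fun h' => (b ⟨hx, h'⟩).le⟩

theorem bd_ov {X K : Set E} {Ω U : Set ℂ} (hU : IsOpen U) (hs : U ⊆ Ω) {y : E}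
    (hy : y ∈ Bd X K (ov X Ω)) : y ∈ K ∨ y.1 ∉ U := by
  refine hy.2.imp_right fun h h' => h ?_
  filter_upwards [continuous_fst.continuousAt.eventually (hU.mem_nhds h')] with x a hx
    using ⟨hx, hs a⟩

theorem pw_shift {e ι ι2 ι' C0 lev : ℝ} {Ψ Ψy : ℝ → ℝ → ℂ} (h : PW univ e ι ι' C0 lev Ψ Ψy)
    (hι : ι ≤ ι2) (t : ℝ) :
    PW (Icc (-1) 1) e ι2 ι' C0 lev (fun x y => Ψ (t + x) y) (fun x y => Ψy (t + x) y) := by
  have s0 : ∀ v, 0 ≤ ss e v := fun v => le_min (norm_nonneg _) (norm_nonneg _)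
  have i0 : 0 < ι := h.pos.trans_le h.le
  refine ⟨h.pos, h.le.trans hι, fun x _ y hy => h.der _ trivial y hy, fun x _ y hy => ?_,
    fun x _ y hy => h.hb _ trivial y hy, fun x _ y hy hl x' _ hx => ?_, fun x _ y hy hl => ?_⟩
  · have h1 := h.hc (t + x) trivial y hy
    have h2 : 0 ≤ (Ψy (t + x) y).re := nonneg_of_mul_nonneg_right ((abs_nonneg _).trans h1) i0
    exact h1.trans (mul_le_mul_of_nonneg_right hι h2)
  · have h1 := h.hd (t + x) trivial y hy hl (t + x') (subset_univ _)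
      (by rwa [add_sub_add_left_eq_sub])
    rw [add_sub_add_left_eq_sub] at h1
    exact ⟨h1.1, h1.2.trans (mul_le_mul_of_nonneg_right
      (mul_le_mul_of_nonneg_right hι (abs_nonneg _)) (s0 _))⟩
  · exact (h.he (t + x) trivial y hy hl).trans (mul_le_mul_of_nonneg_right hι (s0 _))

theorem lre_log (γ : ℝ) {Z : Set E} (hZ : ∀ y ∈ Z, y.1 ≠ 0) :
    LRe (fun y => -(γ * Real.log ‖y.1‖)) Z := by
  intro y hy
  have h0 := hZ y hy
  refine ⟨fun x => -(γ * (Complex.log (x.1 / y.1) + Real.log ‖y.1‖)), ?_, ?_⟩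
  · refine (analyticAt_const.mul (AnalyticAt.add (AnalyticAt.clog ?_ ?_) analyticAt_const)).neg
    · exact analyticAt_fst.div_const
    · simp [h0]
  · filter_upwards [continuous_fst.continuousAt.eventually_ne h0] with x hx
    simp only [Complex.neg_re, Complex.re_ofReal_mul, Complex.add_re, Complex.log_re,
      Complex.ofReal_re, norm_div]
    rw [Real.log_div (norm_ne_zero_iff.2 hx) (norm_ne_zero_iff.2 h0), sub_add_cancel]

theorem box_cpt (σ : ℝ) : IsCompact (box 0 1 σ) := by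
  refine Metric.isCompact_of_isClosed_isBounded ?_
    ((isBounded_closedBall (x := (0 : ℂ)) (r := 1 + σ)).subset fun z hz => ?_)
  · exact (isClosed_le (f := fun z : ℂ => |z.re - 0|) (by fun_prop) continuous_const).inter
      (isClosed_le (f := fun z : ℂ => |z.im|) (by fun_prop) continuous_const)
  · have h1 := hz.1
    rw [sub_zero] at h1
    exact mem_closedBall_zero_iff.2
      ((Complex.norm_le_abs_re_add_abs_im z).trans (add_le_add h1 hz.2))

theorem norm_chart (η t : ℝ) (ξ : ℂ) :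
    ‖Complex.exp (η - Complex.I * (t + ξ))‖ = Real.exp (η + ξ.im) := by
  rw [Complex.norm_exp]
  simp

theorem chart_eq (η t : ℝ) (ξ : ℂ) : Complex.exp (η - Complex.I * (t + ξ)) =
    Complex.exp (η - Complex.I * (((t + ξ.re : ℝ) : ℂ) + (ξ.im : ℝ) * Complex.I)) := by
  rw [Complex.ofReal_add, add_assoc, Complex.re_add_im]

theorem chart_surj (η : ℝ) {z : ℂ} (hz : z ≠ 0) : Complex.exp (η - Complex.I *
    (((-z.arg : ℝ) : ℂ) + ((Real.log ‖z‖ - η : ℝ) : ℂ) * Complex.I)) = z := by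
  have e : (η : ℂ) - Complex.I * (((-z.arg : ℝ) : ℂ) + ((Real.log ‖z‖ - η : ℝ) : ℂ) * Complex.I) =
      (Real.log ‖z‖ : ℝ) + z.arg * Complex.I := by
    push_cast
    linear_combination (η - (Real.log ‖z‖ : ℂ)) * Complex.I_mul_I
  rw [e]
  exact Complex.exp_log hz

theorem le_shift {a M u v : ℝ} (h : a * Real.exp u ≤ M * Real.exp v) {w : ℝ} (hM : 0 ≤ M)
    (hw : v - u ≤ w) : a ≤ M * Real.exp w := by
  rw [← le_div_iff₀ (Real.exp_pos u), mul_div_assoc, ← Real.exp_sub] at h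
  exact h.trans (mul_le_mul_of_nonneg_left (Real.exp_le_exp.2 hw) hM)

theorem shift_le {a M u v : ℝ} (h : a ≤ M * Real.exp v) {w : ℝ} (hM : 0 ≤ M)
    (hw : v + u ≤ w) : a * Real.exp u ≤ M * Real.exp w := by
  refine (mul_le_mul_of_nonneg_right h (Real.exp_pos u).le).trans ?_
  rw [mul_assoc, ← Real.exp_add]
  exact mul_le_mul_of_nonneg_left (Real.exp_le_exp.2 hw) hM

end PP2

open PP2 in
theorem st_pp2 (hNW : St_NW) (hP : St_PULL) (hM : St_MPabs) : St_PP2 := by
  intro γ C0 hγ hγ2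
  obtain ⟨σ, σ0, σ1, h1⟩ := hNW (1 / 8) (by norm_num)
  have γσ : 0 < γ * σ := mul_pos hγ σ0
  have γσ2 : γ * σ ≤ σ / 2 := by nlinarith
  obtain ⟨ι, ι0, nw⟩ := h1 σ (2 * (γ * σ)) (γ * σ / 4) 0 C0 σ0 le_rfl (by linarith) (by linarith)
  refine ⟨min ι (σ / 8), lt_min ι0 (by linarith), ?_⟩
  intro X K N e Mst Mup B he np an pph hB B0 up top y0 hy0 hK0
  by_contra hcon
  let φ : E → ℝ := fun y => ‖pp e (y.1 * N y)‖ * ‖y.1‖ ^ γ
  let R : E → ℂ := fun y => N y * (y.1 * N y - e)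
  have hS : BddAbove (φ '' (ov X (closedBall 0 1) \ K)) := ⟨Mup, by
    rintro _ ⟨y, hy, rfl⟩
    exact up y hy.1 hy.2⟩
  have hne : (φ '' (ov X (closedBall 0 1) \ K)).Nonempty := ⟨_, y0, ⟨hy0, hK0⟩, rfl⟩
  obtain ⟨M, hMd⟩ : ∃ M, M = sSup (φ '' (ov X (closedBall 0 1) \ K)) := ⟨_, rfl⟩
  have leM : ∀ y ∈ ov X (closedBall 0 1), y ∉ K → φ y ≤ M := fun y a b =>
    hMd ▸ le_csSup hS ⟨y, ⟨a, b⟩, rfl⟩
  have BM : B < M := (not_le.1 hcon).trans_le (leM y0 hy0 hK0)
  have M0 : 0 < M := B0.trans_lt BM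
  obtain ⟨η, ι', lev, Ψ, Ψy, hη, pw, hlev, H1, H2, H3⟩ := pph M (hB.trans_lt BM)
    (hMd ▸ csSup_le hne (by
      rintro _ ⟨y, hy, rfl⟩
      exact up y hy.1 hy.2))
  have ι1 : ι' ≤ σ / 8 := pw.le.trans (min_le_right _ _)
  have γι : γ * ι' ≤ σ / 16 := by nlinarith [pw.pos]
  have Me : M / Real.exp 1 = M * Real.exp (-1) := by rw [Real.exp_neg, div_eq_mul_inv]
  have anV : AnalyticOnNhd ℂ (fun y : E => y.1 * N y) (ov X (closedBall 0 1)) := fun y hy =>
    analyticAt_fst.mul (an y hy)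
  have anP : AnalyticOnNhd ℂ (fun y : E => pp e (y.1 * N y)) (ov X (closedBall 0 1)) := fun y hy =>
    (anV y hy).mul ((anV y hy).sub analyticAt_const)
  have anR : AnalyticOnNhd ℂ R (ov X (closedBall 0 1)) := fun y hy =>
    (an y hy).mul ((anV y hy).sub analyticAt_const)
  have cφ : ContinuousOn φ (ov X (closedBall 0 1)) :=
    anP.continuousOn.norm.mul (continuous_fst.norm.rpow_const fun _ => Or.inr hγ.le).continuousOn
  have φP : ∀ (y : E) (L : ℝ), ‖y.1‖ = Real.exp L →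
      φ y = ‖pp e (y.1 * N y)‖ * Real.exp (γ * L) := fun y L h => by
    simp only [φ]
    rw [h, ← Real.exp_mul, mul_comm L]
  have PR : ∀ (y : E) (L : ℝ), ‖y.1‖ = Real.exp L →
      ‖pp e (y.1 * N y)‖ = ‖R y‖ * Real.exp L := fun y L h => by
    rw [← h, ← norm_mul]
    congr 1
    simp only [pp, R]
    ring
  have φR : ∀ (y : E) (L : ℝ), ‖y.1‖ = Real.exp L →
      φ y = ‖R y‖ * Real.exp (L + γ * L) := fun y L h => by
    rw [φP y L h, PR y L h, Real.exp_add, mul_assoc]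
  have lg : ∀ y : E, y.1 ≠ 0 → ‖y.1‖ = Real.exp (Real.log ‖y.1‖) := fun y h =>
    (Real.exp_log (norm_pos_iff.2 h)).symm
  have φ0 : ∀ y : E, y.1 = 0 → φ y = 0 := fun y h => by simp [φ, h, pp]
  obtain ⟨X', hX'⟩ : ∃ X' : Set E,
    X' = {x | x ∈ X ∧ (x.1 ∈ closedBall (0 : ℂ) 1 → φ x ≤ M * Real.exp (σ / 4))} := ⟨_, rfl⟩
  have Mlt : M < M * Real.exp (σ / 4) :=
    lt_mul_of_one_lt_right M0 (Real.one_lt_exp_iff.2 (by linarith))
  have np' : NP X' K (closedBall 0 1) :=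
    hX' ▸ np_trunc np cφ fun y a b => (leM y a b).trans_lt Mlt
  have mX : ∀ y ∈ X', y.1 ∈ closedBall (0 : ℂ) 1 →
      y ∈ ov X (closedBall 0 1) ∧ φ y ≤ M * Real.exp (σ / 4) := fun y a b => by
    rw [hX'] at a
    exact ⟨⟨a.1, b⟩, a.2 b⟩
  have mX' : ∀ y ∈ ov X (closedBall 0 1), y ∉ K → y ∈ X' := fun y a b => by
    rw [hX']
    exact ⟨a.1, fun _ => ((leM y a b).trans_lt Mlt).le⟩
  have H1' : ∀ y ∈ X', y.1 ∈ closedBall (0 : ℂ) 1 → y ∈ K → M * Real.exp (-1) < φ y →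
      |Real.log ‖y.1‖ - η| ≤ ι' ∧ ∀ t s : ℝ,
        y.1 = Complex.exp (η - Complex.I * (t + s * Complex.I)) → y.1 * N y = Ψ t s :=
    fun y a b c d => H1 y (mX y a b).1 c (Me ▸ d) ((mX y a b).2.trans (by
      rw [mul_comm]
      exact mul_le_mul_of_nonneg_right (Real.exp_le_exp.2 (by linarith)) M0.le))
  have sub1 : closedBall (0 : ℂ) (Real.exp η) ⊆ closedBall 0 1 :=
    closedBall_subset_closedBall (Real.exp_le_one_iff.2 (by linarith))
  have SA : ∀ y ∈ X', ‖y.1‖ ≤ Real.exp η → ‖R y‖ ≤ M * Real.exp (-(η + γ * η) + σ / 2) := by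
    intro y a b
    have h2 := hM X' K _ R (fun _ => 0) (M * Real.exp (-(η + γ * η) + σ / 2))
      (np_mono np' isClosed_closedBall sub1) (fun y hy => anR y (mX y hy.1 (sub1 hy.2)).1)
      (fun y _ => ⟨fun _ => 0, analyticAt_const, Eventually.of_forall fun _ => rfl⟩)
      (by positivity) (fun y hy => ?_) y ⟨a, mem_closedBall_zero_iff.2 b⟩
    · simpa using h2
    · obtain ⟨m1, m2⟩ := mX y hy.1.1 (sub1 hy.1.2)
      have m3 := mem_closedBall_zero_iff.1 hy.1.2
      rw [neg_zero, Real.exp_zero, mul_one]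
      by_cases hK : y ∈ K
      · rcases le_or_gt (φ y) (M * Real.exp (-1)) with c | c
        · exact (H3 y m1 hK m3 (Me ▸ c)).trans (mul_le_mul_of_nonneg_left
            (Real.exp_le_exp.2 (by linarith)) M0.le)
        · have z0 : y.1 ≠ 0 := fun h => by
            rw [φ0 y h] at c
            exact absurd c (not_lt.2 (by positivity))
          have h3 := (abs_le.1 (H1' y hy.1.1 (sub1 hy.1.2) hK c).1).1
          rw [φR y _ (lg y z0)] at m2
          exact le_shift m2 M0.le (by nlinarith)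
      · have h3 := (bd_ov isOpen_ball ball_subset_closedBall hy).resolve_left hK
        have h4 : ‖y.1‖ = Real.exp η := le_antisymm m3 (by simpa using h3)
        have h5 := leM y m1 hK
        rw [φR y _ h4, ← mul_one M, ← Real.exp_zero] at h5
        exact le_shift h5 M0.le (by linarith)
  have SB : ∀ y ∈ X', y ∉ K → ∀ s : ℝ, ‖y.1‖ = Real.exp (η + s) → -σ ≤ s → s ≤ σ / 4 →
      φ y ≤ M * Real.exp (-(γ * σ / 4)) := by
    intro y a b s hs s1 s2
    have z0 : y.1 ≠ 0 := fun h => by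
      rw [h, norm_zero] at hs
      exact (Real.exp_pos _).ne hs
    let t : ℝ := -(y.1).arg
    let c : ℂ → ℂ := fun ξ => Complex.exp (η - Complex.I * (t + ξ))
    have anc : ∀ ξ, AnalyticAt ℂ c ξ := fun ξ => by fun_prop
    have cD : ∀ ξ ∈ box 0 1 σ, c ξ ∈ closedBall (0 : ℂ) 1 := fun ξ hξ => by
      rw [mem_closedBall_zero_iff, norm_chart]
      exact Real.exp_le_one_iff.2 (by linarith [(abs_le.1 hξ.2).2])
    have dc : ∀ ξ, deriv c ξ ≠ 0 := fun ξ => by
      have h2 : HasDerivAt c (c ξ * (0 - Complex.I * 1)) ξ :=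
        ((hasDerivAt_const ξ (η : ℂ)).sub
          (((hasDerivAt_id ξ).const_add (t : ℂ)).const_mul Complex.I)).cexp
      rw [h2.deriv]
      exact mul_ne_zero (Complex.exp_ne_zero _) (by simp)
    have anb : ∀ x : E, AnalyticAt ℂ (bc c) x := fun x =>
      ((anc x.1).comp analyticAt_fst).prod analyticAt_snd
    have nQ : ∀ v : ℂ, ‖v * Complex.exp ((γ * η + γ * σ - Real.log M : ℝ) : ℂ)‖ =
        ‖v‖ * Real.exp (γ * η + γ * σ) / M := fun v => by
      rw [norm_mul, Complex.norm_exp, Complex.ofReal_re, Real.exp_sub, Real.exp_log M0,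
        mul_div_assoc]
    have big : ∀ x ∈ ov (bc c ⁻¹' X') (box 0 1 σ), 1 < ‖pp e ((bc c x).1 * N (bc c x)) *
        Complex.exp ((γ * η + γ * σ - Real.log M : ℝ) : ℂ)‖ → M * Real.exp (-1) < φ (bc c x) := by
      intro x hx h
      rw [nQ, one_lt_div M0] at h
      by_contra hn
      rw [not_lt, φP _ _ (norm_chart η t x.1)] at hn
      have h3 := shift_le (u := γ * η + γ * σ) (le_shift hn M0.le le_rfl) (w := 0) M0.le
        (by nlinarith [(abs_le.1 hx.2.2).1])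
      rw [Real.exp_zero, mul_one] at h3
      exact absurd h (not_lt.2 h3)
    have key := nw (bc c ⁻¹' X') (bc c ⁻¹' K) (fun x => (bc c x).1 * N (bc c x))
      (fun _ => ((γ * η + γ * σ - Real.log M : ℝ) : ℂ)) e ι' lev 0 _ _ he
      (hP X' K _ _ c np' (box_cpt σ) fun ξ hξ => ⟨anc ξ, dc ξ, cD ξ hξ⟩)
      (fun x hx => (anV _ (mX _ hx.1 (cD _ hx.2)).1).comp (anb x))
      (fun _ _ => analyticAt_const) (fun _ _ => by simp) (fun _ _ => by
        rw [Complex.ofReal_im, sub_zero, abs_zero]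
        exact ι0.le)
      (pw_shift pw (min_le_left _ _) t) (fun _ _ => by
        rw [Complex.ofReal_re, Real.exp_sub, Real.exp_log M0, ← mul_div_assoc, div_le_one M0]
        have h3 := shift_le (u := γ * η + γ * σ) hlev (w := 0) M0.le (by linarith)
        rwa [Real.exp_zero, mul_one] at h3)
      (fun x hx hK h => by
        obtain ⟨h3, h4⟩ := H1' _ hx.1 (cD _ hx.2) hK (big x hx h)
        refine ⟨?_, h4 _ _ (chart_eq η t x.1)⟩
        have h5 : ‖(bc c x).1‖ = Real.exp (η + x.1.im) := norm_chart η t x.1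
        rwa [h5, Real.log_exp, add_sub_cancel_left] at h3)
      (fun x hx h h3 h4 => H2 _ (mX _ hx.1 (cD _ hx.2)).1 (Me ▸ big x hx h) _ _ h3
        (chart_eq η t x.1) h4)
      (fun x hx hK => by
        have h5 : ‖(bc c x).1‖ = Real.exp (η + x.1.im) := norm_chart η t x.1
        have h3 := leM _ (mX _ hx.1 (cD _ hx.2)).1 hK
        rw [φP _ _ h5, ← mul_one M, ← Real.exp_zero] at h3
        have h4 := le_shift h3 M0.le le_rfl
        rw [nQ, div_le_iff₀ M0, div_le_one M0, mul_comm _ M]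
        refine ⟨shift_le h4 M0.le (by nlinarith [(abs_le.1 hx.2.2).1]), fun h6 => ?_⟩
        rw [← mul_one M, ← Real.exp_zero]
        rcases (abs_eq σ0.le).1 h6 with h7 | h7
        · exact shift_le h4 M0.le (by rw [h7]; linarith)
        · rw [PR _ _ h5]
          refine shift_le (shift_le (SA _ hx.1 ?_) M0.le le_rfl) M0.le (by rw [h7]; linarith)
          rw [h5]
          exact Real.exp_le_exp.2 (by linarith))
    have hl : Real.log ‖y.1‖ - η = s := by rw [hs, Real.log_exp, add_sub_cancel_left]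
    have e1 : bc c ((s : ℂ) * Complex.I, y.2) = y := by
      refine Prod.ext ?_ rfl
      rw [← hl]
      exact chart_surj η z0
    have h6 := key ((s : ℂ) * Complex.I, y.2) ⟨by rw [mem_preimage, e1]; exact a, by
      constructor
      · simp
      · simp only [Complex.mul_im, Complex.ofReal_re, Complex.I_im, mul_one, Complex.ofReal_im,
          Complex.I_re, mul_zero, add_zero]
        exact abs_le.2 ⟨s1, by linarith⟩⟩ (by rw [mem_preimage, e1]; exact b)
    simp only [e1] at h6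
    rw [nQ, div_le_iff₀ M0, mul_comm _ M] at h6
    rw [φP y _ hs]
    exact shift_le (le_shift h6 M0.le le_rfl) M0.le (by nlinarith)
  have SC : ∀ y ∈ X', Real.exp (η + σ / 4) ≤ ‖y.1‖ → ‖y.1‖ ≤ 1 →
      φ y ≤ max B (M * Real.exp (-(γ * σ / 4))) := by
    intro y a b c
    have sub2 : {z : ℂ | Real.exp (η + σ / 4) ≤ ‖z‖ ∧ ‖z‖ ≤ 1} ⊆ closedBall 0 1 := fun z hz =>
      mem_closedBall_zero_iff.2 hz.2
    have nz : ∀ y ∈ ov X' {z : ℂ | Real.exp (η + σ / 4) ≤ ‖z‖ ∧ ‖z‖ ≤ 1}, y.1 ≠ 0 :=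
      fun y hy => norm_pos_iff.1 ((Real.exp_pos _).trans_le hy.2.1)
    have h2 := hM X' K _ (fun y : E => pp e (y.1 * N y)) _ (max B (M * Real.exp (-(γ * σ / 4))))
      (np_mono np' ((isClosed_le continuous_const continuous_norm).inter
        (isClosed_le continuous_norm continuous_const)) sub2)
      (fun y hy => anP y (mX y hy.1 (sub2 hy.2)).1) (lre_log γ nz) (le_max_of_le_left B0)
      (fun y hy => ?_) y ⟨a, b, c⟩
    · rwa [neg_neg, ← φP y _ (lg y (nz y ⟨a, b, c⟩))] at h2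
    · have z0 := nz y hy.1
      rw [neg_neg, ← φP y _ (lg y z0)]
      by_cases hK : y ∈ K
      · rcases le_or_gt (φ y) (M * Real.exp (-1)) with c | c
        · exact le_max_of_le_right (c.trans (mul_le_mul_of_nonneg_left
            (Real.exp_le_exp.2 (by linarith)) M0.le))
        · have h3 := (abs_le.1 (H1' y hy.1.1 (sub2 hy.1.2) hK c).1).2
          have h4 := (Real.le_log_iff_exp_le (norm_pos_iff.2 z0)).2 hy.1.2.1
          linarith
      · have h3 := (bd_ov (U := {z : ℂ | Real.exp (η + σ / 4) < ‖z‖ ∧ ‖z‖ < 1})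
          ((isOpen_lt continuous_const continuous_norm).inter
            (isOpen_lt continuous_norm continuous_const))
          (fun z hz => And.intro hz.1.le hz.2.le) hy).resolve_left hK
        rcases (show ‖y.1‖ ≤ 1 from hy.1.2.2).eq_or_lt with h4 | h4
        · refine le_max_of_le_left ?_
          simp only [φ]
          rw [h4, Real.one_rpow, mul_one]
          exact top y (mX y hy.1.1 (sub2 hy.1.2)).1.1 hK h4
        · rcases (show Real.exp (η + σ / 4) ≤ ‖y.1‖ from hy.1.2.1).eq_or_lt with h5 | h5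
          · exact le_max_of_le_right (SB y hy.1.1 hK _ h5.symm (by linarith) le_rfl)
          · exact absurd ⟨h5, h4⟩ h3
  have fin : M ≤ max B (M * Real.exp (-(γ * σ / 4))) := by
    refine hMd.trans_le (csSup_le hne ?_)
    rintro _ ⟨y, ⟨a, b⟩, rfl⟩
    have m := mX' y a b
    by_cases z0 : y.1 = 0
    · rw [φ0 y z0]
      exact le_max_of_le_left B0
    have h2 := lg y z0
    rcases le_total (η + σ / 4) (Real.log ‖y.1‖) with c | c
    · exact SC y m (by rw [h2]; exact Real.exp_le_exp.2 c) (mem_closedBall_zero_iff.1 a.2)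
    refine le_max_of_le_right ?_
    rcases le_total (η - σ) (Real.log ‖y.1‖) with d | d
    · exact SB y m b (Real.log ‖y.1‖ - η) (by rw [add_sub_cancel]; exact h2) (by linarith)
        (by linarith)
    · rw [φR y _ h2]
      refine shift_le (SA y m ?_) M0.le (by nlinarith)
      rw [h2]
      exact Real.exp_le_exp.2 (by linarith)
  exact absurd fin (not_le.2 (max_lt BM
    (mul_lt_of_lt_one_right M0 (Real.exp_lt_one_iff.2 (by linarith)))))

end Pool.Agent.Lib.SH
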