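import Pool.Agent.Lib.SH.Blue3

/-!
Port hypotheses from a description of the wall by a sum.
-/

open Set Filter Topology Metric

noncomputable section

namespace Pool.Agent.Lib.SH

namespace PPS

theorem norm_ch (η t s : ℝ) :
    ‖Complex.exp (η - Complex.I * (t + s * Complex.I))‖ = Real.exp (η + s) := by
  rw [Complex.norm_exp]
  simp

theorem near_le {γ η M e : ℝ} {z n : ℂ} (h0 : 0 < γ) (h1 : γ ≤ 1 / 2)
    (hz : Real.exp (η - 1 / 2) ≤ ‖z‖) (h : ‖pp e (z * n)‖ * ‖z‖ ^ γ ≤ M / Real.exp 1) :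
    ‖n * (z * n - e)‖ ≤ M * Real.exp (-(1 + γ) * η) := by
  have e1 : ‖pp e (z * n)‖ = ‖z‖ * ‖n * (z * n - e)‖ := by
    rw [← norm_mul, pp, mul_assoc]
  have a1 : Real.exp (η - 1 / 2) ^ γ ≤ ‖z‖ ^ γ :=
    Real.rpow_le_rpow (Real.exp_pos _).le hz h0.le
  rw [← Real.exp_mul] at a1
  have a2 : Real.exp (η - 1 / 2) * Real.exp ((η - 1 / 2) * γ) ≤ ‖z‖ * ‖z‖ ^ γ :=
    mul_le_mul hz a1 (Real.exp_pos _).le (norm_nonneg _)
  rw [← Real.exp_add] at a2
  have a3 : Real.exp ((1 + γ) * η - 1) ≤ ‖z‖ * ‖z‖ ^ γ :=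
    le_trans (Real.exp_le_exp.2 (by nlinarith)) a2
  have a4 : ‖n * (z * n - e)‖ * Real.exp ((1 + γ) * η - 1) ≤ M / Real.exp 1 := by
    refine le_trans (mul_le_mul_of_nonneg_left a3 (norm_nonneg _)) (le_trans (le_of_eq ?_) h)
    rw [e1]; ring
  rw [Real.exp_sub, ← mul_div_assoc, div_le_div_iff_of_pos_right (Real.exp_pos 1)] at a4
  rw [neg_mul, Real.exp_neg, ← div_eq_mul_inv, le_div_iff₀ (Real.exp_pos _)]
  exact a4

theorem mono_of {f f' : ℝ → ℝ} {a b : ℝ} (hab : a ≤ b)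
    (h : ∀ y ≤ b, HasDerivAt f (f' y) y ∧ 0 ≤ f' y) : f a ≤ f b := by
  rcases hab.eq_or_lt with rfl | hlt
  · exact le_rfl
  obtain ⟨c, hc, hc'⟩ := exists_hasDerivAt_eq_slope f f' hlt
    (fun y hy => (h y hy.2).1.continuousAt.continuousWithinAt) fun y hy => (h y hy.2.le).1
  have h1 := (h c hc.2.le).2
  rw [hc', le_div_iff₀ (by linarith)] at h1
  linarith

theorem grow {S S' : ℝ → ℝ} {k a b : ℝ} (hab : a ≤ b)
    (h : ∀ y ≤ b, HasDerivAt S (S' y) y ∧ k * S y ≤ S' y) :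
    S a * Real.exp (k * (b - a)) ≤ S b := by
  have h1 := mono_of (f := fun y => S y * Real.exp (-k * y))
    (f' := fun y => S' y * Real.exp (-k * y) + S y * (Real.exp (-k * y) * (-k * 1))) hab
    fun y hy => ⟨(h y hy).1.mul ((hasDerivAt_id y).const_mul (-k)).exp, by
      have := mul_le_mul_of_nonneg_right (h y hy).2 (Real.exp_pos (-k * y)).le
      linarith⟩
  have h2 := mul_le_mul_of_nonneg_right h1 (Real.exp_pos (k * b)).le
  simp only [mul_assoc, ← Real.exp_add] at h2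
  have e1 : -k * a + k * b = k * (b - a) := by ring
  have e2 : -k * b + k * b = 0 := by ring
  rwa [e1, e2, Real.exp_zero, mul_one] at h2

theorem dir_of {u : ℂ → ℂ} {ω ω' C η : ℝ} {w : ℂ} (h0 : 0 < ω') (h1 : ω' ≤ ω)
    (h : DirZ u ω' C (Complex.exp (η - Complex.I * w))) :
    Dir (fun z => u (Complex.exp (η - Complex.I * z))) ω C w := by
  obtain ⟨a1, a2, a3, a4⟩ := h
  have hin : HasDerivAt (fun z : ℂ => Complex.exp (η - Complex.I * z))
      (Complex.exp (η - Complex.I * w) * -(Complex.I * 1)) w :=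
    (((hasDerivAt_id w).const_mul Complex.I).const_sub (η : ℂ)).cexp
  have hd : deriv (fun z => u (Complex.exp (η - Complex.I * z))) w =
      -Complex.I * (Complex.exp (η - Complex.I * w) * deriv u (Complex.exp (η - Complex.I * w))) := by
    have := (a1.differentiableAt.hasDerivAt.comp w hin).deriv
    rw [show (fun z => u (Complex.exp (η - Complex.I * z))) =
      u ∘ fun z : ℂ => Complex.exp (η - Complex.I * z) from rfl, this]
    ring
  have hre : 0 ≤ (u (Complex.exp (η - Complex.I * w))).re :=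
    (mul_nonneg_iff_of_pos_left h0).1 (le_trans (abs_nonneg _) a2)
  refine ⟨a1.comp (f := fun z : ℂ => Complex.exp (η - Complex.I * z)) (by fun_prop),
    a2.trans (mul_le_mul_of_nonneg_right h1 hre), ?_, ?_⟩
  · rw [hd, norm_mul, norm_neg, Complex.norm_I, one_mul]
    exact a3
  · rw [hd]
    refine le_trans (le_of_eq ?_) (a4.trans (mul_le_mul_of_nonneg_right h1 (norm_nonneg _)))
    rw [Complex.mul_im]
    simp [abs_sub_comm]

theorem sum_bounds {I : Type} [Fintype I] {b : I → ℝ} {v : I → ℂ} (hb : ∀ i, 0 ≤ b i)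
    (h1 : ∀ i, |(v i).im| ≤ 1 / 5 * (v i).re) (h2 : ∀ i, 1 / 2 ≤ ‖v i‖) (h3 : ∀ i, ‖v i‖ ≤ 2) :
    ∑ i, b i ≤ 3 * ‖∑ i, (b i : ℂ) * v i‖ ∧ ‖∑ i, (b i : ℂ) * v i‖ ≤ 2 * ∑ i, b i := by
  constructor
  · refine le_trans ?_ (mul_le_mul_of_nonneg_left (Complex.re_le_norm _) (by norm_num))
    rw [Complex.re_sum, Finset.mul_sum]
    refine Finset.sum_le_sum fun i _ => ?_
    have a1 := Complex.norm_le_abs_re_add_abs_im (v i)
    have a2 : 0 ≤ (v i).re := by have := abs_nonneg (v i).im; linarith [h1 i]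
    rw [abs_of_nonneg a2] at a1
    have a3 : 1 ≤ 3 * (v i).re := by linarith [h1 i, h2 i]
    rw [Complex.re_ofReal_mul]
    nlinarith [hb i]
  · refine (norm_sum_le _ _).trans ?_
    rw [Finset.mul_sum]
    refine Finset.sum_le_sum fun i _ => ?_
    rw [norm_mul, Complex.norm_real, Real.norm_eq_abs, abs_of_nonneg (hb i)]
    nlinarith [hb i, h3 i]

theorem pp_zero (v : ℂ) : ‖pp 0 v‖ = ‖v‖ ^ 2 := by simp [pp, sq]

end PPS

open PPS in
theorem st_pps2 (hP : St_PWS) : St_PPS2 := by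
  intro ι C hι hC
  obtain ⟨ω, hω, H⟩ := hP ι C hι hC
  refine ⟨ω, hω, ?_⟩
  intro I _ X K N Ef Ef' u a e e0 γ ι' η lev Mst Mup g0 g1 i0 i1 hη hM0 hlev hW hcase k1 k2 k3
    M hM _
  obtain ⟨P1, P2⟩ := H I univ Ef Ef' _ a e0 ι' i0 i1 hW
  have hM' : 0 ≤ M := by linarith
  have hd : Mst / Real.exp 1 ≤ M / Real.exp 1 :=
    div_le_div_of_nonneg_right hM.le (Real.exp_pos 1).le
  have hPW : ∃ lev', PW univ e ι ι' (4 * C * Real.exp (2 * C)) lev'
      (wsum Ef fun i z => u i (Complex.exp (η - Complex.I * z)))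
      (wsumy Ef Ef' fun i z => u i (Complex.exp (η - Complex.I * z))) ∧
      lev' ≤ M * Real.exp (-γ * η - 1) := by
    rcases hcase with ⟨rfl, h⟩ | ⟨rfl, -, h⟩
    · exact ⟨lev, P1 lev fun x _ => h x, hlev.trans
        (mul_le_mul_of_nonneg_right hM.le (Real.exp_pos _).le)⟩
    · exact ⟨0, P2 h, by positivity⟩
  obtain ⟨lev', Q1, Q2⟩ := hPW
  have lg : ∀ (z : ℂ) (t s : ℝ), z = Complex.exp (η - Complex.I * (t + s * Complex.I)) →
      Real.log ‖z‖ - η = s := by
    intro z t s hz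
    rw [hz, norm_ch, Real.log_exp]; ring
  refine ⟨η, ι', lev', _, _, hη, Q1, Q2, fun y hy hK h1 _ => ?_, fun y hy h1 t s hs hz hV => ?_,
    fun y hy hK h1 h2 => ?_⟩
  · obtain ⟨b1, b2⟩ := k1 y hy hK (lt_of_le_of_lt hd h1)
    refine ⟨b1, fun t s hz => ?_⟩
    rw [b2, lg _ t s hz]
    simp only [wsum, ← hz]
  · refine k2 y hy (lt_of_le_of_lt hd h1) (by rwa [lg _ t s hz]) ?_
    rw [hV, lg _ t s hz]
    simp only [wsum, ← hz]
  · rcases le_total ‖y.1‖ (Real.exp (η - 1 / 2)) with h | h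
    · exact (k3 y hy hK h).trans (mul_le_mul_of_nonneg_right hM.le (Real.exp_pos _).le)
    · exact near_le g0 g1 h h2

open PPS in
theorem st_pps (hP : St_PWS) : St_PPS := by
  intro ι C hι hC
  obtain ⟨ω, hω, H⟩ := hP ι C hι hC
  refine ⟨min ω (1 / 5), by positivity, ?_⟩
  intro I _ X K N Ef Ef' u γ ι' y0 yt Mup g0 g1 i0 i1 hyt hE hS hu hup k1 k2 M hM hM1
  have i2 : ι' ≤ 1 / 5 := i1.trans (min_le_right _ _)
  have E0 : ∀ i, ∀ y ≤ yt + 2 * ι', 0 ≤ Ef i y := by
    intro i y hy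
    have h1 := mono_of (f := Ef i) (f' := Ef' i) (min_le_left y y0)
      fun x hx => ⟨(hE i x (hx.trans hy)).1, (hE i x (hx.trans hy)).2.1⟩
    rwa [(hE i _ ((min_le_left y y0).trans hy)).2.2 (min_le_right _ _)] at h1
  set S : ℝ → ℝ := fun y => ∑ i, Ef i y with hSd
  have S0 : ∀ y ≤ yt + 2 * ι', 0 ≤ S y := fun y hy => Finset.sum_nonneg fun i _ => E0 i y hy
  have Sd : ∀ y ≤ yt + 2 * ι', HasDerivAt S (∑ i, Ef' i y) y := fun y hy =>
    HasDerivAt.fun_sum fun i _ => (hE i y hy).1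
  have gr : ∀ a b, a ≤ b → b ≤ yt + 2 * ι' → S a * Real.exp (32 / ι' * (b - a)) ≤ S b := by
    intro a b hab hb
    refine grow hab fun y hy => ⟨Sd y (hy.trans hb), ?_⟩
    have := mul_le_mul_of_nonneg_left (hS y (hy.trans hb)) (by positivity : 0 ≤ 32 / ι')
    refine this.trans (le_of_eq ?_)
    field_simp
  have gr' : ∀ a b, a + ι' ≤ b → b ≤ yt + 2 * ι' → 33 * S a ≤ S b := by
    intro a b hab hb
    refine le_trans ?_ (gr a b (by linarith) hb)
    have h1 : 32 ≤ 32 / ι' * (b - a) := by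
      rw [div_mul_eq_mul_div, le_div_iff₀ i0]; linarith
    have h2 := Real.add_one_le_exp (32 / ι' * (b - a))
    have h3 := S0 a (by linarith)
    nlinarith
  obtain ⟨η, ⟨-, hη⟩, hηM⟩ : M ∈ (fun y => S y ^ 2 * Real.exp (γ * y)) '' Icc (min y0 yt) yt := by
    refine intermediate_value_Icc (min_le_right _ _) (fun y hy => ?_) ⟨?_, hM1.trans hup⟩
    · exact ((((Sd y (by linarith [hy.2])).continuousAt).pow 2).mul
        (by fun_prop)).continuousWithinAt
    · have : S (min y0 yt) = 0 := Finset.sum_eq_zero fun i _ =>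
        (hE i _ (by linarith [min_le_right y0 yt])).2.2 (min_le_left _ _)
      simp [this, hM.le]
  simp only at hηM
  have hin : ∀ (x y : ℝ), y ≤ 2 * ι' →
      Complex.exp (η - Complex.I * (x + y * Complex.I)) ∈ closedBall (0 : ℂ) 1 := by
    intro x y hy
    rw [mem_closedBall_zero_iff, norm_ch]
    exact Real.exp_le_one_iff.2 (by linarith)
  have st : ∀ x : ℝ, ∀ y ∈ Icc (-(2 * ι')) (2 * ι'), Steep (fun i s => Ef i (η + s))
      (fun i s => Ef' i (η + s)) (fun i z => u i (Complex.exp (η - Complex.I * z))) (fun _ => 0)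
      ι' x y := by
    intro x y hy
    have hy' : η + y ≤ yt + 2 * ι' := by linarith [hy.2]
    have a1 : ∑ i, |Ef i (η + y) - 0| *
        ‖u i (Complex.exp (η - Complex.I * (x + y * Complex.I)))‖ ≤ 2 * ∑ i, Ef i (η + y) := by
      rw [Finset.mul_sum]
      refine Finset.sum_le_sum fun i _ => ?_
      rw [sub_zero, abs_of_nonneg (E0 i _ hy')]
      nlinarith [E0 i _ hy', (hu i _ (hin x y hy.2)).2.2]
    have a2 : 1 / 2 * ∑ i, Ef' i (η + y) ≤ ∑ i, Ef' i (η + y) *
        ‖u i (Complex.exp (η - Complex.I * (x + y * Complex.I)))‖ := by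
      rw [Finset.mul_sum]
      refine Finset.sum_le_sum fun i _ => ?_
      nlinarith [(hE i _ hy').2.1, (hu i _ (hin x y hy.2)).2.1]
    have a3 := hS _ hy'
    have a4 : 0 ≤ ∑ i, Ef' i (η + y) := Finset.sum_nonneg fun i _ => (hE i _ hy').2.1
    have a5 := mul_le_mul_of_nonneg_left a2 (by positivity : 0 ≤ ι' / 4)
    have a6 := mul_nonneg i0.le a4
    unfold Steep
    linarith
  have hW : WS univ (fun i s => Ef i (η + s)) (fun i s => Ef' i (η + s))
      (fun i z => u i (Complex.exp (η - Complex.I * z))) (fun _ => 0) 0 ω C ι' := by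
    refine ⟨fun i y hy => ?_, fun i x _ y hy => ?_, fun x _ y _ => ?_,
      fun x _ y hy => Or.inl (st x y hy), fun y hy => Or.inl fun i => ?_⟩
    · have hy' : η + y ≤ yt + 2 * ι' := by linarith [hy.2]
      exact ⟨(hE i _ hy').1.comp_const_add η y, (hE i _ hy').2.1⟩
    · exact dir_of (by positivity) (min_le_left _ _) (hu i _ (hin x y hy.2)).1
    · simp
    · exact E0 i _ (by linarith [hy.2])
  have Q1 := (H I univ _ _ _ _ 0 ι' i0 (i1.trans (min_le_left _ _)) hW).1 0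
    fun x _ y hy _ => st x y hy
  have lg : ∀ (z : ℂ) (t s : ℝ), z = Complex.exp (η - Complex.I * (t + s * Complex.I)) →
      Real.log ‖z‖ = η + s := by
    intro z t s hz
    rw [hz, norm_ch, Real.log_exp]
  have e1 : (1 : ℝ) ≤ Real.exp 1 := Real.one_le_exp zero_le_one
  have e3 : Real.exp 1 ≤ 3 := le_trans Real.exp_one_lt_d9.le (by norm_num)
  have nz : ∀ y : E, M / Real.exp 1 < ‖pp 0 (y.1 * N y)‖ * ‖y.1‖ ^ γ → y.1 * N y ≠ 0 := by
    intro y h h0
    rw [h0, pp_zero, norm_zero] at h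
    have : 0 < M / Real.exp 1 := by positivity
    simp only [ne_eq, OfNat.ofNat_ne_zero, not_false_eq_true, zero_pow, zero_mul] at h
    linarith
  have bd : ∀ z ∈ closedBall (0 : ℂ) 1, ∀ l ≤ yt + 2 * ι',
      S l ≤ 3 * ‖∑ i, (Ef i l : ℂ) * u i z‖ ∧ ‖∑ i, (Ef i l : ℂ) * u i z‖ ≤ 2 * S l := by
    intro z hz l hl
    refine sum_bounds (fun i => E0 i l hl) (fun i => ?_) (fun i => (hu i z hz).2.1)
      fun i => (hu i z hz).2.2
    have a2 := (hu i z hz).1.2.1
    have hre : 0 ≤ (u i z).re := (mul_nonneg_iff_of_pos_left (by positivity)).1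
      (le_trans (abs_nonneg _) a2)
    exact a2.trans (mul_le_mul_of_nonneg_right (min_le_right _ _) hre)
  have rp : ∀ z : ℂ, z ≠ 0 → ‖z‖ ^ γ = Real.exp (γ * Real.log ‖z‖) := by
    intro z hz
    rw [Real.rpow_def_of_pos (norm_pos_iff.2 hz), mul_comm]
  have Sη := S0 η (by linarith)
  refine ⟨η, ι', 0, _, _, hη.trans hyt, Q1, by positivity, fun y hy hK h1 h2 => ?_,
    fun y hy h1 t s hs hz hV => ?_, fun y hy hK h1 h2 => ?_⟩
  · have hV := nz y h1
    obtain ⟨b1, b2⟩ := k1 y hy hK hV (h2.trans (mul_le_mul_of_nonneg_left hM1 (by positivity)))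
    refine ⟨?_, fun t s hz => ?_⟩
    · obtain ⟨c1, c2⟩ := bd y.1 hy.2 (Real.log ‖y.1‖) (by linarith)
      rw [← b2] at c1 c2
      rw [pp_zero, rp _ (left_ne_zero_of_mul hV)] at h1 h2
      set l := Real.log ‖y.1‖
      set v := ‖y.1 * N y‖
      have v0 : 0 ≤ v := norm_nonneg _
      have Sl := S0 l (by linarith)
      rw [abs_le]
      constructor
      · by_contra hn
        have d1 := gr' l η (by linarith) (by linarith)
        have d2 : Real.exp (γ * l) ≤ Real.exp (γ * η) := Real.exp_le_exp.2 (by nlinarith)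
        have d3 : (16 * v) ^ 2 ≤ S η ^ 2 := pow_le_pow_left₀ (by positivity) (by linarith) 2
        have d4 : (16 * v) ^ 2 * Real.exp (γ * l) ≤ M := by
          rw [← hηM]; exact mul_le_mul d3 d2 (Real.exp_pos _).le (by positivity)
        rw [div_lt_iff₀ (Real.exp_pos 1)] at h1
        have d5 : 0 ≤ v ^ 2 * Real.exp (γ * l) := by positivity
        nlinarith
      · by_contra hn
        have d1 := gr' η l (by linarith) (by linarith)
        have d2 : Real.exp (γ * η) ≤ Real.exp (γ * l) := Real.exp_le_exp.2 (by nlinarith)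
        have d3 : (11 * S η) ^ 2 ≤ v ^ 2 := pow_le_pow_left₀ (by positivity) (by linarith) 2
        have d4 : (11 * S η) ^ 2 * Real.exp (γ * η) ≤ v ^ 2 * Real.exp (γ * l) :=
          mul_le_mul d3 d2 (Real.exp_pos _).le (by positivity)
        have d5 : (11 * S η) ^ 2 * Real.exp (γ * η) = 121 * M := by rw [← hηM]; ring
        nlinarith
    · rw [b2, lg _ t s hz]
      simp only [wsum, ← hz]
  · refine k2 y hy (nz y h1) (by rw [lg _ t s hz]; linarith [(abs_le.1 hs).2]) ?_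
    rw [hV, lg _ t s hz]
    simp only [wsum, ← hz]
  · rcases le_total (Real.exp (η - 1 / 2)) ‖y.1‖ with h | h
    · exact near_le g0 g1 h h2
    by_cases hV : y.1 * N y = 0
    · rw [hV]; simp only [Complex.ofReal_zero, sub_zero, mul_zero, norm_zero]; positivity
    have hz := norm_pos_iff.2 (left_ne_zero_of_mul hV)
    have a1 : M / Real.exp 1 ≤ Real.exp 1 * Mup := by
      have := div_le_self hM.le e1
      nlinarith
    obtain ⟨-, b2⟩ := k1 y hy hK hV (h2.trans a1)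
    have l1 : Real.log ‖y.1‖ ≤ η - 1 / 2 := (Real.log_le_iff_le_exp hz).2 h
    obtain ⟨-, c2⟩ := bd y.1 hy.2 (Real.log ‖y.1‖) (by linarith)
    rw [← b2] at c2
    have ez : ‖y.1‖ = Real.exp (Real.log ‖y.1‖) := (Real.exp_log hz).symm
    have e4 : ‖N y * (y.1 * N y - (0 : ℝ))‖ * ‖y.1‖ = ‖y.1 * N y‖ ^ 2 := by
      rw [Complex.ofReal_zero, sub_zero, ← norm_mul, ← norm_pow]; congr 1; ring
    set l := Real.log ‖y.1‖
    set v := ‖y.1 * N y‖
    have v0 : 0 ≤ v := norm_nonneg _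
    have Sl := S0 l (by linarith)
    have d1 := gr l η (by linarith) (by linarith)
    have d2 : 2 * Real.exp ((η - l) / 2) ≤ Real.exp (32 / ι' * (η - l)) := by
      have k3 : 160 ≤ 32 / ι' := by rw [le_div_iff₀ i0]; linarith
      have k4 : 1 + (η - l) / 2 ≤ 32 / ι' * (η - l) := by nlinarith
      have k5 := Real.add_one_le_exp 1
      refine le_trans ?_ (Real.exp_le_exp.2 k4)
      rw [Real.exp_add]
      exact mul_le_mul_of_nonneg_right (by linarith) (Real.exp_pos _).le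
    have d3 : v * Real.exp ((η - l) / 2) ≤ S η := by
      have := mul_le_mul_of_nonneg_left d2 Sl
      have := mul_le_mul_of_nonneg_right c2 (Real.exp_pos ((η - l) / 2)).le
      linarith
    have d4 := pow_le_pow_left₀ (by positivity) d3 2
    have d5 : (v * Real.exp ((η - l) / 2)) ^ 2 = v ^ 2 * Real.exp (η - l) := by
      rw [mul_pow, ← Real.exp_nat_mul]; congr 2; push_cast; ring
    have d6 : M * Real.exp (-(1 + γ) * η) * ‖y.1‖ * Real.exp (η - l) = S η ^ 2 := by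
      rw [← hηM, ez]
      simp only [mul_assoc, ← Real.exp_add]
      rw [show γ * η + -(1 + γ) * η + l + (η - l) = 0 by ring, Real.exp_zero, mul_one]
    refine le_of_mul_le_mul_right (le_of_mul_le_mul_right ?_ (Real.exp_pos (η - l))) hz
    rw [d6, e4, ← d5]
    exact d4

end Pool.Agent.Lib.SH
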