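import Pool.Agent.Lib.SH.Blue5
import Pool.Agent.Lib.SH.B_PPS

/-! Port hypotheses with one fixed height, and the macro port with any pole order. -/

open Set Filter Topology Metric

namespace Pool.Agent.Lib.SH

theorem st_ppf : St_PPF := by
  intro X K N Ψ Ψy e γ ι ι' C0 η lev Mst Mup g0 g1 hη hM0 hlev hW k1 k2 k3 M hM _
  have hd : Mst / Real.exp 1 ≤ M / Real.exp 1 :=
    div_le_div_of_nonneg_right hM.le (Real.exp_pos 1).le
  refine ⟨η, ι', lev, Ψ, Ψy, hη, hW,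
    hlev.trans (mul_le_mul_of_nonneg_right hM.le (Real.exp_pos _).le),
    fun y hy hK h1 _ => k1 y hy hK (lt_of_le_of_lt hd h1),
    fun y hy h1 t s hs hz hV => k2 y hy (lt_of_le_of_lt hd h1) t s hs hz hV,
    fun y hy hK h1 h2 => ?_⟩
  rcases le_total ‖y.1‖ (Real.exp (η - 1 / 2)) with h | h
  · exact (k3 y hy hK h).trans (mul_le_mul_of_nonneg_right hM.le (Real.exp_pos _).le)
  · exact PPS.near_le g0 g1 h h2

theorem st_endp2 (hP : St_PP2) : St_ENDP2 := by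
  intro γ C0 hγ hγ'
  obtain ⟨ι, ι0, H⟩ := hP γ C0 hγ hγ'
  refine ⟨ι, ι0, fun X K φ N w p r1 R e Mst Mup a b Λw G0 r lv r10 e0 a0 G00 r0 r1' M0 Λ0 lv0 hM hNP
    hN hPP hφ hlv => ?_⟩
  have E0 := Real.exp_pos Λw
  have B0 : 0 ≤ lv * Real.exp Λw / G0 := by positivity
  have key := H _ _ N e Mst Mup ((lv * Real.exp Λw / G0) ^ (1 / a)) e0 hNP hN hPP
    (by
      rw [one_div, Real.le_rpow_inv_iff_of_pos M0 B0 a0, le_div_iff₀ G00]
      exact hM.trans (le_mul_of_one_le_right lv0.le (Real.one_le_exp Λ0)))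
    (by positivity) (fun y hy hK => (hφ y hy hK).1) fun y hy hK h1 => by
      have h2 := ((hφ y ⟨hy, by simp [h1]⟩ hK).2 (h1 ▸ r1')).2
      have h3 := hlv _ hy hK (by simp [bc, h1, abs_of_pos r10])
      rw [h1, inv_one, Real.one_rpow, mul_one] at h2
      rw [one_div, Real.le_rpow_inv_iff_of_pos (norm_nonneg _) B0 a0, le_div_iff₀ G00]
      nlinarith
  refine ⟨fun x hx hK h1 h2 => ?_, key⟩
  have rc : (r1 : ℂ) ≠ 0 := Complex.ofReal_ne_zero.2 r10.ne'
  have e1 : bc (fun z => p + r1 * z) ((x.1 - p) / r1, x.2) = x := by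
    simp only [bc, mul_div_cancel₀ _ rc, add_sub_cancel]
  have e2 : ‖(x.1 - p) / r1‖ = ‖x.1 - p‖ / r1 := by simp [abs_of_pos r10]
  have m1 : ((x.1 - p) / r1, x.2) ∈
      ov (bc (fun z => p + r1 * z) ⁻¹' near X w R) (closedBall 0 1) :=
    ⟨by rwa [mem_preimage, e1], by rw [mem_closedBall_zero_iff, e2, div_le_one r10]; exact h2⟩
  have m2 : ((x.1 - p) / r1, x.2) ∉ bc (fun z => p + r1 * z) ⁻¹' K := by rwa [mem_preimage, e1]
  have h3 := ((hφ _ m1 m2).2 (by rw [e2, le_div_iff₀ r10]; exact h1)).1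
  have h4 := key _ m1 m2
  have t0 : 0 < ‖x.1 - p‖ / r1 := div_pos (lt_of_lt_of_le (mul_pos r0 r10) h1) r10
  rw [e1] at h3
  simp only [e2] at h3 h4
  rw [← inv_div ‖x.1 - p‖ r1]
  generalize ‖x.1 - p‖ / r1 = t at *
  have n0 := norm_nonneg (pp e ((x.1 - p) / r1 * N ((x.1 - p) / r1, x.2)))
  generalize ‖pp e ((x.1 - p) / r1 * N ((x.1 - p) / r1, x.2))‖ = q at *
  have h5 : q ^ a ≤ lv * Real.exp Λw / G0 * t⁻¹ ^ (γ * a) := by
    rw [← le_div_iff₀ (Real.rpow_pos_of_pos t0 γ), div_eq_mul_inv _ (t ^ γ),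
      ← Real.inv_rpow t0.le] at h4
    refine (Real.rpow_le_rpow n0 h4 a0.le).trans_eq ?_
    rw [Real.mul_rpow (by positivity) (by positivity), one_div, Real.rpow_inv_rpow B0 a0.ne',
      ← Real.rpow_mul (by positivity)]
  refine h3.trans ((mul_le_mul_of_nonneg_right (mul_le_mul_of_nonneg_left h5 (by positivity))
    (by positivity)).trans_eq ?_)
  rw [show b + a * γ = γ * a + b by ring, Real.rpow_add (inv_pos.2 t0), two_mul Λw, Real.exp_add]
  field_simp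

end Pool.Agent.Lib.SH
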