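import Pool.Agent.Lib.SH.Blue4

open Set Filter Topology Metric
open scoped ContDiff

noncomputable section

namespace Pool.Agent.Lib.SH

namespace PROF

theorem le_inf (n : ℕ) : (n : WithTop ℕ∞) ≤ ∞ := by exact_mod_cast le_top

theorem flat_of {f : ℝ → ℝ} (hf : ContDiff ℝ ∞ f) {U : Set ℝ} (hU : IsOpen U)
    (h0 : (0 : ℝ) ∈ closure U) (h : ∀ s ∈ U, f s = 0) : Flat f := by
  refine ⟨hf, fun n => ?_⟩
  have hc := hf.continuous_iteratedDeriv n (le_inf n)
  refine (isClosed_eq hc continuous_const).closure_subset_iff.2 (fun s hs => ?_) h0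
  have : f =ᶠ[𝓝 s] fun _ => 0 := (hU.eventually_mem hs).mono h
  show iteratedDeriv n f s = 0
  rw [this.iteratedDeriv_eq, iteratedDeriv_fun_const_zero]

theorem flat_left {f : ℝ → ℝ} (hf : ContDiff ℝ ∞ f) (h : ∀ s ≤ 0, f s = 0) : Flat f :=
  flat_of hf isOpen_Iio (by simp) fun s hs => h s (le_of_lt hs)

theorem flat_right {f : ℝ → ℝ} (hf : ContDiff ℝ ∞ f) (h : ∀ s, 0 ≤ s → f s = 0) : Flat f :=
  flat_of hf isOpen_Ioi (by simp) fun s hs => h s (le_of_lt hs)

theorem flat_add {f g : ℝ → ℝ} (hf : Flat f) (hg : Flat g) : Flat fun s => f s + g s := by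
  refine ⟨hf.1.add hg.1, fun n => ?_⟩
  have := iteratedDeriv_add (x := (0 : ℝ)) (hf.1.of_le (le_inf n)).contDiffAt
    (hg.1.of_le (le_inf n)).contDiffAt
  rw [hf.2, hg.2, add_zero] at this
  exact this

theorem diff {f : ℝ → ℝ} (hf : ContDiff ℝ ∞ f) (s : ℝ) : HasDerivAt f (deriv f s) s :=
  (hf.differentiable (by simp) s).hasDerivAt

theorem e_deriv (s : ℝ) : HasDerivAt expNegInvGlue (s⁻¹ ^ 2 * expNegInvGlue s) s := by
  simpa using expNegInvGlue.hasDerivAt_polynomial_eval_inv_mul 1 s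

theorem ev_small (A : ℝ) {c : ℝ → ℝ} (hc : ContinuousAt c 0) (h0 : 0 < c 0) :
    ∀ᶠ s in 𝓝 (0 : ℝ), A * |s| ≤ c s := by
  have h1 : ContinuousAt (fun s : ℝ => A * |s|) 0 := by fun_prop
  exact (h1.eventually_lt hc (by simpa using h0)).mono fun _ h => h.le

theorem key {A c x s : ℝ} (h : A * |s| ≤ c) (hx : 0 ≤ x) (h0 : s = 0 → x = 0) :
    A * x ≤ |s| * (s⁻¹ ^ 2 * (c * x)) := by
  rcases eq_or_ne s 0 with e | e
  · simp [h0 e]
  · have h1 : 0 < |s| := abs_pos.2 e
    have h2 : |s| * (s⁻¹ ^ 2 * (c * x)) = c / |s| * x := by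
      rw [← sq_abs s⁻¹, abs_inv]; field_simp
    rw [h2]
    exact mul_le_mul_of_nonneg_right ((le_div_iff₀ h1).2 h) hx

theorem pr_e : PR expNegInvGlue False := by
  refine ⟨flat_left expNegInvGlue.contDiff fun s hs => expNegInvGlue.zero_of_nonpos hs,
    eventually_nhdsWithin_of_forall fun s hs => expNegInvGlue.pos_of_pos hs, False.elim,
    fun _ s hs => expNegInvGlue.zero_of_nonpos hs, fun A => ?_⟩
  filter_upwards [ev_small A (c := fun _ => 1) continuousAt_const one_pos] with s hs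
  have := key hs (expNegInvGlue.nonneg s) fun e => by simp [e]
  rwa [(e_deriv s).deriv, abs_of_nonneg (expNegInvGlue.nonneg s), ← one_mul (expNegInvGlue s),
    ← mul_assoc A, mul_one]

theorem pr_e2 : PR (fun s => expNegInvGlue s - expNegInvGlue (-s)) True := by
  refine ⟨?_, eventually_nhdsWithin_of_forall fun s hs => ?_,
    fun _ => eventually_nhdsWithin_of_forall fun s hs => ?_, fun h => absurd trivial h, fun A => ?_⟩
  · simp only [sub_eq_add_neg]
    exact flat_add pr_e.flat (flat_right (expNegInvGlue.contDiff.comp contDiff_neg).neg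
      fun s hs => by simp [expNegInvGlue.zero_of_nonpos (neg_nonpos.2 hs)])
  · rw [expNegInvGlue.zero_of_nonpos (neg_nonpos.2 (le_of_lt hs)), sub_zero]
    exact expNegInvGlue.pos_of_pos hs
  · rw [expNegInvGlue.zero_of_nonpos (le_of_lt hs), zero_sub, neg_lt_zero]
    exact expNegInvGlue.pos_of_pos (neg_pos.2 hs)
  · filter_upwards [ev_small |A| (c := fun _ => 1) continuousAt_const one_pos] with s hs
    have h1 := expNegInvGlue.nonneg s
    have h2 := expNegInvGlue.nonneg (-s)
    have h3 := key hs (add_nonneg h1 h2) fun e => by simp [e]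
    have h4 : HasDerivAt (fun s => expNegInvGlue s - expNegInvGlue (-s))
        (s⁻¹ ^ 2 * (1 * (expNegInvGlue s + expNegInvGlue (-s)))) s := by
      refine ((e_deriv s).sub ((e_deriv (-s)).comp s (hasDerivAt_neg s))).congr_deriv ?_
      rw [inv_neg, neg_sq]; ring
    rw [h4.deriv]
    refine le_trans ?_ h3
    refine (mul_le_mul_of_nonneg_right (le_abs_self A) (abs_nonneg _)).trans ?_
    exact mul_le_mul_of_nonneg_left (abs_le.2 ⟨by linarith, by linarith⟩) (abs_nonneg A)

theorem pr_scale {Ef : ℝ → ℝ} {two : Prop} {c N : ℝ} (h : PR Ef two) (hc : 0 < c) (hN : 0 < N) :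
    PR (fun s => c * Ef (s / N)) two := by
  have ht : Tendsto (fun s : ℝ => s / N) (𝓝 0) (𝓝 0) := by
    have : ContinuousAt (fun s : ℝ => s / N) 0 := by fun_prop
    simpa using this.tendsto
  refine ⟨⟨contDiff_const.mul (h.flat.1.comp (contDiff_id.div_const N)), fun n => ?_⟩, ?_,
    fun h2 => ?_, fun h1 s hs => ?_, fun A => ?_⟩
  · simp only [div_eq_inv_mul]
    rw [iteratedDeriv_const_mul_field,
      iteratedDeriv_comp_const_mul (h.flat.1.of_le (le_inf n))]
    simp [h.flat.2]
  · have : Tendsto (fun s : ℝ => s / N) (𝓝[>] 0) (𝓝[>] 0) :=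
      tendsto_nhdsWithin_of_tendsto_nhds_of_eventually_within _ (ht.mono_left nhdsWithin_le_nhds)
        (eventually_nhdsWithin_of_forall fun s hs => div_pos hs hN)
    exact (this.eventually h.pos).mono fun s hs => mul_pos hc hs
  · have : Tendsto (fun s : ℝ => s / N) (𝓝[<] 0) (𝓝[<] 0) :=
      tendsto_nhdsWithin_of_tendsto_nhds_of_eventually_within _ (ht.mono_left nhdsWithin_le_nhds)
        (eventually_nhdsWithin_of_forall fun s hs => div_neg_of_neg_of_pos hs hN)
    exact (this.eventually (h.neg h2)).mono fun s hs => mul_neg_of_pos_of_neg hc hs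
  · rw [h.one h1 _ (div_nonpos_of_nonpos_of_nonneg hs hN.le), mul_zero]
  · filter_upwards [ht.eventually (h.steep A)] with s hs
    have h1 : HasDerivAt (fun s => c * Ef (s / N)) (c * (deriv Ef (s / N) * (1 / N))) s :=
      ((diff h.flat.1 (s / N)).comp s ((hasDerivAt_id s).div_const N)).const_mul c
    rw [abs_div, abs_of_pos hN] at hs
    rw [h1.deriv, abs_mul, abs_of_pos hc]
    calc A * (c * |Ef (s / N)|) = c * (A * |Ef (s / N)|) := by ring
      _ ≤ c * (|s| / N * deriv Ef (s / N)) := mul_le_mul_of_nonneg_left hs hc.le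
      _ = _ := by ring

theorem pr_mul {Ef u : ℝ → ℝ} {two : Prop} (h : PR Ef two) (hu : ContDiff ℝ ∞ u) (h0 : 0 < u 0) :
    PR (fun s => Ef s * u s) two := by
  have hp : ∀ᶠ s in 𝓝 (0 : ℝ), 0 < u s := hu.continuous.continuousAt.eventually (lt_mem_nhds h0)
  refine ⟨⟨h.flat.1.mul hu, fun n => ?_⟩, ?_, fun h2 => ?_, fun h1 s hs => ?_, fun A => ?_⟩
  · rw [iteratedDeriv_fun_mul (h.flat.1.of_le (le_inf n)).contDiffAt
      (hu.of_le (le_inf n)).contDiffAt]
    simp [h.flat.2]
  · filter_upwards [h.pos, hp.filter_mono nhdsWithin_le_nhds] with s a b using mul_pos a b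
  · filter_upwards [h.neg h2, hp.filter_mono nhdsWithin_le_nhds] with s a b
      using mul_neg_of_neg_of_pos a b
  · rw [h.one h1 s hs, zero_mul]
  · have hd : Continuous (deriv u) := hu.continuous_deriv (by simp)
    have h1 : ContinuousAt (fun s : ℝ => |s| * |deriv u s|) 0 := by fun_prop
    filter_upwards [h.steep (A + 1), hp,
      h1.eventually_lt hu.continuous.continuousAt (by simpa using h0)] with s a b c
    rw [((diff h.flat.1 s).fun_mul (diff hu s)).deriv, abs_mul, abs_of_pos b]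
    have h2 : -(|s| * (Ef s * deriv u s)) ≤ |Ef s| * u s := by
      refine (neg_le_abs _).trans ?_
      rw [abs_mul, abs_mul, abs_abs, mul_left_comm]
      exact mul_le_mul_of_nonneg_left c.le (abs_nonneg _)
    nlinarith [mul_le_mul_of_nonneg_right a b.le]

theorem S_deriv (s : ℝ) : HasDerivAt Real.smoothTransition
    (Real.smoothTransition s * (1 - Real.smoothTransition s) * (s⁻¹ ^ 2 + (1 - s)⁻¹ ^ 2)) s := by
  have hD := (Real.smoothTransition.pos_denom s).ne'
  have h1 := (e_deriv s).div ((e_deriv s).add ((e_deriv (1 - s)).comp s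
    ((hasDerivAt_id s).const_sub 1))) hD
  refine HasDerivAt.congr_deriv h1 ?_
  simp only [Real.smoothTransition, Pi.add_apply, Function.comp_apply]
  generalize s⁻¹ ^ 2 = a
  generalize (1 - s)⁻¹ ^ 2 = b
  field_simp
  ring

theorem S_nonneg (s : ℝ) : 0 ≤ deriv Real.smoothTransition s :=
  Real.smoothTransition.monotone.deriv_nonneg

theorem S_low {s : ℝ} (h0 : 0 < s) (h1 : s ≤ 1) :
    Real.smoothTransition s * (1 - Real.smoothTransition s) ≤ deriv Real.smoothTransition s := by
  rw [(S_deriv s).deriv]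
  refine le_mul_of_one_le_right (mul_nonneg (Real.smoothTransition.nonneg s)
    (sub_nonneg.2 (Real.smoothTransition.le_one s))) ?_
  have : 1 ≤ s⁻¹ := (one_le_inv₀ h0).2 h1
  nlinarith [sq_nonneg (1 - s)⁻¹]

theorem pr_S : PR Real.smoothTransition False := by
  have h := pr_mul (u := fun s => (expNegInvGlue s + expNegInvGlue (1 - s))⁻¹) pr_e
    ((expNegInvGlue.contDiff.add (expNegInvGlue.contDiff.comp (contDiff_const.sub contDiff_id))).inv
      fun s => (Real.smoothTransition.pos_denom s).ne')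
    (inv_pos.2 (Real.smoothTransition.pos_denom 0))
  exact h

theorem pow_deriv (n : ℕ) (s : ℝ) : HasDerivAt (fun s => Real.smoothTransition s ^ (n + 1))
    (((n + 1 : ℕ) : ℝ) * Real.smoothTransition s ^ n * deriv Real.smoothTransition s) s :=
  (diff Real.smoothTransition.contDiff s).fun_pow (n + 1)

theorem pr_pow {n : ℕ} (hn : 1 ≤ n) : PR (fun s => Real.smoothTransition s ^ n) False := by
  obtain ⟨m, rfl⟩ : ∃ m, n = m + 1 := ⟨n - 1, by omega⟩
  have hz : ∀ s ≤ 0, Real.smoothTransition s ^ (m + 1) = 0 := fun s hs => by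
    rw [Real.smoothTransition.zero_of_nonpos hs, zero_pow m.succ_ne_zero]
  refine ⟨flat_left (Real.smoothTransition.contDiff.pow _) hz,
    eventually_nhdsWithin_of_forall fun s hs => pow_pos (Real.smoothTransition.pos_of_pos hs) _,
    False.elim, fun _ => hz, fun A => ?_⟩
  filter_upwards [pr_S.steep A] with s hs
  have h1 := Real.smoothTransition.nonneg s
  have h2 := pow_nonneg h1 m
  have h3 := mul_nonneg (abs_nonneg s) (S_nonneg s)
  rw [abs_of_nonneg h1] at hs
  rw [(pow_deriv m s).deriv, abs_of_nonneg (pow_nonneg h1 _), pow_succ]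
  push_cast
  nlinarith [mul_le_mul_of_nonneg_left hs h2, mul_nonneg (Nat.cast_nonneg (α := ℝ) m)
    (mul_nonneg h2 h3)]

theorem pr_junction {n : ℕ} (hn : 1 ≤ n) : PR (fun s => if s ≤ 0 then
    Real.smoothTransition (1 + s) ^ n - 1 else expNegInvGlue s) True := by
  obtain ⟨m, rfl⟩ : ∃ m, n = m + 1 := ⟨n - 1, by omega⟩
  have hz : ∀ s : ℝ, 0 ≤ s → Real.smoothTransition (1 + s) ^ (m + 1) - 1 = 0 := fun s hs => by
    rw [Real.smoothTransition.one_of_one_le (by linarith), one_pow, sub_self]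
  have e : (fun s => if s ≤ 0 then Real.smoothTransition (1 + s) ^ (m + 1) - 1
      else expNegInvGlue s) =
      fun s => (Real.smoothTransition (1 + s) ^ (m + 1) - 1) + expNegInvGlue s := by
    funext s
    split_ifs with h
    · rw [expNegInvGlue.zero_of_nonpos h, add_zero]
    · rw [hz s (le_of_not_ge h), zero_add]
  rw [e]
  have hc : ContDiff ℝ ∞ fun s : ℝ => Real.smoothTransition (1 + s) ^ (m + 1) :=
    (Real.smoothTransition.contDiff.comp (contDiff_const.add contDiff_id)).pow _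
  refine ⟨flat_add (flat_right (hc.sub contDiff_const) hz) pr_e.flat,
    eventually_nhdsWithin_of_forall fun s hs => ?_,
    fun _ => eventually_nhdsWithin_of_forall fun s hs => ?_, fun h => absurd trivial h, fun A => ?_⟩
  · rw [hz s (le_of_lt hs), zero_add]
    exact expNegInvGlue.pos_of_pos hs
  · have hs' : s < 0 := hs
    rw [expNegInvGlue.zero_of_nonpos hs'.le, add_zero, sub_neg]
    exact pow_lt_one₀ (Real.smoothTransition.nonneg _)
      (Real.smoothTransition.lt_one_of_lt_one (by linarith)) m.succ_ne_zero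
  · filter_upwards [pr_e.steep |A|, ev_small |A| hc.continuous.continuousAt (by simp)] with s a b
    have h1 := Real.smoothTransition.nonneg (1 + s)
    have h2 := Real.smoothTransition.le_one (1 + s)
    have h3 := key b (sub_nonneg.2 h2) fun e => by simp [e]
    have h4 : HasDerivAt (fun s => (Real.smoothTransition (1 + s) ^ (m + 1) - 1) + expNegInvGlue s)
        (((m + 1 : ℕ) : ℝ) * Real.smoothTransition (1 + s) ^ m *
          deriv Real.smoothTransition (1 + s) * 1 + deriv expNegInvGlue s) s :=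
      (((pow_deriv m (1 + s)).comp s ((hasDerivAt_id s).const_add 1)).sub_const 1).add
        (diff expNegInvGlue.contDiff s)
    rw [h4.deriv, (S_deriv (1 + s)).deriv, show 1 - (1 + s) = -s by ring, inv_neg, neg_sq]
    set T := Real.smoothTransition (1 + s)
    have h5 : 1 + ((m + 1 : ℕ) : ℝ) * (T - 1) ≤ T ^ (m + 1) := by
      have := one_add_mul_le_pow (a := T - 1) (by linarith) (m + 1)
      rwa [add_sub_cancel] at this
    have h6 : T ^ (m + 1) ≤ 1 := pow_le_one₀ h1 h2
    have h7 : |T ^ (m + 1) - 1 + expNegInvGlue s| ≤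
        ((m + 1 : ℕ) : ℝ) * (1 - T) + |expNegInvGlue s| := by
      refine (abs_add_le _ _).trans (add_le_add_left ?_ _)
      rw [abs_sub_comm, abs_of_nonneg (sub_nonneg.2 h6)]
      linarith
    have h8 : (0 : ℝ) ≤ ((m + 1 : ℕ) : ℝ) := Nat.cast_nonneg _
    have h9 : 0 ≤ ((m + 1 : ℕ) : ℝ) * (|s| * (T ^ m * (T * (1 - T) * (1 + s)⁻¹ ^ 2))) :=
      mul_nonneg h8 (mul_nonneg (abs_nonneg s) (mul_nonneg (pow_nonneg h1 m)
        (mul_nonneg (mul_nonneg h1 (sub_nonneg.2 h2)) (sq_nonneg _))))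
    calc A * |T ^ (m + 1) - 1 + expNegInvGlue s|
        ≤ |A| * (((m + 1 : ℕ) : ℝ) * (1 - T) + |expNegInvGlue s|) :=
          (mul_le_mul_of_nonneg_right (le_abs_self A) (abs_nonneg _)).trans
            (mul_le_mul_of_nonneg_left h7 (abs_nonneg A))
      _ = ((m + 1 : ℕ) : ℝ) * (|A| * (1 - T)) + |A| * |expNegInvGlue s| := by ring
      _ ≤ ((m + 1 : ℕ) : ℝ) * (|s| * (s⁻¹ ^ 2 * (T ^ (m + 1) * (1 - T)))) +
            |s| * deriv expNegInvGlue s := add_le_add (mul_le_mul_of_nonneg_left h3 h8) a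
      _ ≤ _ := by
          rw [pow_succ T m]
          nlinarith [h9]

theorem exists_G {M σ : ℝ} (hM : 0 < M) (hσ : 0 < σ) : ∃ G : ℝ → ℝ, PR G False ∧
    (∀ s, 0 < s → 0 < G s) ∧ (∀ s, 0 ≤ deriv G s ∧ G s ≤ 1) ∧
    (∀ s, 0 < s → s ≤ 4 * M → G s ≤ σ * deriv G s) ∧ ∀ s, 5 * M ≤ s → G s = 1 := by
  have hN : 0 < 5 * M := by positivity
  have hq : 0 < 1 - Real.smoothTransition (4 / 5) :=
    sub_pos.2 (Real.smoothTransition.lt_one_of_lt_one (by norm_num))
  obtain ⟨m, hm⟩ := exists_nat_ge (5 * M / (σ * (1 - Real.smoothTransition (4 / 5))))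
  rw [div_le_iff₀ (by positivity)] at hm
  have hd : ∀ s, deriv (fun s => Real.smoothTransition (s / (5 * M)) ^ (m + 1)) s =
      ((m + 1 : ℕ) : ℝ) * Real.smoothTransition (s / (5 * M)) ^ m *
        deriv Real.smoothTransition (s / (5 * M)) * (1 / (5 * M)) := fun s => by
    have h1 : HasDerivAt (fun s : ℝ => s / (5 * M)) (1 / (5 * M)) s :=
      (hasDerivAt_id s).div_const (5 * M)
    have h2 := (pow_deriv m (s / (5 * M))).comp s h1
    exact h2.deriv
  refine ⟨fun s => Real.smoothTransition (s / (5 * M)) ^ (m + 1), ?_,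
    fun s hs => pow_pos (Real.smoothTransition.pos_of_pos (div_pos hs hN)) _, fun s => ⟨?_,
      pow_le_one₀ (Real.smoothTransition.nonneg _) (Real.smoothTransition.le_one _)⟩,
    fun s hs hs' => ?_, fun s hs => ?_⟩
  · simpa only [one_mul] using pr_scale (pr_pow (n := m + 1) (by omega)) one_pos hN
  · rw [hd]
    have := Real.smoothTransition.nonneg (s / (5 * M))
    have := S_nonneg (s / (5 * M))
    positivity
  · have h1 : s / (5 * M) ≤ 4 / 5 := by rw [div_le_iff₀ hN]; linarith
    have h2 := S_low (div_pos hs hN) (h1.trans (by norm_num))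
    have h3 := Real.smoothTransition.monotone h1
    have h4 := Real.smoothTransition.nonneg (s / (5 * M))
    simp only [hd]
    set T := Real.smoothTransition (s / (5 * M))
    set q := 1 - Real.smoothTransition (4 / 5) with hq'
    have h5 : T * q ≤ deriv Real.smoothTransition (s / (5 * M)) :=
      (mul_le_mul_of_nonneg_left (by linarith) h4).trans h2
    have h6 : 1 ≤ σ * ((m + 1 : ℕ) : ℝ) * q * (1 / (5 * M)) := by
      rw [mul_one_div, le_div_iff₀ hN]
      push_cast
      nlinarith [mul_pos hσ hq]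
    calc T ^ (m + 1) ≤ T ^ (m + 1) * (σ * ((m + 1 : ℕ) : ℝ) * q * (1 / (5 * M))) :=
          le_mul_of_one_le_right (pow_nonneg h4 _) h6
      _ = σ * (((m + 1 : ℕ) : ℝ) * T ^ m * (T * q) * (1 / (5 * M))) := by ring
      _ ≤ _ := by gcongr
  · simp only
    rw [Real.smoothTransition.one_of_one_le ((one_le_div hN).2 hs), one_pow]

theorem S_lip : ∃ C : ℝ, ∀ s t, |Real.smoothTransition s - Real.smoothTransition t| ≤ C * |s - t| := by
  have hc : Continuous (deriv Real.smoothTransition) :=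
    (Real.smoothTransition.contDiff (n := 1)).continuous_deriv le_rfl
  obtain ⟨C, hC⟩ := (isCompact_Icc (a := (0 : ℝ)) (b := 1)).exists_bound_of_continuousOn
    hc.continuousOn
  have h0 : 0 ≤ C := (norm_nonneg _).trans (hC 0 (by simp))
  have h1 : ∀ s, ‖deriv Real.smoothTransition s‖ ≤ C := fun s => by
    rcases le_total s 0 with h | h
    · rw [(S_deriv s).deriv, Real.smoothTransition.zero_of_nonpos h]; simpa using h0
    rcases le_total 1 s with h' | h'
    · rw [(S_deriv s).deriv, Real.smoothTransition.one_of_one_le h']; simpa using h0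
    · exact hC s ⟨h, h'⟩
  exact ⟨C, fun s t => convex_univ.norm_image_sub_le_of_norm_deriv_le
    (fun x _ => (S_deriv x).differentiableAt) (fun x _ => h1 x) (mem_univ t) (mem_univ s)⟩

theorem exists_th : ∃ (th : ℝ → ℝ) (Cth : ℝ), ContDiff ℝ ∞ th ∧
    (∀ s t, |th s - th t| ≤ Cth * |s - t|) ∧ (∀ s, 2 / 5 ≤ s → th s = 0) ∧
    (∀ s, s ≤ 1 / 4 → th s = Real.pi / 4) ∧ ∀ s, 0 ≤ th s ∧ th s ≤ Real.pi / 4 := by
  obtain ⟨C, hC⟩ := S_lip
  have hp : 0 < Real.pi / 4 := by positivity
  refine ⟨fun s => Real.pi / 4 * Real.smoothTransition (20 / 3 * (2 / 5 - s)),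
    Real.pi / 4 * C * (20 / 3), contDiff_const.mul (Real.smoothTransition.contDiff.comp
      (contDiff_const.mul (contDiff_const.sub contDiff_id))), fun s t => ?_, fun s hs => ?_,
    fun s hs => ?_, fun s => ⟨mul_nonneg hp.le (Real.smoothTransition.nonneg _),
      mul_le_of_le_one_right hp.le (Real.smoothTransition.le_one _)⟩⟩
  · have h := hC (20 / 3 * (2 / 5 - s)) (20 / 3 * (2 / 5 - t))
    rw [show 20 / 3 * (2 / 5 - s) - 20 / 3 * (2 / 5 - t) = 20 / 3 * (t - s) by ring, abs_mul,
      abs_sub_comm t s, abs_of_pos (by norm_num : (0 : ℝ) < 20 / 3)] at h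
    rw [← mul_sub, abs_mul, abs_of_pos hp, mul_assoc, mul_assoc]
    exact mul_le_mul_of_nonneg_left h hp.le
  · simp only
    rw [Real.smoothTransition.zero_of_nonpos (by linarith), mul_zero]
  · simp only
    rw [Real.smoothTransition.one_of_one_le (by linarith), mul_one]

end PROF

open PROF in
theorem st_prof : St_PROF := by
  refine ⟨⟨pr_e, pr_e2, fun s _ => ?_, fun s => expNegInvGlue.monotone.deriv_nonneg⟩,
    fun _ _ _ _ h hc hN => pr_scale h hc hN, fun _ _ _ h hu h0 => pr_mul h hu h0,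
    ⟨1 / 2, by norm_num, fun s hs => le_trans ?_ (S_low hs.1 hs.2.le)⟩, S_nonneg,
    fun _ hn => pr_pow hn, fun _ hn => pr_junction hn, fun _ _ hM hσ => exists_G hM hσ, exists_th⟩
  · rw [(e_deriv s).deriv, inv_pow, div_eq_inv_mul]
  · have h1 := Real.smoothTransition.nonneg s
    have h2 := Real.smoothTransition.le_one s
    rcases le_total (Real.smoothTransition s) (1 - Real.smoothTransition s) with h | h
    · rw [min_eq_left h]; nlinarith
    · rw [min_eq_right h]; nlinarith

end Pool.Agent.Lib.SH
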