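import Pool.Agent.Lib.SH.Blue3

/-! Block PWS: finite sums of monotone profiles times nearly positive directions are walls. -/

open Set Filter Topology Metric

noncomputable section

namespace Pool.Agent.Lib.SH

namespace PWS

theorem dir_re {u : ℂ → ℂ} {ω C : ℝ} {z : ℂ} (h : Dir u ω C z) (hω : 0 < ω) : 0 ≤ (u z).re :=
  nonneg_of_mul_nonneg_right ((abs_nonneg _).trans h.2.1) hω |> fun h' => h'

theorem dir_norm {u : ℂ → ℂ} {ω C : ℝ} {z : ℂ} (h : Dir u ω C z) (hω : 0 < ω) :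
    ‖u z‖ ≤ (1 + ω) * (u z).re := by
  have h1 := Complex.norm_le_abs_re_add_abs_im (u z)
  rw [abs_of_nonneg (dir_re h hω)] at h1
  have := h.2.1
  linarith

/-- Variation of a direction along a horizontal segment. -/
theorem seg {u : ℂ → ℂ} {ω C x x' y : ℝ} (hω : 0 < ω) (hC : 0 ≤ C) (hx : |x' - x| ≤ 2)
    (h : ∀ s ∈ uIcc x x', Dir u ω C (s + y * Complex.I)) :
    ‖u (x' + y * Complex.I) - u (x + y * Complex.I)‖ ≤
        C * Real.exp (2 * C) * |x' - x| * ‖u (x + y * Complex.I)‖ ∧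
      |(u (x' + y * Complex.I) - u (x + y * Complex.I)).im| ≤
        ω * Real.exp (2 * C) * |x' - x| * ‖u (x + y * Complex.I)‖ := by
  set p : ℝ → ℂ := fun t => ((x + t * (x' - x) : ℝ) : ℂ) + y * Complex.I with hp
  have hm : ∀ t ∈ Icc (0 : ℝ) 1, Dir u ω C (p t) := by
    intro t ht
    refine h _ ?_
    rcases le_total x x' with h1 | h1
    · rw [uIcc_of_le h1]
      constructor <;> nlinarith [ht.1, ht.2]
    · rw [uIcc_of_ge h1]
      constructor <;> nlinarith [ht.1, ht.2]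
  have hd : ∀ t ∈ Icc (0 : ℝ) 1,
      HasDerivAt (fun t => u (p t)) (deriv u (p t) * ((x' - x : ℝ) : ℂ)) t := by
    intro t ht
    have h1 : HasDerivAt (fun t : ℝ => x + t * (x' - x)) (x' - x) t := by
      simpa using ((hasDerivAt_id t).mul_const (x' - x)).const_add x
    have h2 : HasDerivAt p ((x' - x : ℝ) : ℂ) t := h1.ofReal_comp.add_const _
    exact (hm t ht).1.differentiableAt.hasDerivAt.comp t h2
  have p0 : p 0 = x + y * Complex.I := by simp [hp]
  have p1 : p 1 = x' + y * Complex.I := by simp [hp]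
  have hn : ∀ t ∈ Icc (0 : ℝ) 1,
      ‖deriv u (p t) * ((x' - x : ℝ) : ℂ)‖ ≤ C * |x' - x| * ‖u (p t)‖ := by
    intro t ht
    rw [norm_mul, Complex.norm_real, Real.norm_eq_abs]
    have := mul_le_mul_of_nonneg_right (hm t ht).2.2.1 (abs_nonneg (x' - x))
    linarith
  have hg : ∀ t ∈ Icc (0 : ℝ) 1, ‖u (p t)‖ ≤ Real.exp (2 * C) * ‖u (p 0)‖ := by
    intro t ht
    have := norm_le_gronwallBound_of_norm_deriv_right_le (f := fun t => u (p t))
      (f' := fun t => deriv u (p t) * ((x' - x : ℝ) : ℂ)) (δ := ‖u (p 0)‖) (K := 2 * C) (ε := 0)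
      (a := 0) (b := 1) (fun t ht => (hd t ht).continuousAt.continuousWithinAt)
      (fun t ht => (hd t (Ico_subset_Icc_self ht)).hasDerivWithinAt) le_rfl
      (fun t ht => by
        have h1 := hn t (Ico_subset_Icc_self ht)
        have h2 : C * |x' - x| ≤ 2 * C := by nlinarith
        have := mul_le_mul_of_nonneg_right h2 (norm_nonneg (u (p t)))
        linarith) t ht
    rw [gronwallBound_ε0] at this
    have h3 : Real.exp (2 * C * (t - 0)) ≤ Real.exp (2 * C) :=
      Real.exp_le_exp.2 (by nlinarith [ht.1, ht.2])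
    have := mul_le_mul_of_nonneg_left h3 (norm_nonneg (u (p 0)))
    linarith
  rw [← p0, ← p1]
  constructor
  · refine norm_image_sub_le_of_norm_deriv_le_segment_01' (f := fun t => u (p t))
      (fun t ht => (hd t ht).hasDerivWithinAt) fun t ht => ?_
    have ht' := Ico_subset_Icc_self ht
    have := mul_le_mul_of_nonneg_left (hg t ht') (mul_nonneg hC (abs_nonneg (x' - x)))
    have := hn t ht'
    linarith
  · have := norm_image_sub_le_of_norm_deriv_le_segment_01' (f := fun t => (u (p t)).im)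
      (f' := fun t => (deriv u (p t) * ((x' - x : ℝ) : ℂ)).im)
      (C := ω * Real.exp (2 * C) * |x' - x| * ‖u (p 0)‖)
      (fun t ht => (Complex.imCLM.hasFDerivAt.comp_hasDerivAt t (hd t ht)).hasDerivWithinAt)
      fun t ht => by
        have ht' := Ico_subset_Icc_self ht
        rw [Real.norm_eq_abs, Complex.im_mul_ofReal, abs_mul]
        have h1 := mul_le_mul_of_nonneg_right (hm t ht').2.2.2 (abs_nonneg (x' - x))
        have h2 := mul_le_mul_of_nonneg_left (hg t ht') (mul_nonneg hω.le (abs_nonneg (x' - x)))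
        linarith
    rwa [Real.norm_eq_abs, ← Complex.sub_im] at this

variable {I : Type} [Fintype I]

/-- A coherent sum of nearly positive numbers does not cancel. -/
theorem coh_le {F : I → ℝ} {u : I → ℂ → ℂ} {ω C : ℝ} {z : ℂ} (hω : 0 < ω) (hF : Coh F)
    (h : ∀ i, Dir (u i) ω C z) :
    ∑ i, |F i| * ‖u i z‖ ≤ (1 + ω) * ‖∑ i, (F i : ℂ) * u i z‖ := by
  have h1 : ∑ i, |F i| * ‖u i z‖ ≤ (1 + ω) * ∑ i, |F i| * (u i z).re := by
    rw [Finset.mul_sum]
    refine Finset.sum_le_sum fun i _ => ?_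
    have := mul_le_mul_of_nonneg_left (dir_norm (h i) hω) (abs_nonneg (F i))
    linarith
  have h2 : ∑ i, |F i| * (u i z).re ≤ ‖∑ i, (F i : ℂ) * u i z‖ := by
    refine le_trans ?_ (Complex.abs_re_le_norm _)
    rw [Complex.re_sum]
    simp only [Complex.re_ofReal_mul]
    rcases hF with hF | hF
    · refine le_trans (le_of_eq ?_) (le_abs_self _)
      exact Finset.sum_congr rfl fun i _ => by rw [abs_of_nonneg (hF i)]
    · refine le_trans (le_of_eq ?_) (neg_le_abs _)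
      rw [← Finset.sum_neg_distrib]
      exact Finset.sum_congr rfl fun i _ => by rw [abs_of_nonpos (hF i)]; ring
  exact h1.trans (mul_le_mul_of_nonneg_left h2 (by linarith))

theorem norm_sum_le' (F : I → ℝ) (w : I → ℂ) :
    ‖∑ i, (F i : ℂ) * w i‖ ≤ ∑ i, |F i| * ‖w i‖ :=
  (norm_sum_le _ _).trans (le_of_eq (Finset.sum_congr rfl fun i _ => by
    rw [norm_mul, Complex.norm_real, Real.norm_eq_abs]))

theorem im_sum_le (F : I → ℝ) (w : I → ℂ) :
    |(∑ i, (F i : ℂ) * w i).im| ≤ ∑ i, |F i| * |(w i).im| := by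
  rw [Complex.im_sum]
  refine (Finset.abs_sum_le_sum_abs _ _).trans (le_of_eq (Finset.sum_congr rfl fun i _ => ?_))
  rw [Complex.im_ofReal_mul, abs_mul]

/-- Horizontal estimates with respect to one root. -/
theorem root {J : Set ℝ} {F : I → ℝ} {u : I → ℂ → ℂ} {ω C ι r x y : ℝ} {Ψ : ℝ → ℂ}
    (hω : 0 < ω) (hω1 : ω ≤ 1 / 2) (hC : 0 ≤ C) (hι : 2 * ω * Real.exp (2 * C) ≤ ι) (hF : Coh F)
    (hd : ∀ i, ∀ s ∈ J, Dir (u i) ω C (s + y * Complex.I))
    (hs : ∀ s ∈ J, Ψ s - r = ∑ i, (F i : ℂ) * u i (s + y * Complex.I)) (hx : x ∈ J) :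
    (∀ x', uIcc x x' ⊆ J → |x' - x| ≤ 2 →
      ‖Ψ x' - Ψ x‖ ≤ 4 * C * Real.exp (2 * C) * |x' - x| * ‖Ψ x - r‖ ∧
      |(Ψ x' - Ψ x).im| ≤ ι * |x' - x| * ‖Ψ x - r‖) ∧ |(Ψ x).im| ≤ ι * ‖Ψ x - r‖ := by
  have hc := coh_le hω hF fun i => hd i x hx
  rw [← hs x hx] at hc
  set T := ∑ i, |F i| * ‖u i (x + y * Complex.I)‖ with hT
  have hT2 : T ≤ 2 * ‖Ψ x - r‖ := by nlinarith [norm_nonneg (Ψ x - r)]
  have he : 1 ≤ Real.exp (2 * C) := Real.one_le_exp (by linarith)
  refine ⟨fun x' hJ hx' => ?_, ?_⟩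
  · have e : Ψ x' - Ψ x =
        ∑ i, (F i : ℂ) * (u i (x' + y * Complex.I) - u i (x + y * Complex.I)) := by
      have : Ψ x' - Ψ x = (Ψ x' - r) - (Ψ x - r) := by ring
      rw [this, hs x hx, hs x' (hJ right_mem_uIcc), ← Finset.sum_sub_distrib]
      exact Finset.sum_congr rfl fun i _ => by ring
    have hseg := fun i => seg hω hC hx' fun s hs' => hd i s (hJ hs')
    have ha := abs_nonneg (x' - x)
    constructor
    · have h1 : ‖Ψ x' - Ψ x‖ ≤ C * Real.exp (2 * C) * |x' - x| * T := by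
        rw [e, hT, Finset.mul_sum]
        refine (norm_sum_le' _ _).trans (Finset.sum_le_sum fun i _ => ?_)
        have := mul_le_mul_of_nonneg_left (hseg i).1 (abs_nonneg (F i))
        linarith
      have h0 : 0 ≤ C * Real.exp (2 * C) * |x' - x| := by positivity
      have h2 := mul_le_mul_of_nonneg_left hT2 h0
      have h3 := mul_nonneg h0 (norm_nonneg (Ψ x - r))
      linarith
    · have h1 : |(Ψ x' - Ψ x).im| ≤ ω * Real.exp (2 * C) * |x' - x| * T := by
        rw [e, hT, Finset.mul_sum]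
        refine (im_sum_le _ _).trans (Finset.sum_le_sum fun i _ => ?_)
        have := mul_le_mul_of_nonneg_left (hseg i).2 (abs_nonneg (F i))
        linarith
      have h0 : 0 ≤ ω * Real.exp (2 * C) * |x' - x| := by positivity
      have h2 := mul_le_mul_of_nonneg_left hT2 h0
      have h3 := mul_le_mul_of_nonneg_right hι (mul_nonneg ha (norm_nonneg (Ψ x - r)))
      linarith
  · have e : (Ψ x).im = (Ψ x - r).im := by simp
    have h1 : |(Ψ x).im| ≤ ω * T := by
      rw [e, hs x hx, hT, Finset.mul_sum]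
      refine (im_sum_le _ _).trans (Finset.sum_le_sum fun i _ => ?_)
      have h2 := (hd i x hx).2.1
      have h3 := mul_le_mul_of_nonneg_left (Complex.re_le_norm (u i (x + y * Complex.I))) hω.le
      have := mul_le_mul_of_nonneg_left (h2.trans h3) (abs_nonneg (F i))
      linarith
    have h2 := mul_le_mul_of_nonneg_left hT2 hω.le
    have h4 : 2 * ω ≤ ι := by nlinarith
    have h3 := mul_le_mul_of_nonneg_right h4 (norm_nonneg (Ψ x - r))
    linarith

/-- Vertical estimates from steepness. -/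
theorem vert {F G : I → ℝ} {u : I → ℂ → ℂ} {ω C ι ι' : ℝ} {z D : ℂ}
    (hω : 0 < ω) (hω1 : ω ≤ 1 / 2) (hC : 0 ≤ C) (hι : ω * (2 + C) ≤ ι) (hι' : 0 < ι')
    (hle : ι' ≤ ω) (hG : ∀ i, 0 ≤ G i) (hd : ∀ i, Dir (u i) ω C z)
    (hD : D = ∑ i, (G i : ℂ) * u i z + (∑ i, (F i : ℂ) * deriv (u i) z) * Complex.I)
    (hs : ∑ i, |F i| * ‖u i z‖ ≤ ι' / 4 * ∑ i, G i * ‖u i z‖) :
    |D.im| ≤ ι * D.re ∧ ‖∑ i, (F i : ℂ) * u i z‖ ≤ ι' * D.re := by
  set A := ∑ i, G i * ‖u i z‖ with hA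
  set T := ∑ i, |F i| * ‖u i z‖ with hT
  have hA0 : 0 ≤ A := Finset.sum_nonneg fun i _ => mul_nonneg (hG i) (norm_nonneg _)
  have hT0 : 0 ≤ T := Finset.sum_nonneg fun i _ => mul_nonneg (abs_nonneg _) (norm_nonneg _)
  have h1 : 2 / 3 * A ≤ (∑ i, (G i : ℂ) * u i z).re := by
    rw [Complex.re_sum, hA, Finset.mul_sum]
    refine Finset.sum_le_sum fun i _ => ?_
    rw [Complex.re_ofReal_mul]
    have h2 := dir_norm (hd i) hω
    have h3 := dir_re (hd i) hω
    have h4 : 2 / 3 * ‖u i z‖ ≤ (u i z).re := by nlinarith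
    have := mul_le_mul_of_nonneg_left h4 (hG i)
    linarith
  have h2 : |(∑ i, (G i : ℂ) * u i z).im| ≤ ω * A := by
    rw [hA, Finset.mul_sum]
    refine (im_sum_le _ _).trans (Finset.sum_le_sum fun i _ => ?_)
    rw [abs_of_nonneg (hG i)]
    have h3 := mul_le_mul_of_nonneg_left (Complex.re_le_norm (u i z)) hω.le
    have := mul_le_mul_of_nonneg_left ((hd i).2.1.trans h3) (hG i)
    linarith
  have h3 : |(∑ i, (F i : ℂ) * deriv (u i) z).im| ≤ ω * T := by
    rw [hT, Finset.mul_sum]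
    refine (im_sum_le _ _).trans (Finset.sum_le_sum fun i _ => ?_)
    have := mul_le_mul_of_nonneg_left (hd i).2.2.2 (abs_nonneg (F i))
    linarith
  have h4 : |(∑ i, (F i : ℂ) * deriv (u i) z).re| ≤ C * T := by
    refine (Complex.abs_re_le_norm _).trans ?_
    rw [hT, Finset.mul_sum]
    refine (norm_sum_le' _ _).trans (Finset.sum_le_sum fun i _ => ?_)
    have := mul_le_mul_of_nonneg_left (hd i).2.2.1 (abs_nonneg (F i))
    linarith
  have hTA : T ≤ ω / 4 * A := hs.trans (mul_le_mul_of_nonneg_right (by linarith) hA0)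
  have hre : A / 2 ≤ D.re := by
    rw [hD, Complex.add_re, Complex.mul_I_re]
    have h5 := (abs_le.1 h3).2
    have h6 : ω * T ≤ 1 / 2 * (1 / 8 * A) :=
      mul_le_mul hω1 (hTA.trans (mul_le_mul_of_nonneg_right (by linarith) hA0)) hT0 (by norm_num)
    linarith
  constructor
  · have h5 : |D.im| ≤ ω * A + C * T := by
      rw [hD, Complex.add_im, Complex.mul_I_im]
      exact (abs_add_le _ _).trans (add_le_add h2 h4)
    have h6 := mul_le_mul_of_nonneg_left hTA hC
    have hι0 : 0 ≤ ι := le_trans (by positivity) hι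
    have h7 := mul_le_mul_of_nonneg_left hre hι0
    have h8 := mul_le_mul_of_nonneg_right hι hA0
    have h9 : 0 ≤ C * ω * A := by positivity
    linarith
  · have h5 := (norm_sum_le' F fun i => u i z).trans hs
    have h6 := mul_le_mul_of_nonneg_left hre hι'.le
    have h7 : 0 ≤ ι' * A := by positivity
    linarith

variable {J : Set ℝ} {Ef Ef' : I → ℝ → ℝ} {u : I → ℂ → ℂ} {a : I → ℝ} {e0 ω C ι' x y : ℝ}

theorem der (h : WS J Ef Ef' u a e0 ω C ι') (hx : x ∈ J) (hy : y ∈ Icc (-(2 * ι')) (2 * ι')) :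
    HasDerivAt (wsum Ef u x) (wsumy Ef Ef' u x y) y := by
  unfold wsum wsumy
  refine HasDerivAt.fun_sum fun i _ => ?_
  have h1 : HasDerivAt (fun y : ℝ => (x : ℂ) + y * Complex.I) Complex.I y := by
    simpa using ((hasDerivAt_id y).ofReal_comp.mul_const Complex.I).const_add (x : ℂ)
  exact (h.der i y hy).1.ofReal_comp.mul
    ((h.dir i x hx y hy).1.differentiableAt.hasDerivAt.comp y h1)

theorem sum0 (x y : ℝ) :
    wsum Ef u x y - (0 : ℝ) = ∑ i, (Ef i y : ℂ) * u i (x + y * Complex.I) := by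
  simp [wsum]

theorem suma (h : WS J Ef Ef' u a e0 ω C ι') (hx : x ∈ J) (hy : y ∈ Icc (-(2 * ι')) (2 * ι')) :
    wsum Ef u x y - e0 = ∑ i, ((Ef i y - a i : ℝ) : ℂ) * u i (x + y * Complex.I) := by
  rw [← (h.ref x hx y hy).self_of_nhds, wsum, ← Finset.sum_sub_distrib]
  exact Finset.sum_congr rfl fun i _ => by push_cast; ring

theorem dy0 (x y : ℝ) : wsumy Ef Ef' u x y = ∑ i, (Ef' i y : ℂ) * u i (x + y * Complex.I) +
    (∑ i, ((Ef i y - 0 : ℝ) : ℂ) * deriv (u i) (x + y * Complex.I)) * Complex.I := by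
  rw [wsumy, Finset.sum_add_distrib, Finset.sum_mul]
  refine congrArg _ (Finset.sum_congr rfl fun i _ => ?_)
  rw [sub_zero, mul_assoc]

theorem dya (h : WS J Ef Ef' u a e0 ω C ι') (hx : x ∈ J) (hy : y ∈ Icc (-(2 * ι')) (2 * ι')) :
    wsumy Ef Ef' u x y = ∑ i, (Ef' i y : ℂ) * u i (x + y * Complex.I) +
      (∑ i, ((Ef i y - a i : ℝ) : ℂ) * deriv (u i) (x + y * Complex.I)) * Complex.I := by
  have h1 : HasDerivAt (fun z => ∑ i, (a i : ℂ) * u i z)
      (∑ i, (a i : ℂ) * deriv (u i) (x + y * Complex.I)) (x + y * Complex.I) :=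
    HasDerivAt.fun_sum fun i _ =>
      (h.dir i x hx y hy).1.differentiableAt.hasDerivAt.const_mul _
  have h2 : HasDerivAt (fun z => ∑ i, (a i : ℂ) * u i z) 0 (x + y * Complex.I) :=
    (hasDerivAt_const _ (e0 : ℂ)).congr_of_eventuallyEq (h.ref x hx y hy)
  have h3 := h1.unique h2
  rw [dy0]
  refine congrArg (fun w => _ + w * Complex.I) ?_
  have : ∑ i, ((Ef i y - a i : ℝ) : ℂ) * deriv (u i) (x + y * Complex.I) =
      ∑ i, ((Ef i y - 0 : ℝ) : ℂ) * deriv (u i) (x + y * Complex.I) -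
        ∑ i, (a i : ℂ) * deriv (u i) (x + y * Complex.I) := by
    rw [← Finset.sum_sub_distrib]
    exact Finset.sum_congr rfl fun i _ => by push_cast; ring
  rw [this, h3, sub_zero]

end PWS

theorem st_pws : St_PWS := by
  intro ι C hι hC
  have he : 0 < Real.exp (2 * C) := Real.exp_pos _
  refine ⟨min (1 / 2) (min (ι / (2 + C)) (ι / (2 * Real.exp (2 * C)))), by positivity, ?_⟩
  set ω := min (1 / 2) (min (ι / (2 + C)) (ι / (2 * Real.exp (2 * C)))) with hωd
  have hω : 0 < ω := by positivity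
  have hω1 : ω ≤ 1 / 2 := min_le_left _ _
  have hω2 : ω * (2 + C) ≤ ι :=
    (le_div_iff₀ (by positivity)).1 ((min_le_right _ _).trans (min_le_left _ _))
  have hω3 : 2 * ω * Real.exp (2 * C) ≤ ι := by
    have := (le_div_iff₀ (by positivity)).1 ((min_le_right (1 / 2) _).trans
      (min_le_right (ι / (2 + C)) (ι / (2 * Real.exp (2 * C)))))
    linarith
  intro I _ J Ef Ef' u a e0 ι' hι' hle h
  have hlι : ι' ≤ ι := by nlinarith
  have v0 : ∀ x ∈ J, ∀ y ∈ Icc (-(2 * ι')) (2 * ι'), Steep Ef Ef' u (fun _ => 0) ι' x y →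
      |(wsumy Ef Ef' u x y).im| ≤ ι * (wsumy Ef Ef' u x y).re ∧
        ‖wsum Ef u x y‖ ≤ ι' * (wsumy Ef Ef' u x y).re := by
    intro x hx y hy hs
    have := PWS.vert hω hω1 hC hω2 hι' hle (fun i => (h.der i y hy).2)
      (fun i => h.dir i x hx y hy) (PWS.dy0 x y) hs
    simpa only [sub_zero, wsum] using this
  have va : ∀ x ∈ J, ∀ y ∈ Icc (-(2 * ι')) (2 * ι'), Steep Ef Ef' u a ι' x y →
      |(wsumy Ef Ef' u x y).im| ≤ ι * (wsumy Ef Ef' u x y).re ∧
        ‖wsum Ef u x y - e0‖ ≤ ι' * (wsumy Ef Ef' u x y).re := by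
    intro x hx y hy hs
    rw [PWS.suma h hx hy]
    exact PWS.vert hω hω1 hC hω2 hι' hle (fun i => (h.der i y hy).2)
      (fun i => h.dir i x hx y hy) (PWS.dya h hx hy) hs
  have hc : ∀ x ∈ J, ∀ y ∈ Icc (-(2 * ι')) (2 * ι'),
      |(wsumy Ef Ef' u x y).im| ≤ ι * (wsumy Ef Ef' u x y).re := fun x hx y hy =>
    (h.steep x hx y hy).elim (fun hs => (v0 x hx y hy hs).1) fun hs => (va x hx y hy hs).1
  have r0 := fun x (hx : x ∈ J) y (hy : y ∈ Icc (-(2 * ι')) (2 * ι')) =>
    PWS.root (Ψ := fun s => wsum Ef u s y) (r := 0) hω hω1 hC hω3 (h.coh y hy)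
      (fun i s hs => h.dir i s hs y hy) (fun s _ => PWS.sum0 s y) hx
  constructor
  · intro lev hl
    have hss : ∀ v : ℂ, ss 0 v = ‖v - (0 : ℝ)‖ := fun v => by simp [ss]
    refine ⟨hι', hlι, fun x hx y hy => PWS.der h hx hy, hc, fun x hx y hy hv => ?_,
      fun x hx y hy _ => ?_, fun x hx y hy _ => ?_⟩
    · exact (min_le_left _ _).trans (v0 x hx y hy (hl x hx y hy hv)).2
    · rw [hss]; exact (r0 x hx y hy).1
    · rw [hss]; exact (r0 x hx y hy).2
  · intro hco
    have ra := fun x (hx : x ∈ J) y (hy : y ∈ Icc (-(2 * ι')) (2 * ι')) =>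
      PWS.root (Ψ := fun s => wsum Ef u s y) (r := e0) hω hω1 hC hω3 (hco y hy)
        (fun i s hs => h.dir i s hs y hy) (fun s hs => PWS.suma h hs hy) hx
    have hss : ∀ v : ℂ, ss e0 v = ‖v - (0 : ℝ)‖ ∨ ss e0 v = ‖v - e0‖ := fun v => by
      simpa [ss] using min_choice ‖v‖ ‖v - e0‖
    refine ⟨hι', hlι, fun x hx y hy => PWS.der h hx hy, hc, fun x hx y hy _ => ?_,
      fun x hx y hy _ => ?_, fun x hx y hy _ => ?_⟩
    · rcases h.steep x hx y hy with hs | hs
      · exact (min_le_left _ _).trans (v0 x hx y hy hs).2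
      · exact (min_le_right _ _).trans (va x hx y hy hs).2
    · rcases hss (wsum Ef u x y) with e | e <;> rw [e]
      · exact (r0 x hx y hy).1
      · exact (ra x hx y hy).1
    · rcases hss (wsum Ef u x y) with e | e <;> rw [e]
      · exact (r0 x hx y hy).2
      · exact (ra x hx y hy).2

end Pool.Agent.Lib.SH
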