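import Pool.Agent.Lib.SH.Blue6
import Pool.Agent.Lib.SH.B_PWS
import Pool.Agent.Lib.CF.Basic

/-! Block PWG: general walls (inactive terms, nonlinear fibre map) are plain walls. -/

open Set Filter Topology Metric

noncomputable section

namespace Pool.Agent.Lib.SH

namespace PWG

variable {I : Type} [Fintype I]

theorem ss0 (e : ℝ) (v : ℂ) : 0 ≤ ss e v := le_min (norm_nonneg _) (norm_nonneg _)

/-- sharper vertical estimate -/
theorem vert2 {F G : I → ℝ} {u : I → ℂ → ℂ} {ω C ι' : ℝ} {z D : ℂ}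
    (hω : 0 < ω) (hω1 : ω ≤ 1 / 100) (hι' : 0 < ι') (hle : ι' ≤ ω) (hG : ∀ i, 0 ≤ G i)
    (hd : ∀ i, Dir (u i) ω C z)
    (hD : D = ∑ i, (G i : ℂ) * u i z + (∑ i, (F i : ℂ) * deriv (u i) z) * Complex.I)
    (hs : ∑ i, |F i| * ‖u i z‖ ≤ ι' / 4 * ∑ i, G i * ‖u i z‖) :
    ‖∑ i, (F i : ℂ) * u i z‖ ≤ ι' / 3 * D.re := by
  set A := ∑ i, G i * ‖u i z‖ with hA
  set T := ∑ i, |F i| * ‖u i z‖ with hT
  have hA0 : 0 ≤ A := Finset.sum_nonneg fun i _ => mul_nonneg (hG i) (norm_nonneg _)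
  have hT0 : 0 ≤ T := Finset.sum_nonneg fun i _ => mul_nonneg (abs_nonneg _) (norm_nonneg _)
  have h1 : 9 / 10 * A ≤ (∑ i, (G i : ℂ) * u i z).re := by
    rw [Complex.re_sum, hA, Finset.mul_sum]
    refine Finset.sum_le_sum fun i _ => ?_
    rw [Complex.re_ofReal_mul]
    have h2 := PWS.dir_norm (hd i) hω
    have h3 := PWS.dir_re (hd i) hω
    have h4 : 9 / 10 * ‖u i z‖ ≤ (u i z).re := by nlinarith
    have := mul_le_mul_of_nonneg_left h4 (hG i)
    linarith
  have h3 : |(∑ i, (F i : ℂ) * deriv (u i) z).im| ≤ ω * T := by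
    rw [hT, Finset.mul_sum]
    refine (PWS.im_sum_le _ _).trans (Finset.sum_le_sum fun i _ => ?_)
    have := mul_le_mul_of_nonneg_left (hd i).2.2.2 (abs_nonneg (F i))
    linarith
  have hTA : T ≤ 1 / 8 * A := hs.trans (mul_le_mul_of_nonneg_right (by linarith) hA0)
  have hre : 3 / 4 * A ≤ D.re := by
    rw [hD, Complex.add_re, Complex.mul_I_re]
    have h5 := (abs_le.1 h3).2
    have h6 : ω * T ≤ 1 / 2 * (1 / 8 * A) := mul_le_mul (by linarith) hTA hT0 (by norm_num)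
    linarith
  have h5 := (PWS.norm_sum_le' F fun i => u i z).trans hs
  have h6 := mul_le_mul_of_nonneg_left hre hι'.le
  linarith

/-- the linear estimates at one point -/
def Lin (J : Set ℝ) (v : ℝ → ℝ → ℂ) (e ι ι' C x y : ℝ) : Prop :=
  (∃ D, HasDerivAt (v x) D y ∧ |D.im| ≤ ι * D.re ∧ ss e (v x y) ≤ ι' / 3 * D.re) ∧
  (∀ x', uIcc x x' ⊆ J → |x' - x| ≤ 2 → ‖v x' y - v x y‖ ≤ C * |x' - x| * ss e (v x y) ∧
    |(v x' y - v x y).im| ≤ ι * |x' - x| * ss e (v x y)) ∧ |(v x y).im| ≤ ι * ss e (v x y)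

theorem lin {J : Set ℝ} {Ef Ef' : I → ℝ → ℝ} {u : I → ℂ → ℂ} {a : I → ℝ} {Θ : E → ℂ}
    {e ω C ι ι' r x y : ℝ} (hω : 0 < ω) (hω1 : ω ≤ 1 / 100) (hC : 0 ≤ C) (h2 : ω * (2 + C) ≤ ι)
    (h3 : 2 * ω * Real.exp (2 * C) ≤ ι) (hι' : 0 < ι') (hle : ι' ≤ ω)
    (h : WS2 J Ef Ef' u a Θ e ω C ι' r) (hx : x ∈ J) (hy : y ∈ Icc (-(2 * ι')) (2 * ι')) :
    Lin J (wsum Ef u) e ι ι' (4 * C * Real.exp (2 * C)) x y := by
  classical
  rcases h.dir y hy with h0 | ⟨hr, hi⟩
  · have a1 : ∀ x', ∀ᶠ s in 𝓝 y, wsum Ef u x' s = 0 := fun x' => by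
      filter_upwards [eventually_all.2 h0] with s hs
      simp [wsum, hs]
    have a2 : ∀ x', wsum Ef u x' y = 0 := fun x' => (a1 x').self_of_nhds
    have a3 : ss e 0 = 0 := by simp [ss]
    refine ⟨⟨0, (hasDerivAt_const y (0 : ℂ)).congr_of_eventuallyEq (a1 x), by simp, ?_⟩,
      fun x' _ _ => ?_, ?_⟩ <;> simp [a2, a3]
  set act : I → Prop := fun i => (∀ᶠ s in 𝓝 y, Ef i s = 0) ∧ a i = 0 with hact
  set w : I → ℂ → ℂ := fun i => if act i then fun _ => 1 else u i with hw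
  have w1 : ∀ i, ¬ act i → w i = u i := fun i hi => if_neg hi
  have dirw : ∀ i, ∀ s ∈ J, Dir (w i) ω C (s + y * Complex.I) := fun i s hs => by
    by_cases ha : act i
    · have : w i = fun _ => 1 := if_pos ha
      rw [this]
      exact ⟨analyticAt_const, by simpa using hω.le, by simpa using hC, by simpa using hω.le⟩
    · rw [w1 i ha]; exact (hi i).resolve_left ha s hs
  have E0 : ∀ i, act i → Ef i y = 0 := fun i ha => ha.1.self_of_nhds
  have E1 : ∀ i, act i → Ef' i y = 0 := fun i ha =>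
    (h.der i y hy).1.unique ((hasDerivAt_const y (0 : ℝ)).congr_of_eventuallyEq ha.1)
  have ev : ∀ x', ∀ᶠ s in 𝓝 y, wsum Ef u x' s = wsum Ef w x' s := fun x' => by
    have : ∀ i, ∀ᶠ s in 𝓝 y, act i → Ef i s = 0 := fun i => by
      by_cases ha : act i
      · exact ha.1.mono fun s hs _ => hs
      · exact Eventually.of_forall fun s hs => absurd hs ha
    filter_upwards [eventually_all.2 this] with s hs
    refine Finset.sum_congr rfl fun i _ => ?_
    by_cases ha : act i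
    · simp [hs i ha]
    · rw [w1 i ha]
  have ev0 : ∀ x', wsum Ef u x' y = wsum Ef w x' y := fun x' => (ev x').self_of_nhds
  have rf : ∀ z, ∑ i, (a i : ℂ) * u i z = ∑ i, (a i : ℂ) * w i z := fun z =>
    Finset.sum_congr rfl fun i _ => by
      by_cases ha : act i
      · simp [ha.2]
      · rw [w1 i ha]
  have st : ∀ b : I → ℝ, (∀ i, act i → b i = 0) → Steep Ef Ef' u b ι' x y →
      Steep Ef Ef' w b ι' x y := fun b hb hs => by
    unfold Steep at hs ⊢
    have b1 : ∑ i, |Ef i y - b i| * ‖w i (x + y * Complex.I)‖ =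
        ∑ i, |Ef i y - b i| * ‖u i (x + y * Complex.I)‖ := Finset.sum_congr rfl fun i _ => by
      by_cases ha : act i
      · simp [E0 i ha, hb i ha]
      · rw [w1 i ha]
    have b2 : ∑ i, Ef' i y * ‖w i (x + y * Complex.I)‖ =
        ∑ i, Ef' i y * ‖u i (x + y * Complex.I)‖ := Finset.sum_congr rfl fun i _ => by
      by_cases ha : act i
      · simp [E1 i ha]
      · rw [w1 i ha]
    rwa [b1, b2]
  have suma : ∀ s ∈ J, wsum Ef w s y - e =
      ∑ i, ((Ef i y - a i : ℝ) : ℂ) * w i (s + y * Complex.I) := fun s hs => by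
    rw [← (hr s hs).self_of_nhds, rf, wsum, ← Finset.sum_sub_distrib]
    exact Finset.sum_congr rfl fun i _ => by push_cast; ring
  have dya : wsumy Ef Ef' w x y = ∑ i, (Ef' i y : ℂ) * w i (x + y * Complex.I) +
      (∑ i, ((Ef i y - a i : ℝ) : ℂ) * deriv (w i) (x + y * Complex.I)) * Complex.I := by
    have b1 : HasDerivAt (fun z => ∑ i, (a i : ℂ) * w i z)
        (∑ i, (a i : ℂ) * deriv (w i) (x + y * Complex.I)) (x + y * Complex.I) :=
      HasDerivAt.fun_sum fun i _ => (dirw i x hx).1.differentiableAt.hasDerivAt.const_mul _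
    have b2 : HasDerivAt (fun z => ∑ i, (a i : ℂ) * w i z) 0 (x + y * Complex.I) :=
      (hasDerivAt_const _ (e : ℂ)).congr_of_eventuallyEq ((hr x hx).mono fun z hz =>
        (rf z).symm.trans hz)
    have b3 := b1.unique b2
    rw [PWS.dy0]
    refine congrArg (fun w => _ + w * Complex.I) ?_
    have : ∑ i, ((Ef i y - a i : ℝ) : ℂ) * deriv (w i) (x + y * Complex.I) =
        ∑ i, ((Ef i y - 0 : ℝ) : ℂ) * deriv (w i) (x + y * Complex.I) -
          ∑ i, (a i : ℂ) * deriv (w i) (x + y * Complex.I) := by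
      rw [← Finset.sum_sub_distrib]
      exact Finset.sum_congr rfl fun i _ => by push_cast; ring
    rw [this, b3, sub_zero]
  have der : HasDerivAt (wsum Ef w x) (wsumy Ef Ef' w x y) y := by
    unfold wsum wsumy
    refine HasDerivAt.fun_sum fun i _ => ?_
    have h1 : HasDerivAt (fun y : ℝ => (x : ℂ) + y * Complex.I) Complex.I y := by
      simpa using ((hasDerivAt_id y).ofReal_comp.mul_const Complex.I).const_add (x : ℂ)
    exact (h.der i y hy).1.ofReal_comp.mul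
      ((dirw i x hx).1.differentiableAt.hasDerivAt.comp y h1)
  have hG := fun i => (h.der i y hy).2
  have hω2 : ω ≤ 1 / 2 := by linarith
  have r0 := PWS.root (Ψ := fun s => wsum Ef w s y) (r := 0) hω hω2 hC h3 (h.coh y hy).1
    dirw (fun s _ => PWS.sum0 s y) hx
  have ra := PWS.root (Ψ := fun s => wsum Ef w s y) (r := e) hω hω2 hC h3 (h.coh y hy).2
    dirw suma hx
  have hss : ∀ v : ℂ, ss e v = ‖v - (0 : ℝ)‖ ∨ ss e v = ‖v - e‖ := fun v => by
    simpa [ss] using min_choice ‖v‖ ‖v - e‖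
  refine ⟨⟨_, der.congr_of_eventuallyEq (ev x), ?_⟩, ?_, ?_⟩
  · rw [ev0]
    rcases h.steep x hx y hy with hs | hs
    · have hs' := st _ (fun _ _ => rfl) hs
      refine ⟨(PWS.vert hω hω2 hC h2 hι' hle hG (fun i => dirw i x hx) (PWS.dy0 x y) hs').1,
        (min_le_left _ _).trans ?_⟩
      simpa only [sub_zero, wsum] using
        vert2 hω hω1 hι' hle hG (fun i => dirw i x hx) (PWS.dy0 x y) hs'
    · have hs' := st _ (fun _ ha => ha.2) hs
      refine ⟨(PWS.vert hω hω2 hC h2 hι' hle hG (fun i => dirw i x hx) dya hs').1,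
        (min_le_right _ _).trans ?_⟩
      rw [suma x hx]
      exact vert2 hω hω1 hι' hle hG (fun i => dirw i x hx) dya hs'
  · simp only [ev0]
    rcases hss (wsum Ef w x y) with e | e <;> rw [e]
    · exact r0.1
    · exact ra.1
  · rw [ev0]
    rcases hss (wsum Ef w x y) with e | e <;> rw [e]
    · exact r0.2
    · exact ra.2

theorem th_v {Θ : E → ℂ} {e ω r : ℝ} {z v v' : ℂ} (h : Th Θ e ω r z) (hv : ‖v‖ ≤ r)
    (hv' : ‖v'‖ ≤ r) : ‖Θ (z, v') - Θ (z, v) - (v' - v)‖ ≤ ω * ‖v' - v‖ := by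
  have := Convex.norm_image_sub_le_of_norm_hasDerivWithin_le (f := fun t => Θ (z, t) - t)
    (f' := fun t => CF.dw Θ (z, t) - 1) (s := closedBall (0 : ℂ) r) (C := ω)
    (fun t ht => by
      have a := (h.2 t (mem_closedBall_zero_iff.1 ht)).1.differentiableAt
      have b := CF.hasDerivAt_dw a
      rw [← CF.dw_eq a] at b
      exact (b.sub (hasDerivAt_id t)).hasDerivWithinAt)
    (fun t ht => (h.2 t (mem_closedBall_zero_iff.1 ht)).2.1) (convex_closedBall _ _)
    (mem_closedBall_zero_iff.2 hv) (mem_closedBall_zero_iff.2 hv')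
  rwa [show Θ (z, v') - v' - (Θ (z, v) - v) = Θ (z, v') - Θ (z, v) - (v' - v) by ring] at this

theorem th_root {Θ : E → ℂ} {e ω r : ℝ} {z v : ℂ} (h : Th Θ e ω r z) (hv : ‖v‖ ≤ r)
    (he : 0 ≤ e ∧ e ≤ r) : ‖Θ (z, v) - v‖ ≤ ω * ss e v ∧ (1 - ω) * ss e v ≤ ss e (Θ (z, v)) ∧
      ss e (Θ (z, v)) ≤ (1 + ω) * ss e v := by
  obtain ⟨h0, h1⟩ := h.1.self_of_nhds
  have a := th_v h (v := 0) (by simpa using he.1.trans he.2) hv
  have b := th_v h (v := e) (by simpa [abs_of_nonneg he.1] using he.2) hv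
  rw [h0, sub_zero, sub_zero] at a
  rw [h1, show Θ (z, v) - e - (v - e) = Θ (z, v) - v by ring] at b
  have c : ‖Θ (z, v) - v‖ ≤ ω * ss e v := by
    unfold ss
    rcases min_choice ‖v‖ ‖v - e‖ with d | d <;> rw [d] <;> assumption
  have a1 := abs_le.1 (abs_norm_sub_norm_le (Θ (z, v)) v)
  have b1 := abs_le.1 (abs_norm_sub_norm_le (Θ (z, v) - e) (v - e))
  rw [show Θ (z, v) - e - (v - e) = Θ (z, v) - v by ring] at b1
  have m1 : ss e v ≤ ‖v‖ := min_le_left _ _
  have m2 : ss e v ≤ ‖v - e‖ := min_le_right _ _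
  have m3 : ss e (Θ (z, v)) ≤ ‖Θ (z, v)‖ := min_le_left _ _
  have m4 : ss e (Θ (z, v)) ≤ ‖Θ (z, v) - e‖ := min_le_right _ _
  refine ⟨c, le_min (by linarith [a1.1]) (by linarith [b1.1]), ?_⟩
  rcases min_choice ‖v‖ ‖v - e‖ with d | d
  · have d' : ss e v = ‖v‖ := d
    linarith [a1.2]
  · have d' : ss e v = ‖v - e‖ := d
    linarith [b1.2]

theorem th_z {Θ : E → ℂ} {e ω r x x' y : ℝ} {v : ℂ} (hv : ‖v‖ ≤ r)
    (h : ∀ s ∈ uIcc x x', Th Θ e ω r (s + y * Complex.I)) :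
    ‖Θ (x' + y * Complex.I, v) - Θ (x + y * Complex.I, v)‖ ≤ ω * ss e v * |x' - x| := by
  have := Convex.norm_image_sub_le_of_norm_hasDerivWithin_le
    (f := fun s : ℝ => Θ (s + y * Complex.I, v))
    (f' := fun s => CF.dz Θ (s + y * Complex.I, v)) (s := uIcc x x') (C := ω * ss e v)
    (fun s hs => by
      have a := ((h s hs).2 v hv).1.differentiableAt
      have b := CF.hasDerivAt_dz a
      rw [← CF.dz_eq a] at b
      have c : HasDerivAt (fun s : ℝ => (s : ℂ) + y * Complex.I) 1 s := by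
        simpa using (hasDerivAt_id s).ofReal_comp.add_const (y * Complex.I)
      have d := (HasDerivAt.comp s b c).hasDerivWithinAt (s := uIcc x x')
      rw [mul_one] at d
      exact d)
    (fun s hs => ((h s hs).2 v hv).2.2) (convex_uIcc _ _) left_mem_uIcc right_mem_uIcc
  rwa [Real.norm_eq_abs] at this

theorem th_der {Θ : E → ℂ} {v : ℝ → ℂ} {D : ℂ} {x y : ℝ}
    (a : AnalyticAt ℂ Θ (x + y * Complex.I, v y)) (hv : HasDerivAt v D y) :
    HasDerivAt (fun s : ℝ => Θ (x + s * Complex.I, v s))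
      (CF.dz Θ (x + y * Complex.I, v y) * Complex.I + CF.dw Θ (x + y * Complex.I, v y) * D) y := by
  have h1 : HasDerivAt (fun y : ℝ => (x : ℂ) + y * Complex.I) Complex.I y := by
    simpa using ((hasDerivAt_id y).ofReal_comp.mul_const Complex.I).const_add (x : ℂ)
  have := (a.differentiableAt.hasFDerivAt.restrictScalars ℝ).comp_hasDerivAt y (h1.prodMk hv)
  rw [← CF.fderiv_apply a.differentiableAt]
  exact this

end PWG

theorem st_pwg : St_PWG := by
  intro ι C hι hC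
  have he : 0 < Real.exp (2 * C) := Real.exp_pos _
  have he1 : 1 ≤ Real.exp (2 * C) := Real.one_le_exp (by linarith)
  obtain ⟨ι1, i0, i1, i2⟩ : ∃ ι1 : ℝ, 0 < ι1 ∧ ι1 ≤ 1 / 4 ∧ ι1 ≤ ι / 4 :=
    ⟨min (1 / 4) (ι / 4), by positivity, min_le_left _ _, min_le_right _ _⟩
  set A := 4 * C * Real.exp (2 * C) with hA
  have A0 : 0 ≤ A := by positivity
  set S := 100 + C + 2 * Real.exp (2 * C) + A with hS
  have S0 : 0 < S := by positivity
  refine ⟨ι1 / S, by positivity, ?_⟩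
  set ω := ι1 / S with hωd
  have hω : 0 < ω := by positivity
  have hωS : ω * S = ι1 := by rw [hωd]; field_simp
  have p1 : 0 ≤ ω * C := by positivity
  have p2 : 0 ≤ ω * Real.exp (2 * C) := by positivity
  have p3 : 0 ≤ ω * A := by positivity
  have q : ω * 100 + ω * C + 2 * (ω * Real.exp (2 * C)) + ω * A = ι1 := by rw [← hωS, hS]; ring
  intro I _ J Ef Ef' u a Θ e0 ι' r hι' hle h
  have L := fun x (hx : x ∈ J) y (hy : y ∈ Icc (-(2 * ι')) (2 * ι')) =>
    PWG.lin (ι := ι1) hω (by linarith) hC (by linarith) (by linarith) hι' hle h hx hy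
  have key : ∀ x ∈ J, ∀ y ∈ Icc (-(2 * ι')) (2 * ι'),
      HasDerivAt (wth Ef u Θ x) (deriv (wth Ef u Θ x) y) y ∧
      |(deriv (wth Ef u Θ x) y).im| ≤ ι * (deriv (wth Ef u Θ x) y).re ∧
      ss e0 (wth Ef u Θ x y) ≤ ι' / 2 * (deriv (wth Ef u Θ x) y).re ∧
      (∀ x', uIcc x x' ⊆ J → |x' - x| ≤ 2 →
        ‖wth Ef u Θ x' y - wth Ef u Θ x y‖ ≤ cW C * |x' - x| * ss e0 (wth Ef u Θ x y) ∧
        |(wth Ef u Θ x' y - wth Ef u Θ x y).im| ≤ ι * |x' - x| * ss e0 (wth Ef u Θ x y)) ∧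
      |(wth Ef u Θ x y).im| ≤ ι * ss e0 (wth Ef u Θ x y) := by
    intro x hx y hy
    obtain ⟨⟨D, d1, d2, d3⟩, l2, l3⟩ := L x hx y hy
    obtain ⟨t1, t2⟩ := h.th x hx y hy
    obtain ⟨a1, a2, a3⟩ := t2.2 _ t1
    obtain ⟨r1, r2, r3⟩ := PWG.th_root t2 t1 h.er
    have hd : HasDerivAt (wth Ef u Θ x) _ y := PWG.th_der a1 d1
    rw [hd.deriv]
    have s0 := PWG.ss0 e0 (wsum Ef u x y)
    have s1 : ss e0 (wsum Ef u x y) ≤ 2 * ss e0 (wth Ef u Θ x y) := by
      have : (1 - ω) * ss e0 (wsum Ef u x y) ≤ ss e0 (wth Ef u Θ x y) := r2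
      nlinarith
    have s1' : ss e0 (wsum Ef u x y) ≤ 11 / 10 * ss e0 (wth Ef u Θ x y) := by
      have : (1 - ω) * ss e0 (wsum Ef u x y) ≤ ss e0 (wth Ef u Θ x y) := r2
      nlinarith
    have s2 : ss e0 (wth Ef u Θ x y) ≤ (1 + ω) * ss e0 (wsum Ef u x y) := r3
    have s3 := PWG.ss0 e0 (wth Ef u Θ x y)
    set σ := ss e0 (wsum Ef u x y)
    set σ' := ss e0 (wth Ef u Θ x y)
    have D0 : 0 ≤ D.re := nonneg_of_mul_nonneg_right ((abs_nonneg _).trans d2) i0
    have D1 : ‖D‖ ≤ 2 * D.re := by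
      have := Complex.norm_le_abs_re_add_abs_im D
      rw [abs_of_nonneg D0] at this
      nlinarith
    have D2 : σ ≤ D.re := d3.trans (by nlinarith)
    set dz := CF.dz Θ (x + y * Complex.I, wsum Ef u x y)
    set dw := CF.dw Θ (x + y * Complex.I, wsum Ef u x y)
    have D3 : ‖dz * Complex.I + dw * D - D‖ ≤ 3 * ω * D.re := by
      rw [show dz * Complex.I + dw * D - D = dz * Complex.I + (dw - 1) * D by ring]
      refine (norm_add_le _ _).trans ?_
      rw [norm_mul, norm_mul, Complex.norm_I, mul_one]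
      have := mul_le_mul a2 D1 (norm_nonneg _) hω.le
      nlinarith
    have D4 := abs_le.1 ((Complex.abs_re_le_norm _).trans D3)
    have D5 := abs_le.1 ((Complex.abs_im_le_norm _).trans D3)
    rw [Complex.sub_re] at D4
    rw [Complex.sub_im] at D5
    have D6 : 9 / 10 * D.re ≤ (dz * Complex.I + dw * D).re := by nlinarith [D4.1]
    have d2' := abs_le.1 d2
    refine ⟨hd, ?_, ?_, fun x' hJ hx' => ?_, ?_⟩
    · have b1 : ι1 * D.re + 3 * ω * D.re ≤ ι * (9 / 10 * D.re) := by nlinarith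
      have b2 := mul_le_mul_of_nonneg_left D6 hι.le
      rw [abs_le]; constructor <;> linarith [D5.1, D5.2, d2'.1, d2'.2]
    · have b1 : σ' ≤ 11 / 10 * (ι' / 3 * D.re) := s2.trans (mul_le_mul (by linarith) d3 s0 (by norm_num))
      have b2 := mul_le_mul_of_nonneg_left D6 hι'.le
      have b3 : 0 ≤ ι' * D.re := by positivity
      linarith
    · obtain ⟨m1, m2⟩ := l2 x' hJ hx'
      obtain ⟨t1', t2'⟩ := h.th x' (hJ right_mem_uIcc) y hy
      have b1 := PWG.th_v t2' t1 t1'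
      have b2 := PWG.th_z t1 fun s hs => (h.th s (hJ hs) y hy).2
      have x0 := abs_nonneg (x' - x)
      set dv := wsum Ef u x' y - wsum Ef u x y
      have b3 : ‖wth Ef u Θ x' y - wth Ef u Θ x y - dv‖ ≤ ω * (A + 1) * (|x' - x| * σ) := by
        rw [show wth Ef u Θ x' y - wth Ef u Θ x y - dv =
          (Θ (x' + y * Complex.I, wsum Ef u x' y) - Θ (x' + y * Complex.I, wsum Ef u x y) - dv) +
          (Θ (x' + y * Complex.I, wsum Ef u x y) - Θ (x + y * Complex.I, wsum Ef u x y)) by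
            unfold wth; ring]
        refine (norm_add_le _ _).trans ?_
        have := mul_le_mul_of_nonneg_left m1 hω.le
        linarith
      have b4 : |x' - x| * σ ≤ 11 / 10 * (|x' - x| * σ') := by nlinarith
      have b5 : 0 ≤ |x' - x| * σ := by positivity
      have b6 : 0 ≤ |x' - x| * σ' := by positivity
      constructor
      · have b7 := norm_sub_norm_le (wth Ef u Θ x' y - wth Ef u Θ x y) dv
        have b8 : cW C = 2 * A + 1 := by rw [hA, cW]; ring
        have b9 : ω * (A + 1) * (|x' - x| * σ) ≤ 1 / 2 * (|x' - x| * σ) :=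
          mul_le_mul_of_nonneg_right (by linarith) b5
        have b10 := mul_le_mul_of_nonneg_left b4 A0
        have b11 := mul_nonneg A0 b6
        rw [b8]
        linarith
      · have b7 := abs_le.1 ((Complex.abs_im_le_norm _).trans b3)
        rw [Complex.sub_im] at b7
        have b8 := abs_le.1 m2
        have b9 : ω * (A + 1) * (|x' - x| * σ) ≤ ι / 4 * (|x' - x| * σ) :=
          mul_le_mul_of_nonneg_right (by linarith) b5
        have b10 : ι1 * (|x' - x| * σ) ≤ ι / 4 * (|x' - x| * σ) :=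
          mul_le_mul_of_nonneg_right i2 b5
        have b11 := mul_le_mul_of_nonneg_left b4 hι.le
        have b12 := mul_nonneg hι.le b6
        rw [abs_le]; constructor <;> linarith [b7.1, b7.2, b8.1, b8.2]
    · have b7 := abs_le.1 ((Complex.abs_im_le_norm _).trans r1)
      rw [Complex.sub_im] at b7
      have b8 := abs_le.1 l3
      have b9 : ω * σ ≤ ι / 4 * σ := mul_le_mul_of_nonneg_right (by linarith) s0
      have b10 : ι1 * σ ≤ ι / 4 * σ := mul_le_mul_of_nonneg_right i2 s0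
      have b11 := mul_le_mul_of_nonneg_left s1 hι.le
      have b13 : (wth Ef u Θ x y).im = (Θ (x + y * Complex.I, wsum Ef u x y)).im := rfl
      rw [abs_le]; constructor <;> linarith [b7.1, b7.2, b8.1, b8.2]
  refine ⟨fun x y => deriv (wth Ef u Θ x) y, fun e lev hR => ?_⟩
  have cmp : ∀ v : ℂ, lev ≤ ‖pp e v‖ → ss e0 v ≤ ss e v ∧ ss e v ≤ 2 * ss e0 v := fun v hv => by
    rcases hR with ⟨rfl, _⟩ | ⟨rfl, hl⟩
    · exact ⟨le_rfl, by linarith [PWG.ss0 e v]⟩
    · have b1 : ss 0 v = ‖v‖ := by simp [ss]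
      have b2 : ‖pp 0 v‖ = ‖v‖ ^ 2 := by simp [pp, sq]
      have b3 : 2 * e0 ≤ ‖v‖ := by
        refine (pow_le_pow_iff_left₀ (by linarith [h.er.1]) (norm_nonneg _) two_ne_zero).1 ?_
        rw [← b2]; linarith
      have b4 := norm_sub_norm_le v (e0 : ℂ)
      rw [Complex.norm_real, Real.norm_eq_abs, abs_of_nonneg h.er.1] at b4
      rw [b1]
      refine ⟨min_le_left _ _, ?_⟩
      unfold ss
      rcases min_choice ‖v‖ ‖v - e0‖ with d | d <;> rw [d] <;> linarith [norm_nonneg v]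
  have c0 : 0 ≤ cW C := by unfold cW; positivity
  refine ⟨hι', by linarith, fun x hx y hy => (key x hx y hy).1, fun x hx y hy => (key x hx y hy).2.1,
    fun x hx y hy hv => ?_, fun x hx y hy hv x' hJ hx' => ?_, fun x hx y hy hv => ?_⟩
  · linarith [(cmp _ hv).2, (key x hx y hy).2.2.1]
  · obtain ⟨b1, b2⟩ := (key x hx y hy).2.2.2.1 x' hJ hx'
    have b3 := (cmp _ hv).1
    have b4 := abs_nonneg (x' - x)
    exact ⟨b1.trans (by gcongr), b2.trans (by gcongr)⟩
  · have b3 := (cmp _ hv).1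
    exact (key x hx y hy).2.2.2.2.trans (by gcongr)

end Pool.Agent.Lib.SH
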