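import Pool.Agent.Lib.SH.B_SHAPEa

/-! The birth shape. -/

open Set Filter Topology Metric Complex
open scoped ContDiff

noncomputable section

namespace Pool.Agent.Lib.SH

namespace SHAPE

/-- the deviation near the point `I` -/
def Dn (L δ : ℝ) (z : ℂ) : ℝ :=
  (z - I).im + (Real.log 2 - Real.log ‖z + I‖ - gg (I * δ * (z - I))) / L

/-- the cut-off deviation near the point `I` -/
def Nn (c : ℂ → ℝ) (L δ : ℝ) (z : ℂ) : ℝ :=
  c ((z - I) / (Real.exp (-L / 2) : ℝ)) * Dn L δ z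

/-- the deviation -/
def DD (φ c : ℂ → ℝ) (L δ : ℝ) (z : ℂ) : ℝ := lam z * φ z / L + Nn c L δ z

/-- the numerical hypotheses -/
structure Par (c0 M8 y4 Kg L δ : ℝ) : Prop where
  c0p : 0 < c0
  c01 : c0 ≤ 1
  hM : M8 = 1600 / c0
  hy : y4 = c0 / 1600
  Kg0 : 0 ≤ Kg
  lip : ∀ u v : ℂ, ‖u‖ ≤ 1 / 2 → ‖v‖ ≤ 1 / 2 → |gg u - gg v| ≤ Kg * ‖u - v‖
  hL : 2000 ≤ L
  hr : L * Real.exp (-L / 2) * (8 * (3 + Kg)) ≤ c0 / 200
  d0 : 0 < δ
  d1 : δ ≤ 1 / 8

variable {φ c : ℂ → ℝ} {c0 M8 y4 K Kg L δ : ℝ}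

theorem Par.M4 (h : Par c0 M8 y4 Kg L δ) : 1600 ≤ M8 := by
  rw [h.hM, le_div_iff₀ h.c0p]
  linarith [h.c01]

theorem Par.y0 (h : Par c0 M8 y4 Kg L δ) : 0 < y4 ∧ y4 ≤ 1 / 1600 := by
  rw [h.hy]
  exact ⟨by linarith [h.c0p], by linarith [h.c01]⟩

theorem Par.Lr (h : Par c0 M8 y4 Kg L δ) : L * Real.exp (-L / 2) ≤ 1 / 4800 := by
  have h1 := h.hr
  have h2 : 0 ≤ L * Real.exp (-L / 2) := mul_nonneg (by linarith [h.hL]) (Real.exp_pos _).le
  nlinarith [h.Kg0, h.c01]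

theorem Par.r (h : Par c0 M8 y4 Kg L δ) : Real.exp (-L / 2) ≤ 1 / 4800 := by
  have := h.Lr
  nlinarith [h.hL, Real.exp_pos (-L / 2)]

theorem im_ge {z : ℂ} {t : ℝ} (h : ‖z - I‖ ≤ t) : 1 - t ≤ z.im := by linarith [sub_ge z]

theorem norm_u (h : Par c0 M8 y4 Kg L δ) (w : ℂ) : ‖I * δ * w‖ ≤ ‖w‖ := by
  rw [norm_mul, norm_mul, norm_I, one_mul, Complex.norm_real, Real.norm_of_nonneg h.d0.le]
  exact mul_le_of_le_one_left (norm_nonneg _) (by linarith [h.d1])

theorem Dn_lip (h : Par c0 M8 y4 Kg L δ) {z z' : ℂ} (h1 : ‖z - I‖ ≤ 1 / 2)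
    (h2 : ‖z' - I‖ ≤ 1 / 2) : |Dn L δ z - Dn L δ z'| ≤ (3 + Kg) * ‖z - z'‖ := by
  have a1 := abs_im_le_norm (z - z')
  have a2 := logp_lip (z := z) (z' := z') (by linarith [im_ge h1]) (by linarith [im_ge h2])
  have a3 := h.lip _ _ ((norm_u h _).trans h1) ((norm_u h _).trans h2)
  have a4 : ‖I * δ * (z - I) - I * δ * (z' - I)‖ ≤ ‖z - z'‖ := by
    rw [← mul_sub, sub_sub_sub_cancel_right]
    exact norm_u h _
  have a5 := a3.trans (mul_le_mul_of_nonneg_left a4 h.Kg0)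
  have e : Dn L δ z - Dn L δ z' = (z - z').im + (-(Real.log ‖z + I‖ - Real.log ‖z' + I‖) -
      (gg (I * δ * (z - I)) - gg (I * δ * (z' - I)))) / L := by
    simp only [Dn, sub_im]
    ring
  have hL : 1 ≤ L := by linarith [h.hL]
  rw [e]
  refine (abs_add_le _ _).trans ?_
  rw [abs_div, abs_of_nonneg (by linarith : 0 ≤ L)]
  have a6 := (div_le_self (abs_nonneg (-(Real.log ‖z + I‖ - Real.log ‖z' + I‖) -
      (gg (I * δ * (z - I)) - gg (I * δ * (z' - I))))) hL).trans (abs_sub _ _)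
  rw [abs_neg] at a6
  linarith

theorem Dn_I : Dn L δ I = 0 := by
  have : ‖I + I‖ = 2 := by
    rw [← two_mul, norm_mul, norm_I]
    simp
  simp [Dn, this, gg, Ee_zero]

theorem Dn_bd (h : Par c0 M8 y4 Kg L δ) {z : ℂ} (h1 : ‖z - I‖ ≤ 1 / 2) :
    |Dn L δ z| ≤ (3 + Kg) * ‖z - I‖ := by
  simpa [Dn_I] using Dn_lip h h1 (z' := I) (by simp)

theorem norm_sc (L : ℝ) (w : ℂ) :
    ‖w / (Real.exp (-L / 2) : ℝ)‖ = ‖w‖ / Real.exp (-L / 2) := by
  rw [norm_div, Complex.norm_real, Real.norm_of_nonneg (Real.exp_pos _).le]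

theorem Nn_zero (hc : Cut φ c M8 y4 K) {z : ℂ} (h1 : 8 * Real.exp (-L / 2) ≤ ‖z - I‖) :
    Nn c L δ z = 0 := by
  rw [Nn, hc.z2 _ (by rwa [norm_sc, le_div_iff₀ (Real.exp_pos _)]), zero_mul]

theorem Nn_bd (hc : Cut φ c M8 y4 K) (h : Par c0 M8 y4 Kg L δ) (z : ℂ) :
    |Nn c L δ z| ≤ c0 / (200 * L) := by
  have hL : 0 < L := by linarith [h.hL]
  rcases le_total (8 * Real.exp (-L / 2)) ‖z - I‖ with h1 | h1
  · rw [Nn_zero hc h1, abs_zero]
    have := h.c0p
    positivity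
  · have h2 := Dn_bd h (z := z) (by linarith [h.r])
    have h3 := h.Kg0
    rw [Nn, abs_mul, abs_of_nonneg (hc.r2 _).1, le_div_iff₀ (by positivity)]
    calc _ ≤ 1 * ((3 + Kg) * (8 * Real.exp (-L / 2))) * (200 * L) := by
          gcongr
          · exact (hc.r2 _).2
          · exact h2.trans (by gcongr)
      _ = 200 * (L * Real.exp (-L / 2) * (8 * (3 + Kg))) := by ring
      _ ≤ c0 := by linarith [h.hr]

theorem Nn_lip (hc : Cut φ c M8 y4 K) (h : Par c0 M8 y4 Kg L δ) {z z' : ℂ}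
    (h1 : ‖z - I‖ ≤ 1 / 2) (h2 : ‖z' - I‖ ≤ 1 / 2) :
    |Nn c L δ z - Nn c L δ z'| ≤ (3 + Kg) * (1 + 8 * K) * ‖z - z'‖ := by
  have h3 := h.Kg0
  have h4 := hc.K0
  have hr := Real.exp_pos (-L / 2)
  have key : ∀ z z' : ℂ, ‖z - I‖ ≤ 8 * Real.exp (-L / 2) → ‖z' - I‖ ≤ 1 / 2 →
      |Nn c L δ z - Nn c L δ z'| ≤ (3 + Kg) * (1 + 8 * K) * ‖z - z'‖ := fun z z' a1 a2 => by
    have a3 : ‖z - I‖ ≤ 1 / 2 := by linarith [h.r]
    have a4 := hc.l2 ((z - I) / (Real.exp (-L / 2) : ℝ)) ((z' - I) / (Real.exp (-L / 2) : ℝ))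
    rw [← sub_div, sub_sub_sub_cancel_right, norm_sc] at a4
    have a5 := (Dn_bd h a3).trans (mul_le_mul_of_nonneg_left a1 (by linarith))
    have a6 := Dn_lip h a3 a2
    have e : Nn c L δ z - Nn c L δ z' =
        (c ((z - I) / (Real.exp (-L / 2) : ℝ)) - c ((z' - I) / (Real.exp (-L / 2) : ℝ))) *
          Dn L δ z + c ((z' - I) / (Real.exp (-L / 2) : ℝ)) * (Dn L δ z - Dn L δ z') := by
      simp only [Nn]
      ring
    rw [e]
    refine (abs_add_le _ _).trans ?_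
    rw [abs_mul, abs_mul, abs_of_nonneg (hc.r2 _).1]
    calc _ ≤ K * (‖z - z'‖ / Real.exp (-L / 2)) * ((3 + Kg) * (8 * Real.exp (-L / 2))) +
          1 * ((3 + Kg) * ‖z - z'‖) := by
          gcongr
          exact (hc.r2 _).2
      _ = _ := by
          field_simp
          ring
  rcases le_total ‖z - I‖ (8 * Real.exp (-L / 2)) with a | a
  · exact key z z' a h2
  rcases le_total ‖z' - I‖ (8 * Real.exp (-L / 2)) with b | b
  · rw [abs_sub_comm, norm_sub_rev]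
    exact key z' z b h1
  · rw [Nn_zero hc a, Nn_zero hc b, sub_zero, abs_zero]
    positivity

theorem phi_near (hc : Cut φ c M8 y4 K) (h : Par c0 M8 y4 Kg L δ) {z : ℂ}
    (h1 : ‖z - I‖ ≤ 1 / 2) : φ z = 0 := by
  refine hc.z1 z ?_ ?_
  · have := norm_sub_norm_le z I
    rw [norm_I] at this
    linarith [h.M4]
  · linarith [im_ge h1, le_abs_self z.im, h.y0.2]

theorem far_bd (hc : Cut φ c M8 y4 K) (h : Par c0 M8 y4 Kg L δ) {z : ℂ} (h1 : -1 / 2 ≤ z.im) :
    |lam z * φ z| ≤ c0 / 200 := by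
  have key : |lam z| ≤ c0 / 200 → |lam z * φ z| ≤ c0 / 200 := fun a => by
    rw [abs_mul, abs_of_nonneg (hc.r1 z).1]
    exact (mul_le_of_le_one_right (abs_nonneg _) (hc.r1 z).2).trans a
  have h0 := h.c0p
  rcases le_total ‖z‖ (M8 / 2) with a | a
  · rcases le_total (2 * y4) |z.im| with b | b
    · rw [hc.z1 z a b, mul_zero, abs_zero]
      positivity
    · refine key ((lam_im ?_ h1).trans ?_)
      · linarith [sub_ge z, le_abs_self z.im, h.y0.2]
      · linarith [h.hy]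
  · refine key ((lam_far (by linarith [h.M4]) a).trans (le_of_eq ?_))
    rw [h.hM]
    field_simp
    norm_num

theorem far_lip (hc : Cut φ c M8 y4 K) (h : Par c0 M8 y4 Kg L δ) {z z' : ℂ}
    (h1 : -1 / 2 ≤ z.im) (h2 : -1 / 2 ≤ z'.im) :
    |lam z * φ z - lam z' * φ z'| ≤ (4 + 4 * K) * ‖z - z'‖ := by
  have h4 := hc.K0
  have key : ∀ z z' : ℂ, -1 / 2 ≤ z.im → 1 / 2 ≤ ‖z - I‖ → ‖z' - I‖ ≤ 1 / 2 →
      |lam z * φ z - lam z' * φ z'| ≤ (4 + 4 * K) * ‖z - z'‖ := fun z z' a1 a2 a3 => by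
    have a4 := hc.l1 z z'
    rw [phi_near hc h a3, sub_zero] at a4
    rw [phi_near hc h a3, mul_zero, sub_zero, abs_mul]
    calc _ ≤ 4 * (K * ‖z - z'‖) := by
          gcongr
          exact lam_four a2 a1
      _ ≤ _ := by nlinarith [norm_nonneg (z - z')]
  rcases le_total (1 / 2) ‖z - I‖ with a | a <;> rcases le_total (1 / 2) ‖z' - I‖ with b | b
  · have e : lam z * φ z - lam z' * φ z' = (lam z - lam z') * φ z' + lam z * (φ z - φ z') := by
      ring
    rw [e]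
    refine (abs_add_le _ _).trans ?_
    rw [abs_mul, abs_mul, abs_of_nonneg (hc.r1 _).1]
    calc _ ≤ 4 * ‖z - z'‖ * 1 + 4 * (K * ‖z - z'‖) := by
          gcongr
          · exact (hc.r1 _).1
          · exact lam_lip a h1 b h2
          · exact (hc.r1 _).2
          · exact lam_four a h1
          · exact hc.l1 z z'
      _ = _ := by ring
  · exact key z z' h1 a b
  · rw [abs_sub_comm, norm_sub_rev]
    exact key z' z h2 b a
  · rw [phi_near hc h a, phi_near hc h b, mul_zero, mul_zero, sub_zero, abs_zero]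
    positivity

theorem DD_near (hc : Cut φ c M8 y4 K) (h : Par c0 M8 y4 Kg L δ) {z : ℂ}
    (h1 : ‖z - I‖ ≤ 1 / 2) : DD φ c L δ z = Nn c L δ z := by
  rw [DD, phi_near hc h h1, mul_zero, zero_div, zero_add]

theorem dev (hc : Cut φ c M8 y4 K) (h : Par c0 M8 y4 Kg L δ) :
    Dev c0 (4 + 4 * K + (3 + Kg) * (1 + 8 * K)) L (DD φ c L δ) := by
  have hL : 0 < L := by linarith [h.hL]
  have h3 := h.Kg0
  have h4 := hc.K0
  refine ⟨fun z hz => ?_, fun z a b => ?_, fun z z' a b d e => ?_, fun z z' a b => ?_⟩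
  · refine (abs_add_le _ _).trans ?_
    rw [abs_div, abs_of_pos hL]
    calc _ ≤ c0 / 200 / L + c0 / (200 * L) := by
          gcongr
          · exact far_bd hc h hz
          · exact Nn_bd hc h z
      _ = _ := by
          field_simp
          ring
  · rw [DD_near hc h b, Nn_zero hc a]
  · rw [DD, DD, Nn_zero hc d, Nn_zero hc e, add_zero, add_zero, ← sub_div, abs_div, abs_of_pos hL,
      div_mul_eq_mul_div]
    gcongr
    exact (far_lip hc h a b).trans (mul_le_mul_of_nonneg_right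
      (le_add_of_nonneg_right (by positivity)) (norm_nonneg _))
  · rw [DD_near hc h a, DD_near hc h b]
    exact (Nn_lip hc h a b).trans (mul_le_mul_of_nonneg_right
      (le_add_of_nonneg_left (by positivity)) (norm_nonneg _))

theorem hgt_eq (z : ℂ) : hgt L (DD φ c L δ) z =
    z.im + lam z * (1 - φ z) / L - Nn c L δ z := by
  simp only [hgt, DD, lam]
  ring

theorem Nn_smooth (hc : Cut φ c M8 y4 K) (h : Par c0 M8 y4 Kg L δ) (z : ℂ) :
    ContDiffAt ℝ ∞ (Nn c L δ) z := by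
  rcases le_or_gt ‖z - I‖ (1 / 2) with a | a
  · have h1 : z + I ≠ 0 := norm_pos_iff.1 (by linarith [add_ge z, im_ge a])
    have h2 : ContDiff ℝ ∞ fun w : ℂ => w - I := contDiff_id.sub contDiff_const
    refine (hc.s2.comp (h2.div_const _)).contDiffAt.mul ?_
    refine (imCLM.contDiff.comp h2).contDiffAt.add (ContDiffAt.div_const (ContDiffAt.sub
      (contDiffAt_const.sub (lognorm_smooth (contDiffAt_id.add contDiffAt_const) h1)) ?_) _)
    have h3 : ContDiffAt ℝ ∞ (fun w : ℂ => I * δ * (w - I)) z := (contDiff_const.mul h2).contDiffAt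
    exact ContDiffAt.comp (g := gg) z (gg_smooth ((norm_u h _).trans a)) h3
  · have h1 : ∀ᶠ w in 𝓝 z, 1 / 2 < ‖w - I‖ :=
      (by fun_prop : ContinuousAt (fun w : ℂ => ‖w - I‖) z).eventually (lt_mem_nhds a)
    refine (contDiffAt_const (c := (0 : ℝ))).congr_of_eventuallyEq ?_
    filter_upwards [h1] with w hw
    exact Nn_zero hc (by linarith [h.r])

theorem smooth (hc : Cut φ c M8 y4 K) (h : Par c0 M8 y4 Kg L δ) {z : ℂ} (h1 : -1 / 2 < z.im)
    (h2 : z ≠ I) : ContDiffAt ℝ ∞ (hgt L (DD φ c L δ)) z := by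
  rw [funext hgt_eq]
  have h3 : z + I ≠ 0 := norm_pos_iff.1 (by linarith [add_ge z])
  exact (imCLM.contDiff.contDiffAt.add (((lam_smooth (sub_ne_zero.2 h2) h3).mul
    (contDiffAt_const.sub hc.s1.contDiffAt)).div_const L)).sub (Nn_smooth hc h z)

theorem out_bd (hc : Cut φ c M8 y4 K) (h : Par c0 M8 y4 Kg L δ) {z : ℂ} (h1 : -1 / 2 ≤ z.im)
    (h2 : 1 / 2 ≤ ‖z - I‖) : |hgt L (DD φ c L δ) z - z.im| ≤ |z.im| / 2 := by
  have hL : 0 < L := by linarith [h.hL]
  rw [hgt_eq, Nn_zero hc (by linarith [h.r]), sub_zero, add_sub_cancel_left, abs_div, abs_mul,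
    abs_of_pos hL, abs_of_nonneg (sub_nonneg.2 (hc.r1 z).2), div_le_iff₀ hL]
  have a1 := lam_im h2 h1
  have a2 : |lam z| * (1 - φ z) ≤ |lam z| :=
    mul_le_of_le_one_right (abs_nonneg _) (by linarith [(hc.r1 z).1])
  nlinarith [abs_nonneg z.im, h.hL]

theorem mid (hc : Cut φ c M8 y4 K) (h : Par c0 M8 y4 Kg L δ) {z : ℂ}
    (h1 : 2 * Real.exp (-L / 2) ≤ ‖z - I‖) (h2 : ‖z - I‖ ≤ 1 / 2) :
    2 / 5 ≤ hgt L (DD φ c L δ) z := by
  have hL : 0 < L := by linarith [h.hL]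
  have hr := Real.exp_pos (-L / 2)
  have a0 : 0 < ‖z - I‖ := by linarith
  have a1 : 0 < ‖z + I‖ := by linarith [add_ge z, im_ge h2]
  have a2 : Real.log ‖z + I‖ ≤ 2 := by
    have b1 := Real.log_le_sub_one_of_pos a1
    have b2 := abs_le.1 (diff_le_two z)
    linarith
  have a3 : Nn c L δ z ≤ 1 / 100 := by
    refine (le_abs_self _).trans ((Nn_bd hc h z).trans ?_)
    rw [div_le_iff₀ (by positivity)]
    linarith [h.c01, h.hL]
  rw [hgt_eq, phi_near hc h h2, sub_zero, mul_one,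
    lam_eq (norm_pos_iff.1 a0) (norm_pos_iff.1 a1)]
  rcases le_total ‖z - I‖ (1 / 20) with b | b
  · have b1 : -L / 2 ≤ Real.log ‖z - I‖ := by
      rw [Real.le_log_iff_exp_le a0]
      linarith
    have b2 : -(1 / 2) - 1 / 100 ≤ (Real.log ‖z - I‖ - Real.log ‖z + I‖) / L := by
      rw [le_div_iff₀ hL]
      linarith [h.hL]
    linarith [im_ge b]
  · have b1 : -19 ≤ Real.log ‖z - I‖ := by
      have b3 := Real.log_le_log (by norm_num) b
      have b4 := Real.log_le_sub_one_of_pos (by norm_num : (0 : ℝ) < 20)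
      rw [one_div, Real.log_inv] at b3
      linarith
    have b2 : -(1 / 20) ≤ (Real.log ‖z - I‖ - Real.log ‖z + I‖) / L := by
      rw [le_div_iff₀ hL]
      linarith [h.hL]
    linarith [im_ge h2]

theorem round (hc : Cut φ c M8 y4 K) (h : Par c0 M8 y4 Kg L δ) {x : ℂ} (hx : x ≠ 0) (yr : ℝ)
    {z : ℂ} (h1 : z ≠ I) (h2 : ‖z - I‖ ≤ 2 * Real.exp (-L / 2)) : hgt L (DD φ c L δ) z =
      1 + Real.log (‖wch x δ yr z - wch x δ yr I‖ / (2 * δ * ‖wch x δ yr I‖)) / L := by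
  have a1 : ‖z - I‖ ≤ 1 / 2 := by linarith [h.r]
  have a2 : z - I ≠ 0 := sub_ne_zero.2 h1
  have a3 : z + I ≠ 0 := norm_pos_iff.1 (by linarith [add_ge z, im_ge a1])
  have a4 : Ee (I * δ * (z - I)) ≠ 0 := Ee_ne ((norm_u h _).trans a1)
  have a5 : ‖wch x δ yr I‖ ≠ 0 := norm_ne_zero_iff.2 (mul_ne_zero hx (Complex.exp_ne_zero _))
  have a6 : wch x δ yr z - wch x δ yr I =
      wch x δ yr I * (I * δ * (z - I) * Ee (I * δ * (z - I))) := by
    rw [mul_Ee, mul_sub, mul_one, wch, wch, mul_assoc x, ← Complex.exp_add]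
    congr 3
    ring
  have a7 : ‖wch x δ yr z - wch x δ yr I‖ / (2 * δ * ‖wch x δ yr I‖) =
      ‖z - I‖ * ‖Ee (I * δ * (z - I))‖ / 2 := by
    have := h.d0.ne'
    rw [a6, norm_mul, norm_mul, norm_mul, norm_mul, norm_I, Complex.norm_real,
      Real.norm_of_nonneg h.d0.le]
    field_simp
  rw [a7, hgt_eq, phi_near hc h a1, lam_eq a2 a3, Nn,
    hc.o2 _ (by rwa [norm_sc, div_le_iff₀ (Real.exp_pos _)]),
    Real.log_div (mul_ne_zero (norm_ne_zero_iff.2 a2) (norm_ne_zero_iff.2 a4)) two_ne_zero,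
    Real.log_mul (norm_ne_zero_iff.2 a2) (norm_ne_zero_iff.2 a4), Dn, gg, sub_im, I_im]
  ring

theorem bl_ge (hc : Cut φ c M8 y4 K) (h : Par c0 M8 y4 Kg L δ) {z : ℂ} (h1 : -1 / 4 < z.im)
    (h2 : z ≠ I) (h3 : 0 < hgt L (DD φ c L δ) z) : Real.exp (-L - 4) ≤ ‖bl z‖ := by
  have hL : 0 < L := by linarith [h.hL]
  have hr := Real.exp_pos (-L / 2)
  have a0 : 0 < ‖z - I‖ := norm_pos_iff.2 (sub_ne_zero.2 h2)
  have a1 : 0 < ‖z + I‖ := by linarith [add_ge z]
  have a2 : 0 < ‖bl z‖ := by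
    rw [bl, norm_div]
    positivity
  rcases le_total ‖z - I‖ (2 * Real.exp (-L / 2)) with b | b
  · rw [← Real.le_log_iff_exp_le a2]
    have b1 := (abs_le.1 ((dev hc h).small z (by linarith))).1
    have b2 : z.im ≤ 1 + 2 * Real.exp (-L / 2) := by
      have := im_le_norm (z - I)
      rw [sub_im, I_im] at this
      linarith
    have b3 : -(1 + 2 * Real.exp (-L / 2)) - c0 / (100 * L) ≤ Real.log ‖bl z‖ / L := by
      rw [hgt] at h3
      linarith
    rw [le_div_iff₀ hL] at b3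
    have b4 : c0 / (100 * L) * L = c0 / 100 := by field_simp
    nlinarith [h.Lr, h.c01]
  · have b1 : Real.exp (-L - 4) ≤ Real.exp (-L / 2) / 2 := by
      have b2 : Real.exp (-L - 4) ≤ Real.exp (-L / 2) * Real.exp (-1) := by
        rw [← Real.exp_add]
        exact Real.exp_le_exp.2 (by linarith)
      have b3 : Real.exp (-1) ≤ 1 / 2 := by
        rw [Real.exp_neg, ← one_div]
        gcongr
        linarith [Real.add_one_le_exp 1]
      nlinarith
    refine b1.trans ?_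
    rw [bl, norm_div, le_div_iff₀ a1]
    have b2 := abs_le.1 (diff_le_two z)
    nlinarith [h.r]

theorem reg (hc : Cut φ c M8 y4 K) (h : Par c0 M8 y4 Kg L δ)
    (hF : LocF c0 (4 + 4 * K + (3 + Kg) * (1 + 8 * K)) L) {z : ℂ} (h1 : -1 / 4 < z.im)
    (h2 : z ≠ I) (h3 : 0 < hgt L (DD φ c L δ) z) (h4 : z ≠ I * Real.sqrt (1 - 2 / L)) :
    fderiv ℝ (hgt L (DD φ c L δ)) z ≠ 0 := fun h0 => by
  obtain ⟨r, hr, -, -, G, hG, a1, -, a2, -⟩ := hF _ (dev hc h) z h1.le (bl_ge hc h h1 h2 h3)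
  have b1 : z - I ≠ 0 := sub_ne_zero.2 h2
  have b2 : z + I ≠ 0 := norm_pos_iff.1 (by linarith [add_ge z])
  have hd := ((smooth hc h (by linarith) h2).differentiableAt (by simp)).hasFDerivAt
  rw [h0] at hd
  have hg := (hG z (mem_closedBall_self hr.le)).differentiableAt.hasDerivAt
  set g := deriv G z
  have hball : ∀ v : ℂ, ∀ᶠ t : ℝ in 𝓝 0, z + (t : ℂ) * v ∈ closedBall z r := fun v =>
    (line_der z v).continuousAt.preimage_mem_nhds (by simpa using closedBall_mem_nhds z hr)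
  have c1 : ∀ v : ℂ, HasDerivAt (fun t : ℝ => G (z + t * v)) (g * v) 0 := fun v => by
    have := HasDerivAt.scomp_of_eq (h := fun t : ℝ => z + (t : ℂ) * v) (0 : ℝ) hg
      (line_der z v) (by simp)
    simpa [Function.comp_def, mul_comm] using this
  have c2 : ∀ v : ℂ, HasDerivAt (fun t : ℝ => (G (z + t * v)).im) (g * v).im 0 := fun v =>
    imCLM.hasFDerivAt.comp_hasDerivAt 0 (c1 v)
  have c3 : ∀ v : ℂ, HasDerivAt (fun t : ℝ => hgt L (DD φ c L δ) (z + t * v)) 0 0 := fun v =>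
    hd.comp_hasDerivAt_of_eq 0 (line_der z v) (by simp)
  have c4 : ∀ v : ℂ, |(g * v).im| ≤ ‖g * v‖ / 4 := fun v => by
    have d1 : HasDerivAt (fun t : ℝ => DD φ c L δ (z + t * v)) (g * v).im 0 := by
      have := (c2 v).sub (c3 v)
      rw [sub_zero] at this
      refine this.congr_of_eventuallyEq ?_
      filter_upwards [hball v] with t ht
      rw [Pi.sub_apply, a1 _ ht, hgt]
      ring
    refine der_le d1 (c1 v) ?_
    filter_upwards [hball v] with t ht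
    simpa using a2 _ ht
  have c5 : g = 0 := by
    have d1 := c4 (I * (starRingEnd ℂ) g)
    have d2 : g * (I * (starRingEnd ℂ) g) = ((normSq g : ℝ) : ℂ) * I := by
      rw [← mul_conj]
      ring
    rw [d2, norm_mul, norm_I, Complex.norm_real, mul_one, Real.norm_eq_abs] at d1
    simp only [mul_im, ofReal_re, I_im, mul_one, ofReal_im, I_re, mul_zero, add_zero] at d1
    have d3 : |normSq g| = 0 := by linarith [abs_nonneg (normSq g)]
    exact normSq_eq_zero.1 (abs_eq_zero.1 d3)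
  refine h4 (crit (by linarith [h.hL]) h1 b1 fun v => ?_)
  have d1 : HasDerivAt (fun t : ℝ => (z + t * v).im + lam (z + t * v) / L)
      (v.im + (v / (z - I) - v / (z + I)).re / L) 0 :=
    (imCLM.hasFDerivAt.comp_hasDerivAt 0 (line_der z v)).add ((der_lam b1 b2 v).div_const L)
  have d2 : HasDerivAt (fun t : ℝ => (z + t * v).im + lam (z + t * v) / L) (g * v).im 0 := by
    refine (c2 v).congr_of_eventuallyEq ?_
    filter_upwards [hball v] with t ht
    exact (a1 _ ht).symm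
  rw [d1.unique d2, c5, zero_mul, zero_im]

theorem sad (h : Par c0 M8 y4 Kg L δ) :
    8 * Real.exp (-L / 2) < ‖I * Real.sqrt (1 - 2 / L) - I‖ ∧
      ‖I * Real.sqrt (1 - 2 / L) - I‖ < 1 / 2 := by
  have hL : 0 < L := by linarith [h.hL]
  have a1 : 1 / L ≤ 1 / 2000 := by gcongr; exact h.hL
  have a2 : 0 < 1 / L := by positivity
  have a3 : 2 / L = 2 * (1 / L) := by ring
  have a4 : Real.sqrt (1 - 2 / L) ≤ 1 - 1 / L :=
    Real.sqrt_le_iff.2 ⟨by linarith, by nlinarith [sq_nonneg (1 / L)]⟩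
  have a5 : 3 / 4 ≤ Real.sqrt (1 - 2 / L) := Real.le_sqrt_of_sq_le (by linarith)
  have e : I * Real.sqrt (1 - 2 / L) - I = ((Real.sqrt (1 - 2 / L) - 1 : ℝ) : ℂ) * I := by
    push_cast
    ring
  rw [e, norm_mul, norm_I, mul_one, Complex.norm_real, Real.norm_eq_abs,
    abs_of_nonpos (by linarith)]
  refine ⟨?_, by linarith⟩
  have a6 : 8 * Real.exp (-L / 2) < 1 / L := by
    rw [lt_div_iff₀ hL]
    linarith [h.Lr]
  linarith

theorem shape (hc : Cut φ c M8 y4 K) (h : Par c0 M8 y4 Kg L δ)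
    (hF : LocF c0 (4 + 4 * K + (3 + Kg) * (1 + 8 * K)) L) {x : ℂ} (hx : x ≠ 0) (yr : ℝ) :
    Shape c0 (4 + 4 * K + (3 + Kg) * (1 + 8 * K)) M8 y4 L x δ yr (DD φ c L δ) where
  dev := dev hc h
  smooth := fun z hz => (smooth hc h hz.1 hz.2).contDiffWithinAt
  far := fun z h1 h2 => by
    have a : 1 / 2 ≤ ‖z - I‖ := by
      rcases h2 with b | b
      · have := norm_sub_norm_le z I
        rw [norm_I] at this
        linarith [h.M4]
      · linarith [sub_ge z, le_abs_self z.im, h.y0.2]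
    rw [hgt_eq, hc.o1 z h2, Nn_zero hc (by linarith [h.r])]
    ring
  neg := fun z h1 h2 => by
    have a := out_bd hc h h1 (by linarith [sub_ge z])
    rw [abs_of_nonpos h2] at a
    linarith [(abs_le.1 a).2]
  round := fun z h1 h2 => round hc h hx yr h1 h2
  low := fun z h1 h2 => by
    have b := h.y0
    rcases le_total (1 / 2) ‖z - I‖ with a | a
    · have a := out_bd hc h (by linarith) a
      rw [abs_of_nonneg (by linarith : 0 ≤ z.im)] at a
      linarith [(abs_le.1 a).1]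
    · linarith [mid hc h h2 a]
  mid := fun z h1 h2 => mid hc h h1 h2
  le := fun z h1 _ => by
    have hL : 0 < L := by linarith [h.hL]
    have a1 := (abs_le.1 ((dev hc h).small z (by linarith))).1
    have a2 : c0 / (100 * L) ≤ 1 := by
      rw [div_le_one (by positivity)]
      linarith [h.c01, h.hL]
    have a3 : lam z / L ≤ 0 := div_nonpos_of_nonpos_of_nonneg (lam_nonpos h1) hL.le
    rw [lam] at a3
    rw [hgt]
    linarith
  reg := fun z h1 h2 h3 h4 => reg hc h hF h1 h2 h3 h4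
  sad := sad h

end SHAPE

theorem st_shape : St_SHAPE := by
  intro c0 h0 h1
  obtain ⟨Kg, hK0, hK⟩ := SHAPE.gg_lip
  obtain ⟨φ, c, K, hc⟩ := SHAPE.exists_cut (M8 := 1600 / c0) (y4 := c0 / 1600) (by positivity)
    (by positivity)
  have ht : Tendsto (fun L : ℝ => L * Real.exp (-L / 2) * (8 * (3 + Kg))) atTop (𝓝 0) := by
    have a := (((Real.tendsto_pow_mul_exp_neg_atTop_nhds_zero 1).comp
      (tendsto_id.atTop_div_const two_pos)).const_mul 2).mul_const (8 * (3 + Kg))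
    rw [mul_zero, zero_mul] at a
    refine a.congr fun L => ?_
    simp only [Function.comp, id, neg_div]
    ring
  obtain ⟨L0, hL0⟩ := eventually_atTop.1 ((ht.eventually (ge_mem_nhds (by positivity :
    (0 : ℝ) < c0 / 200))).and (eventually_ge_atTop 2000))
  refine ⟨4 + 4 * K + (3 + Kg) * (1 + 8 * K), 1600 / c0, c0 / 1600, ?_, by positivity,
    by linarith, L0, fun L hL hF x δ yr hx d0 d1 => ⟨_, SHAPE.shape hc
      ⟨h0, h1, rfl, rfl, hK0, hK, (hL0 L hL).2, (hL0 L hL).1, d0, d1⟩ hF hx yr⟩⟩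
  rw [le_div_iff₀ h0]
  linarith

end Pool.Agent.Lib.SH
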