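import Pool.Agent.Lib.SH.B_SLd

/-! Slope lemma. -/

open Set Filter Topology Metric Real

noncomputable section

namespace Pool.Agent.Lib.SH

namespace SL

lemma key {p w B γ M : ℝ} {mz z : ℂ} (hz : z ≠ 0) (hm : mz ≠ 0) (c : ℂ) (hp : p = ‖c‖)
    (hw : B = w + log ‖mz‖ + γ * log ‖z‖) : p * exp (-w) * ‖z‖ ^ (-γ) ≤ M ↔ ‖c * mz‖ ≤ M * exp B := by
  have h1 : exp B = exp w * ‖mz‖ * ‖z‖ ^ γ := by
    rw [hw, exp_add, exp_add, exp_log (norm_pos_iff.2 hm), rpow_def_of_pos (norm_pos_iff.2 hz), mul_comm γ]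
  have h2 : 0 < ‖z‖ ^ γ := rpow_pos_of_pos (norm_pos_iff.2 hz) _
  have h3 : 0 < ‖mz‖ := norm_pos_iff.2 hm
  rw [h1, norm_mul, rpow_neg (norm_nonneg _), exp_neg, hp, ← div_eq_mul_inv, ← div_eq_mul_inv,
    div_le_iff₀ h2, div_le_iff₀ (exp_pos w), show M * (exp w * ‖mz‖ * ‖z‖ ^ γ) = M * ‖z‖ ^ γ * exp w * ‖mz‖ by ring,
    mul_le_mul_iff_left₀ h3]

end SL

open SL in
theorem st_sl (hAR : St_AR) (hT : St_TRIG) (_hW : St_WIND) : St_SL := by
  intro h n Λ0 η h0 h1 hΛ hη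
  have hn0 : (0 : ℝ) ≤ n := n.cast_nonneg
  obtain ⟨γ, hγ0, hγ1, hγ2⟩ : ∃ γ : ℝ, 0 < γ ∧ γ ≤ 1 ∧ γ ≤ η / 3 :=
    ⟨min 1 (η / 3), by positivity, min_le_left _ _, min_le_right _ _⟩
  obtain ⟨μ, hμ0, hμ1, hμ2⟩ : ∃ μ : ℝ, 0 < μ ∧ μ ≤ 1 ∧ n * μ ≤ η / 3 := by
    refine ⟨min 1 (η / 3 / (n + 1)), by positivity, min_le_left _ _, ?_⟩
    have h2 := min_le_right 1 (η / 3 / (n + 1))
    rw [le_div_iff₀ (by positivity)] at h2
    nlinarith [show 0 < min 1 (η / 3 / (n + 1)) by positivity]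
  have hl32 : log (h / 32) ≤ 0 := log_nonpos (by positivity) (by linarith)
  obtain ⟨Aw, hAw⟩ : ∃ Aw : ℝ, Aw = n * (18 - 5 * log (h / 32)) := ⟨_, rfl⟩
  have hAw1 : 18 * n ≤ Aw := by nlinarith
  obtain ⟨C', hC'⟩ : ∃ C' : ℝ, C' = 32 / h * (2 * Λ0 + 2 * Aw + 2) := ⟨_, rfl⟩
  have hC0 : 0 ≤ C' := by
    rw [hC']
    exact mul_nonneg (by positivity) (by linarith)
  set Q : ℝ → ℝ := fun C => 6 * log C + (2 * C' + (Λ0 + Aw) + 15 * n + 2) + 11 with hQ
  refine ⟨Λ0 + 2 * Aw + C' + 3, fun C => min (1 / (3 * C)) (exp (-Q C / μ) / 3), by linarith,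
    fun C hC => ⟨lt_min (by positivity) (by positivity), min_le_left _ _⟩, fun κ hκ => ?_⟩
  intro W _ x ρ ex Cw hn hx hsep C0 Cm
  set ρ0 : W → ℝ := fun j => κ (Cw j) * ρ j with hρ0
  have hρp : ∀ j, 0 < ρ0 j := fun j => mul_pos (hκ _ (hx j).2.2.2.2).1 (hx j).2.1
  obtain ⟨rb, ⟨hrb1, hrb2⟩, hrb0⟩ : ∃ rb : ℝ, (rb ≤ h / 32 ∧ ∀ j, 4 * rb ≤ ρ0 j) ∧ 0 < rb := by
    refine ((Eventually.and ?_ (eventually_all.2 fun j => ?_)).and self_mem_nhdsWithin).exists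
      (f := 𝓝[>] (0 : ℝ))
    · exact nhdsWithin_le_nhds (Iic_mem_nhds (by positivity))
    · filter_upwards [nhdsWithin_le_nhds (Iic_mem_nhds (show 0 < ρ0 j / 4 by linarith [hρp j]))] with r hr
      linarith [mem_Iic.1 hr]
  obtain ⟨ι, hι, hA⟩ := hAR (2 * C' + (5 * n + |Cm|)) C0 γ rb hγ0 hrb0 (by linarith)
  refine ⟨ι, hι, fun X K V m e N0 h' f rmin Omin he hh1 hh2 hNP hV hm hm2 hAW hG hf hfb hfu hfm htop => ?_⟩
  have hx1 : ∀ j, ‖x j‖ = 1 := fun j => (hx j).1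
  set a : W → ℝ := fun j => ex j - μ with ha
  have ha5 : ∀ j, |a j| ≤ 5 := fun j => by
    have h2 := abs_le.1 (hx j).2.2.2.1
    exact abs_le.2 ⟨by simp only [ha]; linarith [h2.1], by simp only [ha]; linarith [h2.2]⟩
  have hsa := abs_le.1 (abs_sum_le hn (by norm_num) ha5)
  have hwt : ∀ z : ℂ, exp (-h') ≤ ‖z‖ → ‖z‖ ≤ exp (-(h / 16)) → |wt x a z| ≤ Aw := fun z hz1 hz2 => by
    rw [hAw]
    refine wt_bd hn hx1 ha5 ((exp_le_exp.2 (by linarith)).trans hz1) (hz2.trans (exp_le_exp.2 (by linarith)))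
      (by positivity) (by linarith) fun j => ?_
    linarith [far hx1 (t := h / 16) (by positivity) (by linarith) hz2 j]
  have hh0 : 0 < h' := by linarith
  have hR := exp_pos (-h')
  have hsp : ∀ z ∈ sphere (0 : ℂ) (exp (-h')), |wt x a z| ≤ Aw := fun z hz => by
    have hz1 : ‖z‖ = exp (-h') := by simpa using hz
    exact hwt z hz1.ge (hz1.le.trans (exp_le_exp.2 (by linarith)))
  obtain ⟨Bf, hBf⟩ := hfb
  have hwc := wt_cont (a := a) hx1 hh0
  have hwc' : ContinuousOn (fun z => γ * h' - wt x a z) (sphere 0 (exp (-h'))) := continuousOn_const.sub hwc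
  have hγh : γ * h' ≤ 1 := by nlinarith
  have hγh0 : 0 ≤ γ * h' := by positivity
  obtain ⟨p, hp1, hp2⟩ := hT (fun z => f z + (γ * h' - wt x a z)) 0 (exp (-h')) (N0 + Λ0 + Aw + 1) γ hR hγ0
    (hf.add hwc'.upperSemicontinuousOn) ⟨Bf - Aw, fun z hz => by
      linarith [hBf z hz, (abs_le.1 (hsp z hz)).2]⟩ fun z hz => by
      linarith [hfu z hz, (abs_le.1 (hsp z hz)).1]
  obtain ⟨vv, hv1, hv2, hv3, hv4, hv5, hv6⟩ := vv_exists (S := N0 + Λ0 + Aw + 2) p h0 h1 hh1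
    fun u hu => by linarith [(hp1 u hu).2]
  have hfi : CircleIntegrable f 0 (exp (-h')) := SM3.integ f 0 _ (|Bf| + |N0 + Λ0|) hR.le hf fun z hz =>
    abs_le.2 ⟨by linarith [hBf z hz, neg_abs_le Bf, abs_nonneg (N0 + Λ0)],
      by linarith [hfu z hz, le_abs_self (N0 + Λ0), abs_nonneg Bf]⟩
  have hFm : circleAverage (fun z => f z + (γ * h' - wt x a z)) 0 (exp (-h')) =
      circleAverage f 0 (exp (-h')) + (γ * h' - (∑ j, a j) / 2 * h') := by
    rw [circleAverage_fun_add hfi (cint hR hwc'), circleAverage_fun_sub (cint hR continuousOn_const) (cint hR hwc),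
      circleAverage_const, wt_mean hx1 hh0]
  have hvc : ∀ r : ℝ, 0 < r → ContinuousOn (fun z => (vv z).re) (sphere 0 r) := fun r hr z hz => by
    have hz1 : ‖z‖ = r := by simpa using hz
    exact (LR.re (hv1 z (norm_pos_iff.1 (hz1 ▸ hr)))).cont.continuousWithinAt
  have hFv : ∀ z : ℂ, ‖z‖ = exp (-h') → f z + (γ * h' - wt x a z) ≤ (vv z).re := fun z hz => by
    have h2 : ((exp (-h') : ℝ) : ℂ) ≠ 0 := by exact_mod_cast hR.ne'
    have h3 : ‖z / (exp (-h') : ℝ)‖ = 1 := by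
      rw [norm_div, hz, Complex.norm_real, Real.norm_of_nonneg hR.le, div_self hR.ne']
    have h4 := (hp1 _ (mem_sphere_zero_iff_norm.2 h3)).1
    rw [← hv3 _ h3, zero_add, mul_div_cancel₀ _ h2] at h4
    exact h4
  have ha0 : N0 - (Λ0 + Aw) ≤ (p.eval 0).re := by
    have h2 := circleAverage_mono (hfi.add (cint hR hwc')) (cint hR (hvc _ hR)) fun z hz =>
      hFv z (by simpa [abs_of_pos hR] using hz)
    rw [hv6 _ hR] at h2
    have h3 : circleAverage f 0 (exp (-h')) + (γ * h' - (∑ j, a j) / 2 * h') ≤ (p.eval 0).re := hFm ▸ h2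
    nlinarith [hsa.2]
  have hvb : ∀ z, exp (-(h / 4)) ≤ ‖z‖ → ‖z‖ ≤ exp (h / 4) → ‖vv z - (p.eval 0).re‖ ≤ C' := fun z hz1 hz2 =>
    (hv5 z hz1 hz2).trans (hC' ▸ mul_le_mul_of_nonneg_left (by linarith) (by positivity))
  set B : ℂ → ℝ := fun z => (vv z).re + wt x a z + γ * log ‖z‖ with hB
  have hz0 : ∀ z ∈ annW h' x ρ0, z ≠ 0 := fun z hz => norm_pos_iff.1 (hR.trans_le hz.1)
  have hlr : ∀ z ∈ annW h' x ρ0, LR (fun z => (vv z).re + wt x a z) z := fun z hz =>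
    (LR.re (hv1 z (hz0 z hz))).add (wt_lr (hz0 z hz) fun j => norm_pos_iff.1 ((hρp j).trans_le (hz.2.2 j)))
  have hkey : ∀ (M : ℝ) (y : E), y.1 ∈ annW h' x ρ0 →
      (‖pp e (V y)‖ * exp (-((vv y.1).re + wt x a y.1 - log ‖m y.1‖)) * ‖y.1‖ ^ (-γ) ≤ M ↔
        ‖pp e (V y) * m y.1‖ ≤ M * exp (B y.1)) := fun M y hy =>
    key (hz0 _ hy) (hm2 _ hy).1 _ rfl (by simp only [hB]; ring)
  have hmain := hA W x ρ0 h' X K V e (fun z => (vv z).re + wt x a z - log ‖m z‖) he (by linarith)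
    (by linarith) (fun j => ⟨hx1 j, hrb2 j⟩) hNP hV
    (fun z hz => (hlr z hz).sub (LR.lg (hm z hz) (hm2 z hz).1))
    (box_g hn hx1 ha5 h1 hh1 hrb0 hrb1 hrb2 hv1 hv2 hvb hm hm2) hAW
    (fun y hy hyK hy1 => (hkey 1 y hy.2).2 (by
      refine (htop y hy.1 hyK hy1).trans ?_
      rw [one_mul, exp_le_exp]
      simp only [hB, hy1, log_exp]
      linarith [hFv _ hy1]))
    fun M hM hq y hy hyK j hyj => (hkey _ y hy.2).2 (eh hn (kk := fun j => κ (Cw j)) (D := X \ K)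
      (q := fun y => ‖pp e (V y) * m y.1‖) (B := B) h1 hh1 hx hsep hμ0 hμ1 hγ0 hγ1 hC0 (by linarith) ha0 hvb
      (fun j => ?_) hG (fun _ => rfl) hM (fun y hy hya => (hkey M y hya).1 (hq y ⟨hy.1, hya⟩ hy.2))
      ⟨hy.1, hyK⟩ hy.2 j hyj)
  · refine ⟨B, fun z hz => ((hlr z hz).add ((LR.lg (F := fun z => z) analyticAt_id (hz0 z hz)).mul γ)).cont.continuousWithinAt,
      fun y hy hyK => ?_, fun z hz d hd0 hd1 hd => ?_, fun z hz1 hz2 => ?_, fun z hz1 hz2 => ?_, fun s hs => ?_⟩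
    · have h2 := (hkey 1 y hy.2).1 (hmain y hy hyK)
      rwa [one_mul] at h2
    · have h2 := abs_le.1 (wt_bd hn hx1 ha5 ((exp_le_exp.2 (by linarith)).trans hz.1)
        (hz.2.1.trans (exp_le_exp.2 (by linarith))) hd0 hd1 hd)
      have h3 := abs_le.1 (abs_log_le hz.1 hz.2.1)
      have h4 := hv4 z hz.1 hz.2.1
      have h5 : γ * log ‖z‖ ≤ 1 := by nlinarith [h3.2]
      simp only [hB]
      linarith [h2.2]
    · have h2 := abs_le.1 (hwt z hz1 hz2)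
      have h3 : log ‖z‖ ≤ 0 := log_nonpos (norm_nonneg _) (hz2.trans (exp_le_one_iff.2 (by linarith)))
      have h4 := hv4 z hz1 (hz2.trans (exp_le_exp.2 (by linarith)))
      simp only [hB]
      nlinarith [h2.2]
    · have h2 := abs_le.1 (hwt z ((exp_le_exp.2 (by linarith)).trans hz1) (hz2.trans (exp_le_exp.2 (by linarith))))
      have hz3 : ‖z‖ ≤ exp (h / 4) := hz2.trans (exp_le_exp.2 (by linarith))
      have h3 := abs_le.1 (abs_log_le hz1 hz3)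
      have h4 := abs_le.1 ((Complex.abs_re_le_norm _).trans (hvb z hz1 hz3))
      rw [Complex.sub_re, Complex.ofReal_re] at h4
      have h5 : -1 ≤ γ * log ‖z‖ := by nlinarith [h3.1]
      simp only [hB]
      linarith [h2.1, h4.1]
    · have hs0 : 0 < s := by linarith [hs.1]
      have hr := exp_pos (-s)
      have hwc := wt_cont (a := a) hx1 hs0
      rw [circleAverage_congr_sphere (f₂ := fun z => (vv z).re + wt x a z + -(γ * s)) fun z hz => ?_,
        circleAverage_fun_add (f₁ := fun z => (vv z).re + wt x a z) (cint hr ((hvc _ hr).add hwc))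
          (cint hr continuousOn_const),
        circleAverage_fun_add (cint hr (hvc _ hr)) (cint hr hwc), circleAverage_const, wt_mean hx1 hs0, hv6 _ hr]
      · rw [hFm] at hp2
        have h2 : ∑ j, ex j - ∑ j, a j ≤ n * μ := by
          rw [← Finset.sum_sub_distrib]
          exact sum_le hn hμ0.le fun j => by simp [ha]
        have h3 : 0 ≤ h' - s := by linarith [hs.2]
        have h4 : (∑ j, ex j - ∑ j, a j) * (h' - s) ≤ η / 3 * 1 :=
          (mul_le_mul_of_nonneg_right (h2.trans hμ2) h3).trans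
            (mul_le_mul_of_nonneg_left (by linarith) (by linarith))
        have h5 : γ * (h' - s) ≤ γ * 1 := mul_le_mul_of_nonneg_left (by linarith) hγ0.le
        linarith
      · have hz1 : ‖z‖ = exp (-s) := by simpa [abs_of_pos hr] using hz
        simp only [hB, hz1, log_exp]
        ring
  · have h2 := hκ _ (hx j).2.2.2.2
    refine ⟨h2.1, h2.2.trans (min_le_left _ _), ?_⟩
    have h3 : 3 * κ (Cw j) ≤ exp (-Q (Cw j) / μ) := by linarith [h2.2.trans (min_le_right _ _)]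
    have h4 := (log_le_iff_le_exp (by linarith [h2.1])).2 h3
    rw [le_div_iff₀ hμ0, mul_comm] at h4
    exact h4

end Pool.Agent.Lib.SH
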