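import Pool.Agent.Lib.SH.Blue5
import Pool.Agent.Lib.CF.Basic

/-! Block TH: the fibre maps are near the identity. -/

open Set Filter Topology Metric

noncomputable section

namespace Pool.Agent.Lib.SH

namespace TH

abbrev P : Type := (ℂ × ℂ) × ℂ

def ez : P := ((0, 0), 1)

def ev : P := ((0, 1), 0)

/-- directional derivative -/
def dd (u : P) (G : P → ℂ) (p : P) : ℂ := fderiv ℂ G p u

theorem an_dd {G : P → ℂ} {p : P} (u : P) (h : AnalyticAt ℂ G p) : AnalyticAt ℂ (dd u G) p :=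
  (ContinuousLinearMap.apply ℂ ℂ u).analyticAt _ |>.comp h.fderiv

theorem der_v {G : P → ℂ} {e v z : ℂ} (h : AnalyticAt ℂ G ((e, v), z)) :
    HasDerivAt (fun t => G ((e, t), z)) (dd ev G ((e, v), z)) v :=
  h.differentiableAt.hasFDerivAt.comp_hasDerivAt v
    (((hasDerivAt_const v e).prodMk (hasDerivAt_id v)).prodMk (hasDerivAt_const v z))

theorem der_z {G : P → ℂ} {q : ℂ × ℂ} {z : ℂ} (h : AnalyticAt ℂ G (q, z)) :
    HasDerivAt (fun x => G (q, x)) (dd ez G (q, z)) z :=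
  h.differentiableAt.hasFDerivAt.comp_hasDerivAt z ((hasDerivAt_const z q).prodMk (hasDerivAt_id z))

theorem dd_symm {G : P → ℂ} {p : P} (h : AnalyticAt ℂ G p) (u u' : P) :
    dd u (dd u' G) p = dd u' (dd u G) p := by
  have key : ∀ a b : P, dd a (dd b G) p = fderiv ℂ (fderiv ℂ G) p a b := by
    intro a b
    have h1 := (ContinuousLinearMap.apply ℂ ℂ b).hasFDerivAt.comp p h.fderiv.differentiableAt.hasFDerivAt
    exact DFunLike.congr_fun h1.fderiv a
  rw [key, key]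
  exact (h.contDiffAt.isSymmSndFDerivAt_of_omega).eq u u'

theorem dd_const {G : P → ℂ} {q : ℂ × ℂ} {z c : ℂ} (h : AnalyticAt ℂ G (q, z))
    (hc : ∀ᶠ x in 𝓝 z, G (q, x) = c) : dd ez G (q, z) = 0 :=
  (der_z h).unique ((hasDerivAt_const z c).congr_of_eventuallyEq hc)

theorem lip {f f' : ℂ → ℂ} {r C : ℝ} (h : ∀ v : ℂ, ‖v‖ ≤ r → HasDerivAt f (f' v) v ∧ ‖f' v‖ ≤ C) {v v' : ℂ}
    (hv : ‖v‖ ≤ r) (hv' : ‖v'‖ ≤ r) : ‖f v - f v'‖ ≤ C * ‖v - v'‖ :=
  (convex_closedBall (0 : ℂ) r).norm_image_sub_le_of_norm_hasDerivWithin_le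
    (fun x hx => (h x (mem_closedBall_zero_iff.1 hx)).1.hasDerivWithinAt)
    (fun x hx => (h x (mem_closedBall_zero_iff.1 hx)).2) (mem_closedBall_zero_iff.2 hv')
    (mem_closedBall_zero_iff.2 hv)

end TH

open TH in
theorem st_th : St_TH := by
  intro V w d Z ω hZ hw hV hd h0 h1 hω
  set G : P → ℂ := fun p => V (p.2, w p.2 + p.1.2 * d (p.2, p.1.1)) with hG
  have hGa : ∀ z : ℂ, AnalyticAt ℂ w z → AnalyticAt ℂ V (z, w z) → AnalyticAt ℂ d (z, 0) →
      AnalyticAt ℂ G ((0, 0), z) := by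
    intro z a b c
    have a' : AnalyticAt ℂ (fun p : P => w p.2) ((0, 0), z) := AnalyticAt.fun_comp (f := Prod.snd) a analyticAt_snd
    have c' : AnalyticAt ℂ (fun p : P => d (p.2, p.1.1)) ((0, 0), z) :=
      AnalyticAt.fun_comp (f := fun p : P => (p.2, p.1.1)) c
        (analyticAt_snd.prod (AnalyticAt.fun_comp (f := Prod.fst) analyticAt_fst analyticAt_fst))
    refine AnalyticAt.fun_comp_of_eq (f := fun p : P => (p.2, w p.2 + p.1.2 * d (p.2, p.1.1))) b
      (analyticAt_snd.prod (a'.add (AnalyticAt.mul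
        (AnalyticAt.fun_comp (f := Prod.fst) analyticAt_snd analyticAt_fst) c'))) (by simp)
  have key : ∀ z ∈ Z, ∀ᶠ p : P in 𝓝 ((0, 0), z), AnalyticAt ℂ G p ∧ d (p.2, p.1.1) ≠ 0 ∧
      ‖dd ev G p - 1‖ ≤ ω ∧ ‖dd ev (dd ez G) p‖ ≤ ω / 100 ∧
      ∀ᶠ q : P in 𝓝 p, V (q.2, w q.2) = 0 ∧ V (q.2, w q.2 + q.1.1 * d (q.2, q.1.1)) = q.1.1 := by
    intro z hz
    have hz0 : ((z, 0) : ℂ × ℂ) ∈ Z ×ˢ ({0} : Set ℂ) := ⟨hz, rfl⟩
    have g0 := hGa z (hw z hz) (hV z hz) (hd _ hz0)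
    have e0 := h0.filter_mono (nhds_le_nhdsSet hz)
    have e1 := h1.filter_mono (nhds_le_nhdsSet hz0)
    have c1 : ContinuousAt (fun x => ((x, w x) : E)) z := continuousAt_id.prodMk (hw z hz).continuousAt
    have c2 : ContinuousAt (fun x : ℂ => ((x, 0) : ℂ × ℂ)) z := by fun_prop
    have e2 : ∀ᶠ x in 𝓝 z, dd ev G ((0, 0), x) = 1 := by
      filter_upwards [e0, (hw z hz).eventually_analyticAt, c1.eventually (hV z hz).eventually_analyticAt,
        c2.eventually (hd _ hz0).eventually_analyticAt] with x hx a b c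
      have k1 := der_v (hGa x a b c)
      have k2 : HasDerivAt (fun t : ℂ => w x + t * d (x, 0)) (d (x, 0)) 0 := by
        simpa using ((hasDerivAt_id (0 : ℂ)).mul_const (d (x, 0))).const_add (w x)
      have k3 := (CF.hasDerivAt_dw b.differentiableAt).comp_of_eq 0 k2 (by simp)
      rw [← CF.dw_eq b.differentiableAt, hx.2] at k3
      exact k1.unique k3
    have v1 : dd ev G ((0, 0), z) = 1 := e2.self_of_nhds
    have v2 : dd ev (dd ez G) ((0, 0), z) = 0 := by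
      rw [dd_symm g0]
      exact dd_const (an_dd ev g0) e2
    have dne : d (z, 0) ≠ 0 := right_ne_zero_of_mul_eq_one e0.self_of_nhds.2
    have c3 : ContinuousAt (fun p : P => ((p.2, p.1.1) : ℂ × ℂ)) ((0, 0), z) := by fun_prop
    have c4 : ContinuousAt (fun p : P => p.2) ((0, 0), z) := by fun_prop
    have c5 : ContinuousAt (fun p => ‖dd ev G p - 1‖) ((0, 0), z) :=
      ((an_dd ev g0).continuousAt.sub continuousAt_const).norm
    have c6 : ContinuousAt (fun p => ‖dd ev (dd ez G) p‖) ((0, 0), z) :=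
      (an_dd ev (an_dd ez g0)).continuousAt.norm
    have e3 : ∀ᶠ q : P in 𝓝 ((0, 0), z),
        V (q.2, w q.2) = 0 ∧ V (q.2, w q.2 + q.1.1 * d (q.2, q.1.1)) = q.1.1 := by
      filter_upwards [c4.eventually e0, c3.eventually e1] with q a b using ⟨a.1, b⟩
    filter_upwards [g0.eventually_analyticAt, c3.eventually ((hd _ hz0).continuousAt.eventually_ne dne),
      c5.eventually (gt_mem_nhds (a := ω) (by simpa [v1] using hω)),
      c6.eventually (gt_mem_nhds (a := ω / 100) (by simp only [v2, norm_zero]; positivity)),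
      e3.eventually_nhds] with p a b c e f using ⟨a, b, c.le, e.le, f⟩
  have tube := hZ.eventually_forall_of_forall_eventually (x₀ := ((0, 0) : ℂ × ℂ))
    (P := fun q z => AnalyticAt ℂ G (q, z) ∧ d (z, q.1) ≠ 0 ∧
      ‖dd ev G (q, z) - 1‖ ≤ ω ∧ ‖dd ev (dd ez G) (q, z)‖ ≤ ω / 100 ∧
      ∀ᶠ q' : P in 𝓝 (q, z), V (q'.2, w q'.2) = 0 ∧ V (q'.2, w q'.2 + q'.1.1 * d (q'.2, q'.1.1)) = q'.1.1) key
  obtain ⟨r, hr, hb⟩ := Metric.nhds_basis_closedBall.eventually_iff.1 tube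
  refine ⟨r, hr, fun ε hε b ζ hba hbZ hb' => ?_⟩
  have hεn : ‖(ε : ℂ)‖ ≤ r := by simpa using hε
  have T := fun (v : ℂ) (hv : ‖v‖ ≤ r) => hb (x := ((ε : ℂ), v))
    (by
      rw [show ((0, 0) : ℂ × ℂ) = 0 from rfl, mem_closedBall_zero_iff, Prod.norm_def]
      exact max_le hεn hv) (b ζ) hbZ
  have h0r : ‖(0 : ℂ)‖ ≤ r := by simpa using hr.le
  have c7 : ContinuousAt (fun x : ℂ => ((((ε : ℂ), 0), x) : P)) (b ζ) := by fun_prop
  have e4 := c7.eventually (T 0 h0r).2.2.2.2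
  have z0 : dd ez G (((ε : ℂ), 0), b ζ) = 0 :=
    dd_const (c := 0) (T 0 h0r).1 (by filter_upwards [e4] with x hx; simpa [hG] using hx.1)
  have z1 : dd ez G (((ε : ℂ), (ε : ℂ)), b ζ) = 0 :=
    dd_const (c := ε) (T ε hεn).1 (by filter_upwards [e4] with x hx using hx.2)
  have L := fun (v v' : ℂ) (hv : ‖v‖ ≤ r) (hv' : ‖v'‖ ≤ r) =>
    lip (f := fun t => dd ez G (((ε : ℂ), t), b ζ)) (C := ω / 100)
      (fun t ht => ⟨der_v (an_dd ez (T t ht).1), (T t ht).2.2.2.1⟩) hv hv'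
  refine ⟨(T 0 h0r).2.1, ⟨?_, fun v hv => ⟨?_, ?_, ?_⟩⟩, fun v v' hv hv' => ?_⟩
  · filter_upwards [hba.continuousAt.eventually e4] with x hx
    exact ⟨by simpa using hx.1, hx.2⟩
  · have a' : AnalyticAt ℂ (fun y : E => b y.1) (ζ, v) := AnalyticAt.fun_comp (f := Prod.fst) hba analyticAt_fst
    exact AnalyticAt.fun_comp (g := G) (f := fun y : E => ((((ε : ℂ), y.2), b y.1) : P)) (T v hv).1
      ((analyticAt_const.prod analyticAt_snd).prod a')
  · have := (der_v (T v hv).1).deriv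
    exact (congrArg (fun t => ‖t - 1‖) this).trans_le (T v hv).2.2.1
  · have k := ((der_z (T v hv).1).comp ζ hba.differentiableAt.hasDerivAt).deriv
    refine (congrArg norm k).trans_le ?_
    have k1 : ‖dd ez G (((ε : ℂ), v), b ζ)‖ ≤ ω / 100 * ss ε v := by
      have a1 := L v 0 hv h0r
      have a2 := L v ε hv hεn
      simp only [z0, z1, sub_zero] at a1 a2
      rw [ss, mul_min_of_nonneg _ _ (by positivity)]
      exact le_min a1 a2
    have k2 : 0 ≤ ss ε v := le_min (norm_nonneg _) (norm_nonneg _)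
    rw [norm_mul]
    calc _ ≤ ω / 100 * ss ε v * 100 := mul_le_mul k1 hb' (norm_nonneg _) (by positivity)
      _ = ω * ss ε v := by ring
  · have := lip (f := fun t => G (((ε : ℂ), t), b ζ) - t) (C := ω)
      (fun t ht => ⟨(der_v (T t ht).1).sub (hasDerivAt_id t), (T t ht).2.2.1⟩) hv hv'
    refine le_of_eq_of_le ?_ this
    congr 1
    simp only [hG]
    ring

end Pool.Agent.Lib.SH
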