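import Pool.Agent.Lib.SH.Blue1b

/-!
Trigonometric majorants of upper semicontinuous functions on a circle.
-/

open Set Filter Topology Metric

noncomputable section

namespace Pool.Agent.Lib.SH

namespace TRIG

/-- multipliers of the real parts of polynomials on the unit circle -/
def Mu : Subalgebra ℝ C(sphere (0 : ℂ) 1, ℝ) where
  carrier := {u | ∀ p : Polynomial ℂ, ∃ q : Polynomial ℂ, ∀ z : sphere (0 : ℂ) 1,
    u z * (p.eval (z : ℂ)).re = (q.eval (z : ℂ)).re}
  mul_mem' := by
    intro u v hu hv p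
    obtain ⟨q, hq⟩ := hv p
    obtain ⟨s, hs⟩ := hu q
    exact ⟨s, fun z => by rw [ContinuousMap.mul_apply, mul_assoc, hq, hs]⟩
  add_mem' := by
    intro u v hu hv p
    obtain ⟨q, hq⟩ := hu p
    obtain ⟨s, hs⟩ := hv p
    exact ⟨q + s, fun z => by
      rw [ContinuousMap.add_apply, add_mul, hq, hs, Polynomial.eval_add, Complex.add_re]⟩
  algebraMap_mem' := by
    intro a p
    exact ⟨Polynomial.C (a : ℂ) * p, fun z => by simp⟩

/-- the real part of `a z` -/
def lin (a : ℂ) : C(sphere (0 : ℂ) 1, ℝ) := ⟨fun z => (a * (z : ℂ)).re, by fun_prop⟩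

theorem lin_mem (a : ℂ) : lin a ∈ Mu := by
  intro p
  refine ⟨Polynomial.C (a * (p.coeff 0).re) * Polynomial.X + Polynomial.C (1 / 2) *
    (Polynomial.C a * Polynomial.X ^ 2 + Polynomial.C (starRingEnd ℂ a)) * p.divX, fun z => ?_⟩
  have hz : (z : ℂ).re ^ 2 + (z : ℂ).im ^ 2 = 1 := by
    have h1 : ‖(z : ℂ)‖ = 1 := by simp
    have h2 := Complex.sq_norm (z : ℂ)
    rw [h1, Complex.normSq_apply] at h2
    nlinarith
  have e : p.eval (z : ℂ) = (z : ℂ) * p.divX.eval (z : ℂ) + p.coeff 0 := by
    have := congrArg (Polynomial.eval (z : ℂ)) (Polynomial.X_mul_divX_add p)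
    rw [Polynomial.eval_add, Polynomial.eval_mul, Polynomial.eval_X, Polynomial.eval_C] at this
    exact this.symm
  rw [e]
  have h2 : (1 / 2 : ℂ) = ((1 / 2 : ℝ) : ℂ) := by push_cast; rfl
  simp only [lin, ContinuousMap.coe_mk, Polynomial.eval_add, Polynomial.eval_mul,
    Polynomial.eval_C, Polynomial.eval_X, h2, sq, Complex.add_re,
    Complex.mul_re, Complex.mul_im, Complex.add_im, Complex.ofReal_re, Complex.ofReal_im,
    Complex.conj_re, Complex.conj_im]
  generalize (p.divX.eval (z : ℂ)).re = x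
  generalize (p.divX.eval (z : ℂ)).im = y
  linear_combination (a.re * x / 2 + a.im * y / 2) * hz

theorem sep : Mu.SeparatesPoints := by
  intro x y hxy
  by_cases h : (x : ℂ).re = (y : ℂ).re
  · refine ⟨_, ⟨lin (-Complex.I), lin_mem _, rfl⟩, fun k => hxy (Subtype.ext (Complex.ext h ?_))⟩
    simpa [lin] using k
  · refine ⟨_, ⟨lin 1, lin_mem _, rfl⟩, fun k => h ?_⟩
    simpa [lin] using k

theorem approx (g : ℂ → ℝ) (hg : Continuous g) {ε : ℝ} (hε : 0 < ε) :
    ∃ p : Polynomial ℂ, ∀ z ∈ sphere (0 : ℂ) 1, |(p.eval z).re - g z| < ε := by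
  obtain ⟨u, hu⟩ := ContinuousMap.exists_mem_subalgebra_near_continuous_of_separatesPoints Mu sep
    (fun z => g z) (hg.comp continuous_subtype_val) ε hε
  obtain ⟨q, hq⟩ := u.2 1
  refine ⟨q, fun z hz => ?_⟩
  have h1 := hq ⟨z, hz⟩
  have h2 := hu ⟨z, hz⟩
  simp only [Polynomial.eval_one, Complex.one_re, mul_one] at h1
  rw [← h1]
  exact h2

/-- Lipschitz majorants -/
def lip (f : ℂ → ℝ) (S : Set ℂ) (n : ℕ) (z : ℂ) : ℝ := ⨆ w : S, (f w - n * ‖z - w‖)

section

variable {f : ℂ → ℝ} {S : Set ℂ} {B : ℝ}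

theorem le_env (hB : ∀ z ∈ S, f z ≤ B) (n : ℕ) (z : ℂ) {w : ℂ} (hw : w ∈ S) :
    f w - n * ‖z - w‖ ≤ lip f S n z := by
  refine le_ciSup (f := fun w : S => f w - n * ‖z - w‖) ⟨B, ?_⟩ ⟨w, hw⟩
  rintro _ ⟨v, rfl⟩
  have := hB v v.2
  have h2 : 0 ≤ (n : ℝ) * ‖z - v‖ := by positivity
  change f v - n * ‖z - v‖ ≤ B
  linarith

theorem env_le (hS : S.Nonempty) {n : ℕ} {z : ℂ} {b : ℝ} (h : ∀ w ∈ S, f w - n * ‖z - w‖ ≤ b) :
    lip f S n z ≤ b := by
  have := hS.to_subtype
  exact ciSup_le fun w => h w w.2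

theorem env_cont (hS : S.Nonempty) (hB : ∀ z ∈ S, f z ≤ B) (n : ℕ) : Continuous (lip f S n) := by
  refine (LipschitzWith.of_le_add_mul (n : NNReal) fun x y => env_le hS fun w hw => ?_).continuous
  have h1 := le_env hB n y hw
  have h2 : ‖y - w‖ ≤ ‖x - w‖ + dist x y := by
    rw [← dist_eq_norm, ← dist_eq_norm, add_comm, dist_comm x y]
    exact dist_triangle _ _ _
  have h3 := mul_le_mul_of_nonneg_left h2 (Nat.cast_nonneg (α := ℝ) n)
  simp only [NNReal.coe_natCast]
  linarith

theorem env_lim (hB : ∀ z ∈ S, f z ≤ B) (hf : UpperSemicontinuousOn f S) {z : ℂ} (hz : z ∈ S) :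
    Tendsto (fun n => lip f S n z) atTop (𝓝 (f z)) := by
  refine tendsto_order.2 ⟨fun a ha => Eventually.of_forall fun n => ?_, fun a ha => ?_⟩
  · have := le_env hB n z hz
    simp only [sub_self, norm_zero, mul_zero, sub_zero] at this
    exact ha.trans_le this
  · obtain ⟨b, hb1, hb2⟩ := exists_between ha
    obtain ⟨δ, hδ, h⟩ := Metric.mem_nhdsWithin_iff.1 (hf z hz b hb1)
    filter_upwards [(tendsto_natCast_atTop_atTop (R := ℝ)).eventually_ge_atTop ((B - b) / δ)]
      with n hn
    refine lt_of_le_of_lt (env_le ⟨z, hz⟩ fun w hw => ?_) hb2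
    have h0 : 0 ≤ (n : ℝ) := Nat.cast_nonneg n
    by_cases k : ‖z - w‖ < δ
    · have h1 : f w < b := h ⟨by rwa [mem_ball, dist_comm, dist_eq_norm], hw⟩
      have h2 : 0 ≤ (n : ℝ) * ‖z - w‖ := by positivity
      linarith
    · have h1 := hB w hw
      have h2 := mul_le_mul_of_nonneg_left (not_lt.1 k) h0
      rw [div_le_iff₀ hδ] at hn
      linarith

end

end TRIG

open TRIG in
theorem st_trig : St_TRIG := by
  rintro f c r B η hr hη hf ⟨B0, h0⟩ hB
  have hS : (sphere c r).Nonempty := NormedSpace.sphere_nonempty.2 hr.le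
  have hm : ∀ θ, circleMap c r θ ∈ sphere c r := fun θ => circleMap_mem_sphere c hr.le θ
  have h1 : ∀ n, ∀ z ∈ sphere c r, f z ≤ lip f (sphere c r) n z := fun n z hz => by
    simpa using le_env hB n z hz
  have h2 : ∀ n z, lip f (sphere c r) n z ≤ B := fun n z => env_le hS fun w hw => by
    have := hB w hw
    have h2 : 0 ≤ (n : ℝ) * ‖z - w‖ := by positivity
    linarith
  have hl : Tendsto (fun n => Real.circleAverage (lip f (sphere c r) n) c r) atTop
      (𝓝 (Real.circleAverage f c r)) := by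
    unfold Real.circleAverage
    refine Tendsto.const_smul (intervalIntegral.tendsto_integral_filter_of_dominated_convergence
      (fun _ => |B0| + |B|) (Eventually.of_forall fun n => ?_) (Eventually.of_forall fun n => ?_)
      intervalIntegrable_const (Eventually.of_forall fun θ _ => env_lim hB hf (hm θ))) _
    · exact ((env_cont hS hB n).comp (continuous_circleMap c r)).aestronglyMeasurable
    · refine Eventually.of_forall fun θ _ => ?_
      have a1 := h1 n _ (hm θ)
      have a2 := h2 n (circleMap c r θ)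
      have a3 := h0 _ (hm θ)
      have a4 := neg_abs_le B0
      have a5 := le_abs_self B
      have a6 := abs_nonneg B0
      have a7 := abs_nonneg B
      rw [Real.norm_eq_abs, abs_le]
      constructor <;> linarith
  obtain ⟨n, hn⟩ := (hl.eventually_lt_const (show Real.circleAverage f c r <
    Real.circleAverage f c r + η / 3 by linarith)).exists
  have hg : Continuous fun z : ℂ => lip f (sphere c r) n (r * z + c) :=
    (env_cont hS hB n).comp (by fun_prop)
  obtain ⟨p, hp⟩ := approx (fun z => lip f (sphere c r) n (r * z + c) + η / 3)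
    (hg.add continuous_const) (show 0 < η / 3 by linarith)
  refine ⟨p, fun z hz => ?_, ?_⟩
  · have a1 := abs_lt.1 (hp z hz)
    have a2 := h2 n (r * z + c)
    have a3 := h1 n (r * z + c) (by
      have : ‖z‖ = 1 := by simpa using hz
      simp [this, abs_of_pos hr])
    rw [add_comm c]
    constructor <;> linarith [a1.1, a1.2]
  · have hc : Continuous fun z : ℂ => p.eval z := p.continuous
    have i1 : CircleIntegrable (fun z : ℂ => p.eval z) 0 1 := hc.continuousOn.circleIntegrable'
    have e1 : Real.circleAverage (fun z : ℂ => p.eval z) 0 1 = p.eval 0 :=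
      DiffContOnCl.circleAverage (f := fun z : ℂ => p.eval z) p.differentiable.diffContOnCl
    have e2 := Complex.reCLM.circleAverage_comp_comm i1
    rw [e1, Complex.reCLM_apply] at e2
    have i2 : CircleIntegrable (fun z : ℂ => lip f (sphere c r) n (r * z + c)) 0 1 :=
      hg.continuousOn.circleIntegrable'
    have i3 : CircleIntegrable (fun _ : ℂ => 2 * η / 3) 0 1 :=
      continuous_const.continuousOn.circleIntegrable'
    have e3 := Real.circleAverage_mono (c := 0) (R := 1) (f₁ := Complex.reCLM ∘ fun z : ℂ => p.eval z)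
      (f₂ := fun z : ℂ => lip f (sphere c r) n (r * z + c) + 2 * η / 3)
      (Complex.reCLM.continuous.comp hc).continuousOn.circleIntegrable'
      (hg.add continuous_const).continuousOn.circleIntegrable' fun z hz => by
        have a1 := abs_lt.1 (hp z (by simpa using hz))
        change (p.eval z).re ≤ _
        linarith [a1.2]
    rw [e2, Real.circleAverage_fun_add i2 i3, Real.circleAverage_const,
      ← Real.circleAverage_eq_circleAverage_zero_one] at e3
    linarith

end Pool.Agent.Lib.SH
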