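import Pool.Agent.Lib.SH.Blue2
import Pool.Agent.Lib.SH.B_NL0

open Set Filter Topology Metric

namespace Pool.Agent.Lib.SH

namespace WACT

open NL0

theorem nwb_of {X K : Set E} {P : E → ℂ} {x0 r ι t C0 Λ σ K0 ρ : ℝ}
    (h : ∀ (X K : Set E) (Q : E → ℂ) (x0 r lv : ℝ), 0 < r → NP X K (box x0 r r) →
      WB X K Q x0 r t C0 Λ lv → 0 ≤ lv →
      (∀ y ∈ ov X (box x0 r r), y ∉ K → -(σ * r) < y.1.im) →
      (lv = 0 ∨ ∃ y ∈ ov X (box x0 r (σ * r)), y ∉ K ∧ y.1.im = σ * r ∧ lv ≤ 16 * ‖Q y‖) →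
      NWB (X \ K) Q K0 σ x0 r)
    (hr : 0 < r) (hσ : 0 < σ) (hσ1 : σ ≤ 1) (hι : ι ≤ σ) (ht : ι ≤ t)
    (np : NP X K (closedBall 0 ρ)) (up : ∀ y ∈ ov X (closedBall 0 ρ), 0 ≤ y.1.im)
    (hs : |x0| + r + r ≤ ρ) (hw : WBL X K P x0 r ι C0 Λ) : NWB (X \ K) P K0 σ x0 r := by
  obtain ⟨lv, h0, h1, h2⟩ := hw
  have hsub : box x0 r r ⊆ closedBall 0 ρ := box_sub hs
  have hp : 0 < σ * r := mul_pos hσ hr
  refine h X K P x0 r lv hr (np_mono np (isClosed_box _ _ _) hsub) (wb_mono h1 ht) h0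
    (fun y hy _ => ?_) (h2.imp id fun h3 => ?_)
  · have := up y ⟨hy.1, hsub hy.2⟩
    linarith
  · obtain ⟨y, hy, hK, e, hl⟩ := h3 σ hι hσ1
    refine ⟨y, ⟨hy.1, hy.2.1, ?_⟩, hK, e, hl⟩
    rw [e, abs_of_pos hp]

/-- dilation -/
def sc (ρ : ℝ) (z : ℂ) : ℂ := ρ * z

theorem sc_re (ρ : ℝ) (z : ℂ) : (sc ρ z).re = ρ * z.re := by simp [sc]

theorem sc_im (ρ : ℝ) (z : ℂ) : (sc ρ z).im = ρ * z.im := by simp [sc]

theorem sc_norm {ρ : ℝ} (hρ : 0 < ρ) (z : ℂ) : ‖sc ρ z‖ = ρ * ‖z‖ := by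
  rw [sc, norm_mul, Complex.norm_real, Real.norm_eq_abs, abs_of_pos hρ]

theorem sc_box {ρ x0 r : ℝ} (hρ : 0 < ρ) {z : ℂ} (hz : z ∈ box x0 r r) :
    sc ρ z ∈ box (ρ * x0) (ρ * r) (ρ * r) := by
  refine ⟨?_, ?_⟩
  · rw [sc_re, ← mul_sub, abs_mul, abs_of_pos hρ]
    exact mul_le_mul_of_nonneg_left hz.1 hρ.le
  · rw [sc_im, abs_mul, abs_of_pos hρ]
    exact mul_le_mul_of_nonneg_left hz.2 hρ.le

theorem an_bc (ρ : ℝ) (y : E) : AnalyticAt ℂ (bc (sc ρ)) y :=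
  (analyticAt_const.mul analyticAt_fst).prod analyticAt_snd

theorem wb_sc {X K : Set E} {Q : E → ℂ} {ρ x0 r ι C0 Λ lv : ℝ} (hρ : 0 < ρ)
    (h : WB X K Q (ρ * x0) (ρ * r) ι C0 Λ lv) :
    WB (bc (sc ρ) ⁻¹' X) (bc (sc ρ) ⁻¹' K) (fun y => Q (bc (sc ρ) y)) x0 r ι C0 Λ lv := by
  obtain ⟨V, g, e, ι', lev, pw, Ψ, Ψy, h1, h2, h3, h4, h5, h6, h7, h8, h9, h10, h11⟩ := h
  have hc : (ρ : ℂ) ≠ 0 := by exact_mod_cast hρ.ne'
  have e1 : ∀ y : E, ((bc (sc ρ) y).1 - ((ρ * x0 : ℝ) : ℂ)) / ((ρ * r : ℝ) : ℂ) =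
      (y.1 - x0) / r := fun y => by
    show ((ρ : ℂ) * y.1 - ((ρ * x0 : ℝ) : ℂ)) / ((ρ * r : ℝ) : ℂ) = (y.1 - x0) / r
    rw [Complex.ofReal_mul, Complex.ofReal_mul, ← mul_sub, mul_div_mul_left _ _ hc]
  have e2 : ∀ y : E, (bc (sc ρ) y).1.im / (ρ * r) = y.1.im / r := fun y => by
    show (sc ρ y.1).im / (ρ * r) = y.1.im / r
    rw [sc_im, mul_div_mul_left _ _ hρ.ne']
  have e3 : ∀ y : E, ((bc (sc ρ) y).1.re - ρ * x0) / (ρ * r) = (y.1.re - x0) / r := fun y => by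
    show ((sc ρ y.1).re - ρ * x0) / (ρ * r) = (y.1.re - x0) / r
    rw [sc_re, ← mul_sub, mul_div_mul_left _ _ hρ.ne']
  have hm : ∀ y ∈ ov (bc (sc ρ) ⁻¹' X) (box x0 r r),
      bc (sc ρ) y ∈ ov X (box (ρ * x0) (ρ * r) (ρ * r)) := fun y hy => ⟨hy.1, sc_box hρ hy.2⟩
  refine ⟨fun y => V (bc (sc ρ) y), g, e, ι', lev, pw, Ψ, Ψy, h1, h2,
    fun y hy => (h3 _ (hm y hy)).comp (an_bc ρ y), h4, h5, h6, fun y hy => ?_, h8, h9,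
    fun y hy hK hl => ?_, fun y hy hl hi hV => ?_⟩
  · have := h7 (bc (sc ρ) y) (sc_box hρ hy)
    rwa [e1] at this
  · have := h10 _ (hm y hy) hK hl
    rwa [e2, e3] at this
  · exact h11 _ (hm y hy) hl (by rw [e2]; exact hi) (by rw [e2, e3]; exact hV)

end WACT

open WACT in
theorem st_wact (hQ : St_QL) (hN : St_NWB) : St_WACT := by
  obtain ⟨K0, hK0, hQ⟩ := hQ
  obtain ⟨σ, hσ, hσ1, hA⟩ := hN K0 hK0
  obtain ⟨K1, hK1, hQ⟩ := hQ σ hσ hσ1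
  obtain ⟨τ, hτ, hτ1, hB⟩ := hN K1 hK1
  obtain ⟨L0, hQ⟩ := hQ τ hτ hτ1
  refine ⟨L0, fun β L hβ hβ1 hL => ?_⟩
  obtain ⟨M, hM, ι0, hι0, hQ⟩ := hQ β L hβ hβ1 hL
  refine ⟨M, hM, fun C0 Λ => ?_⟩
  obtain ⟨a, ha, hA⟩ := hA σ C0 Λ hσ le_rfl
  obtain ⟨b, hb, hB⟩ := hB τ C0 Λ hτ le_rfl
  have hι : 0 < min ι0 (min (min a b) (min σ τ)) := by positivity
  have m1 : min ι0 (min (min a b) (min σ τ)) ≤ min a b :=
    (min_le_right _ _).trans (min_le_left _ _)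
  have m2 : min ι0 (min (min a b) (min σ τ)) ≤ min σ τ :=
    (min_le_right _ _).trans (min_le_right _ _)
  refine ⟨_, hι, fun X K P ρ h hρ => hQ X K P _ ρ
    ⟨h.np, h.up, h.an, h.anB, h.cls, fun x0 h1 h2 => ?_, fun x0 h1 => ?_, h.ppp⟩ hι
    (min_le_left _ _) hρ⟩
  · exact nwb_of hA (by linarith) hσ hσ1 (m2.trans (min_le_left _ _)) (m1.trans (min_le_left _ _))
      h.np h.up (by linarith) (h.wb x0 h1 h2)
  · exact nwb_of hB (by norm_num) hτ hτ1 (m2.trans (min_le_right _ _))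
      (m1.trans (min_le_right _ _)) h.np h.up (by linarith) (h.wb1 x0 h1)

open WACT in
theorem st_nl0r (hN : St_NL0) (hP : St_PULL) : St_NL0R := by
  intro C0 Λ
  obtain ⟨ι, hι, hN⟩ := hN C0 Λ
  refine ⟨ι, hι, fun X K Q O ρ hO hρ np an hK hW hb y hy hyK => ?_⟩
  have hc : (ρ : ℂ) ≠ 0 := by exact_mod_cast hρ.ne'
  have hball : ∀ z ∈ closedBall (0 : ℂ) 1, sc ρ z ∈ closedBall (0 : ℂ) ρ := fun z hz => by
    rw [mem_closedBall_zero_iff] at hz ⊢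
    rw [sc_norm hρ]
    exact mul_le_of_le_one_right hρ.le hz
  have hm : ∀ x ∈ ov (bc (sc ρ) ⁻¹' X) (closedBall 0 1),
      bc (sc ρ) x ∈ ov X (closedBall 0 ρ) := fun x hx => ⟨hx.1, hball _ hx.2⟩
  have ey : bc (sc ρ) (y.1 / ρ, y.2) = y := Prod.ext (mul_div_cancel₀ _ hc) rfl
  have key := hN (bc (sc ρ) ⁻¹' X) (bc (sc ρ) ⁻¹' K) (fun x => Q (bc (sc ρ) x)) O hO
    (hP X K _ _ _ np (isCompact_closedBall _ _) fun z hz =>
      ⟨analyticAt_const.mul analyticAt_id, by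
        have : HasDerivAt (sc ρ) (ρ * 1) z := (hasDerivAt_id z).const_mul (ρ : ℂ)
        rw [this.deriv, mul_one]
        exact hc, hball z hz⟩)
    (fun x hx => (an _ (hm x hx)).comp (an_bc ρ x))
    (fun x hx h1 h2 => by
      obtain ⟨a1, a2⟩ := hK _ (hm x hx) h1 h2
      refine ⟨?_, a2⟩
      have a3 : |(sc ρ x.1).im| ≤ ι * ρ := a1
      rw [sc_im, abs_mul, abs_of_pos hρ, mul_comm ι ρ] at a3
      exact le_of_mul_le_mul_left a3 hρ)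
    (fun x0 h0 => wb_sc hρ (by
      have := hW (ρ * x0) (by
        rw [abs_mul, abs_of_pos hρ, mul_comm (5 / 8) ρ]
        exact mul_le_mul_of_nonneg_left h0 hρ.le)
      rwa [div_eq_mul_one_div ρ 8] at this))
    (fun x hx h1 h2 h3 => hb _ hx h1 (by
      show ρ / 2 ≤ ‖sc ρ x.1‖
      rw [sc_norm hρ]
      nlinarith) (by
      show ‖sc ρ x.1‖ ≤ ρ
      rw [sc_norm hρ]
      exact mul_le_of_le_one_right hρ.le h3))
    (y.1 / ρ, y.2) ⟨by rw [mem_preimage, ey]; exact hy.1, by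
      have h1 := mem_closedBall_zero_iff.1 hy.2
      rw [mem_closedBall_zero_iff, norm_div, Complex.norm_real, Real.norm_eq_abs, abs_of_pos hρ,
        div_le_iff₀ hρ]
      linarith⟩ (by rw [mem_preimage, ey]; exact hyK)
  rwa [ey] at key

end Pool.Agent.Lib.SH
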