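import Pool.Agent.Lib.SH.Blue1b

/-!
Block WIND of the project SH: winding numbers along the unit circle.
-/

open Set Filter Topology Metric

noncomputable section

namespace Pool.Agent.Lib.SH

namespace WIND

theorem cint {f : ℂ → ℂ} {r : ℝ} (hr : 0 ≤ r) (hf : ∀ z : ℂ, ‖z‖ = r → AnalyticAt ℂ f z) :
    CircleIntegrable f 0 r :=
  ContinuousOn.circleIntegrable hr fun z hz =>
    (hf z (by simpa using hz)).continuousAt.continuousWithinAt

theorem avg_deriv {g : ℂ → ℂ} (hg : ∀ z : ℂ, ‖z‖ = 1 → AnalyticAt ℂ g z) :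
    Real.circleAverage (fun z => z * deriv g z) 0 1 = 0 := by
  rw [Real.circleAverage_eq_circleIntegral one_ne_zero]
  have h1 : (∮ z in C(0, 1), (z - 0)⁻¹ • (z * deriv g z)) = ∮ z in C(0, 1), deriv g z := by
    refine circleIntegral.integral_congr zero_le_one fun z hz => ?_
    have hz1 : ‖z‖ = 1 := by simpa using hz
    have hz0 : z ≠ 0 := by
      rintro rfl
      simp at hz1
    simp only [sub_zero, smul_eq_mul]
    field_simp
  rw [h1, circleIntegral.integral_eq_zero_of_hasDerivWithinAt zero_le_one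
    (f := g) fun z hz => (hg z (by simpa using hz)).differentiableAt.hasDerivAt.hasDerivWithinAt]
  simp

theorem avg_ann {g : ℂ → ℂ} {a b : ℝ} (ha : 0 < a) (hab : a ≤ b)
    (hg : ∀ z : ℂ, a ≤ ‖z‖ → ‖z‖ ≤ b → AnalyticAt ℂ g z) :
    Real.circleAverage g 0 a = Real.circleAverage g 0 b := by
  rw [Real.circleAverage_eq_circleIntegral ha.ne',
    Real.circleAverage_eq_circleIntegral (ha.trans_le hab).ne',
    Complex.circleIntegral_sub_center_inv_smul_eq_of_differentiable_on_annulus_off_countable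
      ha hab countable_empty]
  · intro z hz
    refine (hg z ?_ ?_).continuousAt.continuousWithinAt
    · simpa using hz.2
    · simpa using hz.1
  · intro z hz
    refine (hg z ?_ ?_).differentiableAt
    · have := hz.1.2
      simp only [mem_closedBall, dist_zero_right, not_le] at this
      exact this.le
    · have := hz.1.1
      simp only [mem_ball, dist_zero_right] at this
      exact this.le

theorem re_avg {g : ℂ → ℂ} {r : ℝ} (hg : CircleIntegrable g 0 r) :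
    Real.circleAverage (fun z => (g z).re) 0 r = (Real.circleAverage g 0 r).re :=
  Complex.reCLM.circleAverage_comp_comm hg

theorem wind_congr {W : ℂ → ℂ} {f : ℂ → ℂ} (h : ∀ z : ℂ, ‖z‖ = 1 → z * deriv W z / W z = f z) :
    wind W = (Real.circleAverage f 0 1).re := by
  unfold wind
  rw [Real.circleAverage_congr_sphere (f₂ := f) fun z hz => h z (by simpa using hz)]

theorem ne0 {z : ℂ} (hz : ‖z‖ = 1) : z ≠ 0 := by
  rintro rfl
  simp at hz

theorem ld_an {W : ℂ → ℂ} {z : ℂ} (h : AnalyticAt ℂ W z) (h0 : W z ≠ 0) :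
    AnalyticAt ℂ (fun x => x * deriv W x / W x) z :=
  (analyticAt_id.mul h.deriv).div h h0

theorem wind_form {W g : ℂ → ℂ} {k : ℤ} (h : ∀ z : ℂ, ‖z‖ = 1 → AnalyticAt ℂ g z ∧
    ∀ᶠ x in 𝓝 z, W x = x ^ k * Complex.exp (g x)) : wind W = k := by
  rw [wind_congr (f := fun z => (k : ℂ) + z * deriv g z)]
  · rw [Real.circleAverage_fun_add (f₂ := fun z => z * deriv g z) (circleIntegrable_const _ _ _)
      (cint zero_le_one fun z hz => analyticAt_id.mul (h z hz).1.deriv),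
      Real.circleAverage_const, avg_deriv fun z hz => (h z hz).1]
    simp
  · intro z hz
    obtain ⟨h1, h2⟩ := h z hz
    have hz0 := ne0 hz
    have h3 : HasDerivAt W ((k : ℂ) * z ^ (k - 1) * Complex.exp (g z) +
        z ^ k * (Complex.exp (g z) * deriv g z)) z :=
      ((hasDerivAt_zpow k z (Or.inl hz0)).mul
        h1.differentiableAt.hasDerivAt.cexp).congr_of_eventuallyEq h2
    rw [h3.deriv, h2.self_of_nhds, zpow_sub_one₀ hz0]
    have h4 : z ^ k ≠ 0 := zpow_ne_zero k hz0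
    have h5 := Complex.exp_ne_zero (g z)
    field_simp

theorem wind_alg {W1 W2 : ℂ → ℂ} (h : ∀ z : ℂ, ‖z‖ = 1 → AnalyticAt ℂ W1 z ∧ W1 z ≠ 0 ∧
    AnalyticAt ℂ W2 z ∧ W2 z ≠ 0) : wind (fun z => W1 z * W2 z) = wind W1 + wind W2 ∧
    wind (fun z => W1 z / W2 z) = wind W1 - wind W2 ∧ wind (fun z => W1 z⁻¹) = -wind W1 := by
  have i1 := cint zero_le_one fun z hz => ld_an (h z hz).1 (h z hz).2.1
  have i2 := cint zero_le_one fun z hz => ld_an (h z hz).2.2.1 (h z hz).2.2.2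
  refine ⟨?_, ?_, ?_⟩
  · rw [wind_congr (f := fun z => z * deriv W1 z / W1 z + z * deriv W2 z / W2 z),
      Real.circleAverage_fun_add i1 i2, Complex.add_re]
    · rfl
    · intro z hz
      obtain ⟨a1, n1, a2, n2⟩ := h z hz
      rw [deriv_fun_mul a1.differentiableAt a2.differentiableAt]
      field_simp
  · rw [wind_congr (f := fun z => z * deriv W1 z / W1 z - z * deriv W2 z / W2 z),
      Real.circleAverage_fun_sub i1 i2, Complex.sub_re]
    · rfl
    · intro z hz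
      obtain ⟨a1, n1, a2, n2⟩ := h z hz
      rw [deriv_fun_div a1.differentiableAt a2.differentiableAt n2]
      field_simp
  · rw [wind_congr (f := fun z => (fun x => (-1 : ℂ) • (x * deriv W1 x / W1 x)) z⁻¹),
      Real.circleAverage_zero_one_congr_inv (f := fun x => (-1 : ℂ) • (x * deriv W1 x / W1 x)),
      Real.circleAverage_fun_smul]
    · simp [wind]
    · intro z hz
      have hz0 := ne0 hz
      obtain ⟨a1, n1, -⟩ := h z⁻¹ (by simp [hz])
      have h3 : HasDerivAt (fun x => W1 x⁻¹) (deriv W1 z⁻¹ * (-(z ^ 2)⁻¹)) z :=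
        a1.differentiableAt.hasDerivAt.comp z (hasDerivAt_inv hz0)
      rw [h3.deriv]
      simp only [smul_eq_mul]
      field_simp

theorem wind_rouche {W1 W2 : ℂ → ℂ} (h : ∀ z : ℂ, ‖z‖ = 1 → AnalyticAt ℂ W1 z ∧
    AnalyticAt ℂ W2 z ∧ ‖W2 z - W1 z‖ < ‖W1 z‖) : wind W2 = wind W1 := by
  have n1 : ∀ z : ℂ, ‖z‖ = 1 → W1 z ≠ 0 := fun z hz =>
    norm_pos_iff.1 ((norm_nonneg _).trans_lt (h z hz).2.2)
  have n2 : ∀ z : ℂ, ‖z‖ = 1 → W2 z ≠ 0 := fun z hz h0 => by
    have := (h z hz).2.2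
    simp [h0] at this
  have h1 := (wind_alg (W1 := W2) (W2 := W1) fun z hz =>
    ⟨(h z hz).2.1, n2 z hz, (h z hz).1, n1 z hz⟩).2.1
  have h2 : wind (fun z => W2 z / W1 z) = (0 : ℤ) := by
    refine wind_form (g := fun z => Complex.log (W2 z / W1 z)) fun z hz => ?_
    have a : AnalyticAt ℂ (fun z => W2 z / W1 z) z := (h z hz).2.1.div (h z hz).1 (n1 z hz)
    constructor
    · refine AnalyticAt.clog a ?_
      have e : W2 z / W1 z = 1 + (W2 z - W1 z) / W1 z := by
        have := n1 z hz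
        field_simp
        ring
      rw [e]
      refine Complex.mem_slitPlane_of_norm_lt_one ?_
      rw [norm_div, div_lt_one (norm_pos_iff.2 (n1 z hz))]
      exact (h z hz).2.2
    · have e := a.continuousAt.eventually_ne (div_ne_zero (n2 z hz) (n1 z hz))
      filter_upwards [e] with x hx
      rw [Complex.exp_log hx]
      simp
  rw [h1] at h2
  simp only [Int.cast_zero] at h2
  linarith

theorem wind_disc {W : ℂ → ℂ} (h : ∀ z : ℂ, ‖z‖ ≤ 1 → AnalyticAt ℂ W z ∧ W z ≠ 0) :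
    wind W = 0 := by
  unfold wind
  rw [circleAverage_of_differentiable_on_off_countable countable_empty]
  · simp
  · intro z hz
    have hz1 : ‖z‖ ≤ 1 := by simpa using hz
    exact (ld_an (h z hz1).1 (h z hz1).2).continuousAt.continuousWithinAt
  · intro z hz
    have hz1 : ‖z‖ < 1 := by simpa using hz.1
    exact (ld_an (h z hz1.le).1 (h z hz1.le).2).differentiableAt

theorem wind_lin {a : ℂ} (ha : ‖a‖ < 1) : wind (fun z => z - a) = 1 := by
  rw [wind_congr (f := fun z => ((z - 0) / (z - a)) • (1 : ℂ)),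
    circleAverage_sub_sub_inv_smul_of_differentiable_on_off_countable (f := fun _ => (1 : ℂ))
      countable_empty continuousOn_const (fun _ _ => differentiableAt_const _) (by simpa using ha)]
  · simp
  · intro z _
    simp

theorem fat {W : ℂ → ℂ} {a b : ℝ} (ha : 0 < a) (hab : a ≤ b)
    (h : ∀ z : ℂ, a ≤ ‖z‖ → ‖z‖ ≤ b → AnalyticAt ℂ W z ∧ W z ≠ 0) :
    ∃ a' b' : ℝ, 0 < a' ∧ a' < a ∧ b < b' ∧
      ∀ z : ℂ, a' < ‖z‖ → ‖z‖ < b' → AnalyticAt ℂ W z ∧ W z ≠ 0 := by
  have hU : IsOpen {z : ℂ | AnalyticAt ℂ W z ∧ W z ≠ 0} :=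
    isOpen_iff_mem_nhds.2 fun z hz =>
      hz.1.eventually_analyticAt.and (hz.1.continuousAt.eventually_ne hz.2)
  have hC := (isClosedMap_dist (0 : ℂ) _ hU.isClosed_compl).isOpen_compl
  have key : ∀ r, a ≤ r → r ≤ b → ∃ ε > 0, ∀ z : ℂ, |‖z‖ - r| < ε →
      AnalyticAt ℂ W z ∧ W z ≠ 0 := by
    intro r h1 h2
    obtain ⟨ε, hε, hb⟩ := Metric.isOpen_iff.1 hC r (by
      rintro ⟨z, hz, hr⟩
      rw [dist_zero_left] at hr
      exact hz (h z (hr ▸ h1) (hr ▸ h2)))
    refine ⟨ε, hε, fun z hz => ?_⟩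
    by_contra hn
    exact hb (show ‖z‖ ∈ ball r ε from hz) ⟨z, hn, dist_zero_left z⟩
  obtain ⟨ε1, h1, k1⟩ := key a le_rfl hab
  obtain ⟨ε2, h2, k2⟩ := key b hab le_rfl
  refine ⟨max (a - ε1) (a / 2), b + ε2, lt_max_of_lt_right (by linarith),
    max_lt (by linarith) (by linarith), by linarith, fun z hz1 hz2 => ?_⟩
  have hz3 := (le_max_left _ _).trans_lt hz1
  rcases lt_or_ge ‖z‖ a with c1 | c1
  · exact k1 z (abs_lt.2 ⟨by linarith, by linarith⟩)
  rcases lt_or_ge b ‖z‖ with c2 | c2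
  · exact k2 z (abs_lt.2 ⟨by linarith, by linarith⟩)
  exact h z c1 c2

theorem strip {W : ℂ → ℂ} {α β : ℝ}
    (h : ∀ ζ : ℂ, α < ζ.re → ζ.re < β →
      AnalyticAt ℂ W (Complex.exp ζ) ∧ W (Complex.exp ζ) ≠ 0) (hαβ : α < β) :
    ∃ (k : ℤ) (G : ℂ → ℂ), Function.Periodic G (2 * Real.pi * Complex.I) ∧
      ∀ ζ : ℂ, α < ζ.re → ζ.re < β → AnalyticAt ℂ G ζ ∧
        W (Complex.exp ζ) = Complex.exp ζ ^ k * Complex.exp (G ζ) := by
  classical
  set S : Set ℂ := {ζ | α < ζ.re} ∩ {ζ | ζ.re < β} with hS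
  have cS : Convex ℝ S := (convex_halfSpace_re_gt α).inter (convex_halfSpace_re_lt β)
  have oS : IsOpen S := (isOpen_lt continuous_const Complex.continuous_re).inter
    (isOpen_lt Complex.continuous_re continuous_const)
  have sh : ∀ ζ : ℂ, ζ + 2 * Real.pi * Complex.I ∈ S ↔ ζ ∈ S := fun ζ => by simp [hS]
  obtain ⟨F, hF⟩ := cS.exists_forall_hasDerivWithinAt
    (f := fun ζ => Complex.exp ζ * deriv W (Complex.exp ζ) / W (Complex.exp ζ)) fun ζ hζ =>
      ((ld_an (h ζ hζ.1 hζ.2).1 (h ζ hζ.1 hζ.2).2).differentiableAt.comp ζ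
        Complex.differentiableAt_exp).differentiableWithinAt
  have hF' := fun ζ (hζ : ζ ∈ S) => (hF ζ hζ).hasDerivAt (oS.mem_nhds hζ)
  have d1 : ∀ ζ ∈ S, HasDerivAt (fun x => W (Complex.exp x) * Complex.exp (-F x)) 0 ζ := by
    intro ζ hζ
    obtain ⟨a1, n1⟩ := h ζ hζ.1 hζ.2
    have e1 : HasDerivAt (fun x => W (Complex.exp x))
        (deriv W (Complex.exp ζ) * Complex.exp ζ) ζ :=
      a1.differentiableAt.hasDerivAt.comp ζ (Complex.hasDerivAt_exp ζ)
    refine (e1.mul (hF' ζ hζ).neg.cexp).congr_deriv ?_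
    field_simp
    ring
  obtain ⟨c, hc⟩ := oS.exists_is_const_of_deriv_eq_zero cS.isPreconnected
    (fun ζ hζ => (d1 ζ hζ).differentiableAt.differentiableWithinAt) fun ζ hζ => (d1 ζ hζ).deriv
  have d2 : ∀ ζ ∈ S, HasDerivAt (fun x => F (x + 2 * Real.pi * Complex.I) - F x) 0 ζ := by
    intro ζ hζ
    refine (((hF' _ ((sh ζ).2 hζ)).comp_add_const ζ _).sub (hF' ζ hζ)).congr_deriv ?_
    rw [Complex.exp_periodic ζ, sub_self]
  obtain ⟨d, hd⟩ := oS.exists_is_const_of_deriv_eq_zero cS.isPreconnected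
    (fun ζ hζ => (d2 ζ hζ).differentiableAt.differentiableWithinAt) fun ζ hζ => (d2 ζ hζ).deriv
  have m0 : (((α + β) / 2 : ℝ) : ℂ) ∈ S := by
    constructor
    · show α < _
      rw [Complex.ofReal_re]
      linarith
    · show _ < β
      rw [Complex.ofReal_re]
      linarith
  have c0 : c ≠ 0 := by
    rw [← hc _ m0]
    exact mul_ne_zero (h _ m0.1 m0.2).2 (Complex.exp_ne_zero _)
  have hW : ∀ ζ ∈ S, W (Complex.exp ζ) = c * Complex.exp (F ζ) := by
    intro ζ hζ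
    rw [← hc ζ hζ, mul_assoc, ← Complex.exp_add]
    simp
  obtain ⟨k, hk⟩ : ∃ k : ℤ, d = k * (2 * Real.pi * Complex.I) := by
    rw [← Complex.exp_eq_one_iff, ← hd _ m0, Complex.exp_sub, div_eq_one_iff_eq
      (Complex.exp_ne_zero _)]
    refine mul_left_cancel₀ c0 ?_
    rw [← hW _ m0, ← hW _ ((sh _).2 m0), Complex.exp_periodic _]
  refine ⟨k, fun ζ => if ζ ∈ S then F ζ + Complex.log c - k * ζ else 0, fun ζ => ?_,
    fun ζ h1 h2 => ⟨?_, ?_⟩⟩
  · by_cases hζ : ζ ∈ S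
    · simp only [if_pos hζ, if_pos ((sh ζ).2 hζ)]
      have := hd ζ hζ
      rw [hk] at this
      linear_combination this
    · simp only [if_neg hζ, if_neg (fun hh => hζ ((sh ζ).1 hh))]
  · have aF : AnalyticAt ℂ F ζ := DifferentiableOn.analyticAt
      (fun x hx => (hF x hx).differentiableWithinAt) (oS.mem_nhds ⟨h1, h2⟩)
    have a2 : AnalyticAt ℂ (fun ζ => F ζ + Complex.log c - k * ζ) ζ := by fun_prop
    refine a2.congr ?_
    filter_upwards [oS.mem_nhds ⟨h1, h2⟩] with x hx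
    rw [if_pos hx]
  · have hζ : ζ ∈ S := ⟨h1, h2⟩
    simp only [if_pos hζ]
    rw [hW ζ hζ, Complex.exp_sub, Complex.exp_add, Complex.exp_log c0, Complex.exp_int_mul]
    have := zpow_ne_zero k (Complex.exp_ne_zero ζ)
    field_simp

theorem logform {W : ℂ → ℂ} {a b : ℝ} (ha : 0 < a) (hab : a ≤ b)
    (h : ∀ z : ℂ, a ≤ ‖z‖ → ‖z‖ ≤ b → AnalyticAt ℂ W z ∧ W z ≠ 0) :
    ∃ (k : ℤ) (g : ℂ → ℂ), ∀ z : ℂ, a ≤ ‖z‖ → ‖z‖ ≤ b → AnalyticAt ℂ g z ∧
      ∀ᶠ x in 𝓝 z, W x = x ^ k * Complex.exp (g x) := by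
  obtain ⟨a', b', h0, h1, h2, h3⟩ := fat ha hab h
  have hb' : 0 < b' := by linarith
  obtain ⟨k, G, per, hG⟩ := strip (W := W) (α := Real.log a') (β := Real.log b')
    (fun ζ k1 k2 => h3 _ (by rwa [Complex.norm_exp, ← Real.log_lt_iff_lt_exp h0])
      (by rwa [Complex.norm_exp, ← Real.lt_log_iff_exp_lt hb']))
    (Real.log_lt_log h0 (by linarith))
  have inS : ∀ x : ℂ, a' < ‖x‖ → ‖x‖ < b' →
      Real.log a' < (Complex.log x).re ∧ (Complex.log x).re < Real.log b' := fun x k1 k2 => by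
    rw [Complex.log_re]
    exact ⟨Real.log_lt_log h0 k1, Real.log_lt_log (h0.trans k1) k2⟩
  refine ⟨k, fun x => G (Complex.log x), fun z k1 k2 => ⟨?_, ?_⟩⟩
  · have hz0 : z ≠ 0 := norm_pos_iff.1 (ha.trans_le k1)
    obtain ⟨s1, s2⟩ := inS z (h1.trans_le k1) (k2.trans_lt h2)
    have a1 : AnalyticAt ℂ (fun x => Complex.log z + Complex.log (x / z)) z :=
      analyticAt_const.add (AnalyticAt.clog (analyticAt_id.div_const) (by simp [hz0]))
    have a2 : AnalyticAt ℂ (fun x => G (Complex.log z + Complex.log (x / z))) z :=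
      AnalyticAt.comp_of_eq (hG _ s1 s2).1 a1 (by simp [hz0])
    refine a2.congr ?_
    filter_upwards [isOpen_ne.mem_nhds hz0] with x hx
    have hx0 : x ≠ 0 := hx
    obtain ⟨n, hn⟩ := Complex.exp_eq_exp_iff_exists_int.1
      (show Complex.exp (Complex.log z + Complex.log (x / z)) = Complex.exp (Complex.log x) by
        rw [Complex.exp_add, Complex.exp_log hz0, Complex.exp_log (div_ne_zero hx0 hz0),
          Complex.exp_log hx0]
        field_simp)
    rw [hn]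
    exact per.int_mul n _
  · filter_upwards [continuous_norm.continuousAt.eventually
      (Ioo_mem_nhds (h1.trans_le k1) (k2.trans_lt h2))] with x hx
    have hx0 : x ≠ 0 := norm_pos_iff.1 (h0.trans hx.1)
    obtain ⟨s1, s2⟩ := inS x hx.1 hx.2
    have := (hG _ s1 s2).2
    rwa [Complex.exp_log hx0] at this

theorem wind_scale {W g : ℂ → ℂ} {k : ℤ} {r : ℝ} (hr : 0 < r)
    (h : ∀ z : ℂ, ‖z‖ = r → AnalyticAt ℂ g z ∧ ∀ᶠ x in 𝓝 z, W x = x ^ k * Complex.exp (g x)) :
    wind (fun z => W (r * z)) = k := by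
  have hr0 : (r : ℂ) ≠ 0 := by exact_mod_cast hr.ne'
  refine wind_form (g := fun z => g (r * z) + k * Complex.log r) fun z hz => ?_
  obtain ⟨h1, h2⟩ := h (r * z) (by simp [hz, abs_of_pos hr])
  have a1 : AnalyticAt ℂ (fun x : ℂ => (r : ℂ) * x) z := by fun_prop
  refine ⟨(AnalyticAt.comp (f := fun x : ℂ => (r : ℂ) * x) h1 a1).add analyticAt_const, ?_⟩
  filter_upwards [a1.continuousAt.eventually h2] with x hx
  rw [hx, Complex.exp_add, Complex.exp_int_mul, Complex.exp_log hr0, mul_zpow]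
  ring

end WIND

theorem st_wind : St_WIND := by
  refine ⟨fun W a b ha hab h => ?_, fun W1 W2 h => WIND.wind_alg h,
    fun W1 W2 h => WIND.wind_rouche h, fun W1 W2 h => ?_, fun W h => WIND.wind_disc h,
    fun a => ⟨WIND.wind_lin, fun ha => WIND.wind_disc fun z hz => ⟨by fun_prop, fun h0 => ?_⟩⟩,
    fun g a b ha hab h => ?_⟩
  · obtain ⟨k, g, hg⟩ := WIND.logform ha hab h
    exact ⟨k, g, hg, fun r h1 h2 => WIND.wind_scale (ha.trans_le h1) fun z hz =>
      hg z (hz ▸ h1) (hz ▸ h2)⟩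
  · refine WIND.wind_congr fun z hz => ?_
    rw [(h z hz).deriv_eq, (h z hz).eq_of_nhds]
  · rw [sub_eq_zero.1 h0] at hz
    linarith
  · rw [WIND.re_avg (WIND.cint ha.le fun z hz => h z hz.ge (hz.le.trans hab)),
      WIND.re_avg (WIND.cint (ha.le.trans hab) fun z hz => h z (hab.trans hz.ge) hz.le),
      WIND.avg_ann ha hab h]

end Pool.Agent.Lib.SH
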