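import Pool.Agent.Lib.SH.Blue2
import Pool.Agent.Lib.SH.B_NL0

open Set Filter Topology Metric

namespace Pool.Agent.Lib.SH

namespace WNEU

open NL0

theorem far {z : ℂ} (h : 3 / 2 ≤ ‖z‖) : 1 / 2 ≤ ‖z - Complex.I‖ := by
  have h1 := norm_sub_norm_le z Complex.I
  rw [Complex.norm_I] at h1
  linarith

theorem bl_ge {z : ℂ} (h0 : 0 ≤ z.im) (h : 1 / 2 ≤ ‖z - Complex.I‖) : 1 / 5 ≤ ‖bl z‖ := by
  have h1 : 0 < ‖z + Complex.I‖ := by
    refine norm_pos_iff.2 fun e => ?_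
    have := congrArg Complex.im e
    simp at this
    linarith
  have h2 : ‖z + Complex.I‖ ≤ ‖z - Complex.I‖ + 2 := by
    have e : z + Complex.I = (z - Complex.I) + 2 * Complex.I := by ring
    have e2 : ‖(2 * Complex.I : ℂ)‖ = 2 := by simp
    rw [e]
    exact (norm_add_le _ _).trans (by rw [e2])
  rw [bl, norm_div, le_div_iff₀ h1]
  linarith

theorem exp_lt {L : ℝ} (h : 4 ≤ L) : Real.exp (-L + 2) < 1 / 5 := by
  have h1 : Real.exp (-L + 2) ≤ Real.exp (-2) := Real.exp_le_exp.2 (by linarith)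
  have h2 : (5 : ℝ) < Real.exp 2 := by
    have e : Real.exp 2 = Real.exp 1 * Real.exp 1 := by rw [← Real.exp_add]; norm_num
    have := Real.exp_one_gt_d9
    rw [e]; nlinarith
  have h3 : Real.exp (-2) < 1 / 5 := by
    rw [Real.exp_neg, inv_eq_one_div]
    exact one_div_lt_one_div_of_lt (by norm_num) h2
  linarith

/-- the zeros of `Q` can be added to `K` in the box conclusion -/
theorem nwb_zero {X K : Set E} {Q : E → ℂ} {K0 σ x0 r : ℝ} (hK : 1 < K0) (hr : 0 ≤ r)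
    (h : NWB (X \ K) Q K0 σ x0 r) : NWB (X \ (K ∪ {y | Q y = 0})) Q K0 σ x0 r := by
  intro B b h1 h2 y hy
  have hB : 0 ≤ B := (norm_nonneg _).trans (h1 y ⟨hy.1, hy.2.1.trans (by linarith), hy.2.2⟩)
  have hB' : 0 ≤ B / K0 := div_nonneg hB (by linarith)
  have key := h B (max b 0) (fun x hx => ?_) (fun x hx hi => ?_) y
    ⟨⟨hy.1.1, fun a => hy.1.2 (Or.inl a)⟩, hy.2⟩
  · refine key.trans (mul_le_mul_of_nonneg_left (max_le (max_le (le_max_left _ _)
      (hB'.trans (le_max_right _ _))) (le_max_right _ _)) (by norm_num))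
  · by_cases hq : Q x = 0
    · rw [hq, norm_zero]; exact hB
    · exact h1 x ⟨⟨hx.1.1, fun a => a.elim hx.1.2 hq⟩, hx.2⟩
  · by_cases hq : Q x = 0
    · rw [hq, norm_zero]; exact le_max_right _ _
    · exact (h2 x ⟨⟨hx.1.1, fun a => a.elim hx.1.2 hq⟩, hx.2⟩ hi).trans (le_max_left _ _)

end WNEU

open NL0 WNEU in
theorem st_wneu (h1 : St_NL2) (h2 : St_MIC2) (h3 : St_NWB) : St_WNEU := by
  obtain ⟨K0, hK0, h1⟩ := h1
  obtain ⟨σ, hσ, hσ1, h3⟩ := h3 K0 hK0
  obtain ⟨CN, hCN, c0, hc0, h1⟩ := h1 σ hσ hσ1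
  obtain ⟨M', hM', h1⟩ := h1 1 4 one_pos le_rfl
  obtain ⟨L0, h2⟩ := h2
  have he : 1 ≤ Real.exp 1 := Real.one_le_exp zero_le_one
  refine ⟨max L0 4, Real.exp 1 * CN, one_le_mul_of_one_le_of_one_le he hCN, c0, hc0, 64 * M',
    by linarith, fun L C0 Λ hL => ?_⟩
  have hL4 : 4 ≤ L := (le_max_right _ _).trans hL
  obtain ⟨ι1, hι1, h3⟩ := h3 σ C0 Λ hσ le_rfl
  obtain ⟨ι2, hι2, h2⟩ := h2 L M' C0 Λ ((le_max_left _ _).trans hL) (by linarith)
  refine ⟨min (min ι1 ι2) 1, lt_min (lt_min hι1 hι2) one_pos, ?_⟩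
  have a1 : min (min ι1 ι2) 1 ≤ ι1 := (min_le_left _ _).trans (min_le_left _ _)
  have a2 : min (min ι1 ι2) 1 ≤ ι2 := (min_le_left _ _).trans (min_le_right _ _)
  have a3 : min (min ι1 ι2) 1 ≤ 1 := min_le_right _ _
  generalize min (min ι1 ι2) 1 = ι at a1 a2 a3
  intro X K Q j iw ρ hj hρ hw0 hw hc hN hup han hI hcl hW hW' O hO hb
  have sub : closedBall (0 : ℂ) (2 * M') ⊆ closedBall 0 ρ :=
    closedBall_subset_closedBall (by linarith)
  have mic := h2 X K Q j hj (np_mono hN isClosed_closedBall sub)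
    (fun y hy => hup y ⟨hy.1, sub hy.2⟩) (han.mono fun y hy => ⟨hy.1, sub hy.2⟩) hI
    (fun y hy hK hq => (hcl y ⟨hy.1, sub hy.2⟩ hK hq).imp_left fun a => ⟨a.1.trans a2,
      a.2.trans (mul_le_mul_of_nonneg_right (hw.trans a2) (norm_nonneg _))⟩)
    (fun x0 hx => wb_mono (hW' x0 (by linarith)) a2)
  have hN' : Neu X (K ∪ {y | Q y = 0}) Q iw 1 ρ K0 σ 4 M' := by
    refine ⟨⟨hN.cpt, hN.sub, fun y hy hK => hN.np y hy fun a => hK (Or.inl a)⟩, hup, han,
      fun y hy hK h4 => ?_, fun x0 hx hx' => ?_, fun O' hO' y hy hy1 hy2 => ?_⟩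
    · by_cases hq : Q y = 0
      · exact Or.inl hq
      · rcases hcl y hy (hK.resolve_right hq) hq with a | a
        · exact Or.inr ⟨a.1.trans a3, a.2⟩
        · have b1 := bl_ge (hup y hy) (far (by linarith))
          have b2 := exp_lt hL4
          have b3 : Real.exp (-L + 1) ≤ Real.exp (-L + 2) := Real.exp_le_exp.2 (by linarith)
          linarith [a.1]
    · have hs : box x0 (|x0| / 8) (|x0| / 8) ⊆ closedBall 0 ρ := box_sub (by linarith)
      refine nwb_zero hK0 (by linarith) (h3 X K Q x0 _ 0 (by linarith)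
        (np_mono hN (isClosed_box _ _ _) hs) (wb_mono (hW x0 hx hx') a1) le_rfl
        (fun y hy _ => ?_) (Or.inl rfl))
      have b1 := hup y ⟨hy.1, hs hy.2⟩
      have b2 : 0 < σ * (|x0| / 8) := mul_pos hσ (by linarith)
      linarith
    · have hyK : y ∉ K := fun a => hy.2 (Or.inl a)
      have hq : Q y ≠ 0 := fun a => hy.2 (Or.inr a)
      have b1 := bl_ge (hup y ⟨hy.1, mem_closedBall_zero_iff.2 (by linarith)⟩) hy2
      have b2 := mic (max O' 0) (le_max_right _ _) (fun x hx hK c1 c2 => ?_) y hy.1 hyK hy1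
        ((exp_lt hL4).le.trans b1)
      · rcases le_total 0 O' with c | c
        · rwa [max_eq_left c] at b2
        · rw [max_eq_right c, mul_zero] at b2
          exact absurd (norm_le_zero_iff.1 b2) hq
      · by_cases hq : Q x = 0
        · rw [hq, norm_zero]; exact le_max_right _ _
        · exact (hO' x ⟨hx, fun a => a.elim hK hq⟩ c1 c2).trans (le_max_left _ _)
  have hO2 : 0 ≤ CN * O := mul_nonneg (by linarith) hO
  have nl : ∀ y ∈ X, y ∉ K → ‖y.1‖ ≤ ρ → 3 / 2 ≤ ‖y.1‖ → ‖Q y‖ ≤ CN * O := by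
    intro y hy hK c1 c2
    by_cases hq : Q y = 0
    · rw [hq, norm_zero]; exact hO2
    · exact h1 X _ Q iw ρ hN' hw0 hc hρ O hO (fun x hx hK => hb x hx fun a => hK (Or.inl a)) y hy
        (fun a => a.elim hK hq) c1 (far c2)
  intro y hy hK c1 c2
  rw [mul_assoc]
  rcases le_total ‖y.1‖ M' with c | c
  · exact mic _ hO2 (fun x hx hK d1 d2 => nl x hx hK (by linarith) (by linarith)) y hy hK c c2
  · exact (nl y hy hK c1 (by linarith)).trans (le_mul_of_one_le_left hO2 he)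

end Pool.Agent.Lib.SH
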