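import Pool.Agent.Lib.SH.B_BRIDGE
import Pool.Agent.Lib.HULL.Zp

open Set Filter Topology Metric

noncomputable section

namespace Pool.Agent.Lib.SH

namespace ZP

theorem convex_box (x0 r s : ℝ) : Convex ℝ (box x0 r s) := by
  have : box x0 r s = Complex.reLm ⁻¹' Icc (x0 - r) (x0 + r) ∩ Complex.imLm ⁻¹' Icc (-s) s := by
    ext z
    simp only [box, abs_le, mem_ofPred_eq, mem_inter_iff, mem_preimage, mem_Icc,
      Complex.reLm_coe, Complex.imLm_coe]
    constructor <;> rintro ⟨⟨a, b⟩, c⟩ <;> exact ⟨⟨by linarith, by linarith⟩, c⟩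
  rw [this]
  exact ((convex_Icc _ _).linear_preimage _).inter ((convex_Icc _ _).linear_preimage _)

theorem small (a : ℝ) {b : ℝ} (h : 0 < b) : ∀ᶠ ι in 𝓝 (0 : ℝ), ι * a < b :=
  (continuous_id.mul continuous_const).continuousAt.eventually_lt continuousAt_const
    (by simpa using h)

theorem ex_pos {p : ℝ → Prop} (h : ∀ᶠ ι in 𝓝 (0 : ℝ), p ι) : ∃ ι > 0, p ι := by
  obtain ⟨ι, a, b⟩ := ((h.filter_mono nhdsWithin_le_nhds).and
    (self_mem_nhdsWithin (s := Ioi 0))).exists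
  exact ⟨ι, b, a⟩

theorem exp_le_sq {x : ℝ} (h0 : 0 ≤ x) (h1 : x ≤ 1 / 2) : Real.exp (-(4 * x)) ≤ (1 - x) ^ 2 := by
  have a : Real.exp (-(2 * x)) ≤ 1 - x := by
    rw [Real.exp_neg, inv_le_iff_one_le_mul₀ (Real.exp_pos _)]
    nlinarith [Real.add_one_le_exp (2 * x)]
  have b : Real.exp (-(4 * x)) = Real.exp (-(2 * x)) ^ 2 := by
    rw [sq, ← Real.exp_add]; congr 1; ring
  rw [b]; exact pow_le_pow_left₀ (Real.exp_pos _).le a 2

theorem ss_nonneg (e : ℝ) (v : ℂ) : 0 ≤ ss e v := le_min (norm_nonneg _) (norm_nonneg _)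

theorem pw_mono {J : Set ℝ} {e ι ι' C0 lev t C1 : ℝ} {Ψ Ψy : ℝ → ℝ → ℂ}
    (h : PW J e ι ι' C0 lev Ψ Ψy) (h1 : ι ≤ t) (h2 : C0 ≤ C1) : PW J e t ι' C1 lev Ψ Ψy := by
  have h0 : 0 < ι := h.pos.trans_le h.le
  refine ⟨h.pos, h.le.trans h1, h.der, fun x hx y hy => (h.hc x hx y hy).trans ?_, h.hb,
    fun x hx y hy a x' b c => ?_, fun x hx y hy a => (h.he x hx y hy a).trans
      (mul_le_mul_of_nonneg_right h1 (ss_nonneg _ _))⟩
  · refine mul_le_mul_of_nonneg_right h1 ?_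
    by_contra k
    nlinarith [h.hc x hx y hy, abs_nonneg (Ψy x y).im]
  · obtain ⟨d1, d2⟩ := h.hd x hx y hy a x' b c
    have := ss_nonneg e (Ψ x y)
    exact ⟨d1.trans (by gcongr), d2.trans (by gcongr)⟩

theorem pw_conv {e ι ι' C0 lev : ℝ} {Ψ Ψy : ℝ → ℝ → ℂ}
    (h : PW (Icc (-1) 1) e ι ι' C0 lev Ψ Ψy) : HULL.Z59.PW Ψ (Icc (-1) 1) e ι ι' C0 lev :=
  HULL.Z59.PW.of_deriv (D := Ψy) h.pos h.le
    (fun x hx y hy => (h.der x hx y hy).continuousAt.continuousWithinAt)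
    (fun x hx u hu => h.der x hx u (abs_le.1 hu.le)) (fun x hx u hu => h.hb x hx u (abs_le.1 hu.le))
    (fun x hx u hu => h.hc x hx u (abs_le.1 hu.le))
    (fun x hx x' hx' u hu a => by
      rw [abs_sub_comm]
      exact h.hd x hx u (abs_le.1 hu) a x' (uIcc_subset_Icc hx hx')
        (abs_le.2 ⟨by linarith [hx.2, hx'.1], by linarith [hx.1, hx'.2]⟩))
    (fun x hx u hu => h.he x hx u (abs_le.1 hu))

theorem np_box {X K : Set E} {x0 r s : ℝ} (h : NP X K (box x0 r s)) {y : E}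
    (hy : y ∈ ov X (box x0 r s)) (hK : y ∉ K) (h1 : |y.1.re - x0| < r) (h2 : |y.1.im| < s) :
    HULL.NoPeak (ov X (box x0 r s)) y := by
  refine (BRIDGE.noPeak_iff.2 (h.np y hy hK)).mono ?_
  have a : ∀ᶠ x : E in 𝓝 y, |x.1.re - x0| < r :=
    (show Continuous fun x : E => |x.1.re - x0| by fun_prop).continuousAt.eventually
      (gt_mem_nhds h1)
  have b : ∀ᶠ x : E in 𝓝 y, |x.1.im| < s :=
    (show Continuous fun x : E => |x.1.im| by fun_prop).continuousAt.eventually (gt_mem_nhds h2)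
  filter_upwards [a, b] with x a b hx using ⟨hx, a.le, b.le⟩

end ZP

open ZP

theorem st_zp : St_ZP := by
  intro a Λ C0 s ha hs _
  obtain ⟨κ, hκ, hκ1, hκ2⟩ : ∃ κ : ℝ, 0 < κ ∧ κ ≤ 1 / 8 ∧ κ ≤ a / 24 :=
    ⟨min (1 / 8) (a / 24), by positivity, min_le_left _ _, min_le_right _ _⟩
  obtain ⟨ρ, hρ, ⟨r1, r2⟩, r3⟩ := ex_pos (((small 8 one_pos).and (small (12 * |Λ|) ha)).and
    (small (4 * |C0|) hκ))
  obtain ⟨t, ht, ⟨⟨i1, i2⟩, i3⟩, i4⟩ := ex_pos ((((small 1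
    (show 0 < (κ / 512) ^ 2 by positivity)).and (small 24 hρ)).and (small 1 hs)).and (small 512 hκ))
  refine ⟨t, ht, fun X K V g e ι' lev Ψ Ψy he hN hV hg hd hW hlev hK hf thin y0 hy hQ0 => ?_⟩
  have hx0 : |y0.1.re| ≤ 1 / 2 := by simpa using hy.2.1
  have hy0 : y0 ∈ ov X (box 0 1 s) := ⟨hy.1, by simp only [sub_zero]; linarith, hy.2.2⟩
  have p1 := hW.pos
  have p2 := hW.le
  have lip : ∀ z ∈ box 0 1 s, ∀ z' ∈ box 0 1 s, ‖g z' - g z‖ ≤ |Λ| * ‖z' - z‖ := fun z hz z' hz' =>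
    (convex_box 0 1 s).norm_image_sub_le_of_norm_deriv_le
      (fun z hz => (hg z hz).differentiableAt) (fun z hz => (hd z hz).trans (le_abs_self _)) hz hz'
  have hQn : ∀ y : E, ‖pp e (V y) * Complex.exp (g y.1)‖ =
      ‖V y * (V y - e)‖ * Real.exp (g y.1).re := fun y => by
    rw [norm_mul (pp e (V y)), Complex.norm_exp]; rfl
  have t0 := (thin y0 hy0 ((Real.exp_le_exp.2 (by linarith)).trans hQ0)).1
  have e1 : ∀ x : ℝ, 0 ≤ x → x ≤ 3 * κ → Real.exp (-(a / 2)) ≤ (1 - x) ^ 2 := fun x x0 x1 =>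
    (Real.exp_le_exp.2 (by linarith)).trans (exp_le_sq x0 (by linarith))
  have hlev0 : lev ≤ Real.exp (-(a / 2)) * ‖V y0 * (V y0 - e)‖ := by
    refine le_of_mul_le_mul_right ((hlev _ hy0.2).trans ?_) (Real.exp_pos (g y0.1).re)
    rw [mul_assoc, ← hQn]
    refine le_trans ?_ (mul_le_mul_of_nonneg_left hQ0 (Real.exp_pos _).le)
    rw [← Real.exp_add]; exact Real.one_le_exp (by linarith)
  refine HULL.Z59.zp HULL.c2 (K := K) hN.cpt (ζ := Prod.fst) (fun _ _ => analyticAt_fst) hV hy0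
    (pw_conv (pw_mono hW le_rfl (le_abs_self C0))) (κ := κ) (ρ := ρ) (t := t)
    (fun x hx => ?_) he ?_ hκ1 (by linarith) (by linarith) (abs_nonneg _) (by linarith)
    (by linarith)
    (hlev0.trans (mul_le_mul_of_nonneg_right (e1 _ (by positivity) le_rfl) (norm_nonneg _))) t0
    (fun y hy a1 a2 => ?_) (fun a1 a2 => hf y0 hy0
      ((Real.one_lt_exp_iff.2 ha).trans_le hQ0) a1 a2)
  · have := abs_le.1 hx
    have := abs_le.1 hx0
    constructor <;> linarith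
  · intro k
    rw [hQn, k, norm_zero, zero_mul] at hQ0
    linarith [Real.exp_pos a]
  · have b1 : ‖y.1 - y0.1‖ ≤ 3 * ρ := by
      have := norm_add_le (y.1 - y0.1.re) (y0.1.re - y0.1)
      have a3 : ‖(y0.1.re : ℂ) - y0.1‖ = |y0.1.im| := by
        rw [← Complex.abs_im_eq_norm.2 (by simp)]; simp
      rw [sub_add_sub_cancel] at this; linarith
    have b2 : (g y0.1).re - a / 4 ≤ (g y.1).re := by
      have c1 := lip _ hy0.2 _ hy.2
      have c2 := abs_le.1 (Complex.abs_re_le_norm (g y.1 - g y0.1))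
      rw [Complex.sub_re] at c2
      linarith [mul_le_mul_of_nonneg_left b1 (abs_nonneg Λ), c2.1]
    have b3 : Real.exp (a / 4) ≤ ‖pp e (V y) * Complex.exp (g y.1)‖ := by
      have c1 := (mul_le_mul_of_nonneg_right (e1 (2 * κ) (by positivity) (by linarith))
        (norm_nonneg _)).trans (HULL.Z59.pp_lower (by linarith) a2)
      have c2 := mul_le_mul c1 (Real.exp_le_exp.2 b2) (Real.exp_pos _).le (norm_nonneg _)
      rw [hQn]
      refine le_trans ?_ c2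
      rw [sub_eq_add_neg (g y0.1).re, Real.exp_add]
      have c3 := mul_le_mul_of_nonneg_left hQ0
        (mul_pos (Real.exp_pos (-(a / 2))) (Real.exp_pos (-(a / 4)))).le
      rw [hQn, ← Real.exp_add, ← Real.exp_add] at c3
      rw [show -(a / 2) + -(a / 4) + a = a / 4 by ring, Real.exp_add] at c3
      linarith
    obtain ⟨b4, b5⟩ := thin y hy b3
    refine ⟨b4, fun hyK => ⟨b5.trans (mul_le_mul_of_nonneg_right (by linarith) (norm_nonneg _)),
      np_box hN hy hyK ?_ (by linarith)⟩, fun hyK =>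
      hK y hy hyK ((Real.one_lt_exp_iff.2 (by positivity)).trans_le b3)⟩
    have c1 := Complex.abs_re_le_norm (y.1 - y0.1.re)
    simp only [Complex.sub_re, Complex.ofReal_re] at c1
    rw [sub_zero]
    linarith [abs_sub_abs_le_abs_sub y.1.re y0.1.re]

end Pool.Agent.Lib.SH
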