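import Pool.Agent.Lib.SH.B_AMP
import Pool.Agent.Lib.SH.B_AR
import Pool.Agent.Lib.SH.B_AWG
import Pool.Agent.Lib.SH.B_AWS
import Pool.Agent.Lib.SH.B_BRIDGE
import Pool.Agent.Lib.SH.B_CSM
import Pool.Agent.Lib.SH.B_ENDL
import Pool.Agent.Lib.SH.B_ENDP
import Pool.Agent.Lib.SH.B_FIN
import Pool.Agent.Lib.SH.B_FLAT
import Pool.Agent.Lib.SH.B_HTUBE
import Pool.Agent.Lib.SH.B_LBZ
import Pool.Agent.Lib.SH.B_LOCF
import Pool.Agent.Lib.SH.B_MIC2
import Pool.Agent.Lib.SH.B_NL0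
import Pool.Agent.Lib.SH.B_NW
import Pool.Agent.Lib.SH.B_NWB
import Pool.Agent.Lib.SH.B_PB
import Pool.Agent.Lib.SH.B_PP2
import Pool.Agent.Lib.SH.B_PPF
import Pool.Agent.Lib.SH.B_PPS
import Pool.Agent.Lib.SH.B_PROF
import Pool.Agent.Lib.SH.B_PWG
import Pool.Agent.Lib.SH.B_PWS
import Pool.Agent.Lib.SH.B_SHAPE
import Pool.Agent.Lib.SH.B_SL
import Pool.Agent.Lib.SH.B_TH
import Pool.Agent.Lib.SH.B_TRIG
import Pool.Agent.Lib.SH.B_WACT
import Pool.Agent.Lib.SH.B_WBIR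
import Pool.Agent.Lib.SH.B_WCONV
import Pool.Agent.Lib.SH.B_WIND
import Pool.Agent.Lib.SH.B_WNEU
import Pool.Agent.Lib.SH.B_ZP

namespace Pool.Agent.Lib.SH

theorem all_ar : St_AR := st_ar st_nw st_pull st_mpabs
theorem all_sl : St_SL := st_sl all_ar st_trig st_wind
theorem all_endl : St_ENDL := st_endl st_wind
theorem all_pp2 : St_PP2 := st_pp2 st_nw st_pull st_mpabs
theorem all_endp : St_ENDP := st_endp all_pp2
theorem all_endp2 : St_ENDP2 := st_endp2 all_pp2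
theorem all_pb2 : St_PB2 := st_pb2 all_pp2
theorem all_up : St_UP := st_up st_mpre
theorem all_htube : St_HTUBE := st_htube st_usc st_rossi st_lbt
theorem all_zpb : St_ZPB := st_zpb st_zp st_pull
theorem all_nwb : St_NWB := st_nwb st_nw st_pull
theorem all_nl0 : St_NL0 := st_nl0 all_zpb
theorem all_mic2 : St_MIC2 := st_mic2 all_zpb
theorem all_nl0r : St_NL0R := st_nl0r all_nl0 st_pull
theorem all_awg : St_AWG := st_awg st_pwg
theorem all_wbg : St_WBG := st_wbg st_pwg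
theorem all_ppg : St_PPG := st_ppg st_pwg st_ppf
theorem all_aws : St_AWS := st_aws st_pws
theorem all_wbs : St_WBS := st_wbs st_pws
theorem all_pps : St_PPS := st_pps st_pws
theorem all_pps2 : St_PPS2 := st_pps2 st_pws

end Pool.Agent.Lib.SH
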