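import Pool.Agent.Lib.SH.B_LBZ
import Pool.Agent.Lib.SH.B_BASIC
import Pool.Agent.Lib.HULL.Thin
import Pool.Agent.Lib.HULL.Qb

open Set Filter Topology Metric Complex

noncomputable section

namespace Pool.Agent.Lib.SH

namespace MIC1

open HULL HULL.Thin

theorem add_I_ne {z : ℂ} (h : -1 / 2 ≤ z.im) : z + I ≠ 0 := fun h0 => by
  have := congrArg Complex.im h0
  simp at this; linarith

theorem add_I_le (z : ℂ) : ‖z + I‖ ≤ ‖z - I‖ + 2 := by
  have := norm_add_le (z - I) (2 * I)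
  rw [show z - I + 2 * I = z + I by ring] at this
  simpa using this

theorem le_bl {z : ℂ} {ρ : ℝ} (hρ : 0 < ρ) (h : ρ ≤ ‖z - I‖) (hz : z + I ≠ 0) :
    ρ / (ρ + 2) ≤ ‖bl z‖ := by
  rw [bl, norm_div, div_le_div_iff₀ (by linarith) (norm_pos_iff.2 hz)]
  nlinarith [add_I_le z]

theorem bl_le {z : ℂ} (h : -1 / 8 ≤ z.im) : ‖bl z‖ ≤ 4 := by
  have h1 := Complex.im_le_norm (z + I)
  rw [add_im, I_im] at h1
  have h2 := norm_sub_le (z + I) (2 * I)
  rw [show z + I - 2 * I = z - I by ring] at h2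
  simp only [norm_mul, Complex.norm_ofNat, norm_I] at h2
  rw [bl, norm_div, div_le_iff₀ (by linarith)]
  linarith

theorem bl_low {z : ℂ} {L : ℝ} (hL : 3 ≤ L) (h : 1 / (2 * L) ≤ ‖z - I‖) (hz : z + I ≠ 0) :
    Real.exp (-L - 1) ≤ ‖bl z‖ := by
  refine le_trans ?_ (le_bl (by positivity) h hz)
  have h1 := Real.quadratic_le_exp_of_nonneg (x := L + 1) (by linarith)
  have h2 : 1 / (2 * L) / (1 / (2 * L) + 2) = (1 + 4 * L)⁻¹ := by field_simp; ring
  rw [h2, show -L - 1 = -(L + 1) by ring, Real.exp_neg]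
  exact inv_anti₀ (by linarith) (by nlinarith)

theorem half {z : ℂ} {L D : ℝ} (hL : 1000 ≤ L) (hD : |D| ≤ 1 / (100 * L))
    (h1 : 12 / 5 * Real.exp (-L / 2) ≤ ‖z - I‖) (h2 : ‖z - I‖ < 4 * Real.exp (-L / 2)) :
    1 / 2 ≤ z.im + Real.log ‖bl z‖ / L - D := by
  set q := Real.exp (-L / 2) with hq
  have q0 : 0 < q := Real.exp_pos _
  have hL0 : 0 < L := by linarith
  have q1 : q * L * L ≤ 8 := by
    have a1 := Real.quadratic_le_exp_of_nonneg (x := L / 2) (by linarith)
    have a2 : q * Real.exp (L / 2) = 1 := by rw [hq, ← Real.exp_add]; simp [neg_div]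
    nlinarith
  have q2 : q * L ≤ 1 / 100 := by nlinarith
  have q3 : q ≤ 1 / 100 := by nlinarith
  have a1 := abs_le.1 (Complex.abs_im_le_norm (z - I))
  rw [sub_im, I_im] at a1
  have a2 := le_bl (by positivity) h1 (add_I_ne (by linarith [a1.1]))
  have a3 : 11 / 10 * q ≤ ‖bl z‖ := by
    refine le_trans ?_ a2
    rw [le_div_iff₀ (by positivity)]; nlinarith
  have a4 := Real.log_le_log (by positivity) a3
  rw [Real.log_mul (by norm_num) q0.ne', hq, Real.log_exp] at a4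
  have a5 := Real.one_sub_inv_le_log_of_pos (x := 11 / 10) (by norm_num)
  have a6 : D * L ≤ 1 / 100 := by
    have := (le_abs_self D).trans hD
    rw [le_div_iff₀ (by positivity)] at this; linarith
  have a7 : Real.log ‖bl z‖ / L * L = Real.log ‖bl z‖ := div_mul_cancel₀ _ hL0.ne'
  by_contra hc
  rw [not_le] at hc
  have a8 := mul_lt_mul_of_pos_right hc hL0
  have a9 := mul_le_mul_of_nonneg_right (show 1 - 4 * q ≤ z.im by linarith [a1.1]) hL0.le
  norm_num at a5
  nlinarith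

/-- the cluster of arguments containing a given point -/
theorem clus {Z B : Set E} (hZ : IsCompact Z) (hN : ∀ y ∈ Z, y ∉ B → NoPeak Z y) {W : E → ℂ}
    (hW : ∀ y ∈ Z, AnalyticAt ℂ W y) {e α : ℝ} (h0 : 0 < e) (h1 : e ≤ 1 / 10) (a0 : 0 ≤ α)
    (a1 : α ≤ Real.pi / 4)
    (hB : ∀ y ∈ Z, y ∈ B → 1 < ‖W y‖ → (W y).arg = 0 ∨ |(W y).arg - α| ≤ e) {y0 : E} (hy0 : y0 ∈ Z)
    (hy1 : 1 < ‖W y0‖) : ∃ ε > 0, ε ≤ 5 * e ∧ ∃ θ, 0 ≤ θ ∧ θ ≤ Real.pi / 4 ∧
      |(rot θ (W y0)).arg| ≤ ε ∧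
      ∀ y ∈ Z, 1 < ‖W y‖ → |(rot θ (W y)).arg| ≤ ε ∨ 2 * ε ≤ |(rot θ (W y)).arg| := by
  have hpi := Real.pi_gt_three
  have hWc : ContinuousOn W Z := fun y hy => (hW y hy).continuousAt.continuousWithinAt
  have hne : ∀ w : ℂ, 1 < ‖w‖ → w ≠ 0 := fun w hw h => by rw [h, norm_zero] at hw; linarith
  by_cases h : α ≤ 4 * e
  · have k := one_gap c2 hZ hN hWc (fun y hy _ => hW y hy) (e := 5 * e) (by linarith) (by linarith)
      fun y hy hb h' => by
        rcases hB y hy hb h' with a | a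
        · rw [a, abs_zero]; linarith
        · have := abs_le.1 a
          exact abs_le.2 ⟨by linarith, by linarith⟩
    exact ⟨5 * e, by linarith, le_rfl, 0, le_rfl, by linarith, by rw [rot_zero]; exact k y0 hy0 hy1,
      fun y hy h' => Or.inl (by rw [rot_zero]; exact k y hy h')⟩
  rw [not_le] at h
  have k := two_gap c2 hZ hN hWc (fun y hy _ => hW y hy) (J := α) h0 h0 (by linarith) (by linarith)
    fun y hy hb h' => by
      rcases hB y hy hb h' with a | a
      · left; rw [a, abs_zero]; linarith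
      · right
        rw [Thin.abs_arg_le_iff _ h0.le (by linarith), cos_rot (hne _ h') α 0, rot_zero, add_zero,
          ← Real.cos_abs (_ - α)]
        exact Real.cos_le_cos_of_nonneg_of_le_pi (abs_nonneg _) (by linarith) a
  rcases k y0 hy0 hy1 with b | b
  · refine ⟨e, h0, by linarith, 0, le_rfl, by linarith, by rwa [rot_zero], fun y hy h' => ?_⟩
    rcases k y hy h' with a | a
    · left; rwa [rot_zero]
    · right
      have := abs_le.1 a
      rw [Thin.le_abs_arg_iff _ (by linarith) (by linarith), cos_rot (hne _ h') 0 α]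
      exact cos_le_of_mem (by linarith) (by linarith) (by linarith)
  · refine ⟨e, h0, by linarith, α, a0, a1, b, fun y hy h' => ?_⟩
    rcases k y hy h' with a | a
    · right
      have := abs_le.1 a
      rw [Thin.le_abs_arg_iff _ (by linarith) (by linarith), cos_rot (hne _ h') α 0, rot_zero,
        ← Real.cos_neg]
      exact cos_le_of_mem (by linarith) (by linarith) (by linarith)
    · exact Or.inl a

theorem log_rot {A φ θ lv : ℝ} (hlv : 0 < lv) (h1 : |φ - θ| ≤ 3) :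
    log (rot θ (exp (A + I * φ) / lv)) = ⟨A - Real.log lv, φ - θ⟩ := by
  have hpi := Real.pi_gt_three
  have h2 := abs_le.1 h1
  have e : rot θ (exp (A + I * φ) / lv) = exp ⟨A - Real.log lv, φ - θ⟩ := by
    have e1 : (lv : ℂ) = exp (Real.log lv) := by rw [← ofReal_exp, Real.exp_log hlv]
    rw [rot, e1, ← exp_sub, ← exp_add]
    generalize Real.log lv = m
    congr 1
    apply Complex.ext <;> simp [sub_eq_add_neg]
  rw [e, log_exp (by simp only; linarith) (by simp only; linarith)]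

theorem psi_qb (l1 l2 : ℝ) (p q z w : ℂ) :
    ((l1 : ℂ) * (z - p)).im ^ 2 + ((l2 : ℂ) * (w - q)).im ^ 2 - ((l1 : ℂ) * (z - p)).re ^ 2 -
      ((l2 : ℂ) * (w - q)).re ^ 2 = LBZ.psi l1 l2 p q z w := by
  simp [LBZ.psi]

end MIC1

open MIC1 HULL HULL.Thin in
theorem st_mic1 : St_MIC1 := by
  intro c0 CD hc0 hc1
  refine ⟨1000, fun L M' Cth hL hLoc hM => ?_⟩
  have hpi := Real.pi_gt_three
  have hpi' := Real.pi_lt_four
  have hL0 : 0 < L := by linarith
  set k := c0 / (100 * L) with hk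
  have k0 : 0 < k := by positivity
  have k1 : k ≤ 1 / (100 * L) := div_le_div_of_nonneg_right hc1 (by positivity)
  have k2 : k ≤ 1 / 100 := k1.trans (one_div_le_one_div_of_le (by norm_num) (by linarith))
  set e1 := k / (20 * (2 * M' + 6)) with he1
  have e10 : 0 < e1 := by positivity
  have e11 : 20 * (2 * M' + 6) * e1 = k := by rw [he1]; field_simp
  have e12 : e1 ≤ 1 / 20000 := by nlinarith
  have ct := abs_nonneg Cth
  set σ0 := min (k / 2) (e1 / (2 * (|Cth| + 1))) with hσ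
  have s0 : 0 < σ0 := by positivity
  have s1 : σ0 ≤ k / 2 := min_le_left _ _
  have s2 : |Cth| * σ0 ≤ e1 / 2 := by
    have := (le_div_iff₀ (by positivity)).1 (min_le_right (k / 2) (e1 / (2 * (|Cth| + 1))))
    rw [← hσ] at this; nlinarith
  refine ⟨σ0, s0, fun X K P D0 a th Hm hD hH ha hmon hbot hlip hth0 hth hN hup hP hPI hK hK' hX O hO
    hout y1 hy1 hy1K hy1M => ?_⟩
  by_contra hcon
  rw [not_le] at hcon
  set Xo := ov X (closedBall 0 (2 * M')) with hXo
  have hnorm : ∀ y ∈ Xo, ‖y.1‖ ≤ 2 * M' := fun y hy => mem_closedBall_zero_iff.1 hy.2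
  have hsm : ∀ y ∈ Xo, |D0 y.1| ≤ k := fun y hy => hD.small _ (by linarith [hup y hy])
  have hpI : ∀ y ∈ Xo, y.1 + I ≠ 0 := fun y hy => add_I_ne (by linarith [hup y hy])
  have hab : ∀ s ∈ Ioc 0 Hm, ∀ t ∈ Ioc 0 Hm, |t - s| ≤ σ0 * |a t - a s| := by
    intro s hs t ht
    have := (LBZ.two_sided (a := a) (th := fun _ => 0) (J := Ioc 0 Hm) (inv_pos.2 s0)
      (fun u hu t ht h => by
        have := hmon u t hu.1 h ht.2
        have h2 : 0 ≤ (t - u) / σ0 := div_nonneg (sub_nonneg.2 h) s0.le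
        exact ⟨by rwa [← div_eq_inv_mul], by simp only [sub_self, abs_zero]; linarith⟩) hs ht).1
    rwa [inv_inv] at this
  have hsol : ∀ v, v ≤ a Hm → ∃ t ∈ Ioc 0 Hm, a t = v := by
    intro v hv
    obtain ⟨s, hs1, hs2⟩ := ((hbot.eventually (eventually_le_atBot v)).and
      (Ioc_mem_nhdsGT hH)).exists
    obtain ⟨t, ht, hat⟩ := intermediate_value_Icc hs2.2
      (ha.mono fun t ht => ⟨hs2.1.trans_le ht.1, ht.2⟩) ⟨hs1, hv⟩
    exact ⟨t, ⟨hs2.1.trans_le ht.1, ht.2⟩, hat⟩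
  -- the supremum
  set T : Set ℝ := (fun y => ‖P y‖) '' {y | y ∈ Xo ∧ y ∉ K} with hT
  have hy1o : y1 ∈ Xo := ⟨hy1, mem_closedBall_zero_iff.2 (by linarith)⟩
  have hTn : T.Nonempty := ⟨_, y1, ⟨hy1o, hy1K⟩, rfl⟩
  have hTu : ∀ v ∈ T, v ≤ Real.exp (a Hm - 2) := by
    rintro _ ⟨y, hy, rfl⟩; exact hX y hy.1 hy.2
  have hub : ∀ y ∈ Xo, y ∉ K → ‖P y‖ ≤ sSup T := fun y hy hyK => le_csSup ⟨_, hTu⟩ ⟨y, ⟨hy, hyK⟩, rfl⟩
  have hM0 : sSup T ≤ Real.exp (a Hm - 2) := csSup_le hTn hTu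
  have ex1 := Real.exp_pos 1
  have ex2 : 1 < Real.exp 1 := Real.one_lt_exp_iff.2 one_pos
  obtain ⟨lv, hlv⟩ : ∃ lv, sSup T = Real.exp 1 * lv := ⟨sSup T / Real.exp 1, by field_simp⟩
  have hOl : O < lv := lt_of_mul_lt_mul_left (hcon.trans_le (hlv ▸ hub y1 hy1o hy1K)) ex1.le
  have lv0 : 0 < lv := hO.trans_lt hOl
  have hlog : Real.log lv ≤ a Hm - 3 := by
    rw [Real.log_le_iff_le_exp lv0, show a Hm - 3 = a Hm - 2 - 1 by ring, Real.exp_sub,
      le_div_iff₀ ex1]
    linarith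
  obtain ⟨_, ⟨y0, ⟨hy0, hy0K⟩, rfl⟩, hy0b⟩ := exists_lt_of_lt_csSup hTn
    (show Real.exp (7 / 8) * lv < sSup T by
      rw [hlv]; exact mul_lt_mul_of_pos_right (Real.exp_lt_exp.2 (by norm_num)) lv0)
  simp only at hy0b
  set W : E → ℂ := fun y => P y / lv with hW
  have hWn : ∀ y, ‖W y‖ * lv = ‖P y‖ := fun y => by
    simp only [hW, norm_div, norm_real, Real.norm_of_nonneg lv0.le]; field_simp
  have hWa : ∀ y ∈ Xo, AnalyticAt ℂ W y := fun y hy => (hP y hy).div_const
  have hWub : ∀ y ∈ Xo, y ∉ K → ‖W y‖ ≤ Real.exp 1 := fun y hy hyK =>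
    le_of_mul_le_mul_right (by rw [hWn, ← hlv]; exact hub y hy hyK) lv0
  have hW0 : Real.exp (7 / 8) < ‖W y0‖ := lt_of_mul_lt_mul_right (by rwa [hWn]) lv0.le
  have ex3 : 1 < Real.exp (7 / 8) := Real.one_lt_exp_iff.2 (by norm_num)
  have ex4 : Real.exp 1 < Real.exp (3 / 2) := Real.exp_lt_exp.2 (by norm_num)
  have hWout : ∀ y ∈ Xo, y ∉ K → M' ≤ ‖y.1‖ → ‖W y‖ ≤ 1 := fun y hy hyK h =>
    le_of_mul_le_mul_right (by rw [hWn]; linarith [hout y hy.1 hyK h (hnorm y hy)]) lv0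
  have hz0 : ‖y0.1‖ < M' := by
    by_contra h; linarith [hWout y0 hy0 hy0K (not_lt.1 h)]
  have hPne : ∀ y, 0 < ‖W y‖ → P y ≠ 0 := fun y h h' => by simp [hW, h'] at h
  have hneI : ∀ y ∈ Xo, 0 < ‖W y‖ → y.1 ≠ I := fun y hy h h' => by
    obtain ⟨G, -, hG⟩ := hPI y hy.1 h'
    exact hPne y h (by rw [hG.self_of_nhds, h', sub_self, zero_mul])
  set Z : Set E := {y | y ∈ Xo ∧ ‖W y‖ ≤ Real.exp (3 / 2)} with hZ
  have hZc : IsCompact Z := hN.cpt.of_isClosed_subset (hN.cpt.isClosed.isClosed_le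
    (fun y hy => (hWa y hy).continuousAt.norm.continuousWithinAt) continuousOn_const) fun y h => h.1
  set B : Set E := K ∪ {y | ‖y.1‖ = 2 * M'} with hB
  have hint : ∀ y ∈ Z, y ∉ B → ∀ᶠ x in 𝓝 y, x ∈ X → x ∈ Z := by
    intro y hy hb
    have b1 : ‖y.1‖ < 2 * M' := lt_of_le_of_ne (hnorm y hy.1) fun h => hb (Or.inr h)
    have b2 := (hWub y hy.1 fun h => hb (Or.inl h)).trans_lt ex4
    filter_upwards [(continuous_fst.norm.continuousAt (x := y)).eventually (gt_mem_nhds b1),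
      (hWa y hy.1).continuousAt.norm.eventually (gt_mem_nhds b2)] with x c1 c2 hx
    exact ⟨⟨hx, mem_closedBall_zero_iff.2 c1.le⟩, c2.le⟩
  have hNZ : ∀ y ∈ Z, y ∉ B → NoPeak Z y := fun y hy hb =>
    (BRIDGE.noPeak_iff.2 (hN.np y hy.1 fun h => hb (Or.inl h))).mono (hint y hy hb)
  have hBK : ∀ y ∈ Z, y ∈ B → 1 < ‖W y‖ → y ∈ K := fun y hy hb h => by
    by_contra h'
    have : ‖y.1‖ = 2 * M' := hb.resolve_left h'
    linarith [hWout y hy.1 h' (by linarith)]
  have hy0Z : y0 ∈ Z := ⟨hy0, by linarith [hWub y0 hy0 hy0K]⟩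
  obtain ⟨η, hη, haη⟩ := hsol (Real.log lv) (by linarith)
  set ph : ℂ → ℝ := fun z => if ‖z - I‖ < 4 * Real.exp (-L / 2) then th (hgt L D0 z) else 0 with hph
  have hbw : ∀ z, bw L D0 a th z = exp (a (hgt L D0 z) + I * ph z) := fun z => by
    simp only [bw, hph]
  have hph0 : ∀ z, 0 ≤ ph z ∧ ph z ≤ Real.pi / 4 := fun z => by
    simp only [hph]; split_ifs
    · exact hth _
    · exact ⟨le_rfl, by linarith⟩
  -- wall points
  have hwall : ∀ y ∈ Z, y ∈ K → 1 < ‖W y‖ → hgt L D0 y.1 ∈ Ioc 0 Hm ∧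
      |hgt L D0 y.1 - η| ≤ 3 / 2 * σ0 ∧ ∀ θ, 0 ≤ θ → θ ≤ Real.pi / 4 →
        log (rot θ (W y)) = ⟨a (hgt L D0 y.1) - Real.log lv, ph y.1 - θ⟩ := by
    intro y hy hyK h
    obtain ⟨-, b1, b2, b3⟩ := hK y hy.1 hyK (hPne y (by linarith))
    have b4 : hgt L D0 y.1 ≤ Hm := by
      by_contra h'
      have c1 := b3 (not_le.1 h')
      rw [← hWn] at c1
      have c2 : lv ≤ Real.exp (a Hm - 3) := (Real.log_le_iff_le_exp lv0).1 hlog
      have c3 : Real.exp (3 / 2) * Real.exp (a Hm - 3) < Real.exp (a Hm) := by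
        rw [← Real.exp_add]; exact Real.exp_lt_exp.2 (by linarith)
      have c4 := mul_le_mul hy.2 c2 lv0.le (Real.exp_pos _).le
      linarith
    have b5 : ∀ θ, 0 ≤ θ → θ ≤ Real.pi / 4 →
        log (rot θ (W y)) = ⟨a (hgt L D0 y.1) - Real.log lv, ph y.1 - θ⟩ := fun θ t0 t1 => by
      simp only [hW]
      rw [b2 b4, hbw, log_rot lv0 (abs_le.2 ⟨by linarith [hph0 y.1], by linarith [hph0 y.1]⟩)]
    refine ⟨⟨b1, b4⟩, ?_, b5⟩
    have b6 := congrArg Complex.re (b5 0 le_rfl (by linarith))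
    rw [log_re, Thin.norm_rot] at b6
    simp only at b6
    have b7 := hab η hη _ ⟨b1, b4⟩
    have b8 := Real.log_pos h
    have b9 := (Real.log_le_iff_le_exp (by linarith)).2 hy.2
    rw [haη, ← b6, abs_of_pos b8] at b7
    nlinarith
  have hhup : ∀ y ∈ Xo, y.1.im + Real.log ‖bl y.1‖ / L ≤ 2 * M' + 1 := fun y hy => by
    have b1 := (Complex.im_le_norm y.1).trans (hnorm y hy)
    have b2 : Real.log ‖bl y.1‖ ≤ L :=
      (Real.log_le_self (norm_nonneg _)).trans (by linarith [bl_le (hup y hy)])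
    have b3 := (div_le_one hL0).2 b2
    linarith
  have hηb : η ≤ 2 * M' + 3 := by
    by_contra h
    have := maxabs c2 hZc (ψ := fun y => ‖W y‖) (b := 1)
      (fun y hy => (hWa y hy.1).continuousAt.norm.continuousWithinAt) (fun y hy h' => by
        refine ⟨hNZ y hy fun hb => h ?_, W, hWa y hy.1, Eventually.of_forall fun _ _ => rfl⟩
        have b1 := abs_le.1 (hwall y hy (hBK y hy hb h') h').2.1
        have b2 := hhup y hy.1
        have b3 := abs_le.1 (hsm y hy.1)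
        unfold hgt at b1
        linarith [b1.1, b3.1]) y0 hy0Z
    linarith
  -- Schwarz lemma
  have hsch : ∀ y ∈ Z, 1 ≤ ‖W y‖ → Real.exp (-L - 4) ≤ ‖bl y.1‖ := by
    have hFa : ∀ y ∈ Xo, AnalyticAt ℂ (fun x : E => W x ^ 2 * (x.1 + I) / (x.1 - I)) y := by
      intro y hy
      by_cases h : y.1 = I
      · obtain ⟨G, hG, hG'⟩ := hPI y hy.1 h
        refine AnalyticAt.congr (f := fun x : E => (x.1 - I) * (G x / lv) ^ 2 * (x.1 + I))
          (((analyticAt_fst.sub analyticAt_const).mul (hG.div_const.pow 2)).mul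
            (analyticAt_fst.add analyticAt_const)) ?_
        filter_upwards [hG'] with x hx
        simp only [hW, hx]
        by_cases h' : x.1 - I = 0
        · simp [h']
        · field_simp
      · exact (((hWa y hy).pow 2).mul (analyticAt_fst.add analyticAt_const)).div
          (analyticAt_fst.sub analyticAt_const) (sub_ne_zero.2 h)
    have hFn : ∀ y ∈ Xo, y.1 ≠ I → ‖W y ^ 2 * (y.1 + I) / (y.1 - I)‖ * ‖bl y.1‖ = ‖W y‖ ^ 2 := by
      intro y hy h
      have b1 := hpI y hy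
      have b2 := sub_ne_zero.2 h
      rw [← norm_mul, ← norm_pow, bl]; congr 1; field_simp
    have key := maxabs c2 hZc (ψ := fun x => ‖W x ^ 2 * (x.1 + I) / (x.1 - I)‖) (b := Real.exp (L + 4))
      (fun y hy => (hFa y hy.1).continuousAt.norm.continuousWithinAt) (fun y hy h => by
        refine ⟨hNZ y hy fun hb => ?_, _, hFa y hy.1, Eventually.of_forall fun _ _ => rfl⟩
        have b0 : 0 < ‖W y‖ := norm_pos_iff.2 fun h' => by
          simp only [h'] at h; norm_num at h; linarith [Real.exp_pos (L + 4)]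
        have b1 : Real.exp (-L - 1) ≤ ‖bl y.1‖ := by
          by_cases h' : 1 / (2 * L) ≤ ‖y.1 - I‖
          · exact bl_low (by linarith) h' (hpI y hy.1)
          rw [not_le] at h'
          have c0' : 1 / (2 * L) ≤ 1 := (div_le_one (by linarith)).2 (by linarith)
          have c1 : y ∈ K := hb.resolve_right fun h2 => by
            have h3 : ‖y.1‖ = 2 * M' := h2
            have := norm_sub_norm_le y.1 I
            rw [norm_I] at this; linarith
          have c2 := (hK y hy.1 c1 (hPne y b0)).2.1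
          have c3 := Complex.im_le_norm (y.1 - I)
          rw [sub_im, I_im] at c3
          have c4 := (abs_le.1 ((hsm y hy.1).trans k1)).1
          have c5 : 0 < ‖bl y.1‖ :=
            norm_pos_iff.2 (div_ne_zero (sub_ne_zero.2 (hneI y hy.1 b0)) (hpI y hy.1))
          rw [← Real.le_log_iff_exp_le c5]
          unfold hgt at c2
          have c6 : -(1 + 1 / L) ≤ Real.log ‖bl y.1‖ / L := by
            have : 1 / (2 * L) + 1 / (100 * L) ≤ 1 / L := by
              rw [div_add_div _ _ (by positivity) (by positivity),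
                div_le_div_iff₀ (by positivity) hL0]
              nlinarith
            linarith
          rw [le_div_iff₀ hL0] at c6
          have c7 : -(1 + 1 / L) * L = -L - 1 := by field_simp; ring
          linarith
        have b2 := hFn y hy.1 (hneI y hy.1 b0)
        have b3 : ‖W y‖ ^ 2 ≤ Real.exp (3 / 2) ^ 2 := pow_le_pow_left₀ b0.le hy.2 2
        have b4 : Real.exp (3 / 2) ^ 2 = Real.exp (L + 4) * Real.exp (-L - 1) := by
          rw [sq, ← Real.exp_add, ← Real.exp_add]; congr 1; ring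
        have b5 := mul_lt_mul_of_pos_right h (Real.exp_pos (-L - 1))
        have b6 := mul_le_mul_of_nonneg_left b1 (norm_nonneg (W y ^ 2 * (y.1 + I) / (y.1 - I)))
        linarith)
    intro y hy h
    have b1 := hFn y hy.1 (hneI y hy.1 (by linarith))
    have b2 := mul_le_mul_of_nonneg_right (key y hy) (norm_nonneg (bl y.1))
    have b3 : 1 ≤ Real.exp (L + 4) * ‖bl y.1‖ := by nlinarith
    rw [show -L - 4 = -(L + 4) by ring, Real.exp_neg, inv_le_iff_one_le_mul₀ (Real.exp_pos _)]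
    linarith
  -- clusters
  have hlip' : ∀ s t, |th s - th t| ≤ |Cth| * |s - t| := fun s t =>
    (hlip s t).trans (mul_le_mul_of_nonneg_right (le_abs_self _) (abs_nonneg _))
  obtain ⟨ε, ε0, ε1, θ, θ0, θ1, hc0', hgap⟩ := clus hZc hNZ (fun y hy => hWa y hy.1) e10 (by linarith)
    (hth η).1 (hth η).2 (fun y hy hb h => by
      obtain ⟨-, b1, b2⟩ := hwall y hy (hBK y hy hb h) h
      have b3 := congrArg Complex.im (b2 0 le_rfl (by linarith))
      rw [log_im, rot_zero] at b3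
      simp only [sub_zero, hph] at b3
      rw [b3]
      split_ifs
      · right
        have := mul_le_mul_of_nonneg_left b1 ct
        nlinarith [hlip' (hgt L D0 y.1) η]
      · exact Or.inl rfl) hy0Z (by linarith)
  have hthin : ∀ y ∈ Z, Real.exp (1 / 2) ≤ ‖W y‖ → |(rot θ (W y)).arg| ≤ ε →
      |y.1.im + Real.log ‖bl y.1‖ / L - η| ≤ 3 * k := by
    have hNPZ : NPZ X K Z := ⟨hZc, fun y hy => hy.1.1, fun y hy => hN.np y hy.1⟩
    have hlre : LRe (fun y : E => y.1.im + Real.log ‖bl y.1‖ / L - η)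
        {y | y ∈ Z ∧ 1 ≤ ‖W y‖ ∧ |arg (W y * exp (-(I * θ)))| ≤ ε} :=
      ((LRe.im fun y _ => analyticAt_fst).add ((LRe.log_norm (F := fun y : E => bl y.1)
        (fun y hy => (analyticAt_fst.sub analyticAt_const).div (analyticAt_fst.add analyticAt_const)
          (hpI y hy.1.1)) fun y hy => div_ne_zero
            (sub_ne_zero.2 (hneI y hy.1.1 (by linarith [hy.2.1]))) (hpI y hy.1.1)).div_const L)).sub
        (LRe.const η _)
    have hx : Real.exp (-(1 / 2) / ε) ≤ 10 * e1 := by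
      have b1 := Real.add_one_le_exp (1 / 2 / ε)
      have b2 : 1 / 2 / ε * (2 * ε) = 1 := by field_simp
      rw [neg_div, Real.exp_neg, inv_le_iff_one_le_mul₀ (Real.exp_pos _)]
      have b3 : 2 * ε * (1 / 2 / ε) ≤ 10 * e1 * Real.exp (1 / 2 / ε) :=
        mul_le_mul (by linarith) (by linarith) (by positivity) (by positivity)
      linarith
    have gen : ∀ s : ℝ, |s| = 1 → ∀ y ∈ Z, Real.exp (1 / 2) ≤ ‖W y‖ → |(rot θ (W y)).arg| ≤ ε →
        s * (y.1.im + Real.log ‖bl y.1‖ / L - η) ≤ 3 * k := by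
      intro s hs y hy h1 h2
      have hsb : ∀ v b : ℝ, |v| ≤ b → s * v ≤ b := fun v b hb =>
        (le_abs_self _).trans (by rw [abs_mul, hs, one_mul]; exact hb)
      have := st_conf X K Z W _ ε θ (2 * k) (2 * M' + 6) (1 / 2) hNPZ (fun y hy => hWa y hy.1) ε0
        (by linarith) (by linarith) hgap (hlre.const_mul s) (fun x hx g1 _ => hsb _ _ (by
          have b1 := hhup x hx.1
          have b2 := (Real.le_log_iff_exp_le ((Real.exp_pos _).trans_le (hsch x hx g1))).2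
            (hsch x hx g1)
          have b3 : -2 ≤ Real.log ‖bl x.1‖ / L := by rw [le_div_iff₀ hL0]; linarith
          exact abs_le.2 ⟨by linarith [hup x hx.1], by linarith [hη.1]⟩))
        (fun x hx g1 _ => hsb _ _ (by
          have b0 : x ∈ B := by
            by_contra hb
            exact hx.2.elim (fun h => hb (Or.inl h)) fun h => h (hint x hx.1 hb)
          have b1 := abs_le.1 (hwall x hx.1 (hBK x hx.1 b0 g1) g1).2.1
          have b2 := abs_le.1 (hsm x hx.1.1)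
          unfold hgt at b1
          exact abs_le.2 ⟨by linarith [b1.1, b2.1], by linarith [b1.2, b2.2]⟩))
        y hy (by norm_num) h1 h2
      have b1 := mul_le_mul (show 2 * (2 * M' + 6 - 2 * k) ≤ 2 * (2 * M' + 6) by linarith) hx
        (Real.exp_pos _).le (by linarith)
      linarith
    intro y hy h1 h2
    exact abs_le.2 ⟨by linarith [gen (-1) (by simp) y hy h1 h2], by linarith [gen 1 (by simp) y hy h1 h2]⟩
  -- the local chart
  obtain ⟨r, r0, r1, r2, G, hG, hGi, hGs, hGD, -⟩ := hLoc D0 hD y0.1 (by linarith [hup y0 hy0])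
    (hsch y0 hy0Z (by linarith))
  have hy0r : y0.1 ∈ closedBall y0.1 r := mem_closedBall_self r0.le
  obtain ⟨tl, tl1, tl2⟩ : ∃ tl : ℝ → ℝ, (∀ z ∈ closedBall y0.1 r, ph z = tl (hgt L D0 z)) ∧
      ∀ s t, |tl s - tl t| ≤ |Cth| * |s - t| := by
    by_cases h : ∀ z ∈ closedBall y0.1 r, ‖z - I‖ < 4 * Real.exp (-L / 2)
    · exact ⟨th, fun z hz => if_pos (h z hz), hlip'⟩
    push Not at h
    obtain ⟨z', hz', h⟩ := h
    refine ⟨fun _ => 0, fun z hz => ?_, fun s t => by simp only [sub_self, abs_zero]; positivity⟩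
    simp only [hph]
    split_ifs with h1
    · have b1 := norm_sub_norm_le (z' - I) (y0.1 - I)
      have b2 := norm_sub_norm_le (y0.1 - I) (z - I)
      rw [sub_sub_sub_cancel_right] at b1 b2
      rw [norm_sub_rev y0.1 z] at b2
      have b3 := mem_closedBall_iff_norm.1 hz
      have b4 := mem_closedBall_iff_norm.1 hz'
      have b5 := abs_le.1 ((Complex.abs_im_le_norm (z - y0.1)).trans b3)
      rw [sub_im] at b5
      exact hth0 _ (half hL ((hD.small z (by linarith [hup y0 hy0, b5.1])).trans k1) (by linarith) h1)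
    · rfl
  have w0 := (Real.lt_log_iff_exp_lt (by linarith)).2 hW0
  have w1 := (Real.log_le_iff_le_exp (by linarith)).2 (hWub y0 hy0 hy0K)
  obtain ⟨Hs, hHs, haH⟩ := hsol (Real.log lv + Real.log ‖W y0‖) (by linarith)
  have hHη : |Hs - η| ≤ σ0 := by
    have := hab η hη Hs hHs
    rw [haH, haη, add_sub_cancel_left, abs_of_pos (show 0 < Real.log ‖W y0‖ by linarith)] at this
    nlinarith
  set l1 := (50 * k)⁻¹ with hl1
  have l10 : 0 < l1 := by positivity
  have l11 : l1 * k = 1 / 50 := by rw [hl1]; field_simp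
  have l12 : l1 * (c0 / L) = 2 := by rw [hl1, hk]; field_simp; norm_num
  set p : ℂ := ⟨(G y0.1).re, Hs + D0 y0.1⟩ with hp
  set Z3 : Set E := {y | y ∈ Z ∧ 1 ≤ ‖rot θ (W y)‖ ∧ |(rot θ (W y)).arg| ≤ ε} ∩
    {y | y.1 ∈ closedBall y0.1 r} with hZ3
  have hQa : ∀ y ∈ Z, AnalyticAt ℂ (fun x => rot θ (W x)) y := fun y hy =>
    (hWa y hy.1).mul analyticAt_const
  have hQc : ContinuousOn (fun x => rot θ (W x)) Z := fun y hy =>
    (hQa y hy).continuousAt.continuousWithinAt
  have hZ3c : IsCompact Z3 := hZc.of_isClosed_subset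
    ((isClosed_sector hZc.isClosed hQc (by linarith)).inter
      (isClosed_closedBall.preimage continuous_fst)) fun y h => h.1.1
  have hGa : ∀ y ∈ Z3, AnalyticAt ℂ (fun x : E => G x.1) y := fun y hy =>
    AnalyticAt.comp (g := G) (f := Prod.fst) (hG _ hy.2) analyticAt_fst
  have hy03 : y0 ∈ Z3 := ⟨⟨hy0Z, by rw [Thin.norm_rot]; linarith, hc0'⟩, hy0r⟩
  have him : ∀ y ∈ Z3, 1 / 2 ≤ Real.log ‖W y‖ → |l1 * ((G y.1).im - p.im)| ≤ 1 / 10 := by
    intro y hy h
    have b0 : 0 < ‖W y‖ := by have := hy.1.2.1; rw [Thin.norm_rot] at this; linarith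
    have b1 := abs_le.1 (hthin y hy.1.1 ((Real.le_log_iff_exp_le b0).1 h) hy.1.2.2)
    have b2 := abs_le.1 hHη
    have b3 := abs_le.1 (hsm y0 hy0)
    have b4 : |(G y.1).im - p.im| ≤ 5 * k := by
      rw [hGi _ hy.2]; simp only [hp]
      exact abs_le.2 ⟨by linarith [b1.1, b2.2, b3.2], by linarith [b1.2, b2.1, b3.1]⟩
    rw [abs_mul, abs_of_pos l10]
    nlinarith
  have key : ∀ τ b : ℝ, |τ| ≤ 7 * e1 → -1 / 2 ≤ b →
      (∀ y ∈ Z3, y ∈ K → 1 < ‖W y‖ →
        LBZ.psi l1 8 p ⟨Real.log ‖W y0‖, τ⟩ (G y.1) (log (rot θ (W y))) ≤ b) →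
      (l1 * ((G y0.1).im - p.im)) ^ 2 + (8 * ((rot θ (W y0)).arg - τ)) ^ 2 ≤ b := by
    intro τ b hτ hb hwb
    have hlg : ∀ y ∈ Z3, ‖((8 : ℝ) : ℂ) * (log (rot θ (W y)) - ⟨Real.log ‖W y0‖, τ⟩)‖ ≤ 1 →
        3 / 4 ≤ Real.log ‖W y‖ ∧ 1 < ‖W y‖ := by
      intro y hy h
      have b1 := abs_le.1 ((Complex.abs_re_le_norm _).trans h)
      rw [re_ofReal_mul, sub_re, log_re, Thin.norm_rot] at b1
      simp only at b1
      have b2 : 3 / 4 ≤ Real.log ‖W y‖ := by linarith [b1.1]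
      exact ⟨b2, (Real.log_pos_iff (norm_nonneg _)).1 (by linarith)⟩
    have hτ' := abs_le.1 hτ
    have := Z59.qb c2 (K := K) hZ3c (ξ := fun y => (l1 : ℂ) * (G y.1 - p))
      (η := fun y => ((8 : ℝ) : ℂ) * (log (rot θ (W y)) - ⟨Real.log ‖W y0‖, τ⟩))
      (fun y hy => analyticAt_const.mul ((hGa y hy).sub analyticAt_const))
      (fun y hy => analyticAt_const.mul (AnalyticAt.sub (f := fun x => log (rot θ (W x)))
        (g := fun _ => (⟨Real.log ‖W y0‖, τ⟩ : ℂ)) ((hQa y hy.1.1).clog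
        (slit_of_arg (by linarith) hy.1.2.1 hy.1.2.2)) analyticAt_const)) hb
      (fun y hy _ g2 => by
        have b1 := him y hy (by linarith [(hlg y hy g2).1])
        have b2 := abs_le.1 hy.1.2.2
        rw [im_ofReal_mul, im_ofReal_mul, sub_im, sub_im, log_im]
        exact ⟨by linarith, abs_le.2 ⟨by simp only; linarith [b2.1], by simp only; linarith [b2.2]⟩⟩)
      (fun y hy _ g2 hyK => by
        rw [psi_qb]; exact hwb y hy hyK (hlg y hy g2).2)
      (fun y hy g1 g2 hyK => by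
        have b0 := mem_closedBall_iff_norm.1 (show y.1 ∈ closedBall y0.1 r from hy.2)
        have b1 : ‖y.1 - y0.1‖ < r := lt_of_le_of_ne b0 fun h => by
          have c1 := mul_le_mul_of_nonneg_left (hGs y.1 (mem_sphere_iff_norm.2 h)) l10.le
          have c2 := him y0 hy03 (by linarith)
          have c3 := norm_sub_le ((l1 : ℂ) * (G y.1 - p)) ((l1 : ℂ) * (G y0.1 - p))
          rw [← mul_sub, sub_sub_sub_cancel_right, norm_mul, norm_real,
            Real.norm_of_nonneg l10.le] at c3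
          have c4 := Complex.norm_le_abs_re_add_abs_im ((l1 : ℂ) * (G y0.1 - p))
          rw [re_ofReal_mul, im_ofReal_mul, sub_re, sub_im] at c4
          simp only [hp, sub_self, mul_zero, abs_zero] at c4 c2 c3 g1
          linarith
        have b2 : y ∉ B := fun h => h.elim hyK fun h' => by
          have c1 : ‖y.1‖ = 2 * M' := h'
          linarith [norm_sub_norm_le y.1 y0.1]
        refine (hNZ y hy.1.1 b2).mono ?_
        filter_upwards [ev_sector (hQc y hy.1.1) (g := ε) (g' := 2 * ε) (by linarith)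
          (by rw [Thin.norm_rot]; exact (hlg y hy g2).2) hy.1.2.2 (by linarith [hy.1.2.2]),
          ((continuous_fst.sub continuous_const).norm.continuousAt (x := y)).eventually
            (gt_mem_nhds b1)] with x c1 c2 hx
        have c3 := (c1 hx).1
        exact ⟨⟨hx, c3.le, (hgap x hx (by rwa [Thin.norm_rot] at c3)).resolve_right
          (not_le.2 (c1 hx).2)⟩, mem_closedBall_iff_norm.2 c2.le⟩) y0 hy03
      (by
        have c2 := him y0 hy03 (by linarith)
        have c4 := Complex.norm_le_abs_re_add_abs_im ((l1 : ℂ) * (G y0.1 - p))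
        rw [re_ofReal_mul, im_ofReal_mul, sub_re, sub_im] at c4
        simp only [hp, sub_self, mul_zero, abs_zero] at c4 c2 ⊢
        linarith)
      (by
        refine (Complex.norm_le_abs_re_add_abs_im _).trans ?_
        have b2 := abs_le.1 hc0'
        rw [re_ofReal_mul, im_ofReal_mul, sub_re, sub_im, log_re, log_im, Thin.norm_rot]
        simp only [sub_self, mul_zero, abs_zero, zero_add]
        exact abs_le.2 ⟨by linarith [b2.1], by linarith [b2.2]⟩)
    rw [psi_qb] at this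
    simpa [LBZ.psi, log_re, log_im, Thin.norm_rot, hp] using this
  have hwl : ∀ y ∈ Z3, y ∈ K → 1 < ‖W y‖ →
      log (rot θ (W y)) = ⟨a (hgt L D0 y.1) - Real.log lv, tl (hgt L D0 y.1) - θ⟩ ∧
      |hgt L D0 y.1 - Hs| ≤ σ0 * |a (hgt L D0 y.1) - Real.log lv - Real.log ‖W y0‖| ∧
      |hgt L D0 y.1 - Hs| ≤ 5 / 2 * σ0 := by
    intro y hy hyK h
    obtain ⟨b1, b2, b3⟩ := hwall y hy.1.1 hyK h
    have b4 := abs_le.1 b2
    have b5 := abs_le.1 hHη
    refine ⟨by rw [b3 θ θ0 θ1, tl1 _ hy.2], ?_,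
      abs_le.2 ⟨by linarith [b4.1, b5.2], by linarith [b4.2, b5.1]⟩⟩
    have := hab Hs hHs _ b1
    rwa [haH, ← sub_sub] at this
  by_cases hτ : |tl Hs - θ| ≤ 7 * e1
  swap
  · have := key 0 (-1 / 2) (by rw [abs_zero]; linarith) le_rfl fun y hy hyK h => by
      obtain ⟨b1, -, b3⟩ := hwl y hy hyK h
      have b4 := congrArg Complex.im b1
      rw [log_im] at b4
      have b5 := abs_le.1 hy.1.2.2
      have b6 := abs_le.1 ((tl2 (hgt L D0 y.1) Hs).trans (mul_le_mul_of_nonneg_left b3 ct))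
      simp only at b4
      exact absurd (abs_le.2 ⟨by nlinarith [b5.1, b6.2], by nlinarith [b5.2, b6.1]⟩) hτ
    nlinarith [sq_nonneg (l1 * ((G y0.1).im - p.im)), sq_nonneg (8 * ((rot θ (W y0)).arg - 0))]
  have hfin := key (tl Hs - θ) ((l1 * ((G y0.1).im - p.im)) ^ 2 / 3) hτ
    (by nlinarith [sq_nonneg (l1 * ((G y0.1).im - p.im))]) fun y hy hyK h => by
      obtain ⟨b1, b2, -⟩ := hwl y hy hyK h
      have := LBZ.wall (l1 := l1) (l2 := 8) (k := σ0) (dh := hgt L D0 y.1 - Hs) (dd := D0 y.1 - D0 y0.1)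
        (p := p) (q := ⟨Real.log ‖W y0‖, tl Hs - θ⟩) (z := G y.1) (w := log (rot θ (W y)))
        (z0 := G y0.1) l10.le (by norm_num) (by nlinarith) rfl
        (by rw [hGi _ hy.2]; simp only [hp, hgt]; ring) (by rw [b1]; exact b2) (hGD _ hy.2) (by
          rw [b1]; simp only [sub_sub_sub_cancel_right]
          have c1 := (tl2 (hgt L D0 y.1) Hs).trans (mul_le_mul_of_nonneg_left b2 ct)
          have c2 := mul_le_mul_of_nonneg_right (show |Cth| * σ0 ≤ 1 / 2 by linarith)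
            (abs_nonneg (a (hgt L D0 y.1) - Real.log lv - Real.log ‖W y0‖))
          linarith)
      nlinarith [sq_nonneg (l1 * ((G y.1).re - p.re)),
        sq_nonneg (8 * ((log (rot θ (W y))).re - Real.log ‖W y0‖))]
  have a1 := sq_nonneg (l1 * ((G y0.1).im - p.im))
  have a2 := sq_nonneg (8 * ((rot θ (W y0)).arg - (tl Hs - θ)))
  have b1 : (l1 * ((G y0.1).im - p.im)) ^ 2 = 0 := by linarith
  have b2 : (8 * ((rot θ (W y0)).arg - (tl Hs - θ))) ^ 2 = 0 := by linarith
  have c1 := sub_eq_zero.1 ((mul_eq_zero.1 (pow_eq_zero_iff two_ne_zero |>.1 b1)).resolve_left l10.ne')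
  have c2 := sub_eq_zero.1 ((mul_eq_zero.1 (pow_eq_zero_iff two_ne_zero |>.1 b2)).resolve_left
    (by norm_num))
  have c3 : hgt L D0 y0.1 = Hs := by
    rw [hGi _ hy0r] at c1; simp only [hp] at c1; unfold hgt; linarith
  refine hy0K (hK' y0 hy0 (hneI y0 hy0 (by linarith)) (c3 ▸ hHs.1) (c3 ▸ hHs.2) ?_)
  rw [hbw, tl1 _ hy0r, c3, haH]
  have d1 := norm_mul_exp_arg_mul_I (rot θ (W y0))
  rw [c2, Thin.norm_rot] at d1
  have d2 : P y0 = lv * (rot θ (W y0) * exp (I * θ)) := by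
    rw [rot, mul_assoc, ← exp_add, neg_add_cancel, exp_zero, mul_one]
    have : (lv : ℂ) ≠ 0 := ofReal_ne_zero.2 lv0.ne'
    simp only [hW]; field_simp
  rw [d2, ← d1, exp_add, ← ofReal_exp, Real.exp_add, Real.exp_log lv0, Real.exp_log (by linarith),
    mul_assoc, ← exp_add]
  push_cast
  rw [mul_assoc]
  congr 3; ring

end Pool.Agent.Lib.SH
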