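import Pool.Agent.Lib.SH.Blue1b
import Pool.Agent.Lib.SH.B_BASIC
import Pool.Agent.Lib.SH.B_BRIDGE

/-! The neutral lemma without loss. -/

open Set Filter Topology Metric

noncomputable section

namespace Pool.Agent.Lib.SH

namespace NL2

/-- harmonic majorant of the arc in the upper half disc -/
def hm (w : ℂ) : ℝ := (w ^ 2 - 2 * Complex.I * w).re

lemma hm_ge {w : ℂ} (h0 : 0 ≤ w.im) (h1 : ‖w‖ ≤ 1) : ‖w‖ ^ 2 ≤ hm w := by
  have a := (le_abs_self _).trans ((Complex.abs_im_le_norm w).trans h1)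
  rw [Complex.sq_norm, Complex.normSq_apply]
  simp only [hm, sq, Complex.sub_re, Complex.mul_re, Complex.mul_im, Complex.re_ofNat,
    Complex.im_ofNat, Complex.I_re, Complex.I_im]
  nlinarith

lemma hm_le {w : ℂ} (h1 : ‖w‖ ≤ 1) : hm w ≤ 3 * ‖w‖ := by
  refine (Complex.re_le_norm _).trans ((norm_sub_le _ _).trans ?_)
  have := norm_nonneg w
  simp only [norm_pow, norm_mul, Complex.norm_ofNat, Complex.norm_I]
  nlinarith

/-- the standing hypotheses, with the upper bound `b` -/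
structure Hyp (X K : Set E) (Q : E → ℂ) (ι t0 ρ O b : ℝ) : Prop where
  np : NP X K (closedBall 0 ρ)
  up : ∀ y ∈ ov X (closedBall 0 ρ), 0 ≤ y.1.im
  an : AnalyticOnNhd ℂ Q (ov X (closedBall 0 ρ))
  cls : ∀ y ∈ ov X (closedBall 0 ρ), y ∈ K → 4 ≤ ‖y.1‖ → Q y = 0 ∨
    (y.1.im ≤ t0 ∧ |(Q y).im| ≤ ι * ‖Q y‖)
  i0 : 0 ≤ ι
  O0 : 0 ≤ O
  b0 : 0 < b
  hO : ∀ y ∈ X, y ∉ K → ρ / 8 ≤ ‖y.1‖ → ‖y.1‖ ≤ ρ → ‖Q y‖ ≤ O
  hb : ∀ y ∈ X, y ∉ K → 4 ≤ ‖y.1‖ → ‖y.1‖ ≤ ρ → ‖Q y‖ ≤ b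

variable {X K : Set E} {Q : E → ℂ} {ι t0 ρ O b : ℝ}

lemma Hyp.neg (h : Hyp X K Q ι t0 ρ O b) : Hyp X K (fun y => -Q y) ι t0 ρ O b :=
  ⟨h.np, h.up, h.an.neg, fun y h1 h2 h3 => by simpa using h.cls y h1 h2 h3, h.i0, h.O0, h.b0,
    fun y h1 h2 h3 h4 => by simpa using h.hO y h1 h2 h3 h4,
    fun y h1 h2 h3 h4 => by simpa using h.hb y h1 h2 h3 h4⟩

lemma Hyp.im_le (h : Hyp X K Q ι t0 ρ O b) {y : E} (hy : y ∈ X) (h4 : 4 ≤ ‖y.1‖) (hρ : ‖y.1‖ ≤ ρ)
    (hq : ‖Q y‖ ≤ 2 * b) : (Q y).im ≤ 12 * b / ‖y.1‖ + 3 * O * ‖y.1‖ / ρ + 2 * ι * b := by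
  have ρ0 : 0 < ρ := by linarith
  let Z : Set E := {x | x ∈ ov X (closedBall 0 ρ) ∧ 4 ≤ ‖x.1‖ ∧ ‖Q x‖ ≤ 2 * b}
  have hZ : NPZ X K Z := by
    refine ⟨?_, fun x hx => hx.1.1, fun x hx => h.np.np x hx.1⟩
    have c1 : ContinuousOn (fun x : E => (‖x.1‖, ‖Q x‖)) (ov X (closedBall 0 ρ)) :=
      (by fun_prop : Continuous fun x : E => ‖x.1‖).continuousOn.prodMk h.an.continuousOn.norm
    exact h.np.cpt.of_isClosed_subset (c1.preimage_isClosed_of_isClosed h.np.cpt.isClosed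
      (isClosed_Ici.prod isClosed_Iic)) fun x hx => hx.1
  have ne0 : ∀ x ∈ Z, x.1 ≠ 0 := fun x hx h0 => by
    have := hx.2.1
    rw [h0, norm_zero] at this
    linarith
  have n1 : ∀ x ∈ Z, ‖-4 / x.1‖ = 4 / ‖x.1‖ := fun x _ => by simp
  have n2 : ∀ x ∈ Z, ‖x.1 / ρ‖ = ‖x.1‖ / ρ := fun x _ => by simp [abs_of_pos ρ0]
  have l1 : ∀ x ∈ Z, ‖-4 / x.1‖ ≤ 1 := fun x hx => by
    rw [n1 x hx, div_le_one (by linarith [hx.2.1])]; exact hx.2.1
  have l2 : ∀ x ∈ Z, ‖x.1 / ρ‖ ≤ 1 := fun x hx => by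
    rw [n2 x hx, div_le_one ρ0]; exact mem_closedBall_zero_iff.1 hx.1.2
  have g1 : ∀ x ∈ Z, ‖-4 / x.1‖ ^ 2 ≤ hm (-4 / x.1) := fun x hx => by
    refine hm_ge ?_ (l1 x hx)
    have a := h.up x hx.1
    have a2 := Complex.normSq_nonneg x.1
    rw [Complex.div_im]
    simp only [Complex.neg_im, Complex.im_ofNat, neg_zero, zero_mul, zero_div, Complex.neg_re,
      Complex.re_ofNat, neg_mul, zero_sub, neg_div, neg_neg]
    positivity
  have g2 : ∀ x ∈ Z, ‖x.1 / ρ‖ ^ 2 ≤ hm (x.1 / ρ) := fun x hx => by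
    refine hm_ge ?_ (l2 x hx)
    rw [Complex.div_ofReal_im]
    exact div_nonneg (h.up x hx.1) ρ0.le
  have lre : ∀ {a : E → ℂ}, AnalyticOnNhd ℂ a Z → LRe (fun x => hm (a x)) Z := fun ha =>
    LRe.re ((ha.pow 2).sub (analyticOnNhd_const.mul ha))
  have key := st_mpre X K Z (fun x => (Q x).im - b * hm (-4 / x.1) - O * hm (x.1 / ρ))
    (2 * ι * b) hZ (((LRe.im (h.an.mono fun x hx => hx.1)).sub ((lre fun x hx =>
      analyticAt_const.div analyticAt_fst (ne0 x hx)).const_mul b)).sub ((lre fun x _ =>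
      analyticAt_fst.div_const).const_mul O)) (by
      rintro x ⟨hx, hK⟩
      have p1 := mul_le_mul_of_nonneg_left (g1 x hx) h.b0.le
      have p2 := mul_le_mul_of_nonneg_left (g2 x hx) h.O0
      have p3 : 0 ≤ b * ‖-4 / x.1‖ ^ 2 := mul_nonneg h.b0.le (sq_nonneg _)
      have p4 : 0 ≤ O * ‖x.1 / ρ‖ ^ 2 := mul_nonneg h.O0 (sq_nonneg _)
      have p5 : 0 ≤ ι * b := mul_nonneg h.i0 h.b0.le
      have p6 := (le_abs_self _).trans (Complex.abs_im_le_norm (Q x))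
      have xρ := mem_closedBall_zero_iff.1 hx.1.2
      by_cases hk : x ∈ K
      · rcases h.cls x hx.1 hk hx.2.1 with h0 | h0
        · rw [h0, Complex.zero_im]; linarith
        · have := mul_le_mul_of_nonneg_left hx.2.2 h.i0
          linarith [le_abs_self (Q x).im, h0.2]
      · have hb := h.hb x hx.1.1 hk hx.2.1 xρ
        rcases hx.2.1.eq_or_lt with e | e
        · rw [n1 x hx, ← e] at p1
          linarith
        rcases xρ.eq_or_lt with e' | e'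
        · have := h.hO x hx.1.1 hk (by linarith) xρ
          rw [n2 x hx, e', div_self ρ0.ne'] at p2
          linarith
        refine absurd ?_ (hK.resolve_left hk)
        have c1 : ContinuousAt (fun x : E => ‖x.1‖) x := by fun_prop
        filter_upwards [c1.eventually (lt_mem_nhds e), c1.eventually (gt_mem_nhds e'),
          (h.an x hx.1).continuousAt.norm.eventually
            (gt_mem_nhds (show ‖Q x‖ < 2 * b by linarith [h.b0]))] with v v1 v2 v3 hv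
        exact ⟨⟨hv, mem_closedBall_zero_iff.2 v2.le⟩, v1.le, v3.le⟩)
  have yZ : y ∈ Z := ⟨⟨hy, mem_closedBall_zero_iff.2 hρ⟩, h4, hq⟩
  have k1 := key y yZ
  have k2 := mul_le_mul_of_nonneg_left (hm_le (l1 y yZ)) h.b0.le
  have k3 := mul_le_mul_of_nonneg_left (hm_le (l2 y yZ)) h.O0
  rw [n1 y yZ] at k2
  rw [n2 y yZ] at k3
  have e1 : b * (3 * (4 / ‖y.1‖)) = 12 * b / ‖y.1‖ := by ring
  have e2 : O * (3 * (‖y.1‖ / ρ)) = 3 * O * ‖y.1‖ / ρ := by ring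
  linarith

lemma Hyp.high (h : Hyp X K Q ι t0 ρ O b) {y : E} (hy : y ∈ X) (h4 : 4 ≤ y.1.im) (ht : t0 < y.1.im)
    (hρ : ‖y.1‖ ≤ ρ) : (y ∈ K → Q y = 0) ∧
      |(Q y).im| ≤ 12 * b / ‖y.1‖ + 3 * O * ‖y.1‖ / ρ + 2 * ι * b := by
  have h5 : 4 ≤ ‖y.1‖ := h4.trans ((le_abs_self _).trans (Complex.abs_im_le_norm _))
  have h6 : y ∈ K → Q y = 0 := fun hk =>
    (h.cls y ⟨hy, mem_closedBall_zero_iff.2 hρ⟩ hk h5).resolve_right fun h0 => by linarith [h0.1]
  have h7 : ‖Q y‖ ≤ 2 * b := by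
    by_cases hk : y ∈ K
    · rw [h6 hk, norm_zero]; linarith [h.b0]
    · linarith [h.hb y hy hk h5 hρ, h.b0]
  refine ⟨h6, abs_le.2 ⟨?_, h.im_le hy h5 hρ h7⟩⟩
  have := h.neg.im_le hy h5 hρ (by simpa using h7)
  simp only [Complex.neg_im] at this
  linarith

lemma near {c z : ℂ} {r : ℝ} (h : ‖z - c‖ ≤ r) :
    c.im - r ≤ z.im ∧ ‖z‖ ≤ |c.re| + |c.im| + r := by
  have a1 := abs_le.1 ((Complex.abs_im_le_norm (z - c)).trans h)
  have a2 := norm_add_le (z - c) c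
  have a3 := Complex.norm_le_abs_re_add_abs_im c
  rw [sub_add_cancel] at a2
  rw [Complex.sub_im] at a1
  constructor <;> linarith [a1.1]

lemma Hyp.step (h : Hyp X K Q ι t0 ρ O b) {c : ℂ} {m S : ℝ} (h16 : 16 ≤ c.im) (ht : 4 * t0 < c.im)
    (hu : c.im ≤ 2 * ρ / 5) (hx : |c.re| ≤ ρ / 4) (hS : |c.re| ≤ S * c.im) (hm0 : 0 ≤ m)
    (H : ∀ y ∈ X, ‖y.1 - c‖ ≤ c.im / 4 → (Q y).re ≤ m) :
    ∀ y ∈ X, ‖y.1 - c‖ ≤ 5 * c.im / 8 →
      (Q y).re ≤ m + 23 * (48 * b / c.im + 3 * O * (S + 2) * c.im / ρ + 2 * ι * b) := by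
  have ρ0 : 0 < ρ := by linarith
  have c0 : 0 < c.im := by linarith
  have S0 : 0 ≤ S := by
    by_contra hh
    nlinarith [abs_nonneg c.re, not_le.1 hh]
  have := h.O0
  have := h.b0
  have := h.i0
  have e0 : 0 < 48 * b / c.im + 3 * O * (S + 2) * c.im / ρ + 2 * ι * b := by positivity
  intro y hy hd
  rcases le_or_gt ‖y.1 - c‖ (c.im / 4) with h1 | h1
  · linarith [H y hy h1]
  let Z : Set E := ov X (closedBall 0 ρ) ∩ {x | c.im / 4 ≤ ‖x.1 - c‖ ∧ ‖x.1 - c‖ ≤ 3 * c.im / 4}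
  have cn : Continuous fun x : E => ‖x.1 - c‖ := by fun_prop
  have hZ : NPZ X K Z := NPZ.inter h.np
    ((isClosed_le continuous_const cn).and (isClosed_le cn continuous_const))
  have inb : ∀ x : E, ‖x.1 - c‖ ≤ 3 * c.im / 4 → c.im / 4 ≤ x.1.im ∧ ‖x.1‖ ≤ ρ ∧
      ‖x.1‖ ≤ (S + 2) * c.im := fun x hx => by
    obtain ⟨a1, a2⟩ := near hx
    rw [abs_of_pos c0] at a2
    refine ⟨?_, ?_, ?_⟩ <;> linarith
  have hi : ∀ x ∈ Z, (x ∈ K → Q x = 0) ∧
      |(Q x).im| ≤ 48 * b / c.im + 3 * O * (S + 2) * c.im / ρ + 2 * ι * b := fun x hx => by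
    obtain ⟨a1, a2, a3⟩ := inb x hx.2.2
    obtain ⟨a4, a5⟩ := h.high hx.1.1 (by linarith) (by linarith) a2
    refine ⟨a4, a5.trans ?_⟩
    have a6 : c.im / 4 ≤ ‖x.1‖ := a1.trans ((le_abs_self _).trans (Complex.abs_im_le_norm _))
    have a7 : 12 * b / ‖x.1‖ ≤ 12 * b / (c.im / 4) :=
      div_le_div_of_nonneg_left (by positivity) (by positivity) a6
    have a8 : 3 * O * ‖x.1‖ / ρ ≤ 3 * O * ((S + 2) * c.im) / ρ := by gcongr
    have a9 : 12 * b / (c.im / 4) = 48 * b / c.im := by field_simp; norm_num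
    rw [mul_assoc (3 * O)]
    linarith
  have lg : ∀ x : E, c.im / 4 ≤ ‖x.1 - c‖ →
      Real.log (3 * c.im / 4) - Real.log ‖x.1 - c‖ = Real.log (3 * c.im / 4 / ‖x.1 - c‖) :=
    fun x hx => (Real.log_div (by positivity) (by linarith)).symm
  have key := st_tr X K Z Q (fun x => (Real.log (3 * c.im / 4) - Real.log ‖x.1 - c‖) / 2) _ m hZ
    (h.an.mono fun x hx => hx.1)
    (((LRe.const _ Z).sub (LRe.log_norm (F := fun x : E => x.1 - c)
      (fun x _ => analyticAt_fst.sub analyticAt_const) fun x hx h0 => by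
        have := hx.2.1
        simp only [h0, norm_zero] at this
        linarith)).div_const 2) e0 (fun x hx => (hi x hx).2) (by
      rintro x ⟨hx, hK⟩
      have o1 : (Real.log (3 * c.im / 4) - Real.log ‖x.1 - c‖) / 2 ≤ 1 := by
        rw [lg x hx.2.1]
        have a1 := Real.log_le_sub_one_of_pos (x := 3 * c.im / 4 / ‖x.1 - c‖)
          (div_pos (by positivity) (by linarith [hx.2.1]))
        have a2 : 3 * c.im / 4 / ‖x.1 - c‖ ≤ 3 := by
          rw [div_le_iff₀ (by linarith [hx.2.1])]; linarith [hx.2.1]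
        linarith
      by_cases hk : x ∈ K
      · exact Or.inr ⟨o1, by rw [(hi x hx).1 hk]; exact hm0⟩
      rcases hx.2.1.eq_or_lt with e | e
      · exact Or.inr ⟨o1, H x hx.1.1 e.ge⟩
      rcases hx.2.2.eq_or_lt with e' | e'
      · left; rw [e']; simp
      refine absurd ?_ (hK.resolve_left hk)
      have c1 : ContinuousAt (fun x : E => ‖x.1 - c‖) x := by fun_prop
      filter_upwards [c1.eventually (lt_mem_nhds e), c1.eventually (gt_mem_nhds e')] with v v1 v2 hv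
      exact ⟨⟨hv, mem_closedBall_zero_iff.2 (inb v v2.le).2.1⟩, v1.le, v2.le⟩)
  have o2 : 1 / 12 ≤ (Real.log (3 * c.im / 4) - Real.log ‖y.1 - c‖) / 2 := by
    have a1 := Real.log_le_sub_one_of_pos (x := ‖y.1 - c‖ / (3 * c.im / 4))
      (div_pos (by linarith) (by positivity))
    have a2 : ‖y.1 - c‖ / (3 * c.im / 4) ≤ 5 / 6 := by
      rw [div_le_iff₀ (by positivity)]; linarith
    rw [Real.log_div (by linarith) (by positivity)] at a1
    linarith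
  have k1 := key y ⟨⟨hy, mem_closedBall_zero_iff.2 (inb y (by linarith)).2.1⟩, h1.le, by linarith⟩
    (by linarith)
  generalize (Real.log (3 * c.im / 4) - Real.log ‖y.1 - c‖) / 2 = w at o2 k1
  have a1 := Real.log_le_sub_one_of_pos (x := 2 / w) (by positivity)
  have a2 : 2 / w ≤ 24 := by rw [div_le_iff₀ (by positivity)]; linarith
  have a3 := mul_le_mul_of_nonneg_left (show Real.log (2 / w) ≤ 23 by linarith) e0.le
  linarith

lemma Hyp.chain (h : Hyp X K Q ι t0 ρ O b) {x S : ℝ} (hx : |x| ≤ ρ / 4) (n : ℕ) :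
    ∀ v : ℝ, 16 ≤ v → 4 * t0 < v → v ≤ 2 * ρ / 5 → |x| ≤ S * v → ρ / 5 ≤ 2 ^ n * v →
      ∀ y ∈ X, ‖y.1 - ⟨x, v⟩‖ ≤ v / 4 → (Q y).re ≤
        O + 23 * (48 * b / v + 6 * O * (S + 2) * (1 - v / ρ) + 4 * ι * b * Real.log (ρ / v)) := by
  have := h.O0
  have := h.b0
  have := h.i0
  have pos : ∀ v : ℝ, 16 ≤ v → v ≤ 2 * ρ / 5 → |x| ≤ S * v → 0 ≤ S ∧
      0 ≤ 48 * b / v + 6 * O * (S + 2) * (1 - v / ρ) + 4 * ι * b * Real.log (ρ / v) := by
    intro v h1 h2 h3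
    have S0 : 0 ≤ S := by
      by_contra hh
      nlinarith [abs_nonneg x, not_le.1 hh]
    have a1 : 0 ≤ 1 - v / ρ := by
      rw [sub_nonneg, div_le_one (by linarith)]; linarith
    have a2 : 0 ≤ Real.log (ρ / v) := Real.log_nonneg (by
      rw [le_div_iff₀ (by linarith)]; linarith)
    have v0 : 0 < v := by linarith
    exact ⟨S0, by positivity⟩
  have base : ∀ v : ℝ, 16 ≤ v → 4 * t0 < v → v ≤ 2 * ρ / 5 → |x| ≤ S * v → ρ / 5 ≤ v →
      ∀ y ∈ X, ‖y.1 - ⟨x, v⟩‖ ≤ v / 4 → (Q y).re ≤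
        O + 23 * (48 * b / v + 6 * O * (S + 2) * (1 - v / ρ) + 4 * ι * b * Real.log (ρ / v)) := by
    intro v h1 h2 h3 h4 h5 y hy hd
    obtain ⟨a1, a2⟩ := near hd
    simp only [abs_of_pos (show 0 < v by linarith)] at a1 a2
    have a3 := (pos v h1 h3 h4).2
    by_cases hk : y ∈ K
    · rw [(h.high hy (by linarith) (by linarith) (by linarith)).1 hk, Complex.zero_re]
      linarith
    · have a4 := h.hO y hy hk
        (by linarith [(le_abs_self _).trans (Complex.abs_im_le_norm y.1)]) (by linarith)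
      linarith [Complex.re_le_norm (Q y)]
  induction n with
  | zero => intro v h1 h2 h3 h4 h5; exact base v h1 h2 h3 h4 (by simpa using h5)
  | succ n ih =>
    intro v h1 h2 h3 h4 h5
    rcases le_or_gt (ρ / 5) v with h6 | h6
    · exact base v h1 h2 h3 h4 h6
    obtain ⟨S0, -⟩ := pos v h1 h3 h4
    have h7 : |x| ≤ S * (2 * v) := by nlinarith
    have t0' : 4 * t0 < 2 * v := by linarith
    intro y hy hd
    have k := h.step (c := ⟨x, 2 * v⟩) (S := S) (show (16 : ℝ) ≤ 2 * v by linarith) t0'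
      (show 2 * v ≤ 2 * ρ / 5 by linarith) hx h7
      (by linarith [(pos (2 * v) (by linarith) (by linarith) h7).2])
      (ih (2 * v) (by linarith) t0' (by linarith) h7 (by rw [pow_succ] at h5; linarith)) y hy (by
        have a1 := norm_add_le (y.1 - ⟨x, v⟩) ((⟨x, v⟩ : ℂ) - ⟨x, 2 * v⟩)
        have a2 : ‖(⟨x, v⟩ : ℂ) - ⟨x, 2 * v⟩‖ = v := by
          rw [show (⟨x, v⟩ : ℂ) - ⟨x, 2 * v⟩ = ((-v : ℝ) : ℂ) * Complex.I from
            Complex.ext (by simp) (by simp; ring)]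
          simp [abs_of_pos (show 0 < v by linarith)]
        rw [sub_add_sub_cancel, a2] at a1
        change ‖y.1 - ⟨x, 2 * v⟩‖ ≤ 5 * (2 * v) / 8
        linarith)
    have v0 : 0 < v := by linarith
    have ρ0 : 0 < ρ := by linarith
    have e1 : Real.log (ρ / v) = Real.log (ρ / (2 * v)) + Real.log 2 := by
      rw [← Real.log_mul (by positivity) (by norm_num)]
      congr 1; field_simp
    have e2 : 48 * b / v = 48 * b / (2 * v) + 48 * b / (2 * v) := by field_simp; norm_num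
    have e3 : 6 * O * (S + 2) * (1 - v / ρ) =
        6 * O * (S + 2) * (1 - 2 * v / ρ) + 3 * O * (S + 2) * (2 * v) / ρ := by field_simp; ring
    have e4 : ι * b * (1 / 2) ≤ ι * b * Real.log 2 :=
      mul_le_mul_of_nonneg_left (by linarith [Real.log_two_gt_d9]) (by positivity)
    rw [e1, e2, e3]
    simp only at k
    linarith

lemma Hyp.sector (h : Hyp X K Q ι t0 ρ O b) {S v0 c0 : ℝ} (hv : 16 ≤ v0) (ht : 4 * t0 < v0)
    (hc : ι * (1 + Real.log ρ) ≤ c0) {y : E} (hy : y ∈ X) (h1 : v0 ≤ y.1.im)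
    (h2 : y.1.im ≤ 2 * ρ / 5) (h3 : |y.1.re| ≤ ρ / 4) (h4 : |y.1.re| ≤ S * y.1.im) :
    ‖Q y‖ ≤ (4 + 138 * (S + 2)) * O + (1116 / v0 + 92 * c0) * b := by
  have := h.O0
  have := h.b0
  have := h.i0
  have y0 : 0 < y.1.im := by linarith
  have ρ0 : 0 < ρ := by linarith
  have S0 : 0 ≤ S := by
    by_contra hh
    nlinarith [abs_nonneg y.1.re, not_le.1 hh]
  obtain ⟨n, hn⟩ := pow_unbounded_of_one_lt (ρ / 5 / y.1.im) (one_lt_two (α := ℝ))
  rw [div_lt_iff₀ y0] at hn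
  have hd : ‖y.1 - ⟨y.1.re, y.1.im⟩‖ ≤ y.1.im / 4 := by
    rw [Complex.eta, sub_self, norm_zero]; positivity
  have a1 := h.chain h3 n y.1.im (by linarith) (by linarith) h2 h4 hn.le y hy hd
  have a2 := h.neg.chain h3 n y.1.im (by linarith) (by linarith) h2 h4 hn.le y hy hd
  have nρ : ‖y.1‖ ≤ ρ := by
    have := Complex.norm_le_abs_re_add_abs_im y.1
    rw [abs_of_pos y0] at this
    linarith
  have a3 := (h.high hy (by linarith) (by linarith [h.b0]) nρ).2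
  have a4 := Complex.norm_le_abs_re_add_abs_im (Q y)
  simp only [Complex.neg_re] at a2
  have a5 := abs_le.2 ⟨neg_le.1 a2, a1⟩
  have b1 : b / y.1.im ≤ b / v0 := div_le_div_of_nonneg_left (by positivity) (by linarith) h1
  have b2 : b / ‖y.1‖ ≤ b / v0 := div_le_div_of_nonneg_left (by positivity) (by linarith)
    (h1.trans ((le_abs_self _).trans (Complex.abs_im_le_norm _)))
  have b3 : O * (‖y.1‖ / ρ) ≤ O * 1 :=
    mul_le_mul_of_nonneg_left ((div_le_one ρ0).2 nρ) h.O0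
  have b4 : 0 ≤ O * (S + 2) * (y.1.im / ρ) := by positivity
  have b5 : ι * b * Real.log (ρ / y.1.im) ≤ ι * b * Real.log ρ :=
    mul_le_mul_of_nonneg_left (Real.log_le_log (by positivity) (div_le_self ρ0.le (by linarith)))
      (by positivity)
  have b6 := mul_le_mul_of_nonneg_right hc h.b0.le
  have b7 : 0 ≤ ι * b := by positivity
  simp only [mul_div_assoc] at a3 a5
  have e : (1116 / v0 + 92 * c0) * b = 1116 * (b / v0) + 92 * (c0 * b) := by ring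
  rw [e]
  nlinarith

lemma improve {σ M7 M' : ℝ} (hσ : 0 < σ) (hσ1 : σ ≤ 1) (h : Hyp X K Q ι t0 ρ O b)
    (nw : NWP (X \ K) Q 384 σ M7 (ρ / 2)) (hc : ι * (1 + Real.log ρ) ≤ 1 / 80000) (ht : 0 < t0)
    (h7 : 4 ≤ M7) (hM : 2 * M7 + 16 / σ * (1000000 + 4 * t0) ≤ M') {y : E} (hy : y ∈ X) (hk : y ∉ K)
    (h1 : M' ≤ ‖y.1‖) (h2 : ‖y.1‖ ≤ ρ) : ‖Q y‖ ≤ 32 * (4 + 138 * (16 / σ + 2)) * O + b / 6 := by
  have := h.O0
  have := h.b0
  have s1 : 16 ≤ 16 / σ := by rw [le_div_iff₀ hσ]; linarith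
  have p0 : 0 ≤ (4 + 138 * (16 / σ + 2)) * O := by positivity
  rcases le_or_gt (ρ / 8) ‖y.1‖ with h3 | h3
  · nlinarith [h.hO y hy hk h3 h2]
  have sec : ∀ x ∈ X, σ * ‖y.1‖ / 16 ≤ x.1.im → x.1.im ≤ 2 * ρ / 5 → |x.1.re| ≤ ρ / 4 →
      |x.1.re| ≤ 16 / σ * x.1.im → ‖Q x‖ ≤ (4 + 138 * (16 / σ + 2)) * O + b / 384 := by
    intro x hx a1 a2 a3 a4
    have a5 : 1000000 + 4 * t0 ≤ σ * ‖y.1‖ / 16 := by
      have : 16 / σ * (1000000 + 4 * t0) ≤ ‖y.1‖ := by linarith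
      rw [div_mul_eq_mul_div, div_le_iff₀ hσ] at this
      linarith
    have a6 := h.sector (v0 := 1000000 + 4 * t0) (by linarith) (by linarith) hc hx (a5.trans a1)
      a2 a3 a4
    have a7 : 1116 / (1000000 + 4 * t0) ≤ 1116 / 1000000 :=
      div_le_div_of_nonneg_left (by norm_num) (by norm_num) (by linarith)
    nlinarith
  have r1 := Complex.abs_re_le_norm y.1
  have r2 := (le_abs_self _).trans (Complex.abs_im_le_norm y.1)
  have r3 := Complex.norm_le_abs_re_add_abs_im y.1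
  have i0 := h.up y ⟨hy, mem_closedBall_zero_iff.2 h2⟩
  have n0 := norm_nonneg y.1
  rw [abs_of_nonneg i0] at r3
  rcases le_or_gt (σ * ‖y.1‖ / 16) y.1.im with h4 | h4
  · have := sec y hy h4 (by linarith) (by linarith) (by
      rw [div_mul_eq_mul_div, le_div_iff₀ hσ]; nlinarith)
    linarith
  have r4 : σ * ‖y.1‖ ≤ ‖y.1‖ := by nlinarith
  have r5 : ‖y.1‖ ≤ 2 * |y.1.re| := by linarith
  have r6 : σ * ‖y.1‖ ≤ σ * (2 * |y.1.re|) := mul_le_mul_of_nonneg_left r5 hσ.le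
  have r7 : σ * |y.1.re| ≤ |y.1.re| := by nlinarith [abs_nonneg y.1.re]
  have M0 : 0 ≤ 16 / σ * (1000000 + 4 * t0) := by positivity
  have bx : ∀ x ∈ ov (X \ K) (box y.1.re (|y.1.re| / 8) (σ * (|y.1.re| / 8))),
      7 * |y.1.re| / 8 ≤ |x.1.re| ∧ |x.1.re| ≤ 9 * |y.1.re| / 8 := fun x hx => by
    have a1 := abs_abs_sub_abs_le_abs_sub x.1.re y.1.re
    have a2 := abs_le.1 (a1.trans hx.2.1)
    constructor <;> linarith [a2.1, a2.2]
  have k := nw y.1.re (by linarith) (by linarith) b ((4 + 138 * (16 / σ + 2)) * O + b / 384)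
    (fun x hx => by
      have a1 := bx x hx
      have a2 := Complex.norm_le_abs_re_add_abs_im x.1
      have a3 := Complex.abs_re_le_norm x.1
      have a4 : 16 * 1000000 ≤ 16 / σ * (1000000 + 4 * t0) :=
        mul_le_mul s1 (by linarith) (by norm_num) (by positivity)
      have a5 := hx.2.2
      exact h.hb x hx.1.1 hx.1.2 (by linarith) (by linarith))
    (fun x hx e => by
      have a1 := bx x hx
      refine sec x hx.1.1 (by linarith) (by linarith) (by linarith) ?_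
      rw [e, div_mul_eq_mul_div, le_div_iff₀ hσ]
      nlinarith [abs_nonneg y.1.re])
    y ⟨⟨hy, hk⟩, by simp only [sub_self, abs_zero]; positivity, by
      rw [abs_of_nonneg i0]; linarith⟩
  rw [max_eq_left (by linarith)] at k
  linarith

end NL2

theorem st_nl2 : St_NL2 := by
  refine ⟨384, by norm_num, fun σ hσ hσ1 => ⟨192 * (4 + 138 * (16 / σ + 2)), ?_, 1 / 80000,
    by norm_num, fun t0 M7 ht h7 => ⟨2 * M7 + 16 / σ * (1000000 + 4 * t0), ?_, ?_⟩⟩⟩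
  · have : 0 < 16 / σ := by positivity
    linarith
  · have : 0 < 16 / σ * (1000000 + 4 * t0) := by positivity
    linarith
  intro X K Q ι ρ h i0 hc hρ O O0 hO
  have M0 : 0 < 16 / σ * (1000000 + 4 * t0) := by positivity
  obtain ⟨B, hB⟩ := h.np.cpt.exists_bound_of_continuousOn h.an.continuousOn
  let T : Set ℝ := {s | ∃ y ∈ X, y ∉ K ∧ ‖y.1‖ ≤ ρ ∧ 1 / 2 ≤ ‖y.1 - Complex.I‖ ∧ s = ‖Q y‖}
  have Tb : BddAbove T := ⟨B, by
    rintro _ ⟨y, h1, -, h2, -, rfl⟩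
    exact hB y ⟨h1, mem_closedBall_zero_iff.2 h2⟩⟩
  intro y hy hk h1 h2
  have ym : ‖Q y‖ ≤ sSup T := le_csSup Tb ⟨y, hy, hk, h1, h2, rfl⟩
  have s0 : 0 ≤ sSup T := (norm_nonneg _).trans ym
  have p0 : 0 ≤ (4 + 138 * (16 / σ + 2)) * O := by positivity
  have key : ∀ η > 0, sSup T ≤ 192 * (4 + 138 * (16 / σ + 2)) * O + η := by
    intro η hη
    have H : NL2.Hyp X K Q ι t0 ρ O (sSup T + η) :=
      ⟨h.np, h.up, h.an, h.cls, i0, O0, by linarith, hO, fun x a1 a2 a3 a4 => by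
        have a5 := norm_sub_norm_le x.1 Complex.I
        rw [Complex.norm_I] at a5
        linarith [le_csSup Tb (show ‖Q x‖ ∈ T from ⟨x, a1, a2, a4, by linarith, rfl⟩)]⟩
    have im := fun x a1 a2 a3 a4 =>
      NL2.improve hσ hσ1 H h.nw hc ht h7 le_rfl (y := x) a1 a2 a3 a4
    have e3 : Real.exp 1 ≤ 3 := by linarith [Real.exp_one_lt_d9]
    have A0 : 0 ≤ 32 * (4 + 138 * (16 / σ + 2)) * O + (sSup T + η) / 6 := by positivity
    have : sSup T ≤ 3 * (32 * (4 + 138 * (16 / σ + 2)) * O + (sSup T + η) / 6) := by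
      refine csSup_le ⟨_, y, hy, hk, h1, h2, rfl⟩ ?_
      rintro _ ⟨x, a1, a2, a3, a4, rfl⟩
      rcases le_total ‖x.1‖ (2 * M7 + 16 / σ * (1000000 + 4 * t0)) with a5 | a5
      · exact (h.mic _ (fun z hz b1 b2 => im z hz.1 hz.2 b1 (by linarith)) x ⟨a1, a2⟩ a5 a4).trans
          (mul_le_mul_of_nonneg_right e3 A0)
      · linarith [im x a1 a2 a5 a3]
    linarith
  exact ym.trans (le_of_forall_pos_le_add key)

end Pool.Agent.Lib.SH
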