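import Pool.Agent.Lib.SH.QL_LL2

/-!
Linear lemma, third part: transfer on the cover and choice of the constants.
-/

open Set Filter Topology Metric

noncomputable section

namespace Pool.Agent.Lib.SH.QL

open Pool.Agent.HULL

variable {X K : Set E} {P : E → ℂ} {ρ : ℝ}

theorem cosh_ratio {t A A' : ℝ} (h : |t| ≤ A) :
    Real.cosh t / Real.cosh A' ≤ 2 * Real.exp (A - A') := by
  have a : Real.cosh t ≤ Real.exp A := by
    rw [Real.cosh_eq]
    have a1 : Real.exp t ≤ Real.exp A := Real.exp_le_exp.2 (abs_le.1 h).2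
    have a2 : Real.exp (-t) ≤ Real.exp A := Real.exp_le_exp.2 (by linarith [(abs_le.1 h).1])
    linarith
  have b : Real.exp A' / 2 ≤ Real.cosh A' := by
    rw [Real.cosh_eq]; linarith [Real.exp_pos (-A')]
  rw [div_le_iff₀ (Real.cosh_pos _), Real.exp_sub]
  have c := mul_le_mul_of_nonneg_left b (show 0 ≤ 2 * (Real.exp A / Real.exp A') by positivity)
  have d : 2 * (Real.exp A / Real.exp A') * (Real.exp A' / 2) = Real.exp A := by field_simp
  linarith

theorem ll_core (h : WD X K P ρ) {L ι R M A A' s0 : ℝ} (hL : 6 ≤ L) (hι : 0 ≤ ι)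
    (hιL : ι ≤ 1 / (2 * L)) (hR : 0 < R) (hs : 0 < s0) (hs1 : s0 ≤ 1) (hιs : ι < s0 / 8)
    (hA : 2 ≤ A) (hA' : A < A') (hM2 : 6 / s0 < M) (hM : M ≤ ρ)
    (hB : ∀ y ∈ X, y.1 = Complex.I → ∃ G : E → ℂ, AnalyticAt ℂ G y ∧
      ∀ᶠ x in 𝓝 y, P x = (x.1 - Complex.I) * G x) (hK : Cls X K P L ι R M)
    (hb : ∀ y ∈ X, y ∉ K → ‖y.1‖ ≤ M → ‖P y‖ ≤ R) :
    ∀ y ∈ X, y ∉ K → ‖y.1‖ ≤ M → Real.exp (-L + 3) ≤ ‖bl y.1‖ → ‖bl y.1‖ ≤ Real.exp (-(2 * s0)) →
      ‖P y‖ ≤ 3 * (2 * R * Real.exp (-(Real.pi / 4 * A)) + R * Real.exp (Real.pi / 4 * A') *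
        (4 / L + 4 * Real.exp (A - A') + 18 / (s0 * M)) *
        (2 + Real.log (2 / (s0 / (L * Real.sinh (7 * (A + 2))))))) := by
  have L0 : 0 < L := by linarith
  have s6 : 6 ≤ 6 / s0 := by rw [le_div_iff₀ hs]; linarith
  have M0 : 0 < M := by linarith
  have pi3 := Real.pi_gt_three
  have pi4 := Real.pi_lt_d2
  set ε := R * Real.exp (Real.pi / 4 * A') * (4 / L + 4 * Real.exp (A - A') + 18 / (s0 * M))
    with hε
  have ε0 : 0 < ε := by positivity
  set Z := Zt X P L R M A' with hZ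
  have gap : ∀ p ∈ Z, p.2.re ≤ -s0 → ‖p.1.1‖ ≤ 6 / s0 ∧ s0 / 8 ≤ p.1.1.im := by
    intro p hp a
    have u := h.up _ (ZA.ov hM hp.2.1)
    have b : ‖bl p.1.1‖ ≤ 1 - s0 / 2 := by
      rw [Xt.norm hp.1 u]
      exact (Real.exp_le_exp.2 a).trans (exp_neg_le hs.le hs1)
    obtain ⟨c1, c2, -⟩ := bl_gap u (by linarith) (by linarith) b
    exact ⟨c1.trans_eq (by field_simp; norm_num), by linarith⟩
  have hbar : ∀ c : ℂ, ‖c‖ ≤ 1 → c.re ≤ 0 → ∀ p ∈ Z, p.2.re ≤ -s0 → |p.2.im| ≤ A * L →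
      (c * tw P L p).re ≤ ε := by
    intro c hc hc0 p hp a b
    refine (cover_bar h hL hι hιL hR (by linarith) hM hB hK hb hc hc0 p hp).trans ?_
    refine mul_le_mul_of_nonneg_left ?_ (by positivity)
    have c1 := cosh_ratio (t := p.2.im / L) (A := A) (A' := A') (by
      rw [abs_div, abs_of_pos L0, div_le_iff₀ L0]; exact b)
    have c2 : 3 * ‖p.1.1‖ / M ≤ 18 / (s0 * M) := by
      rw [show 18 / (s0 * M) = 3 * (6 / s0) / M by field_simp; norm_num]
      exact div_le_div_of_nonneg_right (by linarith [(gap p hp a).1]) M0.le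
    rw [mul_div_assoc]
    linarith
  have hIm : ∀ p ∈ Z, p.2.re ≤ -s0 → |p.2.im| ≤ A * L → |(tw P L p).im| ≤ ε := by
    intro p hp a b
    have c1 := hbar Complex.I (by simp) (by simp) p hp a b
    have c2 := hbar (-Complex.I) (by simp) (by simp) p hp a b
    simp only [Complex.mul_re, Complex.I_re, Complex.I_im, Complex.neg_re, Complex.neg_im] at c1 c2
    exact abs_le.2 ⟨by linarith, by linarith⟩
  let w : E × ℂ → ℂ := fun p => p.2 + (((L - 2 + s0) / 2 : ℝ) + (2 * L : ℝ) * Complex.I)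
  have wre : ∀ p, (w p).re = p.2.re + (L - 2 + s0) / 2 := fun p => by
    simp only [w, Complex.add_re, Complex.ofReal_re, Complex.re_ofReal_mul, Complex.I_re]; ring
  have wim : ∀ p, (w p).im = p.2.im + 2 * L := fun p => by
    simp only [w, Complex.add_im, Complex.ofReal_im, Complex.im_ofReal_mul, Complex.I_im]; ring
  have wan : ∀ p, AnalyticAt ℂ w p := fun p => analyticAt_snd.add analyticAt_const
  have AL : 2 * L ≤ A * L := by nlinarith
  have AL' : A * L < A' * L := by nlinarith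
  have sh : 1 ≤ Real.sinh (7 * (A + 2)) :=
    le_trans (by linarith) (Real.self_le_sinh_iff.2 (by linarith))
  set d := s0 / (L * Real.sinh (7 * (A + 2))) with hd
  have d0 : 0 < d := by positivity
  set a := (L - 2 - s0) / 2 with ha
  have a0 : 0 < a := by rw [ha]; linarith
  have key := rect (Zt.cpt h hM) (Q := tw P L) (w := w)
    (fun p hp => (tw_an L (h.an _ (ZA.ov hM hp.2.1))).continuousAt.continuousWithinAt)
    (fun p _ => (wan p).continuousAt.continuousWithinAt) (a := a) (Θ := (A + 2) * L)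
    (m := 2 * R * Real.exp (-(Real.pi / 4 * A))) a0 (by positivity) ε0
    (fun p hp b1 b2 b3 => by
      rw [wre] at b1
      rw [wim] at b2 b3
      exact hIm p hp (by linarith [(abs_le.1 b1).2]) (abs_le.2 ⟨by linarith, by linarith⟩))
    (fun p hp _ b2 => by
      rw [wim] at b2
      refine (Complex.re_le_norm _).trans ?_
      rw [tw_norm, show p.2.im = A * L by linarith, mul_div_assoc, mul_div_cancel_right₀ _ L0.ne']
      exact mul_le_mul_of_nonneg_right hp.2.1.2.2.2 (Real.exp_pos _).le)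
    (fun p hp b1 b2 b3 b4 => by
      rw [wre] at b1
      rw [wim] at b2 b3
      obtain ⟨c1, c2⟩ := abs_lt.1 b1
      have u := h.up _ (ZA.ov hM hp.2.1)
      have nb := Xt.norm hp.1 u
      obtain ⟨g1, g2⟩ := gap p hp (by linarith)
      have yK : p.1 ∉ K := fun hk => by
        rcases hK p.1 hp.1.1 hp.2.1.2.2.1 hk with e | e | e | e
        · simp only [tw, e, zero_mul, Complex.zero_re] at b4
          linarith [show 0 < 2 * R * Real.exp (-(Real.pi / 4 * A)) by positivity]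
        · linarith [e.1]
        · rw [nb, Real.log_exp] at e
          linarith [(abs_le.1 e.1).2]
        · rw [nb, Real.exp_le_exp] at e
          linarith [e.1]
      exact ⟨Zt.nop h hM hp yK (by linarith) (by linarith [hb p.1 hp.1.1 yK hp.2.1.2.2.1])
        (by linarith) (abs_lt.2 ⟨by linarith, by linarith⟩), tw_an L (h.an _ (ZA.ov hM hp.2.1)),
        wan p⟩) d0
  intro y hy hk hn l1 l2
  have u := h.up _ (mem_ov hy (hn.trans hM))
  have b0 : bl y.1 ≠ 0 := norm_pos_iff.1 ((Real.exp_pos _).trans_le l1)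
  set ξ := Complex.log (bl y.1) with hξ
  have x1 : -L + 3 ≤ ξ.re := by
    rw [hξ, Complex.log_re, Real.le_log_iff_exp_le (norm_pos_iff.2 b0)]; exact l1
  have x2 : ξ.re ≤ -(2 * s0) := by
    rw [hξ, Complex.log_re, Real.log_le_iff_le_exp (norm_pos_iff.2 b0)]; exact l2
  have x3 : |ξ.im| ≤ L := by
    rw [hξ, Complex.log_im]; linarith [Complex.abs_arg_le_pi (bl y.1)]
  obtain ⟨x4, x5⟩ := abs_le.1 x3
  have p1 := hb y hy hk hn
  have hp : (y, ξ) ∈ Z := ⟨⟨hy, by
    show Complex.exp ξ * (y.1 + Complex.I) = y.1 - Complex.I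
    rw [hξ, Complex.exp_log b0, bl, div_mul_cancel₀ _ (addI_ne u)]⟩,
    ⟨hy, by linarith [norm_nonneg y.1], hn, by linarith⟩, by show -(2 * L) ≤ ξ.re; linarith,
    by show |ξ.im| ≤ A' * L; linarith⟩
  have r1 : |(w (y, ξ)).re| ≤ a - s0 := by
    rw [wre]; exact abs_le.2 ⟨by show _ ≤ ξ.re + _; linarith, by show ξ.re + _ ≤ _; linarith⟩
  have r2 : (w (y, ξ)).im = ξ.im + 2 * L := wim _
  set k := Real.pi / (2 * a) with hk'
  have k0 : 0 < k := by positivity
  have ka : k * a = Real.pi / 2 := by rw [hk']; field_simp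
  have k1 := key (y, ξ) hp (by linarith) (by rw [r2]; linarith) (by rw [r2]; linarith) (by
    have sa : s0 ≤ a := by rw [ha]; linarith
    have c1 : Real.cos (k * (a - s0)) ≤ Real.cos (k * (w (y, ξ)).re) := by
      rw [← Real.cos_abs (k * (w (y, ξ)).re), abs_mul, abs_of_pos k0]
      exact Real.cos_le_cos_of_nonneg_of_le_pi (by positivity) (by nlinarith)
        (mul_le_mul_of_nonneg_left r1 k0.le)
    have c2 : s0 / L ≤ Real.cos (k * (a - s0)) := by
      rw [mul_sub, ka, Real.cos_pi_div_two_sub]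
      refine le_trans ?_ (Real.mul_le_sin (by positivity) (by nlinarith))
      rw [show 2 / Real.pi * (k * s0) = s0 / a by rw [hk']; field_simp]
      exact div_le_div_of_nonneg_left hs.le a0 (by rw [ha]; linarith)
    have c3 : 1 ≤ Real.sinh (k * (w (y, ξ)).im) := by
      refine le_trans ?_ (Real.self_le_sinh_iff.2 (by rw [r2]; nlinarith))
      rw [r2]
      have : k * a ≤ k * (ξ.im + 2 * L) := mul_le_mul_of_nonneg_left (by rw [ha]; linarith) k0.le
      linarith
    have c4 : Real.sinh (k * ((A + 2) * L)) ≤ Real.sinh (7 * (A + 2)) := by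
      refine Real.sinh_le_sinh.2 ?_
      have : k * L ≤ k * (4 * a) := mul_le_mul_of_nonneg_left (by rw [ha]; linarith) k0.le
      nlinarith
    have c5 : d * Real.sinh (7 * (A + 2)) = s0 / L := by rw [hd]; field_simp
    have c6 := mul_le_mul_of_nonneg_left c4 d0.le
    have c7 : 0 < s0 / L := by positivity
    nlinarith)
  have k2 := hbar (-1) (by simp) (by simp) (y, ξ) hp (by show ξ.re ≤ _; linarith)
    (by show |ξ.im| ≤ _; linarith)
  have k3 := hIm (y, ξ) hp (by show ξ.re ≤ _; linarith) (by show |ξ.im| ≤ _; linarith)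
  have lg : 0 ≤ Real.log (2 / d) := by
    refine Real.log_nonneg ?_
    rw [le_div_iff₀ d0, one_mul, hd, div_le_iff₀ (by positivity)]
    nlinarith
  have m0 : 0 < 2 * R * Real.exp (-(Real.pi / 4 * A)) := by positivity
  have k4 : ‖tw P L (y, ξ)‖ ≤ 2 * R * Real.exp (-(Real.pi / 4 * A)) + ε * (2 + Real.log (2 / d)) := by
    have e1 := Complex.norm_le_abs_re_add_abs_im (tw P L (y, ξ))
    simp only [neg_mul, one_mul, Complex.neg_re] at k2
    have e2 : |(tw P L (y, ξ)).re| ≤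
        2 * R * Real.exp (-(Real.pi / 4 * A)) + ε * (1 + Real.log (2 / d)) :=
      abs_le.2 ⟨by nlinarith [mul_nonneg ε0.le lg], by nlinarith⟩
    linarith
  rw [tw_norm] at k4
  have k5 : 1 / 3 ≤ Real.exp (-(Real.pi / 4 * ξ.im / L)) := by
    have e1 : Real.pi / 4 * ξ.im / L ≤ 1 := by rw [div_le_one L0]; nlinarith
    have e2 : Real.exp (-1) ≤ Real.exp (-(Real.pi / 4 * ξ.im / L)) :=
      Real.exp_le_exp.2 (by linarith)
    have e3 : 1 / 3 ≤ Real.exp (-1) := by
      rw [Real.exp_neg, le_inv_comm₀ (by norm_num) (Real.exp_pos _)]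
      linarith [Real.exp_one_lt_d9]
    linarith
  nlinarith [mul_le_mul_of_nonneg_left k5 (norm_nonneg (P y))]

/-- linear lemma at interior points -/
theorem ll {η s0 : ℝ} (hη : 0 < η) (hs : 0 < s0) (hs1 : s0 ≤ 1) : ∃ L0 : ℝ, 6 ≤ L0 ∧
    ∀ L, L0 ≤ L → ∃ M0 : ℝ, ∃ ι0 > (0 : ℝ), ∀ (X K : Set E) (P : E → ℂ) (ρ ι R M : ℝ),
      WD X K P ρ → 0 ≤ ι → ι ≤ ι0 → 0 < R → M0 ≤ M → M ≤ ρ →
      (∀ y ∈ X, y.1 = Complex.I → ∃ G : E → ℂ, AnalyticAt ℂ G y ∧
        ∀ᶠ x in 𝓝 y, P x = (x.1 - Complex.I) * G x) → Cls X K P L ι R M →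
      (∀ y ∈ X, y ∉ K → ‖y.1‖ ≤ M → ‖P y‖ ≤ R) →
      ∀ y ∈ X, y ∉ K → ‖y.1‖ ≤ M → Real.exp (-L + 3) ≤ ‖bl y.1‖ →
        ‖bl y.1‖ ≤ Real.exp (-(2 * s0)) → ‖P y‖ ≤ η * R := by
  set A := 2 + 16 / η with hA
  have A2 : 2 < A := by rw [hA]; linarith [show 0 < 16 / η by positivity]
  have sh : 1 ≤ Real.sinh (7 * (A + 2)) :=
    le_trans (by linarith) (Real.self_le_sinh_iff.2 (by linarith))
  set C := Real.log (2 * Real.sinh (7 * (A + 2)) / s0) with hC
  have C0 : 0 ≤ C := Real.log_nonneg (by rw [le_div_iff₀ hs]; linarith)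
  set D := 4 + 4 * Real.exp A with hD
  have D0 : 0 < D := by positivity
  set x0 := A + 1 + (2 + C) + 1800 * D / η with hx0
  have q0 : 0 < 1800 * D / η := by positivity
  refine ⟨Real.exp (2 * x0), by linarith [Real.add_one_le_exp (2 * x0)], fun L hL => ?_⟩
  have L6 : 6 ≤ L := by linarith [Real.add_one_le_exp (2 * x0)]
  have L0 : 0 < L := by linarith
  set x := Real.log L / 2 with hx
  have xx : x0 ≤ x := by
    have := (Real.le_log_iff_exp_le L0).2 hL
    rw [hx]; linarith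
  have x1 : 0 < x := by linarith
  have eL : Real.exp (2 * x) = L := by
    rw [hx, mul_div_cancel₀ _ two_ne_zero, Real.exp_log L0]
  refine ⟨6 / s0 + 1 + 648 * x * Real.exp (Real.pi / 4 * x) / (s0 * η), min (1 / (2 * L)) (s0 / 16),
    by positivity, fun X K P ρ ι R M h i0 i1 R0 M1 M2 hB hK hb y hy hk hn l1 l2 => ?_⟩
  have q1 : 0 < 648 * x * Real.exp (Real.pi / 4 * x) / (s0 * η) := by positivity
  have q2 : 0 < 6 / s0 := by positivity
  have M0 : 0 < M := by linarith
  refine (ll_core h L6 i0 (i1.trans (min_le_left _ _)) R0 hs hs1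
    (by linarith [i1.trans (min_le_right _ _)]) A2.le (show A < x by linarith) (by linarith) M2 hB
    hK hb y hy hk hn l1 l2).trans ?_
  have pi3 := Real.pi_gt_three
  have pi4 := Real.pi_lt_d2
  have lg : Real.log (2 / (s0 / (L * Real.sinh (7 * (A + 2))))) = 2 * x + C := by
    rw [show 2 / (s0 / (L * Real.sinh (7 * (A + 2)))) = L * (2 * Real.sinh (7 * (A + 2)) / s0) by
      field_simp, Real.log_mul L0.ne' (by positivity), hx]
    ring
  rw [lg]
  have t1 : Real.exp (-(Real.pi / 4 * A)) ≤ η / 12 := by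
    have a1 := Real.add_one_le_exp (Real.pi / 4 * A)
    have a2 : 12 / η ≤ Real.pi / 4 * A := by
      have : 12 / η = 3 / 4 * (16 / η) := by ring
      nlinarith [show 0 < 16 / η by positivity]
    rw [Real.exp_neg, inv_le_comm₀ (Real.exp_pos _) (by positivity), inv_div]
    linarith
  have t2 : Real.exp (Real.pi / 4 * x) * (4 / L + 4 * Real.exp (A - x)) ≤
      D * Real.exp (-(x / 5)) := by
    have a1 : Real.exp (Real.pi / 4 * x) * (4 / L) ≤ 4 * Real.exp (-(x / 5)) := by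
      rw [← eL, div_eq_mul_inv (4 : ℝ) (Real.exp (2 * x)), ← Real.exp_neg, mul_left_comm,
        ← Real.exp_add]
      exact mul_le_mul_of_nonneg_left (Real.exp_le_exp.2 (by nlinarith)) (by norm_num)
    have a2 : Real.exp (Real.pi / 4 * x) * (4 * Real.exp (A - x)) ≤
        4 * Real.exp A * Real.exp (-(x / 5)) := by
      rw [mul_left_comm, ← Real.exp_add, mul_assoc, ← Real.exp_add]
      exact mul_le_mul_of_nonneg_left (Real.exp_le_exp.2 (by nlinarith)) (by norm_num)
    rw [mul_add, hD, add_mul]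
    linarith
  have t3 : Real.exp (-(x / 5)) ≤ 50 / x ^ 2 := by
    have a1 := Real.quadratic_le_exp_of_nonneg (show 0 ≤ x / 5 by linarith)
    rw [Real.exp_neg, inv_le_comm₀ (Real.exp_pos _) (by positivity), inv_div]
    nlinarith
  have t4 : D * (50 / x ^ 2) * (3 * x) ≤ η / 12 := by
    rw [show D * (50 / x ^ 2) * (3 * x) = 150 * D / x by field_simp; norm_num, div_le_iff₀ x1]
    have : 1800 * D / η ≤ x := by linarith
    rw [div_le_iff₀ hη] at this
    linarith
  have t5 : Real.exp (Real.pi / 4 * x) * (18 / (s0 * M)) * (3 * x) ≤ η / 12 := by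
    have a1 : 648 * x * Real.exp (Real.pi / 4 * x) / (s0 * η) ≤ M := by linarith
    rw [div_le_iff₀ (by positivity)] at a1
    rw [show Real.exp (Real.pi / 4 * x) * (18 / (s0 * M)) * (3 * x) =
      54 * x * Real.exp (Real.pi / 4 * x) / (s0 * M) by ring, div_le_iff₀ (by positivity)]
    linarith
  have t6 : 2 + (2 * x + C) ≤ 3 * x := by linarith
  have t7 : Real.exp (Real.pi / 4 * x) * (4 / L + 4 * Real.exp (A - x) + 18 / (s0 * M)) *
      (2 + (2 * x + C)) ≤ η / 6 := by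
    refine (mul_le_mul_of_nonneg_left t6 (by positivity)).trans ?_
    have := mul_le_mul_of_nonneg_right (t2.trans (mul_le_mul_of_nonneg_left t3 D0.le))
      (show 0 ≤ 3 * x by linarith)
    rw [mul_add, add_mul]
    linarith
  have t8 := mul_le_mul_of_nonneg_left t7 R0.le
  have t9 := mul_le_mul_of_nonneg_left t1 R0.le
  rw [mul_assoc R, mul_assoc R]
  linarith

end Pool.Agent.Lib.SH.QL
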