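import Pool.Agent.Lib.SH.QL_LL1

/-!
The weight of the quadratic lemma and the improvement step near the wall and the port.
-/

open Set Filter Topology Metric

noncomputable section

namespace Pool.Agent.Lib.SH.QL

variable {X K : Set E} {P : E → ℂ} {ρ : ℝ}

/-- the weight -/
def wt (r0 M2 e t : ℝ) : ℝ := min (max t 1) r0 * (max (t / M2) 1) ^ e

variable {r0 M2 e : ℝ}

theorem wt_one (h0 : 1 ≤ r0) (he : 0 ≤ e) (t : ℝ) : 1 ≤ wt r0 M2 e t :=
  one_le_mul_of_one_le_of_one_le (le_min (le_max_right _ _) h0)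
    (Real.one_le_rpow (le_max_right _ _) he)

theorem wt_scale (h0 : 1 ≤ r0) (hM : 1 ≤ M2) (he : 0 ≤ e) (he2 : e ≤ 2) {s t c : ℝ} (hc : 1 ≤ c)
    (h : s ≤ c * max t 1) : wt r0 M2 e s ≤ c ^ 3 * wt r0 M2 e t := by
  have m1 := le_max_right t 1
  have M0 : 0 < M2 := by linarith
  have a1 : min (max s 1) r0 ≤ c * min (max t 1) r0 := by
    rw [mul_min_of_nonneg _ _ (by linarith)]
    exact min_le_min (max_le h (by nlinarith)) (by nlinarith)
  have m2 := le_max_right (t / M2) 1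
  have a2 : max (s / M2) 1 ≤ c * max (t / M2) 1 := by
    refine max_le ?_ (by nlinarith)
    have b : max t 1 / M2 ≤ max (t / M2) 1 := by
      rw [div_le_iff₀ M0]
      refine max_le ?_ (by nlinarith)
      have := le_max_left (t / M2) 1
      rwa [div_le_iff₀ M0] at this
    calc s / M2 ≤ c * max t 1 / M2 := div_le_div_of_nonneg_right h M0.le
      _ = c * (max t 1 / M2) := by ring
      _ ≤ _ := mul_le_mul_of_nonneg_left b (by linarith)
  have a3 : (max (s / M2) 1) ^ e ≤ c ^ 2 * (max (t / M2) 1) ^ e := by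
    refine (Real.rpow_le_rpow (by positivity) a2 he).trans ?_
    rw [Real.mul_rpow (by linarith) (by linarith)]
    refine mul_le_mul_of_nonneg_right ?_ (by positivity)
    rw [← Real.rpow_two]
    exact Real.rpow_le_rpow_of_exponent_le hc he2
  have a4 : 0 ≤ min (max t 1) r0 := le_min (by linarith) (by linarith)
  calc wt r0 M2 e s ≤ c * min (max t 1) r0 * (c ^ 2 * (max (t / M2) 1) ^ e) :=
        mul_le_mul a1 a3 (by positivity) (by positivity)
    _ = c ^ 3 * wt r0 M2 e t := by rw [wt]; ring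

theorem wt_mono (h0 : 1 ≤ r0) (hM : 1 ≤ M2) (he : 0 ≤ e) (he2 : e ≤ 2) {s t : ℝ} (h : s ≤ t) :
    wt r0 M2 e s ≤ wt r0 M2 e t := by
  simpa using wt_scale h0 hM he he2 (s := s) (t := t) le_rfl
    (by rw [one_mul]; exact h.trans (le_max_left _ _))

theorem wt_small {t : ℝ} (h1 : 1 ≤ t) (h : t ≤ M2) : wt r0 M2 e t ≤ t := by
  rw [wt, max_eq_left h1, max_eq_right ((div_le_one (by linarith)).2 h), Real.one_rpow, mul_one]
  exact min_le_left _ _

theorem wt_big (h0 : 1 ≤ r0) {t : ℝ} (h : r0 ≤ t) : wt r0 M2 e t = r0 * (max (t / M2) 1) ^ e := by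
  rw [wt, max_eq_left (h0.trans h), min_eq_right h]

theorem wt_le (t : ℝ) : wt r0 M2 e t ≤ r0 * (max (t / M2) 1) ^ e :=
  mul_le_mul_of_nonneg_right (min_le_right _ _) (by positivity)

theorem bl_fifth {z : ℂ} (h0 : 0 ≤ z.im) (h : 1 / 2 ≤ ‖z - Complex.I‖) : 1 / 5 ≤ ‖bl z‖ := by
  rw [bl, norm_div, le_div_iff₀ (one_pos.trans_le (one_le_addI h0))]
  linarith [addI_le z]

theorem near_of_bl {z : ℂ} (h0 : 0 < ‖bl z‖) (h : ‖bl z‖ ≤ 1 / 5) : ‖z - Complex.I‖ ≤ 1 / 2 := by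
  have n : z + Complex.I ≠ 0 := fun e => by simp [bl, e] at h0
  have a := norm_subI n
  nlinarith [addI_le z, norm_nonneg (z + Complex.I), norm_nonneg (z - Complex.I)]

theorem near_facts {z : ℂ} (h : ‖z - Complex.I‖ ≤ 1 / 2) : ‖z‖ ≤ 3 / 2 ∧ 1 / 2 ≤ z.im := by
  have a : ‖z‖ ≤ ‖z - Complex.I‖ + 1 := by simpa using norm_add_le (z - Complex.I) Complex.I
  have b := Complex.abs_im_le_norm (z - Complex.I)
  simp only [Complex.sub_im, Complex.I_im] at b
  exact ⟨by linarith, by linarith [neg_le_abs (z.im - 1)]⟩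

theorem exp_fifth {t : ℝ} (h : t ≤ -2) : Real.exp t ≤ 1 / 5 := by
  refine (Real.exp_le_exp.2 h).trans ?_
  have := Real.quadratic_le_exp_of_nonneg (show (0 : ℝ) ≤ 2 by norm_num)
  rw [Real.exp_neg, inv_le_comm₀ (Real.exp_pos _) (by norm_num)]
  linarith

theorem box_norm {z : ℂ} {x0 l s : ℝ} (hz : z ∈ box x0 l s) : ‖z‖ ≤ |x0| + l + s := by
  have a := Complex.norm_le_abs_re_add_abs_im z
  have b : |z.re| ≤ |z.re - x0| + |x0| := by simpa using abs_add_le (z.re - x0) x0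
  linarith [hz.1, hz.2]

/-- one box step: from interior bounds to all points over the vertical line -/
theorem box_step {D : Set E} {K0 σ l σ' B b T : ℝ} {y : E} (hy : y ∈ D) (h0 : 0 ≤ y.1.im)
    (hl : 1 / 2 ≤ l) (hx : |y.1.re| ≤ 8 * l) (hT : 10 * l ≤ T) (hyT : ‖y.1‖ ≤ T) (hσ1 : σ ≤ 1)
    (hσ' : 0 ≤ σ') (hσ : 10 * σ' ≤ σ) (hN : NWB D P K0 σ y.1.re l)
    (hB : ∀ x ∈ D, ‖x.1‖ ≤ T → ‖P x‖ ≤ B)
    (hb : ∀ x ∈ D, ‖x.1‖ ≤ T → σ' * max ‖x.1‖ 1 ≤ x.1.im →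
      (x = y ∨ (x.1.im ≤ l ∧ |x.1.re - y.1.re| ≤ l)) → ‖P x‖ ≤ b) :
    ‖P y‖ ≤ 32 * max b (B / K0) := by
  have s0 : 0 ≤ σ := by linarith
  have sl : σ * l ≤ l := by nlinarith
  by_cases hc : σ * l ≤ y.1.im
  · have a := hb y hy hyT (by
      have a1 := Complex.norm_le_abs_re_add_abs_im y.1
      rw [abs_of_nonneg h0] at a1
      have a2 : max ‖y.1‖ 1 ≤ 8 * l + y.1.im := max_le (by linarith) (by linarith)
      have a3 := mul_le_mul_of_nonneg_left a2 hσ'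
      nlinarith) (Or.inl rfl)
    have := le_max_left b (B / K0)
    linarith [norm_nonneg (P y)]
  · refine hN B b (fun x hx => hB x hx.1 (by linarith [box_norm hx.2])) (fun x hx e => ?_) y
      ⟨hy, by simp only [sub_self, abs_zero]; linarith, by rw [abs_of_nonneg h0]; linarith⟩
    have a1 := box_norm hx.2
    refine hb x hx.1 (by linarith) ?_ (Or.inr ⟨by linarith, hx.2.1⟩)
    have a2 : max ‖x.1‖ 1 ≤ 10 * l := max_le (by linarith) (by linarith)
    have a3 := mul_le_mul_of_nonneg_left a2 hσ'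
    nlinarith

theorem supW_le {D : Set E} {r c : ℝ} (hc : 0 ≤ c) (h : ∀ y ∈ D, ‖y.1‖ ≤ r → ‖P y‖ ≤ c) :
    supW D P r ≤ c :=
  Real.sSup_le (by
    rintro _ ⟨y, hy, rfl⟩
    exact h y hy.1 (mem_closedBall_zero_iff.1 hy.2)) hc

theorem improve {L ι σ σ1 σ' b T : ℝ} (h : Act X K P L ι ρ 8000 σ 8000 σ1) (hL : 6 ≤ L)
    (h0 : 1 ≤ r0) (hM : 8 ≤ M2) (he : 0 ≤ e) (he2 : e ≤ 2) (hι0 : 0 ≤ ι) (hι : ι ≤ 1 / 16000)
    (hb : 0 ≤ b) (hσ : σ ≤ 1) (hσ1 : σ1 ≤ 1) (hσ' : 0 ≤ σ') (s1 : 10 * σ' ≤ σ) (s2 : 10 * σ' ≤ σ1)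
    (hT : 8 ≤ T) (hTρ : T ≤ ρ)
    (hB : ∀ y ∈ X, y ∉ K → ‖y.1‖ ≤ ρ → ‖P y‖ ≤ b * wt r0 M2 e ‖y.1‖)
    (hI : ∀ y ∈ X, y ∉ K → ‖y.1‖ ≤ T → σ' * max ‖y.1‖ 1 ≤ y.1.im →
      Real.exp (-L + 3) ≤ ‖bl y.1‖ → ‖P y‖ ≤ 1 / 16000 * (b * wt r0 M2 e ‖y.1‖)) :
    ∀ y ∈ X, y ∉ K → 5 * ‖y.1‖ ≤ T → ‖P y‖ ≤ 1 / 2 * (b * wt r0 M2 e ‖y.1‖) := by
  intro y hy hk hn
  have M1 : 1 ≤ M2 := by linarith
  have n0 := norm_nonneg y.1
  have w1 := mul_le_mul_of_nonneg_left (wt_one (M2 := M2) h0 he ‖y.1‖) hb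
  have w8 : ∀ x ∈ X, x ∉ K → ‖x.1‖ ≤ 8 → b * wt r0 M2 e ‖x.1‖ ≤ 8 * b := fun x _ _ a => by
    have := (wt_mono h0 M1 he he2 a).trans (wt_small (by norm_num) hM)
    nlinarith
  by_cases hp : ‖bl y.1‖ ≤ Real.exp (-L + 3)
  · have a := h.ppp (8 / 16000 * b) (by
      have a1 : supW (X \ K) P 8 ≤ 8 * b := supW_le (by linarith) fun x hx a =>
        (hB x hx.1 hx.2 (by linarith)).trans (w8 x hx.1 hx.2 a)
      nlinarith [mul_le_mul_of_nonneg_left a1 hι0])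
      (fun x hx xk l1 l2 => by
        obtain ⟨c1, c2⟩ := near_facts (near_of_bl ((Real.exp_pos _).trans_le l1)
          (l2.trans (exp_fifth (by linarith))))
        have c3 : max ‖x.1‖ 1 ≤ 2 := max_le (by linarith) (by norm_num)
        have := hI x hx xk (by linarith) (by nlinarith [mul_le_mul_of_nonneg_left c3 hσ']) l1
        linarith [w8 x hx xk (by linarith)]) y hy hk (by linarith) hp
    linarith
  have hp' := (not_le.1 hp).le
  have u := h.up y (mem_ov hy (by linarith))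
  have m1 := le_max_left ‖y.1‖ 1
  have m2 := le_max_right ‖y.1‖ 1
  have mT : 5 * max ‖y.1‖ 1 ≤ T := by
    rcases le_total ‖y.1‖ 1 with a | a
    · rw [max_eq_right a]; linarith
    · rw [max_eq_left a]; linarith
  have w5 : ∀ x : E, ‖x.1‖ ≤ 5 * max ‖y.1‖ 1 →
      b * wt r0 M2 e ‖x.1‖ ≤ 125 * (b * wt r0 M2 e ‖y.1‖) := fun x a => by
    have := mul_le_mul_of_nonneg_left (wt_scale h0 M1 he he2 (by norm_num) a) hb
    linarith
  have re := Complex.abs_re_le_norm y.1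
  have main : ∀ l s : ℝ, 1 / 2 ≤ l → |y.1.re| ≤ 8 * l → 10 * l ≤ 5 * max ‖y.1‖ 1 → s ≤ 1 →
      10 * σ' ≤ s → (l = 1 / 2 ∨ |y.1.re| = 8 * l) → NWB (X \ K) P 8000 s y.1.re l →
      ‖P y‖ ≤ 1 / 2 * (b * wt r0 M2 e ‖y.1‖) := by
    intro l s a1 a2 a3 a4 a5 a6 a7
    have k := box_step (D := X \ K) (B := 125 * (b * wt r0 M2 e ‖y.1‖))
      (b := 125 / 16000 * (b * wt r0 M2 e ‖y.1‖)) ⟨hy, hk⟩ u a1 a2 a3 (by linarith) a4 hσ' a5 a7
      (fun x hx a => (hB x hx.1 hx.2 (by linarith)).trans (w5 x a))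
      (fun x hx a c d => by
        refine (hI x hx.1 hx.2 (by linarith) c ?_).trans (by linarith [w5 x a])
        rcases d with d | d
        · rw [d]; exact hp'
        refine (exp_fifth (by linarith)).trans (bl_fifth (h.up x (mem_ov hx.1 (by linarith))) ?_)
        rcases a6 with f | f
        · have := Complex.abs_im_le_norm (x.1 - Complex.I)
          simp only [Complex.sub_im, Complex.I_im] at this
          linarith [neg_le_abs (x.1.im - 1), d.1]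
        · have g1 := Complex.abs_re_le_norm (x.1 - Complex.I)
          simp only [Complex.sub_re, Complex.I_re, sub_zero] at g1
          have g2 : |y.1.re| ≤ |x.1.re| + |x.1.re - y.1.re| := by
            simpa using abs_sub x.1.re (x.1.re - y.1.re)
          linarith [d.2])
    refine k.trans ?_
    rw [max_eq_right (by linarith)]
    linarith
  by_cases hc : 4 ≤ |y.1.re|
  · exact main (|y.1.re| / 8) σ (by linarith) (by linarith) (by linarith) hσ s1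
      (Or.inr (by ring)) (h.nw _ hc (by linarith))
  · exact main (1 / 2) σ1 le_rfl (by linarith) (by linarith) hσ1 s2 (Or.inl rfl)
      (h.nw1 _ (by linarith))

end Pool.Agent.Lib.SH.QL
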