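import Pool.Agent.Lib.SH.QL_T3
import Pool.Agent.Lib.SH.QL_LL3
import Pool.Agent.Lib.SH.QL_W

/-!
The quadratic lemma of an active window.
-/

open Set Filter Topology Metric

noncomputable section

namespace Pool.Agent.Lib.SH

namespace QL

variable {X K : Set E} {P : E → ℂ} {ρ r0 M2 e : ℝ}

theorem hub_of_arg {p : ℂ} {ι : ℝ} (h1 : ι ≤ 1) (h : |p.arg| ≤ ι) :
    |p.im| ≤ ι * ‖p‖ ∧ 0 ≤ p.re := by
  refine ⟨?_, Complex.abs_arg_le_pi_div_two_iff.1 (by linarith [Real.pi_gt_three])⟩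
  rw [← Complex.norm_mul_sin_arg p, abs_mul, abs_norm, mul_comm]
  exact mul_le_mul_of_nonneg_right (Real.abs_sin_le_abs.trans h) (norm_nonneg _)

theorem bl_le_exp {z : ℂ} {s r : ℝ} (hs : 0 ≤ s) (h : s ≤ z.im) (hr : ‖z‖ ≤ r) :
    ‖bl z‖ ≤ Real.exp (-(2 * (s / (r + 1) ^ 2))) := by
  have u : 0 ≤ z.im := hs.trans h
  have a := sq_diff z
  have b := one_le_addI u
  have c : ‖z + Complex.I‖ ≤ r + 1 := by
    have := norm_add_le z Complex.I
    rw [Complex.norm_I] at this
    linarith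
  rw [norm_subI (addI_ne u), mul_pow] at a
  have d : s / (r + 1) ^ 2 * ‖z + Complex.I‖ ^ 2 ≤ s := by
    rw [div_mul_eq_mul_div, div_le_iff₀ (by nlinarith)]
    exact mul_le_mul_of_nonneg_left (by nlinarith) hs
  have f : ‖bl z‖ ^ 2 ≤ 1 - 4 * (s / (r + 1) ^ 2) :=
    le_of_mul_le_mul_right (by nlinarith) (show 0 < ‖z + Complex.I‖ ^ 2 by positivity)
  have g := Real.add_one_le_exp (-(4 * (s / (r + 1) ^ 2)))
  refine (abs_le_of_sq_le_sq' ?_ (Real.exp_pos _).le).2
  rw [sq (Real.exp _), ← Real.exp_add, show -(2 * (s / (r + 1) ^ 2)) + -(2 * (s / (r + 1) ^ 2)) =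
    -(4 * (s / (r + 1) ^ 2)) by ring]
  linarith

theorem int2 {L ι K0 σ K1 σ1 σ' b t A κ β : ℝ} (h : Act X K P L ι ρ K0 σ K1 σ1) (hL : 6 ≤ L)
    (h0 : 8 ≤ r0) (hM : r0 ≤ M2) (hβ : β ≤ 1) (hβ0 : 0 < β) (hι0 : 0 ≤ ι) (hι1 : ι ≤ 1) (hb : 0 < b)
    (hσ' : σ' ≤ 1) (hκ : 0 < κ) (hκ1 : 2 * κ ≤ σ') (hA : 3 ≤ A) (hAρ : A * M2 ≤ ρ)
    (t1 : 2 / r0 ≤ t) (t2 : A ^ (-β) ≤ t) (t3' : κ * A ≤ t) (t4 : ι * (A ^ 3 * M2) ≤ t)
    (t5 : 8 * ι ≤ κ)
    (hB : ∀ y ∈ X, y ∉ K → ‖y.1‖ ≤ ρ → ‖P y‖ ≤ b * wt r0 M2 (2 - β) ‖y.1‖) :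
    ∀ y ∈ X, y ∉ K → r0 ≤ ‖y.1‖ → A * ‖y.1‖ ≤ ρ → σ' * ‖y.1‖ ≤ y.1.im →
      ‖P y‖ ≤ 9 * (8 + Lam (σ' / 2)) * (5 * t) * (b * wt r0 M2 (2 - β) ‖y.1‖) := by
  intro y hy hk l1 l2 l3
  set r := ‖y.1‖ with hr
  have M0 : 0 < M2 := by linarith
  have A0 : 0 < A := by linarith
  have e0 : 0 ≤ 2 - β := by linarith
  have e2 : 2 - β ≤ 2 := by linarith
  have r1' : 1 ≤ r0 := by linarith
  have M1 : 1 ≤ M2 := by linarith
  set w := wt r0 M2 (2 - β) r with hw
  have w1 : 1 ≤ w := wt_one r1' e0 r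
  have wb : w = r0 * (max (r / M2) 1) ^ (2 - β) := wt_big r1' l1
  have m1 := le_max_left r M2
  have m2 := le_max_right r M2
  have tA : 1 / A ≤ t := by
    refine le_trans ?_ t2
    rw [one_div, ← Real.rpow_neg_one]
    exact Real.rpow_le_rpow_of_exponent_le (by linarith) (by linarith)
  have t0 : 0 < t := lt_of_lt_of_le (by positivity) tA
  have hr2 : A * max r M2 ≤ ρ := by
    rcases le_total r M2 with a | a
    · rwa [max_eq_right a]
    · rwa [max_eq_left a]
  have w2 : wt r0 M2 (2 - β) (A * max r M2) = A ^ (2 - β) * w := by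
    have a : max (r / M2) 1 = max r M2 / M2 := by
      rw [← max_div_div_right M0.le, div_self M0.ne']
    have a1 : 1 ≤ A * max r M2 / M2 := by rw [le_div_iff₀ M0]; nlinarith
    rw [wt_big r1' (by nlinarith), wb, max_eq_left a1, a, mul_div_assoc,
      Real.mul_rpow A0.le (by positivity)]
    ring
  obtain ⟨r1, q1, q2, q3, q4⟩ : ∃ r1 : ℝ, 2 ≤ r1 ∧ 3 * r1 ≤ r ∧ wt r0 M2 (2 - β) r1 ≤ t * w ∧
      r / r1 ≤ A * M2 := by
    by_cases hc : A * M2 ≤ r
    · have a1 : M2 ≤ r / A := by rw [le_div_iff₀ A0]; linarith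
      have a2 : r / A * A = r := div_mul_cancel₀ _ A0.ne'
      refine ⟨r / A, by linarith, by nlinarith, ?_, ?_⟩
      · have a3 : 1 ≤ r / A / M2 := by rw [le_div_iff₀ M0]; linarith
        have a4 : r / M2 = A * (r / A / M2) := by field_simp
        have a5 : A ≤ A ^ (2 - β) := by
          simpa using Real.rpow_le_rpow_of_exponent_le (show 1 ≤ A by linarith)
            (show 1 ≤ 2 - β by linarith)
        rw [wt_big r1' (by linarith), wb, max_eq_left a3, max_eq_left (by rw [a4]; nlinarith), a4,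
          Real.mul_rpow A0.le (by positivity)]
        have a6 : 1 ≤ t * A ^ (2 - β) := by
          rw [div_le_iff₀ A0] at tA
          nlinarith
        have a7 : 0 ≤ r0 * (r / A / M2) ^ (2 - β) := by positivity
        nlinarith [mul_le_mul_of_nonneg_left a6 a7]
      · rw [div_div_cancel₀ (by linarith)]
        nlinarith
    · refine ⟨2, le_rfl, by linarith, (wt_small (by norm_num) (by linarith)).trans ?_,
        by linarith⟩
      have a1 : r0 ≤ w := by
        rw [wb]
        exact le_mul_of_one_le_right (by linarith) (Real.one_le_rpow (le_max_right _ _) e0)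
      rw [div_le_iff₀ (by linarith)] at t1
      nlinarith
  have rpos : 0 < r := by linarith
  have Ap : 0 < A ^ (2 - β) := by positivity
  have k := t3 ⟨h.np, h.up, h.an⟩ (r1 := r1) (r := r) (r2 := A * max r M2) (R1 := b * (t * w))
    (R2 := b * (A ^ (2 - β) * w)) (ι := ι) (κ := κ) (τ := σ') (by linarith) q2 (by nlinarith) hr2
    (by positivity) (by positivity) hι0 hκ hκ1 hσ' (by nlinarith)
    (fun x hx a c xk => by
      have xo := mem_ov hx (c.trans hr2)
      have far : ¬ ‖bl x.1‖ ≤ Real.exp (-L + 1) := fun f => by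
        have g1 := f.trans (exp_fifth (by linarith))
        have g2 := (bl_gap (h.up x xo) (g := 1 / 2) (by norm_num) (by norm_num) (by linarith)).2.2
        have g3 : ‖x.1‖ ≤ ‖x.1 - Complex.I‖ + 1 := by
          simpa using norm_add_le (x.1 - Complex.I) Complex.I
        linarith
      rcases h.cls x xo xk with f | f | f | f
      · exact Or.inl f
      · exact Or.inr ⟨f.1, hub_of_arg hι1 f.2⟩
      · exact absurd ((Real.le_exp_log _).trans (Real.exp_le_exp.2
          (by linarith [(abs_le.1 f.1).2]))) far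
      · exact absurd f.1 far)
    (fun x hx xk a => (hB x hx xk (by nlinarith)).trans (by
      rw [a]; exact mul_le_mul_of_nonneg_left q3 hb.le))
    (fun x hx xk _ c => (hB x hx xk (c.trans hr2)).trans (by
      rw [← w2]; exact mul_le_mul_of_nonneg_left (wt_mono r1' M1 e0 e2 c) hb.le))
    y hy hk rfl l3
  refine k.trans ?_
  have σ0 : 0 < σ' := by linarith
  have C0 : 0 ≤ 9 * (8 + Lam (σ' / 2)) := by
    linarith [Lam_nonneg (show 0 < σ' / 2 by linarith) (by linarith)]
  rw [mul_assoc (9 * (8 + Lam (σ' / 2)))]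
  refine mul_le_mul_of_nonneg_left ?_ C0
  have mx : 0 < max r M2 := by linarith
  have A2 : A ^ (2 - β) = A ^ 2 * A ^ (-β) := by
    rw [sub_eq_add_neg, Real.rpow_add A0, Real.rpow_two]
  have A3 : A ^ (2 - β) ≤ A ^ 2 := by
    rw [← Real.rpow_two]
    exact Real.rpow_le_rpow_of_exponent_le (by linarith) e2
  have rr : r / (A * max r M2) ≤ 1 / A := by
    rw [div_le_div_iff₀ (by positivity) A0]; nlinarith
  have c1 : A ^ (2 - β) * (r ^ 2 / (A * max r M2) ^ 2) ≤ t := by
    have a : r ^ 2 / (A * max r M2) ^ 2 ≤ (1 / A) ^ 2 := by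
      rw [← div_pow]; exact pow_le_pow_left₀ (by positivity) rr 2
    refine (mul_le_mul_of_nonneg_left a Ap.le).trans ?_
    rw [A2, show A ^ 2 * A ^ (-β) * (1 / A) ^ 2 = A ^ (-β) by field_simp]
    exact t2
  have c2 : A ^ (2 - β) * (κ * r / (A * max r M2)) ≤ t := by
    rw [mul_div_assoc]
    calc _ ≤ A ^ 2 * (κ * (1 / A)) := mul_le_mul A3 (mul_le_mul_of_nonneg_left rr hκ.le)
          (by positivity) (by positivity)
      _ = κ * A := by field_simp
      _ ≤ t := t3'
  have c3 : A ^ (2 - β) * (ι * r / r1) ≤ t := by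
    rw [mul_div_assoc]
    calc _ ≤ A ^ 2 * (ι * (A * M2)) := mul_le_mul A3 (mul_le_mul_of_nonneg_left q4 hι0)
          (by have : 0 < r1 := by linarith
              positivity) (by positivity)
      _ = ι * (A ^ 3 * M2) := by ring
      _ ≤ t := t4
  have bw : 0 < b * w := by positivity
  have c4 := mul_le_mul_of_nonneg_left (add_le_add (add_le_add c1 c2) c3) bw.le
  nlinarith [mul_pos bw t0]

theorem boot {D : Set E} {f w : E → ℝ} {c : ℝ} (hc : 0 ≤ c) (hw : ∀ y ∈ D, 1 ≤ w y)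
    (hf : ∃ B, ∀ y ∈ D, f y ≤ B)
    (h : ∀ b, 0 < b → (∀ y ∈ D, f y ≤ b * w y) → ∀ y ∈ D, f y ≤ max (b / 2) c * w y) :
    ∀ y ∈ D, f y ≤ c * w y := by
  obtain ⟨B, hB⟩ := hf
  have bd : BddAbove ((fun y => f y / w y) '' D) := ⟨|B|, by
    rintro _ ⟨y, hy, rfl⟩
    have := hw y hy
    show f y / w y ≤ |B|
    rw [div_le_iff₀ (by linarith)]
    nlinarith [hB y hy, le_abs_self B, abs_nonneg B]⟩
  set b := sSup ((fun y => f y / w y) '' D) with hb
  have h1 : ∀ y ∈ D, f y ≤ b * w y := fun y hy => by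
    rw [← div_le_iff₀ (by linarith [hw y hy])]
    exact le_csSup bd ⟨y, hy, rfl⟩
  have h2 : b ≤ c := by
    by_contra hcon
    have a := not_le.1 hcon
    have b0 : 0 < b := hc.trans_lt a
    have : b ≤ max (b / 2) c := Real.sSup_le (by
      rintro _ ⟨y, hy, rfl⟩
      show f y / w y ≤ _
      rw [div_le_iff₀ (by linarith [hw y hy])]
      exact h b b0 h1 y hy) (hc.trans (le_max_right _ _))
    rcases le_max_iff.1 this with d | d <;> linarith
  exact fun y hy => (h1 y hy).trans (mul_le_mul_of_nonneg_right h2 (by linarith [hw y hy]))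

end QL

open QL in
theorem st_ql : St_QL := by
  refine ⟨8000, by norm_num, fun σ s0 s1 => ⟨8000, by norm_num, fun σ1 u0 u1 => ?_⟩⟩
  set σ' := min σ σ1 / 10 with hσ'
  have m1 := min_le_left σ σ1
  have m2 := min_le_right σ σ1
  have p0 : 0 < σ' := by positivity
  have p1 : σ' ≤ 1 := by linarith
  set C := 9 * (8 + Lam (σ' / 2)) with hC
  have C0 : 0 < C := by linarith [Lam_nonneg (show 0 < σ' / 2 by linarith) (by linarith)]
  set t := 1 / (80000 * C) with ht
  have t0 : 0 < t := by positivity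
  set r0 := 8 + 2 / t with hr0
  have q0 : 0 < 2 / t := by positivity
  have r8 : 8 ≤ r0 := by linarith
  obtain ⟨L0, L6, hL0⟩ := ll (η := 1 / (16000 * r0)) (s0 := σ' / (r0 + 1) ^ 2) (by positivity)
    (by positivity) (by rw [div_le_one (by positivity)]; nlinarith)
  refine ⟨L0, fun β L β0 β1 hL => ?_⟩
  obtain ⟨Ml, ι1, i1, hll⟩ := hL0 L hL
  obtain ⟨A, A3, hA⟩ : ∃ A : ℝ, 3 ≤ A ∧ A ^ (-β) ≤ t :=
    ((eventually_ge_atTop 3).and ((tendsto_rpow_neg_atTop β0).eventually
      (ge_mem_nhds t0))).exists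
  have A0 : 0 < A := by linarith
  set M2 := r0 + |Ml| with hM2
  have a0 := abs_nonneg Ml
  have M8 : 8 ≤ M2 := by linarith
  set κ := min (σ' / 2) (t / A) with hκ
  have κ0 : 0 < κ := by positivity
  refine ⟨5 * A * M2, by nlinarith, min (min ι1 (1 / 16000)) (min (κ / 8) (t / (A ^ 3 * M2))),
    by positivity, fun X K P ι ρ h i0 i2 hρ O O0 hO => ?_⟩
  have j1 : ι ≤ ι1 := i2.trans ((min_le_left _ _).trans (min_le_left _ _))
  have j2 : ι ≤ 1 / 16000 := i2.trans ((min_le_left _ _).trans (min_le_right _ _))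
  have j3 : ι ≤ κ / 8 := i2.trans ((min_le_right _ _).trans (min_le_left _ _))
  have j4 : ι ≤ t / (A ^ 3 * M2) := i2.trans ((min_le_right _ _).trans (min_le_right _ _))
  have e0 : 0 ≤ 2 - β := by linarith
  have e2 : 2 - β ≤ 2 := by linarith
  have r1 : 1 ≤ r0 := by linarith
  have M1 : 1 ≤ M2 := by linarith
  have AM : M2 ≤ A * M2 := by nlinarith
  have ρ0 : 0 < ρ := by nlinarith
  have T1 : 5 * M2 ≤ ρ / A := by rw [le_div_iff₀ A0]; linarith
  have T2 : ρ / A ≤ ρ := div_le_self ρ0.le (by linarith)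
  set w0 := wt r0 M2 (2 - β) (ρ / (5 * A)) with hw0
  have w1 : 1 ≤ w0 := wt_one r1 e0 _
  have key := boot (D := {y | y ∈ X ∧ y ∉ K ∧ ‖y.1‖ ≤ ρ}) (f := fun y => ‖P y‖)
    (w := fun y => wt r0 M2 (2 - β) ‖y.1‖) (c := O / w0) (by positivity)
    (fun y _ => wt_one r1 e0 _)
    (by
      obtain ⟨B, hB⟩ := h.np.cpt.exists_bound_of_continuousOn h.an.continuousOn
      exact ⟨B, fun y hy => hB y (mem_ov hy.1 hy.2.2)⟩)
    (by
      intro b b0 hb y hy
      have hB : ∀ y ∈ X, y ∉ K → ‖y.1‖ ≤ ρ → ‖P y‖ ≤ b * wt r0 M2 (2 - β) ‖y.1‖ :=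
        fun y a c d => hb y ⟨a, c, d⟩
      have wy := wt_one (M2 := M2) r1 e0 ‖y.1‖
      by_cases hc : 5 * ‖y.1‖ ≤ ρ / A
      · have := improve h (L6.trans hL) r1 M8 e0 e2 i0.le j2 b0.le s1 u1 p0.le (by linarith)
          (by linarith) (by linarith) T2 hB (by
            intro x hx xk a1 a2 a3
            have n1 := le_max_left ‖x.1‖ 1
            have n2 := le_max_right ‖x.1‖ 1
            by_cases hs : ‖x.1‖ ≤ r0
            · have hR : ∀ y ∈ X, y ∉ K → ‖y.1‖ ≤ M2 → ‖P y‖ ≤ b * r0 := fun y a c d => by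
                refine (hB y a c (by linarith)).trans (mul_le_mul_of_nonneg_left
                  ((wt_le _).trans ?_) b0.le)
                rw [max_eq_right ((div_le_one (by linarith)).2 d), Real.one_rpow, mul_one]
              have s8 : supW (X \ K) P 8 ≤ b * r0 := supW_le (by positivity) fun y hy a =>
                hR y hy.1 hy.2 (by linarith)
              have := hll X K P ρ ι (b * r0) M2 ⟨h.np, h.up, h.an⟩ i0.le j1 (by positivity)
                (by linarith [le_abs_self Ml]) (by linarith) h.anB (fun y a c d => by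
                  refine (h.cls y (mem_ov a (by linarith)) d).imp id (Or.imp id (Or.imp id
                    fun f => ⟨f.1, f.2.trans ?_⟩))
                  gcongr) hR x hx xk (by linarith) a3
                (bl_le_exp p0.le (by nlinarith) hs)
              rw [show 1 / (16000 * r0) * (b * r0) = 1 / 16000 * b by field_simp] at this
              nlinarith [wt_one (M2 := M2) r1 e0 ‖x.1‖]
            · have := int2 h (L6.trans hL) r8 (by linarith) β1 β0 i0.le (by linarith) b0 p1 κ0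
                (by linarith [min_le_left (σ' / 2) (t / A)]) A3 (by nlinarith) (t := t)
                (by rw [div_le_iff₀ (by linarith), hr0, mul_add, mul_div_cancel₀ _ t0.ne']
                    linarith) hA
                ((le_div_iff₀ A0).1 (min_le_right _ _)) ((le_div_iff₀ (by positivity)).1 j4)
                (by linarith) hB x hx xk (not_le.1 hs).le
                (by rw [le_div_iff₀ A0] at a1; linarith) (by nlinarith)
              rwa [← hC, show C * (5 * t) = 1 / 16000 by rw [ht]; field_simp; norm_num] at this)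
          y hy.1 hy.2.1 hc
        nlinarith [le_max_left (b / 2) (O / w0)]
      · have c1 : ρ / (5 * A) ≤ ‖y.1‖ := by
          rw [mul_comm, ← div_div]; linarith
        have c2 := hO y hy.1 hy.2.1 (le_trans (div_le_div_of_nonneg_left ρ0.le (by positivity)
          (by nlinarith)) c1) hy.2.2
        have c3 := mul_le_mul (le_max_right (b / 2) (O / w0)) (wt_mono r1 M1 e0 e2 c1)
          (by linarith) (le_trans (by positivity) (le_max_right _ _))
        rw [div_mul_cancel₀ _ (by linarith)] at c3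
        exact c2.trans c3)
  intro r l1 l2 y hy hk hn
  refine (key y ⟨hy, hk, hn.trans l2⟩).trans ?_
  have M0 : 0 < M2 := by linarith
  have c0 : M2 ≤ ρ / (5 * A) := by rw [le_div_iff₀ (by positivity)]; linarith
  have c1 : w0 = r0 * (ρ / (5 * A) / M2) ^ (2 - β) := by
    rw [hw0, wt_big r1 (by linarith), max_eq_left ((one_le_div M0).2 c0)]
  have c2 : wt r0 M2 (2 - β) ‖y.1‖ ≤ r0 * r ^ (2 - β) :=
    (wt_le _).trans (mul_le_mul_of_nonneg_left (Real.rpow_le_rpow (by positivity)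
      (max_le ((div_le_self (norm_nonneg _) M1).trans hn) (by linarith)) e0) (by linarith))
  have c3 : r ^ (2 - β) = (5 * A * M2) ^ (2 - β) * (r / ρ) ^ (2 - β) *
      (ρ / (5 * A) / M2) ^ (2 - β) := by
    rw [← Real.mul_rpow (by positivity) (by positivity),
      ← Real.mul_rpow (by positivity) (by positivity)]
    congr 1
    field_simp
  have c4 : (5 * A * M2) ^ (2 - β) ≤ (5 * A * M2) ^ 2 := by
    rw [← Real.rpow_two]
    exact Real.rpow_le_rpow_of_exponent_le (by nlinarith) e2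
  calc O / w0 * wt r0 M2 (2 - β) ‖y.1‖ ≤ O / w0 * (r0 * r ^ (2 - β)) :=
        mul_le_mul_of_nonneg_left c2 (by positivity)
    _ = (5 * A * M2) ^ (2 - β) * (r / ρ) ^ (2 - β) * O := by
        have c5 : O / w0 * w0 = O := div_mul_cancel₀ _ (by linarith)
        have c6 : r0 * r ^ (2 - β) = (5 * A * M2) ^ (2 - β) * (r / ρ) ^ (2 - β) * w0 := by
          rw [c3, c1]; ring
        rw [c6, mul_left_comm, c5]
    _ ≤ _ := by gcongr

end Pool.Agent.Lib.SH
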