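import Pool.Agent.Lib.SH.Blue4

/-!
Blueprint of the project SH: nonlinear fibre functions (V = G K C / q at the split), ports.
-/

open Set Filter Topology Metric

noncomputable section

namespace Pool.Agent.Lib.SH

/-- near identity fibre map which fixes the roots `0` and `e`, over the point `z` -/
def Th (Θ : E → ℂ) (e ω r : ℝ) (z : ℂ) : Prop :=
  (∀ᶠ x in 𝓝 z, Θ (x, 0) = 0 ∧ Θ (x, e) = e) ∧ ∀ v : ℂ, ‖v‖ ≤ r → AnalyticAt ℂ Θ (z, v) ∧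
    ‖CF.dw Θ (z, v) - 1‖ ≤ ω ∧ ‖CF.dz Θ (z, v)‖ ≤ ω * ss e v

/-- two-root walls in a nonlinear fibre function -/
def St_PWT : Prop := ∀ ι C : ℝ, 0 < ι → 0 ≤ C → ∃ ω > (0 : ℝ), ∀ (I : Type) [Fintype I] (J : Set ℝ)
  (Ef Ef' : I → ℝ → ℝ) (u : I → ℂ → ℂ) (a : I → ℝ) (Θ : E → ℂ) (e ι' r : ℝ), 0 < ι' → ι' ≤ ω →
  WS J Ef Ef' u a e ω C ι' → (∀ y ∈ Icc (-(2 * ι')) (2 * ι'), Coh fun i => Ef i y - a i) →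
  |e| ≤ r → (∀ x ∈ J, ∀ y ∈ Icc (-(2 * ι')) (2 * ι'),
    ‖wsum Ef u x y‖ ≤ r ∧ Th Θ e ω r (x + y * Complex.I)) →
  ∃ Ψy : ℝ → ℝ → ℂ, PW J e ι ι' (8 * C * Real.exp (2 * C) + 1) 0
    (fun x y => Θ (x + y * Complex.I, wsum Ef u x y)) Ψy

/-- the fibre maps `v ↦ V (z, w z + v d (z, ε))` are near the identity; base change `b` -/
def St_TH : Prop := ∀ (V : E → ℂ) (w : ℂ → ℂ) (d : ℂ × ℂ → ℂ) (Z : Set ℂ) (ω : ℝ), IsCompact Z →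
  AnalyticOnNhd ℂ w Z → (∀ z ∈ Z, AnalyticAt ℂ V (z, w z)) → AnalyticOnNhd ℂ d (Z ×ˢ {0}) →
  (∀ᶠ z in 𝓝ˢ Z, V (z, w z) = 0 ∧ CF.dw V (z, w z) * d (z, 0) = 1) →
  (∀ᶠ p in 𝓝ˢ (Z ×ˢ ({0} : Set ℂ)), V (p.1, w p.1 + p.2 * d p) = p.2) → 0 < ω →
  ∃ r > (0 : ℝ), ∀ ε : ℝ, |ε| ≤ r → ∀ (b : ℂ → ℂ) (ζ : ℂ), AnalyticAt ℂ b ζ → b ζ ∈ Z →
    ‖deriv b ζ‖ ≤ 100 → d (b ζ, ε) ≠ 0 ∧
    Th (fun y => V (b y.1, w (b y.1) + y.2 * d (b y.1, ε))) ε ω r ζ ∧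
    (∀ v v' : ℂ, ‖v‖ ≤ r → ‖v'‖ ≤ r →
      ‖V (b ζ, w (b ζ) + v * d (b ζ, ε)) - V (b ζ, w (b ζ) + v' * d (b ζ, ε)) - (v - v')‖ ≤
        ω * ‖v - v'‖)

/-- port hypotheses with one fixed height, from any plain wall -/
def St_PPF : Prop := ∀ (X K : Set E) (N : E → ℂ) (Ψ Ψy : ℝ → ℝ → ℂ)
  (e γ ι ι' C0 η lev Mst Mup : ℝ), 0 < γ → γ ≤ 1 / 2 → η ≤ -1 → 0 ≤ Mst →
  lev ≤ Mst * Real.exp (-γ * η - 1) → PW univ e ι ι' C0 lev Ψ Ψy →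
  (∀ y ∈ ov X (closedBall 0 1), y ∈ K → Mst / Real.exp 1 < ‖pp e (y.1 * N y)‖ * ‖y.1‖ ^ γ →
    |Real.log ‖y.1‖ - η| ≤ ι' ∧ ∀ t s : ℝ,
      y.1 = Complex.exp (η - Complex.I * (t + s * Complex.I)) → y.1 * N y = Ψ t s) →
  (∀ y ∈ ov X (closedBall 0 1), Mst / Real.exp 1 < ‖pp e (y.1 * N y)‖ * ‖y.1‖ ^ γ →
    ∀ t s : ℝ, |s| ≤ 2 * ι' → y.1 = Complex.exp (η - Complex.I * (t + s * Complex.I)) →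
      y.1 * N y = Ψ t s → y ∈ K) →
  (∀ y ∈ ov X (closedBall 0 1), y ∈ K → ‖y.1‖ ≤ Real.exp (η - 1 / 2) →
    ‖N y * (y.1 * N y - e)‖ ≤ Mst * Real.exp (-(1 + γ) * η)) →
  PPH2 X K N e γ ι C0 Mst Mup

/-- macro port with a weight of any pole order `b` -/
def St_ENDP2 : Prop := ∀ γ C0 : ℝ, 0 < γ → γ ≤ 1 / 2 → ∃ ι > 0,
  ∀ (X K : Set E) (φ : E → ℝ) (N : E → ℂ) (w : ℂ → ℂ) (p : ℂ)
    (r1 R e Mst Mup a b Λw G0 r lv : ℝ),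
    0 < r1 → 0 ≤ e → 0 < a → 0 < G0 → 0 < r → r ≤ 1 → 0 ≤ Mst → 0 ≤ Λw → 0 < lv →
    Mst ^ a * G0 ≤ lv →
    NP (bc (fun z => p + r1 * z) ⁻¹' near X w R) (bc (fun z => p + r1 * z) ⁻¹' K)
      (closedBall 0 1) →
    AnalyticOnNhd ℂ N (ov (bc (fun z => p + r1 * z) ⁻¹' near X w R) (closedBall 0 1)) →
    PPH2 (bc (fun z => p + r1 * z) ⁻¹' near X w R) (bc (fun z => p + r1 * z) ⁻¹' K)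
      N e γ ι C0 Mst Mup →
    (∀ y ∈ ov (bc (fun z => p + r1 * z) ⁻¹' near X w R) (closedBall 0 1),
      y ∉ bc (fun z => p + r1 * z) ⁻¹' K → ‖pp e (y.1 * N y)‖ * ‖y.1‖ ^ γ ≤ Mup ∧
      (r ≤ ‖y.1‖ →
        φ (bc (fun z => p + r1 * z) y) ≤
          Real.exp Λw * G0 * ‖pp e (y.1 * N y)‖ ^ a * ‖y.1‖⁻¹ ^ b ∧
        G0 * ‖pp e (y.1 * N y)‖ ^ a * ‖y.1‖⁻¹ ^ b ≤
          Real.exp Λw * φ (bc (fun z => p + r1 * z) y))) →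
    (∀ x ∈ near X w R, x ∉ K → ‖x.1 - p‖ = r1 → φ x ≤ lv) →
    (∀ x ∈ near X w R, x ∉ K → r * r1 ≤ ‖x.1 - p‖ → ‖x.1 - p‖ ≤ r1 →
      φ x ≤ lv * Real.exp (2 * Λw) * (r1 / ‖x.1 - p‖) ^ (b + a * γ)) ∧
    ∀ y ∈ ov (bc (fun z => p + r1 * z) ⁻¹' near X w R) (closedBall 0 1),
      y ∉ bc (fun z => p + r1 * z) ⁻¹' K →
      ‖pp e (y.1 * N y)‖ * ‖y.1‖ ^ γ ≤ (lv * Real.exp Λw / G0) ^ (1 / a)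

/-- bound inside a port disc from the bound on its circle -/
def PortB (D : Set E) (q : E → ℝ) (p : ℂ) (r b0 C : ℝ) : Prop :=
  ∀ b : ℝ, b0 ≤ b → (∀ y ∈ D, ‖y.1 - p‖ = r → q y ≤ b) → ∀ y ∈ D, ‖y.1 - p‖ ≤ r → q y ≤ C * b

/-- micro ports: `PortB` from the port lemma, and its transfer to the window chart -/
def St_PB : Prop :=
  (∀ C0 : ℝ, ∃ ι > 0, ∀ (X K : Set E) (N : E → ℂ) (e Mst Mup bin : ℝ), 0 ≤ e → 0 ≤ Mst → 0 ≤ bin →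
    NP X K (closedBall 0 1) → AnalyticOnNhd ℂ N (ov X (closedBall 0 1)) →
    PPH2 X K N e (1 / 2) ι C0 Mst Mup →
    (∀ y ∈ ov X (closedBall 0 1), (y ∉ K → ‖pp e (y.1 * N y)‖ ≤ Mup) ∧
      (y ∈ K → ‖y.1‖ ≤ Real.exp (-6) → ‖pp e (y.1 * N y)‖ ≤ bin)) →
    PortB (X \ K) (fun y => ‖pp e (y.1 * N y)‖) 0 1 (max Mst bin) (Real.exp 3)) ∧
  ∀ (D : Set E) (q : E → ℝ) (x : ℂ) (δ yr L ρ b0 C : ℝ), x ≠ 0 → 0 < δ → 10 ≤ L → 2 ≤ ρ →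
    δ * ρ ≤ 1 / 8 →
    PortB D q (wch x δ yr Complex.I)
      (2 * δ * ‖wch x δ yr Complex.I‖ * Real.exp (-L + 7 / 2)) b0 C →
    ∀ b : ℝ, b0 ≤ b → (∀ y ∈ bc (wch x δ yr) ⁻¹' D, Real.exp (-L + 3) ≤ ‖bl y.1‖ →
      ‖bl y.1‖ ≤ Real.exp (-L + 4) → q (bc (wch x δ yr) y) ≤ b) →
    ∀ y ∈ bc (wch x δ yr) ⁻¹' D, ‖y.1‖ ≤ ρ → ‖bl y.1‖ ≤ Real.exp (-L + 3) →
      q (bc (wch x δ yr) y) ≤ C * b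

end Pool.Agent.Lib.SH
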