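import Pool.Agent.Lib.SH.Cert
import Pool.Agent.Lib.SH.Blue5
import Pool.Agent.Lib.SH.B_NL0

/-!
The end property from the wall hypotheses, with the constants in the order of the construction.
-/

open Set Filter Topology Metric

noncomputable section

namespace Pool.Agent.Lib.SH

theorem LoopHyp.mono {W : Type} {X K : Set E} {φ : E → ℝ} {l : CF.End} {V : E → ℂ} {m g : ℂ → ℂ}
    {e h R : ℝ} {n : ℕ} {x : W → ℂ} {ρ ρ0 ex Cw : W → ℝ} {ι ι2 C0 Cm Λw a k0 τ thr : ℝ}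
    (H : LoopHyp X K φ l V m g e h R n x ρ ρ0 ex Cw ι C0 Cm Λw a k0 τ thr) (hι : ι ≤ ι2) :
    LoopHyp X K φ l V m g e h R n x ρ ρ0 ex Cw ι2 C0 Cm Λw a k0 τ thr := by
  obtain ⟨a1, a2, a3, a4, a5, ⟨ι', Ψ, Ψy, b1, b2, b3, b4⟩, a7⟩ := H
  exact ⟨a1, a2, a3, a4, fun z hz => ⟨(a5 z hz).1, (a5 z hz).2.1, fun k =>
    ((a5 z hz).2.2 k).trans hι⟩, ⟨ι', Ψ, Ψy, NL0.pw_mono b1 hι, b2, b3, fun y c d =>
    (b4 y c d).trans (Real.exp_le_exp.2 hι)⟩, a7⟩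

/-- admissible windows on the unit circle -/
def WinOK {W : Type} [Fintype W] (h : ℝ) (n : ℕ) (x : W → ℂ) (ρ ex Cw : W → ℝ) : Prop :=
  Fintype.card W ≤ n ∧ (∀ j, ‖x j‖ = 1 ∧ 0 < ρ j ∧ ρ j ≤ h / 8 ∧ |ex j| ≤ 4 ∧ 1 ≤ Cw j) ∧
    ∀ j k, j ≠ k → 2 * ρ j ≤ ‖x j - x k‖

/-- the bound on the whole end region, in the chart of the loop -/
def LoopB {W : Type} (X K : Set E) (l : CF.End) (V : E → ℂ) (m g : ℂ → ℂ) (e h R : ℝ) (n : ℕ)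
    (x : W → ℂ) (ρ0 : W → ℝ) (a Λa lv : ℝ) : Prop :=
  ∀ y ∈ ov (bc (ech l) ⁻¹' near X l.w R) (annW h x ρ0), y ∉ bc (ech l) ⁻¹' K →
    ∀ d : ℝ, 0 < d → d ≤ 1 → (∀ j, d ≤ ‖y.1 - x j‖) →
      ‖pp e (V y) * m y.1‖ ≤ (lv * Real.exp (-(g (Real.exp (-h))).re)) ^ (1 / a) *
        Real.exp Λa * d⁻¹ ^ (5 * n)

/-- loop hypotheses give the end property with constants `C`, `Λ` and the bound on the end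
region with the constant `Λa` -/
def LoopOK (h : ℝ) (n : ℕ) (Λw η Λa C Λ : ℝ) (κ : ℝ → ℝ) : Prop :=
  ∀ (W : Type) [Fintype W] (x : W → ℂ) (ρ ex Cw : W → ℝ), WinOK h n x ρ ex Cw →
    ∀ C0 Cm : ℝ, ∃ ι > 0, ∀ (X K : Set E) (φ : E → ℝ) (l : CF.End) (V : E → ℂ) (m g : ℂ → ℂ)
      (e R a k0 τ thr : ℝ), l.k ≠ CF.Kind.pt → 0 < l.r → 1 / 2 ≤ a → a ≤ 1 → 0 ≤ τ → τ ≤ 1 →
      0 ≤ thr →
      LoopHyp X K φ l V m g e h R n x ρ (fun j => κ (Cw j) * ρ j) ex Cw ι C0 Cm Λw a k0 τ thr →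
      ∀ lv : ℝ, 0 < lv → thr ≤ lv →
      (∀ κ' r1 r2 : ℝ, k0 - a * (∑ j, ex j) / 2 + (η + 2 * τ) * 2 / h ≤ κ' →
        EndP l X K φ R h r1 r2 C Λ κ' lv) ∧
      ((∀ y ∈ near X l.w R, y ∉ K → y.1 ∈ l.ann {h} → φ y ≤ lv) →
        LoopB X K l V m g e h R n x (fun j => κ (Cw j) * ρ j) a Λa lv)

theorem loopOK (hS : St_SL) (hE : St_ENDL) {h Λw η : ℝ} (n : ℕ) (h0 : 0 < h) (h1 : h ≤ 1)
    (h2 : 0 ≤ Λw) (h3 : 0 < η) : ∃ Λa ≥ (0 : ℝ), ∀ C Λ : ℝ, Λa + 2 * Λw + 1 ≤ C →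
      ∃ κ0 : ℝ → ℝ, (∀ c, 1 ≤ c → 0 < κ0 c ∧ κ0 c ≤ 1 / (3 * c)) ∧
        ∀ κ : ℝ → ℝ, (∀ c, 1 ≤ c → 0 < κ c ∧ κ c ≤ κ0 c) → LoopOK h n Λw η Λa C Λ κ := by
  obtain ⟨Λa, κa, a1, a2, a3⟩ := hS h n (2 * (0 + 2 * Λw + 1)) η h0 h1 (by positivity) h3
  refine ⟨Λa, a1, fun C Λ hC => ?_⟩
  have p : 0 ≤ max C (Λ * C) := le_max_of_le_left (by linarith)
  obtain ⟨Λb, κb, b1, b2, b3⟩ := hS h n (2 * (max C (Λ * C) + 2 * Λw + 1)) η h0 h1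
    (by positivity) h3
  refine ⟨fun c => min (κa c) (κb c), fun c hc => ⟨lt_min (a2 c hc).1 (b2 c hc).1,
    (min_le_left _ _).trans (a2 c hc).2⟩, fun κ hκ W _ x ρ ex Cw hW C0 Cm => ?_⟩
  have w : ∀ j, ‖x j‖ = 1 ∧ 0 < ρ j ∧ ρ j ≤ h / 8 ∧ |ex j| ≤ 4 ∧ 1 ≤ Cw j ∧ 0 < κ (Cw j) ∧
      κ (Cw j) ≤ 1 / 3 := fun j => by
    obtain ⟨c1, c2, c3, c4, c5⟩ := hW.2.1 j
    exact ⟨c1, c2, c3, c4, c5, (hκ _ c5).1, (((hκ _ c5).2.trans (min_le_left _ _)).trans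
      (a2 _ c5).2).trans (one_div_le_one_div_of_le (by norm_num) (by linarith))⟩
  obtain ⟨ι1, c1, d1⟩ := hE h n Λw 0 η Λa κ h0 h1 h2 le_rfl h3 a1 (a3 κ fun c hc =>
    ⟨(hκ c hc).1, (hκ c hc).2.trans (min_le_left _ _)⟩) W x ρ ex Cw hW.1 w hW.2.2 C0 Cm
  obtain ⟨ι2, c2, d2⟩ := hE h n Λw _ η Λb κ h0 h1 h2 p h3 b1 (b3 κ fun c hc =>
    ⟨(hκ c hc).1, (hκ c hc).2.trans (min_le_right _ _)⟩) W x ρ ex Cw hW.1 w hW.2.2 C0 Cm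
  refine ⟨min ι1 ι2, lt_min c1 c2, fun X K φ l V m g e R a k0 τ thr k1 k2 k3 k4 k5 k6 k7 H lv
    k8 k9 => ?_⟩
  have e1 := (d1 X K φ l V m g e R a k0 τ thr k1 k2 k3 k4 k5 k6 k7
    (H.mono (min_le_left _ _)) lv k8 k9).2
  have e2 := (d2 X K φ l V m g e R a k0 τ thr k1 k2 k3 k4 k5 k6 k7
    (H.mono (min_le_right _ _)) lv k8 k9).1
  exact ⟨fun κ' r1 r2 k => ⟨fun _ => ⟨e2 _ _ κ' (le_max_left _ _) (le_max_right _ _) k,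
    fun t y b c => ((e1 t).1 y b c).trans (by gcongr)⟩, fun k => absurd k k1⟩,
    fun t => (e1 t).2⟩

theorem LoopOK.mono {h : ℝ} {n n' : ℕ} {Λw η Λa C Λ : ℝ} {κ : ℝ → ℝ}
    (H : LoopOK h n Λw η Λa C Λ κ) (hn : n = n') : LoopOK h n' Λw η Λa C Λ κ := hn ▸ H

/-- all hypotheses of the port lemma at a macro port -/
def PortHyp (X K : Set E) (φ : E → ℝ) (N : E → ℂ) (w : ℂ → ℂ) (p : ℂ)
    (r1 R e Mst Mup a b Λw G0 r γ ι C0 : ℝ) : Prop :=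
  0 ≤ e ∧ 0 ≤ Mst ∧
    NP (bc (fun z => p + r1 * z) ⁻¹' near X w R) (bc (fun z => p + r1 * z) ⁻¹' K)
      (closedBall 0 1) ∧
    AnalyticOnNhd ℂ N (ov (bc (fun z => p + r1 * z) ⁻¹' near X w R) (closedBall 0 1)) ∧
    PPH2 (bc (fun z => p + r1 * z) ⁻¹' near X w R) (bc (fun z => p + r1 * z) ⁻¹' K)
      N e γ ι C0 Mst Mup ∧
    ∀ y ∈ ov (bc (fun z => p + r1 * z) ⁻¹' near X w R) (closedBall 0 1),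
      y ∉ bc (fun z => p + r1 * z) ⁻¹' K → ‖pp e (y.1 * N y)‖ * ‖y.1‖ ^ γ ≤ Mup ∧
      (r ≤ ‖y.1‖ →
        φ (bc (fun z => p + r1 * z) y) ≤
          Real.exp Λw * G0 * ‖pp e (y.1 * N y)‖ ^ a * ‖y.1‖⁻¹ ^ b ∧
        G0 * ‖pp e (y.1 * N y)‖ ^ a * ‖y.1‖⁻¹ ^ b ≤
          Real.exp Λw * φ (bc (fun z => p + r1 * z) y))

/-- port hypotheses give the end property and the weighted bound on the whole disc -/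
theorem portOK (hE : St_ENDP2) {γ : ℝ} (C0 : ℝ) (h0 : 0 < γ) (h1 : γ ≤ 1 / 2) :
    ∃ ι > 0, ∀ (X K : Set E) (φ : E → ℝ) (N : E → ℂ) (l : CF.End)
      (r1 r2 R e Mst Mup a b Λw G0 lv : ℝ), l.k = CF.Kind.pt → 0 < r2 → r2 ≤ r1 → 0 < a → 0 < G0 →
      0 ≤ Λw → 0 < lv → Mst ^ a * G0 ≤ lv →
      PortHyp X K φ N l.w l.c r1 R e Mst Mup a b Λw G0 (r2 / r1) γ ι C0 →
      (∀ h C Λ κ : ℝ, 0 ≤ b + a * γ → b + a * γ ≤ κ → b + a * γ ≤ 3 → 2 * Λw + 5 ≤ C →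
        EndP l X K φ R h r1 r2 C Λ κ lv) ∧
      ((∀ x ∈ near X l.w R, x ∉ K → ‖x.1 - l.c‖ = r1 → φ x ≤ lv) →
        ∀ y ∈ ov (bc (fun z => l.c + r1 * z) ⁻¹' near X l.w R) (closedBall 0 1),
          y ∉ bc (fun z => l.c + r1 * z) ⁻¹' K →
          ‖pp e (y.1 * N y)‖ * ‖y.1‖ ^ γ ≤ (lv * Real.exp Λw / G0) ^ (1 / a)) := by
  obtain ⟨ι, a0, H⟩ := hE γ C0 h0 h1
  refine ⟨ι, a0, fun X K φ N l r1 r2 R e Mst Mup a b Λw G0 lv k1 k2 k3 k4 k5 k6 k7 k8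
    ⟨c1, c2, c3, c4, c5, c6⟩ => ?_⟩
  have p : 0 < r1 := k2.trans_le k3
  have H' := H X K φ N l.w l.c r1 R e Mst Mup a b Λw G0 (r2 / r1) lv p c1 k4 k5 (div_pos k2 p)
    ((div_le_one p).2 k3) c2 k6 k7 k8 c3 c4 c5 c6
  exact ⟨fun h C Λ κ d1 d2 d3 d4 => ⟨fun k => absurd k1 k, fun _ t x f1 f2 f3 f4 =>
    endP_pt k7.le (k2.trans_le f3) f4 d1 d2 d3 d4
      ((H' t).1 x f1 f2 (by rwa [div_mul_cancel₀ _ p.ne']) f4)⟩, fun t => (H' t).2⟩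

end Pool.Agent.Lib.SH
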