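import Pool.Agent.Lib.SH.Blue4

/-!
Block AMP: small amplitude, and the calculus of small smooth functions.
-/

open Set Filter Topology Metric
open scoped ContDiff

noncomputable section

namespace Pool.Agent.Lib.SH

namespace Small

variable {k j : ℕ} {ε δ : ℝ} {N M : ℂ → ℂ}

theorem nonneg (h : Small k ε N) : 0 ≤ ε := (norm_nonneg _).trans (h.2 0 (Nat.zero_le _) 0)

theorem mono (h : Small k ε N) (hj : j ≤ k) (hδ : ε ≤ δ) : Small j δ N :=
  ⟨h.1, fun i hi z => (h.2 i (hi.trans hj) z).trans hδ⟩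

theorem congr (h : Small k ε N) (e : ∀ z, M z = N z) : Small k ε M := by
  rw [funext e]; exact h

theorem zero (k : ℕ) (hε : 0 ≤ ε) : Small k ε fun _ => 0 :=
  ⟨contDiff_const, fun j _ z => by rw [iteratedFDeriv_fun_zero]; simpa using hε⟩

theorem at_nat (h : Small k ε N) (j : ℕ) (z : ℂ) : ContDiffAt ℝ j N z :=
  h.1.contDiffAt.of_le (by exact_mod_cast le_top)

theorem add (h : Small k ε N) (h' : Small k δ M) : Small k (ε + δ) fun z => N z + M z :=
  ⟨h.1.add h'.1, fun j hj z => by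
    rw [fun_iteratedFDeriv_add_apply (h.at_nat j z) (h'.at_nat j z)]
    exact (norm_add_le _ _).trans (add_le_add (h.2 j hj z) (h'.2 j hj z))⟩

theorem const_mul (h : Small k ε N) (c : ℂ) : Small k (‖c‖ * ε) fun z => c * N z :=
  ⟨contDiff_const.mul h.1, fun j hj z => by
    have := iteratedFDeriv_const_smul_apply' (a := c) (h.at_nat j z)
    simp only [smul_eq_mul] at this
    rw [this]
    exact (norm_smul_le _ _).trans (mul_le_mul_of_nonneg_left (h.2 j hj z) (norm_nonneg _))⟩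

theorem neg (h : Small k ε N) : Small k ε fun z => -N z := by
  simpa using h.const_mul (-1)

theorem sub (h : Small k ε N) (h' : Small k δ M) : Small k (ε + δ) fun z => N z - M z := by
  simpa only [sub_eq_add_neg] using h.add h'.neg

theorem sum {ι : Type} (s : Finset ι) {F : ι → ℂ → ℂ} {e : ι → ℝ} (h : ∀ i ∈ s, Small k (e i) (F i)) :
    Small k (∑ i ∈ s, e i) fun z => ∑ i ∈ s, F i z := by
  classical
  induction s using Finset.induction_on with
  | empty => simpa using zero k le_rfl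
  | insert a s ha ih =>
    simp only [Finset.sum_insert ha]
    exact (h a (Finset.mem_insert_self _ _)).add (ih fun i hi => h i (Finset.mem_insert_of_mem hi))

theorem sum_card {ι : Type} (s : Finset ι) {F : ι → ℂ → ℂ} (h : ∀ i ∈ s, Small k ε (F i)) :
    Small k (s.card * ε) fun z => ∑ i ∈ s, F i z := by
  simpa using sum s (e := fun _ => ε) h

theorem continuous (h : Small k ε N) : Continuous N := h.1.continuous

theorem differentiable (h : Small k ε N) : Differentiable ℝ N := h.1.differentiable (by simp)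

theorem norm_le (h : Small k ε N) (z : ℂ) : ‖N z‖ ≤ ε := by
  simpa using h.2 0 (Nat.zero_le _) z

theorem fderiv_le (h : Small k ε N) (hk : 1 ≤ k) (z : ℂ) : ‖fderiv ℝ N z‖ ≤ ε := by
  rw [← norm_iteratedFDeriv_one]; exact h.2 1 hk z

theorem fderiv_apply_le (h : Small k ε N) (hk : 1 ≤ k) (z v : ℂ) : ‖fderiv ℝ N z v‖ ≤ ε * ‖v‖ :=
  (ContinuousLinearMap.le_opNorm _ _).trans
    (mul_le_mul_of_nonneg_right (h.fderiv_le hk z) (norm_nonneg _))

theorem fderiv2_le (h : Small k ε N) (hk : 2 ≤ k) (z : ℂ) : ‖fderiv ℝ (fderiv ℝ N) z‖ ≤ ε := by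
  rw [← norm_iteratedFDeriv_one, norm_iteratedFDeriv_fderiv]; exact h.2 2 hk z

theorem lip (h : Small k ε N) (hk : 1 ≤ k) (z w : ℂ) : ‖N z - N w‖ ≤ ε * ‖z - w‖ :=
  convex_univ.norm_image_sub_le_of_norm_fderiv_le (𝕜 := ℝ) (fun x _ => h.differentiable x)
    (fun x _ => h.fderiv_le hk x) (mem_univ w) (mem_univ z)

/-- directional derivatives of small functions are small -/
theorem fderiv_apply (h : Small (k + 1) ε N) (v : ℂ) :
    Small k (‖v‖ * ε) fun z => fderiv ℝ N z v := by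
  have h1 : ContDiff ℝ ∞ (fderiv ℝ N) := h.1.fderiv_right (by simp)
  refine ⟨h1.clm_apply contDiff_const, fun j hj z => ?_⟩
  have := norm_iteratedFDeriv_clm_apply_const (f := fderiv ℝ N) (c := v) (n := j) (x := z) (N := ∞)
    h1.contDiffAt (by exact_mod_cast le_top)
  rw [norm_iteratedFDeriv_fderiv] at this
  exact this.trans (mul_le_mul_of_nonneg_left (h.2 _ (by omega) z) (norm_nonneg _))

end Small

namespace AMP

/-- derivatives of a slice are bounded by the full derivatives -/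
theorem slice_le {G : ℂ × ℂ → ℂ} {S : Set (ℂ × ℂ)} (hS : IsOpen S) (hG : ContDiffOn ℝ ∞ G S)
    {z τ : ℂ} (h : (z, τ) ∈ S) (j : ℕ) :
    ‖iteratedFDeriv ℝ j (fun x => G (x, τ)) z‖ ≤ ‖iteratedFDeriv ℝ j G (z, τ)‖ := by
  have o1 : IsOpen ((fun p : ℂ × ℂ => p + (0, τ)) ⁻¹' S) := hS.preimage (by fun_prop)
  have o2 := o1.preimage (ContinuousLinearMap.inl ℝ ℂ ℂ).continuous
  have m1 : ContinuousLinearMap.inl ℝ ℂ ℂ z ∈ (fun p : ℂ × ℂ => p + (0, τ)) ⁻¹' S := by simpa using h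
  have c1 : ContDiffOn ℝ ∞ (fun p : ℂ × ℂ => G (p + (0, τ))) ((fun p : ℂ × ℂ => p + (0, τ)) ⁻¹' S) :=
    hG.comp (by fun_prop) fun _ hp => hp
  have e := (ContinuousLinearMap.inl ℝ ℂ ℂ).iteratedFDerivWithin_comp_right c1 o1.uniqueDiffOn
    o2.uniqueDiffOn m1 (i := j) (by exact_mod_cast le_top)
  rw [iteratedFDerivWithin_of_isOpen j o2 m1, iteratedFDerivWithin_of_isOpen j o1 m1,
    iteratedFDeriv_comp_add_right] at e
  have e1 : (fun p : ℂ × ℂ => G (p + (0, τ))) ∘ ContinuousLinearMap.inl ℝ ℂ ℂ = fun x => G (x, τ) := by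
    ext x; simp
  have e2 : ContinuousLinearMap.inl ℝ ℂ ℂ z + (0, τ) = (z, τ) := by simp
  rw [e1, e2] at e
  rw [e]
  refine (ContinuousMultilinearMap.norm_compContinuousLinearMap_le _ _).trans
    (mul_le_of_le_one_right (norm_nonneg _) (Finset.prod_le_one (fun _ _ => norm_nonneg _)
      fun _ _ => ContinuousLinearMap.norm_inl_le_one _ _ _))

/-- uniform bounds for a jointly smooth family with support in a fixed compact set -/
theorem bound {G : ℂ × ℂ → ℂ} {W : Set (ℂ × ℂ)} {Z : Set ℂ} (hW : IsOpen W) (hZ : IsCompact Z)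
    (hs : Z ×ˢ {0} ⊆ W) (hG : ContDiffOn ℝ ∞ G W) (h0 : ∀ z τ, z ∉ Z → G (z, τ) = 0) (k : ℕ) :
    ∃ B : ℝ, ∀ᶠ τ in 𝓝 (0 : ℂ), Small k B fun z => G (z, τ) := by
  obtain ⟨u, v, -, hv, h1, h2, h3⟩ := generalized_tube_lemma hZ isCompact_singleton hW hs
  obtain ⟨ρ, hρ, h4⟩ := nhds_basis_closedBall.mem_iff.1 (hv.mem_nhds (h2 rfl))
  have hK : Z ×ˢ closedBall (0 : ℂ) ρ ⊆ W := (prod_mono h1 h4).trans h3
  have hc : ContinuousOn (fun p => ∑ j ∈ Finset.range (k + 1), ‖iteratedFDeriv ℝ j G p‖)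
      (Z ×ˢ closedBall (0 : ℂ) ρ) := continuousOn_finsetSum _ fun j _ p hp =>
    ((hG.contDiffAt (hW.mem_nhds (hK hp))).continuousAt_iteratedFDeriv
      (by exact_mod_cast le_top)).norm.continuousWithinAt
  obtain ⟨B, hB⟩ := (hZ.prod (isCompact_closedBall 0 ρ)).exists_bound_of_continuousOn hc
  refine ⟨max B 0, ?_⟩
  filter_upwards [closedBall_mem_nhds (0 : ℂ) hρ] with τ hτ
  have ev : ∀ z, z ∉ Z → (fun x => G (x, τ)) =ᶠ[𝓝 z] fun _ => 0 := fun z hz => by
    filter_upwards [hZ.isClosed.isOpen_compl.mem_nhds hz] with x hx using h0 x τ hx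
  refine ⟨contDiff_iff_contDiffAt.2 fun z => ?_, fun j hj z => ?_⟩
  · by_cases hz : z ∈ Z
    · exact (hG.contDiffAt (hW.mem_nhds (hK ⟨hz, hτ⟩))).comp (f := fun x : ℂ => (x, τ)) z (by fun_prop)
    · exact contDiffAt_const.congr_of_eventuallyEq (ev z hz)
  · by_cases hz : z ∈ Z
    · refine (slice_le hW hG (hK ⟨hz, hτ⟩) j).trans (le_trans ?_ (le_max_left _ _))
      exact (Finset.single_le_sum (f := fun j => ‖iteratedFDeriv ℝ j G (z, τ)‖)
        (fun _ _ => norm_nonneg _) (Finset.mem_range.2 (by omega))).trans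
        ((le_abs_self _).trans (hB (z, τ) ⟨hz, hτ⟩))
    · rw [((ev z hz).iteratedFDeriv ℝ j).self_of_nhds, iteratedFDeriv_fun_zero]
      simp

/-- a jointly smooth family times the parameter is small -/
theorem amp {G : ℂ × ℂ → ℂ} {W : Set (ℂ × ℂ)} {Z : Set ℂ} (hW : IsOpen W) (hZ : IsCompact Z)
    (hs : Z ×ˢ {0} ⊆ W) (hG : ContDiffOn ℝ ∞ G W) (h0 : ∀ z τ, z ∉ Z → G (z, τ) = 0) (k : ℕ)
    {ε : ℝ} (hε : 0 < ε) : ∀ᶠ τ in 𝓝 (0 : ℂ), Small k ε fun z => τ * G (z, τ) := by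
  obtain ⟨B, hB⟩ := bound hW hZ hs hG h0 k
  have h1 : ∀ᶠ τ in 𝓝 (0 : ℂ), ‖τ‖ * B < ε :=
    ContinuousAt.eventually_lt (by fun_prop) continuousAt_const (by simpa using hε)
  filter_upwards [hB, h1] with τ a b using (a.const_mul τ).mono le_rfl b.le

theorem two (U Z : Set ℂ) (χ : ℂ → ℂ) (d : ℂ × ℂ → ℂ) (hU : IsOpen U) (hZ : IsCompact Z)
    (hs : Z ⊆ U) (hχ : ContDiffOn ℝ ∞ χ U) (h0 : ∀ z ∈ U, z ∉ Z → χ z = 0)
    (hd : AnalyticOnNhd ℂ d (Z ×ˢ {0})) (k : ℕ) (ε : ℝ) (hε : 0 < ε) :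
    ∀ᶠ τ in 𝓝 (0 : ℂ), Small k ε (U.indicator fun z => τ * (χ z * d (z, τ))) := by
  have := amp (G := fun p => U.indicator (fun z => χ z * d (z, p.2)) p.1)
    (W := (U ×ˢ univ) ∩ {p | AnalyticAt ℂ d p})
    ((hU.prod isOpen_univ).inter (isOpen_analyticAt ℂ d)) hZ
    (fun p hp => ⟨⟨hs hp.1, trivial⟩, hd p hp⟩) ?_ ?_ k hε
  · refine this.mono fun τ h => h.congr fun z => ?_
    by_cases hz : z ∈ U <;> simp [hz]
  · refine ContDiffOn.congr (f := fun p => χ p.1 * d p) (ContDiffOn.mul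
      (hχ.comp contDiffOn_fst fun p hp => hp.1.1) fun p hp => ?_) fun p hp => ?_
    · exact ((hp.2.contDiffAt (n := ∞)).restrict_scalars ℝ).contDiffWithinAt
    · exact indicator_of_mem hp.1.1 _
  · intro z τ hz
    by_cases hu : z ∈ U
    · simp [hu, h0 z hu hz]
    · simp [hu]

end AMP

theorem st_amp : St_AMP := by
  refine ⟨fun U Z N hU hZ hs hN h0 k ε hε => ?_, AMP.two⟩
  simpa only [mul_one, Complex.ofReal_zero] using
    AMP.two U Z N (fun _ => 1) hU hZ hs hN h0 analyticOnNhd_const k ε hε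

/-- the first part with a real amplitude -/
theorem amp_real (U Z : Set ℂ) (N : ℂ → ℂ) (hU : IsOpen U) (hZ : IsCompact Z) (hs : Z ⊆ U)
    (hN : ContDiffOn ℝ ∞ N U) (h0 : ∀ z ∈ U, z ∉ Z → N z = 0) (k : ℕ) (ε : ℝ) (hε : 0 < ε) :
    (𝓝 (0 : ℝ)).Eventually fun τ : ℝ => Small k ε (U.indicator fun z => (τ : ℂ) * N z) :=
  (Complex.continuous_ofReal.tendsto 0).eventually (st_amp.1 U Z N hU hZ hs hN h0 k ε hε)

end Pool.Agent.Lib.SH
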