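import Pool.Agent.Lib.SH.Blue7
import Pool.Agent.Lib.SH.B_PROF
import Pool.Agent.Lib.SH.B_FLAT
import Pool.Agent.Lib.SH.B_PPS

/-! Cut profiles and steep profiles. -/

open Set Filter Topology Metric
open scoped ContDiff

noncomputable section

namespace Pool.Agent.Lib.SH

namespace PROF2

open PROF

theorem steep_of {G : ℝ → ℝ} {two : Prop} (h : PR G two) (N : ℝ) :
    ∀ᶠ y in 𝓝[>] (0 : ℝ), N * G y ≤ y * deriv G y := by
  filter_upwards [h.pos, (h.steep N).filter_mono nhdsWithin_le_nhds, self_mem_nhdsWithin]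
    with y a b c
  rwa [abs_of_pos a, abs_of_pos (show 0 < y from c)] at b

theorem S_symm (y : ℝ) : 1 - Real.smoothTransition (1 - y) = Real.smoothTransition y := by
  have h := (Real.smoothTransition.pos_denom y).ne'
  simp only [Real.smoothTransition, sub_sub_cancel]
  rw [add_comm (expNegInvGlue (1 - y))]
  field_simp
  ring

theorem S_deriv_symm (y : ℝ) :
    deriv Real.smoothTransition (1 - y) = deriv Real.smoothTransition y := by
  rw [(S_deriv (1 - y)).deriv, (S_deriv y).deriv, S_symm, sub_sub_cancel, ← S_symm y,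
    sub_sub_cancel]
  ring

theorem cut_deriv {f : ℝ → ℝ} (hf : ContDiff ℝ ∞ f) (y1 s : ℝ) :
    deriv (cutP y1 f) s = deriv Real.smoothTransition (2 * s / y1 - 1) * (2 / y1) * f s +
      Real.smoothTransition (2 * s / y1 - 1) * deriv f s := by
  have h1 : HasDerivAt (fun s : ℝ => 2 * s / y1 - 1) (2 / y1) s := by
    simpa using (((hasDerivAt_id s).const_mul 2).div_const y1).sub_const 1
  have h2 := (diff Real.smoothTransition.contDiff (2 * s / y1 - 1)).comp s h1
  exact (h2.fun_mul (diff hf s)).deriv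

theorem cut_one (f : ℝ → ℝ) (y1 : ℝ) (hf : ContDiff ℝ ∞ f) (h1 : 0 < y1) :
    ContDiff ℝ ∞ (cutP y1 f) ∧
    (∀ s, s ≤ y1 / 2 → cutP y1 f s = 0) ∧ (∀ s, y1 ≤ s → cutP y1 f s = f s) ∧
    ∀ s, 0 ≤ f s → 0 ≤ deriv f s → 0 ≤ cutP y1 f s ∧ cutP y1 f s ≤ f s ∧
      0 ≤ deriv (cutP y1 f) s ∧
      (∀ a b : ℝ, 0 ≤ a → 0 ≤ b → a * f s ≤ b * deriv f s →
        a * cutP y1 f s ≤ b * deriv (cutP y1 f) s) ∧
      (y1 / 2 < s → 0 < deriv f s → 0 < deriv (cutP y1 f) s) := by
  refine ⟨(Real.smoothTransition.contDiff.comp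
    (((contDiff_const.mul contDiff_id).div_const y1).sub contDiff_const)).mul hf,
    fun s hs => ?_, fun s hs => ?_, fun s a0 a1 => ?_⟩
  · rw [cutP, Real.smoothTransition.zero_of_nonpos, zero_mul]
    rw [sub_nonpos, div_le_one h1]; linarith
  · rw [cutP, Real.smoothTransition.one_of_one_le, one_mul]
    rw [le_sub_iff_add_le, le_div_iff₀ h1]; linarith
  · have b0 := Real.smoothTransition.nonneg (2 * s / y1 - 1)
    have b1 := Real.smoothTransition.le_one (2 * s / y1 - 1)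
    have b2 : 0 ≤ deriv Real.smoothTransition (2 * s / y1 - 1) * (2 / y1) * f s :=
      mul_nonneg (mul_nonneg (S_nonneg _) (by positivity)) a0
    rw [cut_deriv hf, cutP]
    refine ⟨mul_nonneg b0 a0, mul_le_of_le_one_left a0 b1, add_nonneg b2 (mul_nonneg b0 a1),
      fun a b _ hb h => ?_, fun hs h => ?_⟩
    · nlinarith [mul_le_mul_of_nonneg_left h b0, mul_nonneg hb b2]
    · refine add_pos_of_nonneg_of_pos b2 (mul_pos (Real.smoothTransition.pos_of_pos ?_) h)
      rw [sub_pos, one_lt_div h1]; linarith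

theorem exists_G1 {σ : ℝ} (hσ : 0 < σ) : ∃ G : ℝ → ℝ, ContDiff ℝ ∞ G ∧ (∀ s ≤ 0, G s = 0) ∧
    (∀ s, 0 < s → 0 < G s ∧ G s ≤ σ * deriv G s) ∧
    ∀ N : ℝ, ∀ᶠ y in 𝓝[>] (0 : ℝ), N * G y ≤ y * deriv G y := by
  have hu : ContDiff ℝ ∞ fun s : ℝ => Real.exp (s / σ) := (contDiff_id.div_const σ).exp
  have h := pr_mul pr_e hu (Real.exp_pos _)
  refine ⟨_, h.flat.1, h.one not_false, fun s hs =>
    ⟨mul_pos (expNegInvGlue.pos_of_pos hs) (Real.exp_pos _), ?_⟩, steep_of h⟩
  have h1 : HasDerivAt (fun s : ℝ => Real.exp (s / σ)) (Real.exp (s / σ) * (1 / σ)) s :=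
    ((hasDerivAt_id s).div_const σ).exp
  rw [((diff expNegInvGlue.contDiff s).fun_mul h1).deriv, mul_add]
  have e : σ * (expNegInvGlue s * (Real.exp (s / σ) * (1 / σ))) =
      expNegInvGlue s * Real.exp (s / σ) := by field_simp
  rw [e]
  exact le_add_of_nonneg_left (mul_nonneg hσ.le
    (mul_nonneg expNegInvGlue.monotone.deriv_nonneg (Real.exp_pos _).le))

theorem exists_Phi {A : ℝ} (hA : 0 < A) : ∃ Φ : ℝ → ℝ, ContDiff ℝ ∞ Φ ∧
    (∀ s, 0 < Φ s ∧ Φ s ≤ 1) ∧ (∀ s, 0 ≤ s → Φ s = 1) ∧ (∀ s, s < 0 → 0 < deriv Φ s) ∧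
    ∀ s, s ≤ -1 / 8 → Φ s = Real.exp (A * s) ∧ deriv Φ s = A * Φ s := by
  have hd : ∀ s, deriv (fun s => Real.exp (A * s * Real.smoothTransition (-8 * s))) s =
      Real.exp (A * s * Real.smoothTransition (-8 * s)) *
        (A * 1 * Real.smoothTransition (-8 * s) +
          A * s * (deriv Real.smoothTransition (-8 * s) * (-8 * 1))) := fun s => by
    have h1 := (diff Real.smoothTransition.contDiff (-8 * s)).comp s
      ((hasDerivAt_id s).const_mul (-8))
    exact ((((hasDerivAt_id s).const_mul A).fun_mul h1).exp).deriv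
  have hz : ∀ s : ℝ, 0 ≤ s → Real.smoothTransition (-8 * s) = 0 := fun s hs =>
    Real.smoothTransition.zero_of_nonpos (by linarith)
  refine ⟨fun s => Real.exp (A * s * Real.smoothTransition (-8 * s)),
    ((contDiff_const.mul contDiff_id).mul (Real.smoothTransition.contDiff.comp
      (contDiff_const.mul contDiff_id))).exp, fun s => ⟨Real.exp_pos _, ?_⟩, fun s hs => ?_,
    fun s hs => ?_, fun s hs => ?_⟩
  · rw [Real.exp_le_one_iff]
    rcases le_total 0 s with h | h
    · rw [hz s h, mul_zero]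
    · exact mul_nonpos_of_nonpos_of_nonneg (mul_nonpos_of_nonneg_of_nonpos hA.le h)
        (Real.smoothTransition.nonneg _)
  · simp only [hz s hs, mul_zero, Real.exp_zero]
  · rw [hd]
    refine mul_pos (Real.exp_pos _) ?_
    have a1 := mul_pos hA (Real.smoothTransition.pos_of_pos (show 0 < -8 * s by linarith))
    have a2 := mul_nonneg (mul_nonneg hA.le (neg_nonneg.2 hs.le)) (S_nonneg (-8 * s))
    nlinarith
  · have h1 : Real.smoothTransition (-8 * s) = 1 :=
      Real.smoothTransition.one_of_one_le (by linarith)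
    refine ⟨by simp only [h1, mul_one], ?_⟩
    rw [hd, (S_deriv (-8 * s)).deriv]
    simp only [h1]
    ring

theorem exists_G2 {M σ : ℝ} (hM : 0 < M) (hσ : 0 < σ) : ∃ G : ℝ → ℝ, ContDiff ℝ ∞ G ∧
    (∀ s ≤ 0, G s = 0) ∧ (∀ s, 0 < s → 0 < G s) ∧ (∀ s, 0 ≤ deriv G s ∧ G s ≤ 1) ∧
    (∀ s, 0 < s → s ≤ 4 * M → G s ≤ σ * deriv G s ∧ G s ≤ Real.exp ((s - 4 * M) / σ)) ∧
    (∀ s, 5 * M ≤ s → G s = 1) ∧ ∀ N : ℝ, ∀ᶠ y in 𝓝[>] (0 : ℝ), N * G y ≤ y * deriv G y := by
  obtain ⟨G, h, h1, h2, h3, h4⟩ := exists_G hM hσ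
  refine ⟨G, h.flat.1, h.one not_false, h1, h2, fun s hs hs' => ⟨h3 s hs hs', ?_⟩, h4, steep_of h⟩
  have g := PPS.grow (S := G) (S' := deriv G) (k := 1 / σ) hs' fun y hy =>
    ⟨diff h.flat.1 y, by
      rw [one_div, inv_mul_le_iff₀ hσ]
      rcases le_or_gt y 0 with a | a
      · rw [h.one not_false y a]; exact mul_nonneg hσ.le (h2 y).1
      · exact h3 y a hy⟩
  have g2 := g.trans (h2 (4 * M)).2
  rw [← le_div_iff₀ (Real.exp_pos _), one_div (Real.exp _), ← Real.exp_neg] at g2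
  refine g2.trans (le_of_eq ?_)
  congr 1
  ring

end PROF2

open PROF PROF2 in
theorem st_cutp : St_CUTP := by
  refine ⟨cut_one, fun U y μ f y0 hU h0 hy hμ hZ hf hz k ε hε => ?_⟩
  have hχ : ContDiff ℝ ∞ fun t : ℝ =>
      (Real.smoothTransition (2 * t - 1) - 1) * Real.smoothTransition (t + 1) :=
    ((Real.smoothTransition.contDiff.comp ((contDiff_const.mul contDiff_id).sub
      contDiff_const)).sub contDiff_const).mul
      (Real.smoothTransition.contDiff.comp (contDiff_id.add contDiff_const))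
  have h := st_flat.1 U y μ f _ y0 hU h0 hy hμ hZ (flat_left hf hz) hχ (fun s hs => by
    rcases le_abs.1 hs with a | a
    · rw [Real.smoothTransition.one_of_one_le (by linarith), sub_self, zero_mul]
    · rw [Real.smoothTransition.zero_of_nonpos (x := s + 1) (by linarith), mul_zero]) k ε hε
  filter_upwards [h, self_mem_nhdsWithin] with y1 a b
  have b' : 0 < y1 := b
  have e : ∀ s : ℝ, cutP y1 f s - f s = (Real.smoothTransition (2 * (s / y1) - 1) - 1) *
      Real.smoothTransition (s / y1 + 1) * f s := by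
    intro s
    rcases le_total s 0 with c | c
    · rw [cutP, hz s c]; ring
    · rw [Real.smoothTransition.one_of_one_le (x := s / y1 + 1)
        (le_add_of_nonneg_left (div_nonneg c b'.le)), cutP, mul_div_assoc]
      ring
  simp only [e]
  exact a

open PROF PROF2 in
theorem st_prof2 : St_PROF2 := by
  refine ⟨fun _ h => exists_G1 h, fun _ h => exists_Phi h, fun s h0 h1 => ?_, fun N => ?_,
    steep_of pr_e, fun _ _ hM hσ => exists_G2 hM hσ, fun f g s a b hf hg f0 g0 f1 g1 hb h => ?_⟩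
  · exact lt_of_lt_of_le (mul_pos (Real.smoothTransition.pos_of_pos h0)
      (sub_pos.2 (Real.smoothTransition.lt_one_of_lt_one h1))) (S_low h0 h1.le)
  · filter_upwards [steep_of pr_S N] with y h
    exact ⟨h, by rw [S_symm, S_deriv_symm]; exact h⟩
  · rw [(hf.hasDerivAt.fun_mul hg.hasDerivAt).deriv]
    rcases h with h | h
    · nlinarith [mul_le_mul_of_nonneg_right h g0, mul_nonneg hb (mul_nonneg f0 g1)]
    · nlinarith [mul_le_mul_of_nonneg_right h f0, mul_nonneg hb (mul_nonneg f1 g0)]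

end Pool.Agent.Lib.SH
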