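import Pool.Agent.Lib.SH.Defs
import Pool.Agent.Lib.MP_9ccfb7_an.Limit

namespace Pool.Agent.Lib.SH

theorem hull_eq (K : Set E) : hull K = MP_9ccfb7_an.hull K := by
  ext x
  constructor
  · intro h p M hM
    exact h (fun y => MvPolynomial.eval ![y.1, y.2] p) ⟨p, fun _ => rfl⟩ M hM
  · rintro h p ⟨q, hq⟩ M hM
    rw [hq]
    exact h q M fun y hy => hq y ▸ hM y hy

end Pool.Agent.Lib.SH
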