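import Pool.Agent.Lib.SH.Ring1
import Pool.Agent.Lib.SH.B_PB
import Pool.Agent.Lib.SH.B_NW
import Pool.Agent.Lib.SH.B_NL0

/-!
Window packages in the annulus chart: boxes, active and neutral windows, micro ports.
-/

open Set Filter Topology Metric

noncomputable section

namespace Pool.Agent.Lib.SH.Ring

open Win

variable {x : ℂ} {δ ρ : ℝ}

/-- admissible boxes of a window of radius `R` in the window chart -/
def Adm (R x0 r : ℝ) : Prop := 1 / 16 ≤ r ∧ |x0| + 2 * r ≤ R ∧ (r ≤ 1 / 2 ∨ 8 * r = |x0|)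

/-- the window without the port zone -/
def wo (x : ℂ) (δ ρ : ℝ) : Set ℂ := {z | ‖z - x‖ ≤ ρ ∧ 1 / 10 < pc x δ 0 z}

theorem wch_zero (x : ℂ) (δ : ℝ) : wch x δ 0 0 = x := by simp [wch]

theorem wch_ball (hx : ‖x‖ = 1) (hδ : 0 < δ) (hρ : ρ ≤ 1 / 8) {z : ℂ} (hz : ‖z‖ ≤ ρ / (2 * δ)) :
    wch x δ 0 z ∈ closedBall x ρ := by
  have h0 : 0 ≤ ρ := by
    have := (norm_nonneg z).trans hz
    rwa [le_div_iff₀ (by positivity), zero_mul] at this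
  have := (wch_mem (yr := 0) hx hδ hρ (by simpa using h0) hz).1
  rw [mem_closedBall_iff_norm]; linarith

theorem box_norm {R x0 r : ℝ} (h : |x0| + 2 * r ≤ R) {z : ℂ} (hz : z ∈ box x0 r r) : ‖z‖ ≤ R := by
  have h1 := Complex.norm_le_abs_re_add_abs_im z
  have h2 := abs_sub_abs_le_abs_sub z.re x0
  linarith [hz.1, hz.2]

theorem Adm.far {R x0 r : ℝ} (h : Adm R x0 r) {z : ℂ} (hz : z ∈ box x0 r r) :
    1 / 4 < ‖z - Complex.I‖ ∧ r ≤ 1 + ‖z‖ := by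
  have h1 := Complex.abs_im_le_norm (z - Complex.I)
  have h2 := Complex.abs_re_le_norm (z - Complex.I)
  have h3 := Complex.abs_re_le_norm z
  simp only [Complex.sub_im, Complex.I_im, Complex.sub_re, Complex.I_re, sub_zero] at h1 h2
  have h4 := abs_sub_abs_le_abs_sub x0 z.re
  rw [abs_sub_comm] at h4
  have h5 := hz.1
  have h6 := (abs_le.1 hz.2).2
  have h7 := neg_abs_le (z.im - 1)
  rcases le_total r (1 / 2) with a | a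
  · exact ⟨by linarith, by linarith [norm_nonneg z]⟩
  · rcases h.2.2 with b | b
    · exact ⟨by linarith, by linarith [norm_nonneg z]⟩
    · exact ⟨by linarith, by linarith⟩

theorem Adm.mem {x0 r : ℝ} (h : Adm (ρ / (2 * δ)) x0 r) (hx : ‖x‖ = 1) (hδ : 0 < δ)
    (hδ1 : δ ≤ 1 / 16) (hρ : ρ ≤ 1 / 8) {z : ℂ} (hz : z ∈ box x0 r r) :
    wch x δ 0 z ∈ wo x δ ρ := by
  have h1 := box_norm h.2.1 hz
  refine ⟨mem_closedBall_iff_norm.1 (wch_ball hx hδ hρ h1), not_le.1 fun a => ?_⟩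
  linarith [near_of_pc (ne0 hx) hδ (dist_I hδ hδ1 hρ h1) a, (h.far hz).1]

theorem wch_far (hx : ‖x‖ = 1) (hδ : 0 < δ) (hρ : ρ ≤ 1 / 8) {z : ℂ} (hz : ‖z‖ ≤ ρ / (2 * δ)) :
    7 / 8 * (δ * ‖z‖) ≤ ‖wch x δ 0 z - x‖ ∧ ‖wch x δ 0 z - x‖ ≤ 9 / 8 * (δ * ‖z‖) := by
  have h1 : δ * ‖z - 0‖ ≤ 1 / 8 := by
    rw [le_div_iff₀ (by positivity)] at hz
    rw [sub_zero]; linarith
  have := wch_dist (x := x) (yr := 0) hδ h1
  rwa [wch_zero, hx, mul_one, sub_zero] at this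

/-- all admissible boxes of a window -/
theorem wb_win (ι C : ℝ) (hι : 0 < ι) (hC : 0 ≤ C) : ∃ o > (0 : ℝ), ∀ (I : Type) [Fintype I]
    (X K : Set E) (Q V : E → ℂ) (g : ℂ → ℂ) (Ef Ef' : I → ℝ → ℝ) (u : I → ℂ → ℂ) (a : I → ℝ)
    (Θ : E → ℂ) (Cf : ℂ → ℝ) (Ω : Set ℂ) (x : ℂ) (e e0 om δ ρ t Λ rr : ℝ) (pw : ℕ),
    ‖x‖ = 1 → 0 < δ → δ ≤ 1 / 16 → ρ ≤ 1 / 8 → 0 < t → t ≤ o * δ → 0 < om → om ≤ o * δ →
    (pw = 1 ∨ pw = 2) → RW Ef Ef' u a Θ e0 om Cf t rr →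
    (∀ z ∈ closedBall x ρ, |Real.log ‖z‖| ≤ 2 * t → Cf z * (δ + ‖z - x‖) ≤ C / 2) →
    AnalyticOnNhd ℂ V (ov X Ω) →
    ∀ x0 r lv lev : ℝ, Adm (ρ / (2 * δ)) x0 r → Rd e e0 lev →
    (∀ z ∈ box x0 r r, wch x δ 0 z ∈ Ω ∧ AnalyticAt ℂ g z ∧ r * ‖deriv g z‖ ≤ Λ ∧
      (z.im = 0 → |(g z).im| ≤ ι) ∧ lev * Real.exp (g z).re ≤ lv ^ pw ∧
      ∀ w : ℂ, Q (wch x δ 0 z, w) ^ pw = pp e (V (wch x δ 0 z, w)) * Complex.exp (g z)) →
    KW X K V (fun z => Θ (z, zs Ef u z)) (wo x δ ρ) t (fun y => lv < ‖Q y‖) →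
    WB (bc (wch x δ 0) ⁻¹' X) (bc (wch x δ 0) ⁻¹' K) (fun y => Q (bc (wch x δ 0) y)) x0 r ι
      (cW C) Λ lv := by
  obtain ⟨o, ho, H⟩ := wb_of ι C hι hC
  refine ⟨min (o / 16) 1, by positivity, ?_⟩
  intro I _ X K Q V g Ef Ef' u a Θ Cf Ω x e e0 om δ ρ t Λ rr pw hx d0 d1 hρ t0 t1 o0 o1 hpw hW hf
    hV x0 r lv lev hA hR hg hK
  have b1 := min_le_left (o / 16) 1
  have b2 := min_le_right (o / 16) 1
  have r0 : 0 < r := by linarith [hA.1]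
  have r1 : δ * r ≤ 1 := by
    have := hA.2.1
    rw [le_div_iff₀ (by positivity)] at this
    nlinarith [abs_nonneg x0]
  have r2 : δ ≤ min 1 r⁻¹ := le_min (by linarith) (by
    rw [← one_div, le_div_iff₀ r0]; exact r1)
  have t2 : t ≤ o / 16 * δ := t1.trans (by gcongr)
  refine H I X K Q V g Ef Ef' u a Θ Cf Ω x e e0 om δ x0 r t Λ lv lev rr pw hx d0 (by linarith) r0 t0
    (by nlinarith) (by nlinarith [hA.1, mul_pos ho d0]) o0 (o1.trans ?_) hpw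
    (fun z hz => (hg z hz).1) hV (fun z hz => ⟨(hg z hz).2.1, (hg z hz).2.2.1, (hg z hz).2.2.2.1,
      (hg z hz).2.2.2.2.1⟩) (fun y hy => (hg _ hy).2.2.2.2.2 y.2) hW hR (fun z hz c => ?_)
    fun y hy hl => ?_
  · exact mul_le_mul (by linarith) r2 d0.le ho.le
  · have c1 := box_norm hA.2.1 hz
    have c2 := hf _ (wch_ball hx d0 hρ c1) (by rwa [abs_log_wch hx d0])
    have c3 := (wch_far hx d0 hρ c1).1
    have c4 := (hA.far hz).2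
    rcases le_total (Cf (wch x δ 0 z)) 0 with c5 | c5
    · exact (mul_nonpos_of_nonneg_of_nonpos r0.le (mul_nonpos_of_nonneg_of_nonpos d0.le c5)).trans
        hC
    · have c6 : r * δ ≤ 2 * (δ + ‖wch x δ 0 z - x‖) := by nlinarith [norm_nonneg z]
      nlinarith [mul_le_mul_of_nonneg_right c6 c5]
  · have := hK (bc (wch x δ 0) y) ⟨hy.1, hA.mem hx d0 d1 hρ hy.2⟩ hl
    rw [← abs_log_wch hx d0]
    exact this

/-- a function with a zero at the port, in the window chart -/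
theorem anB_wch (hx : ‖x‖ = 1) {P : E → ℂ} {y : E} (hy : y.1 = Complex.I) {G : E → ℂ}
    (hG : AnalyticAt ℂ G (bc (wch x δ 0) y))
    (h : ∀ᶠ v in 𝓝 (bc (wch x δ 0) y), P v = (v.1 - wch x δ 0 Complex.I) * G v) :
    ∃ F : E → ℂ, AnalyticAt ℂ F y ∧
      ∀ᶠ v in 𝓝 y, P (bc (wch x δ 0) v) = (v.1 - Complex.I) * F v := by
  have h1 : AnalyticAt ℂ (bc (wch x δ 0)) y := an_bc (an_wch x δ 0 _)
  obtain ⟨p, hp⟩ := an_wch x δ 0 Complex.I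
  have h2 : AnalyticAt ℂ (dslope (wch x δ 0) Complex.I) y.1 := by
    rw [hy]; exact ⟨_, hp.has_fpower_series_dslope_fslope⟩
  refine ⟨fun v => dslope (wch x δ 0) Complex.I v.1 * G (bc (wch x δ 0) v),
    (h2.comp analyticAt_fst).mul (hG.comp h1), (h1.continuousAt.eventually h).mono fun v hv => ?_⟩
  rw [hv, ← mul_assoc, ← smul_eq_mul (v.1 - Complex.I), sub_smul_dslope]
  rfl

/-- standing hypotheses on a window -/
structure WH (X K : Set E) (P : E → ℂ) (x : ℂ) (δ ρ : ℝ) : Prop where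
  hx : ‖x‖ = 1
  pos : 0 < δ
  le : 64 * δ ≤ ρ
  rho : ρ ≤ 1 / 8
  np : NP X K (closedBall x ρ)
  up : ∀ y ∈ ov X (closedBall x ρ), ‖y.1‖ ≤ 1
  an : AnalyticOnNhd ℂ P (ov X (closedBall x ρ))
  anB : ∀ y ∈ X, y.1 = wch x δ 0 Complex.I → ∃ G : E → ℂ, AnalyticAt ℂ G y ∧
    ∀ᶠ v in 𝓝 y, P v = (v.1 - wch x δ 0 Complex.I) * G v

namespace WH

variable {X K : Set E} {P : E → ℂ} (h : WH X K P x δ ρ)
include h

theorem d1 : δ ≤ 1 / 16 := by linarith [h.le, h.rho]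

theorem mem {z : ℂ} (hz : z ∈ closedBall (0 : ℂ) (ρ / (2 * δ))) : wch x δ 0 z ∈ closedBall x ρ :=
  wch_ball h.hx h.pos h.rho (mem_closedBall_zero_iff.1 hz)

theorem np' : NP (bc (wch x δ 0) ⁻¹' X) (bc (wch x δ 0) ⁻¹' K) (closedBall 0 (ρ / (2 * δ))) :=
  np_wch h.np (ne0 h.hx) h.pos (isCompact_closedBall _ _) fun _ hz => h.mem hz

theorem up' : ∀ y ∈ ov (bc (wch x δ 0) ⁻¹' X) (closedBall 0 (ρ / (2 * δ))), 0 ≤ y.1.im := by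
  intro y hy
  have := h.up (bc (wch x δ 0) y) ⟨hy.1, h.mem hy.2⟩
  change ‖wch x δ 0 y.1‖ ≤ 1 at this
  rw [norm_wch h.hx, Real.exp_le_one_iff, add_zero] at this
  exact nonneg_of_mul_nonneg_right (by linarith) h.pos

theorem an' : AnalyticOnNhd ℂ (fun y => P (bc (wch x δ 0) y))
    (ov (bc (wch x δ 0) ⁻¹' X) (closedBall 0 (ρ / (2 * δ)))) :=
  an_pull h.an fun z hz => ⟨an_wch x δ 0 z, h.mem hz⟩

theorem anB' : ∀ y ∈ bc (wch x δ 0) ⁻¹' X, y.1 = Complex.I → ∃ F : E → ℂ, AnalyticAt ℂ F y ∧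
    ∀ᶠ v in 𝓝 y, P (bc (wch x δ 0) v) = (v.1 - Complex.I) * F v := fun y hy e => by
  obtain ⟨G, a, b⟩ := h.anB (bc (wch x δ 0) y) hy (by rw [← e]; rfl)
  exact anB_wch h.hx e a b

theorem big : 32 ≤ ρ / (2 * δ) := by
  rw [le_div_iff₀ (by linarith [h.pos])]; linarith [h.le]

/-- port zone: comparison with the model factor -/
theorem bl_le {z : ℂ} (hz : ‖z‖ ≤ ρ / (2 * δ)) (h1 : pc x δ 0 (wch x δ 0 z) ≤ 1 / 10) :
    3 / 4 * pc x δ 0 (wch x δ 0 z) ≤ ‖bl z‖ ∧ ‖bl z‖ ≤ 4 / 3 * pc x δ 0 (wch x δ 0 z) :=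
  bl_pc (ne0 h.hx) h.pos (by linarith [h.d1])
    (near_of_pc (ne0 h.hx) h.pos (dist_I h.pos h.d1 h.rho hz) h1)

theorem ppp {L b0 C : ℝ} (hL : 13 ≤ L) {q : E → ℝ}
    (hp : PortB (X \ K) q (wch x δ 0 Complex.I) (prad x δ 0 L) b0 C) (b : ℝ) (hb : b0 ≤ b)
    (h1 : ∀ y ∈ bc (wch x δ 0) ⁻¹' X, y ∉ bc (wch x δ 0) ⁻¹' K → Real.exp (-L + 3) ≤ ‖bl y.1‖ →
      ‖bl y.1‖ ≤ Real.exp (-L + 4) → q (bc (wch x δ 0) y) ≤ b) :
    ∀ y ∈ bc (wch x δ 0) ⁻¹' X, y ∉ bc (wch x δ 0) ⁻¹' K → ‖y.1‖ ≤ ρ / (2 * δ) →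
      ‖bl y.1‖ ≤ Real.exp (-L + 3) → q (bc (wch x δ 0) y) ≤ C * b := fun y hy hk h2 h3 => by
  have d0 := h.pos
  refine (st_pb2 (st_pp2 st_nw st_pull st_mpabs)).2 (X \ K) q x δ 0 L (ρ / (2 * δ)) b0 C
    (ne0 h.hx) h.pos (by linarith) (by linarith [h.big]) ?_ hp b hb
    (fun v hv => h1 v hv.1 hv.2) y ⟨hy, hk⟩ (fun e => ?_) h2 h3
  · rw [← mul_div_assoc, div_le_iff₀ (by positivity)]; nlinarith [h.rho]
  · have := h.up' y ⟨hy, mem_closedBall_zero_iff.2 h2⟩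
    rw [e] at this
    norm_num at this

end WH

theorem log_43 : Real.log (4 / 3) ≤ 3 / 10 := by
  rw [Real.log_le_iff_le_exp (by norm_num)]
  have := Real.quadratic_le_exp_of_nonneg (x := 3 / 10) (by norm_num)
  linarith

theorem exp_07 : 4 / 3 * Real.exp (7 / 10) ≤ Real.exp 1 := by
  have h1 : (4 / 3 : ℝ) ≤ Real.exp (3 / 10) := (Real.log_le_iff_le_exp (by norm_num)).1 log_43
  rw [show (1 : ℝ) = 3 / 10 + 7 / 10 by norm_num, Real.exp_add]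
  gcongr

theorem pc_small {L s : ℝ} (hL : 13 ≤ L) (h : s ≤ Real.exp (-L + 7 / 10)) : s ≤ 1 / 10 :=
  h.trans ((Real.exp_le_exp.2 (by linarith)).trans (exp_small hL))

/-- the chart bound of an active window -/
def ActB (D : Set E) (P : E → ℂ) (x : ℂ) (δ ρ β M : ℝ) : Prop :=
  ∀ O : ℝ, 0 ≤ O → (∀ y ∈ bc (wch x δ 0) ⁻¹' D, ρ / (2 * δ) / M ≤ ‖y.1‖ →
    ‖y.1‖ ≤ ρ / (2 * δ) → ‖P (bc (wch x δ 0) y)‖ ≤ O) → ∀ r : ℝ, 8 ≤ r → r ≤ ρ / (2 * δ) →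
    ∀ y ∈ bc (wch x δ 0) ⁻¹' D, ‖y.1‖ ≤ r →
      ‖P (bc (wch x δ 0) y)‖ ≤ M ^ 2 * (r / (ρ / (2 * δ))) ^ (2 - β) * O

/-- active windows -/
theorem act_win (hA : St_WACT) : ∃ L0 ≥ (13 : ℝ), ∀ β L : ℝ, 0 < β → β ≤ 1 → L0 ≤ L →
    ∃ M ≥ (64 : ℝ), ∀ C0 Λ : ℝ, ∃ ι > (0 : ℝ), ∀ (X K : Set E) (P : E → ℂ) (x : ℂ) (δ ρ b0 : ℝ),
    WH X K P x δ ρ → 2 * M * δ ≤ ρ →
    (b0 = 0 ∨ ∃ y ∈ X, y ∉ K ∧ ‖y.1 - x‖ ≤ 7 * δ ∧ b0 ≤ ι * ‖P y‖) →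
    (∀ y ∈ ov X (closedBall x ρ), y ∈ K → P y = 0 ∨
      (-Real.log ‖y.1‖ ≤ ι * δ ∧ |Complex.arg (P y)| ≤ ι) ∨
      (0 < pc x δ 0 y.1 ∧ |Real.log (pc x δ 0 y.1) + L| ≤ 7 / 10 ∧
        |Complex.arg (P y) - Real.pi / 4| ≤ 1 / L) ∨
      (pc x δ 0 y.1 ≤ Real.exp (-L + 7 / 10) ∧ ‖P y‖ ≤ b0 * Real.exp L * (pc x δ 0 y.1 / 2))) →
    (∀ x0 r, Adm (ρ / (2 * δ)) x0 r → WBL (bc (wch x δ 0) ⁻¹' X) (bc (wch x δ 0) ⁻¹' K)
      (fun y => P (bc (wch x δ 0) y)) x0 r ι C0 Λ) →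
    PortB (X \ K) (fun y => ‖P y‖) (wch x δ 0 Complex.I) (prad x δ 0 L) b0 1000 →
    ActB (X \ K) P x δ ρ β M := by
  obtain ⟨L0, H⟩ := hA
  refine ⟨max L0 13, le_max_right _ _, fun β L b1 b2 hL => ?_⟩
  obtain ⟨M, hM, H⟩ := H β L b1 b2 ((le_max_left _ _).trans hL)
  have hL' : 13 ≤ L := (le_max_right _ _).trans hL
  refine ⟨M, hM, fun C0 Λ => ?_⟩
  obtain ⟨ι, hι, H⟩ := H C0 Λ
  refine ⟨ι, hι, fun X K P x δ ρ b0 h hρ hb hc hw hp => ?_⟩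
  have d0 := h.pos
  have hR : M ≤ ρ / (2 * δ) := by rw [le_div_iff₀ (by positivity)]; linarith
  have hs : b0 ≤ ι * supW (bc (wch x δ 0) ⁻¹' X \ bc (wch x δ 0) ⁻¹' K)
      (fun y => P (bc (wch x δ 0) y)) 8 := by
    rcases hb with e | ⟨y, a1, a2, a3, a4⟩
    · rw [e]
      exact mul_nonneg hι.le (Real.sSup_nonneg (by rintro _ ⟨v, -, rfl⟩; exact norm_nonneg _))
    obtain ⟨ζ, c1, c2⟩ := wch_surj (yr := 0) (ne0 h.hx) d0 0 (z := y.1) (by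
      rw [wch_zero, h.hx]; linarith [h.le, h.rho])
    have c3 := (wch_dist (x := x) (yr := 0) d0 c2).1
    rw [c1, wch_zero, h.hx, mul_one, sub_zero] at c3
    have c4 : ‖ζ‖ ≤ 8 := by nlinarith
    have c5 : bc (wch x δ 0) (ζ, y.2) = y := Prod.ext c1 rfl
    refine a4.trans (mul_le_mul_of_nonneg_left (le_csSup ?_ ⟨(ζ, y.2), ⟨⟨by
      rwa [mem_preimage, c5], by rwa [mem_preimage, c5]⟩, mem_closedBall_zero_iff.2 c4⟩,
      by simp only [c5]⟩) hι.le)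
    refine (h.np'.cpt.bddAbove_image h.an'.continuousOn.norm).mono (image_mono fun v hv => ?_)
    exact ⟨hv.1.1, closedBall_subset_closedBall (by linarith) hv.2⟩
  have e0 := Real.exp_pos L
  refine fun O hO h1 r r1 r2 y hy => H _ _ _ _ ⟨h.np', h.up', h.an', h.anB', fun v hv hk => ?_,
    fun x0 a1 a2 => hw x0 _ ⟨by linarith, by linarith, Or.inr (by ring)⟩,
    fun x0 a1 => hw x0 _ ⟨by norm_num, by linarith, Or.inl le_rfl⟩,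
    fun b a1 => h.ppp hL' hp b (hs.trans a1)⟩ hR O hO (fun v a1 a2 => h1 v ⟨a1, a2⟩) r r1 r2 y
    hy.1 hy.2
  have v1 := mem_closedBall_zero_iff.1 hv.2
  rcases hc (bc (wch x δ 0) v) ⟨hv.1, h.mem hv.2⟩ hk with a | a | a | a
  · exact Or.inl a
  · refine Or.inr (Or.inl ⟨?_, a.2⟩)
    have := a.1
    change -Real.log ‖wch x δ 0 v.1‖ ≤ _ at this
    rw [log_wch h.hx, add_zero] at this
    nlinarith
  · obtain ⟨a1, a2, a3⟩ := a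
    change 0 < pc x δ 0 (wch x δ 0 v.1) at a1
    change |Real.log (pc x δ 0 (wch x δ 0 v.1)) + L| ≤ _ at a2
    rw [abs_le] at a2
    have a4 := h.bl_le v1 (pc_small hL' ((Real.log_le_iff_le_exp a1).1 (by linarith)))
    have a5 := Real.log_le_log (by positivity) a4.1
    have a6 := Real.log_le_log (by linarith) a4.2
    rw [Real.log_mul (by norm_num) a1.ne'] at a5 a6
    have a7 : Real.log (3 / 4) = -Real.log (4 / 3) := by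
      rw [← Real.log_inv]; norm_num
    refine Or.inr (Or.inr (Or.inl ⟨abs_le.2 ⟨by linarith [log_43], by linarith [log_43]⟩,
      fun e => ?_, a3⟩))
    rw [e] at a1
    simp [pc] at a1
  · obtain ⟨a1, a2⟩ := a
    change pc x δ 0 (wch x δ 0 v.1) ≤ _ at a1
    change ‖P (bc (wch x δ 0) v)‖ ≤ b0 * Real.exp L * (pc x δ 0 (wch x δ 0 v.1) / 2) at a2
    have a4 := h.bl_le v1 (pc_small hL' a1)
    have a5 : 0 ≤ pc x δ 0 (wch x δ 0 v.1) := by unfold pc; positivity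
    refine Or.inr (Or.inr (Or.inr ⟨a4.2.trans ?_, a2.trans ?_⟩))
    · rw [Real.exp_add] at a1 ⊢
      nlinarith [exp_07, Real.exp_pos (-L)]
    · refine mul_le_mul (by gcongr) (by linarith) (by positivity) ?_
      exact mul_nonneg (mul_nonneg hι.le (Real.sSup_nonneg (by
        rintro _ ⟨v, -, rfl⟩; exact norm_nonneg _))) e0.le

/-- the chart bound of a neutral window, for the points with the property `ok` -/
def NeuB (D : Set E) (Q : E → ℂ) (x : ℂ) (δ ρ CN M : ℝ) (ok : ℂ → Prop) : Prop :=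
  ∀ O : ℝ, 0 ≤ O → (∀ y ∈ bc (wch x δ 0) ⁻¹' D, ρ / (2 * δ) / M ≤ ‖y.1‖ →
    ‖y.1‖ ≤ ρ / (2 * δ) → ‖Q (bc (wch x δ 0) y)‖ ≤ O) →
    ∀ y ∈ bc (wch x δ 0) ⁻¹' D, ‖y.1‖ ≤ ρ / (2 * δ) / 2 → ok y.1 →
      ‖Q (bc (wch x δ 0) y)‖ ≤ CN * O

/-- neutral windows with a plain port -/
theorem neu_win (hN : St_WNEU) : ∃ L0 ≥ (13 : ℝ), ∃ CN ≥ (1 : ℝ), ∃ M ≥ (64 : ℝ),
    ∀ L C0 Λ : ℝ, L0 ≤ L → ∃ ι > (0 : ℝ), ∀ (X K : Set E) (Q : E → ℂ) (x : ℂ) (j δ ρ : ℝ),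
    (j = 1 ∨ j = 2) → WH X K Q x δ ρ → 4 * M * δ ≤ ρ →
    (∀ y ∈ ov X (closedBall x ρ), y ∈ K → Q y ≠ 0 →
      (-Real.log ‖y.1‖ ≤ ι * δ ∧ |(Q y).im| ≤ ι * δ * ‖Q y‖) ∨
      (pc x δ 0 y.1 ≤ Real.exp (-L + 7 / 10) ∧
        |(Q y * Complex.exp (-(Complex.I * (j * Real.pi / 4)))).im| ≤ 4 / L * ‖Q y‖)) →
    (∀ x0 r, Adm (ρ / (2 * δ)) x0 r → WB (bc (wch x δ 0) ⁻¹' X) (bc (wch x δ 0) ⁻¹' K)
      (fun y => Q (bc (wch x δ 0) y)) x0 r ι C0 Λ 0) →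
    NeuB (X \ K) Q x δ ρ CN 8 fun z => Real.exp (-L + 2) ≤ ‖bl z‖ := by
  obtain ⟨L0, CN, hC, c0, hc, M, hM, H⟩ := hN
  refine ⟨max L0 13, le_max_right _ _, CN, hC, M, hM, fun L C0 Λ hL => ?_⟩
  obtain ⟨ι, hι, H⟩ := H L C0 Λ ((le_max_left _ _).trans hL)
  have hL' : 13 ≤ L := (le_max_right _ _).trans hL
  refine ⟨min ι c0, by positivity, fun X K Q x j δ ρ hj h hρ hc1 hw O hO h1 y hy h2 h3 => ?_⟩
  have d0 := h.pos
  have d1 := h.d1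
  have m1 := min_le_left ι c0
  have m2 := min_le_right ι c0
  have m0 : 0 < min ι c0 := by positivity
  have hR : 2 * M ≤ ρ / (2 * δ) := by rw [le_div_iff₀ (by positivity)]; linarith
  have hw' : ∀ x0 r, Adm (ρ / (2 * δ)) x0 r → WB (bc (wch x δ 0) ⁻¹' X) (bc (wch x δ 0) ⁻¹' K)
      (fun y => Q (bc (wch x δ 0) y)) x0 r ι C0 Λ 0 := fun x0 r a => NL0.wb_mono (hw x0 r a) m1
  refine H _ _ _ j (min ι c0 * δ) _ hj (by linarith) (by positivity) (by nlinarith) ?_ h.np' h.up'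
    h.an' (fun v a1 a2 => ?_) (fun v hv hk hq => ?_)
    (fun x0 a1 a2 => hw' x0 _ ⟨by linarith, by linarith, Or.inr (by ring)⟩)
    (fun x0 a1 => hw' x0 _ ⟨le_rfl, by linarith, Or.inl (by norm_num)⟩) O hO
    (fun v a1 a2 => h1 v ⟨a1, a2⟩) y hy.1 hy.2 (by linarith) h3
  · have a1 := Real.log_le_sub_one_of_pos (show 0 < ρ / (2 * δ) by linarith)
    have a2 : δ * (ρ / (2 * δ)) = ρ / 2 := by field_simp
    have a3 : δ * (1 + Real.log (ρ / (2 * δ))) ≤ 1 := by nlinarith [h.rho]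
    rw [mul_assoc]
    nlinarith
  · obtain ⟨F, -, b⟩ := h.anB' v a1 a2
    rw [b.self_of_nhds, a2, sub_self, zero_mul]
  · rcases hc1 (bc (wch x δ 0) v) ⟨hv.1, h.mem hv.2⟩ hk hq with a | a
    · refine Or.inl ⟨?_, a.2⟩
      have := a.1
      change -Real.log ‖wch x δ 0 v.1‖ ≤ _ at this
      rw [log_wch h.hx, add_zero] at this
      nlinarith
    · refine Or.inr ⟨(h.bl_le (mem_closedBall_zero_iff.1 hv.2) (pc_small hL' a.1)).2.trans ?_, a.2⟩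
      have a1 := a.1
      change pc x δ 0 (wch x δ 0 v.1) ≤ _ at a1
      rw [Real.exp_add] at a1 ⊢
      nlinarith [exp_07, Real.exp_pos (-L)]

theorem near_of_bl' {z : ℂ} (h0 : 0 < ‖bl z‖) (h : ‖bl z‖ ≤ 1 / 10) :
    ‖z - Complex.I‖ ≤ 1 / 4 := by
  have h5 : 0 < ‖z + Complex.I‖ := norm_pos_iff.2 fun e => by simp [bl, e] at h0
  have h3 := norm_add_le (z - Complex.I) (2 * Complex.I)
  rw [show z - Complex.I + 2 * Complex.I = z + Complex.I by ring,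
    show ‖(2 * Complex.I : ℂ)‖ = 2 by simp] at h3
  rw [bl, norm_div, div_le_iff₀ h5] at h
  linarith

/-- the bound of a neutral window extends over the port -/
theorem NeuB.fill {X K : Set E} {Q : E → ℂ} {L CN M C : ℝ} (h : WH X K Q x δ ρ) (hL : 13 ≤ L)
    (hC : 1 ≤ C) (hN : 0 ≤ CN)
    (h1 : NeuB (X \ K) Q x δ ρ CN M fun z => Real.exp (-L + 2) ≤ ‖bl z‖)
    (hp : PortB (X \ K) (fun y => ‖Q y‖) (wch x δ 0 Complex.I) (prad x δ 0 L) 0 C) :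
    NeuB (X \ K) Q x δ ρ (C * CN) M fun _ => True := by
  intro O hO h2 y hy h3 _
  have e1 : Real.exp (-L + 2) ≤ Real.exp (-L + 3) := Real.exp_le_exp.2 (by linarith)
  have hb := h.big
  rcases le_total (Real.exp (-L + 3)) ‖bl y.1‖ with a | a
  · refine (h1 O hO h2 y hy h3 (e1.trans a)).trans ?_
    rw [mul_assoc]
    exact le_mul_of_one_le_left (by positivity) hC
  · rw [mul_assoc]
    refine h.ppp hL hp (CN * O) (by positivity) (fun v a1 a2 a3 a4 => h1 O hO h2 v ⟨a1, a2⟩ ?_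
      (e1.trans a3)) y hy.1 hy.2 (by linarith) a
    have a5 := near_of_bl' ((Real.exp_pos _).trans_le a3) (a4.trans (exp_small hL))
    have a6 := norm_le_norm_add_norm_sub' v.1 Complex.I
    rw [Complex.norm_I] at a6
    linarith

end Pool.Agent.Lib.SH.Ring
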