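import Pool.Agent.Lib.SH.Blue8
import Pool.Agent.Lib.SH.Ring2
import Pool.Agent.Lib.SH.B_WACT
import Pool.Agent.Lib.SH.B_QL
import Pool.Agent.Lib.SH.B_NWB

/-! Windows with a pinned zero are active above the threshold. -/

open Set Filter Topology Metric

noncomputable section

namespace Pool.Agent.Lib.SH

namespace NB1

open Win

/-- thin sector about the positive axis -/
def Thin (t : ℝ) (w : ℂ) : Prop := 0 ≤ w.re ∧ |w.im| ≤ t * ‖w‖

theorem Thin.mul {s t : ℝ} {a b : ℂ} (ha : Thin s a) (hb : Thin t b) (hs : s ≤ 1 / 2)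
    (ht : t ≤ 1 / 2) : Thin (s + t) (a * b) := by
  have a1 := Complex.norm_le_abs_re_add_abs_im a
  have b1 := Complex.norm_le_abs_re_add_abs_im b
  have a2 := Complex.abs_re_le_norm a
  have b2 := Complex.abs_re_le_norm b
  rw [abs_of_nonneg ha.1] at a1 a2
  rw [abs_of_nonneg hb.1] at b1 b2
  have a0 := norm_nonneg a
  have b0 := norm_nonneg b
  have a3 : |a.im| ≤ a.re := by nlinarith [ha.2]
  have b3 : |b.im| ≤ b.re := by nlinarith [hb.2]
  constructor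
  · rw [Complex.mul_re, sub_nonneg]
    refine (le_abs_self _).trans ?_
    rw [abs_mul]
    exact mul_le_mul a3 b3 (abs_nonneg _) ha.1
  · rw [Complex.mul_im, norm_mul]
    refine (abs_add_le _ _).trans ?_
    rw [abs_mul, abs_mul, abs_of_nonneg ha.1, abs_of_nonneg hb.1]
    nlinarith [mul_le_mul a2 hb.2 (abs_nonneg _) a0, mul_le_mul ha.2 b2 hb.1
      ((abs_nonneg _).trans ha.2)]

theorem Thin.arg {t : ℝ} {w : ℂ} (h : Thin t w) (ht : 0 ≤ t) : |Complex.arg w| ≤ 2 * t := by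
  by_cases h0 : w = 0
  · rw [h0, Complex.arg_zero, abs_zero]; positivity
  have h1 := Complex.abs_arg_le_pi_div_two_iff.2 h.1
  have h2 := Real.mul_abs_le_abs_sin h1
  rw [Complex.sin_arg, abs_div, abs_norm] at h2
  have h3 : |w.im| / ‖w‖ ≤ t := (div_le_iff₀ (norm_pos_iff.2 h0)).2 h.2
  have h4 : 1 / 2 ≤ 2 / Real.pi := by
    rw [le_div_iff₀ Real.pi_pos]; linarith [Real.pi_le_four]
  nlinarith [abs_nonneg (Complex.arg w)]

theorem sq1_re (z : ℂ) : (sq1 z).re = (z.re + 1) ^ 2 - z.im ^ 2 + 2 := by simp [sq1, sq]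

theorem sq1_im (z : ℂ) : (sq1 z).im = 2 * (z.re + 1) * z.im := by simp [sq1, sq]; ring

theorem ne_of_re {z : ℂ} (h : 0 < (sq1 z).re) : sq1 z ≠ 0 := fun e => by simp [e] at h

theorem thin_hub {z : ℂ} {t : ℝ} (h0 : 0 ≤ z.im) (h : z.im ≤ t) (ht : t ≤ 1 / 2) :
    Thin t (sq1 z) ∧ sq1 z ≠ 0 := by
  have h1 : (z.re + 1) ^ 2 + 1 ≤ (sq1 z).re := by rw [sq1_re]; nlinarith
  have h2 : 2 * |z.re + 1| ≤ (sq1 z).re := by
    nlinarith [sq_abs (z.re + 1), sq_nonneg (|z.re + 1| - 1)]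
  have h3 := Complex.re_le_norm (sq1 z)
  have h4 := abs_nonneg (z.re + 1)
  refine ⟨⟨by linarith, ?_⟩, ne_of_re (by nlinarith)⟩
  rw [sq1_im, abs_mul, abs_mul, abs_of_nonneg h0, abs_two, mul_comm]
  exact mul_le_mul h (h2.trans h3) (by positivity) (h0.trans h)

theorem near_I {z : ℂ} (h : ‖z - Complex.I‖ ≤ 1 / 4) :
    Thin (2 * ‖z - Complex.I‖) (sq1 z * (1 - Complex.I)) ∧ 2 ≤ ‖sq1 z‖ ∧ ‖sq1 z‖ ≤ 4 := by
  set u := z - Complex.I with hu
  have e : sq1 z * (1 - Complex.I) = 4 + u * (u * (1 - Complex.I) + 4) := by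
    rw [hu, sq1]; linear_combination (-1 + Complex.I - 2 * z) * Complex.I_mul_I
  have n1 : ‖1 - Complex.I‖ ^ 2 = 2 := by
    rw [Complex.sq_norm]; simp [Complex.normSq_apply]; norm_num
  have n0 := norm_nonneg (1 - Complex.I)
  have n2 : ‖1 - Complex.I‖ ≤ 3 / 2 := by nlinarith
  have n3 : 7 / 5 ≤ ‖1 - Complex.I‖ := by nlinarith
  have u0 := norm_nonneg u
  have h1 : ‖u * (u * (1 - Complex.I) + 4)‖ ≤ ‖u‖ * (22 / 5) := by
    rw [norm_mul]
    refine mul_le_mul_of_nonneg_left ((norm_add_le _ _).trans ?_) u0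
    rw [norm_mul, show ‖(4 : ℂ)‖ = 4 by simp]
    nlinarith
  generalize u * (u * (1 - Complex.I) + 4) = v at e h1
  have h2 := abs_le.1 (Complex.abs_re_le_norm v)
  have h3 := Complex.abs_im_le_norm v
  have h4 : 29 / 10 ≤ (4 + v).re := by simp; linarith
  have h5 := Complex.re_le_norm (4 + v)
  have h6 := norm_add_le 4 v
  rw [show ‖(4 : ℂ)‖ = 4 by simp] at h6
  have h7 : ‖sq1 z‖ * ‖1 - Complex.I‖ = ‖4 + v‖ := by rw [← norm_mul, e]
  have n4 : ‖1 - Complex.I‖ ≤ 29 / 20 := by nlinarith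
  rw [e]
  have s0 := norm_nonneg (sq1 z)
  refine ⟨⟨by linarith, ?_⟩, by nlinarith, by nlinarith⟩
  have : (4 + v).im = v.im := by simp
  rw [this]
  nlinarith

theorem arg_port {v s : ℂ} {t : ℝ} (h : Thin t (v * (s * (1 - Complex.I)))) (ht : 0 ≤ t)
    (ht1 : t ≤ 1 / 4) (h0 : v * s ≠ 0) : |Complex.arg (v * s) - Real.pi / 4| ≤ 2 * t := by
  have h1 := h.arg ht
  have e : v * s = v * (s * (1 - Complex.I)) * ((1 + Complex.I) / 2) := by
    linear_combination (v * s / 2) * Complex.I_mul_I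
  have e2 : (1 + Complex.I) / 2 = ((√2 / 2 : ℝ) : ℂ) *
      (Complex.cos (Real.pi / 4 : ℝ) + Complex.sin (Real.pi / 4 : ℝ) * Complex.I) := by
    rw [← Complex.ofReal_cos, ← Complex.ofReal_sin, Real.cos_pi_div_four, Real.sin_pi_div_four]
    have : ((√2 : ℝ) : ℂ) * ((√2 : ℝ) : ℂ) = 2 := by
      rw [← Complex.ofReal_mul, Real.mul_self_sqrt (by norm_num)]; norm_num
    push_cast
    linear_combination (-(1 + Complex.I) / 4) * this
  have p3 := Real.pi_gt_three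
  have e3 : Complex.arg ((1 + Complex.I) / 2) = Real.pi / 4 := by
    rw [e2]
    exact Complex.arg_mul_cos_add_sin_mul_I (by positivity) ⟨by linarith, by linarith⟩
  have h2 := abs_le.1 h1
  rw [e] at h0 ⊢
  rw [Complex.arg_mul (left_ne_zero_of_mul h0) (right_ne_zero_of_mul h0)
    (by rw [e3]; constructor <;> linarith), e3, add_sub_cancel_right]
  exact h1

theorem sq1_far {z : ℂ} (h : 2 ≤ ‖z‖) : ‖z‖ ^ 2 ≤ 5 * ‖sq1 z‖ ∧ ‖sq1 z‖ ≤ 3 * ‖z‖ ^ 2 := by
  constructor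
  · have h1 : ‖sq1 z‖ ^ 2 = (sq1 z).re ^ 2 + (sq1 z).im ^ 2 := by
      rw [Complex.sq_norm, Complex.normSq_apply]; ring
    have h2 : ‖z‖ ^ 2 = z.re ^ 2 + z.im ^ 2 := by
      rw [Complex.sq_norm, Complex.normSq_apply]; ring
    have h3 : 4 ≤ ‖z‖ ^ 2 := by nlinarith
    rw [sq1_re, sq1_im] at h1
    have h4 : ‖sq1 z‖ ^ 2 = 2 / 3 * (‖z‖ ^ 2 - 3) ^ 2 + 12 * (z.re + (‖z‖ ^ 2 + 3) / 6) ^ 2 := by
      rw [h1, h2]; ring
    refine (pow_le_pow_iff_left₀ (by positivity) (by positivity) two_ne_zero).1 ?_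
    rw [mul_pow, h4]
    nlinarith [sq_nonneg (z.re + (‖z‖ ^ 2 + 3) / 6)]
  · have h1 : ‖sq1 z‖ ≤ (‖z‖ + 1) ^ 2 + 2 := by
      refine (norm_add_le _ _).trans (add_le_add ?_ (by simp))
      rw [norm_pow]
      gcongr
      simpa using norm_add_le z 1
    nlinarith

/-- the boxes -/
def Bx (x0 r : ℝ) : Prop := (4 ≤ |x0| ∧ r = |x0| / 8) ∨ r = 1 / 2

theorem Bx.pos {x0 r : ℝ} (h : Bx x0 r) : 1 / 2 ≤ r := by
  rcases h with h | h <;> linarith [h]

theorem Bx.alt {x0 r : ℝ} (h : Bx x0 r) : r = 1 / 2 ∨ 6 * r ≤ |x0 + 1| := by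
  refine h.symm.imp_right fun a => ?_
  have := abs_sub_abs_le_abs_sub x0 (-1)
  rw [sub_neg_eq_add, abs_neg, abs_one] at this
  linarith [a.1, a.2]

theorem Bx.sq {x0 r : ℝ} (h : Bx x0 r) {z : ℂ} (hz : z ∈ box x0 r r) :
    0 < (sq1 z).re ∧ r * ‖z + 1‖ ≤ ‖sq1 z‖ ∧ ‖sq1 z‖ ≤ (|x0 + 1| + 2 * r) ^ 2 + 2 := by
  have r0 := h.pos
  have h1 := Complex.norm_le_abs_re_add_abs_im (z + 1)
  simp only [Complex.add_re, Complex.one_re, Complex.add_im, Complex.one_im, add_zero] at h1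
  have h2 := abs_sub_abs_le_abs_sub (z.re + 1) (x0 + 1)
  have h3 := abs_sub_abs_le_abs_sub (x0 + 1) (z.re + 1)
  rw [add_sub_add_right_eq_sub] at h2 h3
  rw [abs_sub_comm] at h3
  have h4 := hz.1
  have h5 := hz.2
  have h6 : z.im ^ 2 ≤ r ^ 2 := by rw [← sq_abs]; gcongr
  have h7 : |z.re + 1| ^ 2 - r ^ 2 + 2 ≤ (sq1 z).re := by rw [sq1_re, sq_abs]; linarith
  have h8 := Complex.re_le_norm (sq1 z)
  have h9 := abs_nonneg (z.re + 1)
  have h10 : r * ‖z + 1‖ ≤ r * (|z.re + 1| + r) := by gcongr; linarith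
  refine ⟨?_, ?_, (norm_add_le _ _).trans (add_le_add ?_ (by simp))⟩
  · rcases h.alt with a | a
    · rw [a] at h7; nlinarith
    · nlinarith
  · rcases h.alt with a | a
    · rw [a] at h7 h10 ⊢; nlinarith [sq_nonneg (|z.re + 1| - 1)]
    · nlinarith
  · rw [norm_pow]; gcongr; linarith

variable {X K : Set E} {V Pt : E → ℂ} {e L ι R C0 : ℝ}

theorem sheet' (h : NWin X K V Pt e L ι R C0) (he : 0 < e) {z : ℂ} (h1 : ‖z‖ ≤ R) (h2 : ι < z.im)
    (h3 : Real.exp (-L + 2) ≤ ‖bl z‖) (h4 : sq1 z ≠ 0) :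
    ∃ y ∈ X, y ∉ K ∧ y.1 = z ∧ ‖Pt y‖ = e * ‖sq1 z‖ := by
  obtain ⟨y, a1, rfl, a3⟩ := h.sheet z h1 h2 h3 h4
  refine ⟨y, a1, fun hk => ?_, rfl, by
    rw [h.eq y h1 h4, a3, norm_mul, Complex.norm_real, Real.norm_of_nonneg he.le]⟩
  have b0 : Real.exp (-L + 1) < Real.exp (-L + 2) := Real.exp_lt_exp.2 (by linarith)
  rcases (h.cls y ⟨a1, mem_closedBall_zero_iff.2 h1⟩ hk).2.2 with b | b | b
  · linarith
  · have := (Real.le_log_iff_exp_le ((Real.exp_pos _).trans_le h3)).2 h3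
    linarith [(abs_le.1 b.1).2]
  · linarith [b.1]

theorem wbl (h : NWin X K V Pt e L ι R C0) (he : 0 < e) (hL : 13 ≤ L) {t x0 r : ℝ} (h0 : 0 < ι)
    (ht : 4 * ι ≤ t) (hb : Bx x0 r) (h1 : |x0| ≤ R / 2) (h2 : |x0| + 2 * r ≤ R) :
    WBL X K Pt x0 r t C0 4 := by
  have r0 := hb.pos
  have rc : (r : ℂ) ≠ 0 := Complex.ofReal_ne_zero.2 (by linarith)
  obtain ⟨a1, ι', Ψ, Ψy, -, a2, a3, a4⟩ := h.vb x0 r h1 (hb.imp_right Or.inl)
  have m : ∀ ξ ∈ box 0 1 1, (x0 : ℂ) + r * ξ ∈ box x0 r r := fun ξ hξ => by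
    obtain ⟨b1, b2⟩ := hξ
    rw [sub_zero] at b1
    constructor <;> simp [abs_mul, abs_of_pos (show 0 < r by linarith)] <;> nlinarith
  have d : ∀ ξ ∈ box 0 1 1, HasDerivAt (fun ξ : ℂ => 2 * Complex.log (sq1 (x0 + r * ξ)))
      (2 * (2 * ((x0 : ℂ) + r * ξ + 1) * r / sq1 (x0 + r * ξ))) ξ := fun ξ hξ => by
    refine HasDerivAt.const_mul 2 (HasDerivAt.clog ?_ (Or.inl (hb.sq (m ξ hξ)).1))
    have := (((((hasDerivAt_id ξ).const_mul (r : ℂ)).const_add (x0 : ℂ)).add_const 1).pow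
      2).add_const 2
    simpa [sq1] using this
  have ne : ∀ y : E, y.1 ∈ box x0 r r → Pt y = V y * sq1 y.1 := fun y hy =>
    h.eq y (Ring.box_norm h2 hy) (ne_of_re (hb.sq hy).1)
  have lv0 : 0 ≤ 2 * e * ((|x0 + 1| + 2 * r) ^ 2 + 2) := by positivity
  have pos : ∀ y ∈ ov X (box x0 r r), 2 * e * ((|x0 + 1| + 2 * r) ^ 2 + 2) < ‖Pt y‖ →
      0 < ‖V y‖ := fun y hy hl => norm_pos_iff.2 fun c => by
    rw [ne y hy.2, c, zero_mul, norm_zero] at hl; linarith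
  refine ⟨2 * e * ((|x0 + 1| + 2 * r) ^ 2 + 2), lv0, NL0.wb_mono (ι := ι)
    ⟨V, fun ξ => 2 * Complex.log (sq1 (x0 + r * ξ)), 0, ι', 4 * e ^ 2, 2, Ψ, Ψy, Or.inr rfl, le_rfl,
      a1, fun ξ hξ => ?_, fun ξ hξ => ?_, fun s hs => ?_, fun y hy => ?_, a2, fun ξ hξ => ?_,
      fun y hy hk hl => a3 y hy hk (pos y hy hl), fun y hy hl => a4 y hy (pos y hy hl)⟩
    (by linarith), Or.inr fun s s1 s2 => ?_⟩
  · refine analyticAt_const.mul (AnalyticAt.clog ?_ (Or.inl (hb.sq (m ξ hξ)).1))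
    unfold sq1; fun_prop
  · obtain ⟨b1, b2, -⟩ := hb.sq (m ξ hξ)
    have b3 := norm_pos_iff.2 (ne_of_re b1)
    rw [(d ξ hξ).deriv, norm_mul, norm_div, norm_mul, norm_mul, Complex.norm_real,
      Real.norm_of_nonneg (by linarith), show ‖(2 : ℂ)‖ = 2 by simp, ← mul_div_assoc,
      div_le_iff₀ b3]
    linarith
  · have b1 := (hb.sq (m s ⟨by simpa [abs_le] using hs, by simp⟩)).1
    have b2 : (sq1 (x0 + r * s)).im = 0 := by rw [sq1_im]; simp
    have b3 : Complex.arg (sq1 (x0 + r * s)) = 0 := Complex.arg_eq_zero_iff.2 ⟨b1.le, b2⟩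
    simp [Complex.log_im, b3, h0.le]
  · beta_reduce
    rw [ne y hy, mul_div_cancel₀ _ rc, add_sub_cancel, two_mul, Complex.exp_add,
      Complex.exp_log (ne_of_re (hb.sq hy).1)]
    simp only [pp, Complex.ofReal_zero]
    ring
  · obtain ⟨b1, -, b2⟩ := hb.sq (m ξ hξ)
    have b3 := norm_pos_iff.2 (ne_of_re b1)
    have b4 : (2 * Complex.log (sq1 (x0 + r * ξ))).re = Real.log (‖sq1 (x0 + r * ξ)‖ ^ 2) := by
      simp [Complex.log_re]
    rw [b4, Real.exp_log (by positivity), mul_pow, mul_pow]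
    norm_num
    gcongr
  · have b0 : ((x0 : ℂ) + (s * r : ℝ) * Complex.I) ∈ box x0 r r := by
      constructor
      · simp; linarith
      · simp [abs_mul, abs_of_pos (show 0 < r by linarith), abs_of_pos (show 0 < s by linarith)]
        nlinarith
    have b1 : ((x0 : ℂ) + (s * r : ℝ) * Complex.I).im = s * r := by simp
    have b2 : ((x0 : ℂ) + (s * r : ℝ) * Complex.I).re = x0 := by simp
    generalize (x0 : ℂ) + (s * r : ℝ) * Complex.I = z at b0 b1 b2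
    have b3 : ι < z.im := by rw [b1]; nlinarith
    have b4 : Ring.Adm R x0 r := ⟨by linarith, h2, hb.symm.imp (fun c => c.le) fun c => by
      linarith [c.2]⟩
    obtain ⟨y, c1, c2, rfl, c4⟩ := sheet' h he (Ring.box_norm h2 b0) b3 (not_lt.1 fun c => by
      linarith [near_of_bl (z := z) (by linarith) (c.le.trans ((Real.exp_le_exp.2
        (by linarith)).trans (exp_small hL))), (b4.far b0).1]) (ne_of_re (hb.sq b0).1)
    refine ⟨y, ⟨c1, b0⟩, c2, b1, ?_⟩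
    have c5 := Complex.re_le_norm (sq1 y.1)
    rw [sq1_re, b1, b2, ← sq_abs (x0 + 1)] at c5
    have c6 : (s * r) ^ 2 ≤ r ^ 2 := pow_le_pow_left₀ (by nlinarith) (by nlinarith) 2
    have c7 := abs_nonneg (x0 + 1)
    have c8 : (|x0 + 1| + 2 * r) ^ 2 + 2 ≤ 8 * ‖sq1 y.1‖ := by
      rcases hb.alt with a | a
      · rw [a] at c5 c6 ⊢; nlinarith [sq_nonneg (|x0 + 1| - 1)]
      · nlinarith
    rw [c4]
    nlinarith

theorem acth (h : NWin X K V Pt e L ι R C0) (he : 0 < e) (hL : 100 ≤ L) {t : ℝ} (h0 : 0 < ι)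
    (ht : 4 * ι ≤ t) (hι : 4 * ι ≤ 1 / L) (hR : 66 ≤ R) : ActH X K Pt L t R C0 4 := by
  have L0 : 0 < L := by linarith
  have i1 : 1 / L ≤ 1 / 100 := one_div_le_one_div_of_le (by norm_num) hL
  have s0 := exp_small (show 13 ≤ L by linarith)
  have nr : ∀ y ∈ ov X (closedBall 0 R), ‖bl y.1‖ ≤ Real.exp (-L + 4) →
      ‖y.1 - Complex.I‖ ≤ 1 / 4 := fun y hy a =>
    near_of_bl (by linarith [h.up y hy]) (a.trans s0)
  have nz : ∀ z : ℂ, 2 ≤ ‖sq1 z‖ → sq1 z ≠ 0 := fun z a => norm_pos_iff.1 (by linarith)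
  refine ⟨h.np, h.up, h.an, h.anB, fun y hy hk => ?_,
    fun x0 a1 a2 => wbl h he (by linarith) h0 ht (Or.inl ⟨a1, rfl⟩) a2 (by linarith),
    fun x0 a1 => wbl h he (by linarith) h0 ht (Or.inr rfl) (by linarith) (by linarith),
    fun b _ hb y hy hk a1 a2 => ?_⟩
  · obtain ⟨a1, a2, a3⟩ := h.cls y hy hk
    have y1 := mem_closedBall_zero_iff.1 hy.2
    have tv : Thin ι (V y) := ⟨a2, a1.trans (mul_le_mul_of_nonneg_left (min_le_left _ _) h0.le)⟩
    by_cases h1 : Pt y = 0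
    · exact Or.inl h1
    refine Or.inr ?_
    rcases a3 with a | a | a
    · obtain ⟨b1, b2⟩ := thin_hub (h.up y hy) a (by linarith)
      refine Or.inl ⟨by linarith, ?_⟩
      rw [h.eq y y1 b2]
      linarith [(tv.mul b1 (by linarith) (by linarith)).arg (by linarith)]
    · have b0 : ‖bl y.1‖ ≤ Real.exp (-L + 1) :=
        (Real.le_exp_log _).trans (Real.exp_le_exp.2 (by linarith [(abs_le.1 a.1).2]))
      have b1 := nr y hy (b0.trans (Real.exp_le_exp.2 (by linarith)))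
      obtain ⟨b2, b3, -⟩ := near_I b1
      have b4 := (bl_near b1).1
      have b5 : Real.exp (-L + 1) ≤ 1 / (18 * L) := by
        have c1 := Real.add_one_le_exp ((L - 1) / 2)
        have c2 : Real.exp (L - 1) = Real.exp ((L - 1) / 2) ^ 2 := by
          rw [← Real.exp_nat_mul]; congr 1; push_cast; ring
        rw [show -L + 1 = -(L - 1) by ring, Real.exp_neg, one_div]
        refine inv_anti₀ (by positivity) ?_
        rw [c2]
        nlinarith [pow_le_pow_left₀ (by linarith) c1 2]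
      have b6 : 1 / (18 * L) = 1 / L / 18 := by field_simp
      have b7 := norm_nonneg (y.1 - Complex.I)
      refine Or.inr (Or.inl ⟨a.1, a.2, ?_⟩)
      rw [h.eq y y1 (nz _ b3)] at h1 ⊢
      linarith [arg_port (tv.mul b2 (by linarith) (by linarith)) (by linarith) (by linarith) h1]
    · have b1 := nr y hy (a.1.trans (Real.exp_le_exp.2 (by linarith)))
      obtain ⟨-, b3, b4⟩ := near_I b1
      refine Or.inr (Or.inr ⟨a.1, ?_⟩)
      have c0 : (2 : ℝ) ≤ ‖(3 * Complex.I : ℂ)‖ := by simp; norm_num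
      have c1 : ‖(3 * Complex.I : ℂ)‖ = 3 := by simp
      have c2 : ‖bl (3 * Complex.I)‖ = 1 / 2 := by
        rw [bl, show 3 * Complex.I - Complex.I = 2 * Complex.I by ring,
          show 3 * Complex.I + Complex.I = 4 * Complex.I by ring]
        simp; norm_num
      have c3 : 6 ≤ ‖sq1 (3 * Complex.I)‖ := by
        have := Complex.abs_im_le_norm (sq1 (3 * Complex.I))
        rw [sq1_im] at this
        norm_num at this
        linarith
      obtain ⟨v, d1, d2, d3, d4⟩ := sheet' h he (z := 3 * Complex.I) (by linarith)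
        (by simp; linarith) (by
          linarith [Real.exp_le_exp.2 (show -L + 2 ≤ -L + 4 by linarith)]) (nz _ (by linarith))
      have c4 : ‖Pt v‖ ≤ supW (X \ K) Pt 8 := by
        refine le_csSup ?_ ⟨v, ⟨⟨d1, d2⟩, mem_closedBall_zero_iff.2 (by rw [d3]; linarith)⟩, rfl⟩
        refine (h.np.cpt.bddAbove_image h.an.continuousOn.norm).mono (image_mono fun u hu => ?_)
        exact ⟨hu.1.1, closedBall_subset_closedBall (by linarith) hu.2⟩
      rw [h.eq y y1 (nz _ b3), norm_mul]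
      refine (mul_le_mul a.2 b4 (norm_nonneg _) (by positivity)).trans ?_
      have c5 : ι * e * 4 ≤ t * supW (X \ K) Pt 8 := by
        have : e ≤ supW (X \ K) Pt 8 := by nlinarith
        nlinarith
      have c6 : 0 ≤ Real.exp L * ‖bl y.1‖ := by positivity
      nlinarith [mul_le_mul_of_nonneg_right c5 c6]
  · have e3 := Real.exp_pos (-L + 3)
    have e4 : Real.exp (-L + 4) = Real.exp (-L + 3) * Real.exp 1 := by
      rw [← Real.exp_add]; congr 1; ring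
    have e5 := Real.add_one_le_exp 1
    have c1 : ‖Complex.I + (9 / 4 * Real.exp (-L + 3) : ℝ) - Complex.I‖ =
        9 / 4 * Real.exp (-L + 3) := by
      rw [add_sub_cancel_left, Complex.norm_real, Real.norm_of_nonneg (by positivity)]
    have c2 : (Complex.I + (9 / 4 * Real.exp (-L + 3) : ℝ)).im = 1 := by
      rw [Complex.add_im, Complex.ofReal_im, Complex.I_im, add_zero]
    generalize Complex.I + (9 / 4 * Real.exp (-L + 3) : ℝ) = z at c1 c2
    have c3 : ‖z - Complex.I‖ ≤ 1 / 4 := by nlinarith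
    have nI : ∀ z : ℂ, ‖z - Complex.I‖ ≤ 1 / 4 → ‖z‖ ≤ R := fun z a => by
      have := norm_le_norm_add_norm_sub' z Complex.I
      rw [Complex.norm_I] at this
      linarith
    obtain ⟨c4, c5⟩ := bl_near c3
    obtain ⟨-, c6, -⟩ := near_I c3
    obtain ⟨v, d1, d2, rfl, d4⟩ := sheet' h he (nI z c3) (by linarith)
      (by linarith [Real.exp_le_exp.2 (show -L + 2 ≤ -L + 3 by linarith)]) (nz _ c6)
    have d5 := hb v d1 d2 (by linarith) (by nlinarith)
    have d6 := h.ppp (b / 2) (by nlinarith) (fun u f1 f2 f3 f4 => by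
      have g1 := Ring.near_of_bl' (e3.trans_le f3) (f4.trans s0)
      have g2 := (near_I g1).2.1
      have g3 := hb u f1 f2 f3 f4
      rw [h.eq u (nI _ g1) (nz _ g2), norm_mul] at g3
      nlinarith [norm_nonneg (V u)]) y hy hk a1 a2
    obtain ⟨-, d7, d8⟩ := near_I (nr y ⟨hy, mem_closedBall_zero_iff.2 a1⟩
      (a2.trans (by nlinarith)))
    rw [h.eq y a1 (nz _ d7), norm_mul]
    nlinarith [norm_nonneg (V y)]

/-- removal of the weight -/
theorem gp_div {D : Set E} {q : E → ℝ} {x : ℂ} {b C C' rmin ρ Omin : ℝ} (hρ : 0 < ρ)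
    (hr : 0 < rmin) (hC : 0 < C) (hC' : 81 * C ≤ C') (hO : 0 ≤ Omin) (hq : ∀ y, 0 ≤ q y)
    (h : GP D (fun y => q y * (‖y.1 - x‖ / ρ) ^ 4) x (4 - b) C rmin ρ Omin) :
    GP D q x (-b) C' rmin ρ Omin := by
  intro O h1 h2 r h3 h4 y hy h5 h6
  have h7 : ρ / C' ≤ ρ / C := div_le_div_of_nonneg_left hρ.le hC (by linarith)
  have r0 : 0 < r / ρ := div_pos (by linarith) hρ
  have h8 := h O h1 (fun u hu a1 a2 => (mul_le_of_le_one_right (hq u) (pow_le_one₀ (by positivity)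
    ((div_le_one hρ).2 a2))).trans (h2 u hu (h7.trans a1) a2)) r h3 (h4.trans h7) y hy h5 h6
  have h9 : (r / ρ) ^ 4 ≤ 81 * (‖y.1 - x‖ / ρ) ^ 4 := by
    rw [show (81 : ℝ) = 3 ^ 4 by norm_num, ← mul_pow, ← mul_div_assoc]
    gcongr
    linarith
  rw [sub_eq_add_neg, Real.rpow_add r0, show (4 : ℝ) = (4 : ℕ) by norm_num, Real.rpow_natCast]
    at h8
  have h10 : 0 ≤ (r / ρ) ^ (-b) * O := mul_nonneg (by positivity) (hO.trans h1)
  refine le_of_mul_le_mul_right ?_ (pow_pos r0 4)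
  calc q y * (r / ρ) ^ 4 ≤ q y * (81 * (‖y.1 - x‖ / ρ) ^ 4) := by gcongr; exact hq y
    _ ≤ 81 * C * ((r / ρ) ^ (-b) * O * (r / ρ) ^ 4) := by linarith
    _ ≤ C' * ((r / ρ) ^ (-b) * O * (r / ρ) ^ 4) := by gcongr
    _ = _ := by ring

end NB1

open NB1 Win in
theorem st_nb1 : St_NB1 := by
  obtain ⟨L0, H⟩ := st_wact st_ql (st_nwb st_nw st_pull)
  refine ⟨max L0 100, fun β L b0 b1 hL => ?_⟩
  obtain ⟨M, hM, H⟩ := H β L b0 b1 ((le_max_left _ _).trans hL)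
  have hL' : 100 ≤ L := (le_max_right _ _).trans hL
  have m1 : (1 : ℝ) ≤ 6 * M := by linarith
  have m2 : 6 * M ≤ (6 * M) ^ 5 := le_self_pow₀ m1 (by norm_num)
  refine ⟨6480000 * (6 * M) ^ 5, by linarith, fun C0 => ?_⟩
  obtain ⟨t, t0, H⟩ := H C0 4
  refine ⟨min (t / 4) (1 / L / 4), by positivity, ?_⟩
  intro X K V Pt x δ ρ e T hx d0 r1 he hT hd h
  have hs : 1000 * (6 * M) * δ ≤ ρ := le_trans (by gcongr; linarith) hd
  have r0 : 0 < ρ := lt_of_lt_of_le (by positivity) hs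
  have hR : 2 * M ≤ ρ / (2 * δ) := by rw [le_div_iff₀ (by positivity)]; nlinarith
  have H := H _ _ _ _ (acth h he hL' (by positivity) (by linarith [min_le_left (t / 4) (1 / L / 4)])
    (by linarith [min_le_right (t / 4) (1 / L / 4)]) (by linarith)) (by linarith)
  set R := ρ / (2 * δ) with hRe
  have R0 : 0 < R := by linarith
  have w : ∀ z : ℂ, ‖z‖ ≤ R → (‖wch x δ 0 z - x‖ / ρ) ^ 2 ≤ (‖z‖ / R) ^ 2 / 3 ∧
      (‖z‖ / R) ^ 2 ≤ 6 * (‖wch x δ 0 z - x‖ / ρ) ^ 2 := fun z hz => by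
    obtain ⟨a1, a2⟩ := Ring.wch_far hx d0 r1 hz
    have a3 : δ * ‖z‖ = ‖z‖ / R / 2 * ρ := by rw [hRe]; field_simp
    rw [a3, ← mul_assoc] at a1 a2
    rw [← le_div_iff₀ r0] at a1
    rw [← div_le_iff₀ r0] at a2
    have a4 : 0 ≤ ‖z‖ / R := by positivity
    have a5 : 0 ≤ ‖wch x δ 0 z - x‖ / ρ := by positivity
    constructor <;> nlinarith
  classical
  have g := gp_act (D := X \ K) (yr := 0) (S := e) (T := T) (Omin := e ^ 2 / T ^ 2) (M := 6 * M)
    (q := fun y => ‖pp e (V y)‖ * (‖y.1 - x‖ / ρ) ^ 4)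
    (P := fun y => if 2 ≤ ‖y.1‖ then
      V (bc (wch x δ 0) y) * (((‖wch x δ 0 y.1 - x‖ / ρ) ^ 2 : ℝ) : ℂ) else 0)
    (s := fun y => e * (((‖wch x δ 0 y.1 - x‖ / ρ) ^ 2 : ℝ) : ℂ)) hx d0 r0 r1 b0.le (by linarith) m1
    (by positivity) he.le (by linarith) (le_of_eq (by field_simp)) (by simpa using hs)
    (fun y _ a1 a2 => by
      rw [if_pos a1, ← sub_mul, norm_mul, norm_mul, norm_mul, Complex.norm_real, Complex.norm_real,
        Real.norm_of_nonneg he.le, Real.norm_of_nonneg (by positivity), pp, norm_mul]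
      refine ⟨by change _ * (‖wch x δ 0 y.1 - x‖ / ρ) ^ 4 = _; ring, ?_⟩
      rw [← hRe]
      exact mul_le_mul_of_nonneg_left (by linarith [(w _ a2).1, sq_nonneg (‖y.1‖ / R)]) he.le)
    (fun O hO h1 r a1 a2 y hy a3 => by
      have a0 : 0 ≤ (r / R) ^ (2 - β) := by positivity
      split_ifs with a4
      swap
      · rw [norm_zero]; positivity
      have a5 := H (18 * R ^ 2 * O) (by positivity) (fun u c1 c2 c3 c4 => by
        have c5 : 2 ≤ ‖u.1‖ := le_trans (by rw [le_div_iff₀ (by linarith)]; linarith) c3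
        have c6 := h1 u ⟨c1, c2⟩ (le_trans (by gcongr; linarith) c3) c4
        obtain ⟨c7, c8⟩ := sq1_far c5
        rw [if_pos c5, norm_mul, Complex.norm_real, Real.norm_of_nonneg (by positivity)] at c6
        rw [h.eq u c4 (norm_pos_iff.1 (by nlinarith)), norm_mul]
        have c9 := (w _ c4).2
        rw [div_pow, div_le_iff₀ (by positivity)] at c9
        calc _ ≤ ‖V (bc (wch x δ 0) u)‖ * (3 * (6 * (‖wch x δ 0 u.1 - x‖ / ρ) ^ 2 * R ^ 2)) := by
              gcongr; linarith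
          _ = 18 * R ^ 2 * (‖V (bc (wch x δ 0) u)‖ * (‖wch x δ 0 u.1 - x‖ / ρ) ^ 2) := by ring
          _ ≤ _ := by gcongr) r a1 a2 y hy.1 hy.2 a3
      obtain ⟨c7, -⟩ := sq1_far a4
      rw [h.eq y (a3.trans a2) (norm_pos_iff.1 (by nlinarith)), norm_mul] at a5
      rw [norm_mul, Complex.norm_real, Real.norm_of_nonneg (by positivity)]
      have c9 := (w _ (a3.trans a2)).1
      refine le_of_mul_le_mul_right ?_ (pow_pos R0 2)
      have c10 : (‖wch x δ 0 y.1 - x‖ / ρ) ^ 2 * R ^ 2 ≤ 2 * ‖sq1 y.1‖ := by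
        rw [div_pow ‖y.1‖, div_div, le_div_iff₀ (by positivity)] at c9
        nlinarith [norm_nonneg (sq1 y.1)]
      calc _ = ‖V (bc (wch x δ 0) y)‖ * ((‖wch x δ 0 y.1 - x‖ / ρ) ^ 2 * R ^ 2) := by ring
        _ ≤ ‖V (bc (wch x δ 0) y)‖ * (2 * ‖sq1 y.1‖) := by gcongr
        _ ≤ _ := by rw [← hRe]; linarith)
  rw [abs_zero, add_zero] at g
  refine gp_div r0 (by positivity) (by positivity) ?_ (by positivity) (fun _ => norm_nonneg _) g
  have : (1 + T) ^ 2 ≤ 4 * T ^ 2 := by nlinarith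
  calc _ = 1620000 * (6 * M) ^ 5 * (1 + T) ^ 2 := by ring
    _ ≤ 1620000 * (6 * M) ^ 5 * (4 * T ^ 2) := by gcongr
    _ = _ := by ring

end Pool.Agent.Lib.SH
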