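import Pool.Agent.Lib.SH.B_BASIC
import Pool.Agent.Lib.SH.B_PP2
import Pool.Agent.Lib.SH.B_WCONV
import Pool.Agent.Lib.SH.B_AWS
import Pool.Agent.Lib.SH.B_BRIDGE

/-!
Window charts, port bounds and gain properties (design independent glue).
-/

open Set Filter Topology Metric

noncomputable section

namespace Pool.Agent.Lib.SH

namespace Win

variable {x : ℂ} {δ yr : ℝ}

theorem hasDerivAt_wch (x : ℂ) (δ yr : ℝ) (z : ℂ) :
    HasDerivAt (wch x δ yr) (wch x δ yr z * (Complex.I * δ)) z := by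
  have := (((((hasDerivAt_id z).const_mul (δ : ℂ)).add_const (yr * Complex.I)).const_mul
    Complex.I).cexp).const_mul x
  simp only [id, mul_one] at this
  unfold wch
  rw [mul_assoc]
  exact this

theorem an_wch (x : ℂ) (δ yr : ℝ) (z : ℂ) : AnalyticAt ℂ (wch x δ yr) z := by
  unfold wch; fun_prop

theorem wch_ne (hx : x ≠ 0) (z : ℂ) : wch x δ yr z ≠ 0 :=
  mul_ne_zero hx (Complex.exp_ne_zero _)

theorem deriv_wch_ne (hx : x ≠ 0) (hδ : 0 < δ) (z : ℂ) : deriv (wch x δ yr) z ≠ 0 := by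
  rw [(hasDerivAt_wch x δ yr z).deriv]
  exact mul_ne_zero (wch_ne hx z) (mul_ne_zero Complex.I_ne_zero (Complex.ofReal_ne_zero.2 hδ.ne'))

theorem norm_wch (hx : ‖x‖ = 1) (z : ℂ) : ‖wch x δ yr z‖ = Real.exp (-(δ * z.im + yr)) := by
  unfold wch
  rw [norm_mul, hx, one_mul, Complex.norm_exp]
  congr 1
  simp

theorem log_wch (hx : ‖x‖ = 1) (z : ℂ) : -Real.log ‖wch x δ yr z‖ = δ * z.im + yr := by
  rw [norm_wch hx, Real.log_exp, neg_neg]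

theorem ne0 (hx : ‖x‖ = 1) : x ≠ 0 := fun h => by rw [h, norm_zero] at hx; norm_num at hx

theorem wch_sub' (x : ℂ) (δ yr : ℝ) (z z' : ℂ) : wch x δ yr z - wch x δ yr z' =
    wch x δ yr z' * (Complex.exp (Complex.I * (δ * (z - z'))) - 1) := by
  unfold wch
  rw [mul_sub, mul_one, mul_assoc x, ← Complex.exp_add]
  congr 3
  ring

theorem wch_dist (hδ : 0 < δ) {z z' : ℂ} (h : δ * ‖z - z'‖ ≤ 1 / 8) :
    7 / 8 * (δ * ‖wch x δ yr z'‖ * ‖z - z'‖) ≤ ‖wch x δ yr z - wch x δ yr z'‖ ∧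
      ‖wch x δ yr z - wch x δ yr z'‖ ≤ 9 / 8 * (δ * ‖wch x δ yr z'‖ * ‖z - z'‖) := by
  have h1 : ‖(δ * (z - z') : ℂ)‖ = δ * ‖z - z'‖ := by
    rw [norm_mul, Complex.norm_real, Real.norm_eq_abs, abs_of_pos hδ]
  have h2 := WCONV.exp_bounds (δ * (z - z')) (by rwa [h1])
  rw [h1] at h2
  rw [wch_sub', norm_mul]
  have h3 := norm_nonneg (wch x δ yr z')
  constructor <;> nlinarith [mul_le_mul_of_nonneg_left h2.1 h3, mul_le_mul_of_nonneg_left h2.2 h3]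

theorem wch_inj (hx : x ≠ 0) (hδ : 0 < δ) {z z' : ℂ} (h : δ * ‖z - z'‖ ≤ 1 / 8)
    (he : wch x δ yr z = wch x δ yr z') : z = z' := by
  have h1 := (wch_dist (x := x) (yr := yr) hδ h).1
  rw [he, sub_self, norm_zero] at h1
  have h2 : 0 < δ * ‖wch x δ yr z'‖ := mul_pos hδ (norm_pos_iff.2 (wch_ne hx z'))
  have h3 : ‖z - z'‖ ≤ 0 := by nlinarith [norm_nonneg (z - z')]
  exact sub_eq_zero.1 (norm_le_zero_iff.1 h3)

/-- points near `wch z'` are in the image of the chart -/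
theorem wch_surj (hx : x ≠ 0) (hδ : 0 < δ) (z' : ℂ) {z : ℂ}
    (h : ‖z - wch x δ yr z'‖ ≤ ‖wch x δ yr z'‖ / 12) :
    ∃ ζ : ℂ, wch x δ yr ζ = z ∧ δ * ‖ζ - z'‖ ≤ 1 / 8 := by
  set p := wch x δ yr z' with hp
  have hp0 : p ≠ 0 := wch_ne hx z'
  have hp1 : 0 < ‖p‖ := norm_pos_iff.2 hp0
  have h1 : ‖z / p - 1‖ ≤ 1 / 12 := by
    have : z / p - 1 = (z - p) / p := by field_simp
    rw [this, norm_div, div_le_iff₀ hp1]; linarith
  obtain ⟨ζ, h2, h3⟩ := WCONV.preimage 1 norm_one δ 0 hδ (z / p) h1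
  simp only [Complex.ofReal_zero, zero_mul, add_zero] at h3
  refine ⟨z' + ζ, ?_, ?_⟩
  · have h4 := wch_sub' x δ yr (z' + ζ) z'
    rw [add_sub_cancel_left, ← hp] at h4
    have h5 : Complex.exp (Complex.I * (δ * ζ)) = z / p := by
      rw [← h2]; simp [wch]
    rw [h5] at h4
    have : wch x δ yr (z' + ζ) = p * (z / p - 1) + p := by rw [← h4]; ring
    rw [this]; field_simp; ring
  · rw [add_sub_cancel_left]
    rwa [norm_mul, Complex.norm_real, Real.norm_eq_abs, abs_of_pos hδ] at h3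

/-- the window disc lies in the disc of radius `ρ` about `x` -/
theorem wch_mem (hx : ‖x‖ = 1) (hδ : 0 < δ) {ρ : ℝ} (hρ : ρ ≤ 1 / 8) (hy : 4 * |yr| ≤ ρ) {z : ℂ}
    (hz : ‖z‖ ≤ ρ / (2 * δ)) : ‖wch x δ yr z - x‖ ≤ 7 / 8 * ρ ∧ |δ * z.im + yr| ≤ 3 / 4 * ρ := by
  have h1 : δ * ‖z‖ ≤ ρ / 2 := by
    rw [le_div_iff₀ (by positivity)] at hz; linarith
  have h2 := (WCONV.u_bounds δ yr hδ z).2
  have h3 := (WCONV.exp_bounds (δ * z + yr * Complex.I) (by linarith)).2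
  rw [← WCONV.wch_sub x hx] at h3
  have h4 : |δ * z.im| ≤ δ * ‖z‖ := by
    rw [abs_mul, abs_of_pos hδ]; gcongr; exact Complex.abs_im_le_norm z
  have h5 := abs_add_le (δ * z.im) yr
  have h6 := abs_nonneg yr
  constructor <;> linarith

/-- port coordinate -/
def pc (x : ℂ) (δ yr : ℝ) (z : ℂ) : ℝ :=
  ‖z - wch x δ yr Complex.I‖ / (2 * δ * ‖wch x δ yr Complex.I‖)

theorem pc_wch (hx : x ≠ 0) (hδ : 0 < δ) {z : ℂ} (h : δ * ‖z - Complex.I‖ ≤ 1 / 8) :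
    7 / 16 * ‖z - Complex.I‖ ≤ pc x δ yr (wch x δ yr z) ∧
      pc x δ yr (wch x δ yr z) ≤ 9 / 16 * ‖z - Complex.I‖ := by
  have h1 := wch_dist (x := x) (yr := yr) hδ h
  have h2 : 0 < ‖wch x δ yr Complex.I‖ := norm_pos_iff.2 (wch_ne hx _)
  unfold pc
  rw [le_div_iff₀ (by positivity), div_le_iff₀ (by positivity)]
  constructor <;> linarith [h1.1, h1.2]

theorem bl_near {z : ℂ} (h : ‖z - Complex.I‖ ≤ 1 / 4) :
    4 / 9 * ‖z - Complex.I‖ ≤ ‖bl z‖ ∧ ‖bl z‖ ≤ 4 / 7 * ‖z - Complex.I‖ := by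
  have h1 : z + Complex.I = z - Complex.I + 2 * Complex.I := by ring
  have h2 : ‖(2 * Complex.I : ℂ)‖ = 2 := by simp
  have h3 := norm_add_le (z - Complex.I) (2 * Complex.I)
  have h4 := norm_sub_le (z - Complex.I + 2 * Complex.I) (z - Complex.I)
  rw [add_sub_cancel_left] at h4
  rw [← h1, h2] at h3 h4
  have h5 : 0 < ‖z + Complex.I‖ := by linarith
  have h6 := norm_nonneg (z - Complex.I)
  unfold bl
  rw [norm_div, le_div_iff₀ h5, div_le_iff₀ h5]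
  constructor <;> nlinarith

theorem near_of_bl {z : ℂ} (h0 : -1 < z.im) (h : ‖bl z‖ ≤ 1 / 10) : ‖z - Complex.I‖ ≤ 1 / 4 := by
  have h5 : 0 < ‖z + Complex.I‖ := norm_pos_iff.2 fun e => by
    have := congrArg Complex.im e
    simp at this
    linarith
  have h1 : z + Complex.I = z - Complex.I + 2 * Complex.I := by ring
  have h2 : ‖(2 * Complex.I : ℂ)‖ = 2 := by simp
  have h3 := norm_add_le (z - Complex.I) (2 * Complex.I)
  rw [← h1, h2] at h3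
  unfold bl at h
  rw [norm_div, div_le_iff₀ h5] at h
  linarith

theorem near_of_pc (hx : x ≠ 0) (hδ : 0 < δ) {z : ℂ} (h : δ * ‖z - Complex.I‖ ≤ 1 / 8)
    (h1 : pc x δ yr (wch x δ yr z) ≤ 1 / 10) : ‖z - Complex.I‖ ≤ 1 / 4 := by
  linarith [(pc_wch (yr := yr) hx hδ h).1]

/-- comparison of the model factor and the port coordinate -/
theorem bl_pc (hx : x ≠ 0) (hδ : 0 < δ) (hδ1 : δ ≤ 1 / 2) {z : ℂ} (h : ‖z - Complex.I‖ ≤ 1 / 4) :
    3 / 4 * pc x δ yr (wch x δ yr z) ≤ ‖bl z‖ ∧ ‖bl z‖ ≤ 4 / 3 * pc x δ yr (wch x δ yr z) := by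
  have h1 := pc_wch (yr := yr) hx hδ (z := z) (by nlinarith [norm_nonneg (z - Complex.I)])
  have h2 := bl_near h
  constructor <;> linarith [h1.1, h1.2, h2.1, h2.2, norm_nonneg (z - Complex.I)]

theorem dist_I {ρ : ℝ} (hδ : 0 < δ) (hδ1 : δ ≤ 1 / 16) (hρ : ρ ≤ 1 / 8) {z : ℂ}
    (hz : ‖z‖ ≤ ρ / (2 * δ)) : δ * ‖z - Complex.I‖ ≤ 1 / 8 := by
  have h1 : δ * ‖z‖ ≤ ρ / 2 := by
    rw [le_div_iff₀ (by positivity)] at hz; linarith
  have h2 := norm_sub_le z Complex.I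
  rw [Complex.norm_I] at h2
  nlinarith

/-- directions in the window chart -/
theorem dir_wch {u : ℂ → ℂ} {ω ω' C C' : ℝ} {z : ℂ} (hδ : 0 < δ) (h : DirZ u ω C (wch x δ yr z))
    (h1 : ω ≤ ω') (h2 : δ * ω ≤ ω') (h3 : δ * C ≤ C') (h0 : 0 < ω) :
    Dir (fun z => u (wch x δ yr z)) ω' C' z := by
  obtain ⟨a1, a2, a3, a4⟩ := h
  have a5 : deriv (fun z => u (wch x δ yr z)) z =
      (δ : ℂ) * (wch x δ yr z * deriv u (wch x δ yr z) * Complex.I) := by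
    have := (a1.differentiableAt.hasDerivAt.comp z (hasDerivAt_wch x δ yr z)).deriv
    rw [show (δ : ℂ) * (wch x δ yr z * deriv u (wch x δ yr z) * Complex.I) =
      deriv u (wch x δ yr z) * (wch x δ yr z * (Complex.I * δ)) by ring]
    exact this
  have a6 : 0 ≤ (u (wch x δ yr z)).re := nonneg_of_mul_nonneg_right ((abs_nonneg _).trans a2) h0
  have a7 := norm_nonneg (u (wch x δ yr z))
  refine ⟨a1.comp (an_wch x δ yr z), a2.trans (by gcongr), ?_, ?_⟩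
  · rw [a5, norm_mul, norm_mul, Complex.norm_I, mul_one, Complex.norm_real, Real.norm_eq_abs,
      abs_of_pos hδ]
    calc _ ≤ δ * (C * ‖u (wch x δ yr z)‖) := by gcongr
      _ = δ * C * ‖u (wch x δ yr z)‖ := by ring
      _ ≤ _ := by gcongr
  · rw [a5, Complex.im_ofReal_mul, Complex.mul_I_im, abs_mul, abs_of_pos hδ]
    calc _ ≤ δ * (ω * ‖u (wch x δ yr z)‖) := by gcongr
      _ = δ * ω * ‖u (wch x δ yr z)‖ := by ring
      _ ≤ _ := by gcongr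

theorem np_wch {X K : Set E} {Ω Ω' : Set ℂ} (h : NP X K Ω) (hx : x ≠ 0) (hδ : 0 < δ)
    (hc : IsCompact Ω') (hs : ∀ z ∈ Ω', wch x δ yr z ∈ Ω) :
    NP (bc (wch x δ yr) ⁻¹' X) (bc (wch x δ yr) ⁻¹' K) Ω' :=
  st_pull X K Ω Ω' _ h hc fun z hz => ⟨an_wch x δ yr z, deriv_wch_ne hx hδ z, hs z hz⟩

theorem an_pull {X : Set E} {Ω Ω' : Set ℂ} {V : E → ℂ} {a : ℂ → ℂ}
    (h : AnalyticOnNhd ℂ V (ov X Ω)) (ha : ∀ z ∈ Ω', AnalyticAt ℂ a z ∧ a z ∈ Ω) :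
    AnalyticOnNhd ℂ (fun y => V (bc a y)) (ov (bc a ⁻¹' X) Ω') := fun y hy =>
  (h (bc a y) ⟨hy.1, (ha _ hy.2).2⟩).comp (an_bc (ha _ hy.2).1)

theorem np_aff {X K : Set E} {p : ℂ} {r : ℝ} (hr : 0 < r) (h : NP X K (closedBall p r)) :
    NP (bc (fun z => p + r * z) ⁻¹' X) (bc (fun z => p + r * z) ⁻¹' K) (closedBall 0 1) := by
  refine st_pull X K _ _ _ h (isCompact_closedBall _ _) fun z hz => ⟨by fun_prop, ?_, ?_⟩
  · have : HasDerivAt (fun z : ℂ => p + r * z) r z := by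
      simpa using ((hasDerivAt_id z).const_mul (r : ℂ)).const_add p
    rw [this.deriv]
    exact Complex.ofReal_ne_zero.2 hr.ne'
  · rw [mem_closedBall_iff_norm, add_sub_cancel_left, norm_mul, Complex.norm_real,
      Real.norm_eq_abs, abs_of_pos hr]
    exact mul_le_of_le_one_right hr.le (mem_closedBall_zero_iff.1 hz)

/-- the part of `X` in a tube without points on the shell -/
theorem np_near {X K : Set E} {w : ℂ → ℂ} {Ω : Set ℂ} {R : ℝ} (hX : IsCompact X)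
    (hp : ∀ y ∈ X, y ∉ K → ¬ Peak X y) (hΩ : IsClosed Ω) (hw : ∀ z ∈ Ω, ContinuousAt w z)
    (hs : ∀ y ∈ X, y ∉ K → y.1 ∈ Ω → ‖y.2 - w y.1‖ ≠ R) : NP (near X w R) K Ω := by
  have hc : ∀ y : E, y.1 ∈ Ω → ContinuousAt (fun x : E => ‖x.2 - w x.1‖) y := fun y hy =>
    (continuousAt_snd.sub ((hw _ hy).comp continuousAt_fst)).norm
  refine ⟨?_, fun y hy => hy.1, fun y hy hK ⟨G, hG, he⟩ => hp y hy.1.1 hK ⟨G, hG, ?_⟩⟩
  · have h1 : IsCompact (ov X Ω) := hX.inter_right (hΩ.preimage continuous_fst)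
    have h2 : ov (near X w R) Ω = ov X Ω ∩ (fun x : E => ‖x.2 - w x.1‖) ⁻¹' Iic R :=
      Set.ext fun y => ⟨fun hy => ⟨⟨hy.1.1, hy.2⟩, hy.1.2⟩, fun hy => ⟨⟨hy.1.1, hy.2⟩, hy.1.2⟩⟩
    rw [h2]
    exact h1.of_isClosed_subset (ContinuousOn.preimage_isClosed_of_isClosed
      (fun y hy => (hc y hy.2).continuousWithinAt) h1.isClosed isClosed_Iic) inter_subset_left
  · have h3 : ‖y.2 - w y.1‖ < R := lt_of_le_of_ne hy.1.2 (hs y hy.1.1 hK hy.2)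
    filter_upwards [he, (hc y hy.2).eventually (gt_mem_nhds h3)] with x a b c using a ⟨c, b.le⟩

/-! ### ports -/

/-- maximum principle over a disc -/
theorem disc_max {X K : Set E} {F : E → ℂ} {c : ℂ} {r B : ℝ} (h : NP X K (closedBall c r))
    (hF : AnalyticOnNhd ℂ F (ov X (closedBall c r))) (hB : 0 ≤ B)
    (hK : ∀ y ∈ ov X (closedBall c r), y ∈ K → ‖F y‖ ≤ B)
    (hb : ∀ y ∈ X, y ∉ K → ‖y.1 - c‖ = r → ‖F y‖ ≤ B) :
    ∀ y ∈ ov X (closedBall c r), ‖F y‖ ≤ B := by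
  intro y hy
  have := st_mpabs X K _ F (fun _ => 0) B h hF (LRe.const 0 _) hB (fun u hu => by
    rw [neg_zero, Real.exp_zero, mul_one]
    by_cases hk : u ∈ K
    · exact hK u hu.1 hk
    · refine hb u hu.1.1 hk (le_antisymm (mem_closedBall_iff_norm.1 hu.1.2) (not_lt.1 fun a => ?_))
      exact ((PP2.bd_ov isOpen_ball ball_subset_closedBall hu).resolve_left hk)
        (mem_ball_iff_norm.2 a)) y hy
  simpa using this

/-- bound on the whole port disc from the weighted bound -/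
theorem port_fill {X K : Set E} {F : E → ℂ} {γ B B' r0 : ℝ} (h : NP X K (closedBall 0 1))
    (hF : AnalyticOnNhd ℂ F (ov X (closedBall 0 1))) (hγ : 0 ≤ γ) (h0 : 0 < r0) (h1 : r0 ≤ 1)
    (hB : 0 ≤ B) (hw : ∀ y ∈ ov X (closedBall 0 1), y ∉ K → ‖F y‖ * ‖y.1‖ ^ γ ≤ B)
    (hK : ∀ y ∈ ov X (closedBall 0 r0), y ∈ K → ‖F y‖ ≤ B') :
    ∀ y ∈ ov X (closedBall 0 1), y ∉ K → ‖F y‖ ≤ max (B / r0 ^ γ) B' := by
  have a0 : 0 < r0 ^ γ := Real.rpow_pos_of_pos h0 γ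
  have a1 : ∀ y ∈ ov X (closedBall 0 1), y ∉ K → r0 ≤ ‖y.1‖ → ‖F y‖ ≤ max (B / r0 ^ γ) B' := by
    intro y hy hk hr
    refine le_trans ?_ (le_max_left _ _)
    rw [le_div_iff₀ a0]
    exact le_trans (by gcongr) (hw y hy hk)
  have hs : closedBall (0 : ℂ) r0 ⊆ closedBall 0 1 := closedBall_subset_closedBall h1
  intro y hy hk
  rcases le_total r0 ‖y.1‖ with a | a
  · exact a1 y hy hk a
  · refine disc_max (h.mono isClosed_closedBall hs) (hF.mono (ov_mono hs))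
      (le_trans (by positivity) (le_max_left _ _)) (fun u hu hu' => (hK u hu hu').trans
        (le_max_right _ _)) (fun u hu hu' e => ?_) y ⟨hy.1, mem_closedBall_zero_iff.2 a⟩
    rw [sub_zero] at e
    exact a1 u ⟨hu, mem_closedBall_zero_iff.2 (e.le.trans h1)⟩ hu' e.ge

/-- nothing but the sheet over a port -/
theorem port_zero {X K : Set E} {N : E → ℂ} {r0 : ℝ} (h : NP X K (closedBall 0 1))
    (hN : AnalyticOnNhd ℂ N (ov X (closedBall 0 1))) (h0 : 0 < r0) (h1 : r0 ≤ 1)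
    (hw : ∀ y ∈ ov X (closedBall 0 1), y ∉ K → y.1 * N y = 0)
    (hK : ∀ y ∈ ov X (closedBall 0 r0), y ∈ K → N y = 0) :
    ∀ y ∈ ov X (closedBall 0 1), y ∉ K → N y = 0 := by
  have hs : closedBall (0 : ℂ) r0 ⊆ closedBall 0 1 := closedBall_subset_closedBall h1
  have a1 : ∀ y ∈ ov X (closedBall 0 1), y ∉ K → r0 ≤ ‖y.1‖ → N y = 0 := fun y hy hk hr =>
    (mul_eq_zero.1 (hw y hy hk)).resolve_left fun e => by
      rw [e, norm_zero] at hr; linarith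
  intro y hy hk
  rcases le_total r0 ‖y.1‖ with a | a
  · exact a1 y hy hk a
  · refine norm_le_zero_iff.1 (disc_max (h.mono isClosed_closedBall hs) (hN.mono (ov_mono hs))
      le_rfl (fun u hu hu' => by rw [hK u hu hu', norm_zero]) (fun u hu hu' e => ?_) y
      ⟨hy.1, mem_closedBall_zero_iff.2 a⟩)
    rw [sub_zero] at e
    rw [a1 u ⟨hu, mem_closedBall_zero_iff.2 (e.le.trans h1)⟩ hu' e.ge, norm_zero]

theorem exp_half : 4 / 3 ≤ Real.exp (1 / 2) := by linarith [Real.add_one_le_exp (1 / 2 : ℝ)]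

theorem exp_small {L : ℝ} (hL : 13 ≤ L) : Real.exp (-L + 4) ≤ 1 / 10 := by
  have h1 : (10 : ℝ) ≤ Real.exp (L - 4) := by linarith [Real.add_one_le_exp (L - 4)]
  rw [show -L + 4 = -(L - 4) by ring, Real.exp_neg, one_div]
  exact inv_anti₀ (by norm_num) h1

theorem norm_pp0 (v : ℂ) : ‖pp 0 v‖ = ‖v‖ ^ 2 := by simp [pp, sq]

/-- radius of the micro port chart -/
def prad (x : ℂ) (δ yr L : ℝ) : ℝ := 2 * δ * ‖wch x δ yr Complex.I‖ * Real.exp (-L + 7 / 2)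

/-- micro port chart -/
def pch (x : ℂ) (δ yr L : ℝ) (z : ℂ) : ℂ := wch x δ yr Complex.I + prad x δ yr L * z

theorem prad_pos (hx : x ≠ 0) (hδ : 0 < δ) (L : ℝ) : 0 < prad x δ yr L := by
  have := norm_pos_iff.2 (wch_ne (δ := δ) (yr := yr) hx Complex.I)
  unfold prad; positivity

theorem pc_pch (hx : x ≠ 0) (hδ : 0 < δ) (L : ℝ) (z : ℂ) :
    pc x δ yr (pch x δ yr L z) = Real.exp (-L + 7 / 2) * ‖z‖ := by
  have h := norm_pos_iff.2 (wch_ne (δ := δ) (yr := yr) hx Complex.I)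
  unfold pc pch
  rw [add_sub_cancel_left, norm_mul, Complex.norm_real, Real.norm_eq_abs,
    abs_of_pos (prad_pos hx hδ L)]
  unfold prad
  field_simp

theorem pch_surj (hx : x ≠ 0) (hδ : 0 < δ) (L : ℝ) (z : ℂ) : ∃ ξ, pch x δ yr L ξ = z :=
  ⟨(z - wch x δ yr Complex.I) / prad x δ yr L, by
    have : (prad x δ yr L : ℂ) ≠ 0 := Complex.ofReal_ne_zero.2 (prad_pos hx hδ L).ne'
    unfold pch; field_simp; ring⟩

/-- points of the micro port disc in the window chart -/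
theorem pch_wch (hx : x ≠ 0) (hδ : 0 < δ) (hδ1 : δ ≤ 1 / 16) {L : ℝ} (hL : 13 ≤ L) {ξ : ℂ}
    (hξ : ‖ξ‖ ≤ 1) : ∃ ζ, wch x δ yr ζ = pch x δ yr L ξ ∧ ‖ζ - Complex.I‖ ≤ 1 / 4 := by
  have h := norm_pos_iff.2 (wch_ne (δ := δ) (yr := yr) hx Complex.I)
  have h1 : Real.exp (-L + 7 / 2) ≤ 1 / 10 :=
    (Real.exp_le_exp.2 (by linarith)).trans (exp_small hL)
  have h0 := Real.exp_pos (-L + 7 / 2)
  have h2 : pc x δ yr (pch x δ yr L ξ) ≤ 1 / 10 := by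
    rw [pc_pch hx hδ]; nlinarith [norm_nonneg ξ]
  obtain ⟨ζ, a, b⟩ := wch_surj (yr := yr) hx hδ Complex.I (z := pch x δ yr L ξ) (by
    unfold pc at h2
    rw [div_le_iff₀ (by positivity)] at h2
    nlinarith)
  exact ⟨ζ, a, near_of_pc hx hδ b (by rwa [a])⟩

/-- the port clause of an active window -/
theorem ppp (hP : St_PP2) (C0 : ℝ) : ∃ ι > (0 : ℝ), ∀ (X K : Set E) (V N : E → ℂ) (x : ℂ)
    (δ yr L ρ Mst Mup b0 : ℝ), x ≠ 0 → 0 < δ → δ ≤ 1 / 16 → 13 ≤ L → 0 ≤ b0 → Mst ≤ b0 ^ 2 →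
    NP X K (closedBall (wch x δ yr Complex.I) (prad x δ yr L)) →
    (∀ y ∈ bc (wch x δ yr) ⁻¹' X, ‖y.1‖ ≤ ρ → -1 < y.1.im) →
    AnalyticOnNhd ℂ N (ov (bc (pch x δ yr L) ⁻¹' X) (closedBall 0 1)) →
    PPH2 (bc (pch x δ yr L) ⁻¹' X) (bc (pch x δ yr L) ⁻¹' K) N 0 (1 / 2) ι C0 Mst Mup →
    (∀ y ∈ ov (bc (pch x δ yr L) ⁻¹' X) (closedBall 0 1),
      ‖V (bc (pch x δ yr L) y)‖ = ‖y.1 * N y‖ ∧
      (y ∉ bc (pch x δ yr L) ⁻¹' K → ‖y.1 * N y‖ ^ 2 ≤ Mup) ∧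
      (y ∈ bc (pch x δ yr L) ⁻¹' K → ‖y.1‖ ≤ Real.exp (-5) → ‖y.1 * N y‖ ≤ 1000 * b0)) →
    ∀ b : ℝ, b0 ≤ b →
      (∀ y ∈ bc (wch x δ yr) ⁻¹' X, y ∉ bc (wch x δ yr) ⁻¹' K → Real.exp (-L + 3) ≤ ‖bl y.1‖ →
        ‖bl y.1‖ ≤ Real.exp (-L + 4) → ‖V (bc (wch x δ yr) y)‖ ≤ b) →
      ∀ y ∈ bc (wch x δ yr) ⁻¹' X, y ∉ bc (wch x δ yr) ⁻¹' K → ‖y.1‖ ≤ ρ →
        ‖bl y.1‖ ≤ Real.exp (-L + 3) → ‖V (bc (wch x δ yr) y)‖ ≤ 1000 * b := by
  obtain ⟨ι, hι, H⟩ := hP (1 / 2) C0 (by norm_num) le_rfl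
  refine ⟨ι, hι, fun X K V N x δ yr L ρ Mst Mup b0 hx hδ hδ1 hL hb0 hM hnp hup hN hpp hV b hb
    hO y hy hK hρ hbl => ?_⟩
  have hnp' : NP (bc (pch x δ yr L) ⁻¹' X) (bc (pch x δ yr L) ⁻¹' K) (closedBall 0 1) :=
    np_aff (prad_pos hx hδ L) hnp
  have e1 : Real.exp (-L + 7 / 2) = Real.exp (-L + 3) * Real.exp (1 / 2) := by
    rw [← Real.exp_add]; congr 1; ring
  have e2 : Real.exp (-L + 4) = Real.exp (-L + 7 / 2) * Real.exp (1 / 2) := by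
    rw [← Real.exp_add]; congr 1; ring
  have e3 := Real.exp_pos (-L + 3)
  have e4 := Real.exp_pos (-L + 7 / 2)
  have e5 := exp_half
  have hb' : 0 ≤ b := hb0.trans hb
  have h1 := H _ _ N 0 Mst Mup (b ^ 2) le_rfl hnp' hN hpp (hM.trans (by gcongr)) (by positivity)
    (fun u hu hk => by
      rw [norm_pp0]
      refine le_trans (mul_le_of_le_one_right (by positivity) ?_) ((hV u hu).2.1 hk)
      exact Real.rpow_le_one (norm_nonneg _) (mem_closedBall_zero_iff.1 hu.2) (by norm_num))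
    (fun u hu hk e => by
      obtain ⟨ζ, a, c⟩ := pch_wch (yr := yr) hx hδ hδ1 hL e.le
      have a1 := bl_pc (yr := yr) hx hδ (by linarith) c
      rw [a, pc_pch hx hδ, e, mul_one] at a1
      have a2 : bc (wch x δ yr) (ζ, u.2) = bc (pch x δ yr L) u := Prod.ext a rfl
      have a3 := hO (ζ, u.2) (by rw [mem_preimage, a2]; exact hu)
        (by rw [mem_preimage, a2]; exact hk) (by nlinarith [a1.1]) (by nlinarith [a1.2])
      rw [a2, (hV u ⟨hu, mem_closedBall_zero_iff.2 e.le⟩).1] at a3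
      rw [norm_pp0]; gcongr)
  have h2 := port_fill (F := fun y => pp 0 (y.1 * N y)) (B' := (1000 * b0) ^ 2) hnp'
    (an_pp (V := fun y => y.1 * N y) (fun u hu => analyticAt_fst.mul (hN u hu)) 0) (by norm_num)
    (Real.exp_pos (-5)) (Real.exp_le_one_iff.2 (by norm_num)) (by positivity) h1
    fun u hu hk => by
      have a := mem_closedBall_zero_iff.1 hu.2
      have := (hV u ⟨hu.1, mem_closedBall_zero_iff.2
        (a.trans (Real.exp_le_one_iff.2 (by norm_num)))⟩).2.2 hk a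
      rw [norm_pp0]; gcongr
  have h3 : ‖y.1 - Complex.I‖ ≤ 1 / 4 := near_of_bl (hup y hy hρ)
    (hbl.trans ((Real.exp_le_exp.2 (by linarith)).trans (exp_small hL)))
  obtain ⟨ξ, hξ⟩ := pch_surj (yr := yr) hx hδ L (wch x δ yr y.1)
  have h4 := (bl_pc (yr := yr) hx hδ (by linarith) h3).1
  rw [← hξ, pc_pch hx hδ] at h4
  have h5 : ‖ξ‖ ≤ 1 := by
    by_contra a
    nlinarith [not_le.1 a, mul_pos e4 (sub_pos.2 (not_le.1 a))]
  have a2 : bc (pch x δ yr L) (ξ, y.2) = bc (wch x δ yr) y := Prod.ext hξ rfl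
  have a3 : (ξ, y.2) ∈ ov (bc (pch x δ yr L) ⁻¹' X) (closedBall 0 1) :=
    ⟨by rw [mem_preimage, a2]; exact hy, mem_closedBall_zero_iff.2 h5⟩
  have h6 := h2 _ a3 (by rw [mem_preimage, a2]; exact hK)
  rw [norm_pp0, ← (hV _ a3).1, a2] at h6
  refine (pow_le_pow_iff_left₀ (norm_nonneg _) (by positivity) two_ne_zero).1 (h6.trans ?_)
  refine max_le ?_ (by gcongr)
  have h7 : Real.exp (-5) ≤ Real.exp (-5) ^ (1 / 2 : ℝ) := by
    rw [← Real.exp_mul]; exact Real.exp_le_exp.2 (by norm_num)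
  have h8 : Real.exp 5 ≤ 3 ^ 5 := by
    rw [show (5 : ℝ) = (5 : ℕ) * 1 by norm_num, Real.exp_nat_mul]
    gcongr
    linarith [Real.exp_one_lt_d9]
  rw [div_le_iff₀ (by positivity)]
  have h9 : 1 ≤ 1000 ^ 2 * Real.exp (-5) := by
    rw [Real.exp_neg, ← div_eq_mul_inv, le_div_iff₀ (Real.exp_pos _)]; linarith
  nlinarith [sq_nonneg b, mul_le_mul_of_nonneg_left h7 (sq_nonneg (1000 * b)),
    mul_le_mul_of_nonneg_left h9 (sq_nonneg b)]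

/-! ### gain properties -/

/-- the chart bound of a neutral window gives `GP` with exponent `0` for `‖Q‖ ^ k` -/
theorem gp_neu {D : Set E} {Q : E → ℂ} {q : E → ℝ} {ρ CN M Omin : ℝ} {k : ℕ} (hx : ‖x‖ = 1)
    (hδ : 0 < δ) (hρ : 0 < ρ) (hρ1 : ρ ≤ 1 / 8) (hC : 1 ≤ CN) (hM : 1 ≤ M) (hO : 0 ≤ Omin)
    (hk : k ≠ 0) (hs : 1000 * M * (δ + |yr|) ≤ ρ)
    (hq : ∀ y ∈ bc (wch x δ yr) ⁻¹' D, 2 ≤ ‖y.1‖ → ‖y.1‖ ≤ ρ / (2 * δ) →
      q (bc (wch x δ yr) y) = ‖Q y‖ ^ k)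
    (H : ∀ O : ℝ, Omin ≤ O → (∀ y ∈ bc (wch x δ yr) ⁻¹' D, ρ / (2 * δ) / M ≤ ‖y.1‖ →
      ‖y.1‖ ≤ ρ / (2 * δ) → ‖Q y‖ ≤ O) → ∀ y ∈ bc (wch x δ yr) ⁻¹' D, 2 ≤ ‖y.1‖ →
      ‖y.1‖ ≤ ρ / (2 * δ) / 2 → ‖Q y‖ ≤ CN * O) :
    GP D q x 0 (10000 * CN ^ k * M) (100 * (δ + |yr|)) ρ (Omin ^ k) := by
  have h2 : 2 ≤ ρ / (2 * δ) / M := by
    rw [le_div_iff₀ (by linarith), le_div_iff₀ (by positivity)]
    nlinarith [abs_nonneg yr]
  refine st_wconv D q x δ yr ρ 0 (CN ^ k) M (Omin ^ k) hx hδ hρ hρ1 le_rfl (by norm_num)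
    (one_le_pow₀ hC) hM (by positivity) hs fun O hO1 hO2 r _ hr y hy h3 h4 => ?_
  have hO0 : 0 ≤ O := le_trans (by positivity) hO1
  have e1 : (O ^ (k⁻¹ : ℝ)) ^ k = O := Real.rpow_inv_natCast_pow hO0 hk
  have e0 : 0 ≤ O ^ (k⁻¹ : ℝ) := by positivity
  have h5 := H (O ^ (k⁻¹ : ℝ)) ((pow_le_pow_iff_left₀ hO e0 hk).1 (by rwa [e1]))
    (fun u hu a b => (pow_le_pow_iff_left₀ (norm_nonneg _) e0 hk).1 (by
      rw [e1, ← hq u hu (h2.trans a) b]; exact hO2 u hu a b)) y hy h3 (h4.trans hr)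
  have h6 : 0 ≤ ρ / (2 * δ) := by positivity
  rw [hq y hy h3 (by linarith), Real.rpow_zero, mul_one, ← e1, ← mul_pow]
  gcongr

/-- the chart bound of an active window gives `GP` with exponent `4 - 2 β` for
`‖P‖ ‖P - s‖` -/
theorem gp_act {D : Set E} {P s : E → ℂ} {q : E → ℝ} {ρ β M S T Omin : ℝ} (hx : ‖x‖ = 1)
    (hδ : 0 < δ) (hρ : 0 < ρ) (hρ1 : ρ ≤ 1 / 8) (hβ : 0 ≤ β) (hβ1 : β ≤ 2) (hM : 1 ≤ M)
    (hO : 0 ≤ Omin) (hS : 0 ≤ S) (hT : 0 ≤ T) (hST : S ^ 2 ≤ T ^ 2 * Omin)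
    (hs : 1000 * M * (δ + |yr|) ≤ ρ)
    (hq : ∀ y ∈ bc (wch x δ yr) ⁻¹' D, 2 ≤ ‖y.1‖ → ‖y.1‖ ≤ ρ / (2 * δ) →
      q (bc (wch x δ yr) y) = ‖P y‖ * ‖P y - s y‖ ∧ ‖s y‖ ≤ S * (‖y.1‖ / (ρ / (2 * δ))) ^ 2)
    (H : ∀ O : ℝ, 0 ≤ O → (∀ y ∈ bc (wch x δ yr) ⁻¹' D, ρ / (2 * δ) / M ≤ ‖y.1‖ →
      ‖y.1‖ ≤ ρ / (2 * δ) → ‖P y‖ ≤ O) → ∀ r : ℝ, 8 ≤ r → r ≤ ρ / (2 * δ) →
      ∀ y ∈ bc (wch x δ yr) ⁻¹' D, ‖y.1‖ ≤ r → ‖P y‖ ≤ M ^ 2 * (r / (ρ / (2 * δ))) ^ (2 - β) * O) :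
    GP D q x (4 - 2 * β) (10000 * (2 * M ^ 4 * (1 + T) ^ 2) * M) (100 * (δ + |yr|)) ρ Omin := by
  have h2 : 2 ≤ ρ / (2 * δ) / M := by
    rw [le_div_iff₀ (by linarith), le_div_iff₀ (by positivity)]
    nlinarith [abs_nonneg yr]
  have hM2 : 1 ≤ M ^ 2 := one_le_pow₀ hM
  refine st_wconv D q x δ yr ρ _ _ M Omin hx hδ hρ hρ1 (by linarith) (by linarith)
    (by nlinarith [one_le_pow₀ (n := 4) hM, one_le_pow₀ (n := 2) (show 1 ≤ 1 + T by linarith)])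
    hM hO hs fun O hO1 hO2 r hr0 hr y hy h3 h4 => ?_
  set R := ρ / (2 * δ) with hR
  have hR0 : 0 < R := by positivity
  have hO0 : 0 ≤ O := hO.trans hO1
  set o := √O with ho
  have o0 : 0 ≤ o := Real.sqrt_nonneg O
  have o2 : o ^ 2 = O := Real.sq_sqrt hO0
  have hSo : S ≤ T * o := by
    refine (pow_le_pow_iff_left₀ hS (by positivity) two_ne_zero).1 (hST.trans ?_)
    rw [mul_pow, o2]; gcongr
  have h5 := H ((1 + T) * o) (by positivity) (fun u hu a b => by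
    obtain ⟨c, d⟩ := hq u hu (h2.trans a) b
    have d1 : ‖s u‖ ≤ T * o := by
      refine d.trans ((mul_le_of_le_one_right hS ?_).trans hSo)
      exact pow_le_one₀ (by positivity) ((div_le_one hR0).2 b)
    have d2 := hO2 u hu a b
    rw [c] at d2
    have d3 := norm_sub_norm_le (P u) (s u)
    by_contra f
    have f1 : (1 + T) * o < ‖P u‖ := not_le.1 f
    have f2 : o < ‖P u - s u‖ := by linarith
    have f3 : o ≤ ‖P u‖ := by nlinarith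
    nlinarith [mul_le_mul f3 f2.le o0 (norm_nonneg _), norm_nonneg (P u - s u),
      mul_lt_mul'' (lt_of_le_of_lt (show o ≤ (1 + T) * o by nlinarith) f1) f2 o0 o0]) r hr0
    (by linarith) y hy h4
  obtain ⟨c, d⟩ := hq y hy h3 (by linarith)
  have r0 : 0 < r / R := by positivity
  have r1 : r / R ≤ 1 := (div_le_one hR0).2 (by linarith)
  set t := (r / R) ^ (2 - β) with ht
  have t0 : 0 ≤ t := by positivity
  have d1 : ‖s y‖ ≤ T * o * t := by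
    refine d.trans (mul_le_mul hSo ?_ (by positivity) (by positivity))
    calc (‖y.1‖ / R) ^ 2 ≤ (r / R) ^ 2 := by gcongr
      _ = (r / R) ^ (2 : ℝ) := (Real.rpow_two _).symm
      _ ≤ t := Real.rpow_le_rpow_of_exponent_ge r0 r1 (by linarith)
  have e1 : (r / R) ^ (4 - 2 * β) = t * t := by
    rw [ht, ← Real.rpow_add r0]; congr 1; ring
  have d2 : T * o * t ≤ M ^ 2 * t * ((1 + T) * o) := by
    have : T * o ≤ M ^ 2 * ((1 + T) * o) := by nlinarith [mul_nonneg hT o0]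
    nlinarith
  have d3 : ‖P y - s y‖ ≤ 2 * (M ^ 2 * t * ((1 + T) * o)) := by
    linarith [norm_sub_le (P y) (s y)]
  rw [c, e1, ← o2]
  calc _ ≤ M ^ 2 * t * ((1 + T) * o) * (2 * (M ^ 2 * t * ((1 + T) * o))) := by gcongr
    _ = _ := by ring

end Win

end Pool.Agent.Lib.SH
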