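import Pool.Agent.Lib.SH.Blue8
import Pool.Agent.Lib.SH.All1
import Pool.Agent.Lib.SH.Win
import Pool.Agent.Lib.SH.B_NL2

/-! Block NB2: a window with a pinned zero is neutral at all levels. -/

open Set Filter Topology Metric

noncomputable section

namespace Pool.Agent.Lib.SH

namespace NB2

theorem im_mul {A B : ℂ} {a b : ℝ} (hA : |A.im| ≤ a * ‖A‖) (hB : |B.im| ≤ b * ‖B‖) :
    |(A * B).im| ≤ (a + b) * ‖A * B‖ := by
  rw [Complex.mul_im, norm_mul]
  refine (abs_add_le _ _).trans ?_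
  rw [abs_mul, abs_mul]
  have h1 := mul_le_mul (Complex.abs_re_le_norm A) hB (abs_nonneg _) (norm_nonneg _)
  have h2 := mul_le_mul hA (Complex.abs_re_le_norm B) (abs_nonneg _) ((abs_nonneg _).trans hA)
  linarith

theorem im_pp {e ι : ℝ} {v : ℂ} (hι : 0 ≤ ι) (h : |v.im| ≤ ι * ss e v) :
    |(pp e v).im| ≤ 2 * ι * ‖pp e v‖ := by
  have h1 : |v.im| ≤ ι * ‖v‖ := h.trans (mul_le_mul_of_nonneg_left (min_le_left _ _) hι)
  have h2 : |(v - e).im| ≤ ι * ‖v - e‖ := by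
    rw [Complex.sub_im, Complex.ofReal_im, sub_zero]
    exact h.trans (mul_le_mul_of_nonneg_left (min_le_right _ _) hι)
  rw [two_mul]
  exact im_mul h1 h2

theorem sq1_re (z : ℂ) : (sq1 z).re = (z.re + 1) ^ 2 - z.im ^ 2 + 2 := by
  simp [sq1, sq]

theorem sq1_im (z : ℂ) : (sq1 z).im = 2 * (z.re + 1) * z.im := by
  simp [sq1, sq]; ring

theorem sq1_low {z : ℂ} {ι : ℝ} (h0 : 0 ≤ z.im) (h : z.im ≤ ι) (h1 : ι ≤ 1) :
    sq1 z ≠ 0 ∧ |(sq1 z ^ 2).im| ≤ 2 * ι * ‖sq1 z ^ 2‖ := by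
  have a : 2 * |z.re + 1| ≤ (sq1 z).re := by
    rw [sq1_re, ← sq_abs (z.re + 1)]
    nlinarith [sq_nonneg (|z.re + 1| - 1)]
  have p : 0 < (sq1 z).re := by
    rw [sq1_re]; nlinarith [sq_nonneg (z.re + 1)]
  have b : |(sq1 z).im| ≤ ι * ‖sq1 z‖ := by
    rw [sq1_im, abs_mul, abs_mul, abs_two, abs_of_nonneg h0, mul_comm ι]
    exact mul_le_mul (a.trans (Complex.re_le_norm _)) h h0 (norm_nonneg _)
  refine ⟨fun e => by rw [e] at p; simp at p, ?_⟩
  rw [sq, two_mul]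
  exact im_mul b b

theorem sq1_near {z : ℂ} (h : ‖z - Complex.I‖ ≤ 1 / 4) :
    sq1 z ≠ 0 ∧ |(sq1 z ^ 2 * -Complex.I).im| ≤ 28 * ‖z - Complex.I‖ * ‖sq1 z ^ 2 * -Complex.I‖ := by
  set w := z - Complex.I with hw
  have hz : z = w + Complex.I := by rw [hw]; ring
  have na : ‖(2 + 2 * Complex.I : ℂ)‖ ≤ 4 := by
    refine (norm_add_le _ _).trans ?_
    simp; norm_num
  have na' : 2 ≤ ‖(2 + 2 * Complex.I : ℂ)‖ := by
    refine le_trans ?_ (Complex.re_le_norm _)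
    simp
  have e1 : sq1 z = (2 + 2 * Complex.I) + w * (w + (2 + 2 * Complex.I)) := by
    rw [hz]; unfold sq1
    linear_combination Complex.I_sq
  set d := w * (w + (2 + 2 * Complex.I)) with hd
  have na3 : ‖(2 + 2 * Complex.I : ℂ)‖ ≤ 3 := by
    have : ‖(2 + 2 * Complex.I : ℂ)‖ ^ 2 = 8 := by
      rw [Complex.sq_norm, Complex.normSq_apply]; simp; norm_num
    nlinarith [norm_nonneg (2 + 2 * Complex.I : ℂ)]
  have nd : ‖d‖ ≤ 4 * ‖w‖ := by
    rw [hd, norm_mul, mul_comm]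
    exact mul_le_mul_of_nonneg_right ((norm_add_le _ _).trans (by linarith)) (norm_nonneg _)
  have n1 : 1 ≤ ‖sq1 z‖ := by
    have := norm_sub_le (sq1 z) d
    rw [e1, add_sub_cancel_right, ← e1] at this
    linarith
  have e2 : sq1 z ^ 2 * -Complex.I = 8 + d * (2 * (2 + 2 * Complex.I) + d) * -Complex.I := by
    rw [e1]
    linear_combination (-8 - 4 * Complex.I) * Complex.I_sq
  refine ⟨norm_pos_iff.1 (by linarith), ?_⟩
  have n2 : 1 ≤ ‖sq1 z ^ 2 * -Complex.I‖ := by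
    rw [norm_mul, norm_neg, Complex.norm_I, mul_one, norm_pow]
    exact one_le_pow₀ n1
  refine le_trans ?_ (le_mul_of_one_le_right (by positivity) n2)
  rw [e2, Complex.add_im]
  have e8 : (8 : ℂ).im = 0 := by simp
  rw [e8, zero_add]
  refine (Complex.abs_im_le_norm _).trans ?_
  rw [norm_mul, norm_neg, Complex.norm_I, mul_one, norm_mul]
  have n3 : ‖2 * (2 + 2 * Complex.I) + d‖ ≤ 7 := by
    refine (norm_add_le _ _).trans ?_
    rw [norm_mul, Complex.norm_two]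
    linarith
  nlinarith [mul_le_mul nd n3 (norm_nonneg _) (by positivity)]

theorem sq1_up {z : ℂ} {R : ℝ} (hR : 3 ≤ R) (h : ‖z‖ ≤ R) : ‖sq1 z‖ ≤ 2 * R ^ 2 := by
  unfold sq1
  refine (norm_add_le _ _).trans ?_
  rw [norm_pow, Complex.norm_two]
  have a : ‖z + 1‖ ≤ R + 1 := (norm_add_le _ _).trans (by rw [norm_one]; linarith)
  nlinarith [pow_le_pow_left₀ (norm_nonneg _) a 2]

theorem sq1_lo {z : ℂ} (h : 8 ≤ ‖z‖) : ‖z‖ ^ 2 / 2 ≤ ‖sq1 z‖ := by
  have a : ‖z‖ - 1 ≤ ‖z + 1‖ := by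
    have := norm_sub_le (z + 1) 1
    rw [add_sub_cancel_right, norm_one] at this
    linarith
  have b : ‖(z + 1) ^ 2‖ ≤ ‖sq1 z‖ + 2 := by
    have := norm_sub_le (sq1 z) 2
    rwa [Complex.norm_two, sq1, add_sub_cancel_right] at this
  rw [norm_pow] at b
  nlinarith [pow_le_pow_left₀ (by linarith) a 2]

theorem an_sq1 (z : ℂ) : AnalyticAt ℂ sq1 z := by
  unfold sq1; fun_prop

theorem box_num {u t r : ℝ} (hr : 0 < r) (ht : |t| ≤ r) (h : 5 * r ≤ |u| ∨ r ≤ 1 / 16) :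
    0 < u ^ 2 - t ^ 2 + 2 ∧ 4 * r * (|u| + |t|) ≤ u ^ 2 - t ^ 2 + 2 := by
  rw [← sq_abs u, ← sq_abs t]
  have := abs_nonneg t
  have := abs_nonneg u
  rcases h with h | h <;> constructor <;> nlinarith [sq_nonneg (|u| - 1)]

theorem wb_of_vb {X K : Set E} {V Q : E → ℂ} {e x0 r ι C0 : ℝ} (he : 0 ≤ e) (hι : 0 ≤ ι)
    (hr : 0 < r) (hx : (4 ≤ |x0| ∧ r = |x0| / 8) ∨ r ≤ 1 / 16)
    (hQ : ∀ y : E, y.1 ∈ box x0 r r → sq1 y.1 ≠ 0 → Q y = pp e (V y) * sq1 y.1 ^ 2)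
    (h : VB X K V e 0 x0 r ι C0) : WB X K Q x0 r ι C0 1 0 := by
  obtain ⟨hV, ι', Ψ, Ψy, p1, -, h1, h2⟩ := h
  have hrc : (r : ℂ) ≠ 0 := Complex.ofReal_ne_zero.2 hr.ne'
  have num : ∀ z ∈ box x0 r r, 0 < (sq1 z).re ∧ 4 * r * ‖z + 1‖ ≤ ‖sq1 z‖ := by
    intro z hz
    have := box_num (u := z.re + 1) hr hz.2 (hx.imp_left fun h => by
      have a := abs_sub_abs_le_abs_sub x0 (z.re + 1)
      have b : |x0 - (z.re + 1)| ≤ r + 1 := by
        have c := abs_le.1 hz.1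
        exact abs_le.2 ⟨by linarith [c.2], by linarith [c.1]⟩
      linarith [h.1, h.2])
    rw [← sq1_re] at this
    refine ⟨this.1, le_trans (mul_le_mul_of_nonneg_left ?_ (by positivity))
      (this.2.trans (Complex.re_le_norm _))⟩
    simpa using Complex.norm_le_abs_re_add_abs_im (z + 1)
  have mem : ∀ ξ ∈ box 0 1 1, (x0 + r * ξ : ℂ) ∈ box x0 r r := by
    rintro ξ ⟨a, b⟩
    rw [sub_zero] at a
    constructor
    · simp only [Complex.add_re, Complex.ofReal_re, Complex.re_ofReal_mul, add_sub_cancel_left]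
      rw [abs_mul, abs_of_pos hr]
      exact mul_le_of_le_one_right hr.le a
    · simp only [Complex.add_im, Complex.ofReal_im, Complex.im_ofReal_mul, zero_add]
      rw [abs_mul, abs_of_pos hr]
      exact mul_le_of_le_one_right hr.le b
  have eQ : ∀ y : E, y.1 ∈ box x0 r r →
      Q y ^ 1 = pp e (V y) * Complex.exp (2 * Complex.log (sq1 (x0 + r * ((y.1 - x0) / r)))) := by
    intro y hy
    have n0 : sq1 y.1 ≠ 0 := fun e => by simpa [e] using (num _ hy).1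
    rw [mul_div_cancel₀ _ hrc, add_sub_cancel, two_mul, Complex.exp_add, Complex.exp_log n0,
      pow_one, hQ y hy n0, sq]
  have nz : ∀ y : E, y.1 ∈ box x0 r r → 0 < ‖Q y‖ → 0 < ‖V y‖ := fun y hy h => by
    have := eQ y hy
    refine norm_pos_iff.2 fun e => ?_
    rw [e, pow_one, pp, zero_mul, zero_mul] at this
    simp [this] at h
  refine ⟨V, fun ξ => 2 * Complex.log (sq1 (x0 + r * ξ)), e, ι', 0, 1, Ψ, Ψy, Or.inl rfl, he, hV,
    fun ξ hξ => ?_, fun ξ hξ => ?_, fun x hx => ?_, eQ, p1, fun ξ _ => by simp,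
    fun y hy hk hq => h1 y hy hk (nz y hy.2 hq), fun y hy hq => h2 y hy (nz y hy.2 hq)⟩
  · refine analyticAt_const.mul (AnalyticAt.clog ?_ (Or.inl (num _ (mem ξ hξ)).1))
    exact (an_sq1 _).comp_of_eq (g := sq1) (f := fun ξ : ℂ => (x0 + r * ξ : ℂ)) (by fun_prop) rfl
  · have n := num _ (mem ξ hξ)
    have d1 : HasDerivAt (fun ξ : ℂ => sq1 (x0 + r * ξ)) (2 * (x0 + r * ξ + 1) * r) ξ := by
      have := (((((hasDerivAt_id ξ).const_mul (r : ℂ)).const_add (x0 : ℂ)).add_const 1).pow 2).add_const 2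
      simpa [sq1] using this
    have n0 : 0 < ‖sq1 (x0 + r * ξ)‖ := lt_of_lt_of_le n.1 (Complex.re_le_norm _)
    rw [((d1.clog (Or.inl n.1)).const_mul 2).deriv, norm_mul, norm_div, norm_mul, norm_mul,
      Complex.norm_two, Complex.norm_real, Real.norm_of_nonneg hr.le, ← mul_div_assoc,
      div_le_one n0]
    linarith [n.2]
  · have hb : (x : ℂ) ∈ box 0 1 1 := ⟨by simpa using abs_le.2 ⟨hx.1, hx.2⟩, by simp⟩
    have n := (num _ (mem _ hb)).1
    have i0 : (sq1 (x0 + r * x)).im = 0 := by rw [sq1_im]; simp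
    have : (2 * Complex.log (sq1 (x0 + r * x))).im = 0 := by
      simp [Complex.log_im, Complex.arg_eq_zero_iff.2 ⟨n.le, i0⟩]
    rw [this, abs_zero]
    exact hι

theorem exp_L {L : ℝ} (hL : 400 ≤ L) : 63 * Real.exp (-L + 1) ≤ 2 / L := by
  have a : L / 2 + 1 ≤ Real.exp (L / 2) := Real.add_one_le_exp _
  have b : Real.exp (-L + 1) * (Real.exp (L / 2) * Real.exp (L / 2)) = Real.exp 1 := by
    rw [← Real.exp_add, ← Real.exp_add]; congr 1; ring
  have c : L / 2 * (L / 2) ≤ Real.exp (L / 2) * Real.exp (L / 2) :=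
    mul_le_mul (by linarith) (by linarith) (by linarith) (Real.exp_pos _).le
  have p := Real.exp_pos (-L + 1)
  have d := mul_le_mul_of_nonneg_left c p.le
  rw [le_div_iff₀ (by linarith)]
  have e3 : Real.exp 1 ≤ 3 := by linarith [Real.exp_one_lt_d9]
  nlinarith [mul_le_mul_of_nonneg_left hL (mul_nonneg p.le (by linarith : (0 : ℝ) ≤ L))]

theorem wch0 {x : ℂ} (δ : ℝ) : wch x δ 0 0 = x := by simp [wch]

end NB2

open NB2 in
theorem st_nb2 : St_NB2 := by
  obtain ⟨L0, CN, hCN, c0, hc0, MW, hMW, HW⟩ := st_wneu st_nl2 all_mic2 all_nwb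
  refine ⟨max L0 400, 200 * CN + 4 * MW, by linarith, c0 / 4, by positivity, fun L C0 hL => ?_⟩
  obtain ⟨ιW, hιW, H⟩ := HW L C0 1 ((le_max_left _ _).trans hL)
  have hL4 : 400 ≤ L := (le_max_right _ _).trans hL
  have hL0 : 0 < L := by linarith
  refine ⟨min (ιW / 4) (1 / L), by positivity, ?_⟩
  intro X K V Pt x δ ρ e ι hx hδ hρ he hM hι hι0 hc h
  set M := 200 * CN + 4 * MW with hMd
  set R := ρ / (2 * δ) with hR
  have hι1 : 4 * ι ≤ ιW := by linarith [hι0.trans (min_le_left _ _)]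
  have hι2 : ι ≤ 1 / L := hι0.trans (min_le_right _ _)
  have hι3 : ι ≤ 1 := hι2.trans ((div_le_one hL0).2 (by linarith))
  have hM0 : 456 ≤ M := by linarith
  have hρ0 : 0 < ρ := lt_of_lt_of_le (by positivity) hM
  have hδR : δ * R = ρ / 2 := by rw [hR]; field_simp
  have hRM : M / 2 ≤ R := by
    rw [hR, le_div_iff₀ (by positivity)]; linarith
  have eQ : ∀ y : E, ‖y.1‖ ≤ R → sq1 y.1 ≠ 0 → Pt y * (Pt y - e * sq1 y.1)
      = pp e (V (bc (wch x δ 0) y)) * sq1 y.1 ^ 2 := fun y hy h0 => by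
    rw [h.eq y hy h0, pp]; ring
  have inb : ∀ x0 r : ℝ, |x0| ≤ R / 2 → r ≤ R / 16 → ∀ z ∈ box x0 r r, ‖z‖ ≤ R := by
    intro x0 r h1 h2 z hz
    have a := abs_sub_abs_le_abs_sub z.re x0
    linarith [Complex.norm_le_abs_re_add_abs_im z, hz.1, hz.2]
  have dist : ∀ z : ℂ, δ * ‖z‖ ≤ 1 / 8 → 7 / 8 * (δ * ‖z‖) ≤ ‖wch x δ 0 z - x‖ ∧
      ‖wch x δ 0 z - x‖ ≤ 9 / 8 * (δ * ‖z‖) := fun z hz => by
    have := Win.wch_dist (x := x) (yr := 0) hδ (z := z) (z' := 0) (by rwa [sub_zero])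
    rwa [wch0, hx, mul_one, sub_zero] at this
  have key : ∀ O : ℝ, 0 ≤ O →
      (∀ y ∈ X, y ∉ K → ρ / M ≤ ‖y.1 - x‖ → ‖y.1 - x‖ ≤ ρ → ‖pp e (V y)‖ ≤ O) →
      ∀ y ∈ bc (wch x δ 0) ⁻¹' X, y ∉ bc (wch x δ 0) ⁻¹' K → ‖y.1‖ ≤ R →
        Real.exp (-L + 2) ≤ ‖bl y.1‖ → ‖Pt y * (Pt y - e * sq1 y.1)‖ ≤ CN * (O * (2 * R ^ 2) ^ 2) := by
    intro O hO0 hO
    refine H _ _ (fun y => Pt y * (Pt y - e * sq1 y.1)) 2 (4 * ι) R (Or.inr rfl) (by linarith)
      (by linarith) hι1 (by linarith) h.np h.up (fun y hy => (h.an y hy).mul ((h.an y hy).sub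
        (analyticAt_const.mul ((an_sq1 _).comp analyticAt_fst)))) (fun y hy hI => ?_)
      (fun y hy hk _ => ?_) (fun x0 h1 h2 => ?_) (fun x0 h1 => ?_) _ (by positivity)
      fun y hy hk h1 h2 => ?_
    · obtain ⟨G, -, hG⟩ := h.anB y hy hI
      simp only [hG.self_of_nhds, hI, sub_self, zero_mul]
    · obtain ⟨c1, -, c3⟩ := h.cls y hy hk
      have hyR := mem_closedBall_zero_iff.1 hy.2
      have p1 := im_pp hι.le c1
      by_cases c4 : y.1.im ≤ ι
      · obtain ⟨n0, n1⟩ := sq1_low (h.up y hy) c4 hι3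
        refine Or.inl ⟨by linarith, ?_⟩
        simp only [eQ y hyR n0]
        exact (im_mul p1 n1).trans (le_of_eq (by ring))
      · have c5 : ‖bl y.1‖ ≤ Real.exp (-L + 1) := by
          rcases c3 with c | c | c
          · exact absurd c c4
          · rcases (norm_nonneg (bl y.1)).eq_or_lt with z | z
            · rw [← z]; exact (Real.exp_pos _).le
            · rw [← Real.log_le_iff_le_exp z]
              linarith [(abs_le.1 c.1).2]
          · exact c.1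
        have c6 := Win.near_of_bl (z := y.1) (by linarith [h.up y hy])
          (c5.trans ((Real.exp_le_exp.2 (by linarith)).trans (Win.exp_small (L := L) (by linarith))))
        obtain ⟨n0, n1⟩ := sq1_near c6
        refine Or.inr ⟨c5, ?_⟩
        have ex : Complex.exp (-(Complex.I * (((2 : ℝ) : ℂ) * Real.pi / 4))) = -Complex.I := by
          rw [← Complex.exp_neg_pi_div_two_mul_I]
          congr 1
          push_cast
          ring
        have nq : ‖pp e (V (bc (wch x δ 0) y)) * sq1 y.1 ^ 2‖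
            = ‖pp e (V (bc (wch x δ 0) y)) * (sq1 y.1 ^ 2 * -Complex.I)‖ := by
          simp only [norm_mul, norm_neg, Complex.norm_I, mul_one]
        simp only [eQ y hyR n0]
        rw [ex, nq, mul_assoc]
        refine (im_mul p1 n1).trans (mul_le_mul_of_nonneg_right ?_ (norm_nonneg _))
        have := exp_L hL4
        have e4 : 4 / L = 2 * (1 / L) + 2 / L := by ring
        linarith [(Win.bl_near c6).1]
    · refine NL0.wb_mono (wb_of_vb he.le hι.le (by linarith) (Or.inl ⟨h1, rfl⟩)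
        (fun y hy => eQ y (inb x0 _ h2 (by linarith) _ hy))
        (h.vb x0 _ h2 (Or.inl ⟨h1, rfl⟩))) (by linarith)
    · refine NL0.wb_mono (wb_of_vb he.le hι.le (by norm_num) (Or.inr le_rfl)
        (fun y hy => eQ y (inb x0 _ (by linarith) (by linarith) _ hy))
        (h.vb x0 _ (by linarith) (Or.inr (Or.inr rfl)))) (by linarith)
    · have a1 := mul_le_mul_of_nonneg_left h1 hδ.le
      have a2 := mul_le_mul_of_nonneg_left h2 hδ.le
      have d := dist y.1 (by linarith)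
      have a3 : ρ / M ≤ ρ / 32 := div_le_div_of_nonneg_left hρ0.le (by norm_num) (by linarith)
      have a4 := hO _ hy hk (show ρ / M ≤ ‖wch x δ 0 y.1 - x‖ by linarith [d.1])
        (show ‖wch x δ 0 y.1 - x‖ ≤ ρ by linarith [d.2])
      have a5 := sq1_lo (z := y.1) (by linarith)
      have n0 : sq1 y.1 ≠ 0 := norm_pos_iff.1 (lt_of_lt_of_le (by nlinarith) a5)
      simp only [eQ y h2 n0]
      rw [norm_mul, norm_pow]
      exact mul_le_mul a4 (pow_le_pow_left₀ (norm_nonneg _) (sq1_up (by linarith) h2) 2)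
        (by positivity) hO0
  refine ⟨fun O hO0 hO r hr1 hr2 y hy h1 h2 => ?_, fun h0 y hy hk h1 h2 => ?_⟩
  · have a3 : ρ / M ≤ ρ / 32 := div_le_div_of_nonneg_left hρ0.le (by norm_num) (by linarith)
    have hr0 : 0 < r := by linarith
    obtain ⟨ζ, hζ, hζ1⟩ := Win.wch_surj (yr := 0) (Win.ne0 hx) hδ 0 (z := y.1)
      (by rw [wch0, hx]; linarith)
    rw [sub_zero] at hζ1
    have d := dist ζ hζ1
    rw [hζ] at d
    have hb : bc (wch x δ 0) (ζ, y.2) = y := Prod.ext hζ rfl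
    have z1 : ‖ζ‖ ≤ R := le_of_mul_le_mul_left (by linarith [d.1]) hδ
    have z2 : 29 ≤ ‖ζ‖ := le_of_mul_le_mul_left (by linarith [d.2]) hδ
    have z3 : Real.exp (-L + 2) ≤ ‖bl ζ‖ := by
      have b1 : ‖ζ‖ - 1 ≤ ‖ζ - Complex.I‖ := by
        simpa using norm_sub_norm_le ζ Complex.I
      have b2 : ‖ζ + Complex.I‖ ≤ ‖ζ‖ + 1 := by simpa using norm_add_le ζ Complex.I
      have b3 : ‖ζ‖ - 1 ≤ ‖ζ + Complex.I‖ := by
        simpa using norm_sub_norm_le ζ (-Complex.I)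
      refine ((Real.exp_le_exp.2 (by linarith)).trans
        (Win.exp_small (L := L) (by linarith))).trans ?_
      rw [bl, norm_div, le_div_iff₀ (by linarith)]
      linarith
    have k := key O hO0 (fun u hu hk => hO u ⟨hu, hk⟩) (ζ, y.2)
      (by rw [mem_preimage, hb]; exact hy.1) (by rw [mem_preimage, hb]; exact hy.2) z1 z3
    have a5 := sq1_lo (z := ζ) (by linarith)
    have n0 : sq1 ζ ≠ 0 := norm_pos_iff.1 (lt_of_lt_of_le (by positivity) a5)
    rw [eQ (ζ, y.2) z1 n0, hb, norm_mul, norm_pow] at k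
    have s1 : (r / δ) ^ 2 / 25 ≤ ‖sq1 ζ‖ := by
      have b : 8 / 27 * (r / δ) ≤ ‖ζ‖ := by
        rw [← mul_div_assoc, div_le_iff₀ hδ]; linarith [d.2]
      have b' := pow_le_pow_left₀ (by positivity) b 2
      nlinarith [sq_nonneg (r / δ)]
    have s2 := mul_le_mul_of_nonneg_left (pow_le_pow_left₀ (by positivity) s1 2)
      (norm_nonneg (pp e (V y)))
    have s3 : ‖pp e (V y)‖ ≤ CN * (O * (2 * R ^ 2) ^ 2) / ((r / δ) ^ 2 / 25) ^ 2 := by
      rw [le_div_iff₀ (by positivity)]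
      exact s2.trans k
    have e4 : (r / ρ) ^ (-4 : ℝ) = (ρ / r) ^ 4 := by
      rw [Real.rpow_neg (by positivity), ← inv_div r ρ, inv_pow]
      norm_cast
    have e5 : CN * (O * (2 * R ^ 2) ^ 2) / ((r / δ) ^ 2 / 25) ^ 2
        = 625 / 4 * CN * (ρ / r) ^ 4 * O := by
      rw [hR]; field_simp; ring
    rw [e4]
    refine s3.trans (e5.le.trans ?_)
    exact mul_le_mul_of_nonneg_right (mul_le_mul_of_nonneg_right (by linarith) (by positivity)) hO0
  · have k := key 0 le_rfl (fun u hu hk a b => by rw [h0 u hu hk a b, norm_zero]) y hy hk h1 h2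
    rw [zero_mul, mul_zero] at k
    exact norm_le_zero_iff.1 k

end Pool.Agent.Lib.SH
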