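import Pool.Agent.Lib.SH.Blue8
import Pool.Agent.Lib.SH.Win
import Pool.Agent.Lib.SH.B_NW
import Pool.Agent.Lib.SH.B_PPF

/-! Ports after the split. -/

open Set Filter Topology Metric

noncomputable section

namespace Pool.Agent.Lib.SH

namespace PORT

/-- a sublevel part of `X` without points outside `K` on the level set -/
theorem np_part {X K : Set E} {Ω : Set ℂ} {φ : E → ℝ} {c : ℝ} (h : NP X K Ω)
    (hc : ∀ y ∈ ov X Ω, ContinuousAt φ y) (hs : ∀ y ∈ ov X Ω, y ∉ K → φ y ≠ c) :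
    NP {y | y ∈ X ∧ φ y ≤ c} K Ω := by
  refine ⟨?_, fun y hy => hy.1, fun y hy hK ⟨G, hG, he⟩ => h.np y ⟨hy.1.1, hy.2⟩ hK ⟨G, hG, ?_⟩⟩
  · have h2 : ov {y | y ∈ X ∧ φ y ≤ c} Ω = ov X Ω ∩ φ ⁻¹' Iic c :=
      Set.ext fun y => ⟨fun hy => ⟨⟨hy.1.1, hy.2⟩, hy.1.2⟩, fun hy => ⟨⟨hy.1.1, hy.2⟩, hy.1.2⟩⟩
    rw [h2]
    exact h.cpt.of_isClosed_subset (ContinuousOn.preimage_isClosed_of_isClosed
      (fun y hy => (hc y hy).continuousWithinAt) h.cpt.isClosed isClosed_Iic) inter_subset_left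
  · have h3 : φ y < c := lt_of_le_of_ne hy.1.2 (hs y ⟨hy.1.1, hy.2⟩ hK)
    filter_upwards [he, (hc y ⟨hy.1.1, hy.2⟩).eventually (gt_mem_nhds h3)] with x a b c
      using a ⟨c, b.le⟩

theorem ov_part {X : Set E} {Ω : Set ℂ} {p : E → Prop} : ov {y | y ∈ X ∧ p y} Ω ⊆ ov X Ω :=
  fun _ hy => ⟨hy.1.1, hy.2⟩

theorem pph_mono {X K : Set E} {N : E → ℂ} {e γ ι ι2 C0 Mst Mup : ℝ}
    (h : PPH2 X K N e γ ι C0 Mst Mup) (hι : ι ≤ ι2) : PPH2 X K N e γ ι2 C0 Mst Mup := by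
  intro M h1 h2
  obtain ⟨η, ι', lev, Ψ, Ψy, a1, a2, a3⟩ := h M h1 h2
  exact ⟨η, ι', lev, Ψ, Ψy, a1, a2.mono subset_rfl hι le_rfl le_rfl, a3⟩

theorem wall_ge {z : ℂ} {η t : ℝ} (hη : η ≤ -1) (ht : t ≤ 1 / 4)
    (h : |Real.log ‖z‖ - η| ≤ t) : Real.exp (η - 1 / 4) ≤ ‖z‖ := by
  have h1 := abs_le.1 h
  rcases (norm_nonneg z).eq_or_lt with a | a
  · rw [← a, Real.log_zero] at h1; linarith [h1.2]
  · rw [← Real.le_log_iff_exp_le a]; linarith [h1.1]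

theorem norm_pp (e : ℝ) (v : ℂ) : ‖pp e v‖ = ‖v‖ * ‖v - e‖ := by rw [pp, norm_mul]

theorem tri1 {e : ℝ} (he : 0 < e) (v : ℂ) : e ≤ ‖v‖ + ‖v - e‖ := by
  have := norm_sub_le v (v - e)
  rwa [sub_sub_cancel, Complex.norm_real, Real.norm_eq_abs, abs_of_pos he] at this

theorem tri2 {e : ℝ} (he : 0 < e) (v : ℂ) : ‖v - e‖ ≤ ‖v‖ + e := by
  have := norm_sub_le v (e : ℂ)
  rwa [Complex.norm_real, Real.norm_eq_abs, abs_of_pos he] at this

theorem tri3 {e : ℝ} (he : 0 < e) (v : ℂ) : ‖v‖ ≤ ‖v - e‖ + e := by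
  have := norm_add_le (v - e) (e : ℂ)
  rwa [sub_add_cancel, Complex.norm_real, Real.norm_eq_abs, abs_of_pos he] at this

theorem w_le {z : ℂ} {γ : ℝ} (hγ : 0 < γ) (hz : z ∈ closedBall (0 : ℂ) 1) : ‖z‖ ^ γ ≤ 1 :=
  Real.rpow_le_one (norm_nonneg _) (mem_closedBall_zero_iff.1 hz) hγ.le

/-- the inner points of `K` -/
theorem inner_le {z n : ℂ} {η c : ℝ} (h1 : ‖z‖ ≤ Real.exp η) (h2 : ‖n‖ ≤ c * Real.exp (-η) / 10) :
    ‖z * n‖ ≤ c / 10 := by
  rw [norm_mul]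
  refine (mul_le_mul h1 h2 (norm_nonneg _) (Real.exp_pos _).le).trans (le_of_eq ?_)
  rw [Real.exp_neg]
  have := (Real.exp_pos η).ne'
  field_simp

theorem near0 {e θ1 : ℝ} {v : ℂ} (he : 0 < e) (h1 : θ1 ≤ 1 / 16) (h : ‖pp e v‖ ≤ θ1 * e ^ 2)
    (hv : ‖v‖ ≤ e / 2) : ‖v‖ ≤ e / 8 := by
  rw [norm_pp] at h
  have a := tri1 he v
  have b : ‖v‖ * (e / 2) ≤ ‖v‖ * ‖v - e‖ :=
    mul_le_mul_of_nonneg_left (by linarith) (norm_nonneg _)
  have c : θ1 * e ^ 2 ≤ 1 / 16 * e ^ 2 := mul_le_mul_of_nonneg_right h1 (sq_nonneg e)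
  by_contra d
  nlinarith [mul_lt_mul_of_pos_right (not_le.1 d) he]

theorem near1 {e θ1 : ℝ} {v : ℂ} (he : 0 < e) (h1 : θ1 ≤ 1 / 16) (h : ‖pp e v‖ ≤ θ1 * e ^ 2)
    (hv : ‖v - e‖ ≤ e / 2) : ‖v - e‖ ≤ e / 8 := by
  rw [norm_pp] at h
  have a := tri1 he v
  have b : e / 2 * ‖v - e‖ ≤ ‖v‖ * ‖v - e‖ :=
    mul_le_mul_of_nonneg_right (by linarith) (norm_nonneg _)
  have c : θ1 * e ^ 2 ≤ 1 / 16 * e ^ 2 := mul_le_mul_of_nonneg_right h1 (sq_nonneg e)
  by_contra d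
  nlinarith [mul_lt_mul_of_pos_right (not_le.1 d) he]

/-- comparison with the linear coordinate near the root `0` -/
theorem lin_le {e B : ℝ} {z n n0 : ℂ} (he : 0 < e) (hc : ‖n - n0‖ ≤ ‖n0‖ / 10)
    (hv : ‖z * n‖ ≤ e / 8) (h : ‖pp e (z * n)‖ ≤ B) : ‖z * n0‖ ≤ 80 / 63 * B / e := by
  rw [norm_pp] at h
  have a := tri1 he (z * n)
  have b : ‖z * n‖ * (7 / 8 * e) ≤ ‖z * n‖ * ‖z * n - e‖ :=
    mul_le_mul_of_nonneg_left (by linarith) (norm_nonneg _)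
  have c : ‖n0‖ ≤ 10 / 9 * ‖n‖ := by
    have := norm_sub_norm_le n0 n
    rw [norm_sub_rev] at this
    linarith
  have d : ‖z * n0‖ ≤ 10 / 9 * ‖z * n‖ := by
    rw [norm_mul, norm_mul, mul_left_comm]
    exact mul_le_mul_of_nonneg_left c (norm_nonneg _)
  rw [le_div_iff₀ he]
  nlinarith [mul_le_mul_of_nonneg_right d he.le]

theorem lin_ge {e : ℝ} {z n n0 : ℂ} (he : 0 < e) (hc : ‖n - n0‖ ≤ ‖n0‖ / 10)
    (hv : ‖z * n‖ ≤ e / 8) : ‖pp e (z * n)‖ ≤ 99 / 80 * e * ‖z * n0‖ := by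
  rw [norm_pp]
  have a := tri2 he (z * n)
  have c : ‖n‖ ≤ 11 / 10 * ‖n0‖ := by
    have := norm_sub_norm_le n n0
    linarith
  have d : ‖z * n‖ ≤ 11 / 10 * ‖z * n0‖ := by
    rw [norm_mul, norm_mul, mul_left_comm]
    exact mul_le_mul_of_nonneg_left c (norm_nonneg _)
  refine (mul_le_mul d (show ‖z * n - e‖ ≤ 9 / 8 * e by linarith) (norm_nonneg _)
    (by positivity)).trans (le_of_eq ?_)
  ring

end PORT

open PORT Win in
theorem st_port : St_PORT := by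
  intro γ C0 g0 g1
  obtain ⟨ι1, i1, H⟩ := st_pp2 st_nw st_pull st_mpabs γ C0 g0 g1
  refine ⟨min ι1 (1 / 4), lt_min i1 (by norm_num), fun X K N N0 e η θ Mup0 hS => ?_⟩
  obtain ⟨he, hη, θ0, θ1', hγη⟩ := hS.num
  obtain ⟨ι', Ψ, Ψy, hW, -, k1, k2⟩ := hS.wall
  have hι' : ι' ≤ 1 / 4 := hW.le.trans (min_le_right _ _)
  have hW1 := hW.mono subset_rfl (min_le_left _ _) le_rfl le_rfl
  have hV : AnalyticOnNhd ℂ (fun y : E => y.1 * N y) (ov X (closedBall 0 1)) :=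
    fun u hu => analyticAt_fst.mul (hS.an.1 u hu)
  have hθe : θ * e ≤ e := mul_le_of_le_one_left he.le θ1'
  have x1 : Real.exp (η - 1 / 2) < Real.exp (η - 1 / 4) := Real.exp_lt_exp.2 (by linarith)
  have x2 : Real.exp (η - 1 / 2) ≤ 1 := Real.exp_le_one_iff.2 (by linarith)
  -- inner points of `K`
  have kin : ∀ y ∈ ov X (closedBall 0 1), y ∈ K → ‖y.1‖ ≤ Real.exp (η - 1 / 2) →
      ‖y.1‖ ≤ Real.exp η ∧ ‖N y‖ ≤ θ * e * Real.exp (-η) / 10 := fun y hy hK h =>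
    (k1 y hy hK).resolve_left fun a => by linarith [wall_ge hη hι' a.1]
  have kpp : ∀ y : E, ‖y.1‖ ≤ Real.exp η → ‖N y‖ ≤ θ * e * Real.exp (-η) / 10 →
      ‖y.1 * N y - e‖ ≤ 11 / 10 * e ∧ ‖pp e (y.1 * N y)‖ ≤ 11 / 100 * (θ * e ^ 2) := by
    intro y a b
    have c := inner_le a b
    have d : ‖y.1 * N y - e‖ ≤ 11 / 10 * e := by linarith [tri2 he (y.1 * N y)]
    refine ⟨d, ?_⟩
    rw [norm_pp]
    refine (mul_le_mul c d (norm_nonneg _) (by positivity)).trans (le_of_eq ?_)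
    ring
  have P1 : ∀ B : ℝ, θ * e ^ 2 ≤ B → (∀ y ∈ X, y ∉ K → ‖y.1‖ = 1 → ‖pp e (y.1 * N y)‖ ≤ B) →
      ∀ y ∈ ov X (closedBall 0 1), y ∉ K → ‖pp e (y.1 * N y)‖ * ‖y.1‖ ^ γ ≤ B ∧
        ‖pp e (y.1 * N y)‖ ≤ Real.exp 3 * B := by
    intro B hB hb
    have m0 : 0 < θ * e ^ 2 := by positivity
    have B0 : 0 ≤ B := m0.le.trans hB
    obtain ⟨Mup, hM⟩ := hS.np.cpt.exists_bound_of_continuousOn (an_pp hV e).continuousOn
    have hP := st_ppf X K N Ψ Ψy e γ ι1 ι' C0 η 0 (θ * e ^ 2) Mup g0 g1 hη m0.le (by positivity) hW1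
      (fun y hy hK h => (k1 y hy hK).resolve_right fun a => by
        have b := (kpp y a.1 a.2).2
        have c := mul_le_of_le_one_right (norm_nonneg (pp e (y.1 * N y))) (w_le g0 hy.2)
        rw [div_lt_iff₀ (Real.exp_pos 1)] at h
        have d := mul_le_mul (c.trans b) Real.exp_one_lt_d9.le (Real.exp_pos 1).le (by positivity)
        linarith)
      (fun y hy _ t s hs hz hv => k2 y hy t s hs hz hv)
      (fun y hy hK h => by
        obtain ⟨a, b⟩ := kin y hy hK h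
        rw [norm_mul]
        refine (mul_le_mul b (kpp y a b).1 (norm_nonneg _) (by positivity)).trans ?_
        have c : Real.exp (-η) ≤ Real.exp (-(1 + γ) * η) := Real.exp_le_exp.2 (by nlinarith)
        nlinarith [mul_le_mul_of_nonneg_left c m0.le, mul_pos m0 (Real.exp_pos (-η))])
    have h1 := H X K N e _ Mup B he.le hS.np hS.an.1 hP hB B0 (fun y hy _ =>
      (mul_le_of_le_one_right (norm_nonneg _) (w_le g0 hy.2)).trans (hM y hy)) hb
    have h2 := port_fill (B' := B) hS.np (an_pp hV e) g0.le (Real.exp_pos (η - 1 / 2)) x2 B0 h1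
      fun y hy hK => by
        have a := mem_closedBall_zero_iff.1 hy.2
        obtain ⟨b, c⟩ := kin y ⟨hy.1, mem_closedBall_zero_iff.2 (a.trans x2)⟩ hK a
        linarith [(kpp y b c).2]
    refine fun y hy hK => ⟨h1 y hy hK, (h2 y hy hK).trans (max_le ?_ ?_)⟩
    · rw [← Real.exp_mul, div_le_iff₀ (Real.exp_pos _), mul_right_comm, ← Real.exp_add]
      exact le_mul_of_one_le_left B0 (Real.one_le_exp (by nlinarith))
    · exact le_mul_of_one_le_left B0 (Real.one_le_exp (by norm_num))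
  refine ⟨P1, fun b hb h y hy hy1 => ?_, fun θ1 t0 t1 hM hs => ?_⟩
  · have b0 : 0 < b := he.trans_le hb
    have h0 : θ * e ^ 2 ≤ 2 * b ^ 2 := by
      nlinarith [mul_le_mul (hθe.trans hb) hb he.le b0.le, sq_nonneg b]
    have h1 := (P1 (2 * b ^ 2) h0 (fun u hu hK h1 => by
        have a := h u ⟨hu, hK⟩ (by rw [sub_zero]; exact h1)
        rw [norm_pp]
        refine (mul_le_mul a (show ‖u.1 * N u - e‖ ≤ 2 * b by linarith [tri2 he (u.1 * N u)])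
          (norm_nonneg _) b0.le).trans (le_of_eq ?_)
        ring) y ⟨hy.1, mem_closedBall_iff_norm.2 hy1⟩ hy.2).2
    have h2 : Real.exp 3 ≤ 3 ^ 3 := by
      rw [show (3 : ℝ) = (3 : ℕ) * 1 by norm_num, Real.exp_nat_mul]
      gcongr
      norm_num
      linarith [Real.exp_one_lt_d9]
    rw [norm_pp] at h1
    by_contra a
    have a1 : 20 * b < ‖y.1 * N y‖ := not_le.1 a
    have a2 : 19 * b ≤ ‖y.1 * N y - e‖ := by linarith [tri3 he (y.1 * N y)]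
    have a3 := mul_le_mul a1.le a2 (by positivity) (norm_nonneg _)
    nlinarith [mul_le_mul_of_nonneg_right h2 (sq_nonneg b), mul_pos b0 b0]
  have n1 : NP {y | y ∈ X ∧ ‖y.1 * N y - e‖ ≤ e / 2} K (closedBall 0 1) :=
    np_part hS.np (fun y hy => ((hV y hy).continuousAt.sub continuousAt_const).norm)
      fun y hy hK a => by linarith [near1 he t1 (hs y hy hK) a.le]
  have n0 : NP {y | y ∈ X ∧ ‖y.1 * N y‖ ≤ e / 2} K (closedBall 0 1) :=
    np_part hS.np (fun y hy => (hV y hy).continuousAt.norm)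
      fun y hy hK a => by linarith [near0 he t1 (hs y hy hK) a.le]
  have kw : ∀ y ∈ ov X (closedBall 0 1), y ∈ K → ‖y.1 * N y - e‖ ≤ e / 2 →
      |Real.log ‖y.1‖ - η| ≤ ι' ∧ ∀ t s : ℝ,
        y.1 = Complex.exp (η - Complex.I * (t + s * Complex.I)) → y.1 * N y = Ψ t s :=
    fun y hy hK h => (k1 y hy hK).resolve_right fun a => by
      linarith [inner_le a.1 a.2, tri1 he (y.1 * N y)]
  have nz : ∀ y : E, ‖y.1 * N y - e‖ ≤ e / 2 → y.1 ≠ 0 := fun y h a => by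
    have := tri1 he (y.1 * N y)
    rw [a, zero_mul] at this h
    rw [norm_zero] at this
    linarith
  have Pa : ∀ y ∈ ov X (closedBall 0 1), ‖y.1 * N y - e‖ ≤ e / 2 →
      Real.exp (η - 1 / 4) ≤ ‖y.1‖ := by
    intro y hy h
    have := disc_max (F := fun y => y.1⁻¹) (B := (Real.exp (η - 1 / 4))⁻¹) n1
      (fun u hu => analyticAt_fst.inv (nz u hu.1.2)) (by positivity)
      (fun u hu hK => by
        rw [norm_inv]
        exact inv_anti₀ (Real.exp_pos _) (wall_ge hη hι' (kw u (ov_part hu) hK hu.1.2).1))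
      (fun u _ _ a => by
        rw [sub_zero] at a
        rw [norm_inv, a]
        exact inv_anti₀ (Real.exp_pos _) (Real.exp_le_one_iff.2 (by linarith))) y ⟨⟨hy.1, h⟩, hy.2⟩
    rwa [norm_inv, inv_le_inv₀ (norm_pos_iff.2 (nz y h)) (Real.exp_pos _)] at this
  refine ⟨Pa, fun B B0 hb y hy hK h => ?_, fun B B0 hb y hy hK h => ?_⟩
  · have hP := st_ppf {y | y ∈ X ∧ ‖y.1 * N y - e‖ ≤ e / 2} K N Ψ Ψy e γ ι1 ι' C0 η 0 0
      (θ1 * e ^ 2) g0 g1 hη le_rfl (by rw [zero_mul]) hW1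
      (fun u hu hK _ => kw u (ov_part hu) hK hu.1.2)
      (fun u hu _ t s hs hz hv => k2 u (ov_part hu) t s hs hz hv)
      (fun u hu _ a => by linarith [Pa u (ov_part hu) hu.1.2])
    exact H _ K N e 0 _ B he.le n1 (hS.an.1.mono ov_part) hP B0 B0 (fun u hu hK =>
      (mul_le_of_le_one_right (norm_nonneg _) (w_le g0 hu.2)).trans (hs u (ov_part hu) hK))
      (fun u hu hK a => hb u hu.1 hK hu.2 a) y ⟨⟨hy.1, h⟩, hy.2⟩ hK
  · have c0 : 0 ≤ 80 / 63 * B / e := by positivity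
    have h1 := H _ K N0 0 0 Mup0 ((80 / 63 * B / e) ^ 2) le_rfl n0 (hS.an.2.mono ov_part)
      (pph_mono hS.low (min_le_left _ _)) (sq_nonneg _) (sq_nonneg _)
      (fun u hu hK => by
        have a := hs u (ov_part hu) hK
        have b := lin_le he (hS.cmp u (ov_part hu)) (near0 he t1 a hu.1.2) a
        refine (mul_le_of_le_one_right (norm_nonneg _) (w_le g0 hu.2)).trans (le_trans ?_ hM)
        rw [norm_pp0]
        refine pow_le_pow_left₀ (norm_nonneg _) (b.trans ?_) 2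
        rw [div_le_iff₀ he]
        nlinarith [mul_nonneg t0 (sq_nonneg e)])
      (fun u hu hK a => by
        have hu' : u ∈ ov X (closedBall 0 1) := ⟨hu.1, mem_closedBall_zero_iff.2 a.le⟩
        rw [norm_pp0]
        exact pow_le_pow_left₀ (norm_nonneg _) (lin_le he (hS.cmp u hu')
          (near0 he t1 (hs u hu' hK) hu.2) (hb u hu.1 hK hu.2 a)) 2)
    constructor
    · have a := h1 y ⟨⟨hy.1, h⟩, hy.2⟩ hK
      rw [norm_pp0] at a
      have w0 : 0 ≤ ‖y.1‖ ^ γ := Real.rpow_nonneg (norm_nonneg _) γ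
      have b : ‖y.1 * N0 y‖ * ‖y.1‖ ^ γ ≤ 80 / 63 * B / e := by
        refine (pow_le_pow_iff_left₀ (mul_nonneg (norm_nonneg _) w0) c0 two_ne_zero).1
          (le_trans ?_ a)
        rw [mul_pow, sq (‖y.1‖ ^ γ), ← mul_assoc]
        exact mul_le_of_le_one_right (by positivity) (w_le g0 hy.2)
      have c := mul_le_mul_of_nonneg_right
        (lin_ge he (hS.cmp y hy) (near0 he t1 (hs y hy hK) h)) w0
      rw [le_div_iff₀ he] at b
      nlinarith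
    · rintro rfl
      obtain ⟨r0, r1, r2, hf⟩ := hS.fill
      refine port_zero n0 (hS.an.2.mono ov_part) r1 r2 (fun u hu hK => ?_)
        (fun u hu hK => hf u (ov_part hu) hK) y ⟨⟨hy.1, h⟩, hy.2⟩ hK
      by_cases z0 : u.1 = 0
      · rw [z0, zero_mul]
      have a := h1 u hu hK
      rw [norm_pp0] at a
      have w0 : 0 < ‖u.1‖ ^ γ := Real.rpow_pos_of_pos (norm_pos_iff.2 z0) γ
      have b : ‖u.1 * N0 u‖ ^ 2 ≤ 0 := by
        by_contra c
        have := mul_pos (not_le.1 c) w0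
        simp only [mul_zero, zero_div, ne_eq, OfNat.ofNat_ne_zero, not_false_eq_true,
          zero_pow] at a
        linarith
      exact norm_eq_zero.1 (pow_eq_zero_iff two_ne_zero |>.1 (le_antisymm b (sq_nonneg _)))

end Pool.Agent.Lib.SH
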