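import Pool.Agent.Lib.SH.Cert2
import Pool.Agent.Lib.SH.B_BRIDGE
import Pool.Agent.Lib.CF.Blue2

/-!
The ending of the certificates.
-/

open Set Filter Topology Metric

noncomputable section

namespace Pool.Agent.Lib.SH

/-- zeros of `P` near `Γ ∪ Γ'` are near `Γ` -/
theorem zero_near {P : E → ℂ} {Γ Γ' : Set E} (hP : Continuous P) (hΓ' : IsCompact Γ')
    (h : ∀ y ∈ Γ', P y = 0 → y ∈ Γ) {R : ℝ} (hR : 0 < R) :
    ∃ R0 > 0, ∀ x ∈ thickening R0 (Γ ∪ Γ'), P x = 0 → x ∈ thickening R Γ := by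
  obtain ⟨δ, h1, h2⟩ := hΓ'.exists_thickening_subset_open
    ((isOpen_ne_fun hP continuous_const).union isOpen_thickening) fun y hy => by
      by_cases a : P y = 0
      · exact Or.inr (self_subset_thickening hR Γ (h y hy a))
      · exact Or.inl a
  refine ⟨min δ R, lt_min h1 hR, fun x hx a => ?_⟩
  rw [thickening_union] at hx
  rcases hx with hx | hx
  · exact thickening_mono (min_le_right _ _) _ hx
  · exact (h2 (thickening_mono (min_le_left _ _) _ hx)).resolve_left fun b => b a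

/-- zeros of `C K` near the two curves -/
theorem znear2 (hZ : CF.St_ZNEAR) {ι κ : Type} [Fintype ι] [Fintype κ] {C K : E → ℂ}
    {Γ Γ' : Set E} {e : ι → CF.End} {e' : κ → CF.End} {Nd : Finset E} (hc : CF.IsCurve C Γ e)
    (hc' : CF.IsCurve K Γ' e') (hn : CF.Nodal C K Γ Γ' e e' Nd) {a : ℝ} (ha : 0 < a) :
    ∃ R0 > 0, ∀ x ∈ thickening R0 (Γ ∪ Γ'),
      (C x = 0 → x ∈ Γ ∨ ∃ j, (e j).k ≠ CF.Kind.pt ∧ x ∈ (e j).gr ((e j).ann (Ioo (-a) 0))) ∧
      (K x = 0 → x ∈ Γ' ∨ ∃ j, (e' j).k ≠ CF.Kind.pt ∧ x ∈ (e' j).gr ((e' j).ann (Ioo (-a) 0))) := by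
  obtain ⟨R1, a1, b1⟩ := hZ ι C Γ e hc a ha
  obtain ⟨R2, a2, b2⟩ := hZ κ K Γ' e' hc' a ha
  obtain ⟨R3, a3, b3⟩ := zero_near hc.poly.continuous hc'.cpt
    (fun y k k' => (hn.node y (hn.right y k k')).1) a1
  obtain ⟨R4, a4, b4⟩ := zero_near hc'.poly.continuous hc.cpt
    (fun y k k' => (hn.node y (hn.left y k k')).2.1) a2
  exact ⟨min R3 R4, lt_min a3 a4, fun x hx =>
    ⟨fun k => b1 x (b3 x (thickening_mono (min_le_left _ _) _ hx) k) k, fun k =>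
      b2 x (b4 x (union_comm Γ Γ' ▸ thickening_mono (min_le_right _ _) _ hx) k) k⟩⟩

/-- the ending: nothing lies on the continuations of the sheets -/
theorem fin2 (hF : St_FIN) {J : Type} [Finite J] (l : J → CF.End) (a : J → ℝ) {X K A : Set E}
    (hX : IsCompact X) (hl : HULL.LM X K univ) (hK : IsClosed K) (hA : IsClosed A)
    (hp : ∀ j, 0 < a j) (h1 : ∀ j, (l j).k ≠ CF.Kind.pt ∧ 0 < (l j).r ∧
      ContinuousOn (l j).w ((l j).ann (Icc (-a j) 0)))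
    (h2 : Pairwise fun i j => Disjoint ((l i).gr ((l i).ann (Icc (-a i) 0)))
      ((l j).gr ((l j).ann (Icc (-a j) 0))))
    (h3 : ∀ j, ∀ x ∈ (l j).gr ((l j).ann (Ico (-a j) 0)), x ∉ K ∧ x ∉ A)
    (h4 : ∀ x ∈ X, x ∉ K → x ∈ A ∨ ∃ j, x ∈ (l j).gr ((l j).ann (Ioo (-a j) 0))) :
    X ⊆ K ∪ A := by
  have m : ∀ j, (l j).gr ((l j).ann (Ioo (-a j) 0)) ⊆ (l j).gr ((l j).ann (Icc (-a j) 0)) :=
    fun j => CF.End.gr_mono _ (CF.End.ann_mono Ioo_subset_Icc_self)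
  refine hF J l a X K A hX hK
    (fun y b c => BRIDGE.noPeak_iff.1 (hl.noPeak y b (mem_univ _) c)) h1 h4
    (fun j x b c => ?_) fun j x b => ?_
  · have d : (l j).dep x.1 = -a j := c.1.2
    obtain ⟨k1, k2⟩ := h3 j x ⟨⟨c.1.1, d.ge, by linarith [hp j]⟩, c.2⟩
    obtain ⟨i, hi⟩ := (h4 x b k1).resolve_left k2
    by_cases f : i = j
    · subst f; exact absurd hi.1.2.1 (by rw [d]; exact lt_irrefl _)
    · exact disjoint_left.1 (h2 f) (m i hi) ⟨⟨c.1.1, d.ge, by linarith [hp j]⟩, c.2⟩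
  · obtain ⟨k1, k2⟩ := h3 j x ⟨⟨b.1.1, b.1.2.1.le, b.1.2.2⟩, b.2⟩
    refine ⟨k1, ?_⟩
    have k3 : ∀ i, ∀ᶠ y in 𝓝 x, i ≠ j → y ∉ (l i).gr ((l i).ann (Icc (-a i) 0)) := fun i => by
      by_cases f : i = j
      · exact Eventually.of_forall fun _ g => absurd f g
      · filter_upwards [(CF.End.isCompact_gr (CF.End.isCompact_ann (h1 i).2.1 isCompact_Icc)
          (h1 i).2.2).isClosed.isOpen_compl.mem_nhds
          (disjoint_right.1 (h2 f) (m j b))] with y g _ using g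
    filter_upwards [hA.isOpen_compl.mem_nhds k2, eventually_all.2 k3] with y c d f g
    obtain ⟨i, hi⟩ := (h4 y f g).resolve_left c
    by_cases n : i = j
    · subst n; exact hi.2
    · exact absurd (m i hi) (d i n)

end Pool.Agent.Lib.SH
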