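import Pool.Agent.Lib.SH.Blue8
import Pool.Agent.Lib.SH.All1
import Pool.Agent.Lib.SH.Win
import Pool.Agent.Lib.SH.Ring2
import Pool.Agent.Lib.SH.B_QL

/-!
Block W3A: a window born in the split is active on the part near the old sheet.
-/

open Set Filter Topology Metric

noncomputable section

namespace Pool.Agent.Lib.SH

namespace W3A

open Win

theorem np_cut {X K : Set E} {Ω : Set ℂ} {φ ψ : E → ℝ} {c d : ℝ} (h : NP X K Ω)
    (hφ : ∀ y ∈ ov X Ω, ContinuousAt φ y ∧ ContinuousAt ψ y)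
    (hc : ∀ y ∈ ov X Ω, y ∉ K → φ y ≤ c → φ y < c ∧ ψ y < d) :
    NP {y | y ∈ X ∧ φ y ≤ c ∧ ψ y ≤ d} K Ω := by
  refine ⟨?_, fun y hy => hy.1, fun y hy hK ⟨G, hG, he⟩ => ?_⟩
  · have e : ov {y | y ∈ X ∧ φ y ≤ c ∧ ψ y ≤ d} Ω =
        (ov X Ω ∩ φ ⁻¹' Iic c) ∩ (ov X Ω ∩ ψ ⁻¹' Iic d) :=
      Set.ext fun y => ⟨fun hy => ⟨⟨⟨hy.1.1, hy.2⟩, hy.1.2.1⟩, ⟨hy.1.1, hy.2⟩, hy.1.2.2⟩,
        fun hy => ⟨⟨hy.1.1.1, hy.1.2, hy.2.2⟩, hy.1.1.2⟩⟩
    rw [e]
    exact h.cpt.of_isClosed_subset ((ContinuousOn.preimage_isClosed_of_isClosed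
      (fun y hy => (hφ y hy).1.continuousWithinAt) h.cpt.isClosed isClosed_Iic).inter
      (ContinuousOn.preimage_isClosed_of_isClosed
      (fun y hy => (hφ y hy).2.continuousWithinAt) h.cpt.isClosed isClosed_Iic))
      (inter_subset_left.trans inter_subset_left)
  · have hy' : y ∈ ov X Ω := ⟨hy.1.1, hy.2⟩
    have h1 := hc y hy' hK hy.1.2.1
    refine h.np y hy' hK ⟨G, hG, ?_⟩
    filter_upwards [he, (hφ y hy').1.eventually (gt_mem_nhds h1.1),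
      (hφ y hy').2.eventually (gt_mem_nhds h1.2)] with x a b c hx using a ⟨hx, b.le, c.le⟩

theorem np_congr {X K X2 K2 : Set E} {Ω U : Set ℂ} (h : NP X K Ω) (hU : IsOpen U) (hs : Ω ⊆ U)
    (hX : ∀ y : E, y.1 ∈ U → (y ∈ X ↔ y ∈ X2)) (hK : ∀ y : E, y.1 ∈ U → y ∈ K → y ∈ K2) :
    NP X2 K2 Ω := by
  have e : ov X2 Ω = ov X Ω := Set.ext fun y =>
    ⟨fun hy => ⟨(hX y (hs hy.2)).2 hy.1, hy.2⟩, fun hy => ⟨(hX y (hs hy.2)).1 hy.1, hy.2⟩⟩
  refine ⟨e ▸ h.cpt, fun y hy => hy.1, fun y hy hk ⟨G, hG, he⟩ =>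
    h.np y (e ▸ hy) (fun a => hk (hK y (hs hy.2) a)) ⟨G, hG, ?_⟩⟩
  filter_upwards [he, continuous_fst.continuousAt.eventually (hU.mem_nhds (hs hy.2))]
    with x a b c using a ((hX x b).1 c)

/-- division by the first coordinate -/
def dv (Q : E → ℂ) (y : E) : ℂ :=
  if y.1 = 0 then deriv (fun ξ => Q (ξ, y.2)) 0 else Q y / y.1

theorem dv_mul {Q : E → ℂ} {y : E} (h : y.1 = 0 → Q y = 0) : y.1 * dv Q y = Q y := by
  unfold dv
  split_ifs with a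
  · rw [h a, a, zero_mul]
  · field_simp

theorem an_dv1 {Q : E → ℂ} {y : E} (hQ : AnalyticAt ℂ Q y) (h : y.1 ≠ 0) :
    AnalyticAt ℂ (dv Q) y := by
  refine (hQ.div analyticAt_fst h).congr ?_
  filter_upwards [continuous_fst.continuousAt.eventually_ne h] with x hx
  simp [dv, hx]

theorem an_dv0 {Q H : E → ℂ} {y : E} (hH : AnalyticAt ℂ H y)
    (he : ∀ᶠ x in 𝓝 y, Q x = x.1 * H x) : AnalyticAt ℂ (dv Q) y := by
  refine hH.congr ?_
  filter_upwards [he.eventually_nhds, hH.eventually_analyticAt] with x hx hx'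
  unfold dv
  split_ifs with a
  · have e : x = (0, x.2) := Prod.ext a rfl
    have c : AnalyticAt ℂ (fun ξ : ℂ => (ξ, x.2)) 0 := by fun_prop
    rw [e] at hx hx'
    have h1 : HasDerivAt (fun ξ : ℂ => ξ * H (ξ, x.2)) (H (0, x.2)) 0 :=
      ((hasDerivAt_id (0 : ℂ)).mul (AnalyticAt.comp (f := fun ξ : ℂ => (ξ, x.2)) hx'
        c).differentiableAt.hasDerivAt).congr_deriv (by simp)
    rw [(h1.congr_of_eventuallyEq (c.continuousAt.eventually hx)).deriv, ← e]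
  · rw [hx.self_of_nhds]; field_simp

theorem exp16 {L : ℝ} (hL : 13 ≤ L) : Real.exp (-L / 2) ≤ 1 / 16 := by
  have h1 : (16 : ℝ) ≤ Real.exp (L / 2) := by
    nlinarith [Real.quadratic_le_exp_of_nonneg (show 0 ≤ L / 2 by linarith)]
  rw [show -L / 2 = -(L / 2) by ring, Real.exp_neg, one_div]
  exact inv_anti₀ (by norm_num) h1

/-- inverse of the window chart near the port -/
def lg (x : ℂ) (δ : ℝ) (z : ℂ) : ℂ :=
  Complex.I + Complex.log (z / wch x δ 0 Complex.I) / (Complex.I * δ)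

variable {x : ℂ} {δ L : ℝ}

theorem wch_lg (hx : x ≠ 0) (hδ : 0 < δ) {z : ℂ} (hz : z ≠ 0) : wch x δ 0 (lg x δ z) = z := by
  have h0 := wch_ne (δ := δ) (yr := 0) hx Complex.I
  have h1 := wch_sub' x δ 0 (lg x δ z) Complex.I
  have h2 : (δ : ℂ) ≠ 0 := Complex.ofReal_ne_zero.2 hδ.ne'
  have h3 : Complex.I * (δ * (lg x δ z - Complex.I)) = Complex.log (z / wch x δ 0 Complex.I) := by
    unfold lg; field_simp; ring
  rw [h3, Complex.exp_log (div_ne_zero hz h0), sub_eq_iff_eq_add] at h1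
  rw [h1]; field_simp; ring

theorem lg_facts (hx : x ≠ 0) (hδ : 0 < δ) (hδ1 : δ ≤ 1 / 16) (hL : 13 ≤ L) {z : ℂ}
    (hz : z ∈ closedBall (wch x δ 0 Complex.I) (prad x δ 0 L)) :
    z ≠ 0 ∧ AnalyticAt ℂ (lg x δ) z ∧ deriv (lg x δ) z ≠ 0 ∧
      ‖lg x δ z - Complex.I‖ ≤ 2 * Real.exp (-L / 2) := by
  set p := wch x δ 0 Complex.I with hp
  have h0 : p ≠ 0 := wch_ne hx _
  have h0' := norm_pos_iff.2 h0
  have h2 : (δ : ℂ) ≠ 0 := Complex.ofReal_ne_zero.2 hδ.ne'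
  have h1 : Real.exp (-L + 7 / 2) ≤ 1 / 10 :=
    (Real.exp_le_exp.2 (by linarith)).trans (exp_small hL)
  have h3 : ‖z / p - 1‖ ≤ 2 * δ * Real.exp (-L + 7 / 2) := by
    have : z / p - 1 = (z - p) / p := by field_simp
    rw [this, norm_div, div_le_iff₀ h0']
    refine (mem_closedBall_iff_norm.1 hz).trans (le_of_eq ?_)
    unfold prad; ring
  have h4 : ‖z / p - 1‖ ≤ 1 / 2 := by nlinarith [Real.exp_pos (-L + 7 / 2)]
  have h5 : z / p ∈ Complex.slitPlane := by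
    simpa using Complex.mem_slitPlane_of_norm_lt_one (z := z / p - 1) (by linarith)
  have h6 : z ≠ 0 := fun e => by
    rw [e, zero_div, zero_sub, norm_neg, norm_one] at h4; norm_num at h4
  refine ⟨h6, ?_, ?_, ?_⟩
  · exact analyticAt_const.add (((analyticAt_id.div_const (c := p)).clog h5).div_const)
  · have h7 := ((((hasDerivAt_id z).div_const p).clog h5).div_const
      (Complex.I * δ)).const_add Complex.I
    rw [show deriv (lg x δ) z = _ from h7.deriv]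
    simp [h0, h2, h6]
  · have h7 := Complex.norm_log_one_add_half_le_self h4
    rw [add_sub_cancel] at h7
    have h8 : Real.exp (-L + 7 / 2) * 4 ≤ Real.exp (-L / 2) := by
      rw [show -L / 2 = -L + 7 / 2 + (L / 2 - 7 / 2) by ring, Real.exp_add (-L + 7 / 2)]
      gcongr
      linarith [Real.add_one_le_exp (L / 2 - 7 / 2)]
    unfold lg
    rw [add_sub_cancel_left, norm_div, norm_mul, Complex.norm_I, one_mul, Complex.norm_real,
      Real.norm_eq_abs, abs_of_pos hδ, div_le_iff₀ hδ]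
    nlinarith [Real.exp_pos (-L + 7 / 2)]

theorem pch_mem (hx : x ≠ 0) (hδ : 0 < δ) {ξ : ℂ} (h : ‖ξ‖ ≤ 1) :
    pch x δ 0 L ξ ∈ closedBall (wch x δ 0 Complex.I) (prad x δ 0 L) := by
  have := prad_pos (yr := 0) hx hδ L
  unfold pch
  rw [mem_closedBall_iff_norm, add_sub_cancel_left, norm_mul, Complex.norm_real, Real.norm_eq_abs,
    abs_of_pos this]
  exact mul_le_of_le_one_right this.le h

theorem lg_zero (hx : x ≠ 0) : lg x δ (pch x δ 0 L 0) = Complex.I := by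
  simp [lg, pch, div_self (wch_ne (δ := δ) (yr := 0) hx Complex.I)]

/-- the part of `X` with small `V` and small `P` -/
def cut (X : Set E) (V P : E → ℂ) (b c : ℝ) : Set E := {y | y ∈ X ∧ ‖V y‖ ≤ 20 * b ∧ ‖P y‖ ≤ c}

/-- the hypotheses in the window chart -/
structure Hy (X K : Set E) (V P : E → ℂ) (D0 : ℂ → ℝ) (G th : ℝ → ℝ) (x : ℂ)
    (c0 CD Cth M8 y4 L δ e b R s s1 : ℝ) : Prop where
  L13 : 13 ≤ L
  sh : Shape c0 CD M8 y4 L x δ 0 D0
  tho : ThOK th Cth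
  dG : Differentiable ℝ G
  G0 : ∀ u, u ≤ 0 → G u = 0
  Gp : ∀ u, 0 < u → 0 < G u
  G1 : ∀ u, 0 ≤ deriv G u
  st : ∀ u, 0 < u → u ≤ s1 → 96 * G u ≤ u * deriv G u
  w : W3L X K V P D0 G th e b L M8 R
  sm : ∀ y ∈ X, y ∉ K → ‖y.1‖ ≤ R → ‖V y‖ ≤ e / 2 → ‖V y‖ ≤ 10 * b ∧ ‖P y‖ ≤ G s
  m8 : 4 ≤ M8
  n0 : 0 < s
  n1 : 6 * s ≤ s1
  n2 : 8 * s ≤ y4
  n3 : y4 ≤ 1 / 4
  n4 : L * s ≤ 1 / 4

namespace Hy

variable {X K : Set E} {V P : E → ℂ} {D0 : ℂ → ℝ} {G th : ℝ → ℝ}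
  {c0 CD Cth M8 y4 e b R s s1 : ℝ} (h : Hy X K V P D0 G th x c0 CD Cth M8 y4 L δ e b R s s1)
include h

theorem mono : Monotone G := monotone_of_deriv_nonneg h.dG h.G1

theorem nn (u : ℝ) : 0 ≤ G u := (le_or_gt u 0).elim (fun a => (h.G0 u a).ge) fun a => (h.Gp u a).le

theorem pos {u : ℝ} (a : G u ≠ 0) : 0 < u := not_le.1 fun c => a (h.G0 u c)

theorem grow {u v : ℝ} (h0 : 0 < u) (h1 : u < v) (h2 : v ≤ s1) :
    96 * G u * (v - u) ≤ v * (G v - G u) := by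
  obtain ⟨c, hc, e1⟩ := exists_deriv_eq_slope G h1 h.dG.continuous.continuousOn
    h.dG.differentiableOn
  have a1 := h.st c (h0.trans hc.1) (hc.2.le.trans h2)
  have a2 := h.mono hc.1.le
  have a3 : 96 * G u ≤ v * deriv G c := by nlinarith [h.G1 c, hc.2]
  rw [eq_div_iff (sub_pos.2 h1).ne'] at e1
  rw [← e1, ← mul_assoc]
  gcongr

theorem dbl : 49 * G s ≤ G (2 * s) := by
  have := h.grow (u := s) (v := 2 * s) h.n0 (by linarith [h.n0]) (by linarith [h.n0, h.n1])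
  nlinarith [h.n0]

theorem le_of {u : ℝ} (a : G u ≤ G (2 * s)) : u ≤ 2 * s := by
  by_contra c
  have h0 := h.n0
  have h1 : 2 * s < min u (3 * s) := lt_min (not_le.1 c) (by linarith)
  have h2 := h.grow (by linarith) h1 ((min_le_right _ _).trans (by linarith [h.n1]))
  have h3 := h.mono (min_le_left u (3 * s))
  nlinarith [mul_pos (h.Gp (2 * s) (by linarith)) (sub_pos.2 h1)]

theorem steep {u c : ℝ} (h1 : u ≤ s1) (h2 : u ≤ 96 * c) (h3 : 0 ≤ c) : G u ≤ c * deriv G u := by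
  have := h.G1 u
  rcases le_or_gt u 0 with a | a
  · rw [h.G0 u a]; positivity
  · nlinarith [h.st u a h1]

theorem np : NP (cut X V P b (G (2 * s))) K (closedBall 0 R) :=
  np_cut h.w.np (fun y hy => ⟨(h.w.an.1 y hy).continuousAt.norm, (h.w.an.2 y hy).continuousAt.norm⟩)
    fun y hy hK a => by
      have := h.sm y hy.1 hK (mem_closedBall_zero_iff.1 hy.2) (by linarith [h.w.num.1, h.w.num.2])
      exact ⟨by linarith [h.w.num.1], by linarith [h.dbl, h.Gp s h.n0]⟩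

theorem norm_bw {z : ℂ} (a : 0 < hgt L D0 z) :
    ‖bw L D0 (fun u => Real.log (G u)) th z‖ = G (hgt L D0 z) := by
  unfold bw
  rw [Complex.norm_exp, ← Real.exp_log (h.Gp _ a)]
  split_ifs <;> simp

theorem bw_near {z : ℂ} (h1 : ‖z - Complex.I‖ ≤ 2 * Real.exp (-L / 2)) (a : 0 < hgt L D0 z)
    (h3 : hgt L D0 z ≤ 1 / 4) : bw L D0 (fun u => Real.log (G u)) th z =
      G (hgt L D0 z) * Complex.exp (Complex.I * (Real.pi / 4 : ℝ)) := by
  unfold bw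
  rw [if_pos (by linarith [Real.exp_pos (-L / 2)]), h.tho.2.2.1 _ h3, Complex.exp_add,
    ← Complex.ofReal_exp, Real.exp_log (h.Gp _ a)]

theorem bw_far {z : ℂ} (h1 : 0 < z.im) (h2 : z.im ≤ y4) :
    hgt L D0 z = z.im ∧ bw L D0 (fun u => Real.log (G u)) th z = G z.im := by
  have a := h.sh.far z (by linarith) (Or.inr (by rwa [abs_of_pos h1]))
  have c := Complex.abs_im_le_norm (z - Complex.I)
  have d := neg_abs_le (z - Complex.I).im
  simp only [Complex.sub_im, Complex.I_im] at c d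
  refine ⟨a, ?_⟩
  unfold bw
  rw [if_neg (by linarith [exp16 h.L13, h.n3]), a]
  simp [← Complex.ofReal_exp, Real.exp_log (h.Gp _ h1)]

/-- the points of `K` in the cut set -/
theorem cls {y : E} (hy : y ∈ ov (cut X V P b (G (2 * s))) (closedBall 0 R)) (hK : y ∈ K)
    (hP : P y ≠ 0) : y.1 ≠ Complex.I ∧ 0 < hgt L D0 y.1 ∧ hgt L D0 y.1 ≤ 2 * s ∧
      ((‖y.1 - Complex.I‖ ≤ 2 * Real.exp (-L / 2) ∧
        P y = G (hgt L D0 y.1) * Complex.exp (Complex.I * (Real.pi / 4 : ℝ))) ∨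
      (hgt L D0 y.1 = y.1.im ∧ P y = G y.1.im)) := by
  obtain ⟨a1, a2, a3, a4⟩ := h.w.lo y ⟨hy.1.1, hy.2⟩ hK hy.1.2.1 hP
  have n0 := h.n0
  have n2 := h.n2
  have n3 := h.n3
  have a5 : hgt L D0 y.1 ≤ 4 * M8 := not_lt.1 fun c => by
    linarith [h.le_of ((a4 c).trans hy.1.2.2), h.m8]
  have a6 := a3 a5
  have a7 : hgt L D0 y.1 ≤ 2 * s := h.le_of (by rw [← h.norm_bw a2, ← a6]; exact hy.1.2.2)
  refine ⟨a1, a2, a7, ?_⟩
  rcases le_total ‖y.1 - Complex.I‖ (2 * Real.exp (-L / 2)) with c | c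
  · exact Or.inl ⟨c, a6.trans (h.bw_near c a2 (by linarith))⟩
  · have a8 : y.1.im < y4 := not_le.1 fun d => by linarith [h.sh.low _ d c]
    have a9 := h.w.up y ⟨hy.1.1, hy.2⟩
    have a10 := h.sh.far y.1 (by linarith) (Or.inr (by rw [abs_of_nonneg a9]; exact a8.le))
    exact Or.inr ⟨a10, a6.trans (h.bw_far (a10 ▸ a2) a8.le).2⟩

end Hy

/-- the hub wall -/
theorem wb (ι : ℝ) (hι : 0 < ι) : ∃ om > (0 : ℝ), ∀ {X K : Set E} {V P : E → ℂ} {D0 : ℂ → ℝ}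
    {G th : ℝ → ℝ} {x : ℂ} {c0 CD Cth M8 y4 L δ e b R s s1 : ℝ},
    Hy X K V P D0 G th x c0 CD Cth M8 y4 L δ e b R s s1 → 4 * s ≤ om → ∀ x0 r : ℝ, 1 / 2 ≤ r →
    Ring.Adm R x0 r → WBL (cut X V P b (G (2 * s))) K P x0 r ι (cW 0) 0 := by
  obtain ⟨om, ho, H⟩ := all_wbg ι 0 hι le_rfl
  refine ⟨om, ho, fun {X K V P D0 G th x c0 CD Cth M8 y4 L δ e b R s s1} h hs x0 r hr hA => ?_⟩
  have n0 := h.n0
  have n1 := h.n1
  have n2 := h.n2
  have n3 := h.n3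
  have hb : ∀ y ∈ ov (cut X V P b (G (2 * s))) (box x0 r r),
      y ∈ ov (cut X V P b (G (2 * s))) (closedBall 0 R) := fun y hy =>
    ⟨hy.1, mem_closedBall_zero_iff.2 (Ring.box_norm hA.2.1 hy.2)⟩
  have ho' : 0 ≤ om * min 1 r⁻¹ := by positivity
  have hw : ∀ u v : ℝ, wth (fun _ : Unit => G) (fun _ _ => 1) (fun y => y.2) u v = G v :=
    fun u v => by simp [wth, wsum]
  refine ⟨0, le_rfl, H Unit _ K P P (fun _ => 0) (fun _ => G) (fun _ => deriv G) (fun _ _ => 1)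
    (fun _ => 0) (fun y => y.2) 0 0 x0 r (2 * s) 0 0 0 (G (4 * s)) 2 (by linarith) (by linarith)
    (by nlinarith) (by linarith) (Or.inr rfl)
    (fun y hy => h.w.an.2 y ⟨hy.1.1, (hb y hy).2⟩)
    (fun z _ => ⟨analyticAt_const, by simp, fun _ => by simpa using hι.le, by simp⟩)
    (fun y _ => by simp [pp, sq]) ⟨fun _ u _ => ⟨(h.dG u).hasDerivAt, h.G1 u⟩,
      fun u _ => Or.inr ⟨fun _ _ => by simp, fun _ => Or.inr fun _ _ =>
        ⟨analyticAt_const, by simpa using ho', by simp, by simpa using ho'⟩⟩,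
      fun _ _ u hu => Or.inl ?_, fun u _ => ⟨Or.inl fun _ => h.nn u, Or.inl fun _ => by
        simpa using h.nn u⟩, ⟨le_rfl, h.nn _⟩, fun _ _ u hu => ⟨?_, st_thid.1 _ _ _ _ ho'⟩⟩
    (Or.inl ⟨rfl, le_rfl⟩) (fun y hy hK hP => ?_) (fun y hy hP h1 h2 => ?_), Or.inl rfl⟩
  · have := h.steep (u := u) (c := 2 * s / 4) (by linarith [hu.2]) (by linarith [hu.2])
      (by linarith)
    simpa [Steep, abs_of_nonneg (h.nn u)] using this
  · have := h.mono (show u ≤ 4 * s by linarith [hu.2])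
    simpa [wsum, abs_of_nonneg (h.nn u)] using this
  · obtain ⟨-, a1, a2, a3 | a3⟩ := h.cls (hb y hy) hK (norm_pos_iff.1 hP)
    · linarith [a3.1, (hA.far hy.2).1, exp16 h.L13]
    · rw [hw, abs_of_pos (a3.1 ▸ a1)]
      exact ⟨a3.1 ▸ a2, a3.2⟩
  · rw [hw] at h2
    have a1 : 0 < y.1.im := h.pos fun a => by rw [h2, a] at hP; simp at hP
    have a2 : y.1.im ≤ y4 := by linarith [le_abs_self y.1.im]
    obtain ⟨a3, a4⟩ := h.bw_far a1 a2
    refine h.w.conv y ⟨hy.1.1, (hb y hy).2⟩ hy.1.2.1 (fun a => ?_) (a3 ▸ a1)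
      (by linarith [h.m8]) (h2.trans a4.symm)
    rw [a, Complex.I_im] at a2; linarith

/-- the port clause -/
theorem port : ∃ ω > (0 : ℝ), ∀ {X K : Set E} {V P : E → ℂ} {D0 : ℂ → ℝ} {G th : ℝ → ℝ} {x : ℂ}
    {c0 CD Cth M8 y4 L δ e b R s s1 : ℝ}, x ≠ 0 → 0 < δ → δ ≤ 1 / 16 → 2 ≤ R →
    Hy (bc (wch x δ 0) ⁻¹' X) (bc (wch x δ 0) ⁻¹' K) (fun y => V (bc (wch x δ 0) y))
      (fun y => P (bc (wch x δ 0) y)) D0 G th x c0 CD Cth M8 y4 L δ e b R s s1 →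
    2 * L * s ≤ ω → ∀ B : ℝ, 0 ≤ B →
      (∀ y ∈ bc (wch x δ 0) ⁻¹' cut X V P b (G (2 * s)), y ∉ bc (wch x δ 0) ⁻¹' K →
        Real.exp (-L + 3) ≤ ‖bl y.1‖ → ‖bl y.1‖ ≤ Real.exp (-L + 4) →
        ‖P (bc (wch x δ 0) y)‖ ≤ B) →
      ∀ y ∈ bc (wch x δ 0) ⁻¹' cut X V P b (G (2 * s)), y ∉ bc (wch x δ 0) ⁻¹' K → ‖y.1‖ ≤ R →
        ‖bl y.1‖ ≤ Real.exp (-L + 3) → ‖P (bc (wch x δ 0) y)‖ ≤ 1000 * B := by
  obtain ⟨ι, hι, H⟩ := ppp all_pp2 (4 * 0 * Real.exp (2 * 0))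
  obtain ⟨ω, hω, H'⟩ := all_pps ι 0 hι le_rfl
  refine ⟨ω, hω, fun {X K V P D0 G th x c0 CD Cth M8 y4 L δ e b R s s1} hx hδ hδ1 hR h hs => ?_⟩
  have n0 := h.n0
  have n1 := h.n1
  have n2 := h.n2
  have n3 := h.n3
  have n4 := h.n4
  have hL := h.L13
  have L0 : 0 < L := by linarith
  have x16 := exp16 hL
  have hb : ∀ z : ℂ, ‖z - Complex.I‖ ≤ 2 * Real.exp (-L / 2) → z ∈ closedBall (0 : ℂ) R :=
    fun z hz => by
      have := norm_add_le (z - Complex.I) Complex.I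
      rw [sub_add_cancel, Complex.norm_I] at this
      rw [mem_closedBall_zero_iff]; linarith
  set ζ : ℂ → ℂ := fun ξ => lg x δ (pch x δ 0 L ξ) with hζ
  set c : ℂ := Complex.exp (-(Complex.I * (Real.pi / 4 : ℝ))) with hc
  set Q : E → ℂ := fun y => c * P (bc (wch x δ 0) (bc ζ y)) with hQ
  have c1 : ‖c‖ = 1 := by simp [hc, Complex.norm_exp]
  have c2 : c * Complex.exp (Complex.I * (Real.pi / 4 : ℝ)) = 1 := by
    rw [hc, ← Complex.exp_add, neg_add_cancel, Complex.exp_zero]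
  have F : ∀ y : E, y.1 ∈ closedBall (0 : ℂ) 1 →
      bc (wch x δ 0) (bc ζ y) = bc (pch x δ 0 L) y ∧ AnalyticAt ℂ ζ y.1 ∧
      ‖ζ y.1 - Complex.I‖ ≤ 2 * Real.exp (-L / 2) ∧
      (y.1 ≠ 0 → ζ y.1 ≠ Complex.I ∧ hgt L D0 (ζ y.1) = (Real.log ‖y.1‖ + 7 / 2) / L) := by
    intro y hy
    obtain ⟨a1, a2, -, a4⟩ := lg_facts hx hδ hδ1 hL (pch_mem hx hδ (mem_closedBall_zero_iff.1 hy))
    have a5 : wch x δ 0 (ζ y.1) = pch x δ 0 L y.1 := wch_lg hx hδ a1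
    refine ⟨Prod.ext a5 rfl, a2.comp (f := pch x δ 0 L) (by unfold pch; fun_prop), a4, fun a => ?_⟩
    have a6 := pc_pch (yr := 0) hx hδ L y.1
    have a7 := norm_pos_iff.2 a
    have a8 : ζ y.1 ≠ Complex.I := fun d => by
      rw [← a5, d, pc, sub_self, norm_zero, zero_div] at a6
      exact absurd a6 (by positivity)
    refine ⟨a8, (h.sh.round _ a8 a4).trans ?_⟩
    rw [← a5] at a6
    unfold pc at a6
    rw [a6, Real.log_mul (Real.exp_pos _).ne' a7.ne', Real.log_exp]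
    field_simp; ring
  have hM : ∀ y ∈ ov (bc (pch x δ 0 L) ⁻¹' cut X V P b (G (2 * s))) (closedBall 0 1),
      bc ζ y ∈ ov (bc (wch x δ 0) ⁻¹' cut X V P b (G (2 * s))) (closedBall 0 R) := fun y hy =>
    ⟨by rw [mem_preimage, (F y hy.2).1]; exact hy.1, hb _ (F y hy.2).2.2.1⟩
  have hK : ∀ y : E, y.1 ∈ closedBall (0 : ℂ) 1 →
      (bc ζ y ∈ bc (wch x δ 0) ⁻¹' K ↔ y ∈ bc (pch x δ 0 L) ⁻¹' K) := fun y hy => by
    rw [mem_preimage, (F y hy).1, mem_preimage]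
  have z0 : ∀ y : E, y.1 = 0 → (bc ζ y).1 = Complex.I := fun y hy => by
    simp only [bc, hζ, hy, lg_zero hx]
  have zN : ∀ y ∈ ov (bc (pch x δ 0 L) ⁻¹' cut X V P b (G (2 * s))) (closedBall 0 1),
      y.1 * dv Q y = Q y := fun y hy => dv_mul fun a => by
    obtain ⟨f, -, a1⟩ := h.w.anB _ (hM y hy).1.1 (z0 y a)
    have a2 := a1.self_of_nhds
    rw [z0 y a, sub_self, zero_mul] at a2
    simp only [hQ, a2, mul_zero]
  have kN : ∀ y ∈ ov (bc (pch x δ 0 L) ⁻¹' cut X V P b (G (2 * s))) (closedBall 0 1),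
      y ∈ bc (pch x δ 0 L) ⁻¹' K → y.1 * dv Q y ≠ 0 → 0 < (Real.log ‖y.1‖ + 7 / 2) / L ∧
        (Real.log ‖y.1‖ + 7 / 2) / L ≤ 2 * s ∧
        y.1 * dv Q y = G ((Real.log ‖y.1‖ + 7 / 2) / L) := fun y hy hk a => by
    obtain ⟨-, -, a1, a2⟩ := F y hy.2
    obtain ⟨-, a3⟩ := a2 (left_ne_zero_of_mul a)
    rw [zN y hy] at a ⊢
    obtain ⟨-, a4, a5, a6 | a6⟩ := h.cls (hM y hy) ((hK y hy.2).2 hk) (right_ne_zero_of_mul a)
    · rw [← a3]
      refine ⟨a4, a5, ?_⟩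
      simp only [hQ]
      rw [a6.2, mul_left_comm, c2, mul_one]; rfl
    · have d1 := Complex.abs_im_le_norm (ζ y.1 - Complex.I)
      have d2 := neg_abs_le (ζ y.1 - Complex.I).im
      rw [a6.1] at a5
      simp only [Complex.sub_im, Complex.I_im, bc] at d1 d2 a5
      linarith
  refine H (cut X V P b (G (2 * s))) K P (dv Q) x δ 0 L R 0 (G s ^ 2) 0 hx hδ hδ1 hL le_rfl
    (by simp) (np_congr (st_pull _ _ _ _ (lg x δ) h.np (isCompact_closedBall _ _) fun z hz => ?_)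
      isOpen_ne (fun z hz => (lg_facts hx hδ hδ1 hL hz).1) (fun y hy => ?_) fun y hy => ?_)
    (fun y hy a => ?_) (fun y hy => ?_)
    (H' Unit _ _ _ (fun _ η => G ((η + 7 / 2) / L))
      (fun _ η => deriv G ((η + 7 / 2) / L) * (1 / L)) (fun _ _ => 1) (1 / 2) (2 * L * s) (-7 / 2)
      (-7 / 2 + 2 * L * s) _ (by norm_num) le_rfl (by positivity) hs (by linarith)
      (fun _ η _ => ⟨(h.dG _).hasDerivAt.comp η (((hasDerivAt_id η).add_const _).div_const L),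
        mul_nonneg (h.G1 _) (by positivity),
        fun a => h.G0 _ (div_nonpos_of_nonpos_of_nonneg (by linarith) L0.le)⟩)
      (fun η a => ?_) (fun _ z _ => ⟨⟨analyticAt_const, by simpa using hω.le, by simp,
        by simpa using hω.le⟩, by norm_num, by norm_num⟩) ?_ (fun y hy hk a _ => ?_)
      fun y hy a a1 a2 => ?_) fun y hy => ⟨?_, fun hk => ?_, fun hk a => ?_⟩
  · obtain ⟨-, a2, a3, a4⟩ := lg_facts hx hδ hδ1 hL hz
    exact ⟨a2, a3, hb _ a4⟩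
  · change bc (wch x δ 0) (bc (lg x δ) y) ∈ cut X V P b (G (2 * s)) ↔ _
    rw [show bc (wch x δ 0) (bc (lg x δ) y) = y from Prod.ext (wch_lg hx hδ hy) rfl]
  · change bc (wch x δ 0) (bc (lg x δ) y) ∈ K → _
    rw [show bc (wch x δ 0) (bc (lg x δ) y) = y from Prod.ext (wch_lg hx hδ hy) rfl]
    exact id
  · linarith [h.w.up y ⟨hy.1, mem_closedBall_zero_iff.2 a⟩]
  · have a1 := an_bc (F y hy.2).2.1
    by_cases a : y.1 = 0
    · obtain ⟨f, a2, a3⟩ := h.w.anB _ (hM y hy).1.1 (z0 y a)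
      obtain ⟨q, hq⟩ := (F y hy.2).2.1
      have a4 : AnalyticAt ℂ (dslope ζ y.1) y.1 := ⟨_, hq.has_fpower_series_dslope_fslope⟩
      refine an_dv0 (H := fun u => dslope ζ y.1 u.1 * (c * f (bc ζ u)))
        ((a4.comp analyticAt_fst).mul (analyticAt_const.mul (a2.comp a1))) ?_
      filter_upwards [a1.continuousAt.eventually a3] with u hu
      have a5 := sub_smul_dslope ζ y.1 u.1
      rw [show ζ y.1 = Complex.I from z0 y a, smul_eq_mul] at a5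
      simp only [hQ]
      rw [hu, show (bc ζ u).1 = ζ u.1 from rfl, ← a5, a]; ring
    · exact an_dv1 (analyticAt_const.mul ((h.w.an.2 _ ⟨(hM y hy).1.1, (hM y hy).2⟩).comp a1)) a
  · have a1 : (η + 7 / 2) / L ≤ 6 * s := by rw [div_le_iff₀ L0]; linarith
    have a2 := h.steep (c := s / 16) (a1.trans n1) (by linarith) (by linarith)
    simp only [Finset.univ_unique, Finset.sum_singleton]
    refine a2.trans (le_of_eq ?_)
    field_simp; ring
  · have a1 : (-7 / 2 + 2 * L * s + 7 / 2) / L = 2 * s := by field_simp; ring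
    have a2 : Real.exp (-1) * Real.exp (-1) ≤ Real.exp (1 / 2 * (-7 / 2 + 2 * L * s)) := by
      rw [← Real.exp_add]; exact Real.exp_le_exp.2 (by nlinarith [mul_pos L0 n0])
    have a3 := Real.exp_neg_one_gt_d9
    have a4 : (49 * G s) ^ 2 ≤ G (2 * s) ^ 2 := pow_le_pow_left₀ (by linarith [h.nn s]) h.dbl 2
    simp only [Finset.univ_unique, Finset.sum_singleton, a1]
    nlinarith [mul_le_mul a4 (show 1 / 9 ≤ Real.exp (1 / 2 * (-7 / 2 + 2 * L * s)) by nlinarith)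
      (by norm_num) (sq_nonneg _), sq_nonneg (G s)]
  · obtain ⟨-, a2, a3⟩ := kN y hy hk a
    rw [div_le_iff₀ L0] at a2
    exact ⟨by nlinarith [mul_pos L0 n0], by simpa using a3⟩
  · obtain ⟨-, -, a3, a4⟩ := F y hy.2
    obtain ⟨a5, a6⟩ := a4 (left_ne_zero_of_mul a)
    simp only [Finset.univ_unique, Finset.sum_singleton, mul_one] at a2
    rw [← a6] at a2
    have a7 : 0 < hgt L D0 (ζ y.1) := h.pos fun d => a (by rw [a2, d, Complex.ofReal_zero])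
    have a8 : hgt L D0 (ζ y.1) ≤ 6 * s := by rw [a6, div_le_iff₀ L0]; linarith
    refine (hK y hy.2).1 (h.w.conv _ ⟨(hM y hy).1.1, (hM y hy).2⟩ (hM y hy).1.2.1 a5 a7
      (a8.trans (by linarith [h.m8])) (Eq.trans ?_ (h.bw_near a3 a7 (by linarith)).symm))
    rw [← a2, zN y hy]
    simp only [hQ]
    rw [mul_right_comm, c2, one_mul]
  · rw [zN y hy]
    simp only [hQ]
    rw [norm_mul, c1, one_mul, (F y hy.2).1]
  · have a1 := (h.sm _ (hM y hy).1.1 (fun d => hk ((hK y hy.2).1 d))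
      (mem_closedBall_zero_iff.1 (hM y hy).2)
      ((hM y hy).1.2.1.trans (by linarith [h.w.num.1, h.w.num.2]))).2
    rw [zN y hy]
    simp only [hQ]
    rw [norm_mul, c1, one_mul]
    gcongr
  · by_contra d
    have a1 : y.1 * dv Q y ≠ 0 := fun f => d (by rw [f]; simp)
    have a2 := (div_pos_iff_of_pos_right L0).1 (kN y hy hk a1).1
    linarith [(Real.log_le_iff_le_exp (norm_pos_iff.2 (left_ne_zero_of_mul a1))).2 a]

end W3A

open W3A Win in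
theorem st_w3a : St_W3A := by
  obtain ⟨L0, H⟩ := st_wact st_ql all_nwb
  refine ⟨max L0 13, fun β L hβ hβ1 hL => ?_⟩
  obtain ⟨M, hM, H⟩ := H β L hβ hβ1 ((le_max_left _ _).trans hL)
  obtain ⟨ι, hι, H⟩ := H (cW 0) 0
  obtain ⟨om, ho, Hw⟩ := wb ι hι
  obtain ⟨ω, hω, Hp⟩ := port
  have hL' : 13 ≤ L := (le_max_right _ _).trans hL
  have L1 : 0 < L := by linarith
  have M2 : 1 ≤ 27 * M ^ 2 := by nlinarith
  refine ⟨10000 * (27 * M ^ 2) * M, by nlinarith, 96, fun y4 s1 hy hy1 hs1 => ?_⟩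
  obtain ⟨s, n0, n1, n2, n3, n4, n5, n6⟩ : ∃ s : ℝ, 0 < s ∧ 6 * s ≤ s1 ∧ 8 * s ≤ y4 ∧ 2 * s ≤ ι ∧
      4 * s ≤ om ∧ L * s ≤ 1 / 4 ∧ 2 * L * s ≤ ω := by
    have t : ∀ a c : ℝ, 0 < c → ∀ᶠ s in 𝓝[>] (0 : ℝ), a * s ≤ c := fun a c hc =>
      nhdsWithin_le_nhds (((by fun_prop : ContinuousAt (fun s : ℝ => a * s) 0).eventually
        (gt_mem_nhds (by simpa using hc))).mono fun _ => le_of_lt)
    exact ((eventually_mem_nhdsWithin (s := Ioi 0)).and ((t 6 _ hs1).and ((t 8 _ hy).and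
      ((t 2 _ hι).and ((t 4 _ ho).and ((t L _ (by norm_num)).and (t (2 * L) _ hω))))))).exists
  refine ⟨s, n0, fun X K V P D0 G th x c0 CD Cth M8 δ ρ e b hx hδ hρ hMρ hM8 hS hT g1 g2 g3 g4 g5
    hW hsm => ?_⟩
  have h : Hy _ _ _ _ D0 G th x c0 CD Cth M8 y4 L δ e b (ρ / (2 * δ)) s s1 :=
    ⟨hL', hS, hT, g1, g2, g3, g4, g5, hW, hsm, hM8, n0, n1, n2, hy1, n5⟩
  have m1 : 10000 * M * δ ≤ ρ := le_trans (by gcongr; nlinarith) hMρ
  have m2 : 64 * δ ≤ M * δ := by gcongr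
  have m3 : M ≤ ρ / (2 * δ) := by rw [le_div_iff₀ (by positivity)]; linarith
  have b0 := hW.num.1
  have b1 := hW.num.2
  have e0 : 0 < e := by linarith
  have A : ActH (bc (wch x δ 0) ⁻¹' cut X V P b (G (2 * s))) (bc (wch x δ 0) ⁻¹' K)
      (fun y => P (bc (wch x δ 0) y)) L ι (ρ / (2 * δ)) (cW 0) 0 := by
    refine ⟨h.np, fun y hy => hW.up y ⟨hy.1.1, hy.2⟩, fun y hy => hW.an.2 y ⟨hy.1.1, hy.2⟩,
      fun y hy => hW.anB y hy.1, fun y hy hK => or_iff_not_imp_left.2 fun hP => ?_,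
      fun x0 a1 a2 => Hw h n4 x0 _ (by linarith) ⟨by linarith, by linarith, Or.inr (by ring)⟩,
      fun x0 a1 => Hw h n4 x0 _ le_rfl ⟨by norm_num, by linarith, Or.inl le_rfl⟩,
      fun B hB => Hp (ne0 hx) hδ (by linarith) (by linarith) h n6 B (le_trans (mul_nonneg hι.le
        (Real.sSup_nonneg (by rintro _ ⟨u, -, rfl⟩; exact norm_nonneg _))) hB)⟩
    obtain ⟨a1, a2, a3, a4 | a4⟩ := h.cls hy hK hP
    · refine Or.inr (Or.inl ⟨?_, a1, ?_⟩)
      · have c1 := bl_pc (yr := 0) (ne0 hx) hδ (by linarith) (z := y.1)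
          (by linarith [a4.1, exp16 hL'])
        have c2 : hgt L D0 y.1 = 1 + Real.log (pc x δ 0 (wch x δ 0 y.1)) / L :=
          hS.round _ a1 a4.1
        have c3 : 0 < pc x δ 0 (wch x δ 0 y.1) := by
          have := norm_pos_iff.2 (sub_ne_zero.2 a1)
          linarith [(pc_wch (yr := 0) (ne0 hx) hδ (z := y.1)
            (by nlinarith [a4.1, exp16 hL'])).1]
        have c4 : Real.log (pc x δ 0 (wch x δ 0 y.1)) = L * hgt L D0 y.1 - L := by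
          rw [c2]; field_simp; ring
        have c5 := Real.log_le_log (by positivity) c1.1
        have c6 := Real.log_le_log (by linarith [c1.1]) c1.2
        rw [Real.log_mul (by norm_num) c3.ne', c4] at c5 c6
        have c7 := Real.log_le_sub_one_of_pos (show (0 : ℝ) < 4 / 3 by norm_num)
        have c8 := Real.one_sub_inv_le_log_of_pos (show (0 : ℝ) < 3 / 4 by norm_num)
        rw [abs_le]
        constructor <;> nlinarith [mul_pos L1 a2, mul_le_mul_of_nonneg_left a3 L1.le]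
      · rw [a4.2, Complex.arg_real_mul _ (g3 _ a2), mul_comm, Complex.arg_exp_mul_I,
          (toIocMod_eq_self _).2 ⟨by linarith [Real.pi_pos], by linarith [Real.pi_pos]⟩, sub_self,
          abs_zero]
        positivity
    · refine Or.inl ⟨by linarith [a4.1], ?_⟩
      rw [a4.2, Complex.arg_ofReal_of_nonneg (h.nn _), abs_zero]
      exact hι.le
  have := st_wconv ({y | y ∈ X ∧ ‖V y‖ ≤ e / 2} \ K) (fun y => ‖pp e (V y)‖) x δ 0 ρ (2 - β)
    (27 * M ^ 2) M 0 hx hδ (by linarith) hρ (by linarith) (by linarith) M2 (by linarith) le_rfl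
    (by rw [abs_zero, add_zero]; linarith) fun O hO h1 r r8 hr y hy h2 h3 => ?_
  · rwa [abs_zero, add_zero] at this
  have R0 : 0 < ρ / (2 * δ) := by linarith
  have k : ∀ v : ℂ, ‖v‖ ≤ 10 * b → 9 / 10 * e * ‖v‖ ≤ ‖pp e v‖ ∧ ‖pp e v‖ ≤ 11 / 10 * e * ‖v‖ :=
    fun v hv => by
      have d1 := norm_sub_le v e
      have d2 := norm_sub_norm_le (e : ℂ) v
      rw [norm_sub_rev] at d2
      rw [Complex.norm_real, Real.norm_eq_abs, abs_of_pos e0] at d1 d2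
      rw [pp, norm_mul, mul_comm ‖v‖]
      constructor <;> refine mul_le_mul_of_nonneg_right (by linarith) (norm_nonneg v)
  obtain ⟨a1, a2⟩ := hsm y hy.1.1 hy.2 (by linarith) hy.1.2
  have a3 := H _ _ _ _ A m3 (3 * O / e) (by positivity) (fun u hu hk c1 c2 => by
    have d1 : ‖V (bc (wch x δ 0) u)‖ ≤ e / 2 := hu.2.1.trans (by linarith)
    have d2 := (k _ (hsm u hu.1 hk c2 d1).1).1.trans (h1 u ⟨⟨hu.1, d1⟩, hk⟩ c1 c2)
    have d3 := (hW.cmp u ⟨hu.1, mem_closedBall_zero_iff.2 c2⟩).1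
    rw [le_div_iff₀ e0]
    nlinarith [mul_le_mul_of_nonneg_left d3 e0.le]) r r8 (by linarith) y
    ⟨hy.1.1, by linarith, a2.trans (h.mono (by linarith))⟩ hy.2 h3
  have a4 := (hW.cmp y ⟨hy.1.1, mem_closedBall_zero_iff.2 (by linarith)⟩).2 h2
  have a5 : 0 ≤ M ^ 2 * (r / (ρ / (2 * δ))) ^ (2 - β) * O := by
    have : 0 ≤ r := by linarith
    positivity
  rw [← mul_div_assoc, le_div_iff₀ e0] at a3
  nlinarith [(k _ a1).2, mul_le_mul_of_nonneg_left a4 e0.le]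

end Pool.Agent.Lib.SH
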