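import Pool.Agent.Lib.SH.Blue8
import Pool.Agent.Lib.SH.All1
import Pool.Agent.Lib.SH.Ring2
import Pool.Agent.Lib.SH.B_NL2
import Pool.Agent.Lib.SH.B_MIC1

/-!
Windows born in the split are neutral at all levels.
-/

open Set Filter Topology Metric

noncomputable section

namespace Pool.Agent.Lib.SH

namespace W3N

theorem norm_pp (e : ℝ) (v : ℂ) : ‖pp e v‖ = ‖v‖ * ‖v - e‖ := norm_mul _ _

theorem tri {e : ℝ} (he : 0 ≤ e) (v : ℂ) :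
    e ≤ ‖v‖ + ‖v - e‖ ∧ ‖v - e‖ ≤ ‖v‖ + e ∧ ‖v‖ ≤ ‖v - e‖ + e := by
  have h0 : ‖(e : ℂ)‖ = e := by rw [Complex.norm_real, Real.norm_eq_abs, abs_of_nonneg he]
  have h1 := norm_sub_le v (v - e)
  rw [sub_sub_cancel, h0] at h1
  have h2 := norm_sub_le v e
  rw [h0] at h2
  have h3 := norm_add_le (v - e) e
  rw [sub_add_cancel, h0] at h3
  exact ⟨h1, h2, h3⟩

theorem im_pp {e ι : ℝ} {v : ℂ} (hι : 0 ≤ ι) (h : |v.im| ≤ ι * ss e v) :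
    |(pp e v).im| ≤ 2 * ι * ‖pp e v‖ := by
  have h1 : (pp e v).im = v.im * (v.re + (v - e).re) := by
    simp only [pp, Complex.mul_im, Complex.sub_re, Complex.sub_im, Complex.ofReal_re,
      Complex.ofReal_im]
    ring
  have h2 := Complex.abs_re_le_norm v
  have h3 := Complex.abs_re_le_norm (v - e)
  have h4 := abs_add_le v.re (v - e).re
  have h5 := norm_nonneg v
  have h6 := norm_nonneg (v - e)
  have h7 : ss e v * (‖v‖ + ‖v - e‖) ≤ 2 * (‖v‖ * ‖v - e‖) := by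
    unfold ss
    rcases le_total ‖v‖ ‖v - e‖ with a | a
    · rw [min_eq_left a]; nlinarith
    · rw [min_eq_right a]; nlinarith
  rw [h1, abs_mul, norm_pp]
  calc _ ≤ ι * ss e v * (‖v‖ + ‖v - e‖) :=
        mul_le_mul h (by linarith) (abs_nonneg _) ((abs_nonneg _).trans h)
    _ = ι * (ss e v * (‖v‖ + ‖v - e‖)) := by ring
    _ ≤ ι * (2 * (‖v‖ * ‖v - e‖)) := by gcongr
    _ = _ := by ring

theorem big {e b : ℝ} {v : ℂ} (hb : 0 < b) (he : 100 * b ≤ e) (h : 2 * b * e < ‖pp e v‖) :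
    b < ‖v‖ := by
  by_contra a
  have h1 := (tri (by linarith : 0 ≤ e) v).2.1
  have h2 := not_lt.1 a
  rw [norm_pp] at h
  have h3 : ‖v‖ * ‖v - e‖ ≤ b * (2 * e) :=
    mul_le_mul h2 (by linarith) (norm_nonneg _) hb.le
  linarith

theorem sep {e b : ℝ} {v : ℂ} (hb : 0 < b) (he : 100 * b ≤ e) (h : ‖pp e v‖ ≤ 6 * b * e) :
    ‖v‖ ≤ 10 * b ∨ ‖v - e‖ ≤ 10 * b := by
  rw [norm_pp] at h
  have h1 := (tri (by linarith : 0 ≤ e) v).1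
  by_contra a
  rw [not_or, not_le, not_le] at a
  have h2 : 0 < (‖v‖ - 10 * b) * (‖v - e‖ - 10 * b) := mul_pos (by linarith [a.1]) (by linarith [a.2])
  have h3 : 0 < b * (‖v‖ + ‖v - e‖ - e) + b * (e - 100 * b) + b * b := by positivity
  nlinarith

/-- a part of `X` cut out by a continuous inequality which is never sharp outside `K` -/
theorem np_part {X K : Set E} {Ω : Set ℂ} {f : E → ℝ} {c : ℝ} (h : NP X K Ω)
    (hf : ∀ y ∈ ov X Ω, ContinuousAt f y) (hs : ∀ y ∈ ov X Ω, y ∉ K → f y ≤ c → f y < c) :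
    NP {y | y ∈ X ∧ f y ≤ c} K Ω := by
  refine ⟨?_, fun y hy => hy.1, fun y hy hK ⟨G, hG, he⟩ => h.np y ⟨hy.1.1, hy.2⟩ hK ⟨G, hG, ?_⟩⟩
  · have h2 : ov {y | y ∈ X ∧ f y ≤ c} Ω = ov X Ω ∩ f ⁻¹' Iic c :=
      Set.ext fun y => ⟨fun hy => ⟨⟨hy.1.1, hy.2⟩, hy.1.2⟩, fun hy => ⟨⟨hy.1.1, hy.2⟩, hy.1.2⟩⟩
    rw [h2]
    exact h.cpt.of_isClosed_subset (ContinuousOn.preimage_isClosed_of_isClosed
      (fun y hy => (hf y hy).continuousWithinAt) h.cpt.isClosed isClosed_Iic) inter_subset_left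
  · have h3 := hs y ⟨hy.1.1, hy.2⟩ hK hy.1.2
    filter_upwards [he, (hf y ⟨hy.1.1, hy.2⟩).eventually (gt_mem_nhds h3)] with x a b c
      using a ⟨c, b.le⟩

/-- the two-root reading of the wall -/
theorem wb_of_vb {X X1 K : Set E} {V : E → ℂ} {e b x0 r ι t C0 lv : ℝ}
    (h : VB X K V e b x0 r ι C0) (hX : X1 ⊆ X) (he : 0 ≤ e) (ht : ι ≤ t) (hlv : 0 ≤ lv)
    (hb : ∀ y ∈ X1, lv < ‖pp e (V y)‖ → b < ‖V y‖) :
    WB X1 K (fun y => pp e (V y)) x0 r t C0 1 lv := by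
  obtain ⟨h1, ι', Ψ, Ψy, h2, -, h3, h4⟩ := h
  have h0 : 0 ≤ t := (h2.pos.le.trans h2.le).trans ht
  refine ⟨V, fun _ => 0, e, ι', 0, 1, Ψ, Ψy, Or.inl rfl, he, h1.mono fun y hy => ⟨hX hy.1, hy.2⟩,
    analyticOnNhd_const, fun ξ _ => by simp, fun x _ => by simpa using h0, fun y _ => by simp,
    NL0.pw_mono h2 ht, fun ξ _ => by simpa using hlv,
    fun y hy hK a => h3 y ⟨hX hy.1, hy.2⟩ hK (hb y hy.1 a),
    fun y hy a => h4 y ⟨hX hy.1, hy.2⟩ (hb y hy.1 a)⟩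

/-- the conclusion of the neutral lemma for plain walls -/
def N0 (C0 ι : ℝ) : Prop := ∀ (X K : Set E) (Q : E → ℂ) (O ρ : ℝ), 0 < O → 0 < ρ →
  NP X K (closedBall 0 ρ) → AnalyticOnNhd ℂ Q (ov X (closedBall 0 ρ)) →
  (∀ y ∈ ov X (closedBall 0 ρ), y ∈ K → O < ‖Q y‖ →
    |y.1.im| ≤ ι * ρ ∧ |(Q y).im| ≤ ι * ‖Q y‖) →
  (∀ x0 : ℝ, |x0| ≤ 5 / 8 * ρ → WB X K Q x0 (ρ / 8) ι C0 1 O) →
  (∀ y ∈ X, y ∉ K → ρ / 2 ≤ ‖y.1‖ → ‖y.1‖ ≤ ρ → ‖Q y‖ ≤ O) →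
  ∀ y ∈ ov X (closedBall 0 (ρ / 2)), y ∉ K → ‖Q y‖ ≤ Real.exp 1 * O

variable {X K : Set E} {V P : E → ℂ} {D0 : ℂ → ℝ} {G th : ℝ → ℝ} {e b L M8 ι t R C0 O : ℝ}

/-- the neutral lemma on a part `X1` of `X` and on the radius `R` or `R / 2` -/
theorem neu (hN : N0 C0 t) (hL : W3L X K V P D0 G th e b L M8 R)
    (hU : W3U X K V P D0 G e b L M8 ι R C0) (hι : 0 ≤ ι) (ht : 2 * ι ≤ t) (hR : 0 < R)
    {X1 : Set E} {ρ : ℝ} (hρ : ρ = R ∨ ρ = R / 2) (hX : X1 ⊆ X) (hnp : NP X1 K (closedBall 0 ρ))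
    (hO : 0 < O) (hb : ∀ y ∈ X1, O < ‖pp e (V y)‖ → b < ‖V y‖)
    (hr : ∀ y ∈ X1, y ∉ K → ρ / 2 ≤ ‖y.1‖ → ‖y.1‖ ≤ ρ → ‖pp e (V y)‖ ≤ O) :
    ∀ y ∈ ov X1 (closedBall 0 (ρ / 2)), y ∉ K → ‖pp e (V y)‖ ≤ 3 * O := by
  have h1 : ρ ≤ R ∧ R ≤ 2 * ρ := by rcases hρ with a | a <;> constructor <;> linarith
  have hs : ov X1 (closedBall 0 ρ) ⊆ ov X (closedBall 0 R) := fun y hy =>
    ⟨hX hy.1, closedBall_subset_closedBall h1.1 hy.2⟩
  have he : 0 ≤ e := by linarith [hL.num.1, hL.num.2]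
  intro y hy hK
  refine (hN X1 K (fun y => pp e (V y)) O ρ hO (by linarith) hnp (an_pp (hL.an.1.mono hs) e)
    (fun u hu hk a => ?_) (fun x0 h => ?_) hr y hy hK).trans ?_
  · obtain ⟨c, d⟩ := hU.hi u (hs hu) hk (hb u hu.1 a)
    refine ⟨?_, (im_pp hι d).trans (by gcongr)⟩
    rw [abs_of_nonneg (hL.up u (hs hu))]
    nlinarith [mul_le_mul_of_nonneg_left h1.2 hι]
  · refine wb_of_vb (hU.vb x0 (ρ / 8) (by linarith) ?_) hX he (by linarith) hO.le hb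
    rcases hρ with a | a
    · exact Or.inl (by rw [a])
    · exact Or.inr (by rw [a]; ring)
  · exact mul_le_mul_of_nonneg_right (by linarith [Real.exp_one_lt_d9]) hO.le

/-- bound on the half disc at the level `max O (2 b e)` -/
theorem stepA (hN : N0 C0 t) (hL : W3L X K V P D0 G th e b L M8 R)
    (hU : W3U X K V P D0 G e b L M8 ι R C0) (hι : 0 ≤ ι) (ht : 2 * ι ≤ t) (hR : 0 < R)
    (hO : 2 * b * e ≤ O)
    (hr : ∀ y ∈ X, y ∉ K → R / 32 ≤ ‖y.1‖ → ‖y.1‖ ≤ R → ‖pp e (V y)‖ ≤ O) :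
    ∀ y ∈ ov X (closedBall 0 (R / 2)), y ∉ K → ‖pp e (V y)‖ ≤ 3 * O := by
  have h1 := hL.num.1
  have h2 := hL.num.2
  exact neu hN hL hU hι ht hR (Or.inl rfl) subset_rfl hL.np (by nlinarith)
    (fun y _ a => big h1 h2 (by linarith)) fun y hy hK a c => hr y hy hK (by linarith) c

/-- the part near the root `e` -/
theorem stepU (hN : N0 C0 t) (hL : W3L X K V P D0 G th e b L M8 R)
    (hU : W3U X K V P D0 G e b L M8 ι R C0) (hι : 0 ≤ ι) (ht : 2 * ι ≤ t) (hR : 0 < R)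
    (hO : 0 ≤ O)
    (hs : ∀ y ∈ ov X (closedBall 0 (R / 2)), y ∉ K → ‖V y‖ ≤ 10 * b ∨ ‖V y - e‖ ≤ 10 * b)
    (hr : ∀ y ∈ X, y ∉ K → R / 32 ≤ ‖y.1‖ → ‖y.1‖ ≤ R → ‖pp e (V y)‖ ≤ O) :
    ∀ y ∈ X, y ∉ K → ‖y.1‖ ≤ R / 4 → ‖V y - e‖ ≤ 10 * b → ‖pp e (V y)‖ ≤ 3 * O := by
  have h1 := hL.num.1
  have h2 := hL.num.2
  have he : 0 ≤ e := by linarith
  have hb : closedBall (0 : ℂ) (R / 2) ⊆ closedBall 0 R := closedBall_subset_closedBall (by linarith)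
  have hnp : NP {y | y ∈ X ∧ ‖V y - e‖ ≤ e / 2} K (closedBall 0 (R / 2)) :=
    np_part (hL.np.mono isClosed_closedBall hb)
      (fun y hy => ((hL.an.1 y (ov_mono hb hy)).continuousAt.sub continuousAt_const).norm)
      fun y hy hK a => by
        rcases hs y hy hK with c | c <;> linarith [(tri he (V y)).1]
  intro y hy hK hy1 hy2
  refine le_of_forall_pos_le_add fun ε hε => ?_
  have := neu (O := O + ε / 3) hN hL hU hι ht hR (Or.inr rfl) (fun y hy => hy.1) hnp (by linarith)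
    (fun u hu _ => by linarith [(tri he (V u)).1, hu.2])
    (fun u hu hk a c => by linarith [hr u hu.1 hk (by linarith) (by linarith)]) y
    ⟨⟨hy, by linarith⟩, mem_closedBall_zero_iff.2 (by linarith)⟩ hK
  linarith

/-- the conclusion of the birth lemma -/
def B0 (c0 CD L M8 Cth M σ0 C0 ι CN : ℝ) : Prop :=
  ∀ (X K : Set E) (P : E → ℂ) (D0 : ℂ → ℝ) (G G' th : ℝ → ℝ) (ρ : ℝ), M ≤ ρ → 5 * M8 ≤ ι * ρ →
    Dev c0 CD L D0 → (∀ z : ℂ, 0 ≤ z.im → M8 ≤ ‖z‖ → hgt L D0 z = z.im) →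
    (∀ s, HasDerivAt G (G' s) s) → (∀ s, s ≤ 0 → G s = 0) → (∀ s, 0 < s → 0 < G s) →
    (∀ s, 0 < s → s ≤ 4 * M8 → G s ≤ σ0 * G' s) →
    (∀ s t, |th s - th t| ≤ Cth * |s - t|) → (∀ s, 1 / 2 ≤ s → th s = 0) →
    (∀ s, 0 ≤ th s ∧ th s ≤ Real.pi / 4) →
    NP X K (closedBall 0 ρ) → (∀ y ∈ ov X (closedBall 0 ρ), 0 ≤ y.1.im) →
    AnalyticOnNhd ℂ P (ov X (closedBall 0 ρ)) →
    (∀ y ∈ X, y.1 = Complex.I → ∃ F : E → ℂ, AnalyticAt ℂ F y ∧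
      ∀ᶠ x in 𝓝 y, P x = (x.1 - Complex.I) * F x) →
    (∀ y ∈ ov X (closedBall 0 ρ), y ∈ K → P y ≠ 0 → y.1 ≠ Complex.I ∧ 0 < hgt L D0 y.1 ∧
      (hgt L D0 y.1 ≤ 4 * M8 → P y = bw L D0 (fun s => Real.log (G s)) th y.1) ∧
      (4 * M8 < hgt L D0 y.1 → G (4 * M8) ≤ ‖P y‖ ∧ y.1.im ≤ ι * ρ ∧
        |(P y).im| ≤ ι * ‖P y‖)) →
    (∀ y ∈ ov X (closedBall 0 ρ), y.1 ≠ Complex.I → 0 < hgt L D0 y.1 → hgt L D0 y.1 ≤ 4 * M8 →
      P y = bw L D0 (fun s => Real.log (G s)) th y.1 → y ∈ K) →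
    (∀ x0 : ℝ, |x0| ≤ 5 / 8 * ρ →
      WB X K P x0 (ρ / 8) ι C0 1 (G (2 * M8) * Real.exp (-3))) →
    ∀ O : ℝ, 0 ≤ O → (∀ y ∈ X, y ∉ K → ρ / 16 ≤ ‖y.1‖ → ‖y.1‖ ≤ ρ → ‖P y‖ ≤ O) →
    ∀ y ∈ X, y ∉ K → ‖y.1‖ ≤ ρ / 2 → ‖P y‖ ≤ CN * O

/-- the part near the root `0` -/
theorem stepL {c0 CD Cth M σ0 CN y4 δ : ℝ} {x : ℂ} (hB : B0 c0 CD L M8 Cth M σ0 C0 t CN)
    (hL : W3L X K V P D0 G th e b L M8 R) (hU : W3U X K V P D0 G e b L M8 ι R C0) (hι : 0 ≤ ι)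
    (ht : 2 * ι ≤ t) (hR : 0 < R) (hM : M ≤ R / 2) (hM8 : 5 * M8 ≤ ι * R)
    (hS : Shape c0 CD M8 y4 L x δ 0 D0) (hth : ThOK th Cth) (hG : Differentiable ℝ G)
    (hG0 : ∀ s, s ≤ 0 → G s = 0) (hG1 : ∀ s, 0 < s → 0 < G s)
    (hG2 : ∀ s, 0 < s → s ≤ 4 * M8 → G s ≤ σ0 * deriv G s) (hO : 0 ≤ O)
    (hs : ∀ y ∈ ov X (closedBall 0 (R / 2)), y ∉ K → ‖V y‖ ≤ 10 * b ∨ ‖V y - e‖ ≤ 10 * b)
    (hr : ∀ y ∈ X, y ∉ K → R / 32 ≤ ‖y.1‖ → ‖y.1‖ ≤ R → ‖pp e (V y)‖ ≤ O) :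
    ∀ y ∈ X, y ∉ K → ‖y.1‖ ≤ R / 4 → ‖V y‖ ≤ 10 * b → ‖P y‖ * e ≤ 3 * CN * O := by
  have h1 := hL.num.1
  have h2 := hL.num.2
  have he : 0 < e := by linarith
  have hb : closedBall (0 : ℂ) (R / 2) ⊆ closedBall 0 R := closedBall_subset_closedBall (by linarith)
  have hnp : NP {y | y ∈ X ∧ ‖V y‖ ≤ 20 * b} K (closedBall 0 (R / 2)) :=
    np_part (hL.np.mono isClosed_closedBall hb)
      (fun y hy => (hL.an.1 y (ov_mono hb hy)).continuousAt.norm)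
      fun y hy hK a => by
        rcases hs y hy hK with c | c <;> linarith [(tri he.le (V y)).1]
  have hv : ov {y | y ∈ X ∧ ‖V y‖ ≤ 20 * b} (closedBall 0 (R / 2)) ⊆ ov X (closedBall 0 R) :=
    fun y hy => ⟨hy.1.1, hb hy.2⟩
  have h3 : ι * R ≤ t * (R / 2) := by nlinarith
  intro y hy hK hy1 hy2
  have := hB _ K P D0 G (deriv G) th (R / 2) hM (hM8.trans h3) hS.dev
    (fun z a c => hS.far z (by linarith) (Or.inl c)) (fun s => (hG s).hasDerivAt) hG0 hG1 hG2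
    hth.1 (fun s a => hth.2.1 s (by linarith)) hth.2.2.2 hnp (fun u hu => hL.up u (hv hu))
    (hL.an.2.mono hv) (fun u hu => hL.anB u hu.1)
    (fun u hu hk a => by
      obtain ⟨c1, c2, c3, c4⟩ := hL.lo u (hv hu) hk hu.1.2 a
      refine ⟨c1, c2, c3, fun d => ?_⟩
      obtain ⟨c5, c6⟩ := hU.mid u (hv hu) hk hu.1.2 a d
      exact ⟨c4 d, c5.trans h3, c6.trans (by gcongr; linarith)⟩)
    (fun u hu => hL.conv u (hv hu) hu.1.2)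
    (fun x0 a => by
      rw [show R / 2 / 8 = R / 16 by ring]
      exact NL0.wb_mono (hU.wb x0 (by linarith)) (by linarith))
    (3 * O / e) (by positivity)
    (fun u hu hk a c => by
      have c1 := hr u hu.1 hk (by linarith) (by linarith)
      have c2 := (hL.cmp u ⟨hu.1, mem_closedBall_zero_iff.2 (by linarith)⟩).1
      have c3 := (tri he.le (V u)).1
      have c4 : 4 / 5 * e ≤ ‖V u - e‖ := by linarith [hu.2]
      rw [norm_pp] at c1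
      rw [le_div_iff₀ he]
      nlinarith [mul_le_mul_of_nonneg_left c4 (norm_nonneg (V u)),
        mul_le_mul_of_nonneg_right c2 he.le])
    y ⟨hy, by linarith⟩ hK (by linarith)
  rw [← mul_div_assoc, le_div_iff₀ he] at this
  linarith

end W3N

open W3N in
theorem st_w3n : St_W3N := by
  obtain ⟨CN, hCN, HB⟩ := st_wbir st_nl2 st_mic1 all_nwb all_nl0r
  intro c0 CD h0 h1
  obtain ⟨L0, HB⟩ := HB c0 CD h0 h1
  refine ⟨L0, fun L M8 Cth hL hF h8 => ?_⟩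
  obtain ⟨Mw, hMw, σ0, hσ, HB⟩ := HB L M8 Cth hL hF h8
  refine ⟨10000 * (27 * CN + Mw + M8) * 32, by nlinarith, σ0, hσ, fun C0 => ?_⟩
  obtain ⟨ιw, hιw, HB⟩ := HB C0 1
  obtain ⟨ιn, hιn, HN⟩ := all_nl0r C0 1
  set ι := min (min ιw ιn) 1 / 2 with hι
  have i0 : 0 < ι := by positivity
  have i1 : 2 * ι ≤ ιw := by
    linarith [min_le_left (min ιw ιn) 1, min_le_left ιw ιn]
  have i2 : 2 * ι ≤ ιn := by
    linarith [min_le_left (min ιw ιn) 1, min_le_right ιw ιn]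
  have i3 : ι ≤ 1 / 2 := by linarith [min_le_right (min ιw ιn) 1]
  refine ⟨ι, i0, fun X K V P D0 G th x δ ρ e b y4 hx hδ hρ1 hM hS hth hG hG0 hG1 hG2 hWL hWU => ?_⟩
  set C := 27 * CN + Mw + M8 with hC
  have c1 : 1 ≤ C := by linarith
  have hρ : 0 < ρ := (mul_pos_iff_of_pos_left i0).1 (lt_of_lt_of_le (by positivity) hM)
  set R := ρ / (2 * δ) with hR
  have r0 : 0 < R := by positivity
  have r1 : ρ = 2 * δ * R := by rw [hR]; field_simp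
  have r2 : 160000 * C ≤ ι * R := by
    refine le_of_mul_le_mul_left ?_ (show 0 < 2 * δ by positivity)
    rw [r1] at hM; linarith
  have r3 : ι * R ≤ R / 2 := by nlinarith
  have b1 := hWL.num.1
  have b2 := hWL.num.2
  have he : 0 < e := by linarith
  -- the bounds on the inner disc for small levels
  have key : ∀ O : ℝ, 0 ≤ O → O ≤ 2 * b * e →
      (∀ y ∈ bc (wch x δ 0) ⁻¹' X, y ∉ bc (wch x δ 0) ⁻¹' K → R / 32 ≤ ‖y.1‖ → ‖y.1‖ ≤ R →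
        ‖pp e (V (bc (wch x δ 0) y))‖ ≤ O) →
      ∀ y ∈ bc (wch x δ 0) ⁻¹' X, y ∉ bc (wch x δ 0) ⁻¹' K → ‖y.1‖ ≤ R / 4 →
        (‖V (bc (wch x δ 0) y)‖ ≤ 10 * b ∧ ‖P (bc (wch x δ 0) y)‖ * e ≤ 3 * CN * O) ∨
        (‖V (bc (wch x δ 0) y) - e‖ ≤ 10 * b ∧ ‖pp e (V (bc (wch x δ 0) y))‖ ≤ 3 * O) := by
    intro O hO hO1 hr y hy hK hy1
    have hs : ∀ y ∈ ov (bc (wch x δ 0) ⁻¹' X) (closedBall 0 (R / 2)), y ∉ bc (wch x δ 0) ⁻¹' K →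
        ‖V (bc (wch x δ 0) y)‖ ≤ 10 * b ∨ ‖V (bc (wch x δ 0) y) - e‖ ≤ 10 * b := fun u hu hk =>
      sep b1 b2 ((stepA HN hWL hWU i0.le i2 r0 le_rfl
        (fun v hv a c d => (hr v hv a c d).trans hO1) u hu hk).trans (by linarith))
    rcases hs y ⟨hy, mem_closedBall_zero_iff.2 (by linarith)⟩ hK with a | a
    · exact Or.inl ⟨a, stepL HB hWL hWU i0.le i1 r0 (by linarith) (by linarith) hS hth hG hG0 hG1
        hG2 hO hs hr y hy hK hy1 a⟩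
    · exact Or.inr ⟨a, stepU HN hWL hWU i0.le i2 r0 hO hs hr y hy hK hy1 a⟩
  constructor
  · have := st_wconv (X \ K) (fun y => ‖pp e (V y)‖) x δ 0 ρ 0 C 32 0 hx hδ hρ hρ1 le_rfl
      (by norm_num) c1 (by norm_num) le_rfl (by rw [abs_zero, add_zero, r1]; nlinarith)
      fun O hO hr r _ hr2 y hy h2 h3 => ?_
    · rwa [abs_zero, add_zero] at this
    rw [Real.rpow_zero, mul_one]
    have hr' : ∀ y ∈ bc (wch x δ 0) ⁻¹' X, y ∉ bc (wch x δ 0) ⁻¹' K → R / 32 ≤ ‖y.1‖ →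
        ‖y.1‖ ≤ R → ‖pp e (V (bc (wch x δ 0) y))‖ ≤ O := fun u a c => hr u ⟨a, c⟩
    have d1 : 27 * CN * O ≤ C * O := by gcongr; linarith
    have d2 : 3 * O ≤ 27 * CN * O := by gcongr; linarith
    rcases le_total (2 * b * e) O with a | a
    · exact (stepA HN hWL hWU i0.le i2 r0 a hr' y
        ⟨hy.1, mem_closedBall_zero_iff.2 (h3.trans hr2)⟩ hy.2).trans (d2.trans d1)
    rcases le_total (R / 32) ‖y.1‖ with c | c
    · linarith [hr' y hy.1 hy.2 c (by linarith)]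
    rcases key O hO a hr' y hy.1 hy.2 (by linarith) with d | d
    · have d3 := (hWL.cmp y ⟨hy.1, mem_closedBall_zero_iff.2 (by linarith)⟩).2 h2
      have d4 := (tri he.le (V (bc (wch x δ 0) y))).2.1
      have d5 : ‖V (bc (wch x δ 0) y) - e‖ ≤ 9 / 8 * e := by linarith [d.1]
      have d6 := mul_le_mul d3 d5 (norm_nonneg _) (by positivity)
      rw [norm_pp]
      linarith [d.2]
    · linarith [d.2]
  · intro O hO hO1 hr y hy hK hy1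
    have d1 : 3 * CN * O ≤ 10000 * C * 32 * O := mul_le_mul_of_nonneg_right (by linarith) hO
    have d2 : 3 * O ≤ 3 * CN * O := mul_le_mul_of_nonneg_right (by linarith) hO
    have d3 : ρ / (8 * δ) = R / 4 := by rw [hR]; field_simp; norm_num
    refine (key O hO hO1 (fun u hu hk a c => ?_) y hy hK (by rwa [← d3])).imp
      (fun a => ⟨a.1, a.2.trans d1⟩) fun a => ⟨a.1, a.2.trans (d2.trans d1)⟩
    obtain ⟨f1, f2⟩ := Ring.wch_far hx hδ hρ1 c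
    have f3 := mul_le_mul_of_nonneg_left a hδ.le
    have f4 := mul_le_mul_of_nonneg_left c hδ.le
    refine hr _ hu hk ?_ (f2.trans (by linarith))
    refine le_trans ?_ f1
    rw [div_le_iff₀ (by positivity)]
    have f5 : 0 < δ * R := by positivity
    nlinarith

end Pool.Agent.Lib.SH
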