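import Pool.Agent.Lib.SH.Blue7
import Pool.Agent.Lib.SH.Win

open Set Filter Topology Metric Complex
open scoped ContDiff

noncomputable section

namespace Pool.Agent.Lib.SH

namespace BZ1

open Win

/-- inverse of the window chart -/
def ic (x : ℂ) (δ : ℝ) (z : ℂ) : ℂ := log (z / x) / (I * δ)

/-- the zone formula -/
def zf (L : ℝ) (D0 : ℂ → ℝ) (G th : ℝ → ℝ) (ζ : ℂ) : ℂ :=
  G (hgt L D0 ζ) * exp (I * (if ‖ζ - I‖ < 4 * Real.exp (-L / 2) then th (hgt L D0 ζ) else 0))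

theorem ic_wch {x : ℂ} {δ : ℝ} (hx : x ≠ 0) (hδ : 0 < δ) {ζ : ℂ} (h : δ * ‖ζ‖ ≤ 1 / 8) :
    ic x δ (wch x δ 0 ζ) = ζ := by
  have h1 : (δ : ℂ) ≠ 0 := ofReal_ne_zero.2 hδ.ne'
  have h2 := abs_le.1 ((mul_le_mul_of_nonneg_left (Complex.abs_re_le_norm ζ) hδ.le).trans h |>.trans'
    (le_of_eq (by rw [abs_mul, abs_of_pos hδ])) : |δ * ζ.re| ≤ 1 / 8)
  have h3 := Real.pi_gt_three
  have h4 : (I * (δ * ζ)).im = δ * ζ.re := by simp
  rw [ic, wch, mul_div_cancel_left₀ _ hx, ofReal_zero, zero_mul, add_zero,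
    log_exp (by rw [h4]; linarith [h2.1]) (by rw [h4]; linarith [h2.2])]
  field_simp

theorem wch0 (x : ℂ) (δ : ℝ) : wch x δ 0 0 = x := by simp [wch]

theorem dist0 {x : ℂ} {δ : ℝ} (hx : ‖x‖ = 1) (hδ : 0 < δ) {ζ : ℂ} (h : δ * ‖ζ‖ ≤ 1 / 8) :
    7 / 8 * (δ * ‖ζ‖) ≤ ‖wch x δ 0 ζ - x‖ ∧ ‖wch x δ 0 ζ - x‖ ≤ 9 / 8 * (δ * ‖ζ‖) := by
  have := wch_dist (x := x) (yr := 0) (z := ζ) (z' := 0) hδ (by rwa [sub_zero])
  rwa [wch0, hx, mul_one, sub_zero] at this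

theorem dep {x : ℂ} {δ : ℝ} (hx : ‖x‖ = 1) (hδ : 0 < δ) (ζ : ℂ) :
    -Real.log ‖wch x δ 0 ζ‖ / δ = ζ.im := by
  rw [log_wch hx, add_zero, mul_div_cancel_left₀ _ hδ.ne']

theorem q_le {L : ℝ} (hL : 10 ≤ L) : Real.exp (-L / 2) ≤ 1 / 16 := by
  have a1 := Real.quadratic_le_exp_of_nonneg (x := L / 2) (by linarith)
  rw [neg_div, Real.exp_neg, inv_le_comm₀ (Real.exp_pos _) (by norm_num)]
  nlinarith

theorem wr_pos {x : ℂ} {δ : ℝ} (hx : x ≠ 0) (hδ : 0 < δ) (L : ℝ) : 0 < wr x δ L := by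
  have := norm_pos_iff.2 (wch_ne (δ := δ) (yr := 0) hx I)
  unfold wr wp; positivity

theorem norm_zf {L : ℝ} {D0 : ℂ → ℝ} {G th : ℝ → ℝ} (hG : ∀ s, 0 ≤ G s) (ζ : ℂ) :
    ‖zf L D0 G th ζ‖ = G (hgt L D0 ζ) := by
  rw [zf, norm_mul, norm_real, Real.norm_of_nonneg (hG _), norm_exp]
  split_ifs <;> simp

section
variable {c0 CD M8 y4 L δ : ℝ} {x : ℂ} {D0 : ℂ → ℝ} {G th : ℝ → ℝ}

theorem far (h : Shape c0 CD M8 y4 L x δ 0 D0) (hM : 4 ≤ M8) (hy : y4 ≤ 1 / 4) (hL : 10 ≤ L) {ζ : ℂ}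
    (h1 : -1 / 2 ≤ ζ.im) (h2 : M8 ≤ ‖ζ‖ ∨ |ζ.im| ≤ y4) : zf L D0 G th ζ = G ζ.im := by
  have a1 : 3 / 4 ≤ ‖ζ - I‖ := by
    rcases h2 with h2 | h2
    · have := norm_sub_norm_le ζ I
      rw [norm_I] at this; linarith
    · have := abs_le.1 (Complex.abs_im_le_norm (ζ - I))
      rw [sub_im, I_im] at this
      linarith [this.1, le_abs_self ζ.im]
  rw [zf, if_neg (by linarith [q_le hL]), h.far ζ h1 h2]; simp

theorem round (h : Shape c0 CD M8 y4 L x δ 0 D0) (hx : x ≠ 0) (hδ : 0 < δ) (hL : 10 ≤ L) {ζ : ℂ}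
    (h0 : wch x δ 0 ζ ≠ wp x δ) (h1 : ‖ζ - I‖ ≤ 2 * Real.exp (-L / 2)) :
    hgt L D0 ζ = Real.log (‖wch x δ 0 ζ - wp x δ‖ / wr x δ L) / L := by
  have a1 := norm_pos_iff.2 (wch_ne (δ := δ) (yr := 0) hx I)
  have a2 := norm_pos_iff.2 (sub_ne_zero.2 h0)
  rw [h.round ζ (fun e => h0 (by rw [e, wp])) h1, wr, ← div_div _ _ (Real.exp _),
    Real.log_div (by unfold wp at *; positivity)
    (Real.exp_pos _).ne', Real.log_exp, wp]
  have : L ≠ 0 := by linarith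
  field_simp; ring

theorem sm (h : Shape c0 CD M8 y4 L x δ 0 D0) (hG : BG G th M8) (hL : 10 ≤ L) {ζ : ℂ} (h1 : 0 < ζ.im)
    (h2 : ζ ≠ I) : ContDiffAt ℝ ∞ (zf L D0 G th) ζ := by
  have ho : IsOpen {z : ℂ | -1 / 2 < z.im ∧ z ≠ I} :=
    (isOpen_lt continuous_const continuous_im).inter isOpen_ne
  have a1 := h.smooth.contDiffAt (ho.mem_nhds ⟨by linarith, h2⟩)
  have a2 : ∀ {f : ℝ → ℝ}, ContDiff ℝ ∞ f → ContDiffAt ℝ ∞ (fun z => (f (hgt L D0 z) : ℂ)) ζ :=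
    fun hf => ofRealCLM.contDiff.contDiffAt.comp ζ (hf.contDiffAt.comp ζ a1)
  have a3 : ContinuousAt (fun z : ℂ => ‖z - I‖) ζ := by fun_prop
  have q0 := Real.exp_pos (-L / 2)
  by_cases h3 : ‖ζ - I‖ < 4 * Real.exp (-L / 2)
  · refine ((a2 hG.smooth).mul (contDiffAt_const.mul (a2 hG.ths) (f := fun _ => I)).cexp).congr_of_eventuallyEq ?_
    filter_upwards [a3.eventually (gt_mem_nhds h3)] with z hz
    rw [zf, if_pos hz]
  · refine (a2 hG.smooth).congr_of_eventuallyEq ?_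
    filter_upwards [a3.eventually (lt_mem_nhds (show 2 * Real.exp (-L / 2) < ‖ζ - I‖ by linarith))]
      with z hz
    rw [zf]
    split_ifs with h4
    · rw [hG.th0 _ (h.mid z hz.le (by linarith [q_le hL]))]; simp
    · simp

end

end BZ1

open BZ1 Win in
theorem st_bz1 : St_BZ1 := by
  classical
  intro W _ x c0 CD δ L M8 y4 D0 G th hW hG
  obtain ⟨hM, hy0, hy, hL, hδ, hMδ⟩ := hW.num
  have hx := hW.unit
  have hx0 : ∀ k, x k ≠ 0 := fun k => ne0 (hx k)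
  have hδ1 : δ ≤ 1 / 256 := by nlinarith
  have hMδ1 : 4 * δ ≤ M8 * δ := mul_le_mul_of_nonneg_right hM hδ.le
  have q0 := Real.exp_pos (-L / 2)
  have q1 := q_le hL
  have hG0 : ∀ s, 0 ≤ G s := fun s => by
    rcases le_or_gt s 0 with h | h
    · rw [hG.zero s h]
    · exact (hG.pos s h).le
  have hGm : Monotone G := monotone_of_deriv_nonneg (hG.smooth.differentiable (by simp)) hG.mono
  obtain ⟨Bw, P1, P2⟩ : ∃ Bw : ℂ → ℂ, (∀ k z, ‖z - x k‖ < 2 * M8 * δ → ‖z‖ < 1 →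
      Bw z = if z = wp (x k) δ then 0 else zf L (D0 k) G th (ic (x k) δ z)) ∧
      ∀ z, (∀ k, ¬ (‖z - x k‖ < 2 * M8 * δ ∧ ‖z‖ < 1)) → Bw z = G (-Real.log ‖z‖ / δ) := by
    refine ⟨fun z => if h : ∃ k, ‖z - x k‖ < 2 * M8 * δ ∧ ‖z‖ < 1 then
      (if z = wp (x h.choose) δ then 0 else zf L (D0 h.choose) G th (ic (x h.choose) δ z))
      else G (-Real.log ‖z‖ / δ), fun k z h1 h2 => ?_, fun z h => dif_neg (not_exists.2 h)⟩
    have h : ∃ k, ‖z - x k‖ < 2 * M8 * δ ∧ ‖z‖ < 1 := ⟨k, h1, h2⟩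
    have h3 : h.choose = k := by
      by_contra h4
      have a1 := hW.sep _ _ h4
      have a2 := norm_sub_le (z - x k) (z - x h.choose)
      rw [sub_sub_sub_cancel_left] at a2
      linarith [h.choose_spec.1]
    simp only [dif_pos h, h3]
  have hch : ∀ k z, ‖z - x k‖ < 2 * M8 * δ → ∃ ζ, wch (x k) δ 0 ζ = z ∧ δ * ‖ζ‖ ≤ 1 / 8 := by
    intro k z h
    have := wch_surj (yr := 0) (hx0 k) hδ 0 (z := z) (by rw [wch0, hx]; linarith)
    simpa using this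
  have hlt : ∀ k ζ, ‖wch (x k) δ 0 ζ‖ < 1 ↔ 0 < ζ.im := fun k ζ => by
    rw [norm_wch (hx k), Real.exp_lt_one_iff, add_zero, neg_lt_zero, mul_pos_iff_of_pos_left hδ]
  have hZ : ∀ k ζ, δ * ‖ζ‖ ≤ 1 / 8 → ‖wch (x k) δ 0 ζ - x k‖ < 2 * M8 * δ → 0 < ζ.im → ζ ≠ I →
      wch (x k) δ 0 ζ ≠ wp (x k) δ ∧ Bw (wch (x k) δ 0 ζ) = zf L (D0 k) G th ζ := by
    intro k ζ h1 h2 h3 h4
    have a1 : wch (x k) δ 0 ζ ≠ wp (x k) δ := fun e => h4 (by
      rw [← ic_wch (hx0 k) hδ h1, e, wp, ic_wch (hx0 k) hδ (by rw [norm_I]; linarith)])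
    exact ⟨a1, by rw [P1 k _ h2 ((hlt k ζ).2 h3), if_neg a1, ic_wch (hx0 k) hδ h1]⟩
  have hpure : ∀ z, ((∀ k, 3 / 2 * M8 * δ ≤ ‖z - x k‖) ∨ -Real.log ‖z‖ ≤ y4 * δ) →
      Bw z = G (-Real.log ‖z‖ / δ) := by
    intro z h
    by_cases h1 : ∀ k, ¬ (‖z - x k‖ < 2 * M8 * δ ∧ ‖z‖ < 1)
    · exact P2 z h1
    push Not at h1
    obtain ⟨k, h1, h2⟩ := h1
    obtain ⟨ζ, rfl, h3⟩ := hch k z h1
    have a1 := (hlt k ζ).1 h2
    have a2 : M8 ≤ ‖ζ‖ ∨ |ζ.im| ≤ y4 := h.imp (fun a => by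
      have := (a k).trans (dist0 (hx k) hδ h3).2
      nlinarith) fun a => by
        rw [← div_le_iff₀ hδ, dep (hx k) hδ] at a
        rwa [abs_of_pos a1]
    have a3 : ζ ≠ I := fun e => by
      rw [e, norm_I, I_im, abs_one] at a2
      rcases a2 with a | a <;> linarith
    rw [(hZ k ζ h3 h1 a1 a3).2, far (hW.shape k) hM hy hL (by linarith) a2, dep (hx k) hδ]
  have hwin : ∀ k, ∀ ζ : ℂ, δ * ‖ζ‖ ≤ 1 / 8 →
      (∀ k', k' ≠ k → 2 * M8 * δ ≤ ‖wch (x k) δ 0 ζ - x k'‖) → 0 ≤ ζ.im → ζ ≠ I →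
      Bw (wch (x k) δ 0 ζ) = zf L (D0 k) G th ζ := by
    intro k ζ h1 h2 h3 h4
    by_cases h5 : ‖wch (x k) δ 0 ζ - x k‖ < 2 * M8 * δ ∧ 0 < ζ.im
    · exact (hZ k ζ h1 h5.1 h5.2 h4).2
    rw [P2 _ fun k' h6 => by
      by_cases e : k' = k
      · subst e; exact h5 ⟨h6.1, (hlt _ ζ).1 h6.2⟩
      · linarith [h2 k' e, h6.1], dep (hx k) hδ, far (hW.shape k) hM hy hL (by linarith)]
    rcases not_and_or.1 h5 with a | a
    · left
      have := (not_lt.1 a).trans (dist0 (hx k) hδ h1).2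
      nlinarith
    · right
      rw [le_antisymm (not_lt.1 a) h3, abs_zero]; exact hy0.le
  have hwp : ∀ k, Bw (wp (x k) δ) = 0 := fun k => by
    have a1 := (dist0 (hx k) hδ (ζ := I) (by rw [norm_I]; linarith)).2
    rw [norm_I] at a1
    rw [P1 k (wp (x k) δ) (by unfold wp; linarith) ((hlt k I).2 (by simp)), if_pos rfl]
  have htri : ∀ z, ∃ h, ‖Bw z‖ = G h ∧ (h = -Real.log ‖z‖ / δ ∨ (h ≤ -Real.log ‖z‖ / δ + 1 ∧
      (y4 / 2 ≤ h ∨ ∃ k, h = Real.log (‖z - wp (x k) δ‖ / wr (x k) δ L) / L))) := by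
    intro z
    by_cases h1 : ∀ k, ¬ (‖z - x k‖ < 2 * M8 * δ ∧ ‖z‖ < 1)
    · exact ⟨_, by rw [P2 z h1, norm_real, Real.norm_of_nonneg (hG0 _)], Or.inl rfl⟩
    push Not at h1
    obtain ⟨k, h1, h2⟩ := h1
    obtain ⟨ζ, rfl, h3⟩ := hch k z h1
    have a1 := (hlt k ζ).1 h2
    rw [dep (hx k) hδ]
    by_cases e : ζ = I
    · subst e
      refine ⟨0, by rw [← wp, hwp, norm_zero, hG.zero 0 le_rfl], Or.inr ⟨by simp, Or.inr ⟨k, ?_⟩⟩⟩
      simp [wp]
    obtain ⟨a2, a3⟩ := hZ k ζ h3 h1 a1 e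
    refine ⟨_, by rw [a3, norm_zf hG0], ?_⟩
    by_cases a4 : ζ.im ≤ y4
    · exact Or.inl ((hW.shape k).far ζ (by linarith) (Or.inr (by rwa [abs_of_pos a1])))
    refine Or.inr ⟨(hW.shape k).le ζ a1.le e, ?_⟩
    rcases le_total (2 * Real.exp (-L / 2)) ‖ζ - I‖ with a5 | a5
    · exact Or.inl ((hW.shape k).low ζ (not_le.1 a4).le a5)
    · exact Or.inr ⟨k, round (hW.shape k) (hx0 k) hδ hL a2 a5⟩
  have hL0 : 0 < L := by linarith
  have hport : ∀ k z, ‖z - wp (x k) δ‖ ≤ 2 * wr (x k) δ L →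
      Bw z = G (Real.log (‖z - wp (x k) δ‖ / wr (x k) δ L) / L) * exp (Real.pi / 4 * I) := by
    intro k z h
    by_cases e : z = wp (x k) δ
    · rw [e, hwp]; simp [hG.zero 0 le_rfl]
    have a0 := norm_pos_iff.2 (wch_ne (δ := δ) (yr := 0) (hx0 k) I)
    have a1 : Real.exp (-L) = Real.exp (-L / 2) * Real.exp (-L / 2) := by
      rw [← Real.exp_add]; congr 1; ring
    have h' := h
    rw [wr, a1, wp] at h'
    set q := Real.exp (-L / 2)
    set n := ‖wch (x k) δ 0 I‖ with hn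
    have a2 : δ * (q * q) ≤ 1 / 256 := by nlinarith [mul_pos q0 q0]
    obtain ⟨ζ, rfl, a3⟩ := wch_surj (yr := 0) (hx0 k) hδ I (z := z) (by nlinarith)
    have a4 := (wch_dist (x := x k) (yr := 0) hδ a3).1.trans h'
    have a5 : ‖ζ - I‖ ≤ q := by
      by_contra a6
      have a7 := mul_lt_mul_of_pos_left (not_le.1 a6) (mul_pos hδ a0)
      have a8 := mul_le_mul_of_nonneg_left q1 (mul_pos (mul_pos hδ a0) q0).le
      nlinarith [mul_pos (mul_pos hδ a0) q0]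
    have a6 := norm_sub_norm_le ζ I
    rw [norm_I] at a6
    have a7 : δ * ‖ζ‖ ≤ δ * 2 := mul_le_mul_of_nonneg_left (by linarith) hδ.le
    have a8 := abs_le.1 (Complex.abs_im_le_norm (ζ - I))
    rw [sub_im, I_im] at a8
    have a9 := round (hW.shape k) (hx0 k) hδ hL e (by linarith)
    rw [hwin k ζ (by linarith) (fun k' hk => by
      have b1 := hW.sep k k' hk.symm
      have b2 := norm_sub_le (wch (x k) δ 0 ζ - x k') (wch (x k) δ 0 ζ - x k)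
      rw [sub_sub_sub_cancel_left] at b2
      linarith [(dist0 (hx k) hδ (ζ := ζ) (by linarith)).2]) (by linarith [a8.1])
      (fun e' => e (by rw [e', wp])), zf, if_pos (by linarith), hG.th1, a9]
    · congr 2; push_cast; ring
    · rw [a9, div_le_iff₀ hL0]
      have b1 := wr_pos (hx0 k) hδ L
      have b2 := Real.log_le_self (div_nonneg (norm_nonneg (wch (x k) δ 0 ζ - wp (x k) δ)) b1.le)
      have b3 := (div_le_iff₀ b1).2 h
      linarith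
  have hz2 : ∀ k z, ‖z - wp (x k) δ‖ ≤ wr (x k) δ L → Bw z = 0 := fun k z h => by
    have b1 := wr_pos (hx0 k) hδ L
    rw [hport k z (by linarith), hG.zero _ (div_nonpos_of_nonpos_of_nonneg
      (Real.log_nonpos (by positivity) ((div_le_one b1).2 h)) hL0.le)]
    simp
  refine ⟨Bw, fun z hz => ContDiffAt.contDiffWithinAt ?_, fun z _ h => hpure z
    (h.imp_left fun a k => by linarith [a k]), hwin, hport, fun z hz => ⟨fun h => ?_, fun h => ?_⟩,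
    fun s s0 s1 z _ h => ?_, fun z _ _ => ?_⟩
  · have hz' : z ≠ 0 := hz
    have c1 : ContDiffAt ℝ ∞ (fun v : ℂ => -Real.log ‖v‖) z :=
      ((contDiffAt_norm ℝ hz').log (norm_ne_zero_iff.2 hz')).neg
    by_cases h : (∀ k, 3 / 2 * M8 * δ < ‖z - x k‖) ∨ -Real.log ‖z‖ < y4 * δ
    · refine (ofRealCLM.contDiff.contDiffAt.comp z
        (hG.smooth.contDiffAt.comp z (c1.div_const δ))).congr_of_eventuallyEq ?_
      rcases h with h | h
      · filter_upwards [eventually_all.2 fun k =>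
          (show ContinuousAt (fun v : ℂ => ‖v - x k‖) z by fun_prop).eventually (lt_mem_nhds (h k))]
          with v hv using hpure v (Or.inl fun k => (hv k).le)
      · filter_upwards [c1.continuousAt.eventually (gt_mem_nhds h)] with v hv using
          hpure v (Or.inr hv.le)
    push Not at h
    obtain ⟨⟨k, h1⟩, h2⟩ := h
    have h3 : ‖z - x k‖ < 2 * M8 * δ := by linarith
    by_cases e : z = wp (x k) δ
    · refine (contDiffAt_const (c := (0 : ℂ))).congr_of_eventuallyEq ?_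
      filter_upwards [closedBall_mem_nhds z (wr_pos (hx0 k) hδ L)] with v hv
      exact hz2 k v (by rw [← e]; exact mem_closedBall_iff_norm.1 hv)
    obtain ⟨ζ, rfl, h4⟩ := hch k z h3
    rw [← le_div_iff₀ hδ, dep (hx k) hδ] at h2
    have h5 : 0 < ζ.im := by linarith
    have c2 : AnalyticAt ℂ (ic (x k) δ) (wch (x k) δ 0 ζ) := by
      refine (analyticAt_id.div_const.clog ?_).div_const
      have b1 : id (wch (x k) δ 0 ζ) / x k = 1 + (wch (x k) δ 0 ζ - x k) / x k := by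
        have := hx0 k
        simp only [id]; field_simp; ring
      rw [b1]
      exact mem_slitPlane_of_norm_lt_one (by rw [norm_div, hx, div_one]; linarith)
    have c3 := sm (hW.shape k) hG hL h5 fun e' => e (by rw [e', wp])
    rw [← ic_wch (hx0 k) hδ h4] at c3
    refine (c3.comp _ (c2.contDiffAt.restrict_scalars ℝ)).congr_of_eventuallyEq ?_
    filter_upwards [(show ContinuousAt (fun v : ℂ => ‖v - x k‖) _ by fun_prop).eventually
      (gt_mem_nhds h3), continuous_norm.continuousAt.eventually (gt_mem_nhds ((hlt k ζ).2 h5)),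
      eventually_ne_nhds e] with v b1 b2 b3
    rw [P1 k v b1 b2, if_neg b3]; rfl
  · obtain ⟨t, a1, a2⟩ := htri z
    have a3 : t ≤ 0 := by
      by_contra a4
      rw [h, norm_zero] at a1
      linarith [hG.pos t (not_le.1 a4)]
    rcases a2 with a2 | ⟨-, a2 | ⟨k, a2⟩⟩
    · left
      rw [a2, div_nonpos_iff] at a3
      by_contra a4
      have := Real.log_neg (norm_pos_iff.2 hz) (not_le.1 a4)
      rcases a3 with a | a <;> linarith [a.1, a.2]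
    · linarith
    · refine Or.inr ⟨k, ?_⟩
      by_contra a4
      have := div_pos (Real.log_pos ((one_lt_div (wr_pos (hx0 k) hδ L)).2 (not_le.1 a4))) hL0
      linarith
  · rcases h with h | ⟨k, h⟩
    · rw [P2 z fun k a => by linarith [a.2], hG.zero _ (div_nonpos_of_nonpos_of_nonneg
        (neg_nonpos.2 (Real.log_nonneg h)) hδ.le)]
      simp
    · exact hz2 k z h
  · obtain ⟨t, a1, a2⟩ := htri z
    have a3 : t < s := hGm.reflect_lt (a1 ▸ h)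
    rcases a2 with a2 | ⟨-, a2 | ⟨k, a2⟩⟩
    · left; rwa [a2, div_lt_iff₀ hδ] at a3
    · linarith
    · refine Or.inr ⟨k, ?_⟩
      have b1 := wr_pos (hx0 k) hδ L
      by_contra a4
      have b2 : Real.exp (L * s) ≤ ‖z - wp (x k) δ‖ / wr (x k) δ L := by
        rw [le_div_iff₀ b1]; linarith
      have b3 := (Real.le_log_iff_exp_le ((Real.exp_pos _).trans_le b2)).2 b2
      rw [a2, div_lt_iff₀ hL0] at a3
      linarith
  · obtain ⟨t, a1, a2⟩ := htri z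
    rw [a1]
    refine hGm ?_
    rcases a2 with a2 | a2
    · linarith
    · exact a2.1

open BZ1 Win in
theorem st_bz3 : St_BZ3 := by
  intro W _ x c0 CD δ L M8 y4 D0 G th Bw c r U u hW _ hB hr _ hc hu v hv
  have hr' : (r : ℂ) ≠ 0 := ofReal_ne_zero.2 hr.ne'
  have c1 : ContDiff ℝ ∞ fun v : ℂ => (v - c) / r := (contDiff_id.sub contDiff_const).div_const _
  have h0 : (v - c) / r ≠ 0 := div_ne_zero (sub_ne_zero.2 fun e => hc (e ▸ hv)) hr'
  have hz : (∀ᶠ z in 𝓝 ((v - c) / r), 1 ≤ ‖z‖ ∨ ∃ k, ‖z - wp (x k) δ‖ ≤ wr (x k) δ L) →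
      ContDiffAt ℝ ∞ (fun v => Bw ((v - c) / r) * u v) v := fun h => by
    refine (contDiffAt_const (c := (0 : ℂ))).congr_of_eventuallyEq ?_
    filter_upwards [c1.continuous.continuousAt.eventually (h.and (eventually_ne_nhds h0))] with w hw
    rw [(hB.zero _ hw.2).2 hw.1, zero_mul]
  refine ContDiffAt.contDiffWithinAt ?_
  by_cases h1 : ‖v - c‖ ≤ r
  swap
  · have : 1 < ‖(v - c) / r‖ := by
      rw [norm_div, norm_real, Real.norm_of_nonneg hr.le, one_lt_div hr]; exact not_le.1 h1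
    exact hz ((continuous_norm.continuousAt.eventually (lt_mem_nhds this)).mono fun z a => Or.inl a.le)
  by_cases h2 : ∀ k, v ≠ c + r * wp (x k) δ
  · exact ((hB.smooth.contDiffAt (isOpen_ne.mem_nhds h0)).comp v c1.contDiffAt).mul (hu v hv h1 h2)
  push Not at h2
  obtain ⟨k, h2⟩ := h2
  have h3 : (v - c) / r = wp (x k) δ := by rw [h2]; field_simp; ring
  refine hz ?_
  rw [h3]
  filter_upwards [closedBall_mem_nhds _ (wr_pos (ne0 (hW.unit k)) hW.num.2.2.2.2.1 L)] with z a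
  exact Or.inr ⟨k, mem_closedBall_iff_norm.1 a⟩

end Pool.Agent.Lib.SH
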