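import Pool.Agent.Lib.SH.Blue7
import Pool.Agent.Lib.SH.Win
import Pool.Agent.Lib.SH.B_CSM
import Pool.Agent.Lib.SH.B_LBZ

/-!
The birth wall is totally real in the zones, and has a barrier at the saddles.
-/

open Set Filter Topology Metric
open scoped ContDiff

noncomputable section

namespace Pool.Agent.Lib.SH

namespace BZ2

variable {W : Type} {x : W → ℂ} {c0 CD δ L M8 y4 : ℝ} {D0 : W → ℂ → ℝ} {G th : ℝ → ℝ}
  {Bw : ℂ → ℂ}

theorem wch_zero (x : ℂ) (δ : ℝ) : wch x δ 0 0 = x := by simp [wch]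

theorem exp_small (hL : 10 ≤ L) : 4 * Real.exp (-L / 2) < 1 / 2 := by
  have h1 : Real.exp (-L / 2) ≤ Real.exp (-5) := Real.exp_le_exp.2 (by linarith)
  have h2 : Real.exp (-5) < 1 / 8 := by
    rw [Real.exp_neg, inv_lt_comm₀ (Real.exp_pos _) (by norm_num)]
    have := Real.quadratic_le_exp_of_nonneg (x := 5) (by norm_num)
    norm_num at this ⊢
    linarith
  linarith

/-- local form of the wall in the chart of a window -/
theorem local_form (hW : BW x c0 CD δ L M8 y4 D0) (hG : BG G th M8)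
    (hB : BZ x δ L M8 y4 D0 G th Bw) (k : W) {ζ : ℂ} (h1 : ‖ζ‖ ≤ 3 * M8) (h2 : 0 < ζ.im)
    (h3 : ζ ≠ Complex.I) : ∃ θ : ℝ → ℝ, ContDiff ℝ ∞ θ ∧
      (2 * Real.exp (-L / 2) < ‖ζ - Complex.I‖ → θ = 0) ∧
      ∀ᶠ ξ in 𝓝 ζ, Bw (wch (x k) δ 0 ξ) =
        G (hgt L (D0 k) ξ) * Complex.exp (Complex.I * θ (hgt L (D0 k) ξ)) := by
  obtain ⟨hM, -, -, hL, hδ, hMδ⟩ := hW.num
  have e1 : ∀ᶠ ξ in 𝓝 ζ, ‖ξ‖ < 4 * M8 :=
    continuous_norm.continuousAt.eventually_lt continuousAt_const (by linarith)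
  have e2 : ∀ᶠ ξ in 𝓝 ζ, 0 < ξ.im :=
    continuousAt_const.eventually_lt Complex.continuous_im.continuousAt h2
  have e3 : ∀ᶠ ξ in 𝓝 ζ, ξ ≠ Complex.I := isOpen_ne.mem_nhds h3
  have e4 : ∀ᶠ ξ in 𝓝 ζ, Bw (wch (x k) δ 0 ξ) = G (hgt L (D0 k) ξ) * Complex.exp (Complex.I *
      (if ‖ξ - Complex.I‖ < 4 * Real.exp (-L / 2) then th (hgt L (D0 k) ξ) else 0)) := by
    filter_upwards [e1, e2, e3] with ξ a1 a2 a3
    have a4 : δ * ‖ξ‖ ≤ 1 / 8 := by nlinarith
    refine hB.win k ξ a4 (fun k' hk => ?_) a2.le a3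
    have a5 := (Win.wch_dist (x := x k) (yr := 0) hδ (z := ξ) (z' := 0) (by simpa using a4)).2
    rw [wch_zero, hW.unit k, sub_zero] at a5
    have a6 := hW.sep k k' (Ne.symm hk)
    have a7 := norm_sub_le_norm_sub_add_norm_sub (x k) (wch (x k) δ 0 ξ) (x k')
    rw [norm_sub_rev (x k) (wch (x k) δ 0 ξ)] at a7
    nlinarith
  have hc : ContinuousAt (fun ξ : ℂ => ‖ξ - Complex.I‖) ζ := by fun_prop
  by_cases h : 2 * Real.exp (-L / 2) < ‖ζ - Complex.I‖
  · refine ⟨0, contDiff_const, fun _ => rfl, ?_⟩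
    filter_upwards [e4, continuousAt_const.eventually_lt hc h] with ξ a1 a2
    rw [a1]
    split_ifs with a3
    · rw [hG.th0 _ ((hW.shape k).mid ξ a2.le (by linarith [exp_small hL]))]; simp
    · simp
  · refine ⟨th, hG.ths, fun h' => absurd h' h, ?_⟩
    have h4 : ‖ζ - Complex.I‖ < 4 * Real.exp (-L / 2) := by
      linarith [not_lt.1 h, Real.exp_pos (-L / 2)]
    filter_upwards [e4, hc.eventually_lt continuousAt_const h4] with ξ a1 a2
    rw [a1, if_pos a2]

theorem hgt_diff (hW : BW x c0 CD δ L M8 y4 D0) (k : W) {ζ : ℂ} (h2 : 0 < ζ.im)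
    (h3 : ζ ≠ Complex.I) : DifferentiableAt ℝ (hgt L (D0 k)) ζ := by
  have ho : IsOpen {z : ℂ | -1 / 2 < z.im ∧ z ≠ Complex.I} :=
    (isOpen_lt continuous_const Complex.continuous_im).inter isOpen_ne
  exact ((hW.shape k).smooth.contDiffAt (ho.mem_nhds ⟨by linarith, h3⟩)).differentiableAt
    (by simp)

theorem part1 (hW : BW x c0 CD δ L M8 y4 D0) (hG : BG G th M8) (hB : BZ x δ L M8 y4 D0 G th Bw)
    {c : ℂ} {r : ℝ} (hr : 0 < r) (z : ℂ) (f w u : ℂ → ℂ) (h0 : Bw z ≠ 0)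
    (hk : ∃ k, ‖z - x k‖ ≤ 2 * M8 * δ) (hs : ∀ k, z ≠ ws (x k) δ L)
    (hw : AnalyticAt ℂ w (c + r * z)) (hu : AnalyticAt ℂ u (c + r * z)) (hu0 : u (c + r * z) ≠ 0)
    (hf : ∀ᶠ v in 𝓝 (c + r * z), f v = w v + Bw ((v - c) / r) * u v) :
    dbar f (c + r * z) ≠ 0 := by
  obtain ⟨hM, -, -, hL, hδ, hMδ⟩ := hW.num
  obtain ⟨k, hk⟩ := hk
  have hx := hW.unit k
  have hx0 := Win.ne0 hx
  have hr0 : (r : ℂ) ≠ 0 := Complex.ofReal_ne_zero.2 hr.ne'
  obtain ⟨ζ, rfl, hζ⟩ := Win.wch_surj (x := x k) (yr := 0) hx0 hδ 0 (z := z)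
    (by rw [wch_zero, hx]; linarith)
  have hz0 := Win.wch_ne (δ := δ) (yr := 0) hx0 ζ
  have a5 := (Win.wch_dist (x := x k) (yr := 0) hδ hζ).1
  rw [wch_zero, hx, sub_zero] at a5
  have h1 : ‖ζ‖ ≤ 3 * M8 := by nlinarith
  have hne := fun h => h0 ((hB.zero _ hz0).2 h)
  have h2 : 0 < ζ.im := by
    by_contra h
    refine hne (Or.inl ?_)
    rw [Win.norm_wch hx]
    exact Real.one_le_exp (by nlinarith [not_lt.1 h])
  have h3 : ζ ≠ Complex.I := by
    rintro rfl
    refine hne (Or.inr ⟨k, ?_⟩)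
    simp only [wp, sub_self, norm_zero, wr]
    positivity
  obtain ⟨θ, hθ, -, hloc⟩ := local_form hW hG hB k h1 h2 h3
  set H := hgt L (D0 k) with hH
  have hH0 : 0 < H ζ := by
    by_contra h
    apply h0
    rw [hloc.self_of_nhds, hG.zero _ (not_lt.1 h)]; simp
  have hH1 : H ζ ≤ 4 * M8 := by
    have := (hW.shape k).le ζ h2.le h3
    have h4 := (le_abs_self _).trans (Complex.abs_im_le_norm ζ)
    linarith
  have hreg : fderiv ℝ H ζ ≠ 0 :=
    (hW.shape k).reg ζ (by linarith) h3 hH0 fun h => hs k (by rw [h]; rfl)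
  set b : ℂ → ℂ := fun ξ => c + r * wch (x k) δ 0 ξ with hb
  have hba : AnalyticAt ℂ b ζ := analyticAt_const.add (analyticAt_const.mul (Win.an_wch _ _ _ _))
  have hbd : deriv b ζ ≠ 0 := by
    rw [(((Win.hasDerivAt_wch (x k) δ 0 ζ).const_mul (r : ℂ)).const_add c).deriv]
    exact mul_ne_zero hr0 (mul_ne_zero hz0
      (mul_ne_zero Complex.I_ne_zero (Complex.ofReal_ne_zero.2 hδ.ne')))
  have dG : HasDerivAt G (deriv G (H ζ)) (H ζ) :=
    (hG.smooth.differentiable (by simp) _).hasDerivAt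
  have dθ : HasDerivAt θ (deriv θ (H ζ)) (H ζ) := (hθ.differentiable (by simp) _).hasDerivAt
  have dE : HasDerivAt (fun s : ℝ => (G s : ℂ) * Complex.exp (Complex.I * θ s))
      ((((deriv G (H ζ) : ℝ) : ℂ) + Complex.I * (G (H ζ) * deriv θ (H ζ) : ℝ)) *
        Complex.exp (Complex.I * θ (H ζ))) (H ζ) := by
    have := dG.ofReal_comp.mul (dθ.ofReal_comp.const_mul Complex.I).cexp
    refine this.congr_deriv ?_
    push_cast; ring
  have hE : (((deriv G (H ζ) : ℝ) : ℂ) + Complex.I * (G (H ζ) * deriv θ (H ζ) : ℝ)) ≠ 0 := by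
    intro h
    have := congrArg Complex.re h
    simp at this
    exact (hG.strict _ hH0 hH1).ne' this
  have key := st_dbs.1 Unit H (fun _ s => (G s : ℂ) * Complex.exp (Complex.I * θ s))
    (fun _ => (((deriv G (H ζ) : ℝ) : ℂ) + Complex.I * (G (H ζ) * deriv θ (H ζ) : ℝ)) *
        Complex.exp (Complex.I * θ (H ζ))) (fun _ ξ => u (b ξ)) (fun ξ => f (b ξ))
    (fun ξ => w (b ξ)) ζ (hgt_diff hW k h2 h3) hreg (hw.comp_of_eq hba rfl)
    (fun _ => ⟨dE, hu.comp_of_eq hba rfl⟩) (by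
      filter_upwards [hba.continuousAt.eventually hf, hloc] with ξ a1 a2
      rw [a1, Finset.univ_unique, Finset.sum_singleton, ← a2]
      congr 3
      simp only [hb]; field_simp; ring)
    (by
      rw [Finset.univ_unique, Finset.sum_singleton]
      exact mul_ne_zero (mul_ne_zero hE (Complex.exp_ne_zero _)) hu0)
  have hfd : DifferentiableAt ℝ f (b ζ) := by
    refine DifferentiableAt.congr_of_eventuallyEq ?_ hf
    have d1 : DifferentiableAt ℝ Bw ((b ζ - c) / r) := by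
      have : (b ζ - c) / r = wch (x k) δ 0 ζ := by simp only [hb]; field_simp; ring
      rw [this]
      exact (hB.smooth.contDiffAt (isOpen_ne.mem_nhds hz0)).differentiableAt (by simp)
    have d2 : DifferentiableAt ℝ (fun v : ℂ => (v - c) / r) (b ζ) := by fun_prop
    exact (hw.differentiableAt.restrictScalars ℝ).add
      ((d1.comp (b ζ) d2).mul (hu.differentiableAt.restrictScalars ℝ))
  exact (st_dbs.2.2.2.1 f b ζ hba hbd hfd).1 key.2

/-- the logarithm of the profile grows at a positive rate -/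
theorem log_rate (hG : BG G th M8) {a b : ℝ} (ha : 0 < a) (hab : a ≤ b) (hb : b ≤ 4 * M8) :
    ContinuousOn (fun s => Real.log (G s)) (Icc a b) ∧ ∃ c > 0, ∀ u ∈ Icc a b, ∀ t ∈ Icc a b,
      u ≤ t → c * (t - u) ≤ Real.log (G t) - Real.log (G u) := by
  have h0 : ∀ s ∈ Icc a b, G s ≠ 0 := fun s hs => (hG.pos s (ha.trans_le hs.1)).ne'
  have h1 : ContinuousOn (fun s => Real.log (G s)) (Icc a b) :=
    hG.smooth.continuous.continuousOn.log h0
  have h2 : ContinuousOn (fun s => deriv G s / G s) (Icc a b) :=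
    (hG.smooth.continuous_deriv (by simp)).continuousOn.div hG.smooth.continuous.continuousOn h0
  obtain ⟨s0, hs0, hmin⟩ := isCompact_Icc.exists_isMinOn (nonempty_Icc.2 hab) h2
  have hd : ∀ s ∈ Icc a b, HasDerivAt (fun s => Real.log (G s)) (deriv G s / G s) s :=
    fun s hs => (hG.smooth.differentiable (by simp) s).hasDerivAt.log (h0 s hs)
  refine ⟨h1, deriv G s0 / G s0, div_pos (hG.strict _ (ha.trans_le hs0.1) (hs0.2.trans hb))
    (hG.pos _ (ha.trans_le hs0.1)), fun u hu t ht hut => ?_⟩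
  refine (convex_Icc a b).mul_sub_le_image_sub_of_le_deriv h1
    (fun s hs => (hd s (interior_subset hs)).differentiableAt.differentiableWithinAt)
    (fun s hs => ?_) u hu t ht hut
  rw [(hd s (interior_subset hs)).deriv]
  exact hmin (interior_subset hs)

theorem sad_facts (hL : 10 ≤ L) : 0 < Real.sqrt (1 - 2 / L) ∧ Real.sqrt (1 - 2 / L) ≤ 1 := by
  have h1 : 2 / L ≤ 1 / 5 := by rw [div_le_iff₀ (by linarith)]; linarith
  have h2 : 0 ≤ 2 / L := by positivity
  exact ⟨Real.sqrt_pos.2 (by linarith), Real.sqrt_le_one.2 (by linarith)⟩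

theorem part2 (hc0 : 0 < c0) (hF : LocF c0 CD L) (hW : BW x c0 CD δ L M8 y4 D0) (hG : BG G th M8)
    (hB : BZ x δ L M8 y4 D0 G th Bw) {c : ℂ} {r : ℝ} (hr : 0 < r) (k : W) :
    Bw (ws (x k) δ L) ≠ 0 ∧ ‖ws (x k) δ L - x k‖ ≤ 2 * δ ∧
    ∀ (S : Set E) (f w u : ℂ → ℂ), AnalyticAt ℂ w (c + r * ws (x k) δ L) →
      AnalyticAt ℂ u (c + r * ws (x k) δ L) → u (c + r * ws (x k) δ L) ≠ 0 →
      (∀ᶠ v in 𝓝 (c + r * ws (x k) δ L), f v = w v + Bw ((v - c) / r) * u v) →
      (∀ᶠ y in 𝓝 ((c + r * ws (x k) δ L, f (c + r * ws (x k) δ L)) : E), y ∈ S ↔ y.2 = f y.1) →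
      LB2 S (c + r * ws (x k) δ L, f (c + r * ws (x k) δ L)) := by
  obtain ⟨hM, -, -, hL, hδ, hMδ⟩ := hW.num
  have hx := hW.unit k
  have hx0 := Win.ne0 hx
  have hr0 : (r : ℂ) ≠ 0 := Complex.ofReal_ne_zero.2 hr.ne'
  have hδ0 : (δ : ℂ) ≠ 0 := Complex.ofReal_ne_zero.2 hδ.ne'
  obtain ⟨q0, q1⟩ := sad_facts hL
  obtain ⟨s1, s2⟩ := (hW.shape k).sad
  set ζ : ℂ := Complex.I * Real.sqrt (1 - 2 / L) with hζ
  have hws : ws (x k) δ L = wch (x k) δ 0 ζ := rfl
  have him : ζ.im = Real.sqrt (1 - 2 / L) := by simp [hζ]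
  have hn : ‖ζ‖ = Real.sqrt (1 - 2 / L) := by simp [hζ, abs_of_pos q0]
  have he := Real.exp_pos (-L / 2)
  have h3 : ζ ≠ Complex.I := fun h => by rw [h, sub_self, norm_zero] at s1; linarith
  have h2 : 0 < ζ.im := by rw [him]; exact q0
  obtain ⟨θ, -, hθ, hloc⟩ := local_form hW hG hB k (ζ := ζ) (by linarith) h2 h3
  obtain rfl := hθ (by linarith)
  simp only [Pi.zero_apply, Complex.ofReal_zero, mul_zero, Complex.exp_zero, mul_one] at hloc
  set H := hgt L (D0 k) with hH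
  have hH0 : 2 / 5 ≤ H ζ := (hW.shape k).mid ζ (by linarith) s2.le
  have hH1 : H ζ ≤ 2 := by linarith [(hW.shape k).le ζ h2.le h3]
  have hG0 : 0 < G (H ζ) := hG.pos _ (by linarith)
  have hδ1 : δ ≤ 1 / 256 := by nlinarith
  refine ⟨?_, ?_, fun S f w u hw hu hu0 hf hS => ?_⟩
  · rw [hws, hloc.self_of_nhds]; exact Complex.ofReal_ne_zero.2 hG0.ne'
  · have a5 := (Win.wch_dist (x := x k) (yr := 0) hδ (z := ζ) (z' := 0)
      (by rw [sub_zero]; nlinarith)).2
    rw [wch_zero, hx, sub_zero] at a5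
    rw [hws]; nlinarith
  rw [hws] at hw hu hu0 hf hS ⊢
  set v0 : ℂ := c + r * wch (x k) δ 0 ζ with hv0
  have hv1 : (v0 - c) / r = wch (x k) δ 0 ζ := by rw [hv0]; field_simp; ring
  -- the inverse chart
  set p : ℂ → ℂ := fun v => Complex.log ((v - c) / r / x k) / (Complex.I * δ) with hp
  have hq : (v0 - c) / r / x k = Complex.exp (Complex.I * (δ * ζ)) := by
    rw [hv1]; unfold wch
    rw [mul_div_cancel_left₀ _ hx0]; simp
  have hreal : Complex.I * (δ * ζ) = ((-(δ * Real.sqrt (1 - 2 / L)) : ℝ) : ℂ) := by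
    rw [hζ]; push_cast
    linear_combination (δ * Real.sqrt (1 - 2 / L) : ℂ) * Complex.I_mul_I
  have hp0 : p v0 = ζ := by
    simp only [hp]
    rw [hq, Complex.log_exp (by rw [hreal, Complex.ofReal_im]; linarith [Real.pi_pos])
      (by rw [hreal, Complex.ofReal_im]; exact Real.pi_pos.le)]
    field_simp
  have hpa : AnalyticAt ℂ p v0 := by
    refine AnalyticAt.div_const (AnalyticAt.clog (by fun_prop) ?_)
    rw [hq, hreal, ← Complex.ofReal_exp]
    exact Complex.ofReal_mem_slitPlane.2 (Real.exp_pos _)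
  have hpw : ∀ v, v ≠ c → wch (x k) δ 0 (p v) = (v - c) / r := by
    intro v hv
    have h1 : (v - c) / r / x k ≠ 0 := div_ne_zero (div_ne_zero (sub_ne_zero.2 hv) hr0) hx0
    have h4 : Complex.I * (δ * p v + (0 : ℝ) * Complex.I) = Complex.log ((v - c) / r / x k) := by
      simp only [hp]; field_simp; simp
    unfold wch
    rw [h4, Complex.exp_log h1]; field_simp
  have hvc : v0 ≠ c := fun h => Win.wch_ne (δ := δ) (yr := 0) hx0 ζ (by rw [← hv1, h]; simp)
  have hbl : Real.exp (-L - 4) ≤ ‖bl ζ‖ := by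
    have b1 : ‖ζ + Complex.I‖ ≤ 2 := by
      have := norm_add_le ζ Complex.I
      rw [Complex.norm_I] at this; linarith
    have b2 : 0 < ‖ζ + Complex.I‖ := norm_pos_iff.2 fun h => by
      have := congrArg Complex.im h
      simp only [Complex.add_im, Complex.I_im, Complex.zero_im] at this
      linarith
    have b3 : Real.exp (-L - 4) ≤ Real.exp (-L / 2) := Real.exp_le_exp.2 (by linarith)
    unfold bl
    rw [norm_div, le_div_iff₀ b2]
    nlinarith [Real.exp_pos (-L - 4)]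
  obtain ⟨r1, hr1, -, -, Gl, g1, g2, g3, -, r2, hr2, g5⟩ :=
    hF (D0 k) (hW.shape k).dev ζ (by linarith) hbl
  have hf0 : f v0 = w v0 + G (H ζ) * u v0 := by
    rw [hf.self_of_nhds, hv1, hloc.self_of_nhds]
  set s : E := (v0, f v0) with hs
  set Q : E → ℂ := fun y => (y.2 - w y.1) / u y.1 with hQ
  have hQ0 : Q s = G (H ζ) := by simp only [hQ, hs]; rw [hf0]; field_simp; ring
  have hQa : AnalyticAt ℂ Q s :=
    (analyticAt_snd.sub (hw.comp_of_eq analyticAt_fst rfl)).div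
      (hu.comp_of_eq analyticAt_fst rfl) hu0
  have hpc : Tendsto (fun y : E => p y.1) (𝓝 s) (𝓝 ζ) := by
    rw [← hp0]; exact (hpa.comp_of_eq analyticAt_fst rfl).continuousAt
  have c1 : Tendsto (fun y : E => y.1) (𝓝 s) (𝓝 v0) := continuous_fst.continuousAt
  have ev : ∀ᶠ y in 𝓝 s, y.1 ≠ c ∧ ContinuousAt p y.1 ∧ p y.1 ∈ ball ζ (min r1 r2) ∧ Q y ≠ 0 ∧
      u y.1 ≠ 0 := by
    filter_upwards [c1.eventually (isOpen_ne.mem_nhds hvc), c1.eventually hpa.eventually_analyticAt,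
      hpc.eventually (ball_mem_nhds ζ (lt_min hr1 hr2)),
      hQa.continuousAt.eventually_ne (by rw [hQ0]; exact Complex.ofReal_ne_zero.2 hG0.ne'),
      c1.eventually (hu.continuousAt.eventually_ne hu0)] with y a1 a2 a3 a4 a5
    exact ⟨a1, a2.continuousAt, a3, a4, a5⟩
  obtain ⟨ε0, hε0, hball⟩ := Metric.eventually_nhds_iff_ball.1 ev
  set ε := min ε0 (1 / 5) with hε
  have hε1 : ε ≤ 1 / 5 := min_le_right _ _
  have hε2 : 0 < ε := lt_min hε0 (by norm_num)
  have hball' := fun y (hy : y ∈ ball s ε) => hball y (ball_subset_ball (min_le_left _ _) hy)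
  have hZH : ∀ y : E, p y.1 ∈ ball ζ (min r1 r2) → (Gl (p y.1)).im - D0 k (p y.1) = H (p y.1) := by
    intro y hy
    rw [g2 _ (ball_subset_closedBall (ball_subset_ball (min_le_left _ _) hy))]; rfl
  have hZ0 : (Gl (p s.1)).im - D0 k (p s.1) = H ζ := by
    rw [hZH s (hball s (mem_ball_self hε0)).2.2.1]; simp only [hs]; rw [hp0]
  obtain ⟨l1, cc, hcc, l2⟩ := log_rate hG (a := H ζ - ε) (b := H ζ + ε) (by linarith)
    (by linarith) (by linarith)
  refine st_lbz2 S s (fun y => Gl (p y.1)) (fun y => Complex.log (Q y)) (fun y => D0 k (p y.1))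
    (fun t => Real.log (G t)) (fun _ => 0) cc ε (hS.self_of_nhds.2 rfl) ?_ ?_ hcc hε2 ?_ ?_ ?_ ?_ ?_
  · exact (g1 ζ (mem_closedBall_self hr1.le)).comp_of_eq (hpa.comp_of_eq analyticAt_fst rfl) hp0
  · exact hQa.clog (by rw [hQ0]; exact Complex.ofReal_mem_slitPlane.2 hG0)
  · rw [hZ0]; exact l1
  · rw [hZ0]
    intro a ha t ht hat
    have := l2 a ha t ht hat
    refine ⟨this, ?_⟩
    rw [sub_self, abs_zero]
    nlinarith
  · have hHc : ContinuousAt (fun ξ => G (H ξ)) ζ :=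
      hG.smooth.continuous.continuousAt.comp (hgt_diff hW k h2 h3).continuousAt
    filter_upwards [ev, hS, c1.eventually hf, hpc.eventually hloc,
      hpc.eventually (continuousAt_const.eventually_lt hHc hG0)] with y a1 a2 a3 a4 a5
    rw [a2, hZH y a1.2.2.1, a3, ← hpw _ a1.1, a4]
    simp only [Complex.ofReal_zero, mul_zero, add_zero]
    constructor
    · intro h
      have : Q y = G (H (p y.1)) := by
        simp only [hQ]; rw [h, div_eq_iff a1.2.2.2.2]; ring
      rw [this, Complex.ofReal_log a5.le]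
    · intro h
      have := congrArg Complex.exp h
      rw [Complex.exp_log a1.2.2.2.1, ← Complex.ofReal_exp, Real.exp_log a5] at this
      simp only [hQ] at this
      rw [div_eq_iff a1.2.2.2.2] at this
      linear_combination this
  · intro y hy y' hy'
    exact g5 _ (ball_subset_ball (min_le_right _ _) (hball' y hy).2.2.1) _
      (ball_subset_ball (min_le_right _ _) (hball' y' hy').2.2.1)
  · intro y' hy'
    obtain ⟨a1, a2, a3, a4, a5⟩ := hball' y' hy'
    have a6 : p y'.1 ∈ closedBall ζ r1 :=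
      ball_subset_closedBall (ball_subset_ball (min_le_left _ _) a3)
    have hiso : ∀ᶠ ξ in 𝓝[≠] (p y'.1), Gl ξ ≠ Gl (p y'.1) := by
      rcases (g1 _ a6).eventually_eq_or_eventually_ne (analyticAt_const (v := Gl (p y'.1))) with h | h
      · exfalso
        have hc := g1.eqOn_of_preconnected_of_eventuallyEq analyticOnNhd_const
          (convex_closedBall ζ r1).isPreconnected a6 h
        have hsph : ζ + r1 ∈ sphere ζ r1 := by simp [abs_of_pos hr1]
        have := g3 _ hsph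
        rw [hc (sphere_subset_closedBall hsph), hc (mem_closedBall_self hr1.le), sub_self,
          norm_zero] at this
        have : 0 < c0 / L := by positivity
        linarith
      · exact h
    have t1 : Tendsto (fun y : E => p y.1) (𝓝 y') (𝓝 (p y'.1)) :=
      a2.tendsto.comp continuous_fst.continuousAt
    have t2 := t1.eventually (eventually_nhdsWithin_iff.1 hiso)
    refine eventually_nhdsWithin_iff.2 ?_
    filter_upwards [t2, isOpen_ball.mem_nhds hy'] with y b1 b2 b3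
    by_contra b4
    rw [not_or, not_not, not_not] at b4
    obtain ⟨d1, -, -, d4, -⟩ := hball' y b2
    have b5 : p y.1 = p y'.1 := by_contra fun h => b1 h b4.1
    have b6 : y.1 = y'.1 := by
      have := (hpw _ d1).symm.trans (b5 ▸ hpw _ a1)
      field_simp at this
      linear_combination this
    have b7 := congrArg Complex.exp b4.2
    rw [Complex.exp_log d4, Complex.exp_log a4] at b7
    simp only [hQ] at b7
    rw [b6, div_left_inj' a5] at b7
    exact b3 (Prod.ext b6 (by linear_combination b7))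

end BZ2

theorem st_bz2 : St_BZ2 := fun _ _ _ _ _ _ _ _ _ _ _ _ _ _ _ hc0 hF hW hG hB hr =>
  ⟨BZ2.part1 hW hG hB hr, BZ2.part2 hc0 hF hW hG hB hr⟩

end Pool.Agent.Lib.SH
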