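import Pool.Agent.Lib.SH.Blue5

/-!
Blueprint of the project SH: general walls (inactive terms, nonlinear fibre function), their
box, annulus and port forms, and smoothness lemmas for the modifications.
-/

open Set Filter Topology Metric
open scoped ContDiff

noncomputable section

namespace Pool.Agent.Lib.SH

/-- the wall `Θ (z, sum E i (y) * u i z)` -/
def wth {I : Type} [Fintype I] (Ef : I → ℝ → ℝ) (u : I → ℂ → ℂ) (Θ : E → ℂ) (x y : ℝ) : ℂ :=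
  Θ (x + y * Complex.I, wsum Ef u x y)

/-- hypotheses on profiles, directions and the fibre map over the strip; terms whose profile
vanishes near the height need no hypothesis on the direction -/
structure WS2 {I : Type} [Fintype I] (J : Set ℝ) (Ef Ef' : I → ℝ → ℝ) (u : I → ℂ → ℂ)
    (a : I → ℝ) (Θ : E → ℂ) (e om C ι' r : ℝ) : Prop where
  der : ∀ i, ∀ y ∈ Icc (-(2 * ι')) (2 * ι'), HasDerivAt (Ef i) (Ef' i y) y ∧ 0 ≤ Ef' i y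
  dir : ∀ y ∈ Icc (-(2 * ι')) (2 * ι'), (∀ i, ∀ᶠ s in 𝓝 y, Ef i s = 0) ∨
    ((∀ x ∈ J, ∀ᶠ z in 𝓝 ((x : ℂ) + y * Complex.I), ∑ i, (a i : ℂ) * u i z = e) ∧
      ∀ i, ((∀ᶠ s in 𝓝 y, Ef i s = 0) ∧ a i = 0) ∨ ∀ x ∈ J, Dir (u i) om C (x + y * Complex.I))
  steep : ∀ x ∈ J, ∀ y ∈ Icc (-(2 * ι')) (2 * ι'),
    Steep Ef Ef' u (fun _ => 0) ι' x y ∨ Steep Ef Ef' u a ι' x y
  coh : ∀ y ∈ Icc (-(2 * ι')) (2 * ι'), (Coh fun i => Ef i y) ∧ Coh fun i => Ef i y - a i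
  er : 0 ≤ e ∧ e ≤ r
  th : ∀ x ∈ J, ∀ y ∈ Icc (-(2 * ι')) (2 * ι'),
    ‖wsum Ef u x y‖ ≤ r ∧ Th Θ e om r (x + y * Complex.I)

/-- constant of the general walls -/
def cW (C : ℝ) : ℝ := 8 * C * Real.exp (2 * C) + 1

/-- the two admissible readings of a wall with second root `e0` -/
def Rd (e e0 lev : ℝ) : Prop := (e = e0 ∧ 0 ≤ lev) ∨ (e = 0 ∧ 4 * e0 ^ 2 ≤ lev)

/-- general walls are plain walls: two roots at all levels, one root above `4 e0 ^ 2` -/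
def St_PWG : Prop := ∀ ι C : ℝ, 0 < ι → 0 ≤ C → ∃ om > (0 : ℝ), ∀ (I : Type) [Fintype I] (J : Set ℝ)
  (Ef Ef' : I → ℝ → ℝ) (u : I → ℂ → ℂ) (a : I → ℝ) (Θ : E → ℂ) (e0 ι' r : ℝ), 0 < ι' → ι' ≤ om →
  WS2 J Ef Ef' u a Θ e0 om C ι' r → ∃ Ψy : ℝ → ℝ → ℂ, ∀ e lev : ℝ, Rd e e0 lev →
    PW J e ι ι' (cW C) lev (wth Ef u Θ) Ψy

/-- annulus form; `u` and `Θ` are given in the chart `z`, the strip variable is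
`ζ` with `z = exp (i ζ)` -/
def St_AWG : Prop := ∀ ι C : ℝ, 0 < ι → 0 ≤ C → ∃ om > (0 : ℝ), ∀ (I W : Type) [Fintype I]
  (x : W → ℂ) (ρ0 : W → ℝ) (X K : Set E) (V : E → ℂ) (Ef Ef' : I → ℝ → ℝ) (u : I → ℂ → ℂ)
  (a : I → ℝ) (Θ : E → ℂ) (e h ι' r : ℝ), 0 < ι' → ι' ≤ om →
  WS2 (arcW x ρ0) Ef Ef' (fun i z => u i (Complex.exp (Complex.I * z))) a
    (fun y => Θ (Complex.exp (Complex.I * y.1), y.2)) e om C ι' r →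
  (∀ y ∈ ov X (annW h x ρ0), y ∈ K → pp e (V y) ≠ 0 → |Real.log ‖y.1‖| ≤ ι' ∧
    V y = Θ (y.1, ∑ i, (Ef i (-Real.log ‖y.1‖) : ℂ) * u i y.1)) →
  (∀ y ∈ ov X (annW h x ρ0), pp e (V y) ≠ 0 → |Real.log ‖y.1‖| ≤ 2 * ι' →
    V y = Θ (y.1, ∑ i, (Ef i (-Real.log ‖y.1‖) : ℂ) * u i y.1) → y ∈ K) →
  (∀ y ∈ ov X (annW h x ρ0), y ∉ K → ‖y.1‖ ≤ Real.exp ι) →
  AW X K V e ι (cW C) h x ρ0

/-- box form -/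
def St_WBG : Prop := ∀ ι C : ℝ, 0 < ι → 0 ≤ C → ∃ om > (0 : ℝ), ∀ (I : Type) [Fintype I]
  (X K : Set E) (Q V : E → ℂ) (g : ℂ → ℂ) (Ef Ef' : I → ℝ → ℝ) (u : I → ℂ → ℂ) (a : I → ℝ)
  (Θ : E → ℂ) (e e0 x0 r t Λ lv lev rr : ℝ) (pw : ℕ), 0 < r → 0 < t → t ≤ om * r → 2 * t ≤ r →
  (pw = 1 ∨ pw = 2) → AnalyticOnNhd ℂ V (ov X (box x0 r r)) →
  (∀ z ∈ box x0 r r, AnalyticAt ℂ g z ∧ r * ‖deriv g z‖ ≤ Λ ∧ (z.im = 0 → |(g z).im| ≤ ι) ∧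
    lev * Real.exp (g z).re ≤ lv ^ pw) →
  (∀ y : E, y.1 ∈ box x0 r r → Q y ^ pw = pp e (V y) * Complex.exp (g y.1)) →
  WS2 (Icc (x0 - r) (x0 + r)) Ef Ef' u a Θ e0 (om * min 1 r⁻¹) (C / r) t rr → Rd e e0 lev →
  (∀ y ∈ ov X (box x0 r r), y ∈ K → lv < ‖Q y‖ →
    |y.1.im| ≤ t ∧ V y = wth Ef u Θ y.1.re y.1.im) →
  (∀ y ∈ ov X (box x0 r r), lv < ‖Q y‖ → |y.1.im| ≤ 2 * t → V y = wth Ef u Θ y.1.re y.1.im →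
    y ∈ K) →
  WB X K Q x0 r ι (cW C) Λ lv

/-- port form with one fixed height `η`; `z = exp (η - i ζ)` -/
def St_PPG : Prop := ∀ ι C : ℝ, 0 < ι → 0 ≤ C → ∃ om > (0 : ℝ), ∀ (I : Type) [Fintype I]
  (X K : Set E) (N : E → ℂ) (Ef Ef' : I → ℝ → ℝ) (u : I → ℂ → ℂ) (a : I → ℝ) (Θ : E → ℂ)
  (e e0 γ ι' η lev Mst Mup r : ℝ), 0 < γ → γ ≤ 1 / 2 → 0 < ι' → ι' ≤ om → η ≤ -1 → 0 ≤ Mst →
  lev ≤ Mst * Real.exp (-γ * η - 1) →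
  WS2 univ Ef Ef' (fun i z => u i (Complex.exp (η - Complex.I * z))) a
    (fun y => Θ (Complex.exp (η - Complex.I * y.1), y.2)) e0 om C ι' r → Rd e e0 lev →
  (∀ y ∈ ov X (closedBall 0 1), y ∈ K → Mst / Real.exp 1 < ‖pp e (y.1 * N y)‖ * ‖y.1‖ ^ γ →
    |Real.log ‖y.1‖ - η| ≤ ι' ∧
      y.1 * N y = Θ (y.1, ∑ i, (Ef i (Real.log ‖y.1‖ - η) : ℂ) * u i y.1)) →
  (∀ y ∈ ov X (closedBall 0 1), Mst / Real.exp 1 < ‖pp e (y.1 * N y)‖ * ‖y.1‖ ^ γ →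
    |Real.log ‖y.1‖ - η| ≤ 2 * ι' →
    y.1 * N y = Θ (y.1, ∑ i, (Ef i (Real.log ‖y.1‖ - η) : ℂ) * u i y.1) → y ∈ K) →
  (∀ y ∈ ov X (closedBall 0 1), y ∈ K → ‖y.1‖ ≤ Real.exp (η - 1 / 2) →
    ‖N y * (y.1 * N y - e)‖ ≤ Mst * Real.exp (-(1 + γ) * η)) →
  PPH2 X K N e γ ι (cW C) Mst Mup

/-- the identity and its small linear perturbations are admissible fibre maps; rescaling -/
def St_THID : Prop :=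
  (∀ (e om r : ℝ) (z : ℂ), 0 ≤ om → Th (fun y => y.2) e om r z) ∧
  (∀ (Θ : E → ℂ) (e om om' r r' : ℝ) (z : ℂ), om ≤ om' → r' ≤ r → Th Θ e om r z → Th Θ e om' r' z) ∧
  (∀ (Θ : E → ℂ) (b : ℂ → ℂ) (e om r B : ℝ) (z : ℂ), AnalyticAt ℂ b z → ‖deriv b z‖ ≤ B → 1 ≤ B →
    0 ≤ om → Th Θ e om r (b z) → Th (fun y => Θ (b y.1, y.2)) e (om * B) r z) ∧
  ∀ (Θ : E → ℂ) (e om r c : ℝ) (z : ℂ), 0 < c → Th Θ e om r z →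
    Th (fun y => Θ (y.1, c * y.2) / c) (e / c) om (r / c) z

/-- extension by zero; products of a fixed cut-off with small analytic functions;
compositions -/
def St_CSM : Prop :=
  (∀ (U Z : Set ℂ) (N : ℂ → ℂ), IsOpen U → IsClosed Z → Z ⊆ U → ContDiffOn ℝ ∞ N U →
    (∀ z ∈ U, z ∉ Z → N z = 0) → ContDiff ℝ ∞ (U.indicator N)) ∧
  (∀ (U Z W : Set ℂ) (χ : ℂ → ℂ) (k : ℕ), IsOpen U → IsCompact Z → Z ⊆ U → IsOpen W → Z ⊆ W →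
    ContDiffOn ℝ ∞ χ U → (∀ z ∈ U, z ∉ Z → χ z = 0) → ∃ C > (0 : ℝ), ∀ (f : ℂ → ℂ) (η : ℝ),
      0 ≤ η → AnalyticOnNhd ℂ f W → (∀ z ∈ W, ‖f z‖ ≤ η) →
      Small k (C * η) (U.indicator fun z => χ z * f z)) ∧
  ∀ (l : CF.End), l.k ≠ CF.Kind.pt → 0 < l.r → ContDiffOn ℝ ∞ l.dep {z | z ≠ l.c} ∧
    (∀ z, z ≠ l.c → fderiv ℝ l.dep z ≠ 0) ∧
    ∀ a b : ℝ, IsCompact (l.ann (Icc a b)) ∧ IsOpen (l.ann (Ioo a b))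

/-- the Cauchy-Riemann operator on walls -/
def St_DBS : Prop :=
  (∀ (I : Type) [Fintype I] (H : ℂ → ℝ) (Ef : I → ℝ → ℂ) (Ef' : I → ℂ) (u : I → ℂ → ℂ)
    (f w : ℂ → ℂ) (z : ℂ), DifferentiableAt ℝ H z → fderiv ℝ H z ≠ 0 → AnalyticAt ℂ w z →
    (∀ i, HasDerivAt (Ef i) (Ef' i) (H z) ∧ AnalyticAt ℂ (u i) z) →
    (∀ᶠ x in 𝓝 z, f x = w x + ∑ i, Ef i (H x) * u i x) →
    ∑ i, Ef' i * u i z ≠ 0 → DifferentiableAt ℝ f z ∧ dbar f z ≠ 0) ∧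
  (∀ (I : Type) [Fintype I] (c : I → ℝ) (v : I → ℂ) (d : ℂ), (∀ i, 0 ≤ c i) →
    (∀ i, c i ≠ 0 → 0 < (v i / d).re) → (∃ i, c i ≠ 0) → ∑ i, (c i : ℂ) * v i ≠ 0) ∧
  (∀ (f g : ℂ → ℂ) (z : ℂ), DifferentiableAt ℝ f z → DifferentiableAt ℝ g z →
    ‖dbar f z - dbar g z‖ ≤ ‖fderiv ℝ f z - fderiv ℝ g z‖) ∧
  (∀ (f b : ℂ → ℂ) (z : ℂ), AnalyticAt ℂ b z → deriv b z ≠ 0 → DifferentiableAt ℝ f (b z) →
    (dbar (fun x => f (b x)) z ≠ 0 ↔ dbar f (b z) ≠ 0)) ∧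
  ∀ (f g : ℂ → ℂ) (U : Set ℂ) (z : ℂ), IsOpen U → z ∈ U → AnalyticOnNhd ℂ g U →
    (∀ x ∈ U, f x = g x) → dbar f z = 0

end Pool.Agent.Lib.SH
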