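import Pool.Agent.Lib.SH.Limit
import Pool.Agent.Lib.MP_9ccfb7_an.NG

namespace Pool.Agent.Lib.SH

theorem dbar_eq_zero {f : ℂ → ℂ} {z : ℂ} (h : DifferentiableAt ℂ f z) : dbar f z = 0 := by
  have h1 : fderiv ℝ f z = (fderiv ℂ f z).restrictScalars ℝ := h.fderiv_restrictScalars ℝ
  have h2 : fderiv ℂ f z Complex.I = Complex.I * fderiv ℂ f z 1 := by
    rw [← smul_eq_mul, ← map_smul, smul_eq_mul, mul_one]
  rw [dbar, h1, ContinuousLinearMap.coe_restrictScalars', h2, ← mul_assoc, Complex.I_mul_I]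
  ring

theorem IsPoly.differentiable' {p : E → ℂ} (h : IsPoly p) : Differentiable ℂ p := by
  obtain ⟨q, hq⟩ := h
  rw [show p = fun x : E => MvPolynomial.eval ![x.1, x.2] q from funext hq]
  clear hq
  induction q using MvPolynomial.induction_on with
  | C a => simp
  | add p q hp hq =>
    simp only [map_add]
    exact hp.add hq
  | mul_X p i hp =>
    simp only [map_mul, MvPolynomial.eval_X]
    refine hp.mul ?_
    fin_cases i
    · exact differentiable_fst
    · exact differentiable_snd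

open MP_9ccfb7_an in
/-- NG4 in terms of the Cauchy-Riemann operator. -/
theorem ng4_dbar {ι : Type*} [Finite ι] {c : ι → ℂ} {r R : ι → ℝ} {F : ι → ℂ → ℂ}
    (hF : ∀ i, Continuous (F i)) {Z : Set E} {T : Set ℂ} (hT : T.Finite)
    (h : ∀ i, ∀ z ∈ ann (c i) (r i) (R i), (z, F i z) ∉ Z → z ∉ T → dbar (F i) z ≠ 0)
    (b : ℂ) (τ : ℝ) (hτ : 0 < τ) : NoGr (surf c r R F \ Z) b τ :=
  ng4 hF hT (fun i z a1 a2 a3 a4 => h i z a1 a2 a3 (dbar_eq_zero a4)) b τ hτ

end Pool.Agent.Lib.SH
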