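import Pool.Agent.Lib.SH.Blue6

/-!
Blueprint of the project SH: the birth wall in the normalised plane of a hub, cut profiles,
steep profiles.
-/

open Set Filter Topology Metric
open scoped ContDiff

noncomputable section

namespace Pool.Agent.Lib.SH

/-- centre of the port of the window `(x, δ)` -/
def wp (x : ℂ) (δ : ℝ) : ℂ := wch x δ 0 Complex.I

/-- radius of the filled disc of the window -/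
def wr (x : ℂ) (δ L : ℝ) : ℝ := 2 * δ * ‖wp x δ‖ * Real.exp (-L)

/-- the saddle of the window -/
def ws (x : ℂ) (δ L : ℝ) : ℂ := wch x δ 0 (Complex.I * Real.sqrt (1 - 2 / L))

/-- profile of a birth wall -/
structure BG (G th : ℝ → ℝ) (M8 : ℝ) : Prop where
  smooth : ContDiff ℝ ∞ G
  zero : ∀ s ≤ 0, G s = 0
  pos : ∀ s, 0 < s → 0 < G s
  mono : ∀ s, 0 ≤ deriv G s
  strict : ∀ s, 0 < s → s ≤ 4 * M8 → 0 < deriv G s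
  ths : ContDiff ℝ ∞ th
  th0 : ∀ s, 2 / 5 ≤ s → th s = 0
  th1 : ∀ s, s ≤ 1 / 4 → th s = Real.pi / 4

/-- the birth wall `Bw` for the windows `(x k, δ)` at the unit circle -/
structure BZ {W : Type} (x : W → ℂ) (δ L M8 y4 : ℝ) (D0 : W → ℂ → ℝ) (G th : ℝ → ℝ)
    (Bw : ℂ → ℂ) : Prop where
  smooth : ContDiffOn ℝ ∞ Bw {z | z ≠ 0}
  pure : ∀ z, z ≠ 0 → ((∀ k, 2 * M8 * δ ≤ ‖z - x k‖) ∨ -Real.log ‖z‖ ≤ y4 * δ) →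
    Bw z = G (-Real.log ‖z‖ / δ)
  win : ∀ k, ∀ ζ : ℂ, δ * ‖ζ‖ ≤ 1 / 8 → (∀ k', k' ≠ k → 2 * M8 * δ ≤ ‖wch (x k) δ 0 ζ - x k'‖) →
    0 ≤ ζ.im → ζ ≠ Complex.I → Bw (wch (x k) δ 0 ζ) = G (hgt L (D0 k) ζ) *
      Complex.exp (Complex.I *
        (if ‖ζ - Complex.I‖ < 4 * Real.exp (-L / 2) then th (hgt L (D0 k) ζ) else 0))
  port : ∀ k z, ‖z - wp (x k) δ‖ ≤ 2 * wr (x k) δ L →
    Bw z = G (Real.log (‖z - wp (x k) δ‖ / wr (x k) δ L) / L) *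
      Complex.exp (Real.pi / 4 * Complex.I)
  zero : ∀ z, z ≠ 0 → (Bw z = 0 ↔ 1 ≤ ‖z‖ ∨ ∃ k, ‖z - wp (x k) δ‖ ≤ wr (x k) δ L)
  low : ∀ s, 0 < s → s ≤ y4 / 2 → ∀ z, z ≠ 0 → ‖Bw z‖ < G s →
    -Real.log ‖z‖ < s * δ ∨ ∃ k, ‖z - wp (x k) δ‖ < wr (x k) δ L * Real.exp (L * s)
  up : ∀ z, z ≠ 0 → ‖z‖ ≤ 1 → ‖Bw z‖ ≤ G (-Real.log ‖z‖ / δ + 1)

/-- standing hypotheses on the windows -/
structure BW {W : Type} (x : W → ℂ) (c0 CD δ L M8 y4 : ℝ) (D0 : W → ℂ → ℝ) : Prop where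
  num : 4 ≤ M8 ∧ 0 < y4 ∧ y4 ≤ 1 / 4 ∧ 10 ≤ L ∧ 0 < δ ∧ 64 * M8 * δ ≤ 1
  unit : ∀ k, ‖x k‖ = 1
  sep : ∀ k k', k ≠ k' → 8 * M8 * δ ≤ ‖x k - x k'‖
  shape : ∀ k, Shape c0 CD M8 y4 L (x k) δ 0 (D0 k)

def St_BZ1 : Prop := ∀ (W : Type) [Fintype W] (x : W → ℂ) (c0 CD δ L M8 y4 : ℝ) (D0 : W → ℂ → ℝ)
  (G th : ℝ → ℝ), BW x c0 CD δ L M8 y4 D0 → BG G th M8 → ∃ Bw, BZ x δ L M8 y4 D0 G th Bw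

/-- total reality in the zones, and the barrier at the saddles; `c`, `r` are the centre and the
radius of the hub -/
def St_BZ2 : Prop := ∀ (W : Type) [Fintype W] (x : W → ℂ) (c0 CD δ L M8 y4 : ℝ) (D0 : W → ℂ → ℝ)
  (G th : ℝ → ℝ) (Bw : ℂ → ℂ) (c : ℂ) (r : ℝ), 0 < c0 → LocF c0 CD L → BW x c0 CD δ L M8 y4 D0 →
  BG G th M8 → BZ x δ L M8 y4 D0 G th Bw → 0 < r →
  (∀ (z : ℂ) (f w u : ℂ → ℂ), Bw z ≠ 0 → (∃ k, ‖z - x k‖ ≤ 2 * M8 * δ) →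
    (∀ k, z ≠ ws (x k) δ L) → AnalyticAt ℂ w (c + r * z) → AnalyticAt ℂ u (c + r * z) →
    u (c + r * z) ≠ 0 → (∀ᶠ v in 𝓝 (c + r * z), f v = w v + Bw ((v - c) / r) * u v) →
    dbar f (c + r * z) ≠ 0) ∧
  ∀ k, Bw (ws (x k) δ L) ≠ 0 ∧ ‖ws (x k) δ L - x k‖ ≤ 2 * δ ∧
    ∀ (S : Set E) (f w u : ℂ → ℂ), AnalyticAt ℂ w (c + r * ws (x k) δ L) →
      AnalyticAt ℂ u (c + r * ws (x k) δ L) → u (c + r * ws (x k) δ L) ≠ 0 →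
      (∀ᶠ v in 𝓝 (c + r * ws (x k) δ L), f v = w v + Bw ((v - c) / r) * u v) →
      (∀ᶠ y in 𝓝 ((c + r * ws (x k) δ L, f (c + r * ws (x k) δ L)) : E), y ∈ S ↔ y.2 = f y.1) →
      LB2 S (c + r * ws (x k) δ L, f (c + r * ws (x k) δ L))

/-- products of the birth wall with directions which have poles at the ports are smooth -/
def St_BZ3 : Prop := ∀ (W : Type) [Fintype W] (x : W → ℂ) (c0 CD δ L M8 y4 : ℝ) (D0 : W → ℂ → ℝ)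
  (G th : ℝ → ℝ) (Bw : ℂ → ℂ) (c : ℂ) (r : ℝ) (U : Set ℂ) (u : ℂ → ℂ), BW x c0 CD δ L M8 y4 D0 →
  BG G th M8 → BZ x δ L M8 y4 D0 G th Bw → 0 < r → IsOpen U → c ∉ U →
  (∀ v ∈ U, ‖v - c‖ ≤ r → (∀ k, v ≠ c + r * wp (x k) δ) → ContDiffAt ℝ ∞ u v) →
  ContDiffOn ℝ ∞ (fun v => Bw ((v - c) / r) * u v) U

/-- the profile cut below the height `y1` -/
def cutP (y1 : ℝ) (f : ℝ → ℝ) (s : ℝ) : ℝ := Real.smoothTransition (2 * s / y1 - 1) * f s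

def St_CUTP : Prop :=
  (∀ (f : ℝ → ℝ) (y1 : ℝ), ContDiff ℝ ∞ f → 0 < y1 → ContDiff ℝ ∞ (cutP y1 f) ∧
    (∀ s, s ≤ y1 / 2 → cutP y1 f s = 0) ∧ (∀ s, y1 ≤ s → cutP y1 f s = f s) ∧
    ∀ s, 0 ≤ f s → 0 ≤ deriv f s → 0 ≤ cutP y1 f s ∧ cutP y1 f s ≤ f s ∧
      0 ≤ deriv (cutP y1 f) s ∧
      (∀ a b : ℝ, 0 ≤ a → 0 ≤ b → a * f s ≤ b * deriv f s →
        a * cutP y1 f s ≤ b * deriv (cutP y1 f) s) ∧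
      (y1 / 2 < s → 0 < deriv f s → 0 < deriv (cutP y1 f) s)) ∧
  ∀ (U : Set ℂ) (y : ℂ → ℝ) (μ : ℂ → ℂ) (f : ℝ → ℝ) (y0 : ℝ), IsOpen U → 0 < y0 →
    ContDiffOn ℝ ∞ y U → ContDiffOn ℝ ∞ μ U → IsCompact {z | z ∈ U ∧ |y z| ≤ y0} →
    ContDiff ℝ ∞ f → (∀ s ≤ 0, f s = 0) → ∀ (k : ℕ) (ε : ℝ), 0 < ε → ∀ᶠ y1 in 𝓝[>] (0 : ℝ),
      Small k ε (U.indicator fun z => ((cutP y1 f (y z) - f (y z) : ℝ) : ℂ) * μ z)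

/-- steep profiles -/
def St_PROF2 : Prop :=
  (∀ σ0 : ℝ, 0 < σ0 → ∃ G : ℝ → ℝ, ContDiff ℝ ∞ G ∧ (∀ s ≤ 0, G s = 0) ∧
    (∀ s, 0 < s → 0 < G s ∧ G s ≤ σ0 * deriv G s) ∧
    ∀ N : ℝ, ∀ᶠ y in 𝓝[>] (0 : ℝ), N * G y ≤ y * deriv G y) ∧
  (∀ A : ℝ, 0 < A → ∃ Φ : ℝ → ℝ, ContDiff ℝ ∞ Φ ∧ (∀ s, 0 < Φ s ∧ Φ s ≤ 1) ∧
    (∀ s, 0 ≤ s → Φ s = 1) ∧ (∀ s, s < 0 → 0 < deriv Φ s) ∧
    ∀ s, s ≤ -1 / 8 → Φ s = Real.exp (A * s) ∧ deriv Φ s = A * Φ s) ∧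
  (∀ s, 0 < s → s < 1 → 0 < deriv Real.smoothTransition s) ∧
  (∀ N : ℝ, ∀ᶠ y in 𝓝[>] (0 : ℝ), N * Real.smoothTransition y ≤ y * deriv Real.smoothTransition y ∧
    N * (1 - Real.smoothTransition (1 - y)) ≤ y * deriv Real.smoothTransition (1 - y)) ∧
  (∀ N : ℝ, ∀ᶠ y in 𝓝[>] (0 : ℝ), N * expNegInvGlue y ≤ y * deriv expNegInvGlue y) ∧
  (∀ M8 σ0 : ℝ, 0 < M8 → 0 < σ0 → ∃ G : ℝ → ℝ, ContDiff ℝ ∞ G ∧ (∀ s ≤ 0, G s = 0) ∧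
    (∀ s, 0 < s → 0 < G s) ∧ (∀ s, 0 ≤ deriv G s ∧ G s ≤ 1) ∧
    (∀ s, 0 < s → s ≤ 4 * M8 → G s ≤ σ0 * deriv G s ∧ G s ≤ Real.exp ((s - 4 * M8) / σ0)) ∧
    (∀ s, 5 * M8 ≤ s → G s = 1) ∧ ∀ N : ℝ, ∀ᶠ y in 𝓝[>] (0 : ℝ), N * G y ≤ y * deriv G y) ∧
  ∀ (f g : ℝ → ℝ) (s a b : ℝ), DifferentiableAt ℝ f s → DifferentiableAt ℝ g s → 0 ≤ f s →
    0 ≤ g s → 0 ≤ deriv f s → 0 ≤ deriv g s → 0 ≤ b →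
    (a * f s ≤ b * deriv f s ∨ a * g s ≤ b * deriv g s) →
    a * (f s * g s) ≤ b * deriv (fun t => f t * g t) s

end Pool.Agent.Lib.SH
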