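import Pool.Agent.Lib.SH.Ring3
import Pool.Agent.Lib.SH.Blue7

/-!
Large boxes and the birth window.
-/

open Set Filter Topology Metric

noncomputable section

namespace Pool.Agent.Lib.SH.Ring

open Win

theorem wch_sc (x : ℂ) (δ : ℝ) {r : ℝ} (z : ℂ) : wch x (δ * r) 0 z = wch x δ 0 (r * z) := by
  simp only [wch]; push_cast; rw [mul_assoc (δ : ℂ)]

theorem box_sc {x0 r : ℝ} (hr : 0 < r) {z : ℂ} (hz : z ∈ box (r⁻¹ * x0) 1 1) :
    (r : ℂ) * z ∈ box x0 r r := by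
  have := WACT.sc_box hr hz
  rwa [mul_one, mul_inv_cancel_left₀ hr.ne'] at this

/-- box form with a tolerance which does not depend on the size of the box -/
theorem wb_mac (ι C : ℝ) (hι : 0 < ι) (hC : 0 ≤ C) : ∃ o > (0 : ℝ), ∀ (I : Type) [Fintype I]
    (X K : Set E) (Q V : E → ℂ) (g : ℂ → ℂ) (Ef Ef' : I → ℝ → ℝ) (u : I → ℂ → ℂ) (a : I → ℝ)
    (Θ : E → ℂ) (Cf : ℂ → ℝ) (Ω : Set ℂ) (x : ℂ) (e e0 om δ x0 r t Λ lv lev rr : ℝ) (pw : ℕ),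
    ‖x‖ = 1 → 0 < δ → δ * r ≤ 1 → 0 < r → 0 < t → t ≤ 1 / 4 → t ≤ o * (δ * r) → 0 < om →
    om ≤ o → (pw = 1 ∨ pw = 2) → (∀ z ∈ box x0 r r, wch x δ 0 z ∈ Ω) →
    AnalyticOnNhd ℂ V (ov X Ω) →
    (∀ z ∈ box x0 r r, AnalyticAt ℂ g z ∧ r * ‖deriv g z‖ ≤ Λ ∧ (z.im = 0 → |(g z).im| ≤ ι) ∧
      lev * Real.exp (g z).re ≤ lv ^ pw) →
    (∀ y : E, y.1 ∈ box x0 r r → Q (bc (wch x δ 0) y) ^ pw =
      pp e (V (bc (wch x δ 0) y)) * Complex.exp (g y.1)) →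
    RW Ef Ef' u a Θ e0 om Cf t rr → Rd e e0 lev →
    (∀ z ∈ box x0 r r, δ * |z.im| ≤ 2 * t → r * (δ * Cf (wch x δ 0 z)) ≤ C) →
    (∀ y ∈ ov (bc (wch x δ 0) ⁻¹' X) (box x0 r r), lv < ‖Q (bc (wch x δ 0) y)‖ →
      (y ∈ bc (wch x δ 0) ⁻¹' K → δ * |y.1.im| ≤ t ∧
        V (bc (wch x δ 0) y) = Θ (wch x δ 0 y.1, zs Ef u (wch x δ 0 y.1))) ∧
      (δ * |y.1.im| ≤ 2 * t →
        V (bc (wch x δ 0) y) = Θ (wch x δ 0 y.1, zs Ef u (wch x δ 0 y.1)) →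
        y ∈ bc (wch x δ 0) ⁻¹' K)) →
    WB (bc (wch x δ 0) ⁻¹' X) (bc (wch x δ 0) ⁻¹' K) (fun y => Q (bc (wch x δ 0) y)) x0 r ι
      (cW C) Λ lv := by
  obtain ⟨o, ho, H⟩ := wb_of ι C hι hC
  refine ⟨o, ho, ?_⟩
  intro I _ X K Q V g Ef Ef' u a Θ Cf Ω x e e0 om δ x0 r t Λ lv lev rr pw hx d0 d1 r0 t0 t1 t2
    o0 o1 hpw hΩ hV hg hQ hW hR hf hK
  have hr : (r : ℂ) ≠ 0 := Complex.ofReal_ne_zero.2 r0.ne'
  have e1 : ∀ y : E, bc (wch x (δ * r) 0) y = bc (wch x δ 0) ((r : ℂ) * y.1, y.2) := fun y =>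
    Prod.ext (wch_sc x δ y.1) rfl
  have e2 : bc (wch x δ 0) = bc (wch x (δ * r) 0) ∘ bc (WACT.sc r⁻¹) := funext fun y => by
    rw [Function.comp, e1]
    simp only [bc, WACT.sc, Complex.ofReal_inv, mul_inv_cancel_left₀ hr]
  have e3 : ∀ z : ℂ, δ * |((r : ℂ) * z).im| = δ * r * |z.im| := fun z => by
    rw [Complex.im_ofReal_mul, abs_mul, abs_of_pos r0, mul_assoc]
  have := H I X K Q V (fun z => g (r * z)) Ef Ef' u a Θ Cf Ω x e e0 om (δ * r) (r⁻¹ * x0) 1 t Λ lv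
    lev rr pw hx (by positivity) d1 one_pos t0 t1 (by rwa [mul_one]) o0 (by simpa using o1) hpw
    (fun z hz => by rw [wch_sc]; exact hΩ _ (box_sc r0 hz)) hV (fun z hz => ?_)
    (fun y hy => by rw [e1]; exact hQ (_, y.2) (box_sc r0 hy)) hW hR (fun z hz c => ?_)
    fun y hy hl => ?_
  · rw [← inv_mul_cancel₀ r0.ne'] at this
    rw [e2]
    exact WACT.wb_sc (inv_pos.2 r0) this
  · obtain ⟨a1, a2, a3, a4⟩ := hg _ (box_sc r0 hz)
    have a5 := AWS.deriv_aff (u := g) (x0 := 0) (r := r) (z := z) (by simpa using a1)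
    simp only [Complex.ofReal_zero, zero_add] at a5
    refine ⟨a5.1, ?_, fun b => a3 (by simp [b]), a4⟩
    rwa [a5.2, one_mul, norm_mul, Complex.norm_real, Real.norm_of_nonneg r0.le]
  · rw [wch_sc, one_mul, mul_comm δ, mul_assoc]
    exact hf _ (box_sc r0 hz) (by rwa [e3])
  · have b := hK ((r : ℂ) * y.1, y.2) ⟨by rw [mem_preimage, ← e1]; exact hy.1, box_sc r0 hy.2⟩
      (by rwa [← e1])
    simp only [mem_preimage, e1, wch_sc, ← e3]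
    exact b

/-- birth windows (linear walls); `Rs` is the rest of the wall -/
theorem bir_win (hB : St_WBIR) : ∃ CN ≥ (1 : ℝ), ∀ c0 CD : ℝ, 0 < c0 → c0 ≤ 1 → ∃ L0 ≥ (13 : ℝ),
    ∀ L M8 Cth : ℝ, L0 ≤ L → LocF c0 CD L → 4 ≤ M8 → ∃ M ≥ (64 : ℝ), ∃ σ0 > (0 : ℝ), ∀ C : ℝ,
    0 ≤ C → ∃ o > (0 : ℝ), ∀ (I : Type) [Fintype I] (X K : Set E) (P : E → ℂ) (Ef Ef' : I → ℝ → ℝ)
    (u : I → ℂ → ℂ) (Cf D0 : ℂ → ℝ) (Bw Rs : ℂ → ℂ) (G th : ℝ → ℝ) (x : ℂ) (δ ρ τ t om y4 : ℝ),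
    WH X K P x δ ρ → 2 * M * δ ≤ ρ → 5 * M8 * δ ≤ t → t ≤ o * ρ → 0 < om → om ≤ o → 0 < τ →
    Shape c0 CD M8 y4 L x δ 0 D0 → BG G th M8 →
    (∀ s, 0 < s → s ≤ 4 * M8 → G s ≤ σ0 * deriv G s) →
    (∀ s t, |th s - th t| ≤ Cth * |s - t|) → (∀ s, 0 ≤ th s ∧ th s ≤ Real.pi / 4) →
    (∀ ζ : ℂ, ‖ζ‖ ≤ ρ / (2 * δ) → 0 ≤ ζ.im → ζ ≠ Complex.I →
      Bw (wch x δ 0 ζ) = G (hgt L D0 ζ) * Complex.exp (Complex.I *
        (if ‖ζ - Complex.I‖ < 4 * Real.exp (-L / 2) then th (hgt L D0 ζ) else 0))) →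
    RL Ef Ef' u om Cf t →
    (∀ z ∈ closedBall x ρ, |Real.log ‖z‖| ≤ 2 * t → ρ * Cf z ≤ C ∧ (‖z‖ ≤ 1 →
      zs Ef u z = τ * G (-Real.log ‖z‖ / δ) + Rs z ∧ 0 ≤ (Rs z).re ∧
      (-Real.log ‖z‖ ≤ 5 * M8 * δ → Rs z = 0))) →
    KW X K P (fun z => τ * Bw z + Rs z) (closedBall x ρ) t (fun y => P y ≠ 0) →
    NeuB (X \ K) P x δ ρ CN 16 fun _ => True := by
  obtain ⟨CN, hCN, H⟩ := hB
  refine ⟨CN, hCN, fun c0 CD c1 c2 => ?_⟩
  obtain ⟨L0, H⟩ := H c0 CD c1 c2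
  refine ⟨max L0 13, le_max_right _ _, fun L M8 Cth hL hF h8 => ?_⟩
  have hL' : 13 ≤ L := (le_max_right _ _).trans hL
  obtain ⟨M, hM, σ0, hσ, H⟩ := H L M8 Cth ((le_max_left _ _).trans hL) hF h8
  refine ⟨M, hM, min σ0 1, by positivity, fun C hC => ?_⟩
  obtain ⟨ι, hι, H⟩ := H (cW C) 0
  obtain ⟨o, ho, HB⟩ := wb_mac ι C hι hC
  refine ⟨min (min (o / 16) (ι / 2)) 1, by positivity, ?_⟩
  intro I _ X K P Ef Ef' u Cf D0 Bw Rs G th x δ ρ τ t om y4 h hρ t0 t1 o0 o1 hτ hS hG hs hth hth2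
    hBw hW hz hK O hO h1 y hy h2 _
  have d0 := h.pos
  have hx := h.hx
  have ρ0 : 0 < ρ := by linarith [h.le]
  have ρ1 := h.rho
  have m1 : min (min (o / 16) (ι / 2)) 1 ≤ o / 16 := (min_le_left _ _).trans (min_le_left _ _)
  have m2 : min (min (o / 16) (ι / 2)) 1 ≤ ι / 2 := (min_le_left _ _).trans (min_le_right _ _)
  have m3 := min_le_right (min (o / 16) (ι / 2)) 1
  have t2 : t ≤ o / 16 * ρ := t1.trans (by gcongr)
  have t3 : t ≤ ι / 2 * ρ := t1.trans (by gcongr)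
  have t4 : t ≤ 1 * ρ := t1.trans (by gcongr)
  have t5 : 0 < 5 * M8 * δ := by positivity
  set R := ρ / (2 * δ) with hR
  have R0 : δ * R = ρ / 2 := by rw [hR]; field_simp
  have R1 := h.big
  have τ0 : (τ : ℂ) ≠ 0 := Complex.ofReal_ne_zero.2 hτ.ne'
  have nτ : ∀ v : ℂ, ‖v / τ‖ = ‖v‖ / τ := fun v => by
    rw [norm_div, Complex.norm_real, Real.norm_of_nonneg hτ.le]
  have gd : ∀ s, HasDerivAt G (deriv G s) s := fun s =>
    (hG.smooth.differentiable (by simp) s).hasDerivAt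
  have gm : Monotone G := monotone_of_deriv_nonneg (hG.smooth.differentiable (by simp)) hG.mono
  have g0 : ∀ s, 0 ≤ G s := fun s => (le_or_gt s 0).elim (fun a => (hG.zero s a).ge)
    fun a => (hG.pos s a).le
  have lw : ∀ z : ℂ, -Real.log ‖wch x δ 0 z‖ = δ * z.im := fun z => by rw [log_wch hx, add_zero]
  have lw' : ∀ z : ℂ, -Real.log ‖wch x δ 0 z‖ / δ = z.im := fun z => by rw [lw]; field_simp
  have up1 : ∀ z : ℂ, 0 ≤ z.im → ‖wch x δ 0 z‖ ≤ 1 := fun z a => by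
    rw [norm_wch hx, Real.exp_le_one_iff]; nlinarith
  have nB : ∀ z : ℂ, ‖z‖ ≤ R → 0 ≤ z.im → z ≠ Complex.I →
      ‖Bw (wch x δ 0 z)‖ = G (hgt L D0 z) := fun z a b c => by
    rw [hBw z a b c, norm_mul, Complex.norm_real, Real.norm_of_nonneg (g0 _), Complex.norm_exp]
    split_ifs <;> simp
  have pure : ∀ z : ℂ, ‖z‖ ≤ R → 0 ≤ z.im → M8 ≤ ‖z‖ →
      hgt L D0 z = z.im ∧ Bw (wch x δ 0 z) = G z.im := fun z a b c => by
    have c1 := hS.far z (by linarith) (Or.inl c)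
    refine ⟨c1, ?_⟩
    rw [hBw z a b (fun e => by rw [e, Complex.norm_I] at c; linarith), c1,
      if_neg (not_lt.2 (WBIR.far (by linarith) (by linarith)))]
    simp
  have ebw : ∀ z : ℂ, ‖z‖ ≤ R → 0 ≤ z.im → z ≠ Complex.I → 0 < hgt L D0 z →
      bw L D0 (fun s => Real.log (G s)) th z = Bw (wch x δ 0 z) := fun z a b c d => by
    rw [hBw z a b c, bw, Complex.exp_add, ← Complex.ofReal_exp, Real.exp_log (hG.pos _ d)]
  have low : ∀ z : ℂ, ‖z‖ ≤ R → 0 ≤ z.im → hgt L D0 z ≤ 4 * M8 → z.im ≤ 4 * M8 := fun z a b c => by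
    rcases le_total M8 ‖z‖ with d | d
    · rwa [← (pure z a b d).1]
    · linarith [Complex.im_le_norm z]
  have rs0 : ∀ z : ℂ, ‖z‖ ≤ R → 0 ≤ z.im → z.im ≤ 4 * M8 → |Real.log ‖wch x δ 0 z‖| ≤ 2 * t ∧
      Rs (wch x δ 0 z) = 0 := fun z a b c => by
    have c1 : |Real.log ‖wch x δ 0 z‖| ≤ 2 * t := by
      rw [abs_log_wch hx d0, abs_of_nonneg b]; nlinarith
    exact ⟨c1, ((hz _ (wch_ball hx d0 ρ1 a) c1).2 (up1 z b)).2.2 (by rw [lw]; nlinarith)⟩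
  have lv1 : G (M8 + 1) ≤ G (2 * M8) * Real.exp (-3) := by
    have a1 := WBIR.grow (H := 4 * M8) one_pos gd hG.pos (fun s a b => (hs s a b).trans
      (mul_le_mul_of_nonneg_right (min_le_right _ _) (hG.mono s))) (s := M8 + 1) (t := 2 * M8)
      (by linarith) (by linarith) (by linarith)
    rw [← Real.exp_log (hG.pos (M8 + 1) (by linarith)), ← Real.exp_log (hG.pos (2 * M8)
      (by linarith)), ← Real.exp_add]
    exact Real.exp_le_exp.2 (by linarith)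
  obtain ⟨rr, hW'⟩ := hW.rw o0.le
  have key := H (bc (wch x δ 0) ⁻¹' X) (bc (wch x δ 0) ⁻¹' K) (fun y => P (bc (wch x δ 0) y) / τ)
    D0 G (deriv G) th R (by rw [hR, le_div_iff₀ (by positivity)]; linarith)
    (by nlinarith) hS.dev (fun z a b => hS.far z (by linarith) (Or.inl b)) gd hG.zero hG.pos
    (fun s a b => (hs s a b).trans (mul_le_mul_of_nonneg_right (min_le_left _ _) (hG.mono s)))
    hth (fun s a => hG.th0 s (by linarith)) hth2 h.np' h.up'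
    (fun v hv => (h.an' v hv).div_const) (fun v a b => ?_) (fun v hv hk hp => ?_)
    (fun v hv a b c d => ?_) (fun x0 a => ?_) (O / τ) (by positivity)
    (fun v a b c d => by rw [nτ]; gcongr; exact h1 v ⟨a, b⟩ c d) y hy.1 hy.2 h2
  · rwa [nτ, ← mul_div_assoc, div_le_div_iff_of_pos_right hτ] at key
  · obtain ⟨F, a1, a2⟩ := h.anB' v a b
    exact ⟨fun w => F w / τ, a1.div_const, a2.mono fun w hw => by rw [hw, mul_div_assoc]⟩
  · have v1 := mem_closedBall_zero_iff.1 hv.2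
    have v2 := h.up' v hv
    have p0 : P (bc (wch x δ 0) v) ≠ 0 := fun e => hp (by rw [e, zero_div])
    have v3 : v.1 ≠ Complex.I := fun e => by
      obtain ⟨F, -, a2⟩ := h.anB' v hv.1 e
      exact p0 (by rw [a2.self_of_nhds, e, sub_self, zero_mul])
    obtain ⟨k1, k2⟩ := (hK (bc (wch x δ 0) v) ⟨hv.1, h.mem hv.2⟩ p0).1 hk
    change |Real.log ‖wch x δ 0 v.1‖| ≤ t at k1
    change _ = τ * Bw (wch x δ 0 v.1) + Rs (wch x δ 0 v.1) at k2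
    have k3 : hgt L D0 v.1 ≤ 4 * M8 → P (bc (wch x δ 0) v) = τ * Bw (wch x δ 0 v.1) := fun a => by
      rw [k2, (rs0 _ v1 v2 (low _ v1 v2 a)).2, add_zero]
    have k4 : 0 < hgt L D0 v.1 := not_le.1 fun a => p0 (by
      rw [k3 (by linarith), norm_eq_zero.1 ((nB _ v1 v2 v3).trans (hG.zero _ a)), mul_zero])
    refine ⟨v3, k4, fun a => by rw [k3 a, ebw _ v1 v2 v3 k4, mul_div_cancel_left₀ _ τ0],
      fun a => ?_⟩
    obtain ⟨b1, b2⟩ := pure _ v1 v2 (by linarith [hS.le _ v2 v3, Complex.im_le_norm v.1])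
    obtain ⟨b3, b4, -⟩ := (hz _ (h.mem hv.2) (by linarith [abs_nonneg (Real.log ‖wch x δ 0 v.1‖)])).2
      (up1 _ v2)
    rw [lw', ← b2, ← k2] at b3
    have b5 := (hW.im_le o0 (wch_ne (ne0 hx) v.1)
      (by linarith [abs_nonneg (Real.log ‖wch x δ 0 v.1‖)])).1
    rw [b3] at b5
    rw [abs_log_wch hx d0, abs_of_nonneg v2] at k1
    have b6 := Complex.abs_re_le_norm (P (bc (wch x δ 0) v))
    refine ⟨?_, by nlinarith, ?_⟩
    · rw [nτ, le_div_iff₀ hτ]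
      have b7 : (P (bc (wch x δ 0) v)).re = τ * G v.1.im + (Rs (wch x δ 0 v.1)).re := by
        rw [k2, b2]; simp
      nlinarith [gm (show 4 * M8 ≤ v.1.im by linarith), le_abs_self (P (bc (wch x δ 0) v)).re]
    · rw [nτ, Complex.div_ofReal_im, abs_div, abs_of_pos hτ, ← mul_div_assoc]
      gcongr
      nlinarith [abs_nonneg (P (bc (wch x δ 0) v)).re]
  · have v1 := mem_closedBall_zero_iff.1 hv.2
    have v2 := h.up' v hv
    obtain ⟨k1, k2⟩ := rs0 _ v1 v2 (low _ v1 v2 c)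
    rw [ebw _ v1 v2 a b, div_eq_iff τ0] at d
    refine (hK (bc (wch x δ 0) v) ⟨hv.1, h.mem hv.2⟩ ?_).2 k1 ?_
    · change P _ ≠ 0
      rw [d]
      exact mul_ne_zero (norm_pos_iff.1 ((nB _ v1 v2 a).symm ▸ hG.pos _ b)) τ0
    · change _ = τ * Bw (wch x δ 0 v.1) + Rs (wch x δ 0 v.1)
      rw [k2, d, add_zero, mul_comm]
  · have bs : ∀ z ∈ box x0 (R / 8) (R / 8), ‖z‖ ≤ R := fun z hz => box_norm (by linarith) hz
    refine HB I X K (fun y => P y / τ) P (fun _ => ((-2 * Real.log τ : ℝ) : ℂ)) Ef Ef' u _ _ Cf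
      (closedBall x ρ) x 0 0 om δ x0 (R / 8) t 0 _ 0 rr 2 hx d0 (by linarith) (by linarith)
      (by linarith) (by linarith) (by nlinarith) o0 (by linarith) (Or.inr rfl)
      (fun z hz => wch_ball hx d0 ρ1 (bs z hz)) h.an
      (fun z _ => ⟨analyticAt_const, by simp, fun _ => by simpa using hι.le, by
        rw [zero_mul]; positivity⟩) (fun v _ => ?_) hW' (Or.inl ⟨rfl, le_rfl⟩) (fun z a b => ?_)
      fun v hv hl => ?_
    · rw [← Complex.ofReal_exp, show -2 * Real.log τ = -(Real.log τ + Real.log τ) by ring,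
        Real.exp_neg, Real.exp_add, Real.exp_log hτ, pp]
      push_cast
      field_simp
      ring
    · have := (hz _ (wch_ball hx d0 ρ1 (bs z a)) (by rwa [abs_log_wch hx d0])).1
      rw [← mul_assoc, show R / 8 * δ = ρ / 16 by linarith]
      linarith
    have v1 := bs _ hv.2
    have v0 : v ∈ ov (bc (wch x δ 0) ⁻¹' X) (closedBall 0 R) := ⟨hv.1, mem_closedBall_zero_iff.2 v1⟩
    have v2 := h.up' v v0
    rw [nτ, lt_div_iff₀ hτ] at hl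
    have l0 : 0 ≤ G (2 * M8) * Real.exp (-3) * τ := mul_nonneg (mul_nonneg (g0 _) (Real.exp_pos _).le) hτ.le
    have p0 : P (bc (wch x δ 0) v) ≠ 0 := norm_pos_iff.1 (l0.trans_lt hl)
    have v3 : v.1 ≠ Complex.I := fun e => by
      obtain ⟨F, -, a2⟩ := h.anB' v hv.1 e
      exact p0 (by rw [a2.self_of_nhds, e, sub_self, zero_mul])
    have k := hK (bc (wch x δ 0) v) ⟨hv.1, h.mem v0.2⟩ p0
    change (_ → |Real.log ‖wch x δ 0 v.1‖| ≤ t ∧ _ = τ * Bw (wch x δ 0 v.1) + Rs (wch x δ 0 v.1)) ∧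
      (|Real.log ‖wch x δ 0 v.1‖| ≤ 2 * t → _ = τ * Bw (wch x δ 0 v.1) + Rs (wch x δ 0 v.1) → _)
      at k
    rw [← abs_log_wch hx d0]
    have k1 : |Real.log ‖wch x δ 0 v.1‖| ≤ 2 * t →
        zs Ef u (wch x δ 0 v.1) = τ * G v.1.im + Rs (wch x δ 0 v.1) := fun a => by
      rw [((hz _ (h.mem v0.2) a).2 (up1 _ v2)).1, lw']
    rcases le_total M8 ‖v.1‖ with c | c
    · rw [(pure _ v1 v2 c).2] at k
      exact ⟨fun a => ⟨(k.1 a).1, by
        rw [k1 (by linarith [(k.1 a).1, abs_nonneg (Real.log ‖wch x δ 0 v.1‖)])]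
        exact (k.1 a).2⟩, fun a b => k.2 a (by rw [← k1 a]; exact b)⟩
    · have c1 := Complex.im_le_norm v.1
      obtain ⟨c2, c3⟩ := rs0 _ v1 v2 (by linarith)
      refine ⟨fun a => ?_, fun a b => ?_⟩
      · rw [(k.1 a).2, c3, add_zero, norm_mul, nB _ v1 v2 v3, Complex.norm_real,
          Real.norm_of_nonneg hτ.le] at hl
        nlinarith [gm (show hgt L D0 v.1 ≤ M8 + 1 by linarith [hS.le _ v2 v3])]
      · change P _ = zs _ _ _ at b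
        rw [b, k1 a, c3, add_zero, norm_mul, Complex.norm_real, Complex.norm_real,
          Real.norm_of_nonneg hτ.le, Real.norm_of_nonneg (g0 _)] at hl
        nlinarith [gm (show v.1.im ≤ M8 + 1 by linarith)]

end Pool.Agent.Lib.SH.Ring
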