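import Pool.Agent.Lib.SH.Blue7

/-!
Blueprint of the project SH: chart lemmas for the site of the split.  `V` is the fibre function
with the two roots `0` and `e`.
-/

open Set Filter Topology Metric

noncomputable section

namespace Pool.Agent.Lib.SH

/-- wall structure of `V` over a box, both readings, for the points with `b < ‖V‖` -/
def VB (X K : Set E) (V : E → ℂ) (e b x0 r ι C0 : ℝ) : Prop :=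
  AnalyticOnNhd ℂ V (ov X (box x0 r r)) ∧ ∃ (ι' : ℝ) (Ψ Ψy : ℝ → ℝ → ℂ),
    PW (Icc (-1) 1) e ι ι' C0 0 Ψ Ψy ∧ PW (Icc (-1) 1) 0 ι ι' C0 (4 * e ^ 2) Ψ Ψy ∧
    (∀ y ∈ ov X (box x0 r r), y ∈ K → b < ‖V y‖ →
      |y.1.im / r| ≤ ι' ∧ V y = Ψ ((y.1.re - x0) / r) (y.1.im / r)) ∧
    ∀ y ∈ ov X (box x0 r r), b < ‖V y‖ → |y.1.im / r| ≤ 2 * ι' →
      V y = Ψ ((y.1.re - x0) / r) (y.1.im / r) → y ∈ K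

/-! ### ports -/

/-- a port after the split, over the unit disc: `V = z N`, linear coordinate `z N0` -/
structure PortS (X K : Set E) (N N0 : E → ℂ) (e η θ γ ι C0 Mup0 : ℝ) : Prop where
  num : 0 < e ∧ η ≤ -1 ∧ 0 < θ ∧ θ ≤ 1 ∧ γ * (1 - η) ≤ 3
  np : NP X K (closedBall 0 1)
  an : AnalyticOnNhd ℂ N (ov X (closedBall 0 1)) ∧ AnalyticOnNhd ℂ N0 (ov X (closedBall 0 1))
  cmp : ∀ y ∈ ov X (closedBall 0 1), ‖N y - N0 y‖ ≤ ‖N0 y‖ / 10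
  wall : ∃ (ι' : ℝ) (Ψ Ψy : ℝ → ℝ → ℂ), PW univ e ι ι' C0 0 Ψ Ψy ∧
    PW univ 0 ι ι' C0 (4 * e ^ 2) Ψ Ψy ∧
    (∀ y ∈ ov X (closedBall 0 1), y ∈ K →
      (|Real.log ‖y.1‖ - η| ≤ ι' ∧ ∀ t s : ℝ,
        y.1 = Complex.exp (η - Complex.I * (t + s * Complex.I)) → y.1 * N y = Ψ t s) ∨
      (‖y.1‖ ≤ Real.exp η ∧ ‖N y‖ ≤ θ * e * Real.exp (-η) / 10)) ∧
    ∀ y ∈ ov X (closedBall 0 1), ∀ t s : ℝ, |s| ≤ 2 * ι' →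
      y.1 = Complex.exp (η - Complex.I * (t + s * Complex.I)) → y.1 * N y = Ψ t s → y ∈ K
  low : PPH2 {y | y ∈ X ∧ ‖y.1 * N y‖ ≤ e / 2} K N0 0 γ ι C0 0 Mup0
  fill : ∃ r0 > (0 : ℝ), r0 ≤ 1 ∧ ∀ y ∈ ov X (closedBall 0 r0), y ∈ K → N0 y = 0

def St_PORT : Prop := ∀ γ C0 : ℝ, 0 < γ → γ ≤ 1 / 2 → ∃ ι > (0 : ℝ),
  ∀ (X K : Set E) (N N0 : E → ℂ) (e η θ Mup0 : ℝ), PortS X K N N0 e η θ γ ι C0 Mup0 →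
    (∀ B : ℝ, θ * e ^ 2 ≤ B → (∀ y ∈ X, y ∉ K → ‖y.1‖ = 1 → ‖pp e (y.1 * N y)‖ ≤ B) →
      ∀ y ∈ ov X (closedBall 0 1), y ∉ K → ‖pp e (y.1 * N y)‖ * ‖y.1‖ ^ γ ≤ B ∧
        ‖pp e (y.1 * N y)‖ ≤ Real.exp 3 * B) ∧
    PortB (X \ K) (fun y => ‖y.1 * N y‖) 0 1 e 20 ∧
    ∀ θ1 : ℝ, 0 ≤ θ1 → θ1 ≤ 1 / 16 → (2 * θ1 * e) ^ 2 ≤ Mup0 →
      (∀ y ∈ ov X (closedBall 0 1), y ∉ K → ‖pp e (y.1 * N y)‖ ≤ θ1 * e ^ 2) →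
      (∀ y ∈ ov X (closedBall 0 1), ‖y.1 * N y - e‖ ≤ e / 2 → Real.exp (η - 1 / 4) ≤ ‖y.1‖) ∧
      (∀ B : ℝ, 0 ≤ B → (∀ y ∈ X, y ∉ K → ‖y.1 * N y - e‖ ≤ e / 2 → ‖y.1‖ = 1 →
          ‖pp e (y.1 * N y)‖ ≤ B) →
        ∀ y ∈ ov X (closedBall 0 1), y ∉ K → ‖y.1 * N y - e‖ ≤ e / 2 →
          ‖pp e (y.1 * N y)‖ * ‖y.1‖ ^ γ ≤ B) ∧
      (∀ B : ℝ, 0 ≤ B → (∀ y ∈ X, y ∉ K → ‖y.1 * N y‖ ≤ e / 2 → ‖y.1‖ = 1 →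
          ‖pp e (y.1 * N y)‖ ≤ B) →
        ∀ y ∈ ov X (closedBall 0 1), y ∉ K → ‖y.1 * N y‖ ≤ e / 2 →
          ‖pp e (y.1 * N y)‖ * ‖y.1‖ ^ γ ≤ 2 * B ∧ (B = 0 → N0 y = 0))

/-! ### windows with a pinned zero -/

/-- the positive multiplier in the window chart -/
def sq1 (z : ℂ) : ℂ := (z + 1) ^ 2 + 2

/-- a window with a pinned zero after the split, in the window chart -/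
structure NWin (X K : Set E) (V Pt : E → ℂ) (e L ι R C0 : ℝ) : Prop where
  np : NP X K (closedBall 0 R)
  up : ∀ y ∈ ov X (closedBall 0 R), 0 ≤ y.1.im
  an : AnalyticOnNhd ℂ Pt (ov X (closedBall 0 R))
  anB : ∀ y ∈ X, y.1 = Complex.I → ∃ G : E → ℂ, AnalyticAt ℂ G y ∧
    ∀ᶠ x in 𝓝 y, Pt x = (x.1 - Complex.I) * G x
  eq : ∀ y : E, ‖y.1‖ ≤ R → sq1 y.1 ≠ 0 → Pt y = V y * sq1 y.1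
  cls : ∀ y ∈ ov X (closedBall 0 R), y ∈ K → |(V y).im| ≤ ι * ss e (V y) ∧ 0 ≤ (V y).re ∧
    (y.1.im ≤ ι ∨ (|Real.log ‖bl y.1‖ + L| ≤ 1 ∧ y.1 ≠ Complex.I) ∨
      (‖bl y.1‖ ≤ Real.exp (-L + 1) ∧ ‖V y‖ ≤ ι * e * Real.exp L * ‖bl y.1‖))
  vb : ∀ x0 r : ℝ, |x0| ≤ R / 2 → ((4 ≤ |x0| ∧ r = |x0| / 8) ∨ r = 1 / 2 ∨ r = 1 / 16) →
    VB X K V e 0 x0 r ι C0
  sheet : ∀ z : ℂ, ‖z‖ ≤ R → ι < z.im → Real.exp (-L + 2) ≤ ‖bl z‖ → sq1 z ≠ 0 →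
    ∃ y ∈ X, y.1 = z ∧ V y = e
  ppp : ∀ b : ℝ, e ≤ b →
    (∀ y ∈ X, y ∉ K → Real.exp (-L + 3) ≤ ‖bl y.1‖ → ‖bl y.1‖ ≤ Real.exp (-L + 4) →
      ‖V y‖ ≤ b) →
    ∀ y ∈ X, y ∉ K → ‖y.1‖ ≤ R → ‖bl y.1‖ ≤ Real.exp (-L + 3) → ‖V y‖ ≤ 20 * b

/-- active above the threshold -/
def St_NB1 : Prop := ∃ L0 : ℝ, ∀ β L : ℝ, 0 < β → β ≤ 1 → L0 ≤ L → ∃ M ≥ (1 : ℝ), ∀ C0 : ℝ,
  ∃ ι > (0 : ℝ), ∀ (X K : Set E) (V Pt : E → ℂ) (x : ℂ) (δ ρ e T : ℝ), ‖x‖ = 1 → 0 < δ →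
    ρ ≤ 1 / 8 → 0 < e → 1 ≤ T → M * δ ≤ ρ →
    NWin (bc (wch x δ 0) ⁻¹' X) (bc (wch x δ 0) ⁻¹' K) (fun y => V (bc (wch x δ 0) y)) Pt e L ι
      (ρ / (2 * δ)) C0 →
    GP (X \ K) (fun y => ‖pp e (V y)‖) x (-(2 * β)) (M * T ^ 2) (100 * δ) ρ (e ^ 2 / T ^ 2)

/-- neutral at all levels -/
def St_NB2 : Prop := ∃ L0 : ℝ, ∃ M ≥ (1 : ℝ), ∃ c0 > (0 : ℝ), ∀ L C0 : ℝ, L0 ≤ L →
  ∃ ι0 > (0 : ℝ), ∀ (X K : Set E) (V Pt : E → ℂ) (x : ℂ) (δ ρ e ι : ℝ), ‖x‖ = 1 → 0 < δ →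
    ρ ≤ 1 / 8 → 0 < e → M * δ ≤ ρ → 0 < ι → ι ≤ ι0 → ι * (1 + Real.log (ρ / (2 * δ))) ≤ c0 →
    NWin (bc (wch x δ 0) ⁻¹' X) (bc (wch x δ 0) ⁻¹' K) (fun y => V (bc (wch x δ 0) y)) Pt e L ι
      (ρ / (2 * δ)) C0 →
    GP (X \ K) (fun y => ‖pp e (V y)‖) x (-4) M (100 * δ) ρ 0 ∧
    ((∀ y ∈ X, y ∉ K → ρ / M ≤ ‖y.1 - x‖ → ‖y.1 - x‖ ≤ ρ → pp e (V y) = 0) →
      ∀ y ∈ bc (wch x δ 0) ⁻¹' X, y ∉ bc (wch x δ 0) ⁻¹' K → ‖y.1‖ ≤ ρ / (2 * δ) →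
        Real.exp (-L + 2) ≤ ‖bl y.1‖ → Pt y * (Pt y - e * sq1 y.1) = 0)

/-! ### windows born in the split -/

/-- the lower part of a window born in the split, in the window chart -/
structure W3L (X K : Set E) (V P : E → ℂ) (D0 : ℂ → ℝ) (G th : ℝ → ℝ) (e b L M8 R : ℝ) :
    Prop where
  num : 0 < b ∧ 100 * b ≤ e
  np : NP X K (closedBall 0 R)
  up : ∀ y ∈ ov X (closedBall 0 R), 0 ≤ y.1.im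
  an : AnalyticOnNhd ℂ V (ov X (closedBall 0 R)) ∧ AnalyticOnNhd ℂ P (ov X (closedBall 0 R))
  anB : ∀ y ∈ X, y.1 = Complex.I → ∃ F : E → ℂ, AnalyticAt ℂ F y ∧
    ∀ᶠ x in 𝓝 y, P x = (x.1 - Complex.I) * F x
  cmp : ∀ y ∈ ov X (closedBall 0 R), ‖P y‖ ≤ 2 * ‖V y‖ ∧ (2 ≤ ‖y.1‖ → ‖V y‖ ≤ 8 * ‖P y‖)
  lo : ∀ y ∈ ov X (closedBall 0 R), y ∈ K → ‖V y‖ ≤ 20 * b → P y ≠ 0 →
    y.1 ≠ Complex.I ∧ 0 < hgt L D0 y.1 ∧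
      (hgt L D0 y.1 ≤ 4 * M8 → P y = bw L D0 (fun s => Real.log (G s)) th y.1) ∧
      (4 * M8 < hgt L D0 y.1 → G (4 * M8) ≤ ‖P y‖)
  conv : ∀ y ∈ ov X (closedBall 0 R), ‖V y‖ ≤ 20 * b → y.1 ≠ Complex.I → 0 < hgt L D0 y.1 →
    hgt L D0 y.1 ≤ 4 * M8 → P y = bw L D0 (fun s => Real.log (G s)) th y.1 → y ∈ K

/-- the upper part -/
structure W3U (X K : Set E) (V P : E → ℂ) (D0 : ℂ → ℝ) (G : ℝ → ℝ) (e b L M8 ι R C0 : ℝ) :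
    Prop where
  hi : ∀ y ∈ ov X (closedBall 0 R), y ∈ K → b < ‖V y‖ →
    y.1.im ≤ ι * R ∧ |(V y).im| ≤ ι * ss e (V y)
  vb : ∀ x0 r : ℝ, |x0| ≤ 5 / 8 * R → (r = R / 8 ∨ r = R / 16) → VB X K V e b x0 r ι C0
  mid : ∀ y ∈ ov X (closedBall 0 R), y ∈ K → ‖V y‖ ≤ 20 * b → P y ≠ 0 →
    4 * M8 < hgt L D0 y.1 → y.1.im ≤ ι * R ∧ |(P y).im| ≤ ι * ‖P y‖
  wb : ∀ x0 : ℝ, |x0| ≤ 5 / 16 * R →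
    WB {y | y ∈ X ∧ ‖V y‖ ≤ 20 * b} K P x0 (R / 16) ι C0 1 (G (2 * M8) * Real.exp (-3))

/-- conditions on the angle function -/
def ThOK (th : ℝ → ℝ) (Cth : ℝ) : Prop :=
  (∀ s t, |th s - th t| ≤ Cth * |s - t|) ∧ (∀ s, 2 / 5 ≤ s → th s = 0) ∧
    (∀ s, s ≤ 1 / 4 → th s = Real.pi / 4) ∧ ∀ s, 0 ≤ th s ∧ th s ≤ Real.pi / 4

/-- neutral at all levels, with the bounds on the inner disc -/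
def St_W3N : Prop := ∀ c0 CD : ℝ, 0 < c0 → c0 ≤ 1 → ∃ L0 : ℝ, ∀ L M8 Cth : ℝ, L0 ≤ L →
  LocF c0 CD L → 4 ≤ M8 → ∃ M ≥ (1 : ℝ), ∃ σ0 > (0 : ℝ), ∀ C0 : ℝ, ∃ ι > (0 : ℝ),
  ∀ (X K : Set E) (V P : E → ℂ) (D0 : ℂ → ℝ) (G th : ℝ → ℝ) (x : ℂ) (δ ρ e b y4 : ℝ), ‖x‖ = 1 →
    0 < δ → ρ ≤ 1 / 8 → M * δ ≤ ι * ρ → Shape c0 CD M8 y4 L x δ 0 D0 → ThOK th Cth →
    Differentiable ℝ G → (∀ s, s ≤ 0 → G s = 0) → (∀ s, 0 < s → 0 < G s) →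
    (∀ s, 0 < s → s ≤ 4 * M8 → G s ≤ σ0 * deriv G s) →
    W3L (bc (wch x δ 0) ⁻¹' X) (bc (wch x δ 0) ⁻¹' K) (fun y => V (bc (wch x δ 0) y))
      (fun y => P (bc (wch x δ 0) y)) D0 G th e b L M8 (ρ / (2 * δ)) →
    W3U (bc (wch x δ 0) ⁻¹' X) (bc (wch x δ 0) ⁻¹' K) (fun y => V (bc (wch x δ 0) y))
      (fun y => P (bc (wch x δ 0) y)) D0 G e b L M8 ι (ρ / (2 * δ)) C0 →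
    GP (X \ K) (fun y => ‖pp e (V y)‖) x 0 M (100 * δ) ρ 0 ∧
    ∀ O : ℝ, 0 ≤ O → O ≤ 2 * b * e →
      (∀ y ∈ X, y ∉ K → ρ / M ≤ ‖y.1 - x‖ → ‖y.1 - x‖ ≤ ρ → ‖pp e (V y)‖ ≤ O) →
      ∀ y ∈ bc (wch x δ 0) ⁻¹' X, y ∉ bc (wch x δ 0) ⁻¹' K → ‖y.1‖ ≤ ρ / (8 * δ) →
        (‖V (bc (wch x δ 0) y)‖ ≤ 10 * b ∧ ‖P (bc (wch x δ 0) y)‖ * e ≤ M * O) ∨
        (‖V (bc (wch x δ 0) y) - e‖ ≤ 10 * b ∧ ‖pp e (V (bc (wch x δ 0) y))‖ ≤ M * O)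

/-- active on the part near the old sheet, for small amplitudes -/
def St_W3A : Prop := ∃ L0 : ℝ, ∀ β L : ℝ, 0 < β → β ≤ 1 → L0 ≤ L → ∃ M ≥ (1 : ℝ), ∃ N1 : ℝ,
  ∀ y4 s1 : ℝ, 0 < y4 → y4 ≤ 1 / 4 → 0 < s1 → ∃ s2 > (0 : ℝ),
  ∀ (X K : Set E) (V P : E → ℂ) (D0 : ℂ → ℝ) (G th : ℝ → ℝ) (x : ℂ) (c0 CD Cth M8 δ ρ e b : ℝ),
    ‖x‖ = 1 → 0 < δ → ρ ≤ 1 / 8 → M * δ ≤ ρ → 4 ≤ M8 → Shape c0 CD M8 y4 L x δ 0 D0 →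
    ThOK th Cth → Differentiable ℝ G → (∀ s, s ≤ 0 → G s = 0) → (∀ s, 0 < s → 0 < G s) →
    (∀ s, 0 ≤ deriv G s) → (∀ s, 0 < s → s ≤ s1 → N1 * G s ≤ s * deriv G s) →
    W3L (bc (wch x δ 0) ⁻¹' X) (bc (wch x δ 0) ⁻¹' K) (fun y => V (bc (wch x δ 0) y))
      (fun y => P (bc (wch x δ 0) y)) D0 G th e b L M8 (ρ / (2 * δ)) →
    (∀ y ∈ bc (wch x δ 0) ⁻¹' X, y ∉ bc (wch x δ 0) ⁻¹' K → ‖y.1‖ ≤ ρ / (2 * δ) →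
      ‖V (bc (wch x δ 0) y)‖ ≤ e / 2 →
      ‖V (bc (wch x δ 0) y)‖ ≤ 10 * b ∧ ‖P (bc (wch x δ 0) y)‖ ≤ G s2) →
    GP ({y | y ∈ X ∧ ‖V y‖ ≤ e / 2} \ K) (fun y => ‖pp e (V y)‖) x (2 - β) M (100 * δ) ρ 0

end Pool.Agent.Lib.SH
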