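import Pool.Agent.Lib.SH.Ring2
import Pool.Agent.Lib.SH.All1

/-!
Linear walls, window properties, ports.
-/

open Set Filter Topology Metric

noncomputable section

namespace Pool.Agent.Lib.SH.Ring

open Win

variable {x : ℂ} {δ ρ : ℝ}

/-- linear wall data over the thin annulus of depth at most `2 t` -/
structure RL {I : Type} [Fintype I] (Ef Ef' : I → ℝ → ℝ) (u : I → ℂ → ℂ) (om : ℝ) (Cf : ℂ → ℝ)
    (t : ℝ) : Prop where
  der : ∀ i, ∀ y ∈ Icc (-(2 * t)) (2 * t), HasDerivAt (Ef i) (Ef' i y) y ∧ 0 ≤ Ef' i y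
  dir : ∀ i, ∀ y ∈ Icc (-(2 * t)) (2 * t), (∀ᶠ s in 𝓝 y, Ef i s = 0) ∨
    ∀ z : ℂ, ‖z‖ = Real.exp (-y) → DirZ (u i) om (Cf z) z
  steep : ∀ y ∈ Icc (-(2 * t)) (2 * t), ∀ z : ℂ, ‖z‖ = Real.exp (-y) →
    ∑ i, |Ef i y| * ‖u i z‖ ≤ t / 4 * ∑ i, Ef' i y * ‖u i z‖
  coh : ∀ y ∈ Icc (-(2 * t)) (2 * t), Coh fun i => Ef i y

section
variable {I : Type} [Fintype I] {Ef Ef' : I → ℝ → ℝ} {u : I → ℂ → ℂ} {om t : ℝ} {Cf : ℂ → ℝ}

theorem thin_mem {z : ℂ} (h0 : z ≠ 0) (h : |Real.log ‖z‖| ≤ 2 * t) :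
    -Real.log ‖z‖ ∈ Icc (-(2 * t)) (2 * t) ∧ ‖z‖ = Real.exp (-(-Real.log ‖z‖)) := by
  rw [abs_le] at h
  exact ⟨⟨by linarith, by linarith⟩, by rw [neg_neg, Real.exp_log (norm_pos_iff.2 h0)]⟩

theorem RL.rw (h : RL Ef Ef' u om Cf t) (ho : 0 ≤ om) :
    ∃ r, RW Ef Ef' u (fun _ => 0) (fun y => y.2) 0 om Cf t r := by
  have hc : ContinuousOn (zs Ef u) (closedBall 0 (Real.exp (2 * t)) \ ball 0 (Real.exp (-(2 * t)))) := by
    intro z hz
    have a1 : Real.exp (-(2 * t)) ≤ ‖z‖ := by simpa using hz.2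
    have a2 : 0 < ‖z‖ := (Real.exp_pos _).trans_le a1
    obtain ⟨a3, a4⟩ := thin_mem (t := t) (norm_pos_iff.1 a2) (abs_le.2
      ⟨(Real.le_log_iff_exp_le a2).2 a1,
        (Real.log_le_iff_le_exp a2).2 (mem_closedBall_zero_iff.1 hz.1)⟩)
    have a5 : ContinuousAt (fun z : ℂ => -Real.log ‖z‖) z :=
      (continuous_norm.continuousAt.log a2.ne').neg
    refine ContinuousAt.continuousWithinAt (tendsto_finsetSum _ fun i _ => ?_)
    rcases h.dir i _ a3 with b | b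
    · have b1 := a5.eventually b
      rw [b1.self_of_nhds]
      refine tendsto_const_nhds.congr' (b1.mono fun v hv => ?_)
      simp [hv]
    · exact (Complex.continuous_ofReal.continuousAt.comp
        (ContinuousAt.comp (f := fun z : ℂ => -Real.log ‖z‖) (h.der i _ a3).1.continuousAt
          a5)).mul (b z a4).1.continuousAt
  obtain ⟨r, hr⟩ := ((isCompact_closedBall _ _).diff isOpen_ball).exists_bound_of_continuousOn hc
  refine ⟨max r 0, h.der, fun y hy => Or.inr ⟨fun z _ => by simp, fun i =>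
    (h.dir i y hy).imp (fun a => ⟨a, rfl⟩) id⟩, fun y hy z hz => Or.inl (h.steep y hy z hz),
    fun y hy => ⟨h.coh y hy, by simpa using h.coh y hy⟩, ⟨le_rfl, le_max_right _ _⟩,
    fun y hy z hz => ⟨le_trans ?_ (le_max_left _ _), st_thid.1 _ _ _ _ ho⟩⟩
  have := hr z ⟨by rw [mem_closedBall_zero_iff, hz]; exact Real.exp_le_exp.2 (by linarith [hy.1]),
    by rw [mem_ball_zero_iff, hz, not_lt]; exact Real.exp_le_exp.2 (by linarith [hy.2])⟩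
  rwa [zs, hz, Real.log_exp, neg_neg] at this

/-- the values of a linear wall are nearly real -/
theorem RL.im_le (h : RL Ef Ef' u om Cf t) (ho : 0 < om) {z : ℂ} (h0 : z ≠ 0)
    (hz : |Real.log ‖z‖| ≤ 2 * t) : |(zs Ef u z).im| ≤ om * |(zs Ef u z).re| ∧
      ((∀ i, 0 ≤ Ef i (-Real.log ‖z‖)) → 0 ≤ (zs Ef u z).re) := by
  obtain ⟨a3, a4⟩ := thin_mem h0 hz
  set y := -Real.log ‖z‖
  have k : ∀ i, |Ef i y * (u i z).im| ≤ om * (|Ef i y| * (u i z).re) ∧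
      0 ≤ |Ef i y| * (u i z).re := fun i => by
    rcases h.dir i _ a3 with b | b
    · simp [b.self_of_nhds]
    · have b1 := (b z a4).2.1
      have b2 : 0 ≤ (u i z).re := nonneg_of_mul_nonneg_right ((abs_nonneg _).trans b1) ho
      rw [abs_mul]
      exact ⟨by nlinarith [abs_nonneg (Ef i y)], by positivity⟩
  have e1 : (zs Ef u z).im = ∑ i, Ef i y * (u i z).im := by simp [zs, y]
  have e2 : (zs Ef u z).re = ∑ i, Ef i y * (u i z).re := by simp [zs, y]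
  have e3 : |(zs Ef u z).re| = ∑ i, |Ef i y| * (u i z).re := by
    rw [← abs_of_nonneg (Finset.sum_nonneg fun i _ => (k i).2), e2]
    rcases h.coh _ a3 with b | b
    · simp only [abs_of_nonneg (b _)]
    · simp only [abs_of_nonpos (b _), neg_mul, Finset.sum_neg_distrib, abs_neg]
  refine ⟨?_, fun b => ?_⟩
  · rw [e1, e3, Finset.mul_sum]
    exact (Finset.abs_sum_le_sum_abs _ _).trans (Finset.sum_le_sum fun i _ => (k i).1)
  · rw [e2]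
    exact Finset.sum_nonneg fun i _ => by simpa only [abs_of_nonneg (b i)] using (k i).2

end

theorem arg_le {v : ℂ} {o : ℝ} (h0 : 0 ≤ v.re) (h : |v.im| ≤ o * |v.re|) (ho : 0 ≤ o) :
    |Complex.arg v| ≤ 2 * o := by
  by_cases hv : v = 0
  · simp [hv, ho]
  have h1 : |Complex.arg v| ≤ Real.pi / 2 := Complex.abs_arg_le_pi_div_two_iff.2 h0
  have h2 := Real.mul_abs_le_abs_sin h1
  have h3 : 0 < ‖v‖ := norm_pos_iff.2 hv
  have h4 : |Real.sin (Complex.arg v)| ≤ o := by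
    rw [Complex.sin_arg, abs_div, abs_norm, div_le_iff₀ h3]
    exact h.trans (mul_le_mul_of_nonneg_left (Complex.abs_re_le_norm v) ho)
  have h5 : 1 / 2 ≤ 2 / Real.pi := by
    rw [le_div_iff₀ Real.pi_pos]; linarith [Real.pi_le_four]
  nlinarith [abs_nonneg (Complex.arg v)]

/-- gain property of `‖P‖ ^ 2` and vanishing in a window -/
def WinP (D : Set E) (P : E → ℂ) (x : ℂ) (ρ ex C rmin : ℝ) : Prop :=
  GP D (fun y => ‖P y‖ ^ 2) x ex C rmin ρ 0 ∧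
    ((∀ y ∈ D, ρ / C ≤ ‖y.1 - x‖ → ‖y.1 - x‖ ≤ ρ → P y = 0) → ∀ y ∈ D, ‖y.1 - x‖ ≤ ρ → P y = 0)

theorem gp_mono {D : Set E} {q : E → ℝ} {ex C C' rmin rmin' Omin : ℝ}
    (h : GP D q x ex C rmin ρ Omin) (h0 : 0 < C) (h1 : C ≤ C') (h2 : rmin ≤ rmin') (hρ : 0 ≤ ρ)
    (hO : 0 ≤ Omin) (hr : 0 ≤ rmin) : GP D q x ex C' rmin' ρ Omin := by
  have a : ρ / C' ≤ ρ / C := by gcongr
  intro O a1 a2 r a3 a4 y hy a5 a6
  refine (h O a1 (fun v hv b c => a2 v hv (a.trans b) c) r (h2.trans a3) (a4.trans a) y hy a5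
    a6).trans ?_
  have : 0 ≤ r := by linarith
  have : 0 ≤ O := by linarith
  gcongr

theorem WinP.mono {D : Set E} {P : E → ℂ} {ex C C' rmin rmin' : ℝ} (h : WinP D P x ρ ex C rmin)
    (h0 : 0 < C) (h1 : C ≤ C') (h2 : rmin ≤ rmin') (hρ : 0 ≤ ρ) (hr : 0 ≤ rmin) :
    WinP D P x ρ ex C' rmin' :=
  ⟨gp_mono h.1 h0 h1 h2 hρ le_rfl hr, fun a => h.2 fun y hy b c =>
    a y hy (le_trans (by gcongr) b) c⟩

/-- vanishing in the window chart gives vanishing in the window -/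
theorem zero_of_chart {D : Set E} {P : E → ℂ} {M C : ℝ} (hx : ‖x‖ = 1) (hδ : 0 < δ) (hρ : 0 < ρ)
    (hρ1 : ρ ≤ 1 / 8) (hM : 1 ≤ M) (hC : 5 * M ≤ C)
    (h : (∀ y ∈ bc (wch x δ 0) ⁻¹' D, ρ / (2 * δ) / M ≤ ‖y.1‖ → ‖y.1‖ ≤ ρ / (2 * δ) →
      P (bc (wch x δ 0) y) = 0) → ∀ y ∈ bc (wch x δ 0) ⁻¹' D, ‖y.1‖ ≤ ρ / (2 * δ) / 2 →
      P (bc (wch x δ 0) y) = 0)
    (h1 : ∀ y ∈ D, ρ / C ≤ ‖y.1 - x‖ → ‖y.1 - x‖ ≤ ρ → P y = 0) :
    ∀ y ∈ D, ‖y.1 - x‖ ≤ ρ → P y = 0 := by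
  intro y hy h2
  have a0 : ρ / C ≤ ρ / (5 * M) := by gcongr
  have a1 : ρ / (5 * M) ≤ ρ / 5 := by gcongr; linarith
  rcases le_total (ρ / 5) ‖y.1 - x‖ with a | a
  · exact h1 y hy (by linarith) h2
  obtain ⟨ζ, c1, c2⟩ := wch_surj (yr := 0) (ne0 hx) hδ 0 (z := y.1) (by
    rw [wch_zero, hx]; linarith)
  have c3 := (wch_dist (x := x) (yr := 0) hδ c2).1
  rw [c1, wch_zero, hx, mul_one, sub_zero] at c3
  have c5 : bc (wch x δ 0) (ζ, y.2) = y := Prod.ext c1 rfl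
  rw [← c5]
  refine h (fun v hv b1 b2 => h1 _ hv (a0.trans ?_)
    (mem_closedBall_iff_norm.1 (wch_ball hx hδ hρ1 b2))) (ζ, y.2) (by rwa [mem_preimage, c5]) ?_
  · refine le_trans ?_ (wch_far hx hδ hρ1 b2).1
    rw [div_div, div_le_iff₀ (by positivity)] at b1
    rw [div_le_iff₀ (by positivity)]
    nlinarith [mul_nonneg (mul_nonneg hδ.le (norm_nonneg v.1)) (by linarith : 0 ≤ M)]
  · rw [div_div, le_div_iff₀ (by positivity)]
    change ‖ζ‖ * _ ≤ _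
    linarith

theorem ActB.winP {D : Set E} {P : E → ℂ} {β M : ℝ} (h : ActB D P x δ ρ β M) (hx : ‖x‖ = 1)
    (hδ : 0 < δ) (hρ1 : ρ ≤ 1 / 8) (hβ : 0 ≤ β) (hβ1 : β ≤ 2) (hM : 1 ≤ M)
    (hs : 1000 * M * δ ≤ ρ) : WinP D P x ρ (4 - 2 * β) (20000 * M ^ 5) (100 * δ) := by
  have hρ : 0 < ρ := by nlinarith [mul_pos (by linarith : 0 < M) hδ]
  have h8 : 8 ≤ ρ / (2 * δ) := by rw [le_div_iff₀ (by positivity)]; nlinarith
  refine ⟨?_, zero_of_chart hx hδ hρ hρ1 hM (by nlinarith [pow_le_pow_right₀ hM (show 1 ≤ 5 by norm_num)])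
    fun a y hy b => norm_le_zero_iff.1 ?_⟩
  · have := gp_act (D := D) (P := fun y => P (bc (wch x δ 0) y)) (s := fun _ => 0)
      (q := fun y => ‖P y‖ ^ 2) (yr := 0) (S := 0) (T := 0) (Omin := 0) hx hδ hρ hρ1 hβ hβ1 hM
      le_rfl le_rfl le_rfl (by simp) (by simpa using hs) (fun y _ _ _ => by simp [sq]) h
    rwa [abs_zero, add_zero, add_zero,
      show 10000 * (2 * M ^ 4 * 1 ^ 2) * M = 20000 * M ^ 5 by ring] at this
  · simpa using h 0 le_rfl (fun v hv c d => by rw [a v hv c d, norm_zero]) _ h8 le_rfl y hy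
      (by linarith)

/-- vanishing inside a port disc from the vanishing on its circle -/
def PortZ (D : Set E) (P : E → ℂ) (p : ℂ) (r : ℝ) : Prop :=
  (∀ y ∈ D, ‖y.1 - p‖ = r → P y = 0) → ∀ y ∈ D, ‖y.1 - p‖ ≤ r → P y = 0

theorem NeuB.gp {D : Set E} {Q : E → ℂ} {CN M : ℝ} {ok : ℂ → Prop} (h : NeuB D Q x δ ρ CN M ok)
    (hx : ‖x‖ = 1) (hδ : 0 < δ) (hρ1 : ρ ≤ 1 / 8) (hC : 1 ≤ CN) (hM : 1 ≤ M)
    (hs : 1000 * M * δ ≤ ρ) {k : ℕ} (hk : k ≠ 0)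
    (hok : ∀ y ∈ bc (wch x δ 0) ⁻¹' D, 2 ≤ ‖y.1‖ → ‖y.1‖ ≤ ρ / (2 * δ) → ok y.1) :
    GP D (fun y => ‖Q y‖ ^ k) x 0 (10000 * CN ^ k * M) (100 * δ) ρ 0 := by
  have hρ : 0 < ρ := by nlinarith [mul_pos (by linarith : 0 < M) hδ]
  have h0 : 0 ≤ ρ / (2 * δ) := by positivity
  have := gp_neu (D := D) (Q := fun y => Q (bc (wch x δ 0) y)) (q := fun y => ‖Q y‖ ^ k) (yr := 0)
    (Omin := 0) hx hδ hρ hρ1 hC hM le_rfl hk (by simpa using hs) (fun _ _ _ _ => rfl)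
    fun O a b y hy c d => h O a b y hy d (hok y hy c (by linarith))
  rwa [abs_zero, add_zero, zero_pow hk] at this

theorem NeuB.winP {D : Set E} {Q : E → ℂ} {CN M : ℝ} (h : NeuB D Q x δ ρ CN M fun _ => True)
    (hx : ‖x‖ = 1) (hδ : 0 < δ) (hρ1 : ρ ≤ 1 / 8) (hC : 1 ≤ CN) (hM : 1 ≤ M)
    (hs : 1000 * M * δ ≤ ρ) : WinP D Q x ρ 0 (10000 * CN ^ 2 * M) (100 * δ) := by
  have hρ : 0 < ρ := by nlinarith [mul_pos (by linarith : 0 < M) hδ]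
  refine ⟨h.gp hx hδ hρ1 hC hM hs two_ne_zero fun _ _ _ _ => trivial, zero_of_chart hx hδ hρ hρ1 hM
    (by nlinarith [one_le_pow₀ (n := 2) hC]) fun a y hy b => norm_le_zero_iff.1 ?_⟩
  simpa using h 0 le_rfl (fun v hv c d => by rw [a v hv c d, norm_zero]) y hy b trivial

open Classical in
theorem NeuB.winP' {X K : Set E} {Q : E → ℂ} {L CN M : ℝ} (w : WH X K Q x δ ρ) (hL : 13 ≤ L)
    (h : NeuB (X \ K) Q x δ ρ CN M fun z => Real.exp (-L + 2) ≤ ‖bl z‖) (hC : 1 ≤ CN)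
    (hM : 1 ≤ M) (hs : 1000 * M * δ ≤ ρ)
    (hp : PortZ (X \ K) Q (wch x δ 0 Complex.I) (prad x δ 0 L)) :
    WinP (X \ K) Q x ρ 0 (10000 * CN ^ 2 * M) (100 * δ) := by
  have hδ := w.pos
  have hρ : 0 < ρ := by nlinarith [mul_pos (by linarith : 0 < M) hδ]
  have e1 : Real.exp (-L + 2) ≤ Real.exp (-L + 3) := Real.exp_le_exp.2 (by linarith)
  have e2 : Real.exp (-L + 3) ≤ Real.exp (-L + 4) := Real.exp_le_exp.2 (by linarith)
  have e3 := exp_small hL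
  have hb := w.big
  have n1 : ∀ z : ℂ, ‖z - Complex.I‖ ≤ 1 / 4 → ‖z‖ ≤ 5 / 4 := fun z a => by
    have a6 := norm_le_norm_add_norm_sub' z Complex.I
    rw [Complex.norm_I] at a6
    linarith
  refine ⟨h.gp w.hx hδ w.rho hC hM hs two_ne_zero fun y hy a b => not_lt.1 fun c => ?_,
    zero_of_chart w.hx hδ hρ w.rho hM (by nlinarith [one_le_pow₀ (n := 2) hC])
      fun a y hy b => ?_⟩
  · have := w.up' y ⟨hy.1, mem_closedBall_zero_iff.2 b⟩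
    linarith [n1 _ (near_of_bl (z := y.1) (by linarith) (by linarith))]
  have k : ∀ v ∈ bc (wch x δ 0) ⁻¹' (X \ K), ‖v.1‖ ≤ ρ / (2 * δ) / 2 →
      Real.exp (-L + 2) ≤ ‖bl v.1‖ → Q (bc (wch x δ 0) v) = 0 := fun v hv c d => by
    simpa using h 0 le_rfl (fun v hv c d => by rw [a v hv c d, norm_zero]) v hv c d
  rcases le_total (Real.exp (-L + 3)) ‖bl y.1‖ with c | c
  · exact k y hy b (e1.trans c)
  have := w.ppp (q := fun y => if Q y = 0 then 0 else 1) (b0 := 0) (C := 1) hL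
    (fun b b0 b1 v hv b2 => ?_) 0 le_rfl (fun v a1 a2 a3 a4 => ?_) y hy.1 hy.2 (by linarith) c
  · by_contra d
    simp only [d, if_false] at this
    linarith
  · beta_reduce
    rcases le_or_gt 1 b with d | d
    · split_ifs <;> linarith
    · rw [if_pos (hp (fun s hs e => ?_) v hv b2)]
      · linarith
      · by_contra f
        have := b1 s hs e
        simp only [f, if_false] at this
        linarith
  · rw [if_pos (k v ⟨a1, a2⟩ (by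
      linarith [n1 _ (near_of_bl' ((Real.exp_pos _).trans_le a3) (a4.trans e3))]) (e1.trans a3))]

/-! ### ports -/

/-- affine port chart -/
def af (p : ℂ) (r : ℝ) (z : ℂ) : ℂ := p + r * z

theorem af_norm {p : ℂ} {r : ℝ} (hr : 0 < r) (z : ℂ) : ‖af p r z - p‖ = r * ‖z‖ := by
  rw [af, add_sub_cancel_left, norm_mul, Complex.norm_real, Real.norm_of_nonneg hr.le]

theorem af_surj (p : ℂ) {r : ℝ} (hr : 0 < r) (y : E) : ∃ v : E, bc (af p r) v = y :=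
  ⟨((y.1 - p) / r, y.2), Prod.ext (by
    have : (r : ℂ) ≠ 0 := Complex.ofReal_ne_zero.2 hr.ne'
    simp only [bc, af]; field_simp; ring) rfl⟩

theorem portB_af {D : Set E} {q : E → ℝ} {p : ℂ} {r b0 C : ℝ} (hr : 0 < r)
    (h : PortB (bc (af p r) ⁻¹' D) (fun y => q (bc (af p r) y)) 0 1 b0 C) : PortB D q p r b0 C := by
  intro b a1 a2 y hy a3
  obtain ⟨v, rfl⟩ := af_surj p hr y
  refine h b a1 (fun s hs e => a2 _ hs ?_) v hy ?_
  · rw [sub_zero] at e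
    exact (af_norm hr _).trans (by rw [e, mul_one])
  · have : ‖af p r v.1 - p‖ ≤ r := a3
    rw [af_norm hr] at this
    rw [sub_zero]
    nlinarith

/-- micro port of an active window -/
theorem port_b (C0 : ℝ) : ∃ ι > (0 : ℝ), ∀ (X K : Set E) (P N : E → ℂ) (p : ℂ) (r c b0 Mup : ℝ),
    0 < r → 0 < c → 0 ≤ b0 → NP X K (closedBall p r) →
    AnalyticOnNhd ℂ N (ov (bc (af p r) ⁻¹' X) (closedBall 0 1)) →
    PPH2 (bc (af p r) ⁻¹' X) (bc (af p r) ⁻¹' K) N 0 (1 / 2) ι C0 (b0 ^ 2) Mup →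
    (∀ y ∈ ov (bc (af p r) ⁻¹' X) (closedBall 0 1),
      ‖P (bc (af p r) y)‖ ≤ 2 * c * ‖y.1 * N y‖ ∧ c * ‖y.1 * N y‖ ≤ 2 * ‖P (bc (af p r) y)‖ ∧
      (y ∉ bc (af p r) ⁻¹' K → ‖y.1 * N y‖ ^ 2 ≤ Mup) ∧
      (y ∈ bc (af p r) ⁻¹' K → ‖y.1‖ ≤ Real.exp (-6) → ‖y.1 * N y‖ ≤ b0)) →
    PortB (X \ K) (fun y => ‖P y‖) p r (c * b0) 1000 := by
  obtain ⟨ι, hι, H⟩ := all_pb2.1 C0
  refine ⟨ι, hι, fun X K P N p r c b0 Mup hr hc hb hn hN hp h => portB_af hr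
    fun b a1 a2 y hy a3 => ?_⟩
  have b1 : 0 ≤ b := le_trans (by positivity) a1
  have b2 : b0 ≤ 2 * b / c := by rw [le_div_iff₀ hc]; nlinarith
  rw [sub_zero] at a3
  have h1 := H _ _ N 0 (b0 ^ 2) Mup (b0 ^ 2) le_rfl (by positivity) (by positivity) (np_aff hr hn)
    hN hp (fun v hv => ⟨fun k => by rw [norm_pp0]; exact (h v hv).2.2.1 k, fun k e => by
      rw [norm_pp0]; gcongr; exact (h v hv).2.2.2 k e⟩) ((2 * b / c) ^ 2)
    (by rw [max_self]; gcongr) (fun v hv e => by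
      have c1 := (h v ⟨hv.1, mem_closedBall_iff_norm.2 e.le⟩).2.1
      have c2 := a2 v hv e
      simp only [norm_pp0]
      gcongr
      rw [le_div_iff₀ hc]
      linarith) y hy (by rwa [sub_zero])
  simp only [norm_pp0] at h1
  have h2 : Real.exp 3 ≤ 10 ^ 2 := by
    rw [show (3 : ℝ) = (3 : ℕ) * 1 by norm_num, Real.exp_nat_mul]
    have := Real.exp_one_lt_d9
    calc Real.exp 1 ^ 3 ≤ 3 ^ 3 := by gcongr; linarith
      _ ≤ 10 ^ 2 := by norm_num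
  have h3 : ‖y.1 * N y‖ ≤ 10 * (2 * b / c) :=
    (pow_le_pow_iff_left₀ (norm_nonneg _) (by positivity) two_ne_zero).1
      (h1.trans (by rw [mul_pow]; gcongr))
  have h4 := (h y ⟨hy.1, mem_closedBall_zero_iff.2 a3⟩).1
  have h5 : c * (2 * b / c) = 2 * b := by field_simp
  change ‖P (bc (af p r) y)‖ ≤ _
  nlinarith

/-- vanishing inside a port -/
theorem port_z (γ C0 : ℝ) (h0 : 0 < γ) (h1 : γ ≤ 1 / 2) : ∃ ι > (0 : ℝ),
    ∀ (X K : Set E) (P N : E → ℂ) (p : ℂ) (r Mup : ℝ), 0 < r → NP X K (closedBall p r) →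
    AnalyticOnNhd ℂ N (ov (bc (af p r) ⁻¹' X) (closedBall 0 1)) →
    PPH2 (bc (af p r) ⁻¹' X) (bc (af p r) ⁻¹' K) N 0 γ ι C0 0 Mup →
    (∀ y ∈ ov (bc (af p r) ⁻¹' X) (closedBall 0 1), y ∉ bc (af p r) ⁻¹' K →
      (P (bc (af p r) y) = 0 ↔ y.1 * N y = 0) ∧ ‖y.1 * N y‖ ^ 2 ≤ Mup) →
    PortZ (X \ K) P p r := by
  obtain ⟨ι, hι, H⟩ := all_pp2 γ C0 h0 h1
  refine ⟨ι, hι, fun X K P N p r Mup hr hn hN hp h a y hy b => ?_⟩
  obtain ⟨v, rfl⟩ := af_surj p hr y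
  have b1 : ‖af p r v.1 - p‖ ≤ r := b
  rw [af_norm hr] at b1
  have b2 : v ∈ ov (bc (af p r) ⁻¹' X) (closedBall 0 1) :=
    ⟨hy.1, mem_closedBall_zero_iff.2 (by nlinarith)⟩
  have h2 := H _ _ N 0 0 Mup 0 le_rfl (np_aff hr hn) hN hp le_rfl le_rfl (fun s hs k => by
    rw [norm_pp0]
    exact (mul_le_of_le_one_right (by positivity) (Real.rpow_le_one (norm_nonneg _)
      (mem_closedBall_zero_iff.1 hs.2) h0.le)).trans (h s hs k).2) (fun s hs k e => by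
    rw [norm_pp0, (h s ⟨hs, mem_closedBall_zero_iff.2 e.le⟩ k).1.1 (a _ ⟨hs, k⟩
      ((af_norm hr _).trans (by rw [e, mul_one])))]
    simp) v b2 hy.2
  refine (h v b2 hy.2).1.2 ?_
  by_cases e : v.1 = 0
  · rw [e, zero_mul]
  · have c1 : 0 < ‖v.1‖ ^ γ := Real.rpow_pos_of_pos (norm_pos_iff.2 e) γ
    rw [norm_pp0] at h2
    have c2 : ‖v.1 * N v‖ ^ 2 ≤ 0 := by
      by_contra c
      nlinarith [mul_pos (not_le.1 c) c1]
    exact norm_eq_zero.1 (pow_eq_zero_iff two_ne_zero |>.1 (le_antisymm c2 (by positivity)))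

/-- port hypotheses from a wall at the height `η`, given in the chart `exp η / z` -/
theorem pph_of (ι C : ℝ) (hι : 0 < ι) (hC : 0 ≤ C) : ∃ o > (0 : ℝ), ∀ (I : Type) [Fintype I]
    (X K : Set E) (N : E → ℂ) (Ef Ef' : I → ℝ → ℝ) (u : I → ℂ → ℂ) (a : I → ℝ) (Θ : E → ℂ)
    (Cf : ℂ → ℝ) (e e0 om γ t η lev Mst Mup r : ℝ), 0 < γ → γ ≤ 1 / 2 → 0 < t → t ≤ o → 0 < om →
    om ≤ o → η ≤ -1 → 0 ≤ Mst → lev ≤ Mst * Real.exp (-γ * η - 1) →
    RW Ef Ef' u a Θ e0 om Cf t r → (∀ z : ℂ, |Real.log ‖z‖| ≤ 2 * t → Cf z ≤ C) → Rd e e0 lev →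
    (∀ y ∈ ov X (closedBall 0 1), Mst / Real.exp 1 < ‖pp e (y.1 * N y)‖ * ‖y.1‖ ^ γ →
      (y ∈ K → |Real.log ‖y.1‖ - η| ≤ t ∧
        y.1 * N y = Θ (Complex.exp η / y.1, zs Ef u (Complex.exp η / y.1))) ∧
      (|Real.log ‖y.1‖ - η| ≤ 2 * t →
        y.1 * N y = Θ (Complex.exp η / y.1, zs Ef u (Complex.exp η / y.1)) → y ∈ K)) →
    (∀ y ∈ ov X (closedBall 0 1), y ∈ K → ‖y.1‖ ≤ Real.exp (η - 1 / 2) →
      ‖N y * (y.1 * N y - e)‖ ≤ Mst * Real.exp (-(1 + γ) * η)) →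
    PPH2 X K N e γ ι (cW C) Mst Mup := by
  obtain ⟨o, ho, H⟩ := all_ppg ι C hι hC
  refine ⟨min (o / 2) (1 / 4), by positivity, ?_⟩
  intro I _ X K N Ef Ef' u a Θ Cf e e0 om γ t η lev Mst Mup r g0 g1 t0 t1 o0 o1 hη hM hl hW hf hR
    hK h3
  have t2 := t1.trans (min_le_left _ _)
  have e1 : ∀ z : ℂ, Complex.exp η / Complex.exp (η - Complex.I * z) =
      Complex.exp (Complex.I * z) := fun z => by rw [← Complex.exp_sub]; congr 1; ring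
  have e2 : ∀ y : E, Mst / Real.exp 1 < ‖pp e (y.1 * N y)‖ * ‖y.1‖ ^ γ →
      zs Ef u (Complex.exp η / y.1) =
        ∑ i, (Ef i (Real.log ‖y.1‖ - η) : ℂ) * u i (Complex.exp η / y.1) := fun y hy => by
    have b : ‖y.1‖ ≠ 0 := fun b => by
      rw [b, Real.zero_rpow g0.ne', mul_zero] at hy
      exact absurd hy (not_lt.2 (by positivity))
    rw [zs, norm_div, Complex.norm_exp, Complex.ofReal_re, Real.log_div (Real.exp_pos _).ne' b,
      Real.log_exp, neg_sub]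
  refine H I X K N Ef Ef' (fun i z => u i (Complex.exp η / z)) a
    (fun y => Θ (Complex.exp η / y.1, y.2)) e e0 γ t η lev Mst Mup r g0 g1 t0 (by linarith) hη hM hl
    ?_ hR (fun y hy k b => by rw [← e2 y b]; exact (hK y hy b).1 k)
    (fun y hy b => by rw [← e2 y b]; exact (hK y hy b).2) h3
  simp only [e1]
  exact hW.ws0 o0 (t1.trans (min_le_right _ _)) (by linarith [o1.trans (min_le_left _ _)])
    fun s _ y hy => hf _ (by rwa [← abs_neg, AWS.log_exp])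

end Pool.Agent.Lib.SH.Ring
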