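import Pool.Agent.Lib.SH.Blue1b

/-!
Block ENV of the project SH: the fibre envelope is a submean function.
-/

open Set Filter Topology Metric

noncomputable section

namespace Pool.Agent.Lib.SH

namespace ENV

theorem contOn {Z : Set E} {F : E → ℂ} {hh : E → ℝ} (hF : AnalyticOnNhd ℂ F Z)
    (hL : LRe hh Z) : ContinuousOn (fun x => ‖F x‖ * Real.exp (-hh x)) Z := by
  intro y hy
  obtain ⟨G, hG, hev⟩ := hL y hy
  have h1 : ContinuousAt hh y := by
    have h2 : ContinuousAt (fun x => (G x).re) y :=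
      Complex.continuous_re.continuousAt.comp hG.continuousAt
    exact h2.congr (hev.mono fun x hx => hx.symm)
  have h3 : ContinuousAt (fun x => ‖F x‖ * Real.exp (-hh x)) y :=
    ((hF y hy).continuousAt.norm).mul (Real.continuous_exp.continuousAt.comp h1.neg)
  exact h3.continuousWithinAt

/-- fibre supremum -/
def fs (X : Set E) (φ : E → ℝ) (z : ℂ) : ℝ := sSup (φ '' {x | x ∈ X ∧ x.1 = z})

theorem fs_le {X : Set E} {φ : E → ℝ} {z : ℂ} {t : ℝ} (ht : 0 ≤ t)
    (h : ∀ x ∈ X, x.1 = z → φ x ≤ t) : fs X φ z ≤ t := by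
  refine Real.sSup_le ?_ ht
  rintro _ ⟨x, hx, rfl⟩
  exact h x hx.1 hx.2

theorem le_fs {X : Set E} {φ : E → ℝ} {Ω : Set ℂ} {M : ℝ} (hM : ∀ x ∈ ov X Ω, φ x ≤ M)
    {y : E} (hy : y ∈ ov X Ω) : φ y ≤ fs X φ y.1 := by
  refine le_csSup ⟨M, ?_⟩ ⟨y, ⟨hy.1, rfl⟩, rfl⟩
  rintro _ ⟨x, hx, rfl⟩
  exact hM x ⟨hx.1, by rw [hx.2]; exact hy.2⟩

theorem env_eq (X : Set E) (φ : E → ℝ) (N : ℝ) (z : ℂ) :
    env X φ N z = Real.log (max (fs X φ z) (Real.exp (-N))) := rfl

theorem exp_env (X : Set E) (φ : E → ℝ) (N : ℝ) (z : ℂ) :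
    Real.exp (env X φ N z) = max (fs X φ z) (Real.exp (-N)) := by
  rw [env_eq, Real.exp_log (lt_max_of_lt_right (Real.exp_pos _))]

theorem env_ge (X : Set E) (φ : E → ℝ) (N : ℝ) (z : ℂ) : -N ≤ env X φ N z := by
  rw [← Real.exp_le_exp, exp_env]
  exact le_max_right _ _

theorem env_le {X : Set E} {φ : E → ℝ} {N : ℝ} {z : ℂ} {t : ℝ} (h1 : -N ≤ t)
    (h : ∀ x ∈ X, x.1 = z → φ x ≤ Real.exp t) : env X φ N z ≤ t := by
  rw [← Real.exp_le_exp, exp_env]
  exact max_le (fs_le (Real.exp_pos _).le h) (Real.exp_le_exp.mpr h1)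

theorem usc {X : Set E} {φ : E → ℝ} {Ω : Set ℂ} (N : ℝ) (hc : IsCompact (ov X Ω))
    (hφ : ContinuousOn φ (ov X Ω)) : UpperSemicontinuousOn (env X φ N) Ω := by
  obtain ⟨M, hM⟩ : ∃ M, ∀ x ∈ ov X Ω, φ x ≤ M := by
    obtain ⟨M, hM⟩ := hc.bddAbove_image hφ
    exact ⟨M, fun x hx => hM ⟨x, hx, rfl⟩⟩
  intro z0 hz0 t ht
  obtain ⟨t', ht1, ht2⟩ := exists_between ht
  have hA : IsCompact (ov X Ω ∩ φ ⁻¹' Ici (Real.exp t')) :=
    hc.of_isClosed_subset (hφ.preimage_isClosed_of_isClosed hc.isClosed isClosed_Ici)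
      inter_subset_left
  have hB : IsClosed (Prod.fst '' (ov X Ω ∩ φ ⁻¹' Ici (Real.exp t'))) :=
    (hA.image continuous_fst).isClosed
  have hz : z0 ∉ Prod.fst '' (ov X Ω ∩ φ ⁻¹' Ici (Real.exp t')) := by
    rintro ⟨x, ⟨hx1, hx2⟩, rfl⟩
    have h1 : Real.exp t' ≤ φ x := hx2
    have h2 := le_fs hM hx1
    have h3 : fs X φ x.1 ≤ Real.exp (env X φ N x.1) := by
      rw [exp_env]; exact le_max_left _ _
    have h4 : Real.exp (env X φ N x.1) < Real.exp t' := Real.exp_lt_exp.mpr ht1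
    linarith
  have hev : ∀ᶠ z in 𝓝 z0, z ∉ Prod.fst '' (ov X Ω ∩ φ ⁻¹' Ici (Real.exp t')) :=
    hB.isOpen_compl.mem_nhds hz
  filter_upwards [mem_nhdsWithin_of_mem_nhds hev, self_mem_nhdsWithin] with z h1 h2
  refine lt_of_le_of_lt (env_le ((env_ge X φ N z0).trans ht1.le) ?_) ht2
  intro x hx hxz
  by_contra hcon
  exact h1 ⟨x, ⟨⟨hx, by rw [hxz]; exact h2⟩, (not_le.mp hcon).le⟩, hxz⟩

theorem poly_ge (p : Polynomial ℂ) (a : ℝ)
    (h : ∀ z ∈ sphere (0 : ℂ) 1, a ≤ (p.eval z).re) : a ≤ (p.eval 0).re := by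
  have hd : DiffContOnCl ℂ (fun z => Complex.exp (-p.eval z)) (ball (0 : ℂ) 1) :=
    (p.differentiable.neg.cexp).diffContOnCl
  have h1 : ‖Complex.exp (-p.eval 0)‖ ≤ Real.exp (-a) := by
    refine Complex.norm_le_of_forall_mem_frontier_norm_le (U := ball (0 : ℂ) 1)
      isBounded_ball hd ?_ (subset_closure (mem_ball_self one_pos))
    intro z hz
    rw [frontier_ball _ one_ne_zero] at hz
    rw [Complex.norm_exp, Complex.neg_re]
    exact Real.exp_le_exp.mpr (neg_le_neg (h z hz))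
  rw [Complex.norm_exp, Complex.neg_re, Real.exp_le_exp] at h1
  linarith

end ENV

open ENV in
theorem st_env (h1 : St_MPabs) (h2 : St_TRIG) : St_ENV := by
  intro X K F hh c r N hNP hF hL hK
  have hc : IsCompact (ov X (closedBall c r)) := hNP.cpt
  have hφ := contOn hF hL
  obtain ⟨M, hM⟩ : ∃ M, ∀ x ∈ ov X (closedBall c r), ‖F x‖ * Real.exp (-hh x) ≤ M := by
    obtain ⟨M, hM⟩ := hc.bddAbove_image hφ
    exact ⟨M, fun x hx => hM ⟨x, hx, rfl⟩⟩
  have husc := usc N hc hφ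
  have hup : ∀ z ∈ closedBall c r,
      env X (fun x => ‖F x‖ * Real.exp (-hh x)) N z ≤ max M (-N) := by
    intro z hz
    refine env_le (le_max_right _ _) ?_
    intro x hx hxz
    have h3 := hM x ⟨hx, by rw [hxz]; exact hz⟩
    have h4 := Real.add_one_le_exp (max M (-N))
    have h5 := le_max_left M (-N)
    linarith
  refine ⟨husc.mono ball_subset_closedBall, ⟨max |max M (-N)| |N|, ?_⟩, ?_⟩
  · intro z hz
    have h3 := hup z (ball_subset_closedBall hz)
    have h4 := env_ge X (fun x => ‖F x‖ * Real.exp (-hh x)) N z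
    have h5 := le_abs_self (max M (-N))
    have h6 := le_abs_self N
    have h7 := le_max_left |max M (-N)| |N|
    have h8 := le_max_right |max M (-N)| |N|
    rw [abs_le]
    constructor <;> linarith
  · intro z0 hz0
    have hd : 0 < r - dist z0 c := sub_pos.mpr (mem_ball.mp hz0)
    filter_upwards [Ioo_mem_nhdsGT hd] with ρ hρ
    have hsub : closedBall z0 ρ ⊆ closedBall c r :=
      closedBall_subset_closedBall' (by linarith [hρ.2])
    have hsp : sphere z0 ρ ⊆ closedBall c r := sphere_subset_closedBall.trans hsub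
    refine le_of_forall_pos_le_add fun η hη => ?_
    obtain ⟨p, hp1, hp2⟩ := h2 _ z0 ρ (max M (-N)) η hρ.1 hη (husc.mono hsp)
      ⟨-N, fun z _ => env_ge _ _ _ _⟩ (fun z hz => hup z (hsp hz))
    refine le_trans ?_ hp2
    have hρ0 : (ρ : ℂ) ≠ 0 := Complex.ofReal_ne_zero.mpr hρ.1.ne'
    have hN : -N ≤ (p.eval 0).re :=
      poly_ge p (-N) fun z hz => (env_ge _ _ _ _).trans (hp1 z hz).1
    have hZ : ov X (closedBall z0 ρ) ⊆ ov X (closedBall c r) := fun y hy => ⟨hy.1, hsub hy.2⟩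
    have hNPZ : NPZ X K (ov X (closedBall z0 ρ)) := by
      refine ⟨?_, fun y hy => hy.1, fun y hy => hNP.np y (hZ hy)⟩
      have h3 : ov X (closedBall z0 ρ) =
          ov X (closedBall c r) ∩ Prod.fst ⁻¹' closedBall z0 ρ := by
        ext y
        exact ⟨fun hy => ⟨hZ hy, hy.2⟩, fun hy => ⟨hy.1.1, hy.2⟩⟩
      rw [h3]
      exact hc.inter_right (isClosed_closedBall.preimage continuous_fst)
    have hg : ∀ y : E, AnalyticAt ℂ (fun x : E => p.eval ((x.1 - z0) / ρ)) y := by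
      intro y
      have h3 : AnalyticAt ℂ (fun x : E => (x.1 - z0) / ρ) y :=
        (analyticAt_fst.sub analyticAt_const).div analyticAt_const hρ0
      exact (p.differentiable.analyticAt _).comp h3
    have hL' : LRe (fun x => hh x + (p.eval ((x.1 - z0) / ρ)).re) (ov X (closedBall z0 ρ)) := by
      intro y hy
      obtain ⟨G, hG, hev⟩ := hL y (hZ hy)
      refine ⟨fun x => G x + p.eval ((x.1 - z0) / ρ), hG.add (hg y), ?_⟩
      filter_upwards [hev] with x hx
      rw [hx, Complex.add_re]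
    have key := h1 X K (ov X (closedBall z0 ρ)) F _ 1 hNPZ (hF.mono hZ) hL' zero_le_one (by
      rintro y ⟨hy, hyK | hyB⟩
      · rw [hK y (hZ hy) hyK, norm_zero, zero_mul]
        exact zero_le_one
      · have h3 : dist y.1 z0 = ρ := by
          refine le_antisymm (mem_closedBall.mp hy.2) (not_lt.mp fun hlt => hyB ?_)
          have h4 : ∀ᶠ x : E in 𝓝 y, x.1 ∈ ball z0 ρ :=
            continuous_fst.continuousAt.preimage_mem_nhds (isOpen_ball.mem_nhds hlt)
          filter_upwards [h4] with x hx hxX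
          exact ⟨hxX, ball_subset_closedBall hx⟩
        have h4 : (y.1 - z0) / ρ ∈ sphere (0 : ℂ) 1 := by
          rw [mem_sphere_zero_iff_norm, norm_div, ← dist_eq_norm, h3, Complex.norm_real,
            Real.norm_eq_abs, abs_of_pos hρ.1, div_self hρ.1.ne']
        have h5 := (hp1 _ h4).1
        have h6 : z0 + ρ * ((y.1 - z0) / ρ) = y.1 := by
          rw [mul_div_cancel₀ _ hρ0]; ring
        rw [h6] at h5
        have h7 := le_fs hM (hZ hy)
        have h8 : fs X (fun x => ‖F x‖ * Real.exp (-hh x)) y.1 ≤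
            Real.exp (env X (fun x => ‖F x‖ * Real.exp (-hh x)) N y.1) := by
          rw [exp_env]; exact le_max_left _ _
        have h9 := (h7.trans h8).trans (Real.exp_le_exp.mpr h5)
        rw [neg_add, Real.exp_add, ← mul_assoc, Real.exp_neg (p.eval ((y.1 - z0) / ρ)).re,
          ← div_eq_mul_inv, div_le_one (Real.exp_pos _)]
        exact h9)
    refine env_le hN ?_
    intro x hx hxz
    have h3 := key x ⟨hx, by rw [hxz]; exact mem_closedBall_self hρ.1.le⟩
    rw [neg_add, Real.exp_add, ← mul_assoc, Real.exp_neg (p.eval ((x.1 - z0) / ρ)).re,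
      ← div_eq_mul_inv, div_le_one (Real.exp_pos _), hxz, sub_self, zero_div] at h3
    exact h3

end Pool.Agent.Lib.SH
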