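import Pool.Agent.Lib.SH.Blue1b

/-! Block IFT: the analytic implicit function theorem in `ℂ × ℂ`. -/

open Set Filter Topology Metric

noncomputable section

namespace Pool.Agent.Lib.SH

namespace IFT

theorem inv {F : E → E} {y : E} (hF : AnalyticAt ℂ F y)
    (hi : ∀ v, fderiv ℂ F y v = 0 → v = 0) :
    ∃ G : E → E, AnalyticAt ℂ G (F y) ∧ G (F y) = y ∧ (∀ᶠ x in 𝓝 y, G (F x) = x) ∧
      ∀ᶠ u in 𝓝 (F y), F (G u) = u := by
  have hinj : Function.Injective (fderiv ℂ F y : E →ₗ[ℂ] E) := by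
    rw [injective_iff_map_eq_zero]
    exact hi
  let e0 : E ≃ₗ[ℂ] E := LinearEquiv.ofInjectiveEndo _ hinj
  let e : E ≃L[ℂ] E := e0.toContinuousLinearEquiv
  have he : fderiv ℂ F y = (e : E →L[ℂ] E) := by
    ext1 <;> (ext1 <;> rfl)
  have hs : HasStrictFDerivAt F (e : E →L[ℂ] E) y := he ▸ hF.hasStrictFDerivAt
  refine ⟨hs.localInverse F e y, ?_, hs.localInverse_apply_image, hs.eventually_left_inverse,
    hs.eventually_right_inverse⟩
  exact (hs.toOpenPartialHomeomorph F).analyticAt_symm' hs.mem_toOpenPartialHomeomorph_source hF he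

theorem core {P : E → ℂ} {y : E} (hP : AnalyticAt ℂ P y) (h0 : P y = 0) (l : E →L[ℂ] ℂ)
    (hl : ∀ v, l v = 0 → fderiv ℂ P y v = 0 → v = 0) :
    ∃ φ : ℂ → E, AnalyticAt ℂ φ 0 ∧ φ 0 = y ∧
      (∀ᶠ t in 𝓝 (0 : ℂ), P (φ t) = 0 ∧ l (φ t) - l y = t) ∧
      ∀ᶠ x in 𝓝 y, P x = 0 → φ (l x - l y) = x := by
  have ha : AnalyticAt ℂ (fun x : E => l x - l y) y := (l.analyticAt y).sub analyticAt_const
  have hF : AnalyticAt ℂ (fun x : E => ((l x - l y, P x) : E)) y := ha.prod hP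
  have hd : HasFDerivAt (fun x : E => ((l x - l y, P x) : E)) (l.prod (fderiv ℂ P y)) y :=
    (l.hasFDerivAt.sub_const (l y)).prodMk hP.differentiableAt.hasFDerivAt
  obtain ⟨G, hG, hG0, hL, hR⟩ := inv hF (by
    intro v hv
    rw [hd.fderiv] at hv
    simp only [ContinuousLinearMap.prod_apply, Prod.mk_eq_zero] at hv
    exact hl v hv.1 hv.2)
  simp only [sub_self, h0] at hG hG0 hR
  have hj : AnalyticAt ℂ (fun t : ℂ => ((t, 0) : E)) 0 := analyticAt_id.prod analyticAt_const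
  refine ⟨fun t => G (t, 0), AnalyticAt.comp_of_eq hG hj rfl, hG0, ?_, ?_⟩
  · have ht : Tendsto (fun t : ℂ => ((t, 0) : E)) (𝓝 0) (𝓝 (0, 0)) := hj.continuousAt
    filter_upwards [ht.eventually hR] with t h
    exact ⟨congrArg Prod.snd h, congrArg Prod.fst h⟩
  · filter_upwards [hL] with x h hx
    rw [hx] at h
    exact h

theorem dw_eq (P : E → ℂ) (y : E) (hP : AnalyticAt ℂ P y) : dw P y = fderiv ℂ P y (0, 1) := by
  have h1 : HasDerivAt (fun w : ℂ => ((y.1, w) : E)) ((0, 1) : E) y.2 :=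
    (hasDerivAt_const y.2 y.1).prodMk (hasDerivAt_id y.2)
  have h2 : HasFDerivAt P (fderiv ℂ P y) (y.1, y.2) := hP.differentiableAt.hasFDerivAt
  exact (h2.comp_hasDerivAt y.2 h1).deriv

theorem lin (L : E →L[ℂ] ℂ) (v : E) : L v = v.1 * L (1, 0) + v.2 * L (0, 1) := by
  have : v = v.1 • ((1, 0) : E) + v.2 • ((0, 1) : E) := by ext <;> simp
  conv_lhs => rw [this]
  simp only [map_add, map_smul, smul_eq_mul]

theorem fst_ok {L : E →L[ℂ] ℂ} (h : L (0, 1) ≠ 0) (v : E)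
    (h1 : ContinuousLinearMap.fst ℂ ℂ ℂ v = 0) (h2 : L v = 0) : v = 0 := by
  rw [lin] at h2
  have h1' : v.1 = 0 := h1
  rw [h1', zero_mul, zero_add] at h2
  exact Prod.ext h1' ((mul_eq_zero.1 h2).resolve_right h)

theorem snd_ok {L : E →L[ℂ] ℂ} (h : L (1, 0) ≠ 0) (v : E)
    (h1 : ContinuousLinearMap.snd ℂ ℂ ℂ v = 0) (h2 : L v = 0) : v = 0 := by
  rw [lin] at h2
  have h1' : v.2 = 0 := h1
  rw [h1', zero_mul, add_zero] at h2
  exact Prod.ext ((mul_eq_zero.1 h2).resolve_right h) h1'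

end IFT

theorem st_ift : St_IFT := by
  refine ⟨IFT.dw_eq, ?_, ?_⟩
  · intro P y hP h0 hw
    rw [IFT.dw_eq P y hP] at hw
    obtain ⟨φ, hφ, hφ0, h1, h2⟩ :=
      IFT.core hP h0 (ContinuousLinearMap.fst ℂ ℂ ℂ) (IFT.fst_ok hw)
    simp only [ContinuousLinearMap.coe_fst'] at h1 h2
    have hs : AnalyticAt ℂ (fun z : ℂ => z - y.1) y.1 := analyticAt_id.sub analyticAt_const
    have hc : AnalyticAt ℂ (fun z : ℂ => φ (z - y.1)) y.1 :=
      AnalyticAt.comp_of_eq hφ hs (sub_self _)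
    refine ⟨fun z => (φ (z - y.1)).2, analyticAt_snd.comp hc, by simp [hφ0], ?_⟩
    have ht : Tendsto (fun x : E => x.1 - y.1) (𝓝 y) (𝓝 0) := by
      have : Continuous (fun x : E => x.1 - y.1) := by fun_prop
      simpa using this.tendsto y
    filter_upwards [h2, ht.eventually h1] with x hx hx'
    constructor
    · intro h
      rw [hx h]
    · intro h
      have : φ (x.1 - y.1) = x := Prod.ext (sub_left_injective hx'.2) h.symm
      rw [← this]
      exact hx'.1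
  · intro P y hP h0 hne
    have hor : fderiv ℂ P y (0, 1) ≠ 0 ∨ fderiv ℂ P y (1, 0) ≠ 0 := by
      by_contra hh
      push Not at hh
      apply hne
      ext1 <;> (ext1; simp [hh.1, hh.2])
    have key : ∀ l : E →L[ℂ] ℂ, (∀ v, l v = 0 → fderiv ℂ P y v = 0 → v = 0) →
        ∃ (τ : E → ℂ) (φ : ℂ → E), AnalyticAt ℂ τ y ∧ τ y = 0 ∧ AnalyticAt ℂ φ 0 ∧ φ 0 = y ∧
          (∀ᶠ t in 𝓝 (0 : ℂ), P (φ t) = 0 ∧ τ (φ t) = t) ∧
          ∀ᶠ x in 𝓝 y, P x = 0 → φ (τ x) = x := by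
      intro l hl
      obtain ⟨φ, hφ, hφ0, h1, h2⟩ := IFT.core hP h0 l hl
      exact ⟨fun x => l x - l y, φ, (l.analyticAt y).sub analyticAt_const, sub_self _, hφ, hφ0,
        h1, h2⟩
    rcases hor with h | h
    · exact key _ (IFT.fst_ok h)
    · exact key _ (IFT.snd_ok h)

end Pool.Agent.Lib.SH
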