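import Pool.Agent.Lib.SH.Blue1b

/-! Radial Laplacian and polar coordinates. -/

open Set Filter Topology Metric MeasureTheory

noncomputable section

namespace Pool.Agent.Lib.SH

namespace RAD

lemma hX (c x : ℂ) : HasFDerivAt (fun x : ℂ => (x - c).re) Complex.reCLM x := by
  exact (Complex.reCLM.hasFDerivAt.comp x ((hasFDerivAt_id x).sub_const c)).congr_fderiv (by ext v; simp)

lemma hY (c x : ℂ) : HasFDerivAt (fun x : ℂ => (x - c).im) Complex.imCLM x := by
  exact (Complex.imCLM.hasFDerivAt.comp x ((hasFDerivAt_id x).sub_const c)).congr_fderiv (by ext v; simp)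

/-- squared distance -/
def q (c x : ℂ) : ℝ := (x - c).re * (x - c).re + (x - c).im * (x - c).im

lemma q_eq (c x : ℂ) : q c x = ‖x - c‖ ^ 2 := by rw [Complex.sq_norm, Complex.normSq_apply, q]

lemma q_ne {c x : ℂ} (h : x ≠ c) : q c x ≠ 0 := by
  rw [q_eq]
  exact pow_ne_zero _ (norm_ne_zero_iff.2 (sub_ne_zero.2 h))

lemma hq (c x : ℂ) : HasFDerivAt (q c)
    ((2 * (x - c).re) • Complex.reCLM + (2 * (x - c).im) • Complex.imCLM) x := by
  refine (((hX c x).mul (hX c x)).add ((hY c x).mul (hY c x))).congr_fderiv ?_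
  ext v
  simp
  ring

lemma hL {c x : ℂ} (h : x ≠ c) : HasFDerivAt (fun x : ℂ => Real.log ‖x - c‖)
    (((x - c).re / q c x) • Complex.reCLM + ((x - c).im / q c x) • Complex.imCLM) x := by
  have e : (fun x : ℂ => Real.log ‖x - c‖) = fun x => 1 / 2 * Real.log (q c x) := by
    funext y
    rw [q_eq, Real.log_pow]
    push_cast
    ring
  rw [e]
  refine (((hq c x).log (q_ne h)).const_mul (1 / 2)).congr_fderiv ?_
  have := q_ne h
  ext v
  simp
  field_simp

lemma lap (β : ℝ → ℝ) (c z : ℂ) (hβ : ContDiff ℝ 2 β) (hz : z ≠ c) :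
    Laplacian.laplacian (fun x : ℂ => β (Real.log ‖x - c‖)) z =
      deriv (deriv β) (Real.log ‖z - c‖) / ‖z - c‖ ^ 2 := by
  have h1 : Differentiable ℝ β := hβ.differentiable (by norm_num)
  have h2 : Differentiable ℝ (deriv β) := by
    have : ContDiff ℝ (1 + 1) β := hβ
    exact (contDiff_succ_iff_deriv.1 this).2.2.differentiable (by norm_num)
  have hD : fderiv ℝ (fun x : ℂ => β (Real.log ‖x - c‖)) =ᶠ[𝓝 z] fun x =>
      (deriv β (Real.log ‖x - c‖) * ((x - c).re * (q c x)⁻¹)) • Complex.reCLM +
      (deriv β (Real.log ‖x - c‖) * ((x - c).im * (q c x)⁻¹)) • Complex.imCLM := by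
    filter_upwards [isOpen_ne.mem_nhds hz] with x hx
    have := (h1 (Real.log ‖x - c‖)).hasDerivAt.comp_hasFDerivAt x (hL hx)
    refine (this.congr_fderiv ?_).fderiv
    rw [smul_add, smul_smul, smul_smul, div_eq_mul_inv, div_eq_mul_inv]
  have hb := (h2 (Real.log ‖z - c‖)).hasDerivAt.comp_hasFDerivAt z (hL hz)
  have hi := (hasDerivAt_inv (q_ne hz)).comp_hasFDerivAt z (hq c z)
  have hA := (hb.mul ((hX c z).mul hi)).smul_const Complex.reCLM
  have hB := (hb.mul ((hY c z).mul hi)).smul_const Complex.imCLM
  have hF := (hA.add hB).fderiv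
  rw [InnerProductSpace.laplacian_eq_iteratedFDeriv_complexPlane]
  simp only [iteratedFDeriv_two_apply, Matrix.cons_val_zero, Matrix.cons_val_one]
  rw [hD.fderiv_eq]
  erw [hF]
  have hq0 := q_ne hz
  rw [← q_eq]
  have hq1 : q c z = (z - c).re * (z - c).re + (z - c).im * (z - c).im := rfl
  simp only [add_apply, ContinuousLinearMap.smulRight_apply, smul_apply,
    Complex.reCLM_apply, Complex.imCLM_apply, Complex.one_re, Complex.one_im, Complex.I_re, Complex.I_im,
    smul_eq_mul, Function.comp_apply, Pi.mul_apply]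
  field_simp
  rw [hq1]
  ring

lemma inner (v : ℂ → ℝ) (c : ℂ) (r : ℝ) :
    ∫ θ in Ioo (-Real.pi) Real.pi, v (Complex.polarCoord.symm (r, θ) + c) =
      2 * Real.pi * Real.circleAverage v c r := by
  have hp := Real.pi_pos
  rw [Real.circleAverage_eq_integral_add (-Real.pi),
    intervalIntegral.integral_comp_add_right (fun θ => v (circleMap c r θ)), zero_add,
    show 2 * Real.pi + -Real.pi = Real.pi by ring, intervalIntegral.integral_of_le (by linarith),
    integral_Ioc_eq_integral_Ioo, smul_eq_mul, mul_inv_cancel_left₀ (by positivity)]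
  refine setIntegral_congr_fun measurableSet_Ioo fun θ _ => ?_
  simp only [Complex.polarCoord_symm_apply, circleMap, Complex.exp_mul_I, Complex.ofReal_cos, Complex.ofReal_sin]
  rw [add_comm]

lemma polar (v : ℂ → ℝ) (φ : ℝ → ℝ) (c : ℂ) (a b B : ℝ) (hab : a ≤ b) (hφ : Continuous φ) (hv : Measurable v)
    (hB : ∀ z, |v z| ≤ B) (h0 : ∀ z : ℂ, ¬(Real.exp a ≤ ‖z - c‖ ∧ ‖z - c‖ ≤ Real.exp b) → v z = 0) :
    IntervalIntegrable (fun s => Real.circleAverage v c (Real.exp s)) volume a b ∧
    ∫ z, v z * (φ (Real.log ‖z - c‖) / ‖z - c‖ ^ 2) =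
      2 * Real.pi * ∫ s in a..b, φ s * Real.circleAverage v c (Real.exp s) := by
  have hp := Real.pi_pos
  have hB0 : 0 ≤ B := (abs_nonneg _).trans (hB 0)
  have hcont : Continuous fun p : ℝ × ℝ => Complex.polarCoord.symm p + c := by
    simp only [Complex.polarCoord_symm_apply]
    fun_prop
  constructor
  · have hm : Measurable fun p : ℝ × ℝ => v (Complex.polarCoord.symm (Real.exp p.1, p.2) + c) :=
      hv.comp (hcont.comp (by fun_prop : Continuous fun p : ℝ × ℝ => (Real.exp p.1, p.2))).measurable
    have hi : Integrable (fun p : ℝ × ℝ => v (Complex.polarCoord.symm (Real.exp p.1, p.2) + c))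
        ((volume.restrict (Ioc a b)).prod (volume.restrict (Ioo (-Real.pi) Real.pi))) :=
      Integrable.of_bound hm.aestronglyMeasurable B (Eventually.of_forall fun p => hB _)
    have h2 := hi.integral_prod_left.const_mul (2 * Real.pi)⁻¹
    rw [intervalIntegrable_iff_integrableOn_Ioc_of_le hab]
    refine h2.congr (Eventually.of_forall fun s => ?_)
    simp only
    rw [inner, inv_mul_cancel_left₀ (by positivity)]
  · obtain ⟨C, hC⟩ := (isCompact_Icc (a := a) (b := b)).exists_bound_of_continuousOn hφ.continuousOn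
    rw [← integral_add_right_eq_self _ c, ← Complex.integral_comp_polarCoord_symm, polarCoord_target]
    simp only [add_sub_cancel_right, Complex.norm_polarCoord_symm, smul_eq_mul]
    have hsub : Icc (Real.exp a) (Real.exp b) ×ˢ Ioo (-Real.pi) Real.pi ⊆ Ioi (0 : ℝ) ×ˢ Ioo (-Real.pi) Real.pi :=
      prod_mono (fun r hr => (Real.exp_pos a).trans_le hr.1) subset_rfl
    rw [setIntegral_eq_of_subset_of_forall_sdiff_eq_zero (measurableSet_Ioi.prod measurableSet_Ioo) hsub]
    swap
    · intro p hp
      have hr : 0 < p.1 := hp.1.1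
      rw [h0, zero_mul, mul_zero]
      rw [add_sub_cancel_right, Complex.norm_polarCoord_symm, abs_of_pos hr]
      exact fun h => hp.2 ⟨h, hp.1.2⟩
    have hm : Measurable fun p : ℝ × ℝ =>
        p.1 * (v (Complex.polarCoord.symm p + c) * (φ (Real.log |p.1|) / |p.1| ^ 2)) := by
      refine measurable_fst.mul ((hv.comp hcont.measurable).mul ?_)
      exact (hφ.measurable.comp (Real.measurable_log.comp (by fun_prop))).div (by fun_prop)
    have hi : IntegrableOn (fun p : ℝ × ℝ =>
        p.1 * (v (Complex.polarCoord.symm p + c) * (φ (Real.log |p.1|) / |p.1| ^ 2)))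
        (Icc (Real.exp a) (Real.exp b) ×ˢ Ioo (-Real.pi) Real.pi) (volume.prod volume) := by
      refine Measure.integrableOn_of_bounded (M := Real.exp b * (B * (C / Real.exp a ^ 2))) ?_
        hm.aestronglyMeasurable ?_
      · rw [Measure.prod_prod]
        exact (ENNReal.mul_lt_top measure_Icc_lt_top measure_Ioo_lt_top).ne
      · refine (ae_restrict_iff' (measurableSet_Icc.prod measurableSet_Ioo)).2 (Eventually.of_forall fun p hp => ?_)
        have ha := Real.exp_pos a
        have hr : 0 < p.1 := ha.trans_le hp.1.1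
        have hl : Real.log p.1 ∈ Icc a b :=
          ⟨(Real.le_log_iff_exp_le hr).2 hp.1.1, (Real.log_le_iff_le_exp hr).2 hp.1.2⟩
        have h1 := hC _ hl
        have hC0 : 0 ≤ C := (norm_nonneg _).trans h1
        rw [abs_of_pos hr, norm_mul, norm_mul, norm_div, Real.norm_of_nonneg hr.le,
          Real.norm_of_nonneg (sq_nonneg p.1)]
        have h2 := hp.1.1
        have h3 := hp.1.2
        have h4 : ‖v (Complex.polarCoord.symm p + c)‖ ≤ B := hB _
        gcongr
    rw [Measure.volume_eq_prod, setIntegral_prod _ hi, ← Real.image_exp_Icc,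
      integral_image_eq_integral_abs_deriv_smul measurableSet_Icc
        (fun s _ => (Real.hasDerivAt_exp s).hasDerivWithinAt) Real.exp_injective.injOn,
      intervalIntegral.integral_of_le hab, ← integral_Icc_eq_integral_Ioc, ← integral_const_mul]
    refine setIntegral_congr_fun measurableSet_Icc fun s _ => ?_
    have hE := Real.exp_pos s
    simp only
    rw [integral_const_mul, integral_mul_const, inner, abs_of_pos hE, Real.log_exp, smul_eq_mul]
    field_simp

end RAD

theorem st_rad : St_RAD := by
  refine ⟨RAD.lap, fun u φ c a b hab hφ hu ⟨B, hB⟩ => ?_⟩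
  set S : Set ℂ := {z | Real.exp a ≤ ‖z - c‖ ∧ ‖z - c‖ ≤ Real.exp b} with hS
  have hn : Continuous fun z : ℂ => ‖z - c‖ := by fun_prop
  have hSm : MeasurableSet S :=
    ((isClosed_le continuous_const hn).inter (isClosed_le hn continuous_const)).measurableSet
  have hv : Measurable (S.indicator u) := by
    refine measurable_of_restrict_of_restrict_compl hSm ?_ ?_
    · have e : S.domRestrict (S.indicator u) = S.domRestrict u := funext fun x => indicator_of_mem x.2 u
      rw [e]
      exact (upperSemicontinuousOn_iff_restrict.2 hu).measurable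
    · have e : Sᶜ.domRestrict (S.indicator u) = fun _ => 0 := funext fun x => indicator_of_notMem x.2 u
      rw [e]
      exact measurable_const
  have hb : ∀ z, |S.indicator u z| ≤ max B 0 := fun z => by
    by_cases hz : z ∈ S
    · rw [indicator_of_mem hz]
      exact (hB z hz.1 hz.2).trans (le_max_left _ _)
    · rw [indicator_of_notMem hz, abs_zero]
      exact le_max_right _ _
  obtain ⟨h1, h2⟩ := RAD.polar (S.indicator u) φ c a b _ hab hφ hv hb fun z hz => indicator_of_notMem (s := S) hz u
  have hc : ∀ s ∈ Icc a b, Real.circleAverage (S.indicator u) c (Real.exp s) = Real.circleAverage u c (Real.exp s) := by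
    intro s hs
    refine Real.circleAverage_congr_sphere fun z hz => indicator_of_mem ?_ u
    rw [mem_sphere_iff_norm, abs_of_pos (Real.exp_pos s)] at hz
    rw [hS, mem_ofPred_eq, hz]
    exact ⟨Real.exp_le_exp.2 hs.1, Real.exp_le_exp.2 hs.2⟩
  constructor
  · rw [intervalIntegrable_iff_integrableOn_Icc_of_le hab] at h1 ⊢
    exact h1.congr_fun hc measurableSet_Icc
  · rw [← integral_indicator hSm, ← intervalIntegral.integral_congr (f := fun s =>
      φ s * Real.circleAverage (S.indicator u) c (Real.exp s)) fun s hs => by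
        rw [uIcc_of_le hab] at hs
        simp only [hc s hs], ← h2]
    refine integral_congr_ae (Eventually.of_forall fun z => ?_)
    exact indicator_mul_left S u _

end Pool.Agent.Lib.SH
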