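import Pool.Agent.Lib.SH.Blue4

/-! Birth shape: elementary estimates and cut-off functions. -/

open Set Filter Topology Metric Complex
open scoped ContDiff

noncomputable section

namespace Pool.Agent.Lib.SH.SHAPE

theorem log_lip {s t m : ℝ} (hm : 0 < m) (hs : m ≤ s) (ht : m ≤ t) :
    |Real.log s - Real.log t| ≤ |s - t| / m := by
  have key : ∀ a b : ℝ, m ≤ a → m ≤ b → Real.log a - Real.log b ≤ |a - b| / m := fun a b ha hb => by
    have ha0 : 0 < a := hm.trans_le ha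
    have hb0 : 0 < b := hm.trans_le hb
    rw [← Real.log_div ha0.ne' hb0.ne']
    calc Real.log (a / b) ≤ a / b - 1 := Real.log_le_sub_one_of_pos (div_pos ha0 hb0)
      _ = (a - b) / b := by field_simp
      _ ≤ |a - b| / b := by gcongr; exact le_abs_self _
      _ ≤ |a - b| / m := by gcongr
  refine abs_sub_le_iff.2 ⟨key s t hs ht, ?_⟩
  rw [abs_sub_comm]
  exact key t s ht hs

/-- the logarithm of the modulus of the Blaschke factor -/
def lam (z : ℂ) : ℝ := Real.log ‖bl z‖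

theorem lam_eq {z : ℂ} (h1 : z - I ≠ 0) (h2 : z + I ≠ 0) :
    lam z = Real.log ‖z - I‖ - Real.log ‖z + I‖ := by
  rw [lam, bl, norm_div, Real.log_div (norm_ne_zero_iff.2 h1) (norm_ne_zero_iff.2 h2)]

theorem add_ge (z : ℂ) : z.im + 1 ≤ ‖z + I‖ := by
  simpa using im_le_norm (z + I)

theorem sub_ge (z : ℂ) : 1 - z.im ≤ ‖z - I‖ := by
  have := abs_im_le_norm (z - I)
  simp only [sub_im, I_im] at this
  linarith [neg_abs_le (z.im - 1)]

theorem two_le (z : ℂ) : 2 ≤ ‖z - I‖ + ‖z + I‖ := by linarith [add_ge z, sub_ge z]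

theorem sq_diff (z : ℂ) : ‖z + I‖ ^ 2 - ‖z - I‖ ^ 2 = 4 * z.im := by
  rw [Complex.sq_norm, Complex.sq_norm, normSq_apply, normSq_apply]
  simp
  ring

theorem diff_le (z : ℂ) : |‖z - I‖ - ‖z + I‖| ≤ 2 * |z.im| := by
  have h1 := sq_diff z
  have h2 := two_le z
  have h3 : |‖z - I‖ - ‖z + I‖| * (‖z - I‖ + ‖z + I‖) = 4 * |z.im| := by
    rw [← abs_of_nonneg (by linarith : 0 ≤ ‖z - I‖ + ‖z + I‖), ← abs_mul,
      show (‖z - I‖ - ‖z + I‖) * (‖z - I‖ + ‖z + I‖) = -4 * z.im by linarith, abs_mul]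
    norm_num
  nlinarith [abs_nonneg (‖z - I‖ - ‖z + I‖)]

theorem diff_le_two (z : ℂ) : |‖z - I‖ - ‖z + I‖| ≤ 2 := by
  have h := abs_norm_sub_norm_le (z - I) (z + I)
  have e : z - I - (z + I) = -2 * I := by ring
  rw [e] at h
  simpa using h

theorem lam_bd {z : ℂ} {m : ℝ} (hm : 0 < m) (h1 : m ≤ ‖z - I‖) (h2 : m ≤ ‖z + I‖) :
    |lam z| ≤ |‖z - I‖ - ‖z + I‖| / m := by
  rw [lam_eq (norm_pos_iff.1 (hm.trans_le h1)) (norm_pos_iff.1 (hm.trans_le h2))]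
  exact log_lip hm h1 h2

theorem lam_im {z : ℂ} (h1 : 1 / 2 ≤ ‖z - I‖) (h2 : -1 / 2 ≤ z.im) : |lam z| ≤ 4 * |z.im| := by
  have h3 := lam_bd (by norm_num) h1 (by linarith [add_ge z])
  linarith [diff_le z]

theorem lam_four {z : ℂ} (h1 : 1 / 2 ≤ ‖z - I‖) (h2 : -1 / 2 ≤ z.im) : |lam z| ≤ 4 := by
  have h3 := lam_bd (by norm_num) h1 (by linarith [add_ge z])
  linarith [diff_le_two z]

theorem lam_far {z : ℂ} {R : ℝ} (hR : 2 ≤ R) (h : R ≤ ‖z‖) : |lam z| ≤ 4 / R := by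
  have a1 : R / 2 ≤ ‖z - I‖ := by
    have := norm_sub_norm_le z I
    rw [norm_I] at this
    linarith
  have a2 : R / 2 ≤ ‖z + I‖ := by
    have := norm_sub_norm_le z (-I)
    rw [norm_neg, norm_I, sub_neg_eq_add] at this
    linarith
  refine (lam_bd (by linarith) a1 a2).trans ?_
  calc _ ≤ 2 / (R / 2) := by gcongr; exact diff_le_two z
    _ = 4 / R := by field_simp; norm_num

theorem logp_lip {z z' : ℂ} (h : -1 / 2 ≤ z.im) (h' : -1 / 2 ≤ z'.im) :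
    |Real.log ‖z + I‖ - Real.log ‖z' + I‖| ≤ 2 * ‖z - z'‖ := by
  have h1 := log_lip (m := 1 / 2) (by norm_num) (by linarith [add_ge z] : 1 / 2 ≤ ‖z + I‖)
    (by linarith [add_ge z'] : 1 / 2 ≤ ‖z' + I‖)
  have h2 := abs_norm_sub_norm_le (z + I) (z' + I)
  rw [add_sub_add_right_eq_sub] at h2
  linarith

theorem lam_lip {z z' : ℂ} (h1 : 1 / 2 ≤ ‖z - I‖) (h2 : -1 / 2 ≤ z.im) (h3 : 1 / 2 ≤ ‖z' - I‖)
    (h4 : -1 / 2 ≤ z'.im) : |lam z - lam z'| ≤ 4 * ‖z - z'‖ := by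
  have a1 := log_lip (m := 1 / 2) (by norm_num) h1 h3
  have a2 := abs_norm_sub_norm_le (z - I) (z' - I)
  rw [sub_sub_sub_cancel_right] at a2
  have a3 := logp_lip h2 h4
  rw [lam_eq (norm_pos_iff.1 (by linarith)) (norm_pos_iff.1 (by linarith [add_ge z])),
    lam_eq (norm_pos_iff.1 (by linarith)) (norm_pos_iff.1 (by linarith [add_ge z']))]
  have a4 := abs_sub (Real.log ‖z - I‖ - Real.log ‖z' - I‖) (Real.log ‖z + I‖ - Real.log ‖z' + I‖)
  rw [show Real.log ‖z - I‖ - Real.log ‖z + I‖ - (Real.log ‖z' - I‖ - Real.log ‖z' + I‖) =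
    Real.log ‖z - I‖ - Real.log ‖z' - I‖ - (Real.log ‖z + I‖ - Real.log ‖z' + I‖) by ring]
  linarith

theorem lam_nonpos {z : ℂ} (h : 0 ≤ z.im) : lam z ≤ 0 := by
  refine Real.log_nonpos (norm_nonneg _) ?_
  rw [bl, norm_div]
  refine div_le_one_of_le₀ ?_ (norm_nonneg _)
  exact (sq_le_sq₀ (norm_nonneg _) (norm_nonneg _)).1 (by linarith [sq_diff z])

theorem lognorm_smooth {f : ℂ → ℂ} {z : ℂ} (hf : ContDiffAt ℝ ∞ f z) (h : f z ≠ 0) :
    ContDiffAt ℝ ∞ (fun w => Real.log ‖f w‖) z :=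
  (hf.norm ℝ h).log (norm_ne_zero_iff.2 h)

theorem lam_smooth {z : ℂ} (h1 : z - I ≠ 0) (h2 : z + I ≠ 0) : ContDiffAt ℝ ∞ lam z :=
  lognorm_smooth (f := bl)
    (((contDiffAt_id.sub contDiffAt_const).div (𝕜 := ℂ) (contDiffAt_id.add contDiffAt_const)
      h2).restrict_scalars ℝ) (div_ne_zero h1 h2)

/-- `(exp u - 1) / u` -/
def Ee (u : ℂ) : ℂ := dslope Complex.exp 0 u

theorem Ee_zero : Ee 0 = 1 := by simp [Ee]

theorem mul_Ee (u : ℂ) : u * Ee u = Complex.exp u - 1 := by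
  simpa [Ee] using sub_smul_dslope Complex.exp 0 u

theorem Ee_smooth : ContDiff ℝ ∞ Ee := by
  have h : DifferentiableOn ℂ Ee univ :=
    (Complex.differentiableOn_dslope univ_mem).2 differentiable_exp.differentiableOn
  exact ((differentiableOn_univ.1 h).contDiff (n := ∞)).restrict_scalars ℝ

theorem Ee_ne {u : ℂ} (h : ‖u‖ ≤ 1 / 2) : Ee u ≠ 0 := fun h0 => by
  by_cases hu : u = 0
  · rw [hu, Ee_zero] at h0
    exact one_ne_zero h0
  · have h1 := Complex.norm_exp_sub_one_sub_id_le (x := u) (by linarith)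
    rw [← mul_Ee, h0, mul_zero, zero_sub, norm_neg] at h1
    have := norm_pos_iff.2 hu
    nlinarith

/-- `log |(exp u - 1) / u|` -/
def gg (u : ℂ) : ℝ := Real.log ‖Ee u‖

theorem gg_smooth {u : ℂ} (h : ‖u‖ ≤ 1 / 2) : ContDiffAt ℝ ∞ gg u :=
  lognorm_smooth Ee_smooth.contDiffAt (Ee_ne h)

theorem gg_lip : ∃ K : ℝ, 0 ≤ K ∧ ∀ u v : ℂ, ‖u‖ ≤ 1 / 2 → ‖v‖ ≤ 1 / 2 →
    |gg u - gg v| ≤ K * ‖u - v‖ := by
  have h : ContDiffOn ℝ ∞ gg (closedBall 0 (1 / 2)) := fun u hu =>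
    (gg_smooth (mem_closedBall_zero_iff.1 hu)).contDiffWithinAt
  obtain ⟨K, hK⟩ := h.exists_lipschitzOnWith (by simp) (convex_closedBall _ _)
    (isCompact_closedBall _ _)
  refine ⟨K, K.2, fun u v hu hv => ?_⟩
  have := hK.dist_le_mul u (mem_closedBall_zero_iff.2 hu) v (mem_closedBall_zero_iff.2 hv)
  rwa [Real.dist_eq, dist_eq_norm] at this

/-- the cut-off functions -/
structure Cut (φ c : ℂ → ℝ) (M8 y4 K : ℝ) : Prop where
  K0 : 0 ≤ K
  s1 : ContDiff ℝ ∞ φ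
  r1 : ∀ z, 0 ≤ φ z ∧ φ z ≤ 1
  l1 : ∀ z z', |φ z - φ z'| ≤ K * ‖z - z'‖
  o1 : ∀ z, (M8 ≤ ‖z‖ ∨ |z.im| ≤ y4) → φ z = 1
  z1 : ∀ z, ‖z‖ ≤ M8 / 2 → 2 * y4 ≤ |z.im| → φ z = 0
  s2 : ContDiff ℝ ∞ c
  r2 : ∀ z, 0 ≤ c z ∧ c z ≤ 1
  l2 : ∀ z z', |c z - c z'| ≤ K * ‖z - z'‖
  o2 : ∀ z, ‖z‖ ≤ 2 → c z = 1
  z2 : ∀ z, 8 ≤ ‖z‖ → c z = 0

theorem exists_cut {M8 y4 : ℝ} (hM : 0 < M8) (hy : 0 < y4) : ∃ φ c K, Cut φ c M8 y4 K := by
  let a : ContDiffBump (0 : ℂ) := ⟨M8 / 2, M8, by positivity, by linarith⟩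
  let b : ContDiffBump (0 : ℝ) := ⟨y4, 2 * y4, hy, by linarith⟩
  let c : ContDiffBump (0 : ℂ) := ⟨2, 8, by norm_num, by norm_num⟩
  obtain ⟨Ka, ha⟩ := ContDiff.lipschitzWith_of_hasCompactSupport a.hasCompactSupport
    (a.contDiff (n := 1)) (by simp)
  obtain ⟨Kb, hb⟩ := ContDiff.lipschitzWith_of_hasCompactSupport b.hasCompactSupport
    (b.contDiff (n := 1)) (by simp)
  obtain ⟨Kc, hc⟩ := ContDiff.lipschitzWith_of_hasCompactSupport c.hasCompactSupport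
    (c.contDiff (n := 1)) (by simp)
  have h1 : (0 : ℝ) ≤ Ka := Ka.2
  have h2 : (0 : ℝ) ≤ Kb := Kb.2
  have h3 : (0 : ℝ) ≤ Kc := Kc.2
  refine ⟨fun z => 1 - a z * (1 - b z.im), c, Ka + Kb + Kc, by positivity,
    contDiff_const.sub (a.contDiff.mul (contDiff_const.sub (b.contDiff.comp imCLM.contDiff))),
    fun z => ?_, fun z z' => ?_, fun z hz => ?_, fun z h4 h5 => ?_, c.contDiff,
    fun z => ⟨c.nonneg, c.le_one⟩, fun z z' => ?_,
    fun z hz => c.one_of_mem_closedBall (mem_closedBall_zero_iff.2 hz),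
    fun z hz => c.zero_of_le_dist (by rwa [dist_zero_right])⟩
  · have a1 : 0 ≤ a z := a.nonneg
    have a2 : a z ≤ 1 := a.le_one
    have a3 : 0 ≤ b z.im := b.nonneg
    have a4 : b z.im ≤ 1 := b.le_one
    constructor <;> nlinarith
  · have a1 := ha.dist_le_mul z z'
    have a2 := hb.dist_le_mul z.im z'.im
    rw [Real.dist_eq, dist_eq_norm] at a1
    rw [Real.dist_eq, Real.dist_eq, ← sub_im] at a2
    have a3 := abs_im_le_norm (z - z')
    have a4 : |1 - b z.im| ≤ 1 := by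
      rw [abs_of_nonneg (sub_nonneg.2 b.le_one)]
      linarith [b.nonneg (x := z.im)]
    have a5 : |a z'| ≤ 1 := by
      rw [abs_of_nonneg a.nonneg]
      exact a.le_one
    have e : 1 - a z * (1 - b z.im) - (1 - a z' * (1 - b z'.im)) =
        a z' * (b z.im - b z'.im) - (a z - a z') * (1 - b z.im) := by ring
    rw [e]
    refine (abs_sub _ _).trans ?_
    rw [abs_mul, abs_mul]
    calc _ ≤ 1 * (Kb * ‖z - z'‖) + Ka * ‖z - z'‖ * 1 := by
          gcongr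
          exact a2.trans (by gcongr)
      _ ≤ _ := by nlinarith [norm_nonneg (z - z')]
  · rcases hz with hz | hz
    · rw [a.zero_of_le_dist (by rwa [dist_zero_right])]
      ring
    · rw [b.one_of_mem_closedBall (mem_closedBall_zero_iff.2 hz)]
      ring
  · rw [a.one_of_mem_closedBall (mem_closedBall_zero_iff.2 h4),
      b.zero_of_le_dist (by rwa [dist_zero_right])]
    ring
  · have a1 := hc.dist_le_mul z z'
    rw [Real.dist_eq, dist_eq_norm] at a1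
    nlinarith [norm_nonneg (z - z')]

theorem der_le {u : ℝ → ℝ} {V : ℝ → ℂ} {u' : ℝ} {V' : ℂ} (hu : HasDerivAt u u' 0)
    (hV : HasDerivAt V V' 0) (h : ∀ᶠ t in 𝓝 (0 : ℝ), |u t - u 0| ≤ ‖V t - V 0‖ / 4) :
    |u'| ≤ ‖V'‖ / 4 := by
  have h1 := (hasDerivAt_iff_tendsto_slope.1 hu).norm
  have h2 := (hasDerivAt_iff_tendsto_slope.1 hV).norm.div_const 4
  refine le_of_tendsto_of_tendsto h1 h2 ?_
  filter_upwards [h.filter_mono nhdsWithin_le_nhds] with t ht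
  simp only [slope, vsub_eq_sub, norm_smul]
  rw [mul_div_assoc]
  exact mul_le_mul_of_nonneg_left ht (norm_nonneg _)

theorem der_log {p : ℂ} (hp : p ≠ 0) (v : ℂ) :
    HasDerivAt (fun t : ℝ => Real.log ‖p + t * v‖) (v / p).re 0 := by
  have h1 : HasDerivAt (fun t : ℝ => 1 + (t : ℂ) * (v / p)) (v / p) 0 := by
    simpa using ((ofRealCLM.hasDerivAt (x := 0)).mul_const (v / p)).const_add 1
  have h2 := h1.clog_real (by simp)
  have h3 := (reCLM.hasFDerivAt.comp_hasDerivAt 0 h2).const_add (Real.log ‖p‖)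
  simp only [ofReal_zero, zero_mul, add_zero, div_one, reCLM_apply] at h3
  refine h3.congr_of_eventuallyEq ?_
  have h4 : ∀ᶠ t : ℝ in 𝓝 0, 1 + (t : ℂ) * (v / p) ≠ 0 :=
    h1.continuousAt.eventually_ne (by simp)
  filter_upwards [h4] with t ht
  have e : p + t * v = p * (1 + t * (v / p)) := by field_simp
  rw [e, norm_mul, Real.log_mul (norm_ne_zero_iff.2 hp) (norm_ne_zero_iff.2 ht)]
  simp [Complex.log_re]

theorem line_der (z v : ℂ) : HasDerivAt (fun t : ℝ => z + (t : ℂ) * v) v 0 := by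
  simpa using ((ofRealCLM.hasDerivAt (x := 0)).mul_const v).const_add z

theorem der_lam {z : ℂ} (h1 : z - I ≠ 0) (h2 : z + I ≠ 0) (v : ℂ) :
    HasDerivAt (fun t : ℝ => lam (z + t * v)) (v / (z - I) - v / (z + I)).re 0 := by
  have h3 := (der_log h1 v).sub (der_log h2 v)
  rw [sub_re]
  refine h3.congr_of_eventuallyEq ?_
  have hc := (line_der z v).continuousAt
  have h4 : ∀ᶠ t : ℝ in 𝓝 0, z + (t : ℂ) * v - I ≠ 0 :=
    (hc.sub continuousAt_const).eventually_ne (by simpa using h1)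
  have h5 : ∀ᶠ t : ℝ in 𝓝 0, z + (t : ℂ) * v + I ≠ 0 :=
    (hc.add continuousAt_const).eventually_ne (by simpa using h2)
  filter_upwards [h4, h5] with t a b
  rw [lam_eq a b, Pi.sub_apply, add_sub_right_comm, add_right_comm z _ I]

theorem crit {L : ℝ} (hL : 4 ≤ L) {z : ℂ} (h0 : -1 / 4 < z.im) (h1 : z - I ≠ 0)
    (h : ∀ v : ℂ, v.im + (v / (z - I) - v / (z + I)).re / L = 0) :
    z = I * Real.sqrt (1 - 2 / L) := by
  have h2 : z + I ≠ 0 := norm_pos_iff.1 (by linarith [add_ge z])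
  have hL0 : (L : ℂ) ≠ 0 := ofReal_ne_zero.2 (by linarith)
  set q : ℂ := -I + (1 / (z - I) - 1 / (z + I)) / L with hq
  have h3 : ∀ v : ℂ, (v * q).re = 0 := fun v => by
    have e : v * q = -I * v + (v / (z - I) - v / (z + I)) / L := by rw [hq]; ring
    rw [e, add_re, div_ofReal_re, ← h v]
    simp
  have h4 : q = 0 := by
    have a1 := h3 1
    have a2 := h3 I
    apply Complex.ext
    · simpa using a1
    · simpa using a2
  have h5 : 1 / 2 ≤ 1 - 2 / L := by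
    have : 2 / L ≤ 2 / 4 := by gcongr
    linarith
  set s := Real.sqrt (1 - 2 / L) with hs
  have h6 : s ^ 2 = 1 - 2 / L := Real.sq_sqrt (by linarith)
  have h7 : 1 / 4 ≤ s := Real.le_sqrt_of_sq_le (by linarith)
  have h8 : (s : ℂ) ^ 2 = 1 - 2 / L := by exact_mod_cast congrArg ofReal h6
  have h9 : (z - I) * (z + I) * L = 2 := by
    rw [hq] at h4
    field_simp at h4
    have : I * ((z - I) * (z + I) * L - 2) = 0 := by linear_combination -h4
    exact sub_eq_zero.1 ((mul_eq_zero.1 this).resolve_left I_ne_zero)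
  have h10 : (z - I * s) * (z + I * s) = 0 := by
    have a1 : (z - I) * (z + I) = 2 / L := by rw [eq_div_iff hL0, h9]
    linear_combination a1 + h8 + (1 - (s : ℂ) ^ 2) * I_sq
  rcases mul_eq_zero.1 h10 with a | a
  · exact sub_eq_zero.1 a
  · have := congrArg Complex.im a
    simp at this
    linarith

end Pool.Agent.Lib.SH.SHAPE
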