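import Pool.Agent.Lib.SH.Blue1b

/-! Slope lemma, part a: the symmetric harmonic function on an annulus. -/

open Set Filter Topology Metric Real
open scoped ComplexConjugate

noncomputable section

namespace Pool.Agent.Lib.SH.SL

lemma cint {F : Type} [NormedAddCommGroup F] {f : ℂ → F} {r : ℝ} (hr : 0 < r)
    (hf : ContinuousOn f (sphere 0 r)) : CircleIntegrable f 0 r :=
  ContinuousOn.circleIntegrable hr.le hf

lemma avg_diff {f : ℂ → ℂ} (hf : Differentiable ℂ f) (r : ℝ) : circleAverage f 0 r = f 0 :=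
  hf.diffContOnCl.circleAverage

lemma avg_re {f : ℂ → ℂ} {r : ℝ} (hf : CircleIntegrable f 0 r) :
    circleAverage (fun z => (f z).re) 0 r = (circleAverage f 0 r).re :=
  Complex.reCLM.circleAverage_comp_comm hf

lemma avg_conj {f : ℂ → ℂ} {r : ℝ} (hf : CircleIntegrable f 0 r) :
    circleAverage (fun z => conj (f z)) 0 r = conj (circleAverage f 0 r) :=
  (Complex.conjCLE : ℂ →L[ℝ] ℂ).circleAverage_comp_comm hf

lemma norm_avg_le (f : ℂ → ℂ) (r : ℝ) : ‖circleAverage f 0 r‖ ≤ circleAverage (fun z => ‖f z‖) 0 r := by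
  rw [circleAverage, circleAverage, norm_smul, smul_eq_mul, Real.norm_of_nonneg (by positivity)]
  exact mul_le_mul_of_nonneg_left (intervalIntegral.norm_integral_le_integral_norm two_pi_pos.le)
    (by positivity)

lemma avg_mono (j k : ℕ) : circleAverage (fun u : ℂ => u ^ j * conj u ^ k) 0 1 = if j = k then 1 else 0 := by
  have h1 : ∀ u ∈ sphere (0 : ℂ) |1|, u * conj u = 1 := fun u hu => by
    rw [Complex.mul_conj, Complex.normSq_eq_norm_sq, show ‖u‖ = 1 by simpa using hu]
    simp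
  rcases le_or_gt k j with h | h
  · obtain ⟨d, rfl⟩ := Nat.exists_eq_add_of_le h
    rw [circleAverage_congr_sphere (f₂ := fun u => u ^ d) fun u hu => by
      simp only [pow_add]
      rw [mul_right_comm, ← mul_pow, h1 u hu, one_pow, one_mul], avg_diff (by fun_prop)]
    rcases Nat.eq_zero_or_pos d with rfl | hd
    · simp
    · simp [hd.ne']
  · obtain ⟨d, rfl⟩ := Nat.exists_eq_add_of_lt h
    rw [circleAverage_congr_sphere (f₂ := fun u => conj (u ^ (d + 1))) fun u hu => by
      simp only [add_assoc, pow_add (conj u) j]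
      rw [← mul_assoc, ← mul_pow, h1 u hu, one_pow, one_mul, map_pow],
      avg_conj (cint one_pos (by fun_prop)), avg_diff (by fun_prop), if_neg (by omega)]
    simp

lemma coeff_bound (p : Polynomial ℂ) (S : ℝ) (hS : ∀ u ∈ sphere (0 : ℂ) 1, (p.eval u).re ≤ S) {k : ℕ}
    (hk : 0 < k) : ‖p.coeff k‖ ≤ 2 * (S - (p.eval 0).re) := by
  set q : Polynomial ℂ := Polynomial.C (S : ℂ) - p with hq
  have hqk : q.coeff k = -p.coeff k := by simp [hq, Polynomial.coeff_C, hk.ne']
  have hq0 : ∀ u, (q.eval u).re = S - (p.eval u).re := fun u => by simp [hq]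
  have hc : Continuous fun u : ℂ => conj u := Complex.continuous_conj
  have h1 : circleAverage (fun u => q.eval u * conj u ^ k) 0 1 = q.coeff k := by
    have h2 : (fun u => q.eval u * conj u ^ k) =
        fun u => ∑ j ∈ Finset.range (q.natDegree + k + 1), q.coeff j • (u ^ j * conj u ^ k) := by
      funext u
      rw [Polynomial.eval_eq_sum_range' (n := q.natDegree + k + 1) (by omega), Finset.sum_mul]
      simp only [smul_eq_mul, mul_assoc]
    rw [h2, circleAverage_fun_sum fun j _ => cint one_pos (by fun_prop)]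
    simp only [circleAverage_fun_smul, avg_mono]
    rw [Finset.sum_eq_single k (fun j _ hj => by simp [hj]) (fun h => absurd (Finset.mem_range.2 (by omega)) h)]
    simp
  have h3 : circleAverage (fun u => conj (q.eval u * u ^ k)) 0 1 = 0 := by
    rw [avg_conj (cint one_pos (by fun_prop)), avg_diff (by fun_prop)]
    simp [hk.ne']
  have h4 : circleAverage (fun u => q.eval u * conj u ^ k + conj (q.eval u * u ^ k)) 0 1 = q.coeff k := by
    rw [circleAverage_fun_add (cint one_pos (by fun_prop)) (cint one_pos (by fun_prop)), h1, h3, add_zero]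
  have h5 : circleAverage (fun u => ‖q.eval u * conj u ^ k + conj (q.eval u * u ^ k)‖) 0 1 =
      circleAverage (fun u => ((2 : ℂ) * q.eval u).re) 0 1 := by
    refine circleAverage_congr_sphere fun u hu => ?_
    have hu1 : ‖u‖ = 1 := by simpa using hu
    have h6 : 0 ≤ (q.eval u).re := by
      rw [hq0]; linarith [hS u (by simpa using hu1)]
    show ‖_‖ = _
    rw [map_mul, map_pow, ← add_mul, Complex.add_conj, norm_mul, norm_pow, Complex.norm_conj, hu1,
      Complex.norm_real, Real.norm_of_nonneg (by linarith)]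
    simp
  have h7 := norm_avg_le (fun u => q.eval u * conj u ^ k + conj (q.eval u * u ^ k)) 1
  rw [h4, h5, avg_re (cint one_pos (by fun_prop)), avg_diff (by fun_prop), hqk, norm_neg] at h7
  simpa [hq0] using h7

lemma re_refl (c z : ℂ) (k : ℕ) (hz : z ≠ 0) :
    (conj c * z⁻¹ ^ k).re = (c * z ^ k).re * ((‖z‖ ^ k)⁻¹ * (‖z‖ ^ k)⁻¹) := by
  have h1 : conj c * z⁻¹ ^ k = conj (c * z ^ k) * (((‖z‖ ^ k)⁻¹ * (‖z‖ ^ k)⁻¹ : ℝ) : ℂ) := by
    have h2 : ((‖z‖ : ℂ)) ≠ 0 := by exact_mod_cast norm_ne_zero_iff.2 hz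
    have h3 : z⁻¹ = conj z * ((‖z‖ : ℂ)⁻¹ * (‖z‖ : ℂ)⁻¹) := by
      rw [Complex.inv_def, Complex.normSq_eq_norm_sq]
      push_cast
      ring
    rw [h3, map_mul, map_pow]
    push_cast
    ring
  rw [h1, Complex.re_mul_ofReal, Complex.conj_re]

/-- the symmetric function with prescribed real part on the circles of radii `exp (-h')`, `exp h'` -/
lemma vv_exists {h h' S : ℝ} (p : Polynomial ℂ) (h0 : 0 < h) (h1 : h ≤ 1) (hh : h / 2 ≤ h')
    (hS : ∀ u ∈ sphere (0 : ℂ) 1, (p.eval u).re ≤ S) :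
    ∃ vv : ℂ → ℂ, (∀ z, z ≠ 0 → AnalyticAt ℂ vv z) ∧ (∀ u, ‖u‖ = 1 → (vv u).im = 0) ∧
      (∀ u, ‖u‖ = 1 → (vv (exp (-h') * u)).re = (p.eval u).re) ∧
      (∀ z, exp (-h') ≤ ‖z‖ → ‖z‖ ≤ exp h' → (vv z).re ≤ S) ∧
      (∀ z, exp (-(h / 4)) ≤ ‖z‖ → ‖z‖ ≤ exp (h / 4) →
        ‖vv z - (p.eval 0).re‖ ≤ 32 / h * (S - (p.eval 0).re)) ∧
      ∀ r, 0 < r → circleAverage (fun z => (vv z).re) 0 r = (p.eval 0).re := by
  set R : ℝ := exp (-h') with hR
  have hR0 : 0 < R := exp_pos _
  set N := p.natDegree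
  set den : ℕ → ℝ := fun k => R ^ k + (R ^ k)⁻¹ with hden
  have hd0 : ∀ k, 0 < den k := fun k => by positivity
  set c : ℕ → ℂ := fun k => p.coeff (k + 1) / den (k + 1) with hc
  set a0 : ℝ := (p.eval 0).re with ha0
  set vv : ℂ → ℂ := fun z => a0 + ∑ k ∈ Finset.range N, (c k * z ^ (k + 1) + conj (c k) * z⁻¹ ^ (k + 1))
    with hvv
  have han : ∀ z, z ≠ 0 → AnalyticAt ℂ vv z := fun z hz => by
    refine analyticAt_const.add (Finset.analyticAt_fun_sum _ fun k _ => ?_)
    exact (analyticAt_const.mul (analyticAt_id.pow _)).add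
      (analyticAt_const.mul ((analyticAt_id.inv hz).pow _))
  have hre : ∀ z, z ≠ 0 → (vv z).re = (a0 + ∑ k ∈ Finset.range N,
      (c k * (1 + (‖z‖ ^ (k + 1))⁻¹ * (‖z‖ ^ (k + 1))⁻¹ : ℝ)) * z ^ (k + 1) : ℂ).re := fun z hz => by
    simp only [hvv, Complex.add_re, Complex.re_sum]
    refine congrArg _ (Finset.sum_congr rfl fun k _ => ?_)
    rw [re_refl _ _ _ hz, mul_right_comm, Complex.re_mul_ofReal]
    ring
  have hp : ∀ u, (p.eval u).re = a0 + ∑ k ∈ Finset.range N, (p.coeff (k + 1) * u ^ (k + 1)).re := fun u => by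
    rw [Polynomial.eval_eq_sum_range, Finset.sum_range_succ', Complex.add_re, Complex.re_sum, ha0,
      ← Polynomial.coeff_zero_eq_eval_zero]
    simp [add_comm]
    rfl
  have hbd : ∀ (r : ℝ) (u : ℂ), 0 < r → ‖u‖ = 1 → (∀ k, r ^ k + (r ^ k)⁻¹ = den k) →
      (vv (r * u)).re = (p.eval u).re := fun r u hr hu hrd => by
    have hz : (r : ℂ) * u ≠ 0 := mul_ne_zero (by exact_mod_cast hr.ne') (by rintro rfl; simp at hu)
    rw [hre _ hz, hp, Complex.add_re, Complex.re_sum, Complex.ofReal_re]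
    refine congrArg _ (Finset.sum_congr rfl fun k _ => congrArg _ ?_)
    have h2 : ((den (k + 1) : ℝ) : ℂ) ≠ 0 := by exact_mod_cast (hd0 _).ne'
    have h3 : (r : ℂ) ≠ 0 := by exact_mod_cast hr.ne'
    have h4 : ((den (k + 1) : ℝ) : ℂ) = (r : ℂ) ^ (k + 1) + ((r : ℂ) ^ (k + 1))⁻¹ := by
      rw [← hrd]; push_cast; rfl
    rw [norm_mul, hu, mul_one, Complex.norm_real, Real.norm_of_nonneg hr.le, hc]
    simp only
    rw [div_mul_eq_mul_div, div_mul_eq_mul_div, div_eq_iff h2, h4, mul_pow]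
    push_cast
    field_simp
  have hD : 0 ≤ S - a0 := by
    have h2 := circleAverage_mono_on_of_le_circle (f := fun u => (p.eval u).re) (c := 0) (R := 1) (a := S)
      (cint one_pos (by fun_prop)) (fun u hu => hS u (by simpa using hu))
    rw [avg_re (cint one_pos (by fun_prop)), avg_diff (by fun_prop)] at h2
    linarith
  refine ⟨vv, han, fun u hu => ?_, fun u hu => hbd R u hR0 hu fun _ => rfl, fun z hz1 hz2 => ?_,
    fun z hz1 hz2 => ?_, fun r hr => ?_⟩
  · simp only [hvv, Complex.add_im, Complex.im_sum, Complex.ofReal_im, zero_add]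
    refine Finset.sum_eq_zero fun k _ => ?_
    rw [Complex.inv_def, Complex.normSq_eq_norm_sq, hu, ← Complex.add_im]
    simp only [one_pow, inv_one, Complex.ofReal_one, mul_one]
    rw [← map_pow, ← map_mul, Complex.add_conj, Complex.ofReal_im]
  · set U : Set ℂ := {z | R ≤ ‖z‖ ∧ ‖z‖ ≤ exp h'} with hU
    have hUc : IsClosed U := (isClosed_le continuous_const continuous_norm).inter
      (isClosed_le continuous_norm continuous_const)
    have hne : ∀ z ∈ U, z ≠ 0 := fun z hz h => by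
      have := hz.1
      rw [h, norm_zero] at this
      linarith
    have hb : Bornology.IsBounded U := (isBounded_closedBall (x := (0 : ℂ)) (r := exp h')).subset fun z hz => by
      simpa using hz.2
    have hdc : DiffContOnCl ℂ (fun z => Complex.exp (vv z)) U := by
      refine DifferentiableOn.diffContOnCl ?_
      rw [hUc.closure_eq]
      exact fun z hz => (han z (hne z hz)).differentiableAt.cexp.differentiableWithinAt
    have h2 := Complex.norm_le_of_forall_mem_frontier_norm_le hb hdc (C := exp S) (fun z hz => ?_)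
      (subset_closure (s := U) ⟨hz1, hz2⟩)
    · rwa [Complex.norm_exp, exp_le_exp] at h2
    · rw [Complex.norm_exp, exp_le_exp]
      have hzU : z ∈ U := hUc.frontier_subset hz
      have hz0 : 0 < ‖z‖ := norm_pos_iff.2 (hne z hzU)
      have hzu : z = (‖z‖ : ℂ) * (z / ‖z‖) := by
        have : (‖z‖ : ℂ) ≠ 0 := by exact_mod_cast hz0.ne'
        field_simp
      have hu : ‖z / (‖z‖ : ℂ)‖ = 1 := by simp [hz0.ne']
      have h3 : ‖z‖ = R ∨ ‖z‖ = R⁻¹ := by
        by_contra hn
        push Not at hn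
        refine hz.2 (mem_interior_iff_mem_nhds.2 (mem_of_superset
          (((isOpen_lt continuous_const continuous_norm).inter
            (isOpen_lt continuous_norm continuous_const)).mem_nhds (x := z)
            ⟨lt_of_le_of_ne hzU.1 hn.1.symm, lt_of_le_of_ne hzU.2 ?_⟩) fun w hw => ⟨hw.1.le, hw.2.le⟩))
        rw [hR, ← exp_neg, neg_neg] at hn
        exact hn.2
      rw [hzu, hbd _ _ hz0 hu]
      · exact hS _ (by simpa using hu)
      · intro k
        rcases h3 with h3 | h3 <;> simp only [h3, hden]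
        rw [inv_pow, inv_inv, add_comm]
  · set q : ℝ := exp (-(h / 4)) with hq
    have hq0 : 0 < q := exp_pos _
    have hq1 : h / 8 ≤ 1 - q := by
      have h2 : 1 + h / 4 ≤ exp (h / 4) := by linarith [add_one_le_exp (h / 4)]
      have h3 : q * exp (h / 4) = 1 := by rw [hq, ← exp_add]; simp
      nlinarith
    have hz0 : 0 < ‖z‖ := hq0.trans_le hz1
    have hzi : ‖z⁻¹‖ ≤ exp (h / 4) := by
      rw [norm_inv, inv_le_comm₀ hz0 (exp_pos _), ← exp_neg]
      exact hz1
    have hRq : R * exp (h / 4) ≤ q := by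
      rw [hR, hq, ← exp_add, exp_le_exp]; linarith
    have hck : ∀ k, ‖c k‖ * exp (h / 4) ^ (k + 1) ≤ 2 * (S - a0) * q ^ k := fun k => by
      have h2 : ‖c k‖ ≤ 2 * (S - a0) * R ^ (k + 1) := by
        rw [hc]
        simp only
        rw [norm_div, Complex.norm_real, Real.norm_of_nonneg (hd0 _).le, div_le_iff₀ (hd0 _)]
        refine (coeff_bound p S hS k.succ_pos).trans ?_
        have h3 : 1 ≤ R ^ (k + 1) * den (k + 1) := by
          simp only [hden]
          rw [mul_add, mul_inv_cancel₀ (by positivity)]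
          nlinarith [pow_pos hR0 (k + 1)]
        nlinarith
      have h4 : (R * exp (h / 4)) ^ (k + 1) ≤ q ^ k :=
        (pow_le_pow_left₀ (by positivity) hRq _).trans
          (pow_le_pow_of_le_one hq0.le (by linarith) k.le_succ)
      calc ‖c k‖ * exp (h / 4) ^ (k + 1) ≤ 2 * (S - a0) * R ^ (k + 1) * exp (h / 4) ^ (k + 1) := by gcongr
        _ = 2 * (S - a0) * (R * exp (h / 4)) ^ (k + 1) := by rw [mul_pow]; ring
        _ ≤ _ := by gcongr
    have h5 : ‖vv z - a0‖ ≤ ∑ k ∈ Finset.range N, 4 * (S - a0) * q ^ k := by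
      simp only [hvv, add_sub_cancel_left]
      refine (norm_sum_le _ _).trans (Finset.sum_le_sum fun k _ => (norm_add_le _ _).trans ?_)
      rw [norm_mul, norm_mul, norm_pow, norm_pow, Complex.norm_conj]
      have h6 : ‖c k‖ * ‖z‖ ^ (k + 1) ≤ ‖c k‖ * exp (h / 4) ^ (k + 1) :=
        mul_le_mul_of_nonneg_left (pow_le_pow_left₀ (norm_nonneg _) hz2 _) (norm_nonneg _)
      have h7 : ‖c k‖ * ‖z⁻¹‖ ^ (k + 1) ≤ ‖c k‖ * exp (h / 4) ^ (k + 1) :=
        mul_le_mul_of_nonneg_left (pow_le_pow_left₀ (norm_nonneg _) hzi _) (norm_nonneg _)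
      linarith [hck k]
    have h8 : ∑ k ∈ Finset.range N, q ^ k ≤ 8 / h := by
      have h9 : (∑ k ∈ Finset.range N, q ^ k) * (1 - q) = 1 - q ^ N := by
        rw [← geom_sum_mul_neg]
      have h10 : 0 ≤ ∑ k ∈ Finset.range N, q ^ k := Finset.sum_nonneg fun k _ => (pow_pos hq0 k).le
      rw [le_div_iff₀ h0]
      nlinarith [pow_pos hq0 N]
    rw [← Finset.mul_sum] at h5
    calc _ ≤ 4 * (S - a0) * (8 / h) := h5.trans (by gcongr)
      _ = _ := by ring
  · rw [circleAverage_congr_sphere (f₂ := fun z => ((a0 : ℂ) + ∑ k ∈ Finset.range N,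
      (c k * (1 + (r ^ (k + 1))⁻¹ * (r ^ (k + 1))⁻¹ : ℝ)) * z ^ (k + 1)).re) fun z hz => ?_,
      avg_re (cint hr (by fun_prop)), avg_diff (by fun_prop)]
    · simp
    · have hz1 : ‖z‖ = r := by simpa [abs_of_pos hr] using hz
      simp only
      rw [hre z (norm_pos_iff.1 (hz1 ▸ hr)), hz1]

end Pool.Agent.Lib.SH.SL
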