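import Pool.Agent.Lib.SH.Blue1b

open Set Filter Topology Metric

noncomputable section

namespace Pool.Agent.Lib.SH

namespace SM3

lemma key (α β ζ : ℂ) (R : ℝ) (h : ‖ζ‖ = R) :
    (α * ζ + (starRingEnd ℂ) β * ζ⁻¹).re = ((α + β / ((R ^ 2 : ℝ) : ℂ)) * ζ).re := by
  have e : (starRingEnd ℂ) β * ζ⁻¹ = (starRingEnd ℂ) (β / ((R ^ 2 : ℝ) : ℂ) * ζ) := by
    rw [Complex.inv_def, Complex.normSq_eq_norm_sq, h, map_mul, map_div₀, Complex.conj_ofReal,
      Complex.ofReal_inv]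
    ring
  rw [e, add_mul, Complex.add_re, Complex.add_re, Complex.conj_re]

/-- the solution of the Dirichlet problem on an annulus for trigonometric data of mean zero -/
lemma modes (c : ℂ) (r1 r2 : ℝ) (h1 : 0 < r1) (h2 : 0 < r2) (h12 : r1 ≠ r2) (p : Polynomial ℂ) :
    ∃ G : ℂ → ℂ, (∀ z, z ≠ c → AnalyticAt ℂ G z) ∧
      (∀ r : ℝ, ∃ H : ℂ → ℂ, Differentiable ℂ H ∧ H c = 0 ∧
        ∀ z, ‖z - c‖ = r → (G z).re = (H z).re) ∧
      (∀ z, ‖z - c‖ = r1 → (G z).re = (p.eval ((z - c) / r1)).re - (p.eval 0).re) ∧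
      ∀ z, ‖z - c‖ = r2 → (G z).re = 0 := by
  induction p using Polynomial.induction_on' with
  | add p q hp hq =>
    obtain ⟨G, a1, a2, a3, a4⟩ := hp
    obtain ⟨G', b1, b2, b3, b4⟩ := hq
    refine ⟨fun z => G z + G' z, fun z hz => (a1 z hz).add (b1 z hz), fun r => ?_,
      fun z hz => ?_, fun z hz => ?_⟩
    · obtain ⟨H, c1, c2, c3⟩ := a2 r
      obtain ⟨H', d1, d2, d3⟩ := b2 r
      refine ⟨fun z => H z + H' z, c1.add d1, by simp [c2, d2], fun z hz => ?_⟩
      simp only [Complex.add_re, c3 z hz, d3 z hz]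
    · simp only [Complex.add_re, a3 z hz, b3 z hz, Polynomial.eval_add]
      ring
    · simp only [Complex.add_re, a4 z hz, b4 z hz, add_zero]
  | monomial n a =>
    rcases Nat.eq_zero_or_pos n with rfl | hn
    · refine ⟨fun _ => 0, fun z _ => analyticAt_const, fun r => ⟨fun _ => 0, by fun_prop, rfl,
        fun z _ => rfl⟩, fun z _ => by simp, fun z _ => rfl⟩
    · have hA : (0 : ℝ) < r1 ^ n := pow_pos h1 n
      have hB : (0 : ℝ) < r2 ^ n := pow_pos h2 n
      have hAB : r1 ^ n ≠ r2 ^ n := fun e => h12 ((pow_left_inj₀ h1.le h2.le hn.ne').1 e)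
      have hD : (r2 ^ n) ^ 2 - (r1 ^ n) ^ 2 ≠ 0 := by
        intro e
        apply hAB
        exact ((pow_left_inj₀ hB.le hA.le two_ne_zero).1 (sub_eq_zero.1 e)).symm
      have hD' : ((r2 : ℂ) ^ n) ^ 2 - ((r1 : ℂ) ^ n) ^ 2 ≠ 0 := by exact_mod_cast hD
      have hA' : (r1 : ℂ) ^ n ≠ 0 := by exact_mod_cast hA.ne'
      have hB' : (r2 : ℂ) ^ n ≠ 0 := by exact_mod_cast hB.ne'
      obtain ⟨α, hα⟩ : ∃ α : ℂ, α = -(a * (r1 : ℂ) ^ n) /
        (((r2 : ℂ) ^ n) ^ 2 - ((r1 : ℂ) ^ n) ^ 2) := ⟨_, rfl⟩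
      obtain ⟨β, hβ⟩ : ∃ β : ℂ, β = a * (r1 : ℂ) ^ n * ((r2 : ℂ) ^ n) ^ 2 /
        (((r2 : ℂ) ^ n) ^ 2 - ((r1 : ℂ) ^ n) ^ 2) := ⟨_, rfl⟩
      have hk : ∀ (r : ℝ) (z : ℂ), ‖z - c‖ = r →
          (α * (z - c) ^ n + (starRingEnd ℂ) β * ((z - c) ^ n)⁻¹).re =
            ((α + β / (((r ^ n) ^ 2 : ℝ) : ℂ)) * (z - c) ^ n).re := fun r z hz =>
        key α β _ _ (by rw [norm_pow, hz])
      refine ⟨fun z => α * (z - c) ^ n + (starRingEnd ℂ) β * ((z - c) ^ n)⁻¹, fun z hz => ?_,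
        fun r => ⟨fun z => (α + β / (((r ^ n) ^ 2 : ℝ) : ℂ)) * (z - c) ^ n, by fun_prop,
          by simp [hn.ne'], hk r⟩, fun z hz => ?_, fun z hz => ?_⟩
      · have a0 : AnalyticAt ℂ (fun z : ℂ => (z - c) ^ n) z := by fun_prop
        exact (analyticAt_const.mul a0).add
          (analyticAt_const.mul (a0.inv (pow_ne_zero n (sub_ne_zero.2 hz))))
      · have e : α + β / (((r1 ^ n) ^ 2 : ℝ) : ℂ) = a / (r1 : ℂ) ^ n := by
          rw [hα, hβ]
          push_cast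
          field_simp
          ring
        simp only [Polynomial.eval_monomial]
        rw [hk r1 z hz, e, zero_pow hn.ne', mul_zero, Complex.zero_re, sub_zero, div_pow]
        congr 1
        ring
      · have e : α + β / (((r2 ^ n) ^ 2 : ℝ) : ℂ) = 0 := by
          rw [hα, hβ]
          push_cast
          field_simp
          ring
        rw [hk r2 z hz, e, zero_mul, Complex.zero_re]

lemma mean_re (H : ℂ → ℂ) (hH : Differentiable ℂ H) (c : ℂ) (r : ℝ) :
    Real.circleAverage (fun z => (H z).re) c r = (H c).re := by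
  have h1 : Real.circleAverage H c r = H c := hH.diffContOnCl.circleAverage
  have h2 := Complex.reCLM.circleAverage_comp_comm (f := H) (c := c) (R := r)
    hH.continuous.continuousOn.circleIntegrable'
  rw [h1] at h2
  exact h2

lemma integ (u : ℂ → ℝ) (c : ℂ) (r B : ℝ) (hr : 0 ≤ r)
    (hu : UpperSemicontinuousOn u (sphere c r)) (hB : ∀ z ∈ sphere c r, |u z| ≤ B) :
    CircleIntegrable u c r := by
  have h1 : UpperSemicontinuous (u ∘ circleMap c r) := by
    rw [← upperSemicontinuousOn_univ_iff]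
    exact hu.comp (continuous_circleMap c r).continuousOn fun θ _ => circleMap_mem_sphere c hr θ
  refine (intervalIntegrable_const (c := B)).mono_fun' h1.measurable.aestronglyMeasurable ?_
  exact Eventually.of_forall fun θ => hB _ (circleMap_mem_sphere c hr θ)

lemma lre (G : ℂ → ℂ) (c : ℂ) (β0 β1 : ℝ) (Z : Set ℂ) (hZ : ∀ z ∈ Z, z ≠ c)
    (hG : ∀ z, z ≠ c → AnalyticAt ℂ G z) :
    LRe1 (fun z => (G z).re + (β0 + β1 * Real.log ‖z - c‖)) Z := by
  intro z0 hz0
  have h0 : z0 - c ≠ 0 := sub_ne_zero.2 (hZ z0 hz0)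
  refine ⟨fun z => G z + ((β0 + β1 * Real.log ‖z0 - c‖ : ℝ) +
    (β1 : ℂ) * Complex.log ((z - c) / (z0 - c))), ?_, ?_⟩
  · have a0 : AnalyticAt ℂ (fun z : ℂ => (z - c) / (z0 - c)) z0 := by fun_prop (disch := exact h0)
    refine (hG z0 (hZ z0 hz0)).add (analyticAt_const.add (analyticAt_const.mul (a0.clog ?_)))
    rw [div_self h0]
    exact Complex.one_mem_slitPlane
  · filter_upwards [isOpen_ne.mem_nhds (hZ z0 hz0)] with z hz
    have h1 : z - c ≠ 0 := sub_ne_zero.2 hz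
    rw [Complex.add_re, Complex.add_re, Complex.ofReal_re, Complex.re_ofReal_mul, Complex.log_re,
      norm_div, Real.log_div (norm_ne_zero_iff.2 h1) (norm_ne_zero_iff.2 h0)]
    ring

end SM3

theorem st_sm3 (h1 : St_SM1) (h2 : St_TRIG) : St_SM3 := by
  intro u c a b hu
  obtain ⟨B, hB⟩ := hu.bdd
  have hsph : ∀ s ∈ Ioo a b, sphere c (Real.exp s) ⊆
      {z : ℂ | Real.exp a < ‖z - c‖ ∧ ‖z - c‖ < Real.exp b} := by
    intro s hs z hz
    rw [mem_sphere_iff_norm] at hz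
    exact ⟨by rw [hz]; exact Real.exp_lt_exp.2 hs.1, by rw [hz]; exact Real.exp_lt_exp.2 hs.2⟩
  have htr : ∀ s ∈ Ioo a b, ∀ η : ℝ, 0 < η → ∃ p : Polynomial ℂ,
      (∀ z, ‖z - c‖ = Real.exp s → u z ≤ (p.eval ((z - c) / (Real.exp s : ℝ))).re) ∧
      (p.eval 0).re ≤ Real.circleAverage u c (Real.exp s) + η := by
    intro s hs η hη
    obtain ⟨p, p1, p2⟩ := h2 u c (Real.exp s) B η (Real.exp_pos s) hη (hu.usc.mono (hsph s hs))
      ⟨-B, fun z hz => (abs_le.1 (hB z (hsph s hs hz))).1⟩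
      (fun z hz => (abs_le.1 (hB z (hsph s hs hz))).2)
    refine ⟨p, fun z hz => ?_, p2⟩
    have hne : ((Real.exp s : ℝ) : ℂ) ≠ 0 := by exact_mod_cast (Real.exp_pos s).ne'
    have hm : (z - c) / (Real.exp s : ℝ) ∈ sphere (0 : ℂ) 1 := by
      rw [mem_sphere_iff_norm, sub_zero, norm_div, hz, Complex.norm_real,
        Real.norm_of_nonneg (Real.exp_pos s).le, div_self (Real.exp_pos s).ne']
    have h3 := (p1 _ hm).1
    rwa [mul_div_cancel₀ _ hne, add_sub_cancel] at h3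
  refine LinearOrder.convexOn_of_lt (convex_Ioo a b) ?_
  intro x hx y hy hxy s t hs ht hst
  simp only [smul_eq_mul]
  refine le_of_forall_pos_le_add fun η hη => ?_
  obtain ⟨p, p1, p2⟩ := htr x hx η hη
  obtain ⟨q, q1, q2⟩ := htr y hy η hη
  have hexy : Real.exp x < Real.exp y := Real.exp_lt_exp.2 hxy
  obtain ⟨G, a1, a2, a3, a4⟩ :=
    SM3.modes c (Real.exp x) (Real.exp y) (Real.exp_pos x) (Real.exp_pos y) hexy.ne p
  obtain ⟨G', b1, b2, b3, b4⟩ :=
    SM3.modes c (Real.exp y) (Real.exp x) (Real.exp_pos y) (Real.exp_pos x) hexy.ne' q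
  obtain ⟨β1, hβ1⟩ : ∃ β1 : ℝ, β1 * (y - x) = (q.eval 0).re - (p.eval 0).re :=
    ⟨((q.eval 0).re - (p.eval 0).re) / (y - x), div_mul_cancel₀ _ (sub_pos.2 hxy).ne'⟩
  obtain ⟨β0, hβ0⟩ : ∃ β0 : ℝ, β0 + β1 * x = (p.eval 0).re := ⟨(p.eval 0).re - β1 * x, by ring⟩
  obtain ⟨Z, hZ⟩ : ∃ Z : Set ℂ, Z = {z : ℂ | Real.exp x ≤ ‖z - c‖ ∧ ‖z - c‖ ≤ Real.exp y} :=
    ⟨_, rfl⟩
  have hZA : Z ⊆ {z : ℂ | Real.exp a < ‖z - c‖ ∧ ‖z - c‖ < Real.exp b} := by
    rw [hZ]
    exact fun z hz => ⟨(Real.exp_lt_exp.2 hx.1).trans_le hz.1,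
      hz.2.trans_lt (Real.exp_lt_exp.2 hy.2)⟩
  have hcn : Continuous fun z : ℂ => ‖z - c‖ := by fun_prop
  have hZc : IsCompact Z := by
    refine (isCompact_closedBall c (Real.exp y)).of_isClosed_subset ?_ ?_
    · rw [hZ]
      exact (isClosed_le continuous_const hcn).inter (isClosed_le hcn continuous_const)
    · rw [hZ]
      exact fun z hz => mem_closedBall_iff_norm.2 hz.2
  have hZne : ∀ z ∈ Z, z ≠ c := by
    rw [hZ]
    rintro z hz rfl
    have h3 := hz.1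
    rw [sub_self, norm_zero] at h3
    exact absurd (Real.exp_pos x) (not_lt.2 h3)
  have hI : interior Z ⊆ {z : ℂ | Real.exp a < ‖z - c‖ ∧ ‖z - c‖ < Real.exp b} :=
    interior_subset.trans hZA
  have hmax := h1 u (fun z => (G z + G' z).re + (β0 + β1 * Real.log ‖z - c‖)) Z hZc
    (hu.usc.mono hZA) ⟨hu.usc.mono hI, ⟨B, fun z hz => hB z (hI hz)⟩, fun z hz => hu.sub z (hI hz)⟩
    (SM3.lre (fun z => G z + G' z) c β0 β1 Z hZne fun z hz => (a1 z hz).add (b1 z hz)) (by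
      intro z hz hzi
      have ho : {z : ℂ | Real.exp x < ‖z - c‖ ∧ ‖z - c‖ < Real.exp y} ⊆ interior Z := by
        refine interior_maximal ?_
          ((isOpen_lt continuous_const hcn).inter (isOpen_lt hcn continuous_const))
        rw [hZ]
        exact fun z hz => ⟨hz.1.le, hz.2.le⟩
      rw [hZ] at hz
      rcases hz.1.eq_or_lt with e | e
      · have h3 := p1 z e.symm
        rw [Complex.add_re, a3 z e.symm, b4 z e.symm, ← e, Real.log_exp]
        linarith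
      · rcases hz.2.eq_or_lt with e' | e'
        · have h3 := q1 z e'
          rw [Complex.add_re, a4 z e', b3 z e', e', Real.log_exp]
          linarith
        · exact absurd (ho ⟨e, e'⟩) hzi)
  have hw1 : x ≤ s * x + t * y := by
    have e : s * x + t * y = x + t * (y - x) := by linear_combination x * hst
    have := mul_pos ht (sub_pos.2 hxy)
    linarith
  have hw2 : s * x + t * y ≤ y := by
    have e : s * x + t * y = y - s * (y - x) := by linear_combination y * hst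
    have := mul_pos hs (sub_pos.2 hxy)
    linarith
  have hw : s * x + t * y ∈ Ioo a b := ⟨hx.1.trans_le hw1, hw2.trans_lt hy.2⟩
  obtain ⟨H, c1, c2, c3⟩ := a2 (Real.exp (s * x + t * y))
  obtain ⟨H', d1, d2, d3⟩ := b2 (Real.exp (s * x + t * y))
  have hd : Differentiable ℂ fun z => H z + H' z + ((β0 + β1 * (s * x + t * y) : ℝ) : ℂ) :=
    (c1.add d1).add (differentiable_const _)
  have hle : Real.circleAverage u c (Real.exp (s * x + t * y)) ≤ Real.circleAverage
      (fun z => (H z + H' z + ((β0 + β1 * (s * x + t * y) : ℝ) : ℂ)).re) c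
        (Real.exp (s * x + t * y)) := by
    refine Real.circleAverage_mono (SM3.integ u c _ B (Real.exp_pos _).le
      (hu.usc.mono (hsph _ hw)) fun z hz => hB z (hsph _ hw hz))
      (Complex.continuous_re.comp hd.continuous).continuousOn.circleIntegrable' fun z hz => ?_
    rw [abs_of_pos (Real.exp_pos _), mem_sphere_iff_norm] at hz
    have hzZ : z ∈ Z := by
      rw [hZ]
      exact ⟨by rw [hz]; exact Real.exp_le_exp.2 hw1, by rw [hz]; exact Real.exp_le_exp.2 hw2⟩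
    have h3 := hmax z hzZ
    rw [Complex.add_re, c3 z hz, d3 z hz, hz, Real.log_exp] at h3
    rw [Complex.add_re, Complex.add_re, Complex.ofReal_re]
    exact h3
  rw [SM3.mean_re _ hd, c2, d2, zero_add, zero_add, Complex.ofReal_re] at hle
  have e1 : β0 + β1 * (s * x + t * y) = s * (p.eval 0).re + t * (q.eval 0).re := by
    have hs' : s = 1 - t := by linarith
    rw [hs']
    linear_combination hβ0 + t * hβ1
  have e2 := mul_le_mul_of_nonneg_left p2 hs.le
  have e3 := mul_le_mul_of_nonneg_left q2 ht.le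
  have e4 : s * η + t * η = η := by rw [← add_mul, hst, one_mul]
  linarith

end Pool.Agent.Lib.SH
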