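import Pool.Agent.Lib.SH.B_SLa
import Pool.Agent.Lib.SH.B_SM3

/-! Slope lemma, part b: the weight, local logarithms and the box functions. -/

open Set Filter Topology Metric Real

noncomputable section

namespace Pool.Agent.Lib.SH.SL

/-- `u` is near `z` the real part of an analytic function -/
def LR (u : ℂ → ℝ) (z : ℂ) : Prop := ∃ G : ℂ → ℂ, AnalyticAt ℂ G z ∧ ∀ᶠ x in 𝓝 z, u x = (G x).re

lemma LR.add {u v : ℂ → ℝ} {z : ℂ} (hu : LR u z) (hv : LR v z) : LR (fun x => u x + v x) z := by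
  obtain ⟨G, h1, h2⟩ := hu
  obtain ⟨H, h3, h4⟩ := hv
  refine ⟨fun x => G x + H x, h1.add h3, ?_⟩
  filter_upwards [h2, h4] with x a b
  rw [a, b, Complex.add_re]

lemma LR.mul {u : ℂ → ℝ} {z : ℂ} (c : ℝ) (hu : LR u z) : LR (fun x => c * u x) z := by
  obtain ⟨G, h1, h2⟩ := hu
  refine ⟨fun x => c * G x, analyticAt_const.mul h1, ?_⟩
  filter_upwards [h2] with x a
  rw [a, Complex.re_ofReal_mul]

lemma LR.sub {u v : ℂ → ℝ} {z : ℂ} (hu : LR u z) (hv : LR v z) : LR (fun x => u x - v x) z := by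
  have h1 := hu.add (hv.mul (-1))
  simpa only [neg_one_mul, ← sub_eq_add_neg] using h1

lemma LR.re {G : ℂ → ℂ} {z : ℂ} (hG : AnalyticAt ℂ G z) : LR (fun x => (G x).re) z :=
  ⟨G, hG, Eventually.of_forall fun _ => rfl⟩

lemma LR.sum {W : Type} (s : Finset W) {u : W → ℂ → ℝ} {z : ℂ} (hu : ∀ j, LR (u j) z) :
    LR (fun x => ∑ j ∈ s, u j x) z := by
  classical
  induction s using Finset.induction_on with
  | empty => exact ⟨fun _ => 0, analyticAt_const, Eventually.of_forall fun _ => by simp⟩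
  | insert a s ha ih =>
    simp only [Finset.sum_insert ha]
    exact (hu a).add ih

lemma LR.lg {F : ℂ → ℂ} {z : ℂ} (hF : AnalyticAt ℂ F z) (h0 : F z ≠ 0) :
    LR (fun x => log ‖F x‖) z := by
  refine ⟨fun x => Complex.log (F x / F z) + (log ‖F z‖ : ℝ), ?_, ?_⟩
  · refine ((hF.div analyticAt_const h0).clog ?_).add analyticAt_const
    simp only [Pi.div_apply]
    rw [div_self h0]
    exact Complex.one_mem_slitPlane
  · filter_upwards [hF.continuousAt.eventually_ne h0] with x hx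
    rw [Complex.add_re, Complex.ofReal_re, Complex.log_re, norm_div,
      log_div (norm_ne_zero_iff.2 hx) (norm_ne_zero_iff.2 h0)]
    ring

lemma LR.cont {u : ℂ → ℝ} {z : ℂ} (hu : LR u z) : ContinuousAt u z := by
  obtain ⟨G, h1, h2⟩ := hu
  exact (Complex.continuous_re.continuousAt.comp h1.continuousAt).congr (h2.mono fun _ h => h.symm)

lemma log_ball {F F' : ℂ → ℂ} {R : ℝ} (hF : ∀ z ∈ ball (0 : ℂ) R, HasDerivAt F (F' z) z ∧ F z ≠ 0) :
    ∃ G : ℂ → ℂ, ∀ z ∈ ball (0 : ℂ) R, HasDerivAt G (F' z / F z) z ∧ (G z).re = log ‖F z‖ := by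
  have hd : DifferentiableOn ℂ F (ball 0 R) := fun z hz => (hF z hz).1.differentiableAt.differentiableWithinAt
  have h1 : DifferentiableOn ℂ (fun z => F' z / F z) (ball 0 R) :=
    ((hd.deriv isOpen_ball).congr fun z hz => (hF z hz).1.deriv.symm).div hd fun z hz => (hF z hz).2
  obtain ⟨G, hG⟩ := h1.isExactOn_ball
  have h2 : ∀ z ∈ ball (0 : ℂ) R, HasDerivAt (fun z => F z * Complex.exp (-G z)) 0 z := fun z hz => by
    have h3 := (hF z hz).1.mul (hG z hz).neg.cexp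
    have h4 := (hF z hz).2
    refine h3.congr_deriv ?_
    simp only [Pi.neg_apply]
    field_simp
    ring
  refine ⟨fun z => G z + (log ‖F 0 * Complex.exp (-G 0)‖ : ℝ), fun z hz => ⟨(hG z hz).add_const _, ?_⟩⟩
  have h0 : (0 : ℂ) ∈ ball (0 : ℂ) R := mem_ball_self (pos_of_mem_ball hz)
  have h5 : F 0 * Complex.exp (-G 0) = F z * Complex.exp (-G z) :=
    isOpen_ball.is_const_of_deriv_eq_zero (convex_ball 0 R).isPreconnected
      (fun z hz => (h2 z hz).differentiableAt.differentiableWithinAt) (fun z hz => (h2 z hz).deriv) h0 hz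
  rw [h5, Complex.add_re, Complex.ofReal_re, norm_mul, Complex.norm_exp,
    log_mul (norm_ne_zero_iff.2 (hF z hz).2) (exp_pos _).ne', log_exp, Complex.neg_re]
  ring

/-- the weight -/
def wt {W : Type} [Fintype W] (x : W → ℂ) (a : W → ℝ) (z : ℂ) : ℝ :=
  ∑ j, a j * log ‖z - x j‖ - (∑ j, a j) / 2 * log ‖z‖

variable {W : Type} [Fintype W] {x : W → ℂ} {a : W → ℝ} {n : ℕ}

lemma wt_lr {z : ℂ} (h0 : z ≠ 0) (h1 : ∀ j, z - x j ≠ 0) : LR (wt x a) z :=
  (LR.sum _ fun j => LR.mul (a j) (LR.lg (F := fun z => z - x j)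
    (analyticAt_id.sub analyticAt_const) (h1 j))).sub (LR.mul _ (LR.lg (F := fun z => z) analyticAt_id h0))

lemma sum_le (hn : Fintype.card W ≤ n) {b : W → ℝ} {c : ℝ} (hc : 0 ≤ c) (hb : ∀ j, b j ≤ c) :
    ∑ j, b j ≤ n * c := by
  have h1 := Finset.sum_le_card_nsmul Finset.univ b c fun j _ => hb j
  rw [Finset.card_univ, nsmul_eq_mul] at h1
  exact h1.trans (mul_le_mul_of_nonneg_right (by exact_mod_cast hn) hc)

lemma abs_sum_le (hn : Fintype.card W ≤ n) {b : W → ℝ} {c : ℝ} (hc : 0 ≤ c) (hb : ∀ j, |b j| ≤ c) :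
    |∑ j, b j| ≤ n * c := (Finset.abs_sum_le_sum_abs _ _).trans (sum_le hn hc hb)

lemma abs_log_le {z : ℂ} {t : ℝ} (h1 : exp (-t) ≤ ‖z‖) (h2 : ‖z‖ ≤ exp t) : |log ‖z‖| ≤ t := by
  have h0 : 0 < ‖z‖ := (exp_pos _).trans_le h1
  exact abs_le.2 ⟨(le_log_iff_exp_le h0).2 h1, (log_le_iff_le_exp h0).2 h2⟩

lemma wt_bd (hn : Fintype.card W ≤ n) (hx : ∀ j, ‖x j‖ = 1) (ha : ∀ j, |a j| ≤ 5) {z : ℂ} {d : ℝ}
    (h1 : exp (-1) ≤ ‖z‖) (h2 : ‖z‖ ≤ exp 1) (hd : 0 < d) (hd1 : d ≤ 1) (h3 : ∀ j, d ≤ ‖z - x j‖) :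
    |wt x a z| ≤ n * (18 - 5 * log d) := by
  have hl : log d ≤ 0 := log_nonpos hd.le hd1
  have h4 : |∑ j, a j * log ‖z - x j‖| ≤ n * (5 * (3 - log d)) := by
    refine abs_sum_le hn (by linarith) fun j => ?_
    rw [abs_mul]
    refine mul_le_mul (ha j) (abs_le.2 ⟨?_, ?_⟩) (abs_nonneg _) (by norm_num)
    · linarith [log_le_log hd (h3 j)]
    · have h5 := norm_sub_le z (x j)
      have h6 := log_le_sub_one_of_pos (hd.trans_le (h3 j))
      have h7 := exp_one_lt_d9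
      linarith [hx j]
  have h8 : |(∑ j, a j) / 2 * log ‖z‖| ≤ n * 5 / 2 * 1 := by
    rw [abs_mul, abs_div, abs_two]
    exact mul_le_mul (div_le_div_of_nonneg_right (abs_sum_le hn (by norm_num) ha) two_pos.le)
      (abs_log_le h1 h2) (abs_nonneg _) (by positivity)
  have h9 : (0 : ℝ) ≤ n := n.cast_nonneg
  refine (abs_sub _ _).trans ?_
  linarith

omit [Fintype W] in
lemma far (hx : ∀ j, ‖x j‖ = 1) {z : ℂ} {t : ℝ} (ht : 0 ≤ t) (ht1 : t ≤ 1) (hz : ‖z‖ ≤ exp (-t)) (j : W) :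
    t / 2 ≤ ‖z - x j‖ := by
  have h1 := norm_sub_norm_le (x j) z
  rw [norm_sub_rev, hx j] at h1
  have h2 : 1 + t ≤ exp t := by linarith [add_one_le_exp t]
  have h3 : exp (-t) * exp t = 1 := by rw [← exp_add]; simp
  have h4 := exp_pos (-t)
  nlinarith

lemma wt_cont (hx : ∀ j, ‖x j‖ = 1) {s : ℝ} (hs : 0 < s) : ContinuousOn (wt x a) (sphere 0 (exp (-s))) := by
  intro z hz
  have hz1 : ‖z‖ = exp (-s) := by simpa using hz
  have h1 : exp (-s) < 1 := exp_lt_one_iff.2 (by linarith)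
  refine (wt_lr (norm_pos_iff.1 (hz1 ▸ exp_pos _)) fun j h => ?_).cont.continuousWithinAt
  rw [sub_eq_zero.1 h, hx j] at hz1
  linarith

lemma wt_mean (hx : ∀ j, ‖x j‖ = 1) {s : ℝ} (hs : 0 < s) :
    circleAverage (wt x a) 0 (exp (-s)) = (∑ j, a j) / 2 * s := by
  have h0 := exp_pos (-s)
  have h1 : exp (-s) < 1 := exp_lt_one_iff.2 (by linarith)
  have hc : ∀ j, ContinuousOn (fun z => a j * log ‖z - x j‖) (sphere 0 (exp (-s))) := fun j z hz => by
    have hz1 : ‖z‖ = exp (-s) := by simpa using hz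
    refine (LR.mul _ (LR.lg (F := fun z => z - x j) (analyticAt_id.sub analyticAt_const)
      fun h => ?_)).cont.continuousWithinAt
    rw [sub_eq_zero.1 h, hx j] at hz1
    linarith
  rw [circleAverage_congr_sphere (f₂ := fun z => ∑ j, a j * log ‖z - x j‖ + (∑ j, a j) / 2 * s)
    fun z hz => ?_, circleAverage_fun_add (cint h0 (continuousOn_finsetSum _ fun j _ => hc j))
      (cint h0 continuousOn_const), circleAverage_const, circleAverage_fun_sum fun j _ => cint h0 (hc j),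
    Finset.sum_eq_zero fun j _ => ?_, zero_add]
  · have h2 := circleAverage_fun_smul (a := a j) (f := fun z => log ‖z - x j‖) (c := 0) (R := exp (-s))
    simp only [smul_eq_mul] at h2
    rw [h2, circleAverage_log_norm_sub_const_eq_log_radius_add_posLog h0.ne', zero_sub, norm_neg, hx j,
      mul_one, posLog_eq_log (by rw [abs_of_pos (inv_pos.2 h0)]; exact (one_le_inv₀ h0).2 h1.le), log_inv]
    ring
  · have hz1 : ‖z‖ = exp (-s) := by simpa [abs_of_pos h0] using hz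
    simp only [wt, hz1, log_exp]
    ring

end Pool.Agent.Lib.SH.SL
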