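import Pool.Agent.Lib.SH.B_SLb

/-! Slope lemma, part c: the box functions and the window estimate. -/

open Set Filter Topology Metric Real

noncomputable section

namespace Pool.Agent.Lib.SH.SL

variable {W : Type} [Fintype W] {x : W → ℂ} {a : W → ℝ} {n : ℕ}

lemma re_half {z c : ℂ} (hz : ‖z‖ = 1) (hc : ‖c‖ = 1) (h : z - c ≠ 0) : (z / (z - c) - 1 / 2).re = 0 := by
  have h1 : z.re * z.re + z.im * z.im = 1 := by
    rw [← Complex.normSq_apply, Complex.normSq_eq_norm_sq, hz, one_pow]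
  have h2 : c.re * c.re + c.im * c.im = 1 := by
    rw [← Complex.normSq_apply, Complex.normSq_eq_norm_sq, hc, one_pow]
  have h3 : Complex.normSq (z - c) ≠ 0 := fun h0 => h (Complex.normSq_eq_zero.1 h0)
  have h4 : (1 / 2 : ℂ).re = 1 / 2 := by norm_num
  rw [Complex.sub_re, Complex.div_re, h4, ← add_div, sub_eq_zero, div_eq_iff h3, Complex.normSq_apply,
    Complex.sub_re, Complex.sub_im]
  nlinarith

lemma box_g (hn : Fintype.card W ≤ n) (hx : ∀ j, ‖x j‖ = 1) (ha : ∀ j, |a j| ≤ 5)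
    {h h' rb C' Cm ι a0 : ℝ} {ρ0 : W → ℝ} {vv m : ℂ → ℂ} (h1 : h ≤ 1) (hh : h / 2 ≤ h') (hrb : 0 < rb)
    (hrb1 : rb ≤ h / 32) (hρ : ∀ j, 4 * rb ≤ ρ0 j) (hv : ∀ z, z ≠ 0 → AnalyticAt ℂ vv z)
    (hvi : ∀ u, ‖u‖ = 1 → (vv u).im = 0)
    (hvb : ∀ z, exp (-(h / 4)) ≤ ‖z‖ → ‖z‖ ≤ exp (h / 4) → ‖vv z - a0‖ ≤ C')
    (hm : AnalyticOnNhd ℂ m (annW h' x ρ0))
    (hm2 : ∀ z ∈ annW h' x ρ0, m z ≠ 0 ∧ ‖deriv m z / m z‖ ≤ Cm ∧
      (‖z‖ = 1 → |(z * deriv m z / m z).re| ≤ ι))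
    (t : ℝ) (ht : ∀ j, 2 * ρ0 j ≤ ‖Complex.exp (Complex.I * t) - x j‖) :
    ∃ (g : ℂ → ℂ) (θ0 : ℝ), AnalyticOnNhd ℂ g (box 0 1 1) ∧
      (∀ ξ ∈ box 0 1 1, ‖deriv g ξ‖ ≤ 2 * C' + (5 * n + |Cm|) ∧
        (g ξ).re = (fun z => (vv z).re + wt x a z - log ‖m z‖) (Complex.exp (Complex.I * (t + rb * ξ)))) ∧
      ∀ s ∈ Icc (-1 : ℝ) 1, |(g s).im - θ0| ≤ ι := by
  set Z : ℂ → ℂ := fun ξ => Complex.exp (Complex.I * (t + rb * ξ)) with hZ
  have hZd : ∀ ξ, HasDerivAt Z (Z ξ * (Complex.I * rb)) ξ := fun ξ => by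
    have h2 := ((((hasDerivAt_id ξ).const_mul (rb : ℂ)).const_add (t : ℂ)).const_mul Complex.I).cexp
    simpa only [id, mul_one] using h2
  have hZ0 : ∀ ξ, Z ξ ≠ 0 := fun ξ => Complex.exp_ne_zero _
  have hZn : ∀ ξ, ‖Z ξ‖ = exp (-(rb * ξ.im)) := fun ξ => by
    simp only [hZ, Complex.norm_exp]
    simp
  have hZb : ∀ ξ, ‖ξ‖ ≤ 2 → exp (-(h / 4)) ≤ ‖Z ξ‖ ∧ ‖Z ξ‖ ≤ exp (h / 4) := fun ξ hξ => by
    have h2 := abs_le.1 ((Complex.abs_im_le_norm ξ).trans hξ)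
    rw [hZn, exp_le_exp, exp_le_exp]
    constructor <;> nlinarith [h2.1, h2.2]
  have hZx : ∀ ξ, ‖ξ‖ ≤ 2 → ∀ j, ρ0 j ≤ ‖Z ξ - x j‖ := fun ξ hξ j => by
    have h2 : ‖Complex.I * (rb * ξ)‖ ≤ 2 * rb := by
      rw [norm_mul, norm_mul, Complex.norm_I, Complex.norm_real, Real.norm_of_nonneg hrb.le]
      nlinarith
    have h3 : ‖Complex.exp (Complex.I * t) - Z ξ‖ ≤ 4 * rb := by
      have h4 : Complex.exp (Complex.I * t) - Z ξ =
          -Complex.exp (Complex.I * t) * (Complex.exp (Complex.I * (rb * ξ)) - 1) := by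
        simp only [hZ, mul_add, Complex.exp_add]
        ring
      rw [h4, norm_mul, norm_neg, Complex.norm_exp_I_mul_ofReal, one_mul]
      linarith [Complex.norm_exp_sub_one_le (h2.trans (by linarith))]
    linarith [norm_sub_le_norm_sub_add_norm_sub (Complex.exp (Complex.I * t)) (Z ξ) (x j), ht j, hρ j]
  have hZa : ∀ ξ, ‖ξ‖ ≤ 2 → Z ξ ∈ annW h' x ρ0 := fun ξ hξ =>
    ⟨(exp_le_exp.2 (by linarith)).trans (hZb ξ hξ).1, (hZb ξ hξ).2.trans (exp_le_exp.2 (by linarith)),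
      hZx ξ hξ⟩
  have hb2 : ∀ ξ ∈ ball (0 : ℂ) 2, ‖ξ‖ ≤ 2 := fun ξ hξ => (mem_ball_zero_iff.1 hξ).le
  have hne : ∀ ξ, ‖ξ‖ ≤ 2 → ∀ j, Z ξ - x j ≠ 0 := fun ξ hξ j =>
    norm_pos_iff.1 (by linarith [hZx ξ hξ j, hρ j])
  choose G hG using fun j => log_ball (F := fun ξ => Z ξ - x j) (F' := fun ξ => Z ξ * (Complex.I * rb)) (R := 2)
    fun ξ hξ => ⟨(hZd ξ).sub_const _, hne ξ (hb2 ξ hξ) j⟩
  obtain ⟨Gm, hGm⟩ := log_ball (F := fun ξ => m (Z ξ))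
    (F' := fun ξ => deriv m (Z ξ) * (Z ξ * (Complex.I * rb))) (R := 2) fun ξ hξ =>
    ⟨(hm _ (hZa ξ (hb2 ξ hξ))).differentiableAt.hasDerivAt.comp ξ (hZd ξ), (hm2 _ (hZa ξ (hb2 ξ hξ))).1⟩
  set g1 : ℂ → ℂ := fun ξ => ∑ j, (a j : ℂ) * (G j ξ - Complex.I * (t + rb * ξ) / 2) - Gm ξ with hg1
  set D : ℂ → ℂ := fun ξ => Complex.I * (rb * (∑ j, (a j : ℂ) * (Z ξ / (Z ξ - x j) - 1 / 2) -
    Z ξ * deriv m (Z ξ) / m (Z ξ))) with hD
  have hg1d : ∀ ξ ∈ ball (0 : ℂ) 2, HasDerivAt g1 (D ξ) ξ := fun ξ hξ => by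
    have h2 := (HasDerivAt.fun_sum (u := Finset.univ) fun j _ => (((hG j ξ hξ).1.sub
      (((((hasDerivAt_id ξ).const_mul (rb : ℂ)).const_add (t : ℂ)).const_mul Complex.I).div_const 2)).const_mul
        (a j : ℂ))).sub (hGm ξ hξ).1
    refine h2.congr_deriv ?_
    simp only [hD, mul_sub, Finset.mul_sum]
    refine congrArg₂ _ (Finset.sum_congr rfl fun j _ => ?_) ?_ <;> ring
  have hbx : ∀ ξ ∈ box 0 1 1, ‖ξ‖ ≤ 3 / 2 := fun ξ hξ => by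
    have h2 : |ξ.re| ≤ 1 := by simpa using hξ.1
    have h3 := abs_le.1 h2
    have h4 := abs_le.1 hξ.2
    refine abs_le_of_sq_le_sq' ?_ (by norm_num) |>.2
    rw [Complex.sq_norm, Complex.normSq_apply]
    nlinarith [h3.1, h3.2, h4.1, h4.2]
  have hbb : ∀ ξ ∈ box 0 1 1, ξ ∈ ball (0 : ℂ) 2 := fun ξ hξ =>
    mem_ball_zero_iff.2 (by linarith [hbx ξ hξ])
  have hvd : Differentiable ℂ fun ξ => vv (Z ξ) - a0 := fun ξ =>
    ((hv _ (hZ0 ξ)).differentiableAt.comp ξ (hZd ξ).differentiableAt).sub_const _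
  have hvd' : Differentiable ℂ fun ξ => vv (Z ξ) := fun ξ =>
    (hv _ (hZ0 ξ)).differentiableAt.comp ξ (hZd ξ).differentiableAt
  refine ⟨fun ξ => vv (Z ξ) + g1 ξ, (g1 0).im, fun ξ hξ => ?_, fun ξ hξ => ⟨?_, ?_⟩, fun s hs => ?_⟩
  · exact (hvd'.analyticAt ξ).add (DifferentiableOn.analyticAt (s := ball 0 2)
      (fun ξ hξ => (hg1d ξ hξ).differentiableAt.differentiableWithinAt) (isOpen_ball.mem_nhds (hbb ξ hξ)))
  · have hξ2 : ‖ξ‖ ≤ 2 := hb2 ξ (hbb ξ hξ)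
    rw [((hvd' ξ).hasDerivAt.fun_add (hg1d ξ (hbb ξ hξ))).deriv]
    refine (norm_add_le _ _).trans (add_le_add ?_ ?_)
    · have h2 := Complex.norm_deriv_le_of_forall_mem_sphere_norm_le (c := ξ) (R := 1 / 2) (C := C')
        (by norm_num) hvd.diffContOnCl fun ζ hζ => by
          have h3 : ‖ζ‖ ≤ 2 := by
            have h4 := norm_le_norm_add_norm_sub' ζ ξ
            rw [mem_sphere_iff_norm.1 hζ] at h4
            linarith [hbx ξ hξ]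
          exact hvb _ (hZb ζ h3).1 (hZb ζ h3).2
      rw [deriv_sub_const] at h2
      linarith
    · have h2 : ‖Z ξ‖ ≤ 3 := (hZb ξ hξ2).2.trans
        ((exp_le_exp.2 (by linarith : h / 4 ≤ 1)).trans (by linarith [exp_one_lt_d9]))
      simp only [hD]
      rw [norm_mul, Complex.norm_I, one_mul, mul_sub, Finset.mul_sum]
      refine (norm_sub_le _ _).trans (add_le_add ((norm_sum_le _ _).trans ?_) ?_)
      · rw [mul_comm (5 : ℝ)]
        refine sum_le hn (by norm_num) fun j => ?_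
        have h3 : ‖(rb : ℂ) * (Z ξ / (Z ξ - x j) - 1 / 2)‖ ≤ 1 := by
          have h4 : 0 < ‖Z ξ - x j‖ := norm_pos_iff.2 (hne ξ hξ2 j)
          have h5 : rb * (‖Z ξ‖ / ‖Z ξ - x j‖) ≤ 3 / 4 := by
            rw [← mul_div_assoc, div_le_iff₀ h4]
            nlinarith [hZx ξ hξ2 j, hρ j]
          have h6 := norm_sub_le (Z ξ / (Z ξ - x j)) (1 / 2)
          rw [norm_div, show ‖(1 / 2 : ℂ)‖ = 1 / 2 by simp] at h6
          rw [norm_mul, Complex.norm_real, Real.norm_of_nonneg hrb.le]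
          nlinarith
        rw [mul_left_comm, norm_mul, Complex.norm_real, Real.norm_eq_abs]
        nlinarith [ha j, abs_nonneg (a j), norm_nonneg ((rb : ℂ) * (Z ξ / (Z ξ - x j) - 1 / 2))]
      · rw [mul_div_assoc, norm_mul, norm_mul, Complex.norm_real, Real.norm_of_nonneg hrb.le, ← mul_assoc]
        have h3 := (hm2 _ (hZa ξ hξ2)).2.1.trans (le_abs_self Cm)
        have h4 : rb * ‖Z ξ‖ ≤ 1 := by nlinarith
        nlinarith [norm_nonneg (deriv m (Z ξ) / m (Z ξ))]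
  · have h2 : ∀ j, ((a j : ℂ) * (G j ξ - Complex.I * (t + rb * ξ) / 2)).re =
        a j * log ‖Z ξ - x j‖ - a j * (log ‖Z ξ‖ / 2) := fun j => by
      rw [Complex.re_ofReal_mul, Complex.sub_re, (hG j ξ (hbb ξ hξ)).2, hZn, log_exp, Complex.div_ofNat_re]
      simp
      ring
    show (vv (Z ξ) + g1 ξ).re = (vv (Z ξ)).re + wt x a (Z ξ) - log ‖m (Z ξ)‖
    simp only [hg1, wt, Complex.add_re, Complex.sub_re, Complex.re_sum, h2, (hGm ξ (hbb ξ hξ)).2,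
      Finset.sum_sub_distrib, ← Finset.sum_mul]
    ring
  · have hZ1 : ∀ s : ℝ, ‖Z s‖ = 1 := fun s => by rw [hZn]; simp
    have hs2 : ∀ s ∈ Icc (-1 : ℝ) 1, ‖(s : ℂ)‖ < 2 := fun s hs => by
      rw [Complex.norm_real, Real.norm_eq_abs]
      linarith [abs_le.2 hs]
    have h2 : ∀ s ∈ Icc (-1 : ℝ) 1, HasDerivWithinAt (fun s : ℝ => (g1 s).im) (D s).im (Icc (-1) 1) s :=
      fun s hs => (Complex.imCLM.hasFDerivAt.comp_hasDerivAt s
        (hg1d s (mem_ball_zero_iff.2 (hs2 s hs))).comp_ofReal).hasDerivWithinAt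
    have h3 : ∀ s ∈ Icc (-1 : ℝ) 1, ‖(D s).im‖ ≤ ι := fun s hs => by
      have h4 := (hm2 _ (hZa s (hs2 s hs).le)).2.2 (hZ1 s)
      have h5 : ∀ j, ((a j : ℂ) * (Z s / (Z s - x j) - 1 / 2)).re = 0 := fun j => by
        rw [Complex.re_ofReal_mul, re_half (hZ1 s) (hx j) (hne s (hs2 s hs).le j), mul_zero]
      simp only [hD]
      rw [Complex.I_mul_im, Complex.re_ofReal_mul, Complex.sub_re, Complex.re_sum,
        Finset.sum_eq_zero fun j _ => h5 j, zero_sub, Real.norm_eq_abs, abs_mul, abs_neg, abs_of_pos hrb]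
      nlinarith [abs_nonneg (Z s * deriv m (Z s) / m (Z s)).re]
    have h0 : (0 : ℝ) ∈ Icc (-1 : ℝ) 1 := ⟨by norm_num, by norm_num⟩
    have h6 := (convex_Icc (-1 : ℝ) 1).norm_image_sub_le_of_norm_hasDerivWithin_le h2 h3 h0 hs
    rw [Complex.ofReal_zero, sub_zero, Real.norm_eq_abs, Real.norm_eq_abs] at h6
    rw [Complex.add_im, hvi _ (hZ1 s), zero_add]
    have h7 := (norm_nonneg _).trans (h3 0 h0)
    nlinarith [abs_le.2 hs]

end Pool.Agent.Lib.SH.SL
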