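import Pool.Agent.Lib.SH.B_SLc

/-! Slope lemma, part d: the window estimate. -/

open Set Filter Topology Metric Real

noncomputable section

namespace Pool.Agent.Lib.SH.SL

variable {W : Type} [Fintype W] {x : W → ℂ} {n : ℕ}

lemma sum_le' (hn : Fintype.card W ≤ n) {b : W → ℝ} {c d : ℝ} (hc : 0 ≤ c) (j : W) (hd : d ≤ c)
    (hb : ∀ k, k ≠ j → b k ≤ c) : ∑ k, b k - b j + d ≤ n * c := by
  classical
  have h1 := sum_le hn hc (b := fun k => b k + if k = j then d - b j else 0) fun k => by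
    by_cases hk : k = j
    · subst hk
      simpa using hd
    · simpa [hk] using hb k hk
  rw [Finset.sum_add_distrib, Finset.sum_ite_eq', if_pos (Finset.mem_univ _)] at h1
  linarith

lemma mul_le5 {a L c : ℝ} (ha : |a| ≤ 5) (hL : |L| ≤ c) : a * L ≤ 5 * c :=
  (le_abs_self _).trans (by
    rw [abs_mul]
    exact mul_le_mul ha hL (abs_nonneg _) (by norm_num))

lemma log3 : log 3 ≤ 2 := by linarith [log_le_sub_one_of_pos (show (0 : ℝ) < 3 by norm_num)]

lemma near {h r : ℝ} {c z : ℂ} (h1 : h ≤ 1) (hc : ‖c‖ = 1) (hr : r ≤ h / 8) (hz : ‖z - c‖ ≤ r) :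
    exp (-(h / 4)) ≤ ‖z‖ ∧ ‖z‖ ≤ exp (h / 4) := by
  have h2 := abs_le.1 ((abs_norm_sub_norm_le z c).trans hz)
  have h3 : 1 + h / 4 ≤ exp (h / 4) := by linarith [add_one_le_exp (h / 4)]
  have h4 : exp (-(h / 4)) * exp (h / 4) = 1 := by rw [← exp_add]; simp
  have h5 := exp_pos (-(h / 4))
  have h6 : 0 ≤ h := by linarith [norm_nonneg (z - c)]
  refine ⟨?_, by linarith [h2.2]⟩
  have h7 : exp (-(h / 4)) * (1 + h / 4) ≤ 1 := by nlinarith
  nlinarith [h2.1]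

lemma eh (hn : Fintype.card W ≤ n) {ρ ex Cw kk rmin Omin : W → ℝ} {h h' μ γ C' A0 a0 N0 : ℝ}
    {vv : ℂ → ℂ} (h1 : h ≤ 1) (hh : h / 2 ≤ h')
    (hx : ∀ j, ‖x j‖ = 1 ∧ 0 < ρ j ∧ ρ j ≤ h / 8 ∧ |ex j| ≤ 4 ∧ 1 ≤ Cw j)
    (hsep : ∀ j k, j ≠ k → 2 * ρ j ≤ ‖x j - x k‖) (hμ : 0 < μ) (hμ1 : μ ≤ 1) (hγ : 0 < γ) (hγ1 : γ ≤ 1)
    (hC : 0 ≤ C') (hA : 0 ≤ A0) (ha0 : N0 - A0 ≤ a0)
    (hvb : ∀ z, exp (-(h / 4)) ≤ ‖z‖ → ‖z‖ ≤ exp (h / 4) → ‖vv z - a0‖ ≤ C')
    (hk : ∀ j, 0 < kk j ∧ kk j ≤ 1 / (3 * Cw j) ∧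
      μ * log (3 * kk j) ≤ -(6 * log (Cw j) + (2 * C' + A0 + 15 * n + 2) + 11))
    {D : Set E} {q : E → ℝ}
    (hG : ∀ j, GP D q (x j) (ex j) (Cw j) (rmin j) (ρ j) (Omin j) ∧
      rmin j ≤ kk j * ρ j ∧ Omin j ≤ Cw j * exp N0 * ρ j ^ (4 * n))
    {B : ℂ → ℝ} (hB : ∀ z, B z = (vv z).re + wt x (fun j => ex j - μ) z + γ * log ‖z‖)
    {M : ℝ} (hM : 1 < M)
    (hq : ∀ y ∈ D, y.1 ∈ annW h' x (fun j => kk j * ρ j) → q y ≤ M * exp (B y.1))
    {y : E} (hy : y ∈ D) (hya : y.1 ∈ annW h' x (fun j => kk j * ρ j)) (j : W)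
    (hyj : ‖y.1 - x j‖ ≤ 3 * (kk j * ρ j)) : q y ≤ M / 2 * exp (B y.1) := by
  obtain ⟨hx1, hρ0, hρ1, hex, hC1⟩ := hx j
  obtain ⟨hk0, hk1, hk2⟩ := hk j
  set a : W → ℝ := fun j => ex j - μ with ha
  have ha5 : ∀ j, |a j| ≤ 5 := fun j => by
    have h2 := abs_le.1 (hx j).2.2.2.1
    exact abs_le.2 ⟨by simp only [ha]; linarith [h2.1], by simp only [ha]; linarith [h2.2]⟩
  have ha4 : ∀ j, a j ≤ 4 := fun j => by
    simp only [ha]; linarith [(abs_le.1 (hx j).2.2.2.1).2]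
  have hn0 : (0 : ℝ) ≤ n := n.cast_nonneg
  have hkC : ∀ j, 3 * kk j * Cw j ≤ 1 := fun j => by
    have h2 := (hk j).2.1
    rw [le_div_iff₀ (by linarith [(hx j).2.2.2.2])] at h2
    linarith
  have hkρ : ∀ j, kk j * ρ j ≤ ρ j := fun j => by
    have h2 : kk j ≤ 1 := by nlinarith [hkC j, (hk j).1, (hx j).2.2.2.2]
    nlinarith [(hx j).2.1]
  have h3ρ : 3 * (kk j * ρ j) ≤ ρ j / Cw j := by
    rw [le_div_iff₀ (by linarith)]
    nlinarith [hkC j]
  have hρC : ρ j / Cw j ≤ ρ j := div_le_self hρ0.le hC1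
  have hyρ : ‖y.1 - x j‖ ≤ ρ j := hyj.trans (h3ρ.trans hρC)
  have hoth : ∀ z, ‖z - x j‖ ≤ ρ j → ∀ k, k ≠ j →
      ‖x j - x k‖ / 2 ≤ ‖z - x k‖ ∧ ‖z - x k‖ ≤ 3 * (‖x j - x k‖ / 2) := fun z hz k hkj => by
    have h2 := hsep j k hkj.symm
    have h3 := norm_sub_le_norm_sub_add_norm_sub z (x j) (x k)
    have h4 := norm_sub_le_norm_sub_add_norm_sub (x j) z (x k)
    rw [norm_sub_rev (x j) z] at h4
    constructor <;> linarith
  have hlg : ∀ z, ‖z - x j‖ ≤ ρ j → |((∑ k, a k) / 2 - γ) * log ‖z‖| ≤ (5 * n / 2 + 1) * 1 := fun z hz => by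
    have h2 := near h1 hx1 hρ1 hz
    have h3 := abs_le.1 (abs_sum_le hn (by norm_num) ha5)
    rw [abs_mul]
    exact mul_le_mul (abs_le.2 ⟨by linarith [h3.1], by linarith [h3.2]⟩)
      ((abs_log_le h2.1 h2.2).trans (by linarith)) (abs_nonneg _) (by positivity)
  have hre : ∀ z, ‖z - x j‖ ≤ ρ j → |(vv z).re - a0| ≤ C' := fun z hz => by
    have h2 := near h1 hx1 hρ1 hz
    have h3 := (Complex.abs_re_le_norm _).trans (hvb z h2.1 h2.2)
    rwa [Complex.sub_re, Complex.ofReal_re] at h3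
  have hlρ : log (ρ j) ≤ 0 := log_nonpos hρ0.le (by linarith)
  have hlC : 0 ≤ log (Cw j) := log_nonneg hC1
  set T : ℝ := B y.1 - a j * log ‖y.1 - x j‖ + a j * log (ρ j) + 5 * log (Cw j) +
    (2 * C' + A0 + 15 * n + 2) with hT
  have hM0 : 0 < M := by linarith
  have hy1 : kk j * ρ j ≤ ‖y.1 - x j‖ := hya.2.2 j
  have hkρ0 : 0 < kk j * ρ j := mul_pos hk0 hρ0
  have hmain := (hG j).1 (M * exp T) ?_ ?_ (3 * (kk j * ρ j)) (by linarith [(hG j).2.1]) h3ρ y hy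
    (by linarith) hyj
  · refine hmain.trans ?_
    have h2 : 3 * (kk j * ρ j) / ρ j = 3 * kk j := by field_simp
    have h3 : M / 2 * exp (B y.1) = M * exp (B y.1 - log 2) := by
      rw [exp_sub, exp_log two_pos]; ring
    have h4 : Cw j * (3 * kk j) ^ ex j * (M * exp T) = M * exp (log (Cw j) + log (3 * kk j) * ex j + T) := by
      rw [exp_add _ T, exp_add (log _), exp_log (by linarith), rpow_def_of_pos (by linarith)]; ring
    rw [h2, h3, h4]
    refine mul_le_mul_of_nonneg_left (exp_le_exp.2 ?_) hM0.le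
    have h5 : log (3 * (kk j * ρ j)) = log (3 * kk j) + log (ρ j) := by
      rw [← mul_assoc, log_mul (by linarith) hρ0.ne']
    have h6 : log (3 * (kk j * ρ j)) = log 3 + log (kk j * ρ j) := log_mul (by norm_num) hkρ0.ne'
    have h7 := log_le_log (hkρ0.trans_le hy1) hyj
    have h8 := log_le_log hkρ0 hy1
    have h9 : a j * (log (3 * kk j) + log (ρ j) - log ‖y.1 - x j‖) ≤ 5 * 2 :=
      mul_le5 (ha5 j) (abs_le.2 ⟨by linarith, by linarith [log3]⟩)
    have h10 : log 2 ≤ 1 := by linarith [log_le_sub_one_of_pos (show (0 : ℝ) < 2 by norm_num)]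
    have h11 : ex j = a j + μ := by simp only [ha]; ring
    rw [hT, h11]
    linarith
  · refine (hG j).2.2.trans (le_trans ?_ (le_mul_of_one_le_left (exp_pos T).le hM.le))
    have h2 : Cw j * exp N0 * ρ j ^ (4 * n) = exp (log (Cw j) + N0 + (4 * n : ℕ) * log (ρ j)) := by
      rw [exp_add, exp_add, exp_log (by linarith), ← log_pow, exp_log (pow_pos hρ0 _)]
    rw [h2, exp_le_exp, hT, hB]
    have h3 := sum_le' hn (b := fun k => -(a k * log ‖y.1 - x k‖)) (c := 10 - 4 * log (ρ j))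
      (d := -(a j * log (ρ j))) (by linarith) j (by nlinarith [ha4 j]) fun k hkj => by
        have h4 := hoth y.1 hyρ k hkj
        have h5 := hsep j k hkj.symm
        have h6 : ‖x j - x k‖ ≤ 2 := by linarith [norm_sub_le (x j) (x k), (hx k).1]
        have h7 := log_le_log hρ0 (show ρ j ≤ ‖y.1 - x k‖ by linarith [h4.1])
        have h8 := log_le_log (by linarith [h4.1]) (show ‖y.1 - x k‖ ≤ 3 by linarith [h4.2])
        rcases le_total (log ‖y.1 - x k‖) 0 with h9 | h9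
        · nlinarith [ha4 k]
        · nlinarith [(abs_le.1 (ha5 k)).1, log3]
    rw [Finset.sum_neg_distrib] at h3
    have h4 := abs_le.1 (hlg y.1 hyρ)
    have h5 := abs_le.1 (hre y.1 hyρ)
    simp only [wt]
    push_cast
    linarith [h4.2, h5.1]
  · intro y' hy' hz1 hz2
    have h2 := near h1 hx1 hρ1 hz2
    have h0 : 0 < h := by linarith
    refine (hq y' hy' ⟨(exp_le_exp.2 (by linarith)).trans h2.1, h2.2.trans (exp_le_exp.2 (by linarith)),
      fun k => ?_⟩).trans (mul_le_mul_of_nonneg_left (exp_le_exp.2 ?_) hM0.le)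
    · by_cases hkj : k = j
      · rw [hkj]; linarith
      · have h3 := hsep k j hkj
        rw [norm_sub_rev] at h3
        linarith [(hoth y'.1 hz2 k hkj).1, hkρ k]
    · have h3 := sum_le' hn (b := fun k => a k * log ‖y'.1 - x k‖ - a k * log ‖y.1 - x k‖) (c := 10)
        (d := 0) (by norm_num) j (by norm_num) fun k hkj => by
          have h4 := hoth y.1 hyρ k hkj
          have h5 := hoth y'.1 hz2 k hkj
          have h6 : 0 < ‖x j - x k‖ / 2 := by linarith [hsep j k hkj.symm]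
          have h7 := log_mul (show (3 : ℝ) ≠ 0 by norm_num) h6.ne'
          have h8 := log_le_log h6 h4.1
          have h9 := log_le_log h6 h5.1
          have h10 := log_le_log (h6.trans_le h4.1) h4.2
          have h11 := log_le_log (h6.trans_le h5.1) h5.2
          have h12 : a k * (log ‖y'.1 - x k‖ - log ‖y.1 - x k‖) ≤ 5 * 2 :=
            mul_le5 (ha5 k) (abs_le.2 ⟨by linarith [log3], by linarith [log3]⟩)
          linarith
      rw [Finset.sum_sub_distrib] at h3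
      have h4 := abs_le.1 (hlg y.1 hyρ)
      have h5 := abs_le.1 (hre y.1 hyρ)
      have h6 := abs_le.1 (hlg y'.1 hz2)
      have h7 := abs_le.1 (hre y'.1 hz2)
      have h8 : 0 < ρ j / Cw j := div_pos hρ0 (by linarith)
      have h9 := log_le_log h8 hz1
      have h10 := log_le_log (h8.trans_le hz1) hz2
      rw [log_div hρ0.ne' (by linarith)] at h9
      have h11 : a j * (log ‖y'.1 - x j‖ - log (ρ j)) ≤ 5 * log (Cw j) :=
        mul_le5 (ha5 j) (abs_le.2 ⟨by linarith, by linarith⟩)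
      rw [hT, hB, hB]
      simp only [wt]
      linarith [h4.2, h5.1, h6.1, h7.2]

end Pool.Agent.Lib.SH.SL
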