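import Pool.Agent.Lib.SH.Blue1b

/-! Maximum principle and global submean inequality for submean functions. -/

open Set Filter Topology Metric

namespace Pool.Agent.Lib.SH

namespace SM12

theorem circInt {u : ℂ → ℝ} {c : ℂ} {r B : ℝ} (hr : 0 ≤ r) (hu : UpperSemicontinuousOn u (sphere c r))
    (hB : ∀ z ∈ sphere c r, |u z| ≤ B) : CircleIntegrable u c r := by
  have h1 : Measurable fun θ : ℝ => u (circleMap c r θ) :=
    (upperSemicontinuousOn_univ_iff.1 (hu.comp (continuous_circleMap c r).continuousOn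
      fun θ _ => circleMap_mem_sphere c hr θ)).measurable
  refine (intervalIntegrable_const (c := B)).mono_fun' h1.aestronglyMeasurable
    (Eventually.of_forall fun θ => hB _ (circleMap_mem_sphere c hr θ))

theorem mono {u : ℂ → ℝ} {Ω Ω' : Set ℂ} (h : SMon u Ω) (hs : Ω' ⊆ Ω) : SMon u Ω' :=
  ⟨h.usc.mono hs, h.bdd.imp fun _ hB z hz => hB z (hs hz), fun z hz => h.sub z (hs hz)⟩

theorem avg_re {G : ℂ → ℂ} {c : ℂ} {r : ℝ} (hr : 0 ≤ r) (hG : AnalyticOnNhd ℂ G (closedBall c r)) :
    Real.circleAverage (fun z => (G z).re) c r = (G c).re := by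
  have h1 := Complex.reCLM.circleAverage_comp_comm
    ((hG.continuousOn.mono sphere_subset_closedBall).circleIntegrable hr)
  rw [circleAverage_of_differentiable_on_off_countable (s := ∅) countable_empty
    (by rw [abs_of_nonneg hr]; exact hG.continuousOn)
    fun z hz => (hG z (ball_subset_closedBall (abs_of_nonneg hr ▸ hz.1))).differentiableAt] at h1
  exact h1

theorem cont {hh : ℂ → ℝ} {Z : Set ℂ} (h : LRe1 hh Z) : ContinuousOn hh Z := fun z hz => by
  obtain ⟨G, hG, e⟩ := h z hz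
  exact ((Complex.continuous_re.continuousAt.comp hG.continuousAt).congr
    (e.mono fun _ k => k.symm)).continuousWithinAt

end SM12

open SM12 in
theorem st_sm1 : St_SM1 := by
  intro u hh Z hZ hu hs hh1 hb z0 hz0
  by_contra hlt
  push Not at hlt
  obtain ⟨R, hR⟩ := hZ.isBounded.exists_norm_le
  obtain ⟨η, η0, hη⟩ : ∃ η > (0 : ℝ), η * R ^ 2 < u z0 - hh z0 := by
    refine ⟨(u z0 - hh z0) / (R ^ 2 + 1), by have := sub_pos.2 hlt; positivity, ?_⟩
    rw [div_mul_eq_mul_div, div_lt_iff₀ (by positivity)]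
    nlinarith
  obtain ⟨z1, hz1, hmax⟩ := (hu.add (f := u) (g := fun z => η * ‖z‖ ^ 2 - hh z)
    (ContinuousOn.upperSemicontinuousOn ((by fun_prop : ContinuousOn (fun z : ℂ => η * ‖z‖ ^ 2) Z).sub
      (cont hh1)))).exists_isMaxOn ⟨z0, hz0⟩ hZ
  have hm : ∀ z ∈ Z, u z + (η * ‖z‖ ^ 2 - hh z) ≤ u z1 + (η * ‖z1‖ ^ 2 - hh z1) := hmax
  have hi : z1 ∈ interior Z := by
    by_contra hi
    have h1 := hb z1 hz1 hi
    have h2 := hm z0 hz0
    have h3 : η * ‖z1‖ ^ 2 ≤ η * R ^ 2 := by have := hR z1 hz1; gcongr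
    have h4 : 0 ≤ η * ‖z0‖ ^ 2 := by positivity
    linarith
  obtain ⟨G, hG, e⟩ := hh1 z1 hz1
  obtain ⟨B, hB⟩ := hs.bdd
  obtain ⟨ε, ε0, hε⟩ := Metric.mem_nhds_iff.1
    ((e.and hG.eventually_analyticAt).and (isOpen_interior.mem_nhds hi))
  obtain ⟨r, h1, h2, h3⟩ := ((hs.sub z1 hi).and (Ioo_mem_nhdsGT ε0)).exists
  have sub : closedBall z1 r ⊆ ball z1 ε := closedBall_subset_ball h3
  have sub' : sphere z1 r ⊆ interior Z := fun z hz => (hε (sub (sphere_subset_closedBall hz))).2
  have hG' : AnalyticOnNhd ℂ (fun z => G z - 2 * η * (starRingEnd ℂ) z1 * (z - z1) +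
      (u z1 - hh z1 - η * r ^ 2 : ℝ)) (closedBall z1 r) := fun z hz =>
    ((hε (sub hz)).1.2.sub (by fun_prop)).add analyticAt_const
  have h4 := Real.circleAverage_mono (circInt h2.le (hs.usc.mono sub') fun z hz => hB z (sub' hz))
    ((Complex.continuous_re.comp_continuousOn
      (hG'.continuousOn.mono sphere_subset_closedBall)).circleIntegrable h2.le) fun z hz => by
    rw [abs_of_pos h2] at hz
    have a1 := hm z (interior_subset (sub' hz))
    have a2 := (hε (sub (sphere_subset_closedBall hz))).1.1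
    have a3 : r ^ 2 = ‖z - z1‖ ^ 2 := by rw [mem_sphere_iff_norm.1 hz]
    simp only [Complex.sq_norm, Complex.normSq_apply, Complex.sub_re, Complex.sub_im] at a1 a3
    simp only [Function.comp_apply, Complex.add_re, Complex.sub_re, Complex.mul_re, Complex.mul_im,
      Complex.ofReal_re, Complex.ofReal_im, Complex.conj_re, Complex.conj_im, Complex.sub_im,
      Complex.re_ofNat, Complex.im_ofNat, ← a2, a3]
    nlinarith
  have h6 := e.self_of_nhds
  have h7 : 0 < η * r ^ 2 := by positivity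
  have h8 := h1.trans (h4.trans_eq (avg_re h2.le hG'))
  simp only [sub_self, mul_zero, sub_zero, Complex.add_re, Complex.ofReal_re] at h8
  linarith

open SM12 in
theorem st_sm2 (hT : St_TRIG) : St_SM2 := by
  intro u Ω c r _ hs hr hsub
  refine le_of_forall_pos_le_add fun η hη => ?_
  obtain ⟨B, hB⟩ := hs.bdd
  have sub' : sphere c r ⊆ Ω := sphere_subset_closedBall.trans hsub
  obtain ⟨p, h1, h2⟩ := hT u c r B η hr hη (hs.usc.mono sub')
    ⟨-B, fun z hz => (abs_le.1 (hB z (sub' hz))).1⟩ fun z hz => (abs_le.1 (hB z (sub' hz))).2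
  have r0 : (r : ℂ) ≠ 0 := Complex.ofReal_ne_zero.2 hr.ne'
  have := st_sm1 u (fun z => (p.eval ((z - c) / r)).re) (closedBall c r) (isCompact_closedBall c r)
    (hs.usc.mono hsub) (mono hs (interior_subset.trans hsub))
    (fun z _ => ⟨fun z => p.eval ((z - c) / r), (p.differentiable.comp (by fun_prop)).analyticAt z,
      Eventually.of_forall fun _ => rfl⟩)
    (fun z hz hn => by
      rw [interior_closedBall c hr.ne', mem_ball_iff_norm, not_lt] at hn
      have e : ‖z - c‖ = r := le_antisymm (mem_closedBall_iff_norm.1 hz) hn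
      have := (h1 ((z - c) / r) (by simp [e, abs_of_pos hr, hr.ne'])).1
      rwa [mul_div_cancel₀ _ r0, add_sub_cancel] at this) c (mem_closedBall_self hr.le)
  simp only [sub_self, zero_div] at this
  exact this.trans h2

end Pool.Agent.Lib.SH
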