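import Pool.Agent.Lib.SH.Blue1b

open Set Filter Topology Metric MeasureTheory

noncomputable section

namespace Pool.Agent.Lib.SH

namespace SM4

/-- uniform second order Taylor estimate -/
theorem taylor {ψ : ℂ → ℝ} (h2 : ContDiff ℝ 2 ψ) (hc : HasCompactSupport ψ) {ε : ℝ} (hε : 0 < ε) :
    ∃ δ > 0, ∀ z w : ℂ, ‖w‖ ≤ δ →
      |ψ (z + w) - ψ z - fderiv ℝ ψ z w - fderiv ℝ (fderiv ℝ ψ) z w w / 2| ≤ ε * ‖w‖ ^ 2 := by
  have h1 : ContDiff ℝ 1 (fderiv ℝ ψ) := h2.fderiv_right (by norm_num)
  have c2 : Continuous (fderiv ℝ (fderiv ℝ ψ)) := h1.continuous_fderiv (by norm_num)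
  have u2 : UniformContinuous (fderiv ℝ (fderiv ℝ ψ)) :=
    ((hc.fderiv ℝ).fderiv ℝ).uniformContinuous_of_continuous c2
  obtain ⟨δ, hδ, hu⟩ := (Metric.uniformContinuous_iff_le (α := ℂ) (β := ℂ →L[ℝ] ℂ →L[ℝ] ℝ)
    (f := fderiv ℝ (fderiv ℝ ψ))).1 u2 ε hε
  refine ⟨δ, hδ, fun z w hw => ?_⟩
  have d0 : Differentiable ℝ ψ := h2.differentiable (by norm_num)
  have d1 : Differentiable ℝ (fderiv ℝ ψ) := h1.differentiable (by norm_num)
  have s1 : ∀ v : ℂ, ‖v‖ ≤ δ →
      ‖fderiv ℝ ψ (z + v) - fderiv ℝ ψ z - fderiv ℝ (fderiv ℝ ψ) z v‖ ≤ ε * ‖v‖ := by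
    intro v hv
    have := (convex_closedBall z δ).norm_image_sub_le_of_norm_fderiv_le' (𝕜 := ℝ)
      (f := fderiv ℝ ψ) (φ := fderiv ℝ (fderiv ℝ ψ) z) (C := ε) (x := z) (y := z + v)
      (fun x _ => d1 x) (fun x hx => by
        rw [← dist_eq_norm]; exact hu (mem_closedBall.1 hx))
      (mem_closedBall_self hδ.le) (by simpa using hv)
    simpa using this
  have s2 := norm_image_sub_le_of_norm_deriv_le_segment_01'
    (f := fun t : ℝ => ψ (z + t • w) - t * fderiv ℝ ψ z w -
      t ^ 2 / 2 * fderiv ℝ (fderiv ℝ ψ) z w w)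
    (f' := fun t : ℝ => (fderiv ℝ ψ (z + t • w) - fderiv ℝ ψ z -
      fderiv ℝ (fderiv ℝ ψ) z (t • w)) w) (C := ε * ‖w‖ ^ 2) (fun t _ => by
      have a1 : HasDerivAt (fun t : ℝ => z + t • w) w t := by
        simpa using ((hasDerivAt_id t).smul_const w).const_add z
      have a2 : HasDerivAt (fun t : ℝ => ψ (z + t • w)) (fderiv ℝ ψ (z + t • w) w) t :=
        (d0 _).hasFDerivAt.comp_hasDerivAt t a1
      have a3 : HasDerivAt (fun t : ℝ => t * fderiv ℝ ψ z w) (fderiv ℝ ψ z w) t := by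
        simpa using (hasDerivAt_id t).mul_const (fderiv ℝ ψ z w)
      have a4 : HasDerivAt (fun t : ℝ => t ^ 2 / 2 * fderiv ℝ (fderiv ℝ ψ) z w w)
          (t * fderiv ℝ (fderiv ℝ ψ) z w w) t := by
        have := ((hasDerivAt_pow 2 t).div_const 2).mul_const (fderiv ℝ (fderiv ℝ ψ) z w w)
        refine this.congr_deriv ?_
        simp
      refine ((a2.sub a3).sub a4).hasDerivWithinAt.congr_deriv ?_
      simp only [sub_apply, map_smul, smul_apply,
        smul_eq_mul])
    (fun t ht => by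
      have b1 : ‖t • w‖ ≤ ‖w‖ := by
        rw [norm_smul, Real.norm_eq_abs, abs_of_nonneg ht.1]
        exact mul_le_of_le_one_left (norm_nonneg _) ht.2.le
      refine (ContinuousLinearMap.le_opNorm _ _).trans ?_
      have b2 := (s1 (t • w) (b1.trans hw)).trans (mul_le_mul_of_nonneg_left b1 hε.le)
      calc _ ≤ ε * ‖w‖ * ‖w‖ := mul_le_mul_of_nonneg_right b2 (norm_nonneg _)
        _ = ε * ‖w‖ ^ 2 := by ring)
  rw [Real.norm_eq_abs] at s2
  refine le_trans (le_of_eq ?_) s2
  congr 1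
  simp only [one_smul, zero_smul, add_zero]
  ring

/-- the point of the circle -/
def cw (s θ : ℝ) : ℂ := (s * Real.cos θ) • (1 : ℂ) + (s * Real.sin θ) • Complex.I

theorem cw_eq (z : ℂ) (s θ : ℝ) : circleMap z s θ = z + cw s θ := by
  rw [circleMap, cw, Complex.exp_mul_I]
  simp
  ring

theorem cw_norm (s θ : ℝ) : ‖cw s θ‖ = |s| := by
  have := norm_circleMap_zero s θ
  rwa [cw_eq, zero_add] at this

theorem cw_neg (s θ : ℝ) : cw (-s) θ = -cw s θ := by
  simp only [cw, neg_mul, neg_smul, neg_add]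

theorem cw_cont (s : ℝ) : Continuous (cw s) := by
  unfold cw; fun_prop

theorem int_poly (a : ℝ) (L : ℂ →L[ℝ] ℝ) (Q : ℂ →L[ℝ] ℂ →L[ℝ] ℝ) (s : ℝ) :
    ∫ θ in (0 : ℝ)..2 * Real.pi, (a + L (cw s θ) + Q (cw s θ) (cw s θ) / 2) =
      2 * Real.pi * a + Real.pi * s ^ 2 / 2 * (Q 1 1 + Q Complex.I Complex.I) := by
  have e : ∀ θ : ℝ, a + L (cw s θ) + Q (cw s θ) (cw s θ) / 2 =
      a + (s * L 1) * Real.cos θ + (s * L Complex.I) * Real.sin θ +
        (s ^ 2 * Q 1 1 / 2) * Real.cos θ ^ 2 +
        (s ^ 2 * Q Complex.I Complex.I / 2) * Real.sin θ ^ 2 +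
        (s ^ 2 * (Q 1 Complex.I + Q Complex.I 1) / 2) * (Real.sin θ * Real.cos θ) := by
    intro θ
    simp only [cw, map_add, map_smul, add_apply,
      smul_apply, smul_eq_mul]
    ring
  simp only [e]
  rw [intervalIntegral.integral_add, intervalIntegral.integral_add, intervalIntegral.integral_add,
    intervalIntegral.integral_add, intervalIntegral.integral_add]
  · simp only [intervalIntegral.integral_const_mul, integral_cos, integral_sin, integral_cos_sq,
      integral_sin_sq, integral_sin_mul_cos₁, intervalIntegral.integral_const]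
    simp
    ring
  all_goals exact Continuous.intervalIntegrable (by fun_prop) _ _

theorem avg_est {ψ : ℂ → ℝ} (h2 : ContDiff ℝ 2 ψ) (hc : HasCompactSupport ψ) {ε : ℝ}
    (hε : 0 < ε) : ∃ δ > 0, ∀ (z : ℂ) (s : ℝ), |s| ≤ δ →
      |(∫ θ in (0 : ℝ)..2 * Real.pi, ψ (z + cw s θ)) - 2 * Real.pi * ψ z -
        Real.pi * s ^ 2 / 2 * Laplacian.laplacian ψ z| ≤ 2 * Real.pi * (ε * s ^ 2) := by
  obtain ⟨δ, hδ, h⟩ := taylor h2 hc hε
  refine ⟨δ, hδ, fun z s hs => ?_⟩
  have e1 : Laplacian.laplacian ψ z = fderiv ℝ (fderiv ℝ ψ) z 1 1 +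
      fderiv ℝ (fderiv ℝ ψ) z Complex.I Complex.I := by
    rw [InnerProductSpace.laplacian_eq_iteratedFDeriv_complexPlane]
    simp [iteratedFDeriv_two_apply]
  have cψ := h2.continuous
  have cc := cw_cont s
  rw [e1, sub_sub, ← int_poly (ψ z) (fderiv ℝ ψ z) (fderiv ℝ (fderiv ℝ ψ) z) s,
    ← intervalIntegral.integral_sub (Continuous.intervalIntegrable (by fun_prop) _ _)
      (Continuous.intervalIntegrable (by fun_prop) _ _)]
  have := intervalIntegral.norm_integral_le_of_norm_le_const (a := 0) (b := 2 * Real.pi)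
    (C := ε * s ^ 2) (f := fun θ => ψ (z + cw s θ) - (ψ z + fderiv ℝ ψ z (cw s θ) +
      fderiv ℝ (fderiv ℝ ψ) z (cw s θ) (cw s θ) / 2)) fun θ _ => by
      have := h z (cw s θ) (by rw [cw_norm]; exact hs)
      rw [cw_norm, sq_abs] at this
      rw [Real.norm_eq_abs]
      refine le_trans (le_of_eq ?_) this
      congr 1
      ring
  rw [Real.norm_eq_abs, sub_zero, abs_of_pos Real.two_pi_pos] at this
  linarith

theorem swap (f : ℝ → ℂ → ℝ) (hf : Measurable (Function.uncurry f)) (g : ℂ → ℝ)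
    (hg : Integrable g) (hb : ∀ θ z, |f θ z| ≤ g z) :
    Integrable (fun z => ∫ θ in (0 : ℝ)..2 * Real.pi, f θ z) ∧
      ∫ θ in (0 : ℝ)..2 * Real.pi, ∫ z, f θ z = ∫ z, ∫ θ in (0 : ℝ)..2 * Real.pi, f θ z := by
  have hi : Integrable (Function.uncurry f)
      ((volume.restrict (Set.uIoc (0 : ℝ) (2 * Real.pi))).prod volume) := by
    have : IsFiniteMeasure (volume.restrict (Set.uIoc (0 : ℝ) (2 * Real.pi))) :=
      isFiniteMeasure_restrict.2 (by simp [Set.uIoc])
    exact (hg.comp_snd _).mono' hf.aestronglyMeasurable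
      (Eventually.of_forall fun x => hb x.1 x.2)
  refine ⟨?_, intervalIntegral_integral_swap hi⟩
  have := hi.integral_prod_right
  simp only [intervalIntegral.integral_of_le Real.two_pi_pos.le]
  rw [Set.uIoc_of_le Real.two_pi_pos.le] at this
  exact this

theorem lap_zero {ψ : ℂ → ℝ} {z : ℂ} (hz : z ∉ tsupport ψ) : Laplacian.laplacian ψ z = 0 := by
  have h1 : fderiv ℝ (fderiv ℝ ψ) z = 0 := by
    by_contra h
    exact hz (tsupport_fderiv_subset ℝ (support_fderiv_subset ℝ h))
  rw [InnerProductSpace.laplacian_eq_iteratedFDeriv_complexPlane]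
  simp [iteratedFDeriv_two_apply, h1]

theorem lap_cont {ψ : ℂ → ℝ} (h2 : ContDiff ℝ 2 ψ) : Continuous (Laplacian.laplacian ψ) := by
  have h1 : ContDiff ℝ 1 (fderiv ℝ ψ) := h2.fderiv_right (by norm_num)
  have c2 : Continuous (fderiv ℝ (fderiv ℝ ψ)) := h1.continuous_fderiv (by norm_num)
  rw [InnerProductSpace.laplacian_eq_iteratedFDeriv_complexPlane]
  simp only [iteratedFDeriv_two_apply]
  fun_prop

theorem main {v ψ : ℂ → ℝ} {B δ0 : ℝ} (hv : Measurable v) (hB : ∀ z, |v z| ≤ B)
    (h2 : ContDiff ℝ 2 ψ) (hc : HasCompactSupport ψ) (h0 : ∀ z, 0 ≤ ψ z) (hδ0 : 0 < δ0)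
    (hs : ∀ z ∈ tsupport ψ, ∀ r, 0 < r → r ≤ δ0 → v z ≤ Real.circleAverage v z r) :
    0 ≤ ∫ z, v z * Laplacian.laplacian ψ z := by
  have cψ := h2.continuous
  have hB0 : 0 ≤ B := (abs_nonneg _).trans (hB 0)
  have iψ : Integrable ψ := cψ.integrable_of_hasCompactSupport hc
  obtain ⟨M, hM⟩ := cψ.bounded_above_of_compact_support hc
  have hM0 : 0 ≤ M := (norm_nonneg _).trans (hM 0)
  set K := cthickening 1 (tsupport ψ) with hK
  have cK : IsCompact K := hc.isCompact.cthickening
  have mK : MeasurableSet K := cK.measurableSet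
  have iK : Integrable (K.indicator fun _ => (1 : ℝ)) :=
    (integrable_indicator_iff mK).2 (integrableOn_const cK.measure_lt_top.ne)
  have out : ∀ z, z ∉ K → ∀ w : ℂ, ‖w‖ ≤ 1 → ψ (z + w) = 0 := by
    intro z hz w hw
    by_contra h
    exact hz (mem_cthickening_of_dist_le z (z + w) 1 _ (subset_tsupport _ h) (by simpa using hw))
  have iL : Integrable fun z => v z * Laplacian.laplacian ψ z := by
    refine Integrable.bdd_mul (c := B) ?_ hv.aestronglyMeasurable
      (Eventually.of_forall fun z => hB z)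
    exact (lap_cont h2).integrable_of_hasCompactSupport
      (HasCompactSupport.intro hc.isCompact fun z hz => lap_zero hz)
  have iv : Integrable fun z => v z * ψ z :=
    Integrable.bdd_mul (c := B) iψ hv.aestronglyMeasurable (Eventually.of_forall fun z => hB z)
  set A : ℝ := ∫ z, K.indicator (fun _ => (1 : ℝ)) z with hA
  have hA0 : 0 ≤ A := integral_nonneg fun z => Set.indicator_nonneg (fun _ _ => zero_le_one) z
  have key : ∀ ε > 0, -(4 * B * A * ε) ≤ ∫ z, v z * Laplacian.laplacian ψ z := by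
    intro ε hε
    obtain ⟨δ, hδ, he⟩ := avg_est h2 hc hε
    set r := min (min δ δ0) 1 with hr
    have r0 : 0 < r := lt_min (lt_min hδ hδ0) one_pos
    have r1 : r ≤ δ := (min_le_left _ _).trans (min_le_left _ _)
    have r2 : r ≤ δ0 := (min_le_left _ _).trans (min_le_right _ _)
    have r3 : r ≤ 1 := min_le_right _ _
    have cc := cw_cont r
    have cc' := cw_cont (-r)
    obtain ⟨i1, s1⟩ := swap (fun θ z => ψ z * v (z + cw r θ))
      ((cψ.measurable.comp measurable_snd).mul
        (hv.comp (measurable_snd.add (cc.measurable.comp measurable_fst))))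
      (fun z => ψ z * B) (iψ.mul_const B) fun θ z => by
        rw [abs_mul, abs_of_nonneg (h0 z)]
        exact mul_le_mul_of_nonneg_left (hB _) (h0 z)
    obtain ⟨i2, s2⟩ := swap (fun θ z => v z * ψ (z + cw (-r) θ))
      ((hv.comp measurable_snd).mul
        (cψ.measurable.comp (measurable_snd.add (cc'.measurable.comp measurable_fst))))
      (fun z => B * M * K.indicator (fun _ => (1 : ℝ)) z) (iK.const_mul _) fun θ z => by
        by_cases hz : z ∈ K
        · rw [Set.indicator_of_mem hz, mul_one, abs_mul]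
          exact mul_le_mul (hB z) (hM _) (abs_nonneg _) hB0
        · rw [Set.indicator_of_notMem hz, out z hz _ (by
            rw [cw_norm, abs_neg, abs_of_pos r0]; exact r3)]
          simp
    have s3 : ∀ θ, ∫ z, ψ z * v (z + cw r θ) = ∫ z, v z * ψ (z + cw (-r) θ) := by
      intro θ
      rw [← integral_add_right_eq_self (fun z => v z * ψ (z + cw (-r) θ)) (cw r θ)]
      simp only [cw_neg, add_neg_cancel_right, mul_comm]
    have t1 : ∫ z, 2 * Real.pi * (v z * ψ z) ≤
        ∫ z, ∫ θ in (0 : ℝ)..2 * Real.pi, ψ z * v (z + cw r θ) := by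
      refine integral_mono (iv.const_mul _) i1 fun z => ?_
      simp only [intervalIntegral.integral_const_mul]
      by_cases hz : z ∈ tsupport ψ
      · have a1 := hs z hz r r0 r2
        rw [Real.circleAverage_def, smul_eq_mul, le_inv_mul_iff₀ Real.two_pi_pos] at a1
        simp only [cw_eq] at a1
        have := mul_le_mul_of_nonneg_left a1 (h0 z)
        linarith
      · simp [image_eq_zero_of_notMem_tsupport hz]
    have t2 : ∫ z, ∫ θ in (0 : ℝ)..2 * Real.pi, v z * ψ (z + cw (-r) θ) ≤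
        ∫ z, (2 * Real.pi * (v z * ψ z) + Real.pi * r ^ 2 / 2 * (v z * Laplacian.laplacian ψ z) +
          B * (2 * Real.pi * (ε * r ^ 2)) * K.indicator (fun _ => (1 : ℝ)) z) := by
      refine integral_mono i2 (((iv.const_mul _).add (iL.const_mul _)).add (iK.const_mul _))
        fun z => ?_
      simp only [intervalIntegral.integral_const_mul]
      by_cases hz : z ∈ K
      · have a1 := he z (-r) (by rw [abs_neg, abs_of_pos r0]; exact r1)
        rw [neg_sq] at a1
        have a2 := mul_le_mul (hB z) a1 (abs_nonneg _) hB0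
        rw [← abs_mul] at a2
        have a3 := (abs_le.1 a2).2
        rw [Set.indicator_of_mem hz]
        linarith
      · have a1 : ∀ θ, ψ (z + cw (-r) θ) = 0 := fun θ => out z hz _ (by
          rw [cw_norm, abs_neg, abs_of_pos r0]; exact r3)
        have a2 : z ∉ tsupport ψ := fun h => hz (self_subset_cthickening _ h)
        simp [a1, image_eq_zero_of_notMem_tsupport a2, lap_zero a2, Set.indicator_of_notMem hz]
    have i3 : Integrable fun z => 2 * Real.pi * (v z * ψ z) +
        Real.pi * r ^ 2 / 2 * (v z * Laplacian.laplacian ψ z) :=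
      (iv.const_mul _).add (iL.const_mul _)
    rw [integral_add i3 (iK.const_mul _),
      integral_add (iv.const_mul _) (iL.const_mul _), integral_const_mul (Real.pi * r ^ 2 / 2),
      integral_const_mul (B * (2 * Real.pi * (ε * r ^ 2))), ← hA, ← s2] at t2
    rw [← s1] at t1
    simp only [s3] at t1
    have t3 : 0 ≤ Real.pi * r ^ 2 / 2 *
        ((∫ z, v z * Laplacian.laplacian ψ z) + 4 * B * A * ε) := by linarith
    have t4 : 0 < Real.pi * r ^ 2 / 2 := by positivity
    have := nonneg_of_mul_nonneg_right t3 t4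
    linarith
  refine le_of_forall_pos_le_add fun η hη => ?_
  have h5 : 0 < 4 * B * A + 1 := by positivity
  have := key (η / (4 * B * A + 1)) (by positivity)
  have h6 : 4 * B * A * (η / (4 * B * A + 1)) ≤ η := by
    rw [← mul_div_assoc, div_le_iff₀ h5]
    nlinarith
  linarith

end SM4

theorem st_sm4 (h2 : St_SM2) : St_SM4 := by
  intro u ψ Ω hΩ hu hψ hc hs h0
  classical
  obtain ⟨B, hB⟩ := hu.bdd
  set v : ℂ → ℝ := fun z => if z ∈ Ω then u z else |B| with hv
  have e : ∀ z ∈ Ω, v z = u z := fun z hz => if_pos hz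
  have hB' : ∀ z, |v z| ≤ |B| := fun z => by
    by_cases hz : z ∈ Ω
    · rw [e z hz]; exact (hB z hz).trans (le_abs_self B)
    · simp [hv, hz]
  have usc : UpperSemicontinuous v := by
    intro z y hy
    by_cases hz : z ∈ Ω
    · have := hu.usc z hz y (by rwa [e z hz] at hy)
      rw [hΩ.nhdsWithin_eq hz] at this
      filter_upwards [this, hΩ.mem_nhds hz] with w h1 h2
      rwa [e w h2]
    · refine Eventually.of_forall fun w => ((le_abs_self _).trans (hB' w)).trans_lt ?_
      simpa [hv, hz] using hy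
  obtain ⟨δ, hδ, hsub⟩ := hc.isCompact.exists_cthickening_subset_open hΩ hs
  have := SM4.main usc.measurable hB' hψ hc h0 hδ fun z hz r r0 r1 => by
    have hb : closedBall z r ⊆ Ω :=
      ((closedBall_subset_closedBall r1).trans (closedBall_subset_cthickening hz δ)).trans hsub
    rw [e z (hs hz), Real.circleAverage_congr_sphere (f₂ := u) fun w hw =>
      e w (hb (by rw [abs_of_pos r0] at hw; exact sphere_subset_closedBall hw))]
    exact h2 u Ω z r hΩ hu r0 hb
  refine this.trans (le_of_eq (integral_congr_ae (Eventually.of_forall fun z => ?_)))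
  by_cases hz : z ∈ Ω
  · simp only [e z hz]
  · simp only [SM4.lap_zero fun h => hz (hs h), mul_zero]

end Pool.Agent.Lib.SH
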