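import Pool.Agent.Lib.SH.Blue1b

open Set Filter Topology Metric MeasureTheory

noncomputable section

namespace Pool.Agent.Lib.SH

namespace SM5

/-- the zero extension of an upper semicontinuous function is measurable -/
lemma meas {u : ℂ → ℝ} {Ω : Set ℂ} (hΩ : MeasurableSet Ω) (hu : UpperSemicontinuousOn u Ω) :
    Measurable (Ω.indicator u) := by
  refine measurable_of_restrict_of_restrict_compl hΩ ?_ ?_
  · have : Ω.domRestrict (Ω.indicator u) = Ω.domRestrict u := by
      ext z; exact indicator_of_mem z.2 u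
    rw [this]
    exact (upperSemicontinuousOn_iff_restrict.2 hu).measurable
  · have : Ωᶜ.domRestrict (Ω.indicator u) = fun _ => 0 := by
      ext z; exact indicator_of_notMem z.2 u
    rw [this]
    exact measurable_const

lemma integ {u : ℂ → ℝ} {z : ℂ} {R B : ℝ} (hu : UpperSemicontinuousOn u (ball z R))
    (hB : ∀ w ∈ ball z R, |u w| ≤ B) : IntegrableOn u (ball z R) := by
  have h1 : IntegrableOn ((ball z R).indicator u) (ball z R) :=
    Measure.integrableOn_of_bounded (M := B) measure_ball_lt_top.ne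
      (meas measurableSet_ball hu).aestronglyMeasurable
      ((ae_restrict_iff' measurableSet_ball).2 (Eventually.of_forall fun w hw => by
        rw [indicator_of_mem hw]; exact hB w hw))
  exact h1.congr_fun (fun w hw => indicator_of_mem hw u) measurableSet_ball

/-- nonnegative circle means give a nonnegative area integral -/
lemma area {u : ℂ → ℝ} {z : ℂ} {R B : ℝ} (hu : UpperSemicontinuousOn u (ball z R))
    (hB : ∀ w ∈ ball z R, |u w| ≤ B) (h : ∀ ρ, 0 < ρ → ρ < R → 0 ≤ Real.circleAverage u z ρ) :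
    0 ≤ ∫ w in ball z R, u w := by
  set g : ℂ → ℝ := (ball z R).indicator u with hg
  have gm : Measurable g := meas measurableSet_ball hu
  have e : ∀ p : ℝ × ℝ, z + Complex.polarCoord.symm p = circleMap z p.1 p.2 := fun p => by
    simp [circleMap, Complex.exp_mul_I]
  have mem : ∀ ρ θ : ℝ, 0 < ρ → (circleMap z ρ θ ∈ ball z R ↔ ρ < R) := fun ρ θ hρ => by
    rw [mem_ball, mem_sphere.1 (circleMap_mem_sphere z hρ.le θ)]
  rw [← integral_indicator measurableSet_ball, ← hg, ← integral_add_left_eq_self g z,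
    ← Complex.integral_comp_polarCoord_symm]
  simp only [e]
  have hs : Ioo (0 : ℝ) R ×ˢ Ioo (-Real.pi) Real.pi ⊆ polarCoord.target :=
    fun p hp => ⟨hp.1.1, hp.2⟩
  rw [setIntegral_eq_of_subset_of_forall_sdiff_eq_zero polarCoord.open_target.measurableSet hs
    fun p hp => by
      have h1 : (0 : ℝ) < p.1 := hp.1.1
      have h2 : circleMap z p.1 p.2 ∉ ball z R := fun h3 =>
        hp.2 ⟨⟨h1, (mem _ _ h1).1 h3⟩, hp.1.2⟩
      rw [hg, indicator_of_notMem h2, smul_zero]]
  have cm : Measurable fun p : ℝ × ℝ => circleMap z p.1 p.2 := by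
    unfold circleMap; fun_prop
  have hi : IntegrableOn (fun p : ℝ × ℝ => p.1 • g (circleMap z p.1 p.2))
      (Ioo (0 : ℝ) R ×ˢ Ioo (-Real.pi) Real.pi) := by
    refine Measure.integrableOn_of_bounded (M := R * B) ?_
      (measurable_fst.smul (gm.comp cm)).aestronglyMeasurable
      ((ae_restrict_iff' (measurableSet_Ioo.prod measurableSet_Ioo)).2
        (Eventually.of_forall fun p hp => ?_))
    · rw [Measure.volume_eq_prod, Measure.prod_prod]
      exact ENNReal.mul_ne_top measure_Ioo_lt_top.ne measure_Ioo_lt_top.ne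
    · have h3 := (mem p.1 p.2 hp.1.1).2 hp.1.2
      rw [hg, indicator_of_mem h3, norm_smul, Real.norm_of_nonneg hp.1.1.le]
      exact mul_le_mul hp.1.2.le (hB _ h3) (norm_nonneg _) (hp.1.1.trans hp.1.2).le
  rw [Measure.volume_eq_prod] at hi ⊢
  rw [setIntegral_prod _ hi]
  refine setIntegral_nonneg measurableSet_Ioo fun ρ hρ => ?_
  simp only
  rw [integral_smul]
  refine smul_nonneg hρ.1.le ?_
  have h4 := h ρ hρ.1 hρ.2
  rw [Real.circleAverage_eq_integral_add (-Real.pi),
    intervalIntegral.integral_comp_add_right (fun θ => u (circleMap z ρ θ)), zero_add,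
    show 2 * Real.pi + -Real.pi = Real.pi by ring,
    intervalIntegral.integral_of_le (by linarith [Real.pi_pos]), integral_Ioc_eq_integral_Ioo,
    smul_eq_mul, mul_nonneg_iff_of_pos_left (by positivity)] at h4
  simpa only [hg, fun θ => indicator_of_mem ((mem ρ θ hρ.1).2 hρ.2) u] using h4

lemma cint {u : ℂ → ℝ} {c : ℂ} {r B : ℝ} (hr : 0 ≤ r)
    (hu : UpperSemicontinuousOn u (sphere c r)) (hB : ∀ z ∈ sphere c r, |u z| ≤ B) :
    CircleIntegrable u c r := by
  have h1 : UpperSemicontinuous (u ∘ circleMap c r) := by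
    rw [← upperSemicontinuousOn_univ_iff]
    exact hu.comp (continuous_circleMap c r).continuousOn fun θ _ => circleMap_mem_sphere c hr θ
  refine (intervalIntegrable_const (c := B)).mono_fun' h1.measurable.aestronglyMeasurable ?_
  exact Eventually.of_forall fun θ => hB _ (circleMap_mem_sphere c hr θ)

/-- the area submean inequality -/
lemma submean (h2 : St_SM2) {u : ℂ → ℝ} {Ω : Set ℂ} {z : ℂ} {R : ℝ} (hΩ : IsOpen Ω)
    (hu : SMon u Ω) (hR : 0 ≤ R) (hz : ball z R ⊆ Ω) :
    Real.pi * R ^ 2 * u z ≤ ∫ w in ball z R, u w := by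
  obtain ⟨B, hB⟩ := hu.bdd
  have hU := hu.usc.mono hz
  have h3 := area (u := fun w => u w + -u z) (B := B + |u z|)
    (hU.add continuousOn_const.upperSemicontinuousOn)
    (fun w hw => (abs_add_le _ _).trans (by rw [abs_neg]; linarith [hB w (hz hw)]))
    fun ρ h0 h1 => by
      have hs : closedBall z ρ ⊆ Ω := (closedBall_subset_ball h1).trans hz
      have hs' : sphere z ρ ⊆ Ω := sphere_subset_closedBall.trans hs
      rw [Real.circleAverage_fun_add (cint h0.le (hu.usc.mono hs') fun w hw => hB w (hs' hw))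
        (circleIntegrable_const _ _ _), Real.circleAverage_const]
      linarith [h2 u Ω z ρ hΩ hu h0 hs]
  rw [integral_add (integ hU fun w hw => hB w (hz hw))
    (integrableOn_const measure_ball_lt_top.ne), setIntegral_const, Measure.real,
    Complex.volume_ball] at h3
  simp only [ENNReal.toReal_mul, ENNReal.toReal_pow, ENNReal.toReal_ofReal hR, ENNReal.coe_toReal,
    NNReal.coe_real_pi, smul_eq_mul] at h3
  linarith

end SM5

theorem st_sm5 (h2 : St_SM2) : St_SM5 := by
  intro u c z0 r hr hu h0 hz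
  obtain ⟨B, hB⟩ := hu.bdd
  have hz' : dist z0 c ≤ r := hz
  have s1 : ball z0 (3 * r) ⊆ ball c (5 * r) := ball_subset_ball' (by linarith)
  have s2 : ball c (2 * r) ⊆ ball z0 (3 * r) := ball_subset_ball' (by rw [dist_comm]; linarith)
  have i1 := SM5.integ (hu.usc.mono s1) fun w hw => hB w (s1 hw)
  refine ⟨i1.mono_set s2, ?_⟩
  have h3 := SM5.submean h2 isOpen_ball hu (by linarith) s1
  have h4 : ∫ w in ball c (2 * r), -u w ≤ ∫ w in ball z0 (3 * r), -u w :=
    setIntegral_mono_set i1.neg ((ae_restrict_iff' measurableSet_ball).2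
      (Eventually.of_forall fun w hw => neg_nonneg.2 (h0 w (s1 hw)))) s2.eventuallyLE
  rw [integral_neg, integral_neg] at h4
  linarith

end Pool.Agent.Lib.SH
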