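import Pool.Agent.Lib.SH.Blue2
import Pool.Agent.Lib.SH.B_PP2

/-! The neutral window with the birth shape. -/

open Set Filter Topology Metric

noncomputable section

namespace Pool.Agent.Lib.SH

namespace WBIR

theorem wb_lv {X K : Set E} {Q : E → ℂ} {x0 r ι C0 Λ lv lv' : ℝ} (h : WB X K Q x0 r ι C0 Λ lv)
    (h0 : 0 ≤ lv) (h1 : lv ≤ lv') : WB X K Q x0 r ι C0 Λ lv' := by
  obtain ⟨V, g, e, ι', lev, pw, Ψ, Ψy, a1, a2, a3, a4, a5, a6, a7, a8, a9, a10, a11⟩ := h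
  exact ⟨V, g, e, ι', lev, pw, Ψ, Ψy, a1, a2, a3, a4, a5, a6, a7, a8,
    fun ξ hξ => (a9 ξ hξ).trans (pow_le_pow_left₀ h0 h1 _),
    fun y a b c => a10 y a b (h1.trans_lt c), fun y a c => a11 y a (h1.trans_lt c)⟩

theorem bw_norm (L : ℝ) (D0 : ℂ → ℝ) (a th : ℝ → ℝ) (z : ℂ) :
    ‖bw L D0 a th z‖ = Real.exp (a (hgt L D0 z)) := by
  unfold bw
  rw [Complex.norm_exp]
  split_ifs <;> simp

theorem bw_real {L : ℝ} {D0 : ℂ → ℝ} {a th : ℝ → ℝ} {z : ℂ}
    (h : th (hgt L D0 z) = 0 ∨ 4 * Real.exp (-L / 2) ≤ ‖z - Complex.I‖) :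
    bw L D0 a th z = (Real.exp (a (hgt L D0 z)) : ℝ) := by
  unfold bw
  split_ifs with c
  · rw [h.resolve_right (not_le.2 c)]
    simp
  · simp

theorem far {L : ℝ} {z : ℂ} (hL : 2 ≤ L) (hz : 4 ≤ ‖z‖) :
    4 * Real.exp (-L / 2) ≤ ‖z - Complex.I‖ := by
  have h1 := norm_sub_norm_le z Complex.I
  rw [Complex.norm_I] at h1
  have h2 : Real.exp (-L / 2) ≤ Real.exp (-1) := Real.exp_le_exp.2 (by linarith)
  have h3 := Real.exp_neg_one_lt_d9
  linarith

theorem der_zero {G G' : ℝ → ℝ} (h : ∀ s, HasDerivAt G (G' s) s) (h0 : ∀ s, s ≤ 0 → G s = 0)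
    {s : ℝ} (hs : s ≤ 0) : G' s = 0 :=
  (uniqueDiffWithinAt_Iic s).eq_deriv _ (h s).hasDerivWithinAt
    ((hasDerivWithinAt_const s (Iic s) (0 : ℝ)).congr (fun x hx => h0 x (le_trans hx hs)) (h0 s hs))

theorem grow {G G' : ℝ → ℝ} {σ H : ℝ} (hσ : 0 < σ) (h : ∀ s, HasDerivAt G (G' s) s)
    (hp : ∀ s, 0 < s → 0 < G s) (hg : ∀ s, 0 < s → s ≤ H → G s ≤ σ * G' s) {s t : ℝ}
    (hs : 0 < s) (hst : s ≤ t) (ht : t ≤ H) :
    (t - s) / σ ≤ Real.log (G t) - Real.log (G s) := by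
  have d : ∀ x ∈ Icc s t, HasDerivAt (fun x => Real.log (G x)) (G' x / G x) x := fun x hx =>
    (h x).log (hp x (hs.trans_le hx.1)).ne'
  have h1 := (convex_Icc s t).mul_sub_le_image_sub_of_le_deriv (f := fun x => Real.log (G x))
    (fun x hx => (d x hx).continuousAt.continuousWithinAt)
    (fun x hx => (d x (interior_subset hx)).differentiableAt.differentiableWithinAt) (C := σ⁻¹)
    (fun x hx => by
      have hx' := interior_subset hx
      have h2 := hp x (hs.trans_le hx'.1)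
      rw [(d x hx').deriv, le_div_iff₀ h2, inv_mul_le_iff₀ hσ]
      exact hg x (hs.trans_le hx'.1) (hx'.2.trans ht))
    s (left_mem_Icc.2 hst) t (right_mem_Icc.2 hst) hst
  rwa [div_eq_inv_mul]

theorem box_sub {x0 r ρ : ℝ} (h : |x0| + r + r ≤ ρ) : box x0 r r ⊆ closedBall 0 ρ := fun z hz => by
  have h1 := abs_sub_abs_le_abs_sub z.re x0
  exact mem_closedBall_zero_iff.2 ((Complex.norm_le_abs_re_add_abs_im z).trans
    (by linarith [hz.1, hz.2]))

theorem box_cl (x0 r s : ℝ) : IsClosed (box x0 r s) :=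
  (isClosed_le (f := fun z : ℂ => |z.re - x0|) (by fun_prop) continuous_const).inter
    (isClosed_le (f := fun z : ℂ => |z.im|) (by fun_prop) continuous_const)

theorem pw_prof {G G' : ℝ → ℝ} {ι r H : ℝ} (hr : 0 < r) (hH : 1 ≤ H) (hι : H / r ≤ ι)
    (h : ∀ s, HasDerivAt G (G' s) s) (h0 : ∀ s, s ≤ 0 → G s = 0) (hp : ∀ s, 0 < s → 0 < G s)
    (hg : ∀ s, 0 < s → s ≤ 2 * H → G s ≤ G' s) :
    PW (Icc (-1) 1) 0 ι (H / r) 0 0 (fun _ s => (G (r * s) : ℝ))
      (fun _ s => (G' (r * s) * r : ℝ)) := by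
  have p0 : 0 < H / r := div_pos (by linarith) hr
  have key : ∀ y ∈ Icc (-(2 * (H / r))) (2 * (H / r)), |G (r * y)| ≤ G' (r * y) := fun y hy => by
    rcases le_or_gt (r * y) 0 with c | c
    · rw [h0 _ c, der_zero h h0 c, abs_zero]
    · rw [abs_of_pos (hp _ c)]
      refine hg _ c ?_
      have h1 := mul_le_mul_of_nonneg_left hy.2 hr.le
      rwa [show r * (2 * (H / r)) = 2 * H by field_simp] at h1
  have s0 : ∀ v, 0 ≤ ss 0 v := fun v => le_min (norm_nonneg _) (norm_nonneg _)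
  refine ⟨p0, hι, fun x _ y _ => ?_, fun x _ y hy => ?_, fun x _ y hy _ => ?_,
    fun x _ y _ _ x' _ _ => ⟨by simp, ?_⟩, fun x _ y _ _ => ?_⟩
  · have h1 := ((h (r * y)).comp y ((hasDerivAt_id y).const_mul r)).ofReal_comp
    simpa [Function.comp_def] using h1
  · rw [Complex.ofReal_im, abs_zero, Complex.ofReal_re]
    exact mul_nonneg (p0.le.trans hι) (mul_nonneg ((abs_nonneg _).trans (key y hy)) hr.le)
  · have h1 := key y hy
    have h2 : ss 0 ((G (r * y) : ℝ) : ℂ) ≤ |G (r * y)| :=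
      (min_le_left _ _).trans (Complex.norm_real _).le
    rw [Complex.ofReal_re, show H / r * (G' (r * y) * r) = H * G' (r * y) by field_simp]
    nlinarith [abs_nonneg (G (r * y))]
  · rw [sub_self, Complex.zero_im, abs_zero]
    exact mul_nonneg (mul_nonneg (p0.le.trans hι) (abs_nonneg _)) (s0 _)
  · rw [Complex.ofReal_im, abs_zero]
    exact mul_nonneg (p0.le.trans hι) (s0 _)

end WBIR

open WBIR PP2 in
theorem st_wbir (hNL : St_NL2) (hMI : St_MIC1) (hNW : St_NWB) (hN0 : St_NL0R) : St_WBIR := by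
  obtain ⟨K0, hK0, h1⟩ := hNL
  obtain ⟨σ, σp, σ1, h2⟩ := hNW K0 hK0
  obtain ⟨CN, hCN, c1, hc1, nl⟩ := h1 σ σp σ1
  obtain ⟨ιN, ιNp, nwb⟩ := h2 σ 0 0 σp le_rfl
  have e1 : 1 ≤ Real.exp 1 := Real.one_le_exp zero_le_one
  refine ⟨Real.exp 1 * CN, one_le_mul_of_one_le_of_one_le e1 hCN, fun c0 CD a0 a1 => ?_⟩
  obtain ⟨L0, mi⟩ := hMI c0 CD a0 a1
  refine ⟨max L0 2, fun L M8 Cth hL loc h8 => ?_⟩
  have L2 : 2 ≤ L := (le_max_right _ _).trans hL
  have q0 : 0 < 16 * M8 / ιN := by positivity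
  obtain ⟨M', hM', nl'⟩ := nl (2 * M8) (16 * M8 / ιN + 2 * M8) (by linarith) (by linarith)
  obtain ⟨σm, σmp, mi'⟩ := mi L M' Cth ((le_max_left _ _).trans hL) loc (by linarith)
  refine ⟨128 * M', by linarith, min σm 1, lt_min σmp one_pos, fun C0 Λ => ?_⟩
  obtain ⟨ι, ιp, n0⟩ := hN0 C0 Λ
  refine ⟨ι, ιp, ?_⟩
  intro X K P D0 G G' th ρ hρ hι dev hh dG G0 Gp Gg th1 th2 th3 np up an anB cls cnv wb O hO out
    y0 hy0 hK0' hz0
  have ρp : 0 < ρ := by linarith
  have Gd : ∀ s, 0 < s → s ≤ 4 * M8 → 0 ≤ G' s := fun s a b =>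
    nonneg_of_mul_nonneg_right ((Gp s a).le.trans (Gg s a b)) (lt_min σmp one_pos)
  have Gg1 : ∀ s, 0 < s → s ≤ 4 * M8 → G s ≤ 1 * G' s := fun s a b =>
    (Gg s a b).trans (mul_le_mul_of_nonneg_right (min_le_right _ _) (Gd s a b))
  have Ggm : ∀ s, 0 < s → s ≤ 4 * M8 → G s ≤ σm * G' s := fun s a b =>
    (Gg s a b).trans (mul_le_mul_of_nonneg_right (min_le_left _ _) (Gd s a b))
  have gr1 : ∀ s t, 0 < s → s ≤ t → t ≤ 4 * M8 → t - s ≤ Real.log (G t) - Real.log (G s) :=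
    fun s t a b c => by simpa using grow one_pos dG Gp Gg1 a b c
  have G2 : 0 < G (2 * M8) := Gp _ (by linarith)
  have lgm : ∀ c : ℝ, G (2 * M8) * Real.exp c = Real.exp (Real.log (G (2 * M8)) + c) := fun c => by
    rw [Real.exp_add, Real.exp_log G2]
  have g24 := gr1 (2 * M8) (4 * M8) (by linarith) (by linarith) le_rfl
  have imle : ∀ z : ℂ, 0 ≤ z.im → ∀ c, M8 ≤ c → hgt L D0 z ≤ c → z.im ≤ c := fun z a c b d => by
    rcases le_total M8 ‖z‖ with m | m
    · rwa [hh z a m] at d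
    · exact ((le_abs_self _).trans (Complex.abs_im_le_norm z)).trans (m.trans b)
  have sub2 : closedBall (0 : ℂ) (ρ / 2) ⊆ closedBall 0 ρ :=
    closedBall_subset_closedBall (by linarith)
  have Os : 0 < G (2 * M8) * Real.exp (-3) := by positivity
  have N0 := n0 X K P (max O (G (2 * M8) * Real.exp (-3))) ρ (lt_max_of_lt_right Os) ρp np an
    (fun y a b c => by
      have c' := (le_max_right _ _).trans_lt c
      obtain ⟨-, d1, d2, d3⟩ := cls y a b (norm_pos_iff.1 (Os.trans c'))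
      rw [abs_of_nonneg (up y a)]
      rcases le_or_gt (hgt L D0 y.1) (4 * M8) with m | m
      · refine ⟨(imle _ (up y a) _ (by linarith) m).trans (by linarith), ?_⟩
        rw [d2 m, bw_norm, lgm, Real.exp_lt_exp] at c'
        have h3 : 1 / 2 ≤ hgt L D0 y.1 := by
          by_contra hn
          have := gr1 _ (2 * M8) d1 (by linarith) (by linarith)
          linarith
        rw [d2 m, bw_real (Or.inl (th2 _ h3)), Complex.ofReal_im, abs_zero]
        positivity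
      · exact (d3 m).2)
    (fun x0 h => wb_lv (wb x0 h) Os.le (le_max_right _ _))
    (fun y a b c d => le_max_of_le_left (out y a b (by linarith) d))
  have hy0' : y0 ∈ ov X (closedBall 0 (ρ / 2)) := ⟨hy0, mem_closedBall_zero_iff.2 hz0⟩
  rcases le_total (G (2 * M8) * Real.exp (-3)) O with hc | hc
  · have h3 := N0 y0 hy0' hK0'
    rw [max_eq_left hc] at h3
    refine h3.trans ?_
    rw [mul_assoc]
    exact mul_le_mul_of_nonneg_left (le_mul_of_one_le_left hO hCN) (by linarith)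
  rw [max_eq_right hc] at N0
  have N1 : ∀ y ∈ ov X (closedBall 0 (ρ / 2)), y ∉ K →
      ‖P y‖ ≤ Real.exp (Real.log (G (2 * M8)) - 2) := fun y a b => by
    have h3 := N0 y a b
    rwa [lgm, ← Real.exp_add, show 1 + (Real.log (G (2 * M8)) + -3) =
      Real.log (G (2 * M8)) - 2 by ring] at h3
  have an2 : AnalyticOnNhd ℂ P (ov X (closedBall 0 (ρ / 2))) := fun y hy => an y ⟨hy.1, sub2 hy.2⟩
  obtain ⟨X', hX'⟩ : ∃ X' : Set E, X' = {x | x ∈ X ∧ (x.1 ∈ closedBall (0 : ℂ) (ρ / 2) →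
    ‖P x‖ ≤ Real.exp (Real.log (G (2 * M8)) - 1))} := ⟨_, rfl⟩
  have lt21 : Real.exp (Real.log (G (2 * M8)) - 2) < Real.exp (Real.log (G (2 * M8)) - 1) :=
    Real.exp_lt_exp.2 (by linarith)
  have np' : NP X' K (closedBall 0 (ρ / 2)) := hX' ▸ np_trunc
    (np_mono np isClosed_closedBall sub2) an2.continuousOn.norm fun y a b => (N1 y a b).trans_lt lt21
  have sX : X' ⊆ X := fun y a => by
    rw [hX'] at a
    exact a.1
  have bX : ∀ y ∈ X', y.1 ∈ closedBall (0 : ℂ) (ρ / 2) →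
      ‖P y‖ ≤ Real.exp (Real.log (G (2 * M8)) - 1) := fun y a => by
    rw [hX'] at a
    exact a.2
  have mX : ∀ y ∈ ov X (closedBall 0 (ρ / 2)), y ∉ K → y ∈ X' := fun y a b => by
    rw [hX']
    exact ⟨a.1, fun _ => ((N1 y a b).trans_lt lt21).le⟩
  have wall : ∀ y ∈ X', y.1 ∈ closedBall (0 : ℂ) (ρ / 2) → y ∈ K → 4 ≤ ‖y.1‖ → P y ≠ 0 →
      hgt L D0 y.1 ≤ 2 * M8 ∧ P y = (G (hgt L D0 y.1) : ℝ) := fun y a b c d f => by
    obtain ⟨-, d1, d2, d3⟩ := cls y ⟨sX a, sub2 b⟩ c f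
    have h3 := bX y a b
    rcases le_or_gt (hgt L D0 y.1) (4 * M8) with m | m
    · rw [d2 m, bw_norm, Real.exp_le_exp] at h3
      refine ⟨?_, by rw [d2 m, bw_real (Or.inr (far L2 d)), Real.exp_log (Gp _ d1)]⟩
      by_contra hn
      have := gr1 (2 * M8) _ (by linarith) (not_le.1 hn).le m
      linarith
    · have h4 := (d3 m).1.trans h3
      rw [← Real.exp_log (Gp (4 * M8) (by linarith)), Real.exp_le_exp] at h4
      linarith
  have sub3 : closedBall (0 : ℂ) (2 * M') ⊆ closedBall 0 (ρ / 2) :=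
    closedBall_subset_closedBall (by linarith)
  have MI := mi' X' K P D0 (fun s => Real.log (G s)) th (4 * M8) dev (by linarith)
    (fun s hs => ((dG s).log (Gp s hs.1).ne').continuousAt.continuousWithinAt)
    (fun s t a b c => grow σmp dG Gp Ggm a b c)
    (Real.tendsto_log_nhdsGT_zero.comp (tendsto_nhdsWithin_iff.2
      ⟨by
        have h := ((dG 0).continuousAt.continuousWithinAt (s := Ioi 0)).tendsto
        rwa [G0 0 le_rfl] at h,
        eventually_nhdsWithin_of_forall fun s hs => Gp s hs⟩))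
    th1 th2 th3 (np_mono np' isClosed_closedBall sub3)
    (fun y hy => le_trans (by norm_num) (up y ⟨sX hy.1, sub2 (sub3 hy.2)⟩))
    (fun y hy => an y ⟨sX hy.1, sub2 (sub3 hy.2)⟩) (fun y hy => anB y (sX hy))
    (fun y hy a b => by
      obtain ⟨d0, d1, d2, d3⟩ := cls y ⟨sX hy.1, sub2 (sub3 hy.2)⟩ a b
      refine ⟨d0, d1, d2, fun m => ?_⟩
      rw [Real.exp_log (Gp _ (by linarith))]
      exact (d3 m).1)
    (fun y hy => cnv y ⟨sX hy.1, sub2 (sub3 hy.2)⟩)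
    (fun y hy a => (N1 y ⟨sX hy.1, sub3 hy.2⟩ a).trans (Real.exp_le_exp.2 (by linarith)))
  have core : ∀ Y : Set E, Y ⊆ X' → NP Y K (closedBall 0 (ρ / 2)) → MIC (Y \ K) P M' →
      ∀ y ∈ Y, y ∉ K → M' ≤ ‖y.1‖ → ‖y.1‖ ≤ ρ / 2 → ‖P y‖ ≤ CN * O := by
    intro Y sY npY mic y a b c d
    refine nl' Y K P 0 (ρ / 2) ⟨npY, fun y hy => up y ⟨sX (sY hy.1), sub2 hy.2⟩,
      fun y hy => an y ⟨sX (sY hy.1), sub2 hy.2⟩, fun y hy hK h4 => ?_, fun x0 x1 x2 => ?_, mic⟩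
      le_rfl (by linarith) (by linarith) O hO
      (fun y a b c d => out y (sX (sY a)) b (by linarith) (by linarith)) y a b d ?_
    · refine or_iff_not_imp_left.2 fun h0 => ?_
      obtain ⟨w1, w2⟩ := wall y (sY hy.1) hy.2 hK h4 h0
      exact ⟨imle _ (up y ⟨sX (sY hy.1), sub2 hy.2⟩) _ (by linarith) w1,
        by rw [w2, Complex.ofReal_im, abs_zero, zero_mul]⟩
    · have rp : 0 < |x0| / 8 := by linarith
      have sb : box x0 (|x0| / 8) (|x0| / 8) ⊆ closedBall 0 (ρ / 2) := box_sub (by linarith)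
      have big : ∀ z ∈ box x0 (|x0| / 8) (|x0| / 8), M8 ≤ ‖z‖ := fun z hz => by
        have h3 := abs_sub_abs_le_abs_sub x0 z.re
        rw [abs_sub_comm] at h3
        linarith [hz.1, Complex.abs_re_le_norm z]
      have upb : ∀ y ∈ ov Y (box x0 (|x0| / 8) (|x0| / 8)), 0 ≤ y.1.im := fun y hy =>
        up y ⟨sX (sY hy.1), sub2 (sb hy.2)⟩
      have can : ∀ s : ℝ, |x0| / 8 * (s / (|x0| / 8)) = s := fun s => mul_div_cancel₀ s rp.ne'
      refine nwb Y K P x0 _ 0 rp (np_mono npY (box_cl _ _ _) sb)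
        ⟨P, fun _ => 0, 0, 2 * M8 / (|x0| / 8), 0, 2, _, _, Or.inr rfl, le_rfl,
          fun y hy => an y ⟨sX (sY hy.1), sub2 (sb hy.2)⟩, fun _ _ => analyticAt_const,
          fun _ _ => by simp, fun _ _ => by simpa using ιNp.le, fun y _ => by simp [pp, sq],
          pw_prof (G := G) (G' := G') rp (by linarith) ?_ dG G0 Gp
            (fun s a b => by simpa using Gg1 s a (by linarith)), fun _ _ => by simp,
          fun y hy hK h0 => ?_, fun y hy h0 h3 h4 => ?_⟩ le_rfl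
        (fun y hy _ => lt_of_lt_of_le (neg_lt_zero.2 (mul_pos σp rp)) (upb y hy)) (Or.inl rfl)
      · have h3 : 16 * M8 / ιN ≤ |x0| := by linarith
        rw [div_le_iff₀ ιNp] at h3
        rw [div_le_iff₀ rp]
        linarith
      · obtain ⟨w1, w2⟩ := wall y (sY hy.1) (sb hy.2) hK (h8.trans (big _ hy.2)) (norm_pos_iff.1 h0)
        rw [hh _ (upb y hy) (big _ hy.2)] at w1 w2
        refine ⟨?_, by simp only [can]; exact w2⟩
        rw [abs_of_nonneg (div_nonneg (upb y hy) rp.le)]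
        exact div_le_div_of_nonneg_right w1 rp.le
      · simp only [can] at h4
        have h5 := hh _ (upb y hy) (big _ hy.2)
        have h6 : 0 < y.1.im := by
          by_contra hn
          rw [h4, G0 _ (not_lt.1 hn)] at h0
          simp at h0
        have h7 : y.1.im ≤ 4 * M8 := by
          rw [abs_of_nonneg (div_nonneg h6.le rp.le), ← mul_div_assoc,
            div_le_div_iff_of_pos_right rp] at h3
          linarith
        refine cnv y ⟨sX (sY hy.1), sub2 (sb hy.2)⟩ (fun h => ?_) (h5 ▸ h6) (h5 ▸ h7) ?_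
        · have h9 := big _ hy.2
          rw [h, Complex.norm_I] at h9
          linarith
        · rw [bw_real (Or.inr (far L2 (h8.trans (big _ hy.2)))), h5, Real.exp_log (Gp _ h6), h4]
    · have h3 := norm_sub_norm_le y.1 Complex.I
      rw [Complex.norm_I] at h3
      linarith
  have outer : ∀ y ∈ X', y ∉ K → M' ≤ ‖y.1‖ → ‖y.1‖ ≤ ρ / 2 → ‖P y‖ ≤ CN * O := by
    by_cases hA : ∃ y ∈ X', y ∉ K ∧ M' ≤ ‖y.1‖ ∧ ‖y.1‖ ≤ 2 * M'
    · obtain ⟨y1, b1, b2, b3, b4⟩ := hA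
      exact core X' Subset.rfl np' fun O' h y a b _ =>
        MI O' ((norm_nonneg _).trans (h y1 ⟨b1, b2⟩ b3 b4))
          (fun y a b c d => h y ⟨a, b⟩ c d) y a.1 a.2 b
    · have gap : ∀ y ∈ X', y ∉ K → M' ≤ ‖y.1‖ → 2 * M' < ‖y.1‖ := fun y a b c =>
        not_le.1 fun d => hA ⟨y, a, b, c, d⟩
      intro y a b c d
      refine core {x | x ∈ X' ∧ 2 * M' ≤ ‖x.1‖} (fun x hx => hx.1) ⟨?_, fun x hx => hx.1,
        fun x hx hK => ?_⟩ (fun O' _ x hx h3 _ => absurd (hx.1.2.trans h3) (by linarith))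
        y ⟨a, (gap y a b c).le⟩ b c d
      · have e : ov {x | x ∈ X' ∧ 2 * M' ≤ ‖x.1‖} (closedBall 0 (ρ / 2)) =
            ov X' (closedBall 0 (ρ / 2)) ∩ {x | 2 * M' ≤ ‖x.1‖} :=
          Set.ext fun x => ⟨fun hx => ⟨⟨hx.1.1, hx.2⟩, hx.1.2⟩, fun hx => ⟨⟨hx.1.1, hx.2⟩, hx.1.2⟩⟩
        rw [e]
        exact np'.cpt.inter_right (isClosed_le continuous_const continuous_fst.norm)
      · rintro ⟨F, hF, hp⟩
        refine np'.np x ⟨hx.1.1, hx.2⟩ hK ⟨F, hF, ?_⟩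
        have h3 := continuous_fst.norm.continuousAt.eventually
          (lt_mem_nhds (gap x hx.1.1 hK (le_trans (by linarith) hx.1.2)))
        filter_upwards [hp, h3] with z u v hz using u ⟨hz, le_of_lt v⟩
  have CO : 0 ≤ CN * O := mul_nonneg (by linarith) hO
  rw [mul_assoc]
  rcases le_total M' ‖y0.1‖ with c | c
  · exact (outer y0 (mX y0 hy0' hK0') hK0' c hz0).trans (le_mul_of_one_le_left CO e1)
  · exact MI _ CO (fun y a b c d => outer y a b c (by linarith)) y0 (mX y0 hy0' hK0') hK0' c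

end Pool.Agent.Lib.SH
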