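import Pool.Agent.Lib.SH.Defs

/-!
Blueprint of the project SH, layers A to E (paper: 9ccfb7_h77.md, sections 1 to 5).
Each block proves `st_x (hypotheses St_...) : St_X`.
-/

open Set Filter Topology Metric

noncomputable section

namespace Pool.Agent.Lib.SH

/-! ### A. hull toolkit and barriers -/

def St_USC : Prop := ∀ Y N : Set E, IsCompact Y → hull Y ⊆ Y → IsOpen N → Y ⊆ N →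
  ∃ η > 0, hull (cthickening η Y) ⊆ N

def St_WERMER : Prop := ∀ (K : Set E) (u : E → ℂ) (x : E) (r : ℝ), IsCompact K → IsPoly u →
  x ∈ hull K → 0 < r →
  x ∈ hull ((hull K ∩ {y | r / 2 ≤ ‖u y - u x‖ ∧ ‖u y - u x‖ ≤ 3 * r / 4}) ∪
    (K ∩ {y | ‖u y - u x‖ ≤ r}))

def St_ROSSI : Prop := ∀ Y : Set E, IsCompact Y → ∀ y ∈ hull Y, y ∉ Y → ¬ Peak (hull Y) y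

def St_MP : Prop := ∀ (X K Z : Set E) (ψ : E → ℝ) (c : ℝ), NPZ X K Z → ContinuousOn ψ Z →
  (∀ y ∈ Z, c < ψ y → y ∉ K ∧ (∀ᶠ x in 𝓝 y, x ∈ X → x ∈ Z) ∧
    ∃ G : E → ℂ, AnalyticAt ℂ G y ∧ (G y).re = ψ y ∧ ∀ᶠ x in 𝓝 y, x ∈ X → (G x).re ≤ ψ x) →
  ∀ y ∈ Z, ψ y ≤ c

def St_MPRe : Prop := ∀ (X K Z : Set E) (ψ : E → ℝ) (c : ℝ), NPZ X K Z → LRe ψ Z →
  (∀ y ∈ Bd X K Z, ψ y ≤ c) → ∀ y ∈ Z, ψ y ≤ c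

def St_MPabs : Prop := ∀ (X K Z : Set E) (F : E → ℂ) (hh : E → ℝ) (c : ℝ), NPZ X K Z →
  AnalyticOnNhd ℂ F Z → LRe hh Z → 0 ≤ c →
  (∀ y ∈ Bd X K Z, ‖F y‖ * Real.exp (-hh y) ≤ c) → ∀ y ∈ Z, ‖F y‖ * Real.exp (-hh y) ≤ c

def St_PULL : Prop := ∀ (X K : Set E) (Ω Ω' : Set ℂ) (a : ℂ → ℂ), NP X K Ω → IsCompact Ω' →
  (∀ z ∈ Ω', AnalyticAt ℂ a z ∧ deriv a z ≠ 0 ∧ a z ∈ Ω) → NP (bc a ⁻¹' X) (bc a ⁻¹' K) Ω'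

def St_LBT : Prop := ∀ (f : ℂ → ℂ) (z1 : ℂ) (ρ : ℝ), ContDiffAt ℝ 1 f z1 → dbar f z1 ≠ 0 → 0 < ρ →
  ∃ r > 0, r ≤ ρ ∧ ∃ κ > 0, ∀ (X K : Set E) (g : ℂ → ℂ), IsClosed X →
    (∀ y ∈ X, ‖y.1 - z1‖ ≤ 2 * r → ‖y.2 - f y.1‖ ≤ r →
      (y ∉ K → ¬ Peak X y) ∧ (y ∈ K → y.2 = g y.1) ∧ ‖y.2 - f y.1‖ ≤ κ) →
    (∀ z ∈ closedBall z1 (2 * r), DifferentiableAt ℝ g z ∧ ‖g z - f z‖ ≤ κ ∧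
      ‖fderiv ℝ g z - fderiv ℝ f z‖ ≤ κ) →
    ∀ y ∈ X, ‖y.1 - z1‖ ≤ r → ‖y.2 - f y.1‖ ≤ r → y ∈ K

def St_SEC : Prop := ∀ (X K Z : Set E) (Q : E → ℂ) (g θ : ℝ), NPZ X K Z → AnalyticOnNhd ℂ Q Z →
  0 < g → g < 2 * Real.pi →
  (∀ y ∈ Bd X K Z, ‖Q y‖ ≤ 1 ∨ g / 2 ≤ |Complex.arg (Q y * Complex.exp (-(Complex.I * θ)))|) →
  ∀ y ∈ Z, ‖Q y‖ ≤ 1 ∨ g / 2 ≤ |Complex.arg (Q y * Complex.exp (-(Complex.I * θ)))|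

def St_TR : Prop := ∀ (X K Z : Set E) (Q : E → ℂ) (om : E → ℝ) (ε m : ℝ), NPZ X K Z →
  AnalyticOnNhd ℂ Q Z → LRe om Z → 0 < ε → (∀ y ∈ Z, |(Q y).im| ≤ ε) →
  (∀ y ∈ Bd X K Z, om y ≤ 0 ∨ (om y ≤ 1 ∧ (Q y).re ≤ m)) →
  ∀ y ∈ Z, 0 < om y → (Q y).re ≤ m + ε * Real.log (2 / om y)

def St_CONF : Prop := ∀ (X K Z : Set E) (Q : E → ℂ) (u : E → ℝ) (ε θ t h a : ℝ), NPZ X K Z →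
  AnalyticOnNhd ℂ Q Z → 0 < ε → 3 * ε < Real.pi → t < h →
  (∀ y ∈ Z, 1 < ‖Q y‖ → |Complex.arg (Q y * Complex.exp (-(Complex.I * θ)))| ≤ ε ∨
    2 * ε ≤ |Complex.arg (Q y * Complex.exp (-(Complex.I * θ)))|) →
  LRe u {y | y ∈ Z ∧ 1 ≤ ‖Q y‖ ∧ |Complex.arg (Q y * Complex.exp (-(Complex.I * θ)))| ≤ ε} →
  (∀ y ∈ Z, 1 ≤ ‖Q y‖ → |Complex.arg (Q y * Complex.exp (-(Complex.I * θ)))| ≤ ε → u y ≤ h) →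
  (∀ y ∈ Bd X K Z, 1 < ‖Q y‖ → |Complex.arg (Q y * Complex.exp (-(Complex.I * θ)))| ≤ ε →
    u y ≤ t) →
  ∀ y ∈ Z, 0 ≤ a → Real.exp a ≤ ‖Q y‖ →
    |Complex.arg (Q y * Complex.exp (-(Complex.I * θ)))| ≤ ε →
    u y ≤ t + 2 * (h - t) * Real.exp (-a / ε)

/-! ### B. walls -/

def St_ZP : Prop := ∀ a Λ C0 σ : ℝ, 0 < a → 0 < σ → σ ≤ 1 → ∃ t > 0,
  ∀ (X K : Set E) (V : E → ℂ) (g : ℂ → ℂ) (e ι' lev : ℝ) (Ψ Ψy : ℝ → ℝ → ℂ), 0 ≤ e →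
    NP X K (box 0 1 σ) → AnalyticOnNhd ℂ V (ov X (box 0 1 σ)) → AnalyticOnNhd ℂ g (box 0 1 σ) →
    (∀ ξ ∈ box 0 1 σ, ‖deriv g ξ‖ ≤ Λ) → PW (Icc (-1) 1) e t ι' C0 lev Ψ Ψy →
    (∀ ξ ∈ box 0 1 σ, lev * Real.exp (g ξ).re ≤ 1) →
    (∀ y ∈ ov X (box 0 1 σ), y ∈ K → 1 < ‖pp e (V y) * Complex.exp (g y.1)‖ →
      |y.1.im| ≤ ι' ∧ V y = Ψ y.1.re y.1.im) →
    (∀ y ∈ ov X (box 0 1 σ), 1 < ‖pp e (V y) * Complex.exp (g y.1)‖ → |y.1.im| ≤ 2 * ι' →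
      V y = Ψ y.1.re y.1.im → y ∈ K) →
    (∀ y ∈ ov X (box 0 1 σ), Real.exp (a / 4) ≤ ‖pp e (V y) * Complex.exp (g y.1)‖ →
      |y.1.im| ≤ t ∧ |(pp e (V y)).im| ≤ t * ‖pp e (V y)‖) →
    ∀ y ∈ ov X (box 0 (1 / 2) σ), Real.exp a ≤ ‖pp e (V y) * Complex.exp (g y.1)‖ → y ∈ K

def St_NW : Prop := ∀ η : ℝ, 0 < η → ∃ σ0 > 0, σ0 ≤ 1 ∧ ∀ σ T a Λ C0 : ℝ, 0 < σ → σ ≤ σ0 →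
  0 < T → 0 < a → ∃ ι > 0,
  ∀ (X K : Set E) (V : E → ℂ) (g : ℂ → ℂ) (e ι' lev θ0 : ℝ) (Ψ Ψy : ℝ → ℝ → ℂ), 0 ≤ e →
    NP X K (box 0 1 σ) → AnalyticOnNhd ℂ V (ov X (box 0 1 σ)) → AnalyticOnNhd ℂ g (box 0 1 σ) →
    (∀ ξ ∈ box 0 1 σ, ‖deriv g ξ‖ ≤ Λ) → (∀ x ∈ Icc (-1 : ℝ) 1, |(g x).im - θ0| ≤ ι) →
    PW (Icc (-1) 1) e ι ι' C0 lev Ψ Ψy →
    (∀ ξ ∈ box 0 1 σ, lev * Real.exp (g ξ).re ≤ 1) →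
    (∀ y ∈ ov X (box 0 1 σ), y ∈ K → 1 < ‖pp e (V y) * Complex.exp (g y.1)‖ →
      |y.1.im| ≤ ι' ∧ V y = Ψ y.1.re y.1.im) →
    (∀ y ∈ ov X (box 0 1 σ), 1 < ‖pp e (V y) * Complex.exp (g y.1)‖ → |y.1.im| ≤ 2 * ι' →
      V y = Ψ y.1.re y.1.im → y ∈ K) →
    (∀ y ∈ ov X (box 0 1 σ), y ∉ K → ‖pp e (V y) * Complex.exp (g y.1)‖ ≤ Real.exp T ∧
      (|y.1.im| = σ → ‖pp e (V y) * Complex.exp (g y.1)‖ ≤ 1)) →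
    ∀ y ∈ ov X (box 0 (1 / 2) σ), y ∉ K →
      ‖pp e (V y) * Complex.exp (g y.1)‖ ≤ Real.exp (a + η * T)

def St_NWB : Prop := ∀ K0 : ℝ, 1 < K0 → ∃ σ0 > 0, σ0 ≤ 1 ∧ ∀ σ C0 Λ : ℝ, 0 < σ → σ ≤ σ0 →
  ∃ ι > 0, ∀ (X K : Set E) (Q : E → ℂ) (x0 r lv : ℝ), 0 < r → NP X K (box x0 r r) →
    WB X K Q x0 r ι C0 Λ lv → 0 ≤ lv →
    (∀ y ∈ ov X (box x0 r r), y ∉ K → -(σ * r) < y.1.im) →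
    (lv = 0 ∨ ∃ y ∈ ov X (box x0 r (σ * r)), y ∉ K ∧ y.1.im = σ * r ∧ lv ≤ 16 * ‖Q y‖) →
    NWB (X \ K) Q K0 σ x0 r

def St_ZPB : Prop := ∀ a C0 Λ : ℝ, 0 < a → ∃ t > 0,
  ∀ (X K : Set E) (Q : E → ℂ) (x0 r lv lv' : ℝ), 0 < r → 0 ≤ lv' → lv' ≤ lv → 0 < lv →
    NP X K (box x0 r r) → WB X K Q x0 r t C0 Λ lv' →
    (∀ y ∈ ov X (box x0 r r), lv * Real.exp (a / 4) ≤ ‖Q y‖ →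
      |y.1.im| ≤ t * r ∧ |(Q y).im| ≤ t * ‖Q y‖) →
    ∀ y ∈ ov X (box x0 (r / 2) r), lv * Real.exp a ≤ ‖Q y‖ → y ∈ K

def St_TRIG : Prop := ∀ (f : ℂ → ℝ) (c : ℂ) (r B η : ℝ), 0 < r → 0 < η →
  UpperSemicontinuousOn f (sphere c r) → (∃ B0, ∀ z ∈ sphere c r, B0 ≤ f z) →
  (∀ z ∈ sphere c r, f z ≤ B) →
  ∃ p : Polynomial ℂ, (∀ z ∈ sphere (0 : ℂ) 1, f (c + r * z) ≤ (p.eval z).re ∧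
    (p.eval z).re ≤ B + η) ∧ (p.eval 0).re ≤ Real.circleAverage f c r + η

def St_AR : Prop := ∀ Λ C0 γ rb : ℝ, 0 < γ → 0 < rb → rb ≤ 1 / 8 → ∃ ι > 0,
  ∀ (W : Type) [Fintype W] (x : W → ℂ) (ρ0 : W → ℝ) (h : ℝ) (X K : Set E) (V : E → ℂ) (e : ℝ)
    (w : ℂ → ℝ), 0 ≤ e → 2 * rb ≤ h → h ≤ 1 → (∀ j, ‖x j‖ = 1 ∧ 4 * rb ≤ ρ0 j) →
    NP X K (annW h x ρ0) → AnalyticOnNhd ℂ V (ov X (annW h x ρ0)) → LRe1 w (annW h x ρ0) →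
    (∀ t : ℝ, (∀ j, 2 * ρ0 j ≤ ‖Complex.exp (Complex.I * t) - x j‖) →
      ∃ (g : ℂ → ℂ) (θ0 : ℝ), AnalyticOnNhd ℂ g (box 0 1 1) ∧
        (∀ ξ ∈ box 0 1 1, ‖deriv g ξ‖ ≤ Λ ∧
          (g ξ).re = w (Complex.exp (Complex.I * (t + rb * ξ)))) ∧
        ∀ s ∈ Icc (-1 : ℝ) 1, |(g s).im - θ0| ≤ ι) →
    AW X K V e ι C0 h x ρ0 →
    (∀ y ∈ ov X (annW h x ρ0), y ∉ K → ‖y.1‖ = Real.exp (-h) →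
      ‖pp e (V y)‖ * Real.exp (-w y.1) * ‖y.1‖ ^ (-γ) ≤ 1) →
    (∀ M : ℝ, 1 < M → (∀ y ∈ ov X (annW h x ρ0), y ∉ K →
        ‖pp e (V y)‖ * Real.exp (-w y.1) * ‖y.1‖ ^ (-γ) ≤ M) →
      ∀ y ∈ ov X (annW h x ρ0), y ∉ K → ∀ j, ‖y.1 - x j‖ ≤ 3 * ρ0 j →
        ‖pp e (V y)‖ * Real.exp (-w y.1) * ‖y.1‖ ^ (-γ) ≤ M / 2) →
    ∀ y ∈ ov X (annW h x ρ0), y ∉ K → ‖pp e (V y)‖ * Real.exp (-w y.1) * ‖y.1‖ ^ (-γ) ≤ 1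

def St_SL : Prop := ∀ (h : ℝ) (n : ℕ) (Λ0 η : ℝ), 0 < h → h ≤ 1 → 0 ≤ Λ0 → 0 < η →
  ∃ (Λ1 : ℝ) (κ0 : ℝ → ℝ), 0 ≤ Λ1 ∧ (∀ C, 1 ≤ C → 0 < κ0 C ∧ κ0 C ≤ 1 / (3 * C)) ∧
    ∀ κ : ℝ → ℝ, (∀ C, 1 ≤ C → 0 < κ C ∧ κ C ≤ κ0 C) → SLProp h n Λ0 η Λ1 κ

def St_PP : Prop := ∀ γ C0 : ℝ, 0 < γ → γ ≤ 1 / 2 → ∃ ι > 0,
  ∀ (X K : Set E) (N : E → ℂ) (e Mst B : ℝ), 0 ≤ e → NP X K (closedBall 0 1) →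
    AnalyticOnNhd ℂ N (ov X (closedBall 0 1)) → PPH X K N e γ ι C0 Mst → Mst ≤ B → 0 ≤ B →
    (∀ y ∈ X, y ∉ K → ‖y.1‖ = 1 → ‖pp e (y.1 * N y)‖ ≤ B) →
    ∀ y ∈ ov X (closedBall 0 1), y ∉ K → ‖pp e (y.1 * N y)‖ * ‖y.1‖ ^ γ ≤ B

/-! ### C. windows -/

def St_OMEGA : Prop := ∀ r : ℝ, 0 < r →
  (∃ G : ℂ → ℂ, ∀ z : ℂ, 0 < z.im → ‖z‖ ≤ r → AnalyticAt ℂ G z ∧ 0 ≤ (G z).re ∧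
    (‖z‖ = r → (G z).re = 1) ∧
    (‖z‖ ≤ r / 2 → (G z).re ≤ 2 * ‖z‖ / r ∧ (G z).re ≤ 4 * z.im / ‖z‖)) ∧
  (∃ G : ℂ → ℂ, ∀ z : ℂ, 0 < z.im → r ≤ ‖z‖ → AnalyticAt ℂ G z ∧ 0 ≤ (G z).re ∧
    (‖z‖ = r → (G z).re = 1) ∧
    (2 * r ≤ ‖z‖ → (G z).re ≤ 2 * r / ‖z‖ ∧ (G z).re ≤ 4 * z.im / ‖z‖))

def St_T3 : Prop := ∃ K0 > (1 : ℝ), ∀ σ : ℝ, 0 < σ → σ ≤ 1 → ∃ C1 > (0 : ℝ), ∃ ι0 > (0 : ℝ),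
  ∀ (X K : Set E) (P : E → ℂ) (L ι ρ K1 σ1 : ℝ), Act X K P L ι ρ K0 σ K1 σ1 → 10 ≤ L →
    0 < ι → ι ≤ ι0 → ∀ r1 r r2 : ℝ, 4 ≤ r1 → 8 * r1 ≤ r → 8 * r ≤ r2 → r2 ≤ ρ →
    ∀ y ∈ X, y ∉ K → r / 2 ≤ ‖y.1‖ → ‖y.1‖ ≤ r →
      ‖P y‖ ≤ supW (X \ K) P (4 * r) / 64 + C1 * (supW (X \ K) P r1 +
        supW (X \ K) P r2 * r ^ 2 / r2 ^ 2 + ι * supW (X \ K) P r2 * r / r1)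

def St_LL : Prop := ∀ η : ℝ, 0 < η → ∃ K1 > (1 : ℝ), ∀ σ1 : ℝ, 0 < σ1 → σ1 ≤ 1 →
  ∃ L0 : ℝ, ∀ L : ℝ, L0 ≤ L → ∃ M2 ≥ (64 : ℝ), ∃ ι0 > (0 : ℝ),
  ∀ (X K : Set E) (P : E → ℂ) (ι ρ K0 σ : ℝ), Act X K P L ι ρ K0 σ K1 σ1 →
    0 < ι → ι ≤ ι0 → M2 ≤ ρ → supW (X \ K) P 32 ≤ η * supW (X \ K) P M2

def St_QL : Prop := ∃ K0 > (1 : ℝ), ∀ σ : ℝ, 0 < σ → σ ≤ 1 → ∃ K1 > (1 : ℝ),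
  ∀ σ1 : ℝ, 0 < σ1 → σ1 ≤ 1 → ∃ L0 : ℝ, ∀ β L : ℝ, 0 < β → β ≤ 1 → L0 ≤ L →
  ∃ M ≥ (64 : ℝ), ∃ ι0 > (0 : ℝ),
  ∀ (X K : Set E) (P : E → ℂ) (ι ρ : ℝ), Act X K P L ι ρ K0 σ K1 σ1 →
    0 < ι → ι ≤ ι0 → M ≤ ρ → ∀ O : ℝ, 0 ≤ O →
    (∀ y ∈ X, y ∉ K → ρ / M ≤ ‖y.1‖ → ‖y.1‖ ≤ ρ → ‖P y‖ ≤ O) →
    ∀ r : ℝ, 8 ≤ r → r ≤ ρ → ∀ y ∈ X, y ∉ K → ‖y.1‖ ≤ r →
      ‖P y‖ ≤ M ^ 2 * (r / ρ) ^ (2 - β) * O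

def St_NL : Prop := ∀ γ : ℝ, 0 < γ → γ ≤ 1 → ∃ K0 > (1 : ℝ), ∀ σ t0 M7 : ℝ, 0 < σ → σ ≤ 1 →
  0 < t0 → 4 ≤ M7 → ∃ M' ≥ (8 : ℝ), ∃ M ≥ 2 * M', ∃ ι0 > (0 : ℝ),
  ∀ (X K : Set E) (Q : E → ℂ) (ι ρ : ℝ), Neu X K Q ι t0 ρ K0 σ M7 M' →
    0 ≤ ι → ι ≤ ι0 → M ≤ ρ → ∀ O : ℝ, 0 ≤ O →
    (∀ y ∈ X, y ∉ K → ρ / M ≤ ‖y.1‖ → ‖y.1‖ ≤ ρ → ‖Q y‖ ≤ O) →
    ∀ y ∈ X, y ∉ K → ‖y.1‖ ≤ ρ → 1 / 2 ≤ ‖y.1 - Complex.I‖ →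
      ‖Q y‖ ≤ 16 * (ρ / max 1 ‖y.1‖) ^ γ * O

def St_NL0 : Prop := ∀ C0 Λ : ℝ, ∃ ι > 0, ∀ (X K : Set E) (Q : E → ℂ) (O : ℝ), 0 < O →
  NP X K (closedBall 0 1) → AnalyticOnNhd ℂ Q (ov X (closedBall 0 1)) →
  (∀ y ∈ ov X (closedBall 0 1), y ∈ K → O < ‖Q y‖ → |y.1.im| ≤ ι ∧ |(Q y).im| ≤ ι * ‖Q y‖) →
  (∀ x0 : ℝ, |x0| ≤ 5 / 8 → WB X K Q x0 (1 / 8) ι C0 Λ O) →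
  (∀ y ∈ X, y ∉ K → 1 / 2 ≤ ‖y.1‖ → ‖y.1‖ ≤ 1 → ‖Q y‖ ≤ O) →
  ∀ y ∈ ov X (closedBall 0 (1 / 2)), y ∉ K → ‖Q y‖ ≤ Real.exp 1 * O

def St_MIC2 : Prop := ∃ L0 : ℝ, ∀ L M' C0 Λ : ℝ, L0 ≤ L → 2 ≤ M' → ∃ ι > 0,
  ∀ (X K : Set E) (Q : E → ℂ) (j : ℝ), (j = 1 ∨ j = 2) → NP X K (closedBall 0 (2 * M')) →
    (∀ y ∈ ov X (closedBall 0 (2 * M')), 0 ≤ y.1.im) →
    AnalyticOnNhd ℂ Q (ov X (closedBall 0 (2 * M'))) → (∀ y ∈ X, y.1 = Complex.I → Q y = 0) →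
    (∀ y ∈ ov X (closedBall 0 (2 * M')), y ∈ K → Q y ≠ 0 →
      (y.1.im ≤ ι ∧ |(Q y).im| ≤ ι * ‖Q y‖) ∨
      (‖bl y.1‖ ≤ Real.exp (-L + 1) ∧
        |(Q y * Complex.exp (-(Complex.I * (j * Real.pi / 4)))).im| ≤ 4 / L * ‖Q y‖)) →
    (∀ x0 : ℝ, |x0| ≤ M' → WB X K Q x0 (1 / 16) ι C0 Λ 0) →
    ∀ O : ℝ, 0 ≤ O → (∀ y ∈ X, y ∉ K → M' ≤ ‖y.1‖ → ‖y.1‖ ≤ 2 * M' → ‖Q y‖ ≤ O) →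
    ∀ y ∈ X, y ∉ K → ‖y.1‖ ≤ M' → Real.exp (-L + 2) ≤ ‖bl y.1‖ → ‖Q y‖ ≤ Real.exp 1 * O

/-- the local fact of the birth shape -/
def LocF (c0 CD L : ℝ) : Prop := ∀ D0 : ℂ → ℝ, Dev c0 CD L D0 → ∀ z0 : ℂ, -1 / 4 ≤ z0.im →
  Real.exp (-L - 4) ≤ ‖bl z0‖ → ∃ r > 0, r ≤ 1 / 8 ∧ r ≤ ‖z0 - Complex.I‖ / 4 ∧
    ∃ G : ℂ → ℂ, AnalyticOnNhd ℂ G (closedBall z0 r) ∧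
      (∀ z ∈ closedBall z0 r, (G z).im = z.im + Real.log ‖bl z‖ / L) ∧
      (∀ z ∈ sphere z0 r, c0 / L ≤ ‖G z - G z0‖) ∧
      (∀ z ∈ closedBall z0 r, |D0 z - D0 z0| ≤ ‖G z - G z0‖ / 4) ∧
      ∃ r' > 0, ∀ z ∈ ball z0 r', ∀ z' ∈ ball z0 r', |D0 z - D0 z'| ≤ ‖G z - G z'‖ / 4

def St_LOCF : Prop := ∃ c0 > (0 : ℝ), c0 ≤ 1 ∧ ∀ CD : ℝ, ∃ L0 : ℝ, ∀ L : ℝ, L0 ≤ L → LocF c0 CD L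

def St_MIC1 : Prop := ∀ c0 CD : ℝ, 0 < c0 → c0 ≤ 1 → ∃ L0 : ℝ, ∀ L M' Cth : ℝ, L0 ≤ L →
  LocF c0 CD L → 2 ≤ M' → ∃ σ0 > (0 : ℝ),
  ∀ (X K : Set E) (P : E → ℂ) (D0 : ℂ → ℝ) (a th : ℝ → ℝ) (Hm : ℝ), Dev c0 CD L D0 → 0 < Hm →
    ContinuousOn a (Ioc 0 Hm) → (∀ s t : ℝ, 0 < s → s ≤ t → t ≤ Hm → (t - s) / σ0 ≤ a t - a s) →
    Tendsto a (𝓝[>] 0) atBot → (∀ s t, |th s - th t| ≤ Cth * |s - t|) →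
    (∀ s, 1 / 2 ≤ s → th s = 0) → (∀ s, 0 ≤ th s ∧ th s ≤ Real.pi / 4) →
    NP X K (closedBall 0 (2 * M')) → (∀ y ∈ ov X (closedBall 0 (2 * M')), -1 / 8 ≤ y.1.im) →
    AnalyticOnNhd ℂ P (ov X (closedBall 0 (2 * M'))) →
    (∀ y ∈ X, y.1 = Complex.I → ∃ G : E → ℂ, AnalyticAt ℂ G y ∧
      ∀ᶠ x in 𝓝 y, P x = (x.1 - Complex.I) * G x) →
    (∀ y ∈ ov X (closedBall 0 (2 * M')), y ∈ K → P y ≠ 0 → y.1 ≠ Complex.I ∧ 0 < hgt L D0 y.1 ∧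
      (hgt L D0 y.1 ≤ Hm → P y = bw L D0 a th y.1) ∧
      (Hm < hgt L D0 y.1 → Real.exp (a Hm) ≤ ‖P y‖)) →
    (∀ y ∈ ov X (closedBall 0 (2 * M')), y.1 ≠ Complex.I → 0 < hgt L D0 y.1 →
      hgt L D0 y.1 ≤ Hm → P y = bw L D0 a th y.1 → y ∈ K) →
    (∀ y ∈ ov X (closedBall 0 (2 * M')), y ∉ K → ‖P y‖ ≤ Real.exp (a Hm - 2)) →
    ∀ O : ℝ, 0 ≤ O → (∀ y ∈ X, y ∉ K → M' ≤ ‖y.1‖ → ‖y.1‖ ≤ 2 * M' → ‖P y‖ ≤ O) →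
    ∀ y ∈ X, y ∉ K → ‖y.1‖ ≤ M' → ‖P y‖ ≤ Real.exp 1 * O

def St_LBZ : Prop := ∀ (S : Set E) (s : E) (Z Lg : E → ℂ) (D : E → ℝ) (a th : ℝ → ℝ) (c ε : ℝ),
  s ∈ S → AnalyticAt ℂ Z s → AnalyticAt ℂ Lg s → 0 < c → 0 < ε →
  ContinuousOn a (Icc ((Z s).im - D s - ε) ((Z s).im - D s + ε)) →
  (∀ u ∈ Icc ((Z s).im - D s - ε) ((Z s).im - D s + ε),
    ∀ t ∈ Icc ((Z s).im - D s - ε) ((Z s).im - D s + ε), u ≤ t →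
      c * (t - u) ≤ a t - a u ∧ |th t - th u| ≤ (a t - a u) / 2) →
  (∀ᶠ x in 𝓝 s, x ∈ S ↔ Lg x = a ((Z x).im - D x) + Complex.I * th ((Z x).im - D x)) →
  (∀ x ∈ ball s ε, ∀ x' ∈ ball s ε, |D x - D x'| ≤ ‖Z x - Z x'‖ / 4) →
  (∀ x' ∈ ball s ε, ∀ᶠ x in 𝓝[≠] x', Z x ≠ Z x' ∨ Lg x ≠ Lg x') →
  LB S s

/-! ### D. submean functions, curves, flux -/

def St_SM1 : Prop := ∀ (u hh : ℂ → ℝ) (Z : Set ℂ), IsCompact Z → UpperSemicontinuousOn u Z →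
  SMon u (interior Z) → LRe1 hh Z → (∀ z ∈ Z, z ∉ interior Z → u z ≤ hh z) →
  ∀ z ∈ Z, u z ≤ hh z

def St_SM2 : Prop := ∀ (u : ℂ → ℝ) (Ω : Set ℂ) (z : ℂ) (r : ℝ), IsOpen Ω → SMon u Ω → 0 < r →
  closedBall z r ⊆ Ω → u z ≤ Real.circleAverage u z r

def St_SM3 : Prop := ∀ (u : ℂ → ℝ) (c : ℂ) (a b : ℝ),
  SMon u {z | Real.exp a < ‖z - c‖ ∧ ‖z - c‖ < Real.exp b} →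
  ConvexOn ℝ (Ioo a b) fun s => Real.circleAverage u c (Real.exp s)

def St_SM4 : Prop := ∀ (u ψ : ℂ → ℝ) (Ω : Set ℂ), IsOpen Ω → SMon u Ω → ContDiff ℝ 2 ψ →
  HasCompactSupport ψ → tsupport ψ ⊆ Ω → (∀ z, 0 ≤ ψ z) →
  0 ≤ ∫ z, u z * Laplacian.laplacian ψ z

def St_RAD : Prop :=
  (∀ (β : ℝ → ℝ) (c z : ℂ), ContDiff ℝ 2 β → z ≠ c →
    Laplacian.laplacian (fun x : ℂ => β (Real.log ‖x - c‖)) z =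
      deriv (deriv β) (Real.log ‖z - c‖) / ‖z - c‖ ^ 2) ∧
  ∀ (u : ℂ → ℝ) (φ : ℝ → ℝ) (c : ℂ) (a b : ℝ), a ≤ b → Continuous φ →
    UpperSemicontinuousOn u {z | Real.exp a ≤ ‖z - c‖ ∧ ‖z - c‖ ≤ Real.exp b} →
    (∃ B, ∀ z : ℂ, Real.exp a ≤ ‖z - c‖ → ‖z - c‖ ≤ Real.exp b → |u z| ≤ B) →
    IntervalIntegrable (fun s => Real.circleAverage u c (Real.exp s)) MeasureTheory.volume a b ∧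
    ∫ z in {z : ℂ | Real.exp a ≤ ‖z - c‖ ∧ ‖z - c‖ ≤ Real.exp b},
        u z * (φ (Real.log ‖z - c‖) / ‖z - c‖ ^ 2) =
      2 * Real.pi * ∫ s in a..b, φ s * Real.circleAverage u c (Real.exp s)

def St_SM5 : Prop := ∀ (u : ℂ → ℝ) (c z0 : ℂ) (r : ℝ), 0 < r → SMon u (ball c (5 * r)) →
  (∀ z ∈ ball c (5 * r), u z ≤ 0) → z0 ∈ closedBall c r →
  MeasureTheory.IntegrableOn u (ball c (2 * r)) ∧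
    9 * Real.pi * r ^ 2 * u z0 ≤ ∫ z in ball c (2 * r), u z

def St_ENV : Prop := ∀ (X K : Set E) (F : E → ℂ) (hh : E → ℝ) (c : ℂ) (r N : ℝ),
  NP X K (closedBall c r) → AnalyticOnNhd ℂ F (ov X (closedBall c r)) →
  LRe hh (ov X (closedBall c r)) → (∀ y ∈ ov X (closedBall c r), y ∈ K → F y = 0) →
  SMon (env X (fun x => ‖F x‖ * Real.exp (-hh x)) N) (ball c r)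

def St_WIND : Prop :=
  (∀ (W : ℂ → ℂ) (a b : ℝ), 0 < a → a ≤ b →
    (∀ z : ℂ, a ≤ ‖z‖ → ‖z‖ ≤ b → AnalyticAt ℂ W z ∧ W z ≠ 0) →
    ∃ (k : ℤ) (g : ℂ → ℂ), (∀ z : ℂ, a ≤ ‖z‖ → ‖z‖ ≤ b → AnalyticAt ℂ g z ∧
      ∀ᶠ x in 𝓝 z, W x = x ^ k * Complex.exp (g x)) ∧
      ∀ r : ℝ, a ≤ r → r ≤ b → wind (fun z => W (r * z)) = k) ∧
  (∀ W1 W2 : ℂ → ℂ, (∀ z : ℂ, ‖z‖ = 1 → AnalyticAt ℂ W1 z ∧ W1 z ≠ 0 ∧ AnalyticAt ℂ W2 z ∧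
      W2 z ≠ 0) → wind (fun z => W1 z * W2 z) = wind W1 + wind W2 ∧
      wind (fun z => W1 z / W2 z) = wind W1 - wind W2 ∧ wind (fun z => W1 z⁻¹) = -wind W1) ∧
  (∀ W1 W2 : ℂ → ℂ, (∀ z : ℂ, ‖z‖ = 1 → AnalyticAt ℂ W1 z ∧ AnalyticAt ℂ W2 z ∧
      ‖W2 z - W1 z‖ < ‖W1 z‖) → wind W2 = wind W1) ∧
  (∀ W1 W2 : ℂ → ℂ, (∀ z : ℂ, ‖z‖ = 1 → W1 =ᶠ[𝓝 z] W2) → wind W1 = wind W2) ∧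
  (∀ W : ℂ → ℂ, (∀ z : ℂ, ‖z‖ ≤ 1 → AnalyticAt ℂ W z ∧ W z ≠ 0) → wind W = 0) ∧
  (∀ a : ℂ, (‖a‖ < 1 → wind (fun z => z - a) = 1) ∧ (1 < ‖a‖ → wind (fun z => z - a) = 0)) ∧
  ∀ (g : ℂ → ℂ) (a b : ℝ), 0 < a → a ≤ b → (∀ z : ℂ, a ≤ ‖z‖ → ‖z‖ ≤ b → AnalyticAt ℂ g z) →
    Real.circleAverage (fun z => (g z).re) 0 a = Real.circleAverage (fun z => (g z).re) 0 b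

/-- derivative of `H` along the curve `P = 0` -/
def jac (P H : E → ℂ) (y : E) : ℂ :=
  fderiv ℂ H y (fderiv ℂ P y (0, 1), -fderiv ℂ P y (1, 0))

def St_IFT : Prop :=
  (∀ (P : E → ℂ) (y : E), AnalyticAt ℂ P y → dw P y = fderiv ℂ P y (0, 1)) ∧
  (∀ (P : E → ℂ) (y : E), AnalyticAt ℂ P y → P y = 0 → dw P y ≠ 0 →
    ∃ w : ℂ → ℂ, AnalyticAt ℂ w y.1 ∧ w y.1 = y.2 ∧ ∀ᶠ x in 𝓝 y, P x = 0 ↔ x.2 = w x.1) ∧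
  ∀ (P : E → ℂ) (y : E), AnalyticAt ℂ P y → P y = 0 → fderiv ℂ P y ≠ 0 →
    ∃ (τ : E → ℂ) (φ : ℂ → E), AnalyticAt ℂ τ y ∧ τ y = 0 ∧ AnalyticAt ℂ φ 0 ∧ φ 0 = y ∧
      (∀ᶠ t in 𝓝 (0 : ℂ), P (φ t) = 0 ∧ τ (φ t) = t) ∧ ∀ᶠ x in 𝓝 y, P x = 0 → φ (τ x) = x

def St_CID : Prop := ∀ Γ : Curve, Γ.OK →
  Γ.loops ⊆ Γ.G ∧ IsCompact Γ.loops ∧
  (∀ F : E → ℂ, AnalyticOnNhd ℂ F Γ.G → (∃ y ∈ Γ.G, F y ≠ 0) → {y | y ∈ Γ.G ∧ F y = 0}.Finite) ∧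
  (∀ T : Set E, T.Finite → IsPreconnected ((Γ.G \ Γ.loops) \ T) ∧
    Γ.G ⊆ closure ((Γ.G \ Γ.loops) \ T)) ∧
  {y | y ∈ Γ.G ∧ dw Γ.P y = 0}.Finite ∧ ∀ z : ℂ, {w | (z, w) ∈ Γ.G}.Finite

def St_CMAX : Prop := ∀ Γ : Curve, Γ.OK → Γ.G ⊆ hull Γ.loops

def St_GEO : Prop := ∀ Γ : Curve, Γ.OK → ∀ (T : Finset E) (ε : ℝ), 0 < ε →
  (∀ b ∈ T, b ∈ Γ.G ∧ b ∉ Γ.loops) → ∃ g : Geo, g.OK Γ ∧ T ⊆ g.Pi ∧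
    (∀ b ∈ g.Pi, b ∈ T ∨ dw Γ.P b = 0) ∧ g.h ≤ ε ∧ g.r1 ≤ ε ∧ g.rv ≤ ε

def St_TRSM : Prop := ∀ (Γ : Curve) (g : Geo), Γ.OK → g.OK Γ → ∀ b ∈ g.Pi,
  (∃ m : ℕ, (dw Γ.P b ≠ 0 → m = 1) ∧ ∀ z : ℂ, z ≠ b.1 → ‖z - b.1‖ ≤ 2 * g.r1 →
    {w : ℂ | (z, w) ∈ Γ.G ∧ ‖w - b.2‖ ≤ g.rv}.ncard = m) ∧
  ∀ (u : E → ℝ) (a r : ℝ), a ≤ g.h → 0 < r → CSM (g.reg Γ a r) u →
    SMon (g.tr Γ b u) {z | r < ‖z - b.1‖ ∧ ‖z - b.1‖ < 2 * g.r1}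

def St_FLUX : Prop := ∀ (Γ : Curve) (g : Geo), Γ.OK → g.OK Γ →
  ∀ (u : E → ℝ) (k : Γ.ι → ℝ) (kb : E → ℝ), CSM (g.reg Γ (g.h / 16) (g.r1 / 4)) u →
    (∀ j, ∀ s ∈ Icc (g.h / 8) (g.h / 4),
      (Γ.lp j).mean u s - (Γ.lp j).mean u (s + g.h / 2) ≤ k j * (g.h / 2)) →
    (∀ b ∈ g.Pi, ∀ s ∈ Icc (Real.log g.r1 - 3 / 4) (Real.log g.r1 - 1 / 2),
      g.mean Γ b u s - g.mean Γ b u (s + 1 / 4) ≤ kb b * (1 / 4)) →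
    0 ≤ (∑ j, k j) + ∑ b ∈ g.Pi, kb b

def St_HAR : Prop := ∀ (Γ : Curve) (g : Geo), Γ.OK → g.OK Γ → ∃ Λ > (0 : ℝ),
  ∀ (u : E → ℝ) (C : ℝ), 0 ≤ C → CSM (g.reg Γ (g.h / 16) (g.r1 / 4)) u →
    (∀ y ∈ g.reg Γ (g.h / 16) (g.r1 / 4), u y ≤ C) → (∃ y ∈ g.core Γ, -1 ≤ u y) →
    (∀ j, ∀ s ∈ Icc (g.h / 8) g.h, -(Λ * (C + 1)) ≤ (Γ.lp j).mean u s) ∧
    ∀ b ∈ g.Pi, ∀ s ∈ Icc (Real.log g.r1 - 1) (Real.log g.r1), -(Λ * (C + 1)) ≤ g.mean Γ b u s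

def St_FT : Prop := ∀ (Γ : Curve) (g : Geo), Γ.OK → g.OK Γ → ∀ C Λk η : ℝ, 0 ≤ C → 0 < η →
  ∃ r2 > (0 : ℝ), r2 ≤ g.r1 / 8 ∧ ∀ (u : E → ℝ) (k : Γ.ι → ℝ) (kb : E → ℝ),
    CSM (g.reg Γ (g.h / 16) r2) u → (∀ y ∈ g.reg Γ (g.h / 16) (g.r1 / 4), u y ≤ C) →
    (∃ y ∈ g.core Γ, -1 ≤ u y) →
    (∀ j, ∀ s ∈ Icc (g.h / 8) (g.h / 4),
      (Γ.lp j).mean u s - (Γ.lp j).mean u (s + g.h / 2) ≤ k j * (g.h / 2)) →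
    (∀ b ∈ g.Pi, |kb b| ≤ Λk ∧ (kb b = 0 ∨ dw Γ.P b ≠ 0) ∧
      ∀ y ∈ Γ.G, y ∈ pbox b g.r1 g.rv → r2 < ‖y.1 - b.1‖ →
        u y ≤ C + kb b * Real.log (g.r1 / ‖y.1 - b.1‖)) →
    -η ≤ (∑ j, k j) + ∑ b ∈ g.Pi, kb b

def St_ARG : Prop := ∀ (Γ : Curve), Γ.OK → ∀ (H : E → ℂ) (T : Finset E), AnalyticOnNhd ℂ H Γ.G →
  (∀ y ∈ Γ.loops, H y ≠ 0) → (∀ y, y ∈ T ↔ y ∈ Γ.G ∧ H y = 0) →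
  (∀ y ∈ T, dw Γ.P y ≠ 0 ∧ jac Γ.P H y ≠ 0) → ∑ j, (Γ.lp j).wd H = T.card

def St_PART : Prop := ∀ (Γ : Curve) (g : Geo), Γ.OK → g.OK Γ → ∀ Cup Λk : ℝ, 0 ≤ Cup → 0 ≤ Λk →
  ∃ Λ0 ≥ (0 : ℝ), ∃ r2 > (0 : ℝ), r2 ≤ g.r1 / 8 ∧ ∃ R0 > (0 : ℝ), PartProp Γ g Cup Λk Λ0 r2 R0

end Pool.Agent.Lib.SH
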