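import Pool.Agent.Lib.SH.Blue1

/-!
Blueprint of the project SH, repairs: port lemma with an upper cut, neutral lemma without loss.
-/

open Set Filter Topology Metric

noncomputable section

namespace Pool.Agent.Lib.SH

/-- port hypotheses on the unit disc for the levels in `(Mst, Mup]` -/
def PPH2 (X K : Set E) (N : E → ℂ) (e γ ι C0 Mst Mup : ℝ) : Prop :=
  ∀ M : ℝ, Mst < M → M ≤ Mup → ∃ (η ι' lev : ℝ) (Ψ Ψy : ℝ → ℝ → ℂ), η ≤ -1 ∧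
    PW univ e ι ι' C0 lev Ψ Ψy ∧ lev ≤ M * Real.exp (-γ * η - 1) ∧
    (∀ y ∈ ov X (closedBall 0 1), y ∈ K →
      M / Real.exp 1 < ‖pp e (y.1 * N y)‖ * ‖y.1‖ ^ γ →
      ‖pp e (y.1 * N y)‖ * ‖y.1‖ ^ γ ≤ Real.exp 1 * M →
      |Real.log ‖y.1‖ - η| ≤ ι' ∧ ∀ t s : ℝ,
        y.1 = Complex.exp (η - Complex.I * (t + s * Complex.I)) → y.1 * N y = Ψ t s) ∧
    (∀ y ∈ ov X (closedBall 0 1), M / Real.exp 1 < ‖pp e (y.1 * N y)‖ * ‖y.1‖ ^ γ →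
      ∀ t s : ℝ, |s| ≤ 2 * ι' → y.1 = Complex.exp (η - Complex.I * (t + s * Complex.I)) →
        y.1 * N y = Ψ t s → y ∈ K) ∧
    (∀ y ∈ ov X (closedBall 0 1), y ∈ K → ‖y.1‖ ≤ Real.exp η →
      ‖pp e (y.1 * N y)‖ * ‖y.1‖ ^ γ ≤ M / Real.exp 1 →
      ‖N y * (y.1 * N y - e)‖ ≤ M * Real.exp (-(1 + γ) * η))

def St_PP2 : Prop := ∀ γ C0 : ℝ, 0 < γ → γ ≤ 1 / 2 → ∃ ι > 0,
  ∀ (X K : Set E) (N : E → ℂ) (e Mst Mup B : ℝ), 0 ≤ e → NP X K (closedBall 0 1) →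
    AnalyticOnNhd ℂ N (ov X (closedBall 0 1)) → PPH2 X K N e γ ι C0 Mst Mup → Mst ≤ B → 0 ≤ B →
    (∀ y ∈ ov X (closedBall 0 1), y ∉ K → ‖pp e (y.1 * N y)‖ * ‖y.1‖ ^ γ ≤ Mup) →
    (∀ y ∈ X, y ∉ K → ‖y.1‖ = 1 → ‖pp e (y.1 * N y)‖ ≤ B) →
    ∀ y ∈ ov X (closedBall 0 1), y ∉ K → ‖pp e (y.1 * N y)‖ * ‖y.1‖ ^ γ ≤ B

/-- neutral lemma without loss (chain of discs; ref83 G1) -/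
def St_NL2 : Prop := ∃ K0 > (1 : ℝ), ∀ σ : ℝ, 0 < σ → σ ≤ 1 → ∃ CN ≥ (1 : ℝ), ∃ c0 > (0 : ℝ),
  ∀ t0 M7 : ℝ, 0 < t0 → 4 ≤ M7 → ∃ M' ≥ (8 : ℝ),
  ∀ (X K : Set E) (Q : E → ℂ) (ι ρ : ℝ), Neu X K Q ι t0 ρ K0 σ M7 M' →
    0 ≤ ι → ι * (1 + Real.log ρ) ≤ c0 → 64 * M' ≤ ρ → ∀ O : ℝ, 0 ≤ O →
    (∀ y ∈ X, y ∉ K → ρ / 8 ≤ ‖y.1‖ → ‖y.1‖ ≤ ρ → ‖Q y‖ ≤ O) →
    ∀ y ∈ X, y ∉ K → ‖y.1‖ ≤ ρ → 1 / 2 ≤ ‖y.1 - Complex.I‖ → ‖Q y‖ ≤ CN * O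

end Pool.Agent.Lib.SH
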