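import Pool.Agent.Lib.SH.Blue1b
import Pool.Agent.Lib.CF.Defs

/-!
Blueprint of the project SH, glue layer: end lemmas, window packages, tube geometry.
-/

open Set Filter Topology Metric

noncomputable section

namespace Pool.Agent.Lib.SH

/-- local barrier property at all small scales -/
def LB2 (S : Set E) (s : E) : Prop :=
  ∀ r > 0, ∃ η > 0, ∀ X K : Set E, IsClosed X → (∀ y ∈ X, y ∈ ball s r → y ∉ K → ¬ Peak X y) →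
    K ∩ ball s r ⊆ S → X ∩ ball s r ⊆ cthickening η S → X ∩ ball s η ⊆ K

def St_LBZ2 : Prop := ∀ (S : Set E) (s : E) (Z Lg : E → ℂ) (D : E → ℝ) (a th : ℝ → ℝ) (c ε : ℝ),
  s ∈ S → AnalyticAt ℂ Z s → AnalyticAt ℂ Lg s → 0 < c → 0 < ε →
  ContinuousOn a (Icc ((Z s).im - D s - ε) ((Z s).im - D s + ε)) →
  (∀ u ∈ Icc ((Z s).im - D s - ε) ((Z s).im - D s + ε),
    ∀ t ∈ Icc ((Z s).im - D s - ε) ((Z s).im - D s + ε), u ≤ t →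
      c * (t - u) ≤ a t - a u ∧ |th t - th u| ≤ (a t - a u) / 2) →
  (∀ᶠ x in 𝓝 s, x ∈ S ↔ Lg x = a ((Z x).im - D x) + Complex.I * th ((Z x).im - D x)) →
  (∀ x ∈ ball s ε, ∀ x' ∈ ball s ε, |D x - D x'| ≤ ‖Z x - Z x'‖ / 4) →
  (∀ x' ∈ ball s ε, ∀ᶠ x in 𝓝[≠] x', Z x ≠ Z x' ∨ Lg x ≠ Lg x') →
  LB2 S s

/-- points at vertical distance at most `R` from the graph of `w` -/
def near (X : Set E) (w : ℂ → ℂ) (R : ℝ) : Set E := {x | x ∈ X ∧ ‖x.2 - w x.1‖ ≤ R}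

/-- normalised chart of a loop end; the curve side is `‖z‖ ≤ 1` and the depth is `-log ‖z‖` -/
def ech (l : CF.End) (z : ℂ) : ℂ := if l.k = CF.Kind.out then l.c + l.r * z else l.c + l.r / z

/-- all hypotheses of the slope lemma at a loop, in the chart of the loop, together with the
comparison of `φ` and `q = pp e V * m` -/
def LoopHyp {W : Type} (X K : Set E) (φ : E → ℝ) (l : CF.End) (V : E → ℂ) (m g : ℂ → ℂ)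
    (e h R : ℝ) (n : ℕ) (x : W → ℂ) (ρ ρ0 ex Cw : W → ℝ) (ι C0 Cm Λw a k0 τ thr : ℝ) : Prop :=
  0 ≤ e ∧ NP (bc (ech l) ⁻¹' near X l.w R) (bc (ech l) ⁻¹' K) (annW h x ρ0) ∧
  AnalyticOnNhd ℂ V (ov (bc (ech l) ⁻¹' near X l.w R) (annW h x ρ0)) ∧
  AnalyticOnNhd ℂ m (annW h x ρ0) ∧
  (∀ z ∈ annW h x ρ0, m z ≠ 0 ∧ ‖deriv m z / m z‖ ≤ Cm ∧
    (‖z‖ = 1 → |(z * deriv m z / m z).re| ≤ ι)) ∧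
  AW (bc (ech l) ⁻¹' near X l.w R) (bc (ech l) ⁻¹' K) V e ι C0 h x ρ0 ∧
  (∀ j, ∃ rmin Omin : ℝ, GP (bc (ech l) ⁻¹' near X l.w R \ bc (ech l) ⁻¹' K)
      (fun y => ‖pp e (V y) * m y.1‖) (x j) (ex j) (Cw j) rmin (ρ j) Omin ∧ rmin ≤ ρ0 j ∧
      Omin ≤ Cw j * (thr * Real.exp (-(g (Real.exp (-h))).re)) ^ (1 / a) * ρ j ^ (4 * n)) ∧
  |k0| ≤ Λw ∧
  (∀ z : ℂ, Real.exp (-h) ≤ ‖z‖ → ‖z‖ ≤ Real.exp (-(h / 16)) →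
    AnalyticAt ℂ g z ∧ |(g z).re - (g (Real.exp (-h))).re| ≤ Λw) ∧
  ∀ y ∈ bc (ech l) ⁻¹' near X l.w R, Real.exp (-h) ≤ ‖y.1‖ → ‖y.1‖ ≤ Real.exp (-(h / 16)) →
    (y ∈ bc (ech l) ⁻¹' K → φ (bc (ech l) y) = 0) ∧ (y ∉ bc (ech l) ⁻¹' K →
    φ (bc (ech l) y) ≤
      Real.exp τ * (‖pp e (V y) * m y.1‖ ^ a * Real.exp (g y.1).re * ‖y.1‖ ^ k0) ∧
    ‖pp e (V y) * m y.1‖ ^ a * Real.exp (g y.1).re * ‖y.1‖ ^ k0 ≤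
      Real.exp τ * φ (bc (ech l) y))

/-- the slope lemma gives the slope property `SLH`, the upper bound on the collar and the
bound on the whole end region -/
def St_ENDL : Prop := ∀ (h : ℝ) (n : ℕ) (Λw Λ0 η Λ1 : ℝ) (κ : ℝ → ℝ), 0 < h → h ≤ 1 → 0 ≤ Λw →
  0 ≤ Λ0 → 0 < η → 0 ≤ Λ1 → SLProp h n (2 * (Λ0 + 2 * Λw + 1)) η Λ1 κ →
  ∀ (W : Type) [Fintype W] (x : W → ℂ) (ρ ex Cw : W → ℝ), Fintype.card W ≤ n →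
    (∀ j, ‖x j‖ = 1 ∧ 0 < ρ j ∧ ρ j ≤ h / 8 ∧ |ex j| ≤ 4 ∧ 1 ≤ Cw j ∧ 0 < κ (Cw j) ∧
      κ (Cw j) ≤ 1 / 3) →
    (∀ j k, j ≠ k → 2 * ρ j ≤ ‖x j - x k‖) →
    ∀ C0 Cm : ℝ, ∃ ι > 0, ∀ (X K : Set E) (φ : E → ℝ) (l : CF.End) (V : E → ℂ) (m g : ℂ → ℂ)
      (e R a k0 τ thr : ℝ), l.k ≠ CF.Kind.pt → 0 < l.r → 1 / 2 ≤ a → a ≤ 1 → 0 ≤ τ → τ ≤ 1 →
      0 ≤ thr →
      LoopHyp X K φ l V m g e h R n x ρ (fun j => κ (Cw j) * ρ j) ex Cw ι C0 Cm Λw a k0 τ thr →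
      ∀ lv : ℝ, 0 < lv → thr ≤ lv →
      (∀ B Λ κ' : ℝ, B ≤ Λ0 → Λ ≤ Λ0 → k0 - a * (∑ j, ex j) / 2 + (η + 2 * τ) * 2 / h ≤ κ' →
        CF.SLH l X (fun y => φ y / lv) R h B Λ κ') ∧
      ((∀ y ∈ near X l.w R, y ∉ K → y.1 ∈ l.ann {h} → φ y ≤ lv) →
        (∀ y ∈ near X l.w R, y.1 ∈ l.ann (Icc (h / 16) h) →
          φ y ≤ lv * Real.exp (Λ1 + 2 * Λw + 1)) ∧
        ∀ y ∈ ov (bc (ech l) ⁻¹' near X l.w R) (annW h x fun j => κ (Cw j) * ρ j),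
          y ∉ bc (ech l) ⁻¹' K → ∀ d : ℝ, 0 < d → d ≤ 1 → (∀ j, d ≤ ‖y.1 - x j‖) →
          ‖pp e (V y) * m y.1‖ ≤ (lv * Real.exp (-(g (Real.exp (-h))).re)) ^ (1 / a) *
            Real.exp Λ1 * d⁻¹ ^ (5 * n))

/-- macro port: bound on the long annulus from the bound on the core circle -/
def St_ENDP : Prop := ∀ γ C0 : ℝ, 0 < γ → γ ≤ 1 / 2 → ∃ ι > 0,
  ∀ (X K : Set E) (φ : E → ℝ) (N : E → ℂ) (w : ℂ → ℂ) (p : ℂ) (r1 R e Mst Mup a Λw G0 r lv : ℝ),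
    0 < r1 → 0 ≤ e → 1 / 2 ≤ a → a ≤ 1 → 0 < G0 → 0 < r → r ≤ 1 → 0 ≤ Mst → 0 ≤ Λw → 0 < lv →
    Mst ^ a * G0 ≤ lv →
    NP (bc (fun z => p + r1 * z) ⁻¹' near X w R) (bc (fun z => p + r1 * z) ⁻¹' K)
      (closedBall 0 1) →
    AnalyticOnNhd ℂ N (ov (bc (fun z => p + r1 * z) ⁻¹' near X w R) (closedBall 0 1)) →
    PPH2 (bc (fun z => p + r1 * z) ⁻¹' near X w R) (bc (fun z => p + r1 * z) ⁻¹' K)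
      N e γ ι C0 Mst Mup →
    (∀ y ∈ ov (bc (fun z => p + r1 * z) ⁻¹' near X w R) (closedBall 0 1),
      y ∉ bc (fun z => p + r1 * z) ⁻¹' K → ‖pp e (y.1 * N y)‖ * ‖y.1‖ ^ γ ≤ Mup ∧
      (r ≤ ‖y.1‖ →
        φ (bc (fun z => p + r1 * z) y) ≤
          Real.exp Λw * G0 * ‖pp e (y.1 * N y)‖ ^ a * ‖y.1‖⁻¹ ^ (2 * a) ∧
        G0 * ‖pp e (y.1 * N y)‖ ^ a * ‖y.1‖⁻¹ ^ (2 * a) ≤
          Real.exp Λw * φ (bc (fun z => p + r1 * z) y))) →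
    (∀ x ∈ near X w R, x ∉ K → ‖x.1 - p‖ = r1 → φ x ≤ lv) →
    (∀ x ∈ near X w R, x ∉ K → r * r1 ≤ ‖x.1 - p‖ → ‖x.1 - p‖ ≤ r1 →
      φ x ≤ lv * Real.exp (2 * Λw) * (r1 / ‖x.1 - p‖) ^ (a * (2 + γ))) ∧
    ∀ y ∈ ov (bc (fun z => p + r1 * z) ⁻¹' near X w R) (closedBall 0 1),
      y ∉ bc (fun z => p + r1 * z) ⁻¹' K →
      ‖pp e (y.1 * N y)‖ * ‖y.1‖ ^ γ ≤ (lv * Real.exp Λw / G0) ^ (1 / a)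

/-- window chart: unit `δ`, reference circle at height `yr` -/
def wch (x : ℂ) (δ yr : ℝ) (z : ℂ) : ℂ :=
  x * Complex.exp (Complex.I * (δ * z + yr * Complex.I))

/-- from a bound in the window chart to the gain property in the annulus chart -/
def St_WCONV : Prop := ∀ (D : Set E) (q : E → ℝ) (x : ℂ) (δ yr ρ ex C M Omin : ℝ), ‖x‖ = 1 →
  0 < δ → 0 < ρ → ρ ≤ 1 / 8 → 0 ≤ ex → ex ≤ 4 → 1 ≤ C → 1 ≤ M → 0 ≤ Omin →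
  1000 * M * (δ + |yr|) ≤ ρ →
  (∀ O : ℝ, Omin ≤ O →
    (∀ y ∈ bc (wch x δ yr) ⁻¹' D, ρ / (2 * δ) / M ≤ ‖y.1‖ → ‖y.1‖ ≤ ρ / (2 * δ) →
      q (bc (wch x δ yr) y) ≤ O) →
    ∀ r : ℝ, 8 ≤ r → r ≤ ρ / (2 * δ) / 2 → ∀ y ∈ bc (wch x δ yr) ⁻¹' D, 2 ≤ ‖y.1‖ → ‖y.1‖ ≤ r →
      q (bc (wch x δ yr) y) ≤ C * (r / (ρ / (2 * δ))) ^ ex * O) →
  GP D q x ex (10000 * C * M) (100 * (δ + |yr|)) ρ Omin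

/-- wall structure in a box, with a level which is zero or is dominated by points of `X \ K`
over all heights -/
def WBL (X K : Set E) (Q : E → ℂ) (x0 r ι C0 Λ : ℝ) : Prop :=
  ∃ lv : ℝ, 0 ≤ lv ∧ WB X K Q x0 r ι C0 Λ lv ∧ (lv = 0 ∨ ∀ s : ℝ, ι ≤ s → s ≤ 1 →
    ∃ y ∈ ov X (box x0 r r), y ∉ K ∧ y.1.im = s * r ∧ lv ≤ 16 * ‖Q y‖)

/-- hypotheses of an active window in terms of walls -/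
structure ActH (X K : Set E) (P : E → ℂ) (L ι ρ C0 Λ : ℝ) : Prop where
  np : NP X K (closedBall 0 ρ)
  up : ∀ y ∈ ov X (closedBall 0 ρ), 0 ≤ y.1.im
  an : AnalyticOnNhd ℂ P (ov X (closedBall 0 ρ))
  anB : ∀ y ∈ X, y.1 = Complex.I → ∃ G : E → ℂ, AnalyticAt ℂ G y ∧
    ∀ᶠ x in 𝓝 y, P x = (x.1 - Complex.I) * G x
  cls : ∀ y ∈ ov X (closedBall 0 ρ), y ∈ K → P y = 0 ∨
    (y.1.im ≤ ι ∧ |Complex.arg (P y)| ≤ ι) ∨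
    (|Real.log ‖bl y.1‖ + L| ≤ 1 ∧ y.1 ≠ Complex.I ∧ |Complex.arg (P y) - Real.pi / 4| ≤ 1 / L) ∨
    (‖bl y.1‖ ≤ Real.exp (-L + 1) ∧ ‖P y‖ ≤ ι * supW (X \ K) P 8 * Real.exp L * ‖bl y.1‖)
  wb : ∀ x0 : ℝ, 4 ≤ |x0| → |x0| ≤ ρ / 2 → WBL X K P x0 (|x0| / 8) ι C0 Λ
  wb1 : ∀ x0 : ℝ, |x0| ≤ 33 → WBL X K P x0 (1 / 2) ι C0 Λ
  ppp : ∀ b : ℝ, ι * supW (X \ K) P 8 ≤ b →
    (∀ y ∈ X, y ∉ K → Real.exp (-L + 3) ≤ ‖bl y.1‖ → ‖bl y.1‖ ≤ Real.exp (-L + 4) →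
      ‖P y‖ ≤ b) →
    ∀ y ∈ X, y ∉ K → ‖y.1‖ ≤ ρ → ‖bl y.1‖ ≤ Real.exp (-L + 3) → ‖P y‖ ≤ 1000 * b

def St_WACT : Prop := ∃ L0 : ℝ, ∀ β L : ℝ, 0 < β → β ≤ 1 → L0 ≤ L → ∃ M ≥ (64 : ℝ),
  ∀ C0 Λ : ℝ, ∃ ι > (0 : ℝ), ∀ (X K : Set E) (P : E → ℂ) (ρ : ℝ), ActH X K P L ι ρ C0 Λ →
    M ≤ ρ → ∀ O : ℝ, 0 ≤ O → (∀ y ∈ X, y ∉ K → ρ / M ≤ ‖y.1‖ → ‖y.1‖ ≤ ρ → ‖P y‖ ≤ O) →
    ∀ r : ℝ, 8 ≤ r → r ≤ ρ → ∀ y ∈ X, y ∉ K → ‖y.1‖ ≤ r →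
      ‖P y‖ ≤ M ^ 2 * (r / ρ) ^ (2 - β) * O

/-- neutral window with a plain hub wall and a plain port wall -/
def St_WNEU : Prop := ∃ L0 : ℝ, ∃ CN ≥ (1 : ℝ), ∃ c0 > (0 : ℝ), ∃ M ≥ (64 : ℝ),
  ∀ L C0 Λ : ℝ, L0 ≤ L → ∃ ι > (0 : ℝ),
  ∀ (X K : Set E) (Q : E → ℂ) (j iw ρ : ℝ), (j = 1 ∨ j = 2) → M ≤ ρ → 0 ≤ iw → iw ≤ ι →
    iw * (1 + Real.log ρ) ≤ c0 → NP X K (closedBall 0 ρ) →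
    (∀ y ∈ ov X (closedBall 0 ρ), 0 ≤ y.1.im) →
    AnalyticOnNhd ℂ Q (ov X (closedBall 0 ρ)) → (∀ y ∈ X, y.1 = Complex.I → Q y = 0) →
    (∀ y ∈ ov X (closedBall 0 ρ), y ∈ K → Q y ≠ 0 →
      (y.1.im ≤ ι ∧ |(Q y).im| ≤ iw * ‖Q y‖) ∨
      (‖bl y.1‖ ≤ Real.exp (-L + 1) ∧
        |(Q y * Complex.exp (-(Complex.I * (j * Real.pi / 4)))).im| ≤ 4 / L * ‖Q y‖)) →
    (∀ x0 : ℝ, 4 ≤ |x0| → |x0| ≤ ρ / 2 → WB X K Q x0 (|x0| / 8) ι C0 Λ 0) →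
    (∀ x0 : ℝ, |x0| ≤ M → WB X K Q x0 (1 / 16) ι C0 Λ 0) →
    ∀ O : ℝ, 0 ≤ O → (∀ y ∈ X, y ∉ K → ρ / 8 ≤ ‖y.1‖ → ‖y.1‖ ≤ ρ → ‖Q y‖ ≤ O) →
    ∀ y ∈ X, y ∉ K → ‖y.1‖ ≤ ρ → Real.exp (-L + 2) ≤ ‖bl y.1‖ → ‖Q y‖ ≤ CN * O

/-- neutral window with the birth shape, all levels -/
def St_WBIR : Prop := ∃ CN ≥ (1 : ℝ), ∀ c0 CD : ℝ, 0 < c0 → c0 ≤ 1 → ∃ L0 : ℝ,
  ∀ L M8 Cth : ℝ, L0 ≤ L → LocF c0 CD L → 4 ≤ M8 → ∃ M ≥ (64 : ℝ), ∃ σ0 > (0 : ℝ),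
  ∀ C0 Λ : ℝ, ∃ ι > (0 : ℝ),
  ∀ (X K : Set E) (P : E → ℂ) (D0 : ℂ → ℝ) (G G' th : ℝ → ℝ) (ρ : ℝ), M ≤ ρ → 5 * M8 ≤ ι * ρ →
    Dev c0 CD L D0 → (∀ z : ℂ, 0 ≤ z.im → M8 ≤ ‖z‖ → hgt L D0 z = z.im) →
    (∀ s, HasDerivAt G (G' s) s) → (∀ s, s ≤ 0 → G s = 0) → (∀ s, 0 < s → 0 < G s) →
    (∀ s, 0 < s → s ≤ 4 * M8 → G s ≤ σ0 * G' s) →
    (∀ s t, |th s - th t| ≤ Cth * |s - t|) → (∀ s, 1 / 2 ≤ s → th s = 0) →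
    (∀ s, 0 ≤ th s ∧ th s ≤ Real.pi / 4) →
    NP X K (closedBall 0 ρ) → (∀ y ∈ ov X (closedBall 0 ρ), 0 ≤ y.1.im) →
    AnalyticOnNhd ℂ P (ov X (closedBall 0 ρ)) →
    (∀ y ∈ X, y.1 = Complex.I → ∃ F : E → ℂ, AnalyticAt ℂ F y ∧
      ∀ᶠ x in 𝓝 y, P x = (x.1 - Complex.I) * F x) →
    (∀ y ∈ ov X (closedBall 0 ρ), y ∈ K → P y ≠ 0 → y.1 ≠ Complex.I ∧ 0 < hgt L D0 y.1 ∧
      (hgt L D0 y.1 ≤ 4 * M8 → P y = bw L D0 (fun s => Real.log (G s)) th y.1) ∧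
      (4 * M8 < hgt L D0 y.1 → G (4 * M8) ≤ ‖P y‖ ∧ y.1.im ≤ ι * ρ ∧
        |(P y).im| ≤ ι * ‖P y‖)) →
    (∀ y ∈ ov X (closedBall 0 ρ), y.1 ≠ Complex.I → 0 < hgt L D0 y.1 → hgt L D0 y.1 ≤ 4 * M8 →
      P y = bw L D0 (fun s => Real.log (G s)) th y.1 → y ∈ K) →
    (∀ x0 : ℝ, |x0| ≤ 5 / 8 * ρ →
      WB X K P x0 (ρ / 8) ι C0 Λ (G (2 * M8) * Real.exp (-3))) →
    ∀ O : ℝ, 0 ≤ O → (∀ y ∈ X, y ∉ K → ρ / 16 ≤ ‖y.1‖ → ‖y.1‖ ≤ ρ → ‖P y‖ ≤ O) →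
    ∀ y ∈ X, y ∉ K → ‖y.1‖ ≤ ρ / 2 → ‖P y‖ ≤ CN * O

/-- the neutral lemma for plain walls on a disc of any radius -/
def St_NL0R : Prop := ∀ C0 Λ : ℝ, ∃ ι > 0, ∀ (X K : Set E) (Q : E → ℂ) (O ρ : ℝ), 0 < O → 0 < ρ →
  NP X K (closedBall 0 ρ) → AnalyticOnNhd ℂ Q (ov X (closedBall 0 ρ)) →
  (∀ y ∈ ov X (closedBall 0 ρ), y ∈ K → O < ‖Q y‖ →
    |y.1.im| ≤ ι * ρ ∧ |(Q y).im| ≤ ι * ‖Q y‖) →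
  (∀ x0 : ℝ, |x0| ≤ 5 / 8 * ρ → WB X K Q x0 (ρ / 8) ι C0 Λ O) →
  (∀ y ∈ X, y ∉ K → ρ / 2 ≤ ‖y.1‖ → ‖y.1‖ ≤ ρ → ‖Q y‖ ≤ O) →
  ∀ y ∈ ov X (closedBall 0 (ρ / 2)), y ∉ K → ‖Q y‖ ≤ Real.exp 1 * O

/-! ### tube and ending -/

/-- union of graphs -/
def grs {I : Type} (f : I → ℂ → ℂ) (Dm : I → Set ℂ) : Set E :=
  {y | ∃ i, y.1 ∈ Dm i ∧ y.2 = f i y.1}

/-- the hull of a small modification lies near the curves, apart from the surface itself -/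
def St_HTUBE : Prop := ∀ (I : Type) [Fintype I] (f : I → ℂ → ℂ) (Dm Dx : I → Set ℂ)
  (A Zs : Set E) (ρz R0 : ℝ), (∀ i, ContDiff ℝ 1 (f i)) → (∀ i, IsCompact (Dm i)) →
  (∀ i, IsCompact (Dx i)) → (∀ i, Dm i ⊆ Dx i) →
  (∀ i i', i ≠ i' → ∀ z ∈ Dx i, z ∈ Dx i' → f i z ≠ f i' z) → IsCompact A →
  hull (grs f Dm ∪ A) ⊆ grs f Dm ∪ A →
  (∀ i, ∀ z ∈ Dm i, (z, f i z) ∉ A → dbar (f i) z ≠ 0 ∨ (z, f i z) ∈ Zs) →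
  (∀ s ∈ Zs, LB2 (grs f Dm) s) → 0 < ρz → 0 < R0 → ∃ η > 0,
    ∀ (f' : I → ℂ → ℂ) (Dm' : I → Set ℂ), (∀ i, IsCompact (Dm' i)) → (∀ i, Dm' i ⊆ Dx i) →
      (∀ i, ContDiff ℝ 1 (f' i)) →
      (∀ i z, ‖f' i z - f i z‖ ≤ η ∧ ‖fderiv ℝ (f' i) z - fderiv ℝ (f i) z‖ ≤ η) →
      grs f' Dm' ⊆ cthickening η (grs f Dm ∪ A) →
      (∀ s ∈ Zs, grs f' Dm' ∩ ball s ρz ⊆ grs f Dm) →
      hull (grs f' Dm') \ grs f' Dm' ⊆ cthickening R0 A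

/-- no points of `X` on the continuations of the sheets beyond the loops -/
def St_FIN : Prop := ∀ (J : Type) (l : J → CF.End) (a : J → ℝ) (X K A : Set E), IsCompact X →
  IsClosed K → (∀ y ∈ X, y ∉ K → ¬ Peak X y) →
  (∀ j, (l j).k ≠ CF.Kind.pt ∧ 0 < (l j).r ∧ ContinuousOn (l j).w ((l j).ann (Icc (-a j) 0))) →
  (∀ x ∈ X, x ∉ K → x ∈ A ∨ ∃ j, x ∈ (l j).gr ((l j).ann (Ioo (-a j) 0))) →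
  (∀ j, ∀ x ∈ X, x ∉ (l j).gr ((l j).ann {-a j})) →
  (∀ j, ∀ x ∈ (l j).gr ((l j).ann (Ioo (-a j) 0)), x ∉ K ∧
    ∀ᶠ x' in 𝓝 x, x' ∈ X → x' ∉ K → x'.2 = (l j).w x'.1) →
  X ⊆ K ∪ A

/-- nothing lies beyond a one-sided loop -/
def St_UP : Prop := ∀ (X K : Set E) (l : CF.End) (h d : ℝ), l.k ≠ CF.Kind.pt → 0 < l.r → 0 < h →
  NP X K (l.ann (Icc (-h) h)) → -h < d → d ≤ h →
  (∀ y ∈ ov X (l.ann (Icc (-h) h)), (y ∈ K → d ≤ l.dep y.1) ∧ -h < l.dep y.1) →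
  ∀ y ∈ ov X (l.ann (Icc (-h) h)), d ≤ l.dep y.1

end Pool.Agent.Lib.SH
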