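import Pool.Agent.Lib.SH.Blue2

/-!
Blueprint of the project SH: walls which are finite sums of monotone profiles times nearly
positive analytic directions.
-/

open Set Filter Topology Metric

noncomputable section

namespace Pool.Agent.Lib.SH

/-- the wall `sum E i (y) * u i (x + i y)` -/
def wsum {I : Type} [Fintype I] (Ef : I → ℝ → ℝ) (u : I → ℂ → ℂ) (x y : ℝ) : ℂ :=
  ∑ i, (Ef i y : ℂ) * u i (x + y * Complex.I)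

/-- its derivative in `y` -/
def wsumy {I : Type} [Fintype I] (Ef Ef' : I → ℝ → ℝ) (u : I → ℂ → ℂ) (x y : ℝ) : ℂ :=
  ∑ i, ((Ef' i y : ℂ) * u i (x + y * Complex.I) +
    (Ef i y : ℂ) * (deriv (u i) (x + y * Complex.I) * Complex.I))

/-- nearly positive direction at the point `z` -/
def Dir (u : ℂ → ℂ) (ω C : ℝ) (z : ℂ) : Prop :=
  AnalyticAt ℂ u z ∧ |(u z).im| ≤ ω * (u z).re ∧ ‖deriv u z‖ ≤ C * ‖u z‖ ∧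
    |(deriv u z).im| ≤ ω * ‖u z‖

/-- all numbers of the family have the same sign -/
def Coh {I : Type} (b : I → ℝ) : Prop := (∀ i, 0 ≤ b i) ∨ ∀ i, b i ≤ 0

/-- steepness with respect to the reference values `a` -/
def Steep {I : Type} [Fintype I] (Ef Ef' : I → ℝ → ℝ) (u : I → ℂ → ℂ) (a : I → ℝ)
    (ι' x y : ℝ) : Prop :=
  ∑ i, |Ef i y - a i| * ‖u i (x + y * Complex.I)‖ ≤
    ι' / 4 * ∑ i, Ef' i y * ‖u i (x + y * Complex.I)‖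

/-- common hypotheses on profiles and directions over the strip -/
structure WS {I : Type} [Fintype I] (J : Set ℝ) (Ef Ef' : I → ℝ → ℝ) (u : I → ℂ → ℂ) (a : I → ℝ)
    (e0 ω C ι' : ℝ) : Prop where
  der : ∀ i, ∀ y ∈ Icc (-(2 * ι')) (2 * ι'), HasDerivAt (Ef i) (Ef' i y) y ∧ 0 ≤ Ef' i y
  dir : ∀ i, ∀ x ∈ J, ∀ y ∈ Icc (-(2 * ι')) (2 * ι'), Dir (u i) ω C (x + y * Complex.I)
  ref : ∀ x ∈ J, ∀ y ∈ Icc (-(2 * ι')) (2 * ι'),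
    ∀ᶠ z in 𝓝 ((x : ℂ) + y * Complex.I), ∑ i, (a i : ℂ) * u i z = e0
  steep : ∀ x ∈ J, ∀ y ∈ Icc (-(2 * ι')) (2 * ι'),
    Steep Ef Ef' u (fun _ => 0) ι' x y ∨ Steep Ef Ef' u a ι' x y
  coh : ∀ y ∈ Icc (-(2 * ι')) (2 * ι'), Coh fun i => Ef i y

/-- sums give plain walls: one root above the level `lev`, and two roots -/
def St_PWS : Prop := ∀ ι C : ℝ, 0 < ι → 0 ≤ C → ∃ ω > (0 : ℝ), ∀ (I : Type) [Fintype I] (J : Set ℝ)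
  (Ef Ef' : I → ℝ → ℝ) (u : I → ℂ → ℂ) (a : I → ℝ) (e0 ι' : ℝ), 0 < ι' → ι' ≤ ω →
  WS J Ef Ef' u a e0 ω C ι' →
  (∀ lev : ℝ, (∀ x ∈ J, ∀ y ∈ Icc (-(2 * ι')) (2 * ι'), lev ≤ ‖pp 0 (wsum Ef u x y)‖ →
      Steep Ef Ef' u (fun _ => 0) ι' x y) →
    PW J 0 ι ι' (4 * C * Real.exp (2 * C)) lev (wsum Ef u) (wsumy Ef Ef' u)) ∧
  ((∀ y ∈ Icc (-(2 * ι')) (2 * ι'), Coh fun i => Ef i y - a i) →
    PW J e0 ι ι' (4 * C * Real.exp (2 * C)) 0 (wsum Ef u) (wsumy Ef Ef' u))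

/-- nearly positive direction in the annulus or port chart (derivative in the angle) -/
def DirZ (u : ℂ → ℂ) (ω C : ℝ) (z : ℂ) : Prop :=
  AnalyticAt ℂ u z ∧ |(u z).im| ≤ ω * (u z).re ∧ ‖z * deriv u z‖ ≤ C * ‖u z‖ ∧
    |(z * deriv u z).re| ≤ ω * ‖u z‖

/-- wall hypotheses on the annulus from a description of `K` by a sum; `e = 0` or two roots -/
def St_AWS : Prop := ∀ ι C : ℝ, 0 < ι → 0 ≤ C → ∃ ω > (0 : ℝ), ∀ (I W : Type) [Fintype I]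
  (x : W → ℂ) (ρ0 : W → ℝ) (X K : Set E) (V : E → ℂ) (Ef Ef' : I → ℝ → ℝ) (u : I → ℂ → ℂ)
  (a : I → ℝ) (e h ι' : ℝ), 0 < ι' → ι' ≤ ω →
  (∀ i, ∀ y ∈ Icc (-(2 * ι')) (2 * ι'), HasDerivAt (Ef i) (Ef' i y) y ∧ 0 ≤ Ef' i y) →
  (∀ t ∈ arcW x ρ0, ∀ s ∈ Icc (-(2 * ι')) (2 * ι'),
    (∀ i, DirZ (u i) ω C (Complex.exp (Complex.I * (t + s * Complex.I)))) ∧
    (∀ᶠ z in 𝓝 (Complex.exp (Complex.I * (t + s * Complex.I))), ∑ i, (a i : ℂ) * u i z = e) ∧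
    (Steep Ef Ef' (fun i z => u i (Complex.exp (Complex.I * z))) (fun _ => 0) ι' t s ∨
      Steep Ef Ef' (fun i z => u i (Complex.exp (Complex.I * z))) a ι' t s)) →
  (∀ y ∈ Icc (-(2 * ι')) (2 * ι'), (Coh fun i => Ef i y) ∧ Coh fun i => Ef i y - a i) →
  (∀ y ∈ ov X (annW h x ρ0), y ∈ K → pp e (V y) ≠ 0 → |Real.log ‖y.1‖| ≤ ι' ∧
    V y = ∑ i, (Ef i (-Real.log ‖y.1‖) : ℂ) * u i y.1) →
  (∀ y ∈ ov X (annW h x ρ0), pp e (V y) ≠ 0 → |Real.log ‖y.1‖| ≤ 2 * ι' →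
    V y = ∑ i, (Ef i (-Real.log ‖y.1‖) : ℂ) * u i y.1 → y ∈ K) →
  (∀ y ∈ ov X (annW h x ρ0), y ∉ K → ‖y.1‖ ≤ Real.exp ι) →
  AW X K V e ι (4 * C * Real.exp (2 * C)) h x ρ0

/-- wall structure in a box from a description of `K` by a sum.  `Q ^ pw = pp e V * exp g`,
`e` is `0` (above the level) or the second root `e0` -/
def St_WBS : Prop := ∀ ι C : ℝ, 0 < ι → 0 ≤ C → ∃ ω > (0 : ℝ), ∀ (I : Type) [Fintype I]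
  (X K : Set E) (Q V : E → ℂ) (g : ℂ → ℂ) (Ef Ef' : I → ℝ → ℝ) (u : I → ℂ → ℂ) (a : I → ℝ)
  (e e0 x0 r t Λ lv lev : ℝ) (pw : ℕ), 0 < r → 0 < t → t ≤ ω * r → 2 * t ≤ r →
  (pw = 1 ∨ pw = 2) → 0 ≤ e → AnalyticOnNhd ℂ V (ov X (box x0 r r)) →
  (∀ z ∈ box x0 r r, AnalyticAt ℂ g z ∧ r * ‖deriv g z‖ ≤ Λ ∧ (z.im = 0 → |(g z).im| ≤ ι) ∧
    lev * Real.exp (g z).re ≤ lv ^ pw) →
  (∀ y : E, y.1 ∈ box x0 r r → Q y ^ pw = pp e (V y) * Complex.exp (g y.1)) →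
  WS (Icc (x0 - r) (x0 + r)) Ef Ef' u a e0 (ω * min 1 r⁻¹) (C / r) t →
  ((e = 0 ∧ ∀ x ∈ Icc (x0 - r) (x0 + r), ∀ y ∈ Icc (-(2 * t)) (2 * t),
      lev ≤ ‖pp 0 (wsum Ef u x y)‖ → Steep Ef Ef' u (fun _ => 0) t x y) ∨
    (e = e0 ∧ ∀ y ∈ Icc (-(2 * t)) (2 * t), Coh fun i => Ef i y - a i)) →
  (∀ y ∈ ov X (box x0 r r), y ∈ K → lv < ‖Q y‖ →
    |y.1.im| ≤ t ∧ V y = wsum Ef u y.1.re y.1.im) →
  (∀ y ∈ ov X (box x0 r r), lv < ‖Q y‖ → |y.1.im| ≤ 2 * t → V y = wsum Ef u y.1.re y.1.im →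
    y ∈ K) →
  WB X K Q x0 r ι (4 * C * Real.exp (2 * C)) Λ lv

/-- port hypotheses (one root, all levels up to `Mup`) from a description of `K` by a sum of
logarithmically steep profiles of `log ‖z‖` -/
def St_PPS : Prop := ∀ ι C : ℝ, 0 < ι → 0 ≤ C → ∃ ω > (0 : ℝ), ∀ (I : Type) [Fintype I]
  (X K : Set E) (N : E → ℂ) (Ef Ef' : I → ℝ → ℝ) (u : I → ℂ → ℂ) (γ ι' y0 yt Mup : ℝ),
  0 < γ → γ ≤ 1 / 2 → 0 < ι' → ι' ≤ ω → yt ≤ -1 →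
  (∀ i, ∀ y ≤ yt + 2 * ι', HasDerivAt (Ef i) (Ef' i y) y ∧ 0 ≤ Ef' i y ∧ (y ≤ y0 → Ef i y = 0)) →
  (∀ y ≤ yt + 2 * ι', ∑ i, Ef i y ≤ ι' / 32 * ∑ i, Ef' i y) →
  (∀ i, ∀ z ∈ closedBall (0 : ℂ) 1, DirZ (u i) ω C z ∧ 1 / 2 ≤ ‖u i z‖ ∧ ‖u i z‖ ≤ 2) →
  Mup ≤ (∑ i, Ef i yt) ^ 2 * Real.exp (γ * yt) →
  (∀ y ∈ ov X (closedBall 0 1), y ∈ K → y.1 * N y ≠ 0 →
    ‖pp 0 (y.1 * N y)‖ * ‖y.1‖ ^ γ ≤ Real.exp 1 * Mup → Real.log ‖y.1‖ ≤ yt + ι' ∧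
      y.1 * N y = ∑ i, (Ef i (Real.log ‖y.1‖) : ℂ) * u i y.1) →
  (∀ y ∈ ov X (closedBall 0 1), y.1 * N y ≠ 0 → Real.log ‖y.1‖ ≤ yt + 2 * ι' →
    y.1 * N y = ∑ i, (Ef i (Real.log ‖y.1‖) : ℂ) * u i y.1 → y ∈ K) →
  PPH2 X K N 0 γ ι (4 * C * Real.exp (2 * C)) 0 Mup

/-- port hypotheses with one fixed height `η`, for the levels above `Mst` (one or two roots) -/
def St_PPS2 : Prop := ∀ ι C : ℝ, 0 < ι → 0 ≤ C → ∃ ω > (0 : ℝ), ∀ (I : Type) [Fintype I]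
  (X K : Set E) (N : E → ℂ) (Ef Ef' : I → ℝ → ℝ) (u : I → ℂ → ℂ) (a : I → ℝ)
  (e e0 γ ι' η lev Mst Mup : ℝ), 0 < γ → γ ≤ 1 / 2 → 0 < ι' → ι' ≤ ω → η ≤ -1 → 0 ≤ Mst →
  lev ≤ Mst * Real.exp (-γ * η - 1) →
  WS univ Ef Ef' (fun i z => u i (Complex.exp (η - Complex.I * z))) a e0 ω C ι' →
  ((e = 0 ∧ ∀ x : ℝ, ∀ y ∈ Icc (-(2 * ι')) (2 * ι'),
      lev ≤ ‖pp 0 (wsum Ef (fun i z => u i (Complex.exp (η - Complex.I * z))) x y)‖ →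
      Steep Ef Ef' (fun i z => u i (Complex.exp (η - Complex.I * z))) (fun _ => 0) ι' x y) ∨
    (e = e0 ∧ 0 ≤ lev ∧ ∀ y ∈ Icc (-(2 * ι')) (2 * ι'), Coh fun i => Ef i y - a i)) →
  (∀ y ∈ ov X (closedBall 0 1), y ∈ K → Mst / Real.exp 1 < ‖pp e (y.1 * N y)‖ * ‖y.1‖ ^ γ →
    |Real.log ‖y.1‖ - η| ≤ ι' ∧
      y.1 * N y = ∑ i, (Ef i (Real.log ‖y.1‖ - η) : ℂ) * u i y.1) →
  (∀ y ∈ ov X (closedBall 0 1), Mst / Real.exp 1 < ‖pp e (y.1 * N y)‖ * ‖y.1‖ ^ γ →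
    |Real.log ‖y.1‖ - η| ≤ 2 * ι' →
    y.1 * N y = ∑ i, (Ef i (Real.log ‖y.1‖ - η) : ℂ) * u i y.1 → y ∈ K) →
  (∀ y ∈ ov X (closedBall 0 1), y ∈ K → ‖y.1‖ ≤ Real.exp (η - 1 / 2) →
    ‖N y * (y.1 * N y - e)‖ ≤ Mst * Real.exp (-(1 + γ) * η)) →
  PPH2 X K N e γ ι (4 * C * Real.exp (2 * C)) Mst Mup

end Pool.Agent.Lib.SH
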