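import Pool.Agent.Lib.SH.Blue3

/-!
Blueprint of the project SH: smooth modifications, profiles, birth shape.
-/

open Set Filter Topology Metric
open scoped ContDiff

noncomputable section

namespace Pool.Agent.Lib.SH

/-- smooth, and all derivatives of order at most `k` bounded by `ε` -/
def Small (k : ℕ) (ε : ℝ) (N : ℂ → ℂ) : Prop :=
  ContDiff ℝ ∞ N ∧ ∀ j ≤ k, ∀ z, ‖iteratedFDeriv ℝ j N z‖ ≤ ε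

/-- smooth real function which is flat at `0` -/
def Flat (Ef : ℝ → ℝ) : Prop := ContDiff ℝ ∞ Ef ∧ ∀ n, iteratedDeriv n Ef 0 = 0

/-- small amplitude, also for analytic families -/
def St_AMP : Prop :=
  (∀ (U Z : Set ℂ) (N : ℂ → ℂ), IsOpen U → IsCompact Z → Z ⊆ U → ContDiffOn ℝ ∞ N U →
    (∀ z ∈ U, z ∉ Z → N z = 0) → ∀ (k : ℕ) (ε : ℝ), 0 < ε → ∀ᶠ τ in 𝓝 (0 : ℝ),
      Small k ε (U.indicator fun z => (τ : ℂ) * N z)) ∧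
  ∀ (U Z : Set ℂ) (χ : ℂ → ℂ) (d : ℂ × ℂ → ℂ), IsOpen U → IsCompact Z → Z ⊆ U →
    ContDiffOn ℝ ∞ χ U → (∀ z ∈ U, z ∉ Z → χ z = 0) → AnalyticOnNhd ℂ d (Z ×ˢ {0}) →
    ∀ (k : ℕ) (ε : ℝ), 0 < ε → ∀ᶠ τ in 𝓝 (0 : ℂ),
      Small k ε (U.indicator fun z => τ * (χ z * d (z, τ)))

/-- cutting a flat wall near its foot is a small modification -/
def St_FLAT : Prop :=
  (∀ (U : Set ℂ) (y : ℂ → ℝ) (μ : ℂ → ℂ) (Ef χ : ℝ → ℝ) (y0 : ℝ), IsOpen U → 0 < y0 →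
    ContDiffOn ℝ ∞ y U → ContDiffOn ℝ ∞ μ U → IsCompact {z | z ∈ U ∧ |y z| ≤ y0} → Flat Ef →
    ContDiff ℝ ∞ χ → (∀ s, 1 ≤ |s| → χ s = 0) → ∀ (k : ℕ) (ε : ℝ), 0 < ε →
    ∀ᶠ y1 in 𝓝[>] (0 : ℝ),
      Small k ε (U.indicator fun z => ((χ (y z / y1) * Ef (y z) : ℝ) : ℂ) * μ z)) ∧
  ∀ Ef : ℝ → ℝ, Flat Ef → Flat (fun s => if 0 ≤ s then Ef s else 0) ∧
    Flat (fun s => if s ≤ 0 then Ef s else 0)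

/-- germ of a wall profile: flat, monotone, steep; `two` says whether it is two-sided -/
structure PR (Ef : ℝ → ℝ) (two : Prop) : Prop where
  flat : Flat Ef
  pos : ∀ᶠ s in 𝓝[>] (0 : ℝ), 0 < Ef s
  neg : two → ∀ᶠ s in 𝓝[<] (0 : ℝ), Ef s < 0
  one : ¬ two → ∀ s ≤ 0, Ef s = 0
  steep : ∀ A : ℝ, ∀ᶠ s in 𝓝 (0 : ℝ), A * |Ef s| ≤ |s| * deriv Ef s

/-- the basic profiles -/
def St_PROF : Prop :=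
  (PR expNegInvGlue False ∧ PR (fun s => expNegInvGlue s - expNegInvGlue (-s)) True ∧
    (∀ s, 0 < s → deriv expNegInvGlue s = expNegInvGlue s / s ^ 2) ∧
    ∀ s, 0 ≤ deriv expNegInvGlue s) ∧
  (∀ (Ef : ℝ → ℝ) (two : Prop) (c N : ℝ), PR Ef two → 0 < c → 0 < N →
    PR (fun s => c * Ef (s / N)) two) ∧
  (∀ (Ef u : ℝ → ℝ) (two : Prop), PR Ef two → ContDiff ℝ ∞ u → 0 < u 0 →
    PR (fun s => Ef s * u s) two) ∧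
  (∃ c > (0 : ℝ), ∀ s ∈ Ioo (0 : ℝ) 1,
    c * min (Real.smoothTransition s) (1 - Real.smoothTransition s) ≤
      deriv Real.smoothTransition s) ∧
  (∀ s, 0 ≤ deriv Real.smoothTransition s) ∧
  (∀ n : ℕ, 1 ≤ n → PR (fun s => Real.smoothTransition s ^ n) False) ∧
  (∀ n : ℕ, 1 ≤ n → PR (fun s => if s ≤ 0 then Real.smoothTransition (1 + s) ^ n - 1
    else expNegInvGlue s) True) ∧
  (∀ M8 σ0 : ℝ, 0 < M8 → 0 < σ0 → ∃ G : ℝ → ℝ, PR G False ∧ (∀ s, 0 < s → 0 < G s) ∧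
    (∀ s, 0 ≤ deriv G s ∧ G s ≤ 1) ∧ (∀ s, 0 < s → s ≤ 4 * M8 → G s ≤ σ0 * deriv G s) ∧
    ∀ s, 5 * M8 ≤ s → G s = 1) ∧
  ∃ (th : ℝ → ℝ) (Cth : ℝ), ContDiff ℝ ∞ th ∧ (∀ s t, |th s - th t| ≤ Cth * |s - t|) ∧
    (∀ s, 2 / 5 ≤ s → th s = 0) ∧ (∀ s, s ≤ 1 / 4 → th s = Real.pi / 4) ∧
    ∀ s, 0 ≤ th s ∧ th s ≤ Real.pi / 4

/-- the birth shape in the chart `wch x δ yr` -/
structure Shape (c0 CD M8 y4 L : ℝ) (x : ℂ) (δ yr : ℝ) (D0 : ℂ → ℝ) : Prop where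
  dev : Dev c0 CD L D0
  smooth : ContDiffOn ℝ ∞ (hgt L D0) {z | -1 / 2 < z.im ∧ z ≠ Complex.I}
  far : ∀ z : ℂ, -1 / 2 ≤ z.im → (M8 ≤ ‖z‖ ∨ |z.im| ≤ y4) → hgt L D0 z = z.im
  neg : ∀ z : ℂ, -1 / 2 ≤ z.im → z.im ≤ 0 → hgt L D0 z ≤ 0
  round : ∀ z : ℂ, z ≠ Complex.I → ‖z - Complex.I‖ ≤ 2 * Real.exp (-L / 2) → hgt L D0 z =
    1 + Real.log (‖wch x δ yr z - wch x δ yr Complex.I‖ / (2 * δ * ‖wch x δ yr Complex.I‖)) / L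
  low : ∀ z : ℂ, y4 ≤ z.im → 2 * Real.exp (-L / 2) ≤ ‖z - Complex.I‖ → y4 / 2 ≤ hgt L D0 z
  mid : ∀ z : ℂ, 2 * Real.exp (-L / 2) ≤ ‖z - Complex.I‖ → ‖z - Complex.I‖ ≤ 1 / 2 →
    2 / 5 ≤ hgt L D0 z
  le : ∀ z : ℂ, 0 ≤ z.im → z ≠ Complex.I → hgt L D0 z ≤ z.im + 1
  reg : ∀ z : ℂ, -1 / 4 < z.im → z ≠ Complex.I → 0 < hgt L D0 z →
    z ≠ Complex.I * Real.sqrt (1 - 2 / L) → fderiv ℝ (hgt L D0) z ≠ 0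
  sad : 8 * Real.exp (-L / 2) < ‖Complex.I * Real.sqrt (1 - 2 / L) - Complex.I‖ ∧
    ‖Complex.I * Real.sqrt (1 - 2 / L) - Complex.I‖ < 1 / 2

def St_SHAPE : Prop := ∀ c0 : ℝ, 0 < c0 → c0 ≤ 1 → ∃ CD M8 y4 : ℝ, 4 ≤ M8 ∧ 0 < y4 ∧ y4 ≤ 1 / 4 ∧
  ∃ L0 : ℝ, ∀ L : ℝ, L0 ≤ L → LocF c0 CD L → ∀ (x : ℂ) (δ yr : ℝ), x ≠ 0 → 0 < δ → δ ≤ 1 / 8 →
    ∃ D0 : ℂ → ℝ, Shape c0 CD M8 y4 L x δ yr D0

end Pool.Agent.Lib.SH
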