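import Pool.Agent.Lib.SH.Blue2
import Pool.Agent.Lib.CF.Blue
import Pool.Agent.Lib.CF.Basic

/-!
Design independent core of the certificates: parts, end properties, nodes.
-/

open Set Filter Topology Metric

noncomputable section

namespace Pool.Agent.Lib.SH

/-- the body of `CF.St_PART` -/
def PartOK {ι : Type} (Γ : Set E) (e : ι → CF.End) (Sig : Finset ℂ) (r1 h Λ C r2 : ℝ)
    (κ : ι → ℝ) : Prop :=
  ∀ (X K O : Set E) (τ : ℝ) (φ : E → ℝ), HULL.LM X K O →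
    0 < τ → CF.tube (CF.reg Γ e Sig (h / 16) r2 r2) τ ⊆ O →
    CF.LAbs φ (CF.tube (CF.reg Γ e Sig (h / 16) r2 r2) τ) →
    (∀ x ∈ X, x ∈ K → x ∈ CF.tube (CF.reg Γ e Sig (h / 16) r2 r2) τ → φ x = 0) →
    (∀ x ∈ X, x ∉ K → ∀ y ∈ CF.reg Γ e Sig (h / 16) r2 r2, y.1 = x.1 → ‖x.2 - y.2‖ ≠ τ) →
    (∀ x ∈ X, x ∈ CF.tube (CF.reg Γ e Sig (h / 16) r2 (r1 / 4)) τ → φ x ≤ Real.exp C) →
    (∀ j, (e j).k = CF.Kind.pt → ∀ x ∈ X, r2 < ‖x.1 - (e j).c‖ → ‖x.1 - (e j).c‖ ≤ r1 / 4 →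
      ‖x.2 - (e j).w x.1‖ ≤ τ → φ x ≤ Real.exp (C + κ j * Real.log (r1 / ‖x.1 - (e j).c‖))) →
    (∃ x ∈ X, x ∈ CF.tube (CF.core Γ e Sig r1 h) τ ∧ 1 ≤ φ x) →
    (∀ j, (e j).k ≠ CF.Kind.pt → CF.SLH (e j) X φ τ h C (Λ * C) (κ j)) → False

theorem partOK (hP : CF.St_PART) {ι : Type} [Fintype ι] {P : E → ℂ} {Γ : Set E}
    {e : ι → CF.End} {Sig : Finset ℂ} {r1 h : ℝ} (hc : CF.IsCurve P Γ e)
    (hg : CF.Geo P Γ e Sig r1 h) : ∃ Λ > 0, ∀ C, 1 ≤ C → ∀ κ : ι → ℝ, ∑ j, κ j ≤ -1 / 8 →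
      ∃ r20 > 0, ∀ r2, 0 < r2 → r2 ≤ r20 → PartOK Γ e Sig r1 h Λ C r2 κ :=
  hP ι P Γ e Sig r1 h hc hg

/-- the end property of a part at the level `lv` -/
def EndP (l : CF.End) (X K : Set E) (φ : E → ℝ) (τ h r1 r2 C Λ κ lv : ℝ) : Prop :=
  (l.k ≠ CF.Kind.pt → CF.SLH l X (fun y => φ y / lv) τ h C (Λ * C) κ ∧
    ((∀ y ∈ near X l.w τ, y ∉ K → y.1 ∈ l.ann {h} → φ y ≤ lv) →
      ∀ y ∈ near X l.w τ, y.1 ∈ l.ann (Icc (h / 16) h) → φ y ≤ lv * Real.exp C)) ∧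
  (l.k = CF.Kind.pt → (∀ x ∈ near X l.w τ, x ∉ K → ‖x.1 - l.c‖ = r1 → φ x ≤ lv) →
    ∀ x ∈ near X l.w τ, x ∉ K → r2 ≤ ‖x.1 - l.c‖ → ‖x.1 - l.c‖ ≤ r1 →
      (r1 / 4 ≤ ‖x.1 - l.c‖ → φ x ≤ lv * Real.exp C) ∧
      φ x ≤ lv * Real.exp (C + κ * Real.log (r1 / ‖x.1 - l.c‖)))

/-- the conclusion of `St_ENDP` gives the point end half of `EndP` -/
theorem endP_pt {u lv c C κ0 κ r1 t : ℝ} (hlv : 0 ≤ lv) (ht : 0 < t) (ht1 : t ≤ r1)
    (h0 : 0 ≤ κ0) (h1 : κ0 ≤ κ) (h3 : κ0 ≤ 3) (hC : c + 5 ≤ C)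
    (h : u ≤ lv * Real.exp c * (r1 / t) ^ κ0) :
    (r1 / 4 ≤ t → u ≤ lv * Real.exp C) ∧ u ≤ lv * Real.exp (C + κ * Real.log (r1 / t)) := by
  have a1 : 1 ≤ r1 / t := (one_le_div ht).2 ht1
  have a2 : 0 ≤ Real.log (r1 / t) := Real.log_nonneg a1
  rw [Real.rpow_def_of_pos (by linarith), mul_assoc, ← Real.exp_add] at h
  refine ⟨fun h4 => h.trans (mul_le_mul_of_nonneg_left (Real.exp_le_exp.2 ?_) hlv),
    h.trans (mul_le_mul_of_nonneg_left (Real.exp_le_exp.2 ?_) hlv)⟩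
  · have a3 : r1 / t ≤ 4 := by rw [div_le_iff₀ ht]; linarith
    have a4 : Real.log (r1 / t) ≤ Real.log 4 := Real.log_le_log (by linarith) a3
    have a5 : Real.log 4 ≤ 5 / 3 := by
      have : Real.log 4 = 2 * Real.log 2 := by
        rw [show (4 : ℝ) = 2 ^ 2 by norm_num, Real.log_pow]; norm_num
      linarith [Real.log_two_lt_d9]
    nlinarith
  · nlinarith

/-- the tube hypotheses of a part -/
structure TubeOK {ι : Type} (Γ : Set E) (e : ι → CF.End) (Sig : Finset ℂ) (h r2 τ : ℝ)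
    (X K : Set E) (φ : E → ℝ) : Prop where
  lm : HULL.LM X K univ
  pos : 0 < τ
  labs : CF.LAbs φ (CF.tube (CF.reg Γ e Sig (h / 16) r2 r2) τ)
  zero : ∀ x ∈ X, x ∈ K → x ∈ CF.tube (CF.reg Γ e Sig (h / 16) r2 r2) τ → φ x = 0
  shell : ∀ x ∈ X, x ∉ K → ∀ y ∈ CF.reg Γ e Sig (h / 16) r2 r2, y.1 = x.1 → ‖x.2 - y.2‖ ≠ τ

/-- bound on the tube over the core -/
def CoreB {ι : Type} (Γ : Set E) (e : ι → CF.End) (Sig : Finset ℂ) (r1 h τ : ℝ) (X : Set E)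
    (φ : E → ℝ) (lv : ℝ) : Prop :=
  ∀ x ∈ X, x ∈ CF.tube (CF.core Γ e Sig r1 h) τ → φ x ≤ lv

/-- bound on the tube over the long annuli about the values in `Sig` -/
def NodeB (Γ : Set E) (Sig : Finset ℂ) (r1 r2 τ : ℝ) (X K : Set E) (φ : E → ℝ) (B : ℝ) : Prop :=
  ∀ x ∈ X, x ∉ K → ∀ y ∈ Γ, y.1 = x.1 → ‖x.2 - y.2‖ ≤ τ → (∀ b ∈ Sig, r2 < ‖x.1 - b‖) →
    (∃ b ∈ Sig, ‖x.1 - b‖ < r1) → φ x ≤ B

section
variable {ι : Type} {P : E → ℂ} {Γ : Set E} {e : ι → CF.End} {Sig : Finset ℂ} {r1 h : ℝ}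

theorem reg_mono {a a' ρ ρ' σ σ' : ℝ} (h1 : a' ≤ a) (h2 : ρ' ≤ ρ) (h3 : σ' ≤ σ) :
    CF.reg Γ e Sig a ρ σ ⊆ CF.reg Γ e Sig a' ρ' σ' :=
  fun _ hy => ⟨hy.1, fun b hb => h2.trans_lt (hy.2.1 b hb), fun j hj =>
    hy.2.2 j (CF.End.gr_mono _ ((e j).near_mono h1 h3) hj)⟩

theorem tube_mono {A B : Set E} {τ τ' : ℝ} (h : A ⊆ B) (h' : τ ≤ τ') :
    CF.tube A τ ⊆ CF.tube B τ' := fun _ ⟨y, a, b, c⟩ => ⟨y, h a, b, c.trans h'⟩

theorem core_sub_reg {a ρ σ : ℝ} (h1 : a < h) (h2 : ρ < r1) (h3 : σ < r1) :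
    CF.core Γ e Sig r1 h ⊆ CF.reg Γ e Sig a ρ σ :=
  fun _ hy => ⟨hy.1, fun b hb => h2.trans_le (hy.2.1 b hb), fun j hj =>
    hy.2.2 j (CF.End.gr_mono _ ((e j).near_subset_nearO h1 h3) hj)⟩

/-- points of a sheet in the closed double collar, on the curve side and outside the open
collar, belong to the core -/
theorem mem_core (hg : CF.Geo P Γ e Sig r1 h) (j : ι) {z : ℂ}
    (hz : z ∈ (e j).near (2 * h) (2 * r1)) (hs : (e j).side z) (hn : z ∉ (e j).nearO h r1) :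
    (z, (e j).w z) ∈ CF.core Γ e Sig r1 h := by
  refine ⟨(hg.mem j hz).2 hs, fun b hb => by linarith [hg.sig j z hz b hb, hg.r1pos],
    fun i hi => ?_⟩
  by_cases hij : i = j
  · subst hij; exact hn hi.1
  · exact disjoint_left.1 (hg.disj hij) (CF.End.gr_mono _ ((e i).nearO_subset_near
      (by linarith [hg.hpos]) (by linarith [hg.r1pos])) hi) ⟨hz, rfl⟩

theorem core_loop (hc : CF.IsCurve P Γ e) (hg : CF.Geo P Γ e Sig r1 h) {j : ι}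
    (hk : (e j).k ≠ CF.Kind.pt) {z : ℂ} (hz : z ∈ (e j).ann {h}) :
    (z, (e j).w z) ∈ CF.core Γ e Sig r1 h := by
  have h1 : (e j).dep z = h := hz.2
  have h2 := hg.hpos
  refine mem_core hg j ?_ ((CF.End.side_iff hk ((hc.ok j).pos hk) hz.1).2 (by linarith)) ?_
  · rw [CF.End.near_loop hk]
    exact ⟨hz.1, by linarith, by linarith⟩
  · rw [CF.End.nearO_loop hk]
    exact fun a => absurd a.2.2 (by linarith)

theorem core_pt (hg : CF.Geo P Γ e Sig r1 h) {j : ι} (hk : (e j).k = CF.Kind.pt) {z : ℂ}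
    (hz : ‖z - (e j).c‖ = r1) : (z, (e j).w z) ∈ CF.core Γ e Sig r1 h := by
  refine mem_core hg j ?_ (CF.End.side_pt hk z) ?_
  · rw [CF.End.near_pt hk, mem_closedBall_iff_norm]
    linarith [hg.r1pos]
  · rw [CF.End.nearO_pt hk, mem_ball_iff_norm]
    linarith

variable {X K : Set E} {φ : E → ℝ} {τ r2 C Λ lv : ℝ} {κ : ι → ℝ}

theorem CoreB.loop (hc : CF.IsCurve P Γ e) (hg : CF.Geo P Γ e Sig r1 h)
    (h1 : CoreB Γ e Sig r1 h τ X φ lv) {j : ι} (hk : (e j).k ≠ CF.Kind.pt) :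
    ∀ y ∈ near X (e j).w τ, y.1 ∈ (e j).ann {h} → φ y ≤ lv := fun y hy hz =>
  h1 y hy.1 ⟨(y.1, (e j).w y.1), core_loop hc hg hk hz, rfl, hy.2⟩

theorem CoreB.pt (hg : CF.Geo P Γ e Sig r1 h) (h1 : CoreB Γ e Sig r1 h τ X φ lv) {j : ι}
    (hk : (e j).k = CF.Kind.pt) :
    ∀ y ∈ near X (e j).w τ, ‖y.1 - (e j).c‖ = r1 → φ y ≤ lv := fun y hy hz =>
  h1 y hy.1 ⟨(y.1, (e j).w y.1), core_pt hg hk hz, rfl, hy.2⟩

/-- upper bound on the region of the flux theorem -/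
theorem upper (hc : CF.IsCurve P Γ e) (hg : CF.Geo P Γ e Sig r1 h) (hr : r2 ≤ r1 / 4)
    (hC : 0 ≤ C) (hlv : 0 < lv) (ht : TubeOK Γ e Sig h r2 τ X K φ)
    (h1 : CoreB Γ e Sig r1 h τ X φ lv) (h2 : NodeB Γ Sig r1 r2 τ X K φ (lv * Real.exp C))
    (h3 : ∀ j, EndP (e j) X K φ τ h r1 r2 C Λ (κ j) lv) :
    ∀ x ∈ X, x ∈ CF.tube (CF.reg Γ e Sig (h / 16) r2 (r1 / 4)) τ → φ x ≤ lv * Real.exp C := by
  intro x hx hx'
  by_cases hK : x ∈ K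
  · rw [ht.zero x hx hK (tube_mono (reg_mono le_rfl le_rfl hr) le_rfl hx')]
    positivity
  obtain ⟨y, hy, e1, e2⟩ := hx'
  by_cases hco : y ∈ CF.core Γ e Sig r1 h
  · exact (h1 x hx ⟨y, hco, e1, e2⟩).trans (le_mul_of_one_le_right hlv.le (Real.one_le_exp hC))
  by_cases hb : ∃ b ∈ Sig, ‖x.1 - b‖ < r1
  · exact h2 x hx hK y hy.1 e1 e2 (e1 ▸ hy.2.1) hb
  obtain ⟨j, hj⟩ : ∃ j, y ∈ (e j).gr ((e j).nearO h r1) := by
    by_contra a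
    exact hco ⟨hy.1, fun b hb' => not_lt.1 fun c => hb ⟨b, hb', e1 ▸ c⟩, fun j c => a ⟨j, c⟩⟩
  have hn : x ∈ near X (e j).w τ := ⟨hx, by rw [← e1, ← hj.2]; exact e2⟩
  have hp := hg.hpos
  by_cases hk : (e j).k = CF.Kind.pt
  · have a1 : ‖x.1 - (e j).c‖ < r1 := by
      have := hj.1
      rwa [CF.End.nearO_pt hk, mem_ball_iff_norm, e1] at this
    have a2 : r1 / 4 < ‖x.1 - (e j).c‖ := by
      by_contra a
      refine hy.2.2 j ⟨?_, hj.2⟩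
      rw [CF.End.near_pt hk, mem_closedBall_iff_norm, e1]
      exact not_lt.1 a
    exact ((h3 j).2 hk (fun u hu _ => h1.pt hg hk u hu) x hn hK (by linarith) a1.le).1 a2.le
  · have a1 := hj.1
    rw [CF.End.nearO_loop hk] at a1
    have a2 : (e j).side y.1 := by
      refine (hg.mem j ((e j).nearO_subset_near (by linarith) (by linarith [hg.r1pos]) hj.1)).1 ?_
      rw [← hj.2]; exact hy.1
    have a3 := (CF.End.side_iff hk ((hc.ok j).pos hk) a1.1).1 a2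
    have a4 : h / 16 ≤ (e j).dep y.1 := by
      by_contra a
      refine hy.2.2 j ⟨?_, hj.2⟩
      rw [CF.End.near_loop hk]
      exact ⟨a1.1, by linarith, (not_le.1 a).le⟩
    exact ((h3 j).1 hk).2 (fun u hu _ => h1.loop hc hg hk u hu) x hn
      (e1 ▸ ⟨a1.1, a4, a1.2.2.le⟩)

/-- the level of the core bound is not attained -/
theorem part_lt (hc : CF.IsCurve P Γ e) (hg : CF.Geo P Γ e Sig r1 h) (hr0 : 0 < r2)
    (hr : r2 ≤ r1 / 4) (hC : 0 ≤ C) (hlv : 0 < lv) (hP : PartOK Γ e Sig r1 h Λ C r2 κ)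
    (ht : TubeOK Γ e Sig h r2 τ X K φ)
    (h1 : CoreB Γ e Sig r1 h τ X φ lv) (h2 : NodeB Γ Sig r1 r2 τ X K φ (lv * Real.exp C))
    (h3 : ∀ j, EndP (e j) X K φ τ h r1 r2 C Λ (κ j) lv) :
    ∀ x ∈ X, x ∈ CF.tube (CF.core Γ e Sig r1 h) τ → φ x < lv := by
  intro x hx hx'
  by_contra hcon
  refine hP X K univ τ (fun y => φ y / lv) ht.lm ht.pos (subset_univ _) (fun y hy => ?_)
    (fun y a b c => by rw [ht.zero y a b c, zero_div]) ht.shell (fun y a b => ?_)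
    (fun j hk y a b c d => ?_) ⟨x, hx, hx', (one_le_div hlv).2 (not_lt.1 hcon)⟩
    fun j hk => ((h3 j).1 hk).1
  · obtain ⟨G, a, b⟩ := ht.labs y hy
    refine ⟨fun u => G u / lv, a.div_const, b.mono fun u hu => ?_⟩
    show φ u / lv = ‖G u / lv‖
    rw [hu, norm_div, Complex.norm_real, Real.norm_eq_abs, abs_of_pos hlv]
  · rw [div_le_iff₀ hlv, mul_comm]
    exact upper hc hg hr hC hlv ht h1 h2 h3 y a b
  · rw [div_le_iff₀ hlv, mul_comm]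
    have hr1 := hg.r1pos
    by_cases hK : y ∈ K
    · have hz : y.1 ∈ (e j).near (2 * h) (2 * r1) := by
        rw [CF.End.near_pt hk, mem_closedBall_iff_norm]; linarith
      rw [ht.zero y a hK ⟨(y.1, (e j).w y.1), ⟨(hg.mem j hz).2 (CF.End.side_pt hk _),
        fun b' hb' => by linarith [hg.sig j _ hz b' hb'], fun i hi => ?_⟩, rfl, d⟩]
      · positivity
      · by_cases hij : i = j
        · subst hij
          have := hi.1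
          rw [CF.End.near_pt hk, mem_closedBall_iff_norm] at this
          exact absurd this (not_le.2 b)
        · exact disjoint_left.1 (hg.disj hij) (CF.End.gr_mono _ ((e i).near_mono
            (by linarith [hg.hpos]) (by linarith)) hi) ⟨hz, rfl⟩
    · exact ((h3 j).2 hk (fun u hu _ => h1.pt hg hk u hu) y ⟨a, d⟩ hK b.le (by linarith)).2

end

theorem isCompact_tube {A : Set E} (hA : IsCompact A) (τ : ℝ) : IsCompact (CF.tube A τ) := by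
  have : CF.tube A τ = (fun p : E × ℂ => (p.1.1, p.1.2 + p.2)) '' (A ×ˢ closedBall 0 τ) := by
    ext x
    constructor
    · rintro ⟨y, a, b, c⟩
      exact ⟨(y, x.2 - y.2), ⟨a, mem_closedBall_zero_iff.2 c⟩, Prod.ext b (by simp)⟩
    · rintro ⟨p, ⟨a, b⟩, rfl⟩
      exact ⟨p.1, a, rfl, by simpa using b⟩
  rw [this]
  exact (hA.prod (isCompact_closedBall _ _)).image (by fun_prop)

theorem labs_cont {φ : E → ℝ} {U : Set E} (h : CF.LAbs φ U) : ContinuousOn φ U := fun y hy => by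
  obtain ⟨G, a, b⟩ := h y hy
  exact (a.continuousAt.norm.congr (b.mono fun u hu => hu.symm)).continuousWithinAt

/-- finitely many parts: no level above the threshold is attained -/
theorem cert_max {I : Type*} [Finite I] (T : I → Set E) (φ : I → E → ℝ) (thr : ℝ)
    (hT : ∀ i, IsCompact (T i)) (hφ : ∀ i, ContinuousOn (φ i) (T i))
    (h : ∀ lv, thr < lv → (∀ i, ∀ x ∈ T i, φ i x ≤ lv) → ∀ i, ∀ x ∈ T i, φ i x < lv) :
    ∀ i, ∀ x ∈ T i, φ i x ≤ thr := by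
  intro i x hx
  have h1 : IsCompact (⋃ i, φ i '' T i) :=
    isCompact_iUnion fun i => (hT i).image_of_continuousOn (hφ i)
  obtain ⟨m, hm, h2⟩ := h1.exists_isGreatest ⟨_, mem_iUnion.2 ⟨i, x, hx, rfl⟩⟩
  have h3 : ∀ i, ∀ x ∈ T i, φ i x ≤ m := fun i x hx => h2 (mem_iUnion.2 ⟨i, x, hx, rfl⟩)
  obtain ⟨j, y, hy, rfl⟩ := mem_iUnion.1 hm
  by_contra a
  exact lt_irrefl _ (h _ ((not_le.1 a).trans_le (h3 i x hx)) h3 j y hy)

/-- maximum principle on an open region -/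
theorem node {X K V : Set E} (hX : IsCompact X) (hl : HULL.LM X K univ) (hV : IsOpen V)
    {φ : E → ℝ} {lv : ℝ} (ha : CF.LAbs φ (X ∩ closure V))
    (hb : ∀ x ∈ X, x ∈ closure V → x ∈ K ∨ x ∉ V → φ x ≤ lv) :
    ∀ x ∈ X, x ∈ closure V → φ x ≤ lv := by
  intro x hx hx'
  refine HULL.maxabs HULL.c2 (hX.inter_right isClosed_closure) (labs_cont ha)
    (fun y hy hlt => ?_) x ⟨hx, hx'⟩
  have h1 : ¬ (y ∈ K ∨ y ∉ V) := fun a => absurd (hb y hy.1 hy.2 a) (not_le.2 hlt)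
  rw [not_or, not_not] at h1
  obtain ⟨G, a, b⟩ := ha y hy
  refine ⟨(hl.noPeak y hy.1 (mem_univ _) h1.1).mono ?_, G, a, b.mono fun u hu _ => hu⟩
  filter_upwards [hV.mem_nhds h1.2] with u hu hu' using ⟨hu', subset_closure hu⟩

/-- the region over the discs about `Sig` and `Sig'` -/
def nodeV (Γ Γ' : Set E) (Sig Sig' : Finset ℂ) (r1 r1' R : ℝ) : Set E :=
  {x | (∃ b ∈ Sig, ‖x.1 - b‖ < r1) ∧ x ∈ thickening R Γ} ∪
    {x | (∃ b ∈ Sig', ‖x.1 - b‖ < r1') ∧ x ∈ thickening R Γ'}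

theorem isOpen_nodeV (Γ Γ' : Set E) (Sig Sig' : Finset ℂ) (r1 r1' R : ℝ) :
    IsOpen (nodeV Γ Γ' Sig Sig' r1 r1' R) := by
  have h : ∀ (S : Finset ℂ) (r : ℝ), IsOpen {x : E | ∃ b ∈ S, ‖x.1 - b‖ < r} := fun S r => by
    have : {x : E | ∃ b ∈ S, ‖x.1 - b‖ < r} = ⋃ b ∈ S, {x : E | ‖x.1 - b‖ < r} := by
      ext x; simp
    rw [this]
    exact isOpen_biUnion fun b _ => isOpen_lt (by fun_prop) continuous_const
  exact ((h Sig r1).inter isOpen_thickening).union ((h Sig' r1').inter isOpen_thickening)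

theorem thick_of_fib {Γ : Set E} {x y : E} {τ R : ℝ} (hy : y ∈ Γ) (h1 : y.1 = x.1)
    (h2 : ‖x.2 - y.2‖ ≤ τ) (h0 : 0 < R) (h3 : τ < R) : x ∈ thickening R Γ := by
  refine mem_thickening_iff.2 ⟨y, hy, ?_⟩
  rw [Prod.dist_eq, h1, dist_self, dist_eq_norm]
  exact max_lt h0 (h2.trans_lt h3)

/-- bound over the discs about `Sig`, `Sig'` from the bounds on the two cores -/
theorem node_vb (hVB : CF.St_VB) {ι ι' : Type} [Fintype ι] [Fintype ι'] {P P' : E → ℂ}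
    {Γ Γ' : Set E} {e : ι → CF.End} {e' : ι' → CF.End} {Sig Sig' : Finset ℂ} {r1 h r1' h' : ℝ}
    (hc : CF.IsCurve P Γ e) (hg : CF.Geo P Γ e Sig r1 h) (hc' : CF.IsCurve P' Γ' e')
    (hg' : CF.Geo P' Γ' e' Sig' r1' h') (hn : ∀ y ∈ Γ, y ∈ Γ' → y.1 ∈ Sig ∧ y.1 ∈ Sig') :
    ∃ R1 > 0, ∀ R, 0 < R → R ≤ R1 → ∀ τ > 0, ∃ R0 > 0, ∀ (X K : Set E) (φ : E → ℝ) (lv : ℝ),
      IsCompact X → HULL.LM X K univ → X \ K ⊆ thickening R0 (Γ ∪ Γ') →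
      CF.LAbs φ (X ∩ closure (nodeV Γ Γ' Sig Sig' r1 r1' R)) →
      (∀ x ∈ X, x ∈ closure (nodeV Γ Γ' Sig Sig' r1 r1' R) → x ∈ K ∨
        x ∈ CF.tube (CF.core Γ e Sig r1 h) τ ∨ x ∈ CF.tube (CF.core Γ' e' Sig' r1' h') τ →
        φ x ≤ lv) →
      ∀ x ∈ X, x ∈ closure (nodeV Γ Γ' Sig Sig' r1 r1' R) → φ x ≤ lv := by
  obtain ⟨R1, h1, H⟩ := hVB ι ι' P P' Γ Γ' e e' Sig Sig' r1 h r1' h' hc hg hc' hg' hn
  refine ⟨R1, h1, fun R a b τ c => ?_⟩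
  obtain ⟨R0, h2, H'⟩ := H R a b τ c
  refine ⟨R0, h2, fun X K φ lv x1 x2 x3 x4 x5 =>
    node x1 x2 (isOpen_nodeV _ _ _ _ _ _ _) x4 fun x hx hx' hh => x5 x hx hx' ?_⟩
  by_cases hK : x ∈ K
  · exact Or.inl hK
  · exact Or.inr ((H' x (x3 ⟨hx, hK⟩) hx').resolve_left (hh.resolve_left hK))

/-- node bounds for the two curves from a bound on the node region -/
theorem nodeB_of {Γ Γ' X K : Set E} {Sig Sig' : Finset ℂ} {r1 r1' R τ B : ℝ} {φ : E → ℝ}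
    (h0 : 0 < R) (hτ : τ < R)
    (h : ∀ x ∈ X, x ∉ K → x ∈ nodeV Γ Γ' Sig Sig' r1 r1' R → φ x ≤ B) (r2 r2' : ℝ) :
    NodeB Γ Sig r1 r2 τ X K φ B ∧ NodeB Γ' Sig' r1' r2' τ X K φ B :=
  ⟨fun x a b _ c d e _ f => h x a b (Or.inl ⟨f, thick_of_fib c d e h0 hτ⟩),
    fun x a b _ c d e _ f => h x a b (Or.inr ⟨f, thick_of_fib c d e h0 hτ⟩)⟩

end Pool.Agent.Lib.SH
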