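import Pool.Agent.Lib.SH.Cert

/-!
Design independent certificates with two and three parts.
-/

open Set Filter Topology Metric

noncomputable section

namespace Pool.Agent.Lib.SH

/-- the points of `Γ` over the closed discs about `Sig` -/
def dsc (Γ : Set E) (Sig : Finset ℂ) (r1 : ℝ) : Set E := {y | y ∈ Γ ∧ ∃ b ∈ Sig, ‖y.1 - b‖ ≤ r1}

theorem tube_sub {A U : Set E} (hA : IsCompact A) (hU : IsOpen U) (h : A ⊆ U) :
    ∃ τ0 > 0, CF.tube A τ0 ⊆ U := by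
  obtain ⟨δ, h1, h2⟩ := hA.exists_thickening_subset_open hU h
  exact ⟨δ / 2, half_pos h1, fun x ⟨y, a, b, c⟩ => h2 (thick_of_fib a b c h1 (half_lt_self h1))⟩

theorem closure_sub {Γ U : Set E} (hΓ : IsCompact Γ) (hU : IsOpen U) (Sig : Finset ℂ) (r1 : ℝ)
    (h : dsc Γ Sig r1 ⊆ U) : ∃ R1 > 0,
      closure {x : E | (∃ b ∈ Sig, ‖x.1 - b‖ < r1) ∧ x ∈ thickening R1 Γ} ⊆ U := by
  have h1 : IsClosed {x : E | ∃ b ∈ Sig, ‖x.1 - b‖ ≤ r1} := by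
    have : {x : E | ∃ b ∈ Sig, ‖x.1 - b‖ ≤ r1} = ⋃ b ∈ Sig, {x : E | ‖x.1 - b‖ ≤ r1} := by
      ext x; simp
    rw [this]
    exact Sig.finite_toSet.isClosed_biUnion fun b _ => isClosed_le (by fun_prop) continuous_const
  obtain ⟨δ, h2, h3⟩ := hΓ.exists_cthickening_subset_open (h1.isOpen_compl.union hU)
    fun y hy => by
      by_cases a : ∃ b ∈ Sig, ‖y.1 - b‖ ≤ r1
      · exact Or.inr (h ⟨hy, a⟩)
      · exact Or.inl a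
  refine ⟨δ, h2, (closure_minimal (fun x hx => ?_) (h1.inter isClosed_cthickening)).trans
    fun x (hx : _ ∧ x ∈ cthickening δ Γ) => (h3 hx.2).resolve_left fun a => a hx.1⟩
  exact ⟨hx.1.imp fun b a => ⟨a.1, a.2.le⟩, thickening_subset_cthickening _ _ hx.2⟩

/-- the part of a frame which concerns one curve -/
structure Fr1 {ι : Type} (Γ : Set E) (e : ι → CF.End) (Sig : Finset ℂ) (r1 h r2 τ : ℝ)
    (N U V : Set E) : Prop where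
  cpt : IsCompact (CF.core Γ e Sig r1 h)
  sub : CF.tube (CF.reg Γ e Sig (h / 16) r2 r2) τ ⊆ U
  shell : ∀ x ∈ N, ∀ y ∈ CF.reg Γ e Sig (h / 16) r2 r2, y.1 = x.1 → ‖x.2 - y.2‖ ≠ τ
  mem : ∀ x : E, ∀ y ∈ Γ, y.1 = x.1 → ‖x.2 - y.2‖ ≤ τ → (∃ b ∈ Sig, ‖x.1 - b‖ < r1) → x ∈ V

/-- tubes, node region `V` and the neighbourhood `N` of two curves -/
structure Frame {ι ι' : Type} (Γ : Set E) (e : ι → CF.End) (Sig : Finset ℂ) (r1 h r2 : ℝ)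
    (Γ' : Set E) (e' : ι' → CF.End) (Sig' : Finset ℂ) (r1' h' r2' τ : ℝ)
    (N U U' W V : Set E) : Prop where
  l : Fr1 Γ e Sig r1 h r2 τ N U V
  r : Fr1 Γ' e' Sig' r1' h' r2' τ N U' V
  op : IsOpen V
  sub : closure V ⊆ W
  bd : ∀ x ∈ N, x ∈ closure V → x ∈ V ∨ x ∈ CF.tube (CF.core Γ e Sig r1 h) τ ∨
    x ∈ CF.tube (CF.core Γ' e' Sig' r1' h') τ
  cov : ∀ x ∈ N, x ∈ V ∨ x ∈ CF.tube (CF.core Γ e Sig r1 h) τ ∨
    x ∈ CF.tube (CF.core Γ' e' Sig' r1' h') τ ∨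
    (∃ j, x ∈ CF.tube ((e j).gr ((e j).near h r1)) τ) ∨
    ∃ j, x ∈ CF.tube ((e' j).gr ((e' j).near h' r1')) τ

section
variable {ι ι' : Type} {P P' : E → ℂ} {Γ Γ' : Set E} {e : ι → CF.End} {e' : ι' → CF.End}
  {Sig Sig' : Finset ℂ} {r1 h r2 r1' h' r2' : ℝ}

theorem reg_sub_core {a ρ : ℝ} : CF.reg Γ e Sig a ρ ρ ⊆ CF.core Γ e Sig ρ a :=
  fun _ hy => ⟨hy.1, fun b hb => (hy.2.1 b hb).le, fun j hj =>
    hy.2.2 j (CF.End.gr_mono _ ((e j).nearO_subset_near le_rfl le_rfl) hj)⟩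

theorem fr1 [Fintype ι] (hSH : CF.St_SHELL) (hRG : CF.St_REG) (hc : CF.IsCurve P Γ e)
    (hg : CF.Geo P Γ e Sig r1 h) (hΓ' : IsCompact Γ') (hn : ∀ y ∈ Γ, y ∈ Γ' → y.1 ∈ Sig)
    (h0 : 0 < r2) (h4 : r2 ≤ r1 / 4) {U : Set E} (hU : IsOpen U)
    (h1 : CF.core Γ e Sig r2 (h / 16) ⊆ U) :
    ∃ τ0 > 0, ∀ τ, 0 < τ → τ ≤ τ0 → ∃ R0 > 0, ∀ V : Set E,
      (∀ x : E, ∀ y ∈ Γ, y.1 = x.1 → ‖x.2 - y.2‖ ≤ τ → (∃ b ∈ Sig, ‖x.1 - b‖ < r1) → x ∈ V) →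
      Fr1 Γ e Sig r1 h r2 τ (thickening R0 (Γ ∪ Γ')) U V := by
  have p1 := hg.r1pos
  have p2 := hg.hpos
  have c1 := (hRG ι P Γ e Sig r1 h hc hg).2
  obtain ⟨t1, a1, b1⟩ := tube_sub (c1 (h / 16) r2 (by linarith) (by linarith) h0 (by linarith))
    hU h1
  obtain ⟨t2, a2, b2⟩ := (hSH ι P Γ Γ' e Sig r1 h hc hg hΓ').1 hn r2 h0
  refine ⟨min t1 t2, lt_min a1 a2, fun τ a b => ?_⟩
  obtain ⟨R0, a3, b3⟩ := b2 τ a
  exact ⟨R0, a3, fun V hV => ⟨c1 h r1 p2 (by linarith) p1 (by linarith),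
    (tube_mono reg_sub_core (b.trans (min_le_left _ _))).trans b1, fun x hx y hy c d =>
      (b3 x hx y hy.1 (fun b hb => (hy.2.1 b hb).le) c (d.le.trans
        (b.trans (min_le_right _ _)))).ne d, hV⟩⟩

theorem Fr1.mono {τ : ℝ} {N N' U V : Set E} (hf : Fr1 Γ e Sig r1 h r2 τ N U V) (hN : N' ⊆ N) :
    Fr1 Γ e Sig r1 h r2 τ N' U V :=
  ⟨hf.cpt, hf.sub, fun x hx => hf.shell x (hN hx), hf.mem⟩

theorem frame [Fintype ι] [Fintype ι'] (hVB : CF.St_VB) (hSH : CF.St_SHELL) (hTB : CF.St_TUBE)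
    (hRG : CF.St_REG) (hc : CF.IsCurve P Γ e) (hg : CF.Geo P Γ e Sig r1 h)
    (hc' : CF.IsCurve P' Γ' e') (hg' : CF.Geo P' Γ' e' Sig' r1' h')
    (hn : ∀ y ∈ Γ, y ∈ Γ' → y.1 ∈ Sig ∧ y.1 ∈ Sig') (h0 : 0 < r2) (h4 : r2 ≤ r1 / 4)
    (h0' : 0 < r2') (h4' : r2' ≤ r1' / 4) {U U' W : Set E} (hU : IsOpen U) (hU' : IsOpen U')
    (hW : IsOpen W) (h1 : CF.core Γ e Sig r2 (h / 16) ⊆ U)
    (h2 : CF.core Γ' e' Sig' r2' (h' / 16) ⊆ U') (h3 : dsc Γ Sig r1 ⊆ W)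
    (h3' : dsc Γ' Sig' r1' ⊆ W) :
    ∃ τ0 > 0, ∀ τ, 0 < τ → τ ≤ τ0 → ∃ R0 > 0, ∃ V,
      Frame Γ e Sig r1 h r2 Γ' e' Sig' r1' h' r2' τ (thickening R0 (Γ ∪ Γ')) U U' W V := by
  obtain ⟨t1, a1, b1⟩ := fr1 hSH hRG hc hg hc'.cpt (fun y a b => (hn y a b).1) h0 h4 hU h1
  obtain ⟨t2, a2, b2⟩ := fr1 hSH hRG hc' hg' hc.cpt (fun y a b => (hn y b a).2) h0' h4' hU' h2
  obtain ⟨R1, a3, b3⟩ := hVB ι ι' P P' Γ Γ' e e' Sig Sig' r1 h r1' h' hc hg hc' hg' hn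
  obtain ⟨R2, a4, b4⟩ := closure_sub hc.cpt hW Sig r1 h3
  obtain ⟨R3, a5, b5⟩ := closure_sub hc'.cpt hW Sig' r1' h3'
  obtain ⟨R, a6, c1, c2, c3⟩ : ∃ R > 0, R ≤ R1 ∧ R ≤ R2 ∧ R ≤ R3 :=
    ⟨min R1 (min R2 R3), by positivity, min_le_left _ _, (min_le_right _ _).trans
      (min_le_left _ _), (min_le_right _ _).trans (min_le_right _ _)⟩
  refine ⟨min (min t1 t2) (R / 2), by positivity, fun τ a b => ?_⟩
  have d1 : τ < R := by linarith [b.trans (min_le_right _ _)]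
  obtain ⟨S1, e1, f1⟩ := b1 τ a (b.trans ((min_le_left _ _).trans (min_le_left _ _)))
  obtain ⟨S2, e2, f2⟩ := b2 τ a (b.trans ((min_le_left _ _).trans (min_le_right _ _)))
  obtain ⟨S3, e3, f3⟩ := b3 R a6 c1 τ a
  obtain ⟨S4, e4, f4⟩ := hTB ι P Γ e Sig r1 h hc hg τ a
  obtain ⟨S5, e5, f5⟩ := hTB ι' P' Γ' e' Sig' r1' h' hc' hg' τ a
  obtain ⟨S, e6, g1, g2, g3, g4, g5, g6⟩ :
      ∃ S > 0, S ≤ S1 ∧ S ≤ S2 ∧ S ≤ S3 ∧ S ≤ S4 ∧ S ≤ S5 ∧ S ≤ R := by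
    refine ⟨min (min (min S1 S2) (min S3 S4)) (min S5 R), by positivity, ?_⟩
    simp only [min_le_iff, le_refl, true_or, or_true, and_self]
  refine ⟨S, e6, nodeV Γ Γ' Sig Sig' r1 r1' R,
    (f1 _ fun x y k1 k2 k3 k4 => Or.inl ⟨k4, thick_of_fib k1 k2 k3 a6 d1⟩).mono
      (thickening_mono g1 _),
    (f2 _ fun x y k1 k2 k3 k4 => Or.inr ⟨k4, thick_of_fib k1 k2 k3 a6 d1⟩).mono
      (union_comm Γ Γ' ▸ thickening_mono g2 _), isOpen_nodeV _ _ _ _ _ _ _, ?_,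
    fun x hx => f3 x (thickening_mono g3 _ hx), fun x hx => ?_⟩
  · rw [nodeV, closure_union]
    refine union_subset (Subset.trans (closure_mono fun x hx => ?_) b4)
      (Subset.trans (closure_mono fun x hx => ?_) b5)
    · exact ⟨hx.1, thickening_mono c2 _ hx.2⟩
    · exact ⟨hx.1, thickening_mono c3 _ hx.2⟩
  · rw [thickening_union] at hx
    rcases hx with hx | hx
    · rcases f4 x (thickening_mono g4 _ hx) with k | k | k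
      · exact Or.inr (Or.inl k)
      · exact Or.inr (Or.inr (Or.inr (Or.inl k)))
      · exact Or.inl (Or.inl ⟨k, thickening_mono g6 _ hx⟩)
    · rcases f5 x (thickening_mono g5 _ hx) with k | k | k
      · exact Or.inr (Or.inr (Or.inl k))
      · exact Or.inr (Or.inr (Or.inr (Or.inr k)))
      · exact Or.inl (Or.inr ⟨k, thickening_mono g6 _ hx⟩)

variable {τ : ℝ} {N U U' W V X K : Set E}

theorem core_tube_sub (hg : CF.Geo P Γ e Sig r1 h) (h4 : r2 ≤ r1 / 4) :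
    CF.tube (CF.core Γ e Sig r1 h) τ ⊆ CF.tube (CF.reg Γ e Sig (h / 16) r2 r2) τ :=
  tube_mono (core_sub_reg (by linarith [hg.hpos]) (by linarith [hg.r1pos])
    (by linarith [hg.r1pos])) le_rfl

/-- tube hypotheses for a piece `X1` of `X` -/
theorem Fr1.tubeOK (hf : Fr1 Γ e Sig r1 h r2 τ N U V) (hτ : 0 < τ) {φ : E → ℝ}
    (hl : HULL.LM X K univ) (hN : X \ K ⊆ N) (ha : CF.LAbs φ U)
    (hz : ∀ x ∈ X, x ∈ K → x ∈ U → φ x = 0) : TubeOK Γ e Sig h r2 τ X K φ :=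
  ⟨hl, hτ, fun y hy => ha y (hf.sub hy), fun x a b c => hz x a b (hf.sub c),
    fun x a b => hf.shell x (hN ⟨a, b⟩)⟩

theorem Fr1.nodeB (hf : Fr1 Γ e Sig r1 h r2 τ N U V) (hg : CF.Geo P Γ e Sig r1 h)
    (h4 : r2 ≤ r1 / 4) {φ : E → ℝ} {B : ℝ}
    (h1 : ∀ x ∈ X, x ∉ K → x ∈ U → x ∈ V → φ x ≤ B) : NodeB Γ Sig r1 r2 τ X K φ B := by
  intro x a b y c d f k g
  refine h1 x a b (hf.sub ⟨y, ⟨c, d ▸ k, fun j hj => ?_⟩, d, f⟩) (hf.mem x y c d f g)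
  obtain ⟨u, hu, g⟩ := g
  have p1 := hg.r1pos
  have := hg.sig j _ ((e j).near_mono (by linarith [hg.hpos]) (by linarith) hj.1) u hu
  rw [d] at this
  linarith

/-- maximum principle on the node region; `φ` is the modulus of an analytic function only
where it is positive -/
theorem Frame.node (hf : Frame Γ e Sig r1 h r2 Γ' e' Sig' r1' h' r2' τ N U U' W V)
    (hX : IsCompact X) (hl : HULL.LM X K univ) (hN : X \ K ⊆ N) {φ : E → ℝ} {B : ℝ}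
    (hB : 0 ≤ B) (hφ : ContinuousOn φ W) (ha : CF.LAbs φ {x | x ∈ W ∧ 0 < φ x})
    (hz : ∀ x ∈ X, x ∈ K → x ∈ W → φ x ≤ B)
    (h1 : ∀ x ∈ X, x ∉ K → x ∈ W → x ∈ CF.tube (CF.core Γ e Sig r1 h) τ ∨
      x ∈ CF.tube (CF.core Γ' e' Sig' r1' h') τ → φ x ≤ B) :
    ∀ x ∈ X, x ∈ V → φ x ≤ B := by
  intro x hx hx'
  refine HULL.maxabs HULL.c2 (hX.inter_right isClosed_closure)
    (hφ.mono fun y hy => hf.sub hy.2) (fun y hy hlt => ?_) x ⟨hx, subset_closure hx'⟩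
  have k1 : y ∉ K := fun a => absurd (hz y hy.1 a (hf.sub hy.2)) (not_le.2 hlt)
  have k2 : y ∈ V := (hf.bd y (hN ⟨hy.1, k1⟩) hy.2).resolve_right fun a =>
    absurd (h1 y hy.1 k1 (hf.sub hy.2) a) (not_le.2 hlt)
  obtain ⟨G, a, b⟩ := ha y ⟨hf.sub hy.2, hB.trans_lt hlt⟩
  refine ⟨(hl.noPeak y hy.1 (mem_univ _) k1).mono ?_, G, a, b.mono fun u hu _ => hu⟩
  filter_upwards [hf.op.mem_nhds k2] with u hu hu' using ⟨hu', subset_closure hu⟩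

/-- strict bound on the tube over the core -/
def CoreS {ι : Type} (Γ : Set E) (e : ι → CF.End) (Sig : Finset ℂ) (r1 h τ : ℝ) (X : Set E)
    (φ : E → ℝ) (lv : ℝ) : Prop :=
  ∀ x ∈ X, x ∈ CF.tube (CF.core Γ e Sig r1 h) τ → φ x < lv

/-- rigidity of a part at the level `lv` -/
def Rig {ι : Type} (Γ : Set E) (e : ι → CF.End) (Sig : Finset ℂ) (r1 h r2 τ : ℝ) (X K : Set E)
    (φ : E → ℝ) (lv D : ℝ) : Prop :=
  TubeOK Γ e Sig h r2 τ X K φ → NodeB Γ Sig r1 r2 τ X K φ (lv * D) → CoreS Γ e Sig r1 h τ X φ lv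

theorem NodeB.mono {φ : E → ℝ} {B B' : ℝ} (h1 : NodeB Γ Sig r1 r2 τ X K φ B) (h2 : B ≤ B') :
    NodeB Γ Sig r1 r2 τ X K φ B' := fun x a b y c d f k g => (h1 x a b y c d f k g).trans h2

theorem rig_of (hc : CF.IsCurve P Γ e) (hg : CF.Geo P Γ e Sig r1 h) (h0 : 0 < r2)
    (h4 : r2 ≤ r1 / 4) {φ : E → ℝ} {C Λ lv D : ℝ} {κ : ι → ℝ} (hD : 1 ≤ D) (hC : D ≤ Real.exp C)
    (hlv : 0 < lv) (hP : PartOK Γ e Sig r1 h Λ C r2 κ) (h1 : CoreB Γ e Sig r1 h τ X φ lv)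
    (h3 : ∀ j, EndP (e j) X K φ τ h r1 r2 C Λ (κ j) lv) : Rig Γ e Sig r1 h r2 τ X K φ lv D :=
  fun a b => part_lt hc hg h0 h4 (Real.one_le_exp_iff.1 (hD.trans hC)) hlv hP a h1
    (b.mono (mul_le_mul_of_nonneg_left hC hlv.le)) h3

theorem Frame.node2 (hf : Frame Γ e Sig r1 h r2 Γ' e' Sig' r1' h' r2' τ N U U U V)
    (hX : IsCompact X) (hl : HULL.LM X K univ) (hN : X \ K ⊆ N) {φ : E → ℝ}
    (ha : CF.LAbs φ U) (hz : ∀ x ∈ X, x ∈ K → x ∈ U → φ x = 0) {lv : ℝ} (a : 0 ≤ lv)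
    (b : CoreB Γ e Sig r1 h τ X φ lv) (c : CoreB Γ' e' Sig' r1' h' τ X φ lv) :
    ∀ x ∈ X, x ∈ V → φ x ≤ lv :=
  hf.node hX hl hN a (labs_cont ha) (fun y hy => ha y hy.1)
    (fun x k1 k2 k3 => (hz x k1 k2 k3).trans_le a) fun x k1 _ _ k => k.elim (b x k1) (c x k1)

/-- certificate with two parts and one function, from the rigidity of the parts -/
theorem cert2R (hg : CF.Geo P Γ e Sig r1 h) (hg' : CF.Geo P' Γ' e' Sig' r1' h')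
    (h4 : r2 ≤ r1 / 4) (h4' : r2' ≤ r1' / 4)
    (hf : Frame Γ e Sig r1 h r2 Γ' e' Sig' r1' h' r2' τ N U U U V) (hτ : 0 < τ)
    (hX : IsCompact X) (hl : HULL.LM X K univ) (hN : X \ K ⊆ N) {φ : E → ℝ}
    {thr : ℝ} (ht : 0 ≤ thr) (ha : CF.LAbs φ U) (hz : ∀ x ∈ X, x ∈ K → x ∈ U → φ x = 0)
    (hE : ∀ lv, thr < lv → CoreB Γ e Sig r1 h τ X φ lv → CoreB Γ' e' Sig' r1' h' τ X φ lv →
      Rig Γ e Sig r1 h r2 τ X K φ lv 1 ∧ Rig Γ' e' Sig' r1' h' r2' τ X K φ lv 1) :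
    CoreB Γ e Sig r1 h τ X φ thr ∧ CoreB Γ' e' Sig' r1' h' τ X φ thr ∧
      ∀ x ∈ X, x ∈ V → φ x ≤ thr := by
  have key := cert_max (fun b : Bool => X ∩ cond b (CF.tube (CF.core Γ e Sig r1 h) τ)
    (CF.tube (CF.core Γ' e' Sig' r1' h') τ)) (fun _ => φ) thr
    (fun b => hX.inter_right (by
      cases b
      · exact (isCompact_tube hf.r.cpt τ).isClosed
      · exact (isCompact_tube hf.l.cpt τ).isClosed))
    (fun b => (labs_cont ha).mono (by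
      cases b
      · exact fun x hx => hf.r.sub (core_tube_sub hg' h4' hx.2)
      · exact fun x hx => hf.l.sub (core_tube_sub hg h4 hx.2)))
    (fun lv a b => by
      have k0 : 0 < lv := ht.trans_lt a
      have k1 : CoreB Γ e Sig r1 h τ X φ lv := fun x c d => b true x ⟨c, d⟩
      have k2 : CoreB Γ' e' Sig' r1' h' τ X φ lv := fun x c d => b false x ⟨c, d⟩
      have k3 := hf.node2 hX hl hN ha hz k0.le k1 k2
      rintro (_ | _) x hx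
      · exact (hE lv a k1 k2).2 (hf.r.tubeOK hτ hl hN ha hz)
          (hf.r.nodeB hg' h4' fun u c _ _ d => (k3 u c d).trans_eq (mul_one _).symm) x hx.1 hx.2
      · exact (hE lv a k1 k2).1 (hf.l.tubeOK hτ hl hN ha hz)
          (hf.l.nodeB hg h4 fun u c _ _ d => (k3 u c d).trans_eq (mul_one _).symm) x hx.1 hx.2)
  have k1 : CoreB Γ e Sig r1 h τ X φ thr := fun x c d => key true x ⟨c, d⟩
  have k2 : CoreB Γ' e' Sig' r1' h' τ X φ thr := fun x c d => key false x ⟨c, d⟩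
  exact ⟨k1, k2, hf.node2 hX hl hN ha hz ht k1 k2⟩

/-- certificate with two parts and one function -/
theorem cert2 (hc : CF.IsCurve P Γ e) (hg : CF.Geo P Γ e Sig r1 h)
    (hc' : CF.IsCurve P' Γ' e') (hg' : CF.Geo P' Γ' e' Sig' r1' h') (h0 : 0 < r2)
    (h4 : r2 ≤ r1 / 4) (h0' : 0 < r2') (h4' : r2' ≤ r1' / 4)
    (hf : Frame Γ e Sig r1 h r2 Γ' e' Sig' r1' h' r2' τ N U U U V) (hτ : 0 < τ)
    (hX : IsCompact X) (hl : HULL.LM X K univ) (hN : X \ K ⊆ N) {φ : E → ℝ}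
    {thr C Λ C' Λ' : ℝ} {κ : ι → ℝ} {κ' : ι' → ℝ} (ht : 0 ≤ thr) (hC : 0 ≤ C) (hC' : 0 ≤ C')
    (hP : PartOK Γ e Sig r1 h Λ C r2 κ) (hP' : PartOK Γ' e' Sig' r1' h' Λ' C' r2' κ')
    (ha : CF.LAbs φ U) (hz : ∀ x ∈ X, x ∈ K → x ∈ U → φ x = 0)
    (hE : ∀ lv, thr < lv → CoreB Γ e Sig r1 h τ X φ lv → CoreB Γ' e' Sig' r1' h' τ X φ lv →
      (∀ j, EndP (e j) X K φ τ h r1 r2 C Λ (κ j) lv) ∧
        ∀ j, EndP (e' j) X K φ τ h' r1' r2' C' Λ' (κ' j) lv) :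
    CoreB Γ e Sig r1 h τ X φ thr ∧ CoreB Γ' e' Sig' r1' h' τ X φ thr ∧
      ∀ x ∈ X, x ∈ V → φ x ≤ thr :=
  cert2R hg hg' h4 h4' hf hτ hX hl hN ht ha hz fun lv a b c =>
    ⟨rig_of hc hg h0 h4 le_rfl (Real.one_le_exp hC) (ht.trans_lt a) hP b (hE lv a b c).1,
      rig_of hc' hg' h0' h4' le_rfl (Real.one_le_exp hC') (ht.trans_lt a) hP' c (hE lv a b c).2⟩

/-- certificate with three parts: the pieces `X1`, `X0` along the first curve, and the second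
curve -/
theorem cert3R (hg : CF.Geo P Γ e Sig r1 h) (hg' : CF.Geo P' Γ' e' Sig' r1' h')
    (h4 : r2 ≤ r1 / 4) (h4' : r2' ≤ r1' / 4)
    (hf : Frame Γ e Sig r1 h r2 Γ' e' Sig' r1' h' r2' τ N U U' W V) (hτ : 0 < τ)
    (hX : IsCompact X) (hl : HULL.LM X K univ) (hN : X \ K ⊆ N) {X1 K1 X0 K0 : Set E}
    (s1 : X1 ⊆ X) (s0 : X0 ⊆ X) (t1 : K ⊆ K1) (t0 : K ⊆ K0) (l1 : HULL.LM X1 K1 univ)
    (l0 : HULL.LM X0 K0 univ) {f φ1 φ0 φ : E → ℝ} {D : ℝ} (hD : 1 ≤ D)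
    (a1 : CF.LAbs φ1 U) (a0 : CF.LAbs φ0 U) (a2 : CF.LAbs φ U') (a3 : CF.LAbs f W)
    (a4 : ContinuousOn φ W) (a5 : CF.LAbs φ {x | x ∈ W ∧ 0 < φ x})
    (z1 : ∀ x ∈ X1, x ∈ K1 → x ∈ U → φ1 x = 0) (z0 : ∀ x ∈ X0, x ∈ K0 → x ∈ U → φ0 x = 0)
    (z2 : ∀ x ∈ X, x ∈ K → x ∈ U' → φ x = 0) (z3 : ∀ x ∈ X, x ∈ K → x ∈ W → f x = 0 ∧ φ x = 0)
    (b1 : ∀ x ∈ X, x ∉ K → x ∈ CF.tube (CF.core Γ e Sig r1 h) τ →
      (x ∈ X1 ∧ φ x ≤ φ1 x ∧ f x ≤ D * φ1 x) ∨ (x ∈ X0 ∧ φ x ≤ φ0 x ∧ f x ≤ D * φ0 x))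
    (b2 : ∀ x ∈ X, x ∉ K → x ∈ CF.tube (CF.core Γ' e' Sig' r1' h') τ → f x ≤ D * φ x)
    (b3 : ∀ x ∈ X1, x ∉ K1 → x ∈ U → x ∈ W → φ1 x ≤ D * f x ∨ φ1 x ≤ D * φ x)
    (b4 : ∀ x ∈ X0, x ∉ K0 → x ∈ U → x ∈ W → φ0 x ≤ D * f x)
    (hE : ∀ lv, 0 < lv → CoreB Γ e Sig r1 h τ X1 φ1 lv → CoreB Γ e Sig r1 h τ X0 φ0 lv →
      CoreB Γ' e' Sig' r1' h' τ X φ lv →
      Rig Γ e Sig r1 h r2 τ X1 K1 φ1 lv (D ^ 2) ∧ Rig Γ e Sig r1 h r2 τ X0 K0 φ0 lv (D ^ 2) ∧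
        Rig Γ' e' Sig' r1' h' r2' τ X K φ lv 1) :
    CoreB Γ e Sig r1 h τ X1 φ1 0 ∧ CoreB Γ e Sig r1 h τ X0 φ0 0 ∧
      CoreB Γ' e' Sig' r1' h' τ X φ 0 ∧ ∀ x ∈ X, x ∈ V → f x ≤ 0 := by
  have hD0 : 0 ≤ D := by linarith
  have nd : ∀ lv, 0 ≤ lv → CoreB Γ e Sig r1 h τ X1 φ1 lv → CoreB Γ e Sig r1 h τ X0 φ0 lv →
      CoreB Γ' e' Sig' r1' h' τ X φ lv →
      (∀ x ∈ X, x ∈ V → f x ≤ D * lv) ∧ ∀ x ∈ X, x ∈ V → φ x ≤ lv := fun lv a b c d =>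
    ⟨hf.node hX hl hN (mul_nonneg hD0 a) (labs_cont a3) (fun y hy => a3 y hy.1)
      (fun x k1 k2 k3 => (z3 x k1 k2 k3).1.trans_le (mul_nonneg hD0 a)) fun x k1 k2 _ k =>
        k.elim (fun k => (b1 x k1 k2 k).elim
          (fun m => m.2.2.trans (mul_le_mul_of_nonneg_left (b x m.1 k) hD0))
          fun m => m.2.2.trans (mul_le_mul_of_nonneg_left (c x m.1 k) hD0))
        fun k => (b2 x k1 k2 k).trans (mul_le_mul_of_nonneg_left (d x k1 k) hD0),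
    hf.node hX hl hN a a4 a5 (fun x k1 k2 k3 => (z3 x k1 k2 k3).2.trans_le a) fun x k1 k2 _ k =>
      k.elim (fun k => (b1 x k1 k2 k).elim (fun m => m.2.1.trans (b x m.1 k))
        fun m => m.2.1.trans (c x m.1 k)) (d x k1)⟩
  have n1 : X1 \ K1 ⊆ N := fun x hx => hN ⟨s1 hx.1, fun a => hx.2 (t1 a)⟩
  have n0 : X0 \ K0 ⊆ N := fun x hx => hN ⟨s0 hx.1, fun a => hx.2 (t0 a)⟩
  have cl : ∀ {Y L : Set E}, Y ⊆ X → HULL.LM Y L univ → IsCompact Y := fun a b =>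
    hX.of_isClosed_subset (isClosed_of_closure_subset fun y hy => b.closed y (mem_univ _) hy) a
  have key := cert_max (fun b : Option Bool => b.elim
      (X ∩ CF.tube (CF.core Γ' e' Sig' r1' h') τ)
      fun b => cond b X1 X0 ∩ CF.tube (CF.core Γ e Sig r1 h) τ)
    (fun b => b.elim φ fun b => cond b φ1 φ0) 0
    (by
      rintro (_ | _ | _)
      · exact hX.inter_right (isCompact_tube hf.r.cpt τ).isClosed
      · exact (cl s0 l0).inter_right (isCompact_tube hf.l.cpt τ).isClosed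
      · exact (cl s1 l1).inter_right (isCompact_tube hf.l.cpt τ).isClosed)
    (by
      rintro (_ | _ | _)
      · exact (labs_cont a2).mono fun x hx => hf.r.sub (core_tube_sub hg' h4' hx.2)
      · exact (labs_cont a0).mono fun x hx => hf.l.sub (core_tube_sub hg h4 hx.2)
      · exact (labs_cont a1).mono fun x hx => hf.l.sub (core_tube_sub hg h4 hx.2))
    (fun lv k0 b => by
      have k1 : CoreB Γ e Sig r1 h τ X1 φ1 lv := fun x c d => b (some true) x ⟨c, d⟩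
      have k2 : CoreB Γ e Sig r1 h τ X0 φ0 lv := fun x c d => b (some false) x ⟨c, d⟩
      have k3 : CoreB Γ' e' Sig' r1' h' τ X φ lv := fun x c d => b none x ⟨c, d⟩
      obtain ⟨k4, k5⟩ := nd lv k0.le k1 k2 k3
      obtain ⟨k6, k7, k8⟩ := hE lv k0 k1 k2 k3
      have m1 : D * (D * lv) ≤ lv * D ^ 2 := le_of_eq (by ring)
      have m2 : lv ≤ D * lv := le_mul_of_one_le_left k0.le hD
      rintro (_ | _ | _) x hx
      · exact k8 (hf.r.tubeOK hτ hl hN a2 z2)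
          (hf.r.nodeB hg' h4' fun u c _ _ d => (k5 u c d).trans_eq (mul_one _).symm) x hx.1 hx.2
      · exact k7 (hf.l.tubeOK hτ l0 n0 a0 z0)
          (hf.l.nodeB hg h4 fun u c m o d => ((b4 u c m o (hf.sub (subset_closure d))).trans
            (mul_le_mul_of_nonneg_left (k4 u (s0 c) d) hD0)).trans m1) x hx.1 hx.2
      · exact k6 (hf.l.tubeOK hτ l1 n1 a1 z1)
          (hf.l.nodeB hg h4 fun u c m o d => (b3 u c m o (hf.sub (subset_closure d))).elim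
            (fun q => (q.trans (mul_le_mul_of_nonneg_left (k4 u (s1 c) d) hD0)).trans m1)
            fun q => (q.trans (mul_le_mul_of_nonneg_left ((k5 u (s1 c) d).trans m2) hD0)).trans
              m1) x hx.1 hx.2)
  have k1 : CoreB Γ e Sig r1 h τ X1 φ1 0 := fun x c d => key (some true) x ⟨c, d⟩
  have k2 : CoreB Γ e Sig r1 h τ X0 φ0 0 := fun x c d => key (some false) x ⟨c, d⟩
  have k3 : CoreB Γ' e' Sig' r1' h' τ X φ 0 := fun x c d => key none x ⟨c, d⟩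
  exact ⟨k1, k2, k3, by simpa using (nd 0 le_rfl k1 k2 k3).1⟩

end

end Pool.Agent.Lib.SH
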