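import Pool.Agent.Lib.SH.Cert2
import Pool.Agent.Lib.CF.Blue2

/-!
The certificate after the split: separation and the three concrete parts.
-/

open Set Filter Topology Metric

noncomputable section

namespace Pool.Agent.Lib.SH

/-- the piece of `X` on which `a ≤ b` holds inside `O` -/
def piece (X O : Set E) (a b : E → ℝ) : Set E := {x | x ∈ X ∧ (x ∈ O → a x ≤ b x)}

theorem lm_piece {X K O : Set E} {a b : E → ℝ} (hl : HULL.LM X K univ) (hO : IsOpen O)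
    (ha : ContinuousOn a O) (hb : ContinuousOn b O)
    (h : ∀ x ∈ X, x ∉ K → x ∈ O → a x ≠ b x) : HULL.LM (piece X O a b) (K ∪ Oᶜ) univ := by
  refine (hl.mono isOpen_univ subset_rfl fun y _ _ k => Or.inl k).part (fun x hx => hx.1)
    (fun y _ hy => ⟨hl.closed y (mem_univ _) (closure_mono (fun x hx => hx.1) hy), fun k => ?_⟩)
    fun y hy _ k => ?_
  · by_contra c
    obtain ⟨x, x1, x2⟩ := mem_closure_iff_nhds.1 hy _ (inter_mem (hO.mem_nhds k)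
      ((hb.continuousAt (hO.mem_nhds k)).eventually_lt (ha.continuousAt (hO.mem_nhds k))
        (not_le.1 c)))
    exact absurd (x2.2 x1.1) (not_le.2 x1.2)
  · have k1 : y ∈ O := by by_contra c; exact k (Or.inr c)
    filter_upwards [(ha.continuousAt (hO.mem_nhds k1)).eventually_lt
      (hb.continuousAt (hO.mem_nhds k1))
      (lt_of_le_of_ne (hy.2 k1) (h y hy.1 (fun c => k (Or.inl c)) k1))] with x c d
      using ⟨d, fun _ => c.le⟩

theorem sep_alg {u v : ℂ} (h : ‖u - v‖ * ‖u‖ < ‖v‖ ^ 2 / 16) :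
    (‖u - v‖ < ‖v‖ / 4 ∧ 3 / 4 * ‖v‖ < ‖u‖) ∨ (‖u‖ < ‖v‖ / 4 ∧ 3 / 4 * ‖v‖ < ‖u - v‖) := by
  have h1 := norm_sub_norm_le v u
  have h2 := norm_sub_le u (u - v)
  rw [sub_sub_cancel] at h2
  have h3 := norm_nonneg v
  by_cases a : ‖u - v‖ < ‖v‖ / 4
  · exact Or.inl ⟨a, by linarith⟩
  · have b : ‖u‖ < ‖v‖ / 4 := by
      by_contra c
      nlinarith [mul_le_mul (not_lt.1 a) (not_lt.1 c) (by linarith) (norm_nonneg _)]
    exact Or.inr ⟨b, by linarith⟩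

section
variable (C K G q : E → ℂ) (ε M c : ℝ)

/-- the polynomial of the split -/
def pA (x : E) : ℂ := CF.pen (fun x => G x * K x * C x) q ε x

/-- modulus of `F0 = A C / G` -/
def fB (x : E) : ℝ := ‖pA C K G q ε x * C x / G x‖

def fB0 (x : E) : ℝ := M * fB C K G q ε x

def fB1 (x : E) : ℝ := M * fB C K G q ε x * ‖K x‖⁻¹ ^ c

def fBK (x : E) : ℝ := fB C K G q ε x * (‖C x‖ / ε) ^ c

/-- the separation inequality -/
def Sep (x : E) : Prop := ‖pA C K G q ε x‖ * ‖G x * K x * C x‖ < (ε * ‖q x‖) ^ 2 / 16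

/-- the piece near the new curve -/
def X1 (X O : Set E) : Set E :=
  piece X O (fun x => ‖pA C K G q ε x‖) fun x => ε * ‖q x‖ / 2

/-- the piece near the old curve -/
def X0 (X O : Set E) : Set E :=
  piece X O (fun x => ‖G x * K x * C x‖) fun x => ε * ‖q x‖ / 2

/-- the bounds which do not depend on `ε` and on the inner radii -/
structure BCon (B : ℝ) (T T' U U' W : Set E) : Prop where
  one : 1 ≤ B
  core : ∀ x ∈ T, B⁻¹ ≤ ‖K x‖ ∧ B⁻¹ ≤ ‖G x‖ ∧ ‖q x‖ ≤ B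
  core' : ∀ x ∈ T', B⁻¹ ≤ ‖C x‖
  reg : ∀ x ∈ U, G x ≠ 0 ∧ K x ≠ 0 ∧ ‖G x‖ ≤ B ∧ ‖K x‖ ≤ B ∧ (B⁻¹ ≤ ‖K x‖ ∨ B⁻¹ ≤ ‖q x‖)
  reg' : ∀ x ∈ U', G x ≠ 0 ∧ C x ≠ 0
  nod : ∀ x ∈ W, G x ≠ 0

end

variable {C K G q : E → ℂ} {ε M c : ℝ}

theorem Sep.cases {x : E} (hε : 0 < ε) (h : Sep C K G q ε x) :
    (‖pA C K G q ε x‖ < ε * ‖q x‖ / 4 ∧ 3 / 4 * (ε * ‖q x‖) < ‖G x * K x * C x‖) ∨
      (‖G x * K x * C x‖ < ε * ‖q x‖ / 4 ∧ 3 / 4 * (ε * ‖q x‖) < ‖pA C K G q ε x‖) := by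
  have e : ‖(ε : ℂ) * q x‖ = ε * ‖q x‖ := by
    rw [norm_mul, Complex.norm_real, Real.norm_of_nonneg hε.le]
  rw [← e]
  exact sep_alg (u := G x * K x * C x) (by rw [e]; exact h)

/-- separation from a bound for `F0` -/
theorem sep_of {x : E} {B θ q0 : ℝ} (hε : 0 < ε) (hG : G x ≠ 0) (h1 : ‖G x‖ ≤ B) (h2 : ‖K x‖ ≤ B)
    (h0 : 0 ≤ q0) (h3 : q0 ≤ ‖q x‖) (h4 : 16 * θ * B ^ 3 < q0 ^ 2)
    (h5 : fB C K G q ε x ≤ θ * ε ^ 2) : Sep C K G q ε x := by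
  have a : 0 < ‖G x‖ := norm_pos_iff.2 hG
  have e : ‖pA C K G q ε x‖ * ‖G x * K x * C x‖ = fB C K G q ε x * (‖G x‖ ^ 2 * ‖K x‖) := by
    simp only [fB, norm_mul, norm_div]; field_simp
  have b : ‖G x‖ ^ 2 * ‖K x‖ ≤ B ^ 2 * B := by gcongr
  have d : q0 ^ 2 ≤ ‖q x‖ ^ 2 := by gcongr
  have f : 0 ≤ fB C K G q ε x := norm_nonneg _
  have g := mul_le_mul h5 b (by positivity) (f.trans h5)
  have k : 0 < ε ^ 2 := by positivity
  unfold Sep
  rw [e]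
  nlinarith

theorem pA_poly (hC : CF.IsPoly C) (hK : CF.IsPoly K) (hG : CF.IsPoly G) (hq : CF.IsPoly q) :
    CF.IsPoly (pA C K G q ε) := ((hG.mul hK).mul hC).sub ((CF.IsPoly.const _).mul hq)

theorem lm_X (hC : CF.IsPoly C) (hK : CF.IsPoly K) (hG : CF.IsPoly G) (hq : CF.IsPoly q)
    (hε : 0 < ε) {X L O : Set E} (hl : HULL.LM X L univ) (hO : IsOpen O)
    (h : ∀ x ∈ X, x ∉ L → x ∈ O → Sep C K G q ε x) :
    HULL.LM (X1 C K G q ε X O) (L ∪ Oᶜ) univ ∧ HULL.LM (X0 C K G q ε X O) (L ∪ Oᶜ) univ := by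
  have a : ContinuousOn (fun x => ε * ‖q x‖ / 2) O :=
    ((continuous_const.mul hq.continuous.norm).div_const 2).continuousOn
  refine ⟨lm_piece hl hO (pA_poly hC hK hG hq).continuous.norm.continuousOn a fun x b d f g => ?_,
    lm_piece hl hO ((hG.mul hK).mul hC).continuous.norm.continuousOn a fun x b d f g => ?_⟩ <;>
  · have := mul_nonneg hε.le (norm_nonneg (q x))
    rcases (h x b d f).cases hε with k | k <;> linarith [k.1, k.2]

theorem labs_norm {F : E → ℂ} {U : Set E} (h : ∀ x ∈ U, AnalyticAt ℂ F x) :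
    CF.LAbs (fun x => ‖F x‖) U := fun x hx => ⟨F, h x hx, Eventually.of_forall fun _ => rfl⟩

theorem labs_mul {φ ψ : E → ℝ} {U : Set E} (h : CF.LAbs φ U) (h' : CF.LAbs ψ U) :
    CF.LAbs (fun x => φ x * ψ x) U := fun x hx => by
  obtain ⟨F, a, b⟩ := h x hx
  obtain ⟨F', a', b'⟩ := h' x hx
  exact ⟨fun y => F y * F' y, a.mul a', by
    filter_upwards [b, b'] with y k k' using by rw [k, k', norm_mul]⟩

theorem labs_const {a : ℝ} (ha : 0 ≤ a) (U : Set E) : CF.LAbs (fun _ => a) U := fun _ _ =>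
  ⟨fun _ => a, analyticAt_const, Eventually.of_forall fun _ => by simp [abs_of_nonneg ha]⟩

theorem labs_rpow {F : E → ℂ} {U : Set E} (h : ∀ x ∈ U, AnalyticAt ℂ F x ∧ F x ≠ 0) (c : ℝ) :
    CF.LAbs (fun x => ‖F x‖ ^ c) U := fun x hx => by
  obtain ⟨a, b⟩ := h x hx
  have d : AnalyticAt ℂ (fun y => F y / F x) x := a.div_const
  have p : 0 < ‖F x‖ := norm_pos_iff.2 b
  refine ⟨fun y => (‖F x‖ ^ c : ℝ) * Complex.exp (c * Complex.log (F y / F x)),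
    analyticAt_const.mul (analyticAt_const.mul (d.clog (by simp [b]))).cexp, ?_⟩
  filter_upwards [a.continuousAt.eventually_ne b] with y hy
  have p' : 0 < ‖F y‖ := norm_pos_iff.2 hy
  rw [norm_mul, Complex.norm_real, Real.norm_of_nonneg (by positivity), Complex.norm_exp,
    Complex.re_ofReal_mul, Complex.log_re, norm_div, mul_comm c,
    ← Real.rpow_def_of_pos (by positivity), ← Real.mul_rpow p.le (by positivity),
    mul_div_cancel₀ _ p.ne']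

theorem labs_fB (hC : CF.IsPoly C) (hK : CF.IsPoly K) (hG : CF.IsPoly G) (hq : CF.IsPoly q)
    {U : Set E} (h : ∀ x ∈ U, G x ≠ 0) : CF.LAbs (fB C K G q ε) U :=
  labs_norm fun x hx => (((pA_poly hC hK hG hq).mul hC).analyticAt x).div (hG.analyticAt x)
    (h x hx)

theorem labs_fBK (hC : CF.IsPoly C) (hK : CF.IsPoly K) (hG : CF.IsPoly G) (hq : CF.IsPoly q)
    (hε : 0 < ε) {U : Set E} (h : ∀ x ∈ U, G x ≠ 0 ∧ C x ≠ 0) : CF.LAbs (fBK C K G q ε c) U := by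
  have e : fBK C K G q ε c = fun x => fB C K G q ε x * ‖C x / ε‖ ^ c := by
    funext x; rw [fBK, norm_div, Complex.norm_real, Real.norm_of_nonneg hε.le]
  rw [e]
  exact labs_mul (labs_fB hC hK hG hq fun x hx => (h x hx).1) (labs_rpow (fun x hx =>
    ⟨(hC.analyticAt x).div_const, div_ne_zero (h x hx).2 (Complex.ofReal_ne_zero.2 hε.ne')⟩) c)

section
variable {ι ι' : Type} {Γ Γ' : Set E} {e : ι → CF.End} {e' : ι' → CF.End}
  {Sig Sig' : Finset ℂ} {r1 h r2 r1' h' r2' τ B : ℝ} {N U U' W V X L O : Set E}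

theorem low_bound {A : Set E} (hA : IsCompact A) {g : E → ℝ} (hg : Continuous g)
    (h : ∀ x ∈ A, 0 < g x) : ∀ᶠ B in atTop, ∀ x ∈ A, (B : ℝ)⁻¹ < g x := by
  obtain ⟨a, h1, h2⟩ := hA.exists_forall_le' hg.continuousOn h
  filter_upwards [tendsto_inv_atTop_zero.eventually (gt_mem_nhds h1)] with B hB x hx
    using hB.trans_le (h2 x hx)

theorem up_bound {A : Set E} (hA : IsCompact A) {g : E → ℂ} (hg : Continuous g) :
    ∀ᶠ B in atTop, ∀ x ∈ A, ‖g x‖ < B := by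
  obtain ⟨a, h⟩ := hA.exists_bound_of_continuousOn hg.continuousOn
  filter_upwards [eventually_gt_atTop a] with B hB x hx using (h x hx).trans_lt hB

theorem core_ne_pt {a ρ : ℝ} (hρ : 0 < ρ) {y : E} (hy : y ∈ CF.core Γ e Sig ρ a) :
    ¬ ∃ j, (e j).k = CF.Kind.pt ∧ y = ((e j).c, (e j).w (e j).c) := by
  rintro ⟨j, hk, rfl⟩
  exact hy.2.2 j ⟨by rw [CF.End.nearO_pt hk]; exact mem_ball_self hρ, rfl⟩

theorem core_ne_sig {a ρ : ℝ} (hρ : 0 < ρ) {y : E} (hy : y ∈ CF.core Γ e Sig ρ a) : y.1 ∉ Sig :=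
  fun k => by simpa using hρ.trans_le (hy.2.1 _ k)

/-- the bounds on the curves -/
structure BPre (C K G q : E → ℂ) (B q0 : ℝ) (Z Z' Z2 : Set E) : Prop where
  one : 1 ≤ B
  pos : 0 < q0
  core : ∀ x ∈ Z, B⁻¹ < ‖K x‖ ∧ B⁻¹ < ‖G x‖ ∧ ‖q x‖ < B
  core' : ∀ x ∈ Z', B⁻¹ < ‖C x‖
  reg : ∀ x ∈ Z2, G x ≠ 0 ∧ K x ≠ 0 ∧ ‖G x‖ < B ∧ ‖K x‖ < B ∧ B⁻¹ < max ‖K x‖ ‖q x‖ ∧ q0 < ‖q x‖

/-- existence of the constants, uniformly for small perturbations of `G` and `q` -/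
theorem bpre [Fintype ι] [Fintype ι'] (hRG : CF.St_REG) (hc : CF.IsCurve C Γ e)
    (hg : CF.Geo C Γ e Sig r1 h) (hc' : CF.IsCurve K Γ' e') (hg' : CF.Geo K Γ' e' Sig' r1' h')
    (cG : Continuous G) (cq : Continuous q) (n1 : ∀ y ∈ Γ, K y = 0 → y.1 ∈ Sig ∧ q y ≠ 0)
    (n2 : ∀ y ∈ Γ', C y = 0 → y.1 ∈ Sig') (g1 : ∀ y ∈ CF.core Γ e Sig r1 h, G y ≠ 0) :
    ∃ B : ℝ, ∀ r2, 0 < r2 → r2 ≤ r1 / 4 →
      (∀ y ∈ CF.core Γ e Sig r2 (h / 16), G y ≠ 0 ∧ q y ≠ 0) → ∃ q0 : ℝ, ∃ η > (0 : ℝ),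
      ∀ G' q' : E → ℂ, (∀ y ∈ Γ, ‖G' y - G y‖ ≤ η ∧ ‖q' y - q y‖ ≤ η) →
        BPre C K G' q' B q0 (CF.core Γ e Sig r1 h) (CF.core Γ' e' Sig' r1' h')
          (CF.core Γ e Sig r2 (h / 16)) := by
  have p1 := hg.r1pos
  have p2 := hg.hpos
  have p3 := hg'.r1pos
  have p4 := hg'.hpos
  have cC := hc.poly.continuous
  have cK := hc'.poly.continuous
  have c1 := (hRG ι C Γ e Sig r1 h hc hg).2
  have c2 := c1 h r1 p2 (by linarith) p1 (by linarith)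
  have c3 := (hRG ι' K Γ' e' Sig' r1' h' hc' hg').2 h' r1' p4 (by linarith) p3 (by linarith)
  have kK : ∀ {a ρ : ℝ}, 0 < ρ → ∀ y ∈ CF.core Γ e Sig ρ a, K y ≠ 0 := fun a y hy k =>
    core_ne_sig a hy (n1 y hy.1 k).1
  obtain ⟨B, ⟨⟨⟨B1, b1⟩, b2, b3⟩, b4, b5⟩, b6, b7⟩ := (((((eventually_ge_atTop (1 : ℝ)).and
    (low_bound c2 cK.norm fun y hy => norm_pos_iff.2 (kK p1 y hy))).and
    ((low_bound c2 cG.norm fun y hy => norm_pos_iff.2 (g1 y hy)).and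
    (low_bound c3 cC.norm fun y hy => norm_pos_iff.2 fun k =>
      core_ne_sig p3 hy (n2 y hy.1 k)))).and
    ((low_bound hc.cpt (cK.norm.max cq.norm) fun y hy => by
      by_cases k : K y = 0
      · exact lt_max_of_lt_right (norm_pos_iff.2 (n1 y hy k).2)
      · exact lt_max_of_lt_left (norm_pos_iff.2 k)).and (up_bound hc.cpt cq))).and
    ((up_bound hc.cpt cG).and (up_bound hc.cpt cK))).exists
  refine ⟨2 * B, fun r2 h0 h4 hq0 => ?_⟩
  obtain ⟨q0, q1, q2⟩ := (c1 (h / 16) r2 (by linarith) (by linarith) h0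
    (by linarith)).exists_forall_le' (cG.norm.min cq.norm).continuousOn fun y hy =>
      lt_min (norm_pos_iff.2 (hq0 y hy).1) (norm_pos_iff.2 (hq0 y hy).2)
  have i0 : 0 < B⁻¹ := by positivity
  have i1 : B⁻¹ ≤ 1 := inv_le_one_of_one_le₀ B1
  have i2 : (2 * B)⁻¹ = B⁻¹ / 2 := by rw [mul_inv]; ring
  refine ⟨q0 / 2, min (B⁻¹ / 2) (q0 / 4), by positivity, fun G' q' H => ?_⟩
  have H' : ∀ y ∈ Γ, |‖G' y‖ - ‖G y‖| ≤ B⁻¹ / 2 ∧ |‖G' y‖ - ‖G y‖| ≤ q0 / 4 ∧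
      |‖q' y‖ - ‖q y‖| ≤ B⁻¹ / 2 ∧ |‖q' y‖ - ‖q y‖| ≤ q0 / 4 := fun y hy => by
    have a := le_min_iff.1 ((abs_norm_sub_norm_le _ _).trans (H y hy).1)
    have b := le_min_iff.1 ((abs_norm_sub_norm_le _ _).trans (H y hy).2)
    exact ⟨a.1, a.2, b.1, b.2⟩
  simp only [abs_le] at H'
  refine ⟨by linarith, by linarith, fun x hx => ?_, fun x hx => by linarith [b3 x hx],
    fun x hx => ?_⟩
  · have := H' x hx.1
    exact ⟨by linarith [b1 x hx], by linarith [b2 x hx], by linarith [b5 x hx.1]⟩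
  · have a := H' x hx.1
    have b := le_min_iff.1 (q2 x hx)
    refine ⟨norm_pos_iff.1 (by linarith), kK h0 x hx, by linarith [b6 x hx.1],
      by linarith [b7 x hx.1], ?_, by linarith⟩
    exact (lt_max_iff.1 (b4 x hx.1)).elim (fun k => lt_max_of_lt_left (by linarith))
      fun k => lt_max_of_lt_right (by linarith)

/-- the frame of the second certificate -/
theorem bframe [Fintype ι] [Fintype ι'] (hVB : CF.St_VB) (hSH : CF.St_SHELL) (hTB : CF.St_TUBE)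
    (hRG : CF.St_REG) (hc : CF.IsCurve C Γ e) (hg : CF.Geo C Γ e Sig r1 h)
    (hc' : CF.IsCurve K Γ' e') (hg' : CF.Geo K Γ' e' Sig' r1' h') (cG : Continuous G)
    (cq : Continuous q) (hn : ∀ y ∈ Γ, y ∈ Γ' → y.1 ∈ Sig ∧ y.1 ∈ Sig')
    (n2 : ∀ y ∈ Γ', C y = 0 → y.1 ∈ Sig') (g1 : ∀ y ∈ Γ', G y ≠ 0)
    (g2 : ∀ y ∈ Γ, G y = 0 → ∀ b ∈ Sig, r1 < ‖y.1 - b‖) (h0 : 0 < r2) (h4 : r2 ≤ r1 / 4)
    (h0' : 0 < r2') (h4' : r2' ≤ r1' / 4) {q0 : ℝ}
    (hB : BPre C K G q B q0 (CF.core Γ e Sig r1 h) (CF.core Γ' e' Sig' r1' h')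
      (CF.core Γ e Sig r2 (h / 16))) {U0 U0' W0 : Set E} (o1 : IsOpen U0) (o2 : IsOpen U0')
    (o3 : IsOpen W0) (s1 : CF.core Γ e Sig r2 (h / 16) ⊆ U0)
    (s2 : CF.core Γ' e' Sig' r2' (h' / 16) ⊆ U0') (s3 : dsc Γ Sig r1 ∪ dsc Γ' Sig' r1' ⊆ W0) :
    ∃ τ0 > 0, ∃ U U' W, IsOpen U ∧ U ⊆ U0 ∧ U' ⊆ U0' ∧ W ⊆ W0 ∧ (∀ x ∈ U, q0 ≤ ‖q x‖) ∧
      ∀ τ, 0 < τ → τ ≤ τ0 → BCon C K G q B (CF.tube (CF.core Γ e Sig r1 h) τ)
        (CF.tube (CF.core Γ' e' Sig' r1' h') τ) U U' W ∧ ∃ R0 > 0, ∃ V,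
        Frame Γ e Sig r1 h r2 Γ' e' Sig' r1' h' r2' τ (thickening R0 (Γ ∪ Γ')) U U' W V := by
  have p1 := hg.r1pos
  have p2 := hg.hpos
  have p3 := hg'.r1pos
  have p4 := hg'.hpos
  have cC := hc.poly.continuous
  have cK := hc'.poly.continuous
  have c2 := (hRG ι C Γ e Sig r1 h hc hg).2 h r1 p2 (by linarith) p1 (by linarith)
  have c3 := (hRG ι' K Γ' e' Sig' r1' h' hc' hg').2 h' r1' p4 (by linarith) p3 (by linarith)
  have oG : IsOpen {x | G x ≠ 0} := isOpen_ne_fun cG continuous_const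
  have o4 : IsOpen (U0 ∩ ({x | G x ≠ 0} ∩ ({x | K x ≠ 0} ∩ ({x | ‖G x‖ < B} ∩ ({x | ‖K x‖ < B} ∩
      ({x | B⁻¹ < max ‖K x‖ ‖q x‖} ∩ {x | q0 < ‖q x‖})))))) :=
    o1.inter (oG.inter ((isOpen_ne_fun cK continuous_const).inter
      ((isOpen_lt cG.norm continuous_const).inter ((isOpen_lt cK.norm continuous_const).inter
      ((isOpen_lt continuous_const (cK.norm.max cq.norm)).inter
      (isOpen_lt continuous_const cq.norm))))))
  obtain ⟨t1, a1, f1⟩ := frame hVB hSH hTB hRG hc hg hc' hg' hn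
    h0 h4 h0' h4' o4 (o2.inter (oG.inter (isOpen_ne_fun cC continuous_const))) (o3.inter oG)
    (fun y hy => ⟨s1 hy, hB.reg y hy⟩)
    (fun y hy => ⟨s2 hy, g1 y hy.1, fun k => core_ne_sig h0' hy (n2 y hy.1 k)⟩)
    (fun y hy => ⟨s3 (Or.inl hy), fun k => by
      obtain ⟨b, hb, k'⟩ := hy.2
      exact absurd (g2 y hy.1 k b hb) (not_lt.2 k')⟩)
    fun y hy => ⟨s3 (Or.inr hy), g1 y hy.1⟩
  obtain ⟨t2, a2, f2⟩ := tube_sub c2 (U := {x | B⁻¹ < ‖K x‖} ∩ ({x | B⁻¹ < ‖G x‖} ∩ {x | ‖q x‖ < B}))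
    ((isOpen_lt continuous_const cK.norm).inter ((isOpen_lt continuous_const cG.norm).inter
      (isOpen_lt cq.norm continuous_const))) hB.core
  obtain ⟨t3, a3, f3⟩ := tube_sub c3 (isOpen_lt continuous_const cC.norm) hB.core'
  refine ⟨min t1 (min t2 t3), by positivity, _, _, _, o4, inter_subset_left, inter_subset_left,
    inter_subset_left, fun x hx => le_of_lt hx.2.2.2.2.2.2, fun τ a b => ⟨⟨hB.one, fun x hx => ?_,
      fun x hx => ?_, fun x hx => ?_, fun x hx => hx.2, fun x hx => hx.2⟩,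
      f1 τ a (b.trans (min_le_left _ _))⟩⟩
  · have := f2 (tube_mono subset_rfl (b.trans ((min_le_right _ _).trans (min_le_left _ _))) hx)
    exact ⟨le_of_lt this.1, le_of_lt this.2.1, le_of_lt this.2.2⟩
  · exact le_of_lt
      (f3 (tube_mono subset_rfl (b.trans ((min_le_right _ _).trans (min_le_right _ _))) hx))
  · exact ⟨hx.2.1, hx.2.2.1, le_of_lt hx.2.2.2.1, le_of_lt hx.2.2.2.2.1,
      (lt_max_iff.1 hx.2.2.2.2.2.1).imp le_of_lt le_of_lt⟩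

/-- the three part certificate after the split -/
theorem certBR (hc : CF.IsCurve C Γ e) (hg : CF.Geo C Γ e Sig r1 h)
    (hc' : CF.IsCurve K Γ' e') (hg' : CF.Geo K Γ' e' Sig' r1' h') (hG : CF.IsPoly G)
    (hq : CF.IsPoly q) (h4 : r2 ≤ r1 / 4) (h4' : r2' ≤ r1' / 4)
    (hf : Frame Γ e Sig r1 h r2 Γ' e' Sig' r1' h' r2' τ N U U' W V) (hτ : 0 < τ)
    (hB : BCon C K G q B (CF.tube (CF.core Γ e Sig r1 h) τ)
      (CF.tube (CF.core Γ' e' Sig' r1' h') τ) U U' W)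
    (hX : IsCompact X) (hl : HULL.LM X L univ) (hN : X \ L ⊆ N) (hε : 0 < ε) (hε' : ε ≤ B⁻¹)
    (hc0 : 0 ≤ c) (hM : M = (2 * B ^ 3) ^ c) (hO : IsOpen O) (hUO : U ⊆ O)
    (hs : ∀ x ∈ X, x ∉ L → x ∈ O → Sep C K G q ε x)
    (hz : ∀ x ∈ X, x ∈ L → x ∈ U ∪ U' ∪ W → pA C K G q ε x * C x = 0)
    (hE : ∀ lv, 0 < lv → CoreB Γ e Sig r1 h τ (X1 C K G q ε X O) (fB1 C K G q ε M c) lv →
      CoreB Γ e Sig r1 h τ (X0 C K G q ε X O) (fB0 C K G q ε M) lv →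
      CoreB Γ' e' Sig' r1' h' τ X (fBK C K G q ε c) lv →
      Rig Γ e Sig r1 h r2 τ (X1 C K G q ε X O) (L ∪ Oᶜ) (fB1 C K G q ε M c) lv (M ^ 4) ∧
      Rig Γ e Sig r1 h r2 τ (X0 C K G q ε X O) (L ∪ Oᶜ) (fB0 C K G q ε M) lv (M ^ 4) ∧
        Rig Γ' e' Sig' r1' h' r2' τ X L (fBK C K G q ε c) lv 1) :
    CoreB Γ e Sig r1 h τ (X1 C K G q ε X O) (fB1 C K G q ε M c) 0 ∧
      CoreB Γ e Sig r1 h τ (X0 C K G q ε X O) (fB0 C K G q ε M) 0 ∧
      CoreB Γ' e' Sig' r1' h' τ X (fBK C K G q ε c) 0 ∧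
      ∀ x ∈ X, x ∈ V → fB C K G q ε x ≤ 0 := by
  have hC := hc.poly
  have hK := hc'.poly
  have B1 := hB.one
  have B0 : 0 < B := by linarith
  have B3 : B ≤ B ^ 3 := le_self_pow₀ B1 (by norm_num)
  have B2 : B ^ 2 ≤ B ^ 3 := pow_le_pow_right₀ B1 (by norm_num)
  have mm : ∀ t, 0 ≤ t → t ≤ 2 * B ^ 3 → t ^ c ≤ M := fun t a b =>
    hM ▸ Real.rpow_le_rpow a b hc0
  have M1 : 1 ≤ M := by simpa using mm 1 zero_le_one (by linarith)
  have M2 : M ≤ M ^ 2 := le_self_pow₀ M1 (by norm_num)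
  have f0 : ∀ x, 0 ≤ fB C K G q ε x := fun x => norm_nonneg _
  have fz : ∀ x ∈ X, x ∈ L → x ∈ U ∪ U' ∪ W → fB C K G q ε x = 0 := fun x a b d => by
    rw [fB, hz x a b d, zero_div, norm_zero]
  have inv : ∀ t, B⁻¹ ≤ t → t⁻¹ ≤ B := fun t a => inv_le_of_inv_le₀ B0 a
  obtain ⟨l1, l0⟩ := lm_X hC hK hG hq hε hl hO hs
  refine cert3R hg hg' h4 h4' hf hτ hX hl hN (fun _ a => a.1) (fun _ a => a.1)
    subset_union_left subset_union_left l1 l0 (D := M ^ 2) (by linarith) ?_ ?_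
    (labs_fBK hC hK hG hq hε hB.reg') (labs_fB hC hK hG hq hB.nod) ?_
    (labs_fBK hC hK hG hq hε fun x a => ⟨hB.nod x a.1, fun b => ?_⟩) ?_ ?_ ?_ ?_ ?_ ?_ ?_ ?_
    (by rwa [← pow_mul])
  · have e : fB1 C K G q ε M c = fun x => M * fB C K G q ε x * ‖(K x)⁻¹‖ ^ c := by
      funext x; rw [fB1, norm_inv]
    rw [e]
    exact labs_mul (labs_mul (labs_const (by linarith) U) (labs_fB hC hK hG hq fun x a =>
      (hB.reg x a).1)) (labs_rpow (fun x a => ⟨(hK.analyticAt x).inv (hB.reg x a).2.1,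
        inv_ne_zero (hB.reg x a).2.1⟩) c)
  · exact labs_mul (labs_const (by linarith) U) (labs_fB hC hK hG hq fun x a => (hB.reg x a).1)
  · exact (labs_cont (labs_fB hC hK hG hq hB.nod)).mul
      ((hC.continuous.norm.div_const ε).continuousOn.rpow_const fun _ _ => Or.inr hc0)
  · have := a.2
    simp [fBK, fB, b] at this
  · exact fun x a b d => by
      rw [fB1, fz x a.1 (b.resolve_right fun k => k (hUO d)) (Or.inl (Or.inl d))]; simp
  · exact fun x a b d => by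
      rw [fB0, fz x a.1 (b.resolve_right fun k => k (hUO d)) (Or.inl (Or.inl d))]; simp
  · exact fun x a b d => by rw [fBK, fz x a b (Or.inl (Or.inr d))]; simp
  · exact fun x a b d => by rw [fBK, fz x a b (Or.inr d)]; simp
  · intro x a b d
    have u := hf.l.sub (core_tube_sub hg h4 d)
    obtain ⟨k1, k2, k3⟩ := hB.core x d
    obtain ⟨g1, g2, g3, g4, -⟩ := hB.reg x u
    have p1 := norm_pos_iff.2 g1
    have p2 := norm_pos_iff.2 g2
    have p3 := mul_nonneg hε.le (norm_nonneg (q x))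
    have p4 : ‖G x * K x * C x‖ ≤ 2 * (ε * ‖q x‖) := by
      rcases (hs x a b (hUO u)).cases hε with k | k
      · have := norm_add_le (pA C K G q ε x) (ε * q x)
        rw [norm_mul, Complex.norm_real, Real.norm_of_nonneg hε.le, pA, CF.pen,
          sub_add_cancel] at this
        have k' := k.1
        rw [pA, CF.pen] at k'
        linarith
      · linarith [k.1]
    have p5 : ‖C x‖ / ε ≤ 2 * B ^ 2 * ‖K x‖⁻¹ := by
      have : ‖C x‖ / ε = ‖G x * K x * C x‖ / ε * ‖G x‖⁻¹ * ‖K x‖⁻¹ := by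
        simp only [norm_mul]; field_simp
      rw [this, sq, ← mul_assoc]
      gcongr
      · rw [div_le_iff₀ hε]; nlinarith
      · exact inv _ k2
    have p6 : 0 ≤ ‖C x‖ / ε := by positivity
    rcases (hs x a b (hUO u)).cases hε with k | k
    · refine Or.inl ⟨⟨a, fun _ => by linarith [k.1]⟩, ?_, ?_⟩
      · rw [fBK, fB1, mul_comm M, mul_assoc]
        refine mul_le_mul_of_nonneg_left ((Real.rpow_le_rpow p6 p5 hc0).trans ?_) (f0 x)
        rw [Real.mul_rpow (by positivity) (by positivity)]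
        exact mul_le_mul_of_nonneg_right (mm _ (by positivity) (by linarith)) (by positivity)
      · have : 1 ≤ M * ‖K x‖⁻¹ ^ c := by
          rw [Real.inv_rpow p2.le, ← div_eq_mul_inv, one_le_div (by positivity)]
          exact mm _ p2.le (by linarith)
        rw [fB1, mul_comm M, mul_assoc]
        exact (le_mul_of_one_le_right (f0 x) this).trans
          (le_mul_of_one_le_left (mul_nonneg (f0 x) (by linarith)) (by linarith))
    · refine Or.inr ⟨⟨a, fun _ => by linarith [k.1]⟩, ?_, ?_⟩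
      · rw [fBK, fB0, mul_comm M]
        refine mul_le_mul_of_nonneg_left (mm _ p6 (p5.trans ?_)) (f0 x)
        rw [pow_succ B 2, ← mul_assoc]
        gcongr
        exact inv _ k1
      · rw [fB0]
        exact (le_mul_of_one_le_left (f0 x) M1).trans
          (le_mul_of_one_le_left (mul_nonneg (by linarith) (f0 x)) (by linarith))
  · intro x _ _ d
    have : 1 ≤ (‖C x‖ / ε) ^ c :=
      Real.one_le_rpow ((one_le_div hε).2 (hε'.trans (hB.core' x d))) hc0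
    rw [fBK]
    exact (le_mul_of_one_le_right (f0 x) this).trans
      (le_mul_of_one_le_left (mul_nonneg (f0 x) (by linarith)) (by linarith))
  · intro x a _ u _
    obtain ⟨g1, g2, g3, g4, k | k⟩ := hB.reg x u
    · refine Or.inl ?_
      rw [fB1, mul_right_comm, sq]
      exact mul_le_mul_of_nonneg_right (mul_le_mul_of_nonneg_left
        (mm _ (by positivity) (by linarith [inv _ k])) (by linarith)) (f0 x)
    · refine Or.inr ?_
      have p1 := norm_pos_iff.2 g1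
      have p2 := norm_pos_iff.2 g2
      have p3 : 0 < ‖q x‖ := (inv_pos.2 B0).trans_le k
      have p4 : ε * ‖q x‖ ≤ 2 * ‖G x * K x * C x‖ := by
        have := norm_sub_le (G x * K x * C x) (pA C K G q ε x)
        rw [pA, CF.pen, sub_sub_cancel, norm_mul, Complex.norm_real,
          Real.norm_of_nonneg hε.le] at this
        have k' := a.2 (hUO u)
        simp only [pA, CF.pen] at k'
        linarith
      have p5 : ‖K x‖⁻¹ ≤ 2 * B ^ 2 * (‖C x‖ / ε) := by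
        have : ‖K x‖⁻¹ ≤ 2 * (‖G x‖ * ‖q x‖⁻¹) * (‖C x‖ / ε) := by
          rw [norm_mul, norm_mul] at p4
          rw [inv_eq_one_div, div_le_iff₀ p2]
          field_simp
          linarith
        refine this.trans ?_
        rw [sq]
        gcongr
        exact inv _ k
      rw [fB1, fBK, mul_right_comm, sq, mul_comm (fB C K G q ε x), ← mul_assoc, mul_assoc M M]
      refine mul_le_mul_of_nonneg_right (mul_le_mul_of_nonneg_left
        ((Real.rpow_le_rpow (by positivity) p5 hc0).trans ?_) (by linarith)) (f0 x)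
      rw [Real.mul_rpow (by positivity) (by positivity)]
      exact mul_le_mul_of_nonneg_right (mm _ (by positivity) (by linarith)) (by positivity)
  · exact fun x _ _ _ _ => mul_le_mul_of_nonneg_right M2 (f0 x)

/-- the three part certificate after the split -/
theorem certB (hc : CF.IsCurve C Γ e) (hg : CF.Geo C Γ e Sig r1 h)
    (hc' : CF.IsCurve K Γ' e') (hg' : CF.Geo K Γ' e' Sig' r1' h') (hG : CF.IsPoly G)
    (hq : CF.IsPoly q) (h0 : 0 < r2) (h4 : r2 ≤ r1 / 4) (h0' : 0 < r2') (h4' : r2' ≤ r1' / 4)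
    (hf : Frame Γ e Sig r1 h r2 Γ' e' Sig' r1' h' r2' τ N U U' W V) (hτ : 0 < τ)
    (hB : BCon C K G q B (CF.tube (CF.core Γ e Sig r1 h) τ)
      (CF.tube (CF.core Γ' e' Sig' r1' h') τ) U U' W)
    (hX : IsCompact X) (hl : HULL.LM X L univ) (hN : X \ L ⊆ N) (hε : 0 < ε) (hε' : ε ≤ B⁻¹)
    (hc0 : 0 ≤ c) (hM : M = (2 * B ^ 3) ^ c) (hO : IsOpen O) (hUO : U ⊆ O)
    (hs : ∀ x ∈ X, x ∉ L → x ∈ O → Sep C K G q ε x)
    (hz : ∀ x ∈ X, x ∈ L → x ∈ U ∪ U' ∪ W → pA C K G q ε x * C x = 0)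
    {C1 Λ1 C0 Λ0 C' Λ' : ℝ} {κ1 κ0 : ι → ℝ} {κ' : ι' → ℝ} (d1 : M ^ 4 ≤ Real.exp C1)
    (d0 : M ^ 4 ≤ Real.exp C0) (hC' : 0 ≤ C') (hP1 : PartOK Γ e Sig r1 h Λ1 C1 r2 κ1)
    (hP0 : PartOK Γ e Sig r1 h Λ0 C0 r2 κ0) (hP' : PartOK Γ' e' Sig' r1' h' Λ' C' r2' κ')
    (hE : ∀ lv, 0 < lv → CoreB Γ e Sig r1 h τ (X1 C K G q ε X O) (fB1 C K G q ε M c) lv →
      CoreB Γ e Sig r1 h τ (X0 C K G q ε X O) (fB0 C K G q ε M) lv →
      CoreB Γ' e' Sig' r1' h' τ X (fBK C K G q ε c) lv →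
      (∀ j, EndP (e j) (X1 C K G q ε X O) (L ∪ Oᶜ) (fB1 C K G q ε M c) τ h r1 r2 C1 Λ1 (κ1 j) lv) ∧
      (∀ j, EndP (e j) (X0 C K G q ε X O) (L ∪ Oᶜ) (fB0 C K G q ε M) τ h r1 r2 C0 Λ0 (κ0 j) lv) ∧
        ∀ j, EndP (e' j) X L (fBK C K G q ε c) τ h' r1' r2' C' Λ' (κ' j) lv) :
    CoreB Γ e Sig r1 h τ (X1 C K G q ε X O) (fB1 C K G q ε M c) 0 ∧
      CoreB Γ e Sig r1 h τ (X0 C K G q ε X O) (fB0 C K G q ε M) 0 ∧
      CoreB Γ' e' Sig' r1' h' τ X (fBK C K G q ε c) 0 ∧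
      ∀ x ∈ X, x ∈ V → fB C K G q ε x ≤ 0 := by
  have M1 : 1 ≤ M ^ 4 := one_le_pow₀ (hM ▸ Real.one_le_rpow
    (by linarith [one_le_pow₀ (n := 3) hB.one]) hc0)
  exact certBR hc hg hc' hg' hG hq h4 h4' hf hτ hB hX hl hN hε hε' hc0 hM hO hUO hs hz
    fun lv a b c d => ⟨rig_of hc hg h0 h4 M1 d1 a hP1 b (hE lv a b c d).1,
      rig_of hc hg h0 h4 M1 d0 a hP0 c (hE lv a b c d).2.1,
      rig_of hc' hg' h0' h4' le_rfl (Real.one_le_exp hC') a hP' d (hE lv a b c d).2.2⟩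

end

end Pool.Agent.Lib.SH
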