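import Mathlib

/-!
Definitions for the project SH (problem 9ccfb7): surfaces in C^2 with nontrivial hull
and no analytic disc.  Paper: team-store file 9ccfb7_h77.md.  Layers A to E.
-/

open Set Filter Topology Metric

noncomputable section

namespace Pool.Agent.Lib.SH

abbrev E : Type := ℂ × ℂ

/-- polynomial functions on `ℂ × ℂ` -/
def IsPoly (p : E → ℂ) : Prop :=
  ∃ q : MvPolynomial (Fin 2) ℂ, ∀ x : E, p x = MvPolynomial.eval ![x.1, x.2] q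

/-- polynomial hull -/
def hull (K : Set E) : Set E :=
  {x | ∀ p : E → ℂ, IsPoly p → ∀ c : ℝ, (∀ y ∈ K, ‖p y‖ ≤ c) → ‖p x‖ ≤ c}

/-- `y` is a local analytic peak point of `X` -/
def Peak (X : Set E) (y : E) : Prop :=
  ∃ G : E → ℂ, AnalyticAt ℂ G y ∧ ∀ᶠ x in 𝓝 y, x ∈ X → x ≠ y → (G x).re < (G y).re

/-- `Z` is a compact piece of `X` whose points outside `K` are not peak points of `X` -/
structure NPZ (X K Z : Set E) : Prop where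
  cpt : IsCompact Z
  sub : Z ⊆ X
  np : ∀ y ∈ Z, y ∉ K → ¬ Peak X y

/-- the boundary of the piece `Z`: points in `K` and points where `Z` is not a
neighbourhood in `X` -/
def Bd (X K Z : Set E) : Set E :=
  {y | y ∈ Z ∧ (y ∈ K ∨ ¬ ∀ᶠ x in 𝓝 y, x ∈ X → x ∈ Z)}

/-- the part of `X` over `Ω` -/
def ov (X : Set E) (Ω : Set ℂ) : Set E := {y | y ∈ X ∧ y.1 ∈ Ω}

/-- the part of `X` over `Ω` is compact and has no peak points outside `K` -/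
def NP (X K : Set E) (Ω : Set ℂ) : Prop := NPZ X K (ov X Ω)

/-- `u` is locally the real part of an analytic function, at the points of `Z` -/
def LRe (u : E → ℝ) (Z : Set E) : Prop :=
  ∀ y ∈ Z, ∃ G : E → ℂ, AnalyticAt ℂ G y ∧ ∀ᶠ x in 𝓝 y, u x = (G x).re

/-- planar version of `LRe` -/
def LRe1 (u : ℂ → ℝ) (Ω : Set ℂ) : Prop :=
  ∀ z ∈ Ω, ∃ G : ℂ → ℂ, AnalyticAt ℂ G z ∧ ∀ᶠ x in 𝓝 z, u x = (G x).re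

/-- base change -/
def bc (a : ℂ → ℂ) (x : E) : E := (a x.1, x.2)

/-- the Cauchy-Riemann operator -/
def dbar (f : ℂ → ℂ) (z : ℂ) : ℂ := (fderiv ℝ f z 1 + Complex.I * fderiv ℝ f z Complex.I) / 2

/-- local barrier property of the set `S` at the point `s` -/
def LB (S : Set E) (s : E) : Prop :=
  ∃ r > 0, ∃ η > 0, ∀ X K : Set E, IsClosed X → (∀ y ∈ X, y ∈ ball s r → y ∉ K → ¬ Peak X y) →
    K ∩ ball s r ⊆ S → X ∩ ball s r ⊆ cthickening η S → X ∩ ball s η ⊆ K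

/-! ### walls -/

def pp (e : ℝ) (v : ℂ) : ℂ := v * (v - e)

def ss (e : ℝ) (v : ℂ) : ℝ := min ‖v‖ ‖v - e‖

/-- plain wall profile `Ψ x y` (value of the fibre function over `x + i y`) -/
structure PW (J : Set ℝ) (e ι ι' C0 lev : ℝ) (Ψ Ψy : ℝ → ℝ → ℂ) : Prop where
  pos : 0 < ι'
  le : ι' ≤ ι
  der : ∀ x ∈ J, ∀ y ∈ Icc (-(2 * ι')) (2 * ι'), HasDerivAt (Ψ x) (Ψy x y) y
  hc : ∀ x ∈ J, ∀ y ∈ Icc (-(2 * ι')) (2 * ι'), |(Ψy x y).im| ≤ ι * (Ψy x y).re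
  hb : ∀ x ∈ J, ∀ y ∈ Icc (-(2 * ι')) (2 * ι'), lev ≤ ‖pp e (Ψ x y)‖ →
    ss e (Ψ x y) ≤ ι' * (Ψy x y).re
  hd : ∀ x ∈ J, ∀ y ∈ Icc (-(2 * ι')) (2 * ι'), lev ≤ ‖pp e (Ψ x y)‖ →
    ∀ x', uIcc x x' ⊆ J → |x' - x| ≤ 2 →
      ‖Ψ x' y - Ψ x y‖ ≤ C0 * |x' - x| * ss e (Ψ x y) ∧
      |(Ψ x' y - Ψ x y).im| ≤ ι * |x' - x| * ss e (Ψ x y)
  he : ∀ x ∈ J, ∀ y ∈ Icc (-(2 * ι')) (2 * ι'), lev ≤ ‖pp e (Ψ x y)‖ →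
    |(Ψ x y).im| ≤ ι * ss e (Ψ x y)

/-- closed box with real centre `x0`, half width `r`, half height `s` -/
def box (x0 r s : ℝ) : Set ℂ := {z | |z.re - x0| ≤ r ∧ |z.im| ≤ s}

/-- wall structure of `Q` over the box with centre `x0` and size `r`, above the level `lv` -/
def WB (X K : Set E) (Q : E → ℂ) (x0 r ι C0 Λ lv : ℝ) : Prop :=
  ∃ (V : E → ℂ) (g : ℂ → ℂ) (e ι' lev : ℝ) (pw : ℕ) (Ψ Ψy : ℝ → ℝ → ℂ),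
    (pw = 1 ∨ pw = 2) ∧ 0 ≤ e ∧ AnalyticOnNhd ℂ V (ov X (box x0 r r)) ∧
    AnalyticOnNhd ℂ g (box 0 1 1) ∧ (∀ ξ ∈ box 0 1 1, ‖deriv g ξ‖ ≤ Λ) ∧
    (∀ x ∈ Icc (-1 : ℝ) 1, |(g x).im| ≤ ι) ∧
    (∀ y : E, y.1 ∈ box x0 r r → Q y ^ pw = pp e (V y) * Complex.exp (g ((y.1 - x0) / r))) ∧
    PW (Icc (-1) 1) e ι ι' C0 lev Ψ Ψy ∧
    (∀ ξ ∈ box 0 1 1, lev * Real.exp (g ξ).re ≤ lv ^ pw) ∧
    (∀ y ∈ ov X (box x0 r r), y ∈ K → lv < ‖Q y‖ →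
      |y.1.im / r| ≤ ι' ∧ V y = Ψ ((y.1.re - x0) / r) (y.1.im / r)) ∧
    (∀ y ∈ ov X (box x0 r r), lv < ‖Q y‖ → |y.1.im / r| ≤ 2 * ι' →
      V y = Ψ ((y.1.re - x0) / r) (y.1.im / r) → y ∈ K)

/-- the conclusion of the box lemma on one box, for the set `D` -/
def NWB (D : Set E) (Q : E → ℂ) (K0 σ x0 r : ℝ) : Prop :=
  ∀ B b : ℝ, (∀ y ∈ ov D (box x0 r (σ * r)), ‖Q y‖ ≤ B) →
    (∀ y ∈ ov D (box x0 r (σ * r)), y.1.im = σ * r → ‖Q y‖ ≤ b) →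
    ∀ y ∈ ov D (box x0 (r / 2) (σ * r)), ‖Q y‖ ≤ 32 * max b (B / K0)

/-- gain property of a window -/
def GP (D : Set E) (q : E → ℝ) (x : ℂ) (ex C rmin ρ Omin : ℝ) : Prop :=
  ∀ O : ℝ, Omin ≤ O → (∀ y ∈ D, ρ / C ≤ ‖y.1 - x‖ → ‖y.1 - x‖ ≤ ρ → q y ≤ O) →
    ∀ r : ℝ, rmin ≤ r → r ≤ ρ / C → ∀ y ∈ D, r / 3 ≤ ‖y.1 - x‖ → ‖y.1 - x‖ ≤ r →
      q y ≤ C * (r / ρ) ^ ex * O

/-- annulus with window discs removed -/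
def annW {W : Type} (h : ℝ) (x : W → ℂ) (ρ0 : W → ℝ) : Set ℂ :=
  {z | Real.exp (-h) ≤ ‖z‖ ∧ ‖z‖ ≤ Real.exp h ∧ ∀ j, ρ0 j ≤ ‖z - x j‖}

/-- the arcs of the unit circle outside the window discs -/
def arcW {W : Type} (x : W → ℂ) (ρ0 : W → ℝ) : Set ℝ :=
  {t | ∀ j, ρ0 j ≤ ‖Complex.exp (Complex.I * t) - x j‖}

/-- wall hypotheses on the normalised annulus (curve side inside the unit circle,
`z = exp (i (t + i y))`) -/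
def AW {W : Type} (X K : Set E) (V : E → ℂ) (e ι C0 h : ℝ) (x : W → ℂ) (ρ0 : W → ℝ) : Prop :=
  ∃ (ι' : ℝ) (Ψ Ψy : ℝ → ℝ → ℂ), PW (arcW x ρ0) e ι ι' C0 0 Ψ Ψy ∧
    (∀ y ∈ ov X (annW h x ρ0), y ∈ K → pp e (V y) ≠ 0 →
      |Real.log ‖y.1‖| ≤ ι' ∧ ∀ t ∈ arcW x ρ0, ∀ s : ℝ,
        y.1 = Complex.exp (Complex.I * (t + s * Complex.I)) → V y = Ψ t s) ∧
    (∀ y ∈ ov X (annW h x ρ0), pp e (V y) ≠ 0 → ∀ t ∈ arcW x ρ0, ∀ s : ℝ, |s| ≤ 2 * ι' →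
        y.1 = Complex.exp (Complex.I * (t + s * Complex.I)) → V y = Ψ t s → y ∈ K) ∧
    (∀ y ∈ ov X (annW h x ρ0), y ∉ K → ‖y.1‖ ≤ Real.exp ι)

/-- body of the slope lemma -/
def SLProp (h : ℝ) (n : ℕ) (Λ0 η Λ1 : ℝ) (κ : ℝ → ℝ) : Prop :=
  ∀ (W : Type) [Fintype W] (x : W → ℂ) (ρ ex Cw : W → ℝ), Fintype.card W ≤ n →
    (∀ j, ‖x j‖ = 1 ∧ 0 < ρ j ∧ ρ j ≤ h / 8 ∧ |ex j| ≤ 4 ∧ 1 ≤ Cw j) →
    (∀ j k, j ≠ k → 2 * ρ j ≤ ‖x j - x k‖) →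
    ∀ C0 Cm : ℝ, ∃ ι > 0, ∀ (X K : Set E) (V : E → ℂ) (m : ℂ → ℂ) (e N0 h' : ℝ) (f : ℂ → ℝ)
      (rmin Omin : W → ℝ),
      0 ≤ e → h / 2 ≤ h' → h' ≤ h →
      NP X K (annW h' x fun j => κ (Cw j) * ρ j) →
      AnalyticOnNhd ℂ V (ov X (annW h' x fun j => κ (Cw j) * ρ j)) →
      AnalyticOnNhd ℂ m (annW h' x fun j => κ (Cw j) * ρ j) →
      (∀ z ∈ annW h' x fun j => κ (Cw j) * ρ j, m z ≠ 0 ∧ ‖deriv m z / m z‖ ≤ Cm ∧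
        (‖z‖ = 1 → |(z * deriv m z / m z).re| ≤ ι)) →
      AW X K V e ι C0 h' x (fun j => κ (Cw j) * ρ j) →
      (∀ j, GP (X \ K) (fun y => ‖pp e (V y) * m y.1‖) (x j) (ex j) (Cw j) (rmin j) (ρ j) (Omin j) ∧
        rmin j ≤ κ (Cw j) * ρ j ∧ Omin j ≤ Cw j * Real.exp N0 * ρ j ^ (4 * n)) →
      UpperSemicontinuousOn f (sphere 0 (Real.exp (-h'))) →
      (∃ B, ∀ z ∈ sphere (0 : ℂ) (Real.exp (-h')), B ≤ f z) →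
      (∀ z ∈ sphere (0 : ℂ) (Real.exp (-h')), f z ≤ N0 + Λ0) →
      N0 - Λ0 ≤ Real.circleAverage f 0 (Real.exp (-h')) →
      (∀ y ∈ X, y ∉ K → ‖y.1‖ = Real.exp (-h') → ‖pp e (V y) * m y.1‖ ≤ Real.exp (f y.1)) →
      ∃ B : ℂ → ℝ, ContinuousOn B (annW h' x fun j => κ (Cw j) * ρ j) ∧
        (∀ y ∈ ov X (annW h' x fun j => κ (Cw j) * ρ j), y ∉ K →
          ‖pp e (V y) * m y.1‖ ≤ Real.exp (B y.1)) ∧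
        (∀ z ∈ annW h' x fun j => κ (Cw j) * ρ j, ∀ d : ℝ, 0 < d → d ≤ 1 →
          (∀ j, d ≤ ‖z - x j‖) → B z ≤ N0 + Λ1 - 5 * n * Real.log d) ∧
        (∀ z : ℂ, Real.exp (-h') ≤ ‖z‖ → ‖z‖ ≤ Real.exp (-(h / 16)) → B z ≤ N0 + Λ1) ∧
        (∀ z : ℂ, Real.exp (-(h / 4)) ≤ ‖z‖ → ‖z‖ ≤ Real.exp (-(h / 8)) → N0 - Λ1 ≤ B z) ∧
        (∀ s ∈ Icc (h / 8) (h / 4), Real.circleAverage B 0 (Real.exp (-s)) ≤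
          Real.circleAverage f 0 (Real.exp (-h')) - (∑ j, ex j) / 2 * (h' - s) + η)

/-- port hypotheses on the unit disc: `V = z N`, weight `‖z‖ ^ γ`, levels above `Mst` -/
def PPH (X K : Set E) (N : E → ℂ) (e γ ι C0 Mst : ℝ) : Prop :=
  ∀ M : ℝ, Mst < M → ∃ (η ι' lev : ℝ) (Ψ Ψy : ℝ → ℝ → ℂ), η ≤ -1 ∧
    PW univ e ι ι' C0 lev Ψ Ψy ∧ lev ≤ M * Real.exp (-γ * η - 1) ∧
    (∀ y ∈ ov X (closedBall 0 1), y ∈ K →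
      M / Real.exp 1 < ‖pp e (y.1 * N y)‖ * ‖y.1‖ ^ γ →
      ‖pp e (y.1 * N y)‖ * ‖y.1‖ ^ γ ≤ Real.exp 1 * M →
      |Real.log ‖y.1‖ - η| ≤ ι' ∧ ∀ t s : ℝ,
        y.1 = Complex.exp (η - Complex.I * (t + s * Complex.I)) → y.1 * N y = Ψ t s) ∧
    (∀ y ∈ ov X (closedBall 0 1), M / Real.exp 1 < ‖pp e (y.1 * N y)‖ * ‖y.1‖ ^ γ →
      ∀ t s : ℝ, |s| ≤ 2 * ι' → y.1 = Complex.exp (η - Complex.I * (t + s * Complex.I)) →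
        y.1 * N y = Ψ t s → y ∈ K) ∧
    (∀ y ∈ ov X (closedBall 0 1), y ∈ K → ‖y.1‖ ≤ Real.exp η →
      ‖pp e (y.1 * N y)‖ * ‖y.1‖ ^ γ ≤ M / Real.exp 1 →
      ‖N y * (y.1 * N y - e)‖ ≤ M * Real.exp (-(1 + γ) * η))

/-! ### windows -/

/-- model Blaschke factor of the upper half plane -/
def bl (z : ℂ) : ℂ := (z - Complex.I) / (z + Complex.I)

/-- supremum of `‖P‖` on the part of `D` over the disc of radius `r` -/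
def supW (D : Set E) (P : E → ℂ) (r : ℝ) : ℝ :=
  sSup ((fun y => ‖P y‖) '' ov D (closedBall 0 r))

/-- box conclusions along the real axis -/
def NWP (D : Set E) (Q : E → ℂ) (K0 σ lo hi : ℝ) : Prop :=
  ∀ x0 : ℝ, lo ≤ |x0| → |x0| ≤ hi → NWB D Q K0 σ x0 (|x0| / 8)

/-- hypotheses of an active window -/
structure Act (X K : Set E) (P : E → ℂ) (L ι ρ K0 σ K1 σ1 : ℝ) : Prop where
  np : NP X K (closedBall 0 ρ)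
  up : ∀ y ∈ ov X (closedBall 0 ρ), 0 ≤ y.1.im
  an : AnalyticOnNhd ℂ P (ov X (closedBall 0 ρ))
  anB : ∀ y ∈ X, y.1 = Complex.I → ∃ G : E → ℂ, AnalyticAt ℂ G y ∧
    ∀ᶠ x in 𝓝 y, P x = (x.1 - Complex.I) * G x
  cls : ∀ y ∈ ov X (closedBall 0 ρ), y ∈ K → P y = 0 ∨
    (y.1.im ≤ ι ∧ |Complex.arg (P y)| ≤ ι) ∨
    (|Real.log ‖bl y.1‖ + L| ≤ 1 ∧ y.1 ≠ Complex.I ∧ |Complex.arg (P y) - Real.pi / 4| ≤ 1 / L) ∨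
    (‖bl y.1‖ ≤ Real.exp (-L + 1) ∧ ‖P y‖ ≤ ι * supW (X \ K) P 8 * Real.exp L * ‖bl y.1‖)
  nw : NWP (X \ K) P K0 σ 4 (ρ / 2)
  nw1 : ∀ x0 : ℝ, |x0| ≤ 33 → NWB (X \ K) P K1 σ1 x0 (1 / 2)
  ppp : ∀ b : ℝ, ι * supW (X \ K) P 8 ≤ b →
    (∀ y ∈ X, y ∉ K → Real.exp (-L + 3) ≤ ‖bl y.1‖ → ‖bl y.1‖ ≤ Real.exp (-L + 4) →
      ‖P y‖ ≤ b) →
    ∀ y ∈ X, y ∉ K → ‖y.1‖ ≤ ρ → ‖bl y.1‖ ≤ Real.exp (-L + 3) → ‖P y‖ ≤ 1000 * b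

/-- micro estimate of a neutral window -/
def MIC (D : Set E) (Q : E → ℂ) (M' : ℝ) : Prop :=
  ∀ O : ℝ, (∀ y ∈ D, M' ≤ ‖y.1‖ → ‖y.1‖ ≤ 2 * M' → ‖Q y‖ ≤ O) →
    ∀ y ∈ D, ‖y.1‖ ≤ M' → 1 / 2 ≤ ‖y.1 - Complex.I‖ → ‖Q y‖ ≤ Real.exp 1 * O

/-- hypotheses of a neutral window -/
structure Neu (X K : Set E) (Q : E → ℂ) (ι t0 ρ K0 σ M7 M' : ℝ) : Prop where
  np : NP X K (closedBall 0 ρ)
  up : ∀ y ∈ ov X (closedBall 0 ρ), 0 ≤ y.1.im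
  an : AnalyticOnNhd ℂ Q (ov X (closedBall 0 ρ))
  cls : ∀ y ∈ ov X (closedBall 0 ρ), y ∈ K → 4 ≤ ‖y.1‖ → Q y = 0 ∨
    (y.1.im ≤ t0 ∧ |(Q y).im| ≤ ι * ‖Q y‖)
  nw : NWP (X \ K) Q K0 σ M7 (ρ / 2)
  mic : MIC (X \ K) Q M'

/-- height function of the birth shape -/
def hgt (L : ℝ) (D0 : ℂ → ℝ) (z : ℂ) : ℝ := z.im + Real.log ‖bl z‖ / L - D0 z

/-- admissible deviations of the birth shape -/
structure Dev (c0 CD L : ℝ) (D0 : ℂ → ℝ) : Prop where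
  small : ∀ z : ℂ, -1 / 2 ≤ z.im → |D0 z| ≤ c0 / (100 * L)
  zero : ∀ z : ℂ, 8 * Real.exp (-L / 2) ≤ ‖z - Complex.I‖ → ‖z - Complex.I‖ ≤ 1 / 2 → D0 z = 0
  lipo : ∀ z z' : ℂ, -1 / 2 ≤ z.im → -1 / 2 ≤ z'.im → 8 * Real.exp (-L / 2) ≤ ‖z - Complex.I‖ →
    8 * Real.exp (-L / 2) ≤ ‖z' - Complex.I‖ → |D0 z - D0 z'| ≤ CD / L * ‖z - z'‖
  lipi : ∀ z z' : ℂ, ‖z - Complex.I‖ ≤ 1 / 2 → ‖z' - Complex.I‖ ≤ 1 / 2 →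
    |D0 z - D0 z'| ≤ CD * ‖z - z'‖

/-- value of the birth wall -/
def bw (L : ℝ) (D0 : ℂ → ℝ) (a th : ℝ → ℝ) (z : ℂ) : ℂ :=
  Complex.exp (a (hgt L D0 z) + Complex.I *
    (if ‖z - Complex.I‖ < 4 * Real.exp (-L / 2) then th (hgt L D0 z) else 0))

/-! ### submean functions and curves -/

/-- bounded upper semicontinuous functions with the local submean property -/
structure SMon (u : ℂ → ℝ) (Ω : Set ℂ) : Prop where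
  usc : UpperSemicontinuousOn u Ω
  bdd : ∃ B, ∀ z ∈ Ω, |u z| ≤ B
  sub : ∀ z ∈ Ω, ∀ᶠ r in 𝓝[>] (0 : ℝ), u z ≤ Real.circleAverage u z r

/-- logarithm of the fibre supremum, cut off from below -/
def env (X : Set E) (φ : E → ℝ) (N : ℝ) (z : ℂ) : ℝ :=
  Real.log (max (sSup (φ '' {x | x ∈ X ∧ x.1 = z})) (Real.exp (-N)))

/-- winding number along the unit circle -/
def wind (W : ℂ → ℂ) : ℝ := (Real.circleAverage (fun z => z * deriv W z / W z) 0 1).re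

/-- a boundary loop: circle, side, sheet -/
structure Loop where
  c : ℂ
  r : ℝ
  out : Bool
  w : ℂ → ℂ

/-- normalised chart of a loop; the curve side is `‖z‖ ≤ 1` -/
def Loop.ch (l : Loop) (z : ℂ) : ℂ := if l.out then l.c + l.r * z else l.c + l.r / z

/-- depth below the loop circle (positive on the curve side) -/
def Loop.dep (l : Loop) (z : ℂ) : ℝ :=
  if l.out then Real.log l.r - Real.log ‖z - l.c‖ else Real.log ‖z - l.c‖ - Real.log l.r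

/-- the planar annulus of depths between `a` and `b` -/
def Loop.ann (l : Loop) (a b : ℝ) : Set ℂ := {z | z ≠ l.c ∧ a ≤ l.dep z ∧ l.dep z ≤ b}

/-- the sheet over the annulus of depths between `a` and `b` -/
def Loop.col (l : Loop) (a b : ℝ) : Set E := {y | y.1 ∈ l.ann a b ∧ y.2 = l.w y.1}

/-- mean of `u` on the sheet at depth `s` -/
def Loop.mean (l : Loop) (u : E → ℝ) (s : ℝ) : ℝ :=
  Real.circleAverage (fun z => u (l.ch z, l.w (l.ch z))) 0 (Real.exp (-s))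

/-- winding of a function along the loop, with boundary orientation -/
def Loop.wd (l : Loop) (H : E → ℂ) : ℝ := wind fun z => H (l.ch z, l.w (l.ch z))

/-- derivative in the second variable -/
def dw (P : E → ℂ) (y : E) : ℂ := deriv (fun w => P (y.1, w)) y.2

/-- a compact piece of a plane curve with boundary loops -/
structure Curve where
  P : E → ℂ
  G : Set E
  ι : Type
  fι : Fintype ι
  lp : ι → Loop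

attribute [instance] Curve.fι

def Curve.loops (Γ : Curve) : Set E := ⋃ j, (Γ.lp j).col 0 0

structure Curve.OK (Γ : Curve) : Prop where
  poly : IsPoly Γ.P
  cpt : IsCompact Γ.G
  zero : ∀ y ∈ Γ.G, Γ.P y = 0
  reg : ∀ y ∈ Γ.G, fderiv ℂ Γ.P y ≠ 0
  ne : Nonempty Γ.ι
  rpos : ∀ j, 0 < (Γ.lp j).r
  an : ∀ j, AnalyticOnNhd ℂ (Γ.lp j).w ((Γ.lp j).ann 0 0)
  sheet : ∀ j, ∀ z ∈ (Γ.lp j).ann 0 0, ∀ᶠ z' in 𝓝 z, Γ.P (z', (Γ.lp j).w z') = 0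
  dwne : ∀ j, ∀ y ∈ (Γ.lp j).col 0 0, dw Γ.P y ≠ 0
  side : ∀ j, ∀ y ∈ (Γ.lp j).col 0 0,
    ∀ᶠ x in 𝓝 y, x ∈ Γ.G ↔ (Γ.P x = 0 ∧ 0 ≤ (Γ.lp j).dep x.1)
  disj : ∀ j k, j ≠ k → Disjoint ((Γ.lp j).col 0 0) ((Γ.lp k).col 0 0)
  inner : ∀ y ∈ Γ.G, y ∉ Γ.loops → ∀ᶠ x in 𝓝 y, Γ.P x = 0 → x ∈ Γ.G
  conn : IsPreconnected (Γ.G \ Γ.loops)

/-- closed box around a puncture -/
def pbox (b : E) (r r' : ℝ) : Set E := closedBall b.1 r ×ˢ closedBall b.2 r'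

/-- geometry: punctures, collar width, box sizes -/
structure Geo where
  Pi : Finset E
  h : ℝ
  r1 : ℝ
  rv : ℝ

structure Geo.OK (g : Geo) (Γ : Curve) : Prop where
  hpos : 0 < g.h
  hle : g.h ≤ 1
  rpos : 0 < g.r1
  rle : g.r1 ≤ 1
  vpos : 0 < g.rv
  mem : ∀ b ∈ g.Pi, b ∈ Γ.G ∧ b ∉ Γ.loops
  br : ∀ y ∈ Γ.G, dw Γ.P y = 0 → y ∈ g.Pi
  an : ∀ j, AnalyticOnNhd ℂ (Γ.lp j).w ((Γ.lp j).ann (-(2 * g.h)) (2 * g.h))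
  colz : ∀ j, ∀ y ∈ (Γ.lp j).col (-(2 * g.h)) (2 * g.h), Γ.P y = 0 ∧ dw Γ.P y ≠ 0 ∧
    (y ∈ Γ.G ↔ 0 ≤ (Γ.lp j).dep y.1)
  cold : ∀ j k, j ≠ k → Disjoint ((Γ.lp j).col (-(2 * g.h)) (2 * g.h))
    ((Γ.lp k).col (-(2 * g.h)) (2 * g.h))
  boxd : ∀ b ∈ g.Pi, ∀ b' ∈ g.Pi, b ≠ b' →
    Disjoint (pbox b (2 * g.r1) g.rv) (pbox b' (2 * g.r1) g.rv)
  boxc : ∀ b ∈ g.Pi, ∀ j, Disjoint (pbox b (2 * g.r1) g.rv)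
    ((Γ.lp j).col (-(2 * g.h)) (2 * g.h))
  lid : ∀ b ∈ g.Pi, ∀ y ∈ pbox b (2 * g.r1) g.rv, (y ∈ Γ.G ↔ Γ.P y = 0) ∧
    (y ∈ Γ.G → ‖y.2 - b.2‖ ≤ g.rv / 2 ∧ (y.1 = b.1 → y = b))
  one : ∀ b ∈ g.Pi, dw Γ.P b ≠ 0 → ∃ w : ℂ → ℂ, AnalyticOnNhd ℂ w (closedBall b.1 (2 * g.r1)) ∧
    ∀ y ∈ pbox b (2 * g.r1) g.rv, y ∈ Γ.G ↔ y.2 = w y.1

/-- open region of the curve: depth more than `a` on the collars, distance more than `r`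
from the punctures -/
def Geo.reg (g : Geo) (Γ : Curve) (a r : ℝ) : Set E :=
  {y | y ∈ Γ.G ∧ (∀ j, y ∉ (Γ.lp j).col 0 a) ∧ ∀ b ∈ g.Pi, y ∉ pbox b r g.rv}

/-- the core of the curve -/
def Geo.core (g : Geo) (Γ : Curve) : Set E :=
  {y | y ∈ Γ.G ∧ (∀ j, y ∈ (Γ.lp j).col 0 g.h → (Γ.lp j).dep y.1 = g.h) ∧
    ∀ b ∈ g.Pi, y ∈ pbox b g.r1 g.rv → ‖y.1 - b.1‖ = g.r1}

/-- submean functions on a region of a curve -/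
def CSM (U : Set E) (u : E → ℝ) : Prop :=
  (∃ B, ∀ y ∈ U, |u y| ≤ B) ∧ ∀ (z : ℂ) (r : ℝ) (w : ℂ → ℂ), AnalyticOnNhd ℂ w (ball z r) →
    (∀ z' ∈ ball z r, (z', w z') ∈ U) → SMon (fun z' => u (z', w z')) (ball z r)

/-- local trace near a puncture -/
def Geo.tr (g : Geo) (Γ : Curve) (b : E) (u : E → ℝ) (z : ℂ) : ℝ :=
  ∑ᶠ w ∈ {w : ℂ | (z, w) ∈ Γ.G ∧ ‖w - b.2‖ ≤ g.rv}, u (z, w)

/-- mean of the local trace on the circle of radius `exp s` -/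
def Geo.mean (g : Geo) (Γ : Curve) (b : E) (u : E → ℝ) (s : ℝ) : ℝ :=
  Real.circleAverage (g.tr Γ b u) b.1 (Real.exp s)

/-- points of `D` over `A` at vertical distance at most `R` -/
def tube (D A : Set E) (R : ℝ) : Set E :=
  {x | x ∈ D ∧ ∃ y ∈ A, x.1 = y.1 ∧ ‖x.2 - y.2‖ ≤ R}

/-- abstract end property of a loop, for the levels `exp N0 ≥ thr` -/
def LoopProp (D : Set E) (φ : E → ℝ) (l : Loop) (h R k Λ0 Λ1 thr : ℝ) : Prop :=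
  ∀ (N0 h' : ℝ) (f : ℂ → ℝ), thr ≤ Real.exp N0 → h / 2 ≤ h' → h' ≤ h →
    UpperSemicontinuousOn f (sphere 0 (Real.exp (-h'))) →
    (∃ B, ∀ z ∈ sphere (0 : ℂ) (Real.exp (-h')), B ≤ f z) →
    (∀ z ∈ sphere (0 : ℂ) (Real.exp (-h')), f z ≤ N0 + Λ0) →
    N0 - Λ0 ≤ Real.circleAverage f 0 (Real.exp (-h')) →
    (∀ x ∈ tube D (l.col h' h') R, ∀ z ∈ sphere (0 : ℂ) (Real.exp (-h')), x.1 = l.ch z →
      φ x ≤ Real.exp (f z)) →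
    ∃ B : ℂ → ℝ,
      ContinuousOn B {z | Real.exp (-h') ≤ ‖z‖ ∧ ‖z‖ ≤ Real.exp (-(h / 16))} ∧
      (∀ x ∈ tube D (l.col (h / 16) h') R, ∀ z : ℂ, Real.exp (-h') ≤ ‖z‖ →
        ‖z‖ ≤ Real.exp (-(h / 16)) → x.1 = l.ch z → φ x ≤ Real.exp (B z)) ∧
      (∀ z : ℂ, Real.exp (-h') ≤ ‖z‖ → ‖z‖ ≤ Real.exp (-(h / 16)) → B z ≤ N0 + Λ1) ∧
      (∀ z : ℂ, Real.exp (-(h / 4)) ≤ ‖z‖ → ‖z‖ ≤ Real.exp (-(h / 8)) → N0 - Λ1 ≤ B z) ∧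
      (∀ s ∈ Icc (h / 8) (h / 4), Real.circleAverage B 0 (Real.exp (-s)) ≤
        Real.circleAverage f 0 (Real.exp (-h')) + k * (h' - s))

/-- body of the abstract rigidity theorem for a part -/
def PartProp (Γ : Curve) (g : Geo) (Cup Λk Λ0 r2 R0 : ℝ) : Prop :=
  ∀ (X K : Set E) (F : E → ℂ) (hh : E → ℝ) (R Λ1 lv : ℝ) (k k' : Γ.ι → ℝ) (kb : E → ℝ),
    0 < R → R ≤ R0 → 0 < lv → IsClosed X →
    (∀ x ∈ tube X (g.reg Γ (g.h / 32) (r2 / 2)) R, (x ∉ K → ¬ Peak X x) ∧ (x ∈ K → F x = 0)) →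
    (∀ x ∈ X, ∀ y ∈ g.reg Γ (g.h / 32) (r2 / 2), x.1 = y.1 → ‖x.2 - y.2‖ ≤ R →
      ‖x.2 - y.2‖ ≤ R / 2) →
    AnalyticOnNhd ℂ F (tube X (g.reg Γ (g.h / 32) (r2 / 2)) R) →
    LRe hh (tube X (g.reg Γ (g.h / 32) (r2 / 2)) R) →
    (∀ j, LoopProp (X \ K) (fun x => ‖F x‖ * Real.exp (-hh x)) (Γ.lp j) g.h R (k' j) 0 Cup lv ∧
      LoopProp (X \ K) (fun x => ‖F x‖ * Real.exp (-hh x)) (Γ.lp j) g.h R (k j) Λ0 Λ1 lv) →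
    (∀ b ∈ g.Pi, |kb b| ≤ Λk ∧ (kb b = 0 ∨ dw Γ.P b ≠ 0)) →
    (∑ j, k j) + (∑ b ∈ g.Pi, kb b) ≤ -1 / 8 →
    (∀ x ∈ tube (X \ K) (g.core Γ) R, ‖F x‖ * Real.exp (-hh x) ≤ lv) →
    (∀ b ∈ g.Pi, ∀ x ∈ tube (X \ K) (Γ.G ∩ pbox b g.r1 g.rv) R, r2 / 2 ≤ ‖x.1 - b.1‖ →
      ‖F x‖ * Real.exp (-hh x) ≤ lv * Real.exp Cup * (g.r1 / ‖x.1 - b.1‖) ^ kb b) →
    ∀ x ∈ tube (X \ K) (g.core Γ) R, ‖F x‖ * Real.exp (-hh x) ≤ lv / 2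

end Pool.Agent.Lib.SH
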