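import Pool.Agent.Lib.SH.Blue1b
import Pool.Agent.Lib.HULL.LM

/-!
Generic barrier tools for the window lemmas: maximum principle, rectangle and annulus forms of
the transfer lemma, and the polynomial barrier of the half disc.
-/

open Set Filter Topology Metric

noncomputable section

namespace Pool.Agent.Lib.SH.QL

open Pool.Agent.HULL

section Gen

variable {F : Type*} [NormedAddCommGroup F] [NormedSpace ℂ F] [FiniteDimensional ℂ F]

/-- coordinates of a finite dimensional space -/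
def cc (F : Type*) [NormedAddCommGroup F] [NormedSpace ℂ F] [FiniteDimensional ℂ F] :
    F ≃L[ℂ] (Fin (Module.finrank ℂ F) → ℂ) :=
  ContinuousLinearEquiv.ofFinrankEq (by simp)

theorem mp {Z : Set F} (hZ : IsCompact Z) {ψ : F → ℝ} (hψ : ContinuousOn ψ Z) {b : ℝ}
    (H : ∀ y ∈ Z, b < ψ y → NoPeak Z y ∧ ∃ G : F → ℂ, AnalyticAt ℂ G y ∧
      ∀ x, ψ x = (G x).re) : ∀ y ∈ Z, ψ y ≤ b :=
  maxre (cc F) hZ hψ fun y hy hb => by
    obtain ⟨h1, G, h2, h3⟩ := H y hy hb
    exact ⟨h1, G, h2, Eventually.of_forall fun x _ => h3 x⟩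

theorem trx {Z : Set F} (hZ : IsCompact Z) {Q : F → ℂ} (hQc : ContinuousOn Q Z) {ε m : ℝ}
    (hε : 0 < ε) (hI : ∀ y ∈ Z, |(Q y).im| ≤ ε) {ω : F → ℝ} (hωc : ContinuousOn ω Z)
    (h1 : ∀ y ∈ Z, ω y ≤ 1)
    (H : ∀ y ∈ Z, 0 < ω y → m < (Q y).re → NoPeak Z y ∧ AnalyticAt ℂ Q y ∧
      ∃ G : F → ℂ, AnalyticAt ℂ G y ∧ ∀ᶠ x in 𝓝 y, x ∈ Z → ω x = (G x).re) :
    ∀ y ∈ Z, 0 < ω y → (Q y).re ≤ m + ε * Real.log (2 / ω y) := by
  have hb : ∀ y ∈ Z, y ∉ {y | ω y ≤ 0 ∨ (Q y).re ≤ m} → 0 < ω y ∧ m < (Q y).re := by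
    intro y _ h
    simp only [mem_ofPred_eq, not_or, not_le] at h
    exact h
  exact tr_log (cc F) (B := {y | ω y ≤ 0 ∨ (Q y).re ≤ m}) hZ
    (fun y hy h => (H y hy (hb y hy h).1 (hb y hy h).2).1) hQc
    (fun y hy h => (H y hy (hb y hy h).1 (hb y hy h).2).2.1) hε hI hωc
    (fun y hy h => (H y hy (hb y hy h).1 (hb y hy h).2).2.2)
    (fun y hy h => h.imp id fun h' => ⟨h1 y hy, h'⟩)

theorem sin_im_mul (k : ℝ) (w : ℂ) :
    (Complex.sin (k * w)).im = Real.cos (k * w.re) * Real.sinh (k * w.im) := by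
  have e : (k : ℂ) * w = ((k * w.re : ℝ) : ℂ) + ((k * w.im : ℝ) : ℂ) * Complex.I := by
    apply Complex.ext <;> simp
  rw [e, Complex.sin_add, Complex.sin_mul_I, Complex.cos_mul_I, ← Complex.ofReal_sin,
    ← Complex.ofReal_cos, ← Complex.ofReal_sinh, ← Complex.ofReal_cosh]
  simp only [Complex.add_im, Complex.mul_im, Complex.ofReal_re, Complex.ofReal_im,
    Complex.I_re, Complex.I_im, Complex.mul_re]
  ring

/-- transfer from the top side of a rectangle -/
theorem rect {Z : Set F} (hZ : IsCompact Z) {Q w : F → ℂ} (hQc : ContinuousOn Q Z)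
    (hwc : ContinuousOn w Z) {a Θ ε m : ℝ} (ha : 0 < a) (hΘ : 0 < Θ) (hε : 0 < ε)
    (hI : ∀ y ∈ Z, |(w y).re| ≤ a → 0 ≤ (w y).im → (w y).im ≤ Θ → |(Q y).im| ≤ ε)
    (htop : ∀ y ∈ Z, |(w y).re| ≤ a → (w y).im = Θ → (Q y).re ≤ m)
    (H : ∀ y ∈ Z, |(w y).re| < a → 0 < (w y).im → (w y).im < Θ → m < (Q y).re →
      NoPeak Z y ∧ AnalyticAt ℂ Q y ∧ AnalyticAt ℂ w y) {d : ℝ} (hd : 0 < d) :
    ∀ y ∈ Z, |(w y).re| ≤ a → 0 ≤ (w y).im → (w y).im ≤ Θ →
      d * Real.sinh (Real.pi / (2 * a) * Θ) ≤ Real.cos (Real.pi / (2 * a) * (w y).re) *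
        Real.sinh (Real.pi / (2 * a) * (w y).im) →
      (Q y).re ≤ m + ε * Real.log (2 / d) := by
  set k := Real.pi / (2 * a) with hk
  have hk0 : 0 < k := by have := Real.pi_pos; positivity
  have hka : k * a = Real.pi / 2 := by rw [hk]; field_simp
  have hS : 0 < Real.sinh (k * Θ) := Real.sinh_pos_iff.2 (mul_pos hk0 hΘ)
  set Z' : Set F := Z ∩ w ⁻¹' {z | |z.re| ≤ a ∧ 0 ≤ z.im ∧ z.im ≤ Θ} with hZ'
  have hcl : IsClosed {z : ℂ | |z.re| ≤ a ∧ 0 ≤ z.im ∧ z.im ≤ Θ} :=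
    (isClosed_le Complex.continuous_re.abs continuous_const).inter
      ((isClosed_le continuous_const Complex.continuous_im).inter
        (isClosed_le Complex.continuous_im continuous_const))
  have hc : IsCompact Z' :=
    hZ.of_isClosed_subset (hwc.preimage_isClosed_of_isClosed hZ.isClosed hcl) inter_subset_left
  let ω : F → ℝ := fun x => (Complex.sin (k * w x)).im / Real.sinh (k * Θ)
  have hω : ∀ x, ω x = Real.cos (k * (w x).re) * Real.sinh (k * (w x).im) / Real.sinh (k * Θ) :=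
    fun x => by simp only [ω, sin_im_mul]
  have key := trx hc (Q := Q) (hQc.mono inter_subset_left) (m := m) hε
    (fun y hy => hI y hy.1 hy.2.1 hy.2.2.1 hy.2.2.2) (ω := ω)
    ((Complex.continuous_im.comp_continuousOn (Complex.continuous_sin.comp_continuousOn
      (continuousOn_const.mul (hwc.mono inter_subset_left)))).div_const _)
    (by
      intro y hy
      rw [hω, div_le_one hS]
      have a1 : Real.sinh (k * (w y).im) ≤ Real.sinh (k * Θ) :=
        Real.sinh_le_sinh.2 (mul_le_mul_of_nonneg_left hy.2.2.2 hk0.le)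
      have a2 : 0 ≤ Real.sinh (k * (w y).im) :=
        Real.sinh_nonneg_iff.2 (mul_nonneg hk0.le hy.2.2.1)
      nlinarith [Real.cos_le_one (k * (w y).re)])
    (by
      intro y hy h0 hm
      rw [hω] at h0
      have h0' : 0 < Real.cos (k * (w y).re) * Real.sinh (k * (w y).im) :=
        (div_pos_iff_of_pos_right hS).1 h0
      have b1 : |(w y).re| < a := by
        refine lt_of_le_of_ne hy.2.1 fun h => ?_
        rw [← Real.cos_abs, abs_mul, abs_of_pos hk0, h, hka] at h0'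
        simp at h0'
      have b2 : 0 < (w y).im := by
        refine lt_of_le_of_ne hy.2.2.1 fun h => ?_
        rw [← h] at h0'
        simp at h0'
      have b3 : (w y).im < Θ :=
        lt_of_le_of_ne hy.2.2.2 fun h => absurd (htop y hy.1 hy.2.1 h) (not_le.2 hm)
      obtain ⟨c1, c2, c3⟩ := H y hy.1 b1 b2 b3 hm
      refine ⟨c1.mono ?_, c2, fun x => -Complex.I * Complex.sin (k * w x) /
        (Real.sinh (k * Θ) : ℝ), ?_, Eventually.of_forall fun x _ => ?_⟩
      · have e1 : ∀ᶠ z in 𝓝 (w y), |z.re| < a :=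
          (by fun_prop : Continuous fun z : ℂ => |z.re|).continuousAt.eventually_lt
            continuousAt_const b1
        have e2 : ∀ᶠ z in 𝓝 (w y), 0 < z.im :=
          continuousAt_const.eventually_lt Complex.continuous_im.continuousAt b2
        have e3 : ∀ᶠ z in 𝓝 (w y), z.im < Θ :=
          Complex.continuous_im.continuousAt.eventually_lt continuousAt_const b3
        filter_upwards [c3.continuousAt.eventually (e1.and (e2.and e3))] with x hx hxZ
        exact ⟨hxZ, hx.1.le, hx.2.1.le, hx.2.2.le⟩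
      · exact (analyticAt_const.mul (Complex.analyticAt_sin.fun_comp
          (analyticAt_const.mul c3))).div_const
      · simp only [ω, Complex.div_ofReal_re]
        congr 1
        simp)
  intro y hy h1 h2 h3 h4
  have h5 : d ≤ ω y := by rw [hω, le_div_iff₀ hS]; exact h4
  refine (key y ⟨hy, h1, h2, h3⟩ (hd.trans_le h5)).trans ?_
  have : Real.log (2 / ω y) ≤ Real.log (2 / d) :=
    Real.log_le_log (div_pos two_pos (hd.trans_le h5)) (div_le_div_of_nonneg_left two_pos.le hd h5)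
  nlinarith

/-- transfer from the inner circle of an annulus -/
theorem tra {Z : Set F} (hZ : IsCompact Z) {Q w : F → ℂ} (hQc : ContinuousOn Q Z)
    (hwc : ContinuousOn w Z) {ε m : ℝ} (hε : 0 < ε)
    (hI : ∀ y ∈ Z, ‖w y‖ ≤ 9 / 10 → |(Q y).im| ≤ ε)
    (hin : ∀ y ∈ Z, ‖w y‖ ≤ 1 / 4 → (Q y).re ≤ m)
    (H : ∀ y ∈ Z, ‖w y‖ < 9 / 10 → m < (Q y).re →
      NoPeak Z y ∧ AnalyticAt ℂ Q y ∧ AnalyticAt ℂ w y) :
    ∀ y ∈ Z, ‖w y‖ ≤ 7 / 10 → (Q y).re ≤ m + 20 * ε := by
  set Z' : Set F := Z ∩ w ⁻¹' {z | 1 / 4 ≤ ‖z‖ ∧ ‖z‖ ≤ 9 / 10} with hZ'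
  have hcl : IsClosed {z : ℂ | 1 / 4 ≤ ‖z‖ ∧ ‖z‖ ≤ 9 / 10} :=
    (isClosed_le continuous_const continuous_norm).inter
      (isClosed_le continuous_norm continuous_const)
  have hc : IsCompact Z' :=
    hZ.of_isClosed_subset (hwc.preimage_isClosed_of_isClosed hZ.isClosed hcl) inter_subset_left
  let ω : F → ℝ := fun x => (Real.log (9 / 10) - Real.log ‖w x‖) / 3
  have hn : ∀ y ∈ Z', w y ≠ 0 := fun y hy h => by
    have := hy.2.1
    rw [h, norm_zero] at this
    linarith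
  have key := trx hc (Q := Q) (hQc.mono inter_subset_left) (m := m) hε
    (fun y hy => hI y hy.1 hy.2.2) (ω := ω)
    ((continuousOn_const.sub ((hwc.mono inter_subset_left).norm.log
      fun y hy => norm_ne_zero_iff.2 (hn y hy))).div_const _)
    (by
      intro y hy
      have h0 : 0 < ‖w y‖ := norm_pos_iff.2 (hn y hy)
      have h1 : Real.log (9 / 10) - Real.log ‖w y‖ = Real.log (9 / 10 / ‖w y‖) := by
        rw [Real.log_div (by norm_num) h0.ne']
      have h2 : 9 / 10 / ‖w y‖ ≤ 4 := by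
        rw [div_le_iff₀ h0]; linarith [hy.2.1]
      have h3 := Real.log_le_sub_one_of_pos (show 0 < 9 / 10 / ‖w y‖ by positivity)
      simp only [ω]
      linarith)
    (by
      intro y hy h0 hm
      have h00 : 0 < ‖w y‖ := norm_pos_iff.2 (hn y hy)
      have b1 : ‖w y‖ < 9 / 10 := by
        refine lt_of_le_of_ne hy.2.2 fun h => ?_
        simp only [ω, h, sub_self, zero_div] at h0
        exact lt_irrefl _ h0
      have b2 : 1 / 4 < ‖w y‖ :=
        lt_of_le_of_ne hy.2.1 fun h => absurd (hin y hy.1 h.ge) (not_le.2 hm)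
      obtain ⟨c1, c2, c3⟩ := H y hy.1 b1 hm
      refine ⟨c1.mono ?_, c2, fun x => ((Real.log (9 / 10) - Real.log ‖w y‖ : ℝ) -
        Complex.log (w x / w y)) / (3 : ℝ), ?_, ?_⟩
      · filter_upwards [continuousAt_const.eventually_lt c3.continuousAt.norm b2,
          c3.continuousAt.norm.eventually_lt continuousAt_const b1] with x a b hx
        exact ⟨hx, a.le, b.le⟩
      · refine (analyticAt_const.sub (c3.div_const.clog ?_)).div_const
        rw [div_self (hn y hy)]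
        exact Complex.one_mem_slitPlane
      · refine Eventually.of_forall fun x hx => ?_
        have := norm_pos_iff.2 (hn x hx)
        simp only [ω, Complex.div_ofReal_re, Complex.sub_re, Complex.ofReal_re, Complex.log_re,
          norm_div]
        rw [Real.log_div this.ne' h00.ne']
        ring)
  intro y hy h1
  by_cases h2 : ‖w y‖ ≤ 1 / 4
  · linarith [hin y hy h2]
  have h2' := not_le.1 h2
  have h0 : 0 < ‖w y‖ := by linarith
  have h3 : 1 / 15 ≤ ω y := by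
    have a1 : Real.log ‖w y‖ - Real.log (9 / 10) = Real.log (‖w y‖ / (9 / 10)) := by
      rw [Real.log_div h0.ne' (by norm_num)]
    have a2 := Real.log_le_sub_one_of_pos (show 0 < ‖w y‖ / (9 / 10) by positivity)
    have a3 : ‖w y‖ / (9 / 10) ≤ 7 / 9 := by rw [div_le_iff₀ (by norm_num)]; linarith
    simp only [ω]
    linarith
  have h4 := key y ⟨hy, h2'.le, by linarith⟩ (by linarith)
  have h5 : Real.log (2 / ω y) ≤ 20 := by
    have a1 : 2 / ω y ≤ 30 := by rw [div_le_iff₀ (by linarith)]; linarith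
    have a2 : Real.log (2 / ω y) ≤ Real.log 30 :=
      Real.log_le_log (div_pos two_pos (by linarith)) a1
    have a3 : Real.log 30 ≤ 20 := by
      rw [Real.log_le_iff_le_exp (by norm_num)]
      have := Real.add_one_le_exp (10 : ℝ)
      have e : Real.exp 20 = Real.exp 10 * Real.exp 10 := by rw [← Real.exp_add]; norm_num
      nlinarith
    linarith
  nlinarith

end Gen

/-- polynomial barrier of the upper half disc -/
def uu (η : ℂ) : ℂ := η ^ 2 - 2 * Complex.I * η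

theorem uu_re (η : ℂ) : (uu η).re = η.re ^ 2 - η.im ^ 2 + 2 * η.im := by
  simp [uu, sq]

theorem sq_norm' (η : ℂ) : ‖η‖ ^ 2 = η.re ^ 2 + η.im ^ 2 := by
  rw [Complex.sq_norm, Complex.normSq_apply]; ring

theorem uu_nonneg {η : ℂ} (h : ‖η‖ ≤ 1) (h0 : 0 ≤ η.im) : 0 ≤ (uu η).re := by
  have := (Complex.im_le_norm η).trans h
  rw [uu_re]; nlinarith [sq_nonneg η.re]

theorem uu_one {η : ℂ} (h : ‖η‖ = 1) (h0 : 0 ≤ η.im) : 1 ≤ (uu η).re := by
  have h1 := (Complex.im_le_norm η).trans h.le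
  have h2 := sq_norm' η
  rw [h] at h2
  rw [uu_re]; nlinarith

theorem uu_le (η : ℂ) : (uu η).re ≤ ‖η‖ ^ 2 + 2 * η.im := by
  rw [uu_re, sq_norm']; nlinarith [sq_nonneg η.im]

theorem uu_le3 {η : ℂ} (h : ‖η‖ ≤ 1) : (uu η).re ≤ 3 * ‖η‖ := by
  have h1 := uu_le η
  have h2 := Complex.im_le_norm η
  nlinarith [norm_nonneg η]

theorem uu_an {F : Type*} [NormedAddCommGroup F] [NormedSpace ℂ F] {f : F → ℂ} {y : F}
    (h : AnalyticAt ℂ f y) : AnalyticAt ℂ (fun x => uu (f x)) y :=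
  (h.pow 2).sub (analyticAt_const.mul h)

theorem uu_cont : Continuous uu := by unfold uu; fun_prop

theorem out_facts {z : ℂ} {r : ℝ} (hr : 0 < r) (h0 : 0 ≤ z.im) :
    ‖z / r‖ = ‖z‖ / r ∧ (z / r).im = z.im / r ∧ 0 ≤ (z / r).im := by
  refine ⟨by rw [norm_div, Complex.norm_real, Real.norm_of_nonneg hr.le],
    Complex.div_ofReal_im _ _, ?_⟩
  rw [Complex.div_ofReal_im]; positivity

theorem in_facts {z : ℂ} {r : ℝ} (hr : 0 < r) (h0 : 0 ≤ z.im) :
    ‖-(r : ℂ) / z‖ = r / ‖z‖ ∧ 0 ≤ (-(r : ℂ) / z).im := by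
  refine ⟨by rw [norm_div, norm_neg, Complex.norm_real, Real.norm_of_nonneg hr.le], ?_⟩
  rw [Complex.div_im]
  simp only [Complex.neg_im, Complex.ofReal_im, neg_zero, zero_mul, zero_div, Complex.neg_re,
    Complex.ofReal_re, zero_sub, neg_mul, neg_div, neg_neg]
  have := Complex.normSq_nonneg z
  positivity

theorem np_of {X Z : Set E} {y : E} (h : ¬ Peak X y) (hZ : ∀ᶠ x in 𝓝 y, x ∈ X → x ∈ Z) :
    NoPeak Z y :=
  NoPeak.mono (fun G hG hp => h ⟨G, hG, hp⟩) hZ

end Pool.Agent.Lib.SH.QL
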