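import Pool.Agent.Lib.SH.QL_Sec

/-!
Linear lemma, first part: lifting to the logarithmic cover, Schwarz estimate at the port,
elementary facts on the Blaschke factor.
-/

open Set Filter Topology Metric

noncomputable section

namespace Pool.Agent.Lib.SH.QL

open Pool.Agent.HULL

variable {X K : Set E} {P : E → ℂ} {ρ : ℝ}

theorem one_le_addI {z : ℂ} (h : 0 ≤ z.im) : 1 ≤ ‖z + Complex.I‖ := by
  have := Complex.im_le_norm (z + Complex.I)
  simp only [Complex.add_im, Complex.I_im] at this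
  linarith

theorem addI_ne {z : ℂ} (h : 0 ≤ z.im) : z + Complex.I ≠ 0 :=
  norm_pos_iff.1 (one_pos.trans_le (one_le_addI h))

theorem norm_subI {z : ℂ} (h : z + Complex.I ≠ 0) :
    ‖z - Complex.I‖ = ‖bl z‖ * ‖z + Complex.I‖ := by
  rw [bl, norm_div, div_mul_cancel₀ _ (norm_ne_zero_iff.2 h)]

theorem sq_diff (z : ℂ) : ‖z + Complex.I‖ ^ 2 - ‖z - Complex.I‖ ^ 2 = 4 * z.im := by
  rw [sq_norm', sq_norm']; simp; ring

theorem addI_le (z : ℂ) : ‖z + Complex.I‖ ≤ ‖z - Complex.I‖ + 2 := by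
  have : z + Complex.I = (z - Complex.I) + 2 * Complex.I := by ring
  rw [this]
  refine (norm_add_le _ _).trans ?_
  simp

theorem bl_le_one {z : ℂ} (h : 0 ≤ z.im) : ‖bl z‖ ≤ 1 := by
  rw [bl, norm_div, div_le_one (one_pos.trans_le (one_le_addI h))]
  have := sq_diff z
  exact abs_le_of_sq_le_sq' (by linarith) (norm_nonneg _) |>.2

theorem bl_half {z : ℂ} (h : 0 ≤ z.im) (h1 : z.im ≤ 1 / 8) : 1 / 2 ≤ ‖bl z‖ := by
  have a := sq_diff z
  have b := one_le_addI h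
  rw [norm_subI (addI_ne h), mul_pow] at a
  by_contra hc
  have c := not_le.1 hc
  have d : ‖bl z‖ ^ 2 ≤ 1 / 4 := by nlinarith [norm_nonneg (bl z)]
  nlinarith [mul_le_mul_of_nonneg_right d (sq_nonneg ‖z + Complex.I‖)]

/-- points where the Blaschke factor is at most `1 - g` -/
theorem bl_gap {z : ℂ} {g : ℝ} (h : 0 ≤ z.im) (g0 : 0 < g) (g1 : g ≤ 1) (hb : ‖bl z‖ ≤ 1 - g) :
    ‖z‖ ≤ 3 / g ∧ g / 4 ≤ z.im ∧ ‖z - Complex.I‖ ≤ 2 / g * ‖bl z‖ := by
  have a := sq_diff z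
  have b := one_le_addI h
  have c := addI_le z
  have e := norm_subI (addI_ne h)
  have n := norm_nonneg (bl z)
  have d : g * ‖z + Complex.I‖ ≤ 2 := by
    nlinarith [mul_le_mul_of_nonneg_right hb (zero_le_one.trans b)]
  have d' : ‖z + Complex.I‖ ≤ 2 / g := by rw [le_div_iff₀ g0]; linarith
  refine ⟨?_, ?_, ?_⟩
  · have : ‖z‖ ≤ ‖z + Complex.I‖ + 1 := by
      simpa using norm_sub_le (z + Complex.I) Complex.I
    rw [le_div_iff₀ g0]
    nlinarith
  · rw [e, mul_pow] at a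
    have f : ‖bl z‖ ^ 2 ≤ 1 - g := by nlinarith
    have b2 : 1 ≤ ‖z + Complex.I‖ ^ 2 := by nlinarith
    nlinarith [mul_le_mul_of_nonneg_right f (sq_nonneg ‖z + Complex.I‖)]
  · rw [e, mul_comm]
    exact mul_le_mul_of_nonneg_right d' n

theorem exp_neg_le {s : ℝ} (h0 : 0 ≤ s) (h1 : s ≤ 1) : Real.exp (-s) ≤ 1 - s / 2 := by
  have a := Real.add_one_le_exp s
  rw [Real.exp_neg, inv_le_iff_one_le_mul₀ (Real.exp_pos s)]
  nlinarith

/-- the lift of `X` to the logarithmic cover -/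
def Xt (X : Set E) : Set (E × ℂ) :=
  {p | p.1 ∈ X ∧ Complex.exp p.2 * (p.1.1 + Complex.I) = p.1.1 - Complex.I}

theorem Xt.exp {p : E × ℂ} (hp : p ∈ Xt X) (h : p.1.1 + Complex.I ≠ 0) :
    Complex.exp p.2 = bl p.1.1 := by
  rw [bl, eq_div_iff h]; exact hp.2

theorem Xt.norm {p : E × ℂ} (hp : p ∈ Xt X) (h : 0 ≤ p.1.1.im) :
    ‖bl p.1.1‖ = Real.exp p.2.re := by
  rw [← Xt.exp hp (addI_ne h), Complex.norm_exp]

theorem lift {p : E × ℂ} (hp : p ∈ Xt X) (h : p.1.1 + Complex.I ≠ 0) (hn : ¬ Peak X p.1) :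
    NoPeak (Xt X) p := by
  intro G hG hpk
  have e := Xt.exp hp h
  have hb : AnalyticAt ℂ (fun x : E => bl x.1 / Complex.exp p.2) p.1 :=
    ((analyticAt_fst.sub analyticAt_const).div (analyticAt_fst.add analyticAt_const) h).div_const
  have h1 : bl p.1.1 / Complex.exp p.2 = 1 := by rw [← e, div_self (Complex.exp_ne_zero _)]
  let φ : E → E × ℂ := fun x => (x, p.2 + Complex.log (bl x.1 / Complex.exp p.2))
  have hφ : AnalyticAt ℂ φ p.1 := analyticAt_id.prod (analyticAt_const.add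
    (hb.clog (by rw [h1]; exact Complex.one_mem_slitPlane)))
  have hφ0 : φ p.1 = p := by simp only [φ, h1, Complex.log_one, add_zero]
  refine hn ⟨fun x => G (φ x), AnalyticAt.fun_comp (by rw [hφ0]; exact hG) hφ, ?_⟩
  have t : Tendsto φ (𝓝 p.1) (𝓝 p) := by
    have := hφ.continuousAt.tendsto
    rwa [hφ0] at this
  have n1 : ∀ᶠ x in 𝓝 p.1, bl x.1 / Complex.exp p.2 ≠ 0 :=
    hb.continuousAt.eventually_ne (by rw [h1]; exact one_ne_zero)
  have n2 : ∀ᶠ x : E in 𝓝 p.1, x.1 + Complex.I ≠ 0 :=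
    (continuous_fst.add continuous_const).continuousAt.eventually_ne h
  filter_upwards [t.eventually hpk, n1, n2] with x a b c hx hne
  rw [hφ0]
  refine a ⟨hx, ?_⟩ fun e => hne (congrArg Prod.fst e)
  simp only [φ]
  rw [Complex.exp_add, Complex.exp_log b, mul_div_cancel₀ _ (Complex.exp_ne_zero _), bl,
    div_mul_cancel₀ _ c]

/-- Schwarz estimate at the port -/
theorem schwarz (h : WD X K P ρ) (hρ : 2 ≤ ρ)
    (hB : ∀ y ∈ X, y.1 = Complex.I → ∃ G : E → ℂ, AnalyticAt ℂ G y ∧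
      ∀ᶠ x in 𝓝 y, P x = (x.1 - Complex.I) * G x) {R C : ℝ} (hR : 0 < R) (hC : 2 * R ^ 2 ≤ C)
    (hK : ∀ y ∈ X, ‖y.1 - Complex.I‖ ≤ 1 / 2 → y ∈ K → ‖P y‖ ≤ 2 * R →
      ‖P y‖ ^ 2 ≤ C * ‖y.1 - Complex.I‖)
    (hb : ∀ y ∈ X, y ∉ K → ‖y.1‖ ≤ 2 → ‖P y‖ ≤ R) :
    ∀ y ∈ X, y ∉ K → ‖y.1 - Complex.I‖ ≤ 1 / 2 → ‖P y‖ ^ 2 ≤ C * ‖y.1 - Complex.I‖ := by
  have hn : ∀ z : ℂ, ‖z - Complex.I‖ ≤ 1 / 2 → ‖z‖ < 2 := fun z hz => by
    have : ‖z‖ ≤ ‖z - Complex.I‖ + 1 := by simpa using norm_add_le (z - Complex.I) Complex.I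
    linarith
  set Z : Set E := ZA X P (-1) 2 (2 * R) ∩ {y | ‖y.1 - Complex.I‖ ≤ 1 / 2} with hZ
  have hc : IsCompact Z := (h.cpt hρ).inter_right
    (isClosed_le (continuous_fst.sub continuous_const).norm continuous_const)
  let F : E → ℂ := fun x => P x ^ 2 / (x.1 - Complex.I)
  have hC0 : 0 ≤ C := le_trans (by positivity) hC
  have hFa : ∀ y ∈ Z, y.1 ≠ Complex.I → AnalyticAt ℂ F y := fun y hy hne =>
    ((h.an y (ZA.ov hρ hy.1)).pow 2).div (analyticAt_fst.sub analyticAt_const) (sub_ne_zero.2 hne)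
  have hFc : ∀ y ∈ Z, ContinuousAt F y := by
    intro y hy
    by_cases e : y.1 = Complex.I
    · obtain ⟨G, hG, hG'⟩ := hB y hy.1.1 e
      have : ContinuousAt (fun x : E => (x.1 - Complex.I) * G x ^ 2) y :=
        (continuous_fst.sub continuous_const).continuousAt.mul (hG.continuousAt.pow 2)
      refine this.congr ?_
      filter_upwards [hG'] with x hx
      simp only [F, hx]
      by_cases e' : x.1 - Complex.I = 0
      · simp [e']
      · field_simp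
    · exact (hFa y hy e).continuousAt
  have hle : ∀ y : E, ‖P y‖ ^ 2 ≤ C * ‖y.1 - Complex.I‖ → ‖F y‖ ≤ C := fun y hy => by
    simp only [F, norm_div, norm_pow]
    exact div_le_of_le_mul₀ (norm_nonneg _) hC0 hy
  have key := maxabs (cc E) hc (ψ := fun x => ‖F x‖) (b := C)
    (fun y hy => (hFc y hy).norm.continuousWithinAt) (by
    intro y hy hlt
    have yK : y ∉ K := fun hk => absurd (hle y (hK y hy.1.1 hy.2 hk hy.1.2.2.2)) (not_le.2 hlt)
    have yI : y.1 ≠ Complex.I := fun e => by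
      simp only [F, e, sub_self, div_zero, norm_zero] at hlt
      linarith
    have p1 := hb y hy.1.1 yK hy.1.2.2.1
    have b1 : ‖y.1 - Complex.I‖ < 1 / 2 := lt_of_le_of_ne hy.2 fun e => by
      refine absurd (hle y ?_) (not_le.2 hlt)
      rw [e]
      nlinarith [norm_nonneg (P y)]
    refine ⟨np_of (h.nop hy.1.1 (hy.1.2.2.1.trans hρ) yK) ?_, F, hFa y hy yI,
      Eventually.of_forall fun _ _ => rfl⟩
    filter_upwards [h.ev hρ hy.1.1 (show (-1 : ℝ) < ‖y.1‖ by linarith [norm_nonneg y.1])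
      (hn _ hy.2) (show ‖P y‖ < 2 * R by linarith),
      (continuous_fst.sub continuous_const).norm.continuousAt.eventually_lt continuousAt_const b1]
      with x a b hx
    exact ⟨a hx, b.le⟩)
  intro y hy hk h1
  have p1 := hb y hy hk (hn _ h1).le
  by_cases e : y.1 = Complex.I
  · obtain ⟨G, -, hG'⟩ := hB y hy e
    rw [hG'.self_of_nhds, e]
    simp
  · have := key y ⟨⟨hy, by linarith [norm_nonneg y.1], (hn _ h1).le, by linarith⟩, h1⟩
    simp only [F, norm_div, norm_pow] at this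
    rwa [div_le_iff₀ (norm_pos_iff.2 (sub_ne_zero.2 e))] at this

theorem rot_le {c : ℂ} (hc : ‖c‖ ≤ 1) (hc0 : c.re ≤ 0) {t θ : ℝ} (ht : 0 ≤ t) :
    (c * (t * Complex.exp (Complex.I * θ))).re ≤ t * |θ| := by
  have e : c * (t * Complex.exp (Complex.I * θ)) =
      t * c + t * (c * (Complex.exp (Complex.I * θ) - 1)) := by ring
  rw [e, Complex.add_re, Complex.re_ofReal_mul, Complex.re_ofReal_mul]
  have a : (c * (Complex.exp (Complex.I * θ) - 1)).re ≤ |θ| := by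
    refine (Complex.re_le_norm _).trans ?_
    rw [norm_mul]
    have := Real.norm_exp_I_mul_ofReal_sub_one_le (x := θ)
    rw [Real.norm_eq_abs] at this
    nlinarith [norm_nonneg (Complex.exp (Complex.I * θ) - 1), norm_nonneg c]
  nlinarith [mul_le_mul_of_nonneg_left a ht, mul_nonneg ht (neg_nonneg.2 hc0)]

/-- the twisted function on the cover -/
def tw (P : E → ℂ) (L : ℝ) (p : E × ℂ) : ℂ :=
  P p.1 * Complex.exp (Complex.I * ((Real.pi / 4 : ℝ) * p.2 / L))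

theorem tw_eq (L : ℝ) (p : E × ℂ) : tw P L p =
    ((‖P p.1‖ * Real.exp (-(Real.pi / 4 * p.2.im / L)) : ℝ) : ℂ) *
      Complex.exp (Complex.I * (((P p.1).arg + Real.pi / 4 * p.2.re / L : ℝ) : ℂ)) := by
  rw [tw]
  nth_rewrite 1 [← Complex.norm_mul_exp_arg_mul_I (P p.1)]
  rw [Complex.ofReal_mul, Complex.ofReal_exp, mul_assoc, mul_assoc, ← Complex.exp_add,
    ← Complex.exp_add]
  congr 2
  nth_rewrite 1 [← Complex.re_add_im p.2]
  push_cast
  linear_combination (Real.pi / 4 * p.2.im / L) * Complex.I_mul_I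

theorem tw_norm (L : ℝ) (p : E × ℂ) :
    ‖tw P L p‖ = ‖P p.1‖ * Real.exp (-(Real.pi / 4 * p.2.im / L)) := by
  rw [tw_eq, norm_mul, Complex.norm_exp_I_mul_ofReal, mul_one, Complex.norm_real,
    Real.norm_of_nonneg (by positivity)]

theorem tw_an (L : ℝ) {p : E × ℂ} (h : AnalyticAt ℂ P p.1) : AnalyticAt ℂ (tw P L) p :=
  (h.fun_comp analyticAt_fst).mul (analyticAt_const.mul
    (analyticAt_const.mul analyticAt_snd).div_const).cexp

theorem cos_re (L : ℝ) (ξ : ℂ) : (Complex.cos ((ξ + L) / L)).re =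
    Real.cos ((ξ.re + L) / L) * Real.cosh (ξ.im / L) := by
  have e : (ξ + L) / L = (((ξ.re + L) / L : ℝ) : ℂ) + ((ξ.im / L : ℝ) : ℂ) * Complex.I := by
    apply Complex.ext <;> simp [Complex.div_ofReal_re, Complex.div_ofReal_im]
  rw [e, Complex.cos_add, Complex.sin_mul_I, Complex.cos_mul_I, ← Complex.ofReal_sin,
    ← Complex.ofReal_cos, ← Complex.ofReal_sinh, ← Complex.ofReal_cosh]
  simp only [Complex.sub_re, Complex.mul_im, Complex.ofReal_re, Complex.ofReal_im,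
    Complex.I_re, Complex.I_im, Complex.mul_re]
  ring

end Pool.Agent.Lib.SH.QL
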