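import Pool.Agent.Lib.SH.QL_LL1

/-!
Linear lemma, second part: barriers on the logarithmic cover.
-/

open Set Filter Topology Metric

noncomputable section

namespace Pool.Agent.Lib.SH.QL

open Pool.Agent.HULL

variable {X K : Set E} {P : E → ℂ} {ρ : ℝ}

/-- classification of the points of `K` over the disc of radius `M` -/
def Cls (X K : Set E) (P : E → ℂ) (L ι R M : ℝ) : Prop :=
  ∀ y ∈ X, ‖y.1‖ ≤ M → y ∈ K → P y = 0 ∨
    (y.1.im ≤ ι ∧ |Complex.arg (P y)| ≤ ι) ∨
    (|Real.log ‖bl y.1‖ + L| ≤ 1 ∧ y.1 ≠ Complex.I ∧ |Complex.arg (P y) - Real.pi / 4| ≤ 1 / L) ∨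
    (‖bl y.1‖ ≤ Real.exp (-L + 1) ∧ ‖P y‖ ≤ ι * R * Real.exp L * ‖bl y.1‖)

/-- compact piece of the cover -/
def Zt (X : Set E) (P : E → ℂ) (L R M A' : ℝ) : Set (E × ℂ) :=
  {p | p ∈ Xt X ∧ p.1 ∈ ZA X P (-1) M (2 * R) ∧ -(2 * L) ≤ p.2.re ∧ |p.2.im| ≤ A' * L}

theorem Zt.re_le (h : WD X K P ρ) {L R M A' : ℝ} (hM : M ≤ ρ) {p : E × ℂ}
    (hp : p ∈ Zt X P L R M A') : p.2.re ≤ 0 := by
  have u := h.up _ (ZA.ov hM hp.2.1)
  have := bl_le_one u
  rwa [Xt.norm hp.1 u, Real.exp_le_one_iff] at this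

theorem Zt.cpt (h : WD X K P ρ) {L R M A' : ℝ} (hM : M ≤ ρ) : IsCompact (Zt X P L R M A') := by
  have e : Zt X P L R M A' = (ZA X P (-1) M (2 * R) ×ˢ closedBall (0 : ℂ) (|2 * L| + A' * L)) ∩
      {p | Complex.exp p.2 * (p.1.1 + Complex.I) = p.1.1 - Complex.I ∧ -(2 * L) ≤ p.2.re ∧
        |p.2.im| ≤ A' * L} := by
    ext p
    constructor
    · intro hp
      refine ⟨⟨hp.2.1, mem_closedBall_zero_iff.2 ?_⟩, hp.1.2, hp.2.2⟩
      have a := Complex.norm_le_abs_re_add_abs_im p.2
      have b := Zt.re_le h hM hp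
      have c : |p.2.re| ≤ |2 * L| := by
        rw [abs_of_nonpos b]; linarith [hp.2.2.1, le_abs_self (2 * L)]
      linarith [hp.2.2.2]
    · intro hp
      exact ⟨⟨hp.1.1.1, hp.2.1⟩, hp.1.1, hp.2.2⟩
  rw [e]
  refine ((h.cpt hM).prod (isCompact_closedBall _ _)).inter_right ?_
  refine (isClosed_eq (by fun_prop) (by fun_prop)).inter ((isClosed_le continuous_const
    (Complex.continuous_re.comp continuous_snd)).inter (isClosed_le
      (Complex.continuous_im.comp continuous_snd).abs continuous_const))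

theorem Zt.nop (h : WD X K P ρ) {L R M A' : ℝ} (hM : M ≤ ρ) {p : E × ℂ}
    (hp : p ∈ Zt X P L R M A') (hK : p.1 ∉ K) (a : ‖p.1.1‖ < M) (b : ‖P p.1‖ < 2 * R)
    (c : -(2 * L) < p.2.re) (d : |p.2.im| < A' * L) : NoPeak (Zt X P L R M A') p := by
  refine (lift hp.1 (addI_ne (h.up _ (ZA.ov hM hp.2.1)))
    (h.nop hp.1.1 (a.le.trans hM) hK)).mono ?_
  have e1 := continuous_fst.continuousAt.eventually (h.ev hM hp.1.1
    (show (-1 : ℝ) < ‖p.1.1‖ by linarith [norm_nonneg p.1.1]) a b)
  filter_upwards [e1, continuousAt_const.eventually_lt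
    (Complex.continuous_re.comp continuous_snd).continuousAt c,
    (Complex.continuous_im.comp continuous_snd).abs.continuousAt.eventually_lt
      continuousAt_const d] with x e1 e2 e3 hx
  exact ⟨hx, e1 hx.1, e2.le, e3.le⟩

theorem exp_tw {L A' φ : ℝ} (hL : 0 < L) (h : |φ| ≤ A' * L) :
    Real.exp (-(Real.pi / 4 * φ / L)) ≤ Real.exp (Real.pi / 4 * A') := by
  refine Real.exp_le_exp.2 ?_
  have a : -φ / L ≤ A' := by rw [div_le_iff₀ hL]; linarith [neg_le_abs φ]
  have b := mul_le_mul_of_nonneg_left a (show 0 ≤ Real.pi / 4 by positivity)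
  have e : -(Real.pi / 4 * φ / L) = Real.pi / 4 * (-φ / L) := by ring
  linarith

theorem exp_small {L : ℝ} (hL : 6 ≤ L) : Real.exp (L + 1) * Real.exp (-(2 * L)) ≤ (1 / L) ^ 2 := by
  have a := Real.quadratic_le_exp_of_nonneg (show 0 ≤ (L - 1) / 2 by linarith)
  have b : L ≤ Real.exp ((L - 1) / 2) := by nlinarith
  have c : Real.exp (L + 1) * Real.exp (-(2 * L)) * (Real.exp ((L - 1) / 2)) ^ 2 = 1 := by
    rw [sq, ← Real.exp_add, ← Real.exp_add, ← Real.exp_add, ← Real.exp_zero]; congr 1; ring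
  have d : L ^ 2 ≤ (Real.exp ((L - 1) / 2)) ^ 2 := by nlinarith
  rw [one_div, inv_pow, ← one_div, le_div_iff₀ (by positivity)]
  nlinarith [mul_le_mul_of_nonneg_left d (show 0 ≤ Real.exp (L + 1) * Real.exp (-(2 * L)) by
    positivity)]

/-- the majorant on the cover -/
theorem cover_bar (h : WD X K P ρ) {L ι R M A' : ℝ} (hL : 6 ≤ L) (hι : 0 ≤ ι) (hιL : ι ≤ 1 / (2 * L))
    (hR : 0 < R) (hM2 : 2 ≤ M) (hM : M ≤ ρ)
    (hB : ∀ y ∈ X, y.1 = Complex.I → ∃ G : E → ℂ, AnalyticAt ℂ G y ∧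
      ∀ᶠ x in 𝓝 y, P x = (x.1 - Complex.I) * G x) (hK : Cls X K P L ι R M)
    (hb : ∀ y ∈ X, y ∉ K → ‖y.1‖ ≤ M → ‖P y‖ ≤ R) {c : ℂ} (hc : ‖c‖ ≤ 1) (hc0 : c.re ≤ 0) :
    ∀ p ∈ Zt X P L R M A', (c * tw P L p).re ≤ R * Real.exp (Real.pi / 4 * A') *
      (4 / L + 2 * Real.cosh (p.2.im / L) / Real.cosh A' + 3 * ‖p.1.1‖ / M) := by
  have L0 : 0 < L := by linarith
  have M0 : 0 < M := by linarith
  have i1 : 1 / (2 * L) ≤ 1 / 12 := one_div_le_one_div_of_le (by norm_num) (by linarith)
  have i2 : 1 / (2 * L) ≤ 1 / L := one_div_le_one_div_of_le L0 (by linarith)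
  have he : Real.exp 1 < 3 := by linarith [Real.exp_one_lt_d9]
  set W := R * Real.exp (Real.pi / 4 * A') with hW
  have W0 : 0 < W := by positivity
  have sch := schwarz h (hM2.trans hM) hB hR (C := 4 * R ^ 2 * Real.exp (L + 1))
    (by nlinarith [Real.add_one_le_exp (L + 1), sq_nonneg R])
    (by
      intro y hy h1 hk h2
      have n2 : ‖y.1‖ ≤ 2 := by
        have : ‖y.1‖ ≤ ‖y.1 - Complex.I‖ + 1 := by
          simpa using norm_add_le (y.1 - Complex.I) Complex.I
        linarith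
      have u := h.up y (mem_ov hy (n2.trans (hM2.trans hM)))
      have e := norm_subI (addI_ne u)
      have e1 : ‖bl y.1‖ ≤ ‖y.1 - Complex.I‖ := by
        nlinarith [one_le_addI u, norm_nonneg (bl y.1)]
      rcases hK y hy (n2.trans hM2) hk with a | a | a | a
      · rw [a, norm_zero]; simp only [ne_eq, OfNat.ofNat_ne_zero, not_false_eq_true, zero_pow]
        positivity
      · have := Complex.abs_im_le_norm (y.1 - Complex.I)
        simp only [Complex.sub_im, Complex.I_im] at this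
        linarith [a.1, neg_le_abs (y.1.im - 1)]
      · have b0 : 0 < ‖bl y.1‖ := norm_pos_iff.2 (div_ne_zero (sub_ne_zero.2 a.2.1) (addI_ne u))
        have b1 : Real.exp (-(L + 1)) ≤ ‖bl y.1‖ := by
          rw [← Real.le_log_iff_exp_le b0]; linarith [(abs_le.1 a.1).1]
        have b2 : 1 ≤ Real.exp (L + 1) * ‖y.1 - Complex.I‖ := by
          have := mul_le_mul_of_nonneg_left (b1.trans e1) (Real.exp_pos (L + 1)).le
          rwa [← Real.exp_add, add_neg_cancel, Real.exp_zero] at this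
        have b3 : ‖P y‖ ^ 2 ≤ 4 * R ^ 2 := by nlinarith [norm_nonneg (P y)]
        nlinarith [mul_le_mul_of_nonneg_left b2 (show 0 ≤ 4 * R ^ 2 by positivity)]
      · have b1 : ι * R * Real.exp L * ‖bl y.1‖ ≤ R * Real.exp L * ‖bl y.1‖ := by
          have : 0 ≤ R * Real.exp L * ‖bl y.1‖ := by positivity
          nlinarith
        have b2 : ‖P y‖ ^ 2 ≤ (R * Real.exp L * ‖bl y.1‖) ^ 2 :=
          pow_le_pow_left₀ (norm_nonneg _) (a.2.trans b1) 2
        have b3 : Real.exp L * Real.exp L * ‖bl y.1‖ ≤ Real.exp (L + 1) := by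
          have := mul_le_mul_of_nonneg_left a.1 (show 0 ≤ Real.exp L * Real.exp L by positivity)
          rwa [← Real.exp_add, ← Real.exp_add, show L + L + (-L + 1) = L + 1 by ring,
            Real.exp_add L L] at this
        have b4 : Real.exp L * Real.exp L * ‖bl y.1‖ * ‖bl y.1‖ ≤
            Real.exp (L + 1) * ‖y.1 - Complex.I‖ :=
          mul_le_mul b3 e1 (norm_nonneg _) (Real.exp_pos _).le
        have b5 : 0 ≤ Real.exp (L + 1) * ‖y.1 - Complex.I‖ := by positivity
        nlinarith [mul_le_mul_of_nonneg_left b4 (sq_nonneg R), mul_nonneg (sq_nonneg R) b5])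
    (fun y hy hk h2 => hb y hy hk (h2.trans hM2))
  have ch := Real.cosh_pos A'
  let G : E × ℂ → ℂ := fun p => c * tw P L p - (2 * W / Real.cosh A' : ℝ) *
    Complex.cos ((p.2 + L) / L) - (W : ℝ) * uu (p.1.1 / M)
  have hG : ∀ p ∈ Zt X P L R M A', AnalyticAt ℂ G p := fun p hp =>
    ((analyticAt_const.mul (tw_an L (h.an _ (ZA.ov hM hp.2.1)))).sub (analyticAt_const.mul
      (Complex.analyticAt_cos.fun_comp (analyticAt_snd.add analyticAt_const).div_const))).sub
      (analyticAt_const.mul (uu_an (analyticAt_fst.fun_comp analyticAt_fst).div_const))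
  have hre : ∀ p, (G p).re = (c * tw P L p).re - 2 * W / Real.cosh A' *
      (Real.cos ((p.2.re + L) / L) * Real.cosh (p.2.im / L)) - W * (uu (p.1.1 / M)).re :=
    fun p => by simp only [G, Complex.sub_re, Complex.re_ofReal_mul, cos_re]
  have hcos : ∀ p ∈ Zt X P L R M A', 1 / 2 ≤ Real.cos ((p.2.re + L) / L) := by
    intro p hp
    have a := Real.one_sub_sq_div_two_le_cos (x := (p.2.re + L) / L)
    have b : |(p.2.re + L) / L| ≤ 1 := by
      rw [abs_div, abs_of_pos L0, div_le_one L0, abs_le]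
      constructor <;> linarith [hp.2.2.1, Zt.re_le h hM hp]
    nlinarith [sq_abs ((p.2.re + L) / L), abs_nonneg ((p.2.re + L) / L)]
  have hun : ∀ p ∈ Zt X P L R M A', ‖p.1.1 / (M : ℂ)‖ ≤ 1 := fun p hp => by
    rw [(out_facts M0 (h.up _ (ZA.ov hM hp.2.1))).1, div_le_one M0]; exact hp.2.1.2.2.1
  have hnN : ∀ p ∈ Zt X P L R M A', ∀ t : ℝ, ‖P p.1‖ ≤ t * R → (c * tw P L p).re ≤ t * W := by
    intro p hp t ht
    refine (Complex.re_le_norm _).trans ?_
    rw [norm_mul, tw_norm, hW, ← mul_assoc]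
    have a := mul_le_mul ht (exp_tw L0 hp.2.2.2) (Real.exp_pos _).le ((norm_nonneg _).trans ht)
    have b : 0 ≤ ‖P p.1‖ * Real.exp (-(Real.pi / 4 * p.2.im / L)) := by positivity
    nlinarith
  have hang : ∀ p ∈ Zt X P L R M A', |(P p.1).arg + Real.pi / 4 * p.2.re / L| ≤ 2 / L →
      (c * tw P L p).re ≤ 4 / L * W := by
    intro p hp ha
    rw [tw_eq]
    refine (rot_le hc hc0 (by positivity)).trans ?_
    have a := mul_le_mul hp.2.1.2.2.2 (exp_tw L0 hp.2.2.2) (Real.exp_pos _).le (by positivity)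
    calc _ ≤ 2 * R * Real.exp (Real.pi / 4 * A') * (2 / L) :=
          mul_le_mul a ha (abs_nonneg _) (by positivity)
      _ = 4 / L * W := by rw [hW]; ring
  have pi4 := Real.pi_lt_four
  have pi0 := Real.pi_pos
  have hsm : ∀ t : ℝ, |t| ≤ 1 → |Real.pi / 4 * t / L| ≤ 1 / L := fun t ht => by
    rw [abs_div, abs_mul, abs_of_pos L0, abs_of_pos (show 0 < Real.pi / 4 by positivity)]
    exact div_le_div_of_nonneg_right (by nlinarith [abs_nonneg t]) L0.le
  have key := mp (Zt.cpt h hM) (ψ := fun p => (G p).re) (b := 4 / L * W)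
    (fun p hp => (Complex.continuous_re.continuousAt.comp
      (hG p hp).continuousAt).continuousWithinAt) (by
    intro p hp hlt
    have u := h.up _ (ZA.ov hM hp.2.1)
    have nb := Xt.norm hp.1 u
    have u1 := uu_nonneg (hun p hp) (out_facts M0 u).2.2
    have u2 : 0 ≤ 2 * W / Real.cosh A' * (Real.cos ((p.2.re + L) / L) * Real.cosh (p.2.im / L)) :=
      mul_nonneg (by positivity) (mul_nonneg (by linarith [hcos p hp]) (Real.cosh_pos _).le)
    have u3 := mul_nonneg W0.le u1
    have w4 : 0 < 4 / L * W := by positivity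
    rw [hre] at hlt
    have yK : p.1 ∉ K := fun hk => by
      rcases hK p.1 hp.1.1 hp.2.1.2.2.1 hk with a | a | a | a
      · have := hnN p hp 0 (by rw [a]; simp)
        linarith
      · have b1 := bl_half u (by linarith [a.1])
        have b2 : |p.2.re| ≤ 1 := by
          rw [abs_of_nonpos (Zt.re_le h hM hp)]
          rw [nb] at b1
          have := Real.add_one_le_exp (-p.2.re)
          rw [Real.exp_neg] at this
          have : (Real.exp p.2.re)⁻¹ ≤ 2 := by
            rw [inv_le_comm₀ (Real.exp_pos _) two_pos]; linarith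
          linarith
        have b3 := abs_add_le (P p.1).arg (Real.pi / 4 * p.2.re / L)
        have := hang p hp (by
          have : 2 / L = 1 / L + 1 / L := by ring
          linarith [hsm _ b2, a.2])
        linarith
      · rw [nb, Real.log_exp] at a
        have b3 := abs_add_le ((P p.1).arg - Real.pi / 4) (Real.pi / 4 * (p.2.re + L) / L)
        have e : (P p.1).arg - Real.pi / 4 + Real.pi / 4 * (p.2.re + L) / L =
            (P p.1).arg + Real.pi / 4 * p.2.re / L := by field_simp; ring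
        rw [e] at b3
        have := hang p hp (by
          have : 2 / L = 1 / L + 1 / L := by ring
          linarith [hsm _ a.1, a.2.2])
        linarith
      · have b1 : Real.exp L * ‖bl p.1.1‖ ≤ 3 := by
          have := mul_le_mul_of_nonneg_left a.1 (Real.exp_pos L).le
          rw [← Real.exp_add, show L + (-L + 1) = 1 by ring] at this
          linarith
        have b2 : ι * 3 ≤ 4 / L := by
          have : 4 / L = 4 * (1 / L) := by ring
          have : 0 < 1 / L := by positivity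
          linarith
        have := hnN p hp (4 / L) (by
          have := mul_le_mul_of_nonneg_left b1 (mul_nonneg hι hR.le)
          nlinarith [a.2, mul_le_mul_of_nonneg_right b2 hR.le])
        linarith
    have p1 := hb p.1 hp.1.1 yK hp.2.1.2.2.1
    have p2 := hnN p hp 1 (by linarith)
    have b1 : ‖p.1.1‖ < M := lt_of_le_of_ne hp.2.1.2.2.1 fun e => by
      have := uu_one (η := p.1.1 / M) (by rw [(out_facts M0 u).1, e, div_self M0.ne'])
        (out_facts M0 u).2.2
      nlinarith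
    have b2 : -(2 * L) < p.2.re := lt_of_le_of_ne hp.2.2.1 fun e => by
      rw [← e] at nb
      have c1 : Real.exp (-(2 * L)) ≤ 1 / 8 := by
        have := Real.add_one_le_exp (2 * L)
        rw [Real.exp_neg, inv_le_comm₀ (Real.exp_pos _) (by norm_num)]; linarith
      have c2 := (bl_gap u (g := 1 / 2) (by norm_num) (by norm_num) (by linarith)).2.2
      have c3 := sch p.1 hp.1.1 yK (by linarith)
      have c4 := exp_small hL
      have c5 : ‖P p.1‖ ^ 2 ≤ (4 / L * R) ^ 2 := by
        rw [nb] at c2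
        have d1 := mul_le_mul_of_nonneg_left c2
          (show 0 ≤ 4 * R ^ 2 * Real.exp (L + 1) by positivity)
        have d2 := mul_le_mul_of_nonneg_left c4 (show 0 ≤ 16 * R ^ 2 by positivity)
        have d3 : (4 / L * R) ^ 2 = 16 * R ^ 2 * (1 / L) ^ 2 := by ring
        nlinarith
      have := hnN p hp (4 / L) (abs_le_of_sq_le_sq' c5 (by positivity)).2
      linarith
    have b3 : |p.2.im| < A' * L := lt_of_le_of_ne hp.2.2.2 fun e => by
      have c1 : Real.cosh (p.2.im / L) = Real.cosh A' := by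
        rw [← Real.cosh_abs, abs_div, e, abs_of_pos L0, mul_div_cancel_right₀ _ L0.ne']
      have c2 : 2 * W / Real.cosh A' * (Real.cos ((p.2.re + L) / L) * Real.cosh A') =
          2 * W * Real.cos ((p.2.re + L) / L) := by field_simp
      rw [c1, c2] at hlt
      nlinarith [hcos p hp]
    exact ⟨Zt.nop h hM hp yK b1 (by linarith) b2 b3, G, hG p hp, fun _ => rfl⟩)
  intro p hp
  have k := key p hp
  simp only [hre] at k
  have u := h.up _ (ZA.ov hM hp.2.1)
  have u1 := uu_le3 (hun p hp)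
  rw [(out_facts M0 u).1] at u1
  have u2 := mul_le_mul_of_nonneg_left u1 W0.le
  have u3 : Real.cos ((p.2.re + L) / L) * Real.cosh (p.2.im / L) ≤ Real.cosh (p.2.im / L) := by
    nlinarith [Real.cos_le_one ((p.2.re + L) / L), Real.cosh_pos (p.2.im / L)]
  have u4 := mul_le_mul_of_nonneg_left u3 (show 0 ≤ 2 * W / Real.cosh A' by positivity)
  have e : W * (4 / L + 2 * Real.cosh (p.2.im / L) / Real.cosh A' + 3 * ‖p.1.1‖ / M) =
      4 / L * W + 2 * W / Real.cosh A' * Real.cosh (p.2.im / L) + W * (3 * (‖p.1.1‖ / M)) := by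
    ring
  rw [e]
  linarith

end Pool.Agent.Lib.SH.QL
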