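import Pool.Agent.Lib.SH.QL_Base

/-!
Window data, truncated annular pieces, the two-arc barrier and the sector transfer.
-/

open Set Filter Topology Metric

noncomputable section

namespace Pool.Agent.Lib.SH.QL

open Pool.Agent.HULL

/-- basic data of a window -/
structure WD (X K : Set E) (P : E → ℂ) (ρ : ℝ) : Prop where
  np : NP X K (closedBall 0 ρ)
  up : ∀ y ∈ ov X (closedBall 0 ρ), 0 ≤ y.1.im
  an : AnalyticOnNhd ℂ P (ov X (closedBall 0 ρ))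

/-- truncated annular piece -/
def ZA (X : Set E) (P : E → ℂ) (r1 r2 T : ℝ) : Set E :=
  {y | y ∈ X ∧ r1 ≤ ‖y.1‖ ∧ ‖y.1‖ ≤ r2 ∧ ‖P y‖ ≤ T}

variable {X K : Set E} {P : E → ℂ} {ρ : ℝ}

theorem mem_ov {y : E} (h : y ∈ X) (h' : ‖y.1‖ ≤ ρ) : y ∈ ov X (closedBall 0 ρ) :=
  ⟨h, mem_closedBall_zero_iff.2 h'⟩

theorem ZA.ov {r1 r2 T : ℝ} (h2 : r2 ≤ ρ) {y : E} (hy : y ∈ ZA X P r1 r2 T) :
    y ∈ ov X (closedBall 0 ρ) := mem_ov hy.1 (hy.2.2.1.trans h2)

theorem WD.cpt (h : WD X K P ρ) {r1 r2 T : ℝ} (h2 : r2 ≤ ρ) : IsCompact (ZA X P r1 r2 T) := by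
  have e : ZA X P r1 r2 T = (ov X (closedBall 0 ρ) ∩ P ⁻¹' closedBall 0 T) ∩
      {y : E | r1 ≤ ‖y.1‖ ∧ ‖y.1‖ ≤ r2} := by
    ext y
    constructor
    · intro hy
      exact ⟨⟨ZA.ov h2 hy, mem_closedBall_zero_iff.2 hy.2.2.2⟩, hy.2.1, hy.2.2.1⟩
    · intro hy
      exact ⟨hy.1.1.1, hy.2.1, hy.2.2, mem_closedBall_zero_iff.1 hy.1.2⟩
  rw [e]
  refine IsCompact.inter_right (h.np.cpt.of_isClosed_subset
    (h.an.continuousOn.preimage_isClosed_of_isClosed h.np.cpt.isClosed isClosed_closedBall)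
    inter_subset_left) ?_
  exact (isClosed_le continuous_const continuous_fst.norm).inter
    (isClosed_le continuous_fst.norm continuous_const)

theorem WD.ev (h : WD X K P ρ) {r1 r2 T : ℝ} (h2 : r2 ≤ ρ) {y : E} (hy : y ∈ X)
    (a : r1 < ‖y.1‖) (b : ‖y.1‖ < r2) (c : ‖P y‖ < T) :
    ∀ᶠ x in 𝓝 y, x ∈ X → x ∈ ZA X P r1 r2 T := by
  have hP := (h.an y (mem_ov hy (b.le.trans h2))).continuousAt
  filter_upwards [continuousAt_const.eventually_lt continuous_fst.norm.continuousAt a,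
    continuous_fst.norm.continuousAt.eventually_lt continuousAt_const b,
    hP.norm.eventually_lt continuousAt_const c] with x a b c hx
  exact ⟨hx, a.le, b.le, c.le⟩

theorem WD.nop (h : WD X K P ρ) {y : E} (hy : y ∈ X) (hr : ‖y.1‖ ≤ ρ) (hK : y ∉ K) :
    ¬ Peak X y := h.np.np y (mem_ov hy hr) hK

/-- the two-arc barrier -/
theorem WD.bar (h : WD X K P ρ) {r1 r2 T : ℝ} (h1 : 0 < r1) (h2 : r2 ≤ ρ) {F : E → ℂ}
    (hF : ∀ y ∈ ZA X P r1 r2 T, AnalyticAt ℂ F y) {a1 a2 c0 : ℝ} (ha1 : 0 ≤ a1) (ha2 : 0 ≤ a2)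
    (hc0 : 0 ≤ c0) (hT : ∀ y ∈ ZA X P r1 r2 T, y ∉ K → ‖P y‖ < T)
    (hK : ∀ y ∈ ZA X P r1 r2 T, y ∈ K → (F y).re ≤ c0)
    (hi : ∀ y ∈ ZA X P r1 r2 T, y ∉ K → ‖y.1‖ = r1 → (F y).re ≤ a1)
    (ho : ∀ y ∈ ZA X P r1 r2 T, y ∉ K → ‖y.1‖ = r2 → (F y).re ≤ a2) :
    ∀ y ∈ ZA X P r1 r2 T, (F y).re ≤ c0 + 3 * a1 * r1 / ‖y.1‖ +
      a2 * (‖y.1‖ ^ 2 / r2 ^ 2 + 2 * y.1.im / r2) := by
  have hpos : ∀ y ∈ ZA X P r1 r2 T, 0 < ‖y.1‖ ∧ 0 < r2 ∧ 0 ≤ y.1.im := fun y hy =>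
    ⟨h1.trans_le hy.2.1, (h1.trans_le hy.2.1).trans_le hy.2.2.1, h.up y (ZA.ov h2 hy)⟩
  let G : E → ℂ := fun x => F x - a1 * uu (-(r1 : ℂ) / x.1) - a2 * uu (x.1 / r2)
  have hG : ∀ y ∈ ZA X P r1 r2 T, AnalyticAt ℂ G y := fun y hy =>
    ((hF y hy).sub (analyticAt_const.mul (uu_an (analyticAt_const.div analyticAt_fst
      (norm_pos_iff.1 (hpos y hy).1))))).sub
      (analyticAt_const.mul (uu_an analyticAt_fst.div_const))
  have hre : ∀ x, (G x).re = (F x).re - a1 * (uu (-(r1 : ℂ) / x.1)).re -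
      a2 * (uu (x.1 / r2)).re := fun x => by
    simp only [G, Complex.sub_re, Complex.re_ofReal_mul]
  have hin : ∀ y ∈ ZA X P r1 r2 T, ‖-(r1 : ℂ) / y.1‖ ≤ 1 ∧ ‖y.1 / r2‖ ≤ 1 := fun y hy => by
    obtain ⟨p1, p2, p3⟩ := hpos y hy
    rw [(in_facts h1 p3).1, (out_facts p2 p3).1, div_le_one p1, div_le_one p2]
    exact ⟨hy.2.1, hy.2.2.1⟩
  have key := mp (h.cpt h2) (ψ := fun x => (G x).re) (b := c0)
    (fun y hy => (Complex.continuous_re.continuousAt.comp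
      (hG y hy).continuousAt).continuousWithinAt) (by
    intro y hy hb
    obtain ⟨p1, p2, p3⟩ := hpos y hy
    have u1 := uu_nonneg (hin y hy).1 (in_facts h1 p3).2
    have u2 := uu_nonneg (hin y hy).2 (out_facts p2 p3).2.2
    have v1 := mul_nonneg ha1 u1
    have v2 := mul_nonneg ha2 u2
    rw [hre] at hb
    have yK : y ∉ K := fun hk => by linarith [hK y hy hk]
    have b1 : r1 < ‖y.1‖ := lt_of_le_of_ne hy.2.1 fun e => by
      have := uu_one (η := -(r1 : ℂ) / y.1) (by rw [(in_facts h1 p3).1, ← e, div_self h1.ne'])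
        (in_facts h1 p3).2
      nlinarith [hi y hy yK e.symm]
    have b2 : ‖y.1‖ < r2 := lt_of_le_of_ne hy.2.2.1 fun e => by
      have := uu_one (η := y.1 / r2) (by rw [(out_facts p2 p3).1, e, div_self p2.ne'])
        (out_facts p2 p3).2.2
      nlinarith [ho y hy yK e]
    exact ⟨np_of (h.nop hy.1 (b2.le.trans h2) yK) (h.ev h2 hy.1 b1 b2 (hT y hy yK)), G, hG y hy,
      fun _ => rfl⟩)
  intro y hy
  obtain ⟨p1, p2, p3⟩ := hpos y hy
  have k1 := key y hy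
  simp only [hre] at k1
  have u1 := uu_le3 (hin y hy).1
  have u2 := uu_le (y.1 / r2)
  rw [(in_facts h1 p3).1] at u1
  rw [(out_facts p2 p3).1, (out_facts p2 p3).2.1, div_pow] at u2
  have v1 := mul_le_mul_of_nonneg_left u1 ha1
  have v2 := mul_le_mul_of_nonneg_left u2 ha2
  have e1 : 3 * a1 * r1 / ‖y.1‖ = a1 * (3 * (r1 / ‖y.1‖)) := by ring
  have e2 : 2 * y.1.im / r2 = 2 * (y.1.im / r2) := by ring
  rw [e1, e2]
  linarith

/-- the constant of the sector transfer -/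
def Lam (τ : ℝ) : ℝ := Real.log (2 / (τ / Real.sinh 5))

theorem sinh5 : 1 ≤ Real.sinh 5 := by
  have := Real.self_le_sinh_iff.2 (show (0 : ℝ) ≤ 5 by norm_num)
  linarith

theorem Lam_nonneg {τ : ℝ} (h0 : 0 < τ) (h1 : τ ≤ 1) : 0 ≤ Lam τ := by
  have := sinh5
  refine Real.log_nonneg ?_
  rw [le_div_iff₀ (by positivity), one_mul, div_le_iff₀ (by positivity)]
  linarith

/-- transfer from a ray through a sector -/
theorem sect {Z : Set E} (hZ : IsCompact Z) (hup : ∀ y ∈ Z, 0 < y.1.im) {Q : E → ℂ}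
    (hQc : ContinuousOn Q Z) {r s θ0 θ1 ε m τ : ℝ} (hr : 0 < r) (hs : s = 1 ∨ s = -1)
    (h0 : 0 < s * (θ1 - θ0)) (h1 : s * (θ1 - θ0) ≤ Real.pi) (hε : 0 < ε) (hτ : 0 < τ)
    (hI : ∀ y ∈ Z, r / 3 ≤ ‖y.1‖ → ‖y.1‖ ≤ 3 * r → |(Q y).im| ≤ ε)
    (htop : ∀ y ∈ Z, r / 3 ≤ ‖y.1‖ → ‖y.1‖ ≤ 3 * r → y.1.arg = θ1 → (Q y).re ≤ m)
    (H : ∀ y ∈ Z, r / 3 < ‖y.1‖ → ‖y.1‖ < 3 * r → 0 < s * (y.1.arg - θ0) →
      s * (y.1.arg - θ0) < s * (θ1 - θ0) → m < (Q y).re → NoPeak Z y ∧ AnalyticAt ℂ Q y) :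
    ∀ y ∈ Z, ‖y.1‖ = r → τ ≤ s * (y.1.arg - θ0) → s * (y.1.arg - θ0) ≤ s * (θ1 - θ0) →
      (Q y).re ≤ m + ε * Lam τ := by
  let w : E → ℂ := fun x => (s : ℂ) * (Complex.log x.1 - (Real.log r : ℝ) - (θ0 : ℂ) * Complex.I)
  have hsl : ∀ y ∈ Z, y.1 ∈ Complex.slitPlane := fun y hy => Or.inr (hup y hy).ne'
  have hw : ∀ y ∈ Z, AnalyticAt ℂ w y := fun y hy =>
    analyticAt_const.mul (((analyticAt_fst.clog (hsl y hy)).sub analyticAt_const).sub
      analyticAt_const)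
  have hre : ∀ x, (w x).re = s * (Real.log ‖x.1‖ - Real.log r) := fun x => by
    simp [w, Complex.log_re]
  have him : ∀ x, (w x).im = s * (x.1.arg - θ0) := fun x => by
    simp [w, Complex.log_im]
  have hs1 : |s| = 1 := by rcases hs with h | h <;> simp [h]
  have hs0 : s ≠ 0 := by rcases hs with h | h <;> simp [h]
  have he : Real.exp 1 < 3 := by linarith [Real.exp_one_lt_d9]
  have hrad : ∀ y ∈ Z, |(w y).re| ≤ 1 → r / 3 < ‖y.1‖ ∧ ‖y.1‖ < 3 * r := by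
    intro y hy h
    have p : 0 < ‖y.1‖ := (hup y hy).trans_le (Complex.im_le_norm _)
    rw [hre, abs_mul, hs1, one_mul, abs_le] at h
    have a1 : r ≤ Real.exp 1 * ‖y.1‖ := by
      rw [← Real.log_le_log_iff hr (by positivity), Real.log_mul (by positivity) p.ne',
        Real.log_exp]
      linarith [h.1]
    have a2 : ‖y.1‖ ≤ Real.exp 1 * r := by
      rw [← Real.log_le_log_iff p (by positivity), Real.log_mul (by positivity) hr.ne',
        Real.log_exp]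
      linarith [h.2]
    constructor <;> nlinarith
  have hd : 0 < τ / Real.sinh 5 := by have := sinh5; positivity
  have key := rect hZ hQc (fun y hy => (hw y hy).continuousAt.continuousWithinAt) (a := 1)
    (Θ := s * (θ1 - θ0)) (ε := ε) (m := m) one_pos h0 hε
    (fun y hy a _ _ => hI y hy (hrad y hy a).1.le (hrad y hy a).2.le)
    (fun y hy a b => htop y hy (hrad y hy a).1.le (hrad y hy a).2.le (by
      rw [him] at b
      linarith [mul_left_cancel₀ hs0 b]))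
    (fun y hy a b c d => by
      rw [him] at b c
      obtain ⟨e1, e2⟩ := H y hy (hrad y hy a.le).1 (hrad y hy a.le).2 b c d
      exact ⟨e1, e2, hw y hy⟩) hd
  intro y hy e a b
  have r0 : (w y).re = 0 := by rw [hre, e]; simp
  refine key y hy (by rw [r0]; simp) (by rw [him]; linarith) (by rw [him]; exact b) ?_
  rw [r0, him, mul_zero, Real.cos_zero, one_mul]
  have pi3 := Real.pi_gt_three
  have pi4 := Real.pi_lt_d2
  have a1 : Real.sinh (Real.pi / (2 * 1) * (s * (θ1 - θ0))) ≤ Real.sinh 5 :=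
    Real.sinh_le_sinh.2 (by nlinarith)
  have a2 : τ ≤ Real.sinh (Real.pi / (2 * 1) * (s * (y.1.arg - θ0))) := by
    refine le_trans ?_ (Real.self_le_sinh_iff.2 (by nlinarith))
    nlinarith
  have a3 := mul_le_mul_of_nonneg_left a1 hd.le
  rw [div_mul_cancel₀ _ (by linarith [sinh5])] at a3
  linarith

/-- the argument of a point of the upper half plane stays away from `0` and `π` -/
theorem arg_bounds {z : ℂ} {t : ℝ} (h0 : 0 < z.im) (h : t * ‖z‖ ≤ z.im) :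
    t ≤ z.arg ∧ z.arg ≤ Real.pi - t := by
  have p : 0 < ‖z‖ := h0.trans_le (Complex.im_le_norm _)
  have a0 : 0 ≤ z.arg := Complex.arg_nonneg_iff.2 h0.le
  have a1 := Complex.arg_le_pi z
  have e := Complex.norm_mul_sin_arg z
  have b : t ≤ Real.sin z.arg := le_of_mul_le_mul_left (by linarith) p
  have c1 := Real.sin_le a0
  have c2 := Real.sin_le (show 0 ≤ Real.pi - z.arg by linarith)
  rw [Real.sin_pi_sub] at c2
  constructor <;> linarith

theorem im_lower {z : ℂ} {κ : ℝ} (h0 : 0 ≤ κ) (a : κ ≤ z.arg)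
    (b : z.arg ≤ Real.pi - κ) : κ / 2 * ‖z‖ ≤ z.im := by
  have pi3 := Real.pi_gt_three
  have pi4 := Real.pi_lt_four
  have key : ∀ t : ℝ, κ ≤ t → t ≤ Real.pi / 2 → κ / 2 ≤ Real.sin t := fun t p q => by
    have := Real.mul_le_sin (h0.trans p) q
    have e : κ / 2 ≤ 2 / Real.pi * t := by
      rw [div_mul_eq_mul_div, le_div_iff₀ (by linarith)]; nlinarith
    linarith
  have c : κ / 2 ≤ Real.sin z.arg := by
    by_cases h : z.arg ≤ Real.pi / 2
    · exact key _ a h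
    · rw [← Real.sin_pi_sub]; exact key _ (by linarith) (by linarith)
  rw [← Complex.norm_mul_sin_arg z]
  nlinarith [norm_nonneg z]

end Pool.Agent.Lib.SH.QL
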