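import Pool.Agent.Lib.SH.QL_Sec

/-!
Three scale lemma at interior points of a window.
-/

open Set Filter Topology Metric

noncomputable section

namespace Pool.Agent.Lib.SH.QL

open Pool.Agent.HULL

variable {X K : Set E} {P : E → ℂ} {ρ : ℝ}

theorem im_div_le {p z : ℂ} {ι T : ℝ} (hι : 0 ≤ ι) (h1 : 1 ≤ ‖z‖) (h0 : 0 ≤ z.im) (h2 : z.im ≤ ι)
    (h3 : |p.im| ≤ ι * ‖p‖) (h4 : ‖p‖ ≤ T) : |(p / z).im| ≤ 2 * ι * T / ‖z‖ := by
  have hn : Complex.normSq z = ‖z‖ ^ 2 := (Complex.sq_norm z).symm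
  have hz : 0 < ‖z‖ ^ 2 := by positivity
  rw [Complex.div_im, hn, ← sub_div, abs_div, abs_of_pos hz, div_le_iff₀ hz,
    show 2 * ι * T / ‖z‖ * ‖z‖ ^ 2 = 2 * ι * T * ‖z‖ by field_simp]
  have a1 : |p.im * z.re| ≤ ι * T * ‖z‖ := by
    rw [abs_mul]
    exact mul_le_mul (h3.trans (mul_le_mul_of_nonneg_left h4 hι)) (Complex.abs_re_le_norm z)
      (abs_nonneg _) (mul_nonneg hι ((norm_nonneg _).trans h4))
  have a2 : |p.re * z.im| ≤ T * ι := by
    rw [abs_mul, abs_of_nonneg h0]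
    exact mul_le_mul ((Complex.abs_re_le_norm p).trans h4) h2 h0 ((norm_nonneg _).trans h4)
  have a3 : 0 ≤ ι * T := mul_nonneg hι ((norm_nonneg _).trans h4)
  have a4 := abs_sub (p.im * z.re) (p.re * z.im)
  nlinarith [mul_nonneg a3 (sub_nonneg.2 h1)]

theorem ray_re {q z : ℂ} {c κ ε μ r : ℝ} (hr : 0 < r) (h3 : r / 3 ≤ ‖z‖) (hκ : 0 ≤ κ)
    (hκ1 : κ ≤ 1 / 2) (hc : c = 1 ∨ c = -1) (hre : c * z.re = -(‖z‖ * Real.cos κ))
    (h0 : 0 ≤ z.im) (him : z.im ≤ κ * ‖z‖) (hε : |q.im| ≤ ε) (hμ : -(q * z).re ≤ ε * r) (hm : μ = 7 * ε) :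
    c * q.re ≤ μ := by
  have e0 : 0 ≤ ε := (abs_nonneg _).trans hε
  have hcos : 1 / 2 ≤ Real.cos κ := by
    have := Real.one_sub_sq_div_two_le_cos (x := κ)
    nlinarith
  have hz : 0 < ‖z‖ := by linarith
  by_contra hcon
  have hc' := not_le.1 hcon
  have c2 : c * c = 1 := by rcases hc with h | h <;> simp [h]
  have e1 : q.re * z.re = (c * q.re) * (c * z.re) := by
    rw [show (c * q.re) * (c * z.re) = (c * c) * (q.re * z.re) by ring, c2, one_mul]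
  rw [Complex.mul_re, e1, hre] at hμ
  have a1 : -(ε * (κ * ‖z‖)) ≤ q.im * z.im := by
    have := (abs_le.1 hε).1
    nlinarith [mul_le_mul_of_nonneg_left him e0]
  have a2 : μ * (‖z‖ / 2) < c * q.re * (‖z‖ * Real.cos κ) := by
    have b1 : ‖z‖ / 2 ≤ ‖z‖ * Real.cos κ := by nlinarith
    have b2 : 0 ≤ c * q.re := by linarith
    nlinarith [mul_le_mul_of_nonneg_left b1 b2]
  have a3 : ε * r ≤ ε * (3 * ‖z‖) := mul_le_mul_of_nonneg_left (by linarith) e0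
  have a4 : ε * (κ * ‖z‖) ≤ ε * (‖z‖ / 2) := mul_le_mul_of_nonneg_left (by nlinarith) e0
  rw [hm] at a2
  nlinarith

theorem t3 (h : WD X K P ρ) {r1 r r2 R1 R2 ι κ τ : ℝ} (h1 : 1 ≤ r1) (h3 : 3 * r1 ≤ r)
    (h4 : 3 * r ≤ r2) (h2 : r2 ≤ ρ) (hR1 : 0 ≤ R1) (hR2 : 0 < R2) (hι : 0 ≤ ι) (hκ : 0 < κ)
    (hκτ : 2 * κ ≤ τ) (hτ : τ ≤ 1) (hικ : 7 * ι < κ * r)
    (hK : ∀ y ∈ X, r1 ≤ ‖y.1‖ → ‖y.1‖ ≤ r2 → y ∈ K → P y = 0 ∨
      (y.1.im ≤ ι ∧ |(P y).im| ≤ ι * ‖P y‖ ∧ 0 ≤ (P y).re))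
    (b1 : ∀ y ∈ X, y ∉ K → ‖y.1‖ = r1 → ‖P y‖ ≤ R1)
    (b2 : ∀ y ∈ X, y ∉ K → r1 ≤ ‖y.1‖ → ‖y.1‖ ≤ r2 → ‖P y‖ ≤ R2) :
    ∀ y ∈ X, y ∉ K → ‖y.1‖ = r → τ * r ≤ y.1.im →
      ‖P y‖ ≤ 9 * (8 + Lam (τ / 2)) * (R1 + R2 * (r ^ 2 / r2 ^ 2 + κ * r / r2 + ι * r / r1)) := by
  have hr : 0 < r := by linarith
  have hr2 : 0 < r2 := by linarith
  have hr1 : 0 < r1 := by linarith
  set S := R1 + R2 * (r ^ 2 / r2 ^ 2 + κ * r / r2 + ι * r / r1) with hS
  have s1 : 0 < R2 * (r ^ 2 / r2 ^ 2) := by positivity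
  have s2 : 0 ≤ R2 * (κ * r / r2) := by positivity
  have s3 : 0 ≤ R2 * (ι * r / r1) := by positivity
  have hS0 : 0 < S := by rw [hS]; nlinarith
  set ε := 9 * S / r with hε
  have hε0 : 0 < ε := by positivity
  have hεr : ε * r = 9 * S := by rw [hε]; field_simp
  set Z := ZA X P r1 r2 (2 * R2) with hZ
  have hT : ∀ y ∈ Z, y ∉ K → ‖P y‖ < 2 * R2 := fun y hy hk => by
    linarith [b2 y hy.1 hk hy.2.1 hy.2.2.1]
  have hz0 : ∀ y ∈ Z, y.1 ≠ 0 := fun y hy => norm_pos_iff.1 (hr1.trans_le hy.2.1)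
  let Q : E → ℂ := fun x => P x / x.1
  have hPa : ∀ y ∈ Z, AnalyticAt ℂ P y := fun y hy => h.an y (ZA.ov h2 hy)
  have hQa : ∀ y ∈ Z, AnalyticAt ℂ Q y := fun y hy => (hPa y hy).div analyticAt_fst (hz0 y hy)
  have hIm : ∀ c : ℝ, c = 1 ∨ c = -1 → ∀ y ∈ Z, r / 3 ≤ ‖y.1‖ → ‖y.1‖ ≤ 3 * r →
      c * (Q y).im ≤ ε := by
    intro c hc y hy p1 p2
    have hre : ∀ x, (-(c : ℂ) * Complex.I * Q x).re = c * (Q x).im := fun x => by simp
    have hle : ∀ x, c * (Q x).im ≤ |(Q x).im| := fun x => by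
      rcases hc with e | e <;> rw [e]
      · rw [one_mul]; exact le_abs_self _
      · rw [neg_one_mul]; exact neg_le_abs _
    have hn : ∀ x, c * (Q x).im ≤ ‖P x‖ / ‖x.1‖ := fun x =>
      (hle x).trans ((Complex.abs_im_le_norm _).trans (norm_div _ _).le)
    have k := h.bar hr1 h2 (F := fun x => -(c : ℂ) * Complex.I * Q x)
      (fun y hy => analyticAt_const.mul (hQa y hy)) (a1 := R1 / r1) (a2 := R2 / r2)
      (c0 := 4 * ι * R2 / r1) (by positivity) (by positivity) (by positivity) hT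
      (fun y hy hk => by
        rw [hre]
        rcases hK y hy.1 hy.2.1 hy.2.2.1 hk with e | e
        · simp only [Q, e, zero_div, Complex.zero_im, mul_zero]; positivity
        · have := im_div_le hι (h1.trans hy.2.1) (h.up y (ZA.ov h2 hy)) e.1 e.2.1 hy.2.2.2
          have a : 2 * ι * (2 * R2) / ‖y.1‖ ≤ 4 * ι * R2 / r1 := by
            rw [show 2 * ι * (2 * R2) = 4 * ι * R2 by ring]
            exact div_le_div_of_nonneg_left (by positivity) hr1 hy.2.1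
          linarith [hle y])
      (fun y hy hk e => by
        rw [hre]
        refine (hn y).trans ?_
        rw [e]
        exact div_le_div_of_nonneg_right (b1 y hy.1 hk e) hr1.le)
      (fun y hy hk e => by
        rw [hre]
        refine (hn y).trans ?_
        rw [e]
        exact div_le_div_of_nonneg_right (b2 y hy.1 hk hy.2.1 hy.2.2.1) hr2.le) y hy
    simp only [hre] at k
    have n0 : 0 < ‖y.1‖ := by linarith
    have a1 : 3 * (R1 / r1) * r1 / ‖y.1‖ ≤ 9 * R1 / r := by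
      rw [mul_assoc, div_mul_cancel₀ _ hr1.ne', div_le_div_iff₀ n0 hr]
      nlinarith
    have a2 : ‖y.1‖ ^ 2 / r2 ^ 2 + 2 * y.1.im / r2 ≤ 9 * r / r2 := by
      have c1 : ‖y.1‖ ^ 2 / r2 ^ 2 ≤ ‖y.1‖ / r2 := by
        rw [div_le_div_iff₀ (by positivity) hr2]
        nlinarith [hy.2.2.1, mul_pos n0 hr2]
      have c2 : 2 * y.1.im / r2 ≤ 6 * r / r2 :=
        div_le_div_of_nonneg_right (by linarith [Complex.im_le_norm y.1]) hr2.le
      have c3 : ‖y.1‖ / r2 ≤ 3 * r / r2 := div_le_div_of_nonneg_right p2 hr2.le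
      have : 9 * r / r2 = 3 * r / r2 + 6 * r / r2 := by ring
      linarith
    have a3 := mul_le_mul_of_nonneg_left a2 (show 0 ≤ R2 / r2 by positivity)
    have a4 : 4 * ι * R2 / r1 + 9 * R1 / r + R2 / r2 * (9 * r / r2) ≤ ε := by
      rw [hε, le_div_iff₀ hr, hS]
      have e1 : (4 * ι * R2 / r1 + 9 * R1 / r + R2 / r2 * (9 * r / r2)) * r =
          4 * (R2 * (ι * r / r1)) + 9 * R1 + 9 * (R2 * (r ^ 2 / r2 ^ 2)) := by field_simp
      rw [e1]
      nlinarith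
    linarith
  have hI : ∀ y ∈ Z, r / 3 ≤ ‖y.1‖ → ‖y.1‖ ≤ 3 * r → |(Q y).im| ≤ ε := fun y hy p1 p2 =>
    abs_le.2 ⟨by linarith [hIm (-1) (Or.inr rfl) y hy p1 p2],
      by linarith [hIm 1 (Or.inl rfl) y hy p1 p2]⟩
  have hpos : ∀ y ∈ Z, r / 3 ≤ ‖y.1‖ → ‖y.1‖ ≤ 3 * r → y.1.im ≤ κ * ‖y.1‖ →
      -(Q y * y.1).re ≤ ε * r := by
    intro y hy p1 p2 p3
    have hn : ∀ x, (-P x).re ≤ ‖P x‖ := fun x => (Complex.re_le_norm _).trans (norm_neg _).le
    have k := h.bar hr1 h2 (F := fun x => -P x) (fun y hy => (hPa y hy).neg) (a1 := R1) (a2 := R2)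
      (c0 := 0) hR1 hR2.le le_rfl hT
      (fun y hy hk => by
        rcases hK y hy.1 hy.2.1 hy.2.2.1 hk with e | e
        · simp [e]
        · simp only [Complex.neg_re]; linarith [e.2.2])
      (fun y hy hk e => (hn y).trans (b1 y hy.1 hk e))
      (fun y hy hk _ => (hn y).trans (b2 y hy.1 hk hy.2.1 hy.2.2.1)) y hy
    simp only [Complex.neg_re] at k
    have n0 : 0 < ‖y.1‖ := by linarith
    simp only [Q]
    rw [div_mul_cancel₀ _ (hz0 y hy), hεr, hS]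
    have a1 : 3 * R1 * r1 / ‖y.1‖ ≤ 3 * R1 := by
      rw [div_le_iff₀ n0]
      exact mul_le_mul_of_nonneg_left hy.2.1 (by positivity)
    have a2 : ‖y.1‖ ^ 2 / r2 ^ 2 ≤ 9 * (r ^ 2 / r2 ^ 2) := by
      rw [← mul_div_assoc]
      exact div_le_div_of_nonneg_right (by nlinarith) (by positivity)
    have a3 : 2 * y.1.im / r2 ≤ 6 * (κ * r / r2) := by
      rw [← mul_div_assoc]
      exact div_le_div_of_nonneg_right (by nlinarith) hr2.le
    have a4 := mul_le_mul_of_nonneg_left (add_le_add a2 a3) hR2.le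
    nlinarith
  set Z2 : Set E := Z ∩ {y | κ * r / 7 ≤ y.1.im} with hZ2
  have hc2 : IsCompact Z2 := (h.cpt h2).inter_right
    (isClosed_le continuous_const (Complex.continuous_im.comp continuous_fst))
  have hup : ∀ y ∈ Z2, 0 < y.1.im := fun y hy => lt_of_lt_of_le (by positivity) hy.2
  have pi3 := Real.pi_gt_three
  have hgood : ∀ y ∈ Z2, r / 3 < ‖y.1‖ → ‖y.1‖ < 3 * r → κ ≤ y.1.arg → y.1.arg ≤ Real.pi - κ →
      P y ≠ 0 → NoPeak Z2 y := by
    intro y hy p1 p2 p3 p4 p5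
    have a1 := im_lower hκ.le p3 p4
    have a2 : κ * r / 7 < y.1.im := by nlinarith [mul_pos hκ hr]
    have yK : y ∉ K := fun hk => by
      rcases hK y hy.1.1 hy.1.2.1 hy.1.2.2.1 hk with e | e
      · exact p5 e
      · linarith [e.1]
    refine np_of (h.nop hy.1.1 (hy.1.2.2.1.trans h2) yK) ?_
    filter_upwards [h.ev h2 hy.1.1 (show r1 < ‖y.1‖ by linarith) (show ‖y.1‖ < r2 by linarith)
      (hT y hy.1 yK), continuousAt_const.eventually_lt
        (Complex.continuous_im.comp continuous_fst).continuousAt a2] with x a b hx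
    exact ⟨a hx, b.le⟩
  have hne : ∀ (c : ℝ) (y : E), 7 * ε < ((c : ℂ) * Q y).re → P y ≠ 0 := fun c y hlt e => by
    simp only [Q, e, zero_div, mul_zero, Complex.zero_re] at hlt
    linarith
  have main : ∀ c θ0 θ1 : ℝ, (c = 1 ∧ θ0 = κ ∧ θ1 = Real.pi - κ) ∨
      (c = -1 ∧ θ0 = Real.pi - κ ∧ θ1 = κ) → ∀ y ∈ Z2, ‖y.1‖ = r → τ * r ≤ y.1.im →
      c * (Q y).re ≤ 7 * ε + ε * Lam (τ / 2) := by
    intro c θ0 θ1 hc y hy e him
    have hc' : c = 1 ∨ c = -1 := hc.imp And.left And.left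
    have hΘ : c * (θ1 - θ0) = Real.pi - 2 * κ := by
      rcases hc with ⟨a, b, d⟩ | ⟨a, b, d⟩ <;> rw [a, b, d] <;> ring
    have k := sect hc2 hup (Q := fun x => (c : ℂ) * Q x)
      (fun y hy => (analyticAt_const.mul (hQa y hy.1)).continuousAt.continuousWithinAt)
      (θ0 := θ0) (θ1 := θ1) (m := 7 * ε) (τ := τ / 2) hr hc' (by rw [hΘ]; linarith)
      (by rw [hΘ]; linarith) hε0 (by linarith)
      (fun y hy p1 p2 => by
        rw [Complex.im_ofReal_mul, abs_mul]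
        rcases hc' with a | a <;> simpa [a] using hI y hy.1 p1 p2)
      (fun y hy p1 p2 p3 => by
        rw [Complex.re_ofReal_mul]
        have q1 := Complex.norm_mul_cos_arg y.1
        have q2 := Complex.norm_mul_sin_arg y.1
        have q3 : y.1.im ≤ κ * ‖y.1‖ := by
          have : Real.sin y.1.arg = Real.sin κ := by
            rcases hc with ⟨_, _, d⟩ | ⟨_, _, d⟩ <;> rw [p3, d]
            exact Real.sin_pi_sub κ
          rw [← q2, this]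
          nlinarith [Real.sin_le hκ.le, norm_nonneg y.1]
        refine ray_re hr p1 hκ.le (by linarith) hc' ?_ (hup y hy).le q3 (hI y hy.1 p1 p2)
          (hpos y hy.1 p1 p2 q3) rfl
        rw [← q1, p3]
        rcases hc with ⟨a, _, d⟩ | ⟨a, _, d⟩ <;> rw [a, d]
        · rw [Real.cos_pi_sub]; ring
        · ring)
      (fun y hy p1 p2 p3 p4 p5 => by
        refine ⟨hgood y hy p1 p2 ?_ ?_ (hne c y p5), analyticAt_const.mul (hQa y hy.1)⟩ <;>
        rcases hc with ⟨a, b, d⟩ | ⟨a, b, d⟩ <;> rw [a, b] at p3 p4 <;> rw [d] at p4 <;> linarith)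
      y hy e
    obtain ⟨g1, g2⟩ := arg_bounds (t := τ) (hup y hy) (by rw [e]; exact him)
    rw [Complex.re_ofReal_mul] at k
    refine k ?_ ?_ <;> rcases hc with ⟨a, b, d⟩ | ⟨a, b, d⟩ <;> simp only [a, b, d] <;> linarith
  intro y hy hk e him
  have yZ : y ∈ Z := ⟨hy, by linarith, by linarith,
    by linarith [b2 y hy hk (by linarith) (by linarith)]⟩
  have yZ2 : y ∈ Z2 := ⟨yZ, show κ * r / 7 ≤ y.1.im by nlinarith [mul_pos hκ hr]⟩
  have m1 := main 1 _ _ (Or.inl ⟨rfl, rfl, rfl⟩) y yZ2 e him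
  have m2 := main (-1) _ _ (Or.inr ⟨rfl, rfl, rfl⟩) y yZ2 e him
  have m3 := hI y yZ (by linarith) (by linarith)
  have m4 : |(Q y).re| ≤ 7 * ε + ε * Lam (τ / 2) := abs_le.2 ⟨by linarith, by linarith⟩
  have m5 := Complex.norm_le_abs_re_add_abs_im (Q y)
  have m6 : ‖P y‖ = ‖Q y‖ * r := by
    simp only [Q, norm_div, e]; field_simp
  rw [m6]
  calc ‖Q y‖ * r ≤ (8 + Lam (τ / 2)) * ε * r := mul_le_mul_of_nonneg_right (by linarith) hr.le
    _ = 9 * (8 + Lam (τ / 2)) * S := by rw [mul_assoc, hεr]; ring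

end Pool.Agent.Lib.SH.QL
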