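import Pool.Agent.Lib.SH.Win
import Pool.Agent.Lib.SH.B_AWG
import Pool.Agent.Lib.SH.B_PWG
import Pool.Agent.Lib.SH.B_PPF

/-!
Ring walls in the annulus chart and their annulus, box and port forms.
-/

open Set Filter Topology Metric

noncomputable section

namespace Pool.Agent.Lib.SH.Ring

open Win

variable {I : Type} [Fintype I]

/-- sum of profiles of the depth times directions -/
def zs (Ef : I → ℝ → ℝ) (u : I → ℂ → ℂ) (z : ℂ) : ℂ := ∑ i, (Ef i (-Real.log ‖z‖) : ℂ) * u i z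

/-- wall data over the thin annulus of depth at most `2 t` -/
structure RW (Ef Ef' : I → ℝ → ℝ) (u : I → ℂ → ℂ) (a : I → ℝ) (Θ : E → ℂ) (e om : ℝ)
    (Cf : ℂ → ℝ) (t r : ℝ) : Prop where
  der : ∀ i, ∀ y ∈ Icc (-(2 * t)) (2 * t), HasDerivAt (Ef i) (Ef' i y) y ∧ 0 ≤ Ef' i y
  dir : ∀ y ∈ Icc (-(2 * t)) (2 * t), (∀ i, ∀ᶠ s in 𝓝 y, Ef i s = 0) ∨
    ((∀ z : ℂ, ‖z‖ = Real.exp (-y) → ∀ᶠ x in 𝓝 z, ∑ i, (a i : ℂ) * u i x = e) ∧
      ∀ i, ((∀ᶠ s in 𝓝 y, Ef i s = 0) ∧ a i = 0) ∨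
        ∀ z : ℂ, ‖z‖ = Real.exp (-y) → DirZ (u i) om (Cf z) z)
  steep : ∀ y ∈ Icc (-(2 * t)) (2 * t), ∀ z : ℂ, ‖z‖ = Real.exp (-y) →
    ∑ i, |Ef i y| * ‖u i z‖ ≤ t / 4 * ∑ i, Ef' i y * ‖u i z‖ ∨
      ∑ i, |Ef i y - a i| * ‖u i z‖ ≤ t / 4 * ∑ i, Ef' i y * ‖u i z‖
  coh : ∀ y ∈ Icc (-(2 * t)) (2 * t), (Coh fun i => Ef i y) ∧ Coh fun i => Ef i y - a i
  er : 0 ≤ e ∧ e ≤ r
  th : ∀ y ∈ Icc (-(2 * t)) (2 * t), ∀ z : ℂ, ‖z‖ = Real.exp (-y) →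
    ‖∑ i, (Ef i y : ℂ) * u i z‖ ≤ r ∧ Th Θ e om r z

variable {Ef Ef' : I → ℝ → ℝ} {u : I → ℂ → ℂ} {a : I → ℝ} {Θ : E → ℂ} {e om t r : ℝ}
  {Cf : ℂ → ℝ} {x : ℂ} {δ : ℝ}

theorem norm_pt (hx : ‖x‖ = 1) (s y : ℝ) :
    ‖wch x δ 0 (s + y * Complex.I)‖ = Real.exp (-(δ * y)) := by
  rw [norm_wch hx]; simp

theorem mem_sc (hδ : 0 < δ) {y : ℝ} (hy : y ∈ Icc (-(2 * (t / δ))) (2 * (t / δ))) :
    δ * y ∈ Icc (-(2 * t)) (2 * t) := by
  have h1 : δ * (t / δ) = t := by field_simp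
  constructor <;> nlinarith [hy.1, hy.2]

/-- the wall in a window chart -/
theorem RW.ws2 (h : RW Ef Ef' u a Θ e om Cf t r) (hx : ‖x‖ = 1) (hδ : 0 < δ) (hδ1 : δ ≤ 1)
    (ho : 0 < om) (ht : t ≤ 1 / 4) {J : Set ℝ} {om' C' : ℝ} (h1 : 2 * om ≤ om')
    (h2 : ∀ s ∈ J, ∀ y : ℝ, |δ * y| ≤ 2 * t → δ * Cf (wch x δ 0 (s + y * Complex.I)) ≤ C') :
    WS2 J (fun i s => Ef i (δ * s)) (fun i s => δ * Ef' i (δ * s))
      (fun i z => u i (wch x δ 0 z)) a (fun y => Θ (wch x δ 0 y.1, y.2)) e om' C' (t / δ) r where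
  der := fun i y hy => by
    obtain ⟨a1, a2⟩ := h.der i _ (mem_sc hδ hy)
    refine ⟨?_, mul_nonneg hδ.le a2⟩
    have := a1.comp y ((hasDerivAt_id y).const_mul δ)
    rw [mul_one, mul_comm] at this
    exact this
  dir := fun y hy => by
    rcases h.dir _ (mem_sc hδ hy) with a0 | ⟨a1, a2⟩
    · exact Or.inl fun i => AWG.ev_aff (a0 i)
    refine Or.inr ⟨fun s _ => (an_wch x δ 0 _).continuousAt.eventually (a1 _ (norm_pt hx s y)),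
      fun i => (a2 i).imp (fun b => ⟨AWG.ev_aff b.1, b.2⟩) fun b s hs =>
        dir_wch hδ (b _ (norm_pt hx s y)) (by linarith) (by nlinarith)
          (h2 s hs y (abs_le.2 (mem_sc hδ hy))) ho⟩
  steep := fun s _ y hy => by
    have e1 : t / δ / 4 * ∑ i, δ * Ef' i (δ * y) * ‖u i (wch x δ 0 (s + y * Complex.I))‖ =
        t / 4 * ∑ i, Ef' i (δ * y) * ‖u i (wch x δ 0 (s + y * Complex.I))‖ := by
      rw [Finset.mul_sum, Finset.mul_sum]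
      exact Finset.sum_congr rfl fun i _ => by field_simp
    simp only [Steep, e1, sub_zero]
    exact h.steep _ (mem_sc hδ hy) _ (norm_pt hx s y)
  coh := fun y hy => h.coh _ (mem_sc hδ hy)
  er := h.er
  th := fun s _ y hy => by
    obtain ⟨a1, a2⟩ := h.th _ (mem_sc hδ hy) _ (norm_pt hx s y)
    refine ⟨a1, AWG.th_mono (by linarith) le_rfl
      (AWG.th_bc (B := 2) (an_wch x δ 0 _) ?_ one_le_two ho.le a2)⟩
    rw [(hasDerivAt_wch x δ 0 _).deriv, norm_mul, norm_pt hx, norm_mul, Complex.norm_I, one_mul,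
      Complex.norm_real, Real.norm_of_nonneg hδ.le]
    have b1 : Real.exp (-(δ * y)) ≤ Real.exp (1 / 2) :=
      Real.exp_le_exp.2 (by linarith [(mem_sc hδ hy).1])
    have b2 : Real.exp (1 / 2) ≤ 2 := by
      have := Real.exp_one_lt_d9
      have b3 : Real.exp (1 / 2) ^ 2 = Real.exp 1 := by rw [← Real.exp_nat_mul]; norm_num
      nlinarith [Real.exp_pos (1 / 2)]
    nlinarith [Real.exp_pos (-(δ * y))]

theorem wch_one (z : ℂ) : wch 1 1 0 z = Complex.exp (Complex.I * z) := by simp [wch]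

/-- the wall in the strip chart -/
theorem RW.ws0 (h : RW Ef Ef' u a Θ e om Cf t r) (ho : 0 < om) (ht : t ≤ 1 / 4) {J : Set ℝ}
    {om' C' : ℝ} (h1 : 2 * om ≤ om') (h2 : ∀ s ∈ J, ∀ y : ℝ, |y| ≤ 2 * t →
      Cf (Complex.exp (Complex.I * (s + y * Complex.I))) ≤ C') :
    WS2 J Ef Ef' (fun i z => u i (Complex.exp (Complex.I * z))) a
      (fun y => Θ (Complex.exp (Complex.I * y.1), y.2)) e om' C' t r := by
  have := h.ws2 (x := 1) (δ := 1) (J := J) (C' := C') norm_one one_pos le_rfl ho ht h1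
    fun s hs y hy => by rw [one_mul] at hy ⊢; rw [wch_one]; exact h2 s hs y hy
  simpa only [one_mul, div_one, wch_one] using this

/-- description of `K` over `Ω` at the points with the property `big` -/
def KW (X K : Set E) (V : E → ℂ) (f : ℂ → ℂ) (Ω : Set ℂ) (t : ℝ) (big : E → Prop) : Prop :=
  ∀ y ∈ ov X Ω, big y → (y ∈ K → |Real.log ‖y.1‖| ≤ t ∧ V y = f y.1) ∧
    (|Real.log ‖y.1‖| ≤ 2 * t → V y = f y.1 → y ∈ K)

theorem KW.mono {X K : Set E} {V : E → ℂ} {f : ℂ → ℂ} {Ω Ω' : Set ℂ} {big big' : E → Prop}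
    (h : KW X K V f Ω t big) (h1 : Ω' ⊆ Ω) (h2 : ∀ y ∈ ov X Ω', big' y → big y) :
    KW X K V f Ω' t big' := fun y hy hb => h y ⟨hy.1, h1 hy.2⟩ (h2 y hy hb)

theorem exp_shift (s : ℝ) {y : ℝ} (hy : |y| ≤ 1) :
    ‖Complex.exp (Complex.I * (s + y * Complex.I)) - Complex.exp (Complex.I * s)‖ ≤ 2 * |y| := by
  have h1 : Complex.exp (Complex.I * (s + y * Complex.I)) - Complex.exp (Complex.I * s) =
      Complex.exp (Complex.I * s) * (Complex.exp (-y : ℝ) - 1) := by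
    rw [mul_sub, mul_one, ← Complex.exp_add]
    congr 2
    push_cast
    linear_combination (y : ℂ) * Complex.I_mul_I
  have h2 : ‖((-y : ℝ) : ℂ)‖ = |y| := by simp
  rw [h1, norm_mul, Complex.norm_exp_I_mul_ofReal, one_mul, ← h2]
  exact Complex.norm_exp_sub_one_le (by rwa [h2])

/-- annulus form -/
theorem aw_of (ι C : ℝ) (hι : 0 < ι) (hC : 0 ≤ C) : ∃ o > (0 : ℝ), ∀ (I W : Type) [Fintype I]
    (x : W → ℂ) (ρ0 : W → ℝ) (X K : Set E) (V : E → ℂ) (Ef Ef' : I → ℝ → ℝ) (u : I → ℂ → ℂ)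
    (a : I → ℝ) (Θ : E → ℂ) (e om h t r : ℝ) (Cf : ℂ → ℝ), 0 < t → t ≤ o → 0 < om → om ≤ o →
    (∀ j, 8 * t ≤ ρ0 j) → RW Ef Ef' u a Θ e om Cf t r →
    (∀ z : ℂ, |Real.log ‖z‖| ≤ 2 * t → (∀ j, ρ0 j / 2 ≤ ‖z - x j‖) → Cf z ≤ C) →
    KW X K V (fun z => Θ (z, zs Ef u z)) (annW h x ρ0) t (fun y => pp e (V y) ≠ 0) →
    (∀ y ∈ ov X (annW h x ρ0), y ∉ K → ‖y.1‖ ≤ Real.exp ι) →
    AW X K V e ι (cW C) h x ρ0 := by
  obtain ⟨o, ho, H⟩ := st_awg st_pwg ι C hι hC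
  refine ⟨min (o / 2) (1 / 4), by positivity, ?_⟩
  intro I W _ x ρ0 X K V Ef Ef' u a Θ e om h t r Cf t0 t1 o0 o1 hρ hW hf hK hU
  have t2 := t1.trans (min_le_left _ _)
  have t3 := t1.trans (min_le_right _ _)
  refine H I W x ρ0 X K V Ef Ef' u a Θ e h t r t0 (by linarith) (hW.ws0 o0 t3
    (by linarith [o1.trans (min_le_left _ _)]) fun s hs y hy => hf _ ?_ fun j => ?_)
    (fun y hy hk hp => (hK y hy hp).1 hk) (fun y hy hp => (hK y hy hp).2) hU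
  · rwa [← abs_neg, AWS.log_exp]
  · have b1 := exp_shift s (y := y) (by linarith)
    have b2 := norm_sub_le_norm_sub_add_norm_sub (Complex.exp (Complex.I * s))
      (Complex.exp (Complex.I * (s + y * Complex.I))) (x j)
    rw [norm_sub_rev (Complex.exp (Complex.I * s)) (Complex.exp _)] at b2
    linarith [hs j, hρ j]

theorem re_im (z : ℂ) : ((z.re : ℂ) + z.im * Complex.I) = z := Complex.re_add_im z

theorem wth_wch (hx : ‖x‖ = 1) (z : ℂ) :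
    wth (fun i s => Ef i (δ * s)) (fun i z => u i (wch x δ 0 z))
      (fun y => Θ (wch x δ 0 y.1, y.2)) z.re z.im =
      Θ (wch x δ 0 z, zs Ef u (wch x δ 0 z)) := by
  simp only [wth, wsum, re_im, zs, log_wch hx, add_zero]

theorem abs_log_wch (hx : ‖x‖ = 1) (hδ : 0 < δ) (z : ℂ) :
    |Real.log ‖wch x δ 0 z‖| = δ * |z.im| := by
  rw [← abs_neg, log_wch hx, add_zero, abs_mul, abs_of_pos hδ]

/-- box form in a window chart -/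
theorem wb_of (ι C : ℝ) (hι : 0 < ι) (hC : 0 ≤ C) : ∃ o > (0 : ℝ), ∀ (I : Type) [Fintype I]
    (X K : Set E) (Q V : E → ℂ) (g : ℂ → ℂ) (Ef Ef' : I → ℝ → ℝ) (u : I → ℂ → ℂ) (a : I → ℝ)
    (Θ : E → ℂ) (Cf : ℂ → ℝ) (Ω : Set ℂ) (x : ℂ) (e e0 om δ x0 r t Λ lv lev rr : ℝ) (pw : ℕ),
    ‖x‖ = 1 → 0 < δ → δ ≤ 1 → 0 < r → 0 < t → t ≤ 1 / 4 → t ≤ o * (δ * r) → 0 < om →
    om ≤ o * min 1 r⁻¹ → (pw = 1 ∨ pw = 2) → (∀ z ∈ box x0 r r, wch x δ 0 z ∈ Ω) →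
    AnalyticOnNhd ℂ V (ov X Ω) →
    (∀ z ∈ box x0 r r, AnalyticAt ℂ g z ∧ r * ‖deriv g z‖ ≤ Λ ∧ (z.im = 0 → |(g z).im| ≤ ι) ∧
      lev * Real.exp (g z).re ≤ lv ^ pw) →
    (∀ y : E, y.1 ∈ box x0 r r → Q (bc (wch x δ 0) y) ^ pw =
      pp e (V (bc (wch x δ 0) y)) * Complex.exp (g y.1)) →
    RW Ef Ef' u a Θ e0 om Cf t rr → Rd e e0 lev →
    (∀ z ∈ box x0 r r, δ * |z.im| ≤ 2 * t → r * (δ * Cf (wch x δ 0 z)) ≤ C) →
    (∀ y ∈ ov (bc (wch x δ 0) ⁻¹' X) (box x0 r r), lv < ‖Q (bc (wch x δ 0) y)‖ →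
      (y ∈ bc (wch x δ 0) ⁻¹' K → δ * |y.1.im| ≤ t ∧
        V (bc (wch x δ 0) y) = Θ (wch x δ 0 y.1, zs Ef u (wch x δ 0 y.1))) ∧
      (δ * |y.1.im| ≤ 2 * t →
        V (bc (wch x δ 0) y) = Θ (wch x δ 0 y.1, zs Ef u (wch x δ 0 y.1)) →
        y ∈ bc (wch x δ 0) ⁻¹' K)) →
    WB (bc (wch x δ 0) ⁻¹' X) (bc (wch x δ 0) ⁻¹' K) (fun y => Q (bc (wch x δ 0) y)) x0 r ι
      (cW C) Λ lv := by
  obtain ⟨o, ho, H⟩ := st_wbg st_pwg ι C hι hC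
  refine ⟨min (o / 2) (1 / 2), by positivity, ?_⟩
  intro I _ X K Q V g Ef Ef' u a Θ Cf Ω x e e0 om δ x0 r t Λ lv lev rr pw hx d0 d1 r0 t0 t1 t2
    o0 o1 hpw hΩ hV hg hQ hW hR hf hK
  have m0 : 0 < min 1 r⁻¹ := lt_min one_pos (inv_pos.2 r0)
  have b1 := min_le_left (o / 2) (1 / 2)
  have b2 := min_le_right (o / 2) (1 / 2)
  have b3 : 0 < δ * r := mul_pos d0 r0
  have t3 : 2 * (t / δ) ≤ r := by
    rw [← mul_div_assoc, div_le_iff₀ d0]; nlinarith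
  refine H I _ _ _ (fun y => V (bc (wch x δ 0) y)) g _ _ _ a _ e e0 x0 r (t / δ) Λ lv lev rr pw r0
    (by positivity) (by rw [div_le_iff₀ d0]; nlinarith) t3 hpw
    (an_pull hV fun z hz => ⟨an_wch x δ 0 z, hΩ z hz⟩) hg hQ
    (hW.ws2 hx d0 d1 o0 t1 (by nlinarith) fun s hs y hy => ?_) hR
    (fun y hy hk hl => ?_) fun y hy hl c1 c2 => ?_
  · rw [abs_mul, abs_of_pos d0] at hy
    rw [le_div_iff₀ r0, mul_comm]
    refine hf _ ⟨?_, ?_⟩ (by simpa using hy)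
    · simpa [abs_le] using ⟨by linarith [hs.1], by linarith [hs.2]⟩
    · have : |y| ≤ r := by nlinarith [abs_nonneg y]
      simpa using this
  · obtain ⟨c1, c2⟩ := (hK y hy hl).1 hk
    exact ⟨by rw [le_div_iff₀ d0]; linarith, by rw [wth_wch hx]; exact c2⟩
  · rw [wth_wch hx] at c2
    rw [← mul_div_assoc, le_div_iff₀ d0] at c1
    exact (hK y hy hl).2 (by linarith) c2

end Pool.Agent.Lib.SH.Ring
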